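import Pool.Agent.Work.MP_5532fa_up.Interface

/-!
# MP_5532fa_co upgrade, block ACC: accounting
-/

open Finset

namespace Pool.Agent.Work.MP_5532fa_up

open MP5532fa (specRad qf pE)

namespace ACC

/-- first claim, real form -/
theorem real1 {a K Kr r N M lam imb mis Sg eu j pE C1 : ℝ}
    (ha : 2 / 3 ≤ a) (ha1 : a < 1) (hK : 1 ≤ K) (hKr : 1 ≤ Kr) (hr : 3 ≤ r) (hN : 1 ≤ N)
    (hM0 : 0 ≤ M) (hlam : N / 2 ≤ lam) (hlamN : |lam - a * N| ≤ Kr)
    (himb0 : 0 ≤ imb) (himb : imb ≤ 4 * r * K ^ 2 * N) (hmis0 : 0 ≤ mis) (hmis : mis ≤ 2 * K * N)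
    (hSg0 : 0 ≤ Sg) (hSg : Sg ≤ 2 * K * N) (heu0 : 0 ≤ eu) (heu : eu ≤ 2 * K * N)
    (hj0 : 0 ≤ j) (hj : j ≤ a * N) (hE : a * M ^ 2 - imb - mis + 2 * Sg + eu = pE)
    (hp : |pE - a * N ^ 2 - 2 * j| ≤ r) (hC1 : C1 = 4 * r * K ^ 2 + 8 * K + 2 + r) :
    |N - M| ≤ 2 * C1 ∧
    |Sg / lam + eu / (2 * a * N) - imb / (2 * a * N) - mis / (2 * a * N) - (N - M) - j / (a * N)|
      ≤ (8 * K * Kr + r + 2 * C1 ^ 2) / N := by
  have hN0 : 0 < N := by linarith
  have ha0 : 0 < a := by linarith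
  have hlam0 : 0 < lam := by linarith
  have hp' := abs_le.1 hp
  have hC1pos : 0 < C1 := by rw [hC1]; positivity
  have haN' : 2 / 3 * N ≤ a * N := mul_le_mul_of_nonneg_right ha hN0.le
  have haN1 : a * N ≤ 1 * N := mul_le_mul_of_nonneg_right ha1.le hN0.le
  have hrN : r * 1 ≤ r * N := mul_le_mul_of_nonneg_left hN (by linarith)
  have hKN : 0 ≤ K * N := mul_nonneg (by linarith) hN0.le
  have hjN : j ≤ N := by linarith
  have h1 : |a * (N ^ 2 - M ^ 2)| ≤ C1 * N := by
    rw [abs_le, hC1]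
    have q1 : 0 ≤ 4 * r * K ^ 2 * N := himb0.trans himb
    constructor
    · linarith [hp'.1, hp'.2]
    · linarith [hp'.1, hp'.2]
  have h2 : |N - M| ≤ 2 * C1 := by
    have e1 : a * (N ^ 2 - M ^ 2) = a * (N + M) * (N - M) := by ring
    rw [e1, abs_mul, abs_of_pos (by positivity : 0 < a * (N + M))] at h1
    have e2 : (1 / 2) * N * |N - M| ≤ a * (N + M) * |N - M| := by
      apply mul_le_mul_of_nonneg_right _ (abs_nonneg _)
      have q := mul_nonneg ha0.le hM0
      linarith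
    have e3 : (1 / 2) * N * |N - M| ≤ C1 * N := e2.trans h1
    have e4 : N * |N - M| ≤ N * (2 * C1) := by linarith
    exact le_of_mul_le_mul_left e4 hN0
  refine ⟨h2, ?_⟩
  have haN : 0 < a * N := by positivity
  have key : Sg / lam + eu / (2 * a * N) - imb / (2 * a * N) - mis / (2 * a * N) - (N - M)
      - j / (a * N) = Sg * (a * N - lam) / (lam * (a * N)) + (pE - a * N ^ 2 - 2 * j) / (2 * a * N)
        - (N - M) ^ 2 / (2 * N) := by
    rw [← hE]
    field_simp
    ring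
  rw [key]
  have t1 : |Sg * (a * N - lam) / (lam * (a * N))| ≤ 8 * K * Kr / N := by
    rw [abs_div, abs_mul, abs_of_nonneg hSg0, abs_of_pos (by positivity : 0 < lam * (a * N)),
      div_le_div_iff₀ (by positivity) hN0, abs_sub_comm]
    have e1 : Sg * |lam - a * N| ≤ 2 * K * N * Kr := by
      apply mul_le_mul hSg hlamN (abs_nonneg _) (by positivity)
    have e2 : N / 2 * (N / 2) ≤ lam * (a * N) := by
      apply mul_le_mul hlam _ (by linarith) hlam0.le
      linarith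
    calc Sg * |lam - a * N| * N ≤ 2 * K * N * Kr * N := mul_le_mul_of_nonneg_right e1 hN0.le
      _ = 8 * K * Kr * (N / 2 * (N / 2)) := by ring
      _ ≤ 8 * K * Kr * (lam * (a * N)) := mul_le_mul_of_nonneg_left e2 (by positivity)
  have t2 : |(pE - a * N ^ 2 - 2 * j) / (2 * a * N)| ≤ r / N := by
    rw [abs_div, abs_of_pos (by positivity : 0 < 2 * a * N), div_le_div_iff₀ (by positivity) hN0]
    have e1 : |pE - a * N ^ 2 - 2 * j| * N ≤ r * N := mul_le_mul_of_nonneg_right hp hN0.le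
    have e2 : r * N ≤ r * (2 * a * N) := by
      apply mul_le_mul_of_nonneg_left _ (by linarith)
      linarith
    linarith
  have t3 : |(N - M) ^ 2 / (2 * N)| ≤ 2 * C1 ^ 2 / N := by
    rw [abs_div, abs_of_nonneg (sq_nonneg _), abs_of_pos (by positivity : 0 < 2 * N),
      div_le_div_iff₀ (by positivity) hN0]
    have e1 : (N - M) ^ 2 ≤ (2 * C1) ^ 2 := by
      rw [← sq_abs]
      exact pow_le_pow_left₀ (abs_nonneg _) h2 2
    calc (N - M) ^ 2 * N ≤ (2 * C1) ^ 2 * N := mul_le_mul_of_nonneg_right e1 hN0.le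
      _ = 2 * C1 ^ 2 * (2 * N) := by ring
  calc |Sg * (a * N - lam) / (lam * (a * N)) + (pE - a * N ^ 2 - 2 * j) / (2 * a * N)
        - (N - M) ^ 2 / (2 * N)|
      ≤ |Sg * (a * N - lam) / (lam * (a * N)) + (pE - a * N ^ 2 - 2 * j) / (2 * a * N)|
        + |(N - M) ^ 2 / (2 * N)| := abs_sub _ _
    _ ≤ (|Sg * (a * N - lam) / (lam * (a * N))| + |(pE - a * N ^ 2 - 2 * j) / (2 * a * N)|)
        + |(N - M) ^ 2 / (2 * N)| := add_le_add (abs_add_le _ _) le_rfl
    _ ≤ (8 * K * Kr / N + r / N) + 2 * C1 ^ 2 / N := by linarith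
    _ = (8 * K * Kr + r + 2 * C1 ^ 2) / N := by ring

/-- lower bound for `M - lam / a`, real form -/
theorem real2 {a K Kr Km Ka r N M lam t imb mis S2 mu C1 η : ℝ}
    (ha : 2 / 3 ≤ a) (ha1 : a < 1) (hK : 1 ≤ K) (hKr : 1 ≤ Kr) (hKm : 1 ≤ Km) (hKa : 1 ≤ Ka)
    (hr : 3 ≤ r) (hN : 1 ≤ N) (hM : N / 2 ≤ M) (hlam0 : 0 < lam) (ht0 : 0 < t)
    (hlt : lam * t ≤ a) (htN : |t * N - 1| ≤ Kr / N) (hst : √t ≤ 2 / √N)
    (himb0 : 0 ≤ imb) (himb : imb ≤ 4 * r * K ^ 2 * N) (hmis0 : 0 ≤ mis) (hmis : mis ≤ 2 * K * N)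
    (hS0 : 0 ≤ S2) (hη0 : 0 < η) (hη1 : η ≤ 1) (hNM : |N - M| ≤ 2 * C1) (hC1 : 0 < C1)
    (hmu : mu ≤ a * M - a * imb / M + Km / √M)
    (hl : lam ≤ mu - (1 - η) ^ 2 * t * mis + t / lam * (lam ^ 2 * S2) + Ka * √t) :
    imb / N + (1 - η) ^ 2 * (mis / (a * N)) - S2
      - (4 * Km + 4 * Ka + 16 * r * K ^ 2 * C1 + 4 * K * Kr) / √N ≤ M - lam / a := by
  have hN0 : 0 < N := by linarith
  have ha0 : 0 < a := by linarith
  have hM0 : 0 < M := by linarith
  have hsN : 0 < √N := Real.sqrt_pos.2 hN0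
  have hsN1 : 1 ≤ √N := by rw [Real.one_le_sqrt]; exact hN
  have hNsN : √N ≤ N := by
    rw [Real.sqrt_le_left (by linarith), sq]
    have q := mul_le_mul_of_nonneg_right hN hN0.le
    linarith
  have hsM : √N / 2 ≤ √M := by
    rw [div_le_iff₀ (by norm_num)]
    have : √N ≤ √(M * 4) := Real.sqrt_le_sqrt (by linarith)
    rw [Real.sqrt_mul hM0.le] at this
    have e : √(4 : ℝ) = 2 := by
      rw [show (4 : ℝ) = 2 ^ 2 by norm_num]; exact Real.sqrt_sq (by norm_num)
    rwa [e] at this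
  have hsM0 : 0 < √M := Real.sqrt_pos.2 hM0
  -- the error terms
  have e1 : Km / √M / a ≤ 4 * Km / √N := by
    rw [div_div, div_le_div_iff₀ (by positivity) hsN]
    have q : √M * (2 / 3) ≤ √M * a := mul_le_mul_of_nonneg_left ha hsM0.le
    have this : √N ≤ 4 * (√M * a) := by linarith
    have q2 := mul_le_mul_of_nonneg_left this (by linarith : (0 : ℝ) ≤ Km)
    linarith
  have e2 : Ka * √t / a ≤ 4 * Ka / √N := by
    rw [div_le_div_iff₀ ha0 hsN]
    have h1 : √t * √N ≤ 2 := by rwa [le_div_iff₀ hsN] at hst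
    have h2 : Ka * √t * √N ≤ Ka * 2 := by
      rw [mul_assoc]; exact mul_le_mul_of_nonneg_left h1 (by linarith)
    have q : Ka * (2 / 3) ≤ Ka * a := mul_le_mul_of_nonneg_left ha (by linarith)
    linarith
  have e3 : imb / N - 16 * r * K ^ 2 * C1 / √N ≤ imb / M := by
    have h1 : imb / N - imb / M ≤ 16 * r * K ^ 2 * C1 / N := by
      have h2 : imb / N - imb / M = imb * (M - N) / (N * M) := by field_simp
      rw [h2, div_le_div_iff₀ (by positivity) hN0]
      have h3 : M - N ≤ 2 * C1 := by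
        have := (abs_le.1 hNM).1; linarith
      have h4 : imb * (M - N) ≤ 4 * r * K ^ 2 * N * (2 * C1) := by
        rcases le_or_gt 0 (M - N) with h | h
        · exact mul_le_mul himb h3 h (by positivity)
        · have : imb * (M - N) ≤ 0 := mul_nonpos_of_nonneg_of_nonpos himb0 h.le
          have : 0 ≤ 4 * r * K ^ 2 * N * (2 * C1) := by positivity
          linarith
      calc imb * (M - N) * N ≤ 4 * r * K ^ 2 * N * (2 * C1) * N :=
            mul_le_mul_of_nonneg_right h4 hN0.le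
        _ = 16 * r * K ^ 2 * C1 * (N * (N / 2)) := by ring
        _ ≤ 16 * r * K ^ 2 * C1 * (N * M) := by
            apply mul_le_mul_of_nonneg_left _ (by positivity)
            exact mul_le_mul_of_nonneg_left hM hN0.le
    have h2 : 16 * r * K ^ 2 * C1 / N ≤ 16 * r * K ^ 2 * C1 / √N :=
      div_le_div_of_nonneg_left (by positivity) hsN hNsN
    linarith
  have hη2 : 0 ≤ (1 - η) ^ 2 := sq_nonneg _
  have hη3 : (1 - η) ^ 2 ≤ 1 := pow_le_one₀ (by linarith) (by linarith)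
  have e4 : (1 - η) ^ 2 * (mis / (a * N)) - 4 * K * Kr / √N ≤ (1 - η) ^ 2 * t * mis / a := by
    have h1 : (1 - η) ^ 2 * (mis / (a * N)) - (1 - η) ^ 2 * t * mis / a =
        (1 - η) ^ 2 * (mis * (1 - t * N) / (a * N)) := by field_simp
    have h2 : mis * (1 - t * N) / (a * N) ≤ 4 * K * Kr / N := by
      rw [div_le_div_iff₀ (by positivity) hN0]
      have h3 : 1 - t * N ≤ Kr / N := by
        have := (abs_le.1 htN).1; linarith
      have h4 : mis * (1 - t * N) ≤ 2 * K * N * (Kr / N) := by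
        rcases le_or_gt 0 (1 - t * N) with h | h
        · exact mul_le_mul hmis h3 h (by positivity)
        · have h5 : mis * (1 - t * N) ≤ 0 := mul_nonpos_of_nonneg_of_nonpos hmis0 h.le
          have h6 : 0 ≤ 2 * K * N * (Kr / N) := by positivity
          linarith
      have h5 : 2 * K * N * (Kr / N) = 2 * K * Kr := by field_simp
      rw [h5] at h4
      have h6 : mis * (1 - t * N) * N ≤ 2 * K * Kr * N := mul_le_mul_of_nonneg_right h4 hN0.le
      have h7 : 2 * K * Kr * N ≤ 4 * K * Kr * (a * N) := by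
        have q0 : 0 ≤ 4 * K * Kr * N := by positivity
        have q : 4 * K * Kr * N * (2 / 3) ≤ 4 * K * Kr * N * a := mul_le_mul_of_nonneg_left ha q0
        linarith
      linarith
    have h3 : (1 - η) ^ 2 * (mis * (1 - t * N) / (a * N)) ≤ 4 * K * Kr / N := by
      have h4 : 0 ≤ 4 * K * Kr / N := by positivity
      rcases le_or_gt 0 (mis * (1 - t * N) / (a * N)) with h | h
      · calc (1 - η) ^ 2 * (mis * (1 - t * N) / (a * N)) ≤ 1 * (mis * (1 - t * N) / (a * N)) :=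
              mul_le_mul_of_nonneg_right hη3 h
          _ ≤ _ := by rw [one_mul]; exact h2
      · have := mul_nonpos_of_nonneg_of_nonpos hη2 h.le
        linarith
    have h4 : 4 * K * Kr / N ≤ 4 * K * Kr / √N :=
      div_le_div_of_nonneg_left (by positivity) hsN hNsN
    linarith
  have e5 : t / lam * (lam ^ 2 * S2) / a ≤ S2 := by
    have h1 : t / lam * (lam ^ 2 * S2) / a = lam * t / a * S2 := by field_simp
    rw [h1]
    have h2 : lam * t / a ≤ 1 := by rw [div_le_one ha0]; exact hlt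
    calc lam * t / a * S2 ≤ 1 * S2 := mul_le_mul_of_nonneg_right h2 hS0
      _ = S2 := one_mul _
  have e6 : lam / a ≤ M - imb / M + Km / √M / a - (1 - η) ^ 2 * t * mis / a
      + t / lam * (lam ^ 2 * S2) / a + Ka * √t / a := by
    have h1 : lam ≤ a * M - a * imb / M + Km / √M - (1 - η) ^ 2 * t * mis
        + t / lam * (lam ^ 2 * S2) + Ka * √t := by linarith
    have h2 := div_le_div_of_nonneg_right h1 ha0.le
    have h3 : (a * M - a * imb / M + Km / √M - (1 - η) ^ 2 * t * mis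
        + t / lam * (lam ^ 2 * S2) + Ka * √t) / a = M - imb / M + Km / √M / a
        - (1 - η) ^ 2 * t * mis / a + t / lam * (lam ^ 2 * S2) / a + Ka * √t / a := by
      field_simp
    rwa [h3] at h2
  have e7 : (4 * Km + 4 * Ka + 16 * r * K ^ 2 * C1 + 4 * K * Kr) / √N =
      4 * Km / √N + 4 * Ka / √N + 16 * r * K ^ 2 * C1 / √N + 4 * K * Kr / √N := by ring
  rw [e7]
  linarith

section
variable {V : Type} [Fintype V] {r : ℕ}

theorem dg_le_eo (G : SimpleGraph V) (H : Finset V) : ∑ v ∈ out H, dg G H v ≤ eo G H := by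
  classical
  unfold dg eo
  rw [← Finset.card_sigma]
  refine Finset.card_le_card_of_injOn (fun e => (e.1, e.2)) ?_ ?_
  · intro e he
    have he' := Finset.mem_sigma.1 (Finset.mem_coe.1 he)
    simp only [Finset.coe_filter, Set.mem_ofPred_eq, Finset.mem_univ, true_and]
    exact ⟨(mem_nb.1 he'.2).2, mem_out.1 he'.1⟩
  · rintro ⟨a, b⟩ _ ⟨a', b'⟩ _ h
    simp only [Prod.mk.injEq] at h
    obtain ⟨rfl, rfl⟩ := h
    rfl

theorem eu_le_eo (G : SimpleGraph V) (H : Finset V) : eu G H ≤ eo G H := by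
  classical
  unfold eu eo
  apply Finset.card_le_card
  intro e he
  rw [Finset.mem_filter] at he ⊢
  exact ⟨he.1, he.2.1, he.2.2.1⟩

omit [Fintype V] in
theorem sum_sz (H : Finset V) (c : V → Fin r) : ∑ i, sz H c i = (H.card : ℝ) := by
  unfold sz
  rw [← Nat.cast_sum, sum_card_cl]

omit [Fintype V] in
theorem imb_eq (hr : 3 ≤ r) (H : Finset V) (c : V → Fin r) :
    ∑ i, sz H c i ^ 2 = imb H c + (H.card : ℝ) ^ 2 / r := by
  have hr0 : (r : ℝ) ≠ 0 := by
    have : 0 < r := by omega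
    exact_mod_cast this.ne'
  unfold imb
  have e1 : ∀ i, (sz H c i - (H.card : ℝ) / r) ^ 2 =
      sz H c i ^ 2 - 2 * ((H.card : ℝ) / r) * sz H c i + ((H.card : ℝ) / r) ^ 2 := fun i => by ring
  simp only [e1]
  rw [Finset.sum_add_distrib, Finset.sum_sub_distrib, ← Finset.mul_sum, sum_sz]
  simp only [Finset.sum_const, Finset.card_univ, Fintype.card_fin, nsmul_eq_mul]
  field_simp
  ring

end

/-- sizes, real form -/
theorem sizes {r : ℕ} (hr : 3 ≤ r) (n : Fin r → ℝ) (M lam K Kr N : ℝ) (hM : ∑ i, n i = M)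
    (hK : 1 ≤ K) (hKr : 1 ≤ Kr) (hN : 1 ≤ N) (hbig : 8 * K + 4 * Kr ≤ √N)
    (hlam : |lam - al r * N| ≤ Kr) (hs : ∀ i, |((r : ℝ) - 1) * n i - lam| ≤ 2 * K * √N) :
    N / 2 ≤ M ∧ (∀ i, |n i - M / r| ≤ 2 * K * √N) ∧ (∀ i, |n i - M / r| ≤ 4 * K * √M) ∧
      ∑ i, (n i - M / r) ^ 2 ≤ 4 * r * K ^ 2 * N := by
  have hr3 : (3 : ℝ) ≤ r := by exact_mod_cast hr
  have hr0 : (0 : ℝ) < r := by linarith
  have ha := al_ge hr
  have hN0 : 0 < N := by linarith
  have hsN1 : 1 ≤ √N := by rw [Real.one_le_sqrt]; exact hN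
  have hal : al r * r = r - 1 := by unfold al; field_simp
  have e1 : |((r : ℝ) - 1) * M - r * lam| ≤ r * (2 * K * √N) := by
    have h1 : ((r : ℝ) - 1) * M - r * lam = ∑ i, (((r : ℝ) - 1) * n i - lam) := by
      rw [Finset.sum_sub_distrib, ← Finset.mul_sum, hM]
      simp
    rw [h1]
    refine (Finset.abs_sum_le_sum_abs _ _).trans ?_
    refine (Finset.sum_le_sum fun i _ => hs i).trans ?_
    simp
  have e2 : |al r * M - lam| ≤ 2 * K * √N := by
    have h1 : ((r : ℝ) - 1) * M - r * lam = r * (al r * M - lam) := by rw [← hal]; ring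
    rw [h1, abs_mul, abs_of_pos hr0] at e1
    exact le_of_mul_le_mul_left e1 hr0
  have e3 : al r * |M - N| ≤ 2 * K * √N + Kr := by
    have ha0 : 0 < al r := by linarith
    have h0 : al r * |M - N| = |al r * (M - N)| := by rw [abs_mul, abs_of_pos ha0]
    rw [h0]
    have h1 : al r * (M - N) = (al r * M - lam) + (lam - al r * N) := by ring
    rw [h1]
    exact (abs_add_le _ _).trans (add_le_add e2 hlam)
  have e4 : |M - N| ≤ N / 2 := by
    have h1 : 2 / 3 * |M - N| ≤ al r * |M - N| := mul_le_mul_of_nonneg_right ha (abs_nonneg _)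
    have h2 : Kr * 1 ≤ Kr * √N := mul_le_mul_of_nonneg_left hsN1 (by linarith)
    have h3 : 2 / 3 * |M - N| ≤ (2 * K + Kr) * √N := by linarith
    have h4 : (2 * K + Kr) * √N ≤ √N / 4 * √N :=
      mul_le_mul_of_nonneg_right (by linarith) (by linarith)
    have h5 : √N / 4 * √N = N / 4 := by
      rw [div_mul_eq_mul_div, Real.mul_self_sqrt hN0.le]
    linarith
  have e5 : N / 2 ≤ M := by
    have := (abs_le.1 e4).1
    linarith
  have hM0 : 0 < M := by linarith
  have e6 : ∀ i, |n i - M / r| ≤ 2 * K * √N := by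
    intro i
    have h1 : ((r : ℝ) - 1) * (n i - M / r) = (((r : ℝ) - 1) * n i - lam) - (al r * M - lam) := by
      have : ((r : ℝ) - 1) * (M / r) = al r * M := by rw [← hal]; field_simp
      rw [mul_sub, this]; ring
    have h2 : |((r : ℝ) - 1) * (n i - M / r)| ≤ 4 * K * √N := by
      rw [h1]
      refine (abs_sub _ _).trans ?_
      have := hs i
      linarith
    rw [abs_mul, abs_of_pos (by linarith : 0 < (r : ℝ) - 1)] at h2
    have h3 : 2 * |n i - M / r| ≤ ((r : ℝ) - 1) * |n i - M / r| :=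
      mul_le_mul_of_nonneg_right (by linarith) (abs_nonneg _)
    linarith
  refine ⟨e5, e6, fun i => ?_, ?_⟩
  · have hsM : √N / 2 ≤ √M := by
      rw [div_le_iff₀ (by norm_num)]
      have h1 : √N ≤ √(M * 4) := Real.sqrt_le_sqrt (by linarith)
      rw [Real.sqrt_mul hM0.le] at h1
      have e : √(4 : ℝ) = 2 := by
        rw [show (4 : ℝ) = 2 ^ 2 by norm_num]; exact Real.sqrt_sq (by norm_num)
      rwa [e] at h1
    have q1 := e6 i
    have q2 : 2 * K * √N ≤ 2 * K * (2 * √M) := mul_le_mul_of_nonneg_left (by linarith) (by linarith)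
    linarith
  · have h1 : ∀ i, (n i - M / r) ^ 2 ≤ 4 * K ^ 2 * N := by
      intro i
      rw [← sq_abs]
      have h2 := pow_le_pow_left₀ (abs_nonneg _) (e6 i) 2
      have h3 : (2 * K * √N) ^ 2 = 4 * K ^ 2 * N := by
        rw [mul_pow, Real.sq_sqrt hN0.le]; ring
      rwa [h3] at h2
    refine (Finset.sum_le_sum fun i _ => h1 i).trans ?_
    simp only [Finset.sum_const, Finset.card_univ, Fintype.card_fin, nsmul_eq_mul]
    apply le_of_eq
    ring

/-- the ranges of `t` -/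
theorem trange {t N Kr : ℝ} (hN : 1 ≤ N) (hNK : 6 * Kr ≤ N) (htN : |t * N - 1| ≤ Kr / N) :
    0 < t ∧ 1 / t ≤ 2 * N ∧ t ≤ 2 / N ∧ √t ≤ 2 / √N ∧ 1 / √t ≤ 2 * √N := by
  have hN0 : 0 < N := by linarith
  have h1 : Kr / N ≤ 1 / 6 := by
    rw [div_le_div_iff₀ hN0 (by norm_num)]; linarith
  have h2 := abs_le.1 (htN.trans h1)
  have htN0 : 1 / 2 ≤ t * N := by linarith
  have ht0 : 0 < t := by
    by_contra h
    push Not at h
    have q := mul_nonpos_of_nonpos_of_nonneg h hN0.le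
    linarith
  have hsN : 0 < √N := Real.sqrt_pos.2 hN0
  have hst : 0 < √t := Real.sqrt_pos.2 ht0
  refine ⟨ht0, ?_, ?_, ?_, ?_⟩
  · rw [div_le_iff₀ ht0]; linarith
  · rw [le_div_iff₀ hN0]; linarith
  · rw [le_div_iff₀ hsN, ← Real.sqrt_mul ht0.le]
    rw [Real.sqrt_le_left (by norm_num)]
    linarith
  · rw [div_le_iff₀ hst, mul_assoc, ← Real.sqrt_mul hN0.le]
    have h3 : 1 / 2 ≤ √(N * t) := by
      apply Real.le_sqrt_of_sq_le
      linarith
    linarith

end ACC

open ACC in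
theorem blk_ACC (h1 : Stmt_EID) (h2 : Stmt_ACC0) (h3 : Stmt_KM) (h4 : Stmt_KS) (h5 : Stmt_REL) :
    Stmt_ACC := by
  classical
  intro r D η K hr hD hη hη1 hK
  have hr3 : (3 : ℝ) ≤ r := by exact_mod_cast hr
  have hη4 : η ≤ 1 / 24 := by
    refine hη1.trans ?_
    rw [div_le_div_iff₀ (by positivity) (by norm_num)]
    linarith
  obtain ⟨Ka, hKa, A0⟩ := h2 r η K hr hη (by linarith) hK
  obtain ⟨Km, hKm, KM⟩ := h3 r (4 * K) hr (by linarith)
  obtain ⟨Kr, N0, hKr, RL⟩ := h5 r D hr hD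
  set C1 : ℝ := 4 * r * K ^ 2 + 8 * K + 2 + r with hC1
  have hC1pos : 0 < C1 := by positivity
  set Ca : ℝ := 8 * K * Kr + r + 2 * C1 ^ 2 with hCa
  set Cb : ℝ := 4 * Km + 4 * Ka + 16 * r * K ^ 2 * C1 + 4 * K * Kr with hCb
  have hCa0 : 0 < Ca := by positivity
  have hCb0 : 0 < Cb := by positivity
  obtain ⟨N1, hN1⟩ := exists_nat_ge (6 * Kr + (8 * K + 4 * Kr) ^ 2 + 2 * Ka + 2 * Km
    + (8 * K / η) ^ 2 + 1)
  have hCa1 : 1 ≤ Ca := by
    have e1 : 0 ≤ 8 * K * Kr := by positivity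
    have e2 : 0 ≤ 2 * C1 ^ 2 := by positivity
    linarith
  refine ⟨Ca + Cb, N0 + N1, by linarith, ?_⟩
  intro N hN j hj V _ G x lam t c H hctx hHD hpE
  obtain ⟨hlamN, htN⟩ := RL N (by omega) j hj V G x lam t hctx hpE
  have hNr : 6 * Kr + (8 * K + 4 * Kr) ^ 2 + 2 * Ka + 2 * Km + (8 * K / η) ^ 2 + 1 ≤ (N : ℝ) := by
    refine hN1.trans ?_
    exact_mod_cast (by omega : N1 ≤ N)
  set n : ℝ := (N : ℝ) with hn
  have q1 : 0 ≤ (8 * K + 4 * Kr) ^ 2 := sq_nonneg _
  have q2 : 0 ≤ (8 * K / η) ^ 2 := sq_nonneg _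
  have hn1 : 1 ≤ n := by linarith
  have hn0 : 0 < n := by linarith
  have hsn : 0 < √n := Real.sqrt_pos.2 hn0
  have hnsn : √n ≤ n := by
    rw [Real.sqrt_le_left (by linarith), sq]
    exact le_mul_of_one_le_left hn0.le hn1
  obtain ⟨ht0, ht1, ht2, ht3, ht4⟩ := trange hn1 (by linarith) htN
  have ha := al_ge hr
  have ha1 := al_lt hr
  have ha0 : 0 < al r := by linarith
  have hlam2 : n / 2 ≤ lam := by
    have e1 := (abs_le.1 hlamN).1
    have e2 := mul_le_mul_of_nonneg_right ha hn0.le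
    linarith
  have hlam0 : 0 < lam := by linarith
  have hbig : 8 * K + 4 * Kr ≤ √n := by
    apply Real.le_sqrt_of_sq_le
    linarith
  have hst : 0 < √t := Real.sqrt_pos.2 ht0
  have hsz : ∀ i, |((r : ℝ) - 1) * sz H c i - lam| ≤ 2 * K * √n := by
    intro i
    refine (hHD.size i).trans ?_
    calc K / √t = K * (1 / √t) := by ring
      _ ≤ K * (2 * √n) := mul_le_mul_of_nonneg_left ht4 (by linarith)
      _ = 2 * K * √n := by ring
  obtain ⟨hM1, _, hB, himb⟩ := sizes hr (fun i => sz H c i) (H.card : ℝ) lam K Kr n (sum_sz H c)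
    hK hKr hn1 hbig hlamN hsz
  set M : ℝ := (H.card : ℝ) with hM
  have hM0 : 0 < M := by linarith
  have himb0 : 0 ≤ imb H c := Finset.sum_nonneg fun i _ => sq_nonneg _
  have hKt : K / t ≤ 2 * K * n := by
    calc K / t = K * (1 / t) := by ring
      _ ≤ K * (2 * n) := mul_le_mul_of_nonneg_left ht1 (by linarith)
      _ = 2 * K * n := by ring
  have hmis0 : (0 : ℝ) ≤ mis G H c := Nat.cast_nonneg _
  have hmis : (mis G H c : ℝ) ≤ 2 * K * n := hHD.mis.trans hKt
  set Sg : ℝ := ∑ v ∈ out H, (dg G H v : ℝ) with hSg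
  have hSg0 : 0 ≤ Sg := Finset.sum_nonneg fun _ _ => Nat.cast_nonneg _
  have hSg1 : Sg ≤ 2 * K * n := by
    have e : Sg ≤ (eo G H : ℝ) := by
      rw [hSg, ← Nat.cast_sum]
      exact_mod_cast dg_le_eo G H
    exact e.trans (hHD.eout.trans hKt)
  have heu0 : (0 : ℝ) ≤ eu G H := Nat.cast_nonneg _
  have heu : (eu G H : ℝ) ≤ 2 * K * n := by
    have e : (eu G H : ℝ) ≤ (eo G H : ℝ) := by exact_mod_cast eu_le_eo G H
    exact e.trans (hHD.eout.trans hKt)
  have hE : al r * M ^ 2 - imb H c - mis G H c + 2 * Sg + eu G H = pE G := by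
    rw [h1 r V G c H hHD.ind, imb_eq hr H c, ← hM]
    have e : al r * M ^ 2 = M ^ 2 - M ^ 2 / r := by unfold al; ring
    rw [e]; ring
  have hj0 : (0 : ℝ) ≤ j := Nat.cast_nonneg _
  obtain ⟨hNM, hA⟩ := real1 ha ha1 hK hKr hr3 hn1 hM0.le hlam2 hlamN himb0 himb hmis0 hmis hSg0
    hSg1 heu0 heu hj0 hj hE hpE hC1
  have hSl : ∑ v ∈ out H, (dg G H v : ℝ) / lam = Sg / lam := by rw [hSg, Finset.sum_div]
  have hAn : Ca / n ≤ Ca / √n := div_le_div_of_nonneg_left hCa0.le hsn hnsn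
  have hsplit : (Ca + Cb) / √n = Ca / √n + Cb / √n := add_div _ _ _
  have hCbn : 0 ≤ Cb / √n := by positivity
  refine ⟨?_, ?_, ?_⟩
  · rw [hSl]
    refine hA.trans ?_
    rw [hsplit]
    linarith
  · -- second claim
    obtain ⟨mu, hmu0, hmu, hsum⟩ := KM (fun i => sz H c i) M (imb H c)
      (fun i => Nat.cast_nonneg _) (sum_sz H c).symm rfl (by linarith) hB
    have hqf := h4 r V H c mu hmu0 hsum
    have hl := A0 V G x lam t c H mu hctx.pv hHD (by
      have h6 : Ka * t ≤ Ka * (2 / n) := mul_le_mul_of_nonneg_left ht2 (by linarith)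
      have h7 : Ka * (2 / n) ≤ 1 := by
        rw [mul_div_assoc', div_le_one hn0]; linarith
      linarith) hqf
    set S2 : ℝ := ∑ v ∈ out H, ((dg G H v : ℝ) / lam) ^ 2 with hS2
    have hS20 : 0 ≤ S2 := Finset.sum_nonneg fun _ _ => sq_nonneg _
    have hdg2 : ∑ v ∈ out H, (dg G H v : ℝ) ^ 2 = lam ^ 2 * S2 := by
      rw [hS2, Finset.mul_sum]
      refine Finset.sum_congr rfl fun v _ => ?_
      field_simp
    rw [hdg2] at hl
    have hR := real2 ha ha1 hK hKr hKm hKa hr3 hn1 hM1 hlam0 ht0 hHD.lamt1 htN ht3 himb0 himb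
      hmis0 hmis hS20 hη (by linarith) hNM hC1pos hmu hl
    rw [← hCb] at hR
    have hX : ∑ v ∈ out H, (dg G H v : ℝ) / lam * (1 - dg G H v / lam) = Sg / lam - S2 := by
      rw [← hSl, hS2, ← Finset.sum_sub_distrib]
      exact Finset.sum_congr rfl fun v _ => by ring
    rw [hX]
    have hA' := (abs_le.1 (hA.trans hAn)).2
    have e1 : imb H c / n = 2 * al r * (imb H c / (2 * al r * n)) := by field_simp
    have e2 : (mis G H c : ℝ) / (al r * n) = 2 * (mis G H c / (2 * al r * n)) := by field_simp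
    have e3 : (al r * n + j / n - lam) / al r = n + j / (al r * n) - lam / al r := by
      field_simp
    have e4 : (1 : ℝ) - 2 / r = 2 * al r - 1 := by unfold al; ring
    rw [e1, e2] at hR
    rw [e3, e4, hsplit]
    linarith
  · -- third claim
    intro v hv
    have h6 := hHD.small v hv
    have h7 := (abs_le.1 (hHD.all v)).1
    have h8 : √t * dg G H v ≤ lam * ((1 - η) * √t) + K := by
      have := mul_le_mul_of_nonneg_left h6.le hlam0.le
      linarith
    have h9 : (dg G H v : ℝ) ≤ lam * (1 - η) + K / √t := by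
      have e : √t * (lam * (1 - η) + K / √t) = lam * ((1 - η) * √t) + K := by
        field_simp
      rw [← e] at h8
      exact le_of_mul_le_mul_left h8 hst
    have h10 : K / √t ≤ 2 * K * √n := by
      calc K / √t = K * (1 / √t) := by ring
        _ ≤ K * (2 * √n) := mul_le_mul_of_nonneg_left ht4 (by linarith)
        _ = 2 * K * √n := by ring
    have h11 : 8 * K / η ≤ √n := by
      apply Real.le_sqrt_of_sq_le
      linarith
    have h12 : 8 * K ≤ η * √n := by
      rw [div_le_iff₀ hη] at h11; linarith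
    have h13 : 2 * K * √n ≤ η / 4 * n := by
      have e : √n * √n = n := Real.mul_self_sqrt hn0.le
      have e1 := mul_le_mul_of_nonneg_right h12 hsn.le
      rw [mul_assoc η, e] at e1
      linarith
    have h14 := mul_le_mul_of_nonneg_left hlam2 hη.le
    rw [div_le_iff₀ hlam0]
    linarith

end Pool.Agent.Work.MP_5532fa_up
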