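import Pool.Agent.Work.MP_5532fa_up.Interface

open Finset

namespace Pool.Agent.Work.MP_5532fa_up

namespace ACC0

section
variable {V : Type} [Fintype V]

theorem split (H : Finset V) (f : V → ℝ) : ∑ v, f v = ∑ v ∈ H, f v + ∑ v ∈ out H, f v := by
  classical
  have h : (univ : Finset V) = H ∪ out H := by
    ext v; simp [mem_out, em]
  have hd : Disjoint H (out H) := by
    rw [Finset.disjoint_left]; intro v hv hv'
    exact mem_out.mp hv' hv
  rw [h, Finset.sum_union hd]

theorem restr (H : Finset V) (f : V → ℝ) (h : ∀ v, v ∉ H → f v = 0) :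
    ∑ v, f v = ∑ v ∈ H, f v := by
  rw [split H f]
  have : ∑ v ∈ out H, f v = 0 := Finset.sum_eq_zero fun v hv => h v (mem_out.mp hv)
  rw [this, add_zero]

omit [Fintype V] in
/-- sum over the neighbours -/
theorem sum_nb (G : SimpleGraph V) (S : Finset V) (u : V) (f : V → ℝ) :
    ∑ v ∈ S, ad G u v * f v = ∑ v ∈ nb G S u, f v := by
  classical
  have h : ∑ v ∈ nb G S u, f v = ∑ v ∈ S.filter (fun v => G.Adj u v), f v := by
    apply Finset.sum_congr _ fun _ _ => rfl
    ext v; rw [mem_nb, Finset.mem_filter]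
  rw [h, Finset.sum_filter]
  refine Finset.sum_congr rfl fun v _ => ?_
  by_cases hv : G.Adj u v
  · rw [if_pos hv]; unfold ad; rw [chi_pos hv, one_mul]
  · rw [if_neg hv]; unfold ad; rw [chi_neg hv, zero_mul]

theorem sum_dg_le (G : SimpleGraph V) (H : Finset V) :
    ∑ v ∈ out H, (dg G H v : ℝ) ≤ eo G H := by
  classical
  have h1 : ∑ v ∈ out H, dg G H v ≤ eo G H := by
    have h2 : ∑ v ∈ out H, dg G H v = ((out H).sigma (fun v => nb G H v)).card := by
      rw [Finset.card_sigma]; rfl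
    rw [h2]
    unfold eo
    apply Finset.card_le_card_of_injOn (fun e => (e.1, e.2))
    · intro e he
      rw [Finset.mem_coe, Finset.mem_sigma, mem_out, mem_nb] at he
      rw [Finset.mem_coe, Finset.mem_filter]
      exact ⟨Finset.mem_univ _, he.2.2, he.1⟩
    · rintro ⟨a, b⟩ _ ⟨a', b'⟩ _ hab
      simp only [Prod.mk.injEq] at hab
      obtain ⟨rfl, rfl⟩ := hab
      rfl
  exact_mod_cast h1

omit [Fintype V] in
theorem mis_le {r : ℕ} (G : SimpleGraph V) (H : Finset V) (c : V → Fin r) (x : V → ℝ) (b : ℝ)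
    (hb : 0 ≤ b) (hx : ∀ v ∈ H, b ≤ x v) :
    b ^ 2 * mis G H c ≤ ∑ u ∈ H, ∑ v ∈ H, chi (c u ≠ c v ∧ ¬ G.Adj u v) * (x u * x v) := by
  classical
  rw [← Finset.sum_product' H H (fun u v => chi (c u ≠ c v ∧ ¬ G.Adj u v) * (x u * x v))]
  have h1 : ∑ e ∈ H ×ˢ H, chi (c e.1 ≠ c e.2 ∧ ¬ G.Adj e.1 e.2) * (x e.1 * x e.2) =
      ∑ e ∈ (H ×ˢ H).filter (fun e => c e.1 ≠ c e.2 ∧ ¬ G.Adj e.1 e.2), x e.1 * x e.2 := by
    rw [Finset.sum_filter]
    refine Finset.sum_congr rfl fun e _ => ?_
    by_cases he : c e.1 ≠ c e.2 ∧ ¬ G.Adj e.1 e.2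
    · rw [if_pos he, chi_pos he, one_mul]
    · rw [if_neg he, chi_neg he, zero_mul]
  rw [h1]
  have h2 : (mis G H c : ℝ) =
      (((H ×ˢ H).filter (fun e => c e.1 ≠ c e.2 ∧ ¬ G.Adj e.1 e.2)).card : ℝ) := by
    unfold mis
    congr 1
  rw [h2]
  have h3 := Finset.card_nsmul_le_sum
    ((H ×ˢ H).filter (fun e => c e.1 ≠ c e.2 ∧ ¬ G.Adj e.1 e.2)) (fun e => x e.1 * x e.2) (b ^ 2)
    (by
      intro e he
      rw [Finset.mem_filter, Finset.mem_product] at he
      have h4 := hx e.1 he.1.1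
      have h5 := hx e.2 he.1.2
      calc b ^ 2 = b * b := by ring
        _ ≤ x e.1 * x e.2 := mul_le_mul h4 h5 hb (hb.trans h4))
  rw [nsmul_eq_mul] at h3
  linarith

end

end ACC0

open ACC0 in
theorem blk_ACC0 : Stmt_ACC0 := by
  intro r η K hr hη hη1 hK
  have hK2 : 1 ≤ K ^ 2 := one_le_pow₀ hK
  refine ⟨16 * K ^ 2, by linarith, ?_⟩
  intro V _ G x lam t c H mu hpv hHD ht hmu
  classical
  have ht0 := hHD.tpos
  set s : ℝ := √t with hs
  have hs0 : 0 < s := Real.sqrt_pos.mpr ht0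
  have hss : s ^ 2 = t := Real.sq_sqrt ht0.le
  have hK0 : 0 < K := by linarith
  -- smallness
  have hKs : K * s ≤ 1 / 4 := by
    by_contra h
    push Not at h
    have h1 : (1 / 4 : ℝ) ^ 2 < (K * s) ^ 2 := pow_lt_pow_left₀ h (by norm_num) (by norm_num)
    rw [mul_pow, hss] at h1
    linarith
  have hs1 : s ≤ 1 / 4 := by
    have : s ≤ K * s := by nlinarith
    linarith
  have hts : t ≤ s := by
    rw [← hss]; nlinarith
  have hlam0 : 0 < lam := by
    by_contra h
    push Not at h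
    have h1 := hHD.lamt2
    nlinarith
  have hlt := hHD.lamt2
  -- the parts of the quadratic form
  set tau : ℝ := ∑ v ∈ out H, x v ^ 2 with htau
  have htau0 : 0 ≤ tau := Finset.sum_nonneg fun v _ => sq_nonneg _
  have htauK : tau ≤ K * t := hHD.rest
  have htau1 : tau ≤ 1 / 16 := by
    have : K * t = (K * s) * s := by rw [← hss]; ring
    have h2 : (K * s) * s ≤ 1 / 4 * (1 / 4) := mul_le_mul hKs hs1 hs0.le (by norm_num)
    linarith
  have hH1 : ∑ v ∈ H, x v ^ 2 = 1 - tau := by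
    have := split H (fun v => x v ^ 2)
    rw [hpv.unit] at this
    linarith
  set A : ℝ := ∑ u ∈ H, ∑ v ∈ H, ad G u v * (x u * x v) with hA
  set Bq : ℝ := ∑ u ∈ out H, ∑ v ∈ H, ad G u v * (x u * x v) with hBq
  set Cq : ℝ := ∑ u ∈ out H, ∑ v ∈ out H, ad G u v * (x u * x v) with hCq
  have hHU : ∑ u ∈ H, ∑ v ∈ out H, ad G u v * (x u * x v) = Bq := by
    rw [hBq, Finset.sum_comm]
    refine Finset.sum_congr rfl fun v _ => Finset.sum_congr rfl fun u _ => ?_
    rw [ad_comm G u v]; ring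
  have h1 : lam = A + Bq + (Bq + Cq) := by
    rw [← hpv.form, split H]
    have e1 : ∑ u ∈ H, ∑ v, ad G u v * (x u * x v) = A + Bq := by
      rw [← hHU, hA, ← Finset.sum_add_distrib]
      exact Finset.sum_congr rfl fun u _ => split H _
    have e2 : ∑ u ∈ out H, ∑ v, ad G u v * (x u * x v) = Bq + Cq := by
      rw [hBq, hCq, ← Finset.sum_add_distrib]
      exact Finset.sum_congr rfl fun u _ => split H _
    rw [e1, e2]
  have h2 : lam * tau = Bq + Cq := by
    rw [htau, hBq, hCq, ← Finset.sum_add_distrib, Finset.mul_sum]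
    refine Finset.sum_congr rfl fun u _ => ?_
    rw [← split H (fun v => ad G u v * (x u * x v))]
    have : ∑ v, ad G u v * (x u * x v) = x u * ∑ v, ad G u v * x v := by
      rw [Finset.mul_sum]; exact Finset.sum_congr rfl fun v _ => by ring
    rw [this, hpv.eig]; ring
  have h3 : lam * (1 - tau) = A + Bq := by rw [mul_sub, h2, mul_one]; linarith
  -- the part inside `H`
  have hAe : A = ∑ u ∈ H, ∑ v ∈ H, chi (c u ≠ c v) * (x u * x v) -
      ∑ u ∈ H, ∑ v ∈ H, chi (c u ≠ c v ∧ ¬ G.Adj u v) * (x u * x v) := by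
    rw [hA, ← Finset.sum_sub_distrib]
    refine Finset.sum_congr rfl fun u hu => ?_
    rw [← Finset.sum_sub_distrib]
    refine Finset.sum_congr rfl fun v hv => ?_
    by_cases hadj : G.Adj u v
    · have hc : c u ≠ c v := fun h => hHD.ind u hu v hv h hadj
      unfold ad
      rw [chi_pos hadj, chi_pos hc, chi_neg (fun h => h.2 hadj)]
      ring
    · by_cases hc : c u ≠ c v
      · unfold ad
        rw [chi_neg hadj, chi_pos hc, chi_pos ⟨hc, hadj⟩]
        ring
      · unfold ad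
        rw [chi_neg hadj, chi_neg hc, chi_neg (fun h => hc h.1)]
        ring
  have hM0 : ∑ u ∈ H, ∑ v ∈ H, chi (c u ≠ c v) * (x u * x v) ≤ mu * (1 - tau) := by
    have h4 := hmu (fun v => chi (v ∈ H) * x v)
    have e1 : ∑ u, ∑ v, chi (u ∈ H ∧ v ∈ H ∧ c u ≠ c v) *
        ((chi (u ∈ H) * x u) * (chi (v ∈ H) * x v)) =
        ∑ u ∈ H, ∑ v ∈ H, chi (c u ≠ c v) * (x u * x v) := by
      rw [restr H]
      · refine Finset.sum_congr rfl fun u hu => ?_
        rw [restr H]
        · refine Finset.sum_congr rfl fun v hv => ?_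
          rw [chi_pos hu, chi_pos hv, one_mul, one_mul]
          congr 1
          exact chi_congr ⟨fun h => h.2.2, fun h => ⟨hu, hv, h⟩⟩
        · intro v hv
          rw [chi_neg (fun h => hv h.2.1), zero_mul]
      · intro u hu
        apply Finset.sum_eq_zero
        intro v _
        rw [chi_neg (fun h => hu h.1), zero_mul]
    have e2 : ∑ v, (chi (v ∈ H) * x v) ^ 2 = 1 - tau := by
      rw [← hH1, restr H]
      · refine Finset.sum_congr rfl fun v hv => ?_
        rw [chi_pos hv, one_mul]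
      · intro v hv
        rw [chi_neg hv]; ring
    rw [e1, e2] at h4
    exact h4
  have hMs : (1 - η) ^ 2 * t * mis G H c ≤
      ∑ u ∈ H, ∑ v ∈ H, chi (c u ≠ c v ∧ ¬ G.Adj u v) * (x u * x v) := by
    have h4 := mis_le G H c x ((1 - η) * s) (by
      have : 0 ≤ 1 - η := by linarith
      positivity) hHD.big
    have e1 : ((1 - η) * s) ^ 2 = (1 - η) ^ 2 * t := by rw [mul_pow, hss]
    rw [e1] at h4
    exact h4
  -- the crossing part
  set Sq : ℝ := ∑ v ∈ out H, (dg G H v : ℝ) ^ 2 with hSq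
  set Sd : ℝ := ∑ v ∈ out H, (dg G H v : ℝ) with hSd
  have hSq0 : 0 ≤ Sq := Finset.sum_nonneg fun v _ => sq_nonneg _
  have hSd0 : 0 ≤ Sd := Finset.sum_nonneg fun v _ => Nat.cast_nonneg _
  have hSdK : Sd ≤ K / t := (sum_dg_le G H).trans hHD.eout
  have hBle : Bq ≤ (s * (1 + K * s)) / lam * (s * Sq + K * Sd) := by
    have h4 : ∀ u ∈ out H, ∑ v ∈ H, ad G u v * (x u * x v) ≤
        (s * (1 + K * s)) / lam * (s * (dg G H u : ℝ) ^ 2 + K * dg G H u) := by
      intro u _
      have e1 : ∑ v ∈ H, ad G u v * (x u * x v) = x u * ∑ v ∈ nb G H u, x v := by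
        rw [← sum_nb, Finset.mul_sum]
        exact Finset.sum_congr rfl fun v _ => by ring
      rw [e1]
      have h5 : ∑ v ∈ nb G H u, x v ≤ dg G H u * (s * (1 + K * s)) := by
        have := Finset.sum_le_card_nsmul (nb G H u) x (s * (1 + K * s)) (fun v _ => hHD.xmax v)
        rw [nsmul_eq_mul] at this
        exact this
      have h6 : x u ≤ (s * dg G H u + K) / lam := by
        rw [le_div_iff₀ hlam0]
        have := (abs_le.mp (hHD.all u)).2
        linarith
      have hdg : (0 : ℝ) ≤ dg G H u := Nat.cast_nonneg _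
      have h7 : 0 ≤ (s * dg G H u + K) / lam := by positivity
      calc x u * ∑ v ∈ nb G H u, x v
          ≤ x u * (dg G H u * (s * (1 + K * s))) := mul_le_mul_of_nonneg_left h5 (hpv.nn u)
        _ ≤ (s * dg G H u + K) / lam * (dg G H u * (s * (1 + K * s))) :=
            mul_le_mul_of_nonneg_right h6 (by positivity)
        _ = _ := by ring
    have h5 := Finset.sum_le_sum h4
    rw [← Finset.mul_sum, Finset.sum_add_distrib, ← Finset.mul_sum, ← Finset.mul_sum] at h5
    exact h5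
  have hdgmax : ∀ v, (dg G H v : ℝ) ≤ 2 * lam := by
    intro v
    have h4 := (abs_le.mp (hHD.all v)).1
    have h5 : lam * x v ≤ lam * (s * (1 + K * s)) := mul_le_mul_of_nonneg_left (hHD.xmax v) hlam0.le
    have h6 : s * dg G H v ≤ lam * (s * (1 + K * s)) + K := by linarith
    have h7 : K ≤ lam * s * (2 * (K * s)) := by
      have : lam * s * (2 * (K * s)) = 2 * K * (lam * t) := by rw [← hss]; ring
      rw [this]
      nlinarith
    have h8 : s * dg G H v ≤ s * (2 * lam) := by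
      have e1 : lam * (s * (1 + K * s)) + lam * s * (2 * (K * s)) = s * (lam * (1 + 3 * (K * s))) := by
        ring
      have h9 : s * (lam * (1 + 3 * (K * s))) ≤ s * (2 * lam) := by
        apply mul_le_mul_of_nonneg_left _ hs0.le
        have : lam * (1 + 3 * (K * s)) ≤ lam * 2 := mul_le_mul_of_nonneg_left (by linarith) hlam0.le
        linarith
      linarith
    exact le_of_mul_le_mul_left h8 hs0
  have hSqd : Sq ≤ 2 * lam * Sd := by
    rw [hSq, hSd, Finset.mul_sum]
    apply Finset.sum_le_sum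
    intro v _
    have h4 := hdgmax v
    have h5 : (0 : ℝ) ≤ dg G H v := Nat.cast_nonneg _
    calc (dg G H v : ℝ) ^ 2 = dg G H v * dg G H v := by ring
      _ ≤ 2 * lam * dg G H v := mul_le_mul_of_nonneg_right h4 h5
  -- bound for `t/lam * Sq`
  set Z : ℝ := t / lam * Sq with hZ
  have hZ0 : 0 ≤ Z := by positivity
  have hZK : Z ≤ 2 * K := by
    have h4 : Sq ≤ 2 * lam * (K / t) := hSqd.trans (mul_le_mul_of_nonneg_left hSdK (by positivity))
    calc Z ≤ t / lam * (2 * lam * (K / t)) := mul_le_mul_of_nonneg_left h4 (by positivity)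
      _ = 2 * K := by field_simp
  have hB2 : Bq ≤ Z + 6 * K ^ 2 * s := by
    have e1 : (s * (1 + K * s)) / lam * (s * Sq + K * Sd) =
        Z + K * s * Z + (1 + K * s) * (s * K * (Sd / lam)) := by
      rw [hZ, ← hss]
      field_simp
    have h4 : Sd / lam ≤ 2 * K := by
      rw [div_le_iff₀ hlam0]
      calc Sd ≤ K / t := hSdK
        _ ≤ 2 * K * lam := by
          rw [div_le_iff₀ ht0]
          nlinarith
    have h5 : 0 ≤ Sd / lam := by positivity
    have h6 : K * s * Z ≤ K * s * (2 * K) := mul_le_mul_of_nonneg_left hZK (by positivity)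
    have h7 : s * K * (Sd / lam) ≤ s * K * (2 * K) := mul_le_mul_of_nonneg_left h4 (by positivity)
    have h8 : (1 + K * s) * (s * K * (Sd / lam)) ≤ 2 * (s * K * (2 * K)) := by
      apply mul_le_mul (by linarith) h7 (by positivity) (by norm_num)
    have e2 : K * s * (2 * K) = 2 * K ^ 2 * s := by ring
    have e3 : 2 * (s * K * (2 * K)) = 4 * K ^ 2 * s := by ring
    rw [e1] at hBle
    linarith
  -- conclusion
  set Mi : ℝ := (1 - η) ^ 2 * t * mis G H c with hMi
  have hMi0 : 0 ≤ Mi := by positivity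
  have h4 : lam * (1 - tau) ≤ mu * (1 - tau) - Mi + Z + 6 * K ^ 2 * s := by
    rw [h3, hAe]; linarith
  have hu : 0 < 1 - tau := by linarith
  have h5 : lam * (1 - tau) ≤ (mu - Mi + Z + 16 * K ^ 2 * s) * (1 - tau) := by
    have h6 : tau * Z ≤ K * t * (2 * K) := mul_le_mul htauK hZK hZ0 (by positivity)
    have h7 : K * t * (2 * K) ≤ 2 * K ^ 2 * s := by
      have : K * t * (2 * K) = 2 * K ^ 2 * t := by ring
      rw [this]
      exact mul_le_mul_of_nonneg_left hts (by positivity)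
    have h8 : 0 ≤ tau * Mi := mul_nonneg htau0 hMi0
    have h9 : 16 * K ^ 2 * s * tau ≤ 16 * K ^ 2 * s * (1 / 16) :=
      mul_le_mul_of_nonneg_left htau1 (by positivity)
    have h10 : 0 ≤ K ^ 2 * s := by positivity
    have e1 : (mu - Mi + Z + 16 * K ^ 2 * s) * (1 - tau) = mu * (1 - tau) - Mi + tau * Mi + Z -
        tau * Z + 16 * K ^ 2 * s - 16 * K ^ 2 * s * tau := by ring
    rw [e1]
    linarith
  have h6 := le_of_mul_le_mul_right h5 hu
  linarith

end Pool.Agent.Work.MP_5532fa_up
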