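import Pool.Agent.Work.MP_5532fa_up.Interface

open Finset

namespace Pool.Agent.Work.MP_5532fa_up

theorem blk_ALLV : Stmt_ALLV := by
  intro r η K hr hη hη4 hK
  refine ⟨3 * K, by linarith, ?_⟩
  intro V _ G x lam t c T hpv hTD hTE hdev ht v
  classical
  have htpos := hTD.tpos
  have ht1 : t ≤ 1 := by nlinarith
  have hst1 : √t ≤ 1 := Real.sqrt_le_one.2 ht1
  have hst0 := Real.sqrt_nonneg t
  -- split of the eigenvalue equation
  have h1 : lam * x v = ∑ u ∈ T, ad G v u * x u + ∑ u ∈ out T, ad G v u * x u := by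
    rw [← hpv.eig v]
    have h2 : (univ : Finset V) = T ∪ out T := by
      ext u
      simp only [Finset.mem_univ, Finset.mem_union, mem_out, true_iff]
      exact em _
    rw [h2, Finset.sum_union]
    rw [Finset.disjoint_left]
    intro u hu hu'
    exact mem_out.1 hu' hu
  have h2 : (∑ u ∈ T, ad G v u) = dg G T v := by
    unfold dg nb ad chi
    rw [Finset.card_filter]
    push_cast
    rfl
  have h3 : ∑ u ∈ T, ad G v u * x u = √t * dg G T v + ∑ u ∈ T, ad G v u * (x u - √t) := by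
    rw [← h2, Finset.mul_sum, ← Finset.sum_add_distrib]
    exact Finset.sum_congr rfl fun u _ => by ring
  have had0 : ∀ u, 0 ≤ ad G v u := fun u => chi_nonneg _
  have had1 : ∀ u, ad G v u ≤ 1 := fun u => chi_le_one _
  have h4 : |∑ u ∈ T, ad G v u * (x u - √t)| ≤ 2 * K := by
    have h5 : |∑ u ∈ T, ad G v u * (x u - √t)| ≤ ∑ u ∈ T, |x u - √t| := by
      refine (Finset.abs_sum_le_sum_abs _ _).trans (Finset.sum_le_sum fun u _ => ?_)
      rw [abs_mul, abs_of_nonneg (had0 u)]
      exact mul_le_of_le_one_left (abs_nonneg _) (had1 u)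
    have h6 : (∑ u ∈ T, |x u - √t|) ^ 2 ≤ T.card * ∑ u ∈ T, |x u - √t| ^ 2 :=
      sq_sum_le_card_mul_sum_sq
    have h7 : ∑ u ∈ T, |x u - √t| ^ 2 ≤ K * t := by
      refine le_trans (le_of_eq ?_) hdev
      exact Finset.sum_congr rfl fun u _ => by rw [sq_abs]
    have h8 : (T.card : ℝ) * ∑ u ∈ T, |x u - √t| ^ 2 ≤ (2 / t) * (K * t) := by
      apply mul_le_mul hTD.cardT h7 _ (by positivity)
      exact Finset.sum_nonneg fun u _ => by positivity
    have h9 : (2 / t) * (K * t) = 2 * K := by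
      field_simp
    have h10 : (∑ u ∈ T, |x u - √t|) ^ 2 ≤ (2 * K) ^ 2 := by
      refine h6.trans (h8.trans ?_)
      rw [h9]
      nlinarith
    exact h5.trans (abs_le_of_sq_le_sq' h10 (by linarith)).2
  have h5 : |∑ u ∈ out T, ad G v u * x u| ≤ K := by
    rw [abs_of_nonneg (Finset.sum_nonneg fun u _ => mul_nonneg (had0 u) (hpv.nn u))]
    refine le_trans (Finset.sum_le_sum (g := fun u => x u) fun u _ => ?_) (hTE.sout.trans ?_)
    · exact mul_le_of_le_one_left (hpv.nn u) (had1 u)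
    · nlinarith
  rw [h1, h3]
  have h6 : √t * (dg G T v : ℝ) + ∑ u ∈ T, ad G v u * (x u - √t) + ∑ u ∈ out T, ad G v u * x u
      - √t * (dg G T v : ℝ) = ∑ u ∈ T, ad G v u * (x u - √t) + ∑ u ∈ out T, ad G v u * x u := by
    ring
  rw [h6]
  refine (abs_add_le _ _).trans ?_
  linarith

end Pool.Agent.Work.MP_5532fa_up
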