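import Pool.Agent.Work.MP_5532fa_up.Interface

/-!
# MP_5532fa_co, upgrade: block AVG, sizes of the classes and flatness of the eigenvector
-/

open Finset

namespace Pool.Agent.Work.MP_5532fa_up

namespace AVG

/-- Cauchy for a product -/
theorem cauchy {V : Type} (A B : Finset V) (x : V → ℝ) (t : ℝ) :
    ((∑ u ∈ A, x u) * (∑ v ∈ B, x v) - (A.card : ℝ) * B.card * t) ^ 2 ≤
      (A.card : ℝ) * B.card * ∑ u ∈ A, ∑ v ∈ B, (x u * x v - t) ^ 2 := by
  have h1 := sq_sum_le_card_mul_sum_sq (s := A ×ˢ B) (f := fun p => x p.1 * x p.2 - t)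
  rw [Finset.sum_product, Finset.sum_product, Finset.card_product] at h1
  have h2 : ∑ u ∈ A, ∑ v ∈ B, (x u * x v - t) =
      (∑ u ∈ A, x u) * (∑ v ∈ B, x v) - (A.card : ℝ) * B.card * t := by
    rw [Finset.sum_mul_sum]
    simp only [Finset.sum_sub_distrib, Finset.sum_const, nsmul_eq_mul]
    ring
  simp only at h1
  rw [h2] at h1
  push_cast at h1
  exact h1

/-- variance -/
theorem variance {V : Type} (A : Finset V) (x : V → ℝ) (b y t : ℝ) (hb : ∑ v ∈ A, x v = A.card * b) :
    ∑ v ∈ A, (y * x v - t) ^ 2 = y ^ 2 * ∑ v ∈ A, (x v - b) ^ 2 + A.card * (y * b - t) ^ 2 := by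
  have h1 : ∀ v ∈ A, (y * x v - t) ^ 2 =
      y ^ 2 * (x v - b) ^ 2 + 2 * y * (y * b - t) * (x v - b) + (y * b - t) ^ 2 := by
    intro v _; ring
  rw [Finset.sum_congr rfl h1, Finset.sum_add_distrib, Finset.sum_add_distrib, ← Finset.mul_sum,
    ← Finset.mul_sum, Finset.sum_const, nsmul_eq_mul, Finset.sum_sub_distrib, Finset.sum_const,
    nsmul_eq_mul, hb]
  ring

/-- from three products to a square -/
theorem square_est (a b c t C s : ℝ) (hs : 0 < s) (hst : s ^ 2 = t) (hs1 : s ≤ 1) (hC : 0 ≤ C)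
    (ha : 3 / 4 * s ≤ a) (hb : 3 / 4 * s ≤ b) (hc : 3 / 4 * s ≤ c)
    (hab : |a * b - t| ≤ C * t * s) (hac : |a * c - t| ≤ C * t * s) (hbc : |b * c - t| ≤ C * t * s) :
    |a - s| ≤ 2 * (3 * C + C ^ 2) * t := by
  have ht : 0 < t := by rw [← hst]; positivity
  rw [abs_le] at hab hac hbc
  -- `b c (a² - t)`
  have h1 : b * c * (a ^ 2 - t) = t * ((a * b - t) + (a * c - t) - (b * c - t)) + (a * b - t) * (a * c - t) := by
    ring
  have h2 : |b * c * (a ^ 2 - t)| ≤ 3 * C * t ^ 2 * s + (C * t * s) ^ 2 := by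
    rw [h1]
    have h3 : |t * ((a * b - t) + (a * c - t) - (b * c - t))| ≤ 3 * C * t ^ 2 * s := by
      rw [abs_mul, abs_of_pos ht]
      have : |(a * b - t) + (a * c - t) - (b * c - t)| ≤ 3 * (C * t * s) := by
        rw [abs_le]; constructor <;> linarith
      calc t * |(a * b - t) + (a * c - t) - (b * c - t)| ≤ t * (3 * (C * t * s)) :=
            mul_le_mul_of_nonneg_left this ht.le
        _ = 3 * C * t ^ 2 * s := by ring
    have h4 : |(a * b - t) * (a * c - t)| ≤ (C * t * s) ^ 2 := by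
      rw [abs_mul, pow_two]
      exact mul_le_mul (abs_le.2 hab) (abs_le.2 hac) (abs_nonneg _) (by positivity)
    exact (abs_add_le _ _).trans (add_le_add h3 h4)
  have hb0 : 0 < b := lt_of_lt_of_le (by positivity) hb
  have hc0 : 0 < c := lt_of_lt_of_le (by positivity) hc
  have ha0 : 0 < a := lt_of_lt_of_le (by positivity) ha
  have hbc' : 9 / 16 * t ≤ b * c := by
    calc 9 / 16 * t = (3 / 4 * s) * (3 / 4 * s) := by rw [← hst]; ring
      _ ≤ b * c := mul_le_mul hb hc (by positivity) hb0.le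
  -- `|a² - t|`
  have h5 : 9 / 16 * t * |a ^ 2 - t| ≤ 3 * C * t ^ 2 * s + (C * t * s) ^ 2 := by
    refine le_trans ?_ h2
    rw [abs_mul, abs_of_pos (mul_pos hb0 hc0)]
    exact mul_le_mul_of_nonneg_right hbc' (abs_nonneg _)
  have h6 : a ^ 2 - t = (a - s) * (a + s) := by rw [← hst]; ring
  have h7 : |a ^ 2 - t| = |a - s| * (a + s) := by
    rw [h6, abs_mul, abs_of_pos (by linarith : 0 < a + s)]
  rw [h7] at h5
  have h8 : |a - s| * (7 / 4 * s) ≤ |a - s| * (a + s) :=
    mul_le_mul_of_nonneg_left (by linarith) (abs_nonneg _)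
  have h9 : 9 / 16 * t * (|a - s| * (7 / 4 * s)) ≤ 3 * C * t ^ 2 * s + (C * t * s) ^ 2 :=
    (mul_le_mul_of_nonneg_left h8 (by positivity)).trans h5
  have h10 : (C * t * s) ^ 2 ≤ C ^ 2 * t ^ 2 * s := by
    calc (C * t * s) ^ 2 = C ^ 2 * t ^ 2 * s * s := by ring
      _ ≤ C ^ 2 * t ^ 2 * s * 1 := mul_le_mul_of_nonneg_left hs1 (by positivity)
      _ = _ := by ring
  have h11 : (t * s) * (63 / 64 * |a - s|) ≤ (t * s) * ((3 * C + C ^ 2) * t) := by
    calc (t * s) * (63 / 64 * |a - s|) = 9 / 16 * t * (|a - s| * (7 / 4 * s)) := by ring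
      _ ≤ 3 * C * t ^ 2 * s + (C * t * s) ^ 2 := h9
      _ ≤ 3 * C * t ^ 2 * s + C ^ 2 * t ^ 2 * s := by linarith
      _ = (t * s) * ((3 * C + C ^ 2) * t) := by ring
  have h12 : 63 / 64 * |a - s| ≤ (3 * C + C ^ 2) * t := le_of_mul_le_mul_left h11 (by positivity)
  have h13 : 0 ≤ (3 * C + C ^ 2) * t := by positivity
  have h14 := abs_nonneg (a - s)
  linarith

theorem div_mul_sqrt (a b t : ℝ) (ht : 0 < t) : a / t * (b * √t) = a * b / √t := by
  have hs : 0 < √t := Real.sqrt_pos.2 ht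
  have hss : √t * √t = t := Real.mul_self_sqrt ht.le
  rw [eq_div_iff hs.ne']
  have h1 : a / t * (b * √t) * √t = a / t * b * (√t * √t) := by ring
  rw [h1, hss]
  field_simp

/-- three different indices -/
theorem three {r : ℕ} (hr : 3 ≤ r) (i : Fin r) : ∃ j k : Fin r, j ≠ i ∧ k ≠ i ∧ j ≠ k := by
  have h1 : 2 ≤ (univ.erase i).card := by
    rw [Finset.card_erase_of_mem (Finset.mem_univ i), Finset.card_univ, Fintype.card_fin]
    omega
  obtain ⟨j, hj, k, hk, hjk⟩ := Finset.one_lt_card.1 (by omega : 1 < (univ.erase i).card)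
  exact ⟨j, k, Finset.ne_of_mem_erase hj, Finset.ne_of_mem_erase hk, hjk⟩

section main

variable {V : Type} [Fintype V] {r : ℕ} {η K t lam : ℝ} {G : SimpleGraph V} {x : V → ℝ}
  {c : V → Fin r} {T : Finset V}

theorem block_le (hE : TE r K G x t c T) (i j : Fin r) (hij : i ≠ j) :
    ∑ u ∈ cl T c i, ∑ v ∈ cl T c j, (x u * x v - t) ^ 2 ≤ K * t := by
  refine le_trans ?_ hE.dev
  have h1 : ∀ u ∈ cl T c i, ∑ v ∈ cl T c j, (x u * x v - t) ^ 2 ≤
      ∑ v ∈ T, chi (c u ≠ c v) * (x u * x v - t) ^ 2 := by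
    intro u hu
    have hu' := mem_cl.1 hu
    refine le_trans (le_of_eq ?_) (Finset.sum_le_sum_of_subset_of_nonneg
      (f := fun v => chi (c u ≠ c v) * (x u * x v - t) ^ 2)
      (s := cl T c j) (t := T) ?_ ?_)
    · refine Finset.sum_congr rfl fun v hv => ?_
      have hv' := mem_cl.1 hv
      rw [chi_pos (by rw [hu'.2, hv'.2]; exact hij), one_mul]
    · intro v hv
      exact (mem_cl.1 hv).1
    · intro v _ _
      exact mul_nonneg (chi_nonneg _) (sq_nonneg _)
  refine (Finset.sum_le_sum h1).trans ?_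
  refine Finset.sum_le_sum_of_subset_of_nonneg ?_ ?_
  · intro v hv
    exact (mem_cl.1 hv).1
  · intro u _ _
    exact Finset.sum_nonneg fun v _ => mul_nonneg (chi_nonneg _) (sq_nonneg _)

omit [Fintype V] in
theorem sz_nonneg (i : Fin r) : 0 ≤ sz T c i := Nat.cast_nonneg _

omit [Fintype V] in
theorem sum_sz : ∑ i, sz T c i = (T.card : ℝ) := by
  have h := sum_card_cl T c
  unfold sz
  rw [← h]
  push_cast
  rfl

/-- the eigenvalue equation summed over a class -/
theorem class_eq (hpv : PV G x lam) (hT : TD r η K G x lam t c T) (hE : TE r K G x t c T)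
    (hη : 0 < η) (hη4 : η ≤ 1 / 4) (hK : 1 ≤ K) (i : Fin r) :
    |lam * cs x T c i - sz T c i * (∑ v ∈ T, x v - cs x T c i)| ≤ (2 * K + K ^ 2) / √t := by
  classical
  have ht := hT.tpos
  have hs : 0 < √t := Real.sqrt_pos.2 ht
  have hss : √t * √t = t := Real.mul_self_sqrt ht.le
  -- the equation
  have h1 : lam * cs x T c i = ∑ u ∈ cl T c i, ∑ v ∈ T, ad G u v * x v +
      ∑ u ∈ cl T c i, ∑ v ∈ out T, ad G u v * x v := by
    unfold cs
    rw [Finset.mul_sum, ← Finset.sum_add_distrib]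
    refine Finset.sum_congr rfl fun u _ => ?_
    rw [← hpv.eig u]
    have h2 : out T = univ \ T := by
      ext v
      rw [mem_out]
      simp
    rw [h2, add_comm, Finset.sum_sdiff (Finset.subset_univ T)]
  -- inner part
  have h2 : ∑ u ∈ cl T c i, ∑ v ∈ T, ad G u v * x v =
      sz T c i * (∑ v ∈ T, x v - cs x T c i) -
      ∑ u ∈ cl T c i, ∑ v ∈ T, chi (c u ≠ c v ∧ ¬ G.Adj u v) * x v := by
    have h3 : ∀ u ∈ cl T c i, ∑ v ∈ T, ad G u v * x v = (∑ v ∈ T, x v - cs x T c i) -
        ∑ v ∈ T, chi (c u ≠ c v ∧ ¬ G.Adj u v) * x v := by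
      intro u hu
      have hu' := mem_cl.1 hu
      have h4 : ∑ v ∈ T, x v - cs x T c i = ∑ v ∈ T, chi (c v ≠ i) * x v := by
        unfold cs cl
        rw [Finset.sum_filter, ← Finset.sum_sub_distrib]
        refine Finset.sum_congr rfl fun v _ => ?_
        by_cases h : c v = i
        · rw [if_pos h, chi_neg (not_not.2 h)]; ring
        · rw [if_neg h, chi_pos h]; ring
      rw [h4, ← Finset.sum_sub_distrib]
      refine Finset.sum_congr rfl fun v hv => ?_
      by_cases h : c v = i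
      · have hna : ¬ G.Adj u v := hT.ind u hu'.1 v hv (hu'.2.trans h.symm)
        unfold ad
        rw [chi_neg hna, chi_neg (not_not.2 h), chi_neg (fun h5 => h5.1 (hu'.2.trans h.symm))]
        ring
      · have hne : c u ≠ c v := fun h5 => h (h5.symm.trans hu'.2)
        by_cases ha : G.Adj u v
        · unfold ad
          rw [chi_pos ha, chi_pos h, chi_neg (fun h5 => h5.2 ha)]
          ring
        · unfold ad
          rw [chi_neg ha, chi_pos h, chi_pos ⟨hne, ha⟩]
          ring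
    rw [Finset.sum_congr rfl h3, Finset.sum_sub_distrib, Finset.sum_const, nsmul_eq_mul]
    rfl
  -- bound of the missing part
  have hmis : ∑ u ∈ cl T c i, ∑ v ∈ T, chi (c u ≠ c v ∧ ¬ G.Adj u v) * x v ≤ 2 * K / √t := by
    have h3 : ∑ u ∈ cl T c i, ∑ v ∈ T, chi (c u ≠ c v ∧ ¬ G.Adj u v) * x v ≤
        ∑ u ∈ T, ∑ v ∈ T, chi (c u ≠ c v ∧ ¬ G.Adj u v) * (2 * √t) := by
      refine le_trans (Finset.sum_le_sum fun u _ => Finset.sum_le_sum (g := fun v =>
        chi (c u ≠ c v ∧ ¬ G.Adj u v) * (2 * √t)) fun v hv => ?_) ?_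
      · refine mul_le_mul_of_nonneg_left ?_ (chi_nonneg _)
        have := (hT.near v hv).2
        nlinarith
      · refine Finset.sum_le_sum_of_subset_of_nonneg (fun v hv => (mem_cl.1 hv).1) ?_
        intro u _ _
        exact Finset.sum_nonneg fun v _ => mul_nonneg (chi_nonneg _) (by positivity)
    have h4 : ∑ u ∈ T, ∑ v ∈ T, chi (c u ≠ c v ∧ ¬ G.Adj u v) * (2 * √t) =
        (mis G T c : ℝ) * (2 * √t) := by
      unfold mis
      rw [Finset.card_filter, Finset.sum_product]
      push_cast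
      rw [Finset.sum_mul]
      refine Finset.sum_congr rfl fun u _ => ?_
      rw [Finset.sum_mul]
      refine Finset.sum_congr rfl fun v _ => ?_
      congr 1
      unfold chi
      by_cases h : c u ≠ c v ∧ ¬ G.Adj u v
      · rw [if_pos h, if_pos h]
      · rw [if_neg h, if_neg h]
    rw [h4] at h3
    refine h3.trans ?_
    calc (mis G T c : ℝ) * (2 * √t) ≤ K / t * (2 * √t) :=
          mul_le_mul_of_nonneg_right hE.mis (by positivity)
      _ = 2 * K / √t := by
          rw [div_mul_sqrt _ _ _ ht, mul_comm K 2]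
  have hmis0 : 0 ≤ ∑ u ∈ cl T c i, ∑ v ∈ T, chi (c u ≠ c v ∧ ¬ G.Adj u v) * x v :=
    Finset.sum_nonneg fun u _ => Finset.sum_nonneg fun v _ => mul_nonneg (chi_nonneg _) (hpv.nn v)
  -- bound of the outer part
  have hout0 : 0 ≤ ∑ u ∈ cl T c i, ∑ v ∈ out T, ad G u v * x v :=
    Finset.sum_nonneg fun u _ => Finset.sum_nonneg fun v _ => mul_nonneg (chi_nonneg _) (hpv.nn v)
  have hout : ∑ u ∈ cl T c i, ∑ v ∈ out T, ad G u v * x v ≤ K ^ 2 / √t := by
    have h3 : ∑ u ∈ cl T c i, ∑ v ∈ out T, ad G u v * x v ≤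
        ∑ u ∈ cl T c i, ∑ v ∈ out T, ad G u v * (K * √t) :=
      Finset.sum_le_sum fun u _ => Finset.sum_le_sum fun v _ =>
        mul_le_mul_of_nonneg_left (hE.xmax v) (chi_nonneg _)
    have h4 : ∑ u ∈ cl T c i, ∑ v ∈ out T, ad G u v * (K * √t) ≤
        ∑ u, ∑ v ∈ out T, ad G u v * (K * √t) := by
      refine Finset.sum_le_sum_of_subset_of_nonneg (Finset.subset_univ _) ?_
      intro u _ _
      exact Finset.sum_nonneg fun v _ => mul_nonneg (chi_nonneg _) (by positivity)
    have h5 : ∑ u, ∑ v ∈ out T, ad G u v * (K * √t) = (eo G T : ℝ) * (K * √t) := by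
      rw [Finset.sum_comm]
      unfold eo
      rw [Finset.card_filter, ← Finset.univ_product_univ, Finset.sum_product]
      push_cast
      rw [Finset.sum_mul]
      unfold out
      rw [Finset.sum_filter]
      refine Finset.sum_congr rfl fun v _ => ?_
      by_cases hv : v ∉ T
      · rw [if_pos hv, Finset.sum_mul]
        refine Finset.sum_congr rfl fun u _ => ?_
        congr 1
        unfold ad chi
        by_cases h : G.Adj u v
        · rw [if_pos h, if_pos ⟨h.symm, hv⟩]
        · rw [if_neg h, if_neg (fun h6 => h h6.1.symm)]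
      · rw [if_neg hv]
        symm
        rw [Finset.sum_eq_zero, zero_mul]
        intro u _
        rw [if_neg (fun h6 => hv h6.2)]
    refine h3.trans (h4.trans ?_)
    rw [h5]
    calc (eo G T : ℝ) * (K * √t) ≤ K / t * (K * √t) :=
          mul_le_mul_of_nonneg_right hE.eout (by positivity)
      _ = K ^ 2 / √t := by
          rw [div_mul_sqrt _ _ _ ht, pow_two]
  rw [h1, h2, add_div, abs_le]
  have h6 : 0 ≤ 2 * K / √t := by positivity
  have h7 : 0 ≤ K ^ 2 / √t := by positivity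
  constructor <;> linarith

end main

end AVG

open AVG in
/-- **AVG** -/
theorem blk_AVG : Stmt_AVG := by
  intro r η K hr hη hη4 hK
  have hR : (3 : ℝ) ≤ r := by exact_mod_cast hr
  obtain ⟨C1, hC1⟩ : ∃ C1 : ℝ, C1 = 4 * r * K := ⟨_, rfl⟩
  obtain ⟨C2, hC2⟩ : ∃ C2 : ℝ, C2 = 2 * (3 * C1 + C1 ^ 2) := ⟨_, rfl⟩
  obtain ⟨C4, hC4⟩ : ∃ C4 : ℝ, C4 = 2 * K + K ^ 2 := ⟨_, rfl⟩
  obtain ⟨C5, hC5⟩ : ∃ C5 : ℝ, C5 = 4 * r * C4 + 3 * C2 := ⟨_, rfl⟩
  have hC1p : 0 < C1 := by rw [hC1]; positivity
  have hC2p : 0 < C2 := by rw [hC2]; positivity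
  have hC4p : 0 < C4 := by rw [hC4]; positivity
  have hC5p : 0 < C5 := by rw [hC5]; positivity
  refine ⟨2 * r * C5 + r * (8 * r * K + 2 * C2 ^ 2) + 1, ?_, ?_⟩
  · have h1 : 0 ≤ 2 * (r : ℝ) * C5 + r * (8 * r * K + 2 * C2 ^ 2) := by positivity
    linarith
  intro V _ G x lam t c T hpv hT hE hKt
  classical
  have ht := hT.tpos
  have hs : 0 < √t := Real.sqrt_pos.2 ht
  have hss : √t * √t = t := Real.mul_self_sqrt ht.le
  have hss2 : √t ^ 2 = t := Real.sq_sqrt ht.le
  have ht1 : t ≤ 1 := by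
    have h1 : 0 ≤ (2 * (r : ℝ) * C5 + r * (8 * r * K + 2 * C2 ^ 2)) * t := by positivity
    linarith
  have hs1 : √t ≤ 1 := Real.sqrt_le_one.2 ht1
  have hlam : 0 < lam := by
    by_contra h
    push Not at h
    have := hT.lamt2
    nlinarith
  -- averages
  have hsz : ∀ i, 0 < sz T c i := fun i => lt_of_lt_of_le (by positivity) (hT.size i)
  obtain ⟨b, hb⟩ : ∃ b : Fin r → ℝ, ∀ i, cs x T c i = sz T c i * b i :=
    ⟨fun i => cs x T c i / sz T c i, fun i => by rw [mul_div_cancel₀ _ (hsz i).ne']⟩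
  have hblo : ∀ i, 3 / 4 * √t ≤ b i := by
    intro i
    have h1 : sz T c i * (3 / 4 * √t) ≤ sz T c i * b i := by
      rw [← hb i]
      unfold cs sz
      rw [← nsmul_eq_mul]
      refine Finset.card_nsmul_le_sum _ _ _ fun v hv => ?_
      have := (hT.near v (mem_cl.1 hv).1).1
      nlinarith
    exact le_of_mul_le_mul_left h1 (hsz i)
  -- products of averages
  have hprod : ∀ i j, i ≠ j → |b i * b j - t| ≤ C1 * t * √t := by
    intro i j hij
    have h1 := cauchy (cl T c i) (cl T c j) x t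
    have h2 := block_le hE i j hij
    have h3 : (∑ u ∈ cl T c i, x u) * (∑ v ∈ cl T c j, x v) -
        ((cl T c i).card : ℝ) * (cl T c j).card * t = sz T c i * sz T c j * (b i * b j - t) := by
      have e1 : ∑ u ∈ cl T c i, x u = sz T c i * b i := hb i
      have e2 : ∑ u ∈ cl T c j, x u = sz T c j * b j := hb j
      rw [e1, e2]
      unfold sz
      ring
    rw [h3] at h1
    have h4 : (sz T c i * sz T c j * (b i * b j - t)) ^ 2 ≤ sz T c i * sz T c j * (K * t) :=
      h1.trans (mul_le_mul_of_nonneg_left h2 (mul_pos (hsz i) (hsz j)).le)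
    have hpij : 0 < sz T c i * sz T c j := mul_pos (hsz i) (hsz j)
    have h5 : sz T c i * sz T c j * (b i * b j - t) ^ 2 ≤ K * t := by
      have : sz T c i * sz T c j * (sz T c i * sz T c j * (b i * b j - t) ^ 2) ≤
          sz T c i * sz T c j * (K * t) := by
        calc sz T c i * sz T c j * (sz T c i * sz T c j * (b i * b j - t) ^ 2)
            = (sz T c i * sz T c j * (b i * b j - t)) ^ 2 := by ring
          _ ≤ _ := h4
      exact le_of_mul_le_mul_left this hpij
    have h6 : 1 / (4 * r * t) * (1 / (4 * r * t)) ≤ sz T c i * sz T c j :=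
      mul_le_mul (hT.size i) (hT.size j) (by positivity) (hsz i).le
    have h7 : 1 / (4 * r * t) * (1 / (4 * r * t)) * (b i * b j - t) ^ 2 ≤ K * t :=
      (mul_le_mul_of_nonneg_right h6 (sq_nonneg _)).trans h5
    have h8 : (b i * b j - t) ^ 2 ≤ (C1 * t * √t) ^ 2 := by
      have h9 : (b i * b j - t) ^ 2 = (4 * r * t) ^ 2 *
          (1 / (4 * r * t) * (1 / (4 * r * t)) * (b i * b j - t) ^ 2) := by
        field_simp
      rw [h9]
      calc (4 * r * t) ^ 2 * (1 / (4 * r * t) * (1 / (4 * r * t)) * (b i * b j - t) ^ 2)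
          ≤ (4 * r * t) ^ 2 * (K * t) := mul_le_mul_of_nonneg_left h7 (by positivity)
        _ = K * (16 * r ^ 2 * t ^ 3) := by ring
        _ ≤ K ^ 2 * (16 * r ^ 2 * t ^ 3) := by
            apply mul_le_mul_of_nonneg_right _ (by positivity)
            nlinarith
        _ = (C1 * t * √t) ^ 2 := by
            rw [mul_pow, mul_pow, hss2, hC1]; ring
    exact abs_le_of_sq_le_sq h8 (by positivity)
  -- averages are close to `√t`
  have hbs : ∀ i, |b i - √t| ≤ C2 * t := by
    intro i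
    obtain ⟨j, k, hj, hk, hjk⟩ := three hr i
    rw [hC2]
    exact square_est (b i) (b j) (b k) t C1 (√t) hs hss2 hs1 hC1p.le (hblo i) (hblo j) (hblo k)
      (hprod i j hj.symm) (hprod i k hk.symm) (hprod j k hjk)
  have hszub : ∀ i, sz T c i ≤ 2 / t := by
    intro i
    refine le_trans ?_ hT.cardT
    rw [← sum_sz (T := T) (c := c)]
    exact Finset.single_le_sum (f := fun i => sz T c i) (fun i _ => sz_nonneg i) (Finset.mem_univ i)
  refine ⟨?_, ?_⟩
  · -- sizes
    have hS : ∑ v ∈ T, x v = ∑ j, sz T c j * b j := by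
      rw [← sum_cl T c x]
      exact Finset.sum_congr rfl fun j _ => hb j
    -- `|lam - (|T| - n_i)| ≤ C5 / √t`
    have hmain : ∀ i, |lam - ((T.card : ℝ) - sz T c i)| ≤ C5 / √t := by
      intro i
      have h1 := class_eq hpv hT hE hη hη4 hK i
      rw [← hC4, hb i, hS] at h1
      have h2 : lam * (sz T c i * b i) - sz T c i * (∑ j, sz T c j * b j - sz T c i * b i) =
          sz T c i * (lam * b i - (∑ j, sz T c j * b j - sz T c i * b i)) := by ring
      rw [h2, abs_mul, abs_of_pos (hsz i)] at h1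
      have h3 : |lam * b i - (∑ j, sz T c j * b j - sz T c i * b i)| ≤ 4 * r * C4 * √t := by
        have h4 : 1 / (4 * r * t) * |lam * b i - (∑ j, sz T c j * b j - sz T c i * b i)| ≤ C4 / √t :=
          (mul_le_mul_of_nonneg_right (hT.size i) (abs_nonneg _)).trans h1
        have h5 : |lam * b i - (∑ j, sz T c j * b j - sz T c i * b i)| = (4 * r * t) *
            (1 / (4 * r * t) * |lam * b i - (∑ j, sz T c j * b j - sz T c i * b i)|) := by
          field_simp
        rw [h5]
        calc (4 * r * t) * (1 / (4 * r * t) * |lam * b i - (∑ j, sz T c j * b j - sz T c i * b i)|)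
            ≤ (4 * r * t) * (C4 / √t) := mul_le_mul_of_nonneg_left h4 (by positivity)
          _ = 4 * r * C4 * (t / √t) := by ring
          _ = 4 * r * C4 * √t := by rw [Real.div_sqrt]
      -- replace `b` by `√t`
      have h4 : |lam * b i - lam * √t| ≤ C2 := by
        rw [← mul_sub, abs_mul, abs_of_pos hlam]
        calc lam * |b i - √t| ≤ lam * (C2 * t) := mul_le_mul_of_nonneg_left (hbs i) hlam.le
          _ = C2 * (lam * t) := by ring
          _ ≤ C2 * 1 := mul_le_mul_of_nonneg_left hT.lamt1 hC2p.le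
          _ = C2 := mul_one _
      have h5 : |(∑ j, sz T c j * b j - sz T c i * b i) - ((T.card : ℝ) - sz T c i) * √t| ≤ 2 * C2 := by
        have h6 : (∑ j, sz T c j * b j - sz T c i * b i) - ((T.card : ℝ) - sz T c i) * √t =
            ∑ j ∈ univ.erase i, sz T c j * (b j - √t) := by
          have e1 := Finset.sum_erase_add univ (fun j => sz T c j * (b j - √t)) (Finset.mem_univ i)
          have e2 : ∑ j, sz T c j * (b j - √t) = ∑ j, sz T c j * b j - (T.card : ℝ) * √t := by
            rw [← sum_sz (T := T) (c := c), Finset.sum_mul, ← Finset.sum_sub_distrib]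
            exact Finset.sum_congr rfl fun j _ => by ring
          rw [e2] at e1
          linear_combination -e1
        rw [h6]
        refine (Finset.abs_sum_le_sum_abs _ _).trans ?_
        have h7 : ∀ j ∈ univ.erase i, |sz T c j * (b j - √t)| ≤ sz T c j * (C2 * t) := by
          intro j _
          rw [abs_mul, abs_of_pos (hsz j)]
          exact mul_le_mul_of_nonneg_left (hbs j) (hsz j).le
        refine (Finset.sum_le_sum h7).trans ?_
        have h8 : ∑ j ∈ univ.erase i, sz T c j * (C2 * t) ≤ ∑ j, sz T c j * (C2 * t) :=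
          Finset.sum_le_sum_of_subset_of_nonneg (Finset.erase_subset _ _)
            (fun j _ _ => mul_nonneg (hsz j).le (by positivity))
        refine h8.trans ?_
        rw [← Finset.sum_mul, sum_sz]
        calc (T.card : ℝ) * (C2 * t) ≤ 2 / t * (C2 * t) :=
              mul_le_mul_of_nonneg_right hT.cardT (by positivity)
          _ = 2 * C2 := by field_simp
      have h6 : |(lam - ((T.card : ℝ) - sz T c i)) * √t| ≤ C5 := by
        have h7 : (lam - ((T.card : ℝ) - sz T c i)) * √t =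
            -(lam * b i - lam * √t) + (lam * b i - (∑ j, sz T c j * b j - sz T c i * b i)) +
            ((∑ j, sz T c j * b j - sz T c i * b i) - ((T.card : ℝ) - sz T c i) * √t) := by ring
        have h8 : 4 * r * C4 * √t ≤ 4 * r * C4 := by
          calc 4 * r * C4 * √t ≤ 4 * r * C4 * 1 := mul_le_mul_of_nonneg_left hs1 (by positivity)
            _ = _ := mul_one _
        rw [abs_le] at h3 h4 h5
        rw [h7, hC5, abs_le]
        constructor <;> linarith [h3.1, h3.2, h4.1, h4.2, h5.1, h5.2]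
      rw [abs_mul, abs_of_pos hs] at h6
      rw [le_div_iff₀ hs]
      exact h6
    intro i
    have hdiff : ∀ k, |sz T c k - sz T c i| ≤ 2 * (C5 / √t) := by
      intro k
      have h1 := hmain i
      have h2 := hmain k
      rw [abs_le] at h1 h2 ⊢
      constructor <;> linarith [h1.1, h1.2, h2.1, h2.2]
    have h1 : ((r : ℝ) - 1) * sz T c i - lam =
        -(lam - ((T.card : ℝ) - sz T c i)) - ∑ k ∈ univ.erase i, (sz T c k - sz T c i) := by
      have e1 := Finset.sum_erase_add univ (fun k => sz T c k - sz T c i) (Finset.mem_univ i)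
      have e2 : ∑ k, (sz T c k - sz T c i) = (T.card : ℝ) - r * sz T c i := by
        rw [Finset.sum_sub_distrib, sum_sz, Finset.sum_const, Finset.card_univ, Fintype.card_fin,
          nsmul_eq_mul]
      rw [e2] at e1
      linear_combination e1
    have h2 : |∑ k ∈ univ.erase i, (sz T c k - sz T c i)| ≤ ((r : ℝ) - 1) * (2 * (C5 / √t)) := by
      refine (Finset.abs_sum_le_sum_abs _ _).trans ?_
      refine (Finset.sum_le_card_nsmul _ _ _ fun k _ => hdiff k).trans (le_of_eq ?_)
      rw [Finset.card_erase_of_mem (Finset.mem_univ i), Finset.card_univ, Fintype.card_fin, nsmul_eq_mul,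
        Nat.cast_sub (by omega), Nat.cast_one]
    have h3 := hmain i
    rw [h1]
    have h4 : 0 ≤ C5 / √t := by positivity
    have h5 : (2 * r * C5 + r * (8 * r * K + 2 * C2 ^ 2) + 1) / √t =
        2 * r * (C5 / √t) + (r * (8 * r * K + 2 * C2 ^ 2) + 1) / √t := by ring
    have h6 : 0 ≤ (r * (8 * r * K + 2 * C2 ^ 2) + 1) / √t := by positivity
    rw [h5]
    rw [abs_le] at h2 h3 ⊢
    constructor <;> linarith [h2.1, h2.2, h3.1, h3.2]
  · -- flatness
    have hcls : ∀ i, ∑ v ∈ cl T c i, (x v - √t) ^ 2 ≤ (8 * r * K + 2 * C2 ^ 2) * t := by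
      intro i
      obtain ⟨j, k, hj, hk, hjk⟩ := three hr i
      have h1 := block_le hE j i hj
      have hbi : ∑ v ∈ cl T c i, x v = ((cl T c i).card : ℝ) * b i := hb i
      have h2 : ∀ u ∈ cl T c j, 9 / 16 * t * ∑ v ∈ cl T c i, (x v - b i) ^ 2 ≤
          ∑ v ∈ cl T c i, (x u * x v - t) ^ 2 := by
        intro u hu
        rw [variance (cl T c i) x (b i) (x u) t hbi]
        have h3 : 9 / 16 * t ≤ x u ^ 2 := by
          have h4 := (hT.near u (mem_cl.1 hu).1).1
          have h5 : 3 / 4 * √t ≤ x u := by nlinarith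
          calc 9 / 16 * t = (3 / 4 * √t) ^ 2 := by rw [mul_pow, hss2]; ring
            _ ≤ x u ^ 2 := pow_le_pow_left₀ (by positivity) h5 2
        have h4 : 0 ≤ ((cl T c i).card : ℝ) * (x u * b i - t) ^ 2 := by positivity
        have h5 : 9 / 16 * t * ∑ v ∈ cl T c i, (x v - b i) ^ 2 ≤
            x u ^ 2 * ∑ v ∈ cl T c i, (x v - b i) ^ 2 :=
          mul_le_mul_of_nonneg_right h3 (Finset.sum_nonneg fun v _ => sq_nonneg _)
        linarith
      have h3 : sz T c j * (9 / 16 * t * ∑ v ∈ cl T c i, (x v - b i) ^ 2) ≤ K * t := by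
        refine le_trans ?_ h1
        unfold sz
        rw [← nsmul_eq_mul]
        exact Finset.card_nsmul_le_sum _ _ _ h2
      have hV0 : 0 ≤ ∑ v ∈ cl T c i, (x v - b i) ^ 2 := Finset.sum_nonneg fun v _ => sq_nonneg _
      have h4 : 1 / (4 * r * t) * (9 / 16 * t * ∑ v ∈ cl T c i, (x v - b i) ^ 2) ≤ K * t :=
        (mul_le_mul_of_nonneg_right (hT.size j) (by positivity)).trans h3
      have h5 : ∑ v ∈ cl T c i, (x v - b i) ^ 2 ≤ 8 * r * K * t := by
        have h6 : 1 / (4 * r * t) * (9 / 16 * t * ∑ v ∈ cl T c i, (x v - b i) ^ 2) =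
            9 / (64 * r) * ∑ v ∈ cl T c i, (x v - b i) ^ 2 := by
          field_simp
          ring
        rw [h6] at h4
        have h7 : 1 / (8 * r) * ∑ v ∈ cl T c i, (x v - b i) ^ 2 ≤
            9 / (64 * r) * ∑ v ∈ cl T c i, (x v - b i) ^ 2 := by
          apply mul_le_mul_of_nonneg_right _ hV0
          rw [div_le_div_iff₀ (by positivity) (by positivity)]
          nlinarith
        have h8 : ∑ v ∈ cl T c i, (x v - b i) ^ 2 =
            (8 * r) * (1 / (8 * r) * ∑ v ∈ cl T c i, (x v - b i) ^ 2) := by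
          field_simp
        rw [h8]
        calc (8 * r) * (1 / (8 * r) * ∑ v ∈ cl T c i, (x v - b i) ^ 2) ≤ (8 * r) * (K * t) :=
              mul_le_mul_of_nonneg_left (h7.trans h4) (by positivity)
          _ = 8 * r * K * t := by ring
      have h6 := variance (cl T c i) x (b i) 1 (√t) hbi
      simp only [one_mul, one_pow] at h6
      rw [h6]
      have h7 : ((cl T c i).card : ℝ) * (b i - √t) ^ 2 ≤ 2 * C2 ^ 2 * t := by
        have h8 : (b i - √t) ^ 2 ≤ (C2 * t) ^ 2 := by
          rw [← sq_abs (b i - √t)]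
          exact pow_le_pow_left₀ (abs_nonneg _) (hbs i) 2
        calc ((cl T c i).card : ℝ) * (b i - √t) ^ 2 ≤ 2 / t * (C2 * t) ^ 2 :=
              mul_le_mul (hszub i) h8 (sq_nonneg _) (by positivity)
          _ = 2 * C2 ^ 2 * t := by field_simp
      calc ∑ v ∈ cl T c i, (x v - b i) ^ 2 + ((cl T c i).card : ℝ) * (b i - √t) ^ 2
          ≤ 8 * r * K * t + 2 * C2 ^ 2 * t := add_le_add h5 h7
        _ = (8 * r * K + 2 * C2 ^ 2) * t := by ring
    rw [← sum_cl T c (fun v => (x v - √t) ^ 2)]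
    refine (Finset.sum_le_card_nsmul _ _ _ fun i _ => hcls i).trans ?_
    rw [Finset.card_univ, Fintype.card_fin, nsmul_eq_mul]
    have h1 : 0 ≤ (2 * (r : ℝ) * C5 + 1) * t := by positivity
    linarith

end Pool.Agent.Work.MP_5532fa_up
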