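import Pool.Agent.Work.MP_5532fa_up.Str

/-!
# MP_5532fa_co, upgrade: the asymptotic theorem for all numbers of edges
-/

open Finset

namespace Pool.Agent.Work.MP_5532fa_up

open MP5532fa (specRad qf pE)

/-- the second order term -/
noncomputable def sec (r : ℕ) (N j : ℕ) : ℝ :=
  al r * ((1 - j / (al r * N)) * min (j / (al r * N)) (1 - 2 / r))

/-- comparison of `√(2 al m)` with `al N + j/N` -/
theorem rho_near {r : ℕ} (hr : 3 ≤ r) {N j : ℕ} (hN : 4 * (r : ℝ) ≤ N)
    (hj : (j : ℝ) ≤ al r * N) {p : ℝ} (hp : |p - al r * N ^ 2 - 2 * j| ≤ (r : ℝ)) :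
    |√(al r * p) - (al r * N + j / N)| ≤ 2 * r / N := by
  have hal := al_ge hr
  have hal1 := al_lt hr
  have hrr : (3 : ℝ) ≤ r := by exact_mod_cast hr
  have hN0 : (0:ℝ) < N := by linarith
  have hj0 : (0:ℝ) ≤ j := Nat.cast_nonneg j
  have hjN : (j : ℝ) / N ≤ 1 := by
    rw [div_le_one hN0]; nlinarith
  have hjN0 : 0 ≤ (j : ℝ) / N := by positivity
  obtain ⟨p1, p2⟩ := abs_le.mp hp
  have hp0 : 0 ≤ p := by nlinarith
  set a := al r * N + (j : ℝ) / N with ha
  have ha0 : 2 / 3 * N ≤ a := by rw [ha]; nlinarith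
  have hs0 : 0 ≤ √(al r * p) := Real.sqrt_nonneg _
  have hsq : √(al r * p) ^ 2 = al r * p := Real.sq_sqrt (by positivity)
  have ha2 : a ^ 2 = al r ^ 2 * N ^ 2 + 2 * al r * j + (j / N) ^ 2 := by
    rw [ha]; field_simp; ring
  have h1 : |al r * p - a ^ 2| ≤ r + 1 := by
    rw [ha2]
    have h2 : (j / N : ℝ) ^ 2 ≤ 1 := by nlinarith
    have h3 : 0 ≤ (j / N : ℝ) ^ 2 := sq_nonneg _
    rw [abs_le]
    constructor <;> nlinarith
  have h2 : (√(al r * p) - a) * (√(al r * p) + a) = al r * p - a ^ 2 := by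
    have h0 : (√(al r * p) - a) * (√(al r * p) + a) = √(al r * p) ^ 2 - a ^ 2 := by ring
    rw [h0, hsq]
  have h3 : |√(al r * p) - a| * (√(al r * p) + a) ≤ r + 1 := by
    rw [← abs_of_nonneg (by linarith : 0 ≤ √(al r * p) + a), ← abs_mul, h2]
    exact h1
  rw [le_div_iff₀ hN0]
  have h4 : |√(al r * p) - a| * (2 / 3 * N) ≤ r + 1 := by
    refine le_trans (mul_le_mul_of_nonneg_left ?_ (abs_nonneg _)) h3
    linarith
  nlinarith [abs_nonneg (√(al r * p) - a)]

/-- the theorem for all numbers of edges -/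
theorem main_all (hUPX : Stmt_UPX) (hLOWX : Stmt_LOWX) (hTN : Stmt_TN) (r : ℕ) (ε : ℝ)
    (hr : 3 ≤ r) (hε : 0 < ε) : ∃ m0 : ℕ, ∀ m ≥ m0, ∀ N j : ℕ, m = tn r N + j →
      m < tn r (N + 1) →
      (∀ (V : Type) [Fintype V] (G : SimpleGraph V), G.CliqueFree (r + 1) →
        pE G = 2 * (m : ℝ) → specRad G ≤ √(2 * al r * m) - sec r N j + ε) ∧
      ∃ G : SimpleGraph (Fin (N + 3)), G.CliqueFree (r + 1) ∧ ¬ G.Colorable r ∧
        pE G = 2 * (m : ℝ) ∧ √(2 * al r * m) - sec r N j - ε ≤ specRad G := by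
  obtain ⟨n1, H1⟩ := hUPX r (ε / 2) hr (by linarith)
  obtain ⟨n2, H2⟩ := hLOWX r (ε / 2) hr (by linarith)
  have hrr : (3 : ℝ) ≤ r := by exact_mod_cast hr
  obtain ⟨n3, hn3⟩ := exists_nat_gt (4 * (r : ℝ) / ε + 4 * r)
  set M := n1 + n2 + n3 + 1 with hM
  refine ⟨M ^ 2 + 1, ?_⟩
  intro m hm N j hmj hlt
  have hTNN := hTN r hr N
  have hjN : j + N / r < N := by
    have := hTNN.2.2
    omega
  -- N is large
  have hNM : M ≤ N := by
    by_contra h
    push Not at h
    have h1 : 2 * tn r (N + 1) ≤ (N + 1) ^ 2 := by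
      have hN1 : Nonempty (Fin r) := ⟨⟨0, by omega⟩⟩
      have h3 := (hTN r hr (N + 1)).2.1
      have h4 := (abs_le.mp h3).2
      have hal1 := al_lt hr
      have hal := al_ge hr
      by_contra hc
      push Not at hc
      -- use the exact formula with some balanced sizes
      have h5 := (hTN r hr (N + 1)).1
        (fun i => (N + 1 + i.val) / r) ?_ ?_
      · omega
      · -- Hermite identity
        have : ∀ n : ℕ, ∑ i : Fin r, (n + i.val) / r = n := by
          intro n
          induction n with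
          | zero =>
            refine Finset.sum_eq_zero fun i _ => ?_
            rw [Nat.zero_add]
            exact Nat.div_eq_of_lt i.2
          | succ n ih =>
            rw [Fin.sum_univ_eq_sum_range (fun i => (n + 1 + i) / r) r]
            rw [Fin.sum_univ_eq_sum_range (fun i => (n + i) / r) r] at ih
            obtain ⟨q, hq⟩ : ∃ q, r = q + 1 := ⟨r - 1, by omega⟩
            rw [hq] at ih ⊢
            rw [Finset.sum_range_succ] 
            rw [Finset.sum_range_succ'] at ih
            have e1 : ∀ i, (n + 1 + i) / (q + 1) = (n + (i + 1)) / (q + 1) := by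
              intro i; congr 1; omega
            simp only [e1]
            have e2 : (n + (q + 1)) / (q + 1) = n / (q + 1) + 1 := by
              rw [Nat.add_div_right _ (by omega)]
            rw [e2]
            simp only [Nat.add_zero, Nat.zero_add, Nat.add_assoc] at ih ⊢
            omega
        exact this (N + 1)
      · intro i k
        have h6 : (N + 1 + i.val) / r ≤ (N + 1 + k.val + r) / r := by
          apply Nat.div_le_div_right
          have := i.2
          omega
        rw [Nat.add_div_right _ (by omega)] at h6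
        exact h6
    have h2 : N + 1 ≤ M := h
    have h3 : (N + 1) ^ 2 ≤ M ^ 2 := Nat.pow_le_pow_left h2 2
    omega
  have hj : (j : ℝ) ≤ al r * N := by
    have h1 : ((j + N / r + 1 : ℕ) : ℝ) ≤ (N : ℝ) := by exact_mod_cast hjN
    push_cast at h1
    have h2 : (N : ℝ) / r - 1 ≤ ((N / r : ℕ) : ℝ) := by
      have h3 : N < r * (N / r + 1) := Nat.lt_mul_div_succ N (by omega)
      have h4 : (N : ℝ) < r * (((N / r : ℕ) : ℝ) + 1) := by exact_mod_cast h3
      rw [sub_le_iff_le_add, div_le_iff₀ (by linarith)]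
      nlinarith
    unfold al
    have e : (1 - 1 / (r:ℝ)) * N = N - N / r := by ring
    rw [e]; linarith
  have hNr : 4 * (r : ℝ) / ε + 4 * r < N := by
    refine lt_of_lt_of_le hn3 ?_
    exact_mod_cast (by omega : n3 ≤ N)
  have hpos : 0 < 4 * (r : ℝ) / ε := by positivity
  have hN0 : (0:ℝ) < N := by linarith
  have hp : |2 * (m : ℝ) - al r * N ^ 2 - 2 * j| ≤ (r : ℝ) :=
    pE_near hTN hr (by rw [hmj]; push_cast; ring)
  have hrho := rho_near hr (by linarith) hj hp
  have e1 : al r * (2 * (m : ℝ)) = 2 * al r * m := by ring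
  rw [e1] at hrho
  have hsm : 2 * (r : ℝ) / N ≤ ε / 2 := by
    rw [div_le_iff₀ hN0]
    have : 4 * (r : ℝ) / ε < N := by linarith
    rw [div_lt_iff₀ hε] at this
    nlinarith
  obtain ⟨r1, r2⟩ := abs_le.mp hrho
  constructor
  · intro V _ G hfree hpE
    by_cases hV : Nonempty V
    · have h := H1 N (by omega) j hj V G hV hfree (by rw [hpE]; exact hp)
      unfold sec
      linarith
    · rw [not_nonempty_iff] at hV
      exfalso
      have h1 : pE G = 0 := by rw [pE_ad]; simp
      rw [h1] at hpE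
      have h2 : (m : ℝ) = 0 := by linarith
      have h3 : m = 0 := by exact_mod_cast h2
      omega
  · obtain ⟨G, a, b, c, d⟩ := H2 N (by omega) j hj
    refine ⟨G, a, b, by rw [c, hmj]; push_cast; ring, ?_⟩
    unfold sec
    linarith

end Pool.Agent.Work.MP_5532fa_up
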