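import Pool.Agent.Work.MP_5532fa_up.Interface

/-!
# MP_5532fa_co, upgrade: block EST, estimates for the eigenvector
-/

open Finset

namespace Pool.Agent.Work.MP_5532fa_up

open MP5532fa (specRad qf pE)

namespace EST

section jj

variable {V : Type} [Fintype V] {r : ℕ} {G : SimpleGraph V} {H : Finset V} {c : V → Fin r} {w : V}
  {A : Finset V} {J : V → V → ℝ} {x : V → ℝ} {lam mx : ℝ}

omit [Fintype V] in
theorem jrow_aux [Fintype V] (hx0 : ∀ v, 0 ≤ x v) (hx : ∀ v, x v ≤ mx) (v : V) :
    |∑ z, J v z * x z| ≤ (∑ z, |J v z|) * mx := by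
  refine (Finset.abs_sum_le_sum_abs _ _).trans ?_
  rw [Finset.sum_mul]
  refine Finset.sum_le_sum fun z _ => ?_
  rw [abs_mul, abs_of_nonneg (hx0 z)]
  exact mul_le_mul_of_nonneg_left (hx z) (abs_nonneg _)

theorem jtot (hJ : ∑ a, ∑ b, |J a b| ≤ 2 * r) (hx0 : ∀ v, 0 ≤ x v) (hx : ∀ v, x v ≤ mx)
    (hmx : 0 ≤ mx) : ∑ v, |∑ z, J v z * x z| ≤ 2 * r * mx := by
  refine (Finset.sum_le_sum fun v _ => jrow_aux hx0 hx v).trans ?_
  rw [← Finset.sum_mul]
  exact mul_le_mul_of_nonneg_right hJ hmx

theorem jrow (hJ : ∑ a, ∑ b, |J a b| ≤ 2 * r) (hx0 : ∀ v, 0 ≤ x v) (hx : ∀ v, x v ≤ mx)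
    (hmx : 0 ≤ mx) (v : V) : |∑ z, J v z * x z| ≤ 2 * r * mx := by
  refine le_trans ?_ (jtot hJ hx0 hx hmx)
  exact Finset.single_le_sum (f := fun v => |∑ z, J v z * x z|) (fun _ _ => abs_nonneg _)
    (Finset.mem_univ v)

theorem jcls (hJ : ∑ a, ∑ b, |J a b| ≤ 2 * r) (hx0 : ∀ v, 0 ≤ x v) (hx : ∀ v, x v ≤ mx)
    (hmx : 0 ≤ mx) (B : Finset V) : |∑ v ∈ B, ∑ z, J v z * x z| ≤ 2 * r * mx := by
  refine (Finset.abs_sum_le_sum_abs _ _).trans ?_
  refine le_trans ?_ (jtot hJ hx0 hx hmx)
  exact Finset.sum_le_sum_of_subset_of_nonneg (Finset.subset_univ _) (fun _ _ _ => abs_nonneg _)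

/-- the number of adjacent pairs of the complete multipartite graph -/
theorem count_multi (H : Finset V) (c : V → Fin r) :
    ∑ a, ∑ b, chi (a ∈ H ∧ b ∈ H ∧ c a ≠ c b) = (H.card : ℝ) ^ 2 - ∑ i, sz H c i ^ 2 := by
  classical
  have h1 : ∀ a, ∑ b, chi (a ∈ H ∧ b ∈ H ∧ c a ≠ c b) =
      if a ∈ H then ((H.card : ℝ) - sz H c (c a)) else 0 := by
    intro a
    by_cases ha : a ∈ H
    · rw [if_pos ha]
      have h2 : (H.card : ℝ) - sz H c (c a) = ∑ b ∈ H, chi (c a ≠ c b) := by
        unfold sz cl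
        rw [Finset.card_filter]
        push_cast
        rw [Finset.card_eq_sum_ones]
        push_cast
        rw [← Finset.sum_sub_distrib]
        refine Finset.sum_congr rfl fun b _ => ?_
        by_cases h : c b = c a
        · rw [if_pos h, chi_neg (not_not.2 h.symm)]; ring
        · rw [if_neg h, chi_pos (fun h3 => h h3.symm)]; ring
      rw [h2, ← Finset.sum_subset (Finset.subset_univ H)]
      · refine Finset.sum_congr rfl fun b hb => ?_
        exact chi_congr ⟨fun h => h.2.2, fun h => ⟨ha, hb, h⟩⟩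
      · intro b _ hb
        exact chi_neg (fun h => hb h.2.1)
    · rw [if_neg ha]
      exact Finset.sum_eq_zero fun b _ => chi_neg (fun h => ha h.1)
  rw [Finset.sum_congr rfl fun a _ => h1 a, ← Finset.sum_filter]
  have h2 : (univ.filter fun a => a ∈ H) = H := by ext a; simp
  rw [h2, Finset.sum_sub_distrib, Finset.sum_const, nsmul_eq_mul, ← pow_two]
  congr 1
  rw [← sum_cl H c (fun a => sz H c (c a))]
  refine Finset.sum_congr rfl fun i _ => ?_
  have h3 : ∀ a ∈ cl H c i, sz H c (c a) = sz H c i := fun a ha => by rw [(mem_cl.1 ha).2]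
  rw [Finset.sum_congr rfl h3, Finset.sum_const, nsmul_eq_mul, pow_two]
  rfl

/-- lower bound for the spectral radius -/
theorem lam_lower (hF : Fam G H c w A J) (hpv : PV G x lam) :
    (H.card : ℝ) ^ 2 - ∑ i, sz H c i ^ 2 - 2 * r ≤ lam * H.card := by
  classical
  have _hne := hpv.nonempty
  have h1 := rayleigh G (fun v => chi (v ∈ H))
  rw [← hpv.rad] at h1
  have h2 : ∑ v, chi (v ∈ H) ^ 2 = (H.card : ℝ) := by
    have h3 : ∀ v : V, chi (v ∈ H) ^ 2 = if v ∈ H then (1 : ℝ) else 0 := by
      intro v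
      by_cases h : v ∈ H
      · rw [chi_pos h, if_pos h]; norm_num
      · rw [chi_neg h, if_neg h]; norm_num
    rw [Finset.sum_congr rfl fun v _ => h3 v, ← Finset.sum_filter]
    have h4 : (univ.filter fun a => a ∈ H) = H := by ext a; simp
    rw [h4]; simp
  rw [h2] at h1
  refine le_trans ?_ h1
  have h3 : ∀ a b, chi (a ∈ H ∧ b ∈ H ∧ c a ≠ c b) - |J a b| ≤
      ad G a b * (chi (a ∈ H) * chi (b ∈ H)) := by
    intro a b
    have hJ0 := abs_nonneg (J a b)
    by_cases ha : a ∈ H
    · by_cases hb : b ∈ H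
      · rw [hF.adj a b, chi_pos ha, chi_pos hb]
        have h4 := neg_abs_le (J a b)
        have h5 := chi_nonneg (a = w ∧ b ∈ A)
        have h6 := chi_nonneg (b = w ∧ a ∈ A)
        linarith only [h4, h5, h6]
      · rw [chi_neg (fun h => hb h.2.1), chi_neg hb]
        linarith only [hJ0]
    · rw [chi_neg (fun h => ha h.1), chi_neg ha]
      linarith only [hJ0]
  have h4 : ∑ a, ∑ b, (chi (a ∈ H ∧ b ∈ H ∧ c a ≠ c b) - |J a b|) ≤
      ∑ a, ∑ b, ad G a b * (chi (a ∈ H) * chi (b ∈ H)) :=
    Finset.sum_le_sum fun a _ => Finset.sum_le_sum fun b _ => h3 a b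
  simp only [Finset.sum_sub_distrib] at h4
  rw [count_multi] at h4
  have h5 := hF.Jt
  linarith only [h4, h5]

omit [Fintype V] in
theorem sum_sz' (S : Finset V) (c : V → Fin r) : ∑ i, sz S c i = (S.card : ℝ) := by
  have h := sum_card_cl S c
  unfold sz
  rw [← h]
  push_cast
  rfl

omit [Fintype V] in
theorem sz_nonneg' (S : Finset V) (c : V → Fin r) (i : Fin r) : 0 ≤ sz S c i := Nat.cast_nonneg _

omit [Fintype V] in
theorem sz_le (S : Finset V) (c : V → Fin r) (i : Fin r) : sz S c i ≤ S.card := by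
  rw [← sum_sz' S c]
  exact Finset.single_le_sum (f := fun i => sz S c i) (fun i _ => sz_nonneg' S c i) (Finset.mem_univ i)

end jj

/-- the function `n / (lam + n)` is increasing -/
theorem frac_mono (lam n m : ℝ) (hlam : 0 < lam) (hn : 0 ≤ n) (h : n ≤ m) :
    n / (lam + n) ≤ m / (lam + m) := by
  rw [div_le_div_iff₀ (by linarith only [hlam, hn]) (by linarith only [hlam, hn, h])]
  nlinarith only [hlam, h]

end EST

open Pool.Agent.Work.MP_5532fa_up.EST in
/-- EST, without a lower bound for `j` -/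
theorem EST.main (hCSE : Stmt_CSE) (r : ℕ) (e : ℝ) (hr : 3 ≤ r) (he : 0 < e) : ∃ (δ : ℝ) (N0 : ℕ),
    0 < δ ∧ ∀ N ≥ N0, ∀ j : ℕ, (j : ℝ) ≤ al r * N → ∀ (V : Type) [Fintype V] (G : SimpleGraph V)
      (H : Finset V) (c : V → Fin r) (w : V) (A : Finset V) (J : V → V → ℝ) (x : V → ℝ)
      (lam : ℝ), Fam G H c w A J → PV G x lam → H.card = N → Near r δ N j H A c →
      ∃ xb : ℝ, Est r e N j x lam c H w A xb := by
  have hR : (3 : ℝ) ≤ r := by exact_mod_cast hr
  obtain ⟨th, hth0, hth1, hthe⟩ : ∃ th : ℝ, 0 < th ∧ th ≤ 1 / 100 ∧ 65 * th ≤ e :=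
    ⟨min (e / 65) (1 / 100), lt_min (by positivity) (by norm_num), min_le_right _ _, by
      have := min_le_left (e / 65) (1 / 100)
      linarith only [this]⟩
  obtain ⟨N0, hN0⟩ := exists_nat_ge (96 * r / th)
  refine ⟨th / (2 * r), N0, by positivity, ?_⟩
  intro N hN j hj V _ G H c w A J x lam hF hpv hcard hnear
  classical
  have hal := al_ge hr
  have hal1 := al_lt hr
  -- `N` is large
  obtain ⟨M, hM⟩ : ∃ M : ℝ, M = (N : ℝ) := ⟨_, rfl⟩
  have hMbig : 96 * r / th ≤ M := by
    rw [hM]
    refine hN0.trans ?_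
    exact_mod_cast hN
  have hMth : 96 * r ≤ th * M := by
    rw [div_le_iff₀ hth0] at hMbig
    linarith only [hMbig]
  have hM0 : 0 < M := lt_of_lt_of_le (by positivity) hMbig
  have hthM1 : th * M ≤ 1 / 100 * M := mul_le_mul_of_nonneg_right hth1 hM0.le
  have hM1 : 9600 * (r : ℝ) ≤ M := by linarith only [hMth, hthM1]
  have hthM0 : 0 < th * M := mul_pos hth0 hM0
  have halM : 2 / 3 * M ≤ al r * M := mul_le_mul_of_nonneg_right hal hM0.le
  have hHM : (H.card : ℝ) = M := by rw [hcard, hM]
  have hcse := hCSE r V G H c w A J x lam hF hpv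
  obtain ⟨e1, e2, e3, e4⟩ := hcse
  -- sizes
  have hdel : th / (2 * r) ≤ th / 6 := by
    apply div_le_div_of_nonneg_left hth0.le (by norm_num) (by linarith only [hR])
  have hrdel : (r : ℝ) * (th / (2 * r)) = th / 2 := by field_simp
  have hn1 : ∀ i, |sz H c i - M / r| ≤ th / (2 * r) * M := by
    intro i
    have := hnear.1 i
    rwa [← hM] at this
  have hnth : ∀ i, |sz H c i - M / r| ≤ th * M := by
    intro i
    refine (hn1 i).trans (mul_le_mul_of_nonneg_right ?_ hM0.le)
    linarith only [hth0, hdel]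
  have hAj : |(A.card : ℝ) - j| ≤ th * M := by
    have h1 := hnear.2
    rw [← hM] at h1
    refine h1.trans (mul_le_mul_of_nonneg_right ?_ hM0.le)
    linarith only [hth0, hdel]
  have hAM : (A.card : ℝ) ≤ M := by
    rw [← hHM]
    exact_mod_cast Finset.card_le_card hF.hA
  have hjM : (j : ℝ) ≤ M := by
    have h1 := hj
    rw [← hM] at h1
    refine h1.trans ?_
    have h6 : al r * M ≤ 1 * M := mul_le_mul_of_nonneg_right hal1.le hM0.le
    linarith only [h6]
  -- lower bound for `lam`
  have hlow : al r * M - th * M ≤ lam := by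
    have h1 := lam_lower hF hpv
    rw [hHM] at h1
    have h2 : ∑ i, sz H c i ^ 2 ≤ (M / r + th / (2 * r) * M) * M := by
      calc ∑ i, sz H c i ^ 2 ≤ ∑ i, (M / r + th / (2 * r) * M) * sz H c i := by
            refine Finset.sum_le_sum fun i _ => ?_
            rw [pow_two]
            apply mul_le_mul_of_nonneg_right _ (sz_nonneg' H c i)
            have := (abs_le.1 (hn1 i)).2
            linarith only [this]
        _ = (M / r + th / (2 * r) * M) * M := by
            rw [← Finset.mul_sum, sum_sz', hHM]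
    have h3 : M ^ 2 - (M / r + th / (2 * r) * M) * M - 2 * r ≤ lam * M := by linarith only [h1, h2]
    have h4 : al r * M ^ 2 - th / 6 * M ^ 2 - 2 * r ≤ lam * M := by
      have h5 : M ^ 2 - (M / r + th / (2 * r) * M) * M = al r * M ^ 2 - th / (2 * r) * M ^ 2 := by
        unfold al; ring
      rw [h5] at h3
      have h6 : th / (2 * r) * M ^ 2 ≤ th / 6 * M ^ 2 := mul_le_mul_of_nonneg_right hdel (by positivity)
      linarith only [h3, h6]
    have h7 : th * M * 1 ≤ th * M * M := mul_le_mul_of_nonneg_left (by linarith only [hR, hM1]) hthM0.le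
    have h5 : 2 * (r : ℝ) ≤ th / 6 * M ^ 2 := by
      have : th / 6 * M ^ 2 = (th * M * M) / 6 := by ring
      linarith only [hMth, h7]
    have h6 : (al r * M - th * M) * M ≤ lam * M := by
      have e6 : (al r * M - th * M) * M = al r * M ^ 2 - th * M ^ 2 := by ring
      have e7 : 0 ≤ th * M ^ 2 := by positivity
      linarith only [h4, h5]
    exact le_of_mul_le_mul_right h6 hM0
  have hlamhalf : M / 2 ≤ lam := by linarith only [hthM1, halM, hHM, hlow]
  have hlam0 : 0 < lam := by linarith only [hM0, hlamhalf]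
  -- the maximum
  have _hne := hpv.nonempty
  obtain ⟨vm, -, hvm⟩ := Finset.exists_max_image (univ : Finset V) x ⟨Classical.arbitrary V, Finset.mem_univ _⟩
  obtain ⟨mx, hmx⟩ : ∃ mx, mx = x vm := ⟨_, rfl⟩
  have hxle : ∀ v, x v ≤ mx := fun v => by rw [hmx]; exact hvm v (Finset.mem_univ v)
  have hmx0 : 0 < mx := by
    by_contra hcon
    push Not at hcon
    have h1 : ∀ v, x v = 0 := fun v => le_antisymm ((hxle v).trans hcon) (hpv.nn v)
    have h2 := hpv.unit
    simp [h1] at h2
  have hx0 := hpv.nn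
  have jr := jrow (r := r) hF.Jt hx0 hxle hmx0.le
  have jc := jcls (r := r) hF.Jt hx0 hxle hmx0.le
  -- the average
  obtain ⟨S, hS⟩ : ∃ S, S = ∑ u ∈ H, x u := ⟨_, rfl⟩
  obtain ⟨xb, hxb⟩ : ∃ xb, xb = S / M := ⟨_, rfl⟩
  have hSM : S = M * xb := by rw [hxb]; field_simp
  rw [← hS] at e1 e2
  have hcs0 : ∀ i, 0 ≤ cs x H c i := fun i => Finset.sum_nonneg fun v _ => hx0 v
  have hcssum : ∑ i, cs x H c i = S := by rw [hS]; exact sum_cl H c x
  have hcsle : ∀ i, cs x H c i ≤ S := by
    intro i
    rw [← hcssum]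
    exact Finset.single_le_sum (f := fun i => cs x H c i) (fun i _ => hcs0 i) (Finset.mem_univ i)
  have hS0 : 0 ≤ S := by rw [hS]; exact Finset.sum_nonneg fun v _ => hx0 v
  have hAS : ∑ v ∈ A, x v ≤ S := by
    rw [hS]
    exact Finset.sum_le_sum_of_subset_of_nonneg hF.hA (fun v _ _ => hx0 v)
  have hmxS : lam * mx ≤ S + (1 + 2 * r) * mx := by
    have hjv := (abs_le.1 (jr vm)).2
    by_cases h1 : vm ∈ H
    · have h2 := e1 vm h1
      rw [← hmx] at h2
      have h3 := hcs0 (c vm)
      have h4 : chi (vm ∈ A) * x w ≤ mx := by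
        calc chi (vm ∈ A) * x w ≤ 1 * x w := mul_le_mul_of_nonneg_right (chi_le_one _) (hx0 w)
          _ = x w := one_mul _
          _ ≤ mx := hxle w
      linarith only [hjv, h2, h3, h4]
    · by_cases h2 : vm = w
      · rw [← h2, ← hmx] at e3
        linarith only [e3, hmx0, hAS, hjv]
      · have h3 := e4 vm h1 h2
        rw [← hmx] at h3
        linarith only [hmx0, hS0, hjv, h3]
  have hmx4 : mx ≤ 4 * xb := by
    have h1 : M / 4 * mx ≤ S := by
      have h2 : (1 + 2 * (r : ℝ)) * mx ≤ M / 4 * mx := mul_le_mul_of_nonneg_right (by linarith only [hR, hM1]) hmx0.le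
      have h3 : M / 2 * mx ≤ lam * mx := mul_le_mul_of_nonneg_right hlamhalf hmx0.le
      linarith only [hmxS, h2, h3]
    rw [hSM] at h1
    have h2 : M / 4 * mx ≤ M / 4 * (4 * xb) := by linarith only [h1]
    exact le_of_mul_le_mul_left h2 (by positivity)
  have hxb0 : 0 < xb := by linarith only [hmx0, hmx4]
  have hS0' : 0 < S := by rw [hSM]; positivity
  have hlam2 : lam ≤ 2 * M := by
    have h1 : S ≤ M * mx := by
      rw [hS, ← hHM, ← nsmul_eq_mul]
      exact Finset.sum_le_card_nsmul _ _ _ fun v _ => hxle v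
    have h2 : lam * mx ≤ (2 * M) * mx := by
      have h3 : (1 + 2 * (r : ℝ)) * mx ≤ M * mx := mul_le_mul_of_nonneg_right (by linarith only [hR, hM1]) hmx0.le
      linarith only [hmxS, h1, h3]
    exact le_of_mul_le_mul_right h2 hmx0
  -- the `J` terms
  have hrmx : 2 * r * mx ≤ 8 * r * xb := by
    calc 2 * r * mx ≤ 2 * r * (4 * xb) := mul_le_mul_of_nonneg_left hmx4 (by positivity)
      _ = 8 * r * xb := by ring
  have hJx : ∀ v, |∑ z, J v z * x z| ≤ 8 * r * xb := fun v => (jr v).trans hrmx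
  have hJc : ∀ B : Finset V, |∑ v ∈ B, ∑ z, J v z * x z| ≤ 8 * r * xb := fun B => (jc B).trans hrmx
  have hthMx : 96 * r * xb ≤ th * M * xb := mul_le_mul_of_nonneg_right hMth hxb0.le
  have hMx : 9600 * r * xb ≤ M * xb := mul_le_mul_of_nonneg_right hM1 hxb0.le
  have hrx : 3 * xb ≤ r * xb := mul_le_mul_of_nonneg_right hR hxb0.le
  have hex : 65 * th * xb ≤ e * xb := mul_le_mul_of_nonneg_right hthe hxb0.le
  have hthx0 : 0 ≤ th * xb := by positivity
  have h8r : 8 * (r : ℝ) * xb ≤ th * M * xb / 12 := by linarith only [hthMx]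
  -- class equations
  have hcls : ∀ i, (lam + sz H c i) * cs x H c i = sz H c i * S + sz A c i * x w +
      ∑ v ∈ cl H c i, ∑ z, J v z * x z := by
    intro i
    have := e2 i
    linarith only [this]
  have hszA : ∀ i, sz A c i ≤ M := fun i => (sz_le A c i).trans hAM
  have hxw4 : x w ≤ 4 * xb := (hxle w).trans hmx4
  -- upper bound for `lam`
  have hup : lam ≤ al r * M + th * M := by
    obtain ⟨m, hm⟩ : ∃ m, m = M / r + th / (2 * r) * M := ⟨_, rfl⟩
    have hnm : ∀ i, sz H c i ≤ m := by
      intro i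
      have := (abs_le.1 (hn1 i)).2
      rw [hm]; linarith only [this]
    have hm0 : 0 < m := by rw [hm]; positivity
    have hmM : m ≤ M := by
      rw [hm]
      have h1 : M / r ≤ M / 3 := by
        apply div_le_div_of_nonneg_left hM0.le (by norm_num) hR
      have h2 : th / (2 * r) * M ≤ th / 6 * M := mul_le_mul_of_nonneg_right hdel hM0.le
      linarith only [hthM1, hm, hm0, h1, h2]
    have h1 : ∀ i, cs x H c i ≤ m / (lam + m) * S + (sz A c i * (4 * xb) +
        |∑ v ∈ cl H c i, ∑ z, J v z * x z|) / lam := by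
      intro i
      have hpos : 0 < lam + sz H c i := by have := sz_nonneg' H c i; linarith only [hlam0, this]
      have h2 : cs x H c i = sz H c i / (lam + sz H c i) * S +
          (sz A c i * x w + ∑ v ∈ cl H c i, ∑ z, J v z * x z) / (lam + sz H c i) := by
        field_simp
        have := hcls i
        linarith only [this]
      rw [h2]
      apply add_le_add
      · apply mul_le_mul_of_nonneg_right _ hS0
        exact frac_mono lam (sz H c i) m hlam0 (sz_nonneg' H c i) (hnm i)
      · have h3 : sz A c i * x w + ∑ v ∈ cl H c i, ∑ z, J v z * x z ≤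
            sz A c i * (4 * xb) + |∑ v ∈ cl H c i, ∑ z, J v z * x z| :=
          add_le_add (mul_le_mul_of_nonneg_left hxw4 (sz_nonneg' A c i)) (le_abs_self _)
        have h4 : 0 ≤ sz A c i * (4 * xb) + |∑ v ∈ cl H c i, ∑ z, J v z * x z| :=
          add_nonneg (mul_nonneg (sz_nonneg' A c i) (by positivity)) (abs_nonneg _)
        calc (sz A c i * x w + ∑ v ∈ cl H c i, ∑ z, J v z * x z) / (lam + sz H c i)
            ≤ (sz A c i * (4 * xb) + |∑ v ∈ cl H c i, ∑ z, J v z * x z|) / (lam + sz H c i) :=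
              div_le_div_of_nonneg_right h3 hpos.le
          _ ≤ (sz A c i * (4 * xb) + |∑ v ∈ cl H c i, ∑ z, J v z * x z|) / lam := by
              apply div_le_div_of_nonneg_left h4 hlam0
              have := sz_nonneg' H c i
              linarith only [this]
    have h2 := Finset.sum_le_sum (s := univ) fun i _ => h1 i
    rw [hcssum, Finset.sum_add_distrib, Finset.sum_const, Finset.card_univ, Fintype.card_fin,
      nsmul_eq_mul, ← Finset.sum_div, Finset.sum_add_distrib, ← Finset.sum_mul, sum_sz'] at h2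
    have h3 : ∑ i, |∑ v ∈ cl H c i, ∑ z, J v z * x z| ≤ 2 * r * mx := by
      have h4 : ∑ i, |∑ v ∈ cl H c i, ∑ z, J v z * x z| ≤ ∑ i, ∑ v ∈ cl H c i, |∑ z, J v z * x z| :=
        Finset.sum_le_sum fun i _ => Finset.abs_sum_le_sum_abs _ _
      refine h4.trans ?_
      rw [sum_cl H c (fun v => |∑ z, J v z * x z|)]
      refine le_trans ?_ (jtot hF.Jt hx0 hxle hmx0.le)
      exact Finset.sum_le_sum_of_subset_of_nonneg (Finset.subset_univ _) (fun _ _ _ => abs_nonneg _)
    have h4 : ((A.card : ℝ) * (4 * xb) + ∑ i, |∑ v ∈ cl H c i, ∑ z, J v z * x z|) / lam ≤ 10 * xb := by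
      rw [div_le_iff₀ hlam0]
      have h5 : (A.card : ℝ) * (4 * xb) ≤ M * (4 * xb) := mul_le_mul_of_nonneg_right hAM (by positivity)
      have h6 : 2 * (r : ℝ) * mx ≤ M * xb := by linarith only [hxb0, hrmx, hMx, hrx]
      have h7 : xb * (M / 2) ≤ xb * lam := mul_le_mul_of_nonneg_left hlamhalf hxb0.le
      linarith only [h3, h5, h6, h7]
    have h5 : S ≤ r * (m / (lam + m) * S) + 10 * xb := by linarith only [h2, h4]
    have hlm : 0 < lam + m := by linarith only [hlam0, hm0]
    have h6 : S * (lam + m) ≤ r * m * S + 10 * xb * (lam + m) := by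
      have h7 : (r * (m / (lam + m) * S) + 10 * xb) * (lam + m) = r * m * S + 10 * xb * (lam + m) := by
        field_simp
      calc S * (lam + m) ≤ (r * (m / (lam + m) * S) + 10 * xb) * (lam + m) :=
            mul_le_mul_of_nonneg_right h5 hlm.le
        _ = _ := h7
    rw [hSM] at h6
    have h7 : xb * (M * (lam + m)) ≤ xb * (r * m * M + 10 * (lam + m)) := by linarith only [h6]
    have h8 : M * (lam + m) ≤ r * m * M + 10 * (lam + m) := le_of_mul_le_mul_left h7 hxb0
    have h9 : M * (lam + m) ≤ M * (r * m + 30) := by linarith only [hlam2, hmM, h8]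
    have h10 : lam + m ≤ r * m + 30 := le_of_mul_le_mul_left h9 hM0
    have h11 : r * m = M + th / 2 * M := by
      rw [hm, mul_add, mul_div_cancel₀ _ (by positivity : (r : ℝ) ≠ 0)]
      have : (r : ℝ) * (th / (2 * r) * M) = ((r : ℝ) * (th / (2 * r))) * M := by ring
      rw [this, hrdel]
    have h12 : m = M / r + th / (2 * r) * M := hm
    have h13 : 0 ≤ th / (2 * r) * M := by positivity
    have h14 : al r * M = M - M / r := by unfold al; ring
    rw [h14]
    linarith only [hR, hMth, h10, h11, h12, h13]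
  have hlamN : |lam - al r * M| ≤ th * M := abs_le.2 ⟨by linarith only [hlow], by linarith only [hup]⟩
  -- `L i = lam + n i`
  have hL : ∀ i, |lam + sz H c i - M| ≤ 2 * th * M := by
    intro i
    have h1 := hnth i
    have h2 : lam + sz H c i - M = (lam - al r * M) + (sz H c i - M / r) := by unfold al; ring
    rw [h2]
    refine (abs_add_le _ _).trans ?_
    linarith only [hlamN, h1]
  have hLpos : ∀ i, M / 2 ≤ lam + sz H c i := fun i => by
    have := sz_nonneg' H c i
    linarith only [hlamhalf, this]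
  -- class sums
  have hcsr : ∀ i, |cs x H c i - S / r| ≤ 4 * th * S := by
    intro i
    have h1 := hcls i
    have h2 := hL i
    have h3 := hnth i
    have h4 := hJc (cl H c i)
    have h5 : M * (cs x H c i - S / r) = (sz H c i - M / r) * S + sz A c i * x w +
        ∑ v ∈ cl H c i, ∑ z, J v z * x z - (lam + sz H c i - M) * cs x H c i := by
      have e5 : (lam + sz H c i - M) * cs x H c i =
        (lam + sz H c i) * cs x H c i - M * cs x H c i := by ring
      rw [e5, h1]
      have : M * (S / r) = M / r * S := by ring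
      linarith only [this]
    have h6 : |M * (cs x H c i - S / r)| ≤ M * (4 * th * S) := by
      rw [h5]
      have k1 : |(sz H c i - M / r) * S| ≤ th * M * S := by
        rw [abs_mul, abs_of_pos hS0']
        exact mul_le_mul_of_nonneg_right h3 hS0
      have k2 : |(lam + sz H c i - M) * cs x H c i| ≤ 2 * th * M * S := by
        rw [abs_mul, abs_of_nonneg (hcs0 i)]
        exact mul_le_mul h2 (hcsle i) (hcs0 i) (by positivity)
      have k3 : sz A c i * x w ≤ 4 * S := by
        rw [hSM]
        calc sz A c i * x w ≤ M * (4 * xb) := mul_le_mul (hszA i) hxw4 (hx0 w) hM0.le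
          _ = 4 * (M * xb) := by ring
      have k4 : 0 ≤ sz A c i * x w := mul_nonneg (sz_nonneg' A c i) (hx0 w)
      have k5 : 8 * (r : ℝ) * xb ≤ S := by rw [hSM]; linarith only [hxb0, hMx, hrx]
      have k6 : 5 * S ≤ th * M * S := mul_le_mul_of_nonneg_right (by linarith only [hR, hMth]) hS0
      rw [abs_le] at k1 k2 h4 ⊢
      constructor <;> linarith only [k4, k5, k6, k1.1, k2.2, h4.1, h4.2, k3, k1.2, k2.1]
    rw [abs_mul, abs_of_pos hM0] at h6
    exact le_of_mul_le_mul_left h6 hM0
  -- entries on `H`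
  have hxH : ∀ v ∈ H, |x v - xb| ≤ 15 * th * xb := by
    intro v hv
    have h1 := e1 v hv
    have h2 := hcsr (c v)
    have h3 := hJx v
    have h4 : al r * M * (x v - xb) = -(cs x H c (c v) - S / r) + chi (v ∈ A) * x w +
        ∑ z, J v z * x z - (lam - al r * M) * x v := by
      have e5 : (lam - al r * M) * x v = lam * x v - al r * M * x v := by ring
      have e6 : al r * M * xb = S - S / r := by rw [hSM]; unfold al; ring
      rw [e5, h1]
      linarith only [e6]
    have k1 : chi (v ∈ A) * x w ≤ 4 * xb := by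
      calc chi (v ∈ A) * x w ≤ 1 * x w := mul_le_mul_of_nonneg_right (chi_le_one _) (hx0 w)
        _ = x w := one_mul _
        _ ≤ 4 * xb := hxw4
    have k2 : 0 ≤ chi (v ∈ A) * x w := mul_nonneg (chi_nonneg _) (hx0 w)
    have k3 : |(lam - al r * M) * x v| ≤ 4 * th * M * xb := by
      rw [abs_mul, abs_of_nonneg (hx0 v)]
      calc |lam - al r * M| * x v ≤ th * M * (4 * xb) :=
            mul_le_mul hlamN ((hxle v).trans hmx4) (hx0 v) (by positivity)
        _ = 4 * th * M * xb := by ring
    have k4 : 4 * xb ≤ th * M * xb / 12 := by linarith only [hrx, h8r, k1, k2]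
    have h5 : |al r * M * (x v - xb)| ≤ 9 * th * M * xb := by
      rw [h4]
      rw [hSM] at h2 ⊢
      rw [abs_le] at h2 h3 k3 ⊢
      constructor <;> linarith only [k2, h2.2, h3.1, k3.1, k3.2, h8r, k1, k4, h2.1, h3.2]
    rw [abs_mul, abs_of_pos (by positivity : 0 < al r * M)] at h5
    have h6 : M * (2 / 3 * |x v - xb|) ≤ M * (9 * th * xb) := by
      have h7 : 2 / 3 * M * |x v - xb| ≤ al r * M * |x v - xb| :=
        mul_le_mul_of_nonneg_right (mul_le_mul_of_nonneg_right hal hM0.le) (abs_nonneg _)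
      linarith only [h5, h7]
    have h7 : 2 / 3 * |x v - xb| ≤ 9 * th * xb := le_of_mul_le_mul_left h6 hM0
    have h8 : 0 ≤ th * xb := by positivity
    linarith only [h7, h8]
  -- entry at `w`
  have hxw : |x w - j / (al r * M) * xb| ≤ 32 * th * xb := by
    have h1 : |∑ v ∈ A, x v - A.card * xb| ≤ 15 * th * M * xb := by
      have h2 : ∑ v ∈ A, x v - A.card * xb = ∑ v ∈ A, (x v - xb) := by
        rw [Finset.sum_sub_distrib, Finset.sum_const, nsmul_eq_mul]
      rw [h2]
      refine (Finset.abs_sum_le_sum_abs _ _).trans ?_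
      refine (Finset.sum_le_card_nsmul _ _ _ fun v hv => hxH v (hF.hA hv)).trans ?_
      rw [nsmul_eq_mul]
      have h3 : (A.card : ℝ) * (15 * th * xb) ≤ M * (15 * th * xb) :=
        mul_le_mul_of_nonneg_right hAM (by positivity)
      linarith only [h3]
    have h2 := hJx w
    have h3 : |((A.card : ℝ) - j) * xb| ≤ th * M * xb := by
      rw [abs_mul, abs_of_pos hxb0]
      exact mul_le_mul_of_nonneg_right hAj hxb0.le
    have k3 : |(lam - al r * M) * x w| ≤ 4 * th * M * xb := by
      rw [abs_mul, abs_of_nonneg (hx0 w)]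
      calc |lam - al r * M| * x w ≤ th * M * (4 * xb) :=
            mul_le_mul hlamN hxw4 (hx0 w) (by positivity)
        _ = 4 * th * M * xb := by ring
    have h4 : al r * M * x w - j * xb = (∑ v ∈ A, x v - A.card * xb) + ((A.card : ℝ) - j) * xb +
        ∑ z, J w z * x z - (lam - al r * M) * x w := by
      have e5 : (lam - al r * M) * x w = lam * x w - al r * M * x w := by ring
      rw [e5, e3]
      ring
    have h5 : |al r * M * x w - j * xb| ≤ 21 * th * M * xb := by
      rw [h4]
      rw [abs_le] at h1 h2 h3 k3 ⊢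
      constructor <;> linarith only [h1.1, h2.1, h3.1, k3.1, k3.2, h8r, h1.2, h2.2, h3.2]
    have halM : 0 < al r * M := by positivity
    have h6 : al r * M * x w - j * xb = al r * M * (x w - j / (al r * M) * xb) := by
      field_simp
    rw [h6, abs_mul, abs_of_pos halM] at h5
    have h7 : M * (2 / 3 * |x w - j / (al r * M) * xb|) ≤ M * (21 * th * xb) := by
      have h8 : 2 / 3 * M * |x w - j / (al r * M) * xb| ≤ al r * M * |x w - j / (al r * M) * xb| :=
        mul_le_mul_of_nonneg_right (mul_le_mul_of_nonneg_right hal hM0.le) (abs_nonneg _)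
      linarith only [h5, h8]
    have h8 : 2 / 3 * |x w - j / (al r * M) * xb| ≤ 21 * th * xb := le_of_mul_le_mul_left h7 hM0
    have h9 : 0 ≤ th * xb := by positivity
    linarith only [h8, h9]
  refine ⟨xb, ⟨hxb0, ?_, ?_, ?_, ?_, ?_⟩⟩
  · intro v hv
    refine (hxH v hv).trans ?_
    linarith only [hex, hthx0]
  · rw [← hM]
    refine hxw.trans ?_
    linarith only [hex, hthx0]
  · intro v hv hvw
    have h1 := e4 v hv hvw
    have h2 := (abs_le.1 (hJx v)).2
    have h3 : lam * x v ≤ lam * (e * xb) := by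
      have h4 : 8 * (r : ℝ) * xb ≤ lam * (e * xb) := by
        have h5 : M / 2 * (65 * th * xb) ≤ lam * (e * xb) :=
          mul_le_mul hlamhalf hex (by positivity) hlam0.le
        have h6 : 0 ≤ th * M * xb := by positivity
        linarith only [h8r, h5, h6]
      linarith only [h1, h2, h4]
    exact le_of_mul_le_mul_left h3 hlam0
  · rw [← hM]
    refine hlamN.trans ?_
    have h1 : 65 * th * M ≤ e * M := mul_le_mul_of_nonneg_right hthe hM0.le
    linarith only [hlow, hup, h1]
  · intro i k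
    rw [← hM]
    -- differences
    obtain ⟨Li, hLi⟩ : ∃ Li, Li = lam + sz H c i := ⟨_, rfl⟩
    obtain ⟨Lk, hLk⟩ : ∃ Lk, Lk = lam + sz H c k := ⟨_, rfl⟩
    have hLi0 : M / 2 ≤ Li := by rw [hLi]; exact hLpos i
    have hLk0 : M / 2 ≤ Lk := by rw [hLk]; exact hLpos k
    have hLip : 0 < Li := by linarith only [hM0, hLi0]
    have hLkp : 0 < Lk := by linarith only [hM0, hLk0]
    have hLiN : |Li - M| ≤ 2 * th * M := by rw [hLi]; exact hL i
    have hLkN : |Lk - M| ≤ 2 * th * M := by rw [hLk]; exact hL k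
    obtain ⟨Ji, hJi⟩ : ∃ Ji, Ji = ∑ v ∈ cl H c i, ∑ z, J v z * x z := ⟨_, rfl⟩
    obtain ⟨Jk, hJk⟩ : ∃ Jk, Jk = ∑ v ∈ cl H c k, ∑ z, J v z * x z := ⟨_, rfl⟩
    have hJi' : |Ji| ≤ 8 * r * xb := by rw [hJi]; exact hJc _
    have hJk' : |Jk| ≤ 8 * r * xb := by rw [hJk]; exact hJc _
    have hci : cs x H c i = (sz H c i * S + sz A c i * x w + Ji) / Li := by
      rw [eq_div_iff hLip.ne', hJi, ← hcls i, hLi]; ring
    have hck : cs x H c k = (sz H c k * S + sz A c k * x w + Jk) / Lk := by
      rw [eq_div_iff hLkp.ne', hJk, ← hcls k, hLk]; ring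
    -- the three parts
    have hsplit : cs x H c i - cs x H c k =
        xb * ((M * lam / (Li * Lk)) * (sz H c i - sz H c k)) +
        x w * (sz A c i / Li - sz A c k / Lk) + (Ji / Li - Jk / Lk) := by
      have h1 : M * lam / (Li * Lk) * (sz H c i - sz H c k) =
          M * (sz H c i / Li - sz H c k / Lk) := by
        rw [div_sub_div _ _ hLip.ne' hLkp.ne', hLi, hLk]
        ring
      rw [h1, hci, hck, hSM]
      ring
    have hp1 : |M * lam / (Li * Lk) - al r| ≤ 24 * th := by
      have h1 : M * lam / (Li * Lk) - al r = (M * lam - al r * (Li * Lk)) / (Li * Lk) := by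
        field_simp
      rw [h1, abs_div, abs_of_pos (mul_pos hLip hLkp), div_le_iff₀ (mul_pos hLip hLkp)]
      have h2 : M * lam - al r * (Li * Lk) = M * (lam - al r * M) -
          al r * ((Li - M) * Lk + M * (Lk - M)) := by ring
      have h3 : |M * (lam - al r * M)| ≤ th * M ^ 2 := by
        rw [abs_mul, abs_of_pos hM0]
        calc M * |lam - al r * M| ≤ M * (th * M) := mul_le_mul_of_nonneg_left hlamN hM0.le
          _ = th * M ^ 2 := by ring
      have hLk3 : Lk ≤ 3 / 2 * M := by
        have := (abs_le.1 hLkN).2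
        linarith only [hthM1, hM1, this]
      have h4 : |(Li - M) * Lk + M * (Lk - M)| ≤ 5 * th * M ^ 2 := by
        refine (abs_add_le _ _).trans ?_
        rw [abs_mul, abs_mul, abs_of_pos hLkp, abs_of_pos hM0]
        have h5 : |Li - M| * Lk ≤ 2 * th * M * (3 / 2 * M) :=
          mul_le_mul hLiN hLk3 hLkp.le (by positivity)
        have h6 : M * |Lk - M| ≤ M * (2 * th * M) := mul_le_mul_of_nonneg_left hLkN hM0.le
        linarith only [h5, h6]
      have h5 : |al r * ((Li - M) * Lk + M * (Lk - M))| ≤ 5 * th * M ^ 2 := by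
        rw [abs_mul, abs_of_pos (by linarith only [hal] : 0 < al r)]
        calc al r * |(Li - M) * Lk + M * (Lk - M)| ≤ 1 * |(Li - M) * Lk + M * (Lk - M)| :=
              mul_le_mul_of_nonneg_right hal1.le (abs_nonneg _)
          _ ≤ _ := by rw [one_mul]; exact h4
      have h6 : |M * lam - al r * (Li * Lk)| ≤ 6 * th * M ^ 2 := by
        rw [h2]
        rw [abs_le] at h3 h5 ⊢
        constructor <;> linarith only [h3.1, h5.2, h3.2, h5.1]
      have h7 : M / 2 * (M / 2) ≤ Li * Lk := mul_le_mul hLi0 hLk0 (by positivity) hLip.le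
      calc |M * lam - al r * (Li * Lk)| ≤ 6 * th * M ^ 2 := h6
        _ = 24 * th * (M / 2 * (M / 2)) := by ring
        _ ≤ 24 * th * (Li * Lk) := mul_le_mul_of_nonneg_left h7 (by positivity)
    have hpA : ∀ (a L : ℝ), 0 ≤ a → a ≤ M → M / 2 ≤ L → |L - M| ≤ 2 * th * M →
        |a / L - a / M| ≤ 4 * th := by
      intro a L ha haM hLl hLM
      have hLp : 0 < L := by linarith only [hlam0, hlam2, hLl]
      have h1 : a / L - a / M = -(a * (L - M)) / (L * M) := by
        field_simp
        ring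
      rw [h1, abs_div, abs_neg, abs_mul, abs_of_nonneg ha, abs_of_pos (mul_pos hLp hM0),
        div_le_iff₀ (mul_pos hLp hM0)]
      calc a * |L - M| ≤ M * (2 * th * M) := mul_le_mul haM hLM (abs_nonneg _) hM0.le
        _ = 4 * th * (M / 2 * M) := by ring
        _ ≤ 4 * th * (L * M) :=
            mul_le_mul_of_nonneg_left (mul_le_mul_of_nonneg_right hLl hM0.le) (by positivity)
    have hp2 : |(sz A c i / Li - sz A c k / Lk) - (sz A c i - sz A c k) / M| ≤ 8 * th := by
      have h1 := hpA (sz A c i) Li (sz_nonneg' A c i) (hszA i) hLi0 hLiN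
      have h2 := hpA (sz A c k) Lk (sz_nonneg' A c k) (hszA k) hLk0 hLkN
      have h3 : (sz A c i / Li - sz A c k / Lk) - (sz A c i - sz A c k) / M =
          (sz A c i / Li - sz A c i / M) - (sz A c k / Lk - sz A c k / M) := by ring
      rw [h3]
      rw [abs_le] at h1 h2 ⊢
      constructor <;> linarith only [h1.1, h2.2, h1.2, h2.1]
    have hda : |(sz A c i - sz A c k) / M| ≤ 1 := by
      rw [abs_div, abs_of_pos hM0, div_le_one hM0, abs_le]
      have h1 := sz_nonneg' A c i
      have h2 := sz_nonneg' A c k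
      have h3 := hszA i
      have h4 := hszA k
      constructor <;> linarith only [h1, h4, h2, h3]
    have hpJ : ∀ (q L : ℝ), |q| ≤ 8 * r * xb → M / 2 ≤ L → |q / L| ≤ th * xb / 4 := by
      intro q L hq hLl
      have hLp : 0 < L := by linarith only [hlam0, hlam2, hLl]
      rw [abs_div, abs_of_pos hLp, div_le_iff₀ hLp]
      have h1 : th * xb / 4 * (M / 2) ≤ th * xb / 4 * L := mul_le_mul_of_nonneg_left hLl (by positivity)
      have h2 : 0 ≤ th * M * xb := by positivity
      linarith only [h8r, hq, h1, h2]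
    have hJ1 := hpJ Ji Li hJi' hLi0
    have hJ2 := hpJ Jk Lk hJk' hLk0
    have hfin : cs x H c i - cs x H c k -
        xb * (al r * (sz H c i - sz H c k) + j / (al r * M) * ((sz A c i - sz A c k) / M)) =
        xb * ((M * lam / (Li * Lk) - al r) * (sz H c i - sz H c k)) +
        x w * ((sz A c i / Li - sz A c k / Lk) - (sz A c i - sz A c k) / M) +
        (x w - j / (al r * M) * xb) * ((sz A c i - sz A c k) / M) + (Ji / Li - Jk / Lk) := by
      rw [hsplit]; ring
    rw [hfin]
    have q1 : |xb * ((M * lam / (Li * Lk) - al r) * (sz H c i - sz H c k))| ≤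
        24 * th * xb * |sz H c i - sz H c k| := by
      rw [abs_mul, abs_mul, abs_of_pos hxb0]
      calc xb * (|M * lam / (Li * Lk) - al r| * |sz H c i - sz H c k|)
          ≤ xb * (24 * th * |sz H c i - sz H c k|) :=
            mul_le_mul_of_nonneg_left (mul_le_mul_of_nonneg_right hp1 (abs_nonneg _)) hxb0.le
        _ = _ := by ring
    have q2 : |x w * ((sz A c i / Li - sz A c k / Lk) - (sz A c i - sz A c k) / M)| ≤
        32 * th * xb := by
      rw [abs_mul, abs_of_nonneg (hx0 w)]
      calc x w * |(sz A c i / Li - sz A c k / Lk) - (sz A c i - sz A c k) / M|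
          ≤ 4 * xb * (8 * th) := mul_le_mul hxw4 hp2 (abs_nonneg _) (by positivity)
        _ = 32 * th * xb := by ring
    have q3 : |(x w - j / (al r * M) * xb) * ((sz A c i - sz A c k) / M)| ≤ 32 * th * xb := by
      rw [abs_mul]
      calc |x w - j / (al r * M) * xb| * |(sz A c i - sz A c k) / M|
          ≤ 32 * th * xb * 1 := mul_le_mul hxw hda (abs_nonneg _) (by positivity)
        _ = 32 * th * xb := mul_one _
    -- use the sharper constants of the three parts
    have hd0 := abs_nonneg (sz H c i - sz H c k)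
    have hthx : 0 ≤ th * xb := by positivity
    have hfinal : |xb * ((M * lam / (Li * Lk) - al r) * (sz H c i - sz H c k)) +
        x w * ((sz A c i / Li - sz A c k / Lk) - (sz A c i - sz A c k) / M) +
        (x w - j / (al r * M) * xb) * ((sz A c i - sz A c k) / M) + (Ji / Li - Jk / Lk)| ≤
        24 * th * xb * |sz H c i - sz H c k| + 64 * th * xb + th * xb / 2 := by
      rw [abs_le] at q1 q2 q3 hJ1 hJ2 ⊢
      constructor <;> linarith only [q1.1, q2.1, q3.1, hJ1.1, hJ2.2, q1.2, q2.2, q3.2, hJ1.2, hJ2.1]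
    refine hfinal.trans ?_
    have hlast : 65 * th * xb * (|sz H c i - sz H c k| + 1) ≤
        e * xb * (|sz H c i - sz H c k| + 1) := by
      apply mul_le_mul_of_nonneg_right _ (by linarith only [hd0])
      apply mul_le_mul_of_nonneg_right _ hxb0.le
      linarith only [hthe]
    refine le_trans ?_ hlast
    have hd1 := mul_nonneg hthx hd0
    have hd2 : 65 * th * xb * (|sz H c i - sz H c k| + 1) =
      65 * (th * xb * |sz H c i - sz H c k|) + 65 * th * xb := by ring
    have hd3 : 24 * th * xb * |sz H c i - sz H c k| = 24 * (th * xb * |sz H c i - sz H c k|) := by ring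
    rw [hd2, hd3]
    linarith only [hthx, hd1]

/-- **EST** -/
theorem blk_EST (hCSE : Stmt_CSE) : Stmt_EST := by
  intro r ε e hr hε he
  obtain ⟨δ, N0, hδ, h⟩ := EST.main hCSE r e hr he
  refine ⟨δ, N0, hδ, ?_⟩
  intro N hN j hj
  refine h N hN j ?_
  have hR : (3 : ℝ) ≤ r := by exact_mod_cast hr
  have hal := al_ge hr
  have h1 := hj.2
  have hN0 : (0 : ℝ) ≤ N := Nat.cast_nonneg N
  refine h1.trans (mul_le_mul_of_nonneg_right ?_ hN0)
  have h2 : 0 < 2 / (r : ℝ) := by positivity
  have h3 : (1 - 2 / (r : ℝ)) * al r = al r - 2 / (r : ℝ) * al r := by ring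
  have h4 : 0 ≤ 2 / (r : ℝ) * al r := mul_nonneg h2.le (by linarith only [hal])
  linarith only [hε, h4]

end Pool.Agent.Work.MP_5532fa_up
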