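import Pool.Agent.Work.MP_5532fa_up.Interface2
import Pool.Agent.Work.MP_5532fa_up.EST

open Finset

namespace Pool.Agent.Work.MP_5532fa_up

open MP5532fa (specRad qf pE)

theorem blk_ESTU (hCSE : Stmt_CSE) : Stmt_ESTU := fun r e hr he => EST.main hCSE r e hr he

/-- the range `RgU` is below `al r * N` -/
theorem RgU.le {r : ℕ} (hr : 3 ≤ r) {ε : ℝ} (hε : 0 < ε) {N j : ℕ} (h : RgU r ε N j) :
    (j : ℝ) ≤ al r * N := by
  have h1 := al_ge hr
  have h2 : (0 : ℝ) < 2 / r := by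
    have : (3 : ℝ) ≤ r := by exact_mod_cast hr
    positivity
  have hN : (0 : ℝ) ≤ N := Nat.cast_nonneg N
  unfold RgU at h
  refine h.trans (mul_le_mul_of_nonneg_right ?_ hN)
  nlinarith

/-- a neighbour of a vertex with positive entry has a positive entry -/
theorem xpos_of_adj {V : Type} [Fintype V] {G : SimpleGraph V} {x : V → ℝ} {lam : ℝ}
    (hx : PV G x lam) (hl : 0 < lam) {w a : V} (h : G.Adj w a) (ha : 0 < x a) : 0 < x w := by
  have h1 := hx.eig w
  have h2 : ad G w a * x a ≤ ∑ v, ad G w v * x v :=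
    Finset.single_le_sum (f := fun v => ad G w v * x v)
      (fun v _ => mul_nonneg (chi_nonneg _) (hx.nn v)) (Finset.mem_univ a)
  have h3 : ad G w a = 1 := chi_pos h
  rw [h3, one_mul, h1] at h2
  by_contra hcon
  push Not at hcon
  nlinarith

/-- in a graph of type E the entry of `w` is positive -/
theorem xw_pos {V : Type} [Fintype V] {r : ℕ} (hr : 3 ≤ r) {G : SimpleGraph V} {N : ℕ}
    {H : Finset V} {c : V → Fin r} {w u : V} {A B : Finset V} {i0 : Fin r}
    (hW : WE G N H c w u A B i0) {x : V → ℝ} {lam : ℝ} (hx : PV G x lam) (hl : 0 < lam)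
    {e xb : ℝ} (he : e < 1) (hxb : 0 < xb) (hH : ∀ v ∈ H, |x v - xb| ≤ e * xb) : 0 < x w := by
  obtain ⟨i, hi⟩ : ∃ i : Fin r, i ≠ i0 := by
    by_cases h : i0 = ⟨0, by omega⟩
    · refine ⟨⟨1, by omega⟩, ?_⟩
      rw [h]
      intro h2
      exact absurd (congrArg Fin.val h2) (by norm_num)
    · exact ⟨⟨0, by omega⟩, fun h2 => h h2.symm⟩
  obtain ⟨a, ha⟩ := hW.hAne i hi
  have haA := (mem_cl.mp ha).1
  refine xpos_of_adj hx hl ((hW.adj w a).mpr (Or.inr (Or.inl ⟨rfl, haA⟩))) ?_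
  have h1 := (abs_le.mp (hH a (hW.hA haA))).1
  nlinarith

end Pool.Agent.Work.MP_5532fa_up
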