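import Pool.Agent.Work.MP_5532fa_up.Str

/-!
# MP_5532fa_co, upgrade: the final theorems from the blocks
-/

open Finset

namespace Pool.Agent.Work.MP_5532fa_up

open MP5532fa (specRad qf pE)

/-- maximal graphs exist -/
theorem exists_MX {V : Type} [Fintype V] {r : ℕ} (G : SimpleGraph V)
    (h1 : G.CliqueFree (r + 1)) (h2 : ¬ G.Colorable r) :
    ∃ Gm : SimpleGraph V, Gm.CliqueFree (r + 1) ∧ ¬ Gm.Colorable r ∧ pE Gm = pE G ∧ MX r Gm ∧
      specRad G ≤ specRad Gm := by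
  classical
  set S : Set (SimpleGraph V) :=
    {G' | G'.CliqueFree (r + 1) ∧ ¬ G'.Colorable r ∧ pE G' = pE G} with hS
  have hfin : S.Finite := Set.toFinite S
  have hne : S.Nonempty := ⟨G, h1, h2, rfl⟩
  obtain ⟨Gm, hGm, hmax⟩ := Set.exists_max_image S (fun G' => specRad G') hfin hne
  refine ⟨Gm, hGm.1, hGm.2.1, hGm.2.2, ?_, hmax G ⟨h1, h2, rfl⟩⟩
  intro G' a b e
  exact hmax G' ⟨a, b, e.trans hGm.2.2⟩

/-- class membership of the type D graphs -/
theorem typeD_class {V : Type} [Fintype V] {r N j : ℕ} (hTN : Stmt_TN) (hGD : Stmt_GD)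
    (hr : 3 ≤ r) (hN : 3 * r ≤ N) {G : SimpleGraph V} (h : TypeD r N j G) :
    G.CliqueFree (r + 1) ∧ ¬ G.Colorable r ∧ pE G = 2 * ((tn r N : ℝ) + j) := by
  obtain ⟨H, c, w, A, v1, v2, hWD, hA, hB, hP, hT⟩ := h
  obtain ⟨h1, h2, h3⟩ := hGD r hr V G N H c w A v1 v2 hWD
  refine ⟨h1, h2 ?_, ?_⟩
  · intro i
    by_contra hi
    push Not at hi
    have hk : ∀ k, (cl H c k).card ≤ 2 := fun k => by have := hB k i; omega
    have := sum_card_cl H c
    rw [hWD.card] at this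
    have h4 : ∑ k, (cl H c k).card ≤ ∑ _k : Fin r, 2 := Finset.sum_le_sum fun k _ => hk k
    simp only [Finset.sum_const, Finset.card_univ, Fintype.card_fin, smul_eq_mul] at h4
    omega
  · have h5 := sum_sq_bal hTN hr hWD.card hB
    rw [h3, hA]
    push_cast
    linarith

/-- class membership of the type E graphs -/
theorem typeE_class {V : Type} [Fintype V] {r N j : ℕ} (hTN : Stmt_TN) (hGE : Stmt_GE)
    (hr : 3 ≤ r) (hN : 3 * r ≤ N) {G : SimpleGraph V} (h : TypeE r N j G) :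
    G.CliqueFree (r + 1) ∧ ¬ G.Colorable r ∧ pE G = 2 * ((tn r N : ℝ) + j) := by
  obtain ⟨H, c, w, u, A, B, i0, hWE, hO, hA, hB, hP, hT⟩ := h
  obtain ⟨h1, h2, h3⟩ := hGE r hr V G N H c w u A B i0 hWE
  refine ⟨h1, h2 ?_, ?_⟩
  · intro i
    by_contra hi
    push Not at hi
    have hk : ∀ k, (cl H c k).card ≤ 1 := fun k => by have := hB k i; omega
    have := sum_card_cl H c
    rw [hWE.card] at this
    have h4 : ∑ k, (cl H c k).card ≤ ∑ _k : Fin r, 1 := Finset.sum_le_sum fun k _ => hk k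
    simp only [Finset.sum_const, Finset.card_univ, Fintype.card_fin, smul_eq_mul] at h4
    omega
  · have h5 := sum_sq_bal hTN hr hWE.card hB
    have h6 : (A.card : ℝ) + r = j := by exact_mod_cast hA
    rw [h3]
    linarith

/-- lower bound for the type D graphs -/
theorem typeD_low (hLOWG : Stmt_LOWG) {r : ℕ} (hr : 3 ≤ r) {δ : ℝ} (hδ : 0 < δ) :
    ∃ N0 : ℕ, ∀ N ≥ N0, ∀ (j : ℕ) (V : Type) [Fintype V] (G : SimpleGraph V), TypeD r N j G →
      al r * N + (j : ℝ) ^ 2 / (al r * N ^ 2) - δ ≤ specRad G := by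
  obtain ⟨K, hK, H⟩ := hLOWG r 1 hr le_rfl
  obtain ⟨N1, hN1⟩ := exists_nat_gt (K + ((r + K) / δ) ^ 2 + 1)
  refine ⟨N1, ?_⟩
  intro N hN j V _ G hT
  obtain ⟨Hs, c, w, A, v1, v2, hWD, hA, hB, hP, hTop⟩ := hT
  have hNr : K + ((r + K) / δ) ^ 2 + 1 < (N : ℝ) := lt_of_lt_of_le hN1 (by exact_mod_cast hN)
  have hsq : 0 ≤ ((r + K) / δ) ^ 2 := sq_nonneg _
  have hN1' : (1 : ℝ) ≤ N := by linarith
  have hN0 : (0:ℝ) < N := by linarith
  have hs1 : (1:ℝ) ≤ √(N:ℝ) := by rw [Real.one_le_sqrt]; exact hN1'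
  have hrr : (3 : ℝ) ≤ r := by exact_mod_cast hr
  -- class sizes
  have hdev : ∀ i, |sz Hs c i - N / r| ≤ 1 := by
    intro i
    have hsum : ∑ k, sz Hs c k = (N : ℝ) := by
      have := sum_card_cl Hs c
      rw [hWD.card] at this
      unfold sz
      exact_mod_cast this
    have e : (r : ℝ) * (sz Hs c i - N / r) = ∑ k, (sz Hs c i - sz Hs c k) := by
      rw [Finset.sum_sub_distrib, hsum]
      simp only [Finset.sum_const, Finset.card_univ, Fintype.card_fin, nsmul_eq_mul]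
      field_simp
    have h1 : |∑ k, (sz Hs c i - sz Hs c k)| ≤ r * 1 := by
      refine (Finset.abs_sum_le_sum_abs _ _).trans ?_
      have : ∑ k : Fin r, |sz Hs c i - sz Hs c k| ≤ ∑ _k : Fin r, (1:ℝ) := by
        refine Finset.sum_le_sum fun k _ => ?_
        have a1 : sz Hs c i ≤ sz Hs c k + 1 := by unfold sz; exact_mod_cast hB i k
        have a2 : sz Hs c k ≤ sz Hs c i + 1 := by unfold sz; exact_mod_cast hB k i
        rw [abs_le]; constructor <;> linarith
      simpa using this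
    rw [← e, abs_mul, abs_of_pos (by linarith : (0:ℝ) < r)] at h1
    exact le_of_mul_le_mul_left h1 (by linarith)
  have hlow := H V G N Hs c w A v1 v2 hWD (by linarith) (fun i => (hdev i).trans (by linarith))
  have himb : imb Hs c ≤ r := by
    unfold imb
    rw [hWD.card]
    calc ∑ i, (sz Hs c i - (N:ℝ) / r) ^ 2 ≤ ∑ _i : Fin r, (1:ℝ) := by
          refine Finset.sum_le_sum fun i _ => ?_
          have := hdev i
          rw [← sq_abs]
          nlinarith [abs_nonneg (sz Hs c i - (N:ℝ) / r)]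
      _ = r := by simp
  have himb0 : 0 ≤ imb Hs c := Finset.sum_nonneg fun i _ => sq_nonneg _
  have hal := al_ge hr
  have hal1 := al_lt hr
  have t1 : al r * imb Hs c / N ≤ r / √N := by
    have a1 : al r * imb Hs c ≤ r := by nlinarith
    have a2 : √(N:ℝ) ≤ N := by
      rw [Real.sqrt_le_left (by linarith)]
      nlinarith
    calc al r * imb Hs c / N ≤ r / N := div_le_div_of_nonneg_right a1 hN0.le
      _ ≤ r / √N := div_le_div_of_nonneg_left (by linarith) (by linarith) a2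
  have t2 : (j : ℝ) ^ 2 / (al r * N ^ 2) ≤ al r * ((A.card : ℝ) / (al r * N)) ^ 2 := by
    have e : al r * ((A.card : ℝ) / (al r * N)) ^ 2 = (A.card : ℝ) ^ 2 / (al r * N ^ 2) := by
      field_simp
    rw [e]
    apply div_le_div_of_nonneg_right _ (by positivity)
    rw [hA]
    push_cast
    have : (0:ℝ) ≤ j := Nat.cast_nonneg j
    nlinarith
  have t3 : (r + K) / √N ≤ δ := by
    rw [div_le_iff₀ (by linarith)]
    have : (r + K) / δ ≤ √(N:ℝ) := by
      apply Real.le_sqrt_of_sq_le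
      linarith
    rw [div_le_iff₀ hδ] at this
    linarith
  have t4 : (r + K) / √(N:ℝ) = r / √N + K / √N := by ring
  linarith

/-- the final theorem for the linear range -/
theorem main_lin (hSTR : Stmt_STR) (hTN : Stmt_TN) (hGD : Stmt_GD) (hGE : Stmt_GE)
    (hLOWG : Stmt_LOWG) (hEXD : Stmt_EXD) (hEXE : Stmt_EXE) (hISOD : Stmt_ISOD)
    (hISOE : Stmt_ISOE) (hTRANS : Stmt_TRANS) (hTHRE : Stmt_THRE) (hTHRD : Stmt_THRD)
    (r : ℕ) (ε : ℝ) (hr : 3 ≤ r) (hε : 0 < ε) : ∃ N0 : ℕ, ∀ N ≥ N0, ∀ j : ℕ, Rg r ε N j →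
    ∃ lD lE : ℝ,
      (∀ (V : Type) [Fintype V] (G : SimpleGraph V), TypeD r N j G →
        (G.CliqueFree (r + 1) ∧ ¬ G.Colorable r ∧ pE G = 2 * ((tn r N : ℝ) + j)) ∧
          specRad G = lD) ∧
      (∀ (V : Type) [Fintype V] (G : SimpleGraph V), TypeE r N j G →
        (G.CliqueFree (r + 1) ∧ ¬ G.Colorable r ∧ pE G = 2 * ((tn r N : ℝ) + j)) ∧
          specRad G = lE) ∧
      (∃ G : SimpleGraph (Fin (N + 2)), TypeD r N j G) ∧
      (∃ G : SimpleGraph (Fin (N + 2)), TypeE r N j G) ∧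
      (∀ (V : Type) [Fintype V] (G : SimpleGraph V), G.CliqueFree (r + 1) → ¬ G.Colorable r →
        pE G = 2 * ((tn r N : ℝ) + j) → specRad G ≤ max lD lE ∧
          (specRad G = max lD lE ↔
            (TypeD r N j G ∧ lE ≤ lD) ∨ (TypeE r N j G ∧ lD ≤ lE))) ∧
      (((r : ℝ) + 1) * (j / (al r * N)) ≤ 1 - ε → lD < lE) ∧
      (1 + (j / (al r * N)) ^ 4 / (r * ((r : ℝ) - 1)) + ε ≤ ((r : ℝ) + 1) * (j / (al r * N)) →
        lE < lD) := by
  classical
  obtain ⟨δ1, n1, hδ1, H1⟩ := hSTR r ε hr hε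
  obtain ⟨n2, H2⟩ := typeD_low hLOWG hr hδ1
  obtain ⟨n3, H3⟩ := hEXD r ε hr hε
  obtain ⟨n4, H4⟩ := hEXE r ε hr hε
  obtain ⟨n5, H5⟩ := hISOD r ε hr hε
  obtain ⟨n6, H6⟩ := hISOE r ε hr hε
  obtain ⟨n7, H7⟩ := hTHRE r ε hr hε
  obtain ⟨n8, H8⟩ := hTHRD r ε hr hε
  refine ⟨n1 + n2 + n3 + n4 + n5 + n6 + n7 + n8 + 3 * r, ?_⟩
  intro N hN j hRg
  obtain ⟨GD, hGDt⟩ := H3 N (by omega) j hRg (Fin (N + 2)) (by simp)
  obtain ⟨GE, hGEt⟩ := H4 N (by omega) j hRg (Fin (N + 2)) (by simp)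
  have cD := typeD_class hTN hGD hr (by omega) hGDt
  have cE := typeE_class hTN hGE hr (by omega) hGEt
  set lD := specRad GD with hlD
  set lE := specRad GE with hlE
  have hD : ∀ (V : Type) [Fintype V] (G : SimpleGraph V), TypeD r N j G → specRad G = lD :=
    fun V _ G hG => H5 N (by omega) j hRg V (Fin (N + 2)) G GD hG hGDt
  have hE : ∀ (V : Type) [Fintype V] (G : SimpleGraph V), TypeE r N j G → specRad G = lE :=
    fun V _ G hG => H6 N (by omega) j hRg V (Fin (N + 2)) G GE hG hGEt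
  have hlow : al r * N + (j : ℝ) ^ 2 / (al r * N ^ 2) - δ1 ≤ lD :=
    H2 N (by omega) j (Fin (N + 2)) GD hGDt
  -- transfer
  have htr : ∀ (V V' : Type) [Fintype V] [Fintype V'] (G : SimpleGraph V),
      G.CliqueFree (r + 1) → ¬ G.Colorable r → pE G = 2 * ((tn r N : ℝ) + j) →
      Fintype.card V ≤ Fintype.card V' → ∃ G' : SimpleGraph V', G'.CliqueFree (r + 1) ∧
        ¬ G'.Colorable r ∧ pE G' = 2 * ((tn r N : ℝ) + j) ∧ specRad G' = specRad G := by
    intro V V' _ _ G a b c hc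
    have hV : Nonempty V := by
      by_contra h
      rw [not_nonempty_iff] at h
      exact b (SimpleGraph.Colorable.of_isEmpty _)
    obtain ⟨G', e1, e2, e3⟩ := hTRANS V V' G hV hc
    exact ⟨G', (e3 r (by omega)).1 a, fun h => b ((e3 r (by omega)).2 h), e2.trans c, e1⟩
  -- the key fact
  have key : ∀ (V : Type) [Fintype V] (G : SimpleGraph V), G.CliqueFree (r + 1) →
      ¬ G.Colorable r → pE G = 2 * ((tn r N : ℝ) + j) → specRad G ≤ max lD lE := by
    intro V _ G a b c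
    set V' := V ⊕ Fin (N + 2) with hV'
    obtain ⟨G1, a1, b1, c1, e1⟩ := htr V V' G a b c (by simp [hV'])
    obtain ⟨G2, a2, b2, c2, e2⟩ := htr (Fin (N + 2)) V' GD cD.1 cD.2.1 cD.2.2 (by simp [hV'])
    obtain ⟨Gm, am, bm, cm, hMX, hle⟩ := exists_MX G1 a1 b1
    have cm' : pE Gm = 2 * ((tn r N : ℝ) + j) := cm.trans c1
    have h2 : specRad G2 ≤ specRad Gm := hMX G2 a2 b2 (c2.trans cm'.symm)
    have hst := H1 N (by omega) j hRg V' Gm am bm hMX cm' (by rw [e2] at h2; linarith)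
    have h3 : specRad G ≤ specRad Gm := by rw [← e1]; exact hle
    rcases hst with h | h
    · rw [hD V' Gm h] at h3
      exact h3.trans (le_max_left _ _)
    · rw [hE V' Gm h] at h3
      exact h3.trans (le_max_right _ _)
  have hnotMX : ∀ (V : Type) [Fintype V] (G : SimpleGraph V),
      pE G = 2 * ((tn r N : ℝ) + j) → ¬ MX r G → specRad G < max lD lE := by
    intro V _ G c h
    unfold MX at h
    push Not at h
    obtain ⟨G', a', b', c', hlt⟩ := h
    exact lt_of_lt_of_le hlt (key V G' a' b' (c'.trans c))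
  refine ⟨lD, lE, fun V _ G hG => ⟨typeD_class hTN hGD hr (by omega) hG, hD V G hG⟩,
    fun V _ G hG => ⟨typeE_class hTN hGE hr (by omega) hG, hE V G hG⟩, ⟨GD, hGDt⟩, ⟨GE, hGEt⟩,
    ?_, ?_, ?_⟩
  · intro V _ G a b c
    refine ⟨key V G a b c, ?_, ?_⟩
    · intro heq
      have hMX : MX r G := by
        intro G' a' b' c'
        rw [heq]
        exact key V G' a' b' (c'.trans c)
      have hst := H1 N (by omega) j hRg V G a b hMX c
        (by rw [heq]; exact hlow.trans (le_max_left _ _))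
      rcases hst with h | h
      · left
        refine ⟨h, ?_⟩
        rw [hD V G h] at heq
        rw [heq]; exact le_max_right _ _
      · right
        refine ⟨h, ?_⟩
        rw [hE V G h] at heq
        rw [heq]; exact le_max_left _ _
    · rintro (⟨h, hle⟩ | ⟨h, hle⟩)
      · rw [hD V G h, max_eq_left hle]
      · rw [hE V G h, max_eq_right hle]
  · intro hX
    have h := hnotMX (Fin (N + 2)) GD cD.2.2
      (H7 N (by omega) j hRg hX (Fin (N + 2)) GD (by simp) hGDt)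
    rcases lt_max_iff.mp h with h | h
    · exact absurd h (lt_irrefl _)
    · exact h
  · intro hX
    have h := hnotMX (Fin (N + 2)) GE cE.2.2
      (H8 N (by omega) j hRg hX (Fin (N + 2)) GE hGEt)
    rcases lt_max_iff.mp h with h | h
    · exact h
    · exact absurd h (lt_irrefl _)

end Pool.Agent.Work.MP_5532fa_up
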