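import Pool.Agent.Work.MP_5532fa_up.Interface2
import Pool.Agent.Work.MP_5532fa_up.All

/-!
# MP_5532fa_co, upgrade: the structure of all extremal graphs
-/

open Finset

namespace Pool.Agent.Work.MP_5532fa_up

open MP5532fa (specRad qf pE)

theorem C0.mono {V : Type} [Fintype V] {r : ℕ} {δ δ' : ℝ} {N : ℕ} {G : SimpleGraph V}
    {c : V → Fin r} {H : Finset V} (h : C0 r δ N G c H) (hd : δ ≤ δ') : C0 r δ' N G c H :=
  have hm : δ * N ≤ δ' * N := mul_le_mul_of_nonneg_right hd (Nat.cast_nonneg N)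
  { card := h.card, ind := h.ind, mis := h.mis.trans hm, bal := fun i => (h.bal i).trans hm
    eo := h.eo.trans hm }

theorem FD.mono {V : Type} [Fintype V] {r : ℕ} {δ d : ℝ} {N j : ℕ} {G : SimpleGraph V}
    {x : V → ℝ} {lam : ℝ} {c : V → Fin r} {H : Finset V} {w : V}
    (hFD : FD r δ N j G x lam c H w) (hd : δ ≤ d) : FD r d N j G x lam c H w :=
  have hm : δ * N ≤ d * N := mul_le_mul_of_nonneg_right hd (Nat.cast_nonneg N)
  { pv := hFD.pv, card := hFD.card, hw := hFD.hw, ind := hFD.ind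
    mis := hFD.mis.trans hm
    bal := fun i => (hFD.bal i).trans hm
    deg := hFD.deg.trans hm
    rest := hFD.rest.trans hm
    xH := fun v hv => (hFD.xH v hv).trans hd
    xw := hFD.xw.trans hd
    xo := fun v hv hvw => (hFD.xo v hv hvw).trans hd }

/-- the three types -/
def Stmt_SM : Prop := ∀ (r : ℕ), 3 ≤ r → ∃ (δ : ℝ) (N0 : ℕ), 0 < δ ∧ ∀ N ≥ N0,
  ∀ (V : Type) [Fintype V] (G : SimpleGraph V) (c : V → Fin r) (H : Finset V),
    C0 r δ N G c H → G.CliqueFree (r + 1) → ¬ G.Colorable r → MX r G →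
    (∃ (w : V) (A : Finset V) (v1 v2 : V), WD G N H c w A v1 v2) ∨
    (∃ (w u : V) (A B : Finset V) (i0 : Fin r), WE G N H c w u A B i0) ∨
    (∃ (w : V) (T : Finset V), WF G N H c w T)

theorem sm (h0 : Stmt_SM0) (h1a : Stmt_SM1a) (h1b : Stmt_SM1b) (h1c : Stmt_SM1c)
    (h2 : Stmt_SM2) : Stmt_SM := by
  classical
  intro r hr
  obtain ⟨d0, n0, hd0, H0⟩ := h0 r hr
  obtain ⟨da, na, hda, Ha⟩ := h1a r hr
  obtain ⟨db, nb', hdb, Hb⟩ := h1b r hr
  obtain ⟨dc, nc, hdc, Hc⟩ := h1c r hr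
  obtain ⟨d2, n2, hd2, H2⟩ := h2 r hr
  refine ⟨min (min (min d0 da) (min db dc)) d2, n0 + na + nb' + nc + n2, ?_, ?_⟩
  · repeat' apply lt_min
    all_goals assumption
  intro N hN V _ G c H hC hfree hcol hMX
  have l0 : min (min (min d0 da) (min db dc)) d2 ≤ d0 := by simp [min_le_iff]
  have la : min (min (min d0 da) (min db dc)) d2 ≤ da := by simp [min_le_iff]
  have lb : min (min (min d0 da) (min db dc)) d2 ≤ db := by simp [min_le_iff]
  have lc : min (min (min d0 da) (min db dc)) d2 ≤ dc := by simp [min_le_iff]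
  have l2 : min (min (min d0 da) (min db dc)) d2 ≤ d2 := min_le_right _ _
  by_cases hm : mis G H c = 0
  · right; left
    exact H0 N (by omega) V G c H (hC.mono l0) hfree hcol hMX hm
  -- there is a vertex outside
  obtain ⟨v0, hv0⟩ : ∃ v0, v0 ∉ H := by
    by_contra hno
    push Not at hno
    apply hcol
    exact ⟨SimpleGraph.Coloring.mk c fun {a b} hab h => hC.ind a (hno a) b (hno b) h hab⟩
  obtain ⟨w, hw, hmax⟩ := Finset.exists_max_image (out H) (fun v => dg G H v)
    ⟨v0, mem_out.mpr hv0⟩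
  have hw' := mem_out.mp hw
  have hmax' : ∀ v, v ∉ H → dg G H v ≤ dg G H w := fun v hv => hmax v (mem_out.mpr hv)
  rcases Nat.lt_or_ge (2 * ∑ v ∈ out H, dg G H v + eu G H + 2) (2 * r + mis G H c) with h | h
  · right; right
    exact H2 N (by omega) V G c H (hC.mono l2) hfree hcol hMX h
  · left
    have hall : ∀ i, (cl (nb G H w) c i).Nonempty := by
      by_contra hno
      push Not at hno
      obtain ⟨i0, hi0⟩ := hno
      rcases Nat.lt_or_ge (2 * ∑ v ∈ out H, dg G H v + eu G H + 2) (4 * r + mis G H c) with h3 | h3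
      · exact Hc N (by omega) V G c H w i0 (hC.mono lc) hfree hcol hMX (Nat.pos_of_ne_zero hm) h h3
          hw' hmax' hi0
      · exact Ha N (by omega) V G c H w i0 (hC.mono la) hfree hcol hMX (Nat.pos_of_ne_zero hm) h3
          hw' hmax' hi0
    obtain ⟨v1, v2, hWD⟩ := Hb N (by omega) V G c H w (hC.mono lb) hfree hMX h hw' hmax' hall
    exact ⟨w, _, v1, v2, hWD⟩

/-- bound for the Turan numbers -/
theorem tn_sq {r : ℕ} (hTN : Stmt_TN) (hr : 3 ≤ r) (N : ℕ) : 2 * tn r N ≤ N ^ 2 := by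
  have h5 := (hTN r hr N).1 (fun i => (N + i.val) / r) ?_ ?_
  · omega
  · have : ∀ n : ℕ, ∑ i : Fin r, (n + i.val) / r = n := by
      intro n
      induction n with
      | zero =>
        refine Finset.sum_eq_zero fun i _ => ?_
        rw [Nat.zero_add]
        exact Nat.div_eq_of_lt i.2
      | succ n ih =>
        rw [Fin.sum_univ_eq_sum_range (fun i => (n + 1 + i) / r) r]
        rw [Fin.sum_univ_eq_sum_range (fun i => (n + i) / r) r] at ih
        obtain ⟨q, hq⟩ : ∃ q, r = q + 1 := ⟨r - 1, by omega⟩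
        rw [hq] at ih ⊢
        rw [Finset.sum_range_succ]
        rw [Finset.sum_range_succ'] at ih
        have e1 : ∀ i, (n + 1 + i) / (q + 1) = (n + (i + 1)) / (q + 1) := by
          intro i; congr 1; omega
        simp only [e1]
        have e2 : (n + (q + 1)) / (q + 1) = n / (q + 1) + 1 := by
          rw [Nat.add_div_right _ (by omega)]
        rw [e2]
        simp only [Nat.add_zero, Nat.zero_add, Nat.add_assoc] at ih ⊢
        omega
    exact this N
  · intro i k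
    have h6 : (N + i.val) / r ≤ (N + k.val + r) / r := by
      apply Nat.div_le_div_right
      have := i.2
      omega
    rw [Nat.add_div_right _ (by omega)] at h6
    exact h6

/-- for large `m` the number `N` is large -/
theorem large_N {r : ℕ} (hTN : Stmt_TN) (hr : 3 ≤ r) (M : ℕ) {m : ℕ} (hm : M ^ 2 + 1 ≤ m)
    {N : ℕ} (hlt : m < tn r (N + 1)) : M ≤ N := by
  by_contra h
  push Not at h
  have h1 := tn_sq hTN hr (N + 1)
  have h3 : (N + 1) ^ 2 ≤ M ^ 2 := Nat.pow_le_pow_left h 2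
  omega

/-- `j` is at most `al r * N` -/
theorem j_le {r : ℕ} (hTN : Stmt_TN) (hr : 3 ≤ r) {m N j : ℕ} (hmj : m = tn r N + j)
    (hlt : m < tn r (N + 1)) : (j : ℝ) ≤ al r * N := by
  have hTNN := hTN r hr N
  have hrr : (3 : ℝ) ≤ r := by exact_mod_cast hr
  have hjN : j + N / r < N := by
    have := hTNN.2.2
    omega
  have h1 : ((j + N / r + 1 : ℕ) : ℝ) ≤ (N : ℝ) := by exact_mod_cast hjN
  push_cast at h1
  have h2 : (N : ℝ) / r - 1 ≤ ((N / r : ℕ) : ℝ) := by
    have h3 : N < r * (N / r + 1) := Nat.lt_mul_div_succ N (by omega)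
    have h4 : (N : ℝ) < r * (((N / r : ℕ) : ℝ) + 1) := by exact_mod_cast h3
    rw [sub_le_iff_le_add, div_le_iff₀ (by linarith)]
    nlinarith
  unfold al
  have e : (1 - 1 / (r:ℝ)) * N = N - N / r := by ring
  rw [e]; linarith

/-- every number is between two consecutive Turan numbers -/
theorem exists_N {r : ℕ} (hTN : Stmt_TN) (hr : 3 ≤ r) (m : ℕ) :
    ∃ N j : ℕ, m = tn r N + j ∧ m < tn r (N + 1) := by
  classical
  have hstep : ∀ N, 2 ≤ N → tn r N + 1 ≤ tn r (N + 1) := by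
    intro N hN
    have h := (hTN r hr N).2.2
    have h2 : N / r ≤ N / 2 := Nat.div_le_div_left (by omega) (by norm_num)
    omega
  have hmono : ∀ N, tn r N ≤ tn r (N + 1) := by
    intro N
    have h := (hTN r hr N).2.2
    have h2 : N / r ≤ N := Nat.div_le_self _ _
    omega
  have hgrow : ∀ k, k ≤ tn r (k + 2) := by
    intro k
    induction k with
    | zero => omega
    | succ k ih =>
      have := hstep (k + 2) (by omega)
      have e : k + 1 + 2 = k + 2 + 1 := by omega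
      rw [e]
      omega
  have hex : ∃ N, m < tn r (N + 1) := ⟨m + 2, by
    have := hgrow (m + 1)
    exact this⟩
  have hfind := Nat.find_spec hex
  have h0 : tn r 0 = 0 := by
    have := tn_sq hTN hr 0
    omega
  have hle : tn r (Nat.find hex) ≤ m := by
    rcases Nat.eq_zero_or_pos (Nat.find hex) with h | h
    · rw [h, h0]; omega
    · have := Nat.find_min hex (m := Nat.find hex - 1) (by omega)
      rw [Nat.sub_add_cancel h] at this
      omega
  exact ⟨Nat.find hex, m - tn r (Nat.find hex), by omega, hfind⟩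

/-- the structure of all extremal graphs with many edges -/
theorem univ_str (hSM : Stmt_SM) (hFIN3 : Stmt_FIN3) (hB1U2 : Stmt_B1U2) (hB1C2 : Stmt_B1C2)
    (hLOWX : Stmt_LOWX) (hTN : Stmt_TN) (r : ℕ) (δ : ℝ) (hr : 3 ≤ r) (hδ : 0 < δ) :
    ∃ m0 : ℕ, ∀ m ≥ m0, ∀ (V : Type) [Fintype V] (G : SimpleGraph V), G.CliqueFree (r + 1) →
      ¬ G.Colorable r → pE G = 2 * (m : ℝ) →
      (∀ (V' : Type) [Fintype V'] (G' : SimpleGraph V'), G'.CliqueFree (r + 1) →
        ¬ G'.Colorable r → pE G' = 2 * (m : ℝ) → specRad G' ≤ specRad G) →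
      ∃ (N' : ℕ) (c : V → Fin r) (H : Finset V),
        (∀ i, |sz H c i - N' / r| ≤ 2 * √(N' : ℝ)) ∧
        ((∃ (w : V) (A : Finset V) (v1 v2 : V), WD G N' H c w A v1 v2) ∨
         (∃ (w u : V) (A B : Finset V) (i0 : Fin r), WE G N' H c w u A B i0) ∨
         (∃ (w : V) (T : Finset V), WF G N' H c w T ∧ (mis G H c : ℝ) ≤ δ * N')) := by
  classical
  obtain ⟨dS, nS, hdS, HS⟩ := hSM r hr
  obtain ⟨ε, hε, HF⟩ := hFIN3 r (min dS δ) hr (lt_min hdS hδ)
  obtain ⟨dU, nU, hdU, HU⟩ := hB1U2 r ε hr hε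
  obtain ⟨dC, nC, hdC, HC⟩ := hB1C2 r ε hr hε
  obtain ⟨δ1, nF, hδ1, HF'⟩ := HF (min dU dC) (lt_min hdU hdC)
  obtain ⟨nL, HL⟩ := hLOWX r δ1 hr hδ1
  set M := nS + nU + nC + nF + nL + 1 with hM
  refine ⟨M ^ 2 + 1, ?_⟩
  intro m hm V _ G hfree hcol hpE hmax
  obtain ⟨N, j, hmj, hlt⟩ := exists_N hTN hr m
  have hNM := large_N hTN hr M hm hlt
  have hj := j_le hTN hr hmj hlt
  have hV : Nonempty V := by
    by_contra h
    rw [not_nonempty_iff] at h
    exact hcol (SimpleGraph.Colorable.of_isEmpty _)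
  have hMX : MX r G := fun G' a b e => hmax V G' a b (e.trans hpE)
  have hp : |pE G - al r * N ^ 2 - 2 * j| ≤ (r : ℝ) :=
    pE_near hTN hr (by rw [hpE, hmj]; push_cast; ring)
  obtain ⟨G0, a, b, cL, dL⟩ := HL N (by omega) j hj
  have hlow := hmax (Fin (N + 3)) G0 a b (by rw [cL, hmj]; push_cast; ring)
  obtain ⟨x, hx⟩ := exists_PV G
  rcases HF' N (by omega) j hj V G x (specRad G) hfree hx hp (by linarith) with
    ⟨c, H, hC, hs, -⟩ | ⟨c, H, hC, hs, -⟩ | ⟨hRg, c, H, w, hFD, hs⟩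
  · refine ⟨N, c, H, hs, ?_⟩
    rcases HS N (by omega) V G c H (hC.mono (min_le_left _ _)) hfree hcol hMX with h | h | ⟨w, T, h⟩
    · exact Or.inl h
    · exact Or.inr (Or.inl h)
    · exact Or.inr (Or.inr ⟨w, T, h, (hC.mono (min_le_right _ _)).mis⟩)
  · refine ⟨N + 1, c, H, by push_cast; exact hs, ?_⟩
    rcases HS (N + 1) (by omega) V G c H (hC.mono (min_le_left _ _)) hfree hcol hMX with
      h | h | ⟨w, T, h⟩
    · exact Or.inl h
    · exact Or.inr (Or.inl h)
    · exact Or.inr (Or.inr ⟨w, T, h, (hC.mono (min_le_right _ _)).mis⟩)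
  · refine ⟨N, c, H, hs, ?_⟩
    by_cases hall : ∀ i, (cl (nb G H w) c i).Nonempty
    · obtain ⟨v1, v2, h⟩ := HU N (by omega) j hRg V G x _ c H w (hFD.mono (min_le_left _ _)) hfree
        hMX hall
      exact Or.inl ⟨w, _, v1, v2, h⟩
    · push Not at hall
      obtain ⟨i0, hi0⟩ := hall
      obtain ⟨u, B, i1, h⟩ := HC N (by omega) j hRg V G x _ c H w i0
        (hFD.mono (min_le_right _ _)) hfree hcol hMX hi0
      exact Or.inr (Or.inl ⟨w, u, _, B, i1, h⟩)

end Pool.Agent.Work.MP_5532fa_up
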