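import Pool.Agent.Work.MP_5532fa_up.ISOD
import Pool.Agent.Work.MP_5532fa_up.Fin
import Pool.Agent.Work.MP_5532fa_up.Str2
import Pool.Agent.Work.MP_5532fa_up.ESTU

/-!
# MP_5532fa_co, upgrade: the exact theorem without a lower bound for `j`
-/

open Finset

namespace Pool.Agent.Work.MP_5532fa_up

open MP5532fa (specRad qf pE)

/-- all type D graphs have the same spectral radius (all `N`, `j`) -/
theorem isodU (hLAB : Stmt_LAB) (hCANP : Stmt_CANP) (r N j : ℕ) (V V' : Type) [Fintype V]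
    [Fintype V'] (G : SimpleGraph V) (G' : SimpleGraph V') (hG : TypeD r N j G)
    (hG' : TypeD r N j G') : specRad G = specRad G' := by
  classical
  obtain ⟨H, c, w, A, v1, v2, hW, hA, hB, hP, hT⟩ := hG
  obtain ⟨H', c', w', A', v1', v2', hW', hA', hB', hP', hT'⟩ := hG'
  have hc : ({c v1, c v2} : Finset (Fin r)).card = ({c' v1', c' v2'} : Finset (Fin r)).card := by
    rw [Finset.card_pair hW.h12, Finset.card_pair hW'.h12]
  have s1 : ∀ i, i ∈ ({c v1, c v2} : Finset (Fin r)) → (cl A c i).card = 1 := by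
    intro i hi
    simp only [Finset.mem_insert, Finset.mem_singleton] at hi
    rcases hi with rfl | rfl
    · rw [hW.h1, Finset.card_singleton]
    · rw [hW.h2, Finset.card_singleton]
  have s1' : ∀ i, i ∈ ({c' v1', c' v2'} : Finset (Fin r)) → (cl A' c' i).card = 1 := by
    intro i hi
    simp only [Finset.mem_insert, Finset.mem_singleton] at hi
    rcases hi with rfl | rfl
    · rw [hW'.h1, Finset.card_singleton]
    · rw [hW'.h2, Finset.card_singleton]
  obtain ⟨σ, hσ⟩ := ISOD.perm_of hCANP hc (hW.card.trans hW'.card.symm) (hA.trans hA'.symm) hW.hA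
    hW'.hA hB hB' hP hP' hT hT' s1 s1' (fun i _ => hW.hne i) (fun i _ => hW'.hne i)
  set P := ({c v1, c v2} : Finset (Fin r)) with hPd
  have hK : ∀ v, v ∈ insert w H ↔ v = w ∨ v ∈ H := fun v => Finset.mem_insert
  have hK' : ∀ v, v ∈ insert w' H' ↔ v = w' ∨ v ∈ H' := fun v => Finset.mem_insert
  refine hLAB _ V V' (ISOD.R P) G G' (insert w H) (insert w' H')
    (ISOD.lab c w A (1 : Equiv.Perm (Fin r))) (ISOD.lab c' w' A' (σ⁻¹ : Equiv.Perm (Fin r)))
    (fun a b => ISOD.adj_iff hW 1 P (fun i => by simp [hPd]) _ hK a b)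
    (fun a b => ISOD.adj_iff hW' σ⁻¹ P (fun i => ?_) _ hK' a b) ?_ ⟨w, by simp⟩
  · have := (hσ (σ⁻¹ i)).1
    rw [this]
    simp
  · intro s
    rcases s with _ | ⟨i, b⟩
    · rw [ISOD.fib_none 1 _ hK, ISOD.fib_none σ⁻¹ _ hK']
    · have e1 : i = (1 : Equiv.Perm (Fin r)) i := rfl
      have e2 : i = (σ⁻¹ : Equiv.Perm (Fin r)) (σ i) := by simp
      cases b
      · have h1 := ISOD.fib_false (c := c) hW.hw hW.hA 1 _ hK i
        have h2 := ISOD.fib_false (c := c') hW'.hw hW'.hA σ⁻¹ _ hK' (σ i)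
        rw [← e1] at h1
        rw [← e2] at h2
        rw [h1, h2, (hσ i).2.1, (hσ i).2.2]
      · have h1 := ISOD.fib_true (c := c) hW.hw hW.hA 1 _ hK i
        have h2 := ISOD.fib_true (c := c') hW'.hw hW'.hA σ⁻¹ _ hK' (σ i)
        rw [← e1] at h1
        rw [← e2] at h2
        rw [h1, h2, (hσ i).2.2]

/-- a type D graph has at most `N + 1` vertices which are not isolated -/
theorem typeD_iso {V : Type} [Fintype V] {r N j : ℕ} {G : SimpleGraph V} (h : TypeD r N j G)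
    (S : Finset V) (hS : ∀ v ∈ S, ∃ u, G.Adj v u) : S.card ≤ N + 1 := by
  classical
  obtain ⟨H, c, w, A, v1, v2, hW, -⟩ := h
  have : S ⊆ insert w H := by
    intro v hv
    obtain ⟨u, hu⟩ := hS v hv
    rw [Finset.mem_insert]
    rcases (hW.adj v u).mp hu with h | h | h
    · exact Or.inr h.1
    · exact Or.inl h.1
    · exact Or.inr (hW.hA h.2)
  calc S.card ≤ (insert w H).card := Finset.card_le_card this
    _ ≤ H.card + 1 := Finset.card_insert_le _ _
    _ = N + 1 := by rw [hW.card]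

/-- a type E graph has `N + 2` vertices which are not isolated -/
theorem typeE_iso {V : Type} [Fintype V] {r N j : ℕ} (hr : 3 ≤ r) (hN : 3 * r ≤ N)
    {G : SimpleGraph V} (h : TypeE r N j G) :
    ∃ S : Finset V, S.card = N + 2 ∧ ∀ v ∈ S, ∃ u, G.Adj v u := by
  classical
  obtain ⟨H, c, w, u, A, B, i0, hW, hO, hA, hB, -⟩ := h
  have hne : ∀ i, 1 ≤ (cl H c i).card := by
    intro i
    by_contra hi
    push Not at hi
    have hk : ∀ k, (cl H c k).card ≤ 1 := fun k => by have := hB k i; omega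
    have := sum_card_cl H c
    rw [hW.card] at this
    have h4 : ∑ k, (cl H c k).card ≤ ∑ _k : Fin r, 1 := Finset.sum_le_sum fun k _ => hk k
    simp only [Finset.sum_const, Finset.card_univ, Fintype.card_fin, smul_eq_mul] at h4
    omega
  refine ⟨insert w (insert u H), ?_, ?_⟩
  · rw [Finset.card_insert_of_notMem, Finset.card_insert_of_notMem hW.hu, hW.card]
    rw [Finset.mem_insert]
    rintro (h | h)
    · exact hW.hwu h
    · exact hW.hw h
  · intro v hv
    rw [Finset.mem_insert, Finset.mem_insert] at hv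
    rcases hv with rfl | rfl | hv
    · exact ⟨u, (hW.adj v u).mpr (by tauto)⟩
    · exact ⟨w, (hW.adj v w).mpr (by tauto)⟩
    · obtain ⟨i, hi⟩ : ∃ i : Fin r, i ≠ c v := by
        by_cases h : c v = ⟨0, by omega⟩
        · refine ⟨⟨1, by omega⟩, ?_⟩
          rw [h]
          intro h2
          exact absurd (congrArg Fin.val h2) (by norm_num)
        · exact ⟨⟨0, by omega⟩, fun h2 => h h2.symm⟩
      obtain ⟨a, ha⟩ := Finset.card_pos.mp (hne i)
      rw [mem_cl] at ha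
      exact ⟨a, (hW.adj v a).mpr (Or.inl ⟨hv, ha.1, fun h => hi (by rw [h, ha.2])⟩)⟩

/-- second order term below `1 - 2/r` -/
theorem sec_small {r N j : ℕ} (hr : 3 ≤ r) (hN : 0 < N)
    (hj : (j : ℝ) ≤ (1 - 2 / r) * (al r * N)) :
    al r * N + j / N - al r * ((1 - j / (al r * N)) * min (j / (al r * N)) (1 - 2 / r))
      = al r * N + (j : ℝ) ^ 2 / (al r * N ^ 2) := by
  have hal := al_ge hr
  have hN0 : (0 : ℝ) < N := by exact_mod_cast hN
  have h1 : (j : ℝ) / (al r * N) ≤ 1 - 2 / r := by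
    rw [div_le_iff₀ (by positivity)]; exact hj
  rw [min_eq_left h1]
  have h2 : al r ≠ 0 := by positivity
  have h3 : (N : ℝ) ≠ 0 := hN0.ne'
  field_simp
  ring

/-- the structure for small `j` -/
theorem small_str (hS1 : Stmt_S1) (hSM0 : Stmt_SM0) (hFIN3 : Stmt_FIN3) (hEBU : Stmt_EBU)
    (hE2U : Stmt_E2U) (hE3U : Stmt_E3U) (hTN : Stmt_TN) (hGE : Stmt_GE) (r : ℕ) (ε : ℝ)
    (hr : 3 ≤ r) (hε : 0 < ε) : ∃ (ε0 δ1 : ℝ) (N0 : ℕ), 0 < ε0 ∧ 0 < δ1 ∧ ∀ N ≥ N0, ∀ j : ℕ,
    2 * r ≤ j + 1 → (j : ℝ) < ε0 * N → RgU r ε N j → ∀ (V : Type) [Fintype V]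
    (G : SimpleGraph V), N + 2 ≤ Fintype.card V → G.CliqueFree (r + 1) → ¬ G.Colorable r →
    MX r G → pE G = 2 * ((tn r N : ℝ) + j) →
    al r * N + (j : ℝ) ^ 2 / (al r * N ^ 2) - δ1 ≤ specRad G → TypeE r N j G := by
  classical
  obtain ⟨dS, nS, hdS, HS⟩ := hS1 r hr
  obtain ⟨dM, nM, hdM, HM⟩ := hSM0 r hr
  obtain ⟨dB, nB, hdB, HB⟩ := hEBU r ε hr hε
  obtain ⟨d2, n2, hd2, H2⟩ := hE2U r ε hr hε
  obtain ⟨d3, n3, hd3, H3⟩ := hE3U r ε hr hε
  set δ : ℝ := min (min dS dM) (1 / 6) with hδ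
  have hδ0 : 0 < δ := lt_min (lt_min hdS hdM) (by norm_num)
  obtain ⟨ε1, hε1, HF⟩ := hFIN3 r δ hr hδ0
  obtain ⟨δ1, nF, hδ1, HF'⟩ := HF 1 one_pos
  set dd : ℝ := min (min dB d2) d3 with hdd
  have hdd0 : 0 < dd := lt_min (lt_min hdB hd2) hd3
  obtain ⟨nN, hnN⟩ := exists_nat_gt ((r : ℝ) / dd)
  refine ⟨min ε1 (1 / 9), δ1, nS + nM + nB + n2 + n3 + nF + nN + 1, lt_min hε1 (by norm_num), hδ1,
    ?_⟩
  intro N hN j hj2r hjs hRg V _ G hcard hfree hcol hMX hpE hlow
  have hrr : (3 : ℝ) ≤ r := by exact_mod_cast hr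
  have hal := al_ge hr
  have hal1 := al_lt hr
  have hN0 : (0 : ℝ) < N := by
    have : 0 < N := by omega
    exact_mod_cast this
  have hjal := RgU.le hr hε hRg
  have hV : Nonempty V := by
    by_contra h
    rw [not_nonempty_iff] at h
    exact hcol (SimpleGraph.Colorable.of_isEmpty _)
  have h2r : 2 / (r : ℝ) ≤ 2 / 3 := div_le_div_of_nonneg_left (by norm_num) (by norm_num) hrr
  have hjk : (j : ℝ) ≤ (1 - 2 / r) * (al r * N) := by
    have h1 : (j : ℝ) < 1 / 9 * N := by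
      refine lt_of_lt_of_le hjs ?_
      exact mul_le_mul_of_nonneg_right (min_le_right _ _) hN0.le
    have h2 : 2 / 3 * N ≤ al r * N := mul_le_mul_of_nonneg_right hal hN0.le
    have h3 : 1 / 3 * (2 / 3 * (N : ℝ)) ≤ (1 - 2 / r) * (al r * N) :=
      mul_le_mul (by linarith) h2 (by positivity) (by linarith)
    linarith
  obtain ⟨x, hx⟩ := exists_PV G
  have hp : |pE G - al r * N ^ 2 - 2 * j| ≤ (r : ℝ) := pE_near hTN hr hpE
  rcases HF' N (by omega) j hjal V G x (specRad G) hfree hx hp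
    (by rw [sec_small hr (by omega) hjk]; exact hlow) with
    ⟨c, H, hC, -, -⟩ | ⟨c, H, hC, -, hj3⟩ | ⟨hRgA, -⟩
  · have l1 : δ ≤ dS := by simp [hδ, min_le_iff]
    have l2 : δ ≤ dM := by simp [hδ, min_le_iff]
    obtain ⟨hmis, hBal⟩ := HS N (by omega) j hj2r V G c H hcard (hC.mono l1) hfree hMX hpE
    obtain ⟨w, u, A, B, i0, hWE⟩ := HM N (by omega) V G c H (hC.mono l2) hfree hcol hMX hmis
    have h1 := (hGE r hr V G N H c w u A B i0 hWE).2.2
    have h2 := sum_sq_bal hTN hr hWE.card hBal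
    have h3 : ((A.card + r : ℕ) : ℝ) = (j : ℝ) := by
      push_cast
      rw [hpE] at h1
      linarith
    have hAj : A.card + r = j := by exact_mod_cast h3
    have hNr : (r : ℝ) / dd < N := lt_trans hnN (by exact_mod_cast (by omega : nN < N))
    rw [div_lt_iff₀ hdd0] at hNr
    have hNear : ∀ d, dd ≤ d → Near r d N j H A c := by
      intro d hd
      have hdN : dd * N ≤ d * N := mul_le_mul_of_nonneg_right hd hN0.le
      constructor
      · intro i
        have hsum : ∑ k, sz H c k = (N : ℝ) := by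
          have := sum_card_cl H c
          rw [hWE.card] at this
          unfold sz
          exact_mod_cast this
        have e : (r : ℝ) * (sz H c i - N / r) = ∑ k, (sz H c i - sz H c k) := by
          rw [Finset.sum_sub_distrib, hsum]
          simp only [Finset.sum_const, Finset.card_univ, Fintype.card_fin, nsmul_eq_mul]
          field_simp
        have h1 : |∑ k, (sz H c i - sz H c k)| ≤ r * 1 := by
          refine (Finset.abs_sum_le_sum_abs _ _).trans ?_
          have : ∑ k : Fin r, |sz H c i - sz H c k| ≤ ∑ _k : Fin r, (1:ℝ) := by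
            refine Finset.sum_le_sum fun k _ => ?_
            have a1 : sz H c i ≤ sz H c k + 1 := by unfold sz; exact_mod_cast hBal i k
            have a2 : sz H c k ≤ sz H c i + 1 := by unfold sz; exact_mod_cast hBal k i
            rw [abs_le]; constructor <;> linarith
          simpa using this
        rw [← e, abs_mul, abs_of_pos (by linarith : (0:ℝ) < r)] at h1
        have h2 := le_of_mul_le_mul_left h1 (by linarith)
        linarith
      · have h1 : (A.card : ℝ) + r = j := by exact_mod_cast hAj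
        have h2 : (A.card : ℝ) - j = -r := by linarith
        rw [h2, abs_neg, abs_of_nonneg (by linarith)]
        linarith
    have hOne := HB N (by omega) j hRg V G H c w u A B i0 hWE
      (hNear dB ((min_le_left _ _).trans (min_le_left _ _))) hMX
    have hPl := H2 N (by omega) j hRg V G H c w u A B i0 hWE
      (hNear d2 ((min_le_left _ _).trans (min_le_right _ _))) hOne hBal hMX
    have hTop := H3 N (by omega) j hRg V G H c w u A B i0 hWE
      (hNear d3 (min_le_right _ _)) hOne hBal hPl hMX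
    exact ⟨H, c, w, u, A, B, i0, hWE, hOne, hAj, hBal, hPl, hTop⟩
  · exfalso
    have h1 : (j : ℝ) < 1 / 9 * N := by
      refine lt_of_lt_of_le hjs ?_
      exact mul_le_mul_of_nonneg_right (min_le_right _ _) hN0.le
    have h2 : 2 / 3 * N ≤ al r * N := mul_le_mul_of_nonneg_right hal hN0.le
    have l3 : δ ≤ 1 / 6 := min_le_right _ _
    have h3 : 1 / 6 * (2 / 3 * (N : ℝ)) ≤ (1 - 2 / r - δ) * (al r * N) :=
      mul_le_mul (by linarith) h2 (by positivity) (by linarith)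
    linarith
  · exfalso
    have h1 : (j : ℝ) < ε1 * N := by
      refine lt_of_lt_of_le hjs ?_
      exact mul_le_mul_of_nonneg_right (min_le_left _ _) hN0.le
    have := hRgA.1
    linarith

/-- transport to a larger vertex set -/
theorem htr (hTRANS : Stmt_TRANS) {r : ℕ} (hr : 3 ≤ r) {p : ℝ} (V V' : Type) [Fintype V]
    [Fintype V'] (G : SimpleGraph V) (a : G.CliqueFree (r + 1)) (b : ¬ G.Colorable r)
    (c : pE G = p) (hc : Fintype.card V ≤ Fintype.card V') :
    ∃ G' : SimpleGraph V', G'.CliqueFree (r + 1) ∧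
      ¬ G'.Colorable r ∧ pE G' = p ∧ specRad G' = specRad G := by
  have hV : Nonempty V := by
    by_contra h
    rw [not_nonempty_iff] at h
    exact b (SimpleGraph.Colorable.of_isEmpty _)
  obtain ⟨G', e1, e2, e3⟩ := hTRANS V V' G hV hc
  exact ⟨G', (e3 r (by omega)).1 a, fun h => b ((e3 r (by omega)).2 h), e2.trans c, e1⟩

/-- the conclusion of the final theorem -/
def Concl (r : ℕ) (ε : ℝ) (N j : ℕ) : Prop :=
    ∃ lD lE : ℝ,
      (∀ (V : Type) [Fintype V] (G : SimpleGraph V), TypeD r N j G →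
        (G.CliqueFree (r + 1) ∧ ¬ G.Colorable r ∧ pE G = 2 * ((tn r N : ℝ) + j)) ∧
          specRad G = lD) ∧
      (∀ (V : Type) [Fintype V] (G : SimpleGraph V), TypeE r N j G →
        (G.CliqueFree (r + 1) ∧ ¬ G.Colorable r ∧ pE G = 2 * ((tn r N : ℝ) + j)) ∧
          specRad G = lE) ∧
      (∃ G : SimpleGraph (Fin (N + 2)), TypeD r N j G) ∧
      (∃ G : SimpleGraph (Fin (N + 2)), TypeE r N j G) ∧
      (∀ (V : Type) [Fintype V] (G : SimpleGraph V), G.CliqueFree (r + 1) → ¬ G.Colorable r →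
        pE G = 2 * ((tn r N : ℝ) + j) → specRad G ≤ max lD lE ∧
          (specRad G = max lD lE ↔
            (TypeD r N j G ∧ lE ≤ lD) ∨ (TypeE r N j G ∧ lD ≤ lE))) ∧
      (((r : ℝ) + 1) * (j / (al r * N)) ≤ 1 - ε → lD < lE) ∧
      (1 + (j / (al r * N)) ^ 4 / (r * ((r : ℝ) - 1)) + ε ≤ ((r : ℝ) + 1) * (j / (al r * N)) →
        lE < lD)

/-- the exact theorem for small `j` -/
theorem small_lin (hS1 : Stmt_S1) (hSM0 : Stmt_SM0) (hFIN3 : Stmt_FIN3) (hEBU : Stmt_EBU)
    (hE2U : Stmt_E2U) (hE3U : Stmt_E3U) (hTN : Stmt_TN) (hGD : Stmt_GD) (hGE : Stmt_GE)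
    (hLOWG : Stmt_LOWG) (hEXU : Stmt_EXU) (hLAB : Stmt_LAB) (hCANP : Stmt_CANP)
    (hISOEU : Stmt_ISOEU) (hTRANS : Stmt_TRANS) (hTRANS2 : Stmt_TRANS2) (r : ℕ) (ε : ℝ)
    (hr : 3 ≤ r) (hε : 0 < ε) : ∃ (ε0 : ℝ) (N0 : ℕ), 0 < ε0 ∧ ∀ N ≥ N0, ∀ j : ℕ,
    2 * r ≤ j + 1 → (j : ℝ) < ε0 * N → RgU r ε N j → Concl r ε N j := by
  classical
  obtain ⟨ε1, δ1, n1, hε1, hδ1, H1⟩ := small_str hS1 hSM0 hFIN3 hEBU hE2U hE3U hTN hGE r ε hr hε
  obtain ⟨n2, H2⟩ := typeD_low hLOWG hr hδ1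
  obtain ⟨n3, H3⟩ := hEXU r ε hr hε
  obtain ⟨n6, H6⟩ := hISOEU r ε hr hε
  refine ⟨min ε1 (1 / (2 * ((r : ℝ) + 1))), n1 + n2 + n3 + n6 + 3 * r,
    lt_min hε1 (by positivity), ?_⟩
  intro N hN j hj2r hjs hRg
  have hrr : (3 : ℝ) ≤ r := by exact_mod_cast hr
  have hal := al_ge hr
  have hN0 : (0 : ℝ) < N := by
    have : 0 < N := by omega
    exact_mod_cast this
  have hjs1 : (j : ℝ) < ε1 * N :=
    lt_of_lt_of_le hjs (mul_le_mul_of_nonneg_right (min_le_left _ _) hN0.le)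
  have hjs2 : (j : ℝ) < 1 / (2 * ((r : ℝ) + 1)) * N :=
    lt_of_lt_of_le hjs (mul_le_mul_of_nonneg_right (min_le_right _ _) hN0.le)
  obtain ⟨⟨GD, hGDt⟩, ⟨GE, hGEt⟩⟩ := H3 N (by omega) j hRg hj2r (Fin (N + 2)) (by simp)
  have cD := typeD_class hTN hGD hr (by omega) hGDt
  have cE := typeE_class hTN hGE hr (by omega) hGEt
  set lD := specRad GD with hlD
  set lE := specRad GE with hlE
  have hD : ∀ (V : Type) [Fintype V] (G : SimpleGraph V), TypeD r N j G → specRad G = lD :=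
    fun V _ G hG => isodU hLAB hCANP r N j V (Fin (N + 2)) G GD hG hGDt
  have hE : ∀ (V : Type) [Fintype V] (G : SimpleGraph V), TypeE r N j G → specRad G = lE :=
    fun V _ G hG => H6 N (by omega) j hRg V (Fin (N + 2)) G GE hG hGEt
  have hlow : al r * N + (j : ℝ) ^ 2 / (al r * N ^ 2) - δ1 ≤ lD :=
    H2 N (by omega) j (Fin (N + 2)) GD hGDt
  -- the key fact
  have key : ∀ (V : Type) [Fintype V] (G : SimpleGraph V), G.CliqueFree (r + 1) →
      ¬ G.Colorable r → pE G = 2 * ((tn r N : ℝ) + j) → specRad G ≤ lE := by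
    intro V _ G a b c
    set V' := V ⊕ Fin (N + 2) with hV'
    obtain ⟨G1, a1, b1, c1, e1⟩ := htr hTRANS hr V V' G a b c (by simp [hV'])
    obtain ⟨G2, a2, b2, c2, e2⟩ := htr hTRANS hr (Fin (N + 2)) V' GD cD.1 cD.2.1 cD.2.2
      (by simp [hV'])
    obtain ⟨Gm, am, bm, cm, hMX, hle⟩ := exists_MX G1 a1 b1
    have cm' : pE Gm = 2 * ((tn r N : ℝ) + j) := cm.trans c1
    have h2 : specRad G2 ≤ specRad Gm := hMX G2 a2 b2 (c2.trans cm'.symm)
    have hst := H1 N (by omega) j hj2r hjs1 hRg V' Gm (by simp [hV']) am bm hMX cm'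
      (by rw [e2] at h2; linarith)
    have h3 : specRad G ≤ specRad Gm := by rw [← e1]; exact hle
    rw [hE V' Gm hst] at h3
    exact h3
  -- the strict inequality
  have hlt : lD < lE := by
    rcases lt_or_eq_of_le (key (Fin (N + 2)) GD cD.1 cD.2.1 cD.2.2) with h | h
    · exact h
    · exfalso
      have hMX : MX r GD := by
        intro G' a' b' c'
        rw [h]
        exact key _ G' a' b' (c'.trans cD.2.2)
      have hst := H1 N (by omega) j hj2r hjs1 hRg (Fin (N + 2)) GD (by simp) cD.1 cD.2.1 hMX cD.2.2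
        hlow
      obtain ⟨S, hS1, hS2⟩ := typeE_iso hr (by omega) hst
      have := typeD_iso hGDt S hS2
      omega
  have hmaxE : max lD lE = lE := max_eq_right hlt.le
  refine ⟨lD, lE, fun V _ G hG => ⟨typeD_class hTN hGD hr (by omega) hG, hD V G hG⟩,
    fun V _ G hG => ⟨typeE_class hTN hGE hr (by omega) hG, hE V G hG⟩, ⟨GD, hGDt⟩, ⟨GE, hGEt⟩,
    ?_, fun _ => hlt, ?_⟩
  · intro V _ G a b c
    rw [hmaxE]
    refine ⟨key V G a b c, ?_, ?_⟩
    · intro heq
      right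
      refine ⟨?_, hlt.le⟩
      by_cases hcV : N + 2 ≤ Fintype.card V
      · have hMX : MX r G := by
          intro G' a' b' c'
          rw [heq]
          exact key V G' a' b' (c'.trans c)
        exact H1 N (by omega) j hj2r hjs1 hRg V G hcV a b hMX c
          (by rw [heq]; exact hlow.trans hlt.le)
      · exfalso
        have hV : Nonempty V := by
          by_contra h
          rw [not_nonempty_iff] at h
          exact b (SimpleGraph.Colorable.of_isEmpty _)
        obtain ⟨G', e1, e2, e4, e3⟩ := hTRANS2 V (Fin (N + 2)) G hV (by simp; omega)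
        have a1 := (e3 r (by omega)).1 a
        have b1 : ¬ G'.Colorable r := fun h => b ((e3 r (by omega)).2 h)
        have c1 := e2.trans c
        have hMX : MX r G' := by
          intro G'' a' b' c'
          rw [e1, heq]
          exact key _ G'' a' b' (c'.trans c1)
        have hst := H1 N (by omega) j hj2r hjs1 hRg (Fin (N + 2)) G' (by simp) a1 b1 hMX c1
          (by rw [e1, heq]; exact hlow.trans hlt.le)
        obtain ⟨S, hS1, hS2⟩ := typeE_iso hr (by omega) hst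
        have := e4 S hS2
        omega
    · rintro (⟨_, hle⟩ | ⟨h, _⟩)
      · exact absurd hlt (not_lt.mpr hle)
      · exact hE V G h
  · intro hX
    exfalso
    have h1 : (j : ℝ) / (al r * N) < 1 / ((r : ℝ) + 1) := by
      rw [div_lt_iff₀ (by positivity)]
      refine lt_of_lt_of_le hjs2 ?_
      have e1 : 1 / (2 * ((r : ℝ) + 1)) * N = 1 / ((r : ℝ) + 1) * (1 / 2 * N) := by
        field_simp
      rw [e1]
      apply mul_le_mul_of_nonneg_left _ (by positivity)
      nlinarith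
    have h2 : ((r : ℝ) + 1) * (j / (al r * N)) < 1 := by
      have := mul_lt_mul_of_pos_left h1 (by linarith : (0 : ℝ) < (r : ℝ) + 1)
      rwa [mul_one_div_cancel (by linarith : (r : ℝ) + 1 ≠ 0)] at this
    have h3 : 0 ≤ ((j : ℝ) / (al r * N)) ^ 4 / (r * ((r : ℝ) - 1)) := by
      apply div_nonneg (by positivity)
      apply mul_nonneg (by linarith) (by linarith)
    linarith

/-- the exact theorem -/
theorem lin2 (hS1 : Stmt_S1) (hSM0 : Stmt_SM0) (hFIN3 : Stmt_FIN3) (hEBU : Stmt_EBU)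
    (hE2U : Stmt_E2U) (hE3U : Stmt_E3U) (hTN : Stmt_TN) (hGD : Stmt_GD) (hGE : Stmt_GE)
    (hLOWG : Stmt_LOWG) (hEXU : Stmt_EXU) (hLAB : Stmt_LAB) (hCANP : Stmt_CANP)
    (hISOEU : Stmt_ISOEU) (hTRANS : Stmt_TRANS) (hTRANS2 : Stmt_TRANS2)
    (hSTR : Stmt_STR) (hEXD : Stmt_EXD) (hEXE : Stmt_EXE) (hISOD : Stmt_ISOD)
    (hISOE : Stmt_ISOE) (hTHRE : Stmt_THRE) (hTHRD : Stmt_THRD) (r : ℕ) (ε : ℝ)
    (hr : 3 ≤ r) (hε : 0 < ε) : ∃ N0 : ℕ, ∀ N ≥ N0, ∀ j : ℕ,
    2 * r ≤ j + 1 → RgU r ε N j → Concl r ε N j := by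
  obtain ⟨ε0, n1, hε0, H1⟩ := small_lin hS1 hSM0 hFIN3 hEBU hE2U hE3U hTN hGD hGE hLOWG hEXU hLAB
    hCANP hISOEU hTRANS hTRANS2 r ε hr hε
  obtain ⟨n2, H2⟩ := main_lin hSTR hTN hGD hGE hLOWG hEXD hEXE hISOD hISOE hTRANS hTHRE hTHRD r
    (min ε ε0) hr (lt_min hε hε0)
  refine ⟨n1 + n2, ?_⟩
  intro N hN j hj hRg
  have hN0 : (0 : ℝ) ≤ N := Nat.cast_nonneg N
  rcases lt_or_ge (j : ℝ) (ε0 * N) with h | h
  · exact H1 N (by omega) j hj h hRg
  · have hRg' : Rg r (min ε ε0) N j := by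
      refine ⟨le_trans (mul_le_mul_of_nonneg_right (min_le_right _ _) hN0) h, ?_⟩
      refine hRg.trans (mul_le_mul_of_nonneg_right ?_ hN0)
      have := min_le_left ε ε0
      linarith
    obtain ⟨lD, lE, a1, a2, a3, a4, a5, a6, a7⟩ := H2 N (by omega) j hRg'
    refine ⟨lD, lE, a1, a2, a3, a4, a5, fun h => a6 ?_, fun h => a7 ?_⟩
    · have := min_le_left ε ε0
      linarith
    · have := min_le_left ε ε0
      linarith

end Pool.Agent.Work.MP_5532fa_up
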