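import Pool.Agent.Work.MP_5532fa_up.Interface3
import Pool.Agent.Work.MP_5532fa_up.Str2

/-!
# MP_5532fa_co, upgrade: the structure of all extremal graphs, final form
-/

open Finset

namespace Pool.Agent.Work.MP_5532fa_up

open MP5532fa (specRad qf pE)

/-- the two types -/
def Stmt_SM3 : Prop := ∀ (r : ℕ), 3 ≤ r → ∃ (δ : ℝ) (N0 : ℕ), 0 < δ ∧ ∀ N ≥ N0,
  ∀ (V : Type) [Fintype V] (G : SimpleGraph V) (c : V → Fin r) (H : Finset V),
    C0 r δ N G c H → G.CliqueFree (r + 1) → ¬ G.Colorable r → MX r G →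
    (∃ (w : V) (A : Finset V) (v1 v2 : V), WD G N H c w A v1 v2) ∨
    (∃ H' : Finset V, H' ⊆ H ∧ H.card ≤ H'.card + 1 ∧
      ∃ (w u : V) (A B : Finset V) (i0 : Fin r), WE G H'.card H' c w u A B i0)

theorem sm3 (hSM : Stmt_SM) (hSTAR : Stmt_STAR) (hFWE : Stmt_FWE)
    (hEVN : Stmt_EVN) : Stmt_SM3 := by
  classical
  intro r hr
  obtain ⟨d0, n0, hd0, H0⟩ := hSM r hr
  obtain ⟨d1, n1, hd1, H1⟩ := hSTAR r hr
  have hrr : (3 : ℝ) ≤ r := by exact_mod_cast hr
  have hr4 : (0 : ℝ) < 1 / (4 * r) := by positivity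
  refine ⟨min (min d0 d1) (1 / (4 * r)), n0 + n1 + 1, lt_min (lt_min hd0 hd1) hr4, ?_⟩
  intro N hN V _ G c H hC hfree hcol hMX
  have l0 : min (min d0 d1) (1 / (4 * (r : ℝ))) ≤ d0 := (min_le_left _ _).trans (min_le_left _ _)
  have l1 : min (min d0 d1) (1 / (4 * (r : ℝ))) ≤ d1 := (min_le_left _ _).trans (min_le_right _ _)
  have l2 : min (min d0 d1) (1 / (4 * (r : ℝ))) ≤ 1 / (4 * r) := min_le_right _ _
  rcases H0 N (by omega) V G c H (hC.mono l0) hfree hcol hMX with h | ⟨w, u, A, B, i0, h⟩ |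
    ⟨w, T, h⟩
  · exact Or.inl h
  · refine Or.inr ⟨H, Finset.Subset.refl _, by omega, w, u, A, B, i0, ?_⟩
    rw [h.card]; exact h
  · have hCr := hC.mono l2
    have hN1 : 1 ≤ N := by omega
    have hNr : (1 : ℝ) ≤ N := by exact_mod_cast hN1
    have hNN : (0 : ℝ) < N / r := by positivity
    have e1 : 1 / (4 * (r : ℝ)) * N = N / r / 4 := by field_simp
    have hm : ∀ i, mis G H c < (cl H c i).card := by
      intro i
      have h1 := hCr.mis
      have h2 := (abs_le.mp (hCr.bal i)).1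
      rw [e1] at h1 h2
      have h3 : (mis G H c : ℝ) < sz H c i := by linarith
      unfold sz at h3
      exact_mod_cast h3
    obtain ⟨a, ha, b, hb, hab, hadj⟩ := h.hF
    have hca : c a ≠ c b := by
      intro hcc
      obtain ⟨z, hz⟩ := Finset.card_eq_one.mp (h.hT1 (c b))
      have h1 : a ∈ cl T c (c b) := mem_cl.mpr ⟨ha, hcc⟩
      have h2 : b ∈ cl T c (c b) := mem_cl.mpr ⟨hb, rfl⟩
      rw [hz, Finset.mem_singleton] at h1 h2
      exact hab (h1.trans h2.symm)
    obtain ⟨K, rfl⟩ : ∃ K, N = K + 1 := ⟨N - 1, by omega⟩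
    -- a star of missing pairs
    have hstar : ∃ p ∈ T, ∀ a b, FM G H c a b → a = p ∨ b = p := by
      by_cases h4 : 4 ≤ mis G H c
      · exact H1 (K + 1) (by omega) V G c H w T (hC.mono l1) h hMX h4
      · -- at most two missing pairs
        refine ⟨a, ha, ?_⟩
        rintro a' b' ⟨h1, h2, h3, h4'⟩
        by_contra hno
        push Not at hno
        have hsub : ({(a, b), (b, a), (a', b')} : Finset (V × V)) ⊆
            (H ×ˢ H).filter (fun e => c e.1 ≠ c e.2 ∧ ¬ G.Adj e.1 e.2) := by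
          intro e he
          simp only [Finset.mem_insert, Finset.mem_singleton] at he
          rw [Finset.mem_filter, Finset.mem_product]
          rcases he with rfl | rfl | rfl
          · exact ⟨⟨h.hT ha, h.hT hb⟩, hca, hadj⟩
          · exact ⟨⟨h.hT hb, h.hT ha⟩, hca.symm, fun q => hadj q.symm⟩
          · exact ⟨⟨h1, h2⟩, h3, h4'⟩
        have hc3 : ({(a, b), (b, a), (a', b')} : Finset (V × V)).card = 3 := by
          rw [Finset.card_insert_of_notMem, Finset.card_insert_of_notMem, Finset.card_singleton]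
          · rw [Finset.mem_singleton]
            intro q
            exact hno.2 (Prod.mk.inj q).2.symm
          · rw [Finset.mem_insert, Finset.mem_singleton]
            rintro (q | q)
            · exact hab (Prod.mk.inj q).1
            · exact hno.1 (Prod.mk.inj q).1.symm
        have hle : 3 ≤ mis G H c := by
          rw [← hc3]
          exact Finset.card_le_card hsub
        obtain ⟨q, hq⟩ := (hEVN r V G c H).1
        omega
    obtain ⟨p, hp, hF⟩ := hstar
    obtain ⟨A, B, hWE⟩ := hFWE r hr V G K c H w p T h hm hp hF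
    refine Or.inr ⟨H.erase p, Finset.erase_subset _ _, ?_, p, w, A, B, c p, ?_⟩
    · rw [hWE.card, h.card]
    · rw [hWE.card]; exact hWE

/-- sizes of the classes of a slightly smaller set -/
theorem size_erase {V : Type} [Fintype V] {r : ℕ} (hr : 3 ≤ r) {H H' : Finset V} {c : V → Fin r}
    {M : ℝ} (hs : H' ⊆ H) (hc : H.card ≤ H'.card + 1) (hM : (H.card : ℝ) = M) (h4 : 5 ≤ H.card)
    (h : ∀ i, |sz H c i - M / r| ≤ 2 * √M) (i : Fin r) :
    |sz H' c i - (H'.card : ℝ) / r| ≤ 3 * √(H'.card : ℝ) := by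
  classical
  have hrr : (3 : ℝ) ≤ r := by exact_mod_cast hr
  have hle : H'.card ≤ H.card := Finset.card_le_card hs
  have hle' : (H'.card : ℝ) ≤ M := by rw [← hM]; exact_mod_cast hle
  have hge' : M ≤ (H'.card : ℝ) + 1 := by rw [← hM]; exact_mod_cast hc
  have hsz : sz H' c i ≤ sz H c i := by
    unfold sz
    have : (cl H' c i).card ≤ (cl H c i).card := by
      apply Finset.card_le_card
      intro v hv
      obtain ⟨h1, h2⟩ := mem_cl.mp hv
      exact mem_cl.mpr ⟨hs h1, h2⟩
    exact_mod_cast this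
  have hsz' : sz H c i ≤ sz H' c i + 1 := by
    unfold sz
    have h1 : (cl H c i).card ≤ (cl H' c i).card + (H \ H').card := by
      rw [← Nat.sub_le_iff_le_add']
      refine (Finset.le_card_sdiff _ _).trans ?_
      apply Finset.card_le_card
      intro v hv
      rw [Finset.mem_sdiff] at hv ⊢
      obtain ⟨h1, h2⟩ := mem_cl.mp hv.1
      exact ⟨h1, fun h3 => hv.2 (mem_cl.mpr ⟨h3, h2⟩)⟩
    have h2 : (H \ H').card ≤ 1 := by
      rw [Finset.card_sdiff_of_subset hs]; omega
    have : (cl H c i).card ≤ (cl H' c i).card + 1 := by omega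
    exact_mod_cast this
  have h5 : (4 : ℝ) ≤ H'.card := by
    have : 4 ≤ H'.card := by omega
    exact_mod_cast this
  set t := √(H'.card : ℝ) with ht
  have ht0 : 0 ≤ t := Real.sqrt_nonneg _
  have ht2 : t ^ 2 = (H'.card : ℝ) := Real.sq_sqrt (by linarith)
  have ht3 : 2 ≤ t := by nlinarith
  have hM2 : √M ≤ t + 1 / 4 := by
    rw [← Real.sqrt_sq (by linarith : (0 : ℝ) ≤ t + 1 / 4)]
    apply Real.sqrt_le_sqrt
    nlinarith
  have hi := h i
  rw [abs_le] at hi ⊢
  have hd : M / r - (H'.card : ℝ) / r ≤ 1 / 3 := by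
    rw [← sub_div, div_le_iff₀ (by linarith)]
    linarith
  have hd' : (H'.card : ℝ) / r ≤ M / r := div_le_div_of_nonneg_right hle' (by linarith)
  constructor
  · linarith [hi.1]
  · linarith [hi.2]

/-- the structure of all extremal graphs with many edges, final form -/
theorem univ3 (hSM3 : Stmt_SM3) (hFIN3 : Stmt_FIN3) (hB1U2 : Stmt_B1U2) (hB1C2 : Stmt_B1C2)
    (hLOWX : Stmt_LOWX) (hTN : Stmt_TN) (r : ℕ) (hr : 3 ≤ r) :
    ∃ m0 : ℕ, ∀ m ≥ m0, ∀ N j : ℕ, m = tn r N + j → m < tn r (N + 1) →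
      ∀ (V : Type) [Fintype V] (G : SimpleGraph V), G.CliqueFree (r + 1) →
      ¬ G.Colorable r → pE G = 2 * (m : ℝ) →
      (∀ (V' : Type) [Fintype V'] (G' : SimpleGraph V'), G'.CliqueFree (r + 1) →
        ¬ G'.Colorable r → pE G' = 2 * (m : ℝ) → specRad G' ≤ specRad G) →
      ∃ (c : V → Fin r) (H : Finset V), N ≤ H.card + 1 ∧ H.card ≤ N + 1 ∧
        (∀ i, |sz H c i - (H.card : ℝ) / r| ≤ 3 * √(H.card : ℝ)) ∧
        ((∃ (w : V) (A : Finset V) (v1 v2 : V), WD G H.card H c w A v1 v2) ∨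
         (∃ (w u : V) (A B : Finset V) (i0 : Fin r), WE G H.card H c w u A B i0)) := by
  classical
  obtain ⟨dS, nS, hdS, HS⟩ := hSM3 r hr
  obtain ⟨ε, hε, HF⟩ := hFIN3 r dS hr hdS
  obtain ⟨dU, nU, hdU, HU⟩ := hB1U2 r ε hr hε
  obtain ⟨dC, nC, hdC, HC⟩ := hB1C2 r ε hr hε
  obtain ⟨δ1, nF, hδ1, HF'⟩ := HF (min dU dC) (lt_min hdU hdC)
  obtain ⟨nL, HL⟩ := hLOWX r δ1 hr hδ1
  set M := nS + nU + nC + nF + nL + 5 with hM
  refine ⟨M ^ 2 + 1, ?_⟩
  intro m hm N j hmj hlt V _ G hfree hcol hpE hmax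
  have hNM := large_N hTN hr M hm hlt
  have hj := j_le hTN hr hmj hlt
  have hV : Nonempty V := by
    by_contra h
    rw [not_nonempty_iff] at h
    exact hcol (SimpleGraph.Colorable.of_isEmpty _)
  have hMX : MX r G := fun G' a b e => hmax V G' a b (e.trans hpE)
  have hp : |pE G - al r * N ^ 2 - 2 * j| ≤ (r : ℝ) :=
    pE_near hTN hr (by rw [hpE, hmj]; push_cast; ring)
  obtain ⟨G0, a, b, cL, dL⟩ := HL N (by omega) j hj
  have hlow := hmax (Fin (N + 3)) G0 a b (by rw [cL, hmj]; push_cast; ring)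
  obtain ⟨x, hx⟩ := exists_PV G
  have fin : ∀ (N' : ℕ) (c : V → Fin r) (H : Finset V), N ≤ N' → N' ≤ N + 1 →
      C0 r dS N' G c H →
      (∀ i, |sz H c i - (N' : ℝ) / r| ≤ 2 * √(N' : ℝ)) → ∃ (c : V → Fin r) (H : Finset V),
        N ≤ H.card + 1 ∧ H.card ≤ N + 1 ∧
        (∀ i, |sz H c i - (H.card : ℝ) / r| ≤ 3 * √(H.card : ℝ)) ∧
        ((∃ (w : V) (A : Finset V) (v1 v2 : V), WD G H.card H c w A v1 v2) ∨
         (∃ (w u : V) (A B : Finset V) (i0 : Fin r), WE G H.card H c w u A B i0)) := by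
    intro N' c H hN1 hN2 hC hs
    have hcard := hC.card
    rcases HS N' (by omega) V G c H hC hfree hcol hMX with h | ⟨H', hsub, hc, h⟩
    · refine ⟨c, H, by omega, by omega, fun i => ?_, Or.inl (by rw [hcard]; exact h)⟩
      exact size_erase hr (Finset.Subset.refl _) (Nat.le_succ _) (by rw [hcard]) (by omega) hs i
    · have hle := Finset.card_le_card hsub
      exact ⟨c, H', by omega, by omega,
        fun i => size_erase hr hsub hc (by rw [hcard]) (by omega) hs i, Or.inr h⟩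
  rcases HF' N (by omega) j hj V G x (specRad G) hfree hx hp (by linarith) with
    ⟨c, H, hC, hs, -⟩ | ⟨c, H, hC, hs, -⟩ | ⟨hRg, c, H, w, hFD, hs⟩
  · exact fin N c H le_rfl (by omega) hC hs
  · exact fin (N + 1) c H (by omega) le_rfl hC (by push_cast; exact hs)
  · have hcard := hFD.card
    refine ⟨c, H, by omega, by omega, fun i => size_erase hr (Finset.Subset.refl _)
      (Nat.le_succ _) (by rw [hcard]) (by omega) hs i, ?_⟩
    rw [hcard]
    by_cases hall : ∀ i, (cl (nb G H w) c i).Nonempty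
    · obtain ⟨v1, v2, h⟩ := HU N (by omega) j hRg V G x _ c H w (hFD.mono (min_le_left _ _)) hfree
        hMX hall
      exact Or.inl ⟨w, _, v1, v2, h⟩
    · push Not at hall
      obtain ⟨i0, hi0⟩ := hall
      obtain ⟨u, B, i1, h⟩ := HC N (by omega) j hRg V G x _ c H w i0
        (hFD.mono (min_le_right _ _)) hfree hcol hMX hi0
      exact Or.inr ⟨w, u, _, B, i1, h⟩

/-- extremal graphs exist -/
theorem exists_ext (hLOWX : Stmt_LOWX) (hTN : Stmt_TN) (hLAB : Stmt_LAB) (hTRANS : Stmt_TRANS)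
    (r : ℕ) (hr : 3 ≤ r) : ∃ m0 : ℕ, ∀ m ≥ m0, ∃ G : SimpleGraph (Fin (2 * m)),
      G.CliqueFree (r + 1) ∧ ¬ G.Colorable r ∧ pE G = 2 * (m : ℝ) ∧
      ∀ (V' : Type) [Fintype V'] (G' : SimpleGraph V'), G'.CliqueFree (r + 1) →
        ¬ G'.Colorable r → pE G' = 2 * (m : ℝ) → specRad G' ≤ specRad G := by
  classical
  obtain ⟨nL, HL⟩ := hLOWX r 1 hr one_pos
  refine ⟨(nL + 1) ^ 2 + 1, ?_⟩
  intro m hm
  obtain ⟨N, j, hmj, hlt⟩ := exists_N hTN hr m
  have hNM := large_N hTN hr (nL + 1) hm hlt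
  have hj := j_le hTN hr hmj hlt
  have hm1 : 1 ≤ m := by omega
  -- moving a graph to `Fin (2 * m)`
  have move : ∀ (V : Type) [Fintype V] (G : SimpleGraph V), G.CliqueFree (r + 1) →
      ¬ G.Colorable r → pE G = 2 * (m : ℝ) → ∃ G' : SimpleGraph (Fin (2 * m)),
        specRad G' = specRad G ∧ G'.CliqueFree (r + 1) ∧ ¬ G'.Colorable r ∧
          pE G' = 2 * (m : ℝ) := by
    intro V _ G hfree hcol hpE
    set S : Finset V := univ.filter (fun v => ∃ u, G.Adj v u) with hS
    have hSm : ∀ v, v ∈ S ↔ ∃ u, G.Adj v u := by intro v; rw [hS]; simp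
    have hadS : ∀ a b, G.Adj a b → a ∈ S := fun a b h => (hSm a).mpr ⟨b, h⟩
    have hSne : S.Nonempty := by
      by_contra hne
      rw [Finset.not_nonempty_iff_eq_empty] at hne
      apply hcol
      have hr0 : 0 < r := by omega
      refine ⟨SimpleGraph.Coloring.mk (fun _ => (⟨0, hr0⟩ : Fin r)) fun {a b} hab => ?_⟩
      exfalso
      have := hadS a b hab
      rw [hne] at this
      exact absurd this (Finset.notMem_empty a)
    set K : SimpleGraph {v // v ∈ S} := G.comap (Subtype.val : {v // v ∈ S} → V) with hK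
    have e1 : specRad G = specRad K := by
      refine hLAB V V {v // v ∈ S} G.Adj G K S univ id Subtype.val ?_ ?_ ?_ hSne
      · intro a b
        constructor
        · intro h
          exact ⟨hadS a b h, hadS b a h.symm, h.ne, h⟩
        · rintro ⟨_, _, _, h⟩
          exact h
      · intro a b
        constructor
        · intro h
          exact ⟨Finset.mem_univ _, Finset.mem_univ _, h.ne, h⟩
        · rintro ⟨_, _, _, h⟩
          exact h
      · intro s
        by_cases hs : s ∈ S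
        · have a1 : fib S id s = {s} := by
            ext v
            rw [mem_fib, Finset.mem_singleton]
            exact ⟨fun h => h.2, fun h => ⟨h ▸ hs, h⟩⟩
          have a2 : fib (univ : Finset {v // v ∈ S}) Subtype.val s = {⟨s, hs⟩} := by
            ext v
            rw [mem_fib, Finset.mem_singleton]
            exact ⟨fun h => Subtype.ext h.2, fun h => ⟨Finset.mem_univ _, by rw [h]⟩⟩
          rw [a1, a2, Finset.card_singleton, Finset.card_singleton]
        · have a1 : fib S id s = ∅ := by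
            rw [Finset.eq_empty_iff_forall_notMem]
            intro v hv
            obtain ⟨h1, h2⟩ := mem_fib.mp hv
            have h3 : v = s := h2
            exact hs (h3 ▸ h1)
          have a2 : fib (univ : Finset {v // v ∈ S}) Subtype.val s = ∅ := by
            rw [Finset.eq_empty_iff_forall_notMem]
            intro v hv
            obtain ⟨h1, h2⟩ := mem_fib.mp hv
            exact hs (h2 ▸ v.2)
          rw [a1, a2, Finset.card_empty, Finset.card_empty]
    have e2 : pE K = pE G := by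
      rw [pE_ad, pE_ad]
      have h0 : ∀ v, v ∉ S → ∀ u, ad G v u = 0 := by
        intro v hv u
        exact chi_neg (fun h => hv (hadS v u h))
      have h1 : ∑ u, ∑ v, ad G u v = ∑ u ∈ S, ∑ v ∈ S, ad G u v := by
        symm
        rw [← Finset.sum_subset (Finset.subset_univ S)
          (f := fun u => ∑ v, ad G u v) (fun u _ hu => Finset.sum_eq_zero fun v _ => h0 u hu v)]
        refine Finset.sum_congr rfl fun u _ => ?_
        exact Finset.sum_subset (Finset.subset_univ S) fun v _ hv => by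
          rw [ad_comm]; exact h0 v hv u
      rw [h1, ← Finset.sum_coe_sort S (fun u => ∑ v ∈ S, ad G u v)]
      refine Finset.sum_congr rfl fun u _ => ?_
      rw [← Finset.sum_coe_sort S (fun v => ad G u v)]
      rfl
    have hcardS : Fintype.card {v // v ∈ S} ≤ Fintype.card (Fin (2 * m)) := by
      rw [Fintype.card_fin, Fintype.card_coe]
      have h1 : ((S.card : ℕ) : ℝ) ≤ pE G := by
        rw [pE_ad]
        have h2 : ∀ u ∈ S, (1 : ℝ) ≤ ∑ v, ad G u v := by
          intro u hu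
          obtain ⟨v, hv⟩ := (hSm u).mp hu
          have : ad G u v = 1 := chi_pos hv
          rw [← this]
          exact Finset.single_le_sum (f := fun v => ad G u v) (fun _ _ => chi_nonneg _)
            (Finset.mem_univ v)
        calc ((S.card : ℕ) : ℝ) = ∑ u ∈ S, (1 : ℝ) := by simp
          _ ≤ ∑ u ∈ S, ∑ v, ad G u v := Finset.sum_le_sum h2
          _ ≤ ∑ u, ∑ v, ad G u v := Finset.sum_le_sum_of_subset_of_nonneg
              (Finset.subset_univ S) fun _ _ _ => Finset.sum_nonneg fun _ _ => chi_nonneg _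
      rw [hpE] at h1
      exact_mod_cast h1
    obtain ⟨s0, hs0⟩ := hSne
    obtain ⟨G', f1, f2, f3⟩ := hTRANS {v // v ∈ S} (Fin (2 * m)) K ⟨⟨s0, hs0⟩⟩ hcardS
    obtain ⟨f4, f5⟩ := f3 r (by omega)
    have hKfree : K.CliqueFree (r + 1) :=
      hfree.comap ⟨(SimpleGraph.Embedding.comap ⟨Subtype.val, Subtype.val_injective⟩ G).toCopy⟩
    have hKcol : ¬ K.Colorable r := by
      rintro ⟨C⟩
      apply hcol
      have hr0 : 0 < r := by omega
      refine ⟨SimpleGraph.Coloring.mk
        (fun v => if h : v ∈ S then C ⟨v, h⟩ else (⟨0, hr0⟩ : Fin r)) fun {a b} hab => ?_⟩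
      have ha := hadS a b hab
      have hb := hadS b a hab.symm
      rw [dif_pos ha, dif_pos hb]
      exact C.valid (show K.Adj ⟨a, ha⟩ ⟨b, hb⟩ from hab)
    exact ⟨G', f1.trans e1.symm, f4 hKfree, fun h => hKcol (f5 h), f2.trans (e2.trans hpE)⟩
  obtain ⟨G0, a, b, cL, -⟩ := HL N (by omega) j hj
  obtain ⟨G1, g1, g2, g3, g4⟩ := move (Fin (N + 3)) G0 a b (by rw [cL, hmj]; push_cast; ring)
  obtain ⟨G, hG, hmax⟩ := Finset.exists_max_image
    ((univ : Finset (SimpleGraph (Fin (2 * m)))).filter (fun G => G.CliqueFree (r + 1) ∧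
      ¬ G.Colorable r ∧ pE G = 2 * (m : ℝ))) (fun G => specRad G)
    ⟨G1, Finset.mem_filter.mpr ⟨Finset.mem_univ _, g2, g3, g4⟩⟩
  obtain ⟨-, h1, h2, h3⟩ := Finset.mem_filter.mp hG
  refine ⟨G, h1, h2, h3, ?_⟩
  intro V' _ G' i1 i2 i3
  obtain ⟨G2, k1, k2, k3, k4⟩ := move V' G' i1 i2 i3
  rw [← k1]
  exact hmax G2 (Finset.mem_filter.mpr ⟨Finset.mem_univ _, k2, k3, k4⟩)

end Pool.Agent.Work.MP_5532fa_up
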