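import Pool.Agent.Work.MP_5532fa_up.Interface

/-!
# MP_5532fa_co upgrade, block B1C: the vertex `w` has no neighbours in one class
-/

open Finset

namespace Pool.Agent.Work.MP_5532fa_up

open MP5532fa (specRad qf pE)

namespace B1C

section
variable {V : Type} [Fintype V] {r : ℕ}

theorem chi_sum (P : V → V → Prop) [DecidablePred fun e : V × V => P e.1 e.2] :
    ∑ a, ∑ b, chi (P a b) = ((univ.filter fun e : V × V => P e.1 e.2).card : ℝ) := by
  classical
  rw [← Finset.sum_product', Finset.card_filter, Nat.cast_sum]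
  refine Finset.sum_congr rfl fun e _ => ?_
  unfold chi
  split_ifs <;> simp

theorem mis_eq (G : SimpleGraph V) (H : Finset V) (c : V → Fin r) :
    ∑ a, ∑ b, chi (a ∈ H ∧ b ∈ H ∧ c a ≠ c b ∧ ¬ G.Adj a b) = (mis G H c : ℝ) := by
  classical
  rw [chi_sum (fun a b => a ∈ H ∧ b ∈ H ∧ c a ≠ c b ∧ ¬ G.Adj a b)]
  unfold mis
  congr 2
  ext e
  simp only [Finset.mem_filter, Finset.mem_univ, true_and, Finset.mem_product]
  tauto

theorem eu_eq (G : SimpleGraph V) (H : Finset V) :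
    ∑ a, ∑ b, chi (a ∉ H ∧ b ∉ H ∧ G.Adj a b) = (eu G H : ℝ) := by
  classical
  rw [chi_sum (fun a b => a ∉ H ∧ b ∉ H ∧ G.Adj a b)]
  unfold eu
  congr 2
  ext e
  simp only [Finset.mem_filter, Finset.mem_univ, true_and]
  tauto

open Classical in
theorem dg_eq (G : SimpleGraph V) (H : Finset V) (w : V) :
    ∑ a, ∑ b, chi (a ∉ H ∧ a ≠ w ∧ b ∈ H ∧ G.Adj a b) =
      ∑ a ∈ (out H).erase w, (dg G H a : ℝ) := by
  rw [← Finset.sum_subset (Finset.subset_univ ((out H).erase w))]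
  · refine Finset.sum_congr rfl fun a ha => ?_
    rw [Finset.mem_erase, mem_out] at ha
    unfold dg nb
    rw [Finset.card_filter, Nat.cast_sum, ← Finset.sum_subset (Finset.subset_univ H)]
    · refine Finset.sum_congr rfl fun b hb => ?_
      unfold chi
      by_cases h : G.Adj a b
      · rw [if_pos ⟨ha.2, ha.1, hb, h⟩, if_pos h]; simp
      · rw [if_neg (fun h' => h h'.2.2.2), if_neg h]; simp
    · intro b _ hb
      exact chi_neg fun h => hb h.2.2.1
  · intro a _ ha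
    refine Finset.sum_eq_zero fun b _ => chi_neg fun h => ha ?_
    rw [Finset.mem_erase, mem_out]
    exact ⟨h.2.1, h.1⟩

theorem w_sum (x : V → ℝ) (A : Finset V) (w : V) :
    ∑ a, ∑ b, chi (a = w ∧ b ∈ A) * (x a * x b) = x w * ∑ b ∈ A, x b := by
  classical
  rw [Finset.sum_eq_single w]
  · rw [Finset.mul_sum, ← Finset.sum_subset (Finset.subset_univ A)]
    · refine Finset.sum_congr rfl fun b hb => ?_
      rw [chi_pos ⟨rfl, hb⟩, one_mul]
    · intro b _ hb
      rw [chi_neg fun h => hb h.2, zero_mul]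
  · intro a _ ha
    refine Finset.sum_eq_zero fun b _ => ?_
    rw [chi_neg fun h => ha h.1, zero_mul]
  · intro h; exact absurd (Finset.mem_univ w) h

theorem w_sum' (x : V → ℝ) (A : Finset V) (w : V) :
    ∑ a, ∑ b, chi (b = w ∧ a ∈ A) * (x a * x b) = x w * ∑ b ∈ A, x b := by
  rw [Finset.sum_comm, ← w_sum]
  refine Finset.sum_congr rfl fun b _ => Finset.sum_congr rfl fun a _ => ?_
  rw [mul_comm (x a)]

/-- lower bound for the quadratic form of the new graph -/
theorem lower (G' : SimpleGraph V) (H A' : Finset V) (c : V → Fin r) (w : V) (x : V → ℝ)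
    (hx : ∀ v, 0 ≤ x v) (hw : w ∉ H) (hA : A' ⊆ H)
    (h1 : ∀ a b, a ∈ H → b ∈ H → c a ≠ c b → G'.Adj a b) (h2 : ∀ b ∈ A', G'.Adj w b) :
    ∑ a, ∑ b, chi (a ∈ H ∧ b ∈ H ∧ c a ≠ c b) * (x a * x b) + 2 * (x w * ∑ b ∈ A', x b) ≤
      ∑ a, ∑ b, ad G' a b * (x a * x b) := by
  classical
  have e : ∑ a, ∑ b, chi (a ∈ H ∧ b ∈ H ∧ c a ≠ c b) * (x a * x b) + 2 * (x w * ∑ b ∈ A', x b) =
      ∑ a, ∑ b, (chi (a ∈ H ∧ b ∈ H ∧ c a ≠ c b) + chi (a = w ∧ b ∈ A') + chi (b = w ∧ a ∈ A'))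
        * (x a * x b) := by
    simp only [add_mul, Finset.sum_add_distrib]
    rw [w_sum, w_sum']
    ring
  rw [e]
  refine Finset.sum_le_sum fun a _ => Finset.sum_le_sum fun b _ => ?_
  apply mul_le_mul_of_nonneg_right _ (mul_nonneg (hx a) (hx b))
  by_cases c1 : a ∈ H ∧ b ∈ H ∧ c a ≠ c b
  · have n2 : ¬ (a = w ∧ b ∈ A') := fun h => hw (h.1 ▸ c1.1)
    have n3 : ¬ (b = w ∧ a ∈ A') := fun h => hw (h.1 ▸ c1.2.1)
    unfold ad
    rw [chi_pos c1, chi_neg n2, chi_neg n3, chi_pos (h1 a b c1.1 c1.2.1 c1.2.2)]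
    norm_num
  · rw [chi_neg c1]
    by_cases c2 : a = w ∧ b ∈ A'
    · have n3 : ¬ (b = w ∧ a ∈ A') := fun h => hw (h.1 ▸ hA c2.2)
      unfold ad
      rw [chi_pos c2, chi_neg n3, chi_pos (c2.1 ▸ h2 b c2.2)]
      norm_num
    · rw [chi_neg c2]
      by_cases c3 : b = w ∧ a ∈ A'
      · unfold ad
        rw [chi_pos c3, chi_pos ((c3.1 ▸ h2 a c3.2).symm)]
        norm_num
      · rw [chi_neg c3]
        unfold ad
        have := chi_nonneg (G'.Adj a b)
        linarith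

omit [Fintype V] in
/-- decomposition of the adjacency -/
theorem decomp (G : SimpleGraph V) (H : Finset V) (c : V → Fin r) (w : V) (hw : w ∉ H)
    (hind : ∀ u ∈ H, ∀ v ∈ H, c u = c v → ¬ G.Adj u v) (a b : V) :
    ad G a b = chi (a ∈ H ∧ b ∈ H ∧ c a ≠ c b)
      - chi (a ∈ H ∧ b ∈ H ∧ c a ≠ c b ∧ ¬ G.Adj a b)
      + chi (a = w ∧ b ∈ nb G H w) + chi (a ∉ H ∧ a ≠ w ∧ b ∈ H ∧ G.Adj a b)
      + chi (b = w ∧ a ∈ nb G H w) + chi (b ∉ H ∧ b ≠ w ∧ a ∈ H ∧ G.Adj b a)
      + chi (a ∉ H ∧ b ∉ H ∧ G.Adj a b) := by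
  classical
  unfold ad
  have hnb : ∀ v, v ∈ nb G H w ↔ v ∈ H ∧ G.Adj w v := fun v => mem_nb
  simp only [hnb]
  have hsymm : G.Adj b a ↔ G.Adj a b := G.adj_comm b a
  by_cases h : G.Adj a b
  · by_cases ha : a ∈ H
    · by_cases hb : b ∈ H
      · have hc : c a ≠ c b := fun hc => hind a ha b hb hc h
        have haw : a ≠ w := fun e => hw (e ▸ ha)
        have hbw : b ≠ w := fun e => hw (e ▸ hb)
        simp [chi, h, ha, hb, hc, haw, hbw]
      · have haw : a ≠ w := fun e => hw (e ▸ ha)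
        by_cases hbw : b = w
        · subst hbw
          simp [chi, h, h.symm, ha, hb, haw]
        · simp [chi, h, h.symm, ha, hb, haw, hbw]
    · by_cases hb : b ∈ H
      · have hbw : b ≠ w := fun e => hw (e ▸ hb)
        by_cases haw : a = w
        · subst haw
          simp [chi, h, ha, hb, hbw]
        · simp [chi, h, ha, hb, haw, hbw]
      · by_cases haw : a = w
        · subst haw
          simp [chi, h, ha, hb]
        · simp [chi, h, ha, hb]
  · by_cases ha : a ∈ H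
    · by_cases hb : b ∈ H
      · have haw : a ≠ w := fun e => hw (e ▸ ha)
        have hbw : b ≠ w := fun e => hw (e ▸ hb)
        by_cases hc : c a = c b
        · simp [chi, h, ha, hb, hc, haw, hbw]
        · simp [chi, h, ha, hb, hc, haw, hbw]
      · have haw : a ≠ w := fun e => hw (e ▸ ha)
        by_cases hbw : b = w
        · subst hbw
          simp [chi, h, hsymm, ha, hb, haw]
        · simp [chi, h, hsymm, ha, hb, haw, hbw]
    · by_cases hb : b ∈ H
      · have hbw : b ≠ w := fun e => hw (e ▸ hb)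
        by_cases haw : a = w
        · subst haw
          simp [chi, h, ha, hb, hbw]
        · simp [chi, h, ha, hb, haw, hbw]
      · by_cases haw : a = w
        · subst haw
          simp [chi, h, ha, hb]
        · simp [chi, h, ha, hb]

open Classical in
/-- upper bound for the quadratic form of the old graph -/
theorem upper (G : SimpleGraph V) (H : Finset V) (c : V → Fin r) (w : V) (x : V → ℝ) (lo hi : ℝ)
    (hw : w ∉ H) (hind : ∀ u ∈ H, ∀ v ∈ H, c u = c v → ¬ G.Adj u v)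
    (hlo : ∀ a ∈ H, ∀ b ∈ H, lo ≤ x a * x b)
    (hhi1 : ∀ a, a ∉ H → a ≠ w → ∀ b ∈ H, x a * x b ≤ hi)
    (hhi2 : ∀ a, a ∉ H → ∀ b, b ∉ H → a ≠ b → x a * x b ≤ hi) :
    ∑ a, ∑ b, ad G a b * (x a * x b) ≤
      ∑ a, ∑ b, chi (a ∈ H ∧ b ∈ H ∧ c a ≠ c b) * (x a * x b) - mis G H c * lo
        + 2 * (x w * ∑ b ∈ nb G H w, x b)
        + (2 * ∑ a ∈ (out H).erase w, (dg G H a : ℝ) + eu G H) * hi := by
  have e1 : ∑ a, ∑ b, ad G a b * (x a * x b) =
      ∑ a, ∑ b, chi (a ∈ H ∧ b ∈ H ∧ c a ≠ c b) * (x a * x b)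
      - ∑ a, ∑ b, chi (a ∈ H ∧ b ∈ H ∧ c a ≠ c b ∧ ¬ G.Adj a b) * (x a * x b)
      + ∑ a, ∑ b, chi (a = w ∧ b ∈ nb G H w) * (x a * x b)
      + ∑ a, ∑ b, chi (a ∉ H ∧ a ≠ w ∧ b ∈ H ∧ G.Adj a b) * (x a * x b)
      + ∑ a, ∑ b, chi (b = w ∧ a ∈ nb G H w) * (x a * x b)
      + ∑ a, ∑ b, chi (b ∉ H ∧ b ≠ w ∧ a ∈ H ∧ G.Adj b a) * (x a * x b)
      + ∑ a, ∑ b, chi (a ∉ H ∧ b ∉ H ∧ G.Adj a b) * (x a * x b) := by
    simp only [← Finset.sum_add_distrib, ← Finset.sum_sub_distrib]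
    refine Finset.sum_congr rfl fun a _ => Finset.sum_congr rfl fun b _ => ?_
    rw [decomp G H c w hw hind a b]
    ring
  have s1 : mis G H c * lo ≤
      ∑ a, ∑ b, chi (a ∈ H ∧ b ∈ H ∧ c a ≠ c b ∧ ¬ G.Adj a b) * (x a * x b) := by
    rw [← mis_eq, Finset.sum_mul]
    refine Finset.sum_le_sum fun a _ => ?_
    rw [Finset.sum_mul]
    refine Finset.sum_le_sum fun b _ => ?_
    by_cases h : a ∈ H ∧ b ∈ H ∧ c a ≠ c b ∧ ¬ G.Adj a b
    · rw [chi_pos h, one_mul, one_mul]; exact hlo a h.1 b h.2.1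
    · rw [chi_neg h, zero_mul, zero_mul]
  have s2 : ∑ a, ∑ b, chi (a ∉ H ∧ a ≠ w ∧ b ∈ H ∧ G.Adj a b) * (x a * x b) ≤
      (∑ a ∈ (out H).erase w, (dg G H a : ℝ)) * hi := by
    rw [← dg_eq, Finset.sum_mul]
    refine Finset.sum_le_sum fun a _ => ?_
    rw [Finset.sum_mul]
    refine Finset.sum_le_sum fun b _ => ?_
    by_cases h : a ∉ H ∧ a ≠ w ∧ b ∈ H ∧ G.Adj a b
    · rw [chi_pos h, one_mul, one_mul]; exact hhi1 a h.1 h.2.1 b h.2.2.1
    · rw [chi_neg h, zero_mul, zero_mul]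
  have s3 : ∑ a, ∑ b, chi (b ∉ H ∧ b ≠ w ∧ a ∈ H ∧ G.Adj b a) * (x a * x b) ≤
      (∑ a ∈ (out H).erase w, (dg G H a : ℝ)) * hi := by
    rw [Finset.sum_comm]
    refine le_trans (le_of_eq ?_) s2
    refine Finset.sum_congr rfl fun a _ => Finset.sum_congr rfl fun b _ => ?_
    rw [mul_comm (x b)]
  have s4 : ∑ a, ∑ b, chi (a ∉ H ∧ b ∉ H ∧ G.Adj a b) * (x a * x b) ≤ eu G H * hi := by
    rw [← eu_eq, Finset.sum_mul]
    refine Finset.sum_le_sum fun a _ => ?_
    rw [Finset.sum_mul]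
    refine Finset.sum_le_sum fun b _ => ?_
    by_cases h : a ∉ H ∧ b ∉ H ∧ G.Adj a b
    · rw [chi_pos h, one_mul, one_mul]; exact hhi2 a h.1 b h.2.1 h.2.2.ne
    · rw [chi_neg h, zero_mul, zero_mul]
  rw [e1, w_sum, w_sum']
  linarith

omit [Fintype V] in
open Classical in
/-- choice of the neighbourhoods of the new graph -/
theorem sets (H A : Finset V) (c : V → Fin r) (i0 : Fin r) (T : ℕ) (hA : A ⊆ H)
    (hA0 : cl A c i0 = ∅) (h2 : ∀ i, 2 ≤ (cl H c i).card) (hrT : r ≤ T)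
    (hT : T + (cl H c i0).card + 1 ≤ H.card) (hAT : A.card + (cl H c i0).card < H.card) :
    ∃ A' B : Finset V, A' ⊆ H ∧ B ⊆ H ∧ cl A' c i0 = ∅ ∧ cl B c i0 = ∅ ∧
      (∀ i, i ≠ i0 → (cl A' c i).Nonempty) ∧ (∀ i, i ≠ i0 → (cl B c i).card = 1) ∧ ¬ B ⊆ A' ∧
      A'.card = T ∧ (A' \ A).card + (A \ A').card ≤ (T - A.card) + (A.card - T) + 2 * r := by
  set U := H \ cl H c i0 with hU
  have hUm : ∀ v, v ∈ U ↔ v ∈ H ∧ c v ≠ i0 := by
    intro v
    rw [hU, Finset.mem_sdiff, mem_cl]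
    tauto
  have hUc : U.card = H.card - (cl H c i0).card :=
    Finset.card_sdiff_of_subset (fun v hv => (mem_cl.1 hv).1)
  have hAc : ∀ v ∈ A, c v ≠ i0 := by
    intro v hv h
    have : v ∈ cl A c i0 := mem_cl.2 ⟨hv, h⟩
    rw [hA0] at this
    simp at this
  have hAU : A ⊆ U := fun v hv => (hUm v).2 ⟨hA hv, hAc v hv⟩
  obtain ⟨b, hbU, hbA⟩ : ∃ b ∈ U, b ∉ A := by
    by_contra hcon
    push Not at hcon
    have := Finset.card_le_card (s := U) (t := A) hcon
    omega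
  have hb := (hUm b).1 hbU
  have hrr : ∀ i, ∃ v ∈ cl H c i, v ≠ b := fun i =>
    Finset.exists_mem_ne (by have := h2 i; omega) b
  choose rr hrr1 hrr2 using hrr
  have hrrH : ∀ i, rr i ∈ H := fun i => (mem_cl.1 (hrr1 i)).1
  have hrrc : ∀ i, c (rr i) = i := fun i => (mem_cl.1 (hrr1 i)).2
  set R := (univ.erase i0).image rr with hR
  have hRm : ∀ v, v ∈ R ↔ ∃ i, i ≠ i0 ∧ rr i = v := by
    intro v
    rw [hR, Finset.mem_image]
    simp
  have hRcard : R.card ≤ r := by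
    refine Finset.card_image_le.trans ?_
    refine (Finset.card_erase_le).trans ?_
    simp
  have hRU : R ⊆ U := by
    intro v hv
    obtain ⟨i, hi, rfl⟩ := (hRm v).1 hv
    exact (hUm _).2 ⟨hrrH i, by rw [hrrc]; exact hi⟩
  have hbR : b ∉ R := by
    intro h
    obtain ⟨i, hi, h'⟩ := (hRm b).1 h
    exact hrr2 i h'
  -- the set `A'`
  obtain ⟨A', hRA', hA'U, hA'c, hdiff⟩ : ∃ A' : Finset V, R ⊆ A' ∧ A' ⊆ U.erase b ∧
      A'.card = T ∧ (A' \ A).card + (A \ A').card ≤ (T - A.card) + (A.card - T) + 2 * r := by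
    have hSU : R ∪ A ⊆ U.erase b := by
      intro v hv
      rw [Finset.mem_erase]
      rcases Finset.mem_union.1 hv with h | h
      · exact ⟨fun e => hbR (e ▸ h), hRU h⟩
      · exact ⟨fun e => hbA (e ▸ h), hAU h⟩
    have hScard : (R ∪ A).card ≤ R.card + A.card := Finset.card_union_le _ _
    rcases le_or_gt T (R ∪ A).card with hTS | hTS
    · obtain ⟨A', h3, h4, h5⟩ := Finset.exists_subsuperset_card_eq
        (Finset.subset_union_left (s₁ := R) (s₂ := A)) (by omega : R.card ≤ T) hTS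
      refine ⟨A', h3, h4.trans hSU, h5, ?_⟩
      have e1 : (A' \ A).card ≤ R.card := by
        apply Finset.card_le_card
        intro v hv
        rw [Finset.mem_sdiff] at hv
        rcases Finset.mem_union.1 (h4 hv.1) with h | h
        · exact h
        · exact absurd h hv.2
      have e2 : (A \ A').card ≤ (R ∪ A).card - T := by
        rw [← h5, ← Finset.card_sdiff_of_subset h4]
        exact Finset.card_le_card (Finset.sdiff_subset_sdiff Finset.subset_union_right le_rfl)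
      omega
    · obtain ⟨A', h3, h4, h5⟩ := Finset.exists_subsuperset_card_eq hSU hTS.le (by
        rw [Finset.card_erase_of_mem hbU, hUc]; omega)
      refine ⟨A', Finset.subset_union_left.trans h3, h4, h5, ?_⟩
      have hAA' : A ⊆ A' := Finset.subset_union_right.trans h3
      rw [Finset.card_sdiff_of_subset hAA', Finset.sdiff_eq_empty_iff_subset.2 hAA',
        Finset.card_empty, h5]
      omega
  have hA'm : ∀ v ∈ A', v ≠ b ∧ v ∈ H ∧ c v ≠ i0 := by
    intro v hv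
    have := Finset.mem_erase.1 (hA'U hv)
    exact ⟨this.1, (hUm v).1 this.2⟩
  -- the set `B`
  set B := insert b (((univ.erase i0).erase (c b)).image rr) with hB
  have hBm : ∀ v, v ∈ B ↔ v = b ∨ ∃ i, i ≠ c b ∧ i ≠ i0 ∧ rr i = v := by
    intro v
    rw [hB, Finset.mem_insert, Finset.mem_image]
    simp [and_assoc]
  refine ⟨A', B, fun v hv => (hA'm v hv).2.1, ?_, ?_, ?_, ?_, ?_, ?_, hA'c, hdiff⟩
  · intro v hv
    rcases (hBm v).1 hv with rfl | ⟨i, _, _, rfl⟩
    · exact hb.1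
    · exact hrrH i
  · rw [Finset.eq_empty_iff_forall_notMem]
    intro v hv
    exact (hA'm v (mem_cl.1 hv).1).2.2 (mem_cl.1 hv).2
  · rw [Finset.eq_empty_iff_forall_notMem]
    intro v hv
    have h3 := mem_cl.1 hv
    rcases (hBm v).1 h3.1 with rfl | ⟨i, _, hi, rfl⟩
    · exact hb.2 h3.2
    · exact hi (by rw [← hrrc i]; exact h3.2)
  · intro i hi
    exact ⟨rr i, mem_cl.2 ⟨hRA' ((hRm _).2 ⟨i, hi, rfl⟩), hrrc i⟩⟩
  · intro i hi
    rw [Finset.card_eq_one]
    by_cases hib : i = c b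
    · refine ⟨b, ?_⟩
      ext v
      rw [mem_cl, Finset.mem_singleton]
      constructor
      · rintro ⟨hv, hvc⟩
        rcases (hBm v).1 hv with h | ⟨k, hk, _, rfl⟩
        · exact h
        · exfalso; apply hk; rw [← hrrc k, hvc, hib]
      · rintro rfl
        exact ⟨(hBm _).2 (Or.inl rfl), hib.symm⟩
    · refine ⟨rr i, ?_⟩
      ext v
      rw [mem_cl, Finset.mem_singleton]
      constructor
      · rintro ⟨hv, hvc⟩
        rcases (hBm v).1 hv with rfl | ⟨k, hk, _, rfl⟩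
        · exact absurd hvc.symm hib
        · rw [hrrc] at hvc; rw [hvc]
      · rintro rfl
        exact ⟨(hBm _).2 (Or.inr ⟨i, hib, hi, rfl⟩), hrrc i⟩
  · intro h
    exact (hA'm b (h ((hBm b).2 (Or.inl rfl)))).1 rfl

omit [Fintype V] in
open Classical in
/-- difference of two sums of numbers close to one -/
theorem sumdiff (A A' : Finset V) (y : V → ℝ) (δ : ℝ) (hA : ∀ v ∈ A, |y v - 1| ≤ δ)
    (hA' : ∀ v ∈ A', |y v - 1| ≤ δ) :
    |∑ v ∈ A', y v - ∑ v ∈ A, y v - ((A'.card : ℝ) - A.card)| ≤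
      δ * ((A' \ A).card + (A \ A').card) := by
  have e1 : ∀ (S : Finset V), ∑ v ∈ S, y v = ∑ v ∈ S, (y v - 1) + S.card := by
    intro S
    rw [Finset.sum_sub_distrib]
    simp
  have e2 : ∑ v ∈ A', (y v - 1) = ∑ v ∈ A' \ A, (y v - 1) + ∑ v ∈ A' ∩ A, (y v - 1) := by
    rw [← Finset.sum_inter_add_sum_sdiff A' A (fun v => y v - 1), add_comm]
  have e3 : ∑ v ∈ A, (y v - 1) = ∑ v ∈ A \ A', (y v - 1) + ∑ v ∈ A' ∩ A, (y v - 1) := by
    rw [Finset.inter_comm, ← Finset.sum_inter_add_sum_sdiff A A' (fun v => y v - 1), add_comm]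
  have e4 : ∑ v ∈ A', y v - ∑ v ∈ A, y v - ((A'.card : ℝ) - A.card) =
      ∑ v ∈ A' \ A, (y v - 1) - ∑ v ∈ A \ A', (y v - 1) := by
    rw [e1 A', e1 A, e2, e3]
    ring
  rw [e4]
  have b1 : |∑ v ∈ A' \ A, (y v - 1)| ≤ δ * (A' \ A).card := by
    refine (Finset.abs_sum_le_sum_abs _ _).trans ?_
    refine (Finset.sum_le_sum fun v hv => hA' v (Finset.mem_sdiff.1 hv).1).trans ?_
    simp only [Finset.sum_const, nsmul_eq_mul]
    apply le_of_eq; ring
  have b2 : |∑ v ∈ A \ A', (y v - 1)| ≤ δ * (A \ A').card := by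
    refine (Finset.abs_sum_le_sum_abs _ _).trans ?_
    refine (Finset.sum_le_sum fun v hv => hA v (Finset.mem_sdiff.1 hv).1).trans ?_
    simp only [Finset.sum_const, nsmul_eq_mul]
    apply le_of_eq; ring
  refine (abs_sub _ _).trans ?_
  rw [mul_add]
  exact add_le_add b1 b2

end

/-- the final estimate -/
theorem fin {X δ yw D s P M r e : ℝ} (hyw : |yw - X| ≤ δ) (hyw0 : 0 ≤ yw) (hyw2 : yw ≤ 2)
    (hD : |D - (P - M)| ≤ δ * s) (hs0 : 0 ≤ s) (hs : s ≤ P + M + 2 * r) (hP : 0 ≤ P) (hM : 0 ≤ M)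
    (hPM : 1 ≤ P + M) (hδ0 : 0 ≤ δ) (hr : 3 ≤ r) (he : e ≤ X) (he1 : e ≤ 1 - X)
    (hδ : δ * (10 + 12 * r) < 2 * e) :
    0 < 2 * (yw * D) + 2 * M * (1 - δ) ^ 2 - (2 * r + 2 * P) * (2 * δ) := by
  have h1 : X * (P - M) - δ * (P + M) - 2 * δ * (P + M + 2 * r) ≤ yw * D := by
    have e1 : yw * D = X * (P - M) + (yw - X) * (P - M) + yw * (D - (P - M)) := by ring
    have e2 : -(δ * (P + M)) ≤ (yw - X) * (P - M) := by
      have h2 : |(yw - X) * (P - M)| ≤ δ * (P + M) := by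
        rw [abs_mul]
        apply mul_le_mul hyw _ (abs_nonneg _) hδ0
        rw [abs_le]; constructor <;> linarith
      exact (abs_le.1 h2).1
    have e3 : -(2 * (δ * s)) ≤ yw * (D - (P - M)) := by
      have h2 : |yw * (D - (P - M))| ≤ 2 * (δ * s) := by
        rw [abs_mul, abs_of_nonneg hyw0]
        exact mul_le_mul hyw2 hD (abs_nonneg _) (by norm_num)
      exact (abs_le.1 h2).1
    have e4 : δ * s ≤ δ * (P + M + 2 * r) := mul_le_mul_of_nonneg_left hs hδ0
    linarith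
  have h2 : 2 * M - 4 * δ * M ≤ 2 * M * (1 - δ) ^ 2 := by
    have : 0 ≤ M * δ ^ 2 := by positivity
    nlinarith
  have h3 : e * P ≤ X * P := mul_le_mul_of_nonneg_right he hP
  have h4 : e * M ≤ (1 - X) * M := mul_le_mul_of_nonneg_right he1 hM
  have h5 : δ * (10 + 12 * r) * (P + M) < 2 * e * (P + M) :=
    mul_lt_mul_of_pos_right hδ (by linarith)
  have h6 : δ * (12 * r) ≤ δ * (12 * r) * (P + M) := le_mul_of_one_le_right (by positivity) hPM
  nlinarith

end B1C

open B1C in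
theorem blk_B1C (h1 : Stmt_GE) (h2 : Stmt_LC) (h3 : Stmt_EID) (h4 : Stmt_EVN) : Stmt_B1C := by
  classical
  intro r ε hr hε
  have hr3 : (3 : ℝ) ≤ r := by exact_mod_cast hr
  have hr0 : (0 : ℝ) < r := by linarith
  set e : ℝ := min ε (2 / r) with he
  have he0 : 0 < e := by positivity
  set δ : ℝ := min (min (ε / 4) (1 / (2 * r))) (e / (10 + 12 * r)) with hδ
  have hδ0 : 0 < δ := by positivity
  have hδε : δ ≤ ε / 4 := (min_le_left _ _).trans (min_le_left _ _)
  have hδr : δ ≤ 1 / (2 * r) := (min_le_left _ _).trans (min_le_right _ _)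
  have hδe : δ * (10 + 12 * r) < 2 * e := by
    have h5 : δ ≤ e / (10 + 12 * r) := min_le_right _ _
    rw [le_div_iff₀ (by positivity)] at h5
    linarith
  have hδ1 : δ ≤ 1 / 4 := by
    refine hδr.trans ?_
    rw [div_le_div_iff₀ (by positivity) (by norm_num)]
    linarith
  obtain ⟨N0, hN0⟩ := exists_nat_ge (2 * r / ε + 4 * r + 1)
  refine ⟨δ, N0, hδ0, ?_⟩
  intro N hN j hRg V _ G x lam c H w i0 hFD hfree hncol hMX hcl
  have hNr : 2 * r / ε + 4 * r + 1 ≤ (N : ℝ) := hN0.trans (by exact_mod_cast hN)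
  have hNpos : (0 : ℝ) < N := by
    have : 0 < 2 * (r : ℝ) / ε := by positivity
    linarith
  have hNε : (r : ℝ) ≤ ε / 2 * N := by
    have h5 : 2 * r / ε ≤ (N : ℝ) := by linarith
    rw [div_le_iff₀ hε] at h5
    linarith
  have hN4 : 4 * (r : ℝ) ≤ N := by
    have : 0 < 2 * (r : ℝ) / ε := by positivity
    linarith
  have hNr2 : 2 ≤ (N : ℝ) / (2 * r) := by
    rw [le_div_iff₀ (by positivity)]; linarith
  have ha := al_ge hr
  have ha1 := al_lt hr
  have ha0 : 0 < al r := by linarith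
  have hV := hFD.pv.nonempty
  set A := nb G H w with hA
  have hAH : A ⊆ H := fun v hv => (mem_nb.1 hv).1
  have hwout : w ∈ out H := mem_out.2 hFD.hw
  set D1 : ℕ := ∑ a ∈ (out H).erase w, dg G H a with hD1
  have hdgw : dg G H w = A.card := rfl
  have hsum : ∑ v ∈ out H, dg G H v = A.card + D1 := by
    rw [← Finset.add_sum_erase _ _ hwout, hdgw]
  obtain ⟨hQ, hfin⟩ := h2 r hr V G c H A w i0 (2 * D1 + eu G H) hfree hncol hFD.ind hFD.hw rfl hcl
    (by rw [hsum]; ring)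
  by_cases hc : mis G H c = 0 ∧ 2 * D1 + eu G H = 2 * r
  · obtain ⟨u, B, i1, hWE⟩ := hfin hc.1 hc.2
    rw [hFD.card] at hWE
    exact ⟨u, B, i1, hWE⟩
  exfalso
  obtain ⟨⟨M, hM⟩, ⟨E, hE⟩⟩ := h4 r V G c H
  obtain ⟨P, hP⟩ : ∃ P : ℕ, D1 + E = r + P := ⟨D1 + E - r, by omega⟩
  have hPM : 1 ≤ P + M := by
    by_contra hcon
    apply hc
    omega
  -- sizes
  have hszr : ∀ i, ((cl H c i).card : ℝ) ≤ N / r + δ * N ∧ N / r - δ * N ≤ (cl H c i).card := by
    intro i
    have h5 := abs_le.1 (hFD.bal i)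
    unfold sz at h5
    constructor <;> linarith
  have hδN : δ * N ≤ N / (2 * r) := by
    calc δ * N ≤ 1 / (2 * r) * N := mul_le_mul_of_nonneg_right hδr hNpos.le
      _ = N / (2 * r) := by ring
  have hhalf : (N : ℝ) / r = N / (2 * r) + N / (2 * r) := by field_simp; ring
  have hcl2 : ∀ i, 2 ≤ (cl H c i).card := by
    intro i
    have h5 := (hszr i).2
    have h6 : (2 : ℝ) ≤ (cl H c i).card := by linarith
    exact_mod_cast h6
  have hdeg := abs_le.1 hFD.deg
  rw [hdgw] at hdeg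
  have hrest := hFD.rest
  have hsumR : ∑ v ∈ out H, (dg G H v : ℝ) = A.card + D1 := by
    exact_mod_cast congrArg (fun n : ℕ => (n : ℝ)) hsum
  rw [hsumR, hdgw, hE] at hrest
  push_cast at hrest
  have hmisR := hFD.mis
  rw [hM] at hmisR
  push_cast at hmisR
  have hPR : (D1 : ℝ) + E = r + P := by exact_mod_cast hP
  have hE0 : (0 : ℝ) ≤ E := Nat.cast_nonneg _
  have hP0 : (0 : ℝ) ≤ P := Nat.cast_nonneg _
  have hM0 : (0 : ℝ) ≤ M := Nat.cast_nonneg _
  have hPle : (P : ℝ) ≤ δ * N := by linarith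
  have hεN : δ * N ≤ ε / 4 * N := mul_le_mul_of_nonneg_right hδε hNpos.le
  have hj1 := hRg.1
  have hj2 := hRg.2
  have hMA : M ≤ A.card + P := by
    have h5 : (M : ℝ) ≤ A.card + P := by linarith
    exact_mod_cast h5
  obtain ⟨T, hT⟩ : ∃ T : ℕ, T + M = A.card + P := ⟨A.card + P - M, by omega⟩
  have hTR : (T : ℝ) + M = A.card + P := by exact_mod_cast hT
  have hrT : r ≤ T := by
    have h5 : (r : ℝ) ≤ T := by linarith
    exact_mod_cast h5
  have h2r : (0 : ℝ) ≤ 1 - 2 / r := by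
    have : 2 / (r : ℝ) ≤ 2 / 3 := div_le_div_of_nonneg_left (by norm_num) (by norm_num) hr3
    linarith
  have hal1 : (1 - 2 / (r : ℝ)) * al r * N ≤ (1 - 2 / r) * N := by
    apply mul_le_mul_of_nonneg_right _ hNpos.le
    exact mul_le_of_le_one_right h2r ha1.le
  have hN2r : (1 - 2 / (r : ℝ)) * N = N - 2 * (N / r) := by ring
  have hTle : T + (cl H c i0).card + 1 ≤ H.card := by
    rw [hFD.card]
    have h5 : (T : ℝ) + (cl H c i0).card + 1 ≤ N := by
      have := (hszr i0).1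
      linarith
    exact_mod_cast h5
  have hATle : A.card + (cl H c i0).card < H.card := by
    rw [hFD.card]
    have h5 : (A.card : ℝ) + (cl H c i0).card < N := by
      have := (hszr i0).1
      linarith
    exact_mod_cast h5
  obtain ⟨A', B, hA'H, hBH, hA'0, hB0, hA'ne, hB1, hBA, hA'c, hdiff⟩ :=
    sets H A c i0 T hAH hcl hcl2 hrT hTle hATle
  -- the vertex u
  obtain ⟨u, huH, huw⟩ : ∃ u, u ∉ H ∧ u ≠ w := by
    by_contra hno
    push Not at hno
    apply hncol
    refine ⟨SimpleGraph.Coloring.mk (fun v => if v ∈ H then c v else i0) ?_⟩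
    intro a b hab
    have hA0 : ∀ v ∈ H, G.Adj w v → c v ≠ i0 := by
      intro v hv hwv hcv
      have : v ∈ cl A c i0 := mem_cl.2 ⟨mem_nb.2 ⟨hv, hwv⟩, hcv⟩
      rw [hcl] at this
      simp at this
    by_cases haH : a ∈ H
    · by_cases hbH : b ∈ H
      · simp only [haH, hbH, if_true]
        exact fun hc => hFD.ind a haH b hbH hc hab
      · simp only [haH, hbH, if_true, if_false]
        have := hno b hbH
        subst this
        exact hA0 a haH hab.symm
    · by_cases hbH : b ∈ H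
      · simp only [haH, hbH, if_true, if_false]
        have := hno a haH
        subst this
        exact fun h => hA0 b hbH hab h.symm
      · exfalso
        have e1 := hno a haH
        have e2 := hno b hbH
        rw [e1, e2] at hab
        exact G.irrefl hab
  have hWE : WE (gE H c w u A' B) N H c w u A' B i0 :=
    gE_WE hFD.card hFD.hw huH huw.symm hA'H hBH hA'0 hB0 hA'ne hB1 hBA
  obtain ⟨g1, g2, g3⟩ := h1 r hr V _ N H c w u A' B i0 hWE
  have hpE : pE (gE H c w u A' B) = pE G := by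
    rw [g3, h3 r V G c H hFD.ind, hsumR, hFD.card, hA'c, hM, hE]
    push_cast
    linarith
  have hle : specRad (gE H c w u A' B) ≤ lam := by
    rw [hFD.pv.rad]
    exact hMX _ g1 (g2 fun i => le_trans (by norm_num) (hcl2 i)) hpE
  have hray := rayleigh (gE H c w u A' B) x
  rw [hFD.pv.unit, mul_one] at hray
  have hform := hFD.pv.form
  have hxn := hFD.pv.nn
  have hlow := lower (gE H c w u A' B) H A' c w x hxn hFD.hw hA'H
    (fun a b ha hb hab => (hWE.adj a b).2 (Or.inl ⟨ha, hb, hab⟩))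
    (fun b hb => (hWE.adj w b).2 (Or.inr (Or.inl ⟨rfl, hb⟩)))
  -- normalised eigenvector
  set q : ℝ := √N with hq
  have hq0 : 0 < q := Real.sqrt_pos.2 hNpos
  have hqq : q * q = N := Real.mul_self_sqrt hNpos.le
  have hprod : ∀ a b, x a * x b = (x a * q) * (x b * q) / N := by
    intro a b
    rw [eq_div_iff hNpos.ne', ← hqq]; ring
  have hyn : ∀ a, 0 ≤ x a * q := fun a => mul_nonneg (hxn a) hq0.le
  set X : ℝ := j / (al r * N) with hX
  have hX1 : e ≤ X := by
    refine (min_le_left _ _).trans ?_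
    rw [hX, le_div_iff₀ (by positivity)]
    have : ε * (al r * N) ≤ ε * N := by
      apply mul_le_mul_of_nonneg_left _ hε.le
      exact mul_le_of_le_one_left hNpos.le ha1.le
    linarith
  have hX2 : e ≤ 1 - X := by
    refine (min_le_right _ _).trans ?_
    have h5 : X ≤ 1 - 2 / r := by
      rw [hX, div_le_iff₀ (by positivity)]
      have : 0 ≤ ε * N := by positivity
      linarith
    linarith
  have hyw := hFD.xw
  have hyw' := abs_le.1 hyw
  have hyw2 : x w * q ≤ 2 := by linarith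
  have hup := upper G H c w x ((1 - δ) ^ 2 / N) (2 * δ / N) hFD.hw hFD.ind
    (by
      intro a ha b hb
      rw [hprod]
      apply div_le_div_of_nonneg_right _ hNpos.le
      have e1 := (abs_le.1 (hFD.xH a ha)).1
      have e2 := (abs_le.1 (hFD.xH b hb)).1
      rw [sq]
      exact mul_le_mul (by linarith) (by linarith) (by linarith) (by linarith))
    (by
      intro a ha haw b hb
      rw [hprod]
      apply div_le_div_of_nonneg_right _ hNpos.le
      have e1 := hFD.xo a ha haw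
      have e2 := (abs_le.1 (hFD.xH b hb)).2
      have e3 : x a * q * (x b * q) ≤ δ * 2 :=
        mul_le_mul e1 (by linarith) (hyn b) hδ0.le
      linarith)
    (by
      intro a ha b hb hab
      rw [hprod]
      apply div_le_div_of_nonneg_right _ hNpos.le
      have hle2 : ∀ v, v ∉ H → x v * q ≤ 2 := by
        intro v hv
        by_cases hvw : v = w
        · rw [hvw]; exact hyw2
        · have := hFD.xo v hv hvw
          linarith
      by_cases haw : a = w
      · have hbw : b ≠ w := fun h => hab (haw.trans h.symm)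
        have e1 := hFD.xo b hb hbw
        have e3 : x a * q * (x b * q) ≤ 2 * δ :=
          mul_le_mul (hle2 a ha) e1 (hyn b) (by norm_num)
        linarith
      · have e1 := hFD.xo a ha haw
        have e3 : x a * q * (x b * q) ≤ δ * 2 :=
          mul_le_mul e1 (hle2 b hb) (hyn b) hδ0.le
        linarith)
  have hD1R : ∑ a ∈ (out H).erase w, (dg G H a : ℝ) = D1 := by
    rw [hD1, Nat.cast_sum]
  rw [hD1R, hM, hE, ← hA] at hup
  push_cast at hup
  have hmain : 2 * (x w * ∑ b ∈ A', x b) - 2 * (x w * ∑ b ∈ A, x b)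
      + (M + M) * ((1 - δ) ^ 2 / N) - (2 * D1 + (E + E)) * (2 * δ / N) ≤ 0 := by
    linarith
  have hDsum : N * (x w * ∑ b ∈ A', x b) - N * (x w * ∑ b ∈ A, x b) =
      (x w * q) * (∑ b ∈ A', x b * q - ∑ b ∈ A, x b * q) := by
    rw [← Finset.sum_mul, ← Finset.sum_mul, ← hqq]
    ring
  have hsd := sumdiff A A' (fun v => x v * q) δ (fun v hv => hFD.xH v (hAH hv))
    (fun v hv => hFD.xH v (hA'H hv))
  have hfinal := fin (X := X) (δ := δ) (yw := x w * q)
    (D := ∑ b ∈ A', x b * q - ∑ b ∈ A, x b * q)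
    (s := (A' \ A).card + (A \ A').card) (P := P) (M := M) (r := r) (e := e) hyw (hyn w) hyw2
    (by
      have e1 : (A'.card : ℝ) - A.card = P - M := by rw [hA'c]; linarith
      rw [e1] at hsd
      exact hsd)
    (by positivity)
    (by
      have e1 : (A' \ A).card + (A \ A').card ≤ P + M + 2 * r := by omega
      exact_mod_cast e1)
    hP0 hM0 (by exact_mod_cast hPM) hδ0.le hr3 hX1 hX2 hδe
  have hmul := mul_le_mul_of_nonneg_left hmain hNpos.le
  rw [mul_zero] at hmul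
  have e5 : (N : ℝ) * (2 * (x w * ∑ b ∈ A', x b) - 2 * (x w * ∑ b ∈ A, x b)
      + (M + M) * ((1 - δ) ^ 2 / N) - (2 * D1 + (E + E)) * (2 * δ / N)) =
      2 * (N * (x w * ∑ b ∈ A', x b) - N * (x w * ∑ b ∈ A, x b)) + 2 * M * (1 - δ) ^ 2
        - 2 * (D1 + E) * (2 * δ) := by
    field_simp
    ring
  rw [e5, hDsum, hPR] at hmul
  linarith

end Pool.Agent.Work.MP_5532fa_up
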