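import Pool.Agent.Work.MP_5532fa_up.Interface2
import Pool.Agent.Work.MP_5532fa_up.B1C

open Finset

namespace Pool.Agent.Work.MP_5532fa_up

open MP5532fa (specRad qf pE)
open B1C in
theorem blk_B1C2 (h1 : Stmt_GE) (h2 : Stmt_LC) (h3 : Stmt_EID) (h4 : Stmt_EVN) : Stmt_B1C2 := by
  classical
  intro r ε hr hε
  have hr3 : (3 : ℝ) ≤ r := by exact_mod_cast hr
  have hr0 : (0 : ℝ) < r := by linarith
  set e : ℝ := min ε (2 / r) with he
  have he0 : 0 < e := by positivity
  set δ : ℝ := min (min (ε / 4) (1 / (2 * r))) (e / (10 + 12 * r)) with hδ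
  have hδ0 : 0 < δ := by positivity
  have hδε : δ ≤ ε / 4 := (min_le_left _ _).trans (min_le_left _ _)
  have hδr : δ ≤ 1 / (2 * r) := (min_le_left _ _).trans (min_le_right _ _)
  have hδe : δ * (10 + 12 * r) < 2 * e := by
    have h5 : δ ≤ e / (10 + 12 * r) := min_le_right _ _
    rw [le_div_iff₀ (by positivity)] at h5
    linarith
  have hδ1 : δ ≤ 1 / 4 := by
    refine hδr.trans ?_
    rw [div_le_div_iff₀ (by positivity) (by norm_num)]
    linarith
  obtain ⟨N0, hN0⟩ := exists_nat_ge (2 * r / ε + 4 * r + 1)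
  refine ⟨δ, N0, hδ0, ?_⟩
  intro N hN j hRg V _ G x lam c H w i0 hFD hfree hncol hMX hcl
  have hNr : 2 * r / ε + 4 * r + 1 ≤ (N : ℝ) := hN0.trans (by exact_mod_cast hN)
  have hNpos : (0 : ℝ) < N := by
    have : 0 < 2 * (r : ℝ) / ε := by positivity
    linarith
  have hNε : (r : ℝ) ≤ ε / 2 * N := by
    have h5 : 2 * r / ε ≤ (N : ℝ) := by linarith
    rw [div_le_iff₀ hε] at h5
    linarith
  have hN4 : 4 * (r : ℝ) ≤ N := by
    have : 0 < 2 * (r : ℝ) / ε := by positivity
    linarith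
  have hNr2 : 2 ≤ (N : ℝ) / (2 * r) := by
    rw [le_div_iff₀ (by positivity)]; linarith
  have ha := al_ge hr
  have ha1 := al_lt hr
  have ha0 : 0 < al r := by linarith
  have hV := hFD.pv.nonempty
  set A := nb G H w with hA
  have hAH : A ⊆ H := fun v hv => (mem_nb.1 hv).1
  have hwout : w ∈ out H := mem_out.2 hFD.hw
  set D1 : ℕ := ∑ a ∈ (out H).erase w, dg G H a with hD1
  have hdgw : dg G H w = A.card := rfl
  have hsum : ∑ v ∈ out H, dg G H v = A.card + D1 := by
    rw [← Finset.add_sum_erase _ _ hwout, hdgw]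
  obtain ⟨hQ, hfin⟩ := h2 r hr V G c H A w i0 (2 * D1 + eu G H) hfree hncol hFD.ind hFD.hw rfl hcl
    (by rw [hsum]; ring)
  by_cases hc : mis G H c = 0 ∧ 2 * D1 + eu G H = 2 * r
  · obtain ⟨u, B, i1, hWE⟩ := hfin hc.1 hc.2
    rw [hFD.card] at hWE
    exact ⟨u, B, i1, hWE⟩
  exfalso
  obtain ⟨⟨M, hM⟩, ⟨E, hE⟩⟩ := h4 r V G c H
  obtain ⟨P, hP⟩ : ∃ P : ℕ, D1 + E = r + P := ⟨D1 + E - r, by omega⟩
  have hPM : 1 ≤ P + M := by
    by_contra hcon
    apply hc
    omega
  -- sizes
  have hszr : ∀ i, ((cl H c i).card : ℝ) ≤ N / r + δ * N ∧ N / r - δ * N ≤ (cl H c i).card := by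
    intro i
    have h5 := abs_le.1 (hFD.bal i)
    unfold sz at h5
    constructor <;> linarith
  have hδN : δ * N ≤ N / (2 * r) := by
    calc δ * N ≤ 1 / (2 * r) * N := mul_le_mul_of_nonneg_right hδr hNpos.le
      _ = N / (2 * r) := by ring
  have hhalf : (N : ℝ) / r = N / (2 * r) + N / (2 * r) := by field_simp; ring
  have hcl2 : ∀ i, 2 ≤ (cl H c i).card := by
    intro i
    have h5 := (hszr i).2
    have h6 : (2 : ℝ) ≤ (cl H c i).card := by linarith
    exact_mod_cast h6
  have hdeg := abs_le.1 hFD.deg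
  rw [hdgw] at hdeg
  have hrest := hFD.rest
  have hsumR : ∑ v ∈ out H, (dg G H v : ℝ) = A.card + D1 := by
    exact_mod_cast congrArg (fun n : ℕ => (n : ℝ)) hsum
  rw [hsumR, hdgw, hE] at hrest
  push_cast at hrest
  have hmisR := hFD.mis
  rw [hM] at hmisR
  push_cast at hmisR
  have hPR : (D1 : ℝ) + E = r + P := by exact_mod_cast hP
  have hE0 : (0 : ℝ) ≤ E := Nat.cast_nonneg _
  have hP0 : (0 : ℝ) ≤ P := Nat.cast_nonneg _
  have hM0 : (0 : ℝ) ≤ M := Nat.cast_nonneg _
  have hPle : (P : ℝ) ≤ δ * N := by linarith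
  have hεN : δ * N ≤ ε / 4 * N := mul_le_mul_of_nonneg_right hδε hNpos.le
  have hj1 := hRg.1
  have hj2 := hRg.2
  have hMA : M ≤ A.card + P := by
    have h5 : (M : ℝ) ≤ A.card + P := by linarith
    exact_mod_cast h5
  obtain ⟨T, hT⟩ : ∃ T : ℕ, T + M = A.card + P := ⟨A.card + P - M, by omega⟩
  have hTR : (T : ℝ) + M = A.card + P := by exact_mod_cast hT
  have hrT : r ≤ T := by
    have h5 : (r : ℝ) ≤ T := by linarith
    exact_mod_cast h5
  have h2r : (0 : ℝ) ≤ 1 - 2 / r := by
    have : 2 / (r : ℝ) ≤ 2 / 3 := div_le_div_of_nonneg_left (by norm_num) (by norm_num) hr3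
    linarith
  have hal1 : (1 - 2 / (r : ℝ)) * al r * N ≤ (1 - 2 / r) * N := by
    apply mul_le_mul_of_nonneg_right _ hNpos.le
    exact mul_le_of_le_one_right h2r ha1.le
  have hN2r : (1 - 2 / (r : ℝ)) * N = N - 2 * (N / r) := by ring
  have hTle : T + (cl H c i0).card + 1 ≤ H.card := by
    rw [hFD.card]
    have h5 : (T : ℝ) + (cl H c i0).card + 1 ≤ N := by
      have := (hszr i0).1
      linarith
    exact_mod_cast h5
  have hATle : A.card + (cl H c i0).card < H.card := by
    rw [hFD.card]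
    have h5 : (A.card : ℝ) + (cl H c i0).card < N := by
      have := (hszr i0).1
      linarith
    exact_mod_cast h5
  obtain ⟨A', B, hA'H, hBH, hA'0, hB0, hA'ne, hB1, hBA, hA'c, hdiff⟩ :=
    sets H A c i0 T hAH hcl hcl2 hrT hTle hATle
  -- the vertex u
  obtain ⟨u, huH, huw⟩ : ∃ u, u ∉ H ∧ u ≠ w := by
    by_contra hno
    push Not at hno
    apply hncol
    refine ⟨SimpleGraph.Coloring.mk (fun v => if v ∈ H then c v else i0) ?_⟩
    intro a b hab
    have hA0 : ∀ v ∈ H, G.Adj w v → c v ≠ i0 := by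
      intro v hv hwv hcv
      have : v ∈ cl A c i0 := mem_cl.2 ⟨mem_nb.2 ⟨hv, hwv⟩, hcv⟩
      rw [hcl] at this
      simp at this
    by_cases haH : a ∈ H
    · by_cases hbH : b ∈ H
      · simp only [haH, hbH, if_true]
        exact fun hc => hFD.ind a haH b hbH hc hab
      · simp only [haH, hbH, if_true, if_false]
        have := hno b hbH
        subst this
        exact hA0 a haH hab.symm
    · by_cases hbH : b ∈ H
      · simp only [haH, hbH, if_true, if_false]
        have := hno a haH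
        subst this
        exact fun h => hA0 b hbH hab h.symm
      · exfalso
        have e1 := hno a haH
        have e2 := hno b hbH
        rw [e1, e2] at hab
        exact G.irrefl hab
  have hWE : WE (gE H c w u A' B) N H c w u A' B i0 :=
    gE_WE hFD.card hFD.hw huH huw.symm hA'H hBH hA'0 hB0 hA'ne hB1 hBA
  obtain ⟨g1, g2, g3⟩ := h1 r hr V _ N H c w u A' B i0 hWE
  have hpE : pE (gE H c w u A' B) = pE G := by
    rw [g3, h3 r V G c H hFD.ind, hsumR, hFD.card, hA'c, hM, hE]
    push_cast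
    linarith
  have hle : specRad (gE H c w u A' B) ≤ lam := by
    rw [hFD.pv.rad]
    exact hMX _ g1 (g2 fun i => le_trans (by norm_num) (hcl2 i)) hpE
  have hray := rayleigh (gE H c w u A' B) x
  rw [hFD.pv.unit, mul_one] at hray
  have hform := hFD.pv.form
  have hxn := hFD.pv.nn
  have hlow := lower (gE H c w u A' B) H A' c w x hxn hFD.hw hA'H
    (fun a b ha hb hab => (hWE.adj a b).2 (Or.inl ⟨ha, hb, hab⟩))
    (fun b hb => (hWE.adj w b).2 (Or.inr (Or.inl ⟨rfl, hb⟩)))
  -- normalised eigenvector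
  set q : ℝ := √N with hq
  have hq0 : 0 < q := Real.sqrt_pos.2 hNpos
  have hqq : q * q = N := Real.mul_self_sqrt hNpos.le
  have hprod : ∀ a b, x a * x b = (x a * q) * (x b * q) / N := by
    intro a b
    rw [eq_div_iff hNpos.ne', ← hqq]; ring
  have hyn : ∀ a, 0 ≤ x a * q := fun a => mul_nonneg (hxn a) hq0.le
  set X : ℝ := j / (al r * N) with hX
  have hX1 : e ≤ X := by
    refine (min_le_left _ _).trans ?_
    rw [hX, le_div_iff₀ (by positivity)]
    have : ε * (al r * N) ≤ ε * N := by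
      apply mul_le_mul_of_nonneg_left _ hε.le
      exact mul_le_of_le_one_left hNpos.le ha1.le
    linarith
  have hX2 : e ≤ 1 - X := by
    refine (min_le_left _ _).trans ?_
    have h5 : X ≤ 1 - ε := by
      rw [hX, div_le_iff₀ (by positivity)]
      refine hj2.trans ?_
      have h6 : (1 - ε) * (al r * N) = (al r - ε * al r) * N := by ring
      rw [h6]
      apply mul_le_mul_of_nonneg_right _ hNpos.le
      have h7 : ε * al r ≤ ε * 1 := mul_le_mul_of_nonneg_left ha1.le hε.le
      have h8 : al r = 1 - 1 / r := rfl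
      have h9 : (0 : ℝ) < 1 / r := by positivity
      have h10 : 2 / (r : ℝ) = 1 / r + 1 / r := by ring
      linarith
    linarith
  have hyw := hFD.xw
  have hyw' := abs_le.1 hyw
  have hyw2 : x w * q ≤ 2 := by linarith
  have hup := upper G H c w x ((1 - δ) ^ 2 / N) (2 * δ / N) hFD.hw hFD.ind
    (by
      intro a ha b hb
      rw [hprod]
      apply div_le_div_of_nonneg_right _ hNpos.le
      have e1 := (abs_le.1 (hFD.xH a ha)).1
      have e2 := (abs_le.1 (hFD.xH b hb)).1
      rw [sq]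
      exact mul_le_mul (by linarith) (by linarith) (by linarith) (by linarith))
    (by
      intro a ha haw b hb
      rw [hprod]
      apply div_le_div_of_nonneg_right _ hNpos.le
      have e1 := hFD.xo a ha haw
      have e2 := (abs_le.1 (hFD.xH b hb)).2
      have e3 : x a * q * (x b * q) ≤ δ * 2 :=
        mul_le_mul e1 (by linarith) (hyn b) hδ0.le
      linarith)
    (by
      intro a ha b hb hab
      rw [hprod]
      apply div_le_div_of_nonneg_right _ hNpos.le
      have hle2 : ∀ v, v ∉ H → x v * q ≤ 2 := by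
        intro v hv
        by_cases hvw : v = w
        · rw [hvw]; exact hyw2
        · have := hFD.xo v hv hvw
          linarith
      by_cases haw : a = w
      · have hbw : b ≠ w := fun h => hab (haw.trans h.symm)
        have e1 := hFD.xo b hb hbw
        have e3 : x a * q * (x b * q) ≤ 2 * δ :=
          mul_le_mul (hle2 a ha) e1 (hyn b) (by norm_num)
        linarith
      · have e1 := hFD.xo a ha haw
        have e3 : x a * q * (x b * q) ≤ δ * 2 :=
          mul_le_mul e1 (hle2 b hb) (hyn b) hδ0.le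
        linarith)
  have hD1R : ∑ a ∈ (out H).erase w, (dg G H a : ℝ) = D1 := by
    rw [hD1, Nat.cast_sum]
  rw [hD1R, hM, hE, ← hA] at hup
  push_cast at hup
  have hmain : 2 * (x w * ∑ b ∈ A', x b) - 2 * (x w * ∑ b ∈ A, x b)
      + (M + M) * ((1 - δ) ^ 2 / N) - (2 * D1 + (E + E)) * (2 * δ / N) ≤ 0 := by
    linarith
  have hDsum : N * (x w * ∑ b ∈ A', x b) - N * (x w * ∑ b ∈ A, x b) =
      (x w * q) * (∑ b ∈ A', x b * q - ∑ b ∈ A, x b * q) := by
    rw [← Finset.sum_mul, ← Finset.sum_mul, ← hqq]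
    ring
  have hsd := sumdiff A A' (fun v => x v * q) δ (fun v hv => hFD.xH v (hAH hv))
    (fun v hv => hFD.xH v (hA'H hv))
  have hfinal := fin (X := X) (δ := δ) (yw := x w * q)
    (D := ∑ b ∈ A', x b * q - ∑ b ∈ A, x b * q)
    (s := (A' \ A).card + (A \ A').card) (P := P) (M := M) (r := r) (e := e) hyw (hyn w) hyw2
    (by
      have e1 : (A'.card : ℝ) - A.card = P - M := by rw [hA'c]; linarith
      rw [e1] at hsd
      exact hsd)
    (by positivity)
    (by
      have e1 : (A' \ A).card + (A \ A').card ≤ P + M + 2 * r := by omega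
      exact_mod_cast e1)
    hP0 hM0 (by exact_mod_cast hPM) hδ0.le hr3 hX1 hX2 hδe
  have hmul := mul_le_mul_of_nonneg_left hmain hNpos.le
  rw [mul_zero] at hmul
  have e5 : (N : ℝ) * (2 * (x w * ∑ b ∈ A', x b) - 2 * (x w * ∑ b ∈ A, x b)
      + (M + M) * ((1 - δ) ^ 2 / N) - (2 * D1 + (E + E)) * (2 * δ / N)) =
      2 * (N * (x w * ∑ b ∈ A', x b) - N * (x w * ∑ b ∈ A, x b)) + 2 * M * (1 - δ) ^ 2
        - 2 * (D1 + E) * (2 * δ) := by
    field_simp
    ring
  rw [e5, hDsum, hPR] at hmul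
  linarith

end Pool.Agent.Work.MP_5532fa_up
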