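import Pool.Agent.Work.MP_5532fa_up.Interface

/-!
# MP_5532fa_co, upgrade: block B1U (fine data, `w` has neighbours in all classes)
-/

open Finset

namespace Pool.Agent.Work.MP_5532fa_up

open MP5532fa (specRad qf pE)

namespace B1U

theorem chi_and (p q : Prop) : chi (p ∧ q) = chi p * chi q := by
  by_cases hp : p
  · by_cases hq : q
    · rw [chi_pos ⟨hp, hq⟩, chi_pos hp, chi_pos hq, mul_one]
    · rw [chi_neg (fun h => hq h.2), chi_neg hq, mul_zero]
  · rw [chi_neg (fun h => hp h.1), chi_neg hp, zero_mul]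

theorem sum_chi_mem {W : Type} [Fintype W] (S : Finset W) : ∑ b, chi (b ∈ S) = (S.card : ℝ) := by
  classical
  have h1 : ∀ b : W, chi (b ∈ S) = if b ∈ S then (1 : ℝ) else 0 := by
    intro b
    by_cases hb : b ∈ S
    · rw [chi_pos hb, if_pos hb]
    · rw [chi_neg hb, if_neg hb]
  rw [Finset.sum_congr rfl (fun b _ => h1 b)]
  rw [Finset.sum_ite_mem, Finset.univ_inter, Finset.sum_const, nsmul_eq_mul, mul_one]

theorem sum_chi_mul {W : Type} [Fintype W] (S : Finset W) (f : W → ℝ) :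
    ∑ b, chi (b ∈ S) * f b = ∑ b ∈ S, f b := by
  classical
  have h1 : ∀ b : W, chi (b ∈ S) * f b = if b ∈ S then f b else 0 := by
    intro b
    by_cases hb : b ∈ S
    · rw [chi_pos hb, if_pos hb, one_mul]
    · rw [chi_neg hb, if_neg hb, zero_mul]
  rw [Finset.sum_congr rfl (fun b _ => h1 b), Finset.sum_ite_mem, Finset.univ_inter]

theorem sum_chi_pt {W : Type} [Fintype W] (a : W) (f : W → ℝ) :
    ∑ b, chi (b = a) * f b = f a := by
  classical
  rw [Finset.sum_eq_single a]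
  · rw [chi_pos rfl, one_mul]
  · intro b _ hb; rw [chi_neg hb, zero_mul]
  · intro h0; exact absurd (Finset.mem_univ _) h0

section
variable {V : Type} [Fintype V] {r : ℕ}

theorem mis_sum (G : SimpleGraph V) (H : Finset V) (c : V → Fin r) :
    ∑ a, ∑ b, chi (a ∈ H ∧ b ∈ H ∧ c a ≠ c b ∧ ¬ G.Adj a b) = (mis G H c : ℝ) := by
  classical
  unfold mis
  rw [← sum_chi_mem, Fintype.sum_prod_type]
  refine Finset.sum_congr rfl fun a _ => Finset.sum_congr rfl fun b _ => ?_
  refine chi_congr ?_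
  rw [Finset.mem_filter, Finset.mem_product, and_assoc]

theorem eu_sum (G : SimpleGraph V) (H : Finset V) :
    ∑ a, ∑ b, chi (G.Adj a b ∧ a ∉ H ∧ b ∉ H) = (eu G H : ℝ) := by
  classical
  unfold eu
  rw [← sum_chi_mem, Fintype.sum_prod_type]
  refine Finset.sum_congr rfl fun a _ => Finset.sum_congr rfl fun b _ => ?_
  refine chi_congr ?_
  rw [Finset.mem_filter]
  exact ⟨fun h => ⟨Finset.mem_univ _, h⟩, fun h => h.2⟩

theorem dg_sum (G : SimpleGraph V) (H : Finset V) (v : V) :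
    ∑ b, chi (b ∈ H ∧ G.Adj v b) = (dg G H v : ℝ) := by
  classical
  unfold dg
  rw [← sum_chi_mem]
  exact Finset.sum_congr rfl fun b _ => chi_congr mem_nb.symm

theorem out_sum (G : SimpleGraph V) (H : Finset V) (w : V) (hw : w ∉ H) :
    ∑ a, ∑ b, chi (a ∉ H ∧ a ≠ w) * chi (b ∈ H ∧ G.Adj a b)
      = ∑ v ∈ out H, (dg G H v : ℝ) - dg G H w := by
  classical
  have h1 : ∀ a : V, ∑ b, chi (a ∉ H ∧ a ≠ w) * chi (b ∈ H ∧ G.Adj a b)
      = chi (a ∈ out H) * (dg G H a : ℝ) - chi (a = w) * (dg G H a : ℝ) := by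
    intro a
    rw [← Finset.mul_sum, dg_sum]
    by_cases haw : a = w
    · subst haw
      rw [chi_neg (fun h => h.2 rfl), chi_pos (mem_out.mpr hw), chi_pos rfl]; ring
    · rw [chi_neg haw, zero_mul, sub_zero]
      congr 1
      refine chi_congr ?_
      rw [mem_out]
      exact ⟨fun h => h.1, fun h => ⟨h, haw⟩⟩
  rw [Finset.sum_congr rfl (fun a _ => h1 a), Finset.sum_sub_distrib, sum_chi_mul, sum_chi_pt]

open Classical in
omit [Fintype V] in
/-- construction of the new neighbourhood -/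
theorem mkA (H A : Finset V) (c : V → Fin r) (i0 i1 : Fin r) (v1 v2 : V) (hA : A ⊆ H)
    (h01 : i0 ≠ i1) (hv1 : v1 ∈ cl A c i0) (hv2 : v2 ∈ cl A c i1)
    (hne : ∀ i, (cl A c i).Nonempty) (M Q b : ℕ) (h0 : (cl A c i0).card ≤ M)
    (h1 : (cl A c i1).card ≤ M) (hb : b + 1 + M = A.card + Q) (hr : r ≤ b + 2)
    (hroom : b + (cl H c i0).card + (cl H c i1).card ≤ H.card) :
    ∃ A' : Finset V, A' ⊆ H ∧ cl A' c i0 = {v1} ∧ cl A' c i1 = {v2} ∧
      (∀ i, (cl A' c i).Nonempty) ∧ A'.card + M = A.card + 1 + Q ∧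
      (A'.card : ℤ) - A.card = ((A'.filter (fun v => v ∉ A)).card : ℤ)
        - (A.filter (fun v => v ∉ A')).card ∧
      (A'.filter (fun v => v ∉ A)).card + (A.filter (fun v => v ∉ A')).card + 3 ≤ 3 * M + Q := by
  classical
  have key : ∀ S : Finset V, (S.filter (fun v => c v ≠ i0 ∧ c v ≠ i1)).card
      + (cl S c i0).card + (cl S c i1).card = S.card := by
    intro S
    have e1 := Finset.card_filter_add_card_filter_not (s := S) (fun v => c v = i0)
    have e2 := Finset.card_filter_add_card_filter_not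
      (s := S.filter (fun v => ¬ c v = i0)) (fun v => c v = i1)
    have e3 : (S.filter (fun v => ¬ c v = i0)).filter (fun v => c v = i1) = cl S c i1 := by
      ext v
      rw [Finset.mem_filter, Finset.mem_filter, mem_cl]
      constructor
      · rintro ⟨⟨hS, _⟩, hi⟩; exact ⟨hS, hi⟩
      · rintro ⟨hS, hi⟩; exact ⟨⟨hS, fun h => h01 (h.symm.trans hi)⟩, hi⟩
    have e4 : (S.filter (fun v => ¬ c v = i0)).filter (fun v => ¬ c v = i1)
        = S.filter (fun v => c v ≠ i0 ∧ c v ≠ i1) := by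
      ext v
      rw [Finset.mem_filter, Finset.mem_filter, Finset.mem_filter, and_assoc]
    rw [e3, e4] at e2
    have e5 : (S.filter (fun v => c v = i0)).card = (cl S c i0).card := rfl
    omega
  have keyA := key A
  have keyH := key H
  set B := A.filter (fun v => c v ≠ i0 ∧ c v ≠ i1) with hBdef
  set R := H.filter (fun v => c v ≠ i0 ∧ c v ≠ i1) with hRdef
  have hBR : B ⊆ R := by
    intro v hv
    rw [hBdef, Finset.mem_filter] at hv
    rw [hRdef, Finset.mem_filter]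
    exact ⟨hA hv.1, hv.2⟩
  choose ρ hρ using fun i => hne i
  have hρA : ∀ i, ρ i ∈ A := fun i => (mem_cl.mp (hρ i)).1
  have hρc : ∀ i, c (ρ i) = i := fun i => (mem_cl.mp (hρ i)).2
  set T := (((univ : Finset (Fin r)).erase i0).erase i1).image ρ with hTdef
  have hTcard : T.card ≤ b := by
    have e1 : T.card ≤ (((univ : Finset (Fin r)).erase i0).erase i1).card := Finset.card_image_le
    have e2 : (((univ : Finset (Fin r)).erase i0).erase i1).card + 2 = r := by
      have e3 := Finset.card_erase_add_one (s := (univ : Finset (Fin r))) (a := i0)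
        (Finset.mem_univ _)
      have e4 := Finset.card_erase_add_one (s := (univ : Finset (Fin r)).erase i0) (a := i1)
        (Finset.mem_erase.mpr ⟨h01.symm, Finset.mem_univ _⟩)
      rw [Finset.card_univ, Fintype.card_fin] at e3
      omega
    omega
  have hTB : T ⊆ B := by
    intro v hv
    rw [hTdef, Finset.mem_image] at hv
    obtain ⟨i, hi, rfl⟩ := hv
    rw [Finset.mem_erase, Finset.mem_erase] at hi
    rw [hBdef, Finset.mem_filter, hρc]
    exact ⟨hρA i, hi.2.1, hi.1⟩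
  have hB' : ∃ B' : Finset V, T ⊆ B' ∧ B' ⊆ R ∧ B'.card = b ∧
      ((B.card ≤ b ∧ B ⊆ B') ∨ (b ≤ B.card ∧ B' ⊆ B)) := by
    rcases le_total B.card b with h | h
    · obtain ⟨B', h3, h4, h5⟩ := Finset.exists_subsuperset_card_eq hBR h (by omega)
      exact ⟨B', hTB.trans h3, h4, h5, Or.inl ⟨h, h3⟩⟩
    · obtain ⟨B', h3, h4, h5⟩ := Finset.exists_subsuperset_card_eq hTB hTcard h
      exact ⟨B', h3, h4.trans hBR, h5, Or.inr ⟨h, h4⟩⟩
  obtain ⟨B', hTB', hB'R, hB'c, hcase⟩ := hB'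
  rw [mem_cl] at hv1 hv2
  have hv12 : v1 ≠ v2 := by
    rintro rfl
    exact h01 (hv1.2.symm.trans hv2.2)
  have hB'0 : ∀ v ∈ B', v ∈ H ∧ c v ≠ i0 ∧ c v ≠ i1 := by
    intro v hv
    have := hB'R hv
    rw [hRdef, Finset.mem_filter] at this
    exact this
  have hv1B : v1 ∉ B' := fun h => (hB'0 v1 h).2.1 hv1.2
  have hv2B : v2 ∉ B' := fun h => (hB'0 v2 h).2.2 hv2.2
  have hv1' : v1 ∉ insert v2 B' := by
    rw [Finset.mem_insert]
    rintro (h | h)
    · exact hv12 h
    · exact hv1B h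
  have hcardA' : (insert v1 (insert v2 B')).card = b + 2 := by
    rw [Finset.card_insert_of_notMem hv1', Finset.card_insert_of_notMem hv2B, hB'c]
  have hdiff : ((insert v1 (insert v2 B')).filter (fun v => v ∉ A)).card
      ≤ (B'.filter (fun v => v ∉ B)).card := by
    refine Finset.card_le_card ?_
    intro v hv
    rw [Finset.mem_filter, Finset.mem_insert, Finset.mem_insert] at hv
    obtain ⟨hv, hvA⟩ := hv
    rcases hv with rfl | rfl | hv
    · exact absurd hv1.1 hvA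
    · exact absurd hv2.1 hvA
    · rw [Finset.mem_filter]
      refine ⟨hv, fun h => hvA ?_⟩
      rw [hBdef, Finset.mem_filter] at h
      exact h.1
  have hdiff2 : (A.filter (fun v => v ∉ insert v1 (insert v2 B'))).card
      ≤ (B.filter (fun v => v ∉ B')).card + (((cl A c i0).erase v1).card
        + ((cl A c i1).erase v2).card) := by
    refine (Finset.card_le_card (t := (B.filter (fun v => v ∉ B')) ∪ (((cl A c i0).erase v1)
        ∪ ((cl A c i1).erase v2))) ?_).trans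
      ((Finset.card_union_le _ _).trans (Nat.add_le_add_left (Finset.card_union_le _ _) _))
    intro v hv
    rw [Finset.mem_filter, Finset.mem_insert, Finset.mem_insert] at hv
    obtain ⟨hvA, hv⟩ := hv
    rw [Finset.mem_union, Finset.mem_union, Finset.mem_erase, Finset.mem_erase, mem_cl, mem_cl,
      Finset.mem_filter, hBdef, Finset.mem_filter]
    by_cases h3 : c v = i0
    · exact Or.inr (Or.inl ⟨fun h => hv (Or.inl h), hvA, h3⟩)
    · by_cases h4 : c v = i1
      · exact Or.inr (Or.inr ⟨fun h => hv (Or.inr (Or.inl h)), hvA, h4⟩)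
      · exact Or.inl ⟨⟨hvA, h3, h4⟩, fun h => hv (Or.inr (Or.inr h))⟩
  have hsplit : ∀ S S' : Finset V, (S'.card : ℤ) - S.card
      = ((S'.filter (fun v => v ∉ S)).card : ℤ) - (S.filter (fun v => v ∉ S')).card := by
    intro S S'
    have e1 := Finset.card_filter_add_card_filter_not (s := S) (fun v => v ∈ S')
    have e2 := Finset.card_filter_add_card_filter_not (s := S') (fun v => v ∈ S)
    have e3 : S.filter (fun v => v ∈ S') = S'.filter (fun v => v ∈ S) := by
      ext v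
      rw [Finset.mem_filter, Finset.mem_filter, and_comm]
    rw [e3] at e1
    omega
  have hBB : (B'.filter (fun v => v ∉ B)).card + (B.filter (fun v => v ∉ B')).card
      + 2 * min b B.card = b + B.card := by
    have e0 := hsplit B B'
    rcases hcase with ⟨h3, h4⟩ | ⟨h3, h4⟩
    · have e1 : B.filter (fun v => v ∉ B') = ∅ := by
        rw [Finset.filter_eq_empty_iff]
        intro v hv hv'
        exact hv' (h4 hv)
      rw [e1, Finset.card_empty, hB'c] at e0
      rw [e1, Finset.card_empty, min_eq_right h3]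
      omega
    · have e1 : B'.filter (fun v => v ∉ B) = ∅ := by
        rw [Finset.filter_eq_empty_iff]
        intro v hv hv'
        exact hv' (h4 hv)
      rw [e1, Finset.card_empty, hB'c] at e0
      rw [e1, Finset.card_empty, min_eq_left h3]
      omega
  have e0 : ((cl A c i0).erase v1).card + 1 = (cl A c i0).card :=
    Finset.card_erase_add_one (mem_cl.mpr hv1)
  have e1 : ((cl A c i1).erase v2).card + 1 = (cl A c i1).card :=
    Finset.card_erase_add_one (mem_cl.mpr hv2)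
  refine ⟨insert v1 (insert v2 B'), ?_, ?_, ?_, ?_, ?_, ?_, ?_⟩
  · intro v hv
    rw [Finset.mem_insert, Finset.mem_insert] at hv
    rcases hv with rfl | rfl | hv
    · exact hA hv1.1
    · exact hA hv2.1
    · exact (hB'0 v hv).1
  · ext v
    rw [mem_cl, Finset.mem_insert, Finset.mem_insert, Finset.mem_singleton]
    constructor
    · rintro ⟨h3 | h3 | h3, h4⟩
      · exact h3
      · rw [h3, hv2.2] at h4; exact absurd h4.symm h01
      · exact absurd h4 (hB'0 v h3).2.1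
    · rintro rfl
      exact ⟨Or.inl rfl, hv1.2⟩
  · ext v
    rw [mem_cl, Finset.mem_insert, Finset.mem_insert, Finset.mem_singleton]
    constructor
    · rintro ⟨h3 | h3 | h3, h4⟩
      · rw [h3, hv1.2] at h4; exact absurd h4 h01
      · exact h3
      · exact absurd h4 (hB'0 v h3).2.2
    · rintro rfl
      exact ⟨Or.inr (Or.inl rfl), hv2.2⟩
  · intro i
    by_cases h3 : i = i0
    · exact ⟨v1, mem_cl.mpr ⟨Finset.mem_insert_self _ _, hv1.2.trans h3.symm⟩⟩
    · by_cases h4 : i = i1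
      · exact ⟨v2, mem_cl.mpr ⟨Finset.mem_insert_of_mem (Finset.mem_insert_self _ _),
          hv2.2.trans h4.symm⟩⟩
      · refine ⟨ρ i, mem_cl.mpr ⟨Finset.mem_insert_of_mem (Finset.mem_insert_of_mem (hTB' ?_)),
          hρc i⟩⟩
        rw [hTdef]
        exact Finset.mem_image_of_mem _ (Finset.mem_erase.mpr ⟨h4, Finset.mem_erase.mpr
          ⟨h3, Finset.mem_univ _⟩⟩)
  · rw [hcardA']; omega
  · exact hsplit A _
  · rcases le_total b B.card with h3 | h3
    · rw [min_eq_left h3] at hBB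
      omega
    · rw [min_eq_right h3] at hBB
      omega

/-- upper bound for the quadratic form of `G` -/
theorem quadG (G : SimpleGraph V) (H : Finset V) (c : V → Fin r) (w : V) (hw : w ∉ H)
    (ind : ∀ u ∈ H, ∀ v ∈ H, c u = c v → ¬ G.Adj u v) (y : V → ℝ) (δ : ℝ) (hδ : 0 ≤ δ)
    (hδ1 : δ ≤ 1) (y0 : ∀ v, 0 ≤ y v) (yH : ∀ v ∈ H, 1 - δ ≤ y v ∧ y v ≤ 1 + δ)
    (yo : ∀ v, v ∉ H → v ≠ w → y v ≤ δ) (yw : y w ≤ 1 + δ) :
    ∑ a, ∑ b, ad G a b * (y a * y b)
      ≤ ∑ a, ∑ b, chi (a ∈ H ∧ b ∈ H ∧ c a ≠ c b) * (y a * y b)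
        - (1 - δ) ^ 2 * (mis G H c : ℝ) + 2 * (y w * ∑ b ∈ nb G H w, y b)
        + 2 * (δ * (1 + δ)) * (∑ v ∈ out H, (dg G H v : ℝ) - dg G H w)
        + δ * (1 + δ) * (eu G H : ℝ) := by
  classical
  have hcoef : 0 ≤ δ * (1 + δ) := by positivity
  have hy1 : ∀ v, y v ≤ 1 + δ := by
    intro v
    by_cases hv : v ∈ H
    · exact (yH v hv).2
    · by_cases hvw : v = w
      · rw [hvw]; exact yw
      · have := yo v hv hvw; linarith
  have hyy : ∀ a b, y a ≤ δ → y a * y b ≤ δ * (1 + δ) := by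
    intro a b ha
    exact mul_le_mul ha (hy1 b) (y0 b) hδ
  have pt : ∀ a b, ad G a b * (y a * y b)
      ≤ chi (a ∈ H ∧ b ∈ H ∧ c a ≠ c b) * (y a * y b)
        - (1 - δ) ^ 2 * chi (a ∈ H ∧ b ∈ H ∧ c a ≠ c b ∧ ¬ G.Adj a b)
        + chi (a = w) * (chi (b ∈ nb G H w) * (y w * y b))
        + chi (b = w) * (chi (a ∈ nb G H w) * (y w * y a))
        + δ * (1 + δ) * (chi (a ∉ H ∧ a ≠ w) * chi (b ∈ H ∧ G.Adj a b))
        + δ * (1 + δ) * (chi (b ∉ H ∧ b ≠ w) * chi (a ∈ H ∧ G.Adj b a))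
        + δ * (1 + δ) * chi (G.Adj a b ∧ a ∉ H ∧ b ∉ H) := by
    intro a b
    by_cases ha : a ∈ H
    · have haw : a ≠ w := fun h => hw (h ▸ ha)
      by_cases hb : b ∈ H
      · have hbw : b ≠ w := fun h => hw (h ▸ hb)
        rw [chi_neg haw, chi_neg hbw, chi_neg (p := a ∉ H ∧ a ≠ w) (fun h => h.1 ha),
          chi_neg (p := b ∉ H ∧ b ≠ w) (fun h => h.1 hb),
          chi_neg (p := G.Adj a b ∧ a ∉ H ∧ b ∉ H) (fun h => h.2.1 ha)]
        by_cases hab : G.Adj a b
        · have hc : c a ≠ c b := fun h => ind a ha b hb h hab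
          unfold ad
          rw [chi_pos hab, chi_pos (p := a ∈ H ∧ b ∈ H ∧ c a ≠ c b) ⟨ha, hb, hc⟩,
            chi_neg (p := a ∈ H ∧ b ∈ H ∧ c a ≠ c b ∧ ¬ G.Adj a b) (fun h => h.2.2.2 hab)]
          linarith
        · unfold ad
          rw [chi_neg hab]
          by_cases hc : c a ≠ c b
          · rw [chi_pos (p := a ∈ H ∧ b ∈ H ∧ c a ≠ c b) ⟨ha, hb, hc⟩,
              chi_pos (p := a ∈ H ∧ b ∈ H ∧ c a ≠ c b ∧ ¬ G.Adj a b) ⟨ha, hb, hc, hab⟩]
            have h1 := yH a ha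
            have h2 := yH b hb
            have h3 : (1 - δ) * (1 - δ) ≤ y a * y b :=
              mul_le_mul h1.1 h2.1 (by linarith) (y0 a)
            nlinarith
          · rw [chi_neg (p := a ∈ H ∧ b ∈ H ∧ c a ≠ c b) (fun h => hc h.2.2),
              chi_neg (p := a ∈ H ∧ b ∈ H ∧ c a ≠ c b ∧ ¬ G.Adj a b) (fun h => hc h.2.2.1)]
            linarith
      · rw [chi_neg haw, chi_neg (p := a ∉ H ∧ a ≠ w) (fun h => h.1 ha),
          chi_neg (p := G.Adj a b ∧ a ∉ H ∧ b ∉ H) (fun h => h.2.1 ha),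
          chi_neg (p := a ∈ H ∧ b ∈ H ∧ c a ≠ c b) (fun h => hb h.2.1),
          chi_neg (p := a ∈ H ∧ b ∈ H ∧ c a ≠ c b ∧ ¬ G.Adj a b) (fun h => hb h.2.1)]
        by_cases hbw : b = w
        · rw [chi_pos hbw, chi_neg (p := b ∉ H ∧ b ≠ w) (fun h => h.2 hbw)]
          unfold ad
          have e : chi (G.Adj a b) = chi (a ∈ nb G H w) := by
            refine chi_congr ?_
            rw [mem_nb, hbw, G.adj_comm]
            exact ⟨fun h => ⟨ha, h⟩, fun h => h.2⟩
          rw [e, hbw]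
          linarith
        · rw [chi_neg hbw, chi_pos (p := b ∉ H ∧ b ≠ w) ⟨hb, hbw⟩]
          unfold ad
          by_cases hab : G.Adj a b
          · rw [chi_pos hab, chi_pos (p := a ∈ H ∧ G.Adj b a) ⟨ha, hab.symm⟩]
            have := hyy b a (yo b hb hbw)
            linarith
          · rw [chi_neg hab, chi_neg (p := a ∈ H ∧ G.Adj b a) (fun h => hab h.2.symm)]
            linarith
    · rw [chi_neg (p := a ∈ H ∧ b ∈ H ∧ c a ≠ c b) (fun h => ha h.1),
        chi_neg (p := a ∈ H ∧ b ∈ H ∧ c a ≠ c b ∧ ¬ G.Adj a b) (fun h => ha h.1)]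
      by_cases hb : b ∈ H
      · have hbw : b ≠ w := fun h => hw (h ▸ hb)
        rw [chi_neg hbw, chi_neg (p := b ∉ H ∧ b ≠ w) (fun h => h.1 hb),
          chi_neg (p := G.Adj a b ∧ a ∉ H ∧ b ∉ H) (fun h => h.2.2 hb)]
        by_cases haw : a = w
        · rw [chi_pos haw, chi_neg (p := a ∉ H ∧ a ≠ w) (fun h => h.2 haw)]
          unfold ad
          have e : chi (G.Adj a b) = chi (b ∈ nb G H w) := by
            refine chi_congr ?_
            rw [mem_nb, haw]
            exact ⟨fun h => ⟨hb, h⟩, fun h => h.2⟩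
          rw [e, haw]
          linarith
        · rw [chi_neg haw, chi_pos (p := a ∉ H ∧ a ≠ w) ⟨ha, haw⟩]
          unfold ad
          by_cases hab : G.Adj a b
          · rw [chi_pos hab, chi_pos (p := b ∈ H ∧ G.Adj a b) ⟨hb, hab⟩]
            have := hyy a b (yo a ha haw)
            linarith
          · rw [chi_neg hab, chi_neg (p := b ∈ H ∧ G.Adj a b) (fun h => hab h.2)]
            linarith
      · rw [chi_neg (p := b ∈ nb G H w) (fun h => hb (mem_nb.mp h).1),
          chi_neg (p := a ∈ nb G H w) (fun h => ha (mem_nb.mp h).1),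
          chi_neg (p := b ∈ H ∧ G.Adj a b) (fun h => hb h.1),
          chi_neg (p := a ∈ H ∧ G.Adj b a) (fun h => ha h.1)]
        unfold ad
        by_cases hab : G.Adj a b
        · rw [chi_pos hab, chi_pos (p := G.Adj a b ∧ a ∉ H ∧ b ∉ H) ⟨hab, ha, hb⟩]
          have h3 : y a * y b ≤ δ * (1 + δ) := by
            by_cases haw : a = w
            · have hbw : b ≠ w := fun h => G.ne_of_adj hab (haw.trans h.symm)
              have := hyy b a (yo b hb hbw)
              linarith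
            · exact hyy a b (yo a ha haw)
          linarith
        · rw [chi_neg hab, chi_neg (p := G.Adj a b ∧ a ∉ H ∧ b ∉ H) (fun h => hab h.1)]
          linarith
  have s0 : ∑ a, ∑ b, ad G a b * (y a * y b) ≤ ∑ a, ∑ b, (
        chi (a ∈ H ∧ b ∈ H ∧ c a ≠ c b) * (y a * y b)
        - (1 - δ) ^ 2 * chi (a ∈ H ∧ b ∈ H ∧ c a ≠ c b ∧ ¬ G.Adj a b)
        + chi (a = w) * (chi (b ∈ nb G H w) * (y w * y b))
        + chi (b = w) * (chi (a ∈ nb G H w) * (y w * y a))
        + δ * (1 + δ) * (chi (a ∉ H ∧ a ≠ w) * chi (b ∈ H ∧ G.Adj a b))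
        + δ * (1 + δ) * (chi (b ∉ H ∧ b ≠ w) * chi (a ∈ H ∧ G.Adj b a))
        + δ * (1 + δ) * chi (G.Adj a b ∧ a ∉ H ∧ b ∉ H)) :=
    Finset.sum_le_sum fun a _ => Finset.sum_le_sum fun b _ => pt a b
  have t1 : ∑ a, ∑ b, chi (a = w) * (chi (b ∈ nb G H w) * (y w * y b))
      = y w * ∑ b ∈ nb G H w, y b := by
    have : ∀ a : V, ∑ b, chi (a = w) * (chi (b ∈ nb G H w) * (y w * y b))
        = chi (a = w) * (y w * ∑ b ∈ nb G H w, y b) := by
      intro a
      rw [← Finset.mul_sum, sum_chi_mul, ← Finset.mul_sum]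
    rw [Finset.sum_congr rfl fun a _ => this a, sum_chi_pt w (fun _ => y w * ∑ b ∈ nb G H w, y b)]
  have t2 : ∑ a, ∑ b, chi (b = w) * (chi (a ∈ nb G H w) * (y w * y a))
      = y w * ∑ b ∈ nb G H w, y b := by
    rw [Finset.sum_comm, t1]
  have t3 := out_sum G H w hw
  have t4 : ∑ a, ∑ b, chi (b ∉ H ∧ b ≠ w) * chi (a ∈ H ∧ G.Adj b a)
      = ∑ v ∈ out H, (dg G H v : ℝ) - dg G H w := by
    rw [Finset.sum_comm, t3]
  have t5 := mis_sum G H c
  have t6 := eu_sum G H
  simp only [Finset.sum_add_distrib, Finset.sum_sub_distrib, ← Finset.mul_sum] at s0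
  simp only [← Finset.mul_sum] at t1 t2 t3 t4
  rw [t1, t2, t3, t4, t5, t6] at s0
  linarith

omit [Fintype V] in
theorem adj_w {G : SimpleGraph V} {N : ℕ} {H : Finset V} {c : V → Fin r} {w : V} {A : Finset V}
    {v1 v2 : V} (h : WD G N H c w A v1 v2) {b : V} : G.Adj w b ↔ b ∈ A := by
  rw [h.adj]
  constructor
  · rintro (h1 | h1 | h1)
    · exact absurd h1.1 h.hw
    · exact h1.2
    · exact absurd (h.hA h1.2) h.hw
  · intro hb
    exact Or.inr (Or.inl ⟨rfl, hb⟩)

omit [Fintype V] in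
theorem ad_WD {G : SimpleGraph V} {N : ℕ} {H : Finset V} {c : V → Fin r} {w : V} {A : Finset V}
    {v1 v2 : V} (h : WD G N H c w A v1 v2) (a b : V) :
    ad G a b = chi (a ∈ H ∧ b ∈ H ∧ c a ≠ c b) + chi (a = w) * chi (b ∈ A)
      + chi (b = w) * chi (a ∈ A) - chi (a = v1) * chi (b = v2) - chi (a = v2) * chi (b = v1) := by
  have hv1 : v1 ∈ H := by
    have : v1 ∈ cl A c (c v1) := by rw [h.h1]; exact mem_singleton_self _
    exact h.hA (mem_cl.mp this).1
  have hv2 : v2 ∈ H := by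
    have : v2 ∈ cl A c (c v2) := by rw [h.h2]; exact mem_singleton_self _
    exact h.hA (mem_cl.mp this).1
  have h21 : c v2 ≠ c v1 := h.h12.symm
  have hne : v1 ≠ v2 := fun h0 => h.h12 (by rw [h0])
  have hw1 : w ≠ v1 := fun h0 => h.hw (h0 ▸ hv1)
  have hw2 : w ≠ v2 := fun h0 => h.hw (h0 ▸ hv2)
  unfold ad
  rw [← chi_and, ← chi_and, ← chi_and, ← chi_and]
  by_cases ha : a = w
  · subst ha
    have e1 : ¬ (a ∈ H ∧ b ∈ H ∧ c a ≠ c b) := fun h0 => h.hw h0.1
    have e2 : ¬ (b = a ∧ a ∈ A) := fun h0 => h.hw (h.hA h0.2)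
    have e3 : ¬ (a = v1 ∧ b = v2) := fun h0 => hw1 h0.1
    have e4 : ¬ (a = v2 ∧ b = v1) := fun h0 => hw2 h0.1
    rw [chi_neg e1, chi_neg e2, chi_neg e3, chi_neg e4]
    by_cases hb : b ∈ A
    · rw [chi_pos ((adj_w h).mpr hb), chi_pos ⟨rfl, hb⟩]; ring
    · rw [chi_neg (fun h0 => hb ((adj_w h).mp h0)), chi_neg (fun h0 => hb h0.2)]; ring
  · by_cases hb : b = w
    · subst hb
      have e1 : ¬ (a ∈ H ∧ b ∈ H ∧ c a ≠ c b) := fun h0 => h.hw h0.2.1
      have e2 : ¬ (a = b ∧ b ∈ A) := fun h0 => h.hw (h.hA h0.2)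
      have e3 : ¬ (a = v1 ∧ b = v2) := fun h0 => hw2 h0.2
      have e4 : ¬ (a = v2 ∧ b = v1) := fun h0 => hw1 h0.2
      rw [chi_neg e1, chi_neg e2, chi_neg e3, chi_neg e4]
      by_cases hb : a ∈ A
      · rw [chi_pos ((adj_w h).mpr hb).symm, chi_pos ⟨rfl, hb⟩]; ring
      · rw [chi_neg (fun h0 => hb ((adj_w h).mp h0.symm)), chi_neg (fun h0 => hb h0.2)]; ring
    · have e1 : ¬ (a = w ∧ b ∈ A) := fun h0 => ha h0.1
      have e2 : ¬ (b = w ∧ a ∈ A) := fun h0 => hb h0.1
      rw [chi_neg e1, chi_neg e2]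
      by_cases h3 : a = v1 ∧ b = v2
      · have h4 : ¬ (a = v2 ∧ b = v1) := fun h0 => hne (h3.1.symm.trans h0.1)
        rw [chi_pos h3, chi_neg h4]
        obtain ⟨rfl, rfl⟩ := h3
        have h5 : ¬ G.Adj a b := by
          rw [h.adj]
          rintro (h0 | h0 | h0)
          · exact h0.2.2.2.1 ⟨rfl, rfl⟩
          · exact ha h0.1
          · exact hb h0.1
        rw [chi_neg h5, chi_pos ⟨hv1, hv2, h.h12⟩]; ring
      · by_cases h4 : a = v2 ∧ b = v1
        · rw [chi_neg h3, chi_pos h4]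
          obtain ⟨rfl, rfl⟩ := h4
          have h5 : ¬ G.Adj a b := by
            rw [h.adj]
            rintro (h0 | h0 | h0)
            · exact h0.2.2.2.2 ⟨rfl, rfl⟩
            · exact ha h0.1
            · exact hb h0.1
          rw [chi_neg h5, chi_pos ⟨hv2, hv1, h21⟩]; ring
        · rw [chi_neg h3, chi_neg h4]
          have h5 : G.Adj a b ↔ (a ∈ H ∧ b ∈ H ∧ c a ≠ c b) := by
            rw [h.adj]
            constructor
            · rintro (h0 | h0 | h0)
              · exact ⟨h0.1, h0.2.1, h0.2.2.1⟩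
              · exact absurd h0 e1
              · exact absurd h0 e2
            · intro h0
              exact Or.inl ⟨h0.1, h0.2.1, h0.2.2, h3, h4⟩
          rw [chi_congr h5]; ring

/-- the quadratic form of a graph of type D -/
theorem quadD {G : SimpleGraph V} {N : ℕ} {H : Finset V} {c : V → Fin r} {w : V} {A : Finset V}
    {v1 v2 : V} (h : WD G N H c w A v1 v2) (y : V → ℝ) :
    ∑ a, ∑ b, ad G a b * (y a * y b)
      = ∑ a, ∑ b, chi (a ∈ H ∧ b ∈ H ∧ c a ≠ c b) * (y a * y b) + 2 * (y w * ∑ b ∈ A, y b)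
        - 2 * (y v1 * y v2) := by
  classical
  have pt : ∀ a b, ad G a b * (y a * y b) = chi (a ∈ H ∧ b ∈ H ∧ c a ≠ c b) * (y a * y b)
      + chi (a = w) * (chi (b ∈ A) * (y a * y b)) + chi (b = w) * (chi (a ∈ A) * (y a * y b))
      - chi (a = v1) * (chi (b = v2) * (y a * y b))
      - chi (a = v2) * (chi (b = v1) * (y a * y b)) := by
    intro a b
    rw [ad_WD h]; ring
  have t1 : ∑ a, ∑ b, chi (a = w) * (chi (b ∈ A) * (y a * y b)) = y w * ∑ b ∈ A, y b := by
    have : ∀ a : V, ∑ b, chi (a = w) * (chi (b ∈ A) * (y a * y b))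
        = chi (a = w) * (y a * ∑ b ∈ A, y b) := by
      intro a
      rw [← Finset.mul_sum, sum_chi_mul, ← Finset.mul_sum]
    rw [Finset.sum_congr rfl fun a _ => this a, sum_chi_pt w (fun a => y a * ∑ b ∈ A, y b)]
  have t2 : ∑ a, ∑ b, chi (b = w) * (chi (a ∈ A) * (y a * y b)) = y w * ∑ b ∈ A, y b := by
    rw [Finset.sum_comm, ← t1]
    refine Finset.sum_congr rfl fun a _ => Finset.sum_congr rfl fun b _ => ?_
    ring
  have t3 : ∀ p q : V, ∑ a, ∑ b, chi (a = p) * (chi (b = q) * (y a * y b)) = y p * y q := by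
    intro p q
    have : ∀ a : V, ∑ b, chi (a = p) * (chi (b = q) * (y a * y b))
        = chi (a = p) * (y a * y q) := by
      intro a
      rw [← Finset.mul_sum, sum_chi_pt q (fun b => y a * y b)]
    rw [Finset.sum_congr rfl fun a _ => this a, sum_chi_pt p (fun a => y a * y q)]
  rw [Finset.sum_congr rfl fun a _ => Finset.sum_congr rfl fun b _ => pt a b]
  simp only [Finset.sum_add_distrib, Finset.sum_sub_distrib]
  rw [t1, t2, t3, t3]
  ring

/-- the first case: one missing edge and no further edges -/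
theorem wd_of {G : SimpleGraph V} {N : ℕ} {H : Finset V} {c : V → Fin r} {w v1 v2 : V}
    (card : H.card = N) (hw : w ∉ H) (ind : ∀ u ∈ H, ∀ v ∈ H, c u = c v → ¬ G.Adj u v)
    (hne : ∀ i, (cl (nb G H w) c i).Nonempty) (hS : ∀ v, v ∉ H → v ≠ w → dg G H v = 0)
    (heu : eu G H = 0) (h12 : c v1 ≠ c v2) (h1 : cl (nb G H w) c (c v1) = {v1})
    (h2 : cl (nb G H w) c (c v2) = {v2})
    (h3 : ∀ a ∈ H, ∀ b ∈ H, c a ≠ c b →
      (¬ G.Adj a b ↔ (a = v1 ∧ b = v2) ∨ (a = v2 ∧ b = v1))) :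
    WD G N H c w (nb G H w) v1 v2 := by
  classical
  have hS' : ∀ a b, a ∉ H → a ≠ w → b ∈ H → ¬ G.Adj a b := by
    intro a b ha haw hb hab
    have h4 := hS a ha haw
    unfold dg at h4
    rw [Finset.card_eq_zero] at h4
    have : b ∈ nb G H a := mem_nb.mpr ⟨hb, hab⟩
    rw [h4] at this
    exact absurd this (Finset.notMem_empty _)
  have heu' : ∀ a b, a ∉ H → b ∉ H → ¬ G.Adj a b := by
    intro a b ha hb hab
    unfold eu at heu
    rw [Finset.card_eq_zero, Finset.filter_eq_empty_iff] at heu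
    exact heu (x := (a, b)) (Finset.mem_univ _) ⟨hab, ha, hb⟩
  refine ⟨card, hw, fun v hv => (mem_nb.mp hv).1, h12, h1, h2, hne, fun a b => ?_⟩
  have hv1 : v1 ∈ H := by
    have : v1 ∈ cl (nb G H w) c (c v1) := by rw [h1]; exact mem_singleton_self _
    exact (mem_nb.mp (mem_cl.mp this).1).1
  constructor
  · intro hab
    by_cases ha : a ∈ H
    · by_cases hb : b ∈ H
      · have hc : c a ≠ c b := fun h => ind a ha b hb h hab
        refine Or.inl ⟨ha, hb, hc, fun h => ?_, fun h => ?_⟩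
        · exact (h3 a ha b hb hc).mpr (Or.inl h) hab
        · exact (h3 a ha b hb hc).mpr (Or.inr h) hab
      · by_cases hbw : b = w
        · exact Or.inr (Or.inr ⟨hbw, mem_nb.mpr ⟨ha, hbw ▸ hab.symm⟩⟩)
        · exact absurd hab.symm (hS' b a hb hbw ha)
    · by_cases hb : b ∈ H
      · by_cases haw : a = w
        · exact Or.inr (Or.inl ⟨haw, mem_nb.mpr ⟨hb, haw ▸ hab⟩⟩)
        · exact absurd hab (hS' a b ha haw hb)
      · exact absurd hab (heu' a b ha hb)
  · rintro (⟨ha, hb, hc, h4, h5⟩ | ⟨rfl, hb⟩ | ⟨rfl, ha⟩)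
    · by_contra hab
      rcases (h3 a ha b hb hc).mp hab with h | h
      · exact h4 h
      · exact h5 h
    · exact (mem_nb.mp hb).2
    · exact (mem_nb.mp ha).2.symm

/-- the arithmetic of the comparison -/
theorem arith (δ ε X z m q p p' S E : ℝ) (hδ : 0 < δ) (hδε : 100 * δ ≤ ε) (hε1 : ε ≤ 1)
    (hX : ε ≤ X) (hX1 : X ≤ 1 - ε) (hz1 : X - δ ≤ z) (hz2 : z ≤ X + δ) (hm : 1 ≤ m)
    (hq : 0 ≤ q) (hmq : 2 ≤ m + q) (hp : p - p' = 1 - m + q) (hpp : p + p' + 3 ≤ 3 * m + q)
    (hS : S + E = q) :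
    0 < (1 - δ) ^ 2 * m - (1 + δ) ^ 2 + z * ((1 - δ) * p - (1 + δ) * p')
      - δ * (1 + δ) * S - δ * (1 + δ) * E := by
  have hz0 : 0 ≤ z := by linarith
  have hδ1 : δ ≤ 1 / 100 := by linarith
  have e1 : (1 - δ) * p - (1 + δ) * p' = (1 - m + q) - δ * (p + p') := by rw [← hp]; ring
  have e2 : (1 - m + q) - δ * (3 * m + q - 3) ≤ (1 - δ) * p - (1 + δ) * p' := by
    rw [e1]
    have : δ * (p + p') ≤ δ * (3 * m + q - 3) := mul_le_mul_of_nonneg_left (by linarith) hδ.le
    linarith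
  have e3 : z * ((1 - m + q) - δ * (3 * m + q - 3)) ≤ z * ((1 - δ) * p - (1 + δ) * p') :=
    mul_le_mul_of_nonneg_left e2 hz0
  have e4 : (1 - δ) ^ 2 * m - (1 + δ) ^ 2 + z * ((1 - m + q) - δ * (3 * m + q - 3))
      - δ * (1 + δ) * S - δ * (1 + δ) * E
      = (m - 1) * ((1 - δ) ^ 2 - z * (1 + 3 * δ)) - 4 * δ
        + q * (z * (1 - δ) - δ * (1 + δ)) := by
    rw [← hS]; ring
  have e5 : 50 * δ ≤ (1 - δ) ^ 2 - z * (1 + 3 * δ) := by
    have h1 : z * (1 + 3 * δ) ≤ (1 - ε + δ) * (1 + 3 * δ) :=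
      mul_le_mul_of_nonneg_right (by linarith) (by linarith)
    nlinarith
  have e6 : 50 * δ ≤ z * (1 - δ) - δ * (1 + δ) := by
    have h1 : (ε - δ) * (1 - δ) ≤ z * (1 - δ) :=
      mul_le_mul_of_nonneg_right (by linarith) (by linarith)
    nlinarith
  have e7 : (m - 1) * (50 * δ) ≤ (m - 1) * ((1 - δ) ^ 2 - z * (1 + 3 * δ)) :=
    mul_le_mul_of_nonneg_left e5 (by linarith)
  have e8 : q * (50 * δ) ≤ q * (z * (1 - δ) - δ * (1 + δ)) :=
    mul_le_mul_of_nonneg_left e6 hq
  have e9 : 0 < (m - 1 + q) * (50 * δ) - 4 * δ := by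
    have : 1 * (50 * δ) ≤ (m - 1 + q) * (50 * δ) :=
      mul_le_mul_of_nonneg_right (by linarith) (by linarith)
    linarith
  nlinarith

end

end B1U

theorem blk_B1U (hGD : Stmt_GD) (hTRV : Stmt_TRV) (hEID : Stmt_EID) (hEVN : Stmt_EVN) :
    Stmt_B1U := by
  classical
  intro r ε hr hε
  obtain ⟨N0, hN0⟩ := exists_nat_ge ((4 * (r : ℝ) + 4) / ε + 4 * r)
  have hr3 : (3 : ℝ) ≤ r := by exact_mod_cast hr
  have hr0 : (0 : ℝ) < r := by linarith
  have hδ : 0 < min (ε / 100) (1 / (2 * (r : ℝ))) := lt_min (by positivity) (by positivity)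
  refine ⟨min (ε / 100) (1 / (2 * (r : ℝ))), N0, hδ, ?_⟩
  have hδ1 : 100 * min (ε / 100) (1 / (2 * (r : ℝ))) ≤ ε := by
    have := min_le_left (ε / 100) (1 / (2 * (r : ℝ)))
    linarith
  have hδ2 : min (ε / 100) (1 / (2 * (r : ℝ))) * (2 * r) ≤ 1 := by
    have h1 := min_le_right (ε / 100) (1 / (2 * (r : ℝ)))
    rwa [le_div_iff₀ (by positivity)] at h1
  generalize min (ε / 100) (1 / (2 * (r : ℝ))) = δ at hδ hδ1 hδ2
  intro N hN j hRg V _ G x lam c H w hFD hfree hMX hne
  have hal1 := al_ge hr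
  have hal2 := al_lt hr
  have hNr : (4 * (r : ℝ) + 4) / ε + 4 * r ≤ (N : ℝ) := hN0.trans (by exact_mod_cast hN)
  have hq0 : 0 < (4 * (r : ℝ) + 4) / ε := by positivity
  have hN4 : 4 * (r : ℝ) ≤ N := by linarith
  have hNpos : 0 < (N : ℝ) := by linarith
  have hεN : 4 * (r : ℝ) + 4 ≤ ε * N := by
    have h1 : (4 * (r : ℝ) + 4) / ε ≤ N := by linarith
    rw [div_le_iff₀ hε] at h1
    linarith
  obtain ⟨hj1, hj2⟩ := hRg
  have hkap1 : 2 / (r : ℝ) ≤ 2 / 3 := div_le_div_of_nonneg_left (by norm_num) (by norm_num) hr3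
  have hkap0 : 0 < 2 / (r : ℝ) := by positivity
  have hprod : (1 - 2 / (r : ℝ)) * al r ≤ (1 - 2 / (r : ℝ)) := by
    have : (1 - 2 / (r : ℝ)) * al r ≤ (1 - 2 / (r : ℝ)) * 1 :=
      mul_le_mul_of_nonneg_left hal2.le (by linarith)
    linarith
  have hprod2 : (1 - 2 / (r : ℝ)) * al r ≤ al r := by
    have : (1 - 2 / (r : ℝ)) * al r ≤ 1 * al r :=
      mul_le_mul_of_nonneg_right (by linarith) (by linarith)
    linarith
  have hε1 : ε ≤ 1 := by
    have h1 : ε * N ≤ ((1 - 2 / (r : ℝ)) * al r - ε) * N := hj1.trans hj2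
    have h2 : ε ≤ (1 - 2 / (r : ℝ)) * al r - ε := le_of_mul_le_mul_right h1 hNpos
    linarith
  have hδs : δ ≤ 1 / 100 := by linarith
  have halN : 0 < al r * N := mul_pos (by linarith) hNpos
  have hX1 : ε ≤ j / (al r * N) := by
    rw [le_div_iff₀ halN]
    have h1 : al r * N ≤ 1 * N := mul_le_mul_of_nonneg_right hal2.le hNpos.le
    have h2 : ε * (al r * N) ≤ ε * (1 * N) := mul_le_mul_of_nonneg_left h1 hε.le
    linarith
  have hX2 : j / (al r * N) ≤ 1 - ε := by
    rw [div_le_iff₀ halN]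
    have h1 : ((1 - 2 / (r : ℝ)) * al r - ε) * N ≤ (al r - ε * al r) * N := by
      refine mul_le_mul_of_nonneg_right ?_ hNpos.le
      have : ε * al r ≤ ε * 1 := mul_le_mul_of_nonneg_left hal2.le hε.le
      linarith
    calc (j : ℝ) ≤ ((1 - 2 / (r : ℝ)) * al r - ε) * N := hj2
      _ ≤ (al r - ε * al r) * N := h1
      _ = (1 - ε) * (al r * N) := by ring
  -- data
  obtain ⟨⟨M, hM⟩, ⟨E, hE⟩⟩ := hEVN r V G c H
  obtain ⟨⟨i0, i1, h01, hle, h2⟩, hsec⟩ :=
    hTRV r hr V G c H (nb G H w) w hfree hFD.ind hFD.hw rfl hne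
  have hwout : w ∈ out H := mem_out.mpr hFD.hw
  have hSsum := Finset.add_sum_erase (out H) (fun v => dg G H v) hwout
  generalize hSdef : ∑ v ∈ (out H).erase w, dg G H v = S at hSsum
  have hSsum' : ∑ v ∈ out H, (dg G H v : ℝ) = dg G H w + S := by
    have : ((∑ v ∈ out H, dg G H v : ℕ) : ℝ) = ((dg G H w + S : ℕ) : ℝ) := by
      rw [← hSsum]
    push_cast at this
    exact this
  have hMr : (mis G H c : ℝ) = 2 * M := by rw [hM]; push_cast; ring
  have hEr : (eu G H : ℝ) = 2 * E := by rw [hE]; push_cast; ring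
  have hrest : (S : ℝ) + 2 * E ≤ δ * N := by
    have := hFD.rest
    rw [hSsum', hEr] at this
    linarith
  have hmis : 2 * (M : ℝ) ≤ δ * N := by
    have := hFD.mis
    rw [hMr] at this
    exact this
  have hdeg := abs_le.mp hFD.deg
  have hdgA : dg G H w = (nb G H w).card := rfl
  rw [hdgA] at hdeg
  have ha1 : 1 ≤ (cl (nb G H w) c i1).card := Finset.card_pos.mpr (hne i1)
  have hM1 : 1 ≤ M := by omega
  by_cases hMQ : M = 1 ∧ S = 0 ∧ E = 0
  · obtain ⟨rfl, rfl, rfl⟩ := hMQ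
    obtain ⟨v1, v2, h12, h3, h4, h5⟩ := hsec hM
    refine ⟨v1, v2, B1U.wd_of hFD.card hFD.hw hFD.ind hne ?_ hE h12 h3 h4 h5⟩
    intro v hv hvw
    have h6 := Finset.sum_eq_zero_iff.mp hSdef
    exact h6 v (Finset.mem_erase.mpr ⟨hvw, mem_out.mpr hv⟩)
  · exfalso
    have hMQ2 : 2 ≤ M + (S + E) := by omega
    have hS0 : (0 : ℝ) ≤ S := Nat.cast_nonneg S
    have hE0 : (0 : ℝ) ≤ E := Nat.cast_nonneg E
    have hδN : 100 * (δ * N) ≤ ε * N := by
      have := mul_le_mul_of_nonneg_right hδ1 hNpos.le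
      linarith
    have hMA : M + 1 ≤ (nb G H w).card + (S + E) := by
      have h3 : ((M + 1 : ℕ) : ℝ) ≤ (((nb G H w).card + (S + E) : ℕ) : ℝ) := by
        push_cast
        linarith [hdeg.1]
      exact_mod_cast h3
    obtain ⟨b, hb⟩ := Nat.exists_eq_add_of_le hMA
    have hbr : (b : ℝ) = (nb G H w).card + (S + E) - M - 1 := by
      have : (((nb G H w).card + (S + E) : ℕ) : ℝ) = ((M + 1 + b : ℕ) : ℝ) := by rw [hb]
      push_cast at this
      linarith
    have hrb : r ≤ b + 2 := by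
      have h3 : ((r : ℕ) : ℝ) ≤ ((b + 2 : ℕ) : ℝ) := by
        push_cast
        rw [hbr]
        linarith [hdeg.1]
      exact_mod_cast h3
    have hbal0 := abs_le.mp (hFD.bal i0)
    have hbal1 := abs_le.mp (hFD.bal i1)
    have hroom : b + (cl H c i0).card + (cl H c i1).card ≤ H.card := by
      have h3 : ((b + (cl H c i0).card + (cl H c i1).card : ℕ) : ℝ) ≤ ((H.card : ℕ) : ℝ) := by
        push_cast
        rw [hFD.card, hbr]
        have h4 : ((1 - 2 / (r : ℝ)) * al r - ε) * N ≤ N - 2 * (N / r) - ε * N := by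
          have h5 : ((1 - 2 / (r : ℝ)) * al r - ε) * N ≤ ((1 - 2 / (r : ℝ)) - ε) * N :=
            mul_le_mul_of_nonneg_right (by linarith) hNpos.le
          have h6 : ((1 - 2 / (r : ℝ)) - ε) * N = N - 2 * (N / r) - ε * N := by ring
          linarith
        have h7 : sz H c i0 = ((cl H c i0).card : ℝ) := rfl
        have h8 : sz H c i1 = ((cl H c i1).card : ℝ) := rfl
        rw [h7] at hbal0
        rw [h8] at hbal1
        have hM1r : (1 : ℝ) ≤ M := by exact_mod_cast hM1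
        linarith [hdeg.2, hbal0.2, hbal1.2]
      exact_mod_cast h3
    obtain ⟨v1, hv1⟩ := hne i0
    obtain ⟨v2, hv2⟩ := hne i1
    obtain ⟨A', hA'H, hA'0, hA'1, hA'ne, hA'card, hA'diff, hA'sum⟩ :=
      B1U.mkA H (nb G H w) c i0 i1 v1 v2 (fun v hv => (mem_nb.mp hv).1) h01 hv1 hv2 hne M (S + E) b
        (by omega) (by omega) (by omega) hrb hroom
    have hc1 : c v1 = i0 := (mem_cl.mp hv1).2
    have hc2 : c v2 = i1 := (mem_cl.mp hv2).2
    have hWD : WD (gD H c w A' v1 v2) N H c w A' v1 v2 :=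
      gD_WD hFD.card hFD.hw hA'H (by rw [hc1, hc2]; exact h01) (by rw [hc1]; exact hA'0)
        (by rw [hc2]; exact hA'1) hA'ne
    obtain ⟨hfree', hcol', hpE'⟩ := hGD r hr V _ N H c w A' v1 v2 hWD
    have hcls : ∀ i, 2 ≤ (cl H c i).card := by
      intro i
      have h3 := abs_le.mp (hFD.bal i)
      have h4 : sz H c i = ((cl H c i).card : ℝ) := rfl
      rw [h4] at h3
      have h5 : 2 ≤ (N : ℝ) / r - δ * N := by
        have h6 : (N : ℝ) / r - δ * N = (1 / r - δ) * N := by ring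
        have h7 : 1 / (2 * (r : ℝ)) ≤ 1 / r - δ := by
          have h8 : δ ≤ 1 / (2 * (r : ℝ)) := by
            rw [le_div_iff₀ (by positivity)]; exact hδ2
          have h9 : 1 / (r : ℝ) = 1 / (2 * r) + 1 / (2 * r) := by field_simp; ring
          linarith
        have h8 : 1 / (2 * (r : ℝ)) * (4 * r) ≤ (1 / r - δ) * N :=
          mul_le_mul h7 hN4 (by positivity) (le_trans (by positivity) h7)
        have h9 : 1 / (2 * (r : ℝ)) * (4 * r) = 2 := by field_simp; ring
        linarith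
      have h6 : ((2 : ℕ) : ℝ) ≤ ((cl H c i).card : ℝ) := by
        push_cast
        linarith [h3.1]
      exact_mod_cast h6
    have hA'r : (A'.card : ℝ) = (nb G H w).card + 1 - M + (S + E) := by
      have : ((A'.card + M : ℕ) : ℝ) = (((nb G H w).card + 1 + (S + E) : ℕ) : ℝ) := by
        rw [hA'card]
      push_cast at this
      linarith
    have hpE : pE (gD H c w A' v1 v2) = pE G := by
      rw [hpE', hEID r V G c H hFD.ind, hSsum', hMr, hEr, hFD.card, hA'r, hdgA]
      ring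
    have hspec := hMX _ hfree' (hcol' hcls) hpE
    have : Nonempty V := ⟨w⟩
    have hray := rayleigh (gD H c w A' v1 v2) x
    rw [hFD.pv.unit, mul_one] at hray
    have hform := hFD.pv.form
    have hrad := hFD.pv.rad
    -- scaling
    have hsq : √(N : ℝ) * √(N : ℝ) = N := Real.mul_self_sqrt hNpos.le
    have hscale : ∀ F : V → V → ℝ, ∑ a, ∑ b, F a b * ((x a * √(N : ℝ)) * (x b * √(N : ℝ)))
        = N * ∑ a, ∑ b, F a b * (x a * x b) := by
      intro F
      rw [Finset.mul_sum]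
      refine Finset.sum_congr rfl fun a _ => ?_
      rw [Finset.mul_sum]
      refine Finset.sum_congr rfl fun b _ => ?_
      calc F a b * ((x a * √(N : ℝ)) * (x b * √(N : ℝ)))
          = (√(N : ℝ) * √(N : ℝ)) * (F a b * (x a * x b)) := by ring
        _ = N * (F a b * (x a * x b)) := by rw [hsq]
    have hcmp : ∑ a, ∑ b, ad (gD H c w A' v1 v2) a b * ((x a * √(N : ℝ)) * (x b * √(N : ℝ)))
        ≤ ∑ a, ∑ b, ad G a b * ((x a * √(N : ℝ)) * (x b * √(N : ℝ))) := by
      rw [hscale, hscale]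
      refine mul_le_mul_of_nonneg_left ?_ hNpos.le
      rw [hform, hrad]
      exact hray.trans hspec
    have hsN : 0 ≤ √(N : ℝ) := Real.sqrt_nonneg _
    have hxw := abs_le.mp hFD.xw
    have hQG := B1U.quadG G H c w hFD.hw hFD.ind (fun v => x v * √(N : ℝ)) δ hδ.le (by linarith)
      (fun v => mul_nonneg (hFD.pv.nn v) hsN)
      (fun v hv => by
        have := abs_le.mp (hFD.xH v hv)
        constructor <;> linarith [this.1, this.2])
      (fun v hv hvw => hFD.xo v hv hvw) (by linarith [hxw.2])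
    have hQD := B1U.quadD hWD (fun v => x v * √(N : ℝ))
    rw [hQD] at hcmp
    have hcmp2 := hcmp.trans hQG
    rw [hMr, hEr, hSsum'] at hcmp2
    -- sums over A' and A
    have hsumA : (1 - δ) * ((A'.filter (fun v => v ∉ nb G H w)).card : ℝ)
        - (1 + δ) * (((nb G H w).filter (fun v => v ∉ A')).card : ℝ)
        ≤ ∑ b ∈ A', x b * √(N : ℝ) - ∑ b ∈ nb G H w, x b * √(N : ℝ) := by
      have e1 := Finset.sum_filter_add_sum_filter_not A' (fun v => v ∈ nb G H w)
        (fun v => x v * √(N : ℝ))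
      have e2 := Finset.sum_filter_add_sum_filter_not (nb G H w) (fun v => v ∈ A')
        (fun v => x v * √(N : ℝ))
      have e3 : A'.filter (fun v => v ∈ nb G H w) = (nb G H w).filter (fun v => v ∈ A') := by
        ext v
        rw [Finset.mem_filter, Finset.mem_filter, and_comm]
      rw [e3] at e1
      have e4 : ∑ _v ∈ A'.filter (fun v => v ∉ nb G H w), (1 - δ)
          ≤ ∑ v ∈ A'.filter (fun v => v ∉ nb G H w), x v * √(N : ℝ) := by
        refine Finset.sum_le_sum fun v hv => ?_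
        have h3 := abs_le.mp (hFD.xH v (hA'H (Finset.mem_filter.mp hv).1))
        linarith [h3.1]
      have e5 : ∑ v ∈ (nb G H w).filter (fun v => v ∉ A'), x v * √(N : ℝ)
          ≤ ∑ _v ∈ (nb G H w).filter (fun v => v ∉ A'), (1 + δ) := by
        refine Finset.sum_le_sum fun v hv => ?_
        have h3 := abs_le.mp (hFD.xH v (mem_nb.mp (Finset.mem_filter.mp hv).1).1)
        linarith [h3.2]
      rw [Finset.sum_const, nsmul_eq_mul] at e4 e5
      linarith
    have hvv : x v1 * √(N : ℝ) * (x v2 * √(N : ℝ)) ≤ (1 + δ) ^ 2 := by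
      have h3 := abs_le.mp (hFD.xH v1 (mem_nb.mp (mem_cl.mp hv1).1).1)
      have h4 := abs_le.mp (hFD.xH v2 (mem_nb.mp (mem_cl.mp hv2).1).1)
      rw [sq]
      exact mul_le_mul (by linarith [h3.2]) (by linarith [h4.2])
        (mul_nonneg (hFD.pv.nn v2) hsN) (by linarith)
    have hp1 : (((A'.filter (fun v => v ∉ nb G H w)).card : ℝ)
        - (((nb G H w).filter (fun v => v ∉ A')).card : ℝ)) = 1 - M + ((S : ℝ) + E) := by
      have h3 : ((A'.card : ℤ) : ℝ) - (((nb G H w).card : ℤ) : ℝ)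
          = (((A'.filter (fun v => v ∉ nb G H w)).card : ℤ) : ℝ)
            - ((((nb G H w).filter (fun v => v ∉ A')).card : ℤ) : ℝ) := by
        rw [← Int.cast_sub, ← Int.cast_sub, hA'diff]
      simp only [Int.cast_natCast] at h3
      rw [← h3, hA'r]
      ring
    have hp2 : ((A'.filter (fun v => v ∉ nb G H w)).card : ℝ)
        + (((nb G H w).filter (fun v => v ∉ A')).card : ℝ) + 3 ≤ 3 * M + ((S : ℝ) + E) := by
      exact_mod_cast hA'sum
    have har := B1U.arith δ ε (j / (al r * N)) (x w * √(N : ℝ)) M (S + E)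
      ((A'.filter (fun v => v ∉ nb G H w)).card : ℝ)
      (((nb G H w).filter (fun v => v ∉ A')).card : ℝ) S E hδ hδ1 hε1 hX1 hX2
      (by linarith [hxw.1]) (by linarith [hxw.2]) (by exact_mod_cast hM1) (by linarith)
      (by exact_mod_cast hMQ2) hp1 hp2 rfl
    have hw0 : 0 ≤ x w * √(N : ℝ) := mul_nonneg (hFD.pv.nn w) hsN
    have hfin := mul_le_mul_of_nonneg_left hsumA hw0
    linarith

end Pool.Agent.Work.MP_5532fa_up
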