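import Pool.Agent.Work.MP_5532fa_up.Interface2
import Pool.Agent.Work.MP_5532fa_up.B1U

open Finset

namespace Pool.Agent.Work.MP_5532fa_up

open MP5532fa (specRad qf pE)

theorem blk_B1U2 (hGD : Stmt_GD) (hTRV : Stmt_TRV) (hEID : Stmt_EID) (hEVN : Stmt_EVN) :
    Stmt_B1U2 := by
  classical
  intro r ε hr hε
  obtain ⟨N0, hN0⟩ := exists_nat_ge ((4 * (r : ℝ) + 4) / ε + 4 * r)
  have hr3 : (3 : ℝ) ≤ r := by exact_mod_cast hr
  have hr0 : (0 : ℝ) < r := by linarith
  have hδ : 0 < min (ε / 100) (1 / (2 * (r : ℝ))) := lt_min (by positivity) (by positivity)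
  refine ⟨min (ε / 100) (1 / (2 * (r : ℝ))), N0, hδ, ?_⟩
  have hδ1 : 100 * min (ε / 100) (1 / (2 * (r : ℝ))) ≤ ε := by
    have := min_le_left (ε / 100) (1 / (2 * (r : ℝ)))
    linarith
  have hδ2 : min (ε / 100) (1 / (2 * (r : ℝ))) * (2 * r) ≤ 1 := by
    have h1 := min_le_right (ε / 100) (1 / (2 * (r : ℝ)))
    rwa [le_div_iff₀ (by positivity)] at h1
  generalize min (ε / 100) (1 / (2 * (r : ℝ))) = δ at hδ hδ1 hδ2
  intro N hN j hRg V _ G x lam c H w hFD hfree hMX hne
  have hal1 := al_ge hr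
  have hal2 := al_lt hr
  have hNr : (4 * (r : ℝ) + 4) / ε + 4 * r ≤ (N : ℝ) := hN0.trans (by exact_mod_cast hN)
  have hq0 : 0 < (4 * (r : ℝ) + 4) / ε := by positivity
  have hN4 : 4 * (r : ℝ) ≤ N := by linarith
  have hNpos : 0 < (N : ℝ) := by linarith
  have hεN : 4 * (r : ℝ) + 4 ≤ ε * N := by
    have h1 : (4 * (r : ℝ) + 4) / ε ≤ N := by linarith
    rw [div_le_iff₀ hε] at h1
    linarith
  obtain ⟨hj1, hj2⟩ := hRg
  have hkap1 : 2 / (r : ℝ) ≤ 2 / 3 := div_le_div_of_nonneg_left (by norm_num) (by norm_num) hr3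
  have hkap0 : 0 < 2 / (r : ℝ) := by positivity
  have hε1 : ε ≤ 1 := by
    have h1 : ε * N ≤ ((1 - 2 / (r : ℝ)) - ε) * N := hj1.trans hj2
    have h2 : ε ≤ (1 - 2 / (r : ℝ)) - ε := le_of_mul_le_mul_right h1 hNpos
    linarith
  have hδs : δ ≤ 1 / 100 := by linarith
  have halN : 0 < al r * N := mul_pos (by linarith) hNpos
  have hX1 : ε ≤ j / (al r * N) := by
    rw [le_div_iff₀ halN]
    have h1 : al r * N ≤ 1 * N := mul_le_mul_of_nonneg_right hal2.le hNpos.le
    have h2 : ε * (al r * N) ≤ ε * (1 * N) := mul_le_mul_of_nonneg_left h1 hε.le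
    linarith
  have hX2 : j / (al r * N) ≤ 1 - ε := by
    rw [div_le_iff₀ halN]
    have h1 : ((1 - 2 / (r : ℝ)) - ε) * N ≤ (al r - ε * al r) * N := by
      refine mul_le_mul_of_nonneg_right ?_ hNpos.le
      have h7 : ε * al r ≤ ε * 1 := mul_le_mul_of_nonneg_left hal2.le hε.le
      have h8 : al r = 1 - 1 / r := rfl
      have h9 : (0 : ℝ) < 1 / r := by positivity
      have h10 : 2 / (r : ℝ) = 1 / r + 1 / r := by ring
      linarith
    calc (j : ℝ) ≤ ((1 - 2 / (r : ℝ)) - ε) * N := hj2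
      _ ≤ (al r - ε * al r) * N := h1
      _ = (1 - ε) * (al r * N) := by ring
  -- data
  obtain ⟨⟨M, hM⟩, ⟨E, hE⟩⟩ := hEVN r V G c H
  obtain ⟨⟨i0, i1, h01, hle, h2⟩, hsec⟩ :=
    hTRV r hr V G c H (nb G H w) w hfree hFD.ind hFD.hw rfl hne
  have hwout : w ∈ out H := mem_out.mpr hFD.hw
  have hSsum := Finset.add_sum_erase (out H) (fun v => dg G H v) hwout
  generalize hSdef : ∑ v ∈ (out H).erase w, dg G H v = S at hSsum
  have hSsum' : ∑ v ∈ out H, (dg G H v : ℝ) = dg G H w + S := by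
    have : ((∑ v ∈ out H, dg G H v : ℕ) : ℝ) = ((dg G H w + S : ℕ) : ℝ) := by
      rw [← hSsum]
    push_cast at this
    exact this
  have hMr : (mis G H c : ℝ) = 2 * M := by rw [hM]; push_cast; ring
  have hEr : (eu G H : ℝ) = 2 * E := by rw [hE]; push_cast; ring
  have hrest : (S : ℝ) + 2 * E ≤ δ * N := by
    have := hFD.rest
    rw [hSsum', hEr] at this
    linarith
  have hmis : 2 * (M : ℝ) ≤ δ * N := by
    have := hFD.mis
    rw [hMr] at this
    exact this
  have hdeg := abs_le.mp hFD.deg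
  have hdgA : dg G H w = (nb G H w).card := rfl
  rw [hdgA] at hdeg
  have ha1 : 1 ≤ (cl (nb G H w) c i1).card := Finset.card_pos.mpr (hne i1)
  have hM1 : 1 ≤ M := by omega
  by_cases hMQ : M = 1 ∧ S = 0 ∧ E = 0
  · obtain ⟨rfl, rfl, rfl⟩ := hMQ
    obtain ⟨v1, v2, h12, h3, h4, h5⟩ := hsec hM
    refine ⟨v1, v2, B1U.wd_of hFD.card hFD.hw hFD.ind hne ?_ hE h12 h3 h4 h5⟩
    intro v hv hvw
    have h6 := Finset.sum_eq_zero_iff.mp hSdef
    exact h6 v (Finset.mem_erase.mpr ⟨hvw, mem_out.mpr hv⟩)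
  · exfalso
    have hMQ2 : 2 ≤ M + (S + E) := by omega
    have hS0 : (0 : ℝ) ≤ S := Nat.cast_nonneg S
    have hE0 : (0 : ℝ) ≤ E := Nat.cast_nonneg E
    have hδN : 100 * (δ * N) ≤ ε * N := by
      have := mul_le_mul_of_nonneg_right hδ1 hNpos.le
      linarith
    have hMA : M + 1 ≤ (nb G H w).card + (S + E) := by
      have h3 : ((M + 1 : ℕ) : ℝ) ≤ (((nb G H w).card + (S + E) : ℕ) : ℝ) := by
        push_cast
        linarith [hdeg.1]
      exact_mod_cast h3
    obtain ⟨b, hb⟩ := Nat.exists_eq_add_of_le hMA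
    have hbr : (b : ℝ) = (nb G H w).card + (S + E) - M - 1 := by
      have : (((nb G H w).card + (S + E) : ℕ) : ℝ) = ((M + 1 + b : ℕ) : ℝ) := by rw [hb]
      push_cast at this
      linarith
    have hrb : r ≤ b + 2 := by
      have h3 : ((r : ℕ) : ℝ) ≤ ((b + 2 : ℕ) : ℝ) := by
        push_cast
        rw [hbr]
        linarith [hdeg.1]
      exact_mod_cast h3
    have hbal0 := abs_le.mp (hFD.bal i0)
    have hbal1 := abs_le.mp (hFD.bal i1)
    have hroom : b + (cl H c i0).card + (cl H c i1).card ≤ H.card := by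
      have h3 : ((b + (cl H c i0).card + (cl H c i1).card : ℕ) : ℝ) ≤ ((H.card : ℕ) : ℝ) := by
        push_cast
        rw [hFD.card, hbr]
        have h4 : ((1 - 2 / (r : ℝ)) - ε) * N ≤ N - 2 * (N / r) - ε * N := by
          have h6 : ((1 - 2 / (r : ℝ)) - ε) * N = N - 2 * (N / r) - ε * N := by ring
          linarith
        have h7 : sz H c i0 = ((cl H c i0).card : ℝ) := rfl
        have h8 : sz H c i1 = ((cl H c i1).card : ℝ) := rfl
        rw [h7] at hbal0
        rw [h8] at hbal1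
        have hM1r : (1 : ℝ) ≤ M := by exact_mod_cast hM1
        linarith [hdeg.2, hbal0.2, hbal1.2]
      exact_mod_cast h3
    obtain ⟨v1, hv1⟩ := hne i0
    obtain ⟨v2, hv2⟩ := hne i1
    obtain ⟨A', hA'H, hA'0, hA'1, hA'ne, hA'card, hA'diff, hA'sum⟩ :=
      B1U.mkA H (nb G H w) c i0 i1 v1 v2 (fun v hv => (mem_nb.mp hv).1) h01 hv1 hv2 hne M (S + E) b
        (by omega) (by omega) (by omega) hrb hroom
    have hc1 : c v1 = i0 := (mem_cl.mp hv1).2
    have hc2 : c v2 = i1 := (mem_cl.mp hv2).2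
    have hWD : WD (gD H c w A' v1 v2) N H c w A' v1 v2 :=
      gD_WD hFD.card hFD.hw hA'H (by rw [hc1, hc2]; exact h01) (by rw [hc1]; exact hA'0)
        (by rw [hc2]; exact hA'1) hA'ne
    obtain ⟨hfree', hcol', hpE'⟩ := hGD r hr V _ N H c w A' v1 v2 hWD
    have hcls : ∀ i, 2 ≤ (cl H c i).card := by
      intro i
      have h3 := abs_le.mp (hFD.bal i)
      have h4 : sz H c i = ((cl H c i).card : ℝ) := rfl
      rw [h4] at h3
      have h5 : 2 ≤ (N : ℝ) / r - δ * N := by
        have h6 : (N : ℝ) / r - δ * N = (1 / r - δ) * N := by ring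
        have h7 : 1 / (2 * (r : ℝ)) ≤ 1 / r - δ := by
          have h8 : δ ≤ 1 / (2 * (r : ℝ)) := by
            rw [le_div_iff₀ (by positivity)]; exact hδ2
          have h9 : 1 / (r : ℝ) = 1 / (2 * r) + 1 / (2 * r) := by field_simp; ring
          linarith
        have h8 : 1 / (2 * (r : ℝ)) * (4 * r) ≤ (1 / r - δ) * N :=
          mul_le_mul h7 hN4 (by positivity) (le_trans (by positivity) h7)
        have h9 : 1 / (2 * (r : ℝ)) * (4 * r) = 2 := by field_simp; ring
        linarith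
      have h6 : ((2 : ℕ) : ℝ) ≤ ((cl H c i).card : ℝ) := by
        push_cast
        linarith [h3.1]
      exact_mod_cast h6
    have hA'r : (A'.card : ℝ) = (nb G H w).card + 1 - M + (S + E) := by
      have : ((A'.card + M : ℕ) : ℝ) = (((nb G H w).card + 1 + (S + E) : ℕ) : ℝ) := by
        rw [hA'card]
      push_cast at this
      linarith
    have hpE : pE (gD H c w A' v1 v2) = pE G := by
      rw [hpE', hEID r V G c H hFD.ind, hSsum', hMr, hEr, hFD.card, hA'r, hdgA]
      ring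
    have hspec := hMX _ hfree' (hcol' hcls) hpE
    have : Nonempty V := ⟨w⟩
    have hray := rayleigh (gD H c w A' v1 v2) x
    rw [hFD.pv.unit, mul_one] at hray
    have hform := hFD.pv.form
    have hrad := hFD.pv.rad
    -- scaling
    have hsq : √(N : ℝ) * √(N : ℝ) = N := Real.mul_self_sqrt hNpos.le
    have hscale : ∀ F : V → V → ℝ, ∑ a, ∑ b, F a b * ((x a * √(N : ℝ)) * (x b * √(N : ℝ)))
        = N * ∑ a, ∑ b, F a b * (x a * x b) := by
      intro F
      rw [Finset.mul_sum]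
      refine Finset.sum_congr rfl fun a _ => ?_
      rw [Finset.mul_sum]
      refine Finset.sum_congr rfl fun b _ => ?_
      calc F a b * ((x a * √(N : ℝ)) * (x b * √(N : ℝ)))
          = (√(N : ℝ) * √(N : ℝ)) * (F a b * (x a * x b)) := by ring
        _ = N * (F a b * (x a * x b)) := by rw [hsq]
    have hcmp : ∑ a, ∑ b, ad (gD H c w A' v1 v2) a b * ((x a * √(N : ℝ)) * (x b * √(N : ℝ)))
        ≤ ∑ a, ∑ b, ad G a b * ((x a * √(N : ℝ)) * (x b * √(N : ℝ))) := by
      rw [hscale, hscale]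
      refine mul_le_mul_of_nonneg_left ?_ hNpos.le
      rw [hform, hrad]
      exact hray.trans hspec
    have hsN : 0 ≤ √(N : ℝ) := Real.sqrt_nonneg _
    have hxw := abs_le.mp hFD.xw
    have hQG := B1U.quadG G H c w hFD.hw hFD.ind (fun v => x v * √(N : ℝ)) δ hδ.le (by linarith)
      (fun v => mul_nonneg (hFD.pv.nn v) hsN)
      (fun v hv => by
        have := abs_le.mp (hFD.xH v hv)
        constructor <;> linarith [this.1, this.2])
      (fun v hv hvw => hFD.xo v hv hvw) (by linarith [hxw.2])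
    have hQD := B1U.quadD hWD (fun v => x v * √(N : ℝ))
    rw [hQD] at hcmp
    have hcmp2 := hcmp.trans hQG
    rw [hMr, hEr, hSsum'] at hcmp2
    -- sums over A' and A
    have hsumA : (1 - δ) * ((A'.filter (fun v => v ∉ nb G H w)).card : ℝ)
        - (1 + δ) * (((nb G H w).filter (fun v => v ∉ A')).card : ℝ)
        ≤ ∑ b ∈ A', x b * √(N : ℝ) - ∑ b ∈ nb G H w, x b * √(N : ℝ) := by
      have e1 := Finset.sum_filter_add_sum_filter_not A' (fun v => v ∈ nb G H w)
        (fun v => x v * √(N : ℝ))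
      have e2 := Finset.sum_filter_add_sum_filter_not (nb G H w) (fun v => v ∈ A')
        (fun v => x v * √(N : ℝ))
      have e3 : A'.filter (fun v => v ∈ nb G H w) = (nb G H w).filter (fun v => v ∈ A') := by
        ext v
        rw [Finset.mem_filter, Finset.mem_filter, and_comm]
      rw [e3] at e1
      have e4 : ∑ _v ∈ A'.filter (fun v => v ∉ nb G H w), (1 - δ)
          ≤ ∑ v ∈ A'.filter (fun v => v ∉ nb G H w), x v * √(N : ℝ) := by
        refine Finset.sum_le_sum fun v hv => ?_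
        have h3 := abs_le.mp (hFD.xH v (hA'H (Finset.mem_filter.mp hv).1))
        linarith [h3.1]
      have e5 : ∑ v ∈ (nb G H w).filter (fun v => v ∉ A'), x v * √(N : ℝ)
          ≤ ∑ _v ∈ (nb G H w).filter (fun v => v ∉ A'), (1 + δ) := by
        refine Finset.sum_le_sum fun v hv => ?_
        have h3 := abs_le.mp (hFD.xH v (mem_nb.mp (Finset.mem_filter.mp hv).1).1)
        linarith [h3.2]
      rw [Finset.sum_const, nsmul_eq_mul] at e4 e5
      linarith
    have hvv : x v1 * √(N : ℝ) * (x v2 * √(N : ℝ)) ≤ (1 + δ) ^ 2 := by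
      have h3 := abs_le.mp (hFD.xH v1 (mem_nb.mp (mem_cl.mp hv1).1).1)
      have h4 := abs_le.mp (hFD.xH v2 (mem_nb.mp (mem_cl.mp hv2).1).1)
      rw [sq]
      exact mul_le_mul (by linarith [h3.2]) (by linarith [h4.2])
        (mul_nonneg (hFD.pv.nn v2) hsN) (by linarith)
    have hp1 : (((A'.filter (fun v => v ∉ nb G H w)).card : ℝ)
        - (((nb G H w).filter (fun v => v ∉ A')).card : ℝ)) = 1 - M + ((S : ℝ) + E) := by
      have h3 : ((A'.card : ℤ) : ℝ) - (((nb G H w).card : ℤ) : ℝ)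
          = (((A'.filter (fun v => v ∉ nb G H w)).card : ℤ) : ℝ)
            - ((((nb G H w).filter (fun v => v ∉ A')).card : ℤ) : ℝ) := by
        rw [← Int.cast_sub, ← Int.cast_sub, hA'diff]
      simp only [Int.cast_natCast] at h3
      rw [← h3, hA'r]
      ring
    have hp2 : ((A'.filter (fun v => v ∉ nb G H w)).card : ℝ)
        + (((nb G H w).filter (fun v => v ∉ A')).card : ℝ) + 3 ≤ 3 * M + ((S : ℝ) + E) := by
      exact_mod_cast hA'sum
    have har := B1U.arith δ ε (j / (al r * N)) (x w * √(N : ℝ)) M (S + E)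
      ((A'.filter (fun v => v ∉ nb G H w)).card : ℝ)
      (((nb G H w).filter (fun v => v ∉ A')).card : ℝ) S E hδ hδ1 hε1 hX1 hX2
      (by linarith [hxw.1]) (by linarith [hxw.2]) (by exact_mod_cast hM1) (by linarith)
      (by exact_mod_cast hMQ2) hp1 hp2 rfl
    have hw0 : 0 ≤ x w * √(N : ℝ) := mul_nonneg (hFD.pv.nn w) hsN
    have hfin := mul_le_mul_of_nonneg_left hsumA hw0
    linarith

end Pool.Agent.Work.MP_5532fa_up
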