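import Pool.Agent.Work.MP_5532fa_up.Interface

/-!
# MP_5532fa_co, upgrade: block EDG (numbers of edges)
-/

set_option autoImplicit false

open Finset

namespace Pool.Agent.Work.MP_5532fa_up

open MP5532fa (specRad qf pE)

namespace EDG

variable {V : Type} [Fintype V] {r : ℕ}

omit [Fintype V] in
theorem mis_eq (G : SimpleGraph V) (S : Finset V) (c : V → Fin r) :
    (mis G S c : ℝ) = ∑ u ∈ S, ∑ v ∈ S, chi (c u ≠ c v ∧ ¬ G.Adj u v) := by
  classical
  unfold mis
  rw [Finset.card_filter, Nat.cast_sum, Finset.sum_product]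
  refine Finset.sum_congr rfl fun u _ => Finset.sum_congr rfl fun v _ => ?_
  by_cases h : c u ≠ c v ∧ ¬ G.Adj u v
  · rw [if_pos h, chi_pos h, Nat.cast_one]
  · rw [if_neg h, chi_neg h, Nat.cast_zero]

theorem eo_eq (G : SimpleGraph V) (S : Finset V) :
    (eo G S : ℝ) = ∑ u ∈ out S, ∑ v, ad G u v := by
  classical
  unfold eo
  rw [Finset.card_filter, Nat.cast_sum, ← Finset.univ_product_univ, Finset.sum_product]
  unfold out
  rw [Finset.sum_filter]
  refine Finset.sum_congr rfl fun u _ => ?_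
  by_cases hu : u ∉ S
  · rw [if_pos hu]
    refine Finset.sum_congr rfl fun v _ => ?_
    by_cases h : G.Adj u v
    · rw [if_pos ⟨h, hu⟩]; unfold ad; rw [chi_pos h, Nat.cast_one]
    · rw [if_neg (fun h' => h h'.1)]; unfold ad; rw [chi_neg h, Nat.cast_zero]
  · rw [if_neg hu]
    refine Finset.sum_eq_zero fun v _ => ?_
    rw [if_neg (fun h' => hu h'.2), Nat.cast_zero]

omit [Fintype V] in
theorem ad_nonneg (G : SimpleGraph V) (u v : V) : 0 ≤ ad G u v := chi_nonneg _

theorem main (η K : ℝ) (h0 : 0 < η) (h1 : η ≤ 1 / 4) (hK : 1 ≤ K) (G : SimpleGraph V)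
    (x : V → ℝ) (lam t : ℝ) (c : V → Fin r) (T : Finset V) (hp : PV G x lam)
    (hT : TD r η K G x lam t c T) : TE r (24 * K ^ 2) G x t c T := by
  classical
  have ht := hT.tpos
  obtain ⟨s, hs⟩ : ∃ s, s = √t := ⟨_, rfl⟩
  have hs0 : 0 < s := by rw [hs]; exact Real.sqrt_pos.2 ht
  have hss : s * s = t := by rw [hs]; exact Real.mul_self_sqrt ht.le
  have hKK : K ≤ K ^ 2 := by nlinarith
  have hlo : ∀ v ∈ T, 3 / 4 * s ≤ x v := fun v hv => by
    have := (hT.near v hv).1
    rw [← hs] at this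
    have h2 : 3 / 4 * s ≤ (1 - η) * s := mul_le_mul_of_nonneg_right (by linarith) hs0.le
    linarith
  have hhi : ∀ v ∈ T, x v ≤ 5 / 4 * s := fun v hv => by
    have := (hT.near v hv).2
    rw [← hs] at this
    have h2 : (1 + η) * s ≤ 5 / 4 * s := mul_le_mul_of_nonneg_right (by linarith) hs0.le
    linarith
  have hpr : ∀ u ∈ T, ∀ v ∈ T, 9 / 16 * t ≤ x u * x v ∧ x u * x v ≤ 25 / 16 * t := by
    intro u hu v hv
    constructor
    · have := mul_le_mul (hlo u hu) (hlo v hv) (by positivity) (hp.nn u)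
      calc 9 / 16 * t = 3 / 4 * s * (3 / 4 * s) := by rw [← hss]; ring
        _ ≤ _ := this
    · have := mul_le_mul (hhi u hu) (hhi v hv) (hp.nn v) (by positivity)
      calc x u * x v ≤ 5 / 4 * s * (5 / 4 * s) := this
        _ = 25 / 16 * t := by rw [← hss]; ring
  -- `mis`
  have hmis : (mis G T c : ℝ) * t ≤ 4 * K := by
    have e1 : (mis G T c : ℝ) * (t ^ 2 / 4) ≤ K * t := by
      rw [mis_eq, Finset.sum_mul]
      refine le_trans ?_ hT.cross
      refine Finset.sum_le_sum fun u hu => ?_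
      rw [Finset.sum_mul]
      refine Finset.sum_le_sum fun v hv => ?_
      refine mul_le_mul_of_nonneg_left ?_ (chi_nonneg _)
      have h3 := (hpr u hu v hv).1
      have h4 : (9 / 16 * t) * (9 / 16 * t) ≤ (x u * x v) * (x u * x v) :=
        mul_le_mul h3 h3 (by positivity) (mul_nonneg (hp.nn u) (hp.nn v))
      have h5 : x u ^ 2 * x v ^ 2 = (x u * x v) * (x u * x v) := by ring
      rw [h5]
      nlinarith [sq_nonneg t]
    have e2 : ((mis G T c : ℝ) * t) * t ≤ (4 * K) * t := by nlinarith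
    exact le_of_mul_le_mul_right e2 ht
  -- `eo`
  have hout : ∑ u ∈ out T, ∑ v, ad G u v * (x u * x v) ≤ lam * (K * t) := by
    have e1 : ∀ u ∈ out T, ∑ v, ad G u v * (x u * x v) = lam * x u ^ 2 := by
      intro u _
      have : ∑ v, ad G u v * (x u * x v) = x u * ∑ v, ad G u v * x v := by
        rw [Finset.mul_sum]; exact Finset.sum_congr rfl fun v _ => by ring
      rw [this, hp.eig]; ring
    rw [Finset.sum_congr rfl e1, ← Finset.mul_sum]
    refine mul_le_mul_of_nonneg_left hT.rest ?_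
    by_contra hneg
    push Not at hneg
    nlinarith [hT.lamt2]
  have heo : (eo G T : ℝ) * t ≤ 6 * K := by
    have e1 : (eo G T : ℝ) * t ^ 2 ≤ 6 * K * t := by
      have e2 : (eo G T : ℝ) * t ^ 2 ≤ ∑ u ∈ out T, ∑ v,
          (4 * (ad G u v * (x u * x v - t) ^ 2) + 2 * t * (ad G u v * (x u * x v))) := by
        rw [eo_eq, Finset.sum_mul]
        refine Finset.sum_le_sum fun u _ => ?_
        rw [Finset.sum_mul]
        refine Finset.sum_le_sum fun v _ => ?_
        have h3 : t ^ 2 ≤ 4 * (x u * x v - t) ^ 2 + 2 * t * (x u * x v) := by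
          nlinarith [sq_nonneg (4 * (x u * x v) - 3 * t), sq_nonneg t]
        have h4 := mul_le_mul_of_nonneg_left h3 (ad_nonneg G u v)
        linarith
      have e3 : ∑ u ∈ out T, ∑ v,
          (4 * (ad G u v * (x u * x v - t) ^ 2) + 2 * t * (ad G u v * (x u * x v))) =
          4 * ∑ u ∈ out T, ∑ v, ad G u v * (x u * x v - t) ^ 2 +
          2 * t * ∑ u ∈ out T, ∑ v, ad G u v * (x u * x v) := by
        rw [Finset.mul_sum, Finset.mul_sum, ← Finset.sum_add_distrib]
        refine Finset.sum_congr rfl fun u _ => ?_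
        rw [Finset.mul_sum, Finset.mul_sum, ← Finset.sum_add_distrib]
      have e4 : ∑ u ∈ out T, ∑ v, ad G u v * (x u * x v - t) ^ 2 ≤ K * t := by
        refine le_trans ?_ hT.esum
        refine Finset.sum_le_sum_of_subset_of_nonneg (Finset.subset_univ _) ?_
        intro u _ _
        exact Finset.sum_nonneg fun v _ => mul_nonneg (ad_nonneg G u v) (sq_nonneg _)
      have e5 : 2 * t * ∑ u ∈ out T, ∑ v, ad G u v * (x u * x v) ≤ 2 * t * (lam * (K * t)) :=
        mul_le_mul_of_nonneg_left hout (by positivity)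
      have e6 : 2 * t * (lam * (K * t)) ≤ 2 * K * t := by
        have h3 := mul_le_mul_of_nonneg_left hT.lamt1 (show 0 ≤ 2 * K * t by positivity)
        calc 2 * t * (lam * (K * t)) = 2 * K * t * (lam * t) := by ring
          _ ≤ 2 * K * t * 1 := h3
          _ = 2 * K * t := by ring
      linarith
    have e2 : ((eo G T : ℝ) * t) * t ≤ (6 * K) * t := by
      calc ((eo G T : ℝ) * t) * t = (eo G T : ℝ) * t ^ 2 := by ring
        _ ≤ _ := e1
    exact le_of_mul_le_mul_right e2 ht
  -- maximum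
  have hxm : ∀ v, x v ≤ 2 * K * s := by
    intro v
    by_cases hv : v ∈ T
    · have := hhi v hv
      nlinarith
    · have e1 : x v ^ 2 ≤ K * t := by
        refine le_trans ?_ hT.rest
        exact Finset.single_le_sum (f := fun v => x v ^ 2) (fun i _ => sq_nonneg _)
          (mem_out.2 hv)
      have e2 : x v ≤ K * s := by
        by_contra hcon
        push Not at hcon
        have h3 : (K * s) * (K * s) < x v * x v :=
          mul_self_lt_mul_self (by positivity) hcon
        have h4 : (K * s) * (K * s) = K ^ 2 * t := by rw [← hss]; ring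
        rw [h4] at h3
        have h5 : K * t ≤ K ^ 2 * t := mul_le_mul_of_nonneg_right hKK ht.le
        nlinarith
      have e3 : 0 ≤ K * s := by positivity
      linarith
  -- sum outside
  have hso : ∑ v ∈ out T, x v ≤ 24 * K ^ 2 * s := by
    have e1 : lam * ∑ v ∈ out T, x v ≤ 2 * K * s * (eo G T : ℝ) := by
      rw [eo_eq, Finset.mul_sum, Finset.mul_sum]
      refine Finset.sum_le_sum fun v _ => ?_
      rw [← hp.eig v, Finset.mul_sum]
      refine Finset.sum_le_sum fun u _ => ?_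
      have := mul_le_mul_of_nonneg_left (hxm u) (ad_nonneg G v u)
      linarith
    have e2 : 0 ≤ ∑ v ∈ out T, x v := Finset.sum_nonneg fun v _ => hp.nn v
    have e3 : 1 / 2 * ∑ v ∈ out T, x v ≤ lam * t * ∑ v ∈ out T, x v :=
      mul_le_mul_of_nonneg_right hT.lamt2 e2
    have e4 : lam * t * ∑ v ∈ out T, x v ≤ 2 * K * s * (6 * K) := by
      calc lam * t * ∑ v ∈ out T, x v = t * (lam * ∑ v ∈ out T, x v) := by ring
        _ ≤ t * (2 * K * s * (eo G T : ℝ)) := mul_le_mul_of_nonneg_left e1 ht.le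
        _ = 2 * K * s * ((eo G T : ℝ) * t) := by ring
        _ ≤ 2 * K * s * (6 * K) := mul_le_mul_of_nonneg_left heo (by positivity)
    nlinarith
  -- deviations
  have hdev : ∑ u ∈ T, ∑ v ∈ T, chi (c u ≠ c v) * (x u * x v - t) ^ 2 ≤ 5 * K * t := by
    have e1 : ∑ u ∈ T, ∑ v ∈ T, chi (c u ≠ c v) * (x u * x v - t) ^ 2 ≤
        ∑ u ∈ T, ∑ v ∈ T, (ad G u v * (x u * x v - t) ^ 2 +
          chi (c u ≠ c v ∧ ¬ G.Adj u v) * t ^ 2) := by
      refine Finset.sum_le_sum fun u hu => Finset.sum_le_sum fun v hv => ?_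
      have h3 : 0 ≤ ad G u v * (x u * x v - t) ^ 2 := mul_nonneg (ad_nonneg G u v) (sq_nonneg _)
      have h4 : 0 ≤ chi (c u ≠ c v ∧ ¬ G.Adj u v) * t ^ 2 := mul_nonneg (chi_nonneg _) (sq_nonneg _)
      by_cases hc : c u ≠ c v
      · by_cases ha : G.Adj u v
        · rw [chi_pos hc]
          unfold ad
          rw [chi_pos ha]
          linarith
        · rw [chi_pos hc, chi_pos (⟨hc, ha⟩ : c u ≠ c v ∧ ¬ G.Adj u v)]
          have h5 := hpr u hu v hv
          have h6 : (x u * x v - t) ^ 2 ≤ t ^ 2 := by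
            apply sq_le_sq'
            · linarith [h5.1]
            · linarith [h5.2]
          linarith
      · rw [chi_neg hc]
        linarith
    have e2 : ∑ u ∈ T, ∑ v ∈ T, (ad G u v * (x u * x v - t) ^ 2 +
          chi (c u ≠ c v ∧ ¬ G.Adj u v) * t ^ 2) =
        ∑ u ∈ T, ∑ v ∈ T, ad G u v * (x u * x v - t) ^ 2 + (mis G T c : ℝ) * t ^ 2 := by
      rw [mis_eq, Finset.sum_mul, ← Finset.sum_add_distrib]
      refine Finset.sum_congr rfl fun u _ => ?_
      rw [Finset.sum_mul, ← Finset.sum_add_distrib]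
    have e3 : ∑ u ∈ T, ∑ v ∈ T, ad G u v * (x u * x v - t) ^ 2 ≤ K * t := by
      refine le_trans ?_ hT.esum
      refine le_trans (Finset.sum_le_sum fun u _ =>
        Finset.sum_le_sum_of_subset_of_nonneg (Finset.subset_univ T) fun v _ _ =>
          mul_nonneg (ad_nonneg G u v) (sq_nonneg _)) ?_
      refine Finset.sum_le_sum_of_subset_of_nonneg (Finset.subset_univ _) ?_
      intro u _ _
      exact Finset.sum_nonneg fun v _ => mul_nonneg (ad_nonneg G u v) (sq_nonneg _)
    have e4 : (mis G T c : ℝ) * t ^ 2 ≤ 4 * K * t := by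
      calc (mis G T c : ℝ) * t ^ 2 = ((mis G T c : ℝ) * t) * t := by ring
        _ ≤ 4 * K * t := mul_le_mul_of_nonneg_right hmis ht.le
    linarith
  have hK2 : 0 < K ^ 2 := by positivity
  refine ⟨?_, ?_, ?_, ?_, ?_⟩
  · rw [le_div_iff₀ ht]
    linarith
  · rw [le_div_iff₀ ht]
    linarith
  · rw [← hs]
    exact hso
  · intro v
    rw [← hs]
    refine (hxm v).trans (mul_le_mul_of_nonneg_right ?_ hs0.le)
    linarith
  · refine hdev.trans (mul_le_mul_of_nonneg_right ?_ ht.le)
    linarith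

end EDG

theorem blk_EDG : Stmt_EDG := by
  intro r η K _ h0 h1 hK
  refine ⟨24 * K ^ 2, by nlinarith, ?_⟩
  intro V _ G x lam t c T hp hT
  exact EDG.main η K h0 h1 hK G x lam t c T hp hT

end Pool.Agent.Work.MP_5532fa_up
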