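import Pool.Agent.Work.MP_5532fa_up.Interface2
import Pool.Agent.Work.MP_5532fa_up.B1U
import Pool.Agent.Work.MP_5532fa_up.EDG

/-!
# MP_5532fa_co, upgrade, second round: block SM1b
-/

open Finset

namespace Pool.Agent.Work.MP_5532fa_up

open MP5532fa (specRad qf pE)

namespace SM1b

section
variable {V : Type} [Fintype V] {r : ℕ}

theorem c0_mono {δ δ' : ℝ} {N : ℕ} {G : SimpleGraph V} {c : V → Fin r} {H : Finset V}
    (h : C0 r δ N G c H) (hd : δ ≤ δ') : C0 r δ' N G c H where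
  card := h.card
  ind := h.ind
  mis := h.mis.trans (mul_le_mul_of_nonneg_right hd (Nat.cast_nonneg N))
  bal := fun i => (h.bal i).trans (mul_le_mul_of_nonneg_right hd (Nat.cast_nonneg N))
  eo := h.eo.trans (mul_le_mul_of_nonneg_right hd (Nat.cast_nonneg N))

theorem eo_split (G : SimpleGraph V) (H : Finset V) :
    (eo G H : ℝ) = ∑ v ∈ out H, (dg G H v : ℝ) + eu G H := by
  classical
  rw [EDG.eo_eq, ← B1U.eu_sum]
  have h1 : ∑ a, ∑ b, chi (G.Adj a b ∧ a ∉ H ∧ b ∉ H)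
      = ∑ a ∈ out H, ∑ b, chi (G.Adj a b ∧ a ∉ H ∧ b ∉ H) := by
    unfold out
    rw [Finset.sum_filter]
    refine Finset.sum_congr rfl fun a _ => ?_
    by_cases ha : a ∉ H
    · rw [if_pos ha]
    · rw [if_neg ha]
      exact Finset.sum_eq_zero fun b _ => chi_neg fun h => ha h.2.1
  rw [h1, ← Finset.sum_add_distrib]
  refine Finset.sum_congr rfl fun a ha => ?_
  rw [mem_out] at ha
  rw [← B1U.dg_sum, ← Finset.sum_add_distrib]
  refine Finset.sum_congr rfl fun b _ => ?_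
  unfold ad
  by_cases hab : G.Adj a b
  · rw [chi_pos hab]
    by_cases hb : b ∈ H
    · rw [chi_pos (p := b ∈ H ∧ G.Adj a b) ⟨hb, hab⟩,
        chi_neg (p := G.Adj a b ∧ a ∉ H ∧ b ∉ H) (fun h => h.2.2 hb)]
      ring
    · rw [chi_neg (p := b ∈ H ∧ G.Adj a b) (fun h => hb h.1),
        chi_pos (p := G.Adj a b ∧ a ∉ H ∧ b ∉ H) ⟨hab, ha, hb⟩]
      ring
  · rw [chi_neg hab, chi_neg (p := b ∈ H ∧ G.Adj a b) (fun h => hab h.2),
      chi_neg (p := G.Adj a b ∧ a ∉ H ∧ b ∉ H) (fun h => hab h.1)]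
    ring

omit [Fintype V] in
theorem mH_pair {G : SimpleGraph V} {H : Finset V} {c : V → Fin r} {v1 v2 : V} (h1 : v1 ∈ H)
    (h2 : v2 ∈ H) (h12 : v1 ≠ v2)
    (h : ∀ a ∈ H, ∀ b ∈ H, (c a ≠ c b ∧ ¬ G.Adj a b) ↔ ((a = v1 ∧ b = v2) ∨ (a = v2 ∧ b = v1)))
    (x y : V → ℝ) : mH G H c x y = x v1 * y v2 + x v2 * y v1 := by
  classical
  unfold mH
  have e1 : ∀ a ∈ H, ∑ b ∈ H, chi (c a ≠ c b ∧ ¬ G.Adj a b) * (x a * y b)
      = (if a = v1 then x v1 * y v2 else 0) + (if a = v2 then x v2 * y v1 else 0) := by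
    intro a ha
    by_cases ha1 : a = v1
    · rw [if_pos ha1, if_neg (fun h3 => h12 (ha1.symm.trans h3)), add_zero]
      rw [Finset.sum_eq_single v2]
      · rw [chi_pos ((h a ha v2 h2).mpr (Or.inl ⟨ha1, rfl⟩)), ha1, one_mul]
      · intro b hb hb2
        rw [chi_neg, zero_mul]
        intro h3
        rcases (h a ha b hb).mp h3 with h4 | h4
        · exact hb2 h4.2
        · exact h12 (ha1.symm.trans h4.1)
      · intro h3; exact absurd h2 h3
    · rw [if_neg ha1, zero_add]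
      by_cases ha2 : a = v2
      · rw [if_pos ha2, Finset.sum_eq_single v1]
        · rw [chi_pos ((h a ha v1 h1).mpr (Or.inr ⟨ha2, rfl⟩)), ha2, one_mul]
        · intro b hb hb1
          rw [chi_neg, zero_mul]
          intro h3
          rcases (h a ha b hb).mp h3 with h4 | h4
          · exact ha1 h4.1
          · exact hb1 h4.2
        · intro h3; exact absurd h1 h3
      · rw [if_neg ha2]
        refine Finset.sum_eq_zero fun b hb => ?_
        rw [chi_neg, zero_mul]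
        intro h3
        rcases (h a ha b hb).mp h3 with h4 | h4
        · exact ha1 h4.1
        · exact ha2 h4.1
  rw [Finset.sum_congr rfl e1, Finset.sum_add_distrib, Finset.sum_ite_eq', Finset.sum_ite_eq',
    if_pos h1, if_pos h2]

omit [Fintype V] in
theorem mis_mH (G : SimpleGraph V) (H : Finset V) (c : V → Fin r) :
    (mis G H c : ℝ) = mH G H c (fun _ => 1) (fun _ => 1) := by
  rw [EDG.mis_eq]
  unfold mH
  refine Finset.sum_congr rfl fun a _ => Finset.sum_congr rfl fun b _ => ?_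
  ring

omit [Fintype V] in
/-- lower bound for `mH` -/
theorem mH_lower {G : SimpleGraph V} {H : Finset V} {c : V → Fin r} {x y : V → ℝ} {s t : ℝ}
    (hs : 0 ≤ s) (ht : 0 ≤ t) (hx : ∀ v ∈ H, s ≤ x v) (hy : ∀ v ∈ H, t ≤ y v) :
    (mis G H c : ℝ) * (s * t) ≤ mH G H c x y := by
  rw [EDG.mis_eq]
  unfold mH
  rw [Finset.sum_mul]
  refine Finset.sum_le_sum fun a ha => ?_
  rw [Finset.sum_mul]
  refine Finset.sum_le_sum fun b hb => ?_
  refine mul_le_mul_of_nonneg_left ?_ (chi_nonneg _)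
  exact mul_le_mul (hx a ha) (hy b hb) ht (hs.trans (hx a ha))

omit [Fintype V] in
/-- the missing pairs of a graph `WD` -/
theorem wd_pair {G : SimpleGraph V} {N : ℕ} {H : Finset V} {c : V → Fin r} {w v1 v2 : V}
    {A : Finset V} (h : WD G N H c w A v1 v2) :
    v1 ∈ H ∧ v2 ∈ H ∧ v1 ≠ v2 ∧
    ∀ a ∈ H, ∀ b ∈ H, (c a ≠ c b ∧ ¬ G.Adj a b) ↔ ((a = v1 ∧ b = v2) ∨ (a = v2 ∧ b = v1)) := by
  have h1 : v1 ∈ cl A c (c v1) := by rw [h.h1]; exact Finset.mem_singleton_self _
  have h2 : v2 ∈ cl A c (c v2) := by rw [h.h2]; exact Finset.mem_singleton_self _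
  refine ⟨h.hA (mem_cl.mp h1).1, h.hA (mem_cl.mp h2).1, fun h3 => h.h12 (by rw [h3]), ?_⟩
  intro a ha b hb
  have haw : a ≠ w := fun h3 => h.hw (h3 ▸ ha)
  have hbw : b ≠ w := fun h3 => h.hw (h3 ▸ hb)
  rw [h.adj]
  constructor
  · rintro ⟨h3, h4⟩
    by_contra h5
    push Not at h5
    exact h4 (Or.inl ⟨ha, hb, h3, fun h6 => h5.1 h6.1 h6.2, fun h6 => h5.2 h6.1 h6.2⟩)
  · rintro (⟨rfl, rfl⟩ | ⟨rfl, rfl⟩)
    · refine ⟨h.h12, ?_⟩
      rintro (h3 | h3 | h3)
      · exact h3.2.2.2.1 ⟨rfl, rfl⟩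
      · exact haw h3.1
      · exact hbw h3.1
    · refine ⟨h.h12.symm, ?_⟩
      rintro (h3 | h3 | h3)
      · exact h3.2.2.2.2 ⟨rfl, rfl⟩
      · exact haw h3.1
      · exact hbw h3.1

/-- degrees in a graph `WD` -/
theorem wd_deg {G : SimpleGraph V} {N : ℕ} {H : Finset V} {c : V → Fin r} {w v1 v2 : V}
    {A : Finset V} (h : WD G N H c w A v1 v2) :
    nb G H w = A ∧ dg G H w = A.card ∧ (∀ v, v ∉ H → v ≠ w → dg G H v = 0) ∧
    ∑ v ∈ out H, (dg G H v : ℝ) ^ 2 = (A.card : ℝ) ^ 2 := by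
  classical
  have e1 : nb G H w = A := by
    ext b
    rw [mem_nb, h.adj]
    constructor
    · rintro ⟨hb, h3 | h3 | h3⟩
      · exact absurd h3.1 h.hw
      · exact h3.2
      · exact absurd hb (h3.1 ▸ h.hw)
    · intro hb
      exact ⟨h.hA hb, Or.inr (Or.inl ⟨rfl, hb⟩)⟩
  have e2 : dg G H w = A.card := by unfold dg; rw [e1]
  have e3 : ∀ v, v ∉ H → v ≠ w → dg G H v = 0 := by
    intro v hv hvw
    unfold dg
    rw [Finset.card_eq_zero]
    ext b
    rw [mem_nb, h.adj]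
    constructor
    · rintro ⟨hb, h3 | h3 | h3⟩
      · exact absurd h3.1 hv
      · exact absurd h3.1 hvw
      · exact absurd hb (h3.1 ▸ h.hw)
    · intro h3; exact absurd h3 (Finset.notMem_empty _)
  refine ⟨e1, e2, e3, ?_⟩
  rw [Finset.sum_eq_single w]
  · rw [e2]
  · intro v hv hvw
    rw [e3 v (mem_out.mp hv) hvw]; norm_num
  · intro h3; exact absurd (mem_out.mpr h.hw) h3

/-- sum of the squares of the degrees of the other vertices -/
theorem s2_le {G : SimpleGraph V} {H : Finset V} {w : V}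
    (hmax : ∀ v, v ∉ H → dg G H v ≤ dg G H w) :
    ∑ v ∈ out H, (dg G H v : ℝ) ^ 2 - (dg G H w : ℝ) ^ 2
      ≤ (dg G H w : ℝ) * (∑ v ∈ out H, (dg G H v : ℝ) - dg G H w) := by
  have h1 : ∑ v ∈ out H, (dg G H v : ℝ) ^ 2
      ≤ (dg G H w : ℝ) * ∑ v ∈ out H, (dg G H v : ℝ) := by
    rw [Finset.mul_sum]
    refine Finset.sum_le_sum fun v hv => ?_
    rw [sq]
    refine mul_le_mul_of_nonneg_right ?_ (Nat.cast_nonneg _)
    exact_mod_cast hmax v (mem_out.mp hv)
  nlinarith only [h1]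

end

/-- final arithmetic, one missing pair -/
theorem arith1 (e a Q s2 S pq : ℝ) (he : 0 < e) (he1 : e ≤ 1 / 200) (ha : 0 ≤ a) (hQ : 1 ≤ Q)
    (hS : S ≤ Q) (hs2 : s2 ≤ a * S) (hs20 : 0 ≤ s2) (hpq : pq ≤ Q) (hpq0 : 0 ≤ pq) :
    0 < (a + Q) ^ 2 - (s2 + a ^ 2) - 30 * e * (pq * ((a + Q) + a) + 0 + s2 + Q) := by
  have h1 : s2 ≤ a * Q := hs2.trans (mul_le_mul_of_nonneg_left hS ha)
  have h2 : pq * ((a + Q) + a) ≤ Q * ((a + Q) + a) := by
    refine mul_le_mul_of_nonneg_right hpq (by linarith only [ha, hQ])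
  have h3 : 30 * e * (pq * ((a + Q) + a) + 0 + s2 + Q) ≤ 3 / 20 * (Q * ((a + Q) + a) + 0 + a * Q + Q) := by
    have h4 : 0 ≤ pq * ((a + Q) + a) + 0 + s2 + Q := by positivity
    have h5 : 30 * e ≤ 3 / 20 := by linarith only [he1]
    calc 30 * e * (pq * ((a + Q) + a) + 0 + s2 + Q)
        ≤ 3 / 20 * (pq * ((a + Q) + a) + 0 + s2 + Q) := mul_le_mul_of_nonneg_right h5 h4
      _ ≤ 3 / 20 * (Q * ((a + Q) + a) + 0 + a * Q + Q) := by linarith only [h1, h2]
  have h6 : 0 ≤ a * Q := by positivity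
  have h7 : Q ≤ Q * Q := by nlinarith only [hQ]
  nlinarith only [ha, hQ, h1, h3]

/-- final arithmetic, several missing pairs; `m = M - 1` -/
theorem arith2 (e N a Q m s2 S pq X : ℝ) (he : 0 < e) (he1 : e ≤ 1 / 200)
    (ha : 0 ≤ a) (hQ : 0 ≤ Q) (hm : 1 ≤ m) (hS : S ≤ Q) (hs2 : s2 ≤ a * S) (hs20 : 0 ≤ s2)
    (hpq : pq ≤ 3 * m + Q) (hQint : Q = 0 ∨ 1 ≤ Q) (ha' : 0 ≤ a + Q - m)
    (hgN : a + Q ≤ e * N) (hX : N * m / 4 ≤ X) :
    0 < X + ((a + Q - m) ^ 2 - (s2 + a ^ 2)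
      - 30 * e * (pq * ((a + Q - m) + a) + 0 + s2 + Q)) := by
  have h1 : s2 ≤ a * Q := hs2.trans (mul_le_mul_of_nonneg_left hS ha)
  have h2 : pq * ((a + Q - m) + a) ≤ (3 * m + Q) * (2 * (a + Q)) := by
    refine mul_le_mul hpq (by linarith only [hQ, hm]) (by linarith only [ha, ha']) (by linarith only [hQ, hm])
  have h5 : 30 * e ≤ 3 / 20 := by linarith only [he1]
  have h3 : 30 * e * (pq * ((a + Q - m) + a) + 0 + s2 + Q)
      ≤ 30 * e * (3 * m * (2 * (a + Q))) + 3 / 20 * (Q * (2 * a + Q) + a * Q + Q)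
        := by
    have h4 : pq * ((a + Q - m) + a) ≤ 3 * m * (2 * (a + Q)) + Q * (2 * a + Q) := by
      have h6 : (a + Q - m) + a ≤ 2 * a + Q := by linarith only [hm]
      have h7 : pq * ((a + Q - m) + a) ≤ (3 * m + Q) * (2 * a + Q) :=
        mul_le_mul hpq h6 (by linarith only [ha, ha']) (by linarith only [hQ, hm])
      nlinarith only [hm, hs20, ha', h1, h2, h7]
    have h8 : 30 * e * (pq * ((a + Q - m) + a) + 0 + s2 + Q)
        ≤ 30 * e * (3 * m * (2 * (a + Q)) + Q * (2 * a + Q) + a * Q + Q) :=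
      mul_le_mul_of_nonneg_left (by linarith only [h1, h4]) (by positivity)
    have h9 : 30 * e * (Q * (2 * a + Q) + a * Q + Q) ≤ 3 / 20 * (Q * (2 * a + Q) + a * Q + Q) :=
      mul_le_mul_of_nonneg_right h5 (by positivity)
    linarith only [h8, h9]
  have h10 : m * (a + Q) ≤ m * (e * N) := mul_le_mul_of_nonneg_left hgN (by linarith only [hm])
  have h11 : (a + Q - m) ^ 2 = (a + Q) ^ 2 - 2 * m * (a + Q) + m ^ 2 := by ring
  have hN : 0 ≤ N := by
    by_contra hN
    push Not at hN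
    nlinarith only [he, ha, hQ, hgN, hN]
  have h12 : m * (e * N) ≤ m * N / 200 := by
    have : e * N ≤ 1 / 200 * N := mul_le_mul_of_nonneg_right he1 hN
    nlinarith only [hm, this]
  have h13 : 30 * e * (3 * m * (2 * (a + Q))) ≤ 3 / 20 * (3 * m * (2 * (a + Q))) :=
    mul_le_mul_of_nonneg_right h5 (by positivity)
  have h14 : Q ≤ Q * Q := by
    rcases hQint with h | h
    · rw [h]; norm_num
    · nlinarith only [h]
  have h15 : 0 ≤ a * Q := by positivity
  have h16 : 0 < m ^ 2 := by positivity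
  nlinarith only [hQ, hm, ha', hX, h1, h3, h10, h12, h13]

end SM1b

theorem blk_SM1b (hGD : Stmt_GD) (hTRV : Stmt_TRV) (hEID : Stmt_EID) (hEVN : Stmt_EVN)
    (hEST : Stmt_EST1) (hTRF : Stmt_TRF) (hCORE : Stmt_CORE) : Stmt_SM1b := by
  classical
  intro r hr
  obtain ⟨δ1, N1, hδ1, hδ1e, hE1⟩ := hEST r (1 / 200) hr (by norm_num)
  have hr3 : (3 : ℝ) ≤ r := by exact_mod_cast hr
  have hr0 : (0 : ℝ) < r := by linarith only [hr3]
  refine ⟨min (δ1 / 2) (1 / (2 * (r : ℝ))), max N1 (4 * r), lt_min (by positivity) (by positivity),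
    ?_⟩
  have hδa : 2 * min (δ1 / 2) (1 / (2 * (r : ℝ))) ≤ δ1 := by
    have := min_le_left (δ1 / 2) (1 / (2 * (r : ℝ)))
    linarith only [this]
  have hδb : min (δ1 / 2) (1 / (2 * (r : ℝ))) * (2 * r) ≤ 1 := by
    have h1 := min_le_right (δ1 / 2) (1 / (2 * (r : ℝ)))
    rwa [le_div_iff₀ (by positivity)] at h1
  have hδ0 : 0 < min (δ1 / 2) (1 / (2 * (r : ℝ))) := lt_min (by positivity) (by positivity)
  generalize min (δ1 / 2) (1 / (2 * (r : ℝ))) = δ at hδa hδb hδ0
  intro N hN V _ G c H w hC hfree hMX hcnt hw hmax hne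
  have hN1 : N1 ≤ N := (le_max_left _ _).trans hN
  have hN4 : 4 * (r : ℝ) ≤ N := by
    have : 4 * r ≤ N := (le_max_right _ _).trans hN
    exact_mod_cast this
  have hNpos : 0 < (N : ℝ) := by linarith only [hr0, hN4]
  have : Nonempty V := ⟨w⟩
  obtain ⟨x, hx⟩ := exists_PV G
  have hC1 : C0 r δ1 N G c H := SM1b.c0_mono hC (by linarith only [hδa, hδ0])
  obtain ⟨xb, hFl⟩ := hE1 N hN1 V G x _ c H hC1 hx
  obtain ⟨⟨M, hM⟩, ⟨E, hE⟩⟩ := hEVN r V G c H
  obtain ⟨⟨i0', i1', h01', hle', h2'⟩, hsec⟩ := hTRV r hr V G c H (nb G H w) w hfree hC.ind hw rfl hne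
  have ha1 : 1 ≤ (cl (nb G H w) c i1').card := Finset.card_pos.mpr (hne i1')
  have hM1 : 1 ≤ M := by omega
  -- choice of the two classes
  obtain ⟨i0, i1, v1, v2, h01, hv1, hv2, hc0, hc1', hone⟩ : ∃ (i0 i1 : Fin r) (v1 v2 : V),
      i0 ≠ i1 ∧ v1 ∈ cl (nb G H w) c i0 ∧ v2 ∈ cl (nb G H w) c i1 ∧
      (cl (nb G H w) c i0).card ≤ M ∧ (cl (nb G H w) c i1).card ≤ M ∧
      (M = 1 → cl (nb G H w) c (c v1) = {v1} ∧ cl (nb G H w) c (c v2) = {v2} ∧
        ∀ a ∈ H, ∀ b ∈ H, c a ≠ c b →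
          (¬ G.Adj a b ↔ (a = v1 ∧ b = v2) ∨ (a = v2 ∧ b = v1))) := by
    by_cases hM' : M = 1
    · obtain ⟨v1, v2, h3, h4, h5, h6⟩ := hsec (by omega)
      refine ⟨c v1, c v2, v1, v2, h3, ?_, ?_, ?_, ?_, fun _ => ⟨h4, h5, h6⟩⟩
      · rw [h4]; exact Finset.mem_singleton_self _
      · rw [h5]; exact Finset.mem_singleton_self _
      · rw [h4, Finset.card_singleton]; exact hM1
      · rw [h5, Finset.card_singleton]; exact hM1
    · obtain ⟨v1, hv1⟩ := hne i0'
      obtain ⟨v2, hv2⟩ := hne i1'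
      exact ⟨i0', i1', v1, v2, h01', hv1, hv2, by omega, by omega, fun h => absurd h hM'⟩
  have hcv1 : c v1 = i0 := (mem_cl.mp hv1).2
  have hcv2 : c v2 = i1 := (mem_cl.mp hv2).2
  have hv1H : v1 ∈ H := (mem_nb.mp (mem_cl.mp hv1).1).1
  have hv2H : v2 ∈ H := (mem_nb.mp (mem_cl.mp hv2).1).1
  -- degree sums
  have hwout : w ∈ out H := mem_out.mpr hw
  have hSsum := Finset.add_sum_erase (out H) (fun v => dg G H v) hwout
  generalize hSdef : ∑ v ∈ (out H).erase w, dg G H v = S at hSsum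
  have hSsum' : ∑ v ∈ out H, (dg G H v : ℝ) = dg G H w + S := by
    have : ((∑ v ∈ out H, dg G H v : ℕ) : ℝ) = ((dg G H w + S : ℕ) : ℝ) := by
      rw [← hSsum]
    push_cast at this
    exact this
  have hMr : (mis G H c : ℝ) = 2 * M := by rw [hM]; push_cast; ring
  have hEr : (eu G H : ℝ) = 2 * E := by rw [hE]; push_cast; ring
  have heo := SM1b.eo_split G H
  rw [hSsum', hEr] at heo
  have heoN : (dg G H w : ℝ) + S + 2 * E ≤ δ * N := by rw [← heo]; exact hC.eo
  have hdgA : dg G H w = (nb G H w).card := rfl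
  have hcnt' : r + M ≤ dg G H w + (S + E) + 1 := by
    rw [← hSsum, hM, hE] at hcnt
    omega
  by_cases hMQ : M = 1 ∧ S = 0 ∧ E = 0
  · obtain ⟨rfl, rfl, rfl⟩ := hMQ
    obtain ⟨h4, h5, h6⟩ := hone rfl
    refine ⟨v1, v2, B1U.wd_of hC.card hw hC.ind hne ?_ hE (by rw [hcv1, hcv2]; exact h01) h4 h5 h6⟩
    intro v hv hvw
    exact Finset.sum_eq_zero_iff.mp hSdef v (Finset.mem_erase.mpr ⟨hvw, mem_out.mpr hv⟩)
  · exfalso
    have hMA : M + 1 ≤ (nb G H w).card + (S + E) := by rw [← hdgA]; omega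
    obtain ⟨b, hb⟩ := Nat.exists_eq_add_of_le hMA
    have hS0 : (0 : ℝ) ≤ S := Nat.cast_nonneg S
    have hE0 : (0 : ℝ) ≤ E := Nat.cast_nonneg E
    have hbN : (b : ℝ) ≤ δ * N := by
      have h3 : (((nb G H w).card + (S + E) : ℕ) : ℝ) = ((M + 1 + b : ℕ) : ℝ) := by rw [hb]
      push_cast at h3
      rw [hdgA] at heoN
      have h4 : (0 : ℝ) ≤ M := Nat.cast_nonneg M
      linarith only [heoN, h3]
    have hδs : δ ≤ 1 / 6 := by
      have : δ * (2 * 3) ≤ δ * (2 * r) := mul_le_mul_of_nonneg_left (by linarith only [hr3]) hδ0.le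
      linarith only [hδ1e, hδa]
    have hδ200 : δ ≤ 1 / 400 := by linarith only [hδ1e, hδa]
    have hroom : b + (cl H c i0).card + (cl H c i1).card ≤ H.card := by
      have h3 : ((b + (cl H c i0).card + (cl H c i1).card : ℕ) : ℝ) ≤ ((H.card : ℕ) : ℝ) := by
        push_cast
        rw [hC.card]
        have h4 := abs_le.mp (hC.bal i0)
        have h5 := abs_le.mp (hC.bal i1)
        have h6 : sz H c i0 = ((cl H c i0).card : ℝ) := rfl
        have h7 : sz H c i1 = ((cl H c i1).card : ℝ) := rfl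
        rw [h6] at h4
        rw [h7] at h5
        have h8 : (N : ℝ) / r ≤ N / 3 := div_le_div_of_nonneg_left hNpos.le (by norm_num) hr3
        have h9 : δ * N ≤ 1 / 400 * N := mul_le_mul_of_nonneg_right hδ200 hNpos.le
        linarith only [hbN, h8, h9, h4.2, h5.2]
      exact_mod_cast h3
    obtain ⟨A', hA'H, hA'0, hA'1, hA'ne, hA'card, _, hA'sum⟩ :=
      B1U.mkA H (nb G H w) c i0 i1 v1 v2 (fun v hv => (mem_nb.mp hv).1) h01 hv1 hv2 hne M (S + E) b
        hc0 hc1' (by omega) (by rw [hdgA] at hcnt'; omega) hroom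
    have hWD : WD (gD H c w A' v1 v2) N H c w A' v1 v2 :=
      gD_WD hC.card hw hA'H (by rw [hcv1, hcv2]; exact h01) (by rw [hcv1]; exact hA'0)
        (by rw [hcv2]; exact hA'1) hA'ne
    generalize hG' : gD H c w A' v1 v2 = G' at hWD
    obtain ⟨hfree', hcol', hpE'⟩ := hGD r hr V _ N H c w A' v1 v2 hWD
    have hcls : ∀ i, 2 ≤ (cl H c i).card := by
      intro i
      have h3 := abs_le.mp (hC.bal i)
      have h4 : sz H c i = ((cl H c i).card : ℝ) := rfl
      rw [h4] at h3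
      have h5 : 2 ≤ (N : ℝ) / r - δ * N := by
        have h6 : (N : ℝ) / r - δ * N = (1 / r - δ) * N := by ring
        have h7 : 1 / (2 * (r : ℝ)) ≤ 1 / r - δ := by
          have h8 : δ ≤ 1 / (2 * (r : ℝ)) := by
            rw [le_div_iff₀ (by positivity)]; exact hδb
          have h9 : 1 / (r : ℝ) = 1 / (2 * r) + 1 / (2 * r) := by field_simp; ring
          linarith only [h8, h9]
        have h8 : 1 / (2 * (r : ℝ)) * (4 * r) ≤ (1 / r - δ) * N :=
          mul_le_mul h7 hN4 (by positivity) (le_trans (by positivity) h7)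
        have h9 : 1 / (2 * (r : ℝ)) * (4 * r) = 2 := by field_simp; ring
        linarith only [h6, h8, h9]
      have h6 : ((2 : ℕ) : ℝ) ≤ ((cl H c i).card : ℝ) := by
        push_cast
        linarith only [h5, h3.1]
      exact_mod_cast h6
    have hA'r : (A'.card : ℝ) = dg G H w + 1 - M + (S + E) := by
      have : ((A'.card + M : ℕ) : ℝ) = (((nb G H w).card + 1 + (S + E) : ℕ) : ℝ) := by
        rw [hA'card]
      push_cast at this
      rw [hdgA]
      linarith only [this]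
    have hpE : pE G' = pE G := by
      rw [hpE', hEID r V G c H hC.ind, hSsum', hMr, hEr, hC.card, hA'r]
      ring
    have hspec := hMX _ hfree' (hcol' hcls) hpE
    obtain ⟨y, hy⟩ := exists_PV G'
    obtain ⟨hp1, hp2, hp12, hpair⟩ := SM1b.wd_pair hWD
    have hmis' : (mis G' H c : ℝ) = 2 := by
      rw [SM1b.mis_mH, SM1b.mH_pair hp1 hp2 hp12 hpair]; norm_num
    have hmisle : mis G' H c ≤ mis G H c := by
      have h3 : mis G' H c = 2 := by exact_mod_cast hmis'
      rw [h3, hM]; omega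
    have hind' : ∀ u ∈ H, ∀ v ∈ H, c u = c v → ¬ G'.Adj u v := by
      intro u hu v hv huv hadj
      rw [hWD.adj] at hadj
      rcases hadj with h3 | h3 | h3
      · exact h3.2.2.1 huv
      · exact hw (h3.1 ▸ hu)
      · exact hw (h3.1 ▸ hv)
    have hC' : C0 r δ1 N G' c H :=
      SM1b.c0_mono (hTRF r δ N V G G' c H hC hind' hpE hmisle) hδa
    obtain ⟨yb, hFl'⟩ := hE1 N hN1 V G' y _ c H hC' hy
    have hcore := hCORE r hr V G G' c H w x y _ _ xb yb (1 / 200) N (by norm_num) (by norm_num)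
      (by have : (1 : ℝ) ≤ N := by linarith only [hr3, hN4]
          exact_mod_cast this) (SM1b.c0_mono hC1 hδ1e) hind' hw hx hy hFl hFl' hspec
    obtain ⟨hnbw, hdgw, _, hsq⟩ := SM1b.wd_deg hWD
    rw [hsq, hnbw, hdgw, SM1b.mH_pair hp1 hp2 hp12 hpair, hSsum', hEr] at hcore
    have hs2 := SM1b.s2_le hmax
    rw [hSsum'] at hs2
    have hs20 : 0 ≤ ∑ v ∈ out H, (dg G H v : ℝ) ^ 2 - (dg G H w : ℝ) ^ 2 := by
      have := Finset.single_le_sum (f := fun v => (dg G H v : ℝ) ^ 2) (fun v _ => sq_nonneg _) hwout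
      linarith only [this]
    generalize ∑ v ∈ out H, (dg G H v : ℝ) ^ 2 = T at hs2 hs20 hcore
    have hxb := hFl.xb0
    have hyb := hFl'.xb0
    have hxy : 0 < xb * yb := mul_pos hxb hyb
    have hxH : ∀ v ∈ H, 199 / 200 * xb ≤ x v ∧ x v ≤ 201 / 200 * xb := by
      intro v hv
      have := abs_le.mp (hFl.xH v hv)
      constructor <;> linarith only [this.1, this.2]
    have hyH : ∀ v ∈ H, 199 / 200 * yb ≤ y v ∧ y v ≤ 201 / 200 * yb := by
      intro v hv
      have := abs_le.mp (hFl'.xH v hv)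
      constructor <;> linarith only [this.1, this.2]
    have hpqn : (df A' (nb G H w)).card + (df (nb G H w) A').card + 3 ≤ 3 * M + (S + E) := by
      unfold df
      exact hA'sum
    have hpq : ((df A' (nb G H w)).card : ℝ) + (df (nb G H w) A').card + 3
        ≤ 3 * M + (S + E) := by
      exact_mod_cast hpqn
    have hpq0 : (0 : ℝ) ≤ (df A' (nb G H w)).card + (df (nb G H w) A').card := by positivity
    generalize ((df A' (nb G H w)).card : ℝ) + (df (nb G H w) A').card = pq at hpq hpq0 hcore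
    have ha0 : (0 : ℝ) ≤ dg G H w := Nat.cast_nonneg _
    rw [hA'r] at hcore
    have hM1r : (1 : ℝ) ≤ M := by exact_mod_cast hM1
    by_cases hM' : M = 1
    · -- one missing pair
      obtain ⟨h4, h5, h6⟩ := hone hM'
      have hmHG : mH G H c x y = x v1 * y v2 + x v2 * y v1 := by
        refine SM1b.mH_pair hv1H hv2H hp12 ?_ x y
        intro a ha b hb
        constructor
        · rintro ⟨h7, h8⟩; exact (h6 a ha b hb h7).mp h8
        · intro h7
          have h8 : c a ≠ c b := by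
            rcases h7 with ⟨rfl, rfl⟩ | ⟨rfl, rfl⟩
            · rw [hcv1, hcv2]; exact h01
            · rw [hcv1, hcv2]; exact h01.symm
          exact ⟨h8, (h6 a ha b hb h8).mpr h7⟩
      have hMr1 : (M : ℝ) = 1 := by exact_mod_cast hM'
      rw [hmHG, hMr1] at hcore
      rw [hMr1] at hpq
      have hQ1 : (1 : ℝ) ≤ (S : ℝ) + E := by
        have : 1 ≤ S + E := by omega
        exact_mod_cast this
      have har := SM1b.arith1 (1 / 200) (dg G H w) ((S : ℝ) + E) (T - (dg G H w : ℝ) ^ 2) S pq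
        (by norm_num) (by norm_num) ha0 hQ1 (by linarith only []) (by linarith only [hs2]) hs20 (by linarith only [hpq]) hpq0
      have har2 := mul_pos hxy har
      have e1 : xb * yb * ((↑(dg G H w) + (↑S + ↑E)) ^ 2
          - (T - (dg G H w : ℝ) ^ 2 + (dg G H w : ℝ) ^ 2) - 30 * (1 / 200)
          * (pq * (↑(dg G H w) + (↑S + ↑E) + ↑(dg G H w)) + 0 + (T - (dg G H w : ℝ) ^ 2)
            + (↑S + ↑E)))
          = Real.sqrt 0 + (specRad G * (x v1 * y v2 + x v2 * y v1 - (x v1 * y v2 + x v2 * y v1))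
            + xb * yb * (((dg G H w : ℝ) + 1 - 1 + (S + E)) ^ 2 - T
            - 30 * (1 / 200) * (pq * ((dg G H w : ℝ) + 1 - 1 + (S + E) + dg G H w)
              + (((dg G H w : ℝ) + 1 - 1 + (S + E)) ^ 2 - ((dg G H w : ℝ) + 1 - 1 + (S + E)) ^ 2)
              + (T - (dg G H w : ℝ) ^ 2) + ((dg G H w : ℝ) + S - dg G H w + 2 * E / 2)))) := by
        rw [Real.sqrt_zero]; ring
      rw [e1, Real.sqrt_zero, zero_add] at har2
      exact absurd hcore (not_le.mpr har2)
    · have hM2 : 2 ≤ M := by omega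
      have hM2r : (2 : ℝ) ≤ M := by exact_mod_cast hM2
      have hlow := SM1b.mH_lower (G := G) (H := H) (c := c) (x := x) (y := y)
        (s := 199 / 200 * xb) (t := 199 / 200 * yb) (by positivity) (by positivity)
        (fun v hv => (hxH v hv).1) (fun v hv => (hyH v hv).1)
      rw [hMr] at hlow
      have hup1 : x v1 * y v2 ≤ 201 / 200 * xb * (201 / 200 * yb) :=
        mul_le_mul (hxH v1 hv1H).2 (hyH v2 hv2H).2 (hy.nn v2) (by positivity)
      have hup2 : x v2 * y v1 ≤ 201 / 200 * xb * (201 / 200 * yb) :=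
        mul_le_mul (hxH v2 hv2H).2 (hyH v1 hv1H).2 (hy.nn v1) (by positivity)
      have hdiff : 3 / 2 * (M - 1) * (xb * yb)
          ≤ mH G H c x y - (x v1 * y v2 + x v2 * y v1) := by
        have h3 : 2 * (M : ℝ) * (199 / 200 * xb * (199 / 200 * yb))
            - 2 * (201 / 200 * xb * (201 / 200 * yb)) - 3 / 2 * (M - 1) * (xb * yb)
            = (2 * M * (39601 / 40000) - 2 * (40401 / 40000) - 3 / 2 * (M - 1)) * (xb * yb) := by
          ring
        have h4 : 0 ≤ (2 * (M : ℝ) * (39601 / 40000) - 2 * (40401 / 40000) - 3 / 2 * (M - 1))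
            * (xb * yb) := mul_nonneg (by linarith only [hM2r]) hxy.le
        linarith only [hlow, hup1, hup2, h4]
      have hlamN := abs_le.mp hFl.lamN
      have halr := al_ge hr
      have hlam : N / 2 ≤ specRad G := by
        have h3 : 2 / 3 * (N : ℝ) ≤ al r * N := mul_le_mul_of_nonneg_right halr hNpos.le
        linarith only [h3, hlamN.1]
      have hX : N * (M - 1) / 4 ≤ specRad G * (3 / 2 * (M - 1)) := by
        have h3 : N / 2 * (3 / 2 * ((M : ℝ) - 1)) ≤ specRad G * (3 / 2 * (M - 1)) :=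
          mul_le_mul_of_nonneg_right hlam (by linarith only [hM2r])
        have h4 : 0 ≤ (N : ℝ) * (M - 1) := mul_nonneg hNpos.le (by linarith only [hM2r])
        linarith only [h3, h4]
      have hlam0 : 0 ≤ specRad G := by linarith only [hbN, hlam]
      have hQint : (S : ℝ) + E = 0 ∨ 1 ≤ (S : ℝ) + E := by
        rcases Nat.eq_zero_or_pos (S + E) with h | h
        · left; exact_mod_cast h
        · right; exact_mod_cast h
      have hA'nn : (0 : ℝ) ≤ (dg G H w : ℝ) + (S + E) - (M - 1) := by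
        have : (0 : ℝ) ≤ (A'.card : ℝ) := Nat.cast_nonneg _
        rw [hA'r] at this
        linarith only [this]
      have har := SM1b.arith2 (1 / 200) N (dg G H w) ((S : ℝ) + E) (M - 1)
        (T - (dg G H w : ℝ) ^ 2) S pq (specRad G * (3 / 2 * (M - 1))) (by norm_num) (by norm_num)
        ha0 (by linarith only []) (by linarith only [hM2r]) (by linarith only []) (by linarith only [hs2]) hs20 (by linarith only [hpq])
        hQint hA'nn (by
          have : δ * N ≤ 1 / 200 * N := mul_le_mul_of_nonneg_right (by linarith only [hδ200]) hNpos.le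
          linarith only [heoN, this]) hX
      have har2 := mul_pos hxy har
      have h3 := mul_le_mul_of_nonneg_left hdiff hlam0
      have e1 : xb * yb * (specRad G * (3 / 2 * (M - 1))
          + ((↑(dg G H w) + (↑S + ↑E) - (↑M - 1)) ^ 2
          - (T - (dg G H w : ℝ) ^ 2 + (dg G H w : ℝ) ^ 2) - 30 * (1 / 200)
          * (pq * (↑(dg G H w) + (↑S + ↑E) - (↑M - 1) + ↑(dg G H w)) + 0
            + (T - (dg G H w : ℝ) ^ 2) + (↑S + ↑E))))
          = specRad G * (3 / 2 * (M - 1) * (xb * yb))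
            + xb * yb * (((dg G H w : ℝ) + 1 - M + (S + E)) ^ 2 - T
            - 30 * (1 / 200) * (pq * ((dg G H w : ℝ) + 1 - M + (S + E) + dg G H w)
              + (((dg G H w : ℝ) + 1 - M + (S + E)) ^ 2 - ((dg G H w : ℝ) + 1 - M + (S + E)) ^ 2)
              + (T - (dg G H w : ℝ) ^ 2) + ((dg G H w : ℝ) + S - dg G H w + 2 * E / 2))) := by
        ring
      rw [e1] at har2
      linarith only [hcore, har2, h3]

end Pool.Agent.Work.MP_5532fa_up
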