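import Pool.Agent.Work.MP_5532fa_up.Interface

/-!
# MP_5532fa_co, block EID (helper83): counting the edges
-/

set_option autoImplicit false

open Finset

namespace Pool.Agent.Work.MP_5532fa_up

open MP5532fa (specRad qf pE)

namespace EID

variable {V : Type} [Fintype V] {r : ℕ}

theorem sum_split (H : Finset V) (f : V → ℝ) :
    ∑ v, f v = ∑ v ∈ H, f v + ∑ v ∈ out H, f v := by
  classical
  rw [← sum_filter_add_sum_filter_not univ (fun v => v ∈ H)]
  have e1 : univ.filter (fun v => v ∈ H) = H := by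
    ext v
    simp
  have e2 : univ.filter (fun v => ¬ v ∈ H) = out H := by
    ext v
    rw [mem_out]
    simp
  rw [e1, e2]

theorem card_chi {W : Type} (s : Finset W) (p : W → Prop) [DecidablePred p] :
    ((s.filter p).card : ℝ) = ∑ w ∈ s, chi (p w) := by
  rw [card_filter]
  push_cast
  apply sum_congr rfl
  intro w _
  by_cases h : p w
  · rw [chi_pos h, if_pos h]
  · rw [chi_neg h, if_neg h]

omit [Fintype V] in
theorem mis_eq (G : SimpleGraph V) (S : Finset V) (c : V → Fin r) :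
    (mis G S c : ℝ) = ∑ a ∈ S, ∑ b ∈ S, chi (c a ≠ c b ∧ ¬ G.Adj a b) := by
  unfold mis
  rw [card_chi, sum_product]

theorem eu_eq (G : SimpleGraph V) (S : Finset V) :
    (eu G S : ℝ) = ∑ a ∈ out S, ∑ b ∈ out S, ad G a b := by
  unfold eu
  rw [card_chi, ← univ_product_univ, sum_product, sum_split S]
  have h1 : ∑ a ∈ S, ∑ b, chi (G.Adj a b ∧ a ∉ S ∧ b ∉ S) = 0 := by
    apply sum_eq_zero
    intro a ha
    apply sum_eq_zero
    intro b _
    exact chi_neg fun h => h.2.1 ha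
  rw [h1, zero_add]
  apply sum_congr rfl
  intro a ha
  rw [mem_out] at ha
  rw [sum_split S]
  have h2 : ∑ b ∈ S, chi (G.Adj a b ∧ a ∉ S ∧ b ∉ S) = 0 := by
    apply sum_eq_zero
    intro b hb
    exact chi_neg fun h => h.2.2 hb
  rw [h2, zero_add]
  apply sum_congr rfl
  intro b hb
  rw [mem_out] at hb
  exact chi_congr ⟨fun h => h.1, fun h => ⟨h, ha, hb⟩⟩

omit [Fintype V] in
theorem dg_eq (G : SimpleGraph V) (S : Finset V) (v : V) :
    (dg G S v : ℝ) = ∑ u ∈ S, ad G v u := by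
  unfold dg nb
  rw [card_chi]
  rfl

omit [Fintype V] in
theorem sum_ne (S : Finset V) (c : V → Fin r) :
    ∑ a ∈ S, ∑ b ∈ S, chi (c a ≠ c b) = (S.card : ℝ) ^ 2 - ∑ i, sz S c i ^ 2 := by
  classical
  have h1 : ∀ a ∈ S, ∑ b ∈ S, chi (c a ≠ c b) = (S.card : ℝ) - sz S c (c a) := by
    intro a _
    have h2 : ∀ b ∈ S, chi (c a ≠ c b) = 1 - chi (c b = c a) := by
      intro b _
      by_cases h : c b = c a
      · rw [chi_pos h, chi_neg (fun h' => h' h.symm)]
        ring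
      · rw [chi_neg h, chi_pos (fun h' => h h'.symm)]
        ring
    rw [sum_congr rfl h2, sum_sub_distrib, sum_const, nsmul_eq_mul, mul_one, ← card_chi]
    unfold sz cl
    congr 3
  rw [sum_congr rfl h1, sum_sub_distrib, sum_const, nsmul_eq_mul, ← sq]
  congr 1
  rw [← sum_cl S c]
  apply sum_congr rfl
  intro i _
  have h3 : ∀ v ∈ cl S c i, sz S c (c v) = sz S c i := by
    intro v hv
    rw [(mem_cl.mp hv).2]
  rw [sum_congr rfl h3, sum_const, nsmul_eq_mul, sq]
  rfl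

end EID

theorem blk_EID : Stmt_EID := by
  classical
  intro r V _ G c H hind
  rw [pE_ad, EID.sum_split H]
  have e1 : ∑ a ∈ H, ∑ b, ad G a b = ∑ a ∈ H, ∑ b ∈ H, ad G a b +
      ∑ a ∈ H, ∑ b ∈ out H, ad G a b := by
    rw [← sum_add_distrib]
    exact sum_congr rfl fun a _ => EID.sum_split H _
  have e2 : ∑ a ∈ out H, ∑ b, ad G a b = ∑ a ∈ out H, ∑ b ∈ H, ad G a b +
      ∑ a ∈ out H, ∑ b ∈ out H, ad G a b := by
    rw [← sum_add_distrib]
    exact sum_congr rfl fun a _ => EID.sum_split H _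
  have e3 : ∑ a ∈ out H, ∑ b ∈ H, ad G a b = ∑ v ∈ out H, (dg G H v : ℝ) :=
    sum_congr rfl fun a _ => (EID.dg_eq G H a).symm
  have e4 : ∑ a ∈ H, ∑ b ∈ out H, ad G a b = ∑ v ∈ out H, (dg G H v : ℝ) := by
    rw [sum_comm, ← e3]
    exact sum_congr rfl fun a _ => sum_congr rfl fun b _ => ad_comm G b a
  have e5 : ∑ a ∈ H, ∑ b ∈ H, ad G a b = (H.card : ℝ) ^ 2 - ∑ i, sz H c i ^ 2 - mis G H c := by
    rw [← EID.sum_ne, EID.mis_eq, ← sum_sub_distrib]
    apply sum_congr rfl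
    intro a ha
    rw [← sum_sub_distrib]
    apply sum_congr rfl
    intro b hb
    unfold ad
    by_cases h : c a = c b
    · rw [chi_neg (hind a ha b hb h), chi_neg (fun h' : c a ≠ c b => h' h),
        chi_neg (fun h' : c a ≠ c b ∧ ¬ G.Adj a b => h'.1 h)]
      ring
    · by_cases h2 : G.Adj a b
      · rw [chi_pos h2, chi_pos h, chi_neg (fun h' : c a ≠ c b ∧ ¬ G.Adj a b => h'.2 h2)]
        ring
      · rw [chi_neg h2, chi_pos h, chi_pos (⟨h, h2⟩ : c a ≠ c b ∧ ¬ G.Adj a b)]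
        ring
  rw [e1, e2, e3, e4, e5, EID.eu_eq]
  ring

end Pool.Agent.Work.MP_5532fa_up
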