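import Pool.Agent.Work.MP_5532fa_up.Interface2
import Pool.Agent.Work.MP_5532fa_up.EDG
import Pool.Agent.Work.MP_5532fa_up.EID

open Finset

namespace Pool.Agent.Work.MP_5532fa_up

open MP5532fa (specRad qf pE)

namespace TRF

/-- `eo` counts the edges to `H` once and the edges outside `H` twice -/
theorem eo_dg {V : Type} [Fintype V] (G : SimpleGraph V) (H : Finset V) :
    (eo G H : ℝ) = ∑ v ∈ out H, (dg G H v : ℝ) + eu G H := by
  rw [EDG.eo_eq, EID.eu_eq, ← Finset.sum_add_distrib]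
  refine Finset.sum_congr rfl fun v _ => ?_
  rw [EID.dg_eq, EID.sum_split H]

end TRF

theorem blk_TRF (h1 : Stmt_EID) : Stmt_TRF := by
  intro r δ N V _ G G' c H hC hind hpE hmis
  have e1 := h1 r V G c H hC.ind
  have e2 := h1 r V G' c H hind
  have e3 := TRF.eo_dg G H
  have e4 := TRF.eo_dg G' H
  have m1 : (mis G' H c : ℝ) ≤ mis G H c := by exact_mod_cast hmis
  have m2 : (0 : ℝ) ≤ mis G' H c := Nat.cast_nonneg _
  have m3 : (0 : ℝ) ≤ eu G' H := Nat.cast_nonneg _
  have m4 : (0 : ℝ) ≤ eu G H := Nat.cast_nonneg _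
  have m7 : (0 : ℝ) ≤ ∑ v ∈ out H, (dg G' H v : ℝ) :=
    Finset.sum_nonneg fun v _ => Nat.cast_nonneg _
  have m5 := hC.mis
  have m6 := hC.eo
  refine ⟨hC.card, hind, ?_, ?_, ?_⟩
  · linarith
  · intro i
    have := hC.bal i
    linarith
  · linarith

end Pool.Agent.Work.MP_5532fa_up
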