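import Pool.Agent.Work.MP_5532fa_up.Interface4
import Pool.Agent.Work.MP_5532fa_up.SM1b
import Pool.Agent.Work.MP_5532fa_up.TRF

/-!
# MP_5532fa_co, upgrade, fourth round, block BIG: the largest class is as large as possible
-/

open Finset

namespace Pool.Agent.Work.MP_5532fa_up

open MP5532fa (specRad qf pE)

namespace BIG

theorem sum_dev {r n : ℕ} (hr : 3 ≤ r) {y : Fin r → ℝ} (h : ∑ i, y i = n) :
    ∑ i, (y i - n / r) = 0 := by
  have hr0 : (r : ℝ) ≠ 0 := by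
    have : 0 < r := by omega
    positivity
  rw [Finset.sum_sub_distrib, h, Finset.sum_const, Finset.card_univ, Fintype.card_fin,
    nsmul_eq_mul]
  field_simp
  ring

/-- the second moment -/
theorem mo2_eq {r n : ℕ} (hr : 3 ≤ r) {y : Fin r → ℝ} (h : ∑ i, y i = n) :
    mo 2 n y = ∑ i, y i ^ 2 - (n : ℝ) ^ 2 / r := by
  have hr0 : (r : ℝ) ≠ 0 := by
    have : 0 < r := by omega
    positivity
  unfold mo
  have e1 : ∀ i, (y i - n / r) ^ 2 = y i ^ 2 - 2 * ((n : ℝ) / r) * y i + (n / r) ^ 2 := by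
    intro i; ring
  simp only [e1]
  rw [Finset.sum_add_distrib, Finset.sum_sub_distrib, ← Finset.mul_sum, h, Finset.sum_const,
    Finset.card_univ, Fintype.card_fin, nsmul_eq_mul]
  field_simp
  ring

theorem dev_le {r n : ℕ} (y : Fin r → ℝ) (i : Fin r) : (y i - n / r) ^ 2 ≤ mo 2 n y := by
  unfold mo
  exact Finset.single_le_sum (f := fun i => (y i - (n : ℝ) / r) ^ 2)
    (fun i _ => sq_nonneg _) (Finset.mem_univ i)

/-- the deviations are small -/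
theorem dev_small {r n : ℕ} {y : Fin r → ℝ} {δ : ℝ} (hδ : 0 < δ)
    (h2 : mo 2 n y ≤ 4 * r * n) (hn : 4 * (r : ℝ) / δ ^ 2 ≤ n) (i : Fin r) :
    |y i - n / r| ≤ δ * n := by
  have hn0 : (0 : ℝ) ≤ n := Nat.cast_nonneg n
  apply abs_le_of_sq_le_sq _ (mul_nonneg hδ.le hn0)
  have h3 := (dev_le (n := n) y i).trans h2
  rw [div_le_iff₀ (by positivity)] at hn
  have h4 : 4 * (r : ℝ) * n ≤ (n * δ ^ 2) * n := mul_le_mul_of_nonneg_right hn hn0
  calc (y i - n / r) ^ 2 ≤ 4 * r * n := h3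
    _ ≤ (n * δ ^ 2) * n := h4
    _ = (δ * n) ^ 2 := by ring

/-- the secular function is decreasing -/
theorem Ph_anti {r : ℕ} {y : Fin r → ℝ} {s t : ℝ} (hy : ∀ i, 0 < y i) (hs : 0 ≤ s)
    (hst : s ≤ t) : Ph y t ≤ Ph y s := by
  unfold Ph
  have : ∑ i, y i / (t + y i) ≤ ∑ i, y i / (s + y i) := by
    refine Finset.sum_le_sum fun i _ => ?_
    have := hy i
    exact div_le_div_of_nonneg_left this.le (by linarith) (by linarith)
  linarith

/-- the spectral radius is nonnegative -/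
theorem lam_nonneg {V : Type} [Fintype V] {G : SimpleGraph V} {x : V → ℝ} {lam : ℝ}
    (h : PV G x lam) : 0 ≤ lam := by
  rw [← h.form]
  exact Finset.sum_nonneg fun u _ => Finset.sum_nonneg fun v _ =>
    mul_nonneg (chi_nonneg _) (mul_nonneg (h.nn u) (h.nn v))

/-- a graph `WD` with `r` edges at `w` is close to a complete multipartite graph -/
theorem wd_C0 {V : Type} [Fintype V] {r n : ℕ} {δ : ℝ} {G : SimpleGraph V} {H : Finset V}
    {c : V → Fin r} {w : V} {A : Finset V} {v1 v2 : V} (hr : 3 ≤ r) (hGD : Stmt_GD)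
    (hW : WD G n H c w A v1 v2) (hA : A.card = r) (hbal : ∀ i, |sz H c i - n / r| ≤ δ * n)
    (hn : 2 * (r : ℝ) ≤ δ * n) : C0 r δ n G c H := by
  obtain ⟨hv1H, hv2H, hv12, hprs⟩ := SM1b.wd_pair hW
  have hmis : (mis G H c : ℝ) = 2 := by
    rw [SM1b.mis_mH, SM1b.mH_pair hv1H hv2H hv12 hprs]; norm_num
  have hind : ∀ u ∈ H, ∀ v ∈ H, c u = c v → ¬ G.Adj u v := by
    intro u hu v hv huv hadj
    rcases (hW.adj u v).mp hadj with h | h | h
    · exact h.2.2.1 huv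
    · exact hW.hw (h.1 ▸ hu)
    · exact hW.hw (h.1 ▸ hv)
  have e1 := (hGD r hr V G n H c w A v1 v2 hW).2.2
  have e2 := blk_EID r V G c H hind
  have e3 := TRF.eo_dg G H
  have e4 : (0 : ℝ) ≤ ∑ v ∈ out H, (dg G H v : ℝ) := Finset.sum_nonneg fun v _ => Nat.cast_nonneg _
  have hr3 : (3 : ℝ) ≤ r := by exact_mod_cast hr
  rw [e1, hmis, hW.card, hA] at e2
  refine ⟨hW.card, hind, ?_, hbal, ?_⟩
  · rw [hmis]; linarith
  · linarith

/-- all but the choice of the constants -/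
theorem core {V : Type} [Fintype V] {r n : ℕ} {δ e ε C C1 : ℝ} {G : SimpleGraph V}
    {H : Finset V} {c : V → Fin r} {w : V} {A : Finset V} {v1 v2 : V} {y : Fin r → ℕ}
    {i1 : Fin r} (hr : 3 ≤ r) (hGD : Stmt_GD) (hMKD : Stmt_MKD) (hTNR : Stmt_TNR)
    (hS : ∀ (V : Type) [Fintype V] (G : SimpleGraph V) (x : V → ℝ) (lam : ℝ)
      (c : V → Fin r) (H : Finset V) (w : V) (A : Finset V) (v1 v2 : V), C0 r δ n G c H →
      PV G x lam → WD G n H c w A v1 v2 →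
      2 - e * (1 + A.card) ≤ (n : ℝ) ^ 2 * Ph (sz H c) lam ∧
        (n : ℝ) ^ 2 * Ph (sz H c) lam ≤ 2 + e)
    (hT : ∀ (y z : Fin r → ℝ) (lam : ℝ), |lam - al r * n| ≤ 4 * r + 1 → ∑ i, y i = n →
      ∑ i, z i = n → mo 2 n y ≤ (4 * r + 1) * n → mo 2 n z ≤ (4 * r + 1) * n →
      |(n : ℝ) ^ 2 / al r * (Ph y lam - Ph z lam)
      - ((mo 2 n z - mo 2 n y) + (mo 3 n y - mo 3 n z) / n + (mo 4 n z - mo 4 n y) / n ^ 2)|
      ≤ C / √(n : ℝ) + C * |mo 2 n y - mo 2 n z| / n)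
    (hCU : ∀ (d d' : Fin r → ℝ) (R R' k : ℝ) (i1 : Fin r),
      ∑ i, d i = 0 → ∑ i, d' i = 0 → ∑ i, d i ^ 2 = R → ∑ i, d' i ^ 2 = R' → R ≤ 4 * r * n →
      R' ≤ 4 * r * n → -1 ≤ k → k ≤ 1 → (k < 1 → ∀ i, d i ≤ d' i1 + k) →
      -1 ≤ d' i1 → R' ≤ (d' i1 + 1) ^ 2 * (r / (r - 1)) + r →
      ∑ i, d i ^ 3 + (∑ i, d' i ^ 4 - ∑ i, d i ^ 4) / n
        ≤ ∑ i, d' i ^ 3 + 3 * k * (r / (r - 1)) * R' + ε * n + C1 * √(n : ℝ) * |R - R'|)
    (hC : C0 r δ n G c H) (hlam : ∀ (x : V → ℝ) (lam : ℝ), PV G x lam →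
      |lam - al r * n| ≤ 4 * r + 1) (hmx : MX r G) (hW : WD G n H c w A v1 v2)
    (hAr : A.card = r) (hy : ∑ i, y i = n) (hR1 : ε * n ≤ mo 2 n (re y))
    (hR2 : mo 2 n (re y) ≤ 4 * r * n) (hTop : Top1 y i1)
    (hpE : pE G = (n : ℝ) ^ 2 - ∑ i, (y i : ℝ) ^ 2 + 2 * (r - 1)) (hε : 0 < ε) (hδ : 0 < δ)
    (hn0 : 0 < n) (hy2 : ∀ i, 2 ≤ y i) (hbal : ∀ i, |(y i : ℝ) - n / r| ≤ δ * n)
    (hn1 : 2 * (r : ℝ) ≤ δ * n) (he : e * (2 + r) ≤ ε / 4) (hC1 : C / √(n : ℝ) ≤ ε / 2) :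
    ∃ i, (cl H c i).card = y i1 := by
  have hr3 : (3 : ℝ) ≤ r := by exact_mod_cast hr
  have hr0 : (0 : ℝ) < r := by linarith
  have hnR : (0 : ℝ) < n := by exact_mod_cast hn0
  by_contra hno
  push Not at hno
  have hg := hGD r hr V G n H c w A v1 v2 hW
  -- the sums of the squares
  have hszsum : ∑ i, (cl H c i).card = ∑ i, y i := by rw [sum_card_cl, hW.card, hy]
  have hsq : ∑ i, sz H c i ^ 2 = ∑ i, (y i : ℝ) ^ 2 := by
    have h1 := hg.2.2
    rw [hpE, hAr] at h1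
    linarith
  have hsqN : ∑ i, (cl H c i).card ^ 2 = ∑ i, y i ^ 2 := by
    have h1 : ((∑ i, (cl H c i).card ^ 2 : ℕ) : ℝ) = ((∑ i, y i ^ 2 : ℕ) : ℝ) := by
      push_cast
      exact hsq
    exact_mod_cast h1
  have hle : ∀ i, (cl H c i).card ≤ y i1 := by
    intro i
    have h1 := hTop (fun i => ((cl H c i).card : ℤ)) (by exact_mod_cast hszsum)
      (by exact_mod_cast hsqN.le) i
    exact_mod_cast h1
  have hlt : ∀ i, sz H c i + 1 ≤ y i1 := by
    intro i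
    have h1 : (cl H c i).card + 1 ≤ y i1 := by
      have h2 := hle i
      have h3 := hno i
      omega
    unfold sz
    exact_mod_cast h1
  have hs1 : ∑ i, sz H c i = n := by
    have h1 : ((∑ i, (cl H c i).card : ℕ) : ℝ) = ((n : ℕ) : ℝ) := by
      rw [sum_card_cl, hW.card]
    push_cast at h1
    exact h1
  have hs2 : ∑ i, re y i = n := by
    unfold re
    exact_mod_cast hy
  have hmo : mo 2 n (sz H c) = mo 2 n (re y) := by
    rw [mo2_eq hr hs1, mo2_eq hr hs2, hsq]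
    rfl
  -- the reference graph
  obtain ⟨c', A', u1, u2, hW', hAr', hsz'⟩ := hMKD r hr V H w y hW.hw (by rw [hy, hW.card])
    (fun i => le_trans (by norm_num) (hy2 i))
  rw [hW.card] at hW'
  obtain ⟨G', hG'⟩ : ∃ G', G' = gD H c' w A' u1 u2 := ⟨_, rfl⟩
  rw [← hG'] at hW'
  have hsz'' : sz H c' = re y := by
    funext i
    unfold sz re
    rw [hsz' i]
  have hg' := hGD r hr V G' n H c' w A' u1 u2 hW'
  have hpE' : pE G' = pE G := by
    rw [hg'.2.2, hpE, hAr', hsz'']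
    unfold re
    ring
  have hlam' : specRad G' ≤ specRad G :=
    hmx G' hg'.1 (hg'.2.1 (fun i => by rw [hsz' i]; exact hy2 i)) hpE'
  have hC' : C0 r δ n G' c' H := by
    refine wd_C0 hr hGD hW' hAr' ?_ hn1
    intro i
    rw [hsz'']
    exact hbal i
  have hV : Nonempty V := ⟨w⟩
  obtain ⟨x, hx⟩ := exists_PV G
  obtain ⟨z, hz⟩ := exists_PV G'
  have s1 := (hS V G x _ c H w A v1 v2 hC hx hW).1
  have s2 := (hS V G' z _ c' H w A' u1 u2 hC' hz hW').2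
  rw [hsz''] at s2
  rw [hAr] at s1
  have s3 : Ph (re y) (specRad G) ≤ Ph (re y) (specRad G') := by
    refine Ph_anti (fun i => ?_) (lam_nonneg hz) hlam'
    unfold re
    have := hy2 i
    have h2 : (2 : ℝ) ≤ y i := by exact_mod_cast this
    linarith
  have s4 : (n : ℝ) ^ 2 * Ph (re y) (specRad G) ≤ 2 + e :=
    (mul_le_mul_of_nonneg_left s3 (by positivity)).trans s2
  -- expansion
  have hR2' : mo 2 n (re y) ≤ (4 * r + 1) * n := by linarith
  have t1 := hT (re y) (sz H c) (specRad G) (hlam x _ hx) hs2 hs1 hR2' (by rw [hmo]; exact hR2')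
  rw [hmo] at t1
  simp only [sub_self, abs_zero, mul_zero, zero_div, add_zero, zero_add] at t1
  have t2 := (abs_le.mp t1).1
  have hal := al_ge hr
  have t3 : (n : ℝ) ^ 2 / al r * (Ph (re y) (specRad G) - Ph (sz H c) (specRad G)) ≤ ε / 2 := by
    have h1 : (n : ℝ) ^ 2 / al r * (Ph (re y) (specRad G) - Ph (sz H c) (specRad G))
        = (n ^ 2 * Ph (re y) (specRad G) - n ^ 2 * Ph (sz H c) (specRad G)) / al r := by ring
    rw [h1, div_le_iff₀ (by linarith)]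
    have h2 : (n : ℝ) ^ 2 * Ph (re y) (specRad G) - n ^ 2 * Ph (sz H c) (specRad G)
        ≤ ε / 4 := by linarith
    have h3 : ε / 2 * (2 / 3) ≤ ε / 2 * al r := mul_le_mul_of_nonneg_left hal (by linarith)
    linarith
  -- comparison of the moments
  obtain ⟨q1, q2⟩ := hTNR r hr n y i1 hy hTop
  have c1 := hCU (fun i => sz H c i - n / r) (fun i => re y i - n / r) (mo 2 n (sz H c))
    (mo 2 n (re y)) (-1) i1 (sum_dev hr hs1) (sum_dev hr hs2) rfl rfl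
    (by rw [hmo]; exact hR2) hR2 le_rfl (by norm_num) ?_ ?_ ?_
  · rw [hmo, sub_self, abs_zero, mul_zero, add_zero] at c1
    have c2 : mo 3 n (sz H c) + (mo 4 n (re y) - mo 4 n (sz H c)) / n
        ≤ mo 3 n (re y) + 3 * (-1) * (r / (r - 1)) * mo 2 n (re y) + ε * n := c1
    have c3 : ε * n ≤ r / (r - 1) * mo 2 n (re y) := by
      have h1 : (1 : ℝ) ≤ r / (r - 1) := by
        rw [le_div_iff₀ (by linarith)]; linarith
      have h2 : 0 ≤ mo 2 n (re y) := le_trans (by positivity) hR1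
      have h3 := mul_le_mul_of_nonneg_right h1 h2
      linarith
    have c4 : mo 3 n (sz H c) + (mo 4 n (re y) - mo 4 n (sz H c)) / n
        ≤ mo 3 n (re y) - 2 * ε * n := by linarith
    have c5 : 2 * ε ≤ (mo 3 n (re y) - mo 3 n (sz H c)) / n
        + (mo 4 n (sz H c) - mo 4 n (re y)) / n ^ 2 := by
      have h1 : (mo 3 n (re y) - mo 3 n (sz H c)) / n
        + (mo 4 n (sz H c) - mo 4 n (re y)) / n ^ 2
          = (mo 3 n (re y) - mo 3 n (sz H c) - (mo 4 n (re y) - mo 4 n (sz H c)) / n) / n := by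
        field_simp
        ring
      rw [h1, le_div_iff₀ hnR]
      linarith
    linarith
  · intro _ i
    have h1 := hlt i
    unfold re
    linarith
  · unfold re
    linarith
  · unfold re at q2 ⊢
    exact q2

end BIG

/-- **BIG** -/
theorem blk_BIG (h1 : Stmt_GD) (h2 : Stmt_SECD) (h3 : Stmt_LAM) (h4 : Stmt_TAY)
    (h5 : Stmt_MKD) (h6 : Stmt_CUB) (h7 : Stmt_TNR) : Stmt_BIG := by
  intro r ε hr hε
  have hr3 : (3 : ℝ) ≤ r := by exact_mod_cast hr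
  have hr0 : (0 : ℝ) < r := by linarith
  obtain ⟨e, he⟩ : ∃ e : ℝ, e = ε / (4 * (2 + r)) := ⟨_, rfl⟩
  have he0 : 0 < e := by rw [he]; positivity
  have he1 : e * (2 + r) ≤ ε / 4 := by
    rw [he]
    apply le_of_eq
    field_simp
  obtain ⟨dS, nS, hdS, HS⟩ := h2 r e hr he0
  obtain ⟨dL, nL, hdL, HL⟩ := h3 r hr
  obtain ⟨C, hC1, HT⟩ := h4 r (4 * r + 1) hr (by linarith)
  obtain ⟨C1, nC, hC0, HC⟩ := h6 r (4 * r) ε hr (by positivity) hε
  obtain ⟨δ, hδ⟩ : ∃ δ : ℝ, δ = min (min dS dL) (1 / (2 * r)) := ⟨_, rfl⟩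
  have hδ0 : 0 < δ := by
    rw [hδ]
    have : (0 : ℝ) < 1 / (2 * r) := by positivity
    exact lt_min (lt_min hdS hdL) this
  have hδS : δ ≤ dS := by rw [hδ]; exact (min_le_left _ _).trans (min_le_left _ _)
  have hδL : δ ≤ dL := by rw [hδ]; exact (min_le_left _ _).trans (min_le_right _ _)
  have hδr : δ ≤ 1 / (2 * r) := by rw [hδ]; exact min_le_right _ _
  obtain ⟨n1, hn1⟩ := exists_nat_ge C
  obtain ⟨n2, hn2⟩ := exists_nat_ge (4 * (r : ℝ) / δ ^ 2)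
  obtain ⟨n3, hn3⟩ := exists_nat_ge (2 * (r : ℝ) / δ)
  obtain ⟨n4, hn4⟩ := exists_nat_ge ((2 * C / ε) ^ 2)
  refine ⟨δ, nS + nL + nC + n1 + n2 + n3 + n4 + 4 * r, hδ0, ?_⟩
  intro n hn V _ G c H w A v1 v2 y i1 hC0' hsz hmx hW hAr hy hR1 hR2 hTop hpE
  have hnr : (4 * (r : ℝ)) ≤ n := by
    have : 4 * r ≤ n := by omega
    exact_mod_cast this
  have hnR : (0 : ℝ) < n := by linarith
  have b1 : C ≤ n := hn1.trans (by exact_mod_cast (by omega : n1 ≤ n))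
  have b2 : 4 * (r : ℝ) / δ ^ 2 ≤ n := hn2.trans (by exact_mod_cast (by omega : n2 ≤ n))
  have b3 : 2 * (r : ℝ) / δ ≤ n := hn3.trans (by exact_mod_cast (by omega : n3 ≤ n))
  have b4 : (2 * C / ε) ^ 2 ≤ n := hn4.trans (by exact_mod_cast (by omega : n4 ≤ n))
  have hbal : ∀ i, |(y i : ℝ) - n / r| ≤ δ * n := fun i => BIG.dev_small hδ0 hR2 b2 i
  have hy2 : ∀ i, 2 ≤ y i := by
    intro i
    have h1 := (abs_le.mp (hbal i)).1
    have h2 : δ * n ≤ 1 / (2 * r) * n := mul_le_mul_of_nonneg_right hδr hnR.le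
    have h3 : (n : ℝ) / r = 2 * (1 / (2 * r) * n) := by field_simp
    have h4 : 2 ≤ 1 / (2 * (r : ℝ)) * n := by
      rw [one_div, inv_mul_eq_div, le_div_iff₀ (by positivity)]
      linarith
    have h5 : (2 : ℝ) ≤ y i := by linarith
    exact_mod_cast h5
  refine BIG.core (C := C) (C1 := C1) hr h1 h5 h7 ?_ ?_ ?_ hC0' ?_ hmx hW hAr hy hR1 hR2 hTop hpE
    hε hδ0 (by exact_mod_cast hnR) hy2 hbal ?_ he1 ?_
  · intro V' _ G' x lam c' H' w' A' u1 u2 hC' hx hW'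
    exact HS n (by omega) V' G' x lam c' H' w' A' u1 u2 (hC'.mono hδS) hx hW'
  · intro y' z' lam a1 a2 a3 a4 a5
    exact HT n y' z' lam b1 a1 a2 a3 a4 a5
  · exact HC n (by omega)
  · intro x lam hx
    exact HL n (by omega) V G x lam c H (hC0'.mono hδL) hsz hx
  · rw [div_le_iff₀ hδ0] at b3
    linarith
  · have hsq : 2 * C / ε ≤ √(n : ℝ) := Real.le_sqrt_of_sq_le b4
    have hs0 : 0 < √(n : ℝ) := Real.sqrt_pos.mpr hnR
    rw [div_le_iff₀ hs0]
    rw [div_le_iff₀ hε] at hsq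
    linarith

end Pool.Agent.Work.MP_5532fa_up
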