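import Pool.Agent.Work.MP_5532fa_up.Interface

set_option autoImplicit false

open Finset

namespace Pool.Agent.Work.MP_5532fa_up

namespace CANP

variable {ι : Type} [Fintype ι] [DecidableEq ι]

omit [Fintype ι] [DecidableEq ι] in
lemma bal_form (s : Finset ι) (f : ι → ℕ) (hs : s.Nonempty)
    (h : ∀ i ∈ s, ∀ k ∈ s, f i ≤ f k + 1) :
    ∃ q, (∀ i ∈ s, f i = q ∨ f i = q + 1) ∧
      ∑ i ∈ s, f i = q * s.card + (s.filter (fun i => f i = q + 1)).card ∧
      (s.filter (fun i => f i = q + 1)).card < s.card := by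
  obtain ⟨i0, hi0, hmin⟩ := Finset.exists_min_image s f hs
  refine ⟨f i0, fun i hi => ?_, ?_, ?_⟩
  · have h1 := hmin i hi
    have h2 := h i hi i0 hi0
    omega
  · have e : ∀ i ∈ s, f i = f i0 + (if f i = f i0 + 1 then 1 else 0) := by
      intro i hi
      have h1 := hmin i hi
      have h2 := h i hi i0 hi0
      split_ifs <;> omega
    rw [Finset.sum_congr rfl e, Finset.sum_add_distrib, Finset.sum_const, smul_eq_mul,
      Finset.card_filter, mul_comm]
  · apply Finset.card_lt_card
    refine ⟨Finset.filter_subset _ _, fun hsub => ?_⟩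
    have := hsub hi0
    rw [Finset.mem_filter] at this
    omega

omit [Fintype ι] [DecidableEq ι] in
lemma bal2 (s s' : Finset ι) (f g : ι → ℕ) (hs : s.Nonempty) (hc : s.card = s'.card)
    (hsum : ∑ i ∈ s, f i = ∑ i ∈ s', g i)
    (h : ∀ i ∈ s, ∀ k ∈ s, f i ≤ f k + 1) (h' : ∀ i ∈ s', ∀ k ∈ s', g i ≤ g k + 1) :
    ∃ q, (∀ i ∈ s, f i = q ∨ f i = q + 1) ∧ (∀ i ∈ s', g i = q ∨ g i = q + 1) ∧
      (s.filter (fun i => f i = q + 1)).card = (s'.filter (fun i => g i = q + 1)).card := by
  have hs' : s'.Nonempty := by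
    rw [← Finset.card_pos, ← hc]; exact Finset.card_pos.2 hs
  obtain ⟨q, h1, h2, h3⟩ := bal_form s f hs h
  obtain ⟨q', h1', h2', h3'⟩ := bal_form s' g hs' h'
  rw [← hc] at h2' h3'
  generalize ht : (s.filter (fun i => f i = q + 1)).card = t at h2 h3
  generalize ht' : (s'.filter (fun i => g i = q' + 1)).card = t' at h2' h3'
  have hcp : 0 < s.card := Finset.card_pos.2 hs
  have key : q * s.card + t = q' * s.card + t' := by omega
  have hq : q = q' := by
    have e1 : (q * s.card + t) / s.card = q := by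
      rw [Nat.add_div_of_dvd_right (Dvd.intro_left q rfl), Nat.mul_div_cancel _ hcp,
        Nat.div_eq_of_lt h3, add_zero]
    have e2 : (q' * s.card + t') / s.card = q' := by
      rw [Nat.add_div_of_dvd_right (Dvd.intro_left q' rfl), Nat.mul_div_cancel _ hcp,
        Nat.div_eq_of_lt h3', add_zero]
    rw [← e1, ← e2, key]
  subst hq
  exact ⟨q, h1, h1', by rw [ht, ht']; omega⟩

omit [Fintype ι] [DecidableEq ι] in
lemma count_low (s : Finset ι) (f : ι → ℕ) (q : ℕ) (h1 : ∀ i ∈ s, f i = q ∨ f i = q + 1) :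
    (s.filter (fun i => f i = q)).card + (s.filter (fun i => f i = q + 1)).card = s.card := by
  have := Finset.card_filter_add_card_filter_not (s := s) (fun i => f i = q)
  rw [← this]
  congr 2
  apply Finset.filter_congr
  intro i hi
  rcases h1 i hi with h | h <;> omega

omit [Fintype ι] [DecidableEq ι] in
lemma count_other (s : Finset ι) (f : ι → ℕ) (q v : ℕ) (h1 : ∀ i ∈ s, f i = q ∨ f i = q + 1)
    (hv : v ≠ q) (hv' : v ≠ q + 1) : (s.filter (fun i => f i = v)).card = 0 := by
  rw [Finset.card_eq_zero, Finset.filter_eq_empty_iff]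
  intro i hi
  rcases h1 i hi with h | h <;> omega

omit [Fintype ι] [DecidableEq ι] in
lemma bal_eq (s s' : Finset ι) (f g : ι → ℕ) (hc : s.card = s'.card)
    (hsum : ∑ i ∈ s, f i = ∑ i ∈ s', g i)
    (h : ∀ i ∈ s, ∀ k ∈ s, f i ≤ f k + 1) (h' : ∀ i ∈ s', ∀ k ∈ s', g i ≤ g k + 1) (v : ℕ) :
    (s.filter (fun i => f i = v)).card = (s'.filter (fun i => g i = v)).card := by
  rcases s.eq_empty_or_nonempty with rfl | hs
  · rw [Finset.card_empty] at hc
    have := Finset.card_eq_zero.1 hc.symm
    subst this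
    simp
  · obtain ⟨q, h1, h2, h3⟩ := bal2 s s' f g hs hc hsum h h'
    have c1 := count_low s f q h1
    have c2 := count_low s' g q h2
    by_cases hv : v = q
    · subst hv; omega
    by_cases hv' : v = q + 1
    · subst hv'; exact h3
    rw [count_other s f q v h1 hv hv', count_other s' g q v h2 hv hv']

omit [Fintype ι] [DecidableEq ι] in
/-- constant functions are balanced -/
lemma const_count (s s' : Finset ι) (f g : ι → ℕ) (hc : s.card = s'.card) (w : ℕ)
    (h : ∀ i ∈ s, f i = w) (h' : ∀ i ∈ s', g i = w) (v : ℕ) :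
    (s.filter (fun i => f i = v)).card = (s'.filter (fun i => g i = v)).card := by
  apply bal_eq s s' f g hc
  · rw [Finset.sum_congr rfl h, Finset.sum_congr rfl h', Finset.sum_const, Finset.sum_const, hc]
  · intro i hi k hk; rw [h i hi, h k hk]; omega
  · intro i hi k hk; rw [h' i hi, h' k hk]; omega

/-- the two groups `L`, `B` outside `P` -/
lemma two_level (L B L' B' : Finset ι) (a a' : ι → ℕ) (q : ℕ)
    (hL : L.card = L'.card) (hB : B.card = B'.card)
    (hs : ∑ i ∈ L, a i + ∑ i ∈ B, a i = ∑ i ∈ L', a' i + ∑ i ∈ B', a' i)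
    (hLq : ∀ i ∈ L, a i ≤ q) (hLq' : ∀ i ∈ L', a' i ≤ q)
    (hB1 : ∀ i ∈ B, 1 ≤ a i) (hB1' : ∀ i ∈ B', 1 ≤ a' i)
    (hLb : ∀ i ∈ L, ∀ k ∈ L, a i ≤ a k + 1) (hLb' : ∀ i ∈ L', ∀ k ∈ L', a' i ≤ a' k + 1)
    (hBb : ∀ i ∈ B, ∀ k ∈ B, a i ≤ a k + 1) (hBb' : ∀ i ∈ B', ∀ k ∈ B', a' i ≤ a' k + 1)
    (hx : ∀ i ∈ L, ∀ k ∈ B, a i = q ∨ a k = 1) (hx' : ∀ i ∈ L', ∀ k ∈ B', a' i = q ∨ a' k = 1) :
    (∀ v, (L.filter (fun i => a i = v)).card = (L'.filter (fun i => a' i = v)).card) ∧
    (∀ v, (B.filter (fun i => a i = v)).card = (B'.filter (fun i => a' i = v)).card) := by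
  have hor : (∀ i ∈ L, a i = q) ∨ (∀ k ∈ B, a k = 1) := by
    by_cases h : ∀ i ∈ L, a i = q
    · exact Or.inl h
    · push Not at h
      obtain ⟨i, hi, hiq⟩ := h
      exact Or.inr fun k hk => (hx i hi k hk).resolve_left hiq
  have hor' : (∀ i ∈ L', a' i = q) ∨ (∀ k ∈ B', a' k = 1) := by
    by_cases h : ∀ i ∈ L', a' i = q
    · exact Or.inl h
    · push Not at h
      obtain ⟨i, hi, hiq⟩ := h
      exact Or.inr fun k hk => (hx' i hi k hk).resolve_left hiq
  have sL : ∑ i ∈ L, a i ≤ L.card * q := by
    have := Finset.sum_le_card_nsmul L a q hLq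
    simpa using this
  have sL' : ∑ i ∈ L', a' i ≤ L.card * q := by
    have := Finset.sum_le_card_nsmul L' a' q hLq'
    rw [hL]; simpa using this
  have sB : B.card ≤ ∑ i ∈ B, a i := by
    have := Finset.card_nsmul_le_sum B a 1 hB1
    simpa using this
  have sB' : B.card ≤ ∑ i ∈ B', a' i := by
    have := Finset.card_nsmul_le_sum B' a' 1 hB1'
    rw [hB]; simpa using this
  -- equality cases
  have eqL : ∀ (M : Finset ι) (b : ι → ℕ), (∀ i ∈ M, b i ≤ q) → ∑ i ∈ M, b i = M.card * q →
      ∀ i ∈ M, b i = q := by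
    intro M b hb hsum
    have h1 : ∑ i ∈ M, b i = ∑ i ∈ M, q := by rw [hsum, Finset.sum_const, smul_eq_mul]
    exact (Finset.sum_eq_sum_iff_of_le hb).1 h1
  have both : ((∀ i ∈ L, a i = q) ∧ (∀ i ∈ L', a' i = q)) ∨
      ((∀ k ∈ B, a k = 1) ∧ (∀ k ∈ B', a' k = 1)) := by
    rcases hor with h | h <;> rcases hor' with h' | h'
    · exact Or.inl ⟨h, h'⟩
    · left
      refine ⟨h, eqL L' a' hLq' ?_⟩
      have e1 : ∑ i ∈ L, a i = L.card * q := by
        rw [Finset.sum_congr rfl h, Finset.sum_const, smul_eq_mul]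
      have e2 : ∑ i ∈ B', a' i = B.card := by
        rw [Finset.sum_congr rfl h', Finset.sum_const, smul_eq_mul, mul_one, hB]
      rw [← hL]
      omega
    · left
      refine ⟨eqL L a hLq ?_, h'⟩
      have e1 : ∑ i ∈ L', a' i = L.card * q := by
        rw [Finset.sum_congr rfl h', Finset.sum_const, smul_eq_mul, hL]
      have e2 : ∑ i ∈ B, a i = B.card := by
        rw [Finset.sum_congr rfl h, Finset.sum_const, smul_eq_mul, mul_one]
      omega
    · exact Or.inr ⟨h, h'⟩
  rcases both with ⟨h, h'⟩ | ⟨h, h'⟩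
  · refine ⟨const_count L L' a a' hL q h h', bal_eq B B' a a' hB ?_ hBb hBb'⟩
    have e1 : ∑ i ∈ L, a i = L.card * q := by
      rw [Finset.sum_congr rfl h, Finset.sum_const, smul_eq_mul]
    have e1' : ∑ i ∈ L', a' i = L.card * q := by
      rw [Finset.sum_congr rfl h', Finset.sum_const, smul_eq_mul, hL]
    omega
  · refine ⟨bal_eq L L' a a' hL ?_ hLb hLb', const_count B B' a a' hB 1 h h'⟩
    have e1 : ∑ i ∈ B, a i = B.card := by
      rw [Finset.sum_congr rfl h, Finset.sum_const, smul_eq_mul, mul_one]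
    have e1' : ∑ i ∈ B', a' i = B.card := by
      rw [Finset.sum_congr rfl h', Finset.sum_const, smul_eq_mul, mul_one, hB]
    omega

/-- the large values of `n` lie in `P` first -/
lemma card_inter (P : Finset ι) (n : ι → ℕ) (q : ℕ) (h1 : ∀ i, n i = q ∨ n i = q + 1)
    (hP : ∀ i k, i ∈ P → k ∉ P → n k ≤ n i) :
    (P.filter (fun i => n i = q + 1)).card =
      min P.card ((univ : Finset ι).filter (fun i => n i = q + 1)).card := by
  by_cases h : ∃ k, k ∉ P ∧ n k = q + 1
  · obtain ⟨k, hk, hnk⟩ := h
    have hall : ∀ i ∈ P, n i = q + 1 := by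
      intro i hi
      have := hP i k hi hk
      rcases h1 i with h | h <;> omega
    rw [Finset.filter_true_of_mem hall, min_eq_left]
    apply Finset.card_le_card
    intro i hi
    rw [Finset.mem_filter]
    exact ⟨Finset.mem_univ _, hall i hi⟩
  · push Not at h
    have e : P.filter (fun i => n i = q + 1) =
        (univ : Finset ι).filter (fun i => n i = q + 1) := by
      ext i
      rw [Finset.mem_filter, Finset.mem_filter]
      constructor
      · rintro ⟨_, h2⟩; exact ⟨Finset.mem_univ _, h2⟩
      · rintro ⟨_, h2⟩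
        refine ⟨?_, h2⟩
        by_contra hi
        exact h i hi h2
    rw [e, min_eq_right]
    rw [← e]
    exact Finset.card_le_card (Finset.filter_subset _ _)

omit [DecidableEq ι] in
/-- equal fibre sizes give a permutation -/
lemma perm_of_fibres {β : Type} [DecidableEq β] (f g : ι → β)
    (h : ∀ b, ((univ : Finset ι).filter (fun i => f i = b)).card =
      ((univ : Finset ι).filter (fun i => g i = b)).card) :
    ∃ σ : Equiv.Perm ι, ∀ i, g (σ i) = f i := by
  have hc : ∀ b, Fintype.card {i // f i = b} = Fintype.card {i // g i = b} := by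
    intro b
    rw [Fintype.card_subtype, Fintype.card_subtype]
    exact h b
  let e : ∀ b, {i // f i = b} ≃ {i // g i = b} := fun b => Fintype.equivOfCardEq (hc b)
  refine ⟨(Equiv.sigmaFiberEquiv f).symm.trans
    ((Equiv.sigmaCongrRight e).trans (Equiv.sigmaFiberEquiv g)), fun i => ?_⟩
  exact (e (f i) ⟨i, rfl⟩).2

end CANP

open CANP in
theorem blk_CANP : Stmt_CANP := by
  classical
  intro r n a n' a' P P' p0 hPc hn ha hbal hbal' hPn hPn' hPa hPa' hQ hQ' hX hX'
  rcases Nat.eq_zero_or_pos r with rfl | hr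
  · exact ⟨1, fun i => i.elim0⟩
  have hne : (univ : Finset (Fin r)).Nonempty := ⟨⟨0, hr⟩, Finset.mem_univ _⟩
  obtain ⟨q, h1, h1', hT⟩ := bal2 (univ : Finset (Fin r)) univ n n' hne rfl hn
    (fun i _ k _ => hbal i k) (fun i _ k _ => hbal' i k)
  replace h1 : ∀ i, n i = q ∨ n i = q + 1 := fun i => h1 i (Finset.mem_univ _)
  replace h1' : ∀ i, n' i = q ∨ n' i = q + 1 := fun i => h1' i (Finset.mem_univ _)
  have hPT : (P.filter (fun i => n i = q + 1)).card = (P'.filter (fun i => n' i = q + 1)).card := by
    rw [card_inter P n q h1 hPn, card_inter P' n' q h1' hPn', hPc, hT]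
  have hPS : (P.filter (fun i => n i = q)).card = (P'.filter (fun i => n' i = q)).card := by
    have c1 := count_low P n q (fun i _ => h1 i)
    have c2 := count_low P' n' q (fun i _ => h1' i)
    omega
  -- the sets outside P
  have hBc : ∀ (P : Finset (Fin r)) (n : Fin r → ℕ) (v : ℕ),
      (Pᶜ.filter (fun i => n i = v)).card + (P.filter (fun i => n i = v)).card =
        ((univ : Finset (Fin r)).filter (fun i => n i = v)).card := by
    intro P n v
    rw [← Finset.card_union_of_disjoint, ← Finset.filter_union, Finset.union_comm,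
      Finset.union_compl]
    exact Finset.disjoint_filter_filter (disjoint_compl_left)
  have hB : (Pᶜ.filter (fun i => n i = q + 1)).card =
      (P'ᶜ.filter (fun i => n' i = q + 1)).card := by
    have c1 := hBc P n (q + 1)
    have c2 := hBc P' n' (q + 1)
    omega
  have hL : (Pᶜ.filter (fun i => n i = q)).card = (P'ᶜ.filter (fun i => n' i = q)).card := by
    have c1 := count_low Pᶜ n q (fun i _ => h1 i)
    have c2 := count_low P'ᶜ n' q (fun i _ => h1' i)
    have c3 : Pᶜ.card = P'ᶜ.card := by rw [Finset.card_compl, Finset.card_compl, hPc]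
    omega
  have hsum : ∀ (P : Finset (Fin r)) (n a : Fin r → ℕ), (∀ i, n i = q ∨ n i = q + 1) →
      (∀ i, i ∈ P → a i = p0) →
      ∑ i, a i = P.card * p0 + (∑ i ∈ Pᶜ.filter (fun i => n i = q), a i +
        ∑ i ∈ Pᶜ.filter (fun i => n i = q + 1), a i) := by
    intro P n a h1 hPa
    rw [← Finset.sum_add_sum_compl P a, Finset.sum_congr rfl hPa, Finset.sum_const, smul_eq_mul,
      ← Finset.sum_filter_add_sum_filter_not Pᶜ (fun i => n i = q) a]
    congr 2
    apply Finset.sum_congr _ (fun _ _ => rfl)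
    apply Finset.filter_congr
    intro i _
    rcases h1 i with h | h <;> omega
  have hs := hsum P n a h1 hPa
  have hs' := hsum P' n' a' h1' hPa'
  have mem : ∀ (P : Finset (Fin r)) (n : Fin r → ℕ) (v : ℕ) (i : Fin r),
      i ∈ Pᶜ.filter (fun i => n i = v) ↔ i ∉ P ∧ n i = v := by
    intro P n v i
    rw [Finset.mem_filter, Finset.mem_compl]
  obtain ⟨kL, kB⟩ := two_level (Pᶜ.filter (fun i => n i = q)) (Pᶜ.filter (fun i => n i = q + 1))
    (P'ᶜ.filter (fun i => n' i = q)) (P'ᶜ.filter (fun i => n' i = q + 1)) a a' q hL hB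
    (by rw [hPc] at hs; omega)
    (fun i hi => by
      rw [mem] at hi
      have := (hQ i hi.1).2
      omega)
    (fun i hi => by
      rw [mem] at hi
      have := (hQ' i hi.1).2
      omega)
    (fun i hi => by rw [mem] at hi; exact (hQ i hi.1).1)
    (fun i hi => by rw [mem] at hi; exact (hQ' i hi.1).1)
    (fun i hi k hk => by
      rw [mem] at hi hk
      exact (hX i k hi.1 hk.1).1 (by omega))
    (fun i hi k hk => by
      rw [mem] at hi hk
      exact (hX' i k hi.1 hk.1).1 (by omega))
    (fun i hi k hk => by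
      rw [mem] at hi hk
      exact (hX i k hi.1 hk.1).1 (by omega))
    (fun i hi k hk => by
      rw [mem] at hi hk
      exact (hX' i k hi.1 hk.1).1 (by omega))
    (fun i hi k hk => by
      rw [mem] at hi hk
      have := (hX i k hi.1 hk.1).2 (by omega)
      rw [hi.2] at this
      exact this)
    (fun i hi k hk => by
      rw [mem] at hi hk
      have := (hX' i k hi.1 hk.1).2 (by omega)
      rw [hi.2] at this
      exact this)
  obtain ⟨σ, hσ⟩ := perm_of_fibres
    (fun i : Fin r => ((decide (i ∈ P), n i, a i) : Bool × ℕ × ℕ))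
    (fun i : Fin r => ((decide (i ∈ P'), n' i, a' i) : Bool × ℕ × ℕ)) (by
      rintro ⟨b, v, w⟩
      -- reduce to the sets
      have red : ∀ (P : Finset (Fin r)) (n a : Fin r → ℕ),
          (∀ i, i ∈ P → a i = p0) →
          ((univ : Finset (Fin r)).filter
            (fun i => ((decide (i ∈ P), n i, a i) : Bool × ℕ × ℕ) = (b, v, w))).card =
          if b = true then (if w = p0 then (P.filter (fun i => n i = v)).card else 0)
          else ((Pᶜ.filter (fun i => n i = v)).filter (fun i => a i = w)).card := by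
        intro P n a hPa
        cases b with
        | true =>
          rw [if_pos rfl]
          by_cases hw : w = p0
          · rw [if_pos hw]
            congr 1
            ext i
            simp only [Finset.mem_filter, Finset.mem_univ, true_and, Prod.mk.injEq,
              decide_eq_true_eq]
            constructor
            · rintro ⟨h1, h2, _⟩; exact ⟨h1, h2⟩
            · rintro ⟨h1, h2⟩; exact ⟨h1, h2, by rw [hPa i h1, hw]⟩
          · rw [if_neg hw, Finset.card_eq_zero, Finset.filter_eq_empty_iff]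
            intro i _
            simp only [Prod.mk.injEq, decide_eq_true_eq, not_and]
            intro h1 _ h3
            exact hw (by rw [← h3, hPa i h1])
        | false =>
          rw [if_neg (by simp)]
          congr 1
          ext i
          simp only [Finset.mem_filter, Finset.mem_univ, true_and, Prod.mk.injEq,
            decide_eq_false_iff_not, Finset.mem_compl]
          tauto
      rw [red P n a hPa, red P' n' a' hPa']
      cases b with
      | true =>
        rw [if_pos rfl, if_pos rfl]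
        by_cases hw : w = p0
        · rw [if_pos hw, if_pos hw]
          by_cases hv : v = q
          · subst hv; exact hPS
          by_cases hv' : v = q + 1
          · subst hv'; exact hPT
          rw [count_other P n q v (fun i _ => h1 i) hv hv',
            count_other P' n' q v (fun i _ => h1' i) hv hv']
        · rw [if_neg hw, if_neg hw]
      | false =>
        rw [if_neg (by simp), if_neg (by simp)]
        by_cases hv : v = q
        · subst hv; exact kL w
        by_cases hv' : v = q + 1
        · subst hv'; exact kB w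
        have e1 := count_other Pᶜ n q v (fun i _ => h1 i) hv hv'
        have e2 := count_other P'ᶜ n' q v (fun i _ => h1' i) hv hv'
        rw [Finset.card_eq_zero] at e1 e2
        rw [e1, e2, Finset.filter_empty, Finset.filter_empty])
  refine ⟨σ, fun i => ?_⟩
  have := hσ i
  simp only [Prod.mk.injEq, decide_eq_decide] at this
  exact ⟨this.1.symm, this.2.1, this.2.2⟩

end Pool.Agent.Work.MP_5532fa_up
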