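import Pool.Agent.Work.MP_5532fa_up.Interface

/-!
# Block CSE: the eigenvalue equations of the family
-/

set_option autoImplicit false

open Finset

namespace Pool.Agent.Work.MP_5532fa_up

open MP5532fa (specRad qf pE)

namespace CSE

variable {V : Type} [Fintype V] {r : ℕ}

theorem row1 (H : Finset V) (c : V → Fin r) (x : V → ℝ) (u : V) :
    ∑ v, chi (u ∈ H ∧ v ∈ H ∧ c u ≠ c v) * x v =
      chi (u ∈ H) * (∑ v ∈ H, x v - cs x H c (c u)) := by
  classical
  by_cases hu : u ∈ H
  · rw [chi_pos hu, one_mul]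
    unfold cs cl
    rw [Finset.sum_filter, ← Finset.sum_sub_distrib, ← Finset.sum_subset (Finset.subset_univ H)]
    · refine Finset.sum_congr rfl fun v hv => ?_
      by_cases h : c v = c u
      · rw [if_pos h, chi_neg (fun h' => h'.2.2 h.symm)]
        ring
      · rw [if_neg h, chi_pos ⟨hu, hv, fun h' => h h'.symm⟩]
        ring
    · intro v _ hv
      rw [chi_neg (fun h => hv h.2.1), zero_mul]
  · rw [chi_neg hu, zero_mul]
    refine Finset.sum_eq_zero fun v _ => ?_
    rw [chi_neg (fun h => hu h.1), zero_mul]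

theorem row2 (A : Finset V) (w : V) (x : V → ℝ) (u : V) :
    ∑ v, chi (u = w ∧ v ∈ A) * x v = chi (u = w) * ∑ v ∈ A, x v := by
  classical
  by_cases hu : u = w
  · rw [chi_pos hu, one_mul, ← Finset.sum_subset (Finset.subset_univ A)]
    · refine Finset.sum_congr rfl fun v hv => ?_
      rw [chi_pos ⟨hu, hv⟩, one_mul]
    · intro v _ hv
      rw [chi_neg (fun h => hv h.2), zero_mul]
  · rw [chi_neg hu, zero_mul]
    refine Finset.sum_eq_zero fun v _ => ?_
    rw [chi_neg (fun h => hu h.1), zero_mul]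

theorem row3 (A : Finset V) (w : V) (x : V → ℝ) (u : V) :
    ∑ v, chi (v = w ∧ u ∈ A) * x v = chi (u ∈ A) * x w := by
  classical
  rw [Finset.sum_eq_single w]
  · by_cases hu : u ∈ A
    · rw [chi_pos hu, chi_pos ⟨rfl, hu⟩]
    · rw [chi_neg hu, chi_neg (fun h => hu h.2)]
  · intro v _ hv
    rw [chi_neg (fun h => hv h.1), zero_mul]
  · intro h
    exact absurd (Finset.mem_univ w) h

theorem row {G : SimpleGraph V} {H : Finset V} {c : V → Fin r} {w : V} {A : Finset V}
    {J : V → V → ℝ} {x : V → ℝ} {lam : ℝ} (hF : Fam G H c w A J) (hP : PV G x lam) (u : V) :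
    lam * x u = chi (u ∈ H) * (∑ v ∈ H, x v - cs x H c (c u)) + chi (u = w) * ∑ v ∈ A, x v
      + chi (u ∈ A) * x w + ∑ z, J u z * x z := by
  rw [← hP.eig u, ← row1 H c x u, ← row2 A w x u, ← row3 A w x u, ← Finset.sum_add_distrib,
    ← Finset.sum_add_distrib, ← Finset.sum_add_distrib]
  refine Finset.sum_congr rfl fun v _ => ?_
  rw [hF.adj u v]
  ring

end CSE

theorem blk_CSE : Stmt_CSE := by
  classical
  intro r V _ G H c w A J x lam hF hP
  have hrow := CSE.row hF hP
  have h1 : ∀ v ∈ H, lam * x v = (∑ u ∈ H, x u - cs x H c (c v)) + chi (v ∈ A) * x w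
      + ∑ z, J v z * x z := by
    intro v hv
    rw [hrow v, chi_pos hv, chi_neg (fun h : v = w => hF.hw (h ▸ hv))]
    ring
  refine ⟨h1, ?_, ?_, ?_⟩
  · intro i
    have h2 : lam * cs x H c i = ∑ v ∈ cl H c i, lam * x v := by
      unfold cs
      rw [Finset.mul_sum]
    have h3 : ∀ v ∈ cl H c i, lam * x v = (∑ u ∈ H, x u - cs x H c i) + chi (v ∈ A) * x w
        + ∑ z, J v z * x z := by
      intro v hv
      have h4 := mem_cl.1 hv
      rw [h1 v h4.1, h4.2]
    have h5 : ∑ v ∈ cl H c i, chi (v ∈ A) = sz A c i := by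
      unfold sz
      have h6 : cl A c i = (cl H c i).filter (fun v => v ∈ A) := by
        ext v
        rw [Finset.mem_filter, mem_cl, mem_cl]
        constructor
        · rintro ⟨h, h'⟩
          exact ⟨⟨hF.hA h, h'⟩, h⟩
        · rintro ⟨⟨_, h'⟩, h⟩
          exact ⟨h, h'⟩
      rw [h6, Finset.card_filter]
      push_cast
      refine Finset.sum_congr rfl fun v _ => ?_
      by_cases h : v ∈ A
      · rw [chi_pos h, if_pos h]
      · rw [chi_neg h, if_neg h]
    rw [h2, Finset.sum_congr rfl h3, Finset.sum_add_distrib, Finset.sum_add_distrib,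
      ← Finset.sum_mul, h5, Finset.sum_const, nsmul_eq_mul]
    rfl
  · have hwA : w ∉ A := fun h => hF.hw (hF.hA h)
    rw [hrow w, chi_neg hF.hw, chi_pos (rfl : w = w), chi_neg hwA]
    ring
  · intro v hv hvw
    have hvA : v ∉ A := fun h => hv (hF.hA h)
    rw [hrow v, chi_neg hv, chi_neg hvw, chi_neg hvA]
    ring

end Pool.Agent.Work.MP_5532fa_up
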