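import Pool.Agent.Work.MP_5532fa_up.Interface

/-!
# Block D2: type D, the placement of the neighbours of `w`
-/

set_option autoImplicit false

open Finset

namespace Pool.Agent.Work.MP_5532fa_up

open MP5532fa (specRad qf pE)

theorem blk_D2 (hGD : Stmt_GD) (hFAM : Stmt_FAM) (hCSE : Stmt_CSE) (hEST : Stmt_EST)
    (hMV1 : Stmt_MV1) : Stmt_D2 := by
  classical
  intro r ε hr hε
  have hR : (3 : ℝ) ≤ (r : ℝ) := by exact_mod_cast hr
  set e : ℝ := min (ε / 2) (1 / 20) with he
  have he0 : 0 < e := lt_min (by linarith) (by norm_num)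
  have heε : e ≤ ε / 2 := min_le_left _ _
  have he20 : e ≤ 1 / 20 := min_le_right _ _
  obtain ⟨δ1, N1, hδ1, hest⟩ := hEST r ε e hr hε he0
  refine ⟨min δ1 (1 / (2 * (r : ℝ))), max N1 (4 * r), lt_min hδ1 (by positivity), ?_⟩
  intro N hN j hRg V _ G H c w A v1 v2 hW hNear hBal hMX
  set δ : ℝ := min δ1 (1 / (2 * (r : ℝ))) with hδ
  have hδa : δ ≤ δ1 := min_le_left _ _
  have hδb : δ ≤ 1 / (2 * (r : ℝ)) := min_le_right _ _
  have hN1 : N1 ≤ N := (le_max_left _ _).trans hN
  have hN4 : 4 * r ≤ N := (le_max_right _ _).trans hN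
  have hN4' : 4 * (r : ℝ) ≤ N := by exact_mod_cast hN4
  have hNpos : (0 : ℝ) < N := by linarith
  have hne : Nonempty V := ⟨w⟩
  have hnear1 : ∀ A0 : Finset V, A0.card = A.card → Near r δ1 N j H A0 c := fun A0 h0 => by
    refine ⟨fun i => (hNear.1 i).trans (mul_le_mul_of_nonneg_right hδa hNpos.le), ?_⟩
    rw [h0]
    exact hNear.2.trans (mul_le_mul_of_nonneg_right hδa hNpos.le)
  have hrr : 1 / (2 * (r : ℝ)) * N = N / r / 2 := by
    field_simp
  have hszlo : ∀ i, (2 : ℝ) ≤ sz H c i := fun i => by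
    have h1 := (abs_le.1 (hNear.1 i)).1
    have h2 : δ * N ≤ N / r / 2 := by
      rw [← hrr]
      exact mul_le_mul_of_nonneg_right hδb hNpos.le
    have h3 : 4 ≤ (N : ℝ) / r := by
      rw [le_div_iff₀ (by linarith)]
      exact hN4'
    linarith
  have hsz2 : ∀ i, 2 ≤ (cl H c i).card := fun i => by
    have := hszlo i
    unfold sz at this
    exact_mod_cast this
  have hszhi : ∀ i, sz H c i ≤ N / 2 := fun i => by
    have h1 := (abs_le.1 (hNear.1 i)).2
    have h2 : δ * N ≤ N / r / 2 := by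
      rw [← hrr]
      exact mul_le_mul_of_nonneg_right hδb hNpos.le
    have h3 : (N : ℝ) / r ≤ N / 3 := div_le_div_of_nonneg_left hNpos.le (by norm_num) hR
    linarith
  have hal1 : al r ≤ 1 := (al_lt hr).le
  have hal2 : 2 / 3 ≤ al r := al_ge hr
  have hXε : ε ≤ (j : ℝ) / (al r * N) := by
    rw [le_div_iff₀ (by positivity)]
    have h1 := hRg.1
    have h2 : ε * (al r * N) ≤ ε * N :=
      mul_le_mul_of_nonneg_left (mul_le_of_le_one_left hNpos.le hal1) hε.le
    linarith
  have hX1 : (j : ℝ) / (al r * N) ≤ 1 := by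
    rw [div_le_one (by positivity)]
    have h1 := hRg.2
    have h2 : ((1 - 2 / (r : ℝ)) * al r - ε) * N ≤ al r * N := by
      refine mul_le_mul_of_nonneg_right ?_ hNpos.le
      have h3 : (1 - 2 / (r : ℝ)) * al r ≤ 1 * al r :=
        mul_le_mul_of_nonneg_right (by
          have : 0 < 2 / (r : ℝ) := by positivity
          linarith) (by linarith)
      linarith
    linarith
  -- facts for every eigenvector
  have hxw : ∀ (z : V → ℝ) (zb la : ℝ) (A0 : Finset V), Est r e N j z la c H w A0 zb →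
      0 < z w := fun z zb la A0 h => by
    have h1 := (abs_le.1 h.xw).1
    have h2 : ε * zb ≤ (j : ℝ) / (al r * N) * zb := mul_le_mul_of_nonneg_right hXε h.xb0.le
    have h3 : e * zb ≤ ε / 2 * zb := mul_le_mul_of_nonneg_right heε h.xb0.le
    have h4 : 0 < ε * zb := mul_pos hε h.xb0
    linarith
  have hlam : ∀ (z : V → ℝ) (zb la : ℝ) (A0 : Finset V), Est r e N j z la c H w A0 zb →
      0 < la := fun z zb la A0 h => by
    have h1 := (abs_le.1 h.lamN).1
    have h2 : e * N ≤ 1 / 20 * N := mul_le_mul_of_nonneg_right he20 hNpos.le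
    have h3 : 2 / 3 * (N : ℝ) ≤ al r * N := mul_le_mul_of_nonneg_right hal2 hNpos.le
    linarith
  have hunequal : ∀ (z : V → ℝ) (zb la : ℝ) (A0 : Finset V) (i k : Fin r),
      Est r e N j z la c H w A0 zb → sz H c k - sz H c i = 1 → sz A0 c i ≤ sz H c i →
      cs z H c i < cs z H c k := fun z zb la A0 i k h h1 h2 => by
    have h3 := h.dif k i
    rw [h1, abs_one, mul_one] at h3
    have h4 := (abs_le.1 h3).1
    have h5 : -(1 / 2) ≤ (sz A0 c k - sz A0 c i) / N := by
      rw [le_div_iff₀ hNpos]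
      have h6 : 0 ≤ sz A0 c k := by unfold sz; positivity
      have h7 := hszhi i
      linarith
    have h6 : -(1 / 2) ≤ (j : ℝ) / (al r * N) * ((sz A0 c k - sz A0 c i) / N) := by
      have hX0 : 0 ≤ (j : ℝ) / (al r * N) := hε.le.trans hXε
      nlinarith
    have h7 : zb * (2 / 3 - 1 / 2) ≤
        zb * (al r + (j : ℝ) / (al r * N) * ((sz A0 c k - sz A0 c i) / N)) :=
      mul_le_mul_of_nonneg_left (by linarith) h.xb0.le
    have h8 : e * zb ≤ 1 / 20 * zb := mul_le_mul_of_nonneg_right he20 h.xb0.le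
    have h9 := h.xb0
    linarith
  have hequal : ∀ (G0 : SimpleGraph V) (A0 : Finset V) (z : V → ℝ) (zb la : ℝ) (i k : Fin r),
      Fam G0 H c w A0 (JD v1 v2) → PV G0 z la → Est r e N j z la c H w A0 zb →
      i ∉ ({c v1, c v2} : Finset (Fin r)) → k ∉ ({c v1, c v2} : Finset (Fin r)) →
      sz H c i = sz H c k →
      (la + sz H c i) * (cs z H c i - cs z H c k) = (sz A0 c i - sz A0 c k) * z w := by
    intro G0 A0 z zb la i k hF hP hE hi hk hik
    obtain ⟨-, h1, -, -⟩ := hCSE r V G0 H c w A0 (JD v1 v2) z la hF hP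
    have hJ : ∀ i0, i0 ∉ ({c v1, c v2} : Finset (Fin r)) →
        ∑ v ∈ cl H c i0, ∑ u, JD v1 v2 v u * z u = 0 := by
      intro i0 hi0
      rw [Finset.mem_insert, Finset.mem_singleton, not_or] at hi0
      refine Finset.sum_eq_zero fun v hv => Finset.sum_eq_zero fun u _ => ?_
      have h2 : v ≠ v1 := fun h => hi0.1 (h ▸ (mem_cl.1 hv).2.symm)
      have h3 : v ≠ v2 := fun h => hi0.2 (h ▸ (mem_cl.1 hv).2.symm)
      unfold JD
      rw [chi_neg (fun h => h2 h.1), chi_neg (fun h => h3 h.1)]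
      ring
    have h2 := h1 i
    have h3 := h1 k
    rw [hJ i hi] at h2
    rw [hJ k hk, ← hik] at h3
    linear_combination h2 - h3
  -- the given graph
  obtain ⟨x, hPx⟩ := exists_PV G
  have hFx : Fam G H c w A (JD v1 v2) := (hFAM r hr V G N H c w A).1 v1 v2 hW
  obtain ⟨xb, hEx⟩ := hest N hN1 j hRg V G H c w A (JD v1 v2) x (specRad G) hFx hPx hW.card
    (hnear1 A rfl)
  -- the exchange
  have step : ∀ p q : Fin r, p ≠ q → p ∉ ({c v1, c v2} : Finset (Fin r)) →
      q ∉ ({c v1, c v2} : Finset (Fin r)) → 2 ≤ (cl A c p).card →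
      (cl A c q).card < (cl H c q).card →
      ∃ (A' : Finset V) (G' : SimpleGraph V) (y : V → ℝ) (la yb : ℝ),
        Fam G' H c w A' (JD v1 v2) ∧ PV G' y la ∧ Est r e N j y la c H w A' yb ∧
        sz A' c p = sz A c p - 1 ∧ sz A' c q = sz A c q + 1 ∧
        (cs x H c q < cs x H c p → cs y H c q ≤ cs y H c p → False) := by
    intro p q hpq hp hq h2 hlt
    obtain ⟨a, ha⟩ : (cl A c p).Nonempty := Finset.card_pos.1 (by omega)
    obtain ⟨b, hb, hbA⟩ : ∃ b ∈ cl H c q, b ∉ A := by
      by_contra hcon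
      push Not at hcon
      exact absurd (Finset.card_le_card (fun u hu => mem_cl.2 ⟨hcon u hu, (mem_cl.1 hu).2⟩ :
        cl H c q ⊆ cl A c q)) (by omega)
    have hca : c a = p := (mem_cl.1 ha).2
    have hcb : c b = q := (mem_cl.1 hb).2
    have haA : a ∈ A := (mem_cl.1 ha).1
    have hbH : b ∈ H := (mem_cl.1 hb).1
    have hab : a ≠ b := fun h => hbA (h ▸ haA)
    set A' : Finset V := insert b (A.erase a) with hA'
    have hmem : ∀ v, v ∈ A' ↔ (v ∈ A ∧ v ≠ a) ∨ v = b := fun v => by
      rw [hA', Finset.mem_insert, Finset.mem_erase]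
      tauto
    have hcardA : A'.card = A.card := by
      rw [hA', Finset.card_insert_of_notMem (fun h => hbA (Finset.mem_of_mem_erase h)),
        Finset.card_erase_of_mem haA]
      have := Finset.card_pos.2 ⟨a, haA⟩
      omega
    have hclo : ∀ i, i ≠ p → i ≠ q → cl A' c i = cl A c i := fun i h3 h4 => by
      ext v
      rw [mem_cl, mem_cl, hmem]
      constructor
      · rintro ⟨⟨h5, _⟩ | h5, h6⟩
        · exact ⟨h5, h6⟩
        · exact absurd (h6.symm.trans (h5 ▸ hcb)) h4
      · rintro ⟨h5, h6⟩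
        exact ⟨Or.inl ⟨h5, fun h => h3 (h6.symm.trans (h ▸ hca))⟩, h6⟩
    have hclp : cl A' c p = (cl A c p).erase a := by
      ext v
      rw [Finset.mem_erase, mem_cl, mem_cl, hmem]
      constructor
      · rintro ⟨⟨h5, h7⟩ | h5, h6⟩
        · exact ⟨h7, h5, h6⟩
        · exact absurd (h6.symm.trans (h5 ▸ hcb)) hpq
      · rintro ⟨h7, h5, h6⟩
        exact ⟨Or.inl ⟨h5, h7⟩, h6⟩
    have hclq : cl A' c q = insert b (cl A c q) := by
      ext v
      rw [Finset.mem_insert, mem_cl, mem_cl, hmem]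
      constructor
      · rintro ⟨⟨h5, h7⟩ | h5, h6⟩
        · exact Or.inr ⟨h5, h6⟩
        · exact Or.inl h5
      · rintro (h5 | ⟨h5, h6⟩)
        · exact ⟨Or.inr h5, h5 ▸ hcb⟩
        · exact ⟨Or.inl ⟨h5, fun h => hpq ((h ▸ hca).symm.trans h6)⟩, h6⟩
    have hszp : sz A' c p = sz A c p - 1 := by
      unfold sz
      rw [hclp, Finset.card_erase_of_mem ha, Nat.cast_sub (by omega)]
      simp
    have hszq : sz A' c q = sz A c q + 1 := by
      unfold sz
      rw [hclq, Finset.card_insert_of_notMem (fun h => hbA (mem_cl.1 h).1)]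
      push_cast
      ring
    rw [Finset.mem_insert, Finset.mem_singleton, not_or] at hp hq
    have hA'H : A' ⊆ H := fun v hv => by
      rcases (hmem v).1 hv with h | h
      · exact hW.hA h.1
      · exact h ▸ hbH
    have hW' : WD (gD H c w A' v1 v2) N H c w A' v1 v2 := by
      refine gD_WD hW.card hW.hw hA'H hW.h12 ?_ ?_ ?_
      · rw [hclo _ (Ne.symm hp.1) (Ne.symm hq.1)]
        exact hW.h1
      · rw [hclo _ (Ne.symm hp.2) (Ne.symm hq.2)]
        exact hW.h2
      · intro i
        by_cases h3 : i = p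
        · rw [h3, hclp, ← Finset.card_pos, Finset.card_erase_of_mem ha]
          omega
        · by_cases h4 : i = q
          · rw [h4, hclq]
            exact ⟨b, Finset.mem_insert_self _ _⟩
          · rw [hclo i h3 h4]
            exact hW.hne i
    set G' : SimpleGraph V := gD H c w A' v1 v2 with hG'
    have hgd := hGD r hr V G N H c w A v1 v2 hW
    have hgd' := hGD r hr V G' N H c w A' v1 v2 hW'
    have hpe : pE G' = pE G := by
      rw [hgd'.2.2, hgd.2.2, hcardA]
    have hle := hMX G' hgd'.1 (hgd'.2.1 hsz2) hpe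
    obtain ⟨y, hPy⟩ := exists_PV G'
    have hFy : Fam G' H c w A' (JD v1 v2) := (hFAM r hr V G' N H c w A').1 v1 v2 hW'
    obtain ⟨yb, hEy⟩ := hest N hN1 j hRg V G' H c w A' (JD v1 v2) y (specRad G') hFy hPy hW.card
      (hnear1 A' hcardA)
    refine ⟨A', G', y, specRad G', yb, hFy, hPy, hEy, hszp, hszq, fun hx hy => ?_⟩
    have ha1 : a ≠ v1 := fun h => hp.1 (h ▸ hca.symm)
    have ha2 : a ≠ v2 := fun h => hp.2 (h ▸ hca.symm)
    have hb1 : b ≠ v1 := fun h => hq.1 (h ▸ hcb.symm)
    have hb2 : b ≠ v2 := fun h => hq.2 (h ▸ hcb.symm)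
    have hJ : ∀ z, JD v1 v2 a z = JD v1 v2 b z := fun z => by
      unfold JD
      rw [chi_neg (fun h => ha1 h.1), chi_neg (fun h => ha2 h.1), chi_neg (fun h => hb1 h.1),
        chi_neg (fun h => hb2 h.1)]
    have hlt' := hMV1 r V G G' H c w A A' (JD v1 v2) a b x y (specRad G) (specRad G') hFx hFy hPx
      hPy (hlam x xb _ A hEx) (hlam y yb _ A' hEy) (hxw x xb _ A hEx) (hxw y yb _ A' hEy) haA hbH
      hbA hmem hJ (by rw [hca, hcb]; exact hx) (by rw [hca, hcb]; exact hy)
    linarith
  intro i k hi hk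
  have hsz0 : ∀ (S : Finset V) (i : Fin r), 0 ≤ sz S c i := fun S i => by
    unfold sz
    positivity
  refine ⟨fun hik => ?_, fun hik => ?_⟩
  · by_contra hcon
    push Not at hcon
    have hne : i ≠ k := fun h => by
      rw [h] at hcon
      omega
    have hkle : (cl A c i).card ≤ (cl H c i).card :=
      Finset.card_le_card fun u hu => mem_cl.2 ⟨hW.hA (mem_cl.1 hu).1, (mem_cl.1 hu).2⟩
    obtain ⟨A', G', y, la, yb, hFy, hPy, hEy, h1, h2, h3⟩ := step i k hne hi hk (by omega)
      (by omega)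
    have hszik : sz H c i = sz H c k := by
      unfold sz
      exact_mod_cast hik
    have hgap : sz A c k + 2 ≤ sz A c i := by
      unfold sz
      exact_mod_cast hcon
    refine h3 ?_ ?_
    · have h4 := hequal G A x xb _ i k hFx hPx hEx hi hk hszik
      have h5 : 0 < (sz A c i - sz A c k) * x w :=
        mul_pos (by linarith) (hxw x xb _ A hEx)
      rw [← h4] at h5
      have h6 : 0 < specRad G + sz H c i := by
        have := hlam x xb _ A hEx
        have := hsz0 H i
        linarith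
      have h7 := (mul_pos_iff_of_pos_left h6).1 h5
      linarith
    · have h4 := hequal G' A' y yb _ i k hFy hPy hEy hi hk hszik
      have h5 : 0 ≤ (sz A' c i - sz A' c k) * y w :=
        mul_nonneg (by rw [h1, h2]; linarith) (hxw y yb _ A' hEy).le
      rw [← h4] at h5
      have h6 : 0 < la + sz H c i := by
        have := hlam y yb _ A' hEy
        have := hsz0 H i
        linarith
      have h7 := nonneg_of_mul_nonneg_right h5 h6
      linarith
  · by_contra hcon
    push Not at hcon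
    have hne : k ≠ i := fun h => by
      rw [h] at hik
      omega
    have hile : (cl A c i).card ≤ (cl H c i).card :=
      Finset.card_le_card fun u hu => mem_cl.2 ⟨hW.hA (mem_cl.1 hu).1, (mem_cl.1 hu).2⟩
    have hkpos : 0 < (cl A c k).card := Finset.card_pos.2 (hW.hne k)
    obtain ⟨A', G', y, la, yb, hFy, hPy, hEy, h1, h2, h3⟩ := step k i hne hk hi (by omega)
      (by omega)
    have hbal := hBal k i
    have hdiff : sz H c k - sz H c i = 1 := by
      unfold sz
      have : (cl H c k).card = (cl H c i).card + 1 := by omega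
      rw [this]
      push_cast
      ring
    have hlt : sz A c i + 1 ≤ sz H c i := by
      unfold sz
      have : (cl A c i).card + 1 ≤ (cl H c i).card := by omega
      exact_mod_cast this
    refine h3 ?_ ?_
    · exact hunequal x xb _ A i k hEx hdiff (by linarith)
    · exact (hunequal y yb _ A' i k hEy hdiff (by rw [h2]; linarith)).le

end Pool.Agent.Work.MP_5532fa_up
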