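import Pool.Agent.Work.MP_5532fa_up.Interface

/-!
# MP_5532fa_co, upgrade: block E2 (type E: placement of the neighbours of `w`)
-/

open Finset

namespace Pool.Agent.Work.MP_5532fa_up

open MP5532fa (specRad qf pE)

namespace E2

variable {V : Type} [Fintype V] {r : ℕ}

/-- the row sums of `JE` on `H` -/
lemma JE_row {w u : V} {B H : Finset V} (hw : w ∉ H) (hu : u ∉ H) (x : V → ℝ) {v : V}
    (hv : v ∈ H) : ∑ z, JE w u B v z * x z = chi (v ∈ B) * x u := by
  classical
  have h1 : v ≠ u := by rintro rfl; exact hu hv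
  have h2 : v ≠ w := by rintro rfl; exact hw hv
  have h3 : ∀ z, JE w u B v z * x z = if z = u then chi (v ∈ B) * x u else 0 := by
    intro z
    unfold JE
    rw [chi_neg (p := v = u ∧ z ∈ B) (fun h => h1 h.1),
      chi_neg (p := v = w ∧ z = u) (fun h => h2 h.1),
      chi_neg (p := v = u ∧ z = w) (fun h => h1 h.1)]
    by_cases hz : z = u
    · rw [if_pos hz, hz, chi_congr (show (u = u ∧ v ∈ B) ↔ v ∈ B from
        ⟨fun h => h.2, fun h => ⟨rfl, h⟩⟩)]
      ring
    · rw [if_neg hz, chi_neg (p := z = u ∧ v ∈ B) (fun h => hz h.1)]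
      ring
  rw [Finset.sum_congr rfl fun z _ => h3 z, Finset.sum_ite_eq' univ u, if_pos (mem_univ _)]

/-- the sum of the row sums of `JE` over a class -/
lemma JE_cls {w u : V} {B H : Finset V} (hw : w ∉ H) (hu : u ∉ H) (hB : B ⊆ H) (c : V → Fin r)
    (x : V → ℝ) {i : Fin r} (hi : (cl B c i).card = 1) :
    ∑ v ∈ cl H c i, ∑ z, JE w u B v z * x z = x u := by
  classical
  have h1 : ∀ v ∈ cl H c i, ∑ z, JE w u B v z * x z = if v ∈ B then x u else 0 := by
    intro v hv
    rw [JE_row hw hu x (mem_cl.mp hv).1]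
    by_cases h : v ∈ B
    · rw [if_pos h, chi_pos h, one_mul]
    · rw [if_neg h, chi_neg h, zero_mul]
  rw [Finset.sum_congr rfl h1, ← Finset.sum_filter, Finset.sum_const]
  have h2 : (cl H c i).filter (fun v => v ∈ B) = cl B c i := by
    ext z
    rw [mem_filter, mem_cl, mem_cl]
    constructor
    · rintro ⟨⟨_, a⟩, b⟩; exact ⟨b, a⟩
    · rintro ⟨a, b⟩; exact ⟨⟨hB a, b⟩, a⟩
  rw [h2, hi, one_smul]

/-- equal rows -/
lemma JE_eq {w u : V} {B H : Finset V} (hw : w ∉ H) (hu : u ∉ H) {a b : V} (ha : a ∈ H)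
    (hb : b ∈ H) (hab : a ∈ B ↔ b ∈ B) (z : V) : JE w u B a z = JE w u B b z := by
  have h1 : a ≠ u := by rintro rfl; exact hu ha
  have h2 : a ≠ w := by rintro rfl; exact hw ha
  have h3 : b ≠ u := by rintro rfl; exact hu hb
  have h4 : b ≠ w := by rintro rfl; exact hw hb
  unfold JE
  rw [chi_neg (p := a = u ∧ z ∈ B) (fun h => h1 h.1),
    chi_neg (p := a = w ∧ z = u) (fun h => h2 h.1),
    chi_neg (p := a = u ∧ z = w) (fun h => h1 h.1),
    chi_neg (p := b = u ∧ z ∈ B) (fun h => h3 h.1),
    chi_neg (p := b = w ∧ z = u) (fun h => h4 h.1),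
    chi_neg (p := b = u ∧ z = w) (fun h => h3 h.1),
    chi_congr (show (z = u ∧ a ∈ B) ↔ (z = u ∧ b ∈ B) from
      ⟨fun h => ⟨h.1, hab.mp h.2⟩, fun h => ⟨h.1, hab.mpr h.2⟩⟩)]

omit [Fintype V] in
lemma sz_le {A H : Finset V} (h : A ⊆ H) (c : V → Fin r) (i : Fin r) : sz A c i ≤ sz H c i := by
  unfold sz
  have : cl A c i ⊆ cl H c i := by
    intro z hz
    rw [mem_cl] at hz ⊢
    exact ⟨h hz.1, hz.2⟩
  exact_mod_cast card_le_card this

omit [Fintype V] in
/-- sizes `n + 1` and `n`: the sums over the classes differ -/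
lemma dif_pos (hr : 3 ≤ r) {e δ ε : ℝ} {N j : ℕ} {x : V → ℝ} {lam : ℝ} {c : V → Fin r}
    {H : Finset V} {w : V} {A : Finset V} {xb : ℝ} (hE : Est r e N j x lam c H w A xb)
    (hA : A ⊆ H) (hN : (0 : ℝ) < N) (hε : 0 < ε) (he : 0 ≤ e) (he' : e ≤ 1 / 24)
    (hδ : 0 ≤ δ) (hδ' : δ ≤ 1 / 24) (hj : Rg r ε N j)
    (hb : ∀ i, |sz H c i - N / r| ≤ δ * N) {l k : Fin r} (hlk : sz H c l = sz H c k + 1) :
    cs x H c k < cs x H c l := by
  have h1 := (abs_le.mp (hE.dif l k)).1
  have hr3 : (3 : ℝ) ≤ r := by exact_mod_cast hr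
  have hal := al_ge hr
  have hX0 : 0 ≤ (j : ℝ) / (al r * N) := by positivity
  have hX1 : (j : ℝ) / (al r * N) ≤ 1 := by
    rw [div_le_one (by positivity)]
    have h2 := hj.2
    have h3 : (0 : ℝ) < 2 / r := by positivity
    have h4 : ((1 - 2 / r) * al r - ε) * N ≤ al r * N := by
      apply mul_le_mul_of_nonneg_right _ hN.le
      nlinarith
    linarith
  have h2 : sz H c l - sz H c k = 1 := by linarith
  rw [h2] at h1
  have h3 : -(1 / 3 + δ) ≤ (sz A c l - sz A c k) / N := by
    rw [le_div_iff₀ hN]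
    have h4 := sz_le hA c k
    have h5 := (abs_le.mp (hb k)).2
    have h6 : 0 ≤ sz A c l := by unfold sz; positivity
    have h7 : (N : ℝ) / r ≤ 1 / 3 * N := by
      rw [div_le_iff₀ (by linarith)]
      nlinarith
    nlinarith
  have h4 : -(1 / 3 + δ) ≤ (j : ℝ) / (al r * N) * ((sz A c l - sz A c k) / N) := by
    by_cases hs : 0 ≤ (sz A c l - sz A c k) / N
    · have := mul_nonneg hX0 hs
      linarith
    · push Not at hs
      nlinarith
  have h5 : 0 < xb := hE.xb0
  rw [abs_one] at h1
  have h6 : xb * (2 / 3 - (1 / 3 + δ)) ≤ xb * (al r * 1 + (j : ℝ) / (al r * N) *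
      ((sz A c l - sz A c k) / N)) := by
    apply mul_le_mul_of_nonneg_left _ h5.le
    linarith
  nlinarith

omit [Fintype V] in
lemma cl_insert_erase [DecidableEq V] {A : Finset V} {c : V → Fin r} {a b : V} (ha : a ∈ A)
    (hb : b ∉ A) (hab : c a ≠ c b) :
    (cl (insert b (A.erase a)) c (c a)).card + 1 = (cl A c (c a)).card ∧
    (cl (insert b (A.erase a)) c (c b)).card = (cl A c (c b)).card + 1 ∧
    ∀ i, i ≠ c a → i ≠ c b → cl (insert b (A.erase a)) c i = cl A c i := by
  refine ⟨?_, ?_, ?_⟩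
  · have h1 : cl (insert b (A.erase a)) c (c a) = (cl A c (c a)).erase a := by
      ext z
      rw [mem_cl, mem_insert, mem_erase, mem_erase, mem_cl]
      constructor
      · rintro ⟨rfl | h, h2⟩
        · exact absurd h2.symm hab
        · exact ⟨h.1, h.2, h2⟩
      · rintro ⟨h1, h2, h3⟩
        exact ⟨Or.inr ⟨h1, h2⟩, h3⟩
    rw [h1]
    exact card_erase_add_one (mem_cl.mpr ⟨ha, rfl⟩)
  · have h1 : cl (insert b (A.erase a)) c (c b) = insert b (cl A c (c b)) := by
      ext z
      rw [mem_cl, mem_insert, mem_erase, mem_insert, mem_cl]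
      constructor
      · rintro ⟨rfl | h, h2⟩
        · exact Or.inl rfl
        · exact Or.inr ⟨h.2, h2⟩
      · rintro (rfl | ⟨h1, h2⟩)
        · exact ⟨Or.inl rfl, rfl⟩
        · refine ⟨Or.inr ⟨?_, h1⟩, h2⟩
          rintro rfl
          exact hab h2
    rw [h1, card_insert_of_notMem]
    rw [mem_cl]
    rintro ⟨h2, _⟩
    exact hb h2
  · intro i hi hi'
    ext z
    rw [mem_cl, mem_insert, mem_erase, mem_cl]
    constructor
    · rintro ⟨rfl | h, h2⟩
      · exact absurd h2.symm hi'
      · exact ⟨h.2, h2⟩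
    · rintro ⟨h1, h2⟩
      refine ⟨Or.inr ⟨?_, h1⟩, h2⟩
      rintro rfl
      exact hi h2.symm

end E2

open E2 in
theorem blk_E2 (hGE : Stmt_GE) (hFAM : Stmt_FAM) (hCSE : Stmt_CSE) (hEST : Stmt_EST)
    (hMV1 : Stmt_MV1) : Stmt_E2 := by
  classical
  intro r ε hr hε
  have hr3 : (3 : ℝ) ≤ r := by exact_mod_cast hr
  have hr0 : (0 : ℝ) < r := by linarith
  have hal := al_ge hr
  have hal1 := al_lt hr
  obtain ⟨e, he, he24, heε⟩ : ∃ e : ℝ, 0 < e ∧ e ≤ 1 / 24 ∧ 2 * e ≤ ε := by
    refine ⟨min (1 / 24) (ε / 2), lt_min (by norm_num) (by positivity), min_le_left _ _, ?_⟩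
    have := min_le_right (1 / 24 : ℝ) (ε / 2)
    linarith
  obtain ⟨δ0, N2, hδ0, hE⟩ := hEST r ε e hr hε he
  obtain ⟨δ, hδ, hδd, hδ24, hδr⟩ : ∃ δ : ℝ, 0 < δ ∧ δ ≤ δ0 ∧ δ ≤ 1 / 24 ∧ 2 * r * δ ≤ 1 := by
    refine ⟨min (min δ0 (1 / 24)) (1 / (2 * r)), ?_, ?_, ?_, ?_⟩
    · have : 0 < 1 / (2 * (r : ℝ)) := by positivity
      exact lt_min (lt_min hδ0 (by norm_num)) this
    · exact (min_le_left _ _).trans (min_le_left _ _)
    · exact (min_le_left _ _).trans (min_le_right _ _)
    · have := min_le_right (min δ0 (1 / 24)) (1 / (2 * (r : ℝ)))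
      have h2 := mul_le_mul_of_nonneg_left this (show (0 : ℝ) ≤ 2 * r by positivity)
      have h3 : 2 * (r : ℝ) * (1 / (2 * r)) = 1 := by field_simp
      linarith
  obtain ⟨N4, hN4⟩ := exists_nat_ge (2 * r : ℝ)
  refine ⟨δ, max N2 N4, hδ, ?_⟩
  intro N hN j hj V _ G H c w u A B i0 hW hNear hOO hBal hMX
  have hNN2 : N2 ≤ N := (le_max_left _ _).trans hN
  have hNN4 : N4 ≤ N := (le_max_right _ _).trans hN
  have r4 : (2 * r : ℝ) ≤ N := hN4.trans (by exact_mod_cast hNN4)
  have hN0 : (0 : ℝ) < N := by linarith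
  -- sizes of the classes
  have hsz : ∀ i, (1 : ℝ) ≤ sz H c i := by
    intro i
    have h1 := (abs_le.mp (hNear.1 i)).1
    have h2 : δ * N ≤ N / (2 * r) := by
      rw [le_div_iff₀ (by positivity)]
      nlinarith
    have h3 : (1 : ℝ) ≤ N / (2 * r) := by
      rw [le_div_iff₀ (by positivity)]
      linarith
    have h4 : (N : ℝ) / r = N / (2 * r) + N / (2 * r) := by
      field_simp
      ring
    linarith
  have hszn : ∀ i, 1 ≤ (cl H c i).card := by
    intro i
    have := hsz i
    unfold sz at this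
    exact_mod_cast this
  have hNear1 : Near r δ0 N j H A c := by
    refine ⟨fun i => (hNear.1 i).trans ?_, hNear.2.trans ?_⟩ <;>
    exact mul_le_mul_of_nonneg_right (by linarith) hN0.le
  obtain ⟨_, _, hpE⟩ := hGE r hr V G N H c w u A B i0 hW
  have hF := (hFAM r hr V G N H c w A).2 u B i0 hW
  have hXε : ε ≤ (j : ℝ) / (al r * N) := by
    rw [le_div_iff₀ (by positivity)]
    have := hj.1
    have h2 : ε * (al r * N) ≤ ε * N := by
      apply mul_le_mul_of_nonneg_left _ hε.le
      nlinarith
    linarith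
  -- the exchange
  have key : ∀ l k : Fin r, l ≠ k → l ≠ i0 → k ≠ i0 → 2 ≤ (cl A c l).card →
      (cl A c k).card < (cl H c k).card →
      ((cl H c l).card = (cl H c k).card ∧ (cl A c k).card + 2 ≤ (cl A c l).card ∨
        (cl H c l).card = (cl H c k).card + 1) → False := by
    intro l k hlk hl hk hal2 hakn hcase
    obtain ⟨b0, hb0B, hb0A, hb0⟩ := hOO
    -- choice of the vertices
    have hchoice : ∃ a b : V, a ∈ A ∧ c a = l ∧ b ∈ H ∧ c b = k ∧ b ∉ A ∧ (a ∈ B ↔ b ∈ B) ∧
        ¬ B ⊆ insert b (A.erase a) := by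
      by_cases hek : c b0 = k
      · obtain ⟨a, ha⟩ := card_eq_one.mp (hW.hB1 l hl)
        have ha' : a ∈ cl B c l := by rw [ha]; exact mem_singleton_self a
        rw [mem_cl] at ha'
        have hab : a ≠ b0 := by
          rintro rfl
          exact hlk (ha'.2.symm.trans hek)
        have haA : a ∈ A := by
          by_contra h
          exact hab (hb0 a ha'.1 h)
        refine ⟨a, b0, haA, ha'.2, hW.hB hb0B, hek, hb0A, ⟨fun _ => hb0B, fun _ => ha'.1⟩, ?_⟩
        intro h
        have := h ha'.1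
        rw [mem_insert, mem_erase] at this
        rcases this with h1 | h1
        · exact hab h1
        · exact h1.1 rfl
      · have h1 : ∃ a ∈ cl A c l, a ∉ cl B c l := by
          by_contra hcon
          push Not at hcon
          have h2 : cl A c l ⊆ cl B c l := hcon
          have := card_le_card h2
          rw [hW.hB1 l hl] at this
          omega
        obtain ⟨a, ha, haB⟩ := h1
        rw [mem_cl] at ha
        have haB' : a ∉ B := fun h => haB (mem_cl.mpr ⟨h, ha.2⟩)
        have h2 : ∃ b ∈ cl H c k, b ∉ cl A c k := by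
          by_contra hcon
          push Not at hcon
          have h2 : cl H c k ⊆ cl A c k := hcon
          have := card_le_card h2
          omega
        obtain ⟨b, hb, hbA⟩ := h2
        rw [mem_cl] at hb
        have hbA' : b ∉ A := fun h => hbA (mem_cl.mpr ⟨h, hb.2⟩)
        have hbB' : b ∉ B := by
          intro h
          have := hb0 b h hbA'
          rw [this] at hb
          exact hek hb.2
        refine ⟨a, b, ha.1, ha.2, hb.1, hb.2, hbA', ⟨fun h => absurd h haB',
          fun h => absurd h hbB'⟩, ?_⟩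
        intro h
        have := h hb0B
        rw [mem_insert, mem_erase] at this
        rcases this with h1 | h1
        · exact hbB' (h1 ▸ hb0B)
        · exact hb0A h1.2
    obtain ⟨a, b, haA, hca, hbH, hcb, hbA, habB, hBA'⟩ := hchoice
    set A' : Finset V := insert b (A.erase a) with hA'
    have hcab : c a ≠ c b := by rw [hca, hcb]; exact hlk
    obtain ⟨k1, k2, k3⟩ := cl_insert_erase haA hbA hcab
    rw [← hA'] at k1 k2 k3
    rw [hca] at k1 k3
    rw [hcb] at k2 k3
    have haH : a ∈ H := hW.hA haA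
    have hA'H : A' ⊆ H := by
      intro z hz
      rw [hA', mem_insert, mem_erase] at hz
      rcases hz with rfl | hz
      · exact hbH
      · exact hW.hA hz.2
    have hA'card : A'.card = A.card := by
      rw [hA', card_insert_of_notMem, card_erase_add_one haA]
      rw [mem_erase]
      rintro ⟨_, h⟩
      exact hbA h
    set G' : SimpleGraph V := gE H c w u A' B with hG'
    have hW' : WE G' N H c w u A' B i0 := by
      refine gE_WE hW.card hW.hw hW.hu hW.hwu hA'H hW.hB ?_ hW.hB0 ?_ hW.hB1 hBA'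
      · rw [k3 i0 hl.symm hk.symm]; exact hW.hA0
      · intro i hi
        rw [← card_pos]
        by_cases h1 : i = l
        · rw [h1]; omega
        · by_cases h2 : i = k
          · rw [h2]; omega
          · rw [k3 i h1 h2, card_pos]; exact hW.hAne i hi
    obtain ⟨hcf', hcol', hpE'⟩ := hGE r hr V G' N H c w u A' B i0 hW'
    have hpEE : pE G' = pE G := by rw [hpE, hpE', hA'card]
    have hle := hMX G' hcf' (hcol' hszn) hpEE
    have : Nonempty V := ⟨a⟩
    obtain ⟨x, hx⟩ := exists_PV G
    obtain ⟨y, hy⟩ := exists_PV G'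
    have hF' := (hFAM r hr V G' N H c w A').2 u B i0 hW'
    have hNear' : Near r δ0 N j H A' c := ⟨hNear1.1, by rw [hA'card]; exact hNear1.2⟩
    obtain ⟨xb, hxb⟩ := hE N hNN2 j hj V G H c w A _ x _ hF hx hW.card hNear1
    obtain ⟨yb, hyb⟩ := hE N hNN2 j hj V G' H c w A' _ y _ hF' hy hW.card hNear'
    have hlam : ∀ {x : V → ℝ} {lam : ℝ} {A : Finset V} {xb : ℝ}, Est r e N j x lam c H w A xb →
        0 < lam ∧ 0 < x w := by
      intro x lam A xb h
      refine ⟨?_, ?_⟩
      · have h1 := (abs_le.mp h.lamN).1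
        nlinarith
      · have h1 := (abs_le.mp h.xw).1
        have h2 := h.xb0
        nlinarith
    obtain ⟨hl1, hxw⟩ := hlam hxb
    obtain ⟨hl2, hyw⟩ := hlam hyb
    have hcs : cs x H c k < cs x H c l ∧ cs y H c k ≤ cs y H c l := by
      rcases hcase with ⟨hc1, hc2⟩ | hc1
      · have hs : sz H c l = sz H c k := by unfold sz; rw [hc1]
        obtain ⟨_, q2, _, _⟩ := hCSE r V G H c w A _ x _ hF hx
        obtain ⟨_, q2', _, _⟩ := hCSE r V G' H c w A' _ y _ hF' hy
        have e1 := q2 l
        have e2 := q2 k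
        have e1' := q2' l
        have e2' := q2' k
        rw [JE_cls hW.hw hW.hu hW.hB c _ (hW.hB1 l hl)] at e1 e1'
        rw [JE_cls hW.hw hW.hu hW.hB c _ (hW.hB1 k hk)] at e2 e2'
        rw [hs] at e1 e1'
        have hn := hsz k
        constructor
        · have hd : (sz A c k : ℝ) + 2 ≤ sz A c l := by
            unfold sz
            exact_mod_cast hc2
          have h5 : (specRad G + sz H c k) * (cs x H c l - cs x H c k)
              = (sz A c l - sz A c k) * x w := by
            linear_combination e1 - e2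
          have h6 : 0 < (sz A c l - sz A c k) * x w := mul_pos (by linarith) hxw
          rw [← h5] at h6
          have h7 := (pos_iff_pos_of_mul_pos h6).mp (by linarith)
          linarith
        · have hd : (sz A' c k : ℝ) ≤ sz A' c l := by
            unfold sz
            have : (cl A' c k).card ≤ (cl A' c l).card := by omega
            exact_mod_cast this
          have h5 : (specRad G' + sz H c k) * (cs y H c l - cs y H c k)
              = (sz A' c l - sz A' c k) * y w := by
            linear_combination e1' - e2'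
          have h6 : 0 ≤ (sz A' c l - sz A' c k) * y w := mul_nonneg (by linarith) hyw.le
          rw [← h5] at h6
          by_contra hcon
          push Not at hcon
          nlinarith
      · have hs : sz H c l = sz H c k + 1 := by
          unfold sz
          rw [hc1]
          push_cast
          ring
        exact ⟨dif_pos hr hxb hW.hA hN0 hε he.le he24 hδ.le hδ24 hj hNear.1 hs,
          (dif_pos hr hyb hA'H hN0 hε he.le he24 hδ.le hδ24 hj hNear.1 hs).le⟩
    have hlt := hMV1 r V G G' H c w A A' (JE w u B) a b x y _ _ hF hF' hx hy hl1 hl2 hxw hyw haA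
      hbH hbA (by
        intro v
        rw [hA', mem_insert, mem_erase]
        constructor
        · rintro (h | h)
          · exact Or.inr h
          · exact Or.inl ⟨h.2, h.1⟩
        · rintro (h | h)
          · exact Or.inr ⟨h.2, h.1⟩
          · exact Or.inl h)
      (JE_eq hW.hw hW.hu haH hbH habB) (by rw [hca, hcb]; exact hcs.1)
      (by rw [hca, hcb]; exact hcs.2)
    linarith
  intro i k hi hk
  rw [mem_singleton] at hi hk
  have hAH : ∀ i, (cl A c i).card ≤ (cl H c i).card := by
    intro i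
    have := sz_le hW.hA c i
    unfold sz at this
    exact_mod_cast this
  constructor
  · intro h1
    by_contra h2
    push Not at h2
    have hne : i ≠ k := by rintro rfl; omega
    have := hAH i
    exact key i k hne hi hk (by omega) (by omega) (Or.inl ⟨h1, by omega⟩)
  · intro h1
    by_contra h2
    push Not at h2
    have hne : k ≠ i := by rintro rfl; omega
    have h3 := hBal k i
    have h4 : 1 ≤ (cl A c k).card := card_pos.mpr (hW.hAne k hk)
    have h5 := hAH i
    exact key k i hne hk hi (by omega) (by omega) (Or.inr (by omega))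

end Pool.Agent.Work.MP_5532fa_up
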