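import Pool.Agent.Work.MP_5532fa_up.Interface

/-!
# MP_5532fa_co, upgrade: block E3 (type E: the class without neighbours of `w` is a largest one)
-/

open Finset

namespace Pool.Agent.Work.MP_5532fa_up

open MP5532fa (specRad qf pE)

namespace E3

theorem chi_and (p q : Prop) : chi (p ∧ q) = chi p * chi q := by
  by_cases hp : p <;> by_cases hq : q
  · rw [chi_pos hp, chi_pos hq, chi_pos ⟨hp, hq⟩, one_mul]
  · rw [chi_pos hp, chi_neg hq, chi_neg (fun h => hq h.2), mul_zero]
  · rw [chi_neg hp, chi_neg (fun h => hp h.1), zero_mul]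
  · rw [chi_neg hp, chi_neg (fun h => hp h.1), zero_mul]

section
variable {V : Type} [Fintype V] {r : ℕ}

theorem sum_chi_eq (u : V) (f : V → ℝ) : ∑ a, chi (a = u) * f a = f u := by
  classical
  rw [Finset.sum_eq_single u]
  · rw [chi_pos rfl, one_mul]
  · intro b _ hb; rw [chi_neg hb, zero_mul]
  · intro h; exact absurd (Finset.mem_univ u) h

theorem sum_chi_mem (B : Finset V) (f : V → ℝ) : ∑ b, chi (b ∈ B) * f b = ∑ b ∈ B, f b := by
  classical
  rw [← Finset.sum_subset (Finset.subset_univ B)]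
  · exact Finset.sum_congr rfl fun b hb => by rw [chi_pos hb, one_mul]
  · intro b _ hb; rw [chi_neg hb, zero_mul]

theorem sum2_mem (u : V) (B : Finset V) (x y : V → ℝ) :
    ∑ a, ∑ b, chi (a = u ∧ b ∈ B) * (x a * y b) = x u * ∑ b ∈ B, y b := by
  have h : ∀ a, ∑ b, chi (a = u ∧ b ∈ B) * (x a * y b) = chi (a = u) * (x a * ∑ b ∈ B, y b) := by
    intro a
    rw [← sum_chi_mem B y, Finset.mul_sum, Finset.mul_sum]
    exact Finset.sum_congr rfl fun b _ => by rw [chi_and]; ring
  simp only [h]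
  rw [sum_chi_eq u (fun a => x a * ∑ b ∈ B, y b)]

theorem sum2_mem' (u : V) (B : Finset V) (x y : V → ℝ) :
    ∑ a, ∑ b, chi (b = u ∧ a ∈ B) * (x a * y b) = y u * ∑ b ∈ B, x b := by
  rw [Finset.sum_comm, ← sum2_mem u B y x]
  exact Finset.sum_congr rfl fun a _ => Finset.sum_congr rfl fun b _ => by ring

theorem sum2_eq (w u : V) (x y : V → ℝ) :
    ∑ a, ∑ b, chi (a = w ∧ b = u) * (x a * y b) = x w * y u := by
  have h : ∀ a, ∑ b, chi (a = w ∧ b = u) * (x a * y b) = chi (a = w) * (x a * y u) := by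
    intro a
    rw [← sum_chi_eq u y, Finset.mul_sum, Finset.mul_sum]
    exact Finset.sum_congr rfl fun b _ => by rw [chi_and]; ring
  simp only [h]
  rw [sum_chi_eq w (fun a => x a * y u)]

theorem pair_fam {G G' : SimpleGraph V} {H : Finset V} {c : V → Fin r} {w : V} {A A' : Finset V}
    {J J' : V → V → ℝ} (h : Fam G H c w A J) (h' : Fam G' H c w A' J') (x y : V → ℝ) :
    ∑ a, ∑ b, (ad G' a b - ad G a b) * (x a * y b)
      = x w * (∑ b ∈ A', y b - ∑ b ∈ A, y b) + y w * (∑ b ∈ A', x b - ∑ b ∈ A, x b)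
        + (∑ a, ∑ b, J' a b * (x a * y b) - ∑ a, ∑ b, J a b * (x a * y b)) := by
  rw [mul_sub, mul_sub, ← sum2_mem w A' x y, ← sum2_mem w A x y, ← sum2_mem' w A' x y,
    ← sum2_mem' w A x y]
  simp only [← Finset.sum_sub_distrib, ← Finset.sum_add_distrib]
  refine Finset.sum_congr rfl fun a _ => Finset.sum_congr rfl fun b _ => ?_
  rw [h.adj, h'.adj]; ring

theorem JE_double (w u : V) (B : Finset V) (x y : V → ℝ) :
    ∑ a, ∑ b, JE w u B a b * (x a * y b)
      = x u * ∑ b ∈ B, y b + y u * ∑ b ∈ B, x b + x w * y u + x u * y w := by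
  rw [← sum2_mem u B x y, ← sum2_mem' u B x y, ← sum2_eq w u x y, ← sum2_eq u w x y]
  simp only [← Finset.sum_add_distrib]
  refine Finset.sum_congr rfl fun a _ => Finset.sum_congr rfl fun b _ => ?_
  unfold JE; ring

theorem JE_H {w u v : V} {B : Finset V} (x : V → ℝ) (hvu : v ≠ u) (hvw : v ≠ w) :
    ∑ z, JE w u B v z * x z = chi (v ∈ B) * x u := by
  have h : ∀ z, JE w u B v z * x z = chi (z = u) * (chi (v ∈ B) * x z) := by
    intro z
    have h1 : chi (v = u ∧ z ∈ B) = 0 := chi_neg (fun h => hvu h.1)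
    have h2 : chi (v = w ∧ z = u) = 0 := chi_neg (fun h => hvw h.1)
    have h3 : chi (v = u ∧ z = w) = 0 := chi_neg (fun h => hvu h.1)
    unfold JE
    rw [h1, h2, h3, chi_and]
    ring
  simp only [h]
  rw [sum_chi_eq u (fun z => chi (v ∈ B) * x z)]

theorem eigE (hFAM : Stmt_FAM) (hCSE : Stmt_CSE) (hr : 3 ≤ r) {G : SimpleGraph V} {N : ℕ}
    {H : Finset V} {c : V → Fin r} {w u : V} {A B : Finset V} {i0 : Fin r}
    (hW : WE G N H c w u A B i0) {x : V → ℝ} {lam : ℝ} (hx : PV G x lam) :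
    ∀ v ∈ H, lam * x v = (∑ z ∈ H, x z - cs x H c (c v)) + chi (v ∈ A) * x w
      + chi (v ∈ B) * x u := by
  have hF := (hFAM r hr V G N H c w A).2 u B i0 hW
  have h := (hCSE r V G H c w A (JE w u B) x lam hF hx).1
  intro v hv
  have hvu : v ≠ u := fun h => hW.hu (h ▸ hv)
  have hvw : v ≠ w := fun h => hW.hw (h ▸ hv)
  rw [h v hv, JE_H x hvu hvw]

/-- the cardinality of a finite set of vertices as a sum over the classes -/
theorem card_bound {A : Finset V} {c : V → Fin r} {k : Fin r} {m : ℕ} (hk : cl A c k = ∅)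
    (h : ∀ i, i ≠ k → m ≤ (cl A c i).card) : (r - 1) * m ≤ A.card := by
  classical
  rw [← sum_card_cl A c, ← Finset.add_sum_erase _ _ (Finset.mem_univ k), hk, Finset.card_empty,
    zero_add]
  have h1 : ∑ i ∈ (univ : Finset (Fin r)).erase k, m ≤
      ∑ i ∈ (univ : Finset (Fin r)).erase k, (cl A c i).card :=
    Finset.sum_le_sum fun i hi => h i (Finset.ne_of_mem_erase hi)
  rw [Finset.sum_const, smul_eq_mul, Finset.card_erase_of_mem (Finset.mem_univ k),
    Finset.card_univ, Fintype.card_fin] at h1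
  exact h1

theorem choose_sets {S : Finset V} {m : ℕ} (p : Prop) (h1 : 1 ≤ m) (h2 : m < S.card) :
    ∃ (T : Finset V) (v : V), T ⊆ S ∧ T.card = m ∧ v ∈ S ∧ (v ∈ T ↔ p) := by
  classical
  obtain ⟨T, hT, hc⟩ := Finset.exists_subset_card_eq h2.le
  by_cases hp : p
  · have hne : T.Nonempty := by rw [← Finset.card_pos, hc]; exact h1
    obtain ⟨v, hv⟩ := hne
    exact ⟨T, v, hT, hc, hT hv, by simp [hv, hp]⟩
  · obtain ⟨v, hv, hv'⟩ := Finset.exists_mem_notMem_of_card_lt_card (s := T) (t := S)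
      (by rw [hc]; exact h2)
    exact ⟨T, v, hT, hc, hv, by simp [hv', hp]⟩

theorem swapA {H A Bk : Finset V} {c : V → Fin r} {k l : Fin r} (hkl : l ≠ k) (hA : A ⊆ H)
    (hAk : cl A c k = ∅) (hBk : Bk ⊆ cl H c k) :
    ∃ A' : Finset V, A' ⊆ H ∧ (∀ v, v ∈ A' ↔ (v ∈ A ∧ c v ≠ l) ∨ v ∈ Bk) ∧ cl A' c l = ∅ ∧
      cl A' c k = Bk ∧ (∀ i, i ≠ k → i ≠ l → cl A' c i = cl A c i) ∧
      (∀ f : V → ℝ, ∑ v ∈ A', f v = ∑ v ∈ A, f v - ∑ v ∈ cl A c l, f v + ∑ v ∈ Bk, f v) ∧
      A'.card + (cl A c l).card = A.card + Bk.card := by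
  classical
  have hAk' : ∀ v ∈ A, c v ≠ k := by
    intro v hv hc
    have : v ∈ cl A c k := mem_cl.2 ⟨hv, hc⟩
    rw [hAk] at this
    exact absurd this (Finset.notMem_empty v)
  have hBk' : ∀ v ∈ Bk, v ∈ H ∧ c v = k := fun v hv => mem_cl.1 (hBk hv)
  have hdis : Disjoint (A.filter (fun v => c v ≠ l)) Bk := by
    rw [Finset.disjoint_left]
    intro v hv hv'
    exact hAk' v (Finset.mem_filter.1 hv).1 (hBk' v hv').2
  have hfil : ∀ f : V → ℝ, ∑ v ∈ A.filter (fun v => c v ≠ l), f v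
      = ∑ v ∈ A, f v - ∑ v ∈ cl A c l, f v := by
    intro f
    have h := Finset.sum_filter_add_sum_filter_not A (fun v => c v = l) f
    unfold cl
    rw [← h]; ring
  refine ⟨A.filter (fun v => c v ≠ l) ∪ Bk, ?_, ?_, ?_, ?_, ?_, ?_, ?_⟩
  · intro v hv
    rcases Finset.mem_union.1 hv with h | h
    · exact hA (Finset.mem_filter.1 h).1
    · exact (hBk' v h).1
  · intro v
    rw [Finset.mem_union, Finset.mem_filter]
  · rw [Finset.eq_empty_iff_forall_notMem]
    intro v hv
    obtain ⟨h, hc⟩ := mem_cl.1 hv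
    rcases Finset.mem_union.1 h with h | h
    · exact (Finset.mem_filter.1 h).2 hc
    · exact hkl (hc.symm.trans (hBk' v h).2)
  · ext v
    rw [mem_cl, Finset.mem_union, Finset.mem_filter]
    constructor
    · rintro ⟨h | h, hc⟩
      · exact absurd hc (hAk' v h.1)
      · exact h
    · intro h
      exact ⟨Or.inr h, (hBk' v h).2⟩
  · intro i hik hil
    ext v
    rw [mem_cl, mem_cl, Finset.mem_union, Finset.mem_filter]
    constructor
    · rintro ⟨h | h, hc⟩
      · exact ⟨h.1, hc⟩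
      · exact absurd (hc.symm.trans (hBk' v h).2) hik
    · rintro ⟨h, hc⟩
      exact ⟨Or.inl ⟨h, fun h' => hil (hc.symm.trans h')⟩, hc⟩
  · intro f
    rw [Finset.sum_union hdis, hfil]
  · rw [Finset.card_union_of_disjoint hdis]
    have h : (A.filter (fun v => c v = l)).card + (A.filter (fun v => c v ≠ l)).card = A.card :=
      Finset.card_filter_add_card_filter_not (s := A) (fun v => c v = l)
    unfold cl
    omega

theorem swapB {H B : Finset V} {c : V → Fin r} {k l : Fin r} {ul uk : V} (hkl : l ≠ k)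
    (hB : B ⊆ H) (hBk : cl B c k = ∅) (hul : cl B c l = {ul}) (huk : uk ∈ cl H c k) :
    ∃ B' : Finset V, B' ⊆ H ∧ (∀ v, v ∈ B' ↔ (v ∈ B ∧ v ≠ ul) ∨ v = uk) ∧ cl B' c l = ∅ ∧
      cl B' c k = {uk} ∧ (∀ i, i ≠ k → i ≠ l → cl B' c i = cl B c i) ∧
      (∀ f : V → ℝ, ∑ v ∈ B', f v = ∑ v ∈ B, f v - f ul + f uk) := by
  classical
  obtain ⟨hukH, huk'⟩ := mem_cl.1 huk
  have hBk' : ∀ v ∈ B, c v ≠ k := by
    intro v hv hc
    have : v ∈ cl B c k := mem_cl.2 ⟨hv, hc⟩
    rw [hBk] at this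
    exact absurd this (Finset.notMem_empty v)
  have hulB : ul ∈ B ∧ c ul = l := by
    have : ul ∈ cl B c l := by rw [hul]; exact Finset.mem_singleton_self ul
    exact mem_cl.1 this
  have hun : ∀ v ∈ B, c v = l → v = ul := by
    intro v hv hc
    have : v ∈ cl B c l := mem_cl.2 ⟨hv, hc⟩
    rw [hul] at this
    exact Finset.mem_singleton.1 this
  have hni : uk ∉ B.erase ul := fun h => hBk' uk (Finset.mem_of_mem_erase h) huk'
  refine ⟨insert uk (B.erase ul), ?_, ?_, ?_, ?_, ?_, ?_⟩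
  · intro v hv
    rcases Finset.mem_insert.1 hv with h | h
    · rw [h]; exact hukH
    · exact hB (Finset.mem_of_mem_erase h)
  · intro v
    rw [Finset.mem_insert, Finset.mem_erase]
    tauto
  · rw [Finset.eq_empty_iff_forall_notMem]
    intro v hv
    obtain ⟨h, hc⟩ := mem_cl.1 hv
    rcases Finset.mem_insert.1 h with h | h
    · rw [h] at hc; exact hkl (hc.symm.trans huk')
    · exact Finset.ne_of_mem_erase h (hun v (Finset.mem_of_mem_erase h) hc)
  · ext v
    rw [mem_cl, Finset.mem_insert, Finset.mem_erase, Finset.mem_singleton]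
    constructor
    · rintro ⟨h | h, hc⟩
      · exact h
      · exact absurd hc (hBk' v h.2)
    · intro h
      exact ⟨Or.inl h, h ▸ huk'⟩
  · intro i hik hil
    ext v
    rw [mem_cl, mem_cl, Finset.mem_insert, Finset.mem_erase]
    constructor
    · rintro ⟨h | h, hc⟩
      · rw [h] at hc; exact absurd (hc.symm.trans huk') hik
      · exact ⟨h.2, hc⟩
    · rintro ⟨h, hc⟩
      refine ⟨Or.inr ⟨?_, h⟩, hc⟩
      intro h'
      rw [h'] at hc
      exact hil (hc.symm.trans hulB.2)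
  · intro f
    rw [Finset.sum_insert hni, ← Finset.add_sum_erase B f hulB.1]
    ring

theorem near_mono {δ δ' : ℝ} {N j : ℕ} {H A : Finset V} {c : V → Fin r} (h : Near r δ N j H A c)
    (hd : δ ≤ δ') : Near r δ' N j H A c :=
  ⟨fun i => (h.1 i).trans (mul_le_mul_of_nonneg_right hd (Nat.cast_nonneg N)),
    h.2.trans (mul_le_mul_of_nonneg_right hd (Nat.cast_nonneg N))⟩

/-- the class `l` is not full -/
theorem small_class {ε δ : ℝ} {N j : ℕ} {H A : Finset V} {c : V → Fin r} {k l : Fin r}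
    (hr : 3 ≤ r) (hε : 0 < ε) (hδ : δ ≤ ε / (4 * r)) (hN : 4 * r / ε ≤ N) (hRg : Rg r ε N j)
    (hNear : Near r δ N j H A c) (hBal : Bal H c) (hPl : Place H A c {k}) (hA : A ⊆ H)
    (hAk : cl A c k = ∅) (hlk : l ≠ k) (hlt : (cl H c k).card < (cl H c l).card)
    (hbig : 2 ≤ (cl H c k).card) : (cl A c l).card < (cl H c k).card := by
  classical
  by_contra hge
  push Not at hge
  have hr3 : (3 : ℝ) ≤ r := by exact_mod_cast hr
  have hl : (cl H c l).card = (cl H c k).card + 1 := le_antisymm (hBal l k) hlt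
  have h1 : ∀ i, i ≠ k → (cl H c k).card - 1 ≤ (cl A c i).card := by
    intro i hi
    have hi' : i ∉ ({k} : Finset (Fin r)) := by simpa using hi
    have hl' : l ∉ ({k} : Finset (Fin r)) := by simpa using hlk
    have hb := hBal l i
    have hb' := hBal i k
    rcases Nat.lt_or_ge (cl H c i).card (cl H c l).card with h | h
    · rcases (hPl i l hi' hl').2 h with h2 | h2 <;> omega
    · have := (hPl l i hl' hi').1 (by omega)
      omega
  have h2 := card_bound hAk h1
  have h3 : ((r : ℝ) - 1) * (sz H c k - 1) ≤ A.card := by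
    have h4 : (((r - 1) * ((cl H c k).card - 1) : ℕ) : ℝ) ≤ A.card := by exact_mod_cast h2
    rw [Nat.cast_mul, Nat.cast_sub (by omega), Nat.cast_sub (by omega)] at h4
    unfold sz
    exact_mod_cast h4
  have h5 := (abs_le.1 (hNear.1 k)).1
  have h6 := (abs_le.1 hNear.2).2
  have h7 := hRg.2
  have hN0 : (0 : ℝ) ≤ N := Nat.cast_nonneg N
  have h8 : (1 - 2 / (r : ℝ)) * al r ≤ al r := by
    have := al_ge hr
    have h9 : 0 < 2 / (r : ℝ) := by positivity
    nlinarith
  have h10 : δ * N ≤ ε / (4 * r) * N := mul_le_mul_of_nonneg_right hδ hN0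
  have h11 : ((1 - 2 / (r : ℝ)) * al r - ε) * N ≤ (al r - ε) * N :=
    mul_le_mul_of_nonneg_right (by linarith) hN0
  have h12 : al r * N = ((r : ℝ) - 1) * (N / r) := by
    unfold al; field_simp
  have h13 : 4 * r ≤ ε * N := by
    rw [div_le_iff₀ hε] at hN
    linarith
  have h14 : ε / (4 * r) * N * r = ε * N / 4 := by field_simp
  have h15 : ((r : ℝ) - 1) * (N / r - ε / (4 * r) * N - 1) ≤ ((r : ℝ) - 1) * (sz H c k - 1) :=
    mul_le_mul_of_nonneg_left (by linarith) (by linarith)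
  have h16 : 0 ≤ ε / (4 * r) * N := by positivity
  nlinarith

end

/-- the final inequality -/
theorem final {lam lam' a sg D D' xw yw xu yu P P' Q Q' ip : ℝ} (hlam : 0 < lam)
    (hle : lam' ≤ lam) (ha : 1 ≤ a) (hsg : 0 ≤ sg) (hD : 0 < D) (hD' : 0 < D')
    (hxw : 0 < xw) (hyw : 0 ≤ yw) (hxu : 0 ≤ xu) (hyu : 0 ≤ yu) (hlam' : 0 < lam')
    (hip : 0 ≤ ip)
    (hP : lam * P = a * (D - xw) - sg * xu) (hP' : lam' * P' = a * (D' + yw) + sg * yu)
    (hQ : lam * Q = D - sg * xw - xu) (hQ' : lam' * Q' = D' + sg * yw + yu)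
    (hT : xw * P' + yw * P + (xu * Q' + yu * Q) = (lam' - lam) * ip) : False := by
  have hP0 : 0 ≤ P' := by
    by_contra hneg
    push Not at hneg
    have h1 : lam' * P' < 0 := mul_neg_of_pos_of_neg hlam' hneg
    have h2 : 0 ≤ a * (D' + yw) := by positivity
    have h3 : 0 ≤ sg * yu := by positivity
    linarith
  have hQ0 : 0 ≤ Q' := by
    by_contra hneg
    push Not at hneg
    have h1 : lam' * Q' < 0 := mul_neg_of_pos_of_neg hlam' hneg
    have h3 : 0 ≤ sg * yw := by positivity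
    linarith
  have e1 : lam' * P' ≤ lam * P' := mul_le_mul_of_nonneg_right hle hP0
  have e2 : lam' * Q' ≤ lam * Q' := mul_le_mul_of_nonneg_right hle hQ0
  have f1 : xw * (a * (D' + yw) + sg * yu) ≤ xw * (lam * P') :=
    mul_le_mul_of_nonneg_left (hP' ▸ e1) hxw.le
  have f2 : xu * (D' + sg * yw + yu) ≤ xu * (lam * Q') :=
    mul_le_mul_of_nonneg_left (hQ' ▸ e2) hxu
  have g1 : yw * (lam * P) = yw * (a * (D - xw) - sg * xu) := by rw [hP]
  have g2 : yu * (lam * Q) = yu * (D - sg * xw - xu) := by rw [hQ]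
  have h1 : lam * ((lam' - lam) * ip) ≤ 0 := by
    have : (lam' - lam) * ip ≤ 0 := mul_nonpos_of_nonpos_of_nonneg (by linarith) hip
    exact mul_nonpos_of_nonneg_of_nonpos hlam.le this
  rw [← hT] at h1
  have h2 : lam * (xw * P' + yw * P + (xu * Q' + yu * Q))
      = xw * (lam * P') + yw * (lam * P) + (xu * (lam * Q') + yu * (lam * Q)) := by ring
  rw [h2, g1, g2] at h1
  have h3 : 0 < xw * a * D' := by positivity
  have h4 : 0 ≤ yw * a * D := by positivity
  have h5 : 0 ≤ xu * D' := by positivity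
  have h6 : 0 ≤ yu * D := by positivity
  nlinarith

end E3

open E3 in
theorem blk_E3 (hGE : Stmt_GE) (hFAM : Stmt_FAM) (hCSE : Stmt_CSE) (hEST : Stmt_EST) :
    Stmt_E3 := by
  classical
  intro r ε hr hε
  have hr3 : (3 : ℝ) ≤ r := by exact_mod_cast hr
  have hrp : (0 : ℝ) < r := by linarith
  obtain ⟨e, he0, he1, he2⟩ : ∃ e : ℝ, 0 < e ∧ e ≤ 1 / (4 * r) ∧ e ≤ ε / 2 :=
    ⟨min (1 / (4 * r)) (ε / 2), lt_min (by positivity) (by positivity), min_le_left _ _,
      min_le_right _ _⟩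
  obtain ⟨δ0, N0, hδ0, hest⟩ := hEST r ε e hr hε he0
  obtain ⟨δ, hδp, hδ1, hδ2, hδ3⟩ : ∃ δ : ℝ, 0 < δ ∧ δ ≤ δ0 ∧ δ ≤ ε / (4 * r) ∧
      δ ≤ 1 / (4 * r) :=
    ⟨min δ0 (min (ε / (4 * r)) (1 / (4 * r))),
      lt_min hδ0 (lt_min (by positivity) (by positivity)), min_le_left _ _,
      (min_le_right _ _).trans (min_le_left _ _), (min_le_right _ _).trans (min_le_right _ _)⟩
  refine ⟨δ, max N0 (max ⌈4 * r / ε⌉₊ (4 * r)), hδp, ?_⟩
  intro N hN j hRg V _ G H c w u A B k hW hNear hOne hBal hPl hMX i l hi hl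
  rw [Finset.mem_singleton] at hi
  subst hi
  have hlk : l ≠ i := by simpa using hl
  by_contra hlt
  push Not at hlt
  have hNN0 : N0 ≤ N := (le_max_left _ _).trans hN
  have hN1 : 4 * r / ε ≤ (N : ℝ) := by
    have h1 : ⌈4 * r / ε⌉₊ ≤ N := ((le_max_left _ _).trans (le_max_right _ _)).trans hN
    exact (Nat.le_ceil _).trans (by exact_mod_cast h1)
  have hN2 : 4 * (r : ℝ) ≤ N := by
    have h1 : 4 * r ≤ N := ((le_max_right _ _).trans (le_max_right _ _)).trans hN
    exact_mod_cast h1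
  have hNp : (0 : ℝ) < N := by linarith
  -- sizes of the classes
  have hsz : ∀ m, (2 : ℝ) ≤ sz H c m := by
    intro m
    have h1 := (abs_le.1 (hNear.1 m)).1
    have h2 : δ * N ≤ 1 / (4 * r) * N := mul_le_mul_of_nonneg_right hδ3 hNp.le
    have h3 : (4 : ℝ) ≤ N / r := by rw [le_div_iff₀ hrp]; exact hN2
    have h4 : 1 / (4 * r) * (N : ℝ) = N / r / 4 := by field_simp
    linarith
  have hsz' : ∀ m, 2 ≤ (cl H c m).card := by
    intro m
    have := hsz m
    unfold sz at this
    exact_mod_cast this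
  have hsmall : (cl A c l).card < (cl H c i).card :=
    small_class hr hε hδ2 hN1 hRg hNear hBal hPl hW.hA hW.hA0 hlk hlt (hsz' i)
  have hal1 : 1 ≤ (cl A c l).card := Finset.card_pos.2 (hW.hAne l hlk)
  obtain ⟨ul, hul⟩ := Finset.card_eq_one.1 (hW.hB1 l hlk)
  have hulB : ul ∈ B ∧ c ul = l := by
    have : ul ∈ cl B c l := by rw [hul]; exact Finset.mem_singleton_self ul
    exact mem_cl.1 this
  have hulH : ul ∈ H := hW.hB hulB.1
  obtain ⟨Bk, uk, hBk, hBkc, huk, hiff⟩ := choose_sets (S := cl H c i) (ul ∈ A) hal1 hsmall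
  obtain ⟨hukH, hukc⟩ := mem_cl.1 huk
  have hBk' : ∀ v ∈ Bk, v ∈ H ∧ c v = i := fun v hv => mem_cl.1 (hBk hv)
  have hAk' : ∀ v, c v = i → v ∉ A := by
    intro v hc hv
    have : v ∈ cl A c i := mem_cl.2 ⟨hv, hc⟩
    rw [hW.hA0] at this
    exact absurd this (Finset.notMem_empty v)
  have hBk0 : ∀ v, c v = i → v ∉ B := by
    intro v hc hv
    have : v ∈ cl B c i := mem_cl.2 ⟨hv, hc⟩
    rw [hW.hB0] at this
    exact absurd this (Finset.notMem_empty v)
  obtain ⟨A', hA'H, hA'm, hA'l, hA'k, hA'o, hA's, hA'c⟩ := swapA hlk hW.hA hW.hA0 hBk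
  obtain ⟨B', hB'H, hB'm, hB'l, hB'k, hB'o, hB's⟩ := swapB hlk hW.hB hW.hB0 hul huk
  have hA'card : A'.card = A.card := by omega
  have hW' : WE (gE H c w u A' B') N H c w u A' B' l := by
    refine gE_WE hW.card hW.hw hW.hu hW.hwu hA'H hB'H hA'l hB'l ?_ ?_ ?_
    · intro m hm
      by_cases hmi : m = i
      · rw [hmi, hA'k, ← Finset.card_pos, hBkc]; exact hal1
      · rw [hA'o m hmi hm]; exact hW.hAne m hmi
    · intro m hm
      by_cases hmi : m = i
      · rw [hmi, hB'k, Finset.card_singleton]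
      · rw [hB'o m hmi hm]; exact hW.hB1 m hmi
    · intro hsub
      obtain ⟨b, hbB, hbA⟩ := Finset.not_subset.1 hW.hBA
      by_cases hb : b = ul
      · subst hb
        have h1 : uk ∈ A' := hsub ((hB'm uk).2 (Or.inr rfl))
        rcases (hA'm uk).1 h1 with h2 | h2
        · exact hAk' uk hukc h2.1
        · exact hbA (hiff.1 h2)
      · have h1 : b ∈ A' := hsub ((hB'm b).2 (Or.inl ⟨hbB, hb⟩))
        rcases (hA'm b).1 h1 with h2 | h2
        · exact hbA h2.1
        · exact hBk0 b (hBk' b h2).2 hbB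
  set G' := gE H c w u A' B' with hG'
  obtain ⟨_, _, hpE⟩ := hGE r hr V G N H c w u A B i hW
  obtain ⟨hfree, hcol, hpE'⟩ := hGE r hr V G' N H c w u A' B' l hW'
  have hle : specRad G' ≤ specRad G := by
    refine hMX G' hfree (hcol fun m => by have := hsz' m; omega) ?_
    rw [hpE, hpE', hA'card]
  haveI : Nonempty V := ⟨w⟩
  obtain ⟨x, hx⟩ := exists_PV G
  obtain ⟨y, hy⟩ := exists_PV G'
  have hF := (hFAM r hr V G N H c w A).2 u B i hW
  have hF' := (hFAM r hr V G' N H c w A').2 u B' l hW'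
  have hNear0 := near_mono hNear hδ1
  have hNear' : Near r δ0 N j H A' c := ⟨hNear0.1, by rw [hA'card]; exact hNear0.2⟩
  obtain ⟨xb, hEx⟩ := hest N hNN0 j hRg V G H c w A (JE w u B) x _ hF hx hW.card hNear0
  obtain ⟨yb, hEy⟩ := hest N hNN0 j hRg V G' H c w A' (JE w u B') y _ hF' hy hW.card hNear'
  -- elementary estimates
  have halg := al_ge hr
  have hall := al_lt hr
  have he3 : e ≤ 1 / 12 := he1.trans (by
    rw [div_le_div_iff_of_pos_left one_pos (by positivity) (by norm_num)]; linarith)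
  have halN : 0 < al r * N := by positivity
  have hX0 : ε ≤ j / (al r * N) := by
    rw [le_div_iff₀ halN]
    have := hRg.1
    nlinarith
  have hX1 : (j : ℝ) / (al r * N) ≤ 1 - 2 / r := by
    rw [div_le_iff₀ halN]
    have h1 := hRg.2
    have h2 : 0 < ε * N := by positivity
    nlinarith
  have hjX0 : 0 ≤ (j : ℝ) / (al r * N) := hε.le.trans hX0
  have hlam : 0 < specRad G := by
    have h1 := (abs_le.1 hEx.lamN).1
    nlinarith
  have hlam' : 0 < specRad G' := by
    have h1 := (abs_le.1 hEy.lamN).1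
    nlinarith
  have hxw : 0 < x w := by
    have h1 := (abs_le.1 hEx.xw).1
    have h2 := mul_le_mul_of_nonneg_right hX0 hEx.xb0.le
    have h3 := mul_le_mul_of_nonneg_right he2 hEx.xb0.le
    have h4 : 0 < ε / 2 * xb := mul_pos (by positivity) hEx.xb0
    nlinarith
  have hszd : sz H c l - sz H c i = 1 := by
    have h1 : (cl H c l).card = (cl H c i).card + 1 := le_antisymm (hBal l i) hlt
    unfold sz
    rw [h1]; push_cast; ring
  -- differences of the class sums
  have hD : 0 < cs x H c l - cs x H c i := by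
    have h1 := (abs_le.1 (hEx.dif l i)).1
    have h2 : sz A c i = 0 := by unfold sz; rw [hW.hA0]; simp
    rw [hszd, h2, sub_zero, abs_one] at h1
    have h3 : 0 ≤ sz A c l := by unfold sz; exact Nat.cast_nonneg _
    have h4 : 0 ≤ (j : ℝ) / (al r * N) * (sz A c l / N) := by positivity
    have h5 := hEx.xb0
    have h6 : 0 ≤ xb * ((j : ℝ) / (al r * N) * (sz A c l / N)) := mul_nonneg h5.le h4
    have h7 : e * xb ≤ 1 / 12 * xb := mul_le_mul_of_nonneg_right he3 h5.le
    have h8 : 2 / 3 * xb ≤ al r * xb := mul_le_mul_of_nonneg_right halg h5.le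
    nlinarith
  have hD' : 0 < cs y H c l - cs y H c i := by
    have h1 := (abs_le.1 (hEy.dif l i)).1
    have h2 : sz A' c l = 0 := by unfold sz; rw [hA'l]; simp
    rw [hszd, h2, zero_sub, abs_one] at h1
    have h3 : sz A' c i / N ≤ 1 := by
      rw [div_le_one hNp]
      unfold sz
      rw [← hW.card]
      have : (cl A' c i).card ≤ H.card :=
        Finset.card_le_card fun v hv => hA'H (mem_cl.1 hv).1
      exact_mod_cast this
    have h3' : 0 ≤ sz A' c i / N := by unfold sz; positivity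
    have h4 : (j : ℝ) / (al r * N) * (sz A' c i / N) ≤ 1 - 2 / r := by
      have : (j : ℝ) / (al r * N) * (sz A' c i / N) ≤ (j : ℝ) / (al r * N) * 1 :=
        mul_le_mul_of_nonneg_left h3 hjX0
      linarith
    have h5 := hEy.xb0
    have h6 : (j : ℝ) / (al r * N) * (-sz A' c i / N)
        = -((j : ℝ) / (al r * N) * (sz A' c i / N)) := by ring
    rw [h6] at h1
    have h7 : yb * (1 / r) ≤ yb * (al r * 1 + -((j : ℝ) / (al r * N) * (sz A' c i / N))) := by
      refine mul_le_mul_of_nonneg_left ?_ h5.le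
      have : al r = 1 - 1 / r := rfl
      have h8 : 2 / (r : ℝ) = 1 / r + 1 / r := by ring
      linarith
    have h8 : e * yb * (1 + 1) ≤ yb * (1 / r) / 2 := by
      have h9 : e * yb ≤ 1 / (4 * r) * yb := mul_le_mul_of_nonneg_right he1 h5.le
      have h10 : 1 / (4 * r) * yb = yb * (1 / r) / 4 := by field_simp
      linarith
    have h9 : 0 < yb * (1 / r) := by positivity
    linarith
  -- the eigenvalue equations
  have hex := eigE hFAM hCSE hr hW hx
  have hey := eigE hFAM hCSE hr hW' hy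
  set S := ∑ z ∈ H, x z with hS
  set S' := ∑ z ∈ H, y z with hS'
  set sg := chi (ul ∈ A) with hsg
  have hxBk : ∀ v ∈ cl H c i, specRad G * x v = S - cs x H c i := by
    intro v hv
    obtain ⟨h1, h2⟩ := mem_cl.1 hv
    rw [hex v h1, chi_neg (hAk' v h2), chi_neg (hBk0 v h2), h2]; ring
  have hyl : ∀ v ∈ cl H c l, specRad G' * y v = S' - cs y H c l := by
    intro v hv
    obtain ⟨h1, h2⟩ := mem_cl.1 hv
    have h3 : v ∉ A' := by
      intro h
      have : v ∈ cl A' c l := mem_cl.2 ⟨h, h2⟩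
      rw [hA'l] at this
      exact absurd this (Finset.notMem_empty v)
    have h4 : v ∉ B' := by
      intro h
      have : v ∈ cl B' c l := mem_cl.2 ⟨h, h2⟩
      rw [hB'l] at this
      exact absurd this (Finset.notMem_empty v)
    rw [hey v h1, chi_neg h3, chi_neg h4, h2]; ring
  have hclsub : cl A c l ⊆ cl H c l := fun v hv =>
    mem_cl.2 ⟨hW.hA (mem_cl.1 hv).1, (mem_cl.1 hv).2⟩
  have hxul : specRad G * x ul = S - cs x H c l + sg * x w + x u := by
    rw [hex ul hulH, chi_pos hulB.1, hulB.2]; ring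
  have hyul : specRad G' * y ul = S' - cs y H c l := hyl ul (mem_cl.2 ⟨hulH, hulB.2⟩)
  have hxuk : specRad G * x uk = S - cs x H c i := hxBk uk huk
  have hukA' : uk ∈ A' ↔ ul ∈ A := by
    rw [hA'm, ← hiff]
    constructor
    · rintro (h | h)
      · exact absurd h.1 (hAk' uk hukc)
      · exact h
    · exact Or.inr
  have hyuk : specRad G' * y uk = S' - cs y H c i + sg * y w + y u := by
    rw [hey uk hukH, chi_pos ((hB'm uk).2 (Or.inr rfl)), hukc, chi_congr hukA']; ring
  -- sums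
  have hsum1 : specRad G * (∑ v ∈ Bk, x v - ∑ v ∈ cl A c l, x v)
      = (cl A c l).card * ((cs x H c l - cs x H c i) - x w) - sg * x u := by
    rw [mul_sub, Finset.mul_sum, Finset.mul_sum]
    rw [Finset.sum_congr rfl fun v hv => hxBk v (hBk hv)]
    have h1 : ∀ v ∈ cl A c l, specRad G * x v
        = (S - cs x H c l + x w) + chi (v = ul) * x u := by
      intro v hv
      obtain ⟨h2, h3⟩ := mem_cl.1 hv
      have h4 : v ∈ B ↔ v = ul := by
        constructor
        · intro h5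
          have : v ∈ cl B c l := mem_cl.2 ⟨h5, h3⟩
          rw [hul] at this
          exact Finset.mem_singleton.1 this
        · intro h5; rw [h5]; exact hulB.1
      rw [hex v (hW.hA h2), chi_pos h2, h3, chi_congr h4]; ring
    rw [Finset.sum_congr rfl h1, Finset.sum_add_distrib, ← Finset.sum_mul, Finset.sum_const,
      Finset.sum_const, hBkc, nsmul_eq_mul, nsmul_eq_mul]
    have h5 : ∑ v ∈ cl A c l, chi (v = ul) = sg := by
      rw [hsg]
      by_cases h6 : ul ∈ A
      · rw [chi_pos h6, Finset.sum_eq_single ul]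
        · exact chi_pos rfl
        · intro b _ hb; exact chi_neg hb
        · intro h; exact absurd (mem_cl.2 ⟨h6, hulB.2⟩) h
      · rw [chi_neg h6]
        refine Finset.sum_eq_zero fun v hv => chi_neg ?_
        intro h; exact h6 (h ▸ (mem_cl.1 hv).1)
    rw [h5]; ring
  have hsum2 : specRad G' * (∑ v ∈ Bk, y v - ∑ v ∈ cl A c l, y v)
      = (cl A c l).card * ((cs y H c l - cs y H c i) + y w) + sg * y u := by
    rw [mul_sub, Finset.mul_sum, Finset.mul_sum]
    rw [Finset.sum_congr rfl fun v hv => hyl v (hclsub hv)]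
    have h1 : ∀ v ∈ Bk, specRad G' * y v
        = (S' - cs y H c i + y w) + chi (v = uk) * y u := by
      intro v hv
      obtain ⟨h2, h3⟩ := hBk' v hv
      have h4 : v ∈ B' ↔ v = uk := by
        constructor
        · intro h5
          have : v ∈ cl B' c i := mem_cl.2 ⟨h5, h3⟩
          rw [hB'k] at this
          exact Finset.mem_singleton.1 this
        · intro h5; rw [h5]; exact (hB'm uk).2 (Or.inr rfl)
      rw [hey v h2, chi_pos ((hA'm v).2 (Or.inr hv)), h3, chi_congr h4]; ring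
    rw [Finset.sum_congr rfl h1, Finset.sum_add_distrib, ← Finset.sum_mul, Finset.sum_const,
      Finset.sum_const, hBkc, nsmul_eq_mul, nsmul_eq_mul]
    have h5 : ∑ v ∈ Bk, chi (v = uk) = sg := by
      rw [hsg, ← chi_congr hiff]
      by_cases h6 : uk ∈ Bk
      · rw [chi_pos h6, Finset.sum_eq_single uk]
        · exact chi_pos rfl
        · intro b _ hb; exact chi_neg hb
        · intro h; exact absurd h6 h
      · rw [chi_neg h6]
        refine Finset.sum_eq_zero fun v hv => chi_neg ?_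
        intro h; exact h6 (h ▸ hv)
    rw [h5]; ring
  have hpair := pairing hx hy
  rw [pair_fam hF hF' x y, JE_double, JE_double, hA's y, hA's x, hB's y, hB's x] at hpair
  have hip : 0 ≤ ∑ v, x v * y v := Finset.sum_nonneg fun v _ => mul_nonneg (hx.nn v) (hy.nn v)
  refine E3.final (lam := specRad G) (lam' := specRad G') (a := ((cl A c l).card : ℝ)) (sg := sg)
    (D := cs x H c l - cs x H c i) (D' := cs y H c l - cs y H c i) (xw := x w) (yw := y w)
    (xu := x u) (yu := y u) (P := ∑ v ∈ Bk, x v - ∑ v ∈ cl A c l, x v)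
    (P' := ∑ v ∈ Bk, y v - ∑ v ∈ cl A c l, y v) (Q := x uk - x ul) (Q' := y uk - y ul)
    (ip := ∑ v, x v * y v) hlam hle (by exact_mod_cast hal1) (chi_nonneg _) hD hD' hxw (hy.nn w)
    (hx.nn u) (hy.nn u) hlam' hip hsum1 hsum2 ?_ ?_ ?_
  · rw [mul_sub, hxuk, hxul]; ring
  · rw [mul_sub, hyuk, hyul]; ring
  · rw [← hpair]; ring

end Pool.Agent.Work.MP_5532fa_up
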