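import Pool.Agent.Work.MP_5532fa_up.Interface

/-! # Block EB (helper68) -/

open Finset

namespace Pool.Agent.Work.MP_5532fa_up

open MP5532fa (specRad qf pE)

namespace EB

variable {V : Type} [Fintype V] {r : ℕ}

/-- sum of a function against `chi (z ∈ S)` -/
theorem sum_chi_mem (S : Finset V) (f : V → ℝ) : ∑ z, chi (z ∈ S) * f z = ∑ z ∈ S, f z := by
  classical
  unfold chi
  simp only [ite_mul, one_mul, zero_mul]
  rw [← Finset.sum_filter]
  apply Finset.sum_congr _ (fun _ _ => rfl)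
  ext; simp

theorem sum_chi_eq (a : V) (f : V → ℝ) : ∑ z, chi (z = a) * f z = f a := by
  classical
  unfold chi
  simp only [ite_mul, one_mul, zero_mul]
  rw [← Finset.sum_filter]
  have : univ.filter (fun z => z = a) = {a} := by ext; simp
  rw [this, Finset.sum_singleton]

theorem chi_and (p q : Prop) : chi (p ∧ q) = chi p * chi q := by
  unfold chi
  by_cases hp : p <;> by_cases hq : q <;> simp [hp, hq]

/-- the form of the perturbation `JE` -/
theorem JE_form (w u : V) (B : Finset V) (x y : V → ℝ) :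
    ∑ a, ∑ b, JE w u B a b * (x a * y b) =
      x u * ∑ z ∈ B, y z + y u * ∑ z ∈ B, x z + x w * y u + x u * y w := by
  classical
  unfold JE
  have h : ∀ a b, (chi (a = u ∧ b ∈ B) + chi (b = u ∧ a ∈ B) + chi (a = w ∧ b = u) +
      chi (a = u ∧ b = w)) * (x a * y b) =
      (chi (a = u) * x a) * (chi (b ∈ B) * y b) + (chi (a ∈ B) * x a) * (chi (b = u) * y b) +
      (chi (a = w) * x a) * (chi (b = u) * y b) + (chi (a = u) * x a) * (chi (b = w) * y b) := by
    intro a b
    rw [chi_and, chi_and, chi_and, chi_and]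
    ring
  simp only [h, Finset.sum_add_distrib, ← Finset.mul_sum, ← Finset.sum_mul, sum_chi_eq,
    sum_chi_mem]
  ring

/-- the rows of the perturbation `JE` -/
theorem JE_row (w u : V) (B : Finset V) (x : V → ℝ) (v : V) :
    ∑ z, JE w u B v z * x z =
      chi (v = u) * ∑ z ∈ B, x z + chi (v ∈ B) * x u + chi (v = w) * x u + chi (v = u) * x w := by
  classical
  unfold JE
  have h : ∀ b, (chi (v = u ∧ b ∈ B) + chi (b = u ∧ v ∈ B) + chi (v = w ∧ b = u) +
      chi (v = u ∧ b = w)) * x b =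
      chi (v = u) * (chi (b ∈ B) * x b) + chi (v ∈ B) * (chi (b = u) * x b) +
      chi (v = w) * (chi (b = u) * x b) + chi (v = u) * (chi (b = w) * x b) := by
    intro b
    rw [chi_and, chi_and, chi_and, chi_and]
    ring
  simp only [h, Finset.sum_add_distrib, ← Finset.mul_sum, sum_chi_eq, sum_chi_mem]

end EB

theorem blk_EB (hGE : Stmt_GE) (hFAM : Stmt_FAM) (hCSE : Stmt_CSE) (hEST : Stmt_EST) :
    Stmt_EB := by
  classical
  intro r ε hr hε
  have hr3 : (3 : ℝ) ≤ r := by exact_mod_cast hr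
  have ha1 := al_ge hr
  have ha2 := al_lt hr
  have he : 0 < min (1 / 4 : ℝ) (ε / 3) := lt_min (by norm_num) (by linarith)
  obtain ⟨δ, N0, hδ, hE⟩ := hEST r ε (min (1 / 4) (ε / 3)) hr hε he
  have hδ' : 0 < min δ (1 / (2 * r)) := lt_min hδ (by positivity)
  refine ⟨min δ (1 / (2 * r)), N0 + 4 * r, hδ', ?_⟩
  intro N hN j hj V _ G H c w u A B i0 hWE hnear hMX
  have hN1 : (4 : ℝ) * r ≤ N := by
    have : ((4 * r : ℕ) : ℝ) ≤ N := by
      exact_mod_cast (by omega : 4 * r ≤ N)
    push_cast at this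
    exact this
  have hN12 : (12 : ℝ) ≤ N := by linarith
  have hN0 : (0 : ℝ) < N := by linarith
  have hnear' : Near r δ N j H A c := by
    have h1 : min δ (1 / (2 * r)) * (N : ℝ) ≤ δ * N :=
      mul_le_mul_of_nonneg_right (min_le_left _ _) hN0.le
    exact ⟨fun i => (hnear.1 i).trans h1, hnear.2.trans h1⟩
  -- two vertices of `B` outside `A`
  obtain ⟨b1, hb1, hb1A⟩ := Finset.not_subset.1 hWE.hBA
  by_contra hno
  obtain ⟨b, hb, hbA, hbb⟩ : ∃ b, b ∈ B ∧ b ∉ A ∧ b ≠ b1 := by
    by_contra h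
    push Not at h
    exact hno ⟨b1, hb1, hb1A, fun a ha haA => h a ha haA⟩
  have hl : c b ≠ i0 := by
    intro h
    have : b ∈ cl B c i0 := mem_cl.2 ⟨hb, h⟩
    rw [hWE.hB0] at this
    simp at this
  obtain ⟨a, ha⟩ := hWE.hAne (c b) hl
  rw [mem_cl] at ha
  obtain ⟨haA, hac⟩ := ha
  have hab : a ≠ b := fun h => hbA (h ▸ haA)
  have haB : a ∉ B := by
    intro haB
    have h1 := hWE.hB1 (c b) hl
    rw [Finset.card_eq_one] at h1
    obtain ⟨z, hz⟩ := h1
    have h2 : a ∈ cl B c (c b) := mem_cl.2 ⟨haB, hac⟩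
    have h3 : b ∈ cl B c (c b) := mem_cl.2 ⟨hb, rfl⟩
    rw [hz, Finset.mem_singleton] at h2 h3
    exact hab (h2.trans h3.symm)
  obtain ⟨B', hB'⟩ : ∃ B', B' = insert a (B.erase b) := ⟨_, rfl⟩
  have hmB' : ∀ z, z ∈ B' ↔ z = a ∨ (z ≠ b ∧ z ∈ B) := fun z => by
    rw [hB', Finset.mem_insert, Finset.mem_erase]
  have hWE' : WE (gE H c w u A B') N H c w u A B' i0 := by
    refine gE_WE hWE.card hWE.hw hWE.hu hWE.hwu hWE.hA ?_ hWE.hA0 ?_ hWE.hAne ?_ ?_
    · intro z hz
      rcases (hmB' z).1 hz with rfl | h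
      · exact hWE.hA haA
      · exact hWE.hB h.2
    · ext z
      simp only [mem_cl, Finset.notMem_empty, iff_false]
      rintro ⟨h1, h2⟩
      rcases (hmB' z).1 h1 with rfl | h
      · exact hl (hac.symm.trans h2)
      · have : z ∈ cl B c i0 := mem_cl.2 ⟨h.2, h2⟩
        rw [hWE.hB0] at this
        simp at this
    · intro i hi
      by_cases hib : i = c b
      · rw [Finset.card_eq_one]
        refine ⟨a, ?_⟩
        have h1 := hWE.hB1 (c b) hl
        rw [Finset.card_eq_one] at h1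
        obtain ⟨z, hz⟩ := h1
        have h3 : b ∈ cl B c (c b) := mem_cl.2 ⟨hb, rfl⟩
        rw [hz, Finset.mem_singleton] at h3
        ext y
        simp only [mem_cl, Finset.mem_singleton, hmB']
        constructor
        · rintro ⟨h4 | h4, h5⟩
          · exact h4
          · have h6 : y ∈ cl B c (c b) := mem_cl.2 ⟨h4.2, h5.trans hib⟩
            rw [hz, Finset.mem_singleton] at h6
            exact absurd (h6.trans h3.symm) h4.1
        · rintro rfl
          exact ⟨Or.inl rfl, hac.trans hib.symm⟩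
      · have : cl B' c i = cl B c i := by
          ext y
          simp only [mem_cl, hmB']
          constructor
          · rintro ⟨h4 | h4, h5⟩
            · exact absurd (h5.symm.trans (h4 ▸ hac)) hib
            · exact ⟨h4.2, h5⟩
          · rintro ⟨h4, h5⟩
            exact ⟨Or.inr ⟨fun h => hib (h5.symm.trans (h ▸ rfl)), h4⟩, h5⟩
        rw [this]
        exact hWE.hB1 i hi
    · intro h
      exact hb1A (h ((hmB' b1).2 (Or.inr ⟨hbb.symm, hb1⟩)))
  have hG := hGE r hr V G N H c w u A B i0 hWE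
  have hG' := hGE r hr V (gE H c w u A B') N H c w u A B' i0 hWE'
  have hcl : ∀ i, 1 ≤ (cl H c i).card := by
    intro i
    have h1 := (abs_le.1 (hnear.1 i)).1
    have h2 : min δ (1 / (2 * r)) * (N : ℝ) ≤ 1 / (2 * r) * N :=
      mul_le_mul_of_nonneg_right (min_le_right _ _) hN0.le
    have h3 : 1 / (2 * (r : ℝ)) * N = N / r / 2 := by field_simp
    have h4 : 4 ≤ (N : ℝ) / r := by
      rw [le_div_iff₀ (by linarith)]
      exact hN1
    have h5 : (0 : ℝ) < sz H c i := by linarith
    unfold sz at h5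
    exact_mod_cast h5
  have hsp := hMX (gE H c w u A B') hG'.1 (hG'.2.1 hcl) (hG'.2.2.trans hG.2.2.symm)
  have hV : Nonempty V := ⟨w⟩
  obtain ⟨x, hx⟩ := exists_PV G
  have hF := (hFAM r hr V G N H c w A).2 u B i0 hWE
  have hF' := (hFAM r hr V (gE H c w u A B') N H c w A).2 u B' i0 hWE'
  obtain ⟨xb, hest⟩ := hE N (by omega) j hj V G H c w A (JE w u B) x (specRad G) hF hx hWE.card
    hnear'
  have hray := rayleigh (gE H c w u A B') x
  rw [hx.unit, mul_one] at hray
  have hform := hx.form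
  -- difference of the forms
  have hdiff : ∑ p, ∑ q, ad (gE H c w u A B') p q * (x p * x q) =
      ∑ p, ∑ q, ad G p q * (x p * x q) + 2 * x u * (x a - x b) := by
    have h1 : ∀ p q, ad (gE H c w u A B') p q * (x p * x q) =
        ad G p q * (x p * x q) + (JE w u B' p q * (x p * x q) - JE w u B p q * (x p * x q)) := by
      intro p q
      rw [hF.adj, hF'.adj]
      ring
    simp only [h1, Finset.sum_add_distrib, Finset.sum_sub_distrib, EB.JE_form]
    have h2 : ∑ z ∈ B', x z = ∑ z ∈ B, x z + x a - x b := by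
      rw [hB', Finset.sum_insert (by simp [haB]), ← Finset.add_sum_erase B x hb]
      ring
    rw [h2]
    ring
  -- eigenvalue equations
  obtain ⟨hc1, -, -, hc4⟩ := hCSE r V G H c w A (JE w u B) x (specRad G) hF hx
  have hau : a ≠ u := fun h => hWE.hu (h ▸ hWE.hA haA)
  have haw : a ≠ w := fun h => hWE.hw (h ▸ hWE.hA haA)
  have hbu : b ≠ u := fun h => hWE.hu (h ▸ hWE.hB hb)
  have hbw : b ≠ w := fun h => hWE.hw (h ▸ hWE.hB hb)
  have e1 := hc1 a (hWE.hA haA)
  have e2 := hc1 b (hWE.hB hb)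
  have e3 := hc4 u hWE.hu hWE.hwu.symm
  rw [EB.JE_row, chi_pos haA, chi_neg hau, chi_neg haB, chi_neg haw, hac] at e1
  rw [EB.JE_row, chi_neg hbA, chi_neg hbu, chi_pos hb, chi_neg hbw] at e2
  rw [EB.JE_row, chi_pos rfl, chi_neg (fun h => hWE.hu (hWE.hB h)), chi_neg hWE.hwu.symm] at e3
  have hbs : 0 ≤ ∑ z ∈ B, x z := Finset.sum_nonneg fun z _ => hx.nn z
  have hxb := hest.xb0
  have he1 : min (1 / 4 : ℝ) (ε / 3) ≤ 1 / 4 := min_le_left _ _
  have he2 : min (1 / 4 : ℝ) (ε / 3) ≤ ε / 3 := min_le_right _ _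
  have hlam : 0 < specRad G := by
    have h1 := (abs_le.1 hest.lamN).1
    have h2 : min (1 / 4 : ℝ) (ε / 3) * N ≤ 1 / 4 * N := mul_le_mul_of_nonneg_right he1 hN0.le
    have h3 : 2 / 3 * (N : ℝ) ≤ al r * N := mul_le_mul_of_nonneg_right ha1 hN0.le
    linarith
  have hXe : ε ≤ j / (al r * N) := by
    rw [le_div_iff₀ (by positivity)]
    have h1 := hj.1
    have h2 : al r * N ≤ N := by nlinarith
    nlinarith
  have hxw := (abs_le.1 hest.xw).1
  have hxu := hest.xo u hWE.hu hWE.hwu.symm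
  have h1 : ε * xb ≤ j / (al r * N) * xb := mul_le_mul_of_nonneg_right hXe hxb.le
  have h2 : min (1 / 4 : ℝ) (ε / 3) * xb ≤ ε / 3 * xb := mul_le_mul_of_nonneg_right he2 hxb.le
  have h3 : 0 < ε * xb := by positivity
  have hwu : x u < x w := by linarith
  have hw0 : 0 < x w := lt_of_le_of_lt (hx.nn u) hwu
  have hu0 : 0 < x u := by
    have : 0 < specRad G * x u := by rw [e3]; linarith
    exact (pos_iff_pos_of_mul_pos this).1 hlam
  have hab' : 0 < x a - x b := by
    have h5 : specRad G * (x a - x b) = x w - x u := by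
      rw [mul_sub, e1, e2]
      ring
    have : 0 < specRad G * (x a - x b) := by rw [h5]; linarith
    exact (pos_iff_pos_of_mul_pos this).1 hlam
  have h6 : 0 < 2 * x u * (x a - x b) := by positivity
  rw [hdiff, hform] at hray
  linarith

end Pool.Agent.Work.MP_5532fa_up
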