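import Pool.Agent.Work.MP_5532fa_up.Interface

/-!
# MP_5532fa_co, upgrade, block EMB: realising parameters by sets
-/

open Finset

namespace Pool.Agent.Work.MP_5532fa_up

namespace EMB

theorem card_cl_image {V : Type} [DecidableEq V] {r : ℕ} (m : Fin r → ℕ)
    (h : (Σ i, Fin (m i)) → V)
    (hinj : Function.Injective h) (c : V → Fin r) (hc : ∀ p, c (h p) = p.1) (i : Fin r) :
    (cl (univ.image h) c i).card = m i := by
  have h1 : cl (univ.image h) c i = univ.image (fun k : Fin (m i) => h ⟨i, k⟩) := by
    ext v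
    rw [mem_cl, Finset.mem_image, Finset.mem_image]
    constructor
    · rintro ⟨⟨p, _, rfl⟩, hv⟩
      rw [hc] at hv
      obtain ⟨j, k⟩ := p
      dsimp only at hv
      subst hv
      exact ⟨k, Finset.mem_univ _, rfl⟩
    · rintro ⟨k, _, rfl⟩
      exact ⟨⟨⟨i, k⟩, Finset.mem_univ _, rfl⟩, hc ⟨i, k⟩⟩
  rw [h1, Finset.card_image_of_injective]
  · simp
  · intro k k' hkk
    have := hinj hkk
    simpa using this

end EMB

theorem blk_EMB : Stmt_EMB := by
  intro r N n a V _ hr hn ha hcard
  classical
  have hc1 : Fintype.card (Option (Option (Σ i, Fin (n i)))) = N + 2 := by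
    rw [Fintype.card_option, Fintype.card_option, Fintype.card_sigma]
    simp only [Fintype.card_fin]
    omega
  obtain ⟨e⟩ := Function.Embedding.nonempty_of_card_le (hc1.trans_le hcard)
  have hg : ∃ g : (Σ i, Fin (n i)) → V, g = fun p => e (some (some p)) := ⟨_, rfl⟩
  obtain ⟨g, hg⟩ := hg
  have hginj : Function.Injective g := by
    intro p q hpq
    rw [hg] at hpq
    have := e.injective hpq
    simpa using this
  have hc : ∃ c : V → Fin r, ∀ p, c (g p) = p.1 := by
    refine ⟨fun v => if h : ∃ p, g p = v then h.choose.1 else ⟨0, by omega⟩, ?_⟩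
    intro p
    have h : ∃ q, g q = g p := ⟨p, rfl⟩
    simp only [h, dif_pos]
    rw [hginj h.choose_spec]
  obtain ⟨c, hc⟩ := hc
  have hh : ∃ h : (Σ i, Fin (a i)) → V, h = fun p => g ⟨p.1, Fin.castLE (ha p.1) p.2⟩ := ⟨_, rfl⟩
  obtain ⟨h, hh⟩ := hh
  have hhinj : Function.Injective h := by
    rintro ⟨i, k⟩ ⟨j, l⟩ hpq
    rw [hh] at hpq
    have h1 := hginj hpq
    dsimp only at h1
    have h2 := congrArg Sigma.fst h1
    dsimp only at h2
    subst h2
    rw [Sigma.mk.injEq] at h1
    have h3 := eq_of_heq h1.2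
    have h4 : k = l := by
      apply Fin.ext
      have := congrArg Fin.val h3
      simpa using this
    rw [h4]
  have hch : ∀ p, c (h p) = p.1 := by
    intro p
    rw [hh]
    exact hc _
  refine ⟨univ.image g, c, e none, e (some none), univ.image h, ?_, ?_, ?_, ?_, ?_, ?_, ?_⟩
  · intro h
    have := e.injective h
    simp at this
  · rw [Finset.mem_image]
    rintro ⟨p, _, hp⟩
    rw [hg] at hp
    have := e.injective hp
    simp at this
  · rw [Finset.mem_image]
    rintro ⟨p, _, hp⟩
    rw [hg] at hp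
    have := e.injective hp
    simp at this
  · intro v hv
    rw [Finset.mem_image] at hv ⊢
    obtain ⟨p, _, rfl⟩ := hv
    rw [hh]
    exact ⟨_, Finset.mem_univ _, rfl⟩
  · rw [Finset.card_image_of_injective _ hginj, Finset.card_univ, Fintype.card_sigma]
    simp only [Fintype.card_fin]
    exact hn
  · exact EMB.card_cl_image n g hginj c hc
  · exact EMB.card_cl_image a h hhinj c hch

end Pool.Agent.Work.MP_5532fa_up
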