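import Pool.Agent.Work.MP_5532fa_up.Interface

open Finset

namespace Pool.Agent.Work.MP_5532fa_up

namespace EVN

theorem even_of_symm {V : Type} (S : Finset (V × V)) (hs : ∀ e ∈ S, (e.2, e.1) ∈ S)
    (hd : ∀ e ∈ S, e.1 ≠ e.2) : Even S.card := by
  classical
  rw [← ZMod.natCast_eq_zero_iff_even]
  have h : ((S.card : ℕ) : ZMod 2) = ∑ _e ∈ S, (1 : ZMod 2) := by simp
  rw [h]
  refine Finset.sum_involution (fun e _ => (e.2, e.1)) ?_ ?_ ?_ ?_
  · intro e _
    decide
  · intro e he _ heq
    have := congrArg Prod.fst heq
    exact hd e he this.symm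
  · intro e he
    exact hs e he
  · intro e _
    rfl

end EVN

theorem blk_EVN : Stmt_EVN := by
  intro r V _ G c H
  constructor
  · unfold mis
    apply EVN.even_of_symm
    · intro e he
      simp only [Finset.mem_filter, Finset.mem_product] at he ⊢
      exact ⟨⟨he.1.2, he.1.1⟩, he.2.1.symm, fun h => he.2.2 h.symm⟩
    · intro e he
      simp only [Finset.mem_filter, Finset.mem_product] at he
      intro h
      exact he.2.1 (by rw [h])
  · unfold eu
    apply EVN.even_of_symm
    · intro e he
      simp only [Finset.mem_filter, Finset.mem_univ, true_and] at he ⊢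
      exact ⟨he.1.symm, he.2.2, he.2.1⟩
    · intro e he
      simp only [Finset.mem_filter, Finset.mem_univ, true_and] at he
      exact he.1.ne

end Pool.Agent.Work.MP_5532fa_up
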