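import Pool.Agent.Work.MP_5532fa_up.Interface

/-! Block EXD: existence of type D graphs. -/

open Finset

namespace Pool.Agent.Work.MP_5532fa_up

namespace EXD

/-- arithmetic: the parameters are admissible -/
theorem arith (r : ℕ) (ε : ℝ) (hr : 3 ≤ r) (hε : 0 < ε) : ∃ N0 : ℕ, ∀ N ≥ N0, ∀ j : ℕ,
    Rg r ε N j → 2 * r ≤ N ∧ 2 * r ≤ j ∧ (j : ℝ) + 2 * (N / r) + r + 1 ≤ N ∧
      ((N / r : ℕ) : ℝ) ≤ (N : ℝ) / r := by
  obtain ⟨N0, hN0⟩ := exists_nat_ge ((2 * (r : ℝ) + 2) / ε + 2 * r)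
  refine ⟨N0, fun N hN j hj => ?_⟩
  obtain ⟨h1, h2⟩ := hj
  have hr' : (3 : ℝ) ≤ r := by exact_mod_cast hr
  have hNr : (N0 : ℝ) ≤ N := by exact_mod_cast hN
  have h3 : (2 * (r : ℝ) + 2) / ε ≤ N := by
    have : (0 : ℝ) ≤ 2 * r := by linarith
    linarith
  have h4 : 2 * (r : ℝ) + 2 ≤ ε * N := by
    rw [div_le_iff₀ hε] at h3
    linarith
  have h5 : 2 * (r : ℝ) ≤ N := by
    have : (0 : ℝ) ≤ (2 * (r : ℝ) + 2) / ε := by positivity
    linarith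
  have h6 : 2 * (r : ℝ) ≤ j := by linarith
  refine ⟨by exact_mod_cast h5, by exact_mod_cast h6, ?_, Nat.cast_div_le⟩
  have hN : (0 : ℝ) ≤ N := Nat.cast_nonneg _
  have h7 : 0 ≤ 1 - 2 / (r : ℝ) := by
    have : 2 / (r : ℝ) ≤ 1 := by
      rw [div_le_one (by linarith)]
      linarith
    linarith
  have h8 : (1 - 2 / (r : ℝ)) * al r ≤ (1 - 2 / (r : ℝ)) :=
    mul_le_of_le_one_right h7 (al_lt hr).le
  have h9 : ((1 - 2 / (r : ℝ)) * al r - ε) * N ≤ ((1 - 2 / (r : ℝ)) - ε) * N :=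
    mul_le_mul_of_nonneg_right (by linarith) hN
  have h10 : ((1 - 2 / (r : ℝ)) - ε) * N = N - 2 * (N / r) - ε * N := by ring
  linarith

theorem a_le {r : ℕ} {n a : Fin r → ℕ} {P : Finset (Fin r)} {p0 : ℕ}
    (hn : ∀ i, 2 ≤ n i) (hp0 : p0 ≤ 2) (haP : ∀ i, i ∈ P → a i = p0)
    (haQ : ∀ i, i ∉ P → 1 ≤ a i ∧ a i ≤ n i) (i : Fin r) : a i ≤ n i := by
  by_cases hi : i ∈ P
  · rw [haP i hi]
    exact hp0.trans (hn i)
  · exact (haQ i hi).2

end EXD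

open EXD in
theorem blk_EXD (h1 : Stmt_PARX) (h2 : Stmt_EMB) : Stmt_EXD := by
  intro r ε hr hε
  obtain ⟨N0, hN0⟩ := arith r ε hr hε
  refine ⟨N0, fun N hN j hj V _ hV => ?_⟩
  obtain ⟨b1, b2, b3, b4⟩ := hN0 N hN j hj
  have c1 : 1 ≤ j := by omega
  have c2 : j - 1 + 2 * (N / r + 1) ≤ N := by
    have e : ((j - 1 + 2 * (N / r + 1) : ℕ) : ℝ) ≤ (N : ℝ) := by
      push_cast [Nat.cast_sub c1]
      have : (0 : ℝ) ≤ r := Nat.cast_nonneg _
      linarith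
    exact_mod_cast e
  obtain ⟨n, a, P, hP, hsn, hsa, hn2, hbal, htop, haP, haQ, hpl⟩ :=
    h1 r 2 1 N (j - 1) hr (by omega) b1 (by omega) c2
  have hle := a_le hn2 (by norm_num) haP (fun i hi => haQ i hi)
  obtain ⟨H, c, w, u, A, hwu, hw, hu, hA, hH, hcH, hcA⟩ :=
    h2 r N n a V (by omega) hsn hle hV
  obtain ⟨i1, i2, hi12, rfl⟩ := Finset.card_eq_two.1 hP
  have hi1 : (cl A c i1).card = 1 := by
    rw [hcA, haP i1 (by simp)]
  have hi2 : (cl A c i2).card = 1 := by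
    rw [hcA, haP i2 (by simp)]
  obtain ⟨v1, hv1⟩ := Finset.card_eq_one.1 hi1
  obtain ⟨v2, hv2⟩ := Finset.card_eq_one.1 hi2
  have hc1 : c v1 = i1 := by
    have : v1 ∈ cl A c i1 := by rw [hv1]; exact Finset.mem_singleton_self _
    exact (mem_cl.1 this).2
  have hc2 : c v2 = i2 := by
    have : v2 ∈ cl A c i2 := by rw [hv2]; exact Finset.mem_singleton_self _
    exact (mem_cl.1 this).2
  refine ⟨gD H c w A v1 v2, H, c, w, A, v1, v2, ?_, ?_, ?_, ?_, ?_⟩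
  · apply gD_WD hH hw hA
    · rw [hc1, hc2]; exact hi12
    · rw [hc1]; exact hv1
    · rw [hc2]; exact hv2
    · intro i
      rw [← Finset.card_pos, hcA]
      by_cases hi : i ∈ ({i1, i2} : Finset (Fin r))
      · rw [haP i hi]; norm_num
      · exact (haQ i hi).1
  · have := sum_card_cl A c
    rw [← this]
    simp only [hcA]
    rw [hsa]
    omega
  · intro i k
    rw [hcH, hcH]
    exact hbal i k
  · intro i k hi hk
    rw [hc1, hc2] at hi hk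
    rw [hcH, hcH, hcA, hcA]
    exact hpl i k hi hk
  · intro i k hi hk
    rw [hc1, hc2] at hi hk
    rw [hcH, hcH]
    exact htop i k hi hk

end Pool.Agent.Work.MP_5532fa_up
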