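import Pool.Agent.Work.MP_5532fa_up.Interface

open Finset

namespace Pool.Agent.Work.MP_5532fa_up

namespace FAM

theorem chi_or {p q : Prop} (h : p → q → False) : chi (p ∨ q) = chi p + chi q := by
  by_cases hp : p
  · by_cases hq : q
    · exact (h hp hq).elim
    · rw [chi_pos (Or.inl hp), chi_pos hp, chi_neg hq, add_zero]
  · by_cases hq : q
    · rw [chi_pos (Or.inr hq), chi_neg hp, chi_pos hq, zero_add]
    · rw [chi_neg (fun h => h.elim hp hq), chi_neg hp, chi_neg hq, add_zero]

theorem chi_and (p q : Prop) : chi (p ∧ q) = chi p * chi q := by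
  by_cases hp : p
  · by_cases hq : q
    · rw [chi_pos ⟨hp, hq⟩, chi_pos hp, chi_pos hq, one_mul]
    · rw [chi_neg (fun h => hq h.2), chi_pos hp, chi_neg hq, one_mul]
  · rw [chi_neg (fun h => hp h.1), chi_neg hp, zero_mul]

variable {V : Type} [Fintype V]

theorem sum_chi_eq (q : V) : ∑ b, chi (b = q) = 1 := by
  classical
  rw [Finset.sum_eq_single q]
  · exact chi_pos rfl
  · intro b _ hb
    exact chi_neg hb
  · intro h
    exact absurd (Finset.mem_univ q) h

theorem sum_chi_mem (B : Finset V) : ∑ b, chi (b ∈ B) = B.card := by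
  classical
  rw [← Finset.sum_subset (Finset.subset_univ B)]
  · rw [Finset.sum_congr rfl (fun b hb => chi_pos hb)]
    simp
  · intro b _ hb
    exact chi_neg hb

theorem sum2_eq (p q : V) : ∑ a, ∑ b, chi (a = p ∧ b = q) = 1 := by
  simp only [chi_and]
  rw [← Finset.sum_mul_sum, sum_chi_eq, sum_chi_eq, one_mul]

theorem sum2_mem (p : V) (B : Finset V) : ∑ a, ∑ b, chi (a = p ∧ b ∈ B) = B.card := by
  simp only [chi_and]
  rw [← Finset.sum_mul_sum, sum_chi_eq, sum_chi_mem, one_mul]

theorem sum2_mem' (p : V) (B : Finset V) : ∑ a, ∑ b, chi (b = p ∧ a ∈ B) = B.card := by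
  rw [Finset.sum_comm]
  exact sum2_mem p B

end FAM

open FAM in
theorem blk_FAM : Stmt_FAM := by
  intro r hr V _ G N H c w A
  classical
  have hr' : (3 : ℝ) ≤ r := by exact_mod_cast hr
  constructor
  · intro v1 v2 hW
    have hv1 : v1 ∈ H := by
      have : v1 ∈ cl A c (c v1) := by rw [hW.h1]; exact Finset.mem_singleton_self _
      exact hW.hA (mem_cl.1 this).1
    have hv2 : v2 ∈ H := by
      have : v2 ∈ cl A c (c v2) := by rw [hW.h2]; exact Finset.mem_singleton_self _
      exact hW.hA (mem_cl.1 this).1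
    refine ⟨hW.hw, hW.hA, ?_, ?_, ?_⟩
    · intro a b
      unfold JD
      rw [chi_congr (p := b = v1 ∧ a = v2) (q := a = v2 ∧ b = v1) and_comm,
        chi_congr (p := b = v2 ∧ a = v1) (q := a = v1 ∧ b = v2) and_comm]
      ring
    · have h1 : ∀ a b, |JD v1 v2 a b| ≤ chi (a = v1 ∧ b = v2) + chi (a = v2 ∧ b = v1) := by
        intro a b
        unfold JD
        have h1 := chi_nonneg (a = v1 ∧ b = v2)
        have h2 := chi_nonneg (a = v2 ∧ b = v1)
        rw [abs_le]
        constructor <;> linarith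
      refine (Finset.sum_le_sum fun a _ => Finset.sum_le_sum fun b _ => h1 a b).trans ?_
      simp only [Finset.sum_add_distrib]
      rw [sum2_eq, sum2_eq]
      linarith
    · intro a b
      have h1 : chi (a ∈ H ∧ b ∈ H ∧ c a ≠ c b) =
          chi (a ∈ H ∧ b ∈ H ∧ c a ≠ c b ∧ ¬ (a = v1 ∧ b = v2) ∧ ¬ (a = v2 ∧ b = v1))
            + (chi (a = v1 ∧ b = v2) + chi (a = v2 ∧ b = v1)) := by
        rw [← chi_or (p := a = v1 ∧ b = v2) (q := a = v2 ∧ b = v1), ← chi_or]
        · apply chi_congr
          constructor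
          · intro h
            by_cases h1 : a = v1 ∧ b = v2
            · exact Or.inr (Or.inl h1)
            by_cases h2 : a = v2 ∧ b = v1
            · exact Or.inr (Or.inr h2)
            exact Or.inl ⟨h.1, h.2.1, h.2.2, h1, h2⟩
          · rintro (h | ⟨rfl, rfl⟩ | ⟨rfl, rfl⟩)
            · exact ⟨h.1, h.2.1, h.2.2.1⟩
            · exact ⟨hv1, hv2, hW.h12⟩
            · exact ⟨hv2, hv1, hW.h12.symm⟩
        · rintro ⟨_, _, _, h1, h2⟩ (h | h)
          · exact h1 h
          · exact h2 h
        · rintro ⟨rfl, rfl⟩ ⟨h, _⟩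
          exact hW.h12 (by rw [h])
      have h2 : ad G a b = chi (a ∈ H ∧ b ∈ H ∧ c a ≠ c b ∧ ¬ (a = v1 ∧ b = v2)
          ∧ ¬ (a = v2 ∧ b = v1)) + (chi (a = w ∧ b ∈ A) + chi (b = w ∧ a ∈ A)) := by
        unfold ad
        rw [← chi_or (p := a = w ∧ b ∈ A) (q := b = w ∧ a ∈ A), ← chi_or]
        · exact chi_congr (hW.adj a b)
        · rintro ⟨h1, h2, _⟩ (h | h)
          · exact hW.hw (h.1 ▸ h1)
          · exact hW.hw (h.1 ▸ h2)
        · rintro ⟨h1, h2⟩ ⟨h3, h4⟩
          exact hW.hw (h1 ▸ hW.hA h4)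
      rw [h2, h1]
      unfold JD
      ring
  · intro u B i0 hW
    have hBc : (B.card : ℝ) = r - 1 := by
      have h1 : B.card = r - 1 := by
        rw [← sum_card_cl B c, ← Finset.add_sum_erase univ _ (Finset.mem_univ i0), hW.hB0,
          Finset.card_empty, zero_add]
        rw [Finset.sum_congr rfl (fun i hi => hW.hB1 i (Finset.mem_erase.1 hi).1)]
        simp
      rw [h1, Nat.cast_sub (by omega), Nat.cast_one]
    have hex1 : ∀ a : V, a ∈ H → a = w → False := fun a h1 h2 => hW.hw (h2 ▸ h1)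
    have hex2 : ∀ a : V, a ∈ H → a = u → False := fun a h1 h2 => hW.hu (h2 ▸ h1)
    have hex3 : ∀ a : V, a = w → a = u → False := fun a h1 h2 => hW.hwu (h1.symm.trans h2)
    refine ⟨hW.hw, hW.hA, ?_, ?_, ?_⟩
    · intro a b
      unfold JE
      rw [chi_congr (p := a = w ∧ b = u) (q := b = u ∧ a = w) and_comm,
        chi_congr (p := a = u ∧ b = w) (q := b = w ∧ a = u) and_comm]
      ring
    · have h1 : ∀ a b, |JE w u B a b| = JE w u B a b := by
        intro a b
        apply abs_of_nonneg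
        unfold JE
        have h1 := chi_nonneg (a = u ∧ b ∈ B)
        have h2 := chi_nonneg (b = u ∧ a ∈ B)
        have h3 := chi_nonneg (a = w ∧ b = u)
        have h4 := chi_nonneg (a = u ∧ b = w)
        linarith
      simp only [h1]
      unfold JE
      simp only [Finset.sum_add_distrib]
      rw [sum2_mem, sum2_mem', sum2_eq, sum2_eq, hBc]
      linarith
    · intro a b
      have h2 : ad G a b = chi (a ∈ H ∧ b ∈ H ∧ c a ≠ c b) + (chi (a = w ∧ b ∈ A)
          + (chi (b = w ∧ a ∈ A) + (chi (a = u ∧ b ∈ B) + (chi (b = u ∧ a ∈ B)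
          + (chi (a = w ∧ b = u) + chi (a = u ∧ b = w)))))) := by
        unfold ad
        rw [← chi_or (p := a = w ∧ b = u) (q := a = u ∧ b = w),
          ← chi_or (p := b = u ∧ a ∈ B), ← chi_or (p := a = u ∧ b ∈ B),
          ← chi_or (p := b = w ∧ a ∈ A), ← chi_or (p := a = w ∧ b ∈ A), ← chi_or]
        · exact chi_congr (hW.adj a b)
        · rintro ⟨h1, h2, _⟩ (h | h | h | h | h | h)
          · exact hex1 a h1 h.1
          · exact hex1 b h2 h.1
          · exact hex2 a h1 h.1
          · exact hex2 b h2 h.1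
          · exact hex1 a h1 h.1
          · exact hex2 a h1 h.1
        · rintro ⟨h1, h2⟩ (h | h | h | h | h)
          · exact hex1 a (hW.hA h.2) h1
          · exact hex3 a h1 h.1
          · exact hex1 a (hW.hB h.2) h1
          · exact hex2 b (hW.hA h2) h.2
          · exact hex3 a h1 h.1
        · rintro ⟨h1, h2⟩ (h | h | h | h)
          · exact hex1 b (hW.hB h.2) h1
          · exact hex3 b h1 h.1
          · exact hex3 b h1 h.2
          · exact hex2 a (hW.hA h2) h.1
        · rintro ⟨h1, h2⟩ (h | h | h)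
          · exact hex2 b (hW.hB h2) h.1
          · exact hex3 a h.1 h1
          · exact hex1 b (hW.hB h2) h.2
        · rintro ⟨h1, h2⟩ (h | h)
          · exact hex1 a (hW.hB h2) h.1
          · exact hex2 a (hW.hB h2) h.1
        · rintro ⟨h1, h2⟩ ⟨h3, h4⟩
          exact hex3 a h1 h3
      rw [h2]
      unfold JE
      ring

end Pool.Agent.Work.MP_5532fa_up
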