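import Pool.Agent.Work.MP_5532fa_up.Interface

/-!
# MP_5532fa_co, upgrade: block GD (facts on the graphs of type D)
-/

open Finset

namespace Pool.Agent.Work.MP_5532fa_up

open MP5532fa (specRad qf pE)

namespace GD

section
variable {V : Type} [Fintype V] {r : ℕ}

omit [Fintype V] in
theorem v1_mem {G : SimpleGraph V} {N : ℕ} {H : Finset V} {c : V → Fin r} {w : V} {A : Finset V}
    {v1 v2 : V} (h : WD G N H c w A v1 v2) : v1 ∈ A := by
  have : v1 ∈ cl A c (c v1) := by rw [h.h1]; exact mem_singleton_self _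
  exact (mem_cl.mp this).1

omit [Fintype V] in
theorem v2_mem {G : SimpleGraph V} {N : ℕ} {H : Finset V} {c : V → Fin r} {w : V} {A : Finset V}
    {v1 v2 : V} (h : WD G N H c w A v1 v2) : v2 ∈ A := by
  have : v2 ∈ cl A c (c v2) := by rw [h.h2]; exact mem_singleton_self _
  exact (mem_cl.mp this).1

omit [Fintype V] in
theorem adj_w {G : SimpleGraph V} {N : ℕ} {H : Finset V} {c : V → Fin r} {w : V} {A : Finset V}
    {v1 v2 : V} (h : WD G N H c w A v1 v2) {b : V} : G.Adj w b ↔ b ∈ A := by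
  rw [h.adj]
  constructor
  · rintro (h1 | h1 | h1)
    · exact absurd h1.1 h.hw
    · exact h1.2
    · exact absurd (h.hA h1.2) h.hw
  · intro hb
    exact Or.inr (Or.inl ⟨rfl, hb⟩)

omit [Fintype V] in
theorem adj_H {G : SimpleGraph V} {N : ℕ} {H : Finset V} {c : V → Fin r} {w : V} {A : Finset V}
    {v1 v2 : V} (h : WD G N H c w A v1 v2) {a b : V} (ha : a ≠ w) (hb : b ≠ w)
    (hab : G.Adj a b) : a ∈ H ∧ b ∈ H ∧ c a ≠ c b := by
  rw [h.adj] at hab
  rcases hab with h1 | h1 | h1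
  · exact ⟨h1.1, h1.2.1, h1.2.2.1⟩
  · exact absurd h1.1 ha
  · exact absurd h1.1 hb

omit [Fintype V] in
theorem free {G : SimpleGraph V} {N : ℕ} {H : Finset V} {c : V → Fin r} {w : V} {A : Finset V}
    {v1 v2 : V} (h : WD G N H c w A v1 v2) : G.CliqueFree (r + 1) := by
  classical
  intro s hs
  rw [SimpleGraph.isNClique_iff] at hs
  obtain ⟨hs, hc⟩ := hs
  have hinj : Set.InjOn c ((s.erase w : Finset V) : Set V) := by
    intro a ha b hb hcab
    by_contra hne
    rw [Finset.mem_coe, Finset.mem_erase] at ha hb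
    have h1 := hs (Finset.mem_coe.mpr ha.2) (Finset.mem_coe.mpr hb.2) hne
    exact (adj_H h ha.1 hb.1 h1).2.2 hcab
  have hle : (s.erase w).card ≤ r := by
    have h1 := Finset.card_le_card_of_injOn (t := (univ : Finset (Fin r))) c
      (fun _ _ => Finset.mem_coe.mpr (Finset.mem_univ _)) hinj
    rw [Finset.card_univ, Fintype.card_fin] at h1
    exact h1
  have hw : w ∈ s := by
    by_contra hw
    rw [Finset.erase_eq_of_notMem hw] at hle
    omega
  have hcard : (s.erase w).card = r := by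
    rw [Finset.card_erase_of_mem hw]; omega
  have hsurj : ∀ i : Fin r, ∃ a ∈ s.erase w, c a = i := by
    intro i
    have h1 : (s.erase w).image c = univ := by
      apply Finset.eq_univ_of_card
      rw [Finset.card_image_of_injOn hinj, hcard, Fintype.card_fin]
    have h2 : i ∈ (s.erase w).image c := by rw [h1]; exact Finset.mem_univ _
    obtain ⟨a, ha, hai⟩ := Finset.mem_image.mp h2
    exact ⟨a, ha, hai⟩
  have hA : ∀ a ∈ s.erase w, a ∈ A := by
    intro a ha
    rw [Finset.mem_erase] at ha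
    exact (adj_w h).mp (hs (Finset.mem_coe.mpr hw) (Finset.mem_coe.mpr ha.2) (Ne.symm ha.1))
  obtain ⟨a, ha, hac⟩ := hsurj (c v1)
  obtain ⟨b, hb, hbc⟩ := hsurj (c v2)
  have ha1 : a = v1 := by
    have : a ∈ cl A c (c v1) := mem_cl.mpr ⟨hA a ha, hac⟩
    rw [h.h1] at this
    exact Finset.mem_singleton.mp this
  have hb1 : b = v2 := by
    have : b ∈ cl A c (c v2) := mem_cl.mpr ⟨hA b hb, hbc⟩
    rw [h.h2] at this
    exact Finset.mem_singleton.mp this
  subst ha1
  subst hb1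
  rw [Finset.mem_erase] at ha hb
  have hne : a ≠ b := fun h0 => h.h12 (by rw [h0])
  have hab := hs (Finset.mem_coe.mpr ha.2) (Finset.mem_coe.mpr hb.2) hne
  rw [h.adj] at hab
  rcases hab with h1 | h1 | h1
  · exact h1.2.2.2.1 ⟨rfl, rfl⟩
  · exact ha.1 h1.1
  · exact hb.1 h1.1

omit [Fintype V] in
theorem ncol {G : SimpleGraph V} {N : ℕ} {H : Finset V} {c : V → Fin r} {w : V} {A : Finset V}
    {v1 v2 : V} (h : WD G N H c w A v1 v2) (h2 : ∀ i, 2 ≤ (cl H c i).card) :
    ¬ G.Colorable r := by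
  classical
  rintro ⟨f⟩
  have hrep : ∀ i, ∃ p ∈ H, c p = i ∧ p ≠ v1 ∧ p ≠ v2 := by
    intro i
    by_cases hi : c v1 = i
    · have hpos : 0 < ((cl H c i).erase v1).card := by
        have := Finset.pred_card_le_card_erase (s := cl H c i) (a := v1)
        have := h2 i
        omega
      obtain ⟨p, hp⟩ := Finset.card_pos.mp hpos
      rw [Finset.mem_erase, mem_cl] at hp
      refine ⟨p, hp.2.1, hp.2.2, hp.1, ?_⟩
      rintro rfl
      exact h.h12 (hi.trans hp.2.2.symm)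
    · have hpos : 0 < ((cl H c i).erase v2).card := by
        have := Finset.pred_card_le_card_erase (s := cl H c i) (a := v2)
        have := h2 i
        omega
      obtain ⟨p, hp⟩ := Finset.card_pos.mp hpos
      rw [Finset.mem_erase, mem_cl] at hp
      refine ⟨p, hp.2.1, hp.2.2, ?_, hp.1⟩
      rintro rfl
      exact hi hp.2.2
  choose ρ hρH hρc hρ1 hρ2 using hrep
  have hadj : ∀ a ∈ H, ∀ k, k ≠ c a → G.Adj a (ρ k) := by
    intro a ha k hk
    rw [h.adj]
    refine Or.inl ⟨ha, hρH k, ?_, fun h0 => hρ2 k h0.2, fun h0 => hρ1 k h0.2⟩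
    rw [hρc k]; exact Ne.symm hk
  have hinj : Function.Injective (fun i => f (ρ i)) := by
    intro i k hik
    by_contra hne
    have h1 := hadj (ρ i) (hρH i) k (by rw [hρc i]; exact Ne.symm hne)
    exact f.valid h1 hik
  have hsurj : Function.Surjective (fun i => f (ρ i)) := Finite.surjective_of_injective hinj
  obtain ⟨i, hi⟩ := hsurj (f w)
  obtain ⟨a, ha⟩ := h.hne i
  rw [mem_cl] at ha
  obtain ⟨k, hk⟩ := hsurj (f a)
  have hk' : k = c a := by
    by_contra hne
    exact f.valid (hadj a (h.hA ha.1) k hne) hk.symm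
  have h3 : f w = f a := by
    rw [← hi, ← hk, hk', ha.2]
  exact f.valid ((adj_w h).mpr ha.1) h3

theorem sum_chi_mem (S : Finset V) : ∑ b, chi (b ∈ S) = (S.card : ℝ) := by
  classical
  have h1 : ∀ b : V, chi (b ∈ S) = if b ∈ S then (1 : ℝ) else 0 := by
    intro b
    by_cases hb : b ∈ S
    · rw [chi_pos hb, if_pos hb]
    · rw [chi_neg hb, if_neg hb]
  rw [Finset.sum_congr rfl (fun b _ => h1 b)]
  rw [Finset.sum_ite_mem, Finset.univ_inter, Finset.sum_const, nsmul_eq_mul, mul_one]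

omit [Fintype V] in
theorem chi_and (p q : Prop) : chi (p ∧ q) = chi p * chi q := by
  by_cases hp : p
  · by_cases hq : q
    · rw [chi_pos ⟨hp, hq⟩, chi_pos hp, chi_pos hq, mul_one]
    · rw [chi_neg (fun h => hq h.2), chi_neg hq, mul_zero]
  · rw [chi_neg (fun h => hp h.1), chi_neg hp, zero_mul]

omit [Fintype V] in
theorem chi_not (p : Prop) : chi (¬ p) = 1 - chi p := by
  by_cases hp : p
  · rw [chi_neg (fun h => h hp), chi_pos hp, sub_self]
  · rw [chi_pos hp, chi_neg hp, sub_zero]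

theorem sum_chi_eq (a : V) : ∑ b, chi (b = a) = (1 : ℝ) := by
  classical
  rw [Finset.sum_eq_single a]
  · exact chi_pos rfl
  · intro b _ hb; exact chi_neg hb
  · intro h0; exact absurd (Finset.mem_univ _) h0

theorem sum_cross (H : Finset V) (c : V → Fin r) :
    ∑ a, ∑ b, chi (a ∈ H ∧ b ∈ H ∧ c a ≠ c b) = (H.card : ℝ) ^ 2 - ∑ i, sz H c i ^ 2 := by
  classical
  have h1 : ∀ a b : V, chi (a ∈ H ∧ b ∈ H ∧ c a ≠ c b)
      = chi (a ∈ H) * chi (b ∈ H) - chi (a ∈ H) * chi (b ∈ cl H c (c a)) := by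
    intro a b
    rw [chi_and, chi_and, chi_not]
    have : chi (b ∈ cl H c (c a)) = chi (b ∈ H) * chi (c a = c b) := by
      rw [← chi_and]
      exact chi_congr (by rw [mem_cl]; exact ⟨fun h => ⟨h.1, h.2.symm⟩, fun h => ⟨h.1, h.2.symm⟩⟩)
    rw [this]; ring
  have h2 : ∀ a : V, ∑ b, chi (a ∈ H ∧ b ∈ H ∧ c a ≠ c b)
      = chi (a ∈ H) * (H.card : ℝ) - chi (a ∈ H) * sz H c (c a) := by
    intro a
    rw [Finset.sum_congr rfl (fun b _ => h1 a b), Finset.sum_sub_distrib, ← Finset.mul_sum,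
      ← Finset.mul_sum, sum_chi_mem, sum_chi_mem]
    rfl
  rw [Finset.sum_congr rfl (fun a _ => h2 a), Finset.sum_sub_distrib, ← Finset.sum_mul,
    sum_chi_mem]
  have h3 : ∑ a, chi (a ∈ H) * sz H c (c a) = ∑ i, sz H c i ^ 2 := by
    have h4 : ∑ a, chi (a ∈ H) * sz H c (c a) = ∑ a ∈ H, sz H c (c a) := by
      have h5 : ∀ a : V, chi (a ∈ H) * sz H c (c a) = if a ∈ H then sz H c (c a) else 0 := by
        intro b
        by_cases hb : b ∈ H
        · rw [chi_pos hb, if_pos hb, one_mul]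
        · rw [chi_neg hb, if_neg hb, zero_mul]
      rw [Finset.sum_congr rfl (fun b _ => h5 b), Finset.sum_ite_mem, Finset.univ_inter]
    rw [h4, ← sum_cl H c]
    refine Finset.sum_congr rfl fun i _ => ?_
    have h6 : ∀ v ∈ cl H c i, sz H c (c v) = sz H c i := by
      intro v hv
      rw [(mem_cl.mp hv).2]
    rw [Finset.sum_congr rfl h6, Finset.sum_const, nsmul_eq_mul, sq]
    rfl
  rw [h3]; ring

omit [Fintype V] in
theorem ad_WD {G : SimpleGraph V} {N : ℕ} {H : Finset V} {c : V → Fin r} {w : V} {A : Finset V}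
    {v1 v2 : V} (h : WD G N H c w A v1 v2) (a b : V) :
    ad G a b = chi (a ∈ H ∧ b ∈ H ∧ c a ≠ c b) + chi (a = w) * chi (b ∈ A)
      + chi (b = w) * chi (a ∈ A) - chi (a = v1) * chi (b = v2) - chi (a = v2) * chi (b = v1) := by
  have hv1 := h.hA (v1_mem h)
  have hv2 := h.hA (v2_mem h)
  have h21 : c v2 ≠ c v1 := h.h12.symm
  have hne : v1 ≠ v2 := fun h0 => h.h12 (by rw [h0])
  have hw1 : w ≠ v1 := fun h0 => h.hw (h0 ▸ hv1)
  have hw2 : w ≠ v2 := fun h0 => h.hw (h0 ▸ hv2)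
  unfold ad
  rw [← chi_and, ← chi_and, ← chi_and, ← chi_and]
  by_cases ha : a = w
  · subst ha
    have e1 : ¬ (a ∈ H ∧ b ∈ H ∧ c a ≠ c b) := fun h0 => h.hw h0.1
    have e2 : ¬ (b = a ∧ a ∈ A) := fun h0 => h.hw (h.hA h0.2)
    have e3 : ¬ (a = v1 ∧ b = v2) := fun h0 => hw1 h0.1
    have e4 : ¬ (a = v2 ∧ b = v1) := fun h0 => hw2 h0.1
    rw [chi_neg e1, chi_neg e2, chi_neg e3, chi_neg e4]
    by_cases hb : b ∈ A
    · rw [chi_pos ((adj_w h).mpr hb), chi_pos ⟨rfl, hb⟩]; ring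
    · rw [chi_neg (fun h0 => hb ((adj_w h).mp h0)), chi_neg (fun h0 => hb h0.2)]; ring
  · by_cases hb : b = w
    · subst hb
      have e1 : ¬ (a ∈ H ∧ b ∈ H ∧ c a ≠ c b) := fun h0 => h.hw h0.2.1
      have e2 : ¬ (a = b ∧ b ∈ A) := fun h0 => h.hw (h.hA h0.2)
      have e3 : ¬ (a = v1 ∧ b = v2) := fun h0 => hw2 h0.2
      have e4 : ¬ (a = v2 ∧ b = v1) := fun h0 => hw1 h0.2
      rw [chi_neg e1, chi_neg e2, chi_neg e3, chi_neg e4]
      by_cases hb : a ∈ A
      · rw [chi_pos ((adj_w h).mpr hb).symm, chi_pos ⟨rfl, hb⟩]; ring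
      · rw [chi_neg (fun h0 => hb ((adj_w h).mp h0.symm)), chi_neg (fun h0 => hb h0.2)]; ring
    · have e1 : ¬ (a = w ∧ b ∈ A) := fun h0 => ha h0.1
      have e2 : ¬ (b = w ∧ a ∈ A) := fun h0 => hb h0.1
      rw [chi_neg e1, chi_neg e2]
      by_cases h3 : a = v1 ∧ b = v2
      · have h4 : ¬ (a = v2 ∧ b = v1) := fun h0 => hne (h3.1.symm.trans h0.1)
        rw [chi_pos h3, chi_neg h4]
        obtain ⟨rfl, rfl⟩ := h3
        have h5 : ¬ G.Adj a b := by
          rw [h.adj]
          rintro (h0 | h0 | h0)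
          · exact h0.2.2.2.1 ⟨rfl, rfl⟩
          · exact ha h0.1
          · exact hb h0.1
        rw [chi_neg h5, chi_pos ⟨hv1, hv2, h.h12⟩]; ring
      · by_cases h4 : a = v2 ∧ b = v1
        · rw [chi_neg h3, chi_pos h4]
          obtain ⟨rfl, rfl⟩ := h4
          have h5 : ¬ G.Adj a b := by
            rw [h.adj]
            rintro (h0 | h0 | h0)
            · exact h0.2.2.2.2 ⟨rfl, rfl⟩
            · exact ha h0.1
            · exact hb h0.1
          rw [chi_neg h5, chi_pos ⟨hv2, hv1, h21⟩]; ring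
        · rw [chi_neg h3, chi_neg h4]
          have h5 : G.Adj a b ↔ (a ∈ H ∧ b ∈ H ∧ c a ≠ c b) := by
            rw [h.adj]
            constructor
            · rintro (h0 | h0 | h0)
              · exact ⟨h0.1, h0.2.1, h0.2.2.1⟩
              · exact absurd h0 e1
              · exact absurd h0 e2
            · intro h0
              exact Or.inl ⟨h0.1, h0.2.1, h0.2.2, h3, h4⟩
          rw [chi_congr h5]; ring

theorem cnt {G : SimpleGraph V} {N : ℕ} {H : Finset V} {c : V → Fin r} {w : V} {A : Finset V}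
    {v1 v2 : V} (h : WD G N H c w A v1 v2) :
    pE G = (N : ℝ) ^ 2 - ∑ i, sz H c i ^ 2 - 2 + 2 * A.card := by
  classical
  rw [pE_ad]
  have h1 : ∀ a : V, ∑ b, ad G a b = ∑ b, chi (a ∈ H ∧ b ∈ H ∧ c a ≠ c b)
      + chi (a = w) * (A.card : ℝ) + chi (a ∈ A) - chi (a = v1) - chi (a = v2) := by
    intro a
    rw [Finset.sum_congr rfl (fun b _ => ad_WD h a b), Finset.sum_sub_distrib,
      Finset.sum_sub_distrib, Finset.sum_add_distrib, Finset.sum_add_distrib, ← Finset.mul_sum,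
      ← Finset.mul_sum, ← Finset.mul_sum, ← Finset.sum_mul, sum_chi_mem, sum_chi_eq, sum_chi_eq,
      sum_chi_eq]
    ring
  rw [Finset.sum_congr rfl (fun a _ => h1 a), Finset.sum_sub_distrib,
      Finset.sum_sub_distrib, Finset.sum_add_distrib, Finset.sum_add_distrib, ← Finset.sum_mul,
      sum_cross, sum_chi_mem, sum_chi_eq, sum_chi_eq, sum_chi_eq, h.card]
  ring

end

end GD

theorem blk_GD : Stmt_GD := by
  classical
  intro r _ V _ G N H c w A v1 v2 h
  exact ⟨GD.free h, GD.ncol h, GD.cnt h⟩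

end Pool.Agent.Work.MP_5532fa_up
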