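import Pool.Agent.Work.MP_5532fa_up.Interface

/-!
# Block GE: facts on the graphs of type E
-/

open Finset

namespace Pool.Agent.Work.MP_5532fa_up

open MP5532fa (specRad qf pE)

namespace GE

theorem chi_or {p q : Prop} (h : ¬ (p ∧ q)) : chi (p ∨ q) = chi p + chi q := by
  by_cases hp : p
  · have hq : ¬ q := fun hq => h ⟨hp, hq⟩
    rw [chi_pos hp, chi_neg hq, chi_pos (Or.inl hp), add_zero]
  · by_cases hq : q
    · rw [chi_neg hp, chi_pos hq, chi_pos (Or.inr hq), zero_add]
    · rw [chi_neg hp, chi_neg hq, chi_neg (fun h => h.elim hp hq), zero_add]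

theorem chi_and (p q : Prop) : chi (p ∧ q) = chi p * chi q := by
  by_cases hp : p
  · by_cases hq : q
    · rw [chi_pos hp, chi_pos hq, chi_pos ⟨hp, hq⟩, one_mul]
    · rw [chi_pos hp, chi_neg hq, chi_neg (fun h => hq h.2), mul_zero]
  · rw [chi_neg hp, chi_neg (fun h => hp h.1), zero_mul]

section
variable {V : Type} [Fintype V] {r : ℕ}

theorem sum_chi_mem (S : Finset V) : ∑ a, chi (a ∈ S) = S.card := by
  have h1 : ∑ a ∈ S, chi (a ∈ S) = ∑ a, chi (a ∈ S) :=
    Finset.sum_subset (Finset.subset_univ S) (fun x _ hx => chi_neg hx)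
  rw [← h1, Finset.sum_congr rfl fun a ha => chi_pos ha, Finset.sum_const, nsmul_eq_mul, mul_one]

theorem sum_chi_eq (w : V) : ∑ a, chi (a = w) = 1 := by
  classical
  have := sum_chi_mem ({w} : Finset V)
  simpa using this

theorem sum_chi_cl (S : Finset V) (c : V → Fin r) (i : Fin r) :
    ∑ a, chi (a ∈ S ∧ c a = i) = sz S c i := by
  unfold sz
  rw [← sum_chi_mem]
  exact Finset.sum_congr rfl fun a _ => chi_congr mem_cl.symm

theorem sum_prod (f g : V → ℝ) : ∑ a, ∑ b, f a * g b = (∑ a, f a) * ∑ b, g b := by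
  rw [Finset.sum_mul]
  exact Finset.sum_congr rfl fun a _ => (Finset.mul_sum _ _ _).symm

omit [Fintype V] in
theorem chi_multi (H : Finset V) (c : V → Fin r) (a b : V) :
    chi (a ∈ H ∧ b ∈ H ∧ c a ≠ c b) = chi (a ∈ H) * chi (b ∈ H)
      - ∑ i, chi (a ∈ H ∧ c a = i) * chi (b ∈ H ∧ c b = i) := by
  classical
  have h1 : ∀ i, chi (a ∈ H ∧ c a = i) * chi (b ∈ H ∧ c b = i)
      = chi (a ∈ H) * chi (b ∈ H) * (if i = c a then chi (c a = c b) else 0) := by
    intro i
    rw [chi_and, chi_and]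
    by_cases hi : i = c a
    · subst hi
      rw [if_pos rfl, chi_pos rfl, chi_congr (p := c b = c a) (q := c a = c b) eq_comm]
      ring
    · rw [if_neg hi, chi_neg (p := c a = i) (fun h => hi h.symm)]
      ring
  rw [Finset.sum_congr rfl fun i _ => h1 i, ← Finset.mul_sum, Finset.sum_ite_eq' Finset.univ (c a),
    if_pos (Finset.mem_univ _), chi_and, chi_and]
  by_cases h : c a = c b
  · rw [chi_pos h, chi_neg (p := c a ≠ c b) (fun h' => h' h)]; ring
  · rw [chi_neg h, chi_pos (p := c a ≠ c b) h]; ring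

theorem sum_multi (H : Finset V) (c : V → Fin r) :
    ∑ a, ∑ b, chi (a ∈ H ∧ b ∈ H ∧ c a ≠ c b) = (H.card : ℝ) ^ 2 - ∑ i, sz H c i ^ 2 := by
  simp_rw [chi_multi H c, Finset.sum_sub_distrib]
  rw [sum_prod, sum_chi_mem, ← sq]
  have h1 : ∑ a, ∑ b, ∑ i, chi (a ∈ H ∧ c a = i) * chi (b ∈ H ∧ c b = i)
      = ∑ i, sz H c i ^ 2 := by
    have h2 : ∀ a : V, ∑ b, ∑ i, chi (a ∈ H ∧ c a = i) * chi (b ∈ H ∧ c b = i)
        = ∑ i, ∑ b, chi (a ∈ H ∧ c a = i) * chi (b ∈ H ∧ c b = i) := fun a => Finset.sum_comm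
    rw [Finset.sum_congr rfl fun a _ => h2 a, Finset.sum_comm]
    refine Finset.sum_congr rfl fun i _ => ?_
    rw [sum_prod, sum_chi_cl, sq]
  rw [h1]

theorem sum_pair (w : V) (A : Finset V) : ∑ a, ∑ b, chi (a = w ∧ b ∈ A) = A.card := by
  have h : ∀ a b : V, chi (a = w ∧ b ∈ A) = chi (a = w) * chi (b ∈ A) := fun a b => chi_and _ _
  simp_rw [h]
  rw [sum_prod, sum_chi_eq, sum_chi_mem, one_mul]

theorem sum_pair' (w : V) (A : Finset V) : ∑ a, ∑ b, chi (b = w ∧ a ∈ A) = A.card := by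
  rw [Finset.sum_comm]; exact sum_pair w A

theorem sum_pt (w u : V) : ∑ a, ∑ b, chi (a = w ∧ b = u) = 1 := by
  have h : ∀ a b : V, chi (a = w ∧ b = u) = chi (a = w) * chi (b = u) := fun a b => chi_and _ _
  simp_rw [h]
  rw [sum_prod, sum_chi_eq, sum_chi_eq, one_mul]

variable {G : SimpleGraph V} {N : ℕ} {H : Finset V} {c : V → Fin r} {w u : V} {A B : Finset V}
  {i0 : Fin r}

omit [Fintype V] in
theorem ad_eq (h : WE G N H c w u A B i0) (a b : V) :
    ad G a b = chi (a ∈ H ∧ b ∈ H ∧ c a ≠ c b) + (chi (a = w ∧ b ∈ A) + (chi (b = w ∧ a ∈ A)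
      + (chi (a = u ∧ b ∈ B) + (chi (b = u ∧ a ∈ B) + (chi (a = w ∧ b = u)
      + chi (a = u ∧ b = w)))))) := by
  unfold ad
  rw [chi_congr (h.adj a b)]
  have hw := h.hw
  have hu := h.hu
  have hwu := h.hwu
  have hA := h.hA
  have hB := h.hB
  have hwA : w ∉ A := fun h' => hw (hA h')
  have huA : u ∉ A := fun h' => hu (hA h')
  have hwB : w ∉ B := fun h' => hw (hB h')
  have huB : u ∉ B := fun h' => hu (hB h')
  rw [chi_or, chi_or, chi_or, chi_or, chi_or, chi_or]
  · rintro ⟨⟨h1, h2⟩, h3, h4⟩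
    exact hwu (h1.symm.trans h3)
  · rintro ⟨⟨h1, h2⟩, ⟨h3, h4⟩ | ⟨h3, h4⟩⟩
    · exact hwB (h3 ▸ h2)
    · exact hwu (h4.symm.trans h1)
  · rintro ⟨⟨h1, h2⟩, ⟨h3, h4⟩ | ⟨h3, h4⟩ | ⟨h3, h4⟩⟩
    · exact huB (h3 ▸ h2)
    · exact hwu (h3.symm.trans h1)
    · exact hwB (h4 ▸ h2)
  · rintro ⟨⟨h1, h2⟩, ⟨h3, h4⟩ | ⟨h3, h4⟩ | ⟨h3, h4⟩ | ⟨h3, h4⟩⟩
    · exact huA (h3 ▸ h2)
    · exact hwu (h1.symm.trans h3)
    · exact hwu (h1.symm.trans h4)
    · exact huA (h3 ▸ h2)
  · rintro ⟨⟨h1, h2⟩, ⟨h3, h4⟩ | ⟨h3, h4⟩ | ⟨h3, h4⟩ | ⟨h3, h4⟩ | ⟨h3, h4⟩⟩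
    · exact hwA (h3 ▸ h2)
    · exact hwu (h1.symm.trans h3)
    · exact huA (h3 ▸ h2)
    · exact huA (h4 ▸ h2)
    · exact hwu (h1.symm.trans h3)
  · rintro ⟨⟨h1, h2, h3⟩, ⟨h4, h5⟩ | ⟨h4, h5⟩ | ⟨h4, h5⟩ | ⟨h4, h5⟩ | ⟨h4, h5⟩ | ⟨h4, h5⟩⟩
    · exact hw (h4 ▸ h1)
    · exact hw (h4 ▸ h2)
    · exact hu (h4 ▸ h1)
    · exact hu (h4 ▸ h2)
    · exact hw (h4 ▸ h1)
    · exact hu (h4 ▸ h1)

omit [Fintype V] in
theorem card_B (hr : 3 ≤ r) (h : WE G N H c w u A B i0) : (B.card : ℝ) = r - 1 := by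
  classical
  have h1 := sum_card_cl B c
  rw [← Finset.add_sum_erase Finset.univ (fun i => (cl B c i).card) (Finset.mem_univ i0), h.hB0,
    Finset.card_empty, zero_add,
    Finset.sum_congr rfl fun i hi => h.hB1 i (Finset.ne_of_mem_erase hi), Finset.sum_const,
    Finset.card_erase_of_mem (Finset.mem_univ _), Finset.card_univ, Fintype.card_fin] at h1
  rw [← h1]
  simp only [smul_eq_mul, mul_one]
  rw [Nat.cast_sub (by omega), Nat.cast_one]

theorem pE_eq (hr : 3 ≤ r) (h : WE G N H c w u A B i0) :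
    pE G = (N : ℝ) ^ 2 - ∑ i, sz H c i ^ 2 + 2 * A.card + 2 * r := by
  rw [pE_ad]
  simp_rw [ad_eq h, Finset.sum_add_distrib]
  rw [sum_multi, sum_pair, sum_pair', sum_pair, sum_pair', sum_pt, sum_pt, card_B hr h, h.card]
  ring

omit [Fintype V] in
/-- the part of a clique in `H` has at most one vertex in each class -/
theorem inj_clique (h : WE G N H c w u A B i0) {s : Finset V} (hs : G.IsClique s)
    (hsH : s ⊆ H) : Set.InjOn c s := by
  intro a ha b hb hab
  by_contra hne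
  have h1 := hs ha hb hne
  rw [h.adj] at h1
  have haH := hsH ha
  have hbH := hsH hb
  have hw := h.hw
  have hu := h.hu
  rcases h1 with h1 | h1 | h1 | h1 | h1 | h1 | h1
  · exact h1.2.2 hab
  · exact hw (h1.1 ▸ haH)
  · exact hw (h1.1 ▸ hbH)
  · exact hu (h1.1 ▸ haH)
  · exact hu (h1.1 ▸ hbH)
  · exact hw (h1.1 ▸ haH)
  · exact hu (h1.1 ▸ haH)

omit [Fintype V] in
theorem adj_w (h : WE G N H c w u A B i0) {b : V} (hb : G.Adj w b) : b ∈ A ∨ b = u := by
  rw [h.adj] at hb
  rcases hb with h1 | h1 | h1 | h1 | h1 | h1 | h1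
  · exact absurd h1.1 h.hw
  · exact Or.inl h1.2
  · exact absurd (h.hA h1.2) h.hw
  · exact absurd h1.1 h.hwu
  · exact absurd (h.hB h1.2) h.hw
  · exact Or.inr h1.2
  · exact absurd h1.1 h.hwu

omit [Fintype V] in
theorem adj_u (h : WE G N H c w u A B i0) {b : V} (hb : G.Adj u b) : b ∈ B ∨ b = w := by
  rw [h.adj] at hb
  rcases hb with h1 | h1 | h1 | h1 | h1 | h1 | h1
  · exact absurd h1.1 h.hu
  · exact absurd h1.1.symm h.hwu
  · exact absurd (h.hA h1.2) h.hu
  · exact Or.inl h1.2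
  · exact absurd (h.hB h1.2) h.hu
  · exact absurd h1.1.symm h.hwu
  · exact Or.inr h1.2

omit [Fintype V] in
theorem adj_supp (h : WE G N H c w u A B i0) {a b : V} (hb : G.Adj a b) :
    a ∈ H ∨ a = w ∨ a = u := by
  rw [h.adj] at hb
  rcases hb with h1 | h1 | h1 | h1 | h1 | h1 | h1
  · exact Or.inl h1.1
  · exact Or.inr (Or.inl h1.1)
  · exact Or.inl (h.hA h1.2)
  · exact Or.inr (Or.inr h1.1)
  · exact Or.inl (h.hB h1.2)
  · exact Or.inr (Or.inl h1.1)
  · exact Or.inr (Or.inr h1.1)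

omit [Fintype V] in
/-- a clique inside a part of `H` missing the class `i0` has at most `r - 1` vertices -/
theorem card_le (h : WE G N H c w u A B i0) {s X : Finset V} (hs : G.IsClique s)
    (hX : X ⊆ H) (hX0 : cl X c i0 = ∅) (hsX : s ⊆ X) : s.card + 1 ≤ r := by
  classical
  have h1 := inj_clique h hs (hsX.trans hX)
  have h2 : (s.image c).card = s.card := Finset.card_image_of_injOn h1
  have h3 : s.image c ⊆ Finset.univ.erase i0 := by
    intro i hi
    rw [Finset.mem_image] at hi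
    obtain ⟨a, ha, rfl⟩ := hi
    refine Finset.mem_erase.2 ⟨fun h0 => ?_, Finset.mem_univ _⟩
    have : a ∈ cl X c i0 := mem_cl.2 ⟨hsX ha, h0⟩
    rw [hX0] at this
    exact Finset.notMem_empty _ this
  have h4 := Finset.card_le_card h3
  rw [h2, Finset.card_erase_of_mem (Finset.mem_univ _), Finset.card_univ, Fintype.card_fin] at h4
  have : 0 < r := Fin.pos i0
  omega

omit [Fintype V] in
theorem cliqueFree (hr : 3 ≤ r) (h : WE G N H c w u A B i0) : G.CliqueFree (r + 1) := by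
  classical
  intro s hs
  rw [SimpleGraph.isNClique_iff] at hs
  obtain ⟨hcl, hcard⟩ := hs
  have hsub : ∀ t ⊆ s, G.IsClique t := fun t ht => hcl.subset (by exact_mod_cast ht)
  have hne : ∀ a ∈ s, ∃ b, b ∈ s ∧ b ≠ a := by
    intro a ha
    have : 1 < s.card := by omega
    obtain ⟨b, hb, hba⟩ := Finset.exists_mem_ne this a
    exact ⟨b, hb, hba⟩
  have hsupp : ∀ a ∈ s, a ∈ H ∨ a = w ∨ a = u := by
    intro a ha
    obtain ⟨b, hb, hba⟩ := hne a ha
    exact adj_supp h (hcl ha hb hba.symm)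
  by_cases hw : w ∈ s
  · by_cases hu : u ∈ s
    · -- both
      set t := (s.erase w).erase u with ht
      have htc : t.card + 2 = r + 1 := by
        rw [ht, Finset.card_erase_of_mem (Finset.mem_erase.2 ⟨h.hwu.symm, hu⟩),
          Finset.card_erase_of_mem hw, hcard]
        omega
      have htA : t ⊆ A := by
        intro a ha
        rw [ht, Finset.mem_erase, Finset.mem_erase] at ha
        rcases adj_w h (hcl hw ha.2.2 (fun h' => ha.2.1 h'.symm)) with h1 | h1
        · exact h1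
        · exact absurd h1 ha.1
      have htB : t ⊆ B := by
        intro a ha
        rw [ht, Finset.mem_erase, Finset.mem_erase] at ha
        rcases adj_u h (hcl hu ha.2.2 (fun h' => ha.1 h'.symm)) with h1 | h1
        · exact h1
        · exact absurd h1 ha.2.1
      have hts : t ⊆ s := (Finset.erase_subset _ _).trans (Finset.erase_subset _ _)
      have hinj := inj_clique h (hsub t hts) (htB.trans h.hB)
      have himg : t.image c = Finset.univ.erase i0 := by
        apply Finset.eq_of_subset_of_card_le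
        · intro i hi
          rw [Finset.mem_image] at hi
          obtain ⟨a, ha, rfl⟩ := hi
          refine Finset.mem_erase.2 ⟨fun h0 => ?_, Finset.mem_univ _⟩
          have : a ∈ cl B c i0 := mem_cl.2 ⟨htB ha, h0⟩
          rw [h.hB0] at this
          exact Finset.notMem_empty _ this
        · rw [Finset.card_image_of_injOn hinj, Finset.card_erase_of_mem (Finset.mem_univ _),
            Finset.card_univ, Fintype.card_fin]
          omega
      apply h.hBA
      intro b hb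
      have hb0 : c b ≠ i0 := by
        intro h0
        have : b ∈ cl B c i0 := mem_cl.2 ⟨hb, h0⟩
        rw [h.hB0] at this
        exact Finset.notMem_empty _ this
      have hmem : c b ∈ t.image c := by
        rw [himg]; exact Finset.mem_erase.2 ⟨hb0, Finset.mem_univ _⟩
      rw [Finset.mem_image] at hmem
      obtain ⟨b', hb', hbb⟩ := hmem
      have h1 := h.hB1 (c b) hb0
      rw [Finset.card_eq_one] at h1
      obtain ⟨z, hz⟩ := h1
      have e1 : b ∈ cl B c (c b) := mem_cl.2 ⟨hb, rfl⟩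
      have e2 : b' ∈ cl B c (c b) := mem_cl.2 ⟨htB hb', hbb⟩
      rw [hz, Finset.mem_singleton] at e1 e2
      rw [e1, ← e2]
      exact htA hb'
    · -- only w
      have hsA : s.erase w ⊆ A := by
        intro a ha
        rw [Finset.mem_erase] at ha
        rcases adj_w h (hcl hw ha.2 (fun h' => ha.1 h'.symm)) with h1 | h1
        · exact h1
        · exact absurd (h1 ▸ ha.2) hu
      have := card_le h (hsub _ (Finset.erase_subset w s)) h.hA h.hA0 hsA
      rw [Finset.card_erase_of_mem hw, hcard] at this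
      omega
  · by_cases hu : u ∈ s
    · have hsB : s.erase u ⊆ B := by
        intro a ha
        rw [Finset.mem_erase] at ha
        rcases adj_u h (hcl hu ha.2 (fun h' => ha.1 h'.symm)) with h1 | h1
        · exact h1
        · exact absurd (h1 ▸ ha.2) hw
      have := card_le h (hsub _ (Finset.erase_subset u s)) h.hB h.hB0 hsB
      rw [Finset.card_erase_of_mem hu, hcard] at this
      omega
    · have hsH : s ⊆ H := by
        intro a ha
        rcases hsupp a ha with h1 | h1 | h1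
        · exact h1
        · exact absurd (h1 ▸ ha) hw
        · exact absurd (h1 ▸ ha) hu
      have h1 := inj_clique h hcl hsH
      have h2 : (s.image c).card = s.card := Finset.card_image_of_injOn h1
      have h3 := Finset.card_le_univ (s.image c)
      rw [h2, Fintype.card_fin, hcard] at h3
      omega

omit [Fintype V] in
theorem not_colorable (h : WE G N H c w u A B i0) (hne : ∀ i, 1 ≤ (cl H c i).card) :
    ¬ G.Colorable r := by
  classical
  rintro ⟨col⟩
  have hrep : ∀ i, ∃ v, v ∈ H ∧ c v = i := by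
    intro i
    obtain ⟨v, hv⟩ := Finset.card_pos.1 (hne i)
    exact ⟨v, mem_cl.1 hv⟩
  choose f hfH hfc using hrep
  have hadj : ∀ a b, a ∈ H → b ∈ H → c a ≠ c b → G.Adj a b :=
    fun a b ha hb hab => (h.adj a b).2 (Or.inl ⟨ha, hb, hab⟩)
  have hinj : Function.Injective (fun i => col (f i)) := by
    intro i k hik
    by_contra hne
    exact col.valid (hadj (f i) (f k) (hfH i) (hfH k) (by rw [hfc, hfc]; exact hne)) hik
  have hsurj : Function.Surjective (fun i => col (f i)) := Finite.surjective_of_injective hinj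
  have hcls : ∀ v ∈ H, col v = col (f (c v)) := by
    intro v hv
    obtain ⟨k, hk⟩ := hsurj (col v)
    simp only at hk
    by_cases hkv : k = c v
    · rw [← hk, hkv]
    · exfalso
      exact col.valid (hadj (f k) v (hfH k) hv (by rw [hfc]; exact hkv)) hk
  have hw : col w = col (f i0) := by
    obtain ⟨k, hk⟩ := hsurj (col w)
    simp only at hk
    by_cases hk0 : k = i0
    · rw [← hk, hk0]
    · exfalso
      obtain ⟨a, ha⟩ := h.hAne k hk0
      rw [mem_cl] at ha
      have h1 : G.Adj w a := (h.adj w a).2 (Or.inr (Or.inl ⟨rfl, ha.1⟩))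
      apply col.valid h1
      rw [hcls a (h.hA ha.1), ha.2, hk]
  have hu : col u = col (f i0) := by
    obtain ⟨k, hk⟩ := hsurj (col u)
    simp only at hk
    by_cases hk0 : k = i0
    · rw [← hk, hk0]
    · exfalso
      have h0 := h.hB1 k hk0
      obtain ⟨a, ha⟩ : (cl B c k).Nonempty := Finset.card_pos.1 (by omega)
      rw [mem_cl] at ha
      have h1 : G.Adj u a :=
        (h.adj u a).2 (Or.inr (Or.inr (Or.inr (Or.inl ⟨rfl, ha.1⟩))))
      apply col.valid h1
      rw [hcls a (h.hB ha.1), ha.2, hk]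
  have h1 : G.Adj w u :=
    (h.adj w u).2 (Or.inr (Or.inr (Or.inr (Or.inr (Or.inr (Or.inl ⟨rfl, rfl⟩))))))
  exact col.valid h1 (hw.trans hu.symm)

end

end GE

theorem blk_GE : Stmt_GE := by
  intro r hr V _ G N H c w u A B i0 h
  exact ⟨GE.cliqueFree hr h, GE.not_colorable h, GE.pE_eq hr h⟩

end Pool.Agent.Work.MP_5532fa_up
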