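import Pool.Agent.Work.MP_5532fa_up.Interface

/-!
# MP_5532fa_co, block GRD (helper83): greedy choice of a transversal clique
-/

set_option autoImplicit false

open Finset

namespace Pool.Agent.Work.MP_5532fa_up

theorem blk_GRD : Stmt_GRD := by
  classical
  intro ι V _ _ G A wt κ hwt hκ hA hbig
  have hne : ∀ i, (A i).Nonempty := by
    intro i
    rw [nonempty_iff_ne_empty]
    intro h
    have h1 := hbig i
    rw [h, sum_empty] at h1
    exact absurd h1 (not_lt.mpr (mul_nonneg (Nat.cast_nonneg _) hκ))
  have key : ∀ s : Finset ι, ∃ f : ι → V, (∀ i, f i ∈ A i) ∧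
      ∀ i ∈ s, ∀ k ∈ s, i ≠ k → G.Adj (f i) (f k) := by
    intro s
    induction s using Finset.induction_on with
    | empty =>
      choose f hf using hne
      exact ⟨f, hf, fun i hi => absurd hi (notMem_empty _)⟩
    | insert a s ha ih =>
      obtain ⟨f, hf, hadj⟩ := ih
      obtain ⟨u, hu, hu2⟩ : ∃ u ∈ A a, ∀ i ∈ s, G.Adj (f i) u := by
        by_contra hcon
        push Not at hcon
        have h1 : ∑ u ∈ A a, wt u ≤ ∑ u ∈ A a, ∑ i ∈ s, chi (¬ G.Adj (f i) u) * wt u := by
          apply sum_le_sum
          intro u hu
          obtain ⟨i, hi, hi2⟩ := hcon u hu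
          calc wt u = chi (¬ G.Adj (f i) u) * wt u := by rw [chi_pos hi2, one_mul]
            _ ≤ _ := single_le_sum (f := fun i => chi (¬ G.Adj (f i) u) * wt u)
              (fun j _ => mul_nonneg (chi_nonneg _) (hwt u)) hi
        rw [sum_comm] at h1
        have h2 : ∑ i ∈ s, ∑ u ∈ A a, chi (¬ G.Adj (f i) u) * wt u ≤ ∑ i ∈ s, κ := by
          apply sum_le_sum
          intro i hi
          apply hA i a _ (f i) (hf i)
          rintro rfl
          exact ha hi
        rw [sum_const, nsmul_eq_mul] at h2
        have h3 : ((s.card : ℕ) : ℝ) * κ ≤ (Fintype.card ι : ℝ) * κ :=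
          mul_le_mul_of_nonneg_right (by exact_mod_cast card_le_univ s) hκ
        have h4 := hbig a
        linarith
      have es : ∀ i ∈ s, Function.update f a u i = f i := by
        intro i hi
        apply Function.update_of_ne
        rintro rfl
        exact ha hi
      have ea : Function.update f a u a = u := Function.update_self _ _ _
      refine ⟨Function.update f a u, ?_, ?_⟩
      · intro i
        by_cases h : i = a
        · subst h
          rw [ea]
          exact hu
        · rw [Function.update_of_ne h]
          exact hf i
      · intro i hi k hk hik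
        rcases mem_insert.mp hi with rfl | hi'
        · rcases mem_insert.mp hk with rfl | hk'
          · exact absurd rfl hik
          · rw [ea, es k hk']
            exact (hu2 k hk').symm
        · rcases mem_insert.mp hk with rfl | hk'
          · rw [ea, es i hi']
            exact hu2 i hi'
          · rw [es i hi', es k hk']
            exact hadj i hi' k hk' hik
  obtain ⟨f, hf, hadj⟩ := key univ
  exact ⟨f, hf, fun i k hik => hadj i (mem_univ _) k (mem_univ _) hik⟩

end Pool.Agent.Work.MP_5532fa_up
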