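import Pool.Agent.Work.MP_5532fa_up.Interface

/-! Block HSET (helper30). -/

open Finset

namespace Pool.Agent.Work.MP_5532fa_up

open MP5532fa (specRad qf pE)

namespace HSET

/-- a transversal clique as a finite set -/
theorem nclique {ι V : Type} [Fintype ι] [DecidableEq V] (G : SimpleGraph V) (f : ι → V)
    (hf : ∀ i k, i ≠ k → G.Adj (f i) (f k)) :
    G.IsNClique (Fintype.card ι) (univ.image f) := by
  rw [SimpleGraph.isNClique_iff]
  constructor
  · intro a ha b hb hab
    rw [Finset.coe_image, Set.mem_image] at ha hb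
    obtain ⟨i, _, rfl⟩ := ha
    obtain ⟨k, _, rfl⟩ := hb
    exact hf i k (fun h => hab (by rw [h]))
  · rw [Finset.card_image_of_injective, Finset.card_univ]
    intro i k hik
    by_contra h
    exact (hf i k h).ne hik

variable {V : Type} [Fintype V] {r : ℕ}

omit [Fintype V] in
theorem dg_sum (G : SimpleGraph V) (T : Finset V) (c : V → Fin r) (v : V) :
    dg G T v = ∑ j, (nb G (cl T c j) v).card := by
  classical
  unfold dg
  rw [Finset.card_eq_sum_card_fiberwise (s := nb G T v) (t := (univ : Finset (Fin r))) (f := c)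
    (fun _ _ => Finset.mem_coe.mpr (Finset.mem_univ _))]
  refine Finset.sum_congr rfl fun j _ => ?_
  congr 1
  ext w
  rw [Finset.mem_filter, mem_nb, mem_nb, mem_cl]
  tauto

omit [Fintype V] in
theorem nb_add_nn (G : SimpleGraph V) (S : Finset V) (v : V) :
    (nb G S v).card + (nn G S v).card = S.card := by
  classical
  unfold nb nn
  exact Finset.card_filter_add_card_filter_not _

theorem core (hG : Stmt_GRD) (hr : 3 ≤ r) {η C : ℝ} (hη0 : 0 < η) (hη : η ≤ 1 / (8 * r))
    (hC : 1 ≤ C) (G : SimpleGraph V) (x : V → ℝ) (lam t : ℝ) (c : V → Fin r) (T : Finset V)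
    (hfree : G.CliqueFree (r + 1)) (ht : 0 < t)
    (hl1 : lam * t ≤ al r) (hl2 : 1 / 2 ≤ lam * t)
    (hnear : ∀ v ∈ T, (1 - η) * √t ≤ x v)
    (hrest : ∑ v ∈ out T, x v ^ 2 ≤ C * t)
    (hind : ∀ u ∈ T, ∀ v ∈ T, c u = c v → ¬ G.Adj u v)
    (hfew : ∀ v ∈ T, ∀ i, i ≠ c v → ((nn G (cl T c i) v).card : ℝ) ≤ η / (4 * r) / t)
    (hcardT : (T.card : ℝ) ≤ 2 / t)
    (hmis : (mis G T c : ℝ) ≤ C / t) (heout : (eo G T : ℝ) ≤ C / t)
    (hsize : ∀ i, |((r : ℝ) - 1) * sz T c i - lam| ≤ C / √t)
    (hall : ∀ v, |lam * x v - √t * dg G T v| ≤ C)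
    (hmin : ∀ v, ∃ i, ((nb G (cl T c i) v).card : ℝ) ≤ C / √t)
    (hsm : (100 * r * C) ^ 2 * t ≤ 1) :
    ∃ (c' : V → Fin r) (H : Finset V), HD r η ((100 * r * C) ^ 2) G x lam t c' H := by
  classical
  have hr3 : (3 : ℝ) ≤ r := by exact_mod_cast hr
  have hr0 : (0 : ℝ) < r := by linarith
  obtain ⟨s, hs⟩ : ∃ s, s = √t := ⟨_, rfl⟩
  have hs0 : 0 < s := by rw [hs]; exact Real.sqrt_pos.mpr ht
  have hss : s * s = t := by rw [hs]; exact Real.mul_self_sqrt ht.le
  obtain ⟨u, hu⟩ : ∃ u, u = 1 / s := ⟨_, rfl⟩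
  have hus : u * s = 1 := by rw [hu]; field_simp
  have hu0 : 0 < u := by rw [hu]; positivity
  have hdivs : ∀ a : ℝ, a / s = a * u := by intro a; rw [hu]; ring
  have hdivt : ∀ a : ℝ, a / t = a * u ^ 2 := by
    intro a
    rw [← hss, hu]
    field_simp
  rw [← hs] at hnear hsize hall hmin
  simp only [hdivs] at hsize hmin
  rw [hdivt] at hcardT hmis heout
  simp only [hdivt] at hfew
  have hut : u ^ 2 * t = 1 := by rw [← hss]; linear_combination (u * s + 1) * hus
  have hal1 : al r < 1 := al_lt hr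
  have hrC : 300 ≤ 100 * r * C := by
    have h1 : 3 * 1 ≤ (r : ℝ) * C := mul_le_mul hr3 hC zero_le_one hr0.le
    linarith
  have hularge : 100 * r * C ≤ u := by
    by_contra hcon
    push Not at hcon
    have h1 : u ^ 2 < (100 * r * C) ^ 2 := pow_lt_pow_left₀ hcon hu0.le two_ne_zero
    have h2 : u ^ 2 * t < (100 * r * C) ^ 2 * t := mul_lt_mul_of_pos_right h1 ht
    linarith
  have hs1 : s ≤ 1 := by
    have h1 : 1 ≤ u := by linarith
    have h2 : 1 * s ≤ u * s := mul_le_mul_of_nonneg_right h1 hs0.le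
    linarith
  -- bounds of `lam`
  have hlam1 : lam ≤ u ^ 2 := by
    have h1 : lam * t * u ^ 2 ≤ 1 * u ^ 2 :=
      mul_le_mul_of_nonneg_right (hl1.trans hal1.le) (by positivity)
    have h2 : lam * t * u ^ 2 = lam := by linear_combination lam * hut
    linarith
  have hlam2 : u ^ 2 / 2 ≤ lam := by
    have h1 : 1 / 2 * u ^ 2 ≤ lam * t * u ^ 2 := mul_le_mul_of_nonneg_right hl2 (by positivity)
    have h2 : lam * t * u ^ 2 = lam := by linear_combination lam * hut
    linarith
  have hlam0 : 0 < lam := by linarith [pow_pos hu0 2]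
  have hη1 : η ≤ 1 / 24 := by
    refine hη.trans ?_
    apply one_div_le_one_div_of_le (by norm_num)
    linarith
  have hη2 : (r : ℝ) * η ≤ 1 / 8 := by
    have h1 : (r : ℝ) * η ≤ r * (1 / (8 * r)) := mul_le_mul_of_nonneg_left hη hr0.le
    have h2 : (r : ℝ) * (1 / (8 * r)) = 1 / 8 := by field_simp
    linarith
  -- the new classes
  choose i0 hi0 using hmin
  obtain ⟨c', hc'⟩ : ∃ c' : V → Fin r, c' = fun v => if v ∈ T then c v else i0 v := ⟨_, rfl⟩
  have hc'T : ∀ v ∈ T, c' v = c v := by
    intro v hv; rw [hc']; exact if_pos hv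
  have hnbc : ∀ v, ((nb G (cl T c (c' v)) v).card : ℝ) ≤ C * u := by
    intro v
    by_cases hv : v ∈ T
    · have : nb G (cl T c (c' v)) v = ∅ := by
        rw [Finset.eq_empty_iff_forall_notMem]
        intro w hw
        rw [mem_nb, mem_cl, hc'T v hv] at hw
        exact hind v hv w hw.1.1 hw.1.2.symm hw.2
      rw [this, Finset.card_empty, Nat.cast_zero]
      positivity
    · have : c' v = i0 v := by rw [hc']; exact if_neg hv
      rw [this]
      exact hi0 v
  obtain ⟨n, hn⟩ : ∃ n : Fin r → ℝ, n = fun j => sz T c j := ⟨_, rfl⟩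
  have hnj : ∀ j, sz T c j = n j := by intro j; rw [hn]
  have hncard : ∀ j, ((cl T c j).card : ℝ) = n j := by intro j; rw [hn]; rfl
  simp only [hnj] at hsize
  have hn1 : ∀ j, ((r : ℝ) - 1) * n j ≤ lam + C * u := fun j => by
    have := (abs_le.mp (hsize j)).2
    linarith
  have hn2 : ∀ j, lam - C * u ≤ ((r : ℝ) - 1) * n j := fun j => by
    have := (abs_le.mp (hsize j)).1
    linarith
  have hsumn : ∀ i, ∑ j ∈ univ.erase i, n j ≤ lam + C * u := by
    intro i
    have h1 : ((r : ℝ) - 1) * ∑ j ∈ univ.erase i, n j ≤ ((r : ℝ) - 1) * (lam + C * u) := by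
      rw [Finset.mul_sum]
      refine (Finset.sum_le_sum fun j _ => hn1 j).trans ?_
      rw [Finset.sum_const, Finset.card_erase_of_mem (Finset.mem_univ i), Finset.card_univ,
        Fintype.card_fin, nsmul_eq_mul, Nat.cast_sub (by omega)]
      push_cast
      exact le_refl _
    exact le_of_mul_le_mul_left h1 (by linarith)
  have hdg : ∀ v, (dg G T v : ℝ) = ((nb G (cl T c (c' v)) v).card : ℝ) +
      ∑ j ∈ univ.erase (c' v), ((nb G (cl T c j) v).card : ℝ) := by
    intro v
    rw [dg_sum G T c v]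
    push_cast
    rw [← Finset.add_sum_erase _ _ (Finset.mem_univ (c' v))]
  have hnbn : ∀ v j, ((nb G (cl T c j) v).card : ℝ) + ((nn G (cl T c j) v).card : ℝ) = n j := by
    intro v j
    rw [← hncard j, ← nb_add_nn G (cl T c j) v]
    push_cast
    rfl
  have hdgup : ∀ v, (dg G T v : ℝ) ≤ lam + 2 * (C * u) := by
    intro v
    have h1 : ∑ j ∈ univ.erase (c' v), ((nb G (cl T c j) v).card : ℝ) ≤
        ∑ j ∈ univ.erase (c' v), n j := by
      refine Finset.sum_le_sum fun j _ => ?_
      have := hnbn v j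
      have h2 : (0 : ℝ) ≤ ((nn G (cl T c j) v).card : ℝ) := Nat.cast_nonneg _
      linarith
    rw [hdg v]
    have := hsumn (c' v)
    have := hnbc v
    linarith
  -- the heavy vertices
  obtain ⟨H, hH⟩ : ∃ H : Finset V, H = univ.filter (fun v => (1 - η) * s ≤ x v) := ⟨_, rfl⟩
  have memH : ∀ v, v ∈ H ↔ (1 - η) * s ≤ x v := by intro v; rw [hH]; simp
  have hTH : T ⊆ H := fun v hv => (memH v).mpr (hnear v hv)
  have hdglow : ∀ v ∈ H, (1 - η) * lam - C * u ≤ (dg G T v : ℝ) := by
    intro v hv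
    have h1 := (memH v).mp hv
    have h2 := (abs_le.mp (hall v)).2
    have h3 : lam * ((1 - η) * s) ≤ lam * x v := mul_le_mul_of_nonneg_left h1 hlam0.le
    have h4 : lam * ((1 - η) * s) - C ≤ s * dg G T v := by linarith
    have h5 : u * (lam * ((1 - η) * s) - C) ≤ u * (s * dg G T v) :=
      mul_le_mul_of_nonneg_left h4 hu0.le
    have h6 : u * (s * dg G T v) = dg G T v := by linear_combination (dg G T v : ℝ) * hus
    have h7 : u * (lam * ((1 - η) * s) - C) = (1 - η) * lam - C * u := by
      linear_combination (lam * (1 - η)) * hus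
    linarith
  have hmiss : ∀ v ∈ H, ∀ j, j ≠ c' v →
      ((nn G (cl T c j) v).card : ℝ) ≤ η * lam + 3 * (C * u) := by
    intro v hv j hj
    have h1 : ((nn G (cl T c j) v).card : ℝ) ≤
        ∑ k ∈ univ.erase (c' v), ((nn G (cl T c k) v).card : ℝ) :=
      Finset.single_le_sum (f := fun k => ((nn G (cl T c k) v).card : ℝ))
        (fun k _ => Nat.cast_nonneg _) (Finset.mem_erase.mpr ⟨hj, Finset.mem_univ j⟩)
    have h2 : ∑ k ∈ univ.erase (c' v), ((nn G (cl T c k) v).card : ℝ) =
        ∑ k ∈ univ.erase (c' v), n k -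
          ∑ k ∈ univ.erase (c' v), ((nb G (cl T c k) v).card : ℝ) := by
      rw [← Finset.sum_sub_distrib]
      refine Finset.sum_congr rfl fun k _ => ?_
      have := hnbn v k
      linarith
    have h3 := hsumn (c' v)
    have h4 := hdglow v hv
    have h5 := hdg v
    have h6 := hnbc v
    linarith
  -- independence
  have hindH : ∀ a ∈ H, ∀ b ∈ H, c' a = c' b → ¬ G.Adj a b := by
    intro a ha b hb hab hadj
    obtain ⟨i, hi⟩ : ∃ i, i = c' a := ⟨_, rfl⟩
    rw [← hi] at hab
    obtain ⟨f, hfA, hfadj⟩ := hG {j : Fin r // j ≠ i} V G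
      (fun j => nb G (nb G (cl T c j.1) a) b) (fun _ => 1) (η / (4 * r) * u ^ 2)
      (fun _ => zero_le_one) (by positivity) (by
        intro j k hjk w hw
        rw [mem_nb, mem_nb, mem_cl] at hw
        have hwT := hw.1.1.1
        have hwc := hw.1.1.2
        have hk : k.1 ≠ c w := by
          rw [hwc]
          intro h
          exact hjk (Subtype.ext h.symm)
        refine le_trans ?_ (hfew w hwT k.1 hk)
        have h2 : ∑ y ∈ nb G (nb G (cl T c k.1) a) b, chi (¬ G.Adj w y) * 1 =
            (((nb G (nb G (cl T c k.1) a) b).filter (fun y => ¬ G.Adj w y)).card : ℝ) := by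
          rw [Finset.card_filter]
          push_cast
          refine Finset.sum_congr rfl fun y _ => ?_
          rw [mul_one]
          by_cases h : G.Adj w y
          · rw [chi_neg (not_not.mpr h), if_neg (not_not.mpr h)]
          · rw [chi_pos h, if_pos h]
        rw [h2]
        have h3 : ((nb G (nb G (cl T c k.1) a) b).filter (fun y => ¬ G.Adj w y)) ⊆
            nn G (cl T c k.1) w := by
          intro y hy
          rw [Finset.mem_filter, mem_nb, mem_nb] at hy
          rw [mem_nn]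
          exact ⟨hy.1.1.1, hy.2⟩
        exact_mod_cast Finset.card_le_card h3) (by
        intro j
        rw [Finset.sum_const, nsmul_eq_mul, mul_one]
        have hcι : (Fintype.card {j : Fin r // j ≠ i} : ℝ) = (r : ℝ) - 1 := by
          have : Fintype.card {j : Fin r // j ≠ i} = r - 1 := by
            rw [Fintype.card_subtype_compl, Fintype.card_fin, Fintype.card_subtype_eq]
          rw [this, Nat.cast_sub (by omega)]
          push_cast; rfl
        rw [hcι]
        -- size of the common neighbourhood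
        have h1 : n j.1 ≤ ((nb G (nb G (cl T c j.1) a) b).card : ℝ) +
            ((nn G (cl T c j.1) a).card : ℝ) + ((nn G (cl T c j.1) b).card : ℝ) := by
          rw [← hncard]
          have h2 : cl T c j.1 ⊆ nb G (nb G (cl T c j.1) a) b ∪ nn G (cl T c j.1) a ∪
              nn G (cl T c j.1) b := by
            intro w hw
            rw [Finset.mem_union, Finset.mem_union, mem_nb, mem_nb, mem_nn, mem_nn]
            by_cases h3 : G.Adj a w
            · by_cases h4 : G.Adj b w
              · exact Or.inl (Or.inl ⟨⟨hw, h3⟩, h4⟩)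
              · exact Or.inr ⟨hw, h4⟩
            · exact Or.inl (Or.inr ⟨hw, h3⟩)
          have h3 := (Finset.card_le_card h2).trans ((Finset.card_union_le _ _).trans
            (Nat.add_le_add_right (Finset.card_union_le _ _) _))
          exact_mod_cast h3
        have h2 := hmiss a ha j.1 (by rw [← hi]; exact j.2)
        have h3 := hmiss b hb j.1 (by rw [← hab]; exact j.2)
        have h4 := hn2 j.1
        have hr1 : (0 : ℝ) < (r : ℝ) - 1 := by linarith
        -- multiply by `r - 1`
        have h5 : ((r : ℝ) - 1) * n j.1 ≤ ((r : ℝ) - 1) *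
            (((nb G (nb G (cl T c j.1) a) b).card : ℝ) + 2 * (η * lam + 3 * (C * u))) :=
          mul_le_mul_of_nonneg_left (by linarith) hr1.le
        have h6 : ((r : ℝ) - 1) * (((r : ℝ) - 1) * (η / (4 * r) * u ^ 2)) ≤ u ^ 2 / 32 := by
          have e1 : ((r : ℝ) - 1) * (((r : ℝ) - 1) * (η / (4 * r) * u ^ 2)) =
              (((r : ℝ) - 1) / r) * (((r : ℝ) - 1) * η) * (u ^ 2 / 4) := by
            field_simp
          have e2 : ((r : ℝ) - 1) / r ≤ 1 := by
            rw [div_le_one hr0]; linarith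
          have e2' : 0 ≤ ((r : ℝ) - 1) / r := by positivity
          have e3 : ((r : ℝ) - 1) * η ≤ 1 / 8 := by linarith
          have e3' : 0 ≤ ((r : ℝ) - 1) * η := by positivity
          have e4 : ((r : ℝ) - 1) / r * (((r : ℝ) - 1) * η) ≤ 1 * (1 / 8) :=
            mul_le_mul e2 e3 e3' zero_le_one
          rw [e1]
          have e5 : ((r : ℝ) - 1) / r * (((r : ℝ) - 1) * η) * (u ^ 2 / 4) ≤
              1 * (1 / 8) * (u ^ 2 / 4) := mul_le_mul_of_nonneg_right e4 (by positivity)
          linarith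
        have h7 : ((r : ℝ) - 1) * (2 * (η * lam + 3 * (C * u))) ≤ lam / 4 + 6 * r * (C * u) := by
          have e3 : ((r : ℝ) - 1) * η ≤ 1 / 8 := by linarith
          have e4 : ((r : ℝ) - 1) * η * lam ≤ 1 / 8 * lam :=
            mul_le_mul_of_nonneg_right e3 hlam0.le
          have e5 : 0 < C * u := by positivity
          linarith
        have h8 : 7 * r * (C * u) ≤ 7 / 100 * u ^ 2 := by
          have : 100 * r * C * u ≤ u * u := mul_le_mul_of_nonneg_right hularge hu0.le
          linarith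
        have h9 : C * u ≤ r * (C * u) := by
          have : 0 < C * u := by positivity
          have h10 : 1 * (C * u) ≤ r * (C * u) :=
            mul_le_mul_of_nonneg_right (by linarith) this.le
          linarith
        have h10 : ((r : ℝ) - 1) * (((r : ℝ) - 1) * (η / (4 * r) * u ^ 2)) <
            ((r : ℝ) - 1) * ((nb G (nb G (cl T c j.1) a) b).card : ℝ) := by
          linarith [pow_pos hu0 2]
        exact lt_of_mul_lt_mul_left h10 hr1.le)
    have hcl := nclique G f hfadj
    have hcι : Fintype.card {j : Fin r // j ≠ i} = r - 1 := by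
      rw [Fintype.card_subtype_compl, Fintype.card_fin, Fintype.card_subtype_eq]
    rw [hcι] at hcl
    have h1 : ∀ w ∈ univ.image f, G.Adj b w := by
      intro w hw
      rw [Finset.mem_image] at hw
      obtain ⟨j, _, rfl⟩ := hw
      have := hfA j
      rw [mem_nb] at this
      exact this.2
    have h2 := hcl.insert h1
    have h3 : ∀ w ∈ insert b (univ.image f), G.Adj a w := by
      intro w hw
      rw [Finset.mem_insert] at hw
      rcases hw with rfl | hw
      · exact hadj
      · rw [Finset.mem_image] at hw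
        obtain ⟨j, _, rfl⟩ := hw
        have := hfA j
        rw [mem_nb, mem_nb] at this
        exact this.1.2
    have h4 := h2.insert h3
    have h5 : r - 1 + 1 + 1 = r + 1 := by omega
    rw [h5] at h4
    exact hfree _ h4
  -- few heavy vertices outside `T`
  have hHT : ((H \ T).card : ℝ) ≤ 2 * C := by
    have h1 : ((H \ T).card : ℝ) * (t / 2) ≤ C * t := by
      refine le_trans ?_ hrest
      calc ((H \ T).card : ℝ) * (t / 2) = ∑ v ∈ H \ T, t / 2 := by
            rw [Finset.sum_const, nsmul_eq_mul]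
        _ ≤ ∑ v ∈ H \ T, x v ^ 2 := by
            refine Finset.sum_le_sum fun v hv => ?_
            rw [Finset.mem_sdiff] at hv
            have h2 := (memH v).mp hv.1
            have h3 : 0 ≤ (1 - η) * s := mul_nonneg (by linarith) hs0.le
            have h4 : ((1 - η) * s) ^ 2 ≤ x v ^ 2 := pow_le_pow_left₀ h3 h2 2
            have h5 : t / 2 ≤ ((1 - η) * s) ^ 2 := by
              have e1 : ((1 - η) * s) ^ 2 = (1 - η) ^ 2 * t := by rw [← hss]; ring
              rw [e1]
              have e2 : 1 / 2 ≤ (1 - η) ^ 2 := by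
                clear * - hη0 hη1
                nlinarith
              have e3 : 1 / 2 * t ≤ (1 - η) ^ 2 * t := mul_le_mul_of_nonneg_right e2 ht.le
              linarith
            linarith
        _ ≤ ∑ v ∈ out T, x v ^ 2 := by
            apply Finset.sum_le_sum_of_subset_of_nonneg
            · intro v hv
              rw [Finset.mem_sdiff] at hv
              exact mem_out.mpr hv.2
            · intro v _ _; positivity
    have h2 : ((H \ T).card : ℝ) * (t / 2) ≤ 2 * C * (t / 2) := by linarith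
    exact le_of_mul_le_mul_right h2 (by positivity)
  have hHcard : (H.card : ℝ) ≤ 2 * u ^ 2 + 2 * C := by
    have h1 : H.card = (H \ T).card + T.card := by
      rw [Finset.card_sdiff_add_card_eq_card hTH]
    rw [h1]
    push_cast
    linarith
  have hu2 : 1 ≤ u ^ 2 := by
    have : 1 ≤ u := by linarith
    exact one_le_pow₀ this
  have hKbig : 10000 * C ^ 2 ≤ (100 * r * C) ^ 2 := by
    have : (100 * r * C) ^ 2 = 10000 * C ^ 2 * r ^ 2 := by ring
    rw [this]
    have h1 : (1 : ℝ) ≤ r ^ 2 := one_le_pow₀ (by linarith)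
    have h2 : (0 : ℝ) ≤ 10000 * C ^ 2 := by positivity
    have h3 := mul_le_mul_of_nonneg_left h1 h2
    linarith
  have hC2 : C ≤ C ^ 2 := by
    have := mul_le_mul_of_nonneg_right hC (show (0 : ℝ) ≤ C by linarith)
    linarith
  have houtHT : out H ⊆ out T := by
    intro v hv
    rw [mem_out] at hv ⊢
    exact fun h => hv (hTH h)
  refine ⟨c', H, ht, hl1, hl2, ?_, ?_, hindH, ?_, ?_, ?_, ?_, ?_, ?_⟩
  · intro v hv
    rw [← hs]
    exact (memH v).mp hv
  · intro v hv
    rw [← hs]
    by_contra hcon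
    push Not at hcon
    exact hv ((memH v).mpr hcon)
  · -- xmax
    intro v
    rw [← hs]
    have h1 := (abs_le.mp (hall v)).2
    have h2 := hdgup v
    have h3 : s * dg G T v ≤ s * (lam + 2 * (C * u)) := mul_le_mul_of_nonneg_left h2 hs0.le
    have h4 : s * (lam + 2 * (C * u)) = s * lam + 2 * C := by linear_combination (2 * C) * hus
    have h5 : lam * x v ≤ s * lam + 3 * C := by linarith
    have h6 : 3 * C ≤ lam * (6 * C * s ^ 2) := by
      have e1 : lam * (6 * C * s ^ 2) = 6 * C * (lam * t) := by rw [← hss]; ring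
      rw [e1]
      have e2 := mul_le_mul_of_nonneg_left hl2 (show (0 : ℝ) ≤ 6 * C by linarith)
      linarith
    have h7 : lam * x v ≤ lam * (s + 6 * C * s ^ 2) := by linarith
    have h8 := le_of_mul_le_mul_left h7 hlam0
    have h9 : 6 * C * s ^ 2 ≤ s * ((100 * r * C) ^ 2 * s) := by
      have : 6 * C ≤ (100 * r * C) ^ 2 := by linarith
      have h10 := mul_le_mul_of_nonneg_right this (pow_pos hs0 2).le
      linarith
    linarith
  · -- mis
    rw [hdivt]
    have h1 : mis G H c' ≤ mis G T c + 2 * ((H \ T).card * H.card) := by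
      unfold mis
      have h2 : ((H ×ˢ H).filter (fun e => c' e.1 ≠ c' e.2 ∧ ¬ G.Adj e.1 e.2)) ⊆
          ((T ×ˢ T).filter (fun e => c e.1 ≠ c e.2 ∧ ¬ G.Adj e.1 e.2)) ∪
            ((H \ T) ×ˢ H ∪ H ×ˢ (H \ T)) := by
        rintro ⟨a, b⟩ hab
        simp only [Finset.mem_filter, Finset.mem_product] at hab
        simp only [Finset.mem_union, Finset.mem_filter, Finset.mem_product, Finset.mem_sdiff]
        by_cases ha : a ∈ T
        · by_cases hb : b ∈ T
          · left
            rw [hc'T a ha, hc'T b hb] at hab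
            exact ⟨⟨ha, hb⟩, hab.2⟩
          · right; right
            exact ⟨hab.1.1, hab.1.2, hb⟩
        · right; left
          exact ⟨⟨hab.1.1, ha⟩, hab.1.2⟩
      refine (Finset.card_le_card h2).trans ?_
      refine (Finset.card_union_le _ _).trans ?_
      apply Nat.add_le_add_left
      refine (Finset.card_union_le _ _).trans ?_
      rw [Finset.card_product, Finset.card_product, mul_comm H.card]
      omega
    have h2 : (mis G H c' : ℝ) ≤ mis G T c + 2 * (((H \ T).card : ℝ) * H.card) := by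
      exact_mod_cast h1
    have h3 : ((H \ T).card : ℝ) * H.card ≤ 2 * C * (2 * u ^ 2 + 2 * C) :=
      mul_le_mul hHT hHcard (Nat.cast_nonneg _) (by linarith)
    have h4 : (mis G H c' : ℝ) ≤ C * u ^ 2 + 2 * (2 * C * (2 * u ^ 2 + 2 * C)) := by linarith
    have h5 : C * u ^ 2 + 2 * (2 * C * (2 * u ^ 2 + 2 * C)) ≤ 10000 * C ^ 2 * u ^ 2 := by
      have e1 : C * u ^ 2 ≤ C ^ 2 * u ^ 2 := mul_le_mul_of_nonneg_right hC2 (by positivity)
      have e2 : C ^ 2 * 1 ≤ C ^ 2 * u ^ 2 :=
        mul_le_mul_of_nonneg_left hu2 (by positivity)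
      linarith [pow_pos hu0 2]
    have h6 : 10000 * C ^ 2 * u ^ 2 ≤ (100 * r * C) ^ 2 * u ^ 2 :=
      mul_le_mul_of_nonneg_right hKbig (by positivity)
    linarith
  · -- eout
    rw [hdivt]
    have h1 : eo G H ≤ eo G T := by
      unfold eo
      apply Finset.card_le_card
      intro e he
      rw [Finset.mem_filter] at he ⊢
      exact ⟨he.1, he.2.1, fun h => he.2.2 (hTH h)⟩
    have h2 : (eo G H : ℝ) ≤ eo G T := by exact_mod_cast h1
    have h3 : C * u ^ 2 ≤ (100 * r * C) ^ 2 * u ^ 2 := by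
      apply mul_le_mul_of_nonneg_right _ (by positivity)
      linarith
    linarith
  · -- rest
    have h1 : ∑ v ∈ out H, x v ^ 2 ≤ ∑ v ∈ out T, x v ^ 2 :=
      Finset.sum_le_sum_of_subset_of_nonneg houtHT (fun v _ _ => by positivity)
    have h3 : C * t ≤ (100 * r * C) ^ 2 * t := by
      apply mul_le_mul_of_nonneg_right _ ht.le
      linarith
    linarith
  · -- all
    intro v
    rw [← hs]
    have h1 : dg G T v ≤ dg G H v := by
      unfold dg
      apply Finset.card_le_card
      intro w hw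
      rw [mem_nb] at hw ⊢
      exact ⟨hTH hw.1, hw.2⟩
    have h2 : dg G H v ≤ dg G T v + (H \ T).card := by
      unfold dg
      have : nb G H v ⊆ nb G T v ∪ (H \ T) := by
        intro w hw
        rw [mem_nb] at hw
        rw [Finset.mem_union, mem_nb, Finset.mem_sdiff]
        by_cases h : w ∈ T
        · exact Or.inl ⟨h, hw.2⟩
        · exact Or.inr ⟨hw.1, h⟩
      exact (Finset.card_le_card this).trans (Finset.card_union_le _ _)
    have h1' : (dg G T v : ℝ) ≤ dg G H v := by exact_mod_cast h1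
    have h2' : (dg G H v : ℝ) ≤ dg G T v + 2 * C := by
      have : (dg G H v : ℝ) ≤ dg G T v + (H \ T).card := by exact_mod_cast h2
      linarith
    have h3 := abs_le.mp (hall v)
    have h4 : s * dg G T v ≤ s * dg G H v := mul_le_mul_of_nonneg_left h1' hs0.le
    have h5 : s * dg G H v ≤ s * dg G T v + 2 * C := by
      have e1 : s * dg G H v ≤ s * (dg G T v + 2 * C) := mul_le_mul_of_nonneg_left h2' hs0.le
      have e2 : s * (2 * C) ≤ 1 * (2 * C) := mul_le_mul_of_nonneg_right hs1 (by linarith)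
      linarith
    have h6 : 3 * C ≤ (100 * r * C) ^ 2 := by linarith
    rw [abs_le]
    constructor <;> linarith [h3.1, h3.2]
  · -- size
    intro i
    rw [← hs, hdivs]
    have h1 : (cl T c i).card ≤ (cl H c' i).card := by
      apply Finset.card_le_card
      intro w hw
      rw [mem_cl] at hw ⊢
      exact ⟨hTH hw.1, by rw [hc'T w hw.1]; exact hw.2⟩
    have h2 : (cl H c' i).card ≤ (cl T c i).card + (H \ T).card := by
      have : cl H c' i ⊆ cl T c i ∪ (H \ T) := by
        intro w hw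
        rw [mem_cl] at hw
        rw [Finset.mem_union, mem_cl, Finset.mem_sdiff]
        by_cases h : w ∈ T
        · exact Or.inl ⟨h, by rw [← hc'T w h]; exact hw.2⟩
        · exact Or.inr ⟨hw.1, h⟩
      exact (Finset.card_le_card this).trans (Finset.card_union_le _ _)
    have h1' : n i ≤ sz H c' i := by
      rw [← hncard]
      unfold sz
      exact_mod_cast h1
    have h2' : sz H c' i ≤ n i + 2 * C := by
      rw [← hncard]
      unfold sz
      have : ((cl H c' i).card : ℝ) ≤ (cl T c i).card + (H \ T).card := by exact_mod_cast h2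
      linarith
    have h3 := abs_le.mp (hsize i)
    have hr1 : (0 : ℝ) < (r : ℝ) - 1 := by linarith
    have h4 : ((r : ℝ) - 1) * n i ≤ ((r : ℝ) - 1) * sz H c' i :=
      mul_le_mul_of_nonneg_left h1' hr1.le
    have h5 : ((r : ℝ) - 1) * sz H c' i ≤ ((r : ℝ) - 1) * (n i + 2 * C) :=
      mul_le_mul_of_nonneg_left h2' hr1.le
    have h6 : ((r : ℝ) - 1) * (n i + 2 * C) ≤ ((r : ℝ) - 1) * n i + 2 * r * C := by linarith
    have h7 : C * u + 2 * r * C ≤ (100 * r * C) ^ 2 * u := by
      have e1 : 2 * r * C * 1 ≤ 2 * r * C * u := by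
        have h1 : 1 ≤ u := by linarith
        exact mul_le_mul_of_nonneg_left h1 (by positivity)
      have e2 : C * u + 2 * r * C * u ≤ (100 * r * C) ^ 2 * u := by
        have : C + 2 * r * C ≤ (100 * r * C) ^ 2 := by
          have e3 : (100 * r * C) ^ 2 = 10000 * (r * C) ^ 2 := by ring
          clear * - hr3 hC
          have e4 : 1 ≤ r * C := by nlinarith
          have e5 : C ≤ r * C := by nlinarith
          nlinarith
        have h8 := mul_le_mul_of_nonneg_right this hu0.le
        linarith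
      linarith
    rw [abs_le]
    constructor <;> linarith [h3.1, h3.2]

end HSET

open HSET in
theorem blk_HSET (hGRD : Stmt_GRD) (hMEAS : Stmt_MEAS) (hTYP : Stmt_TYP) (hEDG : Stmt_EDG)
    (hAVG : Stmt_AVG) (hALLV : Stmt_ALLV) (hMIND : Stmt_MIND) : Stmt_HSET := by
  intro r D η hr hD hη0 hη
  have hr3 : (3 : ℝ) ≤ r := by exact_mod_cast hr
  have hr0 : (0 : ℝ) < r := by linarith
  obtain ⟨ηT, hηT⟩ : ∃ ηT : ℝ, ηT = η / (4 * r) := ⟨_, rfl⟩
  have hηT0 : 0 < ηT := by rw [hηT]; positivity
  have hη1 : η ≤ 1 := by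
    refine hη.trans ?_
    rw [div_le_one (by positivity)]
    linarith
  have hηTη : ηT ≤ η := by
    rw [hηT, div_le_iff₀ (by positivity)]
    nlinarith
  have hηT4 : ηT ≤ 1 / 4 := by
    rw [hηT, div_le_iff₀ (by positivity)]
    nlinarith
  obtain ⟨K1, hK1, h1⟩ := hTYP r D ηT hr hD hηT0 hηT4
  obtain ⟨K2, hK2, h2⟩ := hEDG r ηT K1 hr hηT0 hηT4 hK1
  obtain ⟨K3, hK3⟩ : ∃ K3 : ℝ, K3 = max K1 K2 := ⟨_, rfl⟩
  have hK31 : K1 ≤ K3 := by rw [hK3]; exact le_max_left _ _
  have hK32 : K2 ≤ K3 := by rw [hK3]; exact le_max_right _ _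
  have hK31' : 1 ≤ K3 := hK1.trans hK31
  obtain ⟨K4, hK4, h4⟩ := hAVG r ηT K3 hr hηT0 hηT4 hK31'
  obtain ⟨K5, hK5⟩ : ∃ K5 : ℝ, K5 = max K3 K4 := ⟨_, rfl⟩
  have hK53 : K3 ≤ K5 := by rw [hK5]; exact le_max_left _ _
  have hK54 : K4 ≤ K5 := by rw [hK5]; exact le_max_right _ _
  obtain ⟨K6, hK6, h6⟩ := hALLV r ηT K5 hr hηT0 hηT4 (hK31'.trans hK53)
  obtain ⟨K7, hK7, h7⟩ := hMIND r ηT K5 hr hηT0 hηT4 (hK31'.trans hK53)
  obtain ⟨C, hC⟩ : ∃ C : ℝ, C = max K5 (max K6 K7) := ⟨_, rfl⟩
  have hC5 : K5 ≤ C := by rw [hC]; exact le_max_left _ _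
  have hC6 : K6 ≤ C := by rw [hC]; exact (le_max_left _ _).trans (le_max_right _ _)
  have hC7 : K7 ≤ C := by rw [hC]; exact (le_max_right _ _).trans (le_max_right _ _)
  have hC1 : 1 ≤ C := hK6.trans hC6
  have hCbig : C ≤ (100 * r * C) ^ 2 := by
    have e3 : (100 * r * C) ^ 2 = 10000 * (r * C) ^ 2 := by ring
    have e4 : 1 ≤ r * C := by nlinarith
    have e5 : C ≤ r * C := by nlinarith
    nlinarith
  refine ⟨(100 * r * C) ^ 2, hC1.trans hCbig, ?_⟩
  intro V _ G x lam t hctx hsm
  obtain ⟨ht, hl1, _⟩ := hMEAS r D hr hD V G x lam t hctx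
  have hsmall : ∀ K : ℝ, K ≤ C → K * t ≤ 1 := by
    intro K hK
    refine le_trans ?_ hsm
    exact mul_le_mul_of_nonneg_right (hK.trans hCbig) ht.le
  obtain ⟨c, T, hTD⟩ := h1 V G x lam t hctx (hsmall K1 (by linarith))
  have hTE := h2 V G x lam t c T hctx.pv hTD
  have hTD3 := hTD.mono hK31
  have hTE3 := hTE.mono ht hK32
  obtain ⟨hs1, hs2⟩ := h4 V G x lam t c T hctx.pv hTD3 hTE3 (hsmall K4 (by linarith))
  have hTD5 := hTD3.mono hK53
  have hTE5 := hTE3.mono ht hK53
  have hs2' : ∑ v ∈ T, (x v - √t) ^ 2 ≤ K5 * t :=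
    hs2.trans (mul_le_mul_of_nonneg_right hK54 ht.le)
  have hall := h6 V G x lam t c T hctx.pv hTD5 hTE5 hs2' (hsmall K6 hC6)
  have hmin := h7 V G x lam t c T hctx.free hTD5 hTE5
  have hst : 0 < √t := Real.sqrt_pos.mpr ht
  refine core hGRD hr hη0 hη hC1 G x lam t c T hctx.free ht hl1 hTD.lamt2 ?_ ?_ hTD.ind ?_
    hTD.cardT ?_ ?_ ?_ ?_ ?_ hsm
  · intro v hv
    refine le_trans ?_ (hTD.near v hv).1
    exact mul_le_mul_of_nonneg_right (by linarith) hst.le
  · exact hTD5.rest.trans (mul_le_mul_of_nonneg_right hC5 ht.le)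
  · intro v hv i hi
    have := hTD.few v hv i hi
    rwa [hηT] at this
  · exact hTE5.mis.trans (div_le_div_of_nonneg_right hC5 ht.le)
  · exact hTE5.eout.trans (div_le_div_of_nonneg_right hC5 ht.le)
  · intro i
    exact (hs1 i).trans (div_le_div_of_nonneg_right (hK54.trans hC5) hst.le)
  · intro v
    exact (hall v).trans hC6
  · intro v
    obtain ⟨i, hi⟩ := hmin v
    exact ⟨i, hi.trans (div_le_div_of_nonneg_right hC7 hst.le)⟩

end Pool.Agent.Work.MP_5532fa_up
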