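import Pool.Agent.Work.MP_5532fa_up.Interface

/-!
# MP_5532fa_co, upgrade: uniqueness of the type D graphs
-/

open Finset

namespace Pool.Agent.Work.MP_5532fa_up

open MP5532fa (specRad qf pE UpToIsolated)

/-- graphs given by labels, isomorphism form -/
def Stmt_LAB2 : Prop := ∀ (L V V' : Type) [Fintype V] [Fintype V'] (R : L → L → Prop)
  (G : SimpleGraph V) (G' : SimpleGraph V') (K : Finset V) (K' : Finset V') (l : V → L)
  (l' : V' → L), (∀ a b, G.Adj a b ↔ a ∈ K ∧ b ∈ K ∧ a ≠ b ∧ R (l a) (l b)) →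
  (∀ a b, G'.Adj a b ↔ a ∈ K' ∧ b ∈ K' ∧ a ≠ b ∧ R (l' a) (l' b)) →
  (∀ s : L, (fib K l s).card = (fib K' l' s).card) →
  ∃ (W : Type) (D : SimpleGraph W), UpToIsolated G D ∧ UpToIsolated G' D

/-- all type D graphs are isomorphic up to isolated vertices -/
def Stmt_ISOD2 : Prop := ∀ (r N j : ℕ) (V V' : Type) [Fintype V] [Fintype V']
  (G : SimpleGraph V) (G' : SimpleGraph V'), TypeD r N j G → TypeD r N j G' →
  ∃ (W : Type) (D : SimpleGraph W), UpToIsolated G D ∧ UpToIsolated G' D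

namespace ISOD

variable {V : Type} [Fintype V] {r : ℕ}

/-- the relation on the labels -/
def R (P : Finset (Fin r)) : Option (Fin r × Bool) → Option (Fin r × Bool) → Prop
  | none, none => False
  | none, some (_, b) => b = true
  | some (_, b), none => b = true
  | some (i, b), some (k, b') => i ≠ k ∧ ¬ (b = true ∧ b' = true ∧ i ∈ P ∧ k ∈ P)

open Classical in
/-- the labels -/
noncomputable def lab (c : V → Fin r) (w : V) (A : Finset V) (τ : Fin r → Fin r) (v : V) :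
    Option (Fin r × Bool) :=
  if v = w then none else some (τ (c v), decide (v ∈ A))

omit [Fintype V] in
theorem lab_w (c : V → Fin r) (w : V) (A : Finset V) (τ : Fin r → Fin r) :
    lab c w A τ w = none := by unfold lab; rw [if_pos rfl]

omit [Fintype V] in
open Classical in
theorem lab_ne (c : V → Fin r) (w : V) (A : Finset V) (τ : Fin r → Fin r) {v : V} (h : v ≠ w) :
    lab c w A τ v = some (τ (c v), decide (v ∈ A)) := by unfold lab; rw [if_neg h]

omit [Fintype V] in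
theorem mem_sp {c : V → Fin r} {A : Finset V} {v1 v : V} (h1 : cl A c (c v1) = {v1}) :
    v ∈ A ∧ c v = c v1 ↔ v = v1 := by
  constructor
  · rintro ⟨a, b⟩
    have : v ∈ cl A c (c v1) := mem_cl.mpr ⟨a, b⟩
    rw [h1, Finset.mem_singleton] at this
    exact this
  · rintro rfl
    have : v ∈ cl A c (c v) := by rw [h1]; exact Finset.mem_singleton_self _
    exact ⟨(mem_cl.mp this).1, rfl⟩

theorem adj_iff {G : SimpleGraph V} {N : ℕ} {H : Finset V} {c : V → Fin r} {w : V}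
    {A : Finset V} {v1 v2 : V} (h : WD G N H c w A v1 v2) (τ : Equiv.Perm (Fin r))
    (P : Finset (Fin r)) (hP : ∀ i, τ i ∈ P ↔ i ∈ ({c v1, c v2} : Finset (Fin r))) (K : Finset V)
    (hK : ∀ v, v ∈ K ↔ v = w ∨ v ∈ H) (a b : V) :
    G.Adj a b ↔ a ∈ K ∧ b ∈ K ∧ a ≠ b ∧ R P (lab c w A τ a) (lab c w A τ b) := by
  classical
  have hwA : w ∉ A := fun hw => h.hw (h.hA hw)
  have g1 : ∀ {v : V}, v ∈ A ∧ c v = c v1 ↔ v = v1 := mem_sp h.h1
  have g2 : ∀ {v : V}, v ∈ A ∧ c v = c v2 ↔ v = v2 := mem_sp h.h2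
  rw [h.adj, hK, hK]
  by_cases ha : a = w
  · subst ha
    by_cases hb : b = a
    · subst hb
      simp only [lab_w, R]
      constructor
      · rintro (⟨h1, _⟩ | ⟨_, h2⟩ | ⟨_, h2⟩)
        · exact absurd h1 h.hw
        · exact absurd h2 hwA
        · exact absurd h2 hwA
      · rintro ⟨_, _, h3, _⟩
        exact absurd rfl h3
    · rw [lab_w, lab_ne c a A τ hb]
      simp only [R, decide_eq_true_eq]
      constructor
      · rintro (⟨h1, _⟩ | ⟨_, h2⟩ | ⟨h1, _⟩)
        · exact absurd h1 h.hw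
        · exact ⟨Or.inl trivial, Or.inr (h.hA h2), fun e => hb e.symm, h2⟩
        · exact absurd h1 hb
      · rintro ⟨_, _, _, h4⟩
        exact Or.inr (Or.inl ⟨trivial, h4⟩)
  · by_cases hb : b = w
    · subst hb
      rw [lab_w, lab_ne c b A τ ha]
      simp only [R, decide_eq_true_eq]
      constructor
      · rintro (⟨_, h1, _⟩ | ⟨h1, _⟩ | ⟨_, h2⟩)
        · exact absurd h1 h.hw
        · exact absurd h1 ha
        · exact ⟨Or.inr (h.hA h2), Or.inl trivial, ha, h2⟩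
      · rintro ⟨_, _, _, h4⟩
        exact Or.inr (Or.inr ⟨trivial, h4⟩)
    · rw [lab_ne c w A τ ha, lab_ne c w A τ hb]
      simp only [R, decide_eq_true_eq, hP, Finset.mem_insert, Finset.mem_singleton]
      constructor
      · rintro (⟨h1, h2, h3, h4, h5⟩ | ⟨h1, _⟩ | ⟨h1, _⟩)
        · refine ⟨Or.inr h1, Or.inr h2, fun e => h3 (by rw [e]), fun e => h3 (τ.injective e), ?_⟩
          rintro ⟨aA, bA, ca, cb⟩
          rcases ca with ca | ca <;> rcases cb with cb | cb
          · exact h3 (ca.trans cb.symm)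
          · exact h4 ⟨g1.mp ⟨aA, ca⟩, g2.mp ⟨bA, cb⟩⟩
          · exact h5 ⟨g2.mp ⟨aA, ca⟩, g1.mp ⟨bA, cb⟩⟩
          · exact h3 (ca.trans cb.symm)
        · exact absurd h1 ha
        · exact absurd h1 hb
      · rintro ⟨h1, h2, h3, h4, h5⟩
        left
        refine ⟨h1.resolve_left ha, h2.resolve_left hb, fun e => h4 (by rw [e]), ?_, ?_⟩
        · rintro ⟨rfl, rfl⟩
          exact h5 ⟨(g1.mpr rfl).1, (g2.mpr rfl).1, Or.inl rfl, Or.inr rfl⟩
        · rintro ⟨rfl, rfl⟩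
          exact h5 ⟨(g2.mpr rfl).1, (g1.mpr rfl).1, Or.inr rfl, Or.inl rfl⟩

theorem fib_none {H : Finset V} {c : V → Fin r} {w : V} {A : Finset V}
    (τ : Equiv.Perm (Fin r)) (K : Finset V) (hK : ∀ v, v ∈ K ↔ v = w ∨ v ∈ H) :
    (fib K (lab c w A τ) none).card = 1 := by
  classical
  have : fib K (lab c w A τ) none = {w} := by
    ext v
    rw [mem_fib, hK, Finset.mem_singleton]
    constructor
    · rintro ⟨_, h2⟩
      by_contra hv
      rw [lab_ne c w A τ hv] at h2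
      simp at h2
    · rintro rfl
      exact ⟨Or.inl rfl, lab_w _ _ _ _⟩
  rw [this, Finset.card_singleton]

theorem fib_true {H : Finset V} {c : V → Fin r} {w : V} {A : Finset V} (hw : w ∉ H) (hA : A ⊆ H)
    (τ : Equiv.Perm (Fin r)) (K : Finset V) (hK : ∀ v, v ∈ K ↔ v = w ∨ v ∈ H) (i : Fin r) :
    (fib K (lab c w A τ) (some (τ i, true))).card = (cl A c i).card := by
  classical
  congr 1
  ext v
  rw [mem_fib, hK, mem_cl]
  constructor
  · rintro ⟨_, h2⟩
    by_cases hv : v = w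
    · rw [hv, lab_w] at h2; simp at h2
    · rw [lab_ne c w A τ hv] at h2
      simp only [Option.some.injEq, Prod.mk.injEq, decide_eq_true_eq,
        EmbeddingLike.apply_eq_iff_eq] at h2
      exact ⟨h2.2, h2.1⟩
  · rintro ⟨h1, h2⟩
    have hv : v ≠ w := fun e => hw (e ▸ hA h1)
    refine ⟨Or.inr (hA h1), ?_⟩
    rw [lab_ne c w A τ hv, h2]
    simp [h1]

theorem fib_false {H : Finset V} {c : V → Fin r} {w : V} {A : Finset V} (hw : w ∉ H) (hA : A ⊆ H)
    (τ : Equiv.Perm (Fin r)) (K : Finset V) (hK : ∀ v, v ∈ K ↔ v = w ∨ v ∈ H) (i : Fin r) :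
    (fib K (lab c w A τ) (some (τ i, false))).card = (cl H c i).card - (cl A c i).card := by
  classical
  have hsub : cl A c i ⊆ cl H c i := fun v hv => by
    rw [mem_cl] at hv ⊢
    exact ⟨hA hv.1, hv.2⟩
  rw [← Finset.card_sdiff_of_subset hsub]
  congr 1
  ext v
  rw [mem_fib, hK, Finset.mem_sdiff, mem_cl, mem_cl]
  constructor
  · rintro ⟨h1, h2⟩
    by_cases hv : v = w
    · rw [hv, lab_w] at h2; simp at h2
    · rw [lab_ne c w A τ hv] at h2
      simp only [Option.some.injEq, Prod.mk.injEq, decide_eq_false_iff_not,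
        EmbeddingLike.apply_eq_iff_eq] at h2
      exact ⟨⟨h1.resolve_left hv, h2.1⟩, fun h => h2.2 h.1⟩
  · rintro ⟨⟨h1, h2⟩, h3⟩
    have hv : v ≠ w := fun e => hw (e ▸ h1)
    refine ⟨Or.inr h1, ?_⟩
    rw [lab_ne c w A τ hv, h2]
    have : v ∉ A := fun h => h3 ⟨h, h2⟩
    simp [this]

omit [Fintype V] in
theorem sum_card_cl' (S : Finset V) (c : V → Fin r) : ∑ i, (cl S c i).card = S.card :=
  sum_card_cl S c

/-- the permutation from CANP -/
theorem perm_of {V' : Type} [Fintype V'] (hCANP : Stmt_CANP) {H A : Finset V} {c : V → Fin r}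
    {H' A' : Finset V'} {c' : V' → Fin r} {P P' : Finset (Fin r)} {p0 : ℕ}
    (hPc : P.card = P'.card) (hH : H.card = H'.card) (hAc : A.card = A'.card)
    (hA : A ⊆ H) (hA' : A' ⊆ H') (hB : Bal H c) (hB' : Bal H' c') (hPl : Place H A c P)
    (hPl' : Place H' A' c' P') (hT : Top H c P) (hT' : Top H' c' P')
    (h0 : ∀ i, i ∈ P → (cl A c i).card = p0) (h0' : ∀ i, i ∈ P' → (cl A' c' i).card = p0)
    (h1 : ∀ i, i ∉ P → (cl A c i).Nonempty) (h1' : ∀ i, i ∉ P' → (cl A' c' i).Nonempty) :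
    ∃ σ : Equiv.Perm (Fin r), ∀ i, (i ∈ P ↔ σ i ∈ P') ∧
      (cl H' c' (σ i)).card = (cl H c i).card ∧ (cl A' c' (σ i)).card = (cl A c i).card := by
  have hsub : ∀ i, (cl A c i).card ≤ (cl H c i).card := fun i => Finset.card_le_card fun v hv => by
    rw [mem_cl] at hv ⊢
    exact ⟨hA hv.1, hv.2⟩
  have hsub' : ∀ i, (cl A' c' i).card ≤ (cl H' c' i).card :=
    fun i => Finset.card_le_card fun v hv => by
      rw [mem_cl] at hv ⊢
      exact ⟨hA' hv.1, hv.2⟩
  exact hCANP r (fun i => (cl H c i).card) (fun i => (cl A c i).card)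
    (fun i => (cl H' c' i).card) (fun i => (cl A' c' i).card) P P' p0 hPc
    (by rw [sum_card_cl', sum_card_cl', hH]) (by rw [sum_card_cl', sum_card_cl', hAc]) hB hB' hT
    hT' h0 h0' (fun i hi => ⟨Finset.card_pos.mpr (h1 i hi), hsub i⟩)
    (fun i hi => ⟨Finset.card_pos.mpr (h1' i hi), hsub' i⟩) hPl hPl'

end ISOD

theorem isod2 (hLAB : Stmt_LAB2) (hCANP : Stmt_CANP) : Stmt_ISOD2 := by
  classical
  intro r N j V V' _ _ G G' hG hG'
  obtain ⟨H, c, w, A, v1, v2, hW, hA, hB, hP, hT⟩ := hG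
  obtain ⟨H', c', w', A', v1', v2', hW', hA', hB', hP', hT'⟩ := hG'
  have hc : ({c v1, c v2} : Finset (Fin r)).card = ({c' v1', c' v2'} : Finset (Fin r)).card := by
    rw [Finset.card_pair hW.h12, Finset.card_pair hW'.h12]
  have s1 : ∀ i, i ∈ ({c v1, c v2} : Finset (Fin r)) → (cl A c i).card = 1 := by
    intro i hi
    simp only [Finset.mem_insert, Finset.mem_singleton] at hi
    rcases hi with rfl | rfl
    · rw [hW.h1, Finset.card_singleton]
    · rw [hW.h2, Finset.card_singleton]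
  have s1' : ∀ i, i ∈ ({c' v1', c' v2'} : Finset (Fin r)) → (cl A' c' i).card = 1 := by
    intro i hi
    simp only [Finset.mem_insert, Finset.mem_singleton] at hi
    rcases hi with rfl | rfl
    · rw [hW'.h1, Finset.card_singleton]
    · rw [hW'.h2, Finset.card_singleton]
  obtain ⟨σ, hσ⟩ := ISOD.perm_of hCANP hc (hW.card.trans hW'.card.symm) (hA.trans hA'.symm) hW.hA
    hW'.hA hB hB' hP hP' hT hT' s1 s1' (fun i _ => hW.hne i) (fun i _ => hW'.hne i)
  set P := ({c v1, c v2} : Finset (Fin r)) with hPd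
  have hK : ∀ v, v ∈ insert w H ↔ v = w ∨ v ∈ H := fun v => Finset.mem_insert
  have hK' : ∀ v, v ∈ insert w' H' ↔ v = w' ∨ v ∈ H' := fun v => Finset.mem_insert
  refine hLAB _ V V' (ISOD.R P) G G' (insert w H) (insert w' H')
    (ISOD.lab c w A (1 : Equiv.Perm (Fin r))) (ISOD.lab c' w' A' (σ⁻¹ : Equiv.Perm (Fin r)))
    (fun a b => ISOD.adj_iff hW 1 P (fun i => by simp [hPd]) _ hK a b)
    (fun a b => ISOD.adj_iff hW' σ⁻¹ P (fun i => ?_) _ hK' a b) ?_
  · have := (hσ (σ⁻¹ i)).1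
    rw [this]
    simp
  · intro s
    rcases s with _ | ⟨i, b⟩
    · rw [ISOD.fib_none 1 _ hK, ISOD.fib_none σ⁻¹ _ hK']
    · have e1 : i = (1 : Equiv.Perm (Fin r)) i := rfl
      have e2 : i = (σ⁻¹ : Equiv.Perm (Fin r)) (σ i) := by simp
      cases b
      · have h1 := ISOD.fib_false (c := c) hW.hw hW.hA 1 _ hK i
        have h2 := ISOD.fib_false (c := c') hW'.hw hW'.hA σ⁻¹ _ hK' (σ i)
        rw [← e1] at h1
        rw [← e2] at h2
        rw [h1, h2, (hσ i).2.1, (hσ i).2.2]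
      · have h1 := ISOD.fib_true (c := c) hW.hw hW.hA 1 _ hK i
        have h2 := ISOD.fib_true (c := c') hW'.hw hW'.hA σ⁻¹ _ hK' (σ i)
        rw [← e1] at h1
        rw [← e2] at h2
        rw [h1, h2, (hσ i).2.2]

theorem blk_ISOD (hLAB : Stmt_LAB) (hCANP : Stmt_CANP) : Stmt_ISOD := by
  classical
  intro r ε _ _
  refine ⟨0, ?_⟩
  intro N _ j _ V V' _ _ G G' hG hG'
  obtain ⟨H, c, w, A, v1, v2, hW, hA, hB, hP, hT⟩ := hG
  obtain ⟨H', c', w', A', v1', v2', hW', hA', hB', hP', hT'⟩ := hG'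
  have hc : ({c v1, c v2} : Finset (Fin r)).card = ({c' v1', c' v2'} : Finset (Fin r)).card := by
    rw [Finset.card_pair hW.h12, Finset.card_pair hW'.h12]
  have s1 : ∀ i, i ∈ ({c v1, c v2} : Finset (Fin r)) → (cl A c i).card = 1 := by
    intro i hi
    simp only [Finset.mem_insert, Finset.mem_singleton] at hi
    rcases hi with rfl | rfl
    · rw [hW.h1, Finset.card_singleton]
    · rw [hW.h2, Finset.card_singleton]
  have s1' : ∀ i, i ∈ ({c' v1', c' v2'} : Finset (Fin r)) → (cl A' c' i).card = 1 := by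
    intro i hi
    simp only [Finset.mem_insert, Finset.mem_singleton] at hi
    rcases hi with rfl | rfl
    · rw [hW'.h1, Finset.card_singleton]
    · rw [hW'.h2, Finset.card_singleton]
  obtain ⟨σ, hσ⟩ := ISOD.perm_of hCANP hc (hW.card.trans hW'.card.symm) (hA.trans hA'.symm) hW.hA
    hW'.hA hB hB' hP hP' hT hT' s1 s1' (fun i _ => hW.hne i) (fun i _ => hW'.hne i)
  set P := ({c v1, c v2} : Finset (Fin r)) with hPd
  have hK : ∀ v, v ∈ insert w H ↔ v = w ∨ v ∈ H := fun v => Finset.mem_insert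
  have hK' : ∀ v, v ∈ insert w' H' ↔ v = w' ∨ v ∈ H' := fun v => Finset.mem_insert
  refine hLAB _ V V' (ISOD.R P) G G' (insert w H) (insert w' H')
    (ISOD.lab c w A (1 : Equiv.Perm (Fin r))) (ISOD.lab c' w' A' (σ⁻¹ : Equiv.Perm (Fin r)))
    (fun a b => ISOD.adj_iff hW 1 P (fun i => by simp [hPd]) _ hK a b)
    (fun a b => ISOD.adj_iff hW' σ⁻¹ P (fun i => ?_) _ hK' a b) ?_ ⟨w, by simp⟩
  · have := (hσ (σ⁻¹ i)).1
    rw [this]
    simp
  · intro s
    rcases s with _ | ⟨i, b⟩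
    · rw [ISOD.fib_none 1 _ hK, ISOD.fib_none σ⁻¹ _ hK']
    · have e1 : i = (1 : Equiv.Perm (Fin r)) i := rfl
      have e2 : i = (σ⁻¹ : Equiv.Perm (Fin r)) (σ i) := by simp
      cases b
      · have h1 := ISOD.fib_false (c := c) hW.hw hW.hA 1 _ hK i
        have h2 := ISOD.fib_false (c := c') hW'.hw hW'.hA σ⁻¹ _ hK' (σ i)
        rw [← e1] at h1
        rw [← e2] at h2
        rw [h1, h2, (hσ i).2.1, (hσ i).2.2]
      · have h1 := ISOD.fib_true (c := c) hW.hw hW.hA 1 _ hK i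
        have h2 := ISOD.fib_true (c := c') hW'.hw hW'.hA σ⁻¹ _ hK' (σ i)
        rw [← e1] at h1
        rw [← e2] at h2
        rw [h1, h2, (hσ i).2.2]

end Pool.Agent.Work.MP_5532fa_up
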