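import Pool.Agent.Work.MP_5532fa_up.ISOD

/-!
# MP_5532fa_co, upgrade: uniqueness of the spectral radius of the type E graphs
-/

open Finset

namespace Pool.Agent.Work.MP_5532fa_up

open MP5532fa (specRad qf pE UpToIsolated)

namespace ISOE

variable {V : Type} {r : ℕ}

/-- the relation on the labels -/
def R : Option (Option (Fin r × Bool × Bool)) → Option (Option (Fin r × Bool × Bool)) → Prop
  | none, none => False
  | none, some none => True
  | some none, none => True
  | some none, some none => False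
  | none, some (some (_, a, _)) => a = true
  | some (some (_, a, _)), none => a = true
  | some none, some (some (_, _, b)) => b = true
  | some (some (_, _, b)), some none => b = true
  | some (some (i, _, _)), some (some (k, _, _)) => i ≠ k

open Classical in
/-- the labels -/
noncomputable def lab (c : V → Fin r) (w u : V) (A B : Finset V) (τ : Fin r → Fin r) (v : V) :
    Option (Option (Fin r × Bool × Bool)) :=
  if v = w then none else if v = u then some none else
    some (some (τ (c v), decide (v ∈ A), decide (v ∈ B)))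

theorem lab_w (c : V → Fin r) (w u : V) (A B : Finset V) (τ : Fin r → Fin r) :
    lab c w u A B τ w = none := by unfold lab; rw [if_pos rfl]

theorem lab_u (c : V → Fin r) (w u : V) (A B : Finset V) (τ : Fin r → Fin r) (h : u ≠ w) :
    lab c w u A B τ u = some none := by unfold lab; rw [if_neg h, if_pos rfl]

open Classical in
theorem lab_ne (c : V → Fin r) (w u : V) (A B : Finset V) (τ : Fin r → Fin r) {v : V} (h : v ≠ w)
    (h' : v ≠ u) : lab c w u A B τ v = some (some (τ (c v), decide (v ∈ A), decide (v ∈ B))) := by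
  unfold lab; rw [if_neg h, if_neg h']

theorem adj_iff {G : SimpleGraph V} {N : ℕ} {H : Finset V} {c : V → Fin r} {w u : V}
    {A B : Finset V} {i0 : Fin r} (h : WE G N H c w u A B i0) (τ : Equiv.Perm (Fin r))
    (K : Finset V) (hK : ∀ v, v ∈ K ↔ v = w ∨ v = u ∨ v ∈ H) (a b : V) :
    G.Adj a b ↔ a ∈ K ∧ b ∈ K ∧ a ≠ b ∧ R (lab c w u A B τ a) (lab c w u A B τ b) := by
  classical
  have hwA : w ∉ A := fun hw => h.hw (h.hA hw)
  have huA : u ∉ A := fun hu => h.hu (h.hA hu)
  have hwB : w ∉ B := fun hw => h.hw (h.hB hw)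
  have huB : u ∉ B := fun hu => h.hu (h.hB hu)
  have hwu := h.hwu
  have huw := h.hwu.symm
  have hw := h.hw
  have hu := h.hu
  rw [h.adj, hK, hK]
  have hAw : ∀ {v}, v ∈ A → v ≠ w := fun {v} hv e => hwA (e ▸ hv)
  have hAu : ∀ {v}, v ∈ A → v ≠ u := fun {v} hv e => huA (e ▸ hv)
  have hBw : ∀ {v}, v ∈ B → v ≠ w := fun {v} hv e => hwB (e ▸ hv)
  have hBu : ∀ {v}, v ∈ B → v ≠ u := fun {v} hv e => huB (e ▸ hv)
  by_cases ha : a = w
  · subst ha
    by_cases hb : b = a
    · subst hb
      simp only [lab_w, R]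
      simp [hw, hwA, hwB, hwu]
    · by_cases hb2 : b = u
      · subst hb2
        rw [lab_w, lab_u _ _ _ _ _ _ huw]
        simp [R, hwu]
      · rw [lab_w, lab_ne c a u A B τ hb hb2]
        simp only [R, decide_eq_true_eq]
        simp only [hw, hwu, hb, hb2, hwA, hwB, false_and, and_false, or_false, false_or, true_and,
          and_true, ne_eq, true_or]
        constructor
        · intro hA
          exact ⟨h.hA hA, fun e => hb e.symm, hA⟩
        · rintro ⟨_, _, hA⟩
          exact hA
  · by_cases ha2 : a = u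
    · subst ha2
      by_cases hb : b = w
      · subst hb
        rw [lab_w, lab_u _ _ _ _ _ _ huw]
        simp [R, huw]
      · by_cases hb2 : b = a
        · subst hb2
          rw [lab_u _ _ _ _ _ _ huw]
          simp [R, hu, huA, huB, huw]
        · rw [lab_u _ _ _ _ _ _ huw, lab_ne c w a A B τ hb hb2]
          simp only [R, decide_eq_true_eq]
          simp only [hu, huw, hb, hb2, huA, huB, false_and, and_false, or_false, false_or,
            true_and, and_true, ne_eq, true_or, or_true]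
          constructor
          · intro hB
            exact ⟨h.hB hB, fun e => hb2 e.symm, hB⟩
          · rintro ⟨_, _, hB⟩
            exact hB
    · by_cases hb : b = w
      · subst hb
        rw [lab_w, lab_ne c b u A B τ ha ha2]
        simp only [R, decide_eq_true_eq]
        simp only [hw, hwu, ha, ha2, hwA, hwB, false_and, and_false, or_false, false_or, true_and,
          and_true, ne_eq, true_or]
        constructor
        · intro hA
          exact ⟨h.hA hA, not_false, hA⟩
        · rintro ⟨_, _, hA⟩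
          exact hA
      · by_cases hb2 : b = u
        · subst hb2
          rw [lab_u _ _ _ _ _ _ huw, lab_ne c w b A B τ ha ha2]
          simp only [R, decide_eq_true_eq]
          simp only [hu, huw, ha, ha2, huA, huB, false_and, and_false, or_false, false_or,
            true_and, and_true, ne_eq, true_or, or_true]
          constructor
          · intro hB
            exact ⟨h.hB hB, not_false, hB⟩
          · rintro ⟨_, _, hB⟩
            exact hB
        · rw [lab_ne c w u A B τ ha ha2, lab_ne c w u A B τ hb hb2]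
          simp only [R, ha, ha2, hb, hb2, false_and, and_false, or_false, false_or, ne_eq]
          constructor
          · rintro ⟨h1, h2, h3⟩
            exact ⟨h1, h2, fun e => h3 (by rw [e]), fun e => h3 (τ.injective e)⟩
          · rintro ⟨h1, h2, _, h4⟩
            exact ⟨h1, h2, fun e => h4 (by rw [e])⟩

section
variable {H : Finset V} {c : V → Fin r} {w u : V} {A B : Finset V}

open Classical in
theorem fib_all (hw : w ∉ H) (hu : u ∉ H) (τ : Equiv.Perm (Fin r)) (K : Finset V)
    (hK : ∀ v, v ∈ K ↔ v = w ∨ v = u ∨ v ∈ H) (i : Fin r) (p q : Bool) (v : V) :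
    v ∈ fib K (lab c w u A B τ) (some (some (τ i, p, q))) ↔
      v ∈ H ∧ c v = i ∧ decide (v ∈ A) = p ∧ decide (v ∈ B) = q := by
  rw [mem_fib, hK]
  constructor
  · rintro ⟨h1, h2⟩
    by_cases hv : v = w
    · rw [hv, lab_w] at h2; simp at h2
    · by_cases hv2 : v = u
      · rw [hv2] at h2 hv
        rw [lab_u _ _ _ _ _ _ hv] at h2; simp at h2
      · rw [lab_ne c w u A B τ hv hv2] at h2
        simp only [Option.some.injEq, Prod.mk.injEq, EmbeddingLike.apply_eq_iff_eq] at h2
        exact ⟨(h1.resolve_left hv).resolve_left hv2, h2⟩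
  · rintro ⟨h1, h2, h3, h4⟩
    have hv : v ≠ w := fun e => hw (e ▸ h1)
    have hv2 : v ≠ u := fun e => hu (e ▸ h1)
    refine ⟨Or.inr (Or.inr h1), ?_⟩
    rw [lab_ne c w u A B τ hv hv2, h2, h3, h4]

open Classical in
/-- the fibre sizes depend only on the class sizes of `H`, `A`, `B`, `A ∩ B` -/
theorem fib_card (hw : w ∉ H) (hu : u ∉ H) (hA : A ⊆ H) (hB : B ⊆ H) (τ : Equiv.Perm (Fin r))
    (K : Finset V) (hK : ∀ v, v ∈ K ↔ v = w ∨ v = u ∨ v ∈ H) (i : Fin r) (p q : Bool) :
    ((fib K (lab c w u A B τ) (some (some (τ i, p, q)))).card : ℤ) =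
      match p, q with
      | true, true => ((cl (A ∩ B) c i).card : ℤ)
      | true, false => ((cl A c i).card : ℤ) - (cl (A ∩ B) c i).card
      | false, true => ((cl B c i).card : ℤ) - (cl (A ∩ B) c i).card
      | false, false => ((cl H c i).card : ℤ) - (cl A c i).card - (cl B c i).card
          + (cl (A ∩ B) c i).card := by
  have hm := fib_all (c := c) (A := A) (B := B) hw hu τ K hK i
  have e11 : fib K (lab c w u A B τ) (some (some (τ i, true, true))) = cl (A ∩ B) c i := by
    ext v
    rw [hm, mem_cl, Finset.mem_inter]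
    simp only [decide_eq_true_eq]
    constructor
    · rintro ⟨_, h2, h3, h4⟩; exact ⟨⟨h3, h4⟩, h2⟩
    · rintro ⟨⟨h3, h4⟩, h2⟩; exact ⟨hA h3, h2, h3, h4⟩
  have eA : cl A c i = cl (A ∩ B) c i ∪
      fib K (lab c w u A B τ) (some (some (τ i, true, false))) := by
    ext v
    rw [Finset.mem_union, hm, mem_cl, mem_cl, Finset.mem_inter]
    simp only [decide_eq_true_eq, decide_eq_false_iff_not]
    constructor
    · rintro ⟨h1, h2⟩
      by_cases hb : v ∈ B
      · exact Or.inl ⟨⟨h1, hb⟩, h2⟩
      · exact Or.inr ⟨hA h1, h2, h1, hb⟩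
    · rintro (⟨⟨h1, _⟩, h2⟩ | ⟨_, h2, h1, _⟩) <;> exact ⟨h1, h2⟩
  have dA : Disjoint (cl (A ∩ B) c i)
      (fib K (lab c w u A B τ) (some (some (τ i, true, false)))) := by
    rw [Finset.disjoint_left]
    intro v hv
    rw [hm]
    rw [mem_cl, Finset.mem_inter] at hv
    simp [hv.1.2]
  have eB : cl B c i = cl (A ∩ B) c i ∪
      fib K (lab c w u A B τ) (some (some (τ i, false, true))) := by
    ext v
    rw [Finset.mem_union, hm, mem_cl, mem_cl, Finset.mem_inter]
    simp only [decide_eq_true_eq, decide_eq_false_iff_not]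
    constructor
    · rintro ⟨h1, h2⟩
      by_cases hb : v ∈ A
      · exact Or.inl ⟨⟨hb, h1⟩, h2⟩
      · exact Or.inr ⟨hB h1, h2, hb, h1⟩
    · rintro (⟨⟨_, h1⟩, h2⟩ | ⟨_, h2, _, h1⟩) <;> exact ⟨h1, h2⟩
  have dB : Disjoint (cl (A ∩ B) c i)
      (fib K (lab c w u A B τ) (some (some (τ i, false, true)))) := by
    rw [Finset.disjoint_left]
    intro v hv
    rw [hm]
    rw [mem_cl, Finset.mem_inter] at hv
    simp [hv.1.1]
  have eH : cl H c i = cl A c i ∪
      (fib K (lab c w u A B τ) (some (some (τ i, false, true))) ∪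
        fib K (lab c w u A B τ) (some (some (τ i, false, false)))) := by
    ext v
    rw [Finset.mem_union, Finset.mem_union, hm, hm, mem_cl, mem_cl]
    simp only [decide_eq_true_eq, decide_eq_false_iff_not]
    constructor
    · rintro ⟨h1, h2⟩
      by_cases ha : v ∈ A
      · exact Or.inl ⟨ha, h2⟩
      · by_cases hb : v ∈ B
        · exact Or.inr (Or.inl ⟨h1, h2, ha, hb⟩)
        · exact Or.inr (Or.inr ⟨h1, h2, ha, hb⟩)
    · rintro (⟨h1, h2⟩ | ⟨h1, h2, _⟩ | ⟨h1, h2, _⟩)
      · exact ⟨hA h1, h2⟩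
      · exact ⟨h1, h2⟩
      · exact ⟨h1, h2⟩
  have dF : Disjoint (fib K (lab c w u A B τ) (some (some (τ i, false, true))))
      (fib K (lab c w u A B τ) (some (some (τ i, false, false)))) := by
    rw [Finset.disjoint_left]
    intro v hv hv'
    rw [hm] at hv hv'
    have h1 := hv.2.2.2
    have h2 := hv'.2.2.2
    rw [h1] at h2
    exact absurd h2 (by simp)
  have dH : Disjoint (cl A c i)
      (fib K (lab c w u A B τ) (some (some (τ i, false, true))) ∪
        fib K (lab c w u A B τ) (some (some (τ i, false, false)))) := by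
    rw [Finset.disjoint_left]
    intro v hv hv'
    rw [Finset.mem_union, hm, hm] at hv'
    rw [mem_cl] at hv
    rcases hv' with h | h
    · have := h.2.2.1; simp [hv.1] at this
    · have := h.2.2.1; simp [hv.1] at this
  have cA := congrArg Finset.card eA
  have cB := congrArg Finset.card eB
  have cH := congrArg Finset.card eH
  rw [Finset.card_union_of_disjoint dA] at cA
  rw [Finset.card_union_of_disjoint dB] at cB
  rw [Finset.card_union_of_disjoint dH, Finset.card_union_of_disjoint dF] at cH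
  cases p <;> cases q
  · simp only; omega
  · simp only; omega
  · simp only; omega
  · simp only; rw [e11]

theorem fib_none (hw : w ∉ H) (huw : u ≠ w) (τ : Equiv.Perm (Fin r)) (K : Finset V)
    (hK : ∀ v, v ∈ K ↔ v = w ∨ v = u ∨ v ∈ H) :
    (fib K (lab c w u A B τ) none).card = 1 := by
  classical
  have : fib K (lab c w u A B τ) none = {w} := by
    ext v
    rw [mem_fib, hK, Finset.mem_singleton]
    constructor
    · rintro ⟨_, h2⟩
      by_contra hv
      by_cases hv2 : v = u
      · rw [hv2, lab_u _ _ _ _ _ _ huw] at h2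
        simp at h2
      · rw [lab_ne c w u A B τ hv hv2] at h2
        simp at h2
    · rintro rfl
      exact ⟨Or.inl rfl, lab_w _ _ _ _ _ _⟩
  rw [this, Finset.card_singleton]

theorem fib_some_none (huw : u ≠ w) (τ : Equiv.Perm (Fin r)) (K : Finset V)
    (hK : ∀ v, v ∈ K ↔ v = w ∨ v = u ∨ v ∈ H) :
    (fib K (lab c w u A B τ) (some none)).card = 1 := by
  classical
  have : fib K (lab c w u A B τ) (some none) = {u} := by
    ext v
    rw [mem_fib, hK, Finset.mem_singleton]
    constructor
    · rintro ⟨_, h2⟩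
      by_contra hv
      by_cases hv2 : v = w
      · rw [hv2, lab_w] at h2
        simp at h2
      · rw [lab_ne c w u A B τ hv2 hv] at h2
        simp at h2
    · rintro rfl
      exact ⟨Or.inr (Or.inl rfl), lab_u _ _ _ _ _ _ huw⟩
  rw [this, Finset.card_singleton]

end

open Classical in
/-- number of vertices of `A ∩ B` in the classes -/
theorem inter_card {G : SimpleGraph V} {N : ℕ} {H : Finset V} {c : V → Fin r} {w u : V}
    {A B : Finset V} {i0 : Fin r} (h : WE G N H c w u A B i0) {b : V} (hb : b ∈ B) (hbA : b ∉ A)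
    (hone : ∀ a, a ∈ B → a ∉ A → a = b) (i : Fin r) :
    (cl (A ∩ B) c i).card = if i = i0 ∨ i = c b then 0 else 1 := by
  by_cases h0 : i = i0
  · rw [if_pos (Or.inl h0)]
    subst h0
    rw [Finset.card_eq_zero, Finset.eq_empty_iff_forall_notMem]
    intro v hv
    rw [mem_cl, Finset.mem_inter] at hv
    have : v ∈ cl A c i := mem_cl.mpr ⟨hv.1.1, hv.2⟩
    rw [h.hA0] at this
    exact absurd this (Finset.notMem_empty _)
  · have h1 := h.hB1 i h0
    rw [Finset.card_eq_one] at h1
    obtain ⟨z, hz⟩ := h1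
    by_cases he : i = c b
    · rw [if_pos (Or.inr he)]
      rw [Finset.card_eq_zero, Finset.eq_empty_iff_forall_notMem]
      intro v hv
      rw [mem_cl, Finset.mem_inter] at hv
      have h2 : v ∈ cl B c i := mem_cl.mpr ⟨hv.1.2, hv.2⟩
      have h3 : b ∈ cl B c i := mem_cl.mpr ⟨hb, he.symm⟩
      rw [hz, Finset.mem_singleton] at h2 h3
      exact hbA (h3 ▸ h2 ▸ hv.1.1)
    · rw [if_neg (by rintro (h | h) <;> contradiction)]
      have hzB : z ∈ cl B c i := by rw [hz]; exact Finset.mem_singleton_self _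
      rw [mem_cl] at hzB
      have hzA : z ∈ A := by
        by_contra hzA
        exact he (hzB.2.symm.trans (congrArg c (hone z hzB.1 hzA)))
      rw [Finset.card_eq_one]
      refine ⟨z, ?_⟩
      ext v
      rw [mem_cl, Finset.mem_inter, Finset.mem_singleton]
      constructor
      · rintro ⟨⟨_, h2⟩, h3⟩
        have : v ∈ cl B c i := mem_cl.mpr ⟨h2, h3⟩
        rw [hz, Finset.mem_singleton] at this
        exact this
      · rintro rfl
        exact ⟨⟨hzA, hzB.1⟩, hzB.2⟩

/-- a set `B` with prescribed exceptional class -/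
theorem exists_B {G : SimpleGraph V} {N : ℕ} {H : Finset V} {c : V → Fin r} {w u : V}
    {A B : Finset V} {i0 : Fin r} (h : WE G N H c w u A B i0) (e : Fin r) (he : e ≠ i0)
    (hlt : (cl A c e).card < (cl H c e).card) :
    ∃ B' : Finset V, WE (gE H c w u A B') N H c w u A B' i0 ∧
      ∃ b, c b = e ∧ b ∈ B' ∧ b ∉ A ∧ ∀ a, a ∈ B' → a ∉ A → a = b := by
  classical
  obtain ⟨b, hb, hbA⟩ := Finset.exists_mem_notMem_of_card_lt_card hlt
  rw [mem_cl] at hb hbA
  have hbA' : b ∉ A := fun h' => hbA ⟨h', hb.2⟩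
  have hex : ∀ i, i ≠ i0 → ∃ z, z ∈ H ∧ c z = i ∧ (i ≠ e → z ∈ A) ∧ (i = e → z = b) := by
    intro i hi
    by_cases hie : i = e
    · exact ⟨b, hb.1, hb.2.trans hie.symm, fun h' => absurd hie h', fun _ => rfl⟩
    · obtain ⟨z, hz⟩ := h.hAne i hi
      rw [mem_cl] at hz
      exact ⟨z, h.hA hz.1, hz.2, fun _ => hz.1, fun h' => absurd h' hie⟩
  haveI : Nonempty V := ⟨b⟩
  choose! f hf using hex
  set B' : Finset V := (univ.filter (fun i : Fin r => i ≠ i0)).image f with hB'
  have hmem : ∀ v, v ∈ B' ↔ ∃ i, i ≠ i0 ∧ f i = v := by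
    intro v
    simp [hB']
  have hcf : ∀ i, i ≠ i0 → c (f i) = i := fun i hi => (hf i hi).2.1
  have hBH : B' ⊆ H := by
    intro v hv
    obtain ⟨i, hi, rfl⟩ := (hmem v).mp hv
    exact (hf i hi).1
  have hB0 : cl B' c i0 = ∅ := by
    rw [Finset.eq_empty_iff_forall_notMem]
    intro v hv
    rw [mem_cl] at hv
    obtain ⟨i, hi, rfl⟩ := (hmem v).mp hv.1
    exact hi ((hcf i hi).symm.trans hv.2)
  have hB1 : ∀ i, i ≠ i0 → (cl B' c i).card = 1 := by
    intro i hi
    rw [Finset.card_eq_one]
    refine ⟨f i, ?_⟩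
    ext v
    rw [mem_cl, Finset.mem_singleton]
    constructor
    · rintro ⟨h1, h2⟩
      obtain ⟨k, hk, rfl⟩ := (hmem v).mp h1
      rw [hcf k hk] at h2
      rw [h2]
    · rintro rfl
      exact ⟨(hmem _).mpr ⟨i, hi, rfl⟩, hcf i hi⟩
  have hfe : f e = b := (hf e he).2.2.2 rfl
  have hbB : b ∈ B' := (hmem b).mpr ⟨e, he, hfe⟩
  refine ⟨B', gE_WE h.card h.hw h.hu h.hwu h.hA hBH h.hA0 hB0 h.hAne hB1
    (fun hs => hbA' (hs hbB)), b, hb.2, hbB, hbA', ?_⟩
  intro a ha haA
  obtain ⟨i, hi, rfl⟩ := (hmem a).mp ha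
  by_cases hie : i = e
  · rw [hie]; exact hfe
  · exact absurd ((hf i hi).2.2.1 hie) haA

end ISOE

theorem blk_ISOE (hLAB : Stmt_LAB) (hCANP : Stmt_CANP) (hTIE : Stmt_TIE) : Stmt_ISOE := by
  classical
  intro r ε hr hε
  obtain ⟨δ, n0, hδ, HT⟩ := hTIE r ε hr hε
  obtain ⟨n1, hn1⟩ := exists_nat_gt ((r : ℝ) / δ)
  refine ⟨n0 + n1 + 1, ?_⟩
  intro N hN j hRg V V' _ _ G G' hG hG'
  obtain ⟨H, c, w, u, A, B, i0, hW, hO, hA, hB, hP, hT⟩ := hG
  obtain ⟨H', c', w', u', A', B', i0', hW', hO', hA', hB', hP', hT'⟩ := hG'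
  have hrr : (3 : ℝ) ≤ r := by exact_mod_cast hr
  have hNr : (r : ℝ) / δ < N := lt_of_lt_of_le hn1 (by exact_mod_cast (by omega : n1 ≤ N))
  rw [div_lt_iff₀ hδ] at hNr
  -- the permutation
  obtain ⟨σ, hσ⟩ := ISOD.perm_of hCANP (P := {i0}) (P' := {i0'}) (p0 := 0)
    (by rw [Finset.card_singleton, Finset.card_singleton]) (hW.card.trans hW'.card.symm)
    (by omega) hW.hA hW'.hA hB hB' hP hP' hT hT'
    (fun i hi => by rw [Finset.mem_singleton.mp hi, hW.hA0, Finset.card_empty])
    (fun i hi => by rw [Finset.mem_singleton.mp hi, hW'.hA0, Finset.card_empty])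
    (fun i hi => hW.hAne i (fun e => hi (Finset.mem_singleton.mpr e)))
    (fun i hi => hW'.hAne i (fun e => hi (Finset.mem_singleton.mpr e)))
  have hσ0 : σ i0 = i0' := Finset.mem_singleton.mp ((hσ i0).1.mp (Finset.mem_singleton_self _))
  have hσne : ∀ i, i ≠ i0 → σ i ≠ i0' := fun i hi e => hi (by
    rw [← hσ0] at e; exact σ.injective e)
  -- the exceptional vertex
  obtain ⟨b, hbB, hbA, hone⟩ := hO
  have hcb : c b ≠ i0 := by
    intro e
    have : b ∈ cl B c i0 := mem_cl.mpr ⟨hbB, e⟩
    rw [hW.hB0] at this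
    exact absurd this (Finset.notMem_empty _)
  have hlt : (cl A c (c b)).card < (cl H c (c b)).card := by
    apply Finset.card_lt_card
    rw [Finset.ssubset_iff_of_subset (fun v hv => by
      rw [mem_cl] at hv ⊢; exact ⟨hW.hA hv.1, hv.2⟩)]
    exact ⟨b, mem_cl.mpr ⟨hW.hB hbB, rfl⟩, fun h => hbA (mem_cl.mp h).1⟩
  obtain ⟨B'', hW'', b'', hcb'', hb''B, hb''A, hone''⟩ :=
    ISOE.exists_B hW' (σ (c b)) (hσne _ hcb) (by rw [(hσ (c b)).2.1, (hσ (c b)).2.2]; exact hlt)
  -- Near
  have hNear : Near r δ N j H' A' c' := by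
    constructor
    · intro i
      have hsum : ∑ k, sz H' c' k = (N : ℝ) := by
        have := sum_card_cl H' c'
        rw [hW'.card] at this
        unfold sz
        exact_mod_cast this
      have e : (r : ℝ) * (sz H' c' i - N / r) = ∑ k, (sz H' c' i - sz H' c' k) := by
        rw [Finset.sum_sub_distrib, hsum]
        simp only [Finset.sum_const, Finset.card_univ, Fintype.card_fin, nsmul_eq_mul]
        field_simp
      have h1 : |∑ k, (sz H' c' i - sz H' c' k)| ≤ r * 1 := by
        refine (Finset.abs_sum_le_sum_abs _ _).trans ?_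
        have : ∑ k : Fin r, |sz H' c' i - sz H' c' k| ≤ ∑ _k : Fin r, (1:ℝ) := by
          refine Finset.sum_le_sum fun k _ => ?_
          have a1 : sz H' c' i ≤ sz H' c' k + 1 := by unfold sz; exact_mod_cast hB' i k
          have a2 : sz H' c' k ≤ sz H' c' i + 1 := by unfold sz; exact_mod_cast hB' k i
          rw [abs_le]; constructor <;> linarith
        simpa using this
      rw [← e, abs_mul, abs_of_pos (by linarith : (0:ℝ) < r)] at h1
      have h2 := le_of_mul_le_mul_left h1 (by linarith)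
      linarith
    · have h1 : (A'.card : ℝ) + r = j := by exact_mod_cast hA'
      have h2 : (A'.card : ℝ) - j = -r := by linarith
      rw [h2, abs_neg, abs_of_nonneg (by linarith)]
      linarith
  have htie := HT N (by omega) j hRg V' G' (gE H' c' w' u' A' B'') H' c' w' u' A' B' B'' i0'
    hW' hW'' hO' ⟨b'', hb''B, hb''A, hone''⟩ hNear
  rw [htie]
  -- labels
  have hK : ∀ v, v ∈ insert w (insert u H) ↔ v = w ∨ v = u ∨ v ∈ H := fun v => by
    simp only [Finset.mem_insert]
  have hK' : ∀ v, v ∈ insert w' (insert u' H') ↔ v = w' ∨ v = u' ∨ v ∈ H' := fun v => by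
    simp only [Finset.mem_insert]
  refine hLAB _ V V' (ISOE.R) G _ (insert w (insert u H)) (insert w' (insert u' H'))
    (ISOE.lab c w u A B (1 : Equiv.Perm (Fin r)))
    (ISOE.lab c' w' u' A' B'' (σ⁻¹ : Equiv.Perm (Fin r)))
    (fun a b => ISOE.adj_iff hW 1 _ hK a b)
    (fun a b => ISOE.adj_iff hW'' σ⁻¹ _ hK' a b) ?_ ⟨w, by simp⟩
  intro s
  rcases s with _ | _ | ⟨i, p, q⟩
  · rw [ISOE.fib_none hW.hw hW.hwu.symm 1 _ hK, ISOE.fib_none hW'.hw hW'.hwu.symm σ⁻¹ _ hK']
  · rw [ISOE.fib_some_none hW.hwu.symm 1 _ hK, ISOE.fib_some_none hW'.hwu.symm σ⁻¹ _ hK']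
  · have e1 : i = (1 : Equiv.Perm (Fin r)) i := rfl
    have e2 : i = (σ⁻¹ : Equiv.Perm (Fin r)) (σ i) := by simp
    have h1 := ISOE.fib_card (c := c) hW.hw hW.hu hW.hA hW.hB 1 _ hK i p q
    have h2 := ISOE.fib_card (c := c') hW''.hw hW''.hu hW''.hA hW''.hB σ⁻¹ _ hK' (σ i) p q
    rw [← e1] at h1
    rw [← e2] at h2
    have h3 := ISOE.inter_card hW hbB hbA hone i
    have h4 := ISOE.inter_card hW'' hb''B hb''A hone'' (σ i)
    have h5 : (σ i = i0' ∨ σ i = c' b'') ↔ (i = i0 ∨ i = c b) := by
      rw [← hσ0, hcb'']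
      simp only [EmbeddingLike.apply_eq_iff_eq]
    have h6 : (cl (A' ∩ B'') c' (σ i)).card = (cl (A ∩ B) c i).card := by
      rw [h3, h4]
      by_cases hi : i = i0 ∨ i = c b
      · rw [if_pos hi, if_pos (h5.mpr hi)]
      · rw [if_neg hi, if_neg (fun h => hi (h5.mp h))]
    have h7 : (cl B'' c' (σ i)).card = (cl B c i).card := by
      by_cases hi : i = i0
      · rw [hi, hσ0, hW.hB0, hW''.hB0]
        rfl
      · rw [hW.hB1 i hi, hW''.hB1 _ (hσne i hi)]
    have h8 := (hσ i).2.1
    have h9 := (hσ i).2.2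
    have goal : ((fib (insert w (insert u H)) (ISOE.lab c w u A B (1 : Equiv.Perm (Fin r)))
        (some (some (i, p, q)))).card : ℤ) = ((fib (insert w' (insert u' H'))
          (ISOE.lab c' w' u' A' B'' (σ⁻¹ : Equiv.Perm (Fin r)))
        (some (some (i, p, q)))).card : ℤ) := by
      rw [h1, h2, h6, h7, h8, h9]
    exact_mod_cast goal

end Pool.Agent.Work.MP_5532fa_up
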