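import Pool.Agent.Work.MP_5532fa_up.Interface

open Finset

namespace Pool.Agent.Work.MP_5532fa_up

namespace KM

/-- the elementary inequality for one term -/
theorem term (a ξ E : ℝ) (ha : 0 < a) (hx : 0 < a + ξ) (hE : ξ ≤ E) :
    1 / a - ξ / a ^ 2 + ξ ^ 2 / (a ^ 2 * (a + E)) ≤ 1 / (a + ξ) := by
  have h1 : 0 < a + E := by linarith
  have h2 : 1 / (a + ξ) = 1 / a - ξ / a ^ 2 + ξ ^ 2 / (a ^ 2 * (a + ξ)) := by
    field_simp
    ring
  rw [h2]
  have h3 : ξ ^ 2 / (a ^ 2 * (a + E)) ≤ ξ ^ 2 / (a ^ 2 * (a + ξ)) := by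
    apply div_le_div_of_nonneg_left (sq_nonneg _) (by positivity)
    exact mul_le_mul_of_nonneg_left (by linarith) (by positivity)
  linarith

end KM

theorem blk_KM : Stmt_KM := by
  intro r B hr hB
  have hr3 : (3 : ℝ) ≤ r := by exact_mod_cast hr
  have hr0 : (0 : ℝ) < r := by linarith
  refine ⟨r * B ^ 3 + r ^ 2 * B ^ 4 + 1, ?_, ?_⟩
  · have : 0 ≤ (r : ℝ) * B ^ 3 + r ^ 2 * B ^ 4 := by positivity
    linarith
  intro n M S hn hM hS hK hb
  set K : ℝ := r * B ^ 3 + r ^ 2 * B ^ 4 + 1 with hKd
  have hB0 : 0 < B := by linarith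
  have hK1 : 1 ≤ K := by
    have : 0 ≤ (r : ℝ) * B ^ 3 + r ^ 2 * B ^ 4 := by positivity
    linarith
  have hM1 : 1 ≤ M := by linarith
  have hM0 : 0 < M := by linarith
  set s : ℝ := √M with hs
  have hs0 : 0 < s := Real.sqrt_pos.mpr hM0
  have hss : s ^ 2 = M := Real.sq_sqrt hM0.le
  have hs1 : 1 ≤ s := by
    by_contra h
    push Not at h
    nlinarith
  have hal1 := al_ge hr
  have hal2 := al_lt hr
  -- bound for `S`
  have hS0 : 0 ≤ S := by rw [hS]; exact Finset.sum_nonneg fun i _ => sq_nonneg _
  have hSB : S ≤ r * B ^ 2 * M := by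
    have h1 : ∀ i ∈ (univ : Finset (Fin r)), (n i - M / r) ^ 2 ≤ B ^ 2 * M := by
      intro i _
      have h2 := hb i
      have h3 : (n i - M / r) ^ 2 ≤ (B * s) ^ 2 := by
        rw [← sq_abs]
        exact pow_le_pow_left₀ (abs_nonneg _) h2 2
      rw [mul_pow, hss] at h3
      exact h3
    have h4 := Finset.sum_le_card_nsmul _ _ _ h1
    rw [← hS] at h4
    simp only [card_univ, Fintype.card_fin, nsmul_eq_mul] at h4
    linarith
  have hS1 : al r * S ≤ S := by
    have : al r * S ≤ 1 * S := mul_le_mul_of_nonneg_right hal2.le hS0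
    linarith
  -- the value
  set e : ℝ := al r * S / M - K / s with he
  set mu : ℝ := al r * M - al r * S / M + K / s with hmu
  have hmue : mu = al r * M - e := by rw [hmu, he]; ring
  have heS : e ≤ r * B ^ 2 := by
    have h1 : al r * S / M ≤ r * B ^ 2 := by
      rw [div_le_iff₀ hM0]
      have : al r * S ≤ 1 * S := mul_le_mul_of_nonneg_right hal2.le hS0
      linarith
    have h2 : 0 ≤ K / s := by positivity
    linarith
  have hmu0 : 0 < mu := by
    rw [hmue]
    have h1 : 2 / 3 * M ≤ al r * M := mul_le_mul_of_nonneg_right hal1 hM0.le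
    have hB2 : 1 ≤ B ^ 2 := one_le_pow₀ hB
    have h2 : 2 * (r * B ^ 2) ≤ 2 / 3 * M := by
      have h3 : 3 * (r * B ^ 2) ≤ r ^ 2 * B ^ 4 := by
        have h4 : (3 : ℝ) * (r * B ^ 2) ≤ r * (r * B ^ 2) := by
          apply mul_le_mul_of_nonneg_right hr3; positivity
        have h5 : (r : ℝ) * (r * B ^ 2) ≤ r * (r * B ^ 2) * B ^ 2 := by
          have : 0 ≤ (r : ℝ) * (r * B ^ 2) := by positivity
          have := mul_le_mul_of_nonneg_left hB2 this
          linarith
        have h6 : (r : ℝ) * (r * B ^ 2) * B ^ 2 = r ^ 2 * B ^ 4 := by ring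
        linarith
      have h7 : (0 : ℝ) ≤ r * B ^ 3 := by positivity
      linarith
    have h8 : 0 < (r : ℝ) * B ^ 2 := by positivity
    linarith
  refine ⟨mu, hmu0, le_rfl, ?_⟩
  set a : ℝ := mu + M / r with ha
  have halr : al r * M = M - M / r := by unfold al; field_simp
  have hae : a = M - e := by rw [ha, hmue, halr]; ring
  have ha0 : 0 < a := by
    have : 0 < M / r := by positivity
    linarith
  -- main inequality
  have key : e * (a * (a + B * s)) ≤ mu * S := by
    by_cases he0 : e ≤ 0
    · have h1 : 0 ≤ a * (a + B * s) := by positivity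
      have h2 : 0 ≤ mu * S := by positivity
      have h3 : e * (a * (a + B * s)) ≤ 0 := mul_nonpos_of_nonpos_of_nonneg he0 h1
      linarith
    · push Not at he0
      have haM : a ≤ M := by linarith
      have h1 : a * (a + B * s) ≤ M * (M + B * s) := by
        apply mul_le_mul haM (by linarith) (by positivity) hM0.le
      have h2 : e * (a * (a + B * s)) ≤ e * (M * (M + B * s)) :=
        mul_le_mul_of_nonneg_left h1 he0.le
      have h3 : e * (M * (M + B * s)) = al r * S * (M + B * s) - K * s * (M + B * s) := by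
        rw [he]
        have : K / s * M = K * s := by rw [← hss]; field_simp
        have h4 : al r * S / M * M = al r * S := by field_simp
        calc (al r * S / M - K / s) * (M * (M + B * s))
            = (al r * S / M * M) * (M + B * s) - (K / s * M) * (M + B * s) := by ring
          _ = _ := by rw [this, h4]
      have h5 : e ≤ S / M := by
        have h6 : al r * S / M ≤ S / M := by
          exact div_le_div_of_nonneg_right hS1 hM0.le
        have h7 : 0 ≤ K / s := by positivity
        linarith
      have h8 : S * e ≤ r ^ 2 * B ^ 4 * M := by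
        have h9 : S * e ≤ S * (S / M) := mul_le_mul_of_nonneg_left h5 hS0
        have h10 : S / M ≤ r * B ^ 2 := by rw [div_le_iff₀ hM0]; exact hSB
        have h11 : S * (S / M) ≤ (r * B ^ 2 * M) * (r * B ^ 2) :=
          mul_le_mul hSB h10 (by positivity) (by positivity)
        calc S * e ≤ (r * B ^ 2 * M) * (r * B ^ 2) := h9.trans h11
          _ = _ := by ring
      have h12 : al r * S * (B * s) ≤ r * B ^ 3 * (M * s) := by
        have h13 : al r * S ≤ r * B ^ 2 * M := hS1.trans hSB
        calc al r * S * (B * s) ≤ (r * B ^ 2 * M) * (B * s) :=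
              mul_le_mul_of_nonneg_right h13 (by positivity)
          _ = _ := by ring
      have h14 : mu * S = al r * S * M - S * e := by rw [hmue]; ring
      have h15 : r ^ 2 * B ^ 4 * M ≤ r ^ 2 * B ^ 4 * (M * s) := by
        apply mul_le_mul_of_nonneg_left _ (by positivity)
        have := mul_le_mul_of_nonneg_left hs1 hM0.le
        linarith
      have h16 : 0 ≤ K * s * (B * s) := by positivity
      have h17 : K * s * M = r * B ^ 3 * (M * s) + r ^ 2 * B ^ 4 * (M * s) + M * s := by
        rw [hKd]; ring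
      have h18 : 0 < M * s := by positivity
      rw [h14]
      have h19 : al r * S * (M + B * s) = al r * S * M + al r * S * (B * s) := by ring
      have h20 : K * s * (M + B * s) = K * s * M + K * s * (B * s) := by ring
      rw [h3, h19, h20] at h2
      linarith
  -- sum of the terms
  have hpos : ∀ i, 0 < mu + n i := fun i => by have := hn i; linarith
  have hterm : ∀ i, 1 / a - (n i - M / r) / a ^ 2 + (n i - M / r) ^ 2 / (a ^ 2 * (a + B * s)) ≤
      1 / (mu + n i) := by
    intro i
    have h1 := KM.term a (n i - M / r) (B * s) ha0 (by rw [ha]; have := hpos i; linarith)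
      ((le_abs_self _).trans (hb i))
    have h2 : a + (n i - M / r) = mu + n i := by rw [ha]; ring
    rw [h2] at h1
    exact h1
  have hsum : (r : ℝ) / a + S / (a ^ 2 * (a + B * s)) ≤ ∑ i, 1 / (mu + n i) := by
    refine le_trans (le_of_eq ?_) (Finset.sum_le_sum fun i _ => hterm i)
    have e1 : ∑ i : Fin r, (n i - M / r) = 0 := by
      rw [Finset.sum_sub_distrib, ← hM]
      simp only [sum_const, card_univ, Fintype.card_fin, nsmul_eq_mul]
      field_simp
      ring
    have e2 : ∑ i : Fin r, (n i - M / r) / a ^ 2 = 0 := by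
      rw [← Finset.sum_div, e1, zero_div]
    have e3 : ∑ i : Fin r, (n i - M / r) ^ 2 / (a ^ 2 * (a + B * s)) =
        S / (a ^ 2 * (a + B * s)) := by
      rw [← Finset.sum_div, ← hS]
    rw [Finset.sum_add_distrib, Finset.sum_sub_distrib, e2, e3]
    simp only [sum_const, card_univ, Fintype.card_fin, nsmul_eq_mul]
    ring
  have hfin : ∑ i, n i / (mu + n i) = r - mu * ∑ i, 1 / (mu + n i) := by
    rw [Finset.mul_sum]
    have : (r : ℝ) = ∑ _i : Fin r, (1 : ℝ) := by simp
    rw [this, ← Finset.sum_sub_distrib]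
    refine Finset.sum_congr rfl fun i _ => ?_
    have := (hpos i).ne'
    field_simp
    ring
  rw [hfin]
  have h1 : mu * ((r : ℝ) / a + S / (a ^ 2 * (a + B * s))) ≤ mu * ∑ i, 1 / (mu + n i) :=
    mul_le_mul_of_nonneg_left hsum hmu0.le
  have h2 : (r : ℝ) - 1 ≤ mu * ((r : ℝ) / a + S / (a ^ 2 * (a + B * s))) := by
    have h3 : mu = a - M / r := by rw [ha]; ring
    have h4 : mu * ((r : ℝ) / a) = r - M / a := by
      rw [h3]; field_simp
    have h5 : M / a - 1 = e / a := by
      have h6 : e = M - a := by linarith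
      rw [h6]; field_simp
    have h6 : e / a ≤ mu * (S / (a ^ 2 * (a + B * s))) := by
      have h7 : 0 < a + B * s := by positivity
      rw [← mul_div_assoc, div_le_div_iff₀ ha0 (by positivity)]
      calc e * (a ^ 2 * (a + B * s)) = (e * (a * (a + B * s))) * a := by ring
        _ ≤ (mu * S) * a := mul_le_mul_of_nonneg_right key ha0.le
    rw [mul_add, h4]
    linarith
  linarith

end Pool.Agent.Work.MP_5532fa_up
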