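import Pool.Agent.Work.MP_5532fa_up.Interface

/-! # Block KS (helper68) -/

open Finset

namespace Pool.Agent.Work.MP_5532fa_up

open MP5532fa (specRad qf pE)

theorem blk_KS : Stmt_KS := by
  classical
  intro r V _ H c mu hmu hs y
  obtain ⟨z, hz⟩ : ∃ z : V → ℝ, z = fun v => 1 / (mu + sz H c (c v)) := ⟨_, rfl⟩
  have hsz : ∀ i, 0 ≤ sz H c i := fun i => Nat.cast_nonneg _
  have hzp : ∀ v, 0 < z v := by
    intro v
    rw [hz]
    have := hsz (c v)
    positivity
  obtain ⟨M, hM⟩ : ∃ M : V → V → ℝ, M = fun u v => chi (u ∈ H ∧ v ∈ H ∧ c u ≠ c v) := ⟨_, rfl⟩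
  have hM0 : ∀ u v, 0 ≤ M u v := fun u v => by rw [hM]; exact chi_nonneg _
  have hMs : ∀ u v, M u v = M v u := by
    intro u v
    rw [hM]
    apply chi_congr
    constructor
    · rintro ⟨h1, h2, h3⟩; exact ⟨h2, h1, fun h => h3 h.symm⟩
    · rintro ⟨h1, h2, h3⟩; exact ⟨h2, h1, fun h => h3 h.symm⟩
  have hrow : ∀ u, ∑ v, M u v * z v ≤ mu * z u := by
    intro u
    have h1 : ∑ v, M u v * z v ≤ ∑ v ∈ H, if c v ≠ c u then z v else 0 := by
      rw [← Finset.sum_filter_add_sum_filter_not univ (fun v => v ∈ H)]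
      have e1 : ∑ v ∈ univ.filter (fun v => ¬ v ∈ H), M u v * z v = 0 := by
        apply Finset.sum_eq_zero
        intro v hv
        rw [Finset.mem_filter] at hv
        rw [hM]
        simp only
        rw [chi_neg (fun h => hv.2 h.2.1), zero_mul]
      rw [e1, add_zero]
      have e2 : univ.filter (fun v => v ∈ H) = H := by ext v; simp
      rw [e2]
      apply Finset.sum_le_sum
      intro v hv
      rw [hM]
      simp only
      split_ifs with h
      · calc _ ≤ 1 * z v := mul_le_mul_of_nonneg_right (chi_le_one _) (hzp v).le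
          _ = z v := one_mul _
      · rw [chi_neg (fun h' => h (fun h'' => h'.2.2 h''.symm)), zero_mul]
    have h2 : ∑ v ∈ H, (if c v ≠ c u then z v else 0) =
        ∑ i, if i ≠ c u then sz H c i / (mu + sz H c i) else 0 := by
      rw [← sum_cl H c]
      apply Finset.sum_congr rfl
      intro i _
      by_cases hi : i ≠ c u
      · rw [if_pos hi]
        have : ∀ v ∈ cl H c i, (if c v ≠ c u then z v else 0) = 1 / (mu + sz H c i) := by
          intro v hv
          rw [mem_cl] at hv
          rw [hv.2, if_pos hi, hz]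
          simp only
          rw [hv.2]
        rw [Finset.sum_congr rfl this, Finset.sum_const, nsmul_eq_mul]
        unfold sz
        ring
      · rw [if_neg hi]
        apply Finset.sum_eq_zero
        intro v hv
        rw [mem_cl] at hv
        rw [hv.2, if_neg hi]
    have h3 : ∑ i, (if i ≠ c u then sz H c i / (mu + sz H c i) else 0) =
        ∑ i, sz H c i / (mu + sz H c i) - sz H c (c u) / (mu + sz H c (c u)) := by
      rw [← Finset.sum_filter, ← Finset.sum_erase_eq_sub (Finset.mem_univ (c u))]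
      apply Finset.sum_congr _ (fun _ _ => rfl)
      ext i
      simp
    have h4 : 1 - sz H c (c u) / (mu + sz H c (c u)) = mu * z u := by
      rw [hz]
      have := hsz (c u)
      field_simp
      ring
    rw [h2, h3] at h1
    linarith
  -- Schur
  have h5 : ∀ u v, M u v * (y u * y v) ≤
      (1 / 2) * (M u v * z v * (y u ^ 2 / z u)) + (1 / 2) * (M v u * z u * (y v ^ 2 / z v)) := by
    intro u v
    rw [hMs v u]
    have hu := hzp u
    have hv := hzp v
    have h6 : y u * y v ≤ (1 / 2) * (z v * (y u ^ 2 / z u)) + (1 / 2) * (z u * (y v ^ 2 / z v)) := by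
      have : (1 / 2) * (z v * (y u ^ 2 / z u)) + (1 / 2) * (z u * (y v ^ 2 / z v)) - y u * y v =
          (z v * y u - z u * y v) ^ 2 / (2 * z u * z v) := by
        field_simp
        ring
      have h7 : 0 ≤ (z v * y u - z u * y v) ^ 2 / (2 * z u * z v) := by positivity
      linarith
    have := mul_le_mul_of_nonneg_left h6 (hM0 u v)
    nlinarith
  have h8 : ∀ u, ∑ v, M u v * z v * (y u ^ 2 / z u) ≤ mu * y u ^ 2 := by
    intro u
    rw [← Finset.sum_mul]
    have hu := hzp u
    calc (∑ v, M u v * z v) * (y u ^ 2 / z u) ≤ mu * z u * (y u ^ 2 / z u) :=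
          mul_le_mul_of_nonneg_right (hrow u) (by positivity)
      _ = mu * y u ^ 2 := by field_simp
  have e3 : ∑ u, ∑ v, chi (u ∈ H ∧ v ∈ H ∧ c u ≠ c v) * (y u * y v) =
      ∑ u, ∑ v, M u v * (y u * y v) := by rw [hM]
  rw [e3]
  calc ∑ u, ∑ v, M u v * (y u * y v)
      ≤ ∑ u, ∑ v, ((1 / 2) * (M u v * z v * (y u ^ 2 / z u)) +
          (1 / 2) * (M v u * z u * (y v ^ 2 / z v))) :=
        Finset.sum_le_sum fun u _ => Finset.sum_le_sum fun v _ => h5 u v
    _ = (1 / 2) * ∑ u, ∑ v, M u v * z v * (y u ^ 2 / z u) +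
          (1 / 2) * ∑ v, ∑ u, M v u * z u * (y v ^ 2 / z v) := by
        simp only [Finset.sum_add_distrib]
        rw [Finset.sum_comm (f := fun u v => (1 / 2) * (M v u * z u * (y v ^ 2 / z v)))]
        simp only [← Finset.mul_sum]
    _ ≤ (1 / 2) * ∑ u, mu * y u ^ 2 + (1 / 2) * ∑ v, mu * y v ^ 2 := by
        have := Finset.sum_le_sum fun u (_ : u ∈ (univ : Finset V)) => h8 u
        linarith
    _ = mu * ∑ v, y v ^ 2 := by
        rw [← Finset.mul_sum]
        ring

end Pool.Agent.Work.MP_5532fa_up
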