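import Pool.Agent.Work.MP_5532fa_up.Interface

/-!
# MP_5532fa_co, block LAB (helper83): graphs given by labels
-/

set_option autoImplicit false

open Finset

namespace Pool.Agent.Work.MP_5532fa_up

open MP5532fa (specRad qf pE UpToIsolated specRad_of_upTo)

namespace LAB

variable {L V V' : Type}

/-- the fibres of the restricted label function -/
noncomputable def fe (K : Finset V) (l : V → L) (s : L) :
    {x : {v // v ∈ K} // l x.1 = s} ≃ {v // v ∈ fib K l s} :=
  (Equiv.subtypeSubtypeEquivSubtypeInter (fun v => v ∈ K) (fun v => l v = s)).trans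
    (Equiv.subtypeEquivRight fun _ => mem_fib.symm)

theorem exists_equiv (K : Finset V) (K' : Finset V') (l : V → L) (l' : V' → L)
    (h : ∀ s : L, (fib K l s).card = (fib K' l' s).card) :
    ∃ e : {v // v ∈ K} ≃ {v // v ∈ K'}, ∀ x, l' (e x).1 = l x.1 := by
  have E : ∀ s : L, {x : {v // v ∈ K} // l x.1 = s} ≃ {x : {v // v ∈ K'} // l' x.1 = s} :=
    fun s => ((fe K l s).trans (Finset.equivOfCardEq (h s))).trans (fe K' l' s).symm
  refine ⟨(Equiv.sigmaFiberEquiv (fun x : {v // v ∈ K} => l x.1)).symm.trans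
    ((Equiv.sigmaCongrRight E).trans
      (Equiv.sigmaFiberEquiv (fun x : {v // v ∈ K'} => l' x.1))), ?_⟩
  intro x
  exact (E (l x.1) ⟨x, rfl⟩).2

theorem upTo (G : SimpleGraph V) (K : Finset V)
    (hK : ∀ a b, G.Adj a b → a ∈ K) :
    UpToIsolated G (G.comap (Subtype.val : {v // v ∈ K} → V)) := by
  refine ⟨SimpleGraph.Embedding.comap ⟨Subtype.val, Subtype.val_injective⟩ G, ?_⟩
  intro v hv w hvw
  exact hv ⟨⟨v, hK v w hvw⟩, rfl⟩

/-- both graphs are the same graph `D` up to isolated vertices -/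
theorem iso (R : L → L → Prop) (G : SimpleGraph V) (G' : SimpleGraph V') (K : Finset V)
    (K' : Finset V') (l : V → L) (l' : V' → L)
    (hG : ∀ a b, G.Adj a b ↔ a ∈ K ∧ b ∈ K ∧ a ≠ b ∧ R (l a) (l b))
    (hG' : ∀ a b, G'.Adj a b ↔ a ∈ K' ∧ b ∈ K' ∧ a ≠ b ∧ R (l' a) (l' b))
    (hcard : ∀ s : L, (fib K l s).card = (fib K' l' s).card) :
    UpToIsolated G (G.comap (Subtype.val : {v // v ∈ K} → V)) ∧
      UpToIsolated G' (G.comap (Subtype.val : {v // v ∈ K} → V)) := by
  classical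
  obtain ⟨e, he⟩ := exists_equiv K K' l l' hcard
  have u1 := upTo G K fun a b h => ((hG a b).mp h).1
  have u2 := upTo G' K' fun a b h => ((hG' a b).mp h).1
  have iso : G.comap (Subtype.val : {v // v ∈ K} → V) ≃g
      G'.comap (Subtype.val : {v // v ∈ K'} → V') := by
    refine ⟨e, ?_⟩
    intro a b
    show G'.Adj (e a).1 (e b).1 ↔ G.Adj a.1 b.1
    rw [hG', hG, he a, he b]
    constructor
    · rintro ⟨-, -, h3, h4⟩
      refine ⟨a.2, b.2, ?_, h4⟩
      intro h
      apply h3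
      rw [Subtype.ext h]
    · rintro ⟨-, -, h3, h4⟩
      refine ⟨(e a).2, (e b).2, ?_, h4⟩
      intro h
      apply h3
      rw [e.injective (Subtype.ext h)]
  exact ⟨u1, u2.trans_iso iso⟩

end LAB

theorem blk_LAB : Stmt_LAB := by
  intro L V V' _ _ R G G' K K' l l' hG hG' hcard hne
  obtain ⟨u1, u3⟩ := LAB.iso R G G' K K' l l' hG hG' hcard
  have : Nonempty {v // v ∈ K} := by
    obtain ⟨v, hv⟩ := hne
    exact ⟨⟨v, hv⟩⟩
  rw [specRad_of_upTo u1, specRad_of_upTo u3]

end Pool.Agent.Work.MP_5532fa_up
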