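import Pool.Agent.Work.MP_5532fa_up.Interface

open Finset

namespace Pool.Agent.Work.MP_5532fa_up

namespace LC

section
variable {V : Type} [Fintype V]

theorem greedy (G : SimpleGraph V) (r : ℕ) (S : Finset V) (f : V → Fin r)
    (hf : ∀ a ∈ S, ∀ b ∈ S, G.Adj a b → f a ≠ f b)
    (hdeg : ∀ v, v ∉ S → (nb G univ v).card < r) : G.Colorable r := by
  classical
  have h : ∀ T : Finset V, ∃ g : V → Fin r, ∀ a ∈ S ∪ T, ∀ b ∈ S ∪ T, G.Adj a b → g a ≠ g b := by
    intro T
    induction T using Finset.induction_on with
    | empty => exact ⟨f, by simpa using hf⟩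
    | insert v T hv ih =>
      obtain ⟨g, hg⟩ := ih
      by_cases hvS : v ∈ S
      · refine ⟨g, ?_⟩
        have e : S ∪ insert v T = S ∪ T := by
          ext a
          simp only [Finset.mem_union, Finset.mem_insert]
          constructor
          · rintro (h | rfl | h)
            · left; exact h
            · left; exact hvS
            · right; exact h
          · rintro (h | h)
            · left; exact h
            · right; right; exact h
        rw [e]; exact hg
      · have h1 : ((nb G univ v).image g).card < r :=
          lt_of_le_of_lt Finset.card_image_le (hdeg v hvS)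
        obtain ⟨i, hi⟩ : ∃ i : Fin r, i ∉ (nb G univ v).image g := by
          by_contra hcon
          push Not at hcon
          have : (univ : Finset (Fin r)) ⊆ (nb G univ v).image g := fun i _ => hcon i
          have := Finset.card_le_card this
          rw [Finset.card_univ, Fintype.card_fin] at this
          omega
        have hi' : ∀ a, G.Adj v a → g a ≠ i := by
          intro a ha h
          apply hi
          rw [Finset.mem_image]
          exact ⟨a, mem_nb.mpr ⟨Finset.mem_univ _, ha⟩, h⟩
        refine ⟨Function.update g v i, ?_⟩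
        have key : ∀ a, a ∈ S ∪ insert v T → a ≠ v → a ∈ S ∪ T := by
          intro a ha hav
          simp only [Finset.mem_union, Finset.mem_insert] at ha ⊢
          rcases ha with h | h | h
          · left; exact h
          · exact absurd h hav
          · right; exact h
        intro a ha b hb hab
        by_cases hav : a = v
        · subst hav
          have hba : b ≠ a := hab.ne'
          rw [Function.update_self, Function.update_of_ne hba]
          exact (hi' b hab).symm
        · by_cases hbv : b = v
          · subst hbv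
            rw [Function.update_self, Function.update_of_ne hav]
            exact hi' a hab.symm
          · rw [Function.update_of_ne hav, Function.update_of_ne hbv]
            exact hg a (key a ha hav) b (key b hb hbv) hab
  obtain ⟨g, hg⟩ := h univ
  exact ⟨SimpleGraph.Coloring.mk g fun {a b} hab => hg a (by simp) b (by simp) hab⟩

omit [Fintype V] in
theorem clique_le {G : SimpleGraph V} {r : ℕ} (h : G.CliqueFree (r + 1)) (T : Finset V)
    (hT : ∀ a ∈ T, ∀ b ∈ T, a ≠ b → G.Adj a b) : T.card ≤ r := by
  by_contra hc
  push Not at hc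
  obtain ⟨S, hS, hSc⟩ := Finset.exists_subset_card_eq (s := T) (n := r + 1) hc
  apply h S
  rw [SimpleGraph.isNClique_iff, SimpleGraph.isClique_iff]
  refine ⟨?_, hSc⟩
  intro a ha b hb hab
  exact hT a (hS ha) b (hS hb) hab

theorem dg_univ (G : SimpleGraph V) (H : Finset V) (v : V) :
    (nb G univ v).card = dg G H v + dg G (out H) v := by
  classical
  have h : nb G univ v = nb G H v ∪ nb G (out H) v := by
    ext a
    simp only [Finset.mem_union, mem_nb, mem_out, Finset.mem_univ, true_and]
    by_cases h : a ∈ H <;> simp [h]
  rw [h, Finset.card_union_of_disjoint]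
  · rfl
  · rw [Finset.disjoint_left]
    intro a ha hb
    exact mem_out.mp (mem_nb.mp hb).1 (mem_nb.mp ha).1

/-- the ordered edges outside `H` contain those at `u` -/
theorem eu_ge (G : SimpleGraph V) (H : Finset V) (u : V) (hu : u ∉ H) :
    2 * dg G (out H) u ≤ eu G H := by
  classical
  have hd : Disjoint ((nb G (out H) u).image (fun b => (u, b)))
      ((nb G (out H) u).image (fun b => (b, u))) := by
    rw [Finset.disjoint_left]
    intro e he he'
    rw [Finset.mem_image] at he he'
    obtain ⟨b, hb, rfl⟩ := he
    obtain ⟨b', hb', h⟩ := he'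
    rw [Prod.mk.injEq] at h
    rw [mem_nb] at hb'
    exact hb'.2.ne h.1.symm
  have h1 : ((nb G (out H) u).image (fun b => (u, b))).card = dg G (out H) u :=
    Finset.card_image_of_injective _ (fun a b h => (Prod.mk.inj h).2)
  have h2 : ((nb G (out H) u).image (fun b => (b, u))).card = dg G (out H) u :=
    Finset.card_image_of_injective _ (fun a b h => (Prod.mk.inj h).1)
  have h3 := Finset.card_union_of_disjoint hd
  rw [h1, h2] at h3
  have h4 : ((nb G (out H) u).image (fun b => (u, b))) ∪
      ((nb G (out H) u).image (fun b => (b, u))) ⊆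
      (univ : Finset (V × V)).filter (fun e => G.Adj e.1 e.2 ∧ e.1 ∉ H ∧ e.2 ∉ H) := by
    intro e he
    rw [Finset.mem_union, Finset.mem_image, Finset.mem_image] at he
    rw [Finset.mem_filter]
    rcases he with ⟨b, hb, rfl⟩ | ⟨b, hb, rfl⟩
    · rw [mem_nb, mem_out] at hb
      exact ⟨Finset.mem_univ _, hb.2, hu, hb.1⟩
    · rw [mem_nb, mem_out] at hb
      exact ⟨Finset.mem_univ _, hb.2.symm, hb.1, hu⟩
  have h5 := Finset.card_le_card h4
  rw [h3] at h5
  have h6 : eu G H =
      ((univ : Finset (V × V)).filter (fun e => G.Adj e.1 e.2 ∧ e.1 ∉ H ∧ e.2 ∉ H)).card := by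
    unfold eu
    congr 1
  omega

/-- a further ordered edge -/
theorem eu_gt (G : SimpleGraph V) (H : Finset V) (u : V) (hu : u ∉ H) {a b : V} (ha : a ∉ H)
    (hb : b ∉ H) (hab : G.Adj a b) (hau : a ≠ u) (hbu : b ≠ u) :
    2 * dg G (out H) u < eu G H := by
  classical
  have hd : Disjoint ((nb G (out H) u).image (fun b => (u, b)))
      ((nb G (out H) u).image (fun b => (b, u))) := by
    rw [Finset.disjoint_left]
    intro e he he'
    rw [Finset.mem_image] at he he'
    obtain ⟨b, hb, rfl⟩ := he
    obtain ⟨b', hb', h⟩ := he'
    rw [Prod.mk.injEq] at h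
    rw [mem_nb] at hb'
    exact hb'.2.ne h.1.symm
  have h1 : ((nb G (out H) u).image (fun b => (u, b))).card = dg G (out H) u :=
    Finset.card_image_of_injective _ (fun a b h => (Prod.mk.inj h).2)
  have h2 : ((nb G (out H) u).image (fun b => (b, u))).card = dg G (out H) u :=
    Finset.card_image_of_injective _ (fun a b h => (Prod.mk.inj h).1)
  have h3 := Finset.card_union_of_disjoint hd
  rw [h1, h2] at h3
  have hnot : (a, b) ∉ ((nb G (out H) u).image (fun b => (u, b))) ∪
      ((nb G (out H) u).image (fun b => (b, u))) := by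
    intro he
    rw [Finset.mem_union, Finset.mem_image, Finset.mem_image] at he
    rcases he with ⟨b', _, h⟩ | ⟨b', _, h⟩
    · rw [Prod.mk.injEq] at h; exact hau h.1.symm
    · rw [Prod.mk.injEq] at h; exact hbu h.2.symm
  have h4 : insert (a, b) (((nb G (out H) u).image (fun b => (u, b))) ∪
      ((nb G (out H) u).image (fun b => (b, u)))) ⊆
      (univ : Finset (V × V)).filter (fun e => G.Adj e.1 e.2 ∧ e.1 ∉ H ∧ e.2 ∉ H) := by
    intro e he
    rw [Finset.mem_insert, Finset.mem_union, Finset.mem_image, Finset.mem_image] at he
    rw [Finset.mem_filter]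
    rcases he with rfl | ⟨b, hb, rfl⟩ | ⟨b, hb, rfl⟩
    · exact ⟨Finset.mem_univ _, hab, ha, hb⟩
    · rw [mem_nb, mem_out] at hb
      exact ⟨Finset.mem_univ _, hb.2, hu, hb.1⟩
    · rw [mem_nb, mem_out] at hb
      exact ⟨Finset.mem_univ _, hb.2.symm, hb.1, hu⟩
  have h5 := Finset.card_le_card h4
  rw [Finset.card_insert_of_notMem hnot, h3] at h5
  have h6 : eu G H =
      ((univ : Finset (V × V)).filter (fun e => G.Adj e.1 e.2 ∧ e.1 ∉ H ∧ e.2 ∉ H)).card := by
    unfold eu
    congr 1
  omega

end

end LC

open LC in
theorem blk_LC : Stmt_LC := by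
  intro r hr V _ G c H A w i0 Q hfree hncol hind hw hA hi0 hQ
  classical
  have hwo : w ∈ out H := mem_out.mpr hw
  have hdw : dg G H w = A.card := by rw [hA]; rfl
  have hsumw : ∑ v ∈ out H, dg G H v = A.card + ∑ v ∈ (out H).erase w, dg G H v := by
    rw [← Finset.add_sum_erase _ _ hwo, hdw]
  have hQ' : 2 * ∑ v ∈ (out H).erase w, dg G H v + eu G H = Q := by
    rw [hsumw] at hQ; omega
  -- adjacency to `w`
  have hwA : ∀ a ∈ H, (G.Adj w a ↔ a ∈ A) := by
    intro a ha
    rw [hA, mem_nb]
    exact ⟨fun h => ⟨ha, h⟩, fun h => h.2⟩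
  -- degrees
  have hdeg : ∀ u, u ∉ H → u ≠ w → 2 * (nb G univ u).card ≤ Q := by
    intro u hu huw
    have h1 : dg G H u ≤ ∑ v ∈ (out H).erase w, dg G H v :=
      Finset.single_le_sum (f := fun v => dg G H v) (fun _ _ => Nat.zero_le _)
        (Finset.mem_erase.mpr ⟨huw, mem_out.mpr hu⟩)
    have h2 := eu_ge G H u hu
    rw [dg_univ G H u]
    omega
  have hcw : ∀ (iw : Fin r), cl A c iw = ∅ → ∀ a ∈ H, G.Adj w a → c a ≠ iw := by
    intro iw hiw a ha hwa h
    have : a ∈ cl A c iw := mem_cl.mpr ⟨(hwA a ha).mp hwa, h⟩
    rw [hiw] at this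
    simp at this
  -- colouring of `H` and `w`
  have hbase : ∀ (iw : Fin r), cl A c iw = ∅ → ∀ a ∈ insert w H, ∀ b ∈ insert w H, G.Adj a b →
      Function.update c w iw a ≠ Function.update c w iw b := by
    intro iw hiw a ha b hb hab
    rw [Finset.mem_insert] at ha hb
    by_cases haw : a = w
    · subst haw
      have hbw : b ≠ a := hab.ne'
      rw [Function.update_self, Function.update_of_ne hbw]
      have hbH : b ∈ H := by
        rcases hb with h | h
        · exact absurd h hbw
        · exact h
      exact (hcw iw hiw b hbH hab).symm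
    · have haH : a ∈ H := by
        rcases ha with h | h
        · exact absurd h haw
        · exact h
      by_cases hbw : b = w
      · subst hbw
        rw [Function.update_self, Function.update_of_ne haw]
        exact hcw iw hiw a haH hab.symm
      · have hbH : b ∈ H := by
          rcases hb with h | h
          · exact absurd h hbw
          · exact h
        rw [Function.update_of_ne haw, Function.update_of_ne hbw]
        exact fun h => hind a haH b hbH h hab
  -- some vertex has large degree
  obtain ⟨u, hu, huw, hur⟩ : ∃ u, u ∉ H ∧ u ≠ w ∧ r ≤ (nb G univ u).card := by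
    by_contra hcon
    push Not at hcon
    apply hncol
    refine greedy G r (insert w H) (Function.update c w i0) (hbase i0 hi0) ?_
    intro v hv
    rw [Finset.mem_insert, not_or] at hv
    exact hcon v hv.2 hv.1
  have hud := hdeg u hu huw
  refine ⟨by omega, ?_⟩
  intro hmis hQr
  have hucard : (nb G univ u).card = r := by omega
  have hudg := dg_univ G H u
  -- all further edges are at `u`
  have honly1 : ∀ v, v ∉ H → v ≠ w → v ≠ u → ∀ a ∈ H, ¬ G.Adj v a := by
    intro v hv hvw hvu a ha hva
    have h1 : dg G H u + dg G H v ≤ ∑ v ∈ (out H).erase w, dg G H v := by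
      have h2 : ({u, v} : Finset V) ⊆ (out H).erase w := by
        intro z hz
        rw [Finset.mem_insert, Finset.mem_singleton] at hz
        rw [Finset.mem_erase, mem_out]
        rcases hz with rfl | rfl
        · exact ⟨huw, hu⟩
        · exact ⟨hvw, hv⟩
      have h3 := Finset.sum_le_sum_of_subset (f := fun v => dg G H v) h2
      rw [Finset.sum_pair (Ne.symm hvu)] at h3
      exact h3
    have h2 : 0 < dg G H v := Finset.card_pos.mpr ⟨a, mem_nb.mpr ⟨ha, hva⟩⟩
    have h3 := eu_ge G H u hu
    omega
  have honly2 : ∀ a b, a ∉ H → b ∉ H → G.Adj a b → a = u ∨ b = u := by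
    intro a b ha hb hab
    by_contra hcon
    rw [not_or] at hcon
    have h1 : dg G H u ≤ ∑ v ∈ (out H).erase w, dg G H v :=
      Finset.single_le_sum (f := fun v => dg G H v) (fun _ _ => Nat.zero_le _)
        (Finset.mem_erase.mpr ⟨huw, mem_out.mpr hu⟩)
    have h2 := eu_gt G H u hu ha hb hab hcon.1 hcon.2
    omega
  -- the other vertices have small degree
  have hsmall : ∀ v, v ∉ insert u (insert w H) → (nb G univ v).card < r := by
    intro v hv
    rw [Finset.mem_insert, Finset.mem_insert, not_or, not_or] at hv
    obtain ⟨hvu, hvw, hvH⟩ := hv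
    have : nb G univ v ⊆ {u} := by
      intro a ha
      rw [mem_nb] at ha
      rw [Finset.mem_singleton]
      by_cases haH : a ∈ H
      · exact absurd ha.2 (honly1 v hvH hvw hvu a haH)
      · rcases honly2 v a hvH haH ha.2 with h | h
        · exact absurd h hvu
        · exact h
    have := Finset.card_le_card this
    rw [Finset.card_singleton] at this
    omega
  -- extension of a colouring to `u`
  have hext : ∀ (iw iu : Fin r), cl A c iw = ∅ → (∀ a ∈ H, G.Adj u a → c a ≠ iu) →
      (G.Adj u w → iw ≠ iu) → False := by
    intro iw iu hiw hiu huw'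
    apply hncol
    refine greedy G r (insert u (insert w H))
      (Function.update (Function.update c w iw) u iu) ?_ hsmall
    have key : ∀ b ∈ insert w H, G.Adj u b → Function.update c w iw b ≠ iu := by
      intro b hb hub
      rw [Finset.mem_insert] at hb
      by_cases hbw : b = w
      · subst hbw
        rw [Function.update_self]
        exact huw' hub
      · rw [Function.update_of_ne hbw]
        rcases hb with h | h
        · exact absurd h hbw
        · exact hiu b h hub
    intro a ha b hb hab
    by_cases hau : a = u
    · subst hau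
      have hbu : b ≠ a := hab.ne'
      rw [Function.update_self, Function.update_of_ne hbu]
      refine (key b ?_ hab).symm
      rcases Finset.mem_insert.mp hb with h | h
      · exact absurd h hbu
      · exact h
    · have ha' : a ∈ insert w H := by
        rcases Finset.mem_insert.mp ha with h | h
        · exact absurd h hau
        · exact h
      by_cases hbu : b = u
      · subst hbu
        rw [Function.update_self, Function.update_of_ne hau]
        exact key a ha' hab.symm
      · rw [Function.update_of_ne hau, Function.update_of_ne hbu]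
        refine hbase iw hiw a ha' b ?_ hab
        rcases Finset.mem_insert.mp hb with h | h
        · exact absurd h hbu
        · exact h
  -- `u` has no other neighbours
  have hnou : ∀ u', u' ∉ H → u' ≠ w → ¬ G.Adj u u' := by
    intro u' hu' hu'w huu'
    -- the vertex `u` has at most `r - 1` neighbours in `H + w`
    have h1 : (nb G (insert w H) u).card < r := by
      rw [← hucard]
      apply Finset.card_lt_card
      rw [Finset.ssubset_iff_of_subset]
      · refine ⟨u', mem_nb.mpr ⟨Finset.mem_univ _, huu'⟩, ?_⟩
        intro h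
        rw [mem_nb, Finset.mem_insert] at h
        rcases h.1 with h | h
        · exact hu'w h
        · exact hu' h
      · intro a ha
        rw [mem_nb] at ha ⊢
        exact ⟨Finset.mem_univ _, ha.2⟩
    have h2 : ((nb G (insert w H) u).image (Function.update c w i0)).card < r :=
      lt_of_le_of_lt Finset.card_image_le h1
    obtain ⟨iu, hiu⟩ : ∃ i : Fin r, i ∉ (nb G (insert w H) u).image (Function.update c w i0) := by
      by_contra hcon
      push Not at hcon
      have : (univ : Finset (Fin r)) ⊆ (nb G (insert w H) u).image (Function.update c w i0) :=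
        fun i _ => hcon i
      have := Finset.card_le_card this
      rw [Finset.card_univ, Fintype.card_fin] at this
      omega
    have h3 : ∀ b ∈ insert w H, G.Adj u b → Function.update c w i0 b ≠ iu := by
      intro b hb hub h
      apply hiu
      rw [Finset.mem_image]
      exact ⟨b, mem_nb.mpr ⟨hb, hub⟩, h⟩
    apply hext i0 iu hi0
    · intro a ha hua
      have h4 := h3 a (Finset.mem_insert_of_mem ha) hua
      have haw : a ≠ w := fun h => hw (h ▸ ha)
      rwa [Function.update_of_ne haw] at h4
    · intro huw'
      have h4 := h3 w (Finset.mem_insert_self _ _) huw'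
      rwa [Function.update_self] at h4
  -- different classes in `H` are completely joined
  have hjoin : ∀ a ∈ H, ∀ b ∈ H, c a ≠ c b → G.Adj a b := by
    intro a ha b hb hab
    by_contra hn
    have h1 : 0 < mis G H c := by
      unfold mis
      apply Finset.card_pos.mpr
      refine ⟨(a, b), ?_⟩
      rw [Finset.mem_filter, Finset.mem_product]
      exact ⟨⟨ha, hb⟩, hab, hn⟩
    omega
  set B : Finset V := nb G H u with hB
  -- `u` is adjacent to `w`
  have hadj : G.Adj u w := by
    by_contra hn
    have hall : ∀ i, (cl B c i).Nonempty := by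
      intro i
      by_contra hi
      rw [Finset.not_nonempty_iff_eq_empty] at hi
      refine hext i0 i hi0 ?_ (fun h => absurd h hn)
      intro a ha hua hcai
      have : a ∈ cl B c i := mem_cl.mpr ⟨mem_nb.mpr ⟨ha, hua⟩, hcai⟩
      rw [hi] at this
      simp at this
    choose f hf using hall
    have hf1 : ∀ i, f i ∈ H ∧ G.Adj u (f i) ∧ c (f i) = i := by
      intro i
      have h1 := mem_cl.mp (hf i)
      have h2 := mem_nb.mp h1.1
      exact ⟨h2.1, h2.2, h1.2⟩
    have hinj : Function.Injective f := by
      intro i k hik
      rw [← (hf1 i).2.2, ← (hf1 k).2.2, hik]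
    have h1 := clique_le hfree (insert u (univ.image f)) (by
      intro a ha b hb hab
      rw [Finset.mem_insert, Finset.mem_image] at ha hb
      rcases ha with rfl | ⟨i, _, rfl⟩ <;> rcases hb with rfl | ⟨k, _, rfl⟩
      · exact absurd rfl hab
      · exact (hf1 k).2.1
      · exact (hf1 i).2.1.symm
      · apply hjoin _ (hf1 i).1 _ (hf1 k).1
        rw [(hf1 i).2.2, (hf1 k).2.2]
        rintro rfl
        exact hab rfl)
    have h2 : u ∉ univ.image f := by
      intro h
      rw [Finset.mem_image] at h
      obtain ⟨i, _, h⟩ := h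
      exact hu (h ▸ (hf1 i).1)
    rw [Finset.card_insert_of_notMem h2, Finset.card_image_of_injective _ hinj, Finset.card_univ,
      Fintype.card_fin] at h1
    omega
  -- size of `B`
  have hBc : B.card + 1 = r := by
    have h1 : nb G univ u = insert w B := by
      ext a
      rw [mem_nb, Finset.mem_insert, hB, mem_nb]
      constructor
      · rintro ⟨_, h⟩
        by_cases haw : a = w
        · left; exact haw
        · by_cases haH : a ∈ H
          · right; exact ⟨haH, h⟩
          · exact absurd h (hnou a haH haw)
      · rintro (rfl | h)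
        · exact ⟨Finset.mem_univ _, hadj⟩
        · exact ⟨Finset.mem_univ _, h.2⟩
    have h2 : w ∉ B := fun h => hw (mem_nb.mp h).1
    rw [← hucard, h1, Finset.card_insert_of_notMem h2]
  have hcu : ∀ i, cl B c i = ∅ → ∀ a ∈ H, G.Adj u a → c a ≠ i := by
    intro i hi a ha hua h
    have : a ∈ cl B c i := mem_cl.mpr ⟨mem_nb.mpr ⟨ha, hua⟩, h⟩
    rw [hi] at this
    simp at this
  have heq : ∀ i k, cl A c i = ∅ → cl B c k = ∅ → i = k := by
    intro i k hi hk
    by_contra hne
    exact hext i k hi (hcu k hk) (fun _ => hne)
  -- the free class of `u`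
  obtain ⟨k, hk⟩ : ∃ k, cl B c k = ∅ := by
    by_contra hcon
    push Not at hcon
    have h1 : r ≤ B.card := by
      have h2 := sum_card_cl B c
      have h3 : ∑ _i : Fin r, 1 ≤ ∑ i, (cl B c i).card :=
        Finset.sum_le_sum fun i _ => Finset.card_pos.mpr (hcon i)
      simp only [sum_const, card_univ, Fintype.card_fin, smul_eq_mul, mul_one] at h3
      omega
    omega
  have hki : i0 = k := heq i0 k hi0 hk
  subst hki
  have hAne : ∀ i, i ≠ i0 → (cl A c i).Nonempty := by
    intro i hi
    by_contra hn
    rw [Finset.not_nonempty_iff_eq_empty] at hn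
    exact hi (heq i i0 hn hk)
  have hBne : ∀ i, i ≠ i0 → (cl B c i).Nonempty := by
    intro i hi
    by_contra hn
    rw [Finset.not_nonempty_iff_eq_empty] at hn
    exact hi (heq i0 i hi0 hn).symm
  have hB1 : ∀ i, i ≠ i0 → (cl B c i).card = 1 := by
    intro i hi
    have h1 : 1 ≤ (cl B c i).card := Finset.card_pos.mpr (hBne i hi)
    by_contra hne
    have h2 : 2 ≤ (cl B c i).card := by omega
    have h3 := sum_card_cl B c
    have h4 : ∑ i ∈ univ.erase i0, (cl B c i).card ≤ ∑ i, (cl B c i).card :=
      Finset.sum_le_sum_of_subset (Finset.erase_subset _ _)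
    have h5 : i ∈ univ.erase i0 := Finset.mem_erase.mpr ⟨hi, Finset.mem_univ _⟩
    have h6 : ∑ _i ∈ univ.erase i0, 1 < ∑ i ∈ univ.erase i0, (cl B c i).card := by
      apply Finset.sum_lt_sum
      · intro j hj
        exact Finset.card_pos.mpr (hBne j (Finset.mem_erase.mp hj).1)
      · exact ⟨i, h5, by omega⟩
    rw [Finset.sum_const, Finset.card_erase_of_mem (Finset.mem_univ _), Finset.card_univ,
      Fintype.card_fin, smul_eq_mul, mul_one] at h6
    omega
  have hBA : ¬ B ⊆ A := by
    intro hBA
    have hBcl : ∀ a ∈ B, ∀ b ∈ B, a ≠ b → c a ≠ c b := by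
      intro a ha b hb hab h
      have hci : c a ≠ i0 := by
        intro h'
        have : a ∈ cl B c i0 := mem_cl.mpr ⟨ha, h'⟩
        rw [hk] at this
        simp at this
      obtain ⟨z, hz⟩ := Finset.card_eq_one.mp (hB1 (c a) hci)
      have h1 : a ∈ cl B c (c a) := mem_cl.mpr ⟨ha, rfl⟩
      have h2 : b ∈ cl B c (c a) := mem_cl.mpr ⟨hb, h.symm⟩
      rw [hz, Finset.mem_singleton] at h1 h2
      exact hab (h1.trans h2.symm)
    have huB : u ∉ B := fun h => hu (mem_nb.mp h).1
    have hwB : w ∉ insert u B := by
      rw [Finset.mem_insert, not_or]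
      exact ⟨Ne.symm huw, fun h => hw (mem_nb.mp h).1⟩
    have h1 := clique_le hfree (insert w (insert u B)) (by
      intro a ha b hb hab
      rw [Finset.mem_insert, Finset.mem_insert] at ha hb
      rcases ha with rfl | rfl | ha <;> rcases hb with rfl | rfl | hb
      · exact absurd rfl hab
      · exact hadj.symm
      · exact (hwA b (mem_nb.mp hb).1).mpr (hBA hb)
      · exact hadj
      · exact absurd rfl hab
      · exact (mem_nb.mp hb).2
      · exact ((hwA a (mem_nb.mp ha).1).mpr (hBA ha)).symm
      · exact (mem_nb.mp ha).2.symm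
      · exact hjoin a (mem_nb.mp ha).1 b (mem_nb.mp hb).1 (hBcl a ha b hb hab))
    rw [Finset.card_insert_of_notMem hwB, Finset.card_insert_of_notMem huB] at h1
    omega
  have hAH : A ⊆ H := by rw [hA]; intro a ha; exact (mem_nb.mp ha).1
  have hBH : B ⊆ H := fun a ha => (mem_nb.mp ha).1
  have huB' : ∀ a ∈ H, (G.Adj u a ↔ a ∈ B) := fun a ha =>
    ⟨fun h => mem_nb.mpr ⟨ha, h⟩, fun h => (mem_nb.mp h).2⟩
  refine ⟨u, B, i0, rfl, hw, hu, Ne.symm huw, hAH, hBH, hi0, hk, hAne, hB1, hBA, ?_⟩
  intro a b
  constructor
  · intro hab
    by_cases haH : a ∈ H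
    · by_cases hbH : b ∈ H
      · left
        exact ⟨haH, hbH, fun h => hind a haH b hbH h hab⟩
      · by_cases hbw : b = w
        · right; right; left
          refine ⟨hbw, (hwA a haH).mp ?_⟩
          rw [← hbw]; exact hab.symm
        · by_cases hbu : b = u
          · right; right; right; right; left
            refine ⟨hbu, (huB' a haH).mp ?_⟩
            rw [← hbu]; exact hab.symm
          · exact absurd hab.symm (honly1 b hbH hbw hbu a haH)
    · by_cases hbH : b ∈ H
      · by_cases haw : a = w
        · right; left
          refine ⟨haw, (hwA b hbH).mp ?_⟩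
          rw [← haw]; exact hab
        · by_cases hau : a = u
          · right; right; right; left
            refine ⟨hau, (huB' b hbH).mp ?_⟩
            rw [← hau]; exact hab
          · exact absurd hab (honly1 a haH haw hau b hbH)
      · rcases honly2 a b haH hbH hab with h | h
        · right; right; right; right; right; right
          refine ⟨h, ?_⟩
          by_contra hbw
          rw [h] at hab
          exact hnou b hbH hbw hab
        · right; right; right; right; right; left
          refine ⟨?_, h⟩
          by_contra haw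
          rw [h] at hab
          exact hnou a haH haw hab.symm
  · rintro (⟨ha, hb, h⟩ | ⟨rfl, h⟩ | ⟨rfl, h⟩ | ⟨rfl, h⟩ | ⟨rfl, h⟩ | ⟨rfl, rfl⟩ | ⟨rfl, rfl⟩)
    · exact hjoin a ha b hb h
    · exact (hwA b (hAH h)).mpr h
    · exact ((hwA a (hAH h)).mpr h).symm
    · exact (huB' b (hBH h)).mpr h
    · exact ((huB' a (hBH h)).mpr h).symm
    · exact hadj.symm
    · exact hadj

end Pool.Agent.Work.MP_5532fa_up
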