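import Pool.Agent.Work.MP_5532fa_up.Interface

set_option autoImplicit false

open Finset

namespace Pool.Agent.Work.MP_5532fa_up

open MP5532fa (specRad qf pE)

namespace LOWG

section
variable {V : Type} [Fintype V] {r : ℕ}

omit [Fintype V] in
theorem chi_and (p q : Prop) : chi (p ∧ q) = chi p * chi q := by
  by_cases hp : p
  · by_cases hq : q
    · rw [chi_pos ⟨hp, hq⟩, chi_pos hp, chi_pos hq, mul_one]
    · rw [chi_neg (fun h => hq h.2), chi_neg hq, mul_zero]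
  · rw [chi_neg (fun h => hp h.1), chi_neg hp, zero_mul]

omit [Fintype V] in
theorem chi_not (p : Prop) : chi (¬ p) = 1 - chi p := by
  by_cases hp : p
  · rw [chi_neg (fun h => h hp), chi_pos hp, sub_self]
  · rw [chi_pos hp, chi_neg hp, sub_zero]

omit [Fintype V] in
theorem v1_mem {G : SimpleGraph V} {N : ℕ} {H : Finset V} {c : V → Fin r} {w : V} {A : Finset V}
    {v1 v2 : V} (h : WD G N H c w A v1 v2) : v1 ∈ A := by
  have : v1 ∈ cl A c (c v1) := by rw [h.h1]; exact Finset.mem_singleton_self v1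
  exact (mem_cl.mp this).1

omit [Fintype V] in
theorem v2_mem {G : SimpleGraph V} {N : ℕ} {H : Finset V} {c : V → Fin r} {w : V} {A : Finset V}
    {v1 v2 : V} (h : WD G N H c w A v1 v2) : v2 ∈ A := by
  have : v2 ∈ cl A c (c v2) := by rw [h.h2]; exact Finset.mem_singleton_self v2
  exact (mem_cl.mp this).1

omit [Fintype V] in
/-- the adjacency of a graph of type D -/
theorem ad_WD {G : SimpleGraph V} {N : ℕ} {H : Finset V} {c : V → Fin r} {w : V} {A : Finset V}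
    {v1 v2 : V} (h : WD G N H c w A v1 v2) (a b : V) :
    ad G a b = chi (a ∈ H) * chi (b ∈ H) * (1 - chi (c b = c a)) + chi (a = w) * chi (b ∈ A)
      + chi (b = w) * chi (a ∈ A) - chi (a = v1) * chi (b = v2) - chi (a = v2) * chi (b = v1) := by
  have hv1 := h.hA (v1_mem h)
  have hv2 := h.hA (v2_mem h)
  have h21 : c v2 ≠ c v1 := h.h12.symm
  have hne : v1 ≠ v2 := fun h0 => h.h12 (by rw [h0])
  have hw1 : w ≠ v1 := fun h0 => h.hw (h0 ▸ hv1)
  have hw2 : w ≠ v2 := fun h0 => h.hw (h0 ▸ hv2)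
  have hwA : w ∉ A := fun h0 => h.hw (h.hA h0)
  have adjiff := h.adj a b
  unfold ad
  rw [← chi_not, ← chi_and, ← chi_and, ← chi_and, ← chi_and, ← chi_and, ← chi_and]
  by_cases e0 : (a ∈ H ∧ b ∈ H) ∧ ¬ c b = c a
  · have ea : a ≠ w := fun h0 => h.hw (h0 ▸ e0.1.1)
    have eb : b ≠ w := fun h0 => h.hw (h0 ▸ e0.1.2)
    rw [chi_pos e0, chi_neg (p := a = w ∧ b ∈ A) (fun h0 => ea h0.1),
      chi_neg (p := b = w ∧ a ∈ A) (fun h0 => eb h0.1)]
    by_cases e1 : a = v1 ∧ b = v2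
    · have e2 : ¬ (a = v2 ∧ b = v1) := fun h0 => hne (e1.1.symm.trans h0.1)
      rw [chi_pos e1, chi_neg e2]
      have : ¬ G.Adj a b := by
        rw [adjiff]; rintro (h0 | h0 | h0)
        · exact h0.2.2.2.1 e1
        · exact ea h0.1
        · exact eb h0.1
      rw [chi_neg this]; ring
    · by_cases e2 : a = v2 ∧ b = v1
      · rw [chi_neg e1, chi_pos e2]
        have : ¬ G.Adj a b := by
          rw [adjiff]; rintro (h0 | h0 | h0)
          · exact h0.2.2.2.2 e2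
          · exact ea h0.1
          · exact eb h0.1
        rw [chi_neg this]; ring
      · rw [chi_neg e1, chi_neg e2]
        have : G.Adj a b := by
          rw [adjiff]
          exact Or.inl ⟨e0.1.1, e0.1.2, fun h0 => e0.2 h0.symm, e1, e2⟩
        rw [chi_pos this]; ring
  · have e1 : ¬ (a = v1 ∧ b = v2) := by
      rintro ⟨rfl, rfl⟩; exact e0 ⟨⟨hv1, hv2⟩, h21⟩
    have e2 : ¬ (a = v2 ∧ b = v1) := by
      rintro ⟨rfl, rfl⟩; exact e0 ⟨⟨hv2, hv1⟩, h.h12⟩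
    rw [chi_neg e0, chi_neg e1, chi_neg e2]
    by_cases e3 : a = w ∧ b ∈ A
    · have e4 : ¬ (b = w ∧ a ∈ A) := fun h0 => hwA (e3.1 ▸ h0.2)
      rw [chi_pos e3, chi_neg e4]
      have : G.Adj a b := by rw [adjiff]; exact Or.inr (Or.inl e3)
      rw [chi_pos this]; ring
    · by_cases e4 : b = w ∧ a ∈ A
      · rw [chi_neg e3, chi_pos e4]
        have : G.Adj a b := by rw [adjiff]; exact Or.inr (Or.inr e4)
        rw [chi_pos this]; ring
      · rw [chi_neg e3, chi_neg e4]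
        have : ¬ G.Adj a b := by
          rw [adjiff]; rintro (h0 | h0 | h0)
          · exact e0 ⟨⟨h0.1, h0.2.1⟩, fun h5 => h0.2.2.1 h5.symm⟩
          · exact e3 h0
          · exact e4 h0
        rw [chi_neg this]; ring

theorem sum_mem (S : Finset V) (f : V → ℝ) : ∑ b, chi (b ∈ S) * f b = ∑ b ∈ S, f b := by
  classical
  have h1 : ∀ b : V, chi (b ∈ S) * f b = if b ∈ S then f b else 0 := by
    intro b
    by_cases hb : b ∈ S
    · rw [chi_pos hb, if_pos hb, one_mul]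
    · rw [chi_neg hb, if_neg hb, zero_mul]
  rw [Finset.sum_congr rfl (fun b _ => h1 b), Finset.sum_ite_mem, Finset.univ_inter]

theorem sum_eq (a : V) (f : V → ℝ) : ∑ b, chi (b = a) * f b = f a := by
  classical
  rw [Finset.sum_eq_single a]
  · rw [chi_pos rfl, one_mul]
  · intro b _ hb; rw [chi_neg hb, zero_mul]
  · intro h0; exact absurd (Finset.mem_univ _) h0

/-- the quadratic form of a graph of type D -/
theorem form {G : SimpleGraph V} {N : ℕ} {H : Finset V} {c : V → Fin r} {w : V} {A : Finset V}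
    {v1 v2 : V} (h : WD G N H c w A v1 v2) (z : V → ℝ) :
    ∑ a, ∑ b, ad G a b * (z a * z b) =
      (∑ v ∈ H, z v) ^ 2 - ∑ i, (cs z H c i) ^ 2 + 2 * (z w * ∑ v ∈ A, z v)
        - 2 * (z v1 * z v2) := by
  classical
  have h1 : ∀ a : V, ∑ b, ad G a b * (z a * z b) =
      chi (a ∈ H) * (z a * ∑ v ∈ H, z v) - chi (a ∈ H) * (z a * cs z H c (c a))
      + chi (a = w) * (z a * ∑ v ∈ A, z v) + chi (a ∈ A) * (z a * z w)
      - chi (a = v1) * (z a * z v2) - chi (a = v2) * (z a * z v1) := by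
    intro a
    have e : ∀ b : V, ad G a b * (z a * z b) =
        chi (a ∈ H) * z a * (chi (b ∈ H) * z b)
        - chi (a ∈ H) * z a * (chi (b ∈ cl H c (c a)) * z b)
        + chi (a = w) * z a * (chi (b ∈ A) * z b) + chi (a ∈ A) * z a * (chi (b = w) * z b)
        - chi (a = v1) * z a * (chi (b = v2) * z b) - chi (a = v2) * z a * (chi (b = v1) * z b) := by
      intro b
      have : chi (b ∈ cl H c (c a)) = chi (b ∈ H) * chi (c b = c a) := by
        rw [← chi_and]; exact chi_congr mem_cl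
      rw [ad_WD h, this]; ring
    rw [Finset.sum_congr rfl (fun b _ => e b), Finset.sum_sub_distrib, Finset.sum_sub_distrib,
      Finset.sum_add_distrib, Finset.sum_add_distrib, Finset.sum_sub_distrib,
      ← Finset.mul_sum, ← Finset.mul_sum, ← Finset.mul_sum, ← Finset.mul_sum, ← Finset.mul_sum,
      ← Finset.mul_sum, sum_mem, sum_mem, sum_mem, sum_eq, sum_eq, sum_eq]
    unfold cs
    ring
  rw [Finset.sum_congr rfl (fun a _ => h1 a), Finset.sum_sub_distrib, Finset.sum_sub_distrib,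
      Finset.sum_add_distrib, Finset.sum_add_distrib, Finset.sum_sub_distrib,
      sum_mem, sum_mem, sum_mem, sum_eq, sum_eq, sum_eq, ← Finset.sum_mul, ← Finset.sum_mul]
  have h2 : ∑ a ∈ H, z a * cs z H c (c a) = ∑ i, (cs z H c i) ^ 2 := by
    rw [← sum_cl H c]
    refine Finset.sum_congr rfl fun i _ => ?_
    have h6 : ∀ v ∈ cl H c i, z v * cs z H c (c v) = z v * cs z H c i := by
      intro v hv
      rw [(mem_cl.mp hv).2]
    rw [Finset.sum_congr rfl h6, ← Finset.sum_mul, sq]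
    rfl
  rw [h2]; ring

end

/-- the final inequality between real numbers -/
theorem core {al R s g d t E Z K B s0 c3 c4 : ℝ} (hR : 1 ≤ R) (hal0 : 2 / 3 ≤ al) (hal1 : al ≤ 1)
    (hs : 0 ≤ s) (hs0 : s ≤ s0) (hg1 : -c3 ≤ g) (hg2 : g ≤ c3) (hd : d ≤ c4) (hc4 : 0 ≤ c4)
    (ht : 0 ≤ t) (ht2 : t ≤ 3 / 2) (hB : 1 ≤ B) (hE : E ≤ B * R) (hZ : Z ≤ (1 + B) ^ 2)
    (hK : K = 2 * (s0 ^ 2 + c4 + c3 + 3 * B + 2 * (1 + B) ^ 2 + s0 * c3 + 6 + 3 * c3)
      + 4 * s0 + 2 * c3 + 1) (hKR : K ≤ R ^ 2) :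
    0 < R ^ 2 - (1 + al) * s + t ^ 2 + g / R ∧
    (al * R ^ 2 - al * s + al * t ^ 2 - K / R) * (R ^ 2 - (1 + al) * s + t ^ 2 + g / R) ≤
      al * R ^ 4 - al * (2 + al) * s * R ^ 2 + s ^ 2 - d + 2 * al * g * R
        + 2 * (al * R ^ 2 * t ^ 2 - t * E) - 2 * Z := by
  have hR0 : 0 < R := by linarith
  have hs00 : 0 ≤ s0 := le_trans hs hs0
  have hc3 : 0 ≤ c3 := by linarith
  have hB0 : 0 ≤ B := by linarith
  have hal : 0 ≤ al := by linarith
  obtain ⟨g', hg'⟩ : ∃ g', g' = g / R := ⟨_, rfl⟩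
  have hgg : g = g' * R := by rw [hg']; field_simp
  obtain ⟨k, hk⟩ : ∃ k, k = K / R := ⟨_, rfl⟩
  rw [← hg', ← hk]
  have cR : c3 * 1 ≤ c3 * R := mul_le_mul_of_nonneg_left hR hc3
  have hgR : -c3 ≤ g' := by
    rw [hg', le_div_iff₀ hR0]
    linarith
  have hgR' : g' ≤ c3 := by
    rw [hg', div_le_iff₀ hR0]
    linarith
  have hM1 : 0 ≤ s0 ^ 2 + c4 + c3 + 3 * B + 2 * (1 + B) ^ 2 + s0 * c3 + 6 + 3 * c3 := by positivity
  have hbig : 4 * s0 + 2 * c3 ≤ R ^ 2 := by linarith only [hM1, hK, hKR]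
  have hals : (1 + al) * s ≤ 2 * s0 :=
    mul_le_mul (by linarith only [hal1]) hs0 hs (by norm_num)
  have hD : R ^ 2 / 2 ≤ R ^ 2 - (1 + al) * s + t ^ 2 + g' := by
    linarith only [sq_nonneg t, hals, hgR, hbig]
  have hDpos : 0 < R ^ 2 - (1 + al) * s + t ^ 2 + g' := by
    have : 0 < R ^ 2 / 2 := by positivity
    linarith only [this, hD]
  refine ⟨hDpos, ?_⟩
  have hK0 : 0 ≤ K := by
    rw [hK]; positivity
  have hk0 : 0 ≤ k := by rw [hk]; positivity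
  -- the gain
  have hgain : K * R / 2 ≤ k * (R ^ 2 - (1 + al) * s + t ^ 2 + g') := by
    have h1 : k * (R ^ 2 / 2) ≤ k * (R ^ 2 - (1 + al) * s + t ^ 2 + g') :=
      mul_le_mul_of_nonneg_left hD hk0
    have h2 : k * (R ^ 2 / 2) = K * R / 2 := by rw [hk]; field_simp
    linarith only [h1, h2]
  -- the expansion
  have key : al * R ^ 4 - al * (2 + al) * s * R ^ 2 + s ^ 2 - d + 2 * al * g * R
        + 2 * (al * R ^ 2 * t ^ 2 - t * E) - 2 * Z
      - (al * R ^ 2 - al * s + al * t ^ 2 - k) * (R ^ 2 - (1 + al) * s + t ^ 2 + g')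
      = s ^ 2 * (1 - al * (1 + al)) - d + al * g' * R ^ 2 - 2 * (t * E) - 2 * Z
        + al * (2 + al) * s * t ^ 2 + al * s * g' - al * t ^ 4 - al * t ^ 2 * g'
        + k * (R ^ 2 - (1 + al) * s + t ^ 2 + g') := by
    rw [hgg]
    ring
  have t2 : t ^ 2 ≤ 9 / 4 := by
    have := pow_le_pow_left₀ ht ht2 2
    linarith only [this, show ((3 : ℝ) / 2) ^ 2 = 9 / 4 by norm_num]
  have t20 : 0 ≤ t ^ 2 := sq_nonneg t
  have b1 : -(s0 ^ 2) ≤ s ^ 2 * (1 - al * (1 + al)) := by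
    have e1 : s ^ 2 ≤ s0 ^ 2 := pow_le_pow_left₀ hs hs0 2
    have e3 : al * (1 + al) ≤ 1 * 2 :=
      mul_le_mul hal1 (by linarith only [hal1]) (by linarith only [hal]) (by norm_num)
    have e2 : -1 ≤ 1 - al * (1 + al) := by linarith only [e3]
    have e4 := mul_le_mul_of_nonneg_left e2 (sq_nonneg s)
    linarith only [e1, e4]
  have b2 : -(c3 * R) ≤ al * g' * R ^ 2 := by
    have e1 : al * g' * R ^ 2 = al * g * R := by rw [hgg]; ring
    have e2 : al * (-c3) ≤ al * g := mul_le_mul_of_nonneg_left hg1 hal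
    have e3 : al * c3 ≤ 1 * c3 := mul_le_mul_of_nonneg_right hal1 hc3
    have e4 : -c3 ≤ al * g := by linarith only [e2, e3]
    have e5 := mul_le_mul_of_nonneg_right e4 hR0.le
    linarith only [e1, e5]
  have b3 : -(3 * B * R) ≤ -(2 * (t * E)) := by
    have e1 : t * E ≤ t * (B * R) := mul_le_mul_of_nonneg_left hE ht
    have e2 : t * (B * R) ≤ 3 / 2 * (B * R) := mul_le_mul_of_nonneg_right ht2 (by positivity)
    linarith only [e1, e2]
  have b4 : 0 ≤ al * (2 + al) * s * t ^ 2 := by positivity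
  have b5 : -(s0 * c3) ≤ al * s * g' := by
    have e1 : al * s ≤ 1 * s0 := mul_le_mul hal1 hs0 hs (by norm_num)
    have e2 : 0 ≤ al * s := by positivity
    have e3 : al * s * (-c3) ≤ al * s * g' := mul_le_mul_of_nonneg_left hgR e2
    have e4 : al * s * c3 ≤ 1 * s0 * c3 := mul_le_mul_of_nonneg_right e1 hc3
    linarith only [e3, e4]
  have b6 : -6 ≤ -(al * t ^ 4) := by
    have e1 : t ^ 4 = t ^ 2 * t ^ 2 := by ring
    have e2 : t ^ 2 * t ^ 2 ≤ 9 / 4 * (9 / 4) := mul_le_mul t2 t2 t20 (by norm_num)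
    have e3 : 0 ≤ t ^ 4 := by positivity
    have e4 : al * t ^ 4 ≤ 1 * t ^ 4 := mul_le_mul_of_nonneg_right hal1 e3
    linarith only [e1, e2, e4]
  have b7 : -(3 * c3) ≤ -(al * t ^ 2 * g') := by
    have e1 : al * t ^ 2 ≤ 1 * (9 / 4) := mul_le_mul hal1 t2 t20 (by norm_num)
    have e2 : 0 ≤ al * t ^ 2 := by positivity
    have e3 : al * t ^ 2 * g' ≤ al * t ^ 2 * c3 := mul_le_mul_of_nonneg_left hgR' e2
    have e4 : al * t ^ 2 * c3 ≤ 1 * (9 / 4) * c3 := mul_le_mul_of_nonneg_right e1 hc3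
    linarith only [e3, e4, hc3]
  have M0 : 0 ≤ s0 ^ 2 + c4 + 2 * (1 + B) ^ 2 + s0 * c3 + 6 + 3 * c3 := by positivity
  have hfin : s0 ^ 2 + c4 + c3 * R + 3 * B * R + 2 * (1 + B) ^ 2 + s0 * c3 + 6 + 3 * c3 ≤
      K * R / 2 := by
    have e1 : s0 ^ 2 + c4 + 2 * (1 + B) ^ 2 + s0 * c3 + 6 + 3 * c3 ≤
        (s0 ^ 2 + c4 + 2 * (1 + B) ^ 2 + s0 * c3 + 6 + 3 * c3) * R :=
      le_mul_of_one_le_right M0 hR
    have e2 : K * R / 2 = (s0 ^ 2 + c4 + 2 * (1 + B) ^ 2 + s0 * c3 + 6 + 3 * c3) * R + c3 * R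
        + 3 * B * R + (4 * s0 + 2 * c3 + 1) * R / 2 := by rw [hK]; ring
    have e3 : 0 ≤ (4 * s0 + 2 * c3 + 1) * R / 2 := by positivity
    linarith only [e1, e2, e3]
  have hX : 0 ≤ s ^ 2 * (1 - al * (1 + al)) - d + al * g' * R ^ 2 - 2 * (t * E) - 2 * Z
        + al * (2 + al) * s * t ^ 2 + al * s * g' - al * t ^ 4 - al * t ^ 2 * g'
        + k * (R ^ 2 - (1 + al) * s + t ^ 2 + g') := by
    linarith only [b1, b2, b3, b4, b5, b6, b7, hd, hZ, hgain, hfin]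
  linarith only [key, hX]

/-- sums over the classes -/
theorem sum1 {r : ℕ} (xi : Fin r → ℝ) {N : ℝ} (hr : (3 : ℝ) ≤ r) (hN : 0 < N) (h0 : ∑ i, xi i = 0)
    (al : ℝ) : ∑ i, (N / r + al * xi i - xi i ^ 2 / N) = N - (∑ i, xi i ^ 2) / N := by
  have hr0 : (0 : ℝ) < r := by linarith
  have : ∀ i ∈ (univ : Finset (Fin r)), (N / r + al * xi i - xi i ^ 2 / N) =
      N / r + al * xi i - 1 / N * xi i ^ 2 := by
    intro i _
    ring
  rw [Finset.sum_congr rfl this, Finset.sum_sub_distrib, Finset.sum_add_distrib,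
    ← Finset.mul_sum, ← Finset.mul_sum, h0, Finset.sum_const, Finset.card_univ,
    Fintype.card_fin, nsmul_eq_mul]
  field_simp
  ring

theorem sum2 {r : ℕ} (xi : Fin r → ℝ) {N : ℝ} (hr : (3 : ℝ) ≤ r) (hN : 0 < N) (h0 : ∑ i, xi i = 0)
    (al : ℝ) : ∑ i, (N / r + al * xi i - xi i ^ 2 / N) ^ 2 =
      N ^ 2 / r + al ^ 2 * (∑ i, xi i ^ 2) + (∑ i, xi i ^ 4) / N ^ 2 - 2 * (∑ i, xi i ^ 2) / r
      - 2 * al * (∑ i, xi i ^ 3) / N := by
  have hr0 : (0 : ℝ) < r := by linarith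
  have : ∀ i ∈ (univ : Finset (Fin r)), (N / r + al * xi i - xi i ^ 2 / N) ^ 2 =
      N ^ 2 / r ^ 2 + 2 * (N / r) * al * xi i + (al ^ 2 - 2 / r) * xi i ^ 2
        + (1 / N ^ 2) * xi i ^ 4 - (2 * al / N) * xi i ^ 3 := by
    intro i _
    field_simp
    ring
  rw [Finset.sum_congr rfl this, Finset.sum_sub_distrib, Finset.sum_add_distrib,
    Finset.sum_add_distrib, Finset.sum_add_distrib, ← Finset.mul_sum, ← Finset.mul_sum,
    ← Finset.mul_sum, ← Finset.mul_sum, h0, Finset.sum_const, Finset.card_univ,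
    Fintype.card_fin, nsmul_eq_mul]
  field_simp
  ring

theorem sum3 {r : ℕ} (xi : Fin r → ℝ) {N : ℝ} (hr : (3 : ℝ) ≤ r) (hN : 0 < N) (h0 : ∑ i, xi i = 0)
    {al : ℝ} (hal : al = 1 - 1 / r) : ∑ i, (N / r + xi i) * (1 - xi i / N) ^ 2 =
      N - (1 + al) * (∑ i, xi i ^ 2) / N + (∑ i, xi i ^ 3) / N ^ 2 := by
  have hr0 : (0 : ℝ) < r := by linarith
  have : ∀ i ∈ (univ : Finset (Fin r)), (N / r + xi i) * (1 - xi i / N) ^ 2 =
      N / r + (1 - 2 / r) * xi i + (1 / (r * N) - 2 / N) * xi i ^ 2 + (1 / N ^ 2) * xi i ^ 3 := by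
    intro i _
    field_simp
    ring
  rw [Finset.sum_congr rfl this, Finset.sum_add_distrib, Finset.sum_add_distrib,
    Finset.sum_add_distrib, ← Finset.mul_sum, ← Finset.mul_sum,
    ← Finset.mul_sum, h0, Finset.sum_const, Finset.card_univ,
    Fintype.card_fin, nsmul_eq_mul, hal]
  field_simp
  ring

theorem sum_abs_pow {r : ℕ} (xi : Fin r → ℝ) {b : ℝ} (hb : ∀ i, |xi i| ≤ b) (m : ℕ) :
    ∑ i, |xi i| ^ m ≤ r * b ^ m := by
  have : ∀ i ∈ (univ : Finset (Fin r)), |xi i| ^ m ≤ b ^ m :=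
    fun i _ => pow_le_pow_left₀ (abs_nonneg _) (hb i) m
  have h2 := Finset.sum_le_card_nsmul _ _ _ this
  rw [Finset.card_univ, Fintype.card_fin, nsmul_eq_mul] at h2
  exact h2

theorem sumpow {r : ℕ} (xi : Fin r → ℝ) {b : ℝ} (hb : ∀ i, |xi i| ≤ b) :
    ∑ i, xi i ^ 2 ≤ r * b ^ 2 ∧ |∑ i, xi i ^ 3| ≤ r * b ^ 3 ∧ ∑ i, xi i ^ 4 ≤ r * b ^ 4 := by
  refine ⟨?_, ?_, ?_⟩
  · have e : ∑ i, xi i ^ 2 = ∑ i, |xi i| ^ 2 := Finset.sum_congr rfl fun i _ => (sq_abs _).symm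
    rw [e]; exact sum_abs_pow xi hb 2
  · have e1 : |∑ i, xi i ^ 3| ≤ ∑ i, |xi i ^ 3| := Finset.abs_sum_le_sum_abs _ _
    have e2 : ∑ i, |xi i ^ 3| = ∑ i, |xi i| ^ 3 := Finset.sum_congr rfl fun i _ => abs_pow _ _
    exact (e1.trans_eq e2).trans (sum_abs_pow xi hb 3)
  · have e : ∑ i, xi i ^ 4 = ∑ i, |xi i| ^ 4 := by
      refine Finset.sum_congr rfl fun i _ => ?_
      rw [← abs_pow, abs_of_nonneg (by positivity)]
    rw [e]; exact sum_abs_pow xi hb 4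

theorem fin_real {al rr N R S C3 C4 t E Z K B s0 c3 c4 a lam : ℝ} (hal : al = 1 - 1 / rr)
    (hR : 1 ≤ R) (hR2 : R ^ 2 = N) (hal0 : 2 / 3 ≤ al) (hal1 : al ≤ 1)
    (hS0 : 0 ≤ S) (hS : S ≤ s0 * R ^ 2) (hC3 : |C3| ≤ c3 * R ^ 3) (hC4 : C4 ≤ c4 * R ^ 4)
    (hc4 : 0 ≤ c4) (ht : 0 ≤ t) (ht2 : t ≤ 3 / 2) (ha : a = al * N * t) (hB : 1 ≤ B)
    (hE : E ≤ B * R) (hZ : Z ≤ (1 + B) ^ 2)
    (hK : K = 2 * (s0 ^ 2 + c4 + c3 + 3 * B + 2 * (1 + B) ^ 2 + s0 * c3 + 6 + 3 * c3)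
      + 4 * s0 + 2 * c3 + 1) (hKN : K ≤ N)
    (hray : (N - S / N) ^ 2 - (N ^ 2 / rr + al ^ 2 * S + C4 / N ^ 2 - 2 * S / rr
      - 2 * al * C3 / N) + 2 * (t * (a - E)) - 2 * Z ≤
        lam * (N - (1 + al) * S / N + C3 / N ^ 2 + t ^ 2)) :
    al * N - al * S / N + al * t ^ 2 - K / R ≤ lam := by
  have hR0 : 0 < R := by linarith
  subst hR2
  obtain ⟨hDpos, hcore⟩ := core (al := al) (R := R) (s := S / R ^ 2) (g := C3 / R ^ 3)
    (d := C4 / R ^ 4) (t := t) (E := E) (Z := Z) (K := K) (B := B) (s0 := s0)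
    (c3 := c3) (c4 := c4) hR hal0 hal1 (by positivity)
    (by rw [div_le_iff₀ (by positivity)]; exact hS)
    (by
      rw [le_div_iff₀ (by positivity)]
      have := (abs_le.mp hC3).1
      linarith only [this])
    (by
      rw [div_le_iff₀ (by positivity)]
      exact (abs_le.mp hC3).2)
    (by rw [div_le_iff₀ (by positivity)]; exact hC4) hc4 ht ht2 hB hE hZ hK hKN
  have eD : R ^ 2 - (1 + al) * (S / R ^ 2) + t ^ 2 + C3 / R ^ 3 / R =
      R ^ 2 - (1 + al) * S / R ^ 2 + C3 / (R ^ 2) ^ 2 + t ^ 2 := by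
    field_simp
    ring
  have eQ : al * R ^ 4 - al * (2 + al) * (S / R ^ 2) * R ^ 2 + (S / R ^ 2) ^ 2 - C4 / R ^ 4
        + 2 * al * (C3 / R ^ 3) * R + 2 * (al * R ^ 2 * t ^ 2 - t * E) - 2 * Z =
      (R ^ 2 - S / R ^ 2) ^ 2 - ((R ^ 2) ^ 2 / rr + al ^ 2 * S + C4 / (R ^ 2) ^ 2 - 2 * S / rr
      - 2 * al * C3 / R ^ 2) + 2 * (t * (a - E)) - 2 * Z := by
    have e1 : (1 : ℝ) / rr = 1 - al := by rw [hal]; ring
    have e2 : (R ^ 2) ^ 2 / rr = (R ^ 2) ^ 2 * (1 - al) := by rw [← e1]; ring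
    have e3 : 2 * S / rr = 2 * S * (1 - al) := by rw [← e1]; ring
    rw [e2, e3, ha]
    field_simp
    ring
  rw [eD, eQ] at hcore
  rw [eD] at hDpos
  have hfin := le_of_mul_le_mul_right (le_trans hcore hray) hDpos
  have eL : al * R ^ 2 - al * S / R ^ 2 + al * t ^ 2 - K / R =
      al * R ^ 2 - al * (S / R ^ 2) + al * t ^ 2 - K / R := by ring
  rw [eL]
  exact hfin

end LOWG

open LOWG in
theorem blk_LOWG : Stmt_LOWG := by
  classical
  intro r B hr hB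
  have hrr : (3 : ℝ) ≤ r := by exact_mod_cast hr
  have hr0 : (0 : ℝ) < r := by linarith
  have hB0 : 0 < B := by linarith
  obtain ⟨s0, hs0d⟩ : ∃ s0 : ℝ, s0 = r * B ^ 2 := ⟨_, rfl⟩
  obtain ⟨c3, hc3d⟩ : ∃ c3 : ℝ, c3 = r * B ^ 3 := ⟨_, rfl⟩
  obtain ⟨c4, hc4d⟩ : ∃ c4 : ℝ, c4 = r * B ^ 4 := ⟨_, rfl⟩
  have hs00 : 0 ≤ s0 := by rw [hs0d]; positivity
  have hc30 : 0 ≤ c3 := by rw [hc3d]; positivity
  have hc40 : 0 ≤ c4 := by rw [hc4d]; positivity
  obtain ⟨K, hK⟩ : ∃ K : ℝ, K = 2 * (s0 ^ 2 + c4 + c3 + 3 * B + 2 * (1 + B) ^ 2 + s0 * c3 + 6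
      + 3 * c3) + 4 * s0 + 2 * c3 + 1 := ⟨_, rfl⟩
  have hK1 : 1 ≤ K := by
    rw [hK]
    have : 0 ≤ 2 * (s0 ^ 2 + c4 + c3 + 3 * B + 2 * (1 + B) ^ 2 + s0 * c3 + 6 + 3 * c3)
      + 4 * s0 + 2 * c3 := by positivity
    linarith only [this]
  refine ⟨K, hK1, ?_⟩
  intro V _ G N H c w A v1 v2 h hKN hdev
  have hal0 := al_ge hr
  have hal1 := (al_lt hr).le
  have hN1 : (1 : ℝ) ≤ N := le_trans hK1 hKN
  have hN0 : (0 : ℝ) < N := by linarith only [hN1]
  obtain ⟨R, hRd⟩ : ∃ R : ℝ, R = √(N : ℝ) := ⟨_, rfl⟩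
  rw [← hRd] at hdev ⊢
  have hR2 : R ^ 2 = N := by rw [hRd]; exact Real.sq_sqrt hN0.le
  have hR1 : 1 ≤ R := by
    rw [hRd]; exact Real.one_le_sqrt.mpr hN1
  have hR0 : 0 < R := by linarith only [hR1]
  -- deviations
  obtain ⟨xi, hxi⟩ : ∃ xi : Fin r → ℝ, ∀ i, xi i = sz H c i - N / r := ⟨_, fun _ => rfl⟩
  have hxiB : ∀ i, |xi i| ≤ B * R := fun i => by rw [hxi]; exact hdev i
  have hsumn : ∑ i, sz H c i = N := by
    have := sum_card_cl H c
    rw [h.card] at this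
    change ∑ i, ((cl H c i).card : ℝ) = N
    exact_mod_cast this
  have hsumxi : ∑ i, xi i = 0 := by
    rw [Finset.sum_congr rfl (fun i _ => hxi i), Finset.sum_sub_distrib, hsumn, Finset.sum_const,
      Finset.card_univ, Fintype.card_fin, nsmul_eq_mul]
    field_simp
    ring
  have himb : imb H c = ∑ i, xi i ^ 2 := by
    unfold imb
    rw [h.card]
    exact Finset.sum_congr rfl fun i _ => by rw [hxi]
  obtain ⟨hSs, hC3b, hC4b⟩ := sumpow xi hxiB
  have hS0 : 0 ≤ ∑ i, xi i ^ 2 := Finset.sum_nonneg fun i _ => sq_nonneg _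
  -- t
  obtain ⟨t, ht⟩ : ∃ t : ℝ, t = (A.card : ℝ) / (al r * N) := ⟨_, rfl⟩
  rw [← ht]
  have halN : 0 < al r * N := mul_pos (by linarith only [hal0]) hN0
  have hAN : (A.card : ℝ) ≤ N := by
    have := Finset.card_le_card h.hA
    rw [h.card] at this
    exact_mod_cast this
  have ht0 : 0 ≤ t := by rw [ht]; positivity
  have ht2 : t ≤ 3 / 2 := by
    rw [ht, div_le_iff₀ halN]
    have := mul_le_mul_of_nonneg_right hal0 hN0.le
    linarith only [this, hAN]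
  have htA : (A.card : ℝ) = al r * N * t := by
    rw [ht]; field_simp
  -- the test vector
  obtain ⟨z, hz⟩ : ∃ z : V → ℝ, ∀ v, z v = if v ∈ H then 1 - xi (c v) / N else
    if v = w then t else 0 := ⟨_, fun _ => rfl⟩
  have zH : ∀ v ∈ H, z v = 1 - xi (c v) / N := by
    intro v hv
    rw [hz, if_pos hv]
  have zw : z w = t := by
    rw [hz, if_neg h.hw, if_pos rfl]
  have z0 : ∀ v, v ∉ H → v ≠ w → z v = 0 := by
    intro v hv hvw
    rw [hz, if_neg hv, if_neg hvw]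
  have szx : ∀ i, sz H c i = N / r + xi i := by
    intro i; rw [hxi]; ring
  have hal : al r = 1 - 1 / r := rfl
  have csz : ∀ i, cs z H c i = N / r + al r * xi i - xi i ^ 2 / N := by
    intro i
    have e1 : cs z H c i = sz H c i * (1 - xi i / N) := by
      unfold cs
      have : ∀ v ∈ cl H c i, z v = 1 - xi i / N := by
        intro v hv
        rw [mem_cl] at hv
        rw [zH v hv.1, hv.2]
      rw [Finset.sum_congr rfl this, Finset.sum_const, nsmul_eq_mul]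
      rfl
    rw [e1, szx, hal]
    field_simp
    ring
  have sumH : ∑ v ∈ H, z v = N - (∑ i, xi i ^ 2) / N := by
    rw [← sum_cl H c z, ← sum1 xi hrr hN0 hsumxi (al r)]
    exact Finset.sum_congr rfl fun i _ => csz i
  have sumcs : ∑ i, (cs z H c i) ^ 2 = N ^ 2 / r + (al r) ^ 2 * (∑ i, xi i ^ 2)
      + (∑ i, xi i ^ 4) / N ^ 2 - 2 * (∑ i, xi i ^ 2) / r
      - 2 * al r * (∑ i, xi i ^ 3) / N := by
    rw [← sum2 xi hrr hN0 hsumxi (al r)]
    exact Finset.sum_congr rfl fun i _ => by rw [csz i]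
  have sumsq : ∑ v, z v ^ 2 = N - (1 + al r) * (∑ i, xi i ^ 2) / N
      + (∑ i, xi i ^ 3) / N ^ 2 + t ^ 2 := by
    have e1 : ∑ v, z v ^ 2 = ∑ v ∈ H, z v ^ 2 + t ^ 2 := by
      rw [← Finset.sum_subset (Finset.subset_univ (insert w H)), Finset.sum_insert h.hw, zw]
      · ring
      · intro v _ hv
        rw [Finset.mem_insert, not_or] at hv
        rw [z0 v hv.2 hv.1]; ring
    rw [e1, ← sum_cl H c (fun v => z v ^ 2), ← sum3 xi hrr hN0 hsumxi hal]
    congr 1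
    refine Finset.sum_congr rfl fun i _ => ?_
    have e2 : ∀ v ∈ cl H c i, z v ^ 2 = (1 - xi i / N) ^ 2 := by
      intro v hv
      rw [mem_cl] at hv
      rw [zH v hv.1, hv.2]
    rw [Finset.sum_congr rfl e2, Finset.sum_const, nsmul_eq_mul, ← szx]
    rfl
  obtain ⟨E, hE⟩ : ∃ E : ℝ, E = ∑ v ∈ A, xi (c v) / N := ⟨_, rfl⟩
  have sumA : ∑ v ∈ A, z v = A.card - E := by
    rw [hE, Finset.sum_congr rfl (fun v hv => zH v (h.hA hv)), Finset.sum_sub_distrib,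
      Finset.sum_const, nsmul_eq_mul, mul_one]
  have hEb : E ≤ B * R := by
    have e1 : ∀ v ∈ A, xi (c v) / N ≤ B * R / N := by
      intro v _
      exact div_le_div_of_nonneg_right (le_trans (le_abs_self _) (hxiB _)) hN0.le
    have e2 := Finset.sum_le_card_nsmul _ _ _ e1
    rw [nsmul_eq_mul] at e2
    have e3 : (A.card : ℝ) * (B * R / N) ≤ N * (B * R / N) :=
      mul_le_mul_of_nonneg_right hAN (by positivity)
    have e4 : N * (B * R / N) = B * R := by field_simp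
    rw [hE]
    linarith only [e2, e3, e4]
  have zb : ∀ v ∈ H, |z v| ≤ 1 + B := by
    intro v hv
    rw [zH v hv]
    have e1 : |xi (c v) / N| ≤ B := by
      rw [abs_div, abs_of_pos hN0, div_le_iff₀ hN0]
      have e3 := hxiB (c v)
      have e2 : R ≤ N := by
        rw [← hR2, sq]; exact le_mul_of_one_le_right hR0.le hR1
      have e4 := mul_le_mul_of_nonneg_left e2 hB0.le
      linarith only [e3, e4]
    have e2 := abs_sub (1 : ℝ) (xi (c v) / N)
    rw [abs_one] at e2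
    linarith only [e1, e2]
  have hZ : z v1 * z v2 ≤ (1 + B) ^ 2 := by
    have e1 := zb v1 (h.hA (v1_mem h))
    have e2 := zb v2 (h.hA (v2_mem h))
    have e3 : z v1 * z v2 ≤ |z v1| * |z v2| := by rw [← abs_mul]; exact le_abs_self _
    have e4 : |z v1| * |z v2| ≤ (1 + B) * (1 + B) :=
      mul_le_mul e1 e2 (abs_nonneg _) (by linarith only [hB0])
    linarith only [e3, e4]
  -- Rayleigh
  have hV : Nonempty V := ⟨w⟩
  have hray := rayleigh G z
  rw [form h z, sumH, sumcs, sumA, zw, sumsq] at hray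
  rw [himb]
  refine fin_real (al := al r) (rr := r) (N := N) (R := R) (s0 := s0) (c3 := c3) (c4 := c4)
    (B := B) (a := A.card) (E := E) (Z := z v1 * z v2) hal hR1 hR2 hal0 hal1 hS0 ?_ ?_ ?_
    hc40 ht0 ht2 htA hB hEb hZ hK hKN hray
  · rw [hs0d]; linarith only [hSs]
  · rw [hc3d]; linarith only [hC3b]
  · rw [hc4d]; linarith only [hC4b]

end Pool.Agent.Work.MP_5532fa_up
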