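import Pool.Agent.Work.MP_5532fa_up.Interface

/-!
# Block MEAS: measure form of stability
-/

set_option autoImplicit false

open Finset

namespace Pool.Agent.Work.MP_5532fa_up

open MP5532fa (specRad qf pE)

namespace MEAS

variable {V : Type} [Fintype V]

theorem LW_ad (G : SimpleGraph V) (y : V → ℝ) :
    MP5532fa.LW G y univ = ∑ u, ∑ v, ad G u v * (y u * y v) := by
  classical
  unfold MP5532fa.LW
  refine Finset.sum_congr rfl fun u _ => Finset.sum_congr rfl fun v _ => ?_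
  by_cases h : G.Adj u v
  · rw [if_pos h]; unfold ad; rw [chi_pos h, one_mul]
  · rw [if_neg h]; unfold ad; rw [chi_neg h, zero_mul]

theorem IW_chi (G : SimpleGraph V) (y : V → ℝ) {r : ℕ} (c : V → Fin r) :
    MP5532fa.IW G y c univ = ∑ u, ∑ v, chi (G.Adj u v ∧ c u = c v) * (y u * y v) := by
  classical
  unfold MP5532fa.IW
  refine Finset.sum_congr rfl fun u _ => Finset.sum_congr rfl fun v _ => ?_
  by_cases h : G.Adj u v ∧ c u = c v
  · rw [if_pos h, chi_pos h, one_mul]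
  · rw [if_neg h, chi_neg h, zero_mul]

theorem sq_cl (y : V → ℝ) {r : ℕ} (c : V → Fin r) :
    ∑ u, ∑ v, chi (c u = c v) * (y u * y v) = ∑ i, (∑ v ∈ cl univ c i, y v) ^ 2 := by
  have h1 : ∀ u, ∑ v, chi (c u = c v) * (y u * y v) = y u * ∑ v ∈ cl univ c (c u), y v := by
    intro u
    rw [Finset.mul_sum]
    unfold cl
    rw [Finset.sum_filter]
    refine Finset.sum_congr rfl fun v _ => ?_
    by_cases h : c v = c u
    · rw [if_pos h, chi_pos h.symm, one_mul]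
    · rw [if_neg h, chi_neg (fun h' => h h'.symm), zero_mul]
  rw [Finset.sum_congr rfl fun u _ => h1 u, ← sum_cl univ c]
  refine Finset.sum_congr rfl fun i _ => ?_
  have h2 : ∀ u ∈ cl univ c i, y u * ∑ v ∈ cl univ c (c u), y v =
      y u * ∑ v ∈ cl univ c i, y v := fun u hu => by rw [(mem_cl.1 hu).2]
  rw [Finset.sum_congr rfl h2, ← Finset.sum_mul, sq]

theorem split (G : SimpleGraph V) (y : V → ℝ) {r : ℕ} (c : V → Fin r) :
    (∑ v, y v) ^ 2 + ∑ u, ∑ v, chi (G.Adj u v ∧ c u = c v) * (y u * y v) =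
      ∑ u, ∑ v, ad G u v * (y u * y v) + ∑ u, ∑ v, chi (c u = c v) * (y u * y v) +
        ∑ u, ∑ v, chi (c u ≠ c v ∧ ¬ G.Adj u v) * (y u * y v) := by
  have h0 : (∑ v, y v) ^ 2 = ∑ u, ∑ v, y u * y v := by
    rw [sq, Finset.sum_mul_sum]
  rw [h0, ← Finset.sum_add_distrib, ← Finset.sum_add_distrib, ← Finset.sum_add_distrib]
  refine Finset.sum_congr rfl fun u _ => ?_
  rw [← Finset.sum_add_distrib, ← Finset.sum_add_distrib, ← Finset.sum_add_distrib]
  refine Finset.sum_congr rfl fun v _ => ?_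
  unfold ad
  by_cases h1 : G.Adj u v <;> by_cases h2 : c u = c v
  · rw [chi_pos h1, chi_pos h2, chi_pos ⟨h1, h2⟩, chi_neg (fun h => h.2 h1)]
    ring
  · rw [chi_pos h1, chi_neg h2, chi_neg (fun h : G.Adj u v ∧ c u = c v => h2 h.2),
      chi_neg (fun h : c u ≠ c v ∧ ¬ G.Adj u v => h.2 h1)]
    ring
  · rw [chi_neg h1, chi_pos h2, chi_neg (fun h : G.Adj u v ∧ c u = c v => h1 h.1),
      chi_neg (fun h : c u ≠ c v ∧ ¬ G.Adj u v => h.1 h2)]
    ring
  · rw [chi_neg h1, chi_neg h2, chi_neg (fun h : G.Adj u v ∧ c u = c v => h1 h.1),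
      chi_pos ⟨h2, h1⟩]
    ring

end MEAS

theorem blk_MEAS : Stmt_MEAS := by
  intro r D hr hD V _ G x lam t hC
  obtain ⟨q, rfl⟩ : ∃ q, r = q + 1 := ⟨r - 1, by omega⟩
  have hne : Nonempty V := hC.pv.nonempty
  have hal : al (q + 1) = 1 - 1 / ((q : ℝ) + 1) := by
    unfold al
    push_cast
    rfl
  obtain ⟨c, hc⟩ := MP5532fa.nik_data (q := q) G hC.free (x := x) hC.pv.unit
  rw [← hal, MEAS.LW_ad, MEAS.IW_chi] at hc
  set L := ∑ u, ∑ v, ad G u v * (x u ^ 2 * x v ^ 2) with hL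
  set In := ∑ u, ∑ v, chi (G.Adj u v ∧ c u = c v) * (x u ^ 2 * x v ^ 2) with hIn
  have hIn0 : 0 ≤ In := Finset.sum_nonneg fun u _ => Finset.sum_nonneg fun v _ =>
    mul_nonneg (chi_nonneg _) (by positivity)
  have ht : 0 < t := by rw [hC.ht]; exact div_pos hC.pos hC.pe
  have htp : t * pE G = lam := by rw [hC.ht]; exact div_mul_cancel₀ _ hC.pe.ne'
  -- the square sum
  have hS : ∑ u, ∑ v, ad G u v * (x u * x v - t) ^ 2 = L - lam * t := by
    have h1 : ∑ u, ∑ v, ad G u v * (x u * x v - t) ^ 2 =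
        L - 2 * t * ∑ u, ∑ v, ad G u v * (x u * x v) + t ^ 2 * ∑ u, ∑ v, ad G u v := by
      rw [hL, Finset.mul_sum, Finset.mul_sum, ← Finset.sum_sub_distrib, ← Finset.sum_add_distrib]
      refine Finset.sum_congr rfl fun u _ => ?_
      rw [Finset.mul_sum, Finset.mul_sum, ← Finset.sum_sub_distrib, ← Finset.sum_add_distrib]
      refine Finset.sum_congr rfl fun v _ => ?_
      ring
    rw [h1, hC.pv.form, ← pE_ad]
    linear_combination t * htp
  have hS0 : 0 ≤ ∑ u, ∑ v, ad G u v * (x u * x v - t) ^ 2 :=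
    Finset.sum_nonneg fun u _ => Finset.sum_nonneg fun v _ =>
      mul_nonneg (chi_nonneg _) (sq_nonneg _)
  have hdef : al (q + 1) - lam * t ≤ D * t := by
    have h1 := hC.defi
    have h2 : (al (q + 1) - lam * t - D * t) * pE G ≤ 0 := by
      have : (al (q + 1) - lam * t - D * t) * pE G =
          al (q + 1) * pE G - lam ^ 2 - D * lam := by
        linear_combination (-lam - D) * htp
      rw [this]
      linarith
    have h3 : al (q + 1) - lam * t - D * t ≤ 0 := by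
      by_contra h
      push Not at h
      have := mul_pos h hC.pe
      linarith
    linarith
  have hLt : lam * t ≤ L := by rw [hS] at hS0; linarith
  refine ⟨ht, by linarith, by linarith, by rw [hS]; linarith, c, ?_⟩
  -- the missing pairs
  set Mi := ∑ u, ∑ v, chi (c u ≠ c v ∧ ¬ G.Adj u v) * (x u ^ 2 * x v ^ 2) with hMi
  have hMi0 : 0 ≤ Mi := Finset.sum_nonneg fun u _ => Finset.sum_nonneg fun v _ =>
    mul_nonneg (chi_nonneg _) (by positivity)
  have hsp := MEAS.split G (fun v => x v ^ 2) c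

  rw [hC.pv.unit, ← hIn, ← hL, ← hMi, MEAS.sq_cl (fun v => x v ^ 2) c] at hsp
  have hsum1 : ∑ i, ∑ v ∈ cl univ c i, x v ^ 2 = 1 := by
    rw [sum_cl univ c (fun v => x v ^ 2)]
    exact hC.pv.unit
  have hdev : ∑ i, (∑ v ∈ cl univ c i, x v ^ 2 - 1 / ((q + 1 : ℕ) : ℝ)) ^ 2 =
      ∑ i, (∑ v ∈ cl univ c i, x v ^ 2) ^ 2 - 1 / ((q : ℝ) + 1) := by
    have h1 : ∀ i, (∑ v ∈ cl univ c i, x v ^ 2 - 1 / ((q + 1 : ℕ) : ℝ)) ^ 2 =
        (∑ v ∈ cl univ c i, x v ^ 2) ^ 2 -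
          2 / ((q : ℝ) + 1) * (∑ v ∈ cl univ c i, x v ^ 2) + (1 / ((q : ℝ) + 1)) ^ 2 := by
      intro i
      push_cast
      ring
    rw [Finset.sum_congr rfl fun i _ => h1 i, Finset.sum_add_distrib, Finset.sum_sub_distrib,
      ← Finset.mul_sum, hsum1, Finset.sum_const, Finset.card_univ, Fintype.card_fin, nsmul_eq_mul]
    have h2 : ((q : ℝ) + 1) ≠ 0 := by positivity
    push_cast
    field_simp
    ring
  have htot : Mi + ∑ i, (∑ v ∈ cl univ c i, x v ^ 2 - 1 / ((q + 1 : ℕ) : ℝ)) ^ 2 ≤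
      2 * D * t := by
    rw [hdev]
    have : Mi + (∑ i, (∑ v ∈ cl univ c i, x v ^ 2) ^ 2 - 1 / ((q : ℝ) + 1)) =
        al (q + 1) - L + In := by
      rw [hal]
      linarith
    rw [this]
    nlinarith
  have hdev0 : 0 ≤ ∑ i, (∑ v ∈ cl univ c i, x v ^ 2 - 1 / ((q + 1 : ℕ) : ℝ)) ^ 2 :=
    Finset.sum_nonneg fun i _ => sq_nonneg _
  refine ⟨by linarith, fun i => ?_⟩
  have h3 := Finset.single_le_sum (f := fun i =>
    (∑ v ∈ cl univ c i, x v ^ 2 - 1 / ((q + 1 : ℕ) : ℝ)) ^ 2) (fun i _ => sq_nonneg _)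
    (Finset.mem_univ i)
  beta_reduce at h3
  linarith

end Pool.Agent.Work.MP_5532fa_up
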