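import Pool.Agent.Work.MP_5532fa_up.Interface

/-! Block MIND (helper30). -/

open Finset

namespace Pool.Agent.Work.MP_5532fa_up

open MP5532fa (specRad qf pE)

namespace MIND

/-- a transversal clique as a finite set -/
theorem nclique {ι V : Type} [Fintype ι] [DecidableEq V] (G : SimpleGraph V) (f : ι → V)
    (hf : ∀ i k, i ≠ k → G.Adj (f i) (f k)) :
    G.IsNClique (Fintype.card ι) (univ.image f) := by
  rw [SimpleGraph.isNClique_iff]
  constructor
  · intro a ha b hb hab
    rw [Finset.coe_image, Set.mem_image] at ha hb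
    obtain ⟨i, _, rfl⟩ := ha
    obtain ⟨k, _, rfl⟩ := hb
    exact hf i k (fun h => hab (by rw [h]))
  · rw [Finset.card_image_of_injective, Finset.card_univ]
    intro i k hik
    by_contra h
    exact (hf i k h).ne hik

variable {V : Type} [Fintype V] {r : ℕ}

open Classical in
/-- missing pairs at a vertex -/
noncomputable def ms (G : SimpleGraph V) (T : Finset V) (c : V → Fin r) (u : V) : Finset V :=
  T.filter (fun w => c u ≠ c w ∧ ¬ G.Adj u w)

omit [Fintype V] in
theorem mis_eq (G : SimpleGraph V) (T : Finset V) (c : V → Fin r) :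
    mis G T c = ∑ u ∈ T, (ms G T c u).card := by
  classical
  unfold mis ms
  rw [Finset.card_filter, Finset.sum_product]
  refine Finset.sum_congr rfl fun u _ => ?_
  rw [Finset.card_filter]

end MIND

open MIND in
theorem blk_MIND (hG : Stmt_GRD) : Stmt_MIND := by
  classical
  intro r η K hr hη hη4 hK
  have hr0 : (0 : ℝ) < r := by
    have : (3 : ℝ) ≤ r := by exact_mod_cast hr
    linarith
  have hr3 : (3 : ℝ) ≤ r := by exact_mod_cast hr
  refine ⟨8 * r * K, by nlinarith, ?_⟩
  intro V _ G x lam t c T hfree hTD hTE v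
  by_contra hcon
  push Not at hcon
  have ht := hTD.tpos
  have hst : 0 < √t := Real.sqrt_pos.mpr ht
  have hst2 : √t * √t = t := Real.mul_self_sqrt ht.le
  obtain ⟨h, hh⟩ : ∃ h : ℝ, h = 8 * r * K / √t := ⟨_, rfl⟩
  have hh0 : 0 < h := by rw [hh]; positivity
  obtain ⟨L, hL⟩ : ∃ L : ℝ, L = h / (4 * r) := ⟨_, rfl⟩
  have hL0 : 0 < L := by rw [hL]; positivity
  rw [← hh] at hcon
  -- bad vertices
  obtain ⟨bad, hbad⟩ : ∃ bad : Finset V, bad = T.filter (fun u => L < ((ms G T c u).card : ℝ)) :=
    ⟨_, rfl⟩
  have hbadc : (bad.card : ℝ) ≤ h / 2 := by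
    have h1 : (bad.card : ℝ) * L ≤ mis G T c := by
      rw [mis_eq]
      push_cast
      calc (bad.card : ℝ) * L = ∑ u ∈ bad, L := by rw [Finset.sum_const, nsmul_eq_mul]
        _ ≤ ∑ u ∈ bad, ((ms G T c u).card : ℝ) := by
            apply Finset.sum_le_sum
            intro u hu
            rw [hbad, Finset.mem_filter] at hu
            exact hu.2.le
        _ ≤ ∑ u ∈ T, ((ms G T c u).card : ℝ) := by
            apply Finset.sum_le_sum_of_subset_of_nonneg
            · rw [hbad]; exact Finset.filter_subset _ _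
            · intro i _ _; positivity
    have h2 : (bad.card : ℝ) * L ≤ K / t := h1.trans hTE.mis
    have h3 : K / t ≤ h / 2 * L := by
      rw [hL, hh]
      rw [div_le_iff₀ ht]
      have h4 : 8 * r * K / √t / 2 * (8 * r * K / √t / (4 * r)) * t = 8 * r * K ^ 2 := by
        have h5 : ∀ s : ℝ, 0 < s →
            8 * r * K / s / 2 * (8 * r * K / s / (4 * r)) * (s * s) = 8 * r * K ^ 2 := by
          intro s hs
          field_simp
          ring
        have h6 := h5 (√t) hst
        rwa [hst2] at h6
      rw [h4]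
      nlinarith
    exact le_of_mul_le_mul_right (h2.trans h3) hL0
  -- the sets
  obtain ⟨f, hfA, hfadj⟩ := hG (Fin r) V G (fun i => (nb G (cl T c i) v) \ bad) (fun _ => 1) L
    (fun _ => zero_le_one) hL0.le (by
      intro i k hik u hu
      rw [Finset.mem_sdiff, mem_nb, mem_cl] at hu
      obtain ⟨⟨⟨huT, huc⟩, _⟩, hub⟩ := hu
      have h1 : ((ms G T c u).card : ℝ) ≤ L := by
        by_contra h2
        push Not at h2
        exact hub (by rw [hbad, Finset.mem_filter]; exact ⟨huT, h2⟩)
      refine le_trans ?_ h1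
      have h2 : ∑ w ∈ (nb G (cl T c k) v) \ bad, chi (¬ G.Adj u w) * 1 =
          ((((nb G (cl T c k) v) \ bad).filter (fun w => ¬ G.Adj u w)).card : ℝ) := by
        rw [Finset.card_filter]
        push_cast
        refine Finset.sum_congr rfl fun w _ => ?_
        rw [mul_one]
        by_cases h : G.Adj u w
        · rw [chi_neg (not_not.mpr h), if_neg (not_not.mpr h)]
        · rw [chi_pos h, if_pos h]
      rw [h2]
      have h3 : (((nb G (cl T c k) v) \ bad).filter (fun w => ¬ G.Adj u w)) ⊆ ms G T c u := by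
        intro w hw
        rw [Finset.mem_filter, Finset.mem_sdiff, mem_nb, mem_cl] at hw
        unfold ms
        rw [Finset.mem_filter]
        refine ⟨hw.1.1.1.1, ?_, hw.2⟩
        rw [huc, hw.1.1.1.2]
        exact hik
      exact_mod_cast Finset.card_le_card h3) (by
      intro i
      rw [Finset.sum_const, nsmul_eq_mul, mul_one, Fintype.card_fin]
      have h1 : ((nb G (cl T c i) v).card : ℝ) ≤
          (((nb G (cl T c i) v) \ bad).card : ℝ) + bad.card := by
        have := Finset.card_le_card_sdiff_add_card (s := nb G (cl T c i) v) (t := bad)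
        exact_mod_cast this
      have h2 := hcon i
      have h3 : (r : ℝ) * L = h / 4 := by rw [hL]; field_simp
      rw [h3]
      linarith)
  have hcl := nclique G f hfadj
  rw [Fintype.card_fin] at hcl
  have hv : ∀ w ∈ univ.image f, G.Adj v w := by
    intro w hw
    rw [Finset.mem_image] at hw
    obtain ⟨i, _, rfl⟩ := hw
    have := hfA i
    rw [Finset.mem_sdiff, mem_nb] at this
    exact this.1.2
  exact hfree _ (hcl.insert hv)

end Pool.Agent.Work.MP_5532fa_up
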