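import Pool.Agent.Work.MP_5532fa_up.Interface

/-! # Block MKC (helper68) -/

open Finset

namespace Pool.Agent.Work.MP_5532fa_up

open MP5532fa (specRad qf pE)

theorem blk_MKC : Stmt_MKC := by
  intro r B hr hB
  have ha1 := al_ge hr
  have ha2 := al_lt hr
  have hr3 : (3 : ℝ) ≤ r := by exact_mod_cast hr
  refine ⟨3 * (3 + 2 * B), ⌈3 * B⌉₊ + 3 * r, by linarith, ?_⟩
  intro N hN j hj V _ G x lam hfree hpv hp hlam
  have hN1 : 3 * B + 3 * r ≤ N := by
    have h1 := Nat.le_ceil (3 * B)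
    have h2 : ((⌈3 * B⌉₊ + 3 * r : ℕ) : ℝ) ≤ N := by exact_mod_cast hN
    push_cast at h2
    linarith
  have hj0 : (0 : ℝ) ≤ j := Nat.cast_nonneg j
  obtain ⟨hp1, hp2⟩ := abs_le.1 hp
  have haN : 2 / 3 * (N : ℝ) ≤ al r * N := mul_le_mul_of_nonneg_right ha1 (Nat.cast_nonneg N)
  have hl1 : (N : ℝ) / 3 ≤ lam := by linarith
  have hN9 : (9 : ℝ) ≤ N := by linarith
  have hlam0 : 0 < lam := by linarith
  have hpe : 0 < pE G := by
    have h1 : 2 / 3 * (N : ℝ) ^ 2 ≤ al r * N ^ 2 := mul_le_mul_of_nonneg_right ha1 (sq_nonneg _)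
    nlinarith
  refine ⟨hfree, hpv, hlam0, hpe, rfl, ?_⟩
  have h1 : (al r * N - B) ^ 2 ≤ lam ^ 2 := pow_le_pow_left₀ (by linarith) hlam 2
  have h2 : al r * pE G ≤ al r * (al r * N ^ 2 + 2 * (al r * N) + r) := by
    apply mul_le_mul_of_nonneg_left _ (by linarith)
    linarith
  have h3 : al r * (al r * N) ≤ N := by
    have : al r * N ≤ N := by nlinarith
    have h4 : al r * (al r * N) ≤ 1 * (al r * N) :=
      mul_le_mul_of_nonneg_right ha2.le (by linarith)
    linarith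
  have h4 : al r * (r : ℝ) ≤ r := by nlinarith
  have h5 : al r * N * B ≤ N * B := by
    have : al r * N ≤ N := by nlinarith
    exact mul_le_mul_of_nonneg_right this (by linarith)
  have h6 : (3 * (3 + 2 * B)) * (N / 3) ≤ (3 * (3 + 2 * B)) * lam :=
    mul_le_mul_of_nonneg_left hl1 (by linarith)
  nlinarith

end Pool.Agent.Work.MP_5532fa_up
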