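import Pool.Agent.Work.MP_5532fa_up.Interface

/-!
# Block MV1: exchange of one neighbour of `w`
-/

set_option autoImplicit false

open Finset

namespace Pool.Agent.Work.MP_5532fa_up

open MP5532fa (specRad qf pE)

namespace MV1

variable {V : Type} [Fintype V] {r : ℕ}

theorem dbl1 (A : Finset V) (w : V) (x y : V → ℝ) :
    ∑ p, ∑ q, chi (p = w ∧ q ∈ A) * (x p * y q) = x w * ∑ v ∈ A, y v := by
  classical
  rw [Finset.sum_eq_single w]
  · rw [Finset.mul_sum, ← Finset.sum_subset (Finset.subset_univ A)]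
    · refine Finset.sum_congr rfl fun v hv => ?_
      rw [chi_pos ⟨rfl, hv⟩, one_mul]
    · intro v _ hv
      rw [chi_neg (fun h => hv h.2), zero_mul]
  · intro p _ hp
    refine Finset.sum_eq_zero fun q _ => ?_
    rw [chi_neg (fun h => hp h.1), zero_mul]
  · intro h
    exact absurd (Finset.mem_univ w) h

theorem dbl2 (A : Finset V) (w : V) (x y : V → ℝ) :
    ∑ p, ∑ q, chi (q = w ∧ p ∈ A) * (x p * y q) = y w * ∑ v ∈ A, x v := by
  rw [Finset.sum_comm, ← dbl1 A w y x]
  refine Finset.sum_congr rfl fun p _ => Finset.sum_congr rfl fun q _ => ?_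
  ring

end MV1

theorem blk_MV1 (hCSE : Stmt_CSE) : Stmt_MV1 := by
  classical
  intro r V _ G G' H c w A A' J a b x y lam lam' hF hF' hP hP' hlam hlam' hxw hyw haA hbH hbA
    hA' hJ hx hy
  by_contra hcon
  push Not at hcon
  have haH : a ∈ H := hF.hA haA
  have hab : a ≠ b := fun h => hbA (h ▸ haA)
  have haA' : a ∉ A' := fun h => by
    rcases (hA' a).1 h with h1 | h1
    · exact h1.2 rfl
    · exact hab h1
  have hbA' : b ∈ A' := (hA' b).2 (Or.inr rfl)
  have hsum : ∀ f : V → ℝ, ∑ v ∈ A', f v = ∑ v ∈ A, f v - f a + f b := by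
    intro f
    have h1 : A' = insert b (A.erase a) := by
      ext v
      rw [hA', Finset.mem_insert, Finset.mem_erase]
      tauto
    have h2 : b ∉ A.erase a := fun h => hbA (Finset.mem_of_mem_erase h)
    rw [h1, Finset.sum_insert h2, ← Finset.add_sum_erase A f haA]
    ring
  have hpair := pairing hP hP'
  have hdiff : ∑ p, ∑ q, (ad G' p q - ad G p q) * (x p * y q) =
      x w * (y b - y a) + y w * (x b - x a) := by
    have h1 : ∀ p q, (ad G' p q - ad G p q) * (x p * y q) =
        chi (p = w ∧ q ∈ A') * (x p * y q) - chi (p = w ∧ q ∈ A) * (x p * y q) +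
          (chi (q = w ∧ p ∈ A') * (x p * y q) - chi (q = w ∧ p ∈ A) * (x p * y q)) := by
      intro p q
      rw [hF.adj p q, hF'.adj p q]
      ring
    rw [Finset.sum_congr rfl fun p _ => Finset.sum_congr rfl fun q _ => h1 p q]
    simp only [Finset.sum_add_distrib, Finset.sum_sub_distrib]
    rw [MV1.dbl1, MV1.dbl1, MV1.dbl2, MV1.dbl2, hsum x, hsum y]
    ring
  rw [hdiff] at hpair
  obtain ⟨e1, -, -, -⟩ := hCSE r V G H c w A J x lam hF hP
  obtain ⟨f1, -, -, -⟩ := hCSE r V G' H c w A' J y lam' hF' hP'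
  have ea := e1 a haH
  have eb := e1 b hbH
  have fa := f1 a haH
  have fb := f1 b hbH
  rw [chi_pos haA] at ea
  rw [chi_neg hbA] at eb
  rw [chi_neg haA'] at fa
  rw [chi_pos hbA'] at fb
  have hJx : ∑ z, J a z * x z = ∑ z, J b z * x z :=
    Finset.sum_congr rfl fun z _ => by rw [hJ z]
  have hJy : ∑ z, J a z * y z = ∑ z, J b z * y z :=
    Finset.sum_congr rfl fun z _ => by rw [hJ z]
  have hX : lam * (x b - x a) = cs x H c (c a) - cs x H c (c b) - x w := by
    linear_combination eb - ea - hJx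
  have hY : lam' * (y b - y a) = cs y H c (c a) - cs y H c (c b) + y w := by
    linear_combination fb - fa - hJy
  have hYpos : 0 < y b - y a := by
    by_contra h
    push Not at h
    have h1 : lam' * (y b - y a) ≤ 0 := mul_nonpos_of_nonneg_of_nonpos hlam'.le h
    rw [hY] at h1
    linarith
  have hxy : 0 ≤ ∑ v, x v * y v :=
    Finset.sum_nonneg fun v _ => mul_nonneg (hP.nn v) (hP'.nn v)
  have h1 : x w * (y b - y a) + y w * (x b - x a) ≤ 0 := by
    rw [hpair]
    exact mul_nonpos_of_nonpos_of_nonneg (by linarith) hxy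
  have h2 : lam * (x w * (y b - y a) + y w * (x b - x a)) ≤ 0 :=
    mul_nonpos_of_nonneg_of_nonpos hlam.le h1
  have h3 : lam' * (x w * (y b - y a)) ≤ lam * (x w * (y b - y a)) :=
    mul_le_mul_of_nonneg_right hcon (mul_nonneg hxw.le hYpos.le)
  have h4 : lam' * (x w * (y b - y a)) = x w * (cs y H c (c a) - cs y H c (c b) + y w) := by
    rw [← hY]; ring
  have h5 : lam * (y w * (x b - x a)) = y w * (cs x H c (c a) - cs x H c (c b) - x w) := by
    rw [← hX]; ring
  have h6 : 0 < y w * (cs x H c (c a) - cs x H c (c b)) := mul_pos hyw (by linarith)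
  have h7 : 0 ≤ x w * (cs y H c (c a) - cs y H c (c b)) := mul_nonneg hxw.le (by linarith)
  nlinarith

end Pool.Agent.Work.MP_5532fa_up
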