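import Pool.Agent.Work.MP_5532fa_up.Interface

open Finset

namespace Pool.Agent.Work.MP_5532fa_up

namespace OPT1

/-- `fract y * (1 - fract y)` -/
noncomputable def g (y : ℝ) : ℝ := Int.fract y * (1 - Int.fract y)

theorem g_nonneg (y : ℝ) : 0 ≤ g y := by
  unfold g
  have h1 := Int.fract_nonneg y
  have h2 := (Int.fract_lt_one y).le
  exact mul_nonneg h1 (by linarith)

theorem g_of_unit {y : ℝ} (h0 : 0 ≤ y) (h1 : y < 1) : g y = y * (1 - y) := by
  unfold g
  rw [Int.fract_eq_self.2 ⟨h0, h1⟩]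

theorem g_add_int (y : ℝ) (k : ℤ) : g (y + k) = g y := by
  unfold g
  rw [Int.fract_add_intCast]

theorem g_sub (a b : ℝ) : g (a + b) ≤ g a + g b := by
  have ha0 := Int.fract_nonneg a
  have ha1 := Int.fract_lt_one a
  have hb0 := Int.fract_nonneg b
  have hb1 := Int.fract_lt_one b
  have hab : g (a + b) = g (Int.fract a + Int.fract b) := by
    have : a + b = (Int.fract a + Int.fract b) + ((⌊a⌋ + ⌊b⌋ : ℤ) : ℝ) := by
      push_cast
      unfold Int.fract
      ring
    conv_lhs => rw [this]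
    rw [g_add_int]
  rw [hab]
  by_cases h : Int.fract a + Int.fract b < 1
  · rw [g_of_unit (by linarith) h]
    unfold g
    nlinarith [mul_nonneg ha0 hb0]
  · rw [not_lt] at h
    have h2 : g (Int.fract a + Int.fract b) = g (Int.fract a + Int.fract b - 1) := by
      have := g_add_int (Int.fract a + Int.fract b - 1) 1
      rw [← this]
      congr 1
      push_cast
      ring
    rw [h2, g_of_unit (by linarith) (by linarith)]
    unfold g
    nlinarith [mul_nonneg (sub_nonneg.2 ha1.le) (sub_nonneg.2 hb1.le)]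

theorem g_le_abs (y : ℝ) : g y ≤ |y| := by
  have h0 := Int.fract_nonneg y
  have h1 := (Int.fract_lt_one y).le
  rcases le_or_gt 0 y with hy | hy
  · rw [abs_of_nonneg hy]
    have h2 : Int.fract y ≤ y := by
      have : (0:ℝ) ≤ (⌊y⌋ : ℝ) := by exact_mod_cast Int.floor_nonneg.2 hy
      unfold Int.fract
      linarith
    unfold g
    nlinarith
  · rw [abs_of_neg hy]
    have h2 : 1 - Int.fract y ≤ -y := by
      have h3 : ⌊y⌋ ≤ -1 := by
        have : ⌊y⌋ < 0 := Int.floor_lt.2 (by push_cast; exact hy)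
        omega
      have h4 : ((⌊y⌋ : ℤ) : ℝ) ≤ -1 := by exact_mod_cast h3
      unfold Int.fract
      linarith
    unfold g
    nlinarith

theorem g_sum {ι : Type} (s : Finset ι) (X : ι → ℝ) (hX : ∀ v ∈ s, 0 ≤ X v ∧ X v < 1) :
    g (∑ v ∈ s, X v) ≤ ∑ v ∈ s, X v * (1 - X v) := by
  classical
  induction s using Finset.induction_on with
  | empty => simp [g]
  | insert a s ha ih =>
    rw [Finset.sum_insert ha, Finset.sum_insert ha]
    refine (g_sub _ _).trans (add_le_add ?_ (ih fun v hv => hX v (Finset.mem_insert_of_mem hv)))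
    have := hX a (Finset.mem_insert_self _ _)
    rw [g_of_unit this.1 this.2]

end OPT1

open OPT1 in
theorem blk_OPT1 : Stmt_OPT1 := by
  intro ι s X e sg mu x κ κ' δ k hX he hsg hmu hx0 hx1 hκ0 hκ1 hκκ hδ habs
  have hF : g (∑ v ∈ s, X v + e) ≤ ∑ v ∈ s, X v * (1 - X v) + e := by
    refine (g_sub _ _).trans (add_le_add (g_sum s X hX) ?_)
    have := g_le_abs e
    rwa [abs_of_nonneg he] at this
  have hq : g (x + (sg + mu)) ≤ g (∑ v ∈ s, X v + e) + δ := by
    have h1 : x + (sg + mu) + k = (∑ v ∈ s, X v + e) +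
        -(∑ v ∈ s, X v + e - sg - mu - k - x) := by ring
    rw [← g_add_int (x + (sg + mu)) k, h1]
    refine (g_sub _ _).trans (add_le_add le_rfl ((g_le_abs _).trans ?_))
    rw [abs_neg]
    exact habs
  have hF0 : 0 ≤ ∑ v ∈ s, X v * (1 - X v) :=
    Finset.sum_nonneg fun v hv => mul_nonneg (hX v hv).1 (by linarith [(hX v hv).2])
  have hm : 0 ≤ min x κ := le_min hx0 hκ0
  have hm1 : min x κ ≤ x := min_le_left _ _
  have hm2 : min x κ ≤ κ := min_le_right _ _
  have hκmu : κ * mu ≤ κ' * mu := mul_le_mul_of_nonneg_right hκκ hmu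
  by_cases h : x + (sg + mu) < 1
  · rw [g_of_unit (by linarith) h] at hq
    have h3 : (1 - x) * min x κ ≤ (x + (sg + mu)) * (1 - (x + (sg + mu))) + κ * (sg + mu) := by
      have h4 : min x κ * (1 - (x + (sg + mu))) ≤ (x + (sg + mu)) * (1 - (x + (sg + mu))) :=
        mul_le_mul_of_nonneg_right (by linarith) (by linarith)
      have h5 : min x κ * (sg + mu) ≤ κ * (sg + mu) :=
        mul_le_mul_of_nonneg_right hm2 (by linarith)
      nlinarith
    nlinarith
  · rw [not_lt] at h
    have h4 : (1 - x) * min x κ ≤ κ * (1 - x) := by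
      rw [mul_comm κ]
      exact mul_le_mul_of_nonneg_left hm2 (by linarith)
    have h5 : κ * (1 - x) ≤ κ * (sg + mu) := mul_le_mul_of_nonneg_left (by linarith) hκ0
    nlinarith

end Pool.Agent.Work.MP_5532fa_up
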