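import Pool.Agent.Work.MP_5532fa_up.Interface

open Finset

namespace Pool.Agent.Work.MP_5532fa_up

namespace OPT2

/-- `f (1 - f)` for the fractional part `f` -/
noncomputable def gg (z : ℝ) : ℝ := Int.fract z * (1 - Int.fract z)

theorem gg_nonneg (z : ℝ) : 0 ≤ gg z :=
  mul_nonneg (Int.fract_nonneg z) (by have := Int.fract_lt_one z; linarith)

theorem gg_of {z : ℝ} (h0 : 0 ≤ z) (h1 : z < 1) : gg z = z * (1 - z) := by
  unfold gg; rw [Int.fract_eq_self.mpr ⟨h0, h1⟩]

theorem gg_add_le (a b : ℝ) : gg (a + b) ≤ gg a + gg b := by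
  have ha := Int.fract_nonneg a
  have hb := Int.fract_nonneg b
  have ha1 := Int.fract_lt_one a
  have hb1 := Int.fract_lt_one b
  have ea : a = Int.fract a + ⌊a⌋ := (Int.fract_add_floor a).symm
  have eb : b = Int.fract b + ⌊b⌋ := (Int.fract_add_floor b).symm
  by_cases h : Int.fract a + Int.fract b < 1
  · have e : Int.fract (a + b) = Int.fract a + Int.fract b := by
      rw [Int.fract_eq_iff]
      refine ⟨by linarith, h, ⌊a⌋ + ⌊b⌋, ?_⟩
      push_cast
      linarith
    unfold gg
    rw [e]
    nlinarith [mul_nonneg ha hb]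
  · have e : Int.fract (a + b) = Int.fract a + Int.fract b - 1 := by
      rw [Int.fract_eq_iff]
      refine ⟨by linarith, by linarith, ⌊a⌋ + ⌊b⌋ + 1, ?_⟩
      push_cast
      linarith
    unfold gg
    rw [e]
    nlinarith [mul_nonneg (by linarith : 0 ≤ 1 - Int.fract a) (by linarith : 0 ≤ 1 - Int.fract b)]

theorem gg_le_abs (z : ℝ) : gg z ≤ |z| := by
  have h0 := Int.fract_nonneg z
  have h1 := Int.fract_lt_one z
  have e : z = Int.fract z + ⌊z⌋ := (Int.fract_add_floor z).symm
  unfold gg
  rcases le_or_gt 0 z with h | h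
  · have h2 : (0 : ℝ) ≤ ⌊z⌋ := by exact_mod_cast Int.floor_nonneg.mpr h
    rw [abs_of_nonneg h]
    nlinarith
  · have h2 : ⌊z⌋ ≤ -1 := by
      have : ⌊z⌋ < 0 := Int.floor_lt_zero.mpr h
      omega
    have h2' : (⌊z⌋ : ℝ) ≤ -1 := by exact_mod_cast h2
    rw [abs_of_neg h]
    nlinarith

theorem gg_sub_int (z : ℝ) (k : ℤ) : gg (z - k) = gg z := by
  unfold gg; rw [Int.fract_sub_intCast]

theorem gg_lip (a b : ℝ) : gg a ≤ gg b + |a - b| := by
  have h := gg_add_le b (a - b)
  have h2 := gg_le_abs (a - b)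
  have e : b + (a - b) = a := by ring
  rw [e] at h
  linarith

theorem gg_sum {ι : Type} (s : Finset ι) (X : ι → ℝ) (h : ∀ v ∈ s, 0 ≤ X v ∧ X v < 1) :
    gg (∑ v ∈ s, X v) ≤ ∑ v ∈ s, X v * (1 - X v) := by
  classical
  induction s using Finset.induction_on with
  | empty => simp [gg]
  | insert a s ha ih =>
    rw [Finset.sum_insert ha, Finset.sum_insert ha]
    have h1 := gg_add_le (X a) (∑ v ∈ s, X v)
    have h2 := ih fun v hv => h v (Finset.mem_insert_of_mem hv)
    have h3 := h a (Finset.mem_insert_self a s)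
    rw [gg_of h3.1 h3.2] at h1
    linarith

theorem F_ge {ι : Type} (s : Finset ι) (X : ι → ℝ) (e : ℝ) (he : 0 ≤ e)
    (h : ∀ v ∈ s, 0 ≤ X v ∧ X v < 1) :
    gg (∑ v ∈ s, X v + e) ≤ ∑ v ∈ s, X v * (1 - X v) + e := by
  have h1 := gg_add_le (∑ v ∈ s, X v) e
  have h2 := gg_sum s X h
  have h3 := gg_le_abs e
  rw [abs_of_nonneg he] at h3
  linarith

end OPT2

open OPT2 in
theorem blk_OPT2 : Stmt_OPT2 := by
  intro κ ε η' ε2 hκ hε hη hη1 hε2
  -- the constant
  set m : ℝ := min 1 ε2 with hm
  have hm0 : 0 < m := lt_min one_pos hε2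
  have hm1 : m ≤ 1 := min_le_left _ _
  have hm2 : m ≤ ε2 := min_le_right _ _
  refine ⟨ε * (ε * (η' * m) / 40), by positivity, ?_⟩
  intro ι s X e sg mu x κ' k hX he hsg hmu hx1 hx2 hκ' hbal hcost
  classical
  set d : ℝ := ε * (η' * m) / 40 with hd
  set δ : ℝ := ε * d with hδ
  have hηm : η' * m ≤ 1 := by
    calc η' * m ≤ 1 * 1 := mul_le_mul hη1 hm1 hm0.le (by norm_num)
      _ = 1 := by norm_num
  have hηm0 : 0 < η' * m := by positivity
  have hηη : η' * m ≤ η' := by
    calc η' * m ≤ η' * 1 := mul_le_mul_of_nonneg_left hm1 hη.le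
      _ = η' := by ring
  have hηm2 : η' * m ≤ m := by
    calc η' * m ≤ 1 * m := mul_le_mul_of_nonneg_right hη1 hm0.le
      _ = m := by ring
  have hε1 : ε ≤ 1 / 2 := by linarith
  have hx0 : 0 < x := by linarith
  have hx3 : x ≤ 1 - ε := by linarith
  have hκ0 : 0 < κ := by linarith
  have hd0 : 0 < d := by positivity
  have hδ0 : 0 < δ := by positivity
  have hdε : d ≤ ε / 40 := by
    rw [hd]
    have : ε * (η' * m) ≤ ε * 1 := mul_le_mul_of_nonneg_left hηm hε.le
    linarith
  have hdη : d ≤ ε * η' / 40 := by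
    rw [hd]
    have : ε * (η' * m) ≤ ε * η' := mul_le_mul_of_nonneg_left hηη hε.le
    linarith
  have hdm : d ≤ m / 80 := by
    rw [hd]
    have h1 : ε * (η' * m) ≤ ε * m := mul_le_mul_of_nonneg_left hηm2 hε.le
    have h2 : ε * m ≤ 1 / 2 * m := mul_le_mul_of_nonneg_right hε1 hm0.le
    linarith
  have hδd : δ ≤ d := by
    have : ε * d ≤ 1 * d := mul_le_mul_of_nonneg_right (by linarith) hd0.le
    linarith
  set y : ℝ := ∑ v ∈ s, X v + e with hy
  set q : ℝ := sg + mu with hq
  have hq0 : 0 ≤ q := by linarith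
  have hX1 : ∀ v ∈ s, 0 ≤ X v ∧ X v < 1 := fun v hv => ⟨(hX v hv).1, by
    have := (hX v hv).2; linarith⟩
  have hsum0 : 0 ≤ ∑ v ∈ s, X v := Finset.sum_nonneg fun v hv => (hX v hv).1
  have hy0 : 0 ≤ y := by linarith
  set F : ℝ := ∑ v ∈ s, X v * (1 - X v) + e with hF
  have hFq : F + κ * q ≤ x * (1 - x) + δ := by
    have : κ * mu ≤ κ' * mu := mul_le_mul_of_nonneg_right hκ' hmu
    have e1 : κ * q = κ * sg + κ * mu := by rw [hq]; ring
    rw [e1]
    linarith
  have hbal' : |y - k - (x + q)| ≤ δ := by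
    have : y - k - (x + q) = ∑ v ∈ s, X v + e - sg - mu - k - x := by rw [hy, hq]; ring
    rw [this]; exact hbal
  obtain ⟨hb1, hb2⟩ := abs_le.mp hbal'
  have hFg : gg y ≤ F := F_ge s X e he hX1
  have hF0 : 0 ≤ F := (gg_nonneg y).trans hFg
  -- `g (x+q)`
  have hgxq : gg (x + q) + κ * q ≤ x * (1 - x) + 2 * δ := by
    have h1 := gg_lip (x + q) (y - k)
    rw [gg_sub_int] at h1
    have h2 : |x + q - (y - k)| ≤ δ := by rw [abs_sub_comm]; exact hbal'
    linarith
  have hxq : x + q < 1 := by
    by_contra h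
    push Not at h
    have h1 : κ * (1 - x) ≤ κ * q := mul_le_mul_of_nonneg_left (by linarith) hκ0.le
    have h2 := gg_nonneg (x + q)
    have h3 : (κ - x) * (1 - x) ≤ 2 * δ := by linarith
    have h4 : ε * ε ≤ (κ - x) * (1 - x) := mul_le_mul (by linarith) (by linarith) hε.le (by linarith)
    have h5 : δ ≤ ε * (ε / 40) := mul_le_mul_of_nonneg_left hdε hε.le
    linarith [mul_pos hε hε]
  have hqd : q ≤ 2 * d := by
    rw [gg_of (by linarith) hxq] at hgxq
    have h1 : q * ((1 - x - q) + (κ - x)) ≤ 2 * δ := by linarith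
    have h2 : q * ε ≤ q * ((1 - x - q) + (κ - x)) :=
      mul_le_mul_of_nonneg_left (by linarith) hq0
    have h3 : q * ε ≤ (2 * d) * ε := by rw [hδ] at h1; linarith
    exact le_of_mul_le_mul_right h3 hε
  have hk0 : 0 ≤ k := by
    by_contra h
    push Not at h
    have h1 : k ≤ -1 := by omega
    have h2 : (k : ℝ) ≤ -1 := by exact_mod_cast h1
    linarith
  have hyx : x - δ + k ≤ y := by linarith
  have hk0' : (0 : ℝ) ≤ k := by exact_mod_cast hk0
  have hne : s.Nonempty := by
    rw [Finset.nonempty_iff_ne_empty]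
    intro hs
    have e1 : F = y := by rw [hF, hy, hs]; simp
    have h1 : x - δ ≤ x * (1 - x) + δ := by
      have : 0 ≤ κ * q := by positivity
      linarith
    have h2 : x * x ≤ 2 * δ := by linarith
    have h3 : ε * ε ≤ x * x := mul_le_mul hx1 hx1 hε.le hx0.le
    have h5 : δ ≤ ε * (ε / 40) := mul_le_mul_of_nonneg_left hdε hε.le
    linarith [mul_pos hε hε]
  obtain ⟨w, hw, hwmax⟩ := Finset.exists_max_image s X hne
  set a : ℝ := X w with ha
  have ha0 : 0 ≤ a := (hX w hw).1
  have ha1 : a ≤ 1 - η' := (hX w hw).2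
  have hFa : (1 - a) * y ≤ F := by
    have h1 : (1 - a) * ∑ v ∈ s, X v ≤ ∑ v ∈ s, X v * (1 - X v) := by
      rw [Finset.mul_sum]
      apply Finset.sum_le_sum
      intro v hv
      have h2 := hwmax v hv
      have h3 := (hX v hv).1
      rw [mul_comm]
      exact mul_le_mul_of_nonneg_left (by linarith) h3
    have h2 : (1 - a) * e ≤ e := by linarith [mul_nonneg ha0 he]
    rw [hy, hF, mul_add]
    linarith
  have haX : a ≤ ∑ v ∈ s, X v := Finset.single_le_sum (fun v hv => (hX v hv).1) hw
  have hκq : 0 ≤ κ * q := by positivity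
  have hFx : F ≤ x * (1 - x) + δ := by linarith
  by_cases hk : k = 0
  · refine ⟨hk, w, hw, ?_, ?_⟩
    · -- `a` close to `x`
      have h1 : (1 - a) * (x - δ) ≤ x * (1 - x) + δ := by
        have h2 : (1 - a) * (x - δ) ≤ (1 - a) * y :=
          mul_le_mul_of_nonneg_left (by linarith) (by linarith)
        linarith
      have h2 : x * (x - a) ≤ 2 * δ := by linarith [mul_nonneg ha0 hδ0.le]
      have h3 : x - a ≤ 2 * d := by
        by_contra hc
        push Not at hc
        have h4 : ε * (x - a) ≤ x * (x - a) := mul_le_mul_of_nonneg_right hx1 (by linarith)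
        have h5 : ε * (2 * d) < ε * (x - a) := mul_lt_mul_of_pos_left hc hε
        rw [hδ] at h2
        linarith
      have h4 : a - x ≤ 3 * d := by
        have h5 : y ≤ x + q + δ := by
          have : (k : ℝ) = 0 := by rw [hk]; simp
          linarith
        linarith
      rw [abs_le]
      constructor <;> linarith
    · have h5 : y ≤ x + q + δ := by
        have : (k : ℝ) = 0 := by rw [hk]; simp
        linarith
      have h1 : (1 - a) * (x - δ) ≤ x * (1 - x) + δ := by
        have h2 : (1 - a) * (x - δ) ≤ (1 - a) * y :=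
          mul_le_mul_of_nonneg_left (by linarith) (by linarith)
        linarith
      have h2 : x * (x - a) ≤ 2 * δ := by linarith [mul_nonneg ha0 hδ0.le]
      have h3 : x - a ≤ 2 * d := by
        by_contra hc
        push Not at hc
        have h4 : ε * (x - a) ≤ x * (x - a) := mul_le_mul_of_nonneg_right hx1 (by linarith)
        have h5 : ε * (2 * d) < ε * (x - a) := mul_lt_mul_of_pos_left hc hε
        rw [hδ] at h2
        linarith
      have h6 : ∑ v ∈ s, X v - a + e + sg + mu = y - a + q := by rw [hy, hq]; ring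
      rw [h6]
      linarith
  · exfalso
    have hk1 : 1 ≤ k := by omega
    have hk1' : (1 : ℝ) ≤ k := by exact_mod_cast hk1
    have h1 : (1 - a) * (1 + x - δ) ≤ x * (1 - x) + δ := by
      have h2 : (1 - a) * (1 + x - δ) ≤ (1 - a) * y :=
        mul_le_mul_of_nonneg_left (by linarith) (by linarith)
      linarith
    -- `a ≤ x + small`
    set s' : ℝ := y - k with hs'
    have hs1 : s' - x ≤ 3 * d := by linarith
    have hs2 : -δ ≤ s' - x := by linarith
    have hsp : 0 < s' := by linarith
    have hax : η' * (a - s') ≤ 2 * d := by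
      rcases le_or_gt a s' with h | h
      · have : η' * (a - s') ≤ 0 := mul_nonpos_of_nonneg_of_nonpos hη.le (by linarith)
        linarith
      · have hFe : F = ∑ v ∈ s.erase w, X v * (1 - X v) + e + a * (1 - a) := by
          rw [hF, ← Finset.sum_erase_add s _ hw]; ring
        have hye : ∑ v ∈ s.erase w, X v + e = y - a := by
          rw [hy, ← Finset.sum_erase_add s _ hw]; ring
        have h2 := F_ge (s.erase w) X e he (fun v hv => hX1 v (Finset.mem_of_mem_erase hv))
        rw [hye] at h2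
        have h3 : gg (y - a) = (1 - (a - s')) * (a - s') := by
          have e1 : y - a = (1 - (a - s')) - ((-k + 1 : ℤ) : ℝ) := by
            push_cast; rw [hs']; ring
          rw [e1, gg_sub_int, gg_of (by linarith) (by linarith)]
          ring
        rw [h3] at h2
        have h4 : s' * (1 - s') + 2 * (a - s') * (1 - a) ≤ F := by
          rw [hFe]
          linarith
        have h5 : x * (1 - x) - 3 * d ≤ s' * (1 - s') := by
          have e2 : s' * (1 - s') - x * (1 - x) = (s' - x) * (1 - s' - x) := by ring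
          have h6 : |(s' - x) * (1 - s' - x)| ≤ 3 * d * 1 := by
            rw [abs_mul]
            apply mul_le_mul _ _ (abs_nonneg _) (by linarith)
            · rw [abs_le]; constructor <;> linarith
            · rw [abs_le]; constructor <;> linarith
          have := (abs_le.mp h6).1
          linarith
        have h6 : 2 * (a - s') * η' ≤ 2 * (a - s') * (1 - a) :=
          mul_le_mul_of_nonneg_left (by linarith) (by linarith)
        linarith
    -- contradiction
    have h2 : a - s' ≤ ε / 20 := by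
      have h3 : η' * (a - s') ≤ η' * (ε / 20) := by
        have : 2 * d ≤ η' * (ε / 20) := by linarith
        linarith
      exact le_of_mul_le_mul_left h3 hη
    have h3 : a - x ≤ ε / 8 := by linarith
    have h4 : (1 - x - ε / 8) * (1 + x - δ) ≤ (1 - a) * (1 + x - δ) :=
      mul_le_mul_of_nonneg_right (by linarith) (by linarith)
    have h5 : (1 - x - ε / 8) * (1 + x - δ) = 1 - x ^ 2 - (1 - x) * δ - ε / 8 * (1 + x - δ) := by ring
    have h6 : (1 - x) * δ ≤ δ := by linarith [mul_nonneg hx0.le hδ0.le]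
    have h7 : ε / 8 * (1 + x - δ) ≤ ε / 8 * 2 := mul_le_mul_of_nonneg_left (by linarith) (by linarith)
    linarith

end Pool.Agent.Work.MP_5532fa_up
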