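import Pool.Agent.Work.MP_5532fa_up.Interface

/-!
# MP_5532fa_up, block PARX (helper20)
-/

set_option autoImplicit false

namespace Pool.Agent.Work.MP_5532fa_up

open Finset

namespace PARX

/-- the placement condition -/
def Pl {r : ℕ} (n a : Fin r → ℕ) (P : Finset (Fin r)) : Prop :=
  ∀ i k, i ∉ P → k ∉ P → (n i = n k → a i ≤ a k + 1) ∧ (n i < n k → a i = n i ∨ a k = 1)

/-- filling the classes one unit at a time -/
lemma fillup {r : ℕ} (n : Fin r → ℕ) (P : Finset (Fin r)) (hn : ∀ i, 1 ≤ n i) (s : ℕ)
    (hs : (Pᶜ).card ≤ s) : s ≤ ∑ i ∈ Pᶜ, n i → ∃ a : Fin r → ℕ, ∑ i ∈ Pᶜ, a i = s ∧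
      (∀ i, i ∉ P → 1 ≤ a i ∧ a i ≤ n i) ∧ Pl n a P := by
  induction s, hs using Nat.le_induction with
  | base =>
    intro _
    refine ⟨fun _ => 1, by simp, fun i _ => ⟨le_rfl, hn i⟩, ?_⟩
    intro i k _ _
    exact ⟨fun _ => Nat.le_succ _, fun _ => Or.inr rfl⟩
  | succ s hs ih =>
    intro hle
    obtain ⟨a, hsum, hb, hpl⟩ := ih (by omega)
    -- a class which is not full
    have hex : ∃ i, i ∉ P ∧ a i < n i := by
      by_contra hcon
      have : ∑ i ∈ Pᶜ, n i ≤ ∑ i ∈ Pᶜ, a i := by
        refine Finset.sum_le_sum fun i hi => ?_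
        by_contra h
        exact hcon ⟨i, Finset.mem_compl.mp hi, by omega⟩
      omega
    obtain ⟨i1, h1⟩ := hex
    -- first the size, then the content
    obtain ⟨i2, hi2, hmin2⟩ := Finset.exists_min_image
      ((univ : Finset (Fin r)).filter (fun i => i ∉ P ∧ a i < n i)) n
      ⟨i1, by simp [h1]⟩
    obtain ⟨i, hi, hmin⟩ := Finset.exists_min_image
      ((univ : Finset (Fin r)).filter (fun i => (i ∉ P ∧ a i < n i) ∧ n i = n i2)) a
      ⟨i2, by simpa using hi2⟩
    have hi' : (i ∉ P ∧ a i < n i) ∧ n i = n i2 := by simpa using hi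
    have hsz : ∀ k, k ∉ P → a k < n k → n i ≤ n k := by
      intro k hk hk2
      rw [hi'.2]
      exact hmin2 k (by simp [hk, hk2])
    have hct : ∀ k, k ∉ P → a k < n k → n k = n i → a i ≤ a k := by
      intro k hk hk2 hk3
      exact hmin k (Finset.mem_filter.mpr ⟨Finset.mem_univ _, ⟨hk, hk2⟩, hk3.trans hi'.2⟩)
    have hiP : i ∉ P := hi'.1.1
    have hlt : a i < n i := hi'.1.2
    refine ⟨Function.update a i (a i + 1), ?_, ?_, ?_⟩
    · have hmem : i ∈ Pᶜ := Finset.mem_compl.mpr hiP
      rw [← Finset.add_sum_erase _ _ hmem, Function.update_self]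
      rw [← Finset.add_sum_erase _ _ hmem] at hsum
      have : ∑ x ∈ (Pᶜ).erase i, Function.update a i (a i + 1) x = ∑ x ∈ (Pᶜ).erase i, a x := by
        refine Finset.sum_congr rfl fun x hx => ?_
        rw [Function.update_of_ne (Finset.ne_of_mem_erase hx)]
      rw [this]
      omega
    · intro k hk
      by_cases hki : k = i
      · rw [hki, Function.update_self]
        omega
      · rw [Function.update_of_ne hki]
        exact hb k hk
    · intro j k hj hk
      by_cases hji : j = i
      · by_cases hki : k = i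
        · rw [hji, hki]
          exact ⟨fun _ => by omega, fun h => absurd h (lt_irrefl _)⟩
        · rw [hji, Function.update_self, Function.update_of_ne hki]
          refine ⟨fun h => ?_, fun h => ?_⟩
          · by_cases hf : a k < n k
            · have := hct k hk hf h.symm
              omega
            · omega
          · rcases (hpl i k hiP hk).2 h with h' | h'
            · omega
            · exact Or.inr h'
      · by_cases hki : k = i
        · rw [hki, Function.update_self, Function.update_of_ne hji]
          refine ⟨fun h => ?_, fun h => ?_⟩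
          · have := (hpl j i hj hiP).1 h
            omega
          · left
            by_contra hne
            have h2 := (hb j hj).2
            have := hsz j hj (by omega)
            omega
        · rw [Function.update_of_ne hji, Function.update_of_ne hki]
          exact hpl j k hj hk

lemma sum_ite_lt {r t : ℕ} (ht : t ≤ r) : ∑ i : Fin r, (if i.val < t then 1 else 0) = t := by
  rw [Fin.sum_univ_eq_sum_range (fun i => if i < t then 1 else 0) r, Finset.sum_boole]
  have : (Finset.range r).filter (fun i => i < t) = Finset.range t := by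
    ext i
    simp only [Finset.mem_filter, Finset.mem_range]
    omega
  rw [this, Finset.card_range]
  simp

end PARX

/-- PARX -/
theorem blk_PARX : Stmt_PARX := by
  intro r p p0 N s hr hp hN hs hs2
  set q := N / r with hq
  set t := N % r with ht
  have hr0 : 0 < r := by omega
  have htr : t < r := Nat.mod_lt _ hr0
  have hNq : r * q + t = N := Nat.div_add_mod N r
  have hq2 : 2 ≤ q := by
    rw [hq, Nat.le_div_iff_mul_le hr0]
    exact hN
  set n : Fin r → ℕ := fun i => q + (if i.val < t then 1 else 0) with hn
  set P : Finset (Fin r) := univ.filter (fun i => i.val < p) with hP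
  have hPcard : P.card = p := by
    rw [hP, Finset.card_filter]
    exact PARX.sum_ite_lt hp.le
  have hsum : ∑ i, n i = N := by
    rw [hn]
    simp only [Finset.sum_add_distrib]
    rw [PARX.sum_ite_lt htr.le]
    simpa using hNq
  have hle1 : ∀ i, n i ≤ q + 1 := by
    intro i
    rw [hn]
    dsimp only
    split_ifs <;> omega
  have hge : ∀ i, q ≤ n i := by
    intro i
    rw [hn]
    dsimp only
    omega
  have hsplit : ∑ i ∈ P, n i + ∑ i ∈ Pᶜ, n i = N := by
    rw [Finset.sum_add_sum_compl, hsum]
  have hPs : ∑ i ∈ P, n i ≤ p * (q + 1) := by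
    calc ∑ i ∈ P, n i ≤ ∑ _i ∈ P, (q + 1) := Finset.sum_le_sum fun i _ => hle1 i
      _ = p * (q + 1) := by rw [Finset.sum_const, hPcard, smul_eq_mul]
  have hcompl : (Pᶜ).card + p = r := by
    rw [Finset.card_compl, hPcard, Fintype.card_fin]
    omega
  obtain ⟨a, ha1, ha2, ha3⟩ := PARX.fillup n P (fun i => by have := hge i; omega) s
    (by omega) (by omega)
  refine ⟨n, fun i => if i ∈ P then p0 else a i, P, hPcard, hsum, ?_, ?_, ?_, ?_, ?_, ?_, ?_⟩
  · rw [← Finset.sum_add_sum_compl P]
    have e1 : ∑ i ∈ P, (if i ∈ P then p0 else a i) = p * p0 := by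
      rw [Finset.sum_congr rfl (fun i hi => if_pos hi), Finset.sum_const, hPcard, smul_eq_mul]
    have e2 : ∑ i ∈ Pᶜ, (if i ∈ P then p0 else a i) = s := by
      rw [← ha1]
      exact Finset.sum_congr rfl (fun i hi => if_neg (Finset.mem_compl.mp hi))
    rw [e1, e2]
    ring
  · intro i
    have := hge i
    omega
  · intro i k
    have := hge k
    have := hle1 i
    omega
  · intro i k hi hk
    have hi' : i.val < p := (Finset.mem_filter.mp hi).2
    have hk' : ¬ k.val < p := fun h => hk (Finset.mem_filter.mpr ⟨Finset.mem_univ _, h⟩)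
    rw [hn]
    dsimp only
    split_ifs <;> omega
  · intro i hi
    exact if_pos hi
  · intro i hi
    dsimp only
    rw [if_neg hi]
    exact ha2 i hi
  · intro i k hi hk
    dsimp only
    rw [if_neg hi, if_neg hk]
    exact ha3 i k hi hk

end Pool.Agent.Work.MP_5532fa_up
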