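import Pool.Agent.Work.MP_5532fa_up.Interface

/-! # Block REL (helper68) -/

open Finset

namespace Pool.Agent.Work.MP_5532fa_up

open MP5532fa (specRad qf pE)

theorem blk_REL : Stmt_REL := by
  intro r D hr hD
  have ha1 := al_ge hr
  have ha2 := al_lt hr
  have hr3 : (3 : ℝ) ≤ r := by exact_mod_cast hr
  refine ⟨3 * (r + 1 + D + 2 + r), 3 * r, by linarith, ?_⟩
  intro N hN j hj V _ G x lam t hctx hp
  have hN1 : 3 * (r : ℝ) ≤ N := by exact_mod_cast hN
  have hj0 : (0 : ℝ) ≤ j := Nat.cast_nonneg j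
  obtain ⟨hp1, hp2⟩ := abs_le.1 hp
  have hN9 : (9 : ℝ) ≤ N := by linarith
  have hN0 : (0 : ℝ) < N := by linarith
  have ha0 : 0 < al r := by linarith
  have hV := hctx.pv.nonempty
  have hnik : lam ^ 2 ≤ al r * pE G := by
    obtain ⟨q, rfl⟩ : ∃ q, r = q + 1 := ⟨r - 1, by omega⟩
    have := MP5532fa.nikiforov (q := q) G hctx.free
    rw [hctx.pv.rad]
    refine this.trans_eq ?_
    unfold al
    push_cast
    rfl
  have hdef := hctx.defi
  have hlam := hctx.pos
  have hpe := hctx.pe
  have haN : al r * N ≤ N := by nlinarith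
  have haN' : 2 / 3 * (N : ℝ) ≤ al r * N := mul_le_mul_of_nonneg_right ha1 hN0.le
  -- upper bound for lam
  have h1 : lam ≤ al r * N + 1 + r := by
    have h2 : al r * pE G ≤ al r * (al r * N ^ 2 + 2 * (al r * N) + r) := by
      apply mul_le_mul_of_nonneg_left _ ha0.le
      linarith
    have h3 : al r * (r : ℝ) ≤ r := by nlinarith
    have h4 : al r * (al r * N) ≤ al r * N := by nlinarith
    have h5 : 0 ≤ al r * N * r := by positivity
    have h6 : lam ^ 2 ≤ (al r * N + 1 + r) ^ 2 := by nlinarith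
    exact abs_le_of_sq_le_sq' h6 (by nlinarith) |>.2
  have h1' : al r * N - r - D ≤ lam := by
    have h2 : al r * (al r * N ^ 2 - r) ≤ al r * pE G := by
      apply mul_le_mul_of_nonneg_left _ ha0.le
      linarith
    have h3 : al r * (r : ℝ) ≤ r := by nlinarith
    have h5 : 2 / 3 * (N : ℝ) * r ≤ al r * N * r := mul_le_mul_of_nonneg_right haN' (by linarith)
    have h7 : 3 * (r : ℝ) * r ≤ N * r := mul_le_mul_of_nonneg_right hN1 (by linarith)
    have h8 : 0 ≤ D * lam := by positivity
    have h6 : (al r * N - r) ^ 2 ≤ (lam + D) ^ 2 := by nlinarith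
    have := abs_le_of_sq_le_sq' h6 (by linarith) |>.2
    linarith
  have h2 : |lam - al r * N| ≤ r + 1 + D := by
    rw [abs_le]
    constructor <;> linarith
  constructor
  · exact h2.trans (by linarith)
  · have hp3 : (N : ℝ) ^ 2 / 3 ≤ pE G := by
      have h3 : 2 / 3 * (N : ℝ) ^ 2 ≤ al r * N ^ 2 := mul_le_mul_of_nonneg_right ha1 (sq_nonneg _)
      have h4 : 3 * (r : ℝ) * 1 ≤ N * N := by
        apply mul_le_mul hN1 (by linarith) (by norm_num) hN0.le
      nlinarith
    have h3 : |lam * N - pE G| ≤ (r + 1 + D + 2 + r) * N := by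
      have e1 : lam * N - pE G = (lam - al r * N) * N - (pE G - al r * N ^ 2) := by ring
      rw [e1]
      refine (abs_sub _ _).trans ?_
      rw [abs_mul, abs_of_pos hN0]
      have h4 : |lam - al r * N| * N ≤ (r + 1 + D) * N := mul_le_mul_of_nonneg_right h2 hN0.le
      have h5 : |pE G - al r * N ^ 2| ≤ 2 * N + r := by
        rw [abs_le]
        constructor <;> linarith
      have h6 : (r : ℝ) * 1 ≤ r * N := mul_le_mul_of_nonneg_left (by linarith) (by linarith)
      linarith
    have e2 : t * N - 1 = (lam * N - pE G) / pE G := by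
      rw [hctx.ht]
      field_simp
    rw [e2, abs_div, abs_of_pos hpe, div_le_div_iff₀ hpe hN0]
    have h4 : |lam * N - pE G| * N ≤ (r + 1 + D + 2 + r) * N * N :=
      mul_le_mul_of_nonneg_right h3 hN0.le
    have h5 : 3 * (r + 1 + D + 2 + r) * ((N : ℝ) ^ 2 / 3) ≤ 3 * (r + 1 + D + 2 + r) * pE G :=
      mul_le_mul_of_nonneg_left hp3 (by linarith)
    nlinarith

end Pool.Agent.Work.MP_5532fa_up
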