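import Pool.Agent.Work.MP_5532fa_up.E3

/-!
# MP_5532fa_co, upgrade: block THRD (for large `j` type E is not optimal)
-/

open Finset

namespace Pool.Agent.Work.MP_5532fa_up

open MP5532fa (specRad qf pE)

namespace THRD

open E3

section
variable {V : Type} [Fintype V] {r : ℕ}

theorem JD_double (v1 v2 : V) (x y : V → ℝ) :
    ∑ a, ∑ b, JD v1 v2 a b * (x a * y b) = -(x v1 * y v2) - x v2 * y v1 := by
  rw [← sum2_eq v1 v2 x y, ← sum2_eq v2 v1 x y, ← Finset.sum_neg_distrib]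
  simp only [← Finset.sum_neg_distrib, ← Finset.sum_sub_distrib]
  refine Finset.sum_congr rfl fun a _ => Finset.sum_congr rfl fun b _ => ?_
  unfold JD; ring

theorem JD_row {v1 v2 v : V} (x : V → ℝ) (h1 : v ≠ v1) (h2 : v ≠ v2) :
    ∑ z, JD v1 v2 v z * x z = 0 := by
  refine Finset.sum_eq_zero fun z _ => ?_
  have e1 : chi (v = v1 ∧ z = v2) = 0 := chi_neg fun h => h1 h.1
  have e2 : chi (v = v2 ∧ z = v1) = 0 := chi_neg fun h => h2 h.1
  unfold JD
  rw [e1, e2]; ring

theorem bal_near {N : ℕ} {H : Finset V} {c : V → Fin r} (hr : 3 ≤ r) (hN : H.card = N)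
    (hB : Bal H c) (i : Fin r) : |sz H c i - N / r| ≤ 1 := by
  have hr3 : (3 : ℝ) ≤ r := by exact_mod_cast hr
  have hrp : (0 : ℝ) < r := by linarith
  have hs := sum_card_cl H c
  rw [hN] at hs
  have h1 : r * (cl H c i).card ≤ N + r := by
    have h : ∑ _k : Fin r, (cl H c i).card ≤ ∑ k : Fin r, ((cl H c k).card + 1) :=
      Finset.sum_le_sum fun k _ => hB i k
    rw [Finset.sum_add_distrib, hs] at h
    simpa using h
  have h2 : N ≤ r * (cl H c i).card + r := by
    have h : ∑ k : Fin r, (cl H c k).card ≤ ∑ _k : Fin r, ((cl H c i).card + 1) :=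
      Finset.sum_le_sum fun k _ => hB k i
    rw [hs] at h
    have h3 : ∑ _k : Fin r, ((cl H c i).card + 1) = r * (cl H c i).card + r := by
      simp [mul_add]
    rw [h3] at h; exact h
  have h1' : (r : ℝ) * sz H c i ≤ N + r := by unfold sz; exact_mod_cast h1
  have h2' : (N : ℝ) ≤ r * sz H c i + r := by unfold sz; exact_mod_cast h2
  rw [abs_le]
  constructor
  · have : (N : ℝ) / r ≤ sz H c i + 1 := by rw [div_le_iff₀ hrp]; linarith
    linarith
  · have : sz H c i - 1 ≤ (N : ℝ) / r := by rw [le_div_iff₀ hrp]; linarith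
    linarith

/-- among the largest classes different from `i0` one with the fewest vertices of `A` -/
theorem choose_class (hr : 3 ≤ r) (f g : Fin r → ℕ) (i0 : Fin r) :
    ∃ j0, j0 ≠ i0 ∧ (∀ l, l ≠ i0 → f l ≤ f j0) ∧ ∀ l, l ≠ i0 → f l = f j0 → g j0 ≤ g l := by
  classical
  have hne : ((univ : Finset (Fin r)).erase i0).Nonempty := by
    rw [← Finset.card_pos, Finset.card_erase_of_mem (Finset.mem_univ _), Finset.card_univ,
      Fintype.card_fin]
    omega
  obtain ⟨m, hm, hmax⟩ := Finset.exists_max_image _ f hne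
  have hne2 : (((univ : Finset (Fin r)).erase i0).filter (fun l => f l = f m)).Nonempty :=
    ⟨m, Finset.mem_filter.2 ⟨hm, rfl⟩⟩
  obtain ⟨j0, hj0, hmin⟩ := Finset.exists_min_image _ g hne2
  obtain ⟨h1, h2⟩ := Finset.mem_filter.1 hj0
  refine ⟨j0, Finset.ne_of_mem_erase h1, fun l hl => ?_, fun l hl hf => ?_⟩
  · rw [h2]; exact hmax l (Finset.mem_erase.2 ⟨hl, Finset.mem_univ _⟩)
  · exact hmin l (Finset.mem_filter.2
      ⟨Finset.mem_erase.2 ⟨hl, Finset.mem_univ _⟩, hf.trans h2⟩)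

theorem build {N j : ℕ} {ε : ℝ} {G : SimpleGraph V} {H A B : Finset V} {c : V → Fin r}
    {w u : V} {i0 : Fin r} (hr : 3 ≤ r) (hε : 0 < ε) (hN1 : 4 * r / ε ≤ N)
    (hN2 : 4 * (r : ℝ) ≤ N) (hRg : Rg r ε N j) (hW : WE G N H c w u A B i0)
    (hAj : A.card + r = j) (hBal : Bal H c) (hPl : Place H A c {i0}) :
    ∃ (j0 : Fin r) (v1 v2 : V) (F1 F2 A' A0 : Finset V), j0 ≠ i0 ∧ c v1 = i0 ∧ c v2 = j0 ∧
      v1 ∈ H ∧ v2 ∈ H ∧ WD (gD H c w A' v1 v2) N H c w A' v1 v2 ∧ A'.card = A.card + r + 1 ∧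
      F2.card = r ∧ F1.card + 1 = (cl A c j0).card ∧ F1 ⊆ A' ∧ F2 ⊆ H ∧
      (∀ b ∈ F1, b ∈ H ∧ b ∉ A ∧ c b ≠ i0 ∧ c b ≠ j0 ∧
        (cl H c (c b)).card = (cl H c j0).card ∧ (cl A c (c b)).card ≤ (cl A c j0).card + 1 ∧
        (cl A' c (c b)).card ≤ 2 * (cl A c j0).card + r) ∧
      (∀ f : V → ℝ, ∑ v ∈ A', f v - ∑ v ∈ A, f v = f v1 + ∑ v ∈ F2, f v +
        (∑ v ∈ F1, f v - ∑ v ∈ A0, f v)) ∧
      A0 ⊆ cl A c j0 ∧ v2 ∉ A0 ∧ A0.card + 1 = (cl A c j0).card ∧
      (r - 1) * (cl A c j0).card ≤ j := by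
  classical
  have hr3 : (3 : ℝ) ≤ r := by exact_mod_cast hr
  have hrp : (0 : ℝ) < r := by linarith
  have hNp : (0 : ℝ) < N := by linarith
  obtain ⟨j0, hj0, hmax, hmin⟩ := choose_class hr (fun l => (cl H c l).card)
    (fun l => (cl A c l).card) i0
  have hnear := bal_near hr hW.card hBal
  have hi0ne : (cl H c i0).Nonempty := by
    rw [← Finset.card_pos]
    have h1 := (abs_le.1 (hnear i0)).1
    have h2 : (4 : ℝ) ≤ N / r := by rw [le_div_iff₀ hrp]; exact hN2
    have h3 : (0 : ℝ) < sz H c i0 := by linarith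
    unfold sz at h3
    exact_mod_cast h3
  obtain ⟨v1, hv1⟩ := hi0ne
  obtain ⟨v2, hv2⟩ := hW.hAne j0 hj0
  obtain ⟨hv1H, hv1c⟩ := mem_cl.1 hv1
  obtain ⟨hv2A, hv2c⟩ := mem_cl.1 hv2
  have hAi : ∀ v, c v = i0 → v ∉ A := by
    intro v hc hv
    have : v ∈ cl A c i0 := mem_cl.2 ⟨hv, hc⟩
    rw [hW.hA0] at this
    exact absurd this (Finset.notMem_empty v)
  set a := (cl A c j0).card with ha
  have ha1 : 1 ≤ a := Finset.card_pos.2 ⟨v2, hv2⟩
  -- all classes have at least a - 1 elements of A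
  have haall : ∀ l, l ≠ i0 → a - 1 ≤ (cl A c l).card := by
    intro l hl
    rcases Nat.lt_or_ge (cl H c l).card (cl H c j0).card with h | h
    · have h1 := (hPl l j0 (by simpa using hl) (by simpa using hj0)).2 h
      have h2 := hBal j0 l
      have h3 : a ≤ (cl H c j0).card := Finset.card_le_card fun v hv =>
        mem_cl.2 ⟨hW.hA (mem_cl.1 hv).1, (mem_cl.1 hv).2⟩
      rcases h1 with h1 | h1 <;> omega
    · have h1 : (cl H c l).card = (cl H c j0).card := le_antisymm (hmax l hl) h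
      have := hmin l hl h1
      omega
  have hcb := card_bound hW.hA0 haall
  have hraj : (r - 1) * a ≤ j := by
    have h1 : (r - 1) * a = (r - 1) * (a - 1) + (r - 1) := by
      obtain ⟨b, hb⟩ : ∃ b, a = b + 1 := ⟨a - 1, by omega⟩
      rw [hb]; simp [mul_add]
    omega
  -- the set of the vertices which may be added
  set R := H.filter (fun v => v ∉ A ∧ c v ≠ i0 ∧ c v ≠ j0) with hR
  have hRc : N + a ≤ R.card + A.card + (cl H c i0).card + (cl H c j0).card := by
    have h1 : H ⊆ ((R ∪ (A \ cl A c j0)) ∪ cl H c i0) ∪ cl H c j0 := by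
      intro v hv
      simp only [Finset.mem_union, Finset.mem_sdiff, mem_cl, hR, Finset.mem_filter]
      by_cases h1 : c v = i0
      · exact Or.inl (Or.inr ⟨hv, h1⟩)
      by_cases h2 : c v = j0
      · exact Or.inr ⟨hv, h2⟩
      by_cases h3 : v ∈ A
      · exact Or.inl (Or.inl (Or.inr ⟨h3, fun h => h2 h.2⟩))
      · exact Or.inl (Or.inl (Or.inl ⟨hv, h3, h1, h2⟩))
    have h2 := Finset.card_le_card h1
    have h3 := Finset.card_union_le ((R ∪ (A \ cl A c j0)) ∪ cl H c i0) (cl H c j0)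
    have h4 := Finset.card_union_le (R ∪ (A \ cl A c j0)) (cl H c i0)
    have h5 := Finset.card_union_le R (A \ cl A c j0)
    have hsub : cl A c j0 ⊆ A := fun v hv => (mem_cl.1 hv).1
    have h6 := Finset.card_sdiff_add_card_eq_card hsub
    rw [hW.card] at h2
    omega
  have hRbig : a - 1 + r ≤ R.card := by
    have h1 : ((N : ℝ) + a) ≤ R.card + A.card + sz H c i0 + sz H c j0 := by
      unfold sz; exact_mod_cast hRc
    have h2 := (abs_le.1 (hnear i0)).2
    have h3 := (abs_le.1 (hnear j0)).2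
    have h4 : (A.card : ℝ) + r = j := by exact_mod_cast hAj
    have h5 := hRg.2
    have halg := al_ge hr
    have hall := al_lt hr
    have h6 : (1 - 2 / (r : ℝ)) * al r ≤ 1 - 2 / (r : ℝ) := by
      have h9 : 2 / (r : ℝ) ≤ 2 / 3 := by
        rw [div_le_div_iff_of_pos_left (by norm_num) hrp (by norm_num)]; exact hr3
      exact mul_le_of_le_one_right (by linarith) hall.le
    have h7 : ((1 - 2 / (r : ℝ)) * al r - ε) * N ≤ (1 - 2 / (r : ℝ) - ε) * N :=
      mul_le_mul_of_nonneg_right (by linarith) hNp.le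
    have h8 : 4 * r ≤ ε * N := by
      rw [div_le_iff₀ hε] at hN1
      linarith
    have h9 : (1 - 2 / (r : ℝ) - ε) * N = N - 2 * (N / r) - ε * N := by field_simp
    have h10 : (a : ℝ) - 1 + r ≤ R.card := by linarith
    have h11 : ((a - 1 + r : ℕ) : ℝ) ≤ R.card := by
      rw [Nat.cast_add, Nat.cast_sub ha1]
      push_cast
      exact h10
    exact_mod_cast h11
  obtain ⟨F, hFR, hFc⟩ := Finset.exists_subset_card_eq hRbig
  obtain ⟨F1, hF1F, hF1c⟩ := Finset.exists_subset_card_eq (s := F) (n := a - 1) (by omega)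
  have hFm : ∀ v ∈ F, v ∈ H ∧ v ∉ A ∧ c v ≠ i0 ∧ c v ≠ j0 := fun v hv =>
    Finset.mem_filter.1 (hFR hv)
  have hv12 : v1 ≠ v2 := by
    intro h
    rw [h, hv2c] at hv1c
    exact hj0 hv1c
  have hdis : Disjoint (A.filter (fun v => c v ≠ j0)) F := by
    rw [Finset.disjoint_left]
    intro v hv hv'
    exact (hFm v hv').2.1 (Finset.mem_filter.1 hv).1
  have hv2n : v2 ∉ A.filter (fun v => c v ≠ j0) ∪ F := by
    intro h
    rcases Finset.mem_union.1 h with h | h
    · exact (Finset.mem_filter.1 h).2 hv2c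
    · exact (hFm v2 h).2.1 hv2A
  have hv1n : v1 ∉ insert v2 (A.filter (fun v => c v ≠ j0) ∪ F) := by
    intro h
    rcases Finset.mem_insert.1 h with h | h
    · exact hv12 h
    rcases Finset.mem_union.1 h with h | h
    · exact hAi v1 hv1c (Finset.mem_filter.1 h).1
    · exact (hFm v1 h).2.2.1 hv1c
  set A' := insert v1 (insert v2 (A.filter (fun v => c v ≠ j0) ∪ F)) with hA'
  have hm : ∀ v, v ∈ A' ↔ v = v1 ∨ v = v2 ∨ (v ∈ A ∧ c v ≠ j0) ∨ v ∈ F := by
    intro v
    rw [hA', Finset.mem_insert, Finset.mem_insert, Finset.mem_union, Finset.mem_filter]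
  have hcardA : (A.filter (fun v => c v ≠ j0)).card + a = A.card := by
    have h : (A.filter (fun v => c v = j0)).card + (A.filter (fun v => c v ≠ j0)).card = A.card :=
      Finset.card_filter_add_card_filter_not (s := A) (fun v => c v = j0)
    rw [ha]; unfold cl
    omega
  have hA'c : A'.card = A.card + r + 1 := by
    rw [hA', Finset.card_insert_of_notMem hv1n, Finset.card_insert_of_notMem hv2n,
      Finset.card_union_of_disjoint hdis, hFc]
    omega
  have hclA' : ∀ l, l ≠ i0 → l ≠ j0 → cl A c l ⊆ cl A' c l ∧ cl A' c l ⊆ cl A c l ∪ F := by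
    intro l hl1 hl2
    refine ⟨fun v hv => ?_, fun v hv => ?_⟩
    · obtain ⟨h1, h2⟩ := mem_cl.1 hv
      exact mem_cl.2 ⟨(hm v).2 (Or.inr (Or.inr (Or.inl ⟨h1, fun h => hl2 (h2.symm.trans h)⟩))), h2⟩
    · obtain ⟨h1, h2⟩ := mem_cl.1 hv
      rcases (hm v).1 h1 with h | h | h | h
      · rw [h] at h2; exact absurd (h2.symm.trans hv1c) hl1
      · rw [h] at h2; exact absurd (h2.symm.trans hv2c) hl2
      · exact Finset.mem_union_left _ (mem_cl.2 ⟨h.1, h2⟩)
      · exact Finset.mem_union_right _ h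
  have hWD : WD (gD H c w A' v1 v2) N H c w A' v1 v2 := by
    refine gD_WD hW.card hW.hw ?_ ?_ ?_ ?_ ?_
    · intro v hv
      rcases (hm v).1 hv with h | h | h | h
      · rw [h]; exact hv1H
      · rw [h]; exact hW.hA hv2A
      · exact hW.hA h.1
      · exact (hFm v h).1
    · rw [hv1c, hv2c]; exact hj0.symm
    · ext v
      rw [mem_cl, Finset.mem_singleton, hm, hv1c]
      constructor
      · rintro ⟨h | h | h | h, hc⟩
        · exact h
        · rw [h, hv2c] at hc; exact absurd hc hj0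
        · exact absurd h.1 (hAi v hc)
        · exact absurd hc (hFm v h).2.2.1
      · intro h; exact ⟨Or.inl h, h ▸ hv1c⟩
    · ext v
      rw [mem_cl, Finset.mem_singleton, hm, hv2c]
      constructor
      · rintro ⟨h | h | h | h, hc⟩
        · rw [h, hv1c] at hc; exact absurd hc.symm hj0
        · exact h
        · exact absurd hc h.2
        · exact absurd hc (hFm v h).2.2.2
      · intro h; exact ⟨Or.inr (Or.inl h), h ▸ hv2c⟩
    · intro l
      by_cases h1 : l = i0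
      · exact ⟨v1, mem_cl.2 ⟨(hm v1).2 (Or.inl rfl), hv1c.trans h1.symm⟩⟩
      by_cases h2 : l = j0
      · exact ⟨v2, mem_cl.2 ⟨(hm v2).2 (Or.inr (Or.inl rfl)), hv2c.trans h2.symm⟩⟩
      exact (hW.hAne l h1).mono (hclA' l h1 h2).1
  refine ⟨j0, v1, v2, F1, F \ F1, A', (cl A c j0).erase v2, hj0, hv1c, hv2c, hv1H, hW.hA hv2A,
    hWD, hA'c, ?_, ?_, ?_, ?_, ?_, ?_, Finset.erase_subset _ _, Finset.notMem_erase _ _,
    Finset.card_erase_add_one hv2, hraj⟩
  · rw [Finset.card_sdiff_of_subset hF1F, hFc, hF1c]; omega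
  · rw [hF1c]; omega
  · intro v hv; exact (hm v).2 (Or.inr (Or.inr (Or.inr (hF1F hv))))
  · intro v hv; exact (hFm v (Finset.mem_sdiff.1 hv).1).1
  · intro b hb
    obtain ⟨h1, h2, h3, h4⟩ := hFm b (hF1F hb)
    have h5 : (cl A c (c b)).card < (cl H c (c b)).card := by
      refine Finset.card_lt_card ?_
      rw [Finset.ssubset_iff_of_subset fun v hv =>
        mem_cl.2 ⟨hW.hA (mem_cl.1 hv).1, (mem_cl.1 hv).2⟩]
      exact ⟨b, mem_cl.2 ⟨h1, rfl⟩, fun h => h2 (mem_cl.1 h).1⟩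
    have h6 : 1 ≤ F1.card := Finset.card_pos.2 ⟨b, hb⟩
    have h7 : (cl H c (c b)).card = (cl H c j0).card := by
      refine le_antisymm (hmax (c b) h3) ?_
      by_contra hlt
      push Not at hlt
      rcases (hPl (c b) j0 (by simpa using h3) (by simpa using hj0)).2 hlt with h | h <;> omega
    have h8 := (hPl (c b) j0 (by simpa using h3) (by simpa using hj0)).1 h7
    refine ⟨h1, h2, h3, h4, h7, h8, ?_⟩
    have h9 := Finset.card_le_card (hclA' (c b) h3 h4).2
    have h10 := Finset.card_union_le (cl A c (c b)) F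
    omega
  · intro f
    rw [hA', Finset.sum_insert hv1n, Finset.sum_insert hv2n, Finset.sum_union hdis]
    have h1 : ∑ v ∈ A.filter (fun v => c v ≠ j0), f v
        = ∑ v ∈ A, f v - ∑ v ∈ cl A c j0, f v := by
      have h := Finset.sum_filter_add_sum_filter_not A (fun v => c v = j0) f
      unfold cl
      rw [← h]; ring
    have h2 : ∑ v ∈ cl A c j0, f v = f v2 + ∑ v ∈ (cl A c j0).erase v2, f v :=
      (Finset.add_sum_erase _ f hv2).symm
    have h3 : ∑ v ∈ F, f v = ∑ v ∈ F \ F1, f v + ∑ v ∈ F1, f v :=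
      (Finset.sum_sdiff hF1F).symm
    rw [h1, h2, h3]; ring

theorem cardB {N : ℕ} {G : SimpleGraph V} {H A B : Finset V} {c : V → Fin r} {w u : V}
    {i0 : Fin r} (hW : WE G N H c w u A B i0) : B.card + 1 ≤ r := by
  classical
  rw [← sum_card_cl B c, ← Finset.add_sum_erase _ _ (Finset.mem_univ i0), hW.hB0,
    Finset.card_empty, zero_add]
  have h1 : ∑ i ∈ (univ : Finset (Fin r)).erase i0, (cl B c i).card
      = ∑ i ∈ (univ : Finset (Fin r)).erase i0, 1 :=
    Finset.sum_congr rfl fun i hi => hW.hB1 i (Finset.ne_of_mem_erase hi)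
  rw [h1, Finset.sum_const, smul_eq_mul, Finset.card_erase_of_mem (Finset.mem_univ i0),
    Finset.card_univ, Fintype.card_fin]
  have := i0.isLt
  omega

theorem sum_chi_le {A0 B : Finset V} {c : V → Fin r} {j0 : Fin r} (hA0 : ∀ v ∈ A0, c v = j0)
    (hB : (cl B c j0).card = 1) : ∑ v ∈ A0, chi (v ∈ B) ≤ 1 := by
  classical
  obtain ⟨b, hb⟩ := Finset.card_eq_one.1 hB
  have h1 : ∀ v ∈ A0, chi (v ∈ B) ≤ chi (v = b) * 1 := by
    intro v hv
    by_cases h : v ∈ B
    · have h2 : v ∈ cl B c j0 := mem_cl.2 ⟨h, hA0 v hv⟩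
      rw [hb, Finset.mem_singleton] at h2
      rw [chi_pos h, chi_pos h2, mul_one]
    · rw [chi_neg h, mul_one]; exact chi_nonneg _
  calc ∑ v ∈ A0, chi (v ∈ B) ≤ ∑ v ∈ A0, chi (v = b) * 1 := Finset.sum_le_sum h1
    _ ≤ ∑ v, chi (v = b) * 1 :=
        Finset.sum_le_sum_of_subset_of_nonneg (Finset.subset_univ _) fun v _ _ => by
          rw [mul_one]; exact chi_nonneg _
    _ = 1 := sum_chi_eq b (fun _ => 1)

end

theorem numW {r X e al N m a xb yb xw yw xu lam W : ℝ} (hr : 3 ≤ r) (hX0 : 0 ≤ X) (hX1 : X ≤ 1)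
    (he0 : 0 < e) (he1 : e ≤ 1 / 12) (hal : al = 1 - 1 / r) (hal1 : 2 / 3 ≤ al)
    (hN1 : 1 ≤ N) (hN2 : r + 1 ≤ e * N) (hra : r * a ≤ X * N) (hm0 : 0 ≤ m) (hma : m ≤ a)
    (hlam : (al - e) * N ≤ lam) (hxb : 0 < xb) (hyb : 0 < yb) (hxw0 : 0 ≤ xw)
    (hxw : xw ≤ (X + e) * xb) (hyw0 : 0 ≤ yw) (hyw : yw ≤ (X + e) * yb) (hxu0 : 0 ≤ xu)
    (hxu : xu ≤ e * xb)
    (hW : -(m * (xw * yb * (X * ((2 * a + r) / N) + e) + yw * xb * (X * (1 / N) + e)))
      - yw * xu ≤ lam * W) :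
    -(xb * yb * (2 * (X ^ 4 / (r * (r - 1))) + 11 * e)) ≤ W := by
  have hNp : 0 < N := by linarith
  have hrp : 0 < r := by linarith
  have ha0 : 0 ≤ a := hm0.trans hma
  set M := xb * yb with hM
  have hMp : 0 < M := mul_pos hxb hyb
  set κ := X * (1 / N) + e with hκ
  set κ' := X * ((2 * a + r) / N) + e with hκ'
  have hκ0 : 0 ≤ κ := by positivity
  have hκ'0 : 0 ≤ κ' := by positivity
  have hXe : 0 ≤ X + e := by linarith
  have s1 : xw * yb * κ' + yw * xb * κ ≤ (X + e) * M * (κ + κ') := by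
    have h1 : xw * yb * κ' ≤ (X + e) * xb * yb * κ' :=
      mul_le_mul_of_nonneg_right (mul_le_mul_of_nonneg_right hxw hyb.le) hκ'0
    have h2 : yw * xb * κ ≤ (X + e) * yb * xb * κ :=
      mul_le_mul_of_nonneg_right (mul_le_mul_of_nonneg_right hyw hxb.le) hκ0
    rw [hM]; linarith
  have s1' : 0 ≤ (X + e) * M * (κ + κ') := by positivity
  have s2 : m * (xw * yb * κ' + yw * xb * κ) ≤ a * ((X + e) * M * (κ + κ')) :=
    (mul_le_mul_of_nonneg_left s1 hm0).trans (mul_le_mul_of_nonneg_right hma s1')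
  have s3 : yw * xu ≤ (X + e) * M * e := by
    have h1 : yw * xu ≤ ((X + e) * yb) * (e * xb) :=
      mul_le_mul hyw hxu hxu0 (by positivity)
    calc yw * xu ≤ ((X + e) * yb) * (e * xb) := h1
      _ = (X + e) * M * e := by rw [hM]; ring
  -- bound for a (κ + κ')
  set z := 2 * X ^ 3 / r ^ 2 with hz
  have hz0 : 0 ≤ z := by positivity
  have haN : a / N ≤ X / r := by
    rw [div_le_div_iff₀ hNp hrp]; linarith
  have haN0 : 0 ≤ a / N := by positivity
  have hXr : X / r ≤ 1 / 3 := by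
    rw [div_le_div_iff₀ hrp (by norm_num)]; linarith
  have hXr0 : 0 ≤ X / r := by positivity
  have s4 : a * (κ + κ') + e ≤ N * (z + 2 * e) := by
    have h1 : a * (κ + κ') = N * (2 * X * (a / N) ^ 2 + (a / N) * (X * ((r + 1) / N) + 2 * e)) := by
      rw [hκ, hκ']; field_simp; ring
    have h2 : (a / N) ^ 2 ≤ (X / r) ^ 2 := pow_le_pow_left₀ haN0 haN 2
    have h3 : 2 * X * (a / N) ^ 2 ≤ z := by
      have : 2 * X * (X / r) ^ 2 = z := by rw [hz]; field_simp
      rw [← this]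
      exact mul_le_mul_of_nonneg_left h2 (by linarith)
    have h4 : (r + 1) / N ≤ e := by rw [div_le_iff₀ hNp]; exact hN2
    have h4' : 0 ≤ (r + 1) / N := by positivity
    have h5 : X * ((r + 1) / N) + 2 * e ≤ 3 * e := by linarith [mul_le_mul_of_nonneg_right hX1 h4']
    have h6 : (a / N) * (X * ((r + 1) / N) + 2 * e) ≤ 1 / 3 * (3 * e) :=
      mul_le_mul (haN.trans hXr) h5 (by positivity) (by norm_num)
    rw [h1]
    have h7 : e ≤ N * e := by linarith
    linarith [mul_le_mul_of_nonneg_left (add_le_add h3 h6) hNp.le]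
  have s5 : -((X + e) * M * (N * (z + 2 * e))) ≤ lam * W := by
    have h1 : (X + e) * M * (a * (κ + κ') + e) ≤ (X + e) * M * (N * (z + 2 * e)) :=
      mul_le_mul_of_nonneg_left s4 (by positivity)
    linarith
  by_contra hneg
  push Not at hneg
  set q := X ^ 4 / (r * (r - 1)) with hq
  have hr1 : 0 < r - 1 := by linarith
  have hq0 : 0 ≤ q := by positivity
  have hX4 : X ^ 4 ≤ 1 := pow_le_one₀ hX0 hX1
  have hX3 : X ^ 3 ≤ 1 := pow_le_one₀ hX0 hX1
  have hq1 : q ≤ 1 / 6 := by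
    rw [hq, div_le_div_iff₀ (by positivity) (by norm_num)]
    linarith [mul_le_mul hr (show (2 : ℝ) ≤ r - 1 by linarith) (by norm_num) (by linarith)]
  have hz1 : z ≤ 2 / 9 := by
    rw [hz, div_le_div_iff₀ (by positivity) (by norm_num)]
    linarith [pow_le_pow_left₀ (by norm_num) hr 2]
  have halq : al * (2 * q) = X * z := by
    rw [hq, hz, hal]; field_simp
  have hW0 : W < 0 := lt_of_lt_of_le hneg (by
    have : 0 ≤ M * (2 * q + 11 * e) := by positivity
    linarith)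
  have t1 : lam * W ≤ (al - e) * N * W := mul_le_mul_of_nonpos_right hlam hW0.le
  have hale : 0 < al - e := by linarith
  have t2 : (al - e) * N * W < (al - e) * N * (-(M * (2 * q + 11 * e))) :=
    mul_lt_mul_of_pos_left hneg (by positivity)
  have t3 : (al - e) * (2 * q + 11 * e) * (N * M) < (X + e) * (z + 2 * e) * (N * M) := by
    linarith
  have t4 : (al - e) * (2 * q + 11 * e) < (X + e) * (z + 2 * e) :=
    lt_of_mul_lt_mul_right t3 (by positivity)
  have u1 : e * (2 * q) ≤ e * (1 / 3) := mul_le_mul_of_nonneg_left (by linarith) he0.le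
  have u2 : e * z ≤ e * (2 / 9) := mul_le_mul_of_nonneg_left hz1 he0.le
  have u3 : e * X ≤ e * 1 := mul_le_mul_of_nonneg_left hX1 he0.le
  have u4 : e * e ≤ e * (1 / 12) := mul_le_mul_of_nonneg_left he1 he0.le
  have u5 : e * (2 / 3) ≤ e * al := mul_le_mul_of_nonneg_left hal1 he0.le
  linarith

theorem final {r X e ε xb yb xw yw α β γ θ W q : ℝ} (hr : 3 ≤ r) (hX1 : X ≤ 1) (heX : e ≤ X)
    (he0 : 0 < e) (he1 : e ≤ 1 / 12) (heε : 16 * r * e ≤ ε) (hxb : 0 < xb) (hyb : 0 < yb)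
    (hxw : (X - e) * xb ≤ xw) (hyw : (X - e) * yb ≤ yw)
    (hα : (r + 1) * ((1 - e) * yb) ≤ α) (hβ : (r + 1) * ((1 - e) * xb) ≤ β)
    (hγ : γ ≤ 2 * ((1 + e) * xb * ((1 + e) * yb))) (hθ : θ ≤ e * xb * (r * ((1 + e) * yb)))
    (hWq : -(xb * yb * (2 * q + 11 * e)) ≤ W) (hX : 1 + q + ε ≤ (r + 1) * X)
    (hT : xw * α + yw * β - γ - θ + W ≤ 0) : False := by
  have hM : 0 < xb * yb := mul_pos hxb hyb
  have h1 : (X - e) * xb * ((r + 1) * ((1 - e) * yb)) ≤ xw * α := by
    have hα0 : 0 ≤ (r + 1) * ((1 - e) * yb) := by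
      have : 0 ≤ 1 - e := by linarith
      positivity
    have h0 : 0 ≤ (X - e) * xb := mul_nonneg (by linarith) hxb.le
    exact mul_le_mul hxw hα hα0 (h0.trans hxw)
  have h2 : (X - e) * yb * ((r + 1) * ((1 - e) * xb)) ≤ yw * β := by
    have hβ0 : 0 ≤ (r + 1) * ((1 - e) * xb) := by
      have : 0 ≤ 1 - e := by linarith
      positivity
    have h0 : 0 ≤ (X - e) * yb := mul_nonneg (by linarith) hyb.le
    exact mul_le_mul hyw hβ hβ0 (h0.trans hyw)
  have h3 : (xb * yb) * (2 * ((r + 1) * ((X - e) * (1 - e))) - 2 * (1 + e) ^ 2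
      - e * r * (1 + e) - (2 * q + 11 * e)) ≤ 0 := by linarith
  have h4 : 2 * ((r + 1) * ((X - e) * (1 - e))) - 2 * (1 + e) ^ 2
      - e * r * (1 + e) - (2 * q + 11 * e) ≤ 0 := by
    by_contra hneg
    push Not at hneg
    have := mul_pos hM hneg
    linarith
  have h5 : (r + 1) * (X - 2 * e) ≤ (r + 1) * ((X - e) * (1 - e)) := by
    refine mul_le_mul_of_nonneg_left ?_ (by linarith)
    linarith [mul_le_mul_of_nonneg_right hX1 he0.le, mul_nonneg he0.le he0.le]
  have h6 : (1 + e) ^ 2 ≤ 1 + 3 * e := by linarith [mul_le_mul_of_nonneg_right he1 he0.le]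
  have h7 : e * r * (1 + e) ≤ e * r * 2 :=
    mul_le_mul_of_nonneg_left (by linarith) (by positivity)
  have h8 : 3 * e ≤ r * e := mul_le_mul_of_nonneg_right hr he0.le
  have h9 : 0 < r * e := by positivity
  linarith

end THRD

open E3 THRD in
theorem blk_THRD (hGD : Stmt_GD) (hGE : Stmt_GE) (hFAM : Stmt_FAM) (hCSE : Stmt_CSE)
    (hEST : Stmt_EST) : Stmt_THRD := by
  classical
  intro r ε hr hε
  have hr3 : (3 : ℝ) ≤ r := by exact_mod_cast hr
  have hrp : (0 : ℝ) < r := by linarith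
  obtain ⟨e, he0, he1, he2⟩ : ∃ e : ℝ, 0 < e ∧ e ≤ 1 / 12 ∧ e ≤ ε / (16 * r) :=
    ⟨min (1 / 12) (ε / (16 * r)), lt_min (by norm_num) (by positivity), min_le_left _ _,
      min_le_right _ _⟩
  obtain ⟨δ0, N0, hδ0, hest⟩ := hEST r ε e hr hε he0
  refine ⟨max N0 (max ⌈4 * r / ε⌉₊ (max (4 * r) (max ⌈((r : ℝ) + 1) / e⌉₊ ⌈(r : ℝ) / δ0⌉₊))), ?_⟩
  intro N hN j hRg hX V _ G hTE hMX
  obtain ⟨H, c, w, u, A, B, i0, hW, hOne, hAj, hBal, hPl, hTop⟩ := hTE
  have hNN0 : N0 ≤ N := (le_max_left _ _).trans hN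
  have hN' := (le_max_right _ _).trans hN
  have hN1 : 4 * r / ε ≤ (N : ℝ) := by
    have h1 : ⌈4 * r / ε⌉₊ ≤ N := (le_max_left _ _).trans hN'
    exact (Nat.le_ceil _).trans (by exact_mod_cast h1)
  have hN'' := (le_max_right _ _).trans hN'
  have hN2 : 4 * (r : ℝ) ≤ N := by
    have h1 : 4 * r ≤ N := (le_max_left _ _).trans hN''
    exact_mod_cast h1
  have hN''' := (le_max_right _ _).trans hN''
  have hN3 : ((r : ℝ) + 1) / e ≤ N := by
    have h1 : ⌈((r : ℝ) + 1) / e⌉₊ ≤ N := (le_max_left _ _).trans hN'''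
    exact (Nat.le_ceil _).trans (by exact_mod_cast h1)
  have hN4 : (r : ℝ) / δ0 ≤ N := by
    have h1 : ⌈(r : ℝ) / δ0⌉₊ ≤ N := (le_max_right _ _).trans hN'''
    exact (Nat.le_ceil _).trans (by exact_mod_cast h1)
  have hNp : (0 : ℝ) < N := by linarith only [hN2, hrp]
  have hrδ : (r : ℝ) ≤ δ0 * N := by rw [div_le_iff₀ hδ0] at hN4; linarith only [hN4]
  have hre : (r : ℝ) + 1 ≤ e * N := by rw [div_le_iff₀ he0] at hN3; linarith only [hN3]
  obtain ⟨j0, v1, v2, F1, F2, A', A0, hj0, hv1c, hv2c, hv1H, hv2H, hWD, hA'c, hF2c, hF1c, hF1A',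
    hF2H, hF1, hsum, hA0, hv2A0, hA0c, hraj⟩ := build hr hε hN1 hN2 hRg hW hAj hBal hPl
  have hnear := bal_near hr hW.card hBal
  have hsz' : ∀ m, 2 ≤ (cl H c m).card := by
    intro m
    have h1 := (abs_le.1 (hnear m)).1
    have h2 : (4 : ℝ) ≤ N / r := by rw [le_div_iff₀ hrp]; exact hN2
    have h3 : (2 : ℝ) ≤ sz H c m := by linarith only [h1, h2]
    unfold sz at h3
    exact_mod_cast h3
  set G' := gD H c w A' v1 v2 with hG'
  obtain ⟨_, _, hpE⟩ := hGE r hr V G N H c w u A B i0 hW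
  obtain ⟨hfree, hcol, hpE'⟩ := hGD r hr V G' N H c w A' v1 v2 hWD
  have hle : specRad G' ≤ specRad G := by
    refine hMX G' hfree (hcol hsz') ?_
    rw [hpE, hpE', hA'c]; push_cast; ring
  haveI : Nonempty V := ⟨w⟩
  obtain ⟨x, hx⟩ := exists_PV G
  obtain ⟨y, hy⟩ := exists_PV G'
  have hF := (hFAM r hr V G N H c w A).2 u B i0 hW
  have hF' := (hFAM r hr V G' N H c w A').1 v1 v2 hWD
  have hAj' : (A.card : ℝ) + r = j := by exact_mod_cast hAj
  have hNear0 : Near r δ0 N j H A c := by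
    refine ⟨fun i => (hnear i).trans (by linarith only [hrδ, hr3]), ?_⟩
    rw [← hAj', abs_le]; constructor <;> linarith only [hrδ, hrp]
  have hNear' : Near r δ0 N j H A' c := by
    refine ⟨hNear0.1, ?_⟩
    rw [← hAj', hA'c, abs_le]; push_cast; constructor <;> linarith only [hrδ, hr3]
  obtain ⟨xb, hEx⟩ := hest N hNN0 j hRg V G H c w A (JE w u B) x _ hF hx hW.card hNear0
  obtain ⟨yb, hEy⟩ := hest N hNN0 j hRg V G' H c w A' (JD v1 v2) y _ hF' hy hW.card hNear'
  have hxb := hEx.xb0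
  have hyb := hEy.xb0
  -- elementary estimates
  have halg := al_ge hr
  have hall := al_lt hr
  have halN : 0 < al r * N := by positivity
  set X := (j : ℝ) / (al r * N) with hXdef
  have hX0 : ε ≤ X := by
    rw [hXdef, le_div_iff₀ halN]
    have := hRg.1
    linarith only [this, mul_le_mul_of_nonneg_right hall.le (mul_nonneg hε.le hNp.le)]
  have hX1 : X ≤ 1 := by
    rw [hXdef, div_le_iff₀ halN]
    have h1 := hRg.2
    have h2 : 0 < ε * N := by positivity
    have h3 : 0 < 2 / (r : ℝ) := by positivity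
    have h4 : 0 < 2 / (r : ℝ) * (al r * N) := by positivity
    linarith only [h1, h2, h4]
  have hX00 : 0 ≤ X := hε.le.trans hX0
  have heε : 16 * r * e ≤ ε := by
    rw [le_div_iff₀ (by positivity)] at he2
    linarith only [he2]
  have heX : 48 * e ≤ X := by linarith only [heε, hX0, mul_le_mul_of_nonneg_right hr3 he0.le]
  have hlam : (al r - e) * N ≤ specRad G := by
    have h1 := (abs_le.1 hEx.lamN).1
    linarith only [h1]
  have hlamp : 0 < specRad G := by
    have h1 : 0 < (al r - e) * N := mul_pos (by linarith only [halg, he1]) hNp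
    linarith only [h1, hlam]
  have hlamp' : 0 < specRad G' := by
    have h1 := (abs_le.1 hEy.lamN).1
    have h2 : 0 < (al r - e) * N := mul_pos (by linarith only [halg, he1]) hNp
    linarith only [h1, h2]
  have hxw1 : (X - e) * xb ≤ x w := by linarith only [(abs_le.1 hEx.xw).1]
  have hxw2 : x w ≤ (X + e) * xb := by linarith only [(abs_le.1 hEx.xw).2]
  have hyw1 : (X - e) * yb ≤ y w := by linarith only [(abs_le.1 hEy.xw).1]
  have hyw2 : y w ≤ (X + e) * yb := by linarith only [(abs_le.1 hEy.xw).2]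
  have hxu : x u ≤ e * xb := hEx.xo u hW.hu hW.hwu.symm
  have hxH1 : ∀ v ∈ H, (1 - e) * xb ≤ x v := fun v hv => by linarith only [(abs_le.1 (hEx.xH v hv)).1]
  have hxH2 : ∀ v ∈ H, x v ≤ (1 + e) * xb := fun v hv => by linarith only [(abs_le.1 (hEx.xH v hv)).2]
  have hyH1 : ∀ v ∈ H, (1 - e) * yb ≤ y v := fun v hv => by linarith only [(abs_le.1 (hEy.xH v hv)).1]
  have hyH2 : ∀ v ∈ H, y v ≤ (1 + e) * yb := fun v hv => by linarith only [(abs_le.1 (hEy.xH v hv)).2]
  have hCy := hCSE r V G' H c w A' (JD v1 v2) y _ hF' hy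
  have hyu : y u = 0 := by
    have h1 := hCy.2.2.2 u hW.hu hW.hwu.symm
    have h2 : u ≠ v1 := fun h => hW.hu (h ▸ hv1H)
    have h3 : u ≠ v2 := fun h => hW.hu (h ▸ hv2H)
    rw [JD_row y h2 h3] at h1
    rcases mul_eq_zero.1 h1 with h | h
    · exact absurd h hlamp'.ne'
    · exact h
  -- the number a
  set a := (cl A c j0).card with ha
  have hraj' : (r : ℝ) * a ≤ X * N := by
    have h1 : (((r - 1) * a : ℕ) : ℝ) ≤ j := by exact_mod_cast hraj
    rw [Nat.cast_mul, Nat.cast_sub (by omega), Nat.cast_one] at h1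
    have h2 : (j : ℝ) = X * (al r * N) := by rw [hXdef]; field_simp
    have h3 : al r * r = r - 1 := by unfold al; field_simp
    have h4 : ((r : ℝ) - 1) * (r * a) ≤ (r - 1) * (X * N) := by
      calc ((r : ℝ) - 1) * (r * a) = r * ((r - 1) * a) := by ring
        _ ≤ r * j := mul_le_mul_of_nonneg_left h1 hrp.le
        _ = (al r * r) * (X * N) := by rw [h2]; ring
        _ = (r - 1) * (X * N) := by rw [h3]
    exact le_of_mul_le_mul_left h4 (by linarith only [hr3])
  have ha0 : (0 : ℝ) ≤ a := Nat.cast_nonneg _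
  set m := (F1.card : ℝ) with hm
  have hm0 : 0 ≤ m := Nat.cast_nonneg _
  have hma : m ≤ a := by
    have h1 : F1.card ≤ a := by omega
    rw [hm]; exact_mod_cast h1
  have hmA0 : (A0.card : ℝ) = m := by
    have : A0.card = F1.card := by omega
    rw [hm, this]
  -- differences of the class sums
  have hdx : ∀ b ∈ F1, cs x H c (c b) ≤ cs x H c j0 + xb * (X * (1 / N) + e) := by
    intro b hb
    obtain ⟨_, _, _, _, h5, h6, _⟩ := hF1 b hb
    have h7 := (abs_le.1 (hEx.dif j0 (c b))).1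
    have h8 : sz H c j0 - sz H c (c b) = 0 := by unfold sz; rw [h5]; ring
    rw [h8, abs_zero] at h7
    have h9 : -(1 / (N : ℝ)) ≤ (sz A c j0 - sz A c (c b)) / N := by
      rw [← neg_div]
      refine div_le_div_of_nonneg_right ?_ hNp.le
      have : ((cl A c (c b)).card : ℝ) ≤ (cl A c j0).card + 1 := by exact_mod_cast h6
      unfold sz; linarith only [this]
    have h10 : X * (-(1 / (N : ℝ))) ≤ X * ((sz A c j0 - sz A c (c b)) / N) :=
      mul_le_mul_of_nonneg_left h9 hX00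
    have h11 := mul_le_mul_of_nonneg_left h10 hxb.le
    linarith only [h7, h11]
  have hdy : ∀ b ∈ F1, cs y H c (c b) ≤ cs y H c j0 + yb * (X * ((2 * a + r) / N) + e) := by
    intro b hb
    obtain ⟨_, _, _, _, h5, _, h6⟩ := hF1 b hb
    have h7 := (abs_le.1 (hEy.dif j0 (c b))).1
    have h8 : sz H c j0 - sz H c (c b) = 0 := by unfold sz; rw [h5]; ring
    rw [h8, abs_zero] at h7
    have h9 : -((2 * a + r) / (N : ℝ)) ≤ (sz A' c j0 - sz A' c (c b)) / N := by
      rw [← neg_div]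
      refine div_le_div_of_nonneg_right ?_ hNp.le
      have : ((cl A' c (c b)).card : ℝ) ≤ 2 * a + r := by exact_mod_cast h6
      have h10 : 0 ≤ sz A' c j0 := Nat.cast_nonneg _
      unfold sz at h10 ⊢; linarith only [this, h10]
    have h10 : X * (-((2 * a + r) / (N : ℝ))) ≤ X * ((sz A' c j0 - sz A' c (c b)) / N) :=
      mul_le_mul_of_nonneg_left h9 hX00
    have h11 := mul_le_mul_of_nonneg_left h10 hyb.le
    linarith only [h7, h11]
  have hdy2 : ∀ b ∈ F1, cs y H c (c b) ≤ cs y H c j0 + y w := by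
    intro b hb
    obtain ⟨_, _, _, _, h5, _, _⟩ := hF1 b hb
    have h7 := (abs_le.1 (hEy.dif j0 (c b))).1
    have h8 : sz H c j0 - sz H c (c b) = 0 := by unfold sz; rw [h5]; ring
    rw [h8, abs_zero] at h7
    have h9 : -(1 / 3 + 1 / 12 : ℝ) ≤ (sz A' c j0 - sz A' c (c b)) / N := by
      rw [le_div_iff₀ hNp]
      have h1 : sz A' c (c b) ≤ sz H c (c b) := by
        unfold sz
        have : (cl A' c (c b)).card ≤ (cl H c (c b)).card :=
          Finset.card_le_card fun v hv => mem_cl.2 ⟨hWD.hA (mem_cl.1 hv).1, (mem_cl.1 hv).2⟩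
        exact_mod_cast this
      have h2 := (abs_le.1 (hnear (c b))).2
      have h3 : (N : ℝ) / r ≤ 1 / 3 * N := by
        rw [div_le_iff₀ hrp]; linarith only [mul_le_mul_of_nonneg_right hr3 hNp.le]
      have h10 : 0 ≤ sz A' c j0 := Nat.cast_nonneg _
      have h11 : (1 : ℝ) ≤ 1 / 12 * N := by linarith only [hN2, hr3]
      linarith only [h1, h2, h3, h10, h11]
    have h10 : X * (-(1 / 3 + 1 / 12 : ℝ)) ≤ X * ((sz A' c j0 - sz A' c (c b)) / N) :=
      mul_le_mul_of_nonneg_left h9 hX00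
    have h11 := mul_le_mul_of_nonneg_left h10 hyb.le
    have h12 : 48 * e * yb ≤ X * yb := mul_le_mul_of_nonneg_right heX hyb.le
    have h13 : 0 < e * yb := mul_pos he0 hyb
    linarith only [h7, h11, h12, h13, hyw1]
  -- eigenvalue equations
  have hex := eigE hFAM hCSE hr hW hx
  have hey := hCy.1
  set S := ∑ z ∈ H, x z with hS
  set S' := ∑ z ∈ H, y z with hS'
  set P := ∑ v ∈ F1, x v - ∑ v ∈ A0, x v with hP
  set P' := ∑ v ∈ F1, y v - ∑ v ∈ A0, y v with hP'
  set κ := X * (1 / (N : ℝ)) + e with hκ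
  set κ' := X * ((2 * a + r) / (N : ℝ)) + e with hκ'
  have hA0m : ∀ v ∈ A0, v ∈ A ∧ c v = j0 := fun v hv => mem_cl.1 (hA0 hv)
  have hyF1 : ∀ b ∈ F1, specRad G' * y b = S' - cs y H c (c b) + y w := by
    intro b hb
    obtain ⟨h1, h2, h3, h4, _⟩ := hF1 b hb
    have h5 : b ≠ v1 := fun h => h3 (h ▸ hv1c)
    have h6 : b ≠ v2 := fun h => h4 (h ▸ hv2c)
    rw [hey b h1, JD_row y h5 h6, chi_pos (hF1A' hb)]; ring
  have hyA0 : ∀ v ∈ A0, specRad G' * y v = S' - cs y H c j0 := by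
    intro v hv
    obtain ⟨h1, h2⟩ := hA0m v hv
    have h5 : v ≠ v1 := by
      intro h
      rw [h, hv1c] at h2
      exact hj0 h2.symm
    have h6 : v ≠ v2 := fun h => hv2A0 (h ▸ hv)
    have h7 : v ∉ A' := by
      intro h
      have h8 : v ∈ cl A' c (c v2) := mem_cl.2 ⟨h, h2.trans hv2c.symm⟩
      rw [hWD.h2, Finset.mem_singleton] at h8
      exact h6 h8
    rw [hey v (hW.hA h1), JD_row y h5 h6, chi_neg h7, h2]; ring
  have hA0y : specRad G' * ∑ v ∈ A0, y v = m * (S' - cs y H c j0) := by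
    rw [Finset.mul_sum, Finset.sum_congr rfl hyA0, Finset.sum_const, nsmul_eq_mul, hmA0]
  have hP'1 : m * (y w - yb * κ') ≤ specRad G' * P' := by
    rw [hP', mul_sub (specRad G'), hA0y, Finset.mul_sum, Finset.sum_congr rfl hyF1]
    have h1 : ∑ b ∈ F1, (S' - cs y H c j0 - yb * κ' + y w)
        ≤ ∑ b ∈ F1, (S' - cs y H c (c b) + y w) :=
      Finset.sum_le_sum fun b hb => by linarith only [hdy b hb]
    rw [Finset.sum_const, nsmul_eq_mul] at h1
    linarith only [h1]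
  have hP'2 : 0 ≤ specRad G' * P' := by
    rw [hP', mul_sub (specRad G'), hA0y, Finset.mul_sum, Finset.sum_congr rfl hyF1]
    have h1 : ∑ b ∈ F1, (S' - cs y H c j0) ≤ ∑ b ∈ F1, (S' - cs y H c (c b) + y w) :=
      Finset.sum_le_sum fun b hb => by linarith only [hdy2 b hb]
    rw [Finset.sum_const, nsmul_eq_mul] at h1
    linarith only [h1]
  have hP'0 : 0 ≤ P' := by
    by_contra hneg
    push Not at hneg
    have := mul_neg_of_pos_of_neg hlamp' hneg
    linarith only [this, hP'2]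
  have hxA0 : specRad G * ∑ v ∈ A0, x v ≤ m * (S - cs x H c j0 + x w) + x u := by
    rw [Finset.mul_sum]
    have h1 : ∀ v ∈ A0, specRad G * x v = (S - cs x H c j0 + x w) + chi (v ∈ B) * x u := by
      intro v hv
      obtain ⟨h2, h3⟩ := hA0m v hv
      rw [hex v (hW.hA h2), chi_pos h2, h3]; ring
    rw [Finset.sum_congr rfl h1, Finset.sum_add_distrib, Finset.sum_const, nsmul_eq_mul, hmA0,
      ← Finset.sum_mul]
    have h2 := sum_chi_le (fun v hv => (hA0m v hv).2) (hW.hB1 j0 hj0)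
    have h3 : (∑ v ∈ A0, chi (v ∈ B)) * x u ≤ 1 * x u := mul_le_mul_of_nonneg_right h2 (hx.nn u)
    linarith only [h3]
  have hP1 : -(m * (x w + xb * κ)) - x u ≤ specRad G * P := by
    rw [hP, mul_sub (specRad G)]
    have h1 : m * (S - cs x H c j0 - xb * κ) ≤ specRad G * ∑ v ∈ F1, x v := by
      rw [Finset.mul_sum, hm, ← nsmul_eq_mul, ← Finset.sum_const]
      refine Finset.sum_le_sum fun b hb => ?_
      obtain ⟨h2, h3, _⟩ := hF1 b hb
      rw [hex b h2, chi_neg h3]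
      have h4 : 0 ≤ chi (b ∈ B) * x u := mul_nonneg (chi_nonneg _) (hx.nn u)
      linarith only [h4, hdx b hb]
    linarith only [h1, hxA0]
  -- the pairing
  have hpair := pairing hx hy
  rw [pair_fam hF hF' x y, JD_double, JE_double, hsum y, hsum x, ← hP, ← hP', hyu] at hpair
  have hip : 0 ≤ ∑ v, x v * y v := Finset.sum_nonneg fun v _ => mul_nonneg (hx.nn v) (hy.nn v)
  have hneg : (specRad G' - specRad G) * ∑ v, x v * y v ≤ 0 :=
    mul_nonpos_of_nonpos_of_nonneg (by linarith only [hle]) hip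
  rw [← hpair] at hneg
  -- the term W
  have hWb : -(m * (x w * yb * κ' + y w * xb * κ)) - y w * x u
      ≤ specRad G * (x w * P' + y w * P) := by
    have h1 : specRad G' * P' ≤ specRad G * P' := mul_le_mul_of_nonneg_right hle hP'0
    have h2 : x w * (m * (y w - yb * κ')) ≤ x w * (specRad G * P') :=
      mul_le_mul_of_nonneg_left (hP'1.trans h1) (hx.nn w)
    have h3 : y w * (-(m * (x w + xb * κ)) - x u) ≤ y w * (specRad G * P) :=
      mul_le_mul_of_nonneg_left hP1 (hy.nn w)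
    linarith only [h2, h3]
  have hWq := numW (r := (r : ℝ)) (X := X) (e := e) (al := al r) (N := (N : ℝ)) (m := m)
    (a := (a : ℝ)) hr3 hX00 hX1 he0 he1 rfl halg (by linarith only [hN2, hr3]) hre hraj' hm0 hma hlam hxb hyb
    (hx.nn w) hxw2 (hy.nn w) hyw2 (hx.nn u) hxu hWb
  -- the main terms
  have hα : ((r : ℝ) + 1) * ((1 - e) * yb) ≤ y v1 + ∑ v ∈ F2, y v := by
    have h1 : ∑ v ∈ F2, (1 - e) * yb ≤ ∑ v ∈ F2, y v :=
      Finset.sum_le_sum fun v hv => hyH1 v (hF2H hv)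
    rw [Finset.sum_const, nsmul_eq_mul, hF2c] at h1
    have h2 := hyH1 v1 hv1H
    linarith only [h1, h2]
  have hβ : ((r : ℝ) + 1) * ((1 - e) * xb) ≤ x v1 + ∑ v ∈ F2, x v := by
    have h1 : ∑ v ∈ F2, (1 - e) * xb ≤ ∑ v ∈ F2, x v :=
      Finset.sum_le_sum fun v hv => hxH1 v (hF2H hv)
    rw [Finset.sum_const, nsmul_eq_mul, hF2c] at h1
    have h2 := hxH1 v1 hv1H
    linarith only [h1, h2]
  have hγ : x v1 * y v2 + x v2 * y v1 ≤ 2 * ((1 + e) * xb * ((1 + e) * yb)) := by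
    have h0 : 0 ≤ (1 + e) * xb := by positivity
    have h1 : x v1 * y v2 ≤ (1 + e) * xb * ((1 + e) * yb) :=
      mul_le_mul (hxH2 v1 hv1H) (hyH2 v2 hv2H) (hy.nn v2) h0
    have h2 : x v2 * y v1 ≤ (1 + e) * xb * ((1 + e) * yb) :=
      mul_le_mul (hxH2 v2 hv2H) (hyH2 v1 hv1H) (hy.nn v1) h0
    linarith only [h1, h2]
  have hθ : x u * (∑ v ∈ B, y v + y w) ≤ e * xb * (r * ((1 + e) * yb)) := by
    have h0 : 0 ≤ (1 + e) * yb := by positivity
    have h1 : ∑ v ∈ B, y v ≤ ∑ v ∈ B, (1 + e) * yb :=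
      Finset.sum_le_sum fun v hv => hyH2 v (hW.hB hv)
    rw [Finset.sum_const, nsmul_eq_mul] at h1
    have h2 : (B.card : ℝ) + 1 ≤ r := by exact_mod_cast cardB hW
    have h3 : y w ≤ (1 + e) * yb := hyw2.trans (mul_le_mul_of_nonneg_right (by linarith only [hX1]) hyb.le)
    have h4 : (B.card : ℝ) * ((1 + e) * yb) + (1 + e) * yb ≤ r * ((1 + e) * yb) := by
      have := mul_le_mul_of_nonneg_right h2 h0
      linarith only [this]
    refine mul_le_mul hxu (by linarith only [h1, h3, h4]) ?_ (by positivity)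
    exact add_nonneg (Finset.sum_nonneg fun v _ => hy.nn v) (hy.nn w)
  refine THRD.final (r := (r : ℝ)) (X := X) (e := e) (ε := ε) (xb := xb) (yb := yb) (xw := x w)
    (yw := y w) (α := y v1 + ∑ v ∈ F2, y v) (β := x v1 + ∑ v ∈ F2, x v)
    (γ := x v1 * y v2 + x v2 * y v1) (θ := x u * (∑ v ∈ B, y v + y w))
    (W := x w * P' + y w * P) (q := X ^ 4 / (r * ((r : ℝ) - 1))) hr3 hX1 (by linarith only [heX, he0]) he0 he1
    heε hxb hyb hxw1 hyw1 hα hβ hγ hθ hWq hX ?_
  linarith only [hneg]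

end Pool.Agent.Work.MP_5532fa_up
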