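import Pool.Agent.Work.MP_5532fa_up.Interface

/-!
# Block THRE: for small `j` type D is not optimal
-/

open Finset

namespace Pool.Agent.Work.MP_5532fa_up

open MP5532fa (specRad qf pE)

namespace THRE

theorem chi_and (p q : Prop) : chi (p ∧ q) = chi p * chi q := by
  by_cases hp : p
  · by_cases hq : q
    · rw [chi_pos hp, chi_pos hq, chi_pos ⟨hp, hq⟩, one_mul]
    · rw [chi_pos hp, chi_neg hq, chi_neg (fun h => hq h.2), mul_zero]
  · rw [chi_neg hp, chi_neg (fun h => hp h.1), zero_mul]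

section
variable {V : Type} [Fintype V] {r : ℕ}

theorem sum_mem_mul (S : Finset V) (f : V → ℝ) : ∑ a, chi (a ∈ S) * f a = ∑ a ∈ S, f a := by
  have h1 : ∑ a ∈ S, chi (a ∈ S) * f a = ∑ a, chi (a ∈ S) * f a :=
    Finset.sum_subset (Finset.subset_univ S) (fun x _ hx => by rw [chi_neg hx, zero_mul])
  rw [← h1]
  exact Finset.sum_congr rfl fun a ha => by rw [chi_pos ha, one_mul]

theorem sum_eq_mul (w : V) (f : V → ℝ) : ∑ a, chi (a = w) * f a = f w := by
  have := sum_mem_mul ({w} : Finset V) f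
  simpa using this

theorem sum_prod (f g : V → ℝ) : ∑ a, ∑ b, f a * g b = (∑ a, f a) * ∑ b, g b := by
  rw [Finset.sum_mul]
  exact Finset.sum_congr rfl fun a _ => (Finset.mul_sum _ _ _).symm

theorem sum_pair (w : V) (A : Finset V) (f g : V → ℝ) :
    ∑ a, ∑ b, chi (a = w ∧ b ∈ A) * (f a * g b) = f w * ∑ b ∈ A, g b := by
  have h : ∀ a b : V, chi (a = w ∧ b ∈ A) * (f a * g b)
      = (chi (a = w) * f a) * (chi (b ∈ A) * g b) := fun a b => by rw [chi_and]; ring
  simp_rw [h]
  rw [sum_prod, sum_eq_mul, sum_mem_mul]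

theorem sum_pair' (w : V) (A : Finset V) (f g : V → ℝ) :
    ∑ a, ∑ b, chi (b = w ∧ a ∈ A) * (f a * g b) = g w * ∑ a ∈ A, f a := by
  rw [Finset.sum_comm, ← sum_pair w A g f]
  exact Finset.sum_congr rfl fun a _ => Finset.sum_congr rfl fun b _ => by ring

theorem sum_pt (w u : V) (f g : V → ℝ) :
    ∑ a, ∑ b, chi (a = w ∧ b = u) * (f a * g b) = f w * g u := by
  have h : ∀ a b : V, chi (a = w ∧ b = u) * (f a * g b)
      = (chi (a = w) * f a) * (chi (b = u) * g b) := fun a b => by rw [chi_and]; ring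
  simp_rw [h]
  rw [sum_prod, sum_eq_mul, sum_eq_mul]

/-- the Rayleigh quotient of the new graph -/
theorem gain {G G' : SimpleGraph V} {H A A' B : Finset V} {c : V → Fin r} {w u v1 v2 : V}
    {x : V → ℝ} {lam : ℝ} (hF : Fam G H c w A (JD v1 v2)) (hF' : Fam G' H c w A' (JE w u B))
    (hx : PV G x lam) [Nonempty V] :
    lam + 2 * (x v1 * x v2) + 2 * (x w * (∑ v ∈ A', x v - ∑ v ∈ A, x v))
      + 2 * (x u * ∑ v ∈ B, x v) + 2 * (x w * x u) ≤ specRad G' := by
  have h1 := rayleigh G' x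
  rw [hx.unit, mul_one] at h1
  have h2 := hx.form
  have h3 : ∑ a, ∑ b, ad G' a b * (x a * x b)
      = ∑ a, ∑ b, ad G a b * (x a * x b)
        + (2 * (x v1 * x v2) + 2 * (x w * (∑ v ∈ A', x v - ∑ v ∈ A, x v))
        + 2 * (x u * ∑ v ∈ B, x v) + 2 * (x w * x u)) := by
    have h : ∀ a b, ad G' a b * (x a * x b) = ad G a b * (x a * x b)
        + (chi (a = v1 ∧ b = v2) * (x a * x b) + chi (a = v2 ∧ b = v1) * (x a * x b)
          + chi (a = w ∧ b ∈ A') * (x a * x b) + chi (b = w ∧ a ∈ A') * (x a * x b)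
          - chi (a = w ∧ b ∈ A) * (x a * x b) - chi (b = w ∧ a ∈ A) * (x a * x b)
          + chi (a = u ∧ b ∈ B) * (x a * x b) + chi (b = u ∧ a ∈ B) * (x a * x b)
          + chi (a = w ∧ b = u) * (x a * x b) + chi (a = u ∧ b = w) * (x a * x b)) := by
      intro a b
      rw [hF.adj, hF'.adj]
      unfold JE JD
      ring
    simp_rw [h, Finset.sum_add_distrib, Finset.sum_sub_distrib, Finset.sum_add_distrib]
    rw [sum_pt, sum_pt, sum_pair, sum_pair', sum_pair, sum_pair', sum_pair, sum_pair', sum_pt,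
      sum_pt]
    ring
  rw [h3, h2] at h1
  linarith

end

/-- the combinatorial construction of the graph of type E -/
theorem construct {V : Type} {r N j : ℕ} {G : SimpleGraph V} {H A : Finset V}
    {c : V → Fin r} {w v1 v2 : V} (hr : 3 ≤ r) (h : WD G N H c w A v1 v2)
    (hA : A.card = j + 1) (hj : 2 * r ≤ j) (hsz : 2 ≤ (cl H c (c v2)).card) {u : V}
    (hu : u ∉ H) (hwu : w ≠ u) :
    ∃ A' B : Finset V, WE (gE H c w u A' B) N H c w u A' B (c v1) ∧ A' ⊆ A ∧
      A'.card + r = j := by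
  classical
  choose ρ hρ using h.hne
  have hρc : ∀ i, c (ρ i) = i := fun i => (mem_cl.1 (hρ i)).2
  have hρA : ∀ i, ρ i ∈ A := fun i => (mem_cl.1 (hρ i)).1
  have hv1 : ρ (c v1) = v1 := by
    have := hρ (c v1)
    rw [h.h1, Finset.mem_singleton] at this
    exact this
  have hv1A : v1 ∈ A := hv1 ▸ hρA (c v1)
  -- the removed elements
  have hcard1 : r ≤ (A \ Finset.univ.image ρ).card := by
    have h1 := Finset.le_card_sdiff (Finset.univ.image ρ) A
    have h2 : (Finset.univ.image ρ).card ≤ r := by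
      have := Finset.card_image_le (s := (Finset.univ : Finset (Fin r))) (f := ρ)
      rwa [Finset.card_univ, Fintype.card_fin] at this
    omega
  obtain ⟨D, hD, hDc⟩ := Finset.exists_subset_card_eq hcard1
  have hDA : D ⊆ A := hD.trans Finset.sdiff_subset
  have hDρ : ∀ i, ρ i ∉ D := by
    intro i hi
    have := hD hi
    rw [Finset.mem_sdiff] at this
    exact this.2 (Finset.mem_image_of_mem ρ (Finset.mem_univ i))
  have hv1D : v1 ∉ D := hv1 ▸ hDρ (c v1)
  obtain ⟨b, hb, hbv⟩ := Finset.exists_mem_ne (lt_of_lt_of_le one_lt_two hsz) v2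
  rw [mem_cl] at hb
  have hbA : b ∉ A := by
    intro h'
    have : b ∈ cl A c (c v2) := mem_cl.2 ⟨h', hb.2⟩
    rw [h.h2, Finset.mem_singleton] at this
    exact hbv this
  let β : Fin r → V := fun i => if i = c v2 then b else ρ i
  have hβc : ∀ i, c (β i) = i := by
    intro i
    by_cases hi : i = c v2
    · simp only [β, if_pos hi]; rw [hb.2, hi]
    · simp only [β, if_neg hi]; exact hρc i
  have hβH : ∀ i, β i ∈ H := by
    intro i
    by_cases hi : i = c v2
    · simp only [β, if_pos hi]; exact hb.1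
    · simp only [β, if_neg hi]; exact h.hA (hρA i)
  refine ⟨(A.erase v1) \ D, (Finset.univ.erase (c v1)).image β, ?_, ?_, ?_⟩
  · apply gE_WE h.card h.hw hu hwu
    · exact (Finset.sdiff_subset.trans (Finset.erase_subset _ _)).trans h.hA
    · intro v hv
      rw [Finset.mem_image] at hv
      obtain ⟨i, -, rfl⟩ := hv
      exact hβH i
    · rw [Finset.eq_empty_iff_forall_notMem]
      intro v hv
      rw [mem_cl, Finset.mem_sdiff, Finset.mem_erase] at hv
      have : v ∈ cl A c (c v1) := mem_cl.2 ⟨hv.1.1.2, hv.2⟩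
      rw [h.h1, Finset.mem_singleton] at this
      exact hv.1.1.1 this
    · rw [Finset.eq_empty_iff_forall_notMem]
      intro v hv
      rw [mem_cl, Finset.mem_image] at hv
      obtain ⟨⟨i, hi, rfl⟩, hv⟩ := hv
      rw [hβc] at hv
      exact Finset.ne_of_mem_erase hi hv
    · intro i hi
      refine ⟨ρ i, mem_cl.2 ⟨Finset.mem_sdiff.2 ⟨Finset.mem_erase.2 ⟨?_, hρA i⟩, hDρ i⟩, hρc i⟩⟩
      intro h'
      exact hi (by rw [← hρc i, h'])
    · intro i hi
      rw [Finset.card_eq_one]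
      refine ⟨β i, ?_⟩
      ext v
      rw [mem_cl, Finset.mem_image, Finset.mem_singleton]
      constructor
      · rintro ⟨⟨k, hk, rfl⟩, hv⟩
        rw [hβc] at hv
        rw [hv]
      · rintro rfl
        exact ⟨⟨i, Finset.mem_erase.2 ⟨hi, Finset.mem_univ _⟩, rfl⟩, hβc i⟩
    · intro hsub
      have h1 : b ∈ (Finset.univ.erase (c v1)).image β := by
        rw [Finset.mem_image]
        refine ⟨c v2, Finset.mem_erase.2 ⟨h.h12.symm, Finset.mem_univ _⟩, ?_⟩
        simp only [β, if_true]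
      have h2 := hsub h1
      rw [Finset.mem_sdiff, Finset.mem_erase] at h2
      exact hbA h2.1.2
  · exact Finset.sdiff_subset.trans (Finset.erase_subset _ _)
  · have h1 : D ⊆ A.erase v1 := by
      intro v hv
      exact Finset.mem_erase.2 ⟨fun h' => hv1D (h' ▸ hv), hDA hv⟩
    rw [Finset.card_sdiff_of_subset h1, Finset.card_erase_of_mem hv1A, hDc, hA]
    omega

/-- balanced classes have sizes close to `N / r` -/
theorem near_of_bal {V : Type} {r N : ℕ} {H : Finset V} {c : V → Fin r} (hr : 3 ≤ r)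
    (hN : H.card = N) (hb : Bal H c) (i : Fin r) : |sz H c i - N / r| ≤ 1 := by
  have hr0 : (0 : ℝ) < r := by
    have : (3 : ℝ) ≤ r := by exact_mod_cast hr
    linarith
  have hs : ∑ k, sz H c k = N := by
    have := sum_card_cl H c
    rw [hN] at this
    unfold sz
    exact_mod_cast this
  have h1 : ∀ k, sz H c i ≤ sz H c k + 1 := by
    intro k
    have := hb i k
    unfold sz
    exact_mod_cast this
  have h2 : ∀ k, sz H c k ≤ sz H c i + 1 := by
    intro k
    have := hb k i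
    unfold sz
    exact_mod_cast this
  have e1 : ∑ k : Fin r, (sz H c i - 1) ≤ ∑ k, sz H c k :=
    Finset.sum_le_sum fun k _ => by linarith [h1 k]
  have e2 : ∑ k, sz H c k ≤ ∑ k : Fin r, (sz H c i + 1) :=
    Finset.sum_le_sum fun k _ => h2 k
  rw [Finset.sum_const, Finset.card_univ, Fintype.card_fin, nsmul_eq_mul, hs] at e1 e2
  rw [abs_le]
  constructor
  · have : (N : ℝ) / r ≤ sz H c i + 1 := by
      rw [div_le_iff₀ hr0]; linarith
    linarith
  · have : sz H c i - 1 ≤ (N : ℝ) / r := by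
      rw [le_div_iff₀ hr0]; linarith
    linarith

end THRE

theorem blk_THRE (hGD : Stmt_GD) (hGE : Stmt_GE) (hFAM : Stmt_FAM) (hEST : Stmt_EST) :
    Stmt_THRE := by
  classical
  intro r ε hr hε
  have hr3 : (3 : ℝ) ≤ r := by exact_mod_cast hr
  set e : ℝ := min ε 1 / (2 * (r + 4)) with he
  have hε1 : 0 < min ε 1 := lt_min hε one_pos
  have he0 : 0 < e := by rw [he]; positivity
  have he' : e * (2 * (r + 4)) = min ε 1 := by
    rw [he]; field_simp
  obtain ⟨δ, N0, hδ, hE⟩ := hEST r ε e hr hε he0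
  obtain ⟨N1, hN1⟩ := exists_nat_ge (1 / δ)
  obtain ⟨N2, hN2⟩ := exists_nat_ge ((2 * r : ℝ) / ε)
  refine ⟨max (max N0 N1) (max N2 (3 * r)), ?_⟩
  intro N hN j hj hX V _ G hV hT hM
  have hNN0 : N0 ≤ N := le_trans (le_trans (le_max_left _ _) (le_max_left _ _)) hN
  have hNN1 : N1 ≤ N := le_trans (le_trans (le_max_right _ _) (le_max_left _ _)) hN
  have hNN2 : N2 ≤ N := le_trans (le_trans (le_max_left _ _) (le_max_right _ _)) hN
  have hNN3 : 3 * r ≤ N := le_trans (le_trans (le_max_right _ _) (le_max_right _ _)) hN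
  have hN1' : 1 ≤ δ * N := by
    have h1 : (1 : ℝ) / δ ≤ N := hN1.trans (by exact_mod_cast hNN1)
    rw [div_le_iff₀ hδ] at h1
    linarith
  have hj2 : 2 * r ≤ j := by
    have h1 : (2 * r : ℝ) / ε ≤ N := hN2.trans (by exact_mod_cast hNN2)
    rw [div_le_iff₀ hε] at h1
    have h2 : ((2 * r : ℕ) : ℝ) ≤ j := by
      push_cast
      have := hj.1
      linarith
    exact_mod_cast h2
  obtain ⟨H, c, w, A, v1, v2, hW, hAc, hbal, hplace, htop⟩ := hT
  have hnearH := THRE.near_of_bal hr hW.card hbal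
  have hsz : ∀ i, 2 ≤ (cl H c i).card := by
    intro i
    have h1 := (abs_le.1 (hnearH i)).1
    have h2 : (3 : ℝ) ≤ N / r := by
      rw [le_div_iff₀ (by linarith)]
      exact_mod_cast hNN3
    have h3 : (2 : ℝ) ≤ sz H c i := by linarith
    unfold sz at h3
    exact_mod_cast h3
  -- a spare vertex
  obtain ⟨u, huH, hwu⟩ : ∃ u : V, u ∉ H ∧ w ≠ u := by
    have h1 : (insert w H).card < Fintype.card V := by
      have := Finset.card_insert_le w H
      rw [hW.card] at this
      omega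
    have h2 : insert w H ≠ Finset.univ := by
      intro h'
      rw [h', Finset.card_univ] at h1
      exact lt_irrefl _ h1
    obtain ⟨u, hu⟩ := Finset.exists_mem_notMem_of_card_lt_card
      (s := insert w H) (t := Finset.univ) (by rw [Finset.card_univ]; exact h1)
    refine ⟨u, fun h' => hu.2 (Finset.mem_insert_of_mem h'), fun h' => hu.2 ?_⟩
    rw [← h']; exact Finset.mem_insert_self _ _
  obtain ⟨A', B, hE', hAA, hA'c⟩ := THRE.construct hr hW hAc hj2 (hsz _) huH hwu
  set G' := gE H c w u A' B with hG'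
  obtain ⟨hf', hc', hp'⟩ := hGE r hr V G' N H c w u A' B (c v1) hE'
  obtain ⟨hf, hc, hp⟩ := hGD r hr V G N H c w A v1 v2 hW
  have hpe : pE G' = pE G := by
    rw [hp, hp', hAc, ← hA'c]
    push_cast
    ring
  have hle := hM G' hf' (hc' fun i => le_trans (by norm_num) (hsz i)) hpe
  have hF := (hFAM r hr V G N H c w A).1 v1 v2 hW
  have hF' := (hFAM r hr V G' N H c w A').2 u B (c v1) hE'
  have hVne : Nonempty V := ⟨w⟩
  obtain ⟨x, hx⟩ := exists_PV G
  have hnear : Near r δ N j H A c := by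
    refine ⟨fun i => (hnearH i).trans hN1', ?_⟩
    rw [hAc]
    push_cast
    rw [show ((j : ℝ) + 1 - j) = 1 by ring, abs_one]
    exact hN1'
  obtain ⟨xb, hxb⟩ := hE N hNN0 j hj V G H c w A _ x _ hF hx hW.card hnear
  have hg := THRE.gain hF hF' hx
  have hxb0 := hxb.xb0
  have hv1A : v1 ∈ A := by
    have : v1 ∈ cl A c (c v1) := by rw [hW.h1]; exact Finset.mem_singleton_self _
    exact (mem_cl.1 this).1
  have hv2A : v2 ∈ A := by
    have : v2 ∈ cl A c (c v2) := by rw [hW.h2]; exact Finset.mem_singleton_self _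
    exact (mem_cl.1 this).1
  have hx1 := (abs_le.1 (hxb.xH v1 (hW.hA hv1A))).1
  have hx2 := (abs_le.1 (hxb.xH v2 (hW.hA hv2A))).1
  have hxw := (abs_le.1 hxb.xw).2
  have hsum : ∑ v ∈ A, x v - ∑ v ∈ A', x v ≤ (r + 1) * ((1 + e) * xb) := by
    have h1 := Finset.sum_sdiff (f := x) hAA
    have h2 : ∑ v ∈ A \ A', x v ≤ ∑ _v ∈ A \ A', (1 + e) * xb := by
      refine Finset.sum_le_sum fun v hv => ?_
      have := (abs_le.1 (hxb.xH v (hW.hA (Finset.mem_sdiff.1 hv).1))).2
      linarith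
    rw [Finset.sum_const, nsmul_eq_mul, Finset.card_sdiff_of_subset hAA] at h2
    have h3 : A.card - A'.card = r + 1 := by omega
    rw [h3] at h2
    push_cast at h2
    linarith
  have hB0 : 0 ≤ x u * ∑ v ∈ B, x v :=
    mul_nonneg (hx.nn u) (Finset.sum_nonneg fun v _ => hx.nn v)
  have hwu0 : 0 ≤ x w * x u := mul_nonneg (hx.nn w) (hx.nn u)
  set X : ℝ := j / (al r * N) with hXd
  have hX0 : 0 ≤ X := by
    have h1 := al_ge hr
    have h2 : (0 : ℝ) ≤ al r * N := mul_nonneg (by linarith) (Nat.cast_nonneg _)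
    exact div_nonneg (Nat.cast_nonneg _) h2
  have hε' : min ε 1 ≤ ε := min_le_left _ _
  have hε'1 : min ε 1 ≤ 1 := min_le_right _ _
  have he1 : e ≤ 1 / 14 := by nlinarith
  -- the two products
  have p1 : (1 - e) ^ 2 * xb ^ 2 ≤ x v1 * x v2 := by
    have a1 : (1 - e) * xb ≤ x v1 := by linarith
    have a2 : (1 - e) * xb ≤ x v2 := by linarith
    have a3 : 0 ≤ (1 - e) * xb := mul_nonneg (by linarith) hxb0.le
    calc (1 - e) ^ 2 * xb ^ 2 = ((1 - e) * xb) * ((1 - e) * xb) := by ring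
      _ ≤ x v1 * x v2 := mul_le_mul a1 a2 a3 (a3.trans a1)
  have p2 : x w * (∑ v ∈ A, x v - ∑ v ∈ A', x v)
      ≤ ((X + e) * xb) * ((r + 1) * ((1 + e) * xb)) := by
    have a1 : x w ≤ (X + e) * xb := by linarith
    have a2 : 0 ≤ (X + e) * xb := mul_nonneg (by linarith) hxb0.le
    have a3 : 0 ≤ (r + 1) * ((1 + e) * xb) := by positivity
    calc x w * (∑ v ∈ A, x v - ∑ v ∈ A', x v)
        ≤ x w * ((r + 1) * ((1 + e) * xb)) := mul_le_mul_of_nonneg_left hsum (hx.nn w)
      _ ≤ _ := mul_le_mul_of_nonneg_right a1 a3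
  have p3 : (X + e) * ((r + 1) * (1 + e)) < (1 - e) ^ 2 := by
    have b1 : ((r : ℝ) + 1) * X ≤ 1 - min ε 1 := by linarith
    have b2 : (X + e) * ((r + 1) * (1 + e)) = (((r : ℝ) + 1) * X + (r + 1) * e) * (1 + e) := by ring
    rw [b2]
    have b3 : (((r : ℝ) + 1) * X + (r + 1) * e) ≤ 1 - min ε 1 + (r + 1) * e := by linarith
    have b4 : (1 - min ε 1 + (r + 1) * e) ≤ 1 := by nlinarith
    have b5 : (((r : ℝ) + 1) * X + (r + 1) * e) * (1 + e)
        ≤ (1 - min ε 1 + (r + 1) * e) + e := by nlinarith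
    nlinarith
  have p4 : ((X + e) * xb) * ((r + 1) * ((1 + e) * xb)) < (1 - e) ^ 2 * xb ^ 2 := by
    have : ((X + e) * xb) * ((r + 1) * ((1 + e) * xb))
        = ((X + e) * ((r + 1) * (1 + e))) * xb ^ 2 := by ring
    rw [this]
    exact mul_lt_mul_of_pos_right p3 (by positivity)
  have p5 : x w * (∑ v ∈ A', x v - ∑ v ∈ A, x v) = - (x w * (∑ v ∈ A, x v - ∑ v ∈ A', x v)) := by
    ring
  rw [p5] at hg
  linarith

end Pool.Agent.Work.MP_5532fa_up
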