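import Pool.Agent.Work.MP_5532fa_up.Interface

/-!
# MP_5532fa_up, block TN (helper20)
-/

set_option autoImplicit false

namespace Pool.Agent.Work.MP_5532fa_up

open Finset

namespace TN

/-- the sum of squares of balanced class sizes -/
lemma sq_sum {N r : ℕ} (hr : 0 < r) (n : Fin r → ℕ) (hsum : ∑ i, n i = N)
    (hb : ∀ i k, n i ≤ n k + 1) :
    ∑ i, ((n i : ℤ)) ^ 2 = (2 * (N / r : ℕ) + 1) * N - r * ((N / r : ℕ) * ((N / r : ℕ) + 1)) := by
  have hne : (univ : Finset (Fin r)).Nonempty := ⟨⟨0, hr⟩, Finset.mem_univ _⟩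
  obtain ⟨i0, _, hmin⟩ := Finset.exists_min_image univ (fun i => n i) hne
  set k := n i0 with hk
  have hval : ∀ i, n i = k ∨ n i = k + 1 := by
    intro i
    have h1 := hmin i (Finset.mem_univ _)
    have h2 := hb i i0
    omega
  have hlow : r * k ≤ N := by
    rw [← hsum]
    have : ∑ _i : Fin r, k ≤ ∑ i, n i := Finset.sum_le_sum fun i _ => hmin i (Finset.mem_univ _)
    simpa using this
  have hup : N < r * (k + 1) := by
    rw [← hsum]
    have : ∑ i, n i < ∑ _i : Fin r, (k + 1) := by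
      refine Finset.sum_lt_sum (fun i _ => ?_) ⟨i0, Finset.mem_univ _, ?_⟩
      · rcases hval i with h | h <;> omega
      · omega
    simpa using this
  have hNr : N / r = k := by
    apply Nat.div_eq_of_lt_le
    · rw [mul_comm]; exact hlow
    · rw [mul_comm]; exact hup
  rw [hNr]
  have e : ∀ i, ((n i : ℤ)) ^ 2 = (2 * k + 1) * n i - k * (k + 1) := by
    intro i
    rcases hval i with h | h
    · rw [h]; ring
    · rw [h]; push_cast; ring
  simp only [e, Finset.sum_sub_distrib, ← Finset.mul_sum]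
  have e1 : ∑ i, (n i : ℤ) = N := by exact_mod_cast hsum
  rw [e1]
  simp
  ring

/-- the number of edges of the Turan graph -/
lemma tn_eq {r : ℕ} (hr : 0 < r) (N : ℕ) :
    2 * (tn r N : ℤ) + ((2 * (N / r : ℕ) + 1) * N - r * ((N / r : ℕ) * ((N / r : ℕ) + 1)))
      = (N : ℤ) ^ 2 := by
  have h1 := MP5532fa.pE_mult (MP5532fa.cT r N hr) (SimpleGraph.turanGraph N r) (by
    intro u w
    unfold MP5532fa.cT SimpleGraph.turanGraph
    simp)
  rw [MP5532fa.pE_eq, Fintype.card_fin] at h1
  have h2 := sq_sum hr (fun i => MP5532fa.sz (MP5532fa.cT r N hr) i)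
    (by rw [MP5532fa.sum_sz, Fintype.card_fin]) (MP5532fa.cT_bal hr)
  rw [← h2]
  have h3 : (2 * (tn r N : ℝ)) + ∑ i, ((MP5532fa.sz (MP5532fa.cT r N hr) i : ℝ)) ^ 2
      = (N : ℝ) ^ 2 := by
    unfold tn
    linarith
  exact_mod_cast h3

end TN

/-- TN -/
theorem blk_TN : Stmt_TN := by
  intro r hr N
  have hr0 : 0 < r := by omega
  refine ⟨?_, ?_, ?_⟩
  · intro n hsum hb
    have h1 := TN.sq_sum hr0 n hsum hb
    have h2 := TN.tn_eq hr0 N
    rw [← h1] at h2
    exact_mod_cast h2
  · have h2 := TN.tn_eq hr0 N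
    have h3 : 2 * (tn r N : ℝ) + ((2 * ((N / r : ℕ) : ℝ) + 1) * N
        - r * (((N / r : ℕ) : ℝ) * (((N / r : ℕ) : ℝ) + 1))) = (N : ℝ) ^ 2 := by
      exact_mod_cast h2
    have hrR : (3 : ℝ) ≤ r := by exact_mod_cast hr
    have hrpos : (0 : ℝ) < r := by linarith
    obtain ⟨s, hs, hN⟩ : ∃ s : ℕ, s < r ∧ N = r * (N / r) + s :=
      ⟨N % r, Nat.mod_lt _ hr0, (Nat.div_add_mod N r).symm⟩
    set k := N / r with hk
    have hNR : (N : ℝ) = r * k + s := by exact_mod_cast hN
    have hsR : (s : ℝ) < r := by exact_mod_cast hs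
    have hs0 : (0 : ℝ) ≤ s := Nat.cast_nonneg s
    have e : 2 * (tn r N : ℝ) - al r * (N : ℝ) ^ 2 = (s : ℝ) * ((s : ℝ) - r) / r := by
      unfold al
      rw [hNR] at h3 ⊢
      field_simp
      field_simp at h3
      linear_combination (r : ℝ) * h3
    rw [e, abs_le]
    constructor
    · rw [le_div_iff₀ hrpos]
      nlinarith
    · rw [div_le_iff₀ hrpos]
      nlinarith
  · have h2 := TN.tn_eq hr0 N
    have h3 := TN.tn_eq hr0 (N + 1)
    have hdiv : (N + 1) / r = N / r ∨ ((N + 1) / r = N / r + 1 ∧ N + 1 = r * (N / r + 1)) := by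
      have h4 := Nat.div_add_mod N r
      have h5 := Nat.mod_lt N hr0
      by_cases hc : N % r + 1 = r
      · right
        have h6 : N + 1 = r * (N / r + 1) := by rw [mul_add, mul_one]; omega
        refine ⟨?_, h6⟩
        conv_lhs => rw [h6]
        exact Nat.mul_div_cancel_left _ hr0
      · left
        apply Nat.div_eq_of_lt_le
        · rw [mul_comm]; omega
        · rw [mul_comm, mul_add, mul_one]; omega
    have hgoal : (tn r (N + 1) : ℤ) + (N / r : ℕ) = tn r N + N := by
      rcases hdiv with h | ⟨h, h'⟩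
      · rw [h] at h3
        push_cast at h2 h3 ⊢
        have : 2 * ((tn r (N + 1) : ℤ) + (N : ℤ) / (r : ℤ)) = 2 * (tn r N + N) := by
          linear_combination h3 - h2
        linarith
      · rw [h] at h3
        have h'' : (N : ℤ) + 1 = r * ((N / r : ℕ) + 1) := by exact_mod_cast h'
        generalize (N / r : ℕ) = k at h2 h3 h'' ⊢
        push_cast at h2 h3 ⊢
        have : 2 * ((tn r (N + 1) : ℤ) + k) = 2 * (tn r N + N) := by
          linear_combination h3 - h2 - 2 * h''
        linarith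
    exact_mod_cast hgoal

end Pool.Agent.Work.MP_5532fa_up
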