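import Pool.Agent.Work.MP_5532fa_up.Interface

/-!
# MP_5532fa_co, upgrade, block TRANS: moving a graph to another vertex set
-/

open Finset

namespace Pool.Agent.Work.MP_5532fa_up

open MP5532fa (specRad qf pE)

theorem blk_TRANS : Stmt_TRANS := by
  intro V V' _ _ G hV hcard
  classical
  obtain ⟨f⟩ := Function.Embedding.nonempty_of_card_le hcard
  have hup : MP5532fa.UpToIsolated (G.map f) G := by
    refine ⟨SimpleGraph.Embedding.map f G, ?_⟩
    intro v hv w hadj
    rw [SimpleGraph.map_adj] at hadj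
    obtain ⟨a, b, _, ha, _⟩ := hadj
    exact hv ⟨a, ha⟩
  refine ⟨G.map f, MP5532fa.specRad_of_upTo hup, MP5532fa.pE_of_upTo hup, ?_⟩
  intro r hr
  refine ⟨?_, ?_⟩
  · intro hG t ht
    rw [SimpleGraph.isNClique_map_iff (by omega)] at ht
    obtain ⟨s, hs, _⟩ := ht
    exact hG s hs
  · intro hc
    exact hc.of_hom (SimpleGraph.Embedding.map f G).toHom

end Pool.Agent.Work.MP_5532fa_up
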