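import Pool.Agent.Work.MP_5532fa_up.Interface

/-!
# Block TRV: transversals in the neighbourhood of `w`
-/

open Finset

namespace Pool.Agent.Work.MP_5532fa_up

open MP5532fa (specRad qf pE)

namespace TRV

section
variable {V : Type} {r : ℕ} {G : SimpleGraph V} {H A : Finset V} {c : V → Fin r} {w : V}

theorem trans (hG : G.CliqueFree (r + 1)) (hA : A = nb G H w) (g : Fin r → V)
    (hg : ∀ i, g i ∈ cl A c i) : ∃ i k, i ≠ k ∧ ¬ G.Adj (g i) (g k) := by
  classical
  by_contra hcon
  push Not at hcon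
  have hinj : Function.Injective g := by
    intro i k hik
    have h1 := (mem_cl.1 (hg i)).2
    have h2 := (mem_cl.1 (hg k)).2
    rw [← h1, ← h2, hik]
  have h1 : G.IsNClique r (Finset.univ.image g) := by
    rw [SimpleGraph.isNClique_iff]
    constructor
    · intro a ha b hb hab
      rw [Finset.coe_image] at ha hb
      obtain ⟨i, -, rfl⟩ := ha
      obtain ⟨k, -, rfl⟩ := hb
      exact hcon i k (fun h => hab (by rw [h]))
    · rw [Finset.card_image_of_injective _ hinj, Finset.card_univ, Fintype.card_fin]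
  apply hG (insert w (Finset.univ.image g))
  apply h1.insert
  intro b hb
  rw [Finset.mem_image] at hb
  obtain ⟨i, -, rfl⟩ := hb
  have h2 := (mem_cl.1 (hg i)).1
  rw [hA, mem_nb] at h2
  exact h2.2

/-- the set of the missing pairs -/
noncomputable def Ms (G : SimpleGraph V) (H : Finset V) (c : V → Fin r) : Finset (V × V) := by
  classical
  exact (H ×ˢ H).filter (fun e => c e.1 ≠ c e.2 ∧ ¬ G.Adj e.1 e.2)

theorem mem_Ms {a b : V} : (a, b) ∈ Ms G H c ↔ a ∈ H ∧ b ∈ H ∧ c a ≠ c b ∧ ¬ G.Adj a b := by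
  classical
  unfold Ms
  rw [Finset.mem_filter, Finset.mem_product]
  constructor
  · rintro ⟨⟨h1, h2⟩, h3, h4⟩; exact ⟨h1, h2, h3, h4⟩
  · rintro ⟨h1, h2, h3, h4⟩; exact ⟨⟨h1, h2⟩, h3, h4⟩

theorem mis_eq : mis G H c = (Ms G H c).card := rfl

theorem part1 (hr : 3 ≤ r) (hG : G.CliqueFree (r + 1)) (hA : A = nb G H w)
    (hne : ∀ i, (cl A c i).Nonempty) :
    ∃ i0 i1 : Fin r, i0 ≠ i1 ∧ (cl A c i0).card ≤ (cl A c i1).card ∧
      2 * (cl A c i1).card ≤ mis G H c := by
  classical
  have hAH : ∀ v ∈ A, v ∈ H := by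
    intro v hv; rw [hA, mem_nb] at hv; exact hv.1
  have hr0 : 0 < r := by omega
  have huniv : (Finset.univ : Finset (Fin r)).Nonempty := ⟨⟨0, hr0⟩, Finset.mem_univ _⟩
  obtain ⟨i0, -, hi0⟩ := Finset.exists_min_image Finset.univ (fun i => (cl A c i).card) huniv
  have hne1 : ((Finset.univ : Finset (Fin r)).erase i0).Nonempty := by
    rw [← Finset.card_pos, Finset.card_erase_of_mem (Finset.mem_univ _), Finset.card_univ,
      Fintype.card_fin]
    omega
  obtain ⟨i1, hi1m, hi1⟩ := Finset.exists_min_image _ (fun i => (cl A c i).card) hne1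
  have hi10 : i1 ≠ i0 := Finset.ne_of_mem_erase hi1m
  refine ⟨i0, i1, hi10.symm, hi0 i1 (Finset.mem_univ _), ?_⟩
  set m := (cl A c i1).card with hm
  obtain ⟨a, ha⟩ := hne i0
  have hemb : ∀ l, l ≠ i0 → ∃ e : Fin m → V, Function.Injective e ∧ ∀ s, e s ∈ cl A c l := by
    intro l hl
    have h1 : m ≤ (cl A c l).card := hi1 l (Finset.mem_erase.2 ⟨hl, Finset.mem_univ _⟩)
    have e1 : Fin (cl A c l).card ≃ (cl A c l) := (cl A c l).equivFin.symm
    refine ⟨fun s => ((e1 (Fin.castLE h1 s)) : V), ?_, fun s => (e1 (Fin.castLE h1 s)).2⟩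
    intro s s' hss
    have h2 := e1.injective (Subtype.ext hss)
    exact Fin.castLE_injective h1 h2
  have hV : Nonempty V := ⟨a⟩
  choose! e heinj hemem using hemb
  let g : Fin m → Fin r → V := fun s i => if i = i0 then a else e i s
  have hg : ∀ s i, g s i ∈ cl A c i := by
    intro s i
    by_cases hi : i = i0
    · simp only [g, if_pos hi]; rw [hi]; exact ha
    · simp only [g, if_neg hi]; exact hemem i hi s
  have hgc : ∀ s i, c (g s i) = i := fun s i => (mem_cl.1 (hg s i)).2
  have hgH : ∀ s i, g s i ∈ H := fun s i => hAH _ (mem_cl.1 (hg s i)).1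
  choose p q hpq hadj using fun s => trans hG hA (g s) (hg s)
  let F : Fin m × Bool → V × V := fun x =>
    if x.2 then (g x.1 (p x.1), g x.1 (q x.1)) else (g x.1 (q x.1), g x.1 (p x.1))
  have hFmem : ∀ x, F x ∈ Ms G H c := by
    intro x
    by_cases hx : x.2 = true
    · simp only [F, if_pos hx]
      rw [mem_Ms]
      exact ⟨hgH _ _, hgH _ _, by rw [hgc, hgc]; exact hpq _, hadj _⟩
    · simp only [F, if_neg hx]
      rw [mem_Ms]
      exact ⟨hgH _ _, hgH _ _, by rw [hgc, hgc]; exact (hpq _).symm,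
        fun h => hadj _ h.symm⟩
  have hginj : ∀ s s' i, i ≠ i0 → g s i = g s' i → s = s' := by
    intro s s' i hi h
    simp only [g, if_neg hi] at h
    exact heinj i hi h
  -- a general form of the values of F
  have hFval : ∀ x, ∃ i k, i ≠ k ∧ F x = (g x.1 i, g x.1 k) ∧
      ((x.2 = true ∧ i = p x.1 ∧ k = q x.1) ∨ (x.2 = false ∧ i = q x.1 ∧ k = p x.1)) := by
    intro x
    by_cases hx : x.2 = true
    · exact ⟨p x.1, q x.1, hpq _, by simp only [F, if_pos hx], Or.inl ⟨hx, rfl, rfl⟩⟩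
    · refine ⟨q x.1, p x.1, (hpq _).symm, by simp only [F, if_neg hx], Or.inr ⟨?_, rfl, rfl⟩⟩
      simpa using hx
  have hFinj : Function.Injective F := by
    intro x y hxy
    obtain ⟨i, k, hik, hx, hx'⟩ := hFval x
    obtain ⟨i', k', hik', hy, hy'⟩ := hFval y
    rw [hx, hy, Prod.mk.injEq] at hxy
    obtain ⟨h1, h2⟩ := hxy
    have e1 : i = i' := by
      have := congrArg c h1; rwa [hgc, hgc] at this
    have e2 : k = k' := by
      have := congrArg c h2; rwa [hgc, hgc] at this
    subst e1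
    subst e2
    have hs : x.1 = y.1 := by
      by_cases hi : i = i0
      · have hk : k ≠ i0 := fun h => hik (hi.trans h.symm)
        exact hginj _ _ k hk h2
      · exact hginj _ _ i hi h1
    have hb : x.2 = y.2 := by
      rcases hx' with ⟨a1, a2, a3⟩ | ⟨a1, a2, a3⟩ <;> rcases hy' with ⟨b1, b2, b3⟩ | ⟨b1, b2, b3⟩
      · rw [a1, b1]
      · exfalso; rw [hs] at a2; exact hpq y.1 (a2.symm.trans b2)
      · exfalso; rw [hs] at a2; exact hpq y.1 (b2.symm.trans a2)
      · rw [a1, b1]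
    exact Prod.ext hs hb
  rw [mis_eq]
  have h1 := Finset.card_le_card_of_injOn (s := (Finset.univ : Finset (Fin m × Bool)))
    (t := Ms G H c) F (fun x _ => hFmem x) (fun x _ y _ h => hFinj h)
  rw [Finset.card_univ, Fintype.card_prod, Fintype.card_fin, Fintype.card_bool] at h1
  omega

theorem part2 (hG : G.CliqueFree (r + 1)) (hA : A = nb G H w)
    (hne : ∀ i, (cl A c i).Nonempty) (hm : mis G H c = 2) :
    ∃ v1 v2 : V, c v1 ≠ c v2 ∧ cl A c (c v1) = {v1} ∧ cl A c (c v2) = {v2} ∧
    ∀ a ∈ H, ∀ b ∈ H, c a ≠ c b → (¬ G.Adj a b ↔ (a = v1 ∧ b = v2) ∨ (a = v2 ∧ b = v1)) := by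
  classical
  have hAH : ∀ v ∈ A, v ∈ H := by
    intro v hv; rw [hA, mem_nb] at hv; exact hv.1
  choose g hg using hne
  obtain ⟨i, k, hik, hadj⟩ := trans hG hA g hg
  have hgc : ∀ i, c (g i) = i := fun i => (mem_cl.1 (hg i)).2
  have hgH : ∀ i, g i ∈ H := fun i => hAH _ (mem_cl.1 (hg i)).1
  have h1 : (g i, g k) ∈ Ms G H c :=
    mem_Ms.2 ⟨hgH i, hgH k, by rw [hgc, hgc]; exact hik, hadj⟩
  have h2 : (g k, g i) ∈ Ms G H c :=
    mem_Ms.2 ⟨hgH k, hgH i, by rw [hgc, hgc]; exact hik.symm, fun h => hadj h.symm⟩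
  have hne2 : (g i, g k) ≠ (g k, g i) := by
    intro h
    rw [Prod.mk.injEq] at h
    have := congrArg c h.1
    rw [hgc, hgc] at this
    exact hik this
  have hMs : Ms G H c = {(g i, g k), (g k, g i)} := by
    symm
    apply Finset.eq_of_subset_of_card_le
    · intro x hx
      rw [Finset.mem_insert, Finset.mem_singleton] at hx
      rcases hx with rfl | rfl
      · exact h1
      · exact h2
    · rw [← mis_eq, hm, Finset.card_pair hne2]
  have hmem : ∀ a b, (a, b) ∈ Ms G H c ↔ (a = g i ∧ b = g k) ∨ (a = g k ∧ b = g i) := by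
    intro a b
    rw [hMs, Finset.mem_insert, Finset.mem_singleton, Prod.mk.injEq, Prod.mk.injEq]
  -- every choice function passes through both
  have hchoice : ∀ f : Fin r → V, (∀ l, f l ∈ cl A c l) → f i = g i ∧ f k = g k := by
    intro f hf
    obtain ⟨i', k', hik', hadj'⟩ := trans hG hA f hf
    have hfc : ∀ i, c (f i) = i := fun i => (mem_cl.1 (hf i)).2
    have hfH : ∀ i, f i ∈ H := fun i => hAH _ (mem_cl.1 (hf i)).1
    have h3 : (f i', f k') ∈ Ms G H c :=
      mem_Ms.2 ⟨hfH i', hfH k', by rw [hfc, hfc]; exact hik', hadj'⟩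
    rw [hmem] at h3
    rcases h3 with ⟨e1, e2⟩ | ⟨e1, e2⟩
    · have c1 := congrArg c e1
      have c2 := congrArg c e2
      rw [hfc, hgc] at c1 c2
      subst c1
      subst c2
      exact ⟨e1, e2⟩
    · have c1 := congrArg c e1
      have c2 := congrArg c e2
      rw [hfc, hgc] at c1 c2
      subst c1
      subst c2
      exact ⟨e2, e1⟩
  refine ⟨g i, g k, by rw [hgc, hgc]; exact hik, ?_, ?_, ?_⟩
  · rw [hgc]
    apply Finset.eq_singleton_iff_unique_mem.2
    refine ⟨hg i, fun v hv => ?_⟩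
    have h3 := hchoice (Function.update g i v) (by
      intro l
      by_cases hl : l = i
      · subst hl; rw [Function.update_self]; exact hv
      · rw [Function.update_of_ne hl]; exact hg l)
    have h4 := h3.1
    rwa [Function.update_self] at h4
  · rw [hgc]
    apply Finset.eq_singleton_iff_unique_mem.2
    refine ⟨hg k, fun v hv => ?_⟩
    have h3 := hchoice (Function.update g k v) (by
      intro l
      by_cases hl : l = k
      · subst hl; rw [Function.update_self]; exact hv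
      · rw [Function.update_of_ne hl]; exact hg l)
    have h4 := h3.2
    rwa [Function.update_self] at h4
  · intro a ha b hb hab
    rw [← hmem, mem_Ms]
    exact ⟨fun h => ⟨ha, hb, hab, h⟩, fun h => h.2.2.2⟩

end

end TRV

theorem blk_TRV : Stmt_TRV := by
  intro r hr V _ G c H A w hG _ _ hA hne
  exact ⟨TRV.part1 hr hG hA hne, TRV.part2 hG hA hne⟩

end Pool.Agent.Work.MP_5532fa_up
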