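import Pool.Agent.Work.MP_5532fa_up.Interface

/-!
# MP_5532fa_co, upgrade: block TYP (typical vertices)
-/

set_option autoImplicit false

open Finset

namespace Pool.Agent.Work.MP_5532fa_up

open MP5532fa (specRad qf pE)

namespace TYP

variable {V : Type} [Fintype V] {r : ℕ}

omit [Fintype V] in
theorem ad_nonneg (G : SimpleGraph V) (u v : V) : 0 ≤ ad G u v := chi_nonneg _

/-- `u`, `v` in different classes and not a good edge -/
def bad (G : SimpleGraph V) (x : V → ℝ) (t d : ℝ) (c : V → Fin r) (u v : V) : Prop :=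
  c u ≠ c v ∧ ¬ (G.Adj u v ∧ |x u * x v - t| ≤ d * t)

/-- measure of the bad partners of `u` -/
noncomputable def beta (G : SimpleGraph V) (x : V → ℝ) (t d : ℝ) (c : V → Fin r) (u : V) : ℝ :=
  ∑ v, chi (bad G x t d c u v) * x v ^ 2

theorem sum_beta (G : SimpleGraph V) (x : V → ℝ) (t d D : ℝ) (c : V → Fin r)
    (hx : ∀ v, 0 ≤ x v) (hd : 0 < d)
    (h1 : ∑ u, ∑ v, ad G u v * (x u * x v - t) ^ 2 ≤ D * t)
    (h2 : ∑ u, ∑ v, chi (c u ≠ c v ∧ ¬ G.Adj u v) * (x u ^ 2 * x v ^ 2) ≤ 2 * D * t) :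
    ∑ u, x u ^ 2 * beta G x t d c u ≤ (2 * D + ((1 + d) / d) ^ 2 * D) * t := by
  have e1 : ∀ u v, x u ^ 2 * (chi (bad G x t d c u v) * x v ^ 2) ≤
      chi (c u ≠ c v ∧ ¬ G.Adj u v) * (x u ^ 2 * x v ^ 2) +
      ((1 + d) / d) ^ 2 * (ad G u v * (x u * x v - t) ^ 2) := by
    intro u v
    have n1 : 0 ≤ chi (c u ≠ c v ∧ ¬ G.Adj u v) * (x u ^ 2 * x v ^ 2) :=
      mul_nonneg (chi_nonneg _) (mul_nonneg (sq_nonneg _) (sq_nonneg _))
    have n2 : 0 ≤ ((1 + d) / d) ^ 2 * (ad G u v * (x u * x v - t) ^ 2) :=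
      mul_nonneg (sq_nonneg _) (mul_nonneg (ad_nonneg G u v) (sq_nonneg _))
    by_cases hb : bad G x t d c u v
    · rw [chi_pos hb]
      by_cases ha : G.Adj u v
      · have hgt : d * t < |x u * x v - t| := by
          by_contra hcon
          push Not at hcon
          exact hb.2 ⟨ha, hcon⟩
        have had : ad G u v = 1 := chi_pos ha
        rw [had] at n2 ⊢
        have hp0 : 0 ≤ x u * x v := mul_nonneg (hx u) (hx v)
        have hp : x u * x v ≤ (1 + d) / d * |x u * x v - t| := by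
          have e2 : t ≤ |x u * x v - t| / d := by
            rw [le_div_iff₀ hd]
            linarith
          have e3 : x u * x v - t ≤ |x u * x v - t| := le_abs_self _
          have e4 : (1 + d) / d * |x u * x v - t| = |x u * x v - t| / d + |x u * x v - t| := by
            field_simp
          rw [e4]
          linarith
        have hp2 : (x u * x v) ^ 2 ≤ ((1 + d) / d * |x u * x v - t|) ^ 2 :=
          pow_le_pow_left₀ hp0 hp 2
        rw [mul_pow ((1 + d) / d), sq_abs] at hp2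
        have e5 : x u ^ 2 * (1 * x v ^ 2) = (x u * x v) ^ 2 := by ring
        rw [e5, one_mul]
        linarith
      · rw [chi_pos (⟨hb.1, ha⟩ : c u ≠ c v ∧ ¬ G.Adj u v)]
        linarith
    · rw [chi_neg hb]
      linarith
  calc ∑ u, x u ^ 2 * beta G x t d c u
      = ∑ u, ∑ v, x u ^ 2 * (chi (bad G x t d c u v) * x v ^ 2) := by
        refine Finset.sum_congr rfl fun u _ => ?_
        unfold beta
        rw [Finset.mul_sum]
    _ ≤ ∑ u, ∑ v, (chi (c u ≠ c v ∧ ¬ G.Adj u v) * (x u ^ 2 * x v ^ 2) +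
          ((1 + d) / d) ^ 2 * (ad G u v * (x u * x v - t) ^ 2)) :=
        Finset.sum_le_sum fun u _ => Finset.sum_le_sum fun v _ => e1 u v
    _ = ∑ u, ∑ v, chi (c u ≠ c v ∧ ¬ G.Adj u v) * (x u ^ 2 * x v ^ 2) +
          ((1 + d) / d) ^ 2 * ∑ u, ∑ v, ad G u v * (x u * x v - t) ^ 2 := by
        rw [Finset.mul_sum, ← Finset.sum_add_distrib]
        refine Finset.sum_congr rfl fun u _ => ?_
        rw [Finset.mul_sum, ← Finset.sum_add_distrib]
    _ ≤ 2 * D * t + ((1 + d) / d) ^ 2 * (D * t) :=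
        add_le_add h2 (mul_le_mul_of_nonneg_left h1 (sq_nonneg _))
    _ = (2 * D + ((1 + d) / d) ^ 2 * D) * t := by ring

/-- a set of bad partners has small measure -/
theorem sum_bad_le (G : SimpleGraph V) (x : V → ℝ) (t d : ℝ) (c : V → Fin r) (u : V)
    (A : Finset V) (P : V → Prop) (h : ∀ z ∈ A, P z → bad G x t d c u z) :
    ∑ z ∈ A, chi (P z) * x z ^ 2 ≤ beta G x t d c u := by
  unfold beta
  refine le_trans ?_ (Finset.sum_le_sum_of_subset_of_nonneg (Finset.subset_univ A)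
    fun v _ _ => mul_nonneg (chi_nonneg _) (sq_nonneg _))
  refine Finset.sum_le_sum fun z hz => mul_le_mul_of_nonneg_right ?_ (sq_nonneg _)
  by_cases hP : P z
  · rw [chi_pos hP, chi_pos (h z hz hP)]
  · rw [chi_neg hP]
    exact chi_nonneg _

/-- a common good partner in a set of large measure -/
theorem exists_good (G : SimpleGraph V) (x : V → ℝ) (t d b : ℝ) (c : V → Fin r) (u w : V)
    (hu : beta G x t d c u ≤ b) (hw : beta G x t d c w ≤ b) (j : Fin r) (hju : c u ≠ j)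
    (hjw : c w ≠ j) (A : Finset V) (hA : ∀ z ∈ A, c z = j) (hm : 2 * b < ∑ z ∈ A, x z ^ 2) :
    ∃ z ∈ A, (G.Adj u z ∧ |x u * x z - t| ≤ d * t) ∧ (G.Adj w z ∧ |x w * x z - t| ≤ d * t) := by
  by_contra hcon
  push Not at hcon
  have h1 := sum_bad_le G x t d c u A (fun z => ¬ (G.Adj u z ∧ |x u * x z - t| ≤ d * t))
    (fun z hz hP => ⟨by rw [hA z hz]; exact hju, hP⟩)
  have h2 := sum_bad_le G x t d c w A (fun z => ¬ (G.Adj w z ∧ |x w * x z - t| ≤ d * t))
    (fun z hz hP => ⟨by rw [hA z hz]; exact hjw, hP⟩)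
  have h3 : ∑ z ∈ A, x z ^ 2 ≤ ∑ z ∈ A, chi (¬ (G.Adj u z ∧ |x u * x z - t| ≤ d * t)) * x z ^ 2 +
      ∑ z ∈ A, chi (¬ (G.Adj w z ∧ |x w * x z - t| ≤ d * t)) * x z ^ 2 := by
    rw [← Finset.sum_add_distrib]
    refine Finset.sum_le_sum fun z hz => ?_
    have n1 := mul_nonneg (chi_nonneg (¬ (G.Adj u z ∧ |x u * x z - t| ≤ d * t))) (sq_nonneg (x z))
    have n2 := mul_nonneg (chi_nonneg (¬ (G.Adj w z ∧ |x w * x z - t| ≤ d * t))) (sq_nonneg (x z))
    by_cases hg : G.Adj u z ∧ |x u * x z - t| ≤ d * t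
    · have hb : ¬ (G.Adj w z ∧ |x w * x z - t| ≤ d * t) := by
        rintro ⟨hb1, hb2⟩
        exact absurd hb2 (not_le.2 (hcon z hz hg hb1))
      rw [chi_pos hb]
      linarith
    · rw [chi_pos hg]
      linarith
  linarith

/-- the value of `x` at a vertex with good partners -/
theorem near_of (xu xv xw t d η : ℝ) (hu : 0 ≤ xu) (ht : 0 < t) (hd : d = η / 4) (h0 : 0 < η)
    (h1 : η ≤ 1 / 4) (a1 : |xu * xv - t| ≤ d * t) (a2 : |xu * xw - t| ≤ d * t)
    (a3 : |xv * xw - t| ≤ d * t) : (1 - η) * √t ≤ xu ∧ xu ≤ (1 + η) * √t := by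
  rw [abs_le] at a1 a2 a3
  have hd0 : 0 < d := by rw [hd]; linarith
  have hd1 : d ≤ 1 / 16 := by rw [hd]; linarith
  have he : η = 4 * d := by rw [hd]; ring
  have hP1 : (1 - d) * t ≤ xu * xv := by linarith [a1.1]
  have hP2 : xu * xv ≤ (1 + d) * t := by linarith [a1.2]
  have hQ1 : (1 - d) * t ≤ xu * xw := by linarith [a2.1]
  have hQ2 : xu * xw ≤ (1 + d) * t := by linarith [a2.2]
  have hR1 : (1 - d) * t ≤ xv * xw := by linarith [a3.1]
  have hR2 : xv * xw ≤ (1 + d) * t := by linarith [a3.2]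
  have hmt : 0 < (1 - d) * t := mul_pos (by linarith) ht
  have hprod : xu ^ 2 * (xv * xw) = (xu * xv) * (xu * xw) := by ring
  have hs0 : 0 ≤ √t := Real.sqrt_nonneg t
  have hss : √t ^ 2 = t := Real.sq_sqrt ht.le
  -- upper bound
  have hup : xu ^ 2 ≤ (1 + η) ^ 2 * t := by
    have e1 : xu ^ 2 * ((1 - d) * t) ≤ ((1 + d) * t) * ((1 + d) * t) := by
      calc xu ^ 2 * ((1 - d) * t) ≤ xu ^ 2 * (xv * xw) :=
            mul_le_mul_of_nonneg_left hR1 (sq_nonneg _)
        _ = (xu * xv) * (xu * xw) := hprod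
        _ ≤ ((1 + d) * t) * ((1 + d) * t) :=
            mul_le_mul hP2 hQ2 (hmt.le.trans hQ1) (by positivity)
    have e2 : (1 + d) ^ 2 ≤ (1 + η) ^ 2 * (1 - d) := by
      rw [he]
      nlinarith [mul_pos hd0 hd0, mul_pos (mul_pos hd0 hd0) hd0]
    have e3 : xu ^ 2 * ((1 - d) * t) ≤ ((1 + η) ^ 2 * t) * ((1 - d) * t) := by
      calc xu ^ 2 * ((1 - d) * t) ≤ ((1 + d) * t) * ((1 + d) * t) := e1
        _ = (1 + d) ^ 2 * (t * t) := by ring
        _ ≤ (1 + η) ^ 2 * (1 - d) * (t * t) := mul_le_mul_of_nonneg_right e2 (by positivity)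
        _ = ((1 + η) ^ 2 * t) * ((1 - d) * t) := by ring
    exact le_of_mul_le_mul_right e3 hmt
  have hlow : (1 - η) ^ 2 * t ≤ xu ^ 2 := by
    have hpt : 0 < (1 + d) * t := by positivity
    have e1 : ((1 - d) * t) * ((1 - d) * t) ≤ xu ^ 2 * ((1 + d) * t) := by
      calc ((1 - d) * t) * ((1 - d) * t) ≤ (xu * xv) * (xu * xw) :=
            mul_le_mul hP1 hQ1 hmt.le (hmt.le.trans hP1)
        _ = xu ^ 2 * (xv * xw) := hprod.symm
        _ ≤ xu ^ 2 * ((1 + d) * t) := mul_le_mul_of_nonneg_left hR2 (sq_nonneg _)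
    have e2 : (1 - η) ^ 2 * (1 + d) ≤ (1 - d) ^ 2 := by
      rw [he]
      nlinarith [mul_pos hd0 hd0, mul_pos (mul_pos hd0 hd0) hd0]
    have e3 : ((1 - η) ^ 2 * t) * ((1 + d) * t) ≤ xu ^ 2 * ((1 + d) * t) := by
      calc ((1 - η) ^ 2 * t) * ((1 + d) * t) = (1 - η) ^ 2 * (1 + d) * (t * t) := by ring
        _ ≤ (1 - d) ^ 2 * (t * t) := mul_le_mul_of_nonneg_right e2 (by positivity)
        _ = ((1 - d) * t) * ((1 - d) * t) := by ring
        _ ≤ _ := e1
    exact le_of_mul_le_mul_right e3 hpt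
  constructor
  · refine (pow_le_pow_iff_left₀ (mul_nonneg (by linarith) hs0) hu two_ne_zero).1 ?_
    rw [mul_pow, hss]
    exact hlow
  · refine (pow_le_pow_iff_left₀ hu (mul_nonneg (by linarith) hs0) two_ne_zero).1 ?_
    rw [mul_pow, hss]
    exact hup

omit [Fintype V] in
theorem clique_of_map {α : Type} [Fintype α] (G : SimpleGraph V) (F : α → V)
    (h : ∀ a b, a ≠ b → G.Adj (F a) (F b)) : ¬ G.CliqueFree (Fintype.card α) := by
  classical
  have hinj : Function.Injective F := by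
    intro a b hab
    by_contra hne
    have := h a b hne
    rw [hab] at this
    exact G.irrefl this
  intro hc
  apply hc (univ.map ⟨F, hinj⟩)
  rw [SimpleGraph.isNClique_iff]
  constructor
  · intro a ha b hb hab
    rw [Finset.mem_coe, Finset.mem_map] at ha hb
    obtain ⟨a', _, rfl⟩ := ha
    obtain ⟨b', _, rfl⟩ := hb
    apply h
    rintro rfl
    exact hab rfl
  · rw [Finset.card_map, Finset.card_univ]

theorem ind_of (hG : Stmt_GRD) (hr : 3 ≤ r) (G : SimpleGraph V) (hfree : G.CliqueFree (r + 1))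
    (x : V → ℝ) (t d b : ℝ) (c : V → Fin r) (T : Finset V) (hb0 : 0 ≤ b)
    (hbr : b ≤ 1 / (4 * (r : ℝ) ^ 2)) (hT : ∀ u ∈ T, beta G x t d c u ≤ b)
    (hY : ∀ i, 1 / (2 * (r : ℝ)) ≤ ∑ v ∈ cl T c i, x v ^ 2) :
    ∀ u ∈ T, ∀ v ∈ T, c u = c v → ¬ G.Adj u v := by
  classical
  intro u hu v hv huv hadj
  have hr0 : (3 : ℝ) ≤ r := by exact_mod_cast hr
  set i := c u with hi
  let A : {j : Fin r // j ≠ i} → Finset V := fun j =>
    (cl T c j).filter (fun z => G.Adj u z ∧ G.Adj v z)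
  have hA : ∀ j : {j : Fin r // j ≠ i}, ∀ z ∈ A j, z ∈ T ∧ c z = j ∧ G.Adj u z ∧ G.Adj v z := by
    intro j z hz
    rw [Finset.mem_filter, mem_cl] at hz
    exact ⟨hz.1.1, hz.1.2, hz.2.1, hz.2.2⟩
  have hcard : Fintype.card {j : Fin r // j ≠ i} = r - 1 := by
    rw [Fintype.card_subtype_compl, Fintype.card_fin, Fintype.card_unique]
  obtain ⟨f, hf1, hf2⟩ := hG {j : Fin r // j ≠ i} V G A (fun z => x z ^ 2) b
    (fun z => sq_nonneg _) hb0 (by
      intro j k hjk w hw
      obtain ⟨hw1, hw2, -, -⟩ := hA j w hw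
      refine le_trans (sum_bad_le G x t d c w (A k) (fun z => ¬ G.Adj w z) ?_) (hT w hw1)
      intro z hz hP
      obtain ⟨-, hz2, -, -⟩ := hA k z hz
      refine ⟨?_, fun h => hP h.1⟩
      rw [hw2, hz2]
      exact fun e => hjk (Subtype.ext e)) (by
      intro j
      rw [hcard]
      have h1 : ∑ z ∈ cl T c j, x z ^ 2 ≤ ∑ z ∈ A j, x z ^ 2 +
          (∑ z ∈ cl T c j, chi (¬ G.Adj u z) * x z ^ 2 +
            ∑ z ∈ cl T c j, chi (¬ G.Adj v z) * x z ^ 2) := by
        have h2 : ∑ z ∈ A j, x z ^ 2 = ∑ z ∈ cl T c j, chi (G.Adj u z ∧ G.Adj v z) * x z ^ 2 := by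
          show ∑ z ∈ (cl T c j).filter (fun z => G.Adj u z ∧ G.Adj v z), x z ^ 2 = _
          rw [Finset.sum_filter]
          refine Finset.sum_congr rfl fun z _ => ?_
          by_cases h : G.Adj u z ∧ G.Adj v z
          · rw [if_pos h, chi_pos h, one_mul]
          · rw [if_neg h, chi_neg h, zero_mul]
        rw [h2, ← Finset.sum_add_distrib, ← Finset.sum_add_distrib]
        refine Finset.sum_le_sum fun z _ => ?_
        have n1 := mul_nonneg (chi_nonneg (G.Adj u z ∧ G.Adj v z)) (sq_nonneg (x z))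
        have n2 := mul_nonneg (chi_nonneg (¬ G.Adj u z)) (sq_nonneg (x z))
        have n3 := mul_nonneg (chi_nonneg (¬ G.Adj v z)) (sq_nonneg (x z))
        by_cases h1 : G.Adj u z
        · by_cases h2 : G.Adj v z
          · rw [chi_pos (⟨h1, h2⟩ : G.Adj u z ∧ G.Adj v z)]
            linarith
          · rw [chi_pos h2]
            linarith
        · rw [chi_pos h1]
          linarith
      have h3 := sum_bad_le G x t d c u (cl T c j) (fun z => ¬ G.Adj u z) (by
        intro z hz hP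
        refine ⟨?_, fun h => hP h.1⟩
        rw [(mem_cl.1 hz).2]
        exact fun e => j.2 e.symm)
      have h4 := sum_bad_le G x t d c v (cl T c j) (fun z => ¬ G.Adj v z) (by
        intro z hz hP
        refine ⟨?_, fun h => hP h.1⟩
        rw [(mem_cl.1 hz).2, ← huv]
        exact fun e => j.2 e.symm)
      have h5 := hT u hu
      have h6 := hT v hv
      have h7 := hY j
      have h8 : ((r - 1 : ℕ) : ℝ) = (r : ℝ) - 1 := by
        rw [Nat.cast_sub (by omega), Nat.cast_one]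
      rw [h8]
      have h9 : ((r : ℝ) - 1) * b + 2 * b < 1 / (2 * (r : ℝ)) := by
        have e1 : ((r : ℝ) - 1) * b + 2 * b = ((r : ℝ) + 1) * b := by ring
        rw [e1]
        have e2 : ((r : ℝ) + 1) * b ≤ ((r : ℝ) + 1) * (1 / (4 * (r : ℝ) ^ 2)) :=
          mul_le_mul_of_nonneg_left hbr (by linarith)
        have e3 : ((r : ℝ) + 1) * (1 / (4 * (r : ℝ) ^ 2)) < 1 / (2 * (r : ℝ)) := by
          rw [mul_one_div, div_lt_div_iff₀ (by positivity) (by positivity)]
          nlinarith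
        linarith
      linarith)
  -- the clique
  let F : Option (Option {j : Fin r // j ≠ i}) → V := fun o =>
    match o with
    | none => u
    | some none => v
    | some (some j) => f j
  have hF : ∀ a b, a ≠ b → G.Adj (F a) (F b) := by
    intro a b hab
    match a, b with
    | none, none => exact absurd rfl hab
    | none, some none => exact hadj
    | none, some (some j) => exact (hA j (f j) (hf1 j)).2.2.1
    | some none, none => exact hadj.symm
    | some none, some none => exact absurd rfl hab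
    | some none, some (some j) => exact (hA j (f j) (hf1 j)).2.2.2
    | some (some j), none => exact (hA j (f j) (hf1 j)).2.2.1.symm
    | some (some j), some none => exact (hA j (f j) (hf1 j)).2.2.2.symm
    | some (some j), some (some k) =>
      apply hf2
      rintro rfl
      exact hab rfl
  have h1 := clique_of_map G F hF
  rw [Fintype.card_option, Fintype.card_option, hcard] at h1
  have h2 : r - 1 + 1 + 1 = r + 1 := by omega
  rw [h2] at h1
  exact h1 hfree

theorem two_others (hr : 3 ≤ r) (i : Fin r) : ∃ j k : Fin r, j ≠ i ∧ k ≠ i ∧ j ≠ k := by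
  classical
  have h : 1 < ((univ : Finset (Fin r)).erase i).card := by
    rw [Finset.card_erase_of_mem (Finset.mem_univ i), Finset.card_univ, Fintype.card_fin]
    omega
  obtain ⟨j, hj, k, hk, hjk⟩ := Finset.one_lt_card.1 h
  exact ⟨j, k, Finset.ne_of_mem_erase hj, Finset.ne_of_mem_erase hk, hjk⟩

theorem near_all (hr : 3 ≤ r) (G : SimpleGraph V) (x : V → ℝ) (t d b η : ℝ) (c : V → Fin r)
    (T : Finset V) (hx : ∀ v, 0 ≤ x v) (ht : 0 < t) (hd : d = η / 4) (h0 : 0 < η)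
    (h1 : η ≤ 1 / 4) (hb : ∀ i, 2 * b < ∑ v ∈ cl T c i, x v ^ 2)
    (hT : ∀ u ∈ T, beta G x t d c u ≤ b) :
    ∀ u ∈ T, (1 - η) * √t ≤ x u ∧ x u ≤ (1 + η) * √t := by
  intro u hu
  obtain ⟨j, k, hj, hk, hjk⟩ := two_others hr (c u)
  obtain ⟨v, hv, ⟨-, hv2⟩, -⟩ := exists_good G x t d b c u u (hT u hu) (hT u hu) j
    (fun e => hj e.symm) (fun e => hj e.symm) (cl T c j) (fun z hz => (mem_cl.1 hz).2) (hb j)
  rw [mem_cl] at hv
  obtain ⟨w, hw, ⟨-, hw2⟩, ⟨-, hw3⟩⟩ := exists_good G x t d b c u v (hT u hu) (hT v hv.1) k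
    (fun e => hk e.symm) (by rw [hv.2]; exact hjk) (cl T c k)
    (fun z hz => (mem_cl.1 hz).2) (hb k)
  exact near_of (x u) (x v) (x w) t d η (hx u) ht hd h0 h1 hv2 hw2 hw3

end TYP

theorem blk_TYP (hG : Stmt_GRD) (hM : Stmt_MEAS) : Stmt_TYP := by
  classical
  intro r D η hr hD h0 h1
  have hr0 : (3 : ℝ) ≤ r := by exact_mod_cast hr
  have hrp : (0 : ℝ) < r := by linarith
  obtain ⟨d, hd⟩ : ∃ d, d = η / 4 := ⟨_, rfl⟩
  have hd0 : 0 < d := by rw [hd]; linarith
  obtain ⟨b, hb⟩ : ∃ b, b = min (η / 2) (1 / (4 * (r : ℝ) ^ 2)) := ⟨_, rfl⟩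
  have hb0 : 0 < b := by rw [hb]; exact lt_min (by linarith) (by positivity)
  have hb1 : b ≤ η / 2 := by rw [hb]; exact min_le_left _ _
  have hb2 : b ≤ 1 / (4 * (r : ℝ) ^ 2) := by rw [hb]; exact min_le_right _ _
  obtain ⟨B, hB⟩ : ∃ B, B = 2 * D + ((1 + d) / d) ^ 2 * D := ⟨_, rfl⟩
  have hB0 : 0 < B := by rw [hB]; positivity
  have hBb : 0 < B / b := by positivity
  refine ⟨32 * (r : ℝ) ^ 2 * D + 4 * r * (B / b), ?_, ?_⟩
  · have : 0 < 4 * r * (B / b) := by positivity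
    have h9 : 9 ≤ (r : ℝ) ^ 2 := by
      have := pow_le_pow_left₀ (by norm_num) hr0 2
      linarith
    have h10 : 9 * 1 ≤ (r : ℝ) ^ 2 * D := mul_le_mul h9 hD (by norm_num) (by positivity)
    linarith
  have hr9 : 9 ≤ (r : ℝ) ^ 2 := by
    have := pow_le_pow_left₀ (by norm_num) hr0 2
    linarith
  intro V _ G x lam t hC hKt
  obtain ⟨ht, hlam1, hlam2, hes, c, hcr, hcl⟩ := hM r D hr hD V G x lam t hC
  have hx : ∀ v, 0 ≤ x v := hC.pv.nn
  have k1 : 32 * (r : ℝ) ^ 2 * D * t ≤ 1 := by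
    have : 0 < 4 * r * (B / b) * t := by positivity
    linarith
  have k2 : 4 * (r : ℝ) * (B / b) * t ≤ 1 := by
    have : 0 < 32 * (r : ℝ) ^ 2 * D * t := by positivity
    linarith
  have k3 : D * t ≤ 1 / 288 := by
    have h9 : 9 * (D * t) ≤ (r : ℝ) ^ 2 * (D * t) :=
      mul_le_mul_of_nonneg_right hr9 (by positivity)
    linarith
  have hDK : 2 * D ≤ 32 * (r : ℝ) ^ 2 * D + 4 * r * (B / b) := by
    have h9 : 9 * D ≤ (r : ℝ) ^ 2 * D := mul_le_mul_of_nonneg_right hr9 (by linarith)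
    have : 0 < 4 * r * (B / b) := by positivity
    linarith
  have hBK : B / b ≤ 32 * (r : ℝ) ^ 2 * D + 4 * r * (B / b) := by
    have h9 : 12 * (B / b) ≤ 4 * r * (B / b) := mul_le_mul_of_nonneg_right (by linarith) hBb.le
    have : 0 < 32 * (r : ℝ) ^ 2 * D := by positivity
    linarith
  obtain ⟨T, hTd⟩ : ∃ T : Finset V, T = univ.filter (fun u => TYP.beta G x t d c u ≤ b) :=
    ⟨_, rfl⟩
  have hT : ∀ u ∈ T, TYP.beta G x t d c u ≤ b := by
    intro u hu
    rw [hTd, Finset.mem_filter] at hu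
    exact hu.2
  have hT' : ∀ u, u ∉ T → b ≤ TYP.beta G x t d c u := by
    intro u hu
    rw [hTd, Finset.mem_filter] at hu
    push Not at hu
    exact (hu (Finset.mem_univ u)).le
  have hsum := TYP.sum_beta G x t d D c hx hd0 hes hcr
  rw [← hB] at hsum
  have hrest : ∑ v ∈ out T, x v ^ 2 ≤ B / b * t := by
    have e1 : (∑ v ∈ out T, x v ^ 2) * b ≤ B * t := by
      rw [Finset.sum_mul]
      refine le_trans ?_ hsum
      refine le_trans (Finset.sum_le_sum (g := fun v => x v ^ 2 * TYP.beta G x t d c v)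
        fun v hv => mul_le_mul_of_nonneg_left (hT' v (mem_out.1 hv)) (sq_nonneg _)) ?_
      refine Finset.sum_le_sum_of_subset_of_nonneg (Finset.subset_univ _) fun v _ _ => ?_
      refine mul_nonneg (sq_nonneg _) ?_
      exact Finset.sum_nonneg fun z _ => mul_nonneg (chi_nonneg _) (sq_nonneg _)
    rw [div_mul_eq_mul_div, le_div_iff₀ hb0]
    exact e1
  obtain ⟨q, hq⟩ : ∃ q, q = 1 / (r : ℝ) := ⟨_, rfl⟩
  have hq0 : 0 < q := by rw [hq]; positivity
  have hqr : q * r = 1 := by rw [hq]; field_simp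
  have hq1 : q ≤ 1 / 3 := by rw [hq]; exact one_div_le_one_div_of_le (by norm_num) hr0
  have hq2 : 1 / (4 * (r : ℝ) ^ 2) = q ^ 2 / 4 := by rw [hq]; field_simp
  have hq3 : 1 / (2 * (r : ℝ)) = q / 2 := by rw [hq]; field_simp
  have hrest4 : ∑ v ∈ out T, x v ^ 2 ≤ q / 4 := by
    refine hrest.trans ?_
    have e1 : B / b * t = q / 4 * (4 * r * (B / b) * t) := by
      calc B / b * t = (q * r) * (B / b * t) := by rw [hqr, one_mul]
        _ = q / 4 * (4 * r * (B / b) * t) := by ring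
    rw [e1]
    calc q / 4 * (4 * r * (B / b) * t) ≤ q / 4 * 1 :=
          mul_le_mul_of_nonneg_left k2 (by positivity)
      _ = q / 4 := mul_one _
  have hY : ∀ i, 1 / (2 * (r : ℝ)) ≤ ∑ v ∈ cl T c i, x v ^ 2 := by
    intro i
    rw [hq3]
    have e1 : ∑ v ∈ cl univ c i, x v ^ 2 ≤ ∑ v ∈ cl T c i, x v ^ 2 + ∑ v ∈ out T, x v ^ 2 := by
      have hdis : Disjoint (cl T c i) (out T) := by
        rw [Finset.disjoint_left]
        intro v hv hv'
        exact mem_out.1 hv' (mem_cl.1 hv).1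
      rw [← Finset.sum_union hdis]
      refine Finset.sum_le_sum_of_subset_of_nonneg ?_ fun v _ _ => sq_nonneg _
      intro v hv
      rw [Finset.mem_union, mem_cl, mem_out]
      by_cases hvT : v ∈ T
      · exact Or.inl ⟨hvT, (mem_cl.1 hv).2⟩
      · exact Or.inr hvT
    have e2 := hcl i
    rw [← hq] at e2
    have e3 : 2 * D * t ≤ q ^ 2 / 16 := by
      have h9 : 2 * D * t = q ^ 2 / 16 * (32 * (r : ℝ) ^ 2 * D * t) := by
        calc 2 * D * t = (q * r) ^ 2 * (2 * D * t) := by rw [hqr]; ring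
          _ = q ^ 2 / 16 * (32 * (r : ℝ) ^ 2 * D * t) := by ring
      rw [h9]
      calc q ^ 2 / 16 * (32 * (r : ℝ) ^ 2 * D * t) ≤ q ^ 2 / 16 * 1 :=
            mul_le_mul_of_nonneg_left k1 (by positivity)
        _ = q ^ 2 / 16 := mul_one _
    have e4 : 3 / 4 * q ≤ ∑ v ∈ cl univ c i, x v ^ 2 := by
      by_contra hcon
      push Not at hcon
      have h5 : q / 4 < q - ∑ v ∈ cl univ c i, x v ^ 2 := by linarith
      have h6 := mul_self_lt_mul_self (by positivity : 0 ≤ q / 4) h5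
      have h7 : (∑ v ∈ cl univ c i, x v ^ 2 - q) ^ 2 =
        (q - ∑ v ∈ cl univ c i, x v ^ 2) * (q - ∑ v ∈ cl univ c i, x v ^ 2) := by ring
      have h8 : q / 4 * (q / 4) = q ^ 2 / 16 := by ring
      rw [h7] at e2
      rw [h8] at h6
      linarith
    linarith
  have h2b : ∀ i, 2 * b < ∑ v ∈ cl T c i, x v ^ 2 := by
    intro i
    have e1 := hY i
    rw [hq3] at e1
    have e5 : q * q ≤ 1 / 3 * q := mul_le_mul_of_nonneg_right hq1 hq0.le
    have e6 : b ≤ q ^ 2 / 4 := by rw [← hq2]; exact hb2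
    rw [sq] at e6
    linarith
  have hnear := TYP.near_all hr G x t d b η c T hx ht hd h0 h1 h2b hT
  have hs0 : 0 ≤ √t := Real.sqrt_nonneg t
  have hss : √t * √t = t := Real.mul_self_sqrt ht.le
  have hylo : ∀ v ∈ T, t / 2 ≤ x v ^ 2 := by
    intro v hv
    have e1 : 3 / 4 * √t ≤ x v := by
      refine le_trans ?_ (hnear v hv).1
      exact mul_le_mul_of_nonneg_right (by linarith) hs0
    have e2 : (3 / 4 * √t) * (3 / 4 * √t) ≤ x v * x v :=
      mul_le_mul e1 e1 (by positivity) (hx v)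
    have e3 : (3 / 4 * √t) * (3 / 4 * √t) = 9 / 16 * t := by
      calc (3 / 4 * √t) * (3 / 4 * √t) = 9 / 16 * (√t * √t) := by ring
        _ = 9 / 16 * t := by rw [hss]
    rw [e3] at e2
    rw [sq]
    linarith
  have hyhi : ∀ v ∈ T, x v ^ 2 ≤ 2 * t := by
    intro v hv
    have e1 : x v ≤ 5 / 4 * √t := by
      refine le_trans (hnear v hv).2 ?_
      exact mul_le_mul_of_nonneg_right (by linarith) hs0
    have e2 : x v * x v ≤ (5 / 4 * √t) * (5 / 4 * √t) :=
      mul_le_mul e1 e1 (hx v) (by positivity)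
    have e3 : (5 / 4 * √t) * (5 / 4 * √t) = 25 / 16 * t := by
      calc (5 / 4 * √t) * (5 / 4 * √t) = 25 / 16 * (√t * √t) := by ring
        _ = 25 / 16 * t := by rw [hss]
    rw [e3] at e2
    rw [sq]
    linarith
  have hal := al_ge hr
  have hal1 := al_lt hr
  refine ⟨c, T, ht, by linarith, by linarith, hnear, ?_, ?_, ?_, ?_, ?_, ?_, ?_⟩
  · exact hrest.trans (mul_le_mul_of_nonneg_right hBK ht.le)
  · exact TYP.ind_of hG hr G hC.free x t d b c T hb0.le hb2 hT hY
  · intro v hv i hi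
    have e1 := TYP.sum_bad_le G x t d c v (cl T c i) (fun z => ¬ G.Adj v z) (by
      intro z hz hP
      refine ⟨?_, fun h => hP h.1⟩
      rw [(mem_cl.1 hz).2]
      exact fun e => hi e.symm)
    have e2 : ((nn G (cl T c i) v).card : ℝ) * (t / 2) ≤
        ∑ z ∈ cl T c i, chi (¬ G.Adj v z) * x z ^ 2 := by
      have e3 : ∑ z ∈ cl T c i, chi (¬ G.Adj v z) * x z ^ 2 = ∑ z ∈ nn G (cl T c i) v, x z ^ 2 := by
        unfold nn
        rw [Finset.sum_filter]
        refine Finset.sum_congr rfl fun z _ => ?_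
        by_cases h : ¬ G.Adj v z
        · rw [if_pos h, chi_pos h, one_mul]
        · rw [if_neg h, chi_neg h, zero_mul]
      rw [e3, ← nsmul_eq_mul]
      refine Finset.card_nsmul_le_sum _ _ _ fun z hz => ?_
      exact hylo z (mem_cl.1 (mem_nn.1 hz).1).1
    have e4 := hT v hv
    rw [le_div_iff₀ ht]
    linarith
  · intro i
    have e1 := hY i
    have e2 : ∑ v ∈ cl T c i, x v ^ 2 ≤ sz T c i * (2 * t) := by
      unfold sz
      rw [← nsmul_eq_mul]
      exact Finset.sum_le_card_nsmul _ _ _ fun z hz => hyhi z (mem_cl.1 hz).1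
    rw [hq3] at e1
    have e3 : 1 / (4 * (r : ℝ) * t) = q / (4 * t) := by rw [hq]; field_simp
    rw [e3, div_le_iff₀ (by positivity)]
    linarith
  · have e1 : (T.card : ℝ) * (t / 2) ≤ ∑ v ∈ T, x v ^ 2 := by
      rw [← nsmul_eq_mul]
      exact Finset.card_nsmul_le_sum _ _ _ hylo
    have e2 : ∑ v ∈ T, x v ^ 2 ≤ 1 := by
      rw [← hC.pv.unit]
      exact Finset.sum_le_sum_of_subset_of_nonneg (Finset.subset_univ _) fun v _ _ => sq_nonneg _
    rw [le_div_iff₀ ht]
    linarith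
  · refine le_trans ?_ (hcr.trans (mul_le_mul_of_nonneg_right hDK ht.le))
    refine le_trans (Finset.sum_le_sum fun u _ =>
      Finset.sum_le_sum_of_subset_of_nonneg (Finset.subset_univ T) fun v _ _ =>
        mul_nonneg (chi_nonneg _) (mul_nonneg (sq_nonneg _) (sq_nonneg _))) ?_
    refine Finset.sum_le_sum_of_subset_of_nonneg (Finset.subset_univ _) ?_
    intro u _ _
    exact Finset.sum_nonneg fun v _ =>
      mul_nonneg (chi_nonneg _) (mul_nonneg (sq_nonneg _) (sq_nonneg _))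
  · refine hes.trans (mul_le_mul_of_nonneg_right ?_ ht.le)
    linarith

end Pool.Agent.Work.MP_5532fa_up
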