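import Pool.Agent.Work.MP_5532fa_up.Interface

/-!
# MP_5532fa_co, block UPX (helper83): upper bound for all numbers of edges
-/

set_option autoImplicit false

open Finset

namespace Pool.Agent.Work.MP_5532fa_up

open MP5532fa (specRad qf pE)

namespace UPX

theorem nik {r : ℕ} (hr : 3 ≤ r) {V : Type} [Fintype V] [Nonempty V] (G : SimpleGraph V)
    (free : G.CliqueFree (r + 1)) : specRad G ^ 2 ≤ al r * pE G := by
  obtain ⟨q, rfl⟩ : ∃ q, r = q + 1 := ⟨r - 1, by omega⟩
  have h := MP5532fa.nikiforov G free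
  unfold al
  push_cast
  exact h

theorem min_bound {X κ : ℝ} (h0 : 0 ≤ X) (h1 : X ≤ 1) :
    (1 - X) * min X κ ≤ 1 := by
  have h2 : min X κ ≤ 1 := (min_le_left _ _).trans h1
  have h3 : 0 ≤ 1 - X := by linarith
  calc (1 - X) * min X κ ≤ (1 - X) * 1 := mul_le_mul_of_nonneg_left h2 h3
    _ ≤ 1 := by linarith

end UPX

theorem blk_UPX (hMKC : Stmt_MKC) (hHSET : Stmt_HSET) (hACC : Stmt_ACC) (hOPT1 : Stmt_OPT1) :
    Stmt_UPX := by
  classical
  intro r δ hr hδ
  have hr3 : (3 : ℝ) ≤ r := by exact_mod_cast hr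
  have hrp : (0 : ℝ) < r := by linarith
  have hη : (0 : ℝ) < 1 / (8 * r) := by positivity
  obtain ⟨D, N1, hD, hM⟩ := hMKC r 2 hr (by norm_num)
  obtain ⟨K, hK, hH⟩ := hHSET r D (1 / (8 * r)) hr hD hη le_rfl
  obtain ⟨K', N2, hK', hA⟩ := hACC r D (1 / (8 * r)) K hr hD hη le_rfl hK
  obtain ⟨n1, hn1⟩ := exists_nat_ge (2 * K)
  obtain ⟨n2, hn2⟩ := exists_nat_ge ((2 * K' / δ) ^ 2)
  refine ⟨max (max N1 N2) (max (max n1 n2) 12), ?_⟩
  intro N hN j hj V _ G hV free hpE
  have a1 : N1 ≤ N := le_trans (le_trans (le_max_left _ _) (le_max_left _ _)) hN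
  have a2 : N2 ≤ N := le_trans (le_trans (le_max_right _ _) (le_max_left _ _)) hN
  have a3 : n1 ≤ N :=
    le_trans (le_trans (le_trans (le_max_left _ _) (le_max_left _ _)) (le_max_right _ _)) hN
  have a4 : n2 ≤ N :=
    le_trans (le_trans (le_trans (le_max_right _ _) (le_max_left _ _)) (le_max_right _ _)) hN
  have a5 : 12 ≤ N := le_trans (le_trans (le_max_right _ _) (le_max_right _ _)) hN
  have b3 : 2 * K ≤ N := hn1.trans (by exact_mod_cast a3)
  have b4 : (2 * K' / δ) ^ 2 ≤ N := hn2.trans (by exact_mod_cast a4)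
  have b5 : (12 : ℝ) ≤ N := by exact_mod_cast a5
  have hNp : (0 : ℝ) < N := by linarith
  have hal1 := al_ge hr
  have hal2 := al_lt hr
  have halp : 0 < al r := by linarith
  have haN : 0 < al r * N := by positivity
  have hX0 : 0 ≤ (j : ℝ) / (al r * N) := by positivity
  have hX1 : (j : ℝ) / (al r * N) ≤ 1 := by
    rw [div_le_one haN]
    exact hj
  have hκ1 : (1 : ℝ) - 2 / r ≤ 1 := by
    have : 0 < 2 / (r : ℝ) := by positivity
    linarith
  have hκ0 : (0 : ℝ) ≤ 1 - 2 / r := by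
    have : 2 / (r : ℝ) ≤ 1 := by
      rw [div_le_one hrp]
      linarith
    linarith
  have hjN : 0 ≤ (j : ℝ) / N := by positivity
  by_cases hlam : al r * N - 2 ≤ specRad G
  · obtain ⟨x, hx⟩ := exists_PV G
    have hC := hM N a1 j hj V G x (specRad G) free hx hpE hlam
    have hlp := hC.pos
    have hpp := hC.pe
    have ht2 : specRad G / pE G ≤ 2 / N := by
      have h1 := UPX.nik hr G free
      have h2 : (N : ℝ) / 2 ≤ specRad G := by
        have h5 := mul_le_mul_of_nonneg_right hal1 hNp.le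
        linarith
      rw [div_le_div_iff₀ hpp hNp]
      have h3 : specRad G * (N / 2) ≤ specRad G * specRad G :=
        mul_le_mul_of_nonneg_left h2 hlp.le
      rw [← sq] at h3
      have h4 : al r * pE G ≤ pE G := mul_le_of_le_one_left hpp.le hal2.le
      linarith
    have hKt : K * (specRad G / pE G) ≤ 1 := by
      have h1 : K * (specRad G / pE G) ≤ K * (2 / N) :=
        mul_le_mul_of_nonneg_left ht2 (by linarith)
      have h2 : K * (2 / N) ≤ 1 := by
        rw [mul_div_assoc', div_le_one hNp]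
        linarith
      linarith
    obtain ⟨c, H, hHD⟩ := hH V G x (specRad G) _ hC hKt
    obtain ⟨c1, c2, c3⟩ := hA N a2 j hj V G x (specRad G) _ c H hC hHD hpE
    have d1 : ∀ v ∈ out H, 0 ≤ (dg G H v : ℝ) / specRad G ∧ (dg G H v : ℝ) / specRad G < 1 := by
      intro v hv
      refine ⟨by positivity, ?_⟩
      have h1 := c3 v (mem_out.mp hv)
      linarith
    have d2 : 0 ≤ (eu G H : ℝ) / (2 * al r * N) := by positivity
    have d3 : 0 ≤ imb H c / (2 * al r * N) := by
      apply div_nonneg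
      · unfold imb
        exact sum_nonneg fun i _ => sq_nonneg _
      · positivity
    have d4 : 0 ≤ (mis G H c : ℝ) / (2 * al r * N) := by positivity
    have d5 : (1 : ℝ) - 2 / r ≤ 2 * (1 - 1 / (8 * r)) ^ 2 - 1 := by
      have h1 : (0 : ℝ) < 1 / r := by positivity
      have h2 : (2 : ℝ) / r = 2 * (1 / r) := by ring
      have h3 : (1 : ℝ) / (8 * r) = (1 / r) / 8 := by
        field_simp
      rw [h2, h3]
      nlinarith [sq_nonneg (1 / (r : ℝ))]
    have d6 : 0 ≤ K' / √(N : ℝ) := by positivity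
    have hO := hOPT1 V (out H) (fun v => (dg G H v : ℝ) / specRad G)
      ((eu G H : ℝ) / (2 * al r * N)) (imb H c / (2 * al r * N))
      ((mis G H c : ℝ) / (2 * al r * N)) ((j : ℝ) / (al r * N)) (1 - 2 / r)
      (2 * (1 - 1 / (8 * r)) ^ 2 - 1) (K' / √(N : ℝ)) ((N : ℤ) - (H.card : ℤ)) d1 d2 d3 d4 hX0 hX1
      hκ0 hκ1 d5 d6 (by push_cast; exact c1)
    have e1 : (1 - (j : ℝ) / (al r * N)) * min ((j : ℝ) / (al r * N)) (1 - 2 / r) ≤
        (al r * N + j / N - specRad G) / al r + 2 * (K' / √(N : ℝ)) := by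
      refine hO.trans ?_
      have h1 := c2
      linarith
    have e2 : al r * ((1 - (j : ℝ) / (al r * N)) * min ((j : ℝ) / (al r * N)) (1 - 2 / r)) ≤
        (al r * N + j / N - specRad G) + al r * (2 * (K' / √(N : ℝ))) := by
      calc _ ≤ al r * ((al r * N + j / N - specRad G) / al r + 2 * (K' / √(N : ℝ))) :=
            mul_le_mul_of_nonneg_left e1 halp.le
        _ = _ := by
            rw [mul_add, mul_div_cancel₀ _ halp.ne']
    have e3 : al r * (2 * (K' / √(N : ℝ))) ≤ δ := by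
      have h1 : 2 * (K' / √(N : ℝ)) ≤ δ := by
        have hs : 0 < √(N : ℝ) := Real.sqrt_pos.mpr hNp
        have h2 : 2 * K' / δ ≤ √(N : ℝ) := Real.le_sqrt_of_sq_le b4
        rw [div_le_iff₀ hδ] at h2
        rw [mul_div_assoc', div_le_iff₀ hs]
        linarith
      have h2 : 0 ≤ 2 * (K' / √(N : ℝ)) := by positivity
      exact (mul_le_of_le_one_left h2 hal2.le).trans h1
    linarith
  · push Not at hlam
    have h1 := UPX.min_bound (κ := 1 - 2 / r) hX0 hX1
    have h2 : al r * ((1 - (j : ℝ) / (al r * N)) * min ((j : ℝ) / (al r * N)) (1 - 2 / r)) ≤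
        al r * 1 := mul_le_mul_of_nonneg_left h1 halp.le
    linarith

end Pool.Agent.Work.MP_5532fa_up
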