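import Pool.Agent.Work.MP_5532fa_up.ACC
import Pool.Agent.Work.MP_5532fa_up.ACC0
import Pool.Agent.Work.MP_5532fa_up.ALLV
import Pool.Agent.Work.MP_5532fa_up.AVG
import Pool.Agent.Work.MP_5532fa_up.B1C
import Pool.Agent.Work.MP_5532fa_up.B1U
import Pool.Agent.Work.MP_5532fa_up.CANP
import Pool.Agent.Work.MP_5532fa_up.CSE
import Pool.Agent.Work.MP_5532fa_up.D1
import Pool.Agent.Work.MP_5532fa_up.D2
import Pool.Agent.Work.MP_5532fa_up.D3
import Pool.Agent.Work.MP_5532fa_up.E1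
import Pool.Agent.Work.MP_5532fa_up.E2
import Pool.Agent.Work.MP_5532fa_up.E3
import Pool.Agent.Work.MP_5532fa_up.EB
import Pool.Agent.Work.MP_5532fa_up.EDG
import Pool.Agent.Work.MP_5532fa_up.EID
import Pool.Agent.Work.MP_5532fa_up.EMB
import Pool.Agent.Work.MP_5532fa_up.EST
import Pool.Agent.Work.MP_5532fa_up.EVN
import Pool.Agent.Work.MP_5532fa_up.EXD
import Pool.Agent.Work.MP_5532fa_up.EXE
import Pool.Agent.Work.MP_5532fa_up.FAM
import Pool.Agent.Work.MP_5532fa_up.FINA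
import Pool.Agent.Work.MP_5532fa_up.GD
import Pool.Agent.Work.MP_5532fa_up.GE
import Pool.Agent.Work.MP_5532fa_up.GRD
import Pool.Agent.Work.MP_5532fa_up.HSET
import Pool.Agent.Work.MP_5532fa_up.ISOD
import Pool.Agent.Work.MP_5532fa_up.ISOE
import Pool.Agent.Work.MP_5532fa_up.KM
import Pool.Agent.Work.MP_5532fa_up.KS
import Pool.Agent.Work.MP_5532fa_up.LAB
import Pool.Agent.Work.MP_5532fa_up.LC
import Pool.Agent.Work.MP_5532fa_up.LOWG
import Pool.Agent.Work.MP_5532fa_up.LOWX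
import Pool.Agent.Work.MP_5532fa_up.MEAS
import Pool.Agent.Work.MP_5532fa_up.MIND
import Pool.Agent.Work.MP_5532fa_up.MKC
import Pool.Agent.Work.MP_5532fa_up.MV1
import Pool.Agent.Work.MP_5532fa_up.MV2
import Pool.Agent.Work.MP_5532fa_up.OPT1
import Pool.Agent.Work.MP_5532fa_up.OPT2
import Pool.Agent.Work.MP_5532fa_up.PARX
import Pool.Agent.Work.MP_5532fa_up.REL
import Pool.Agent.Work.MP_5532fa_up.THRD
import Pool.Agent.Work.MP_5532fa_up.THRE
import Pool.Agent.Work.MP_5532fa_up.TIE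
import Pool.Agent.Work.MP_5532fa_up.TN
import Pool.Agent.Work.MP_5532fa_up.TRANS
import Pool.Agent.Work.MP_5532fa_up.TRV
import Pool.Agent.Work.MP_5532fa_up.TYP
import Pool.Agent.Work.MP_5532fa_up.UPX

/-!
# MP_5532fa_co, upgrade: the blocks put together
-/

namespace Pool.Agent.Work.MP_5532fa_up

theorem pACC0 : Stmt_ACC0 := blk_ACC0
theorem pALLV : Stmt_ALLV := blk_ALLV
theorem pAVG : Stmt_AVG := blk_AVG
theorem pCANP : Stmt_CANP := blk_CANP
theorem pCSE : Stmt_CSE := blk_CSE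
theorem pEDG : Stmt_EDG := blk_EDG
theorem pEID : Stmt_EID := blk_EID
theorem pEMB : Stmt_EMB := blk_EMB
theorem pEST : Stmt_EST := blk_EST pCSE
theorem pEVN : Stmt_EVN := blk_EVN
theorem pFAM : Stmt_FAM := blk_FAM
theorem pGD : Stmt_GD := blk_GD
theorem pGE : Stmt_GE := blk_GE
theorem pGRD : Stmt_GRD := blk_GRD
theorem pKM : Stmt_KM := blk_KM
theorem pKS : Stmt_KS := blk_KS
theorem pLAB : Stmt_LAB := blk_LAB
theorem pLC : Stmt_LC := blk_LC
theorem pLOWG : Stmt_LOWG := blk_LOWG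
theorem pMEAS : Stmt_MEAS := blk_MEAS
theorem pMIND : Stmt_MIND := blk_MIND pGRD
theorem pMKC : Stmt_MKC := blk_MKC
theorem pMV1 : Stmt_MV1 := blk_MV1 pCSE
theorem pMV2 : Stmt_MV2 := blk_MV2
theorem pOPT1 : Stmt_OPT1 := blk_OPT1
theorem pOPT2 : Stmt_OPT2 := blk_OPT2
theorem pPARX : Stmt_PARX := blk_PARX
theorem pREL : Stmt_REL := blk_REL
theorem pTHRD : Stmt_THRD := blk_THRD pGD pGE pFAM pCSE pEST
theorem pTHRE : Stmt_THRE := blk_THRE pGD pGE pFAM pEST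
theorem pTIE : Stmt_TIE := blk_TIE pFAM pCSE pEST
theorem pTN : Stmt_TN := blk_TN
theorem pTRANS : Stmt_TRANS := blk_TRANS
theorem pTRV : Stmt_TRV := blk_TRV
theorem pTYP : Stmt_TYP := blk_TYP pGRD pMEAS
theorem pACC : Stmt_ACC := blk_ACC pEID pACC0 pKM pKS pREL
theorem pB1C : Stmt_B1C := blk_B1C pGE pLC pEID pEVN
theorem pB1U : Stmt_B1U := blk_B1U pGD pTRV pEID pEVN
theorem pD1 : Stmt_D1 := blk_D1 pGD pFAM pEST pMV2
theorem pD2 : Stmt_D2 := blk_D2 pGD pFAM pCSE pEST pMV1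
theorem pD3 : Stmt_D3 := blk_D3 pGD pFAM pCSE pEST
theorem pE1 : Stmt_E1 := blk_E1 pGE pFAM pEST pMV2
theorem pE2 : Stmt_E2 := blk_E2 pGE pFAM pCSE pEST pMV1
theorem pE3 : Stmt_E3 := blk_E3 pGE pFAM pCSE pEST
theorem pEB : Stmt_EB := blk_EB pGE pFAM pCSE pEST
theorem pEXD : Stmt_EXD := blk_EXD pPARX pEMB
theorem pEXE : Stmt_EXE := blk_EXE pPARX pEMB
theorem pHSET : Stmt_HSET := blk_HSET pGRD pMEAS pTYP pEDG pAVG pALLV pMIND
theorem pISOD : Stmt_ISOD := blk_ISOD pLAB pCANP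
theorem pISOE : Stmt_ISOE := blk_ISOE pLAB pCANP pTIE
theorem pLOWX : Stmt_LOWX := blk_LOWX pGD pEMB pTN pLOWG
theorem pUPX : Stmt_UPX := blk_UPX pMKC pHSET pACC pOPT1
theorem pFINA : Stmt_FINA := blk_FINA pREL pMKC pHSET pACC pOPT2

end Pool.Agent.Work.MP_5532fa_up
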