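import Pool.Agent.Work.MP_5532fa_up.Interface2
import Pool.Agent.Work.MP_5532fa_up.LC
import Pool.Agent.Work.MP_5532fa_up.EID

/-!
# MP_5532fa_co, upgrade: block CMB0 (combinatorics without missing pairs)
-/

open Finset

namespace Pool.Agent.Work.MP_5532fa_up

open MP5532fa (specRad qf pE)

namespace CMB0

section
variable {V : Type} [Fintype V] {r : ℕ}

/-- ordered adjacent pairs in `O` -/
noncomputable def SO (G : SimpleGraph V) (O : Finset V) : ℝ := ∑ a ∈ O, ∑ b ∈ O, ad G a b

omit [Fintype V] in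
theorem SO_nonneg (G : SimpleGraph V) (O : Finset V) : 0 ≤ SO G O :=
  Finset.sum_nonneg fun _ _ => Finset.sum_nonneg fun _ _ => chi_nonneg _

omit [Fintype V] in
open Classical in
theorem SO_erase (G : SimpleGraph V) (O : Finset V) {u : V} (hu : u ∈ O) :
    SO G O = SO G (O.erase u) + 2 * ∑ b ∈ O, ad G u b := by
  have huu : ad G u u = 0 := chi_neg (G.loopless.irrefl u)
  have e0 : ∑ b ∈ O.erase u, ad G u b = ∑ b ∈ O, ad G u b := by
    rw [← Finset.sum_erase_add O _ hu, huu, add_zero]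
  unfold SO
  rw [← Finset.sum_erase_add O (fun a => ∑ b ∈ O, ad G a b) hu]
  have e1 : ∑ a ∈ O.erase u, ∑ b ∈ O, ad G a b =
      ∑ a ∈ O.erase u, ∑ b ∈ O.erase u, ad G a b + ∑ a ∈ O.erase u, ad G a u := by
    rw [← Finset.sum_add_distrib]
    exact Finset.sum_congr rfl fun a _ => (Finset.sum_erase_add O _ hu).symm
  have e2 : ∑ a ∈ O.erase u, ad G a u = ∑ b ∈ O, ad G u b := by
    rw [← e0]
    exact Finset.sum_congr rfl fun a _ => ad_comm G a u
  rw [e1, e2]
  ring

/-- two vertices outside `H` -/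
theorem eu_two (G : SimpleGraph V) (H : Finset V) {u u' : V} (hu : u ∉ H) (hu' : u' ∉ H)
    (hne : u' ≠ u) : 2 * dg G (out H) u + 2 * dg G (out H) u' ≤ eu G H + 2 := by
  classical
  have h1 : (eu G H : ℝ) = SO G (out H) := EID.eu_eq G H
  have h2 := SO_erase G (out H) (mem_out.mpr hu)
  have h3 := SO_erase G ((out H).erase u)
    (Finset.mem_erase.mpr ⟨hne, mem_out.mpr hu'⟩ : u' ∈ (out H).erase u)
  have h4 := SO_nonneg G (((out H).erase u).erase u')
  have h5 : (dg G (out H) u : ℝ) = ∑ b ∈ out H, ad G u b := EID.dg_eq G (out H) u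
  have h6 : (dg G (out H) u' : ℝ) = ∑ b ∈ out H, ad G u' b := EID.dg_eq G (out H) u'
  have h7 : ∑ b ∈ out H, ad G u' b ≤ ∑ b ∈ (out H).erase u, ad G u' b + 1 := by
    rw [← Finset.sum_erase_add (out H) _ (mem_out.mpr hu)]
    have : ad G u' u ≤ 1 := chi_le_one _
    linarith
  have h8 : 2 * (dg G (out H) u : ℝ) + 2 * dg G (out H) u' ≤ eu G H + 2 := by
    rw [h1, h2, h5, h6]
    rw [h3]
    linarith
  exact_mod_cast h8

/-- the edges outside `H` -/
theorem eu_pos {G : SimpleGraph V} {H : Finset V} (h : eu G H ≠ 0) :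
    ∃ a b, a ∉ H ∧ b ∉ H ∧ G.Adj a b := by
  classical
  unfold eu at h
  obtain ⟨⟨a, b⟩, he⟩ := Finset.card_ne_zero.mp h
  rw [Finset.mem_filter] at he
  exact ⟨a, b, he.2.2.1, he.2.2.2, he.2.1⟩

theorem eu_zero {G : SimpleGraph V} {H : Finset V} (h : eu G H = 0) {a b : V} (ha : a ∉ H)
    (hb : b ∉ H) : ¬ G.Adj a b := by
  classical
  intro hab
  unfold eu at h
  rw [Finset.card_eq_zero, Finset.eq_empty_iff_forall_notMem] at h
  apply h (a, b)
  rw [Finset.mem_filter]
  exact ⟨Finset.mem_univ _, hab, ha, hb⟩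

/-- no edges outside `H`: colour `H` by `c`, the other vertices by missed classes -/
theorem col0 {G : SimpleGraph V} {H : Finset V} {c : V → Fin r} (hr : 0 < r)
    (hind : ∀ u ∈ H, ∀ v ∈ H, c u = c v → ¬ G.Adj u v) (h0 : eu G H = 0)
    (hm : ∀ v, v ∉ H → ∃ i, cl (nb G H v) c i = ∅) : G.Colorable r := by
  classical
  have : Nonempty (Fin r) := ⟨⟨0, hr⟩⟩
  choose! g hg using hm
  have key : ∀ a b, a ∈ H → b ∉ H → G.Adj a b → c a ≠ g b := by
    intro a b ha hb hab hc
    have h1 : a ∈ cl (nb G H b) c (g b) := mem_cl.mpr ⟨mem_nb.mpr ⟨ha, hab.symm⟩, hc⟩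
    rw [hg b hb] at h1
    exact Finset.notMem_empty _ h1
  refine ⟨SimpleGraph.Coloring.mk (fun v => if v ∈ H then c v else g v) ?_⟩
  intro a b hab
  by_cases ha : a ∈ H
  · by_cases hb : b ∈ H
    · simp only [ha, hb, if_true]
      intro h
      exact hind a ha b hb h hab
    · simp only [ha, hb, if_true, if_false]
      exact key a b ha hb hab
  · by_cases hb : b ∈ H
    · simp only [ha, hb, if_true, if_false]
      exact (key b a hb ha hab.symm).symm
    · exact absurd hab (eu_zero h0 ha hb)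

/-- another vertex of large degree -/
theorem big {G : SimpleGraph V} {H : Finset V} {c : V → Fin r} (hcol : ¬ G.Colorable r)
    (hind : ∀ u ∈ H, ∀ v ∈ H, c u = c v → ¬ G.Adj u v) {v0 : V} {i : Fin r} (hv : v0 ∉ H)
    (hi : cl (nb G H v0) c i = ∅) : ∃ u, u ∉ H ∧ u ≠ v0 ∧ r ≤ (nb G univ u).card := by
  classical
  by_contra hcon
  push Not at hcon
  apply hcol
  have key : ∀ a, a ∈ H → G.Adj a v0 → c a ≠ i := by
    intro a ha hab hc
    have h1 : a ∈ cl (nb G H v0) c i := mem_cl.mpr ⟨mem_nb.mpr ⟨ha, hab.symm⟩, hc⟩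
    rw [hi] at h1
    exact Finset.notMem_empty _ h1
  refine LC.greedy G r (insert v0 H) (Function.update c v0 i) ?_ ?_
  · intro a ha b hb hab
    rw [Finset.mem_insert] at ha hb
    by_cases hav : a = v0
    · subst hav
      have hba : b ≠ a := hab.ne'
      rw [Function.update_self, Function.update_of_ne hba]
      exact (key b (hb.resolve_left hba) hab.symm).symm
    · by_cases hbv : b = v0
      · subst hbv
        rw [Function.update_self, Function.update_of_ne hav]
        exact key a (ha.resolve_left hav) hab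
      · rw [Function.update_of_ne hav, Function.update_of_ne hbv]
        intro h
        exact hind a (ha.resolve_left hav) b (hb.resolve_left hbv) h hab
  · intro v hv'
    rw [Finset.mem_insert, not_or] at hv'
    exact hcon v hv'.2 hv'.1

end

end CMB0

open CMB0 in
theorem blk_CMB0 (h1 : Stmt_TRV) (h2 : Stmt_LC) (h3 : Stmt_EVN) : Stmt_CMB0 := by
  classical
  intro r hr V _ G c H hfree hcol hind hmis
  -- every vertex outside misses a class
  have hm : ∀ v, v ∉ H → ∃ i, cl (nb G H v) c i = ∅ := by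
    intro v hv
    by_contra hcon
    push Not at hcon
    have hne : ∀ i, (cl (nb G H v) c i).Nonempty := hcon
    obtain ⟨⟨i0, i1, _, _, h5⟩, _⟩ := h1 r hr V G c H (nb G H v) v hfree hind hv rfl hne
    rw [hmis] at h5
    have := Finset.card_pos.mpr (hne i1)
    omega
  obtain ⟨hE1, hE2⟩ := h3 r V G c H
  have heu : eu G H ≠ 0 := fun h0 => hcol (col0 (by omega) hind h0 hm)
  obtain ⟨p, q, hp, hq, hpq⟩ := eu_pos heu
  have hne : (out H).Nonempty := ⟨p, mem_out.mpr hp⟩
  obtain ⟨w, hw, hwmax⟩ := Finset.exists_max_image (out H) (fun v => dg G H v) hne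
  have hwH := mem_out.mp hw
  obtain ⟨i0, hi0⟩ := hm w hwH
  obtain ⟨t, ht⟩ := hE2
  have hsum : dg G H w ≤ ∑ v ∈ out H, dg G H v :=
    Finset.single_le_sum (f := fun v => dg G H v) (fun _ _ => Nat.zero_le _) hw
  obtain ⟨Q, hQ⟩ : ∃ Q, Q = ∑ v ∈ out H, dg G H v - dg G H w + t := ⟨_, rfl⟩
  have hQ2 : 2 * ∑ v ∈ out H, dg G H v + eu G H = 2 * dg G H w + 2 * Q := by omega
  obtain ⟨hL1, hL2⟩ := h2 r hr V G c H (nb G H w) w i0 (2 * Q) hfree hcol hind hwH rfl hi0 hQ2
  refine ⟨w, i0, Q, hwH, fun v hv => hwmax v (mem_out.mpr hv), hi0, hQ2, ?_⟩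
  by_cases hQr : Q = r
  · exact Or.inl (hL2 hmis (by omega))
  · right
    refine ⟨by omega, ?_, by omega, ?_⟩
    · -- two vertices of degree at least `r`
      obtain ⟨u, hu, _, hur⟩ := big hcol hind hwH hi0
      obtain ⟨i1, hi1⟩ := hm u hu
      obtain ⟨u', hu', huu, hur'⟩ := big hcol hind hu hi1
      have e1 := LC.dg_univ G H u
      have e2 := LC.dg_univ G H u'
      have e3 := eu_two G H hu hu' huu
      have e4 : dg G H u + dg G H u' ≤ ∑ v ∈ out H, dg G H v := by
        have hs : ({u, u'} : Finset V) ⊆ out H := by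
          intro a ha
          rw [Finset.mem_insert, Finset.mem_singleton] at ha
          rcases ha with rfl | rfl
          · exact mem_out.mpr hu
          · exact mem_out.mpr hu'
        have := Finset.sum_le_sum_of_subset (f := fun v => dg G H v) hs
        rw [Finset.sum_pair huu.symm] at this
        exact this
      omega
    · by_cases hpw : p = w
      · refine ⟨q, hq, ?_⟩
        rintro rfl
        exact hpq.ne hpw
      · exact ⟨p, hp, hpw⟩

end Pool.Agent.Work.MP_5532fa_up
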