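import Pool.Agent.Work.MP_5532fa_up.Interface2
import Pool.Agent.Work.MP_5532fa_up.EDG

/-!
# MP_5532fa_co, upgrade, second round: block CORE (comparison of two graphs)
-/

set_option autoImplicit false

open Finset

namespace Pool.Agent.Work.MP_5532fa_up

open MP5532fa (specRad qf pE)

namespace CORE

variable {V : Type} [Fintype V] {r : ℕ}

theorem sum_split (H : Finset V) (f : V → ℝ) :
    ∑ v, f v = ∑ v ∈ H, f v + ∑ v ∈ out H, f v := by
  classical
  have h := Finset.sum_filter_add_sum_filter_not univ (fun v => v ∈ H) f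
  have h1 : univ.filter (fun v => v ∈ H) = H := by ext a; simp
  have h2 : univ.filter (fun v => ¬ v ∈ H) = out H := by ext a; simp [mem_out]
  rw [h1, h2] at h
  exact h.symm

omit [Fintype V] in
theorem sum_nb (G : SimpleGraph V) (H : Finset V) (v : V) (f : V → ℝ) :
    ∑ u ∈ nb G H v, f u = ∑ u ∈ H, ad G v u * f u := by
  classical
  unfold nb
  rw [Finset.sum_filter]
  refine Finset.sum_congr rfl fun u _ => ?_
  by_cases h : G.Adj v u
  · rw [if_pos h]; unfold ad; rw [chi_pos h, one_mul]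
  · rw [if_neg h]; unfold ad; rw [chi_neg h, zero_mul]

omit [Fintype V] in
theorem adH {G : SimpleGraph V} {c : V → Fin r} {a b : V} (h : c a = c b → ¬ G.Adj a b) :
    ad G a b = chi (c a ≠ c b) - chi (c a ≠ c b ∧ ¬ G.Adj a b) := by
  unfold ad
  by_cases h1 : c a = c b
  · rw [chi_neg (h h1), chi_neg (fun h2 => h2 h1), chi_neg (fun h2 => h2.1 h1), sub_zero]
  · by_cases h2 : G.Adj a b
    · rw [chi_pos h2, chi_pos h1, chi_neg (fun h3 => h3.2 h2), sub_zero]
    · rw [chi_neg h2, chi_pos h1, chi_pos ⟨h1, h2⟩, sub_self]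

/-- the eigenvalue equation summed over `H` -/
theorem half {G : SimpleGraph V} {c : V → Fin r} {H : Finset V} {x y : V → ℝ} {lam : ℝ}
    (hG : ∀ u ∈ H, ∀ v ∈ H, c u = c v → ¬ G.Adj u v) (hy : PV G y lam) :
    lam * ∑ v ∈ H, x v * y v = ∑ a ∈ H, ∑ b ∈ H, chi (c a ≠ c b) * (x a * y b)
      - mH G H c x y + ∑ v ∈ out H, y v * ∑ u ∈ nb G H v, x u := by
  have e1 : lam * ∑ v ∈ H, x v * y v = ∑ a ∈ H, x a * ∑ b, ad G a b * y b := by
    rw [Finset.mul_sum]
    refine Finset.sum_congr rfl fun a _ => ?_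
    rw [hy.eig]; ring
  have e2 : ∑ a ∈ H, x a * ∑ b, ad G a b * y b =
      ∑ a ∈ H, ∑ b ∈ H, ad G a b * (x a * y b) + ∑ a ∈ H, ∑ b ∈ out H, ad G a b * (x a * y b) := by
    rw [← Finset.sum_add_distrib]
    refine Finset.sum_congr rfl fun a _ => ?_
    rw [sum_split H, mul_add, Finset.mul_sum, Finset.mul_sum]
    refine congrArg₂ (· + ·) ?_ ?_
    · exact Finset.sum_congr rfl fun b _ => by ring
    · exact Finset.sum_congr rfl fun b _ => by ring
  have e3 : ∑ a ∈ H, ∑ b ∈ H, ad G a b * (x a * y b) =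
      ∑ a ∈ H, ∑ b ∈ H, chi (c a ≠ c b) * (x a * y b) - mH G H c x y := by
    unfold mH
    rw [← Finset.sum_sub_distrib]
    refine Finset.sum_congr rfl fun a ha => ?_
    rw [← Finset.sum_sub_distrib]
    refine Finset.sum_congr rfl fun b hb => ?_
    rw [adH (hG a ha b hb)]; ring
  have e4 : ∑ a ∈ H, ∑ b ∈ out H, ad G a b * (x a * y b) =
      ∑ v ∈ out H, y v * ∑ u ∈ nb G H v, x u := by
    rw [Finset.sum_comm]
    refine Finset.sum_congr rfl fun b _ => ?_
    rw [sum_nb, Finset.mul_sum]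
    refine Finset.sum_congr rfl fun a _ => ?_
    rw [ad_comm G a b]; ring
  rw [e1, e2, e3, e4]

omit [Fintype V] in
theorem mH_comm (G : SimpleGraph V) (H : Finset V) (c : V → Fin r) (x y : V → ℝ) :
    mH G H c x y = mH G H c y x := by
  unfold mH
  rw [Finset.sum_comm]
  refine Finset.sum_congr rfl fun a _ => Finset.sum_congr rfl fun b _ => ?_
  rw [chi_congr (show (c b ≠ c a ∧ ¬ G.Adj b a) ↔ (c a ≠ c b ∧ ¬ G.Adj a b) from
    ⟨fun h => ⟨h.1.symm, fun h2 => h.2 h2.symm⟩, fun h => ⟨h.1.symm, fun h2 => h.2 h2.symm⟩⟩)]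
  ring

omit [Fintype V] in
theorem K_comm (H : Finset V) (c : V → Fin r) (x y : V → ℝ) :
    ∑ a ∈ H, ∑ b ∈ H, chi (c a ≠ c b) * (x a * y b) =
      ∑ a ∈ H, ∑ b ∈ H, chi (c a ≠ c b) * (y a * x b) := by
  rw [Finset.sum_comm]
  refine Finset.sum_congr rfl fun a _ => Finset.sum_congr rfl fun b _ => ?_
  rw [chi_congr (show (c b ≠ c a) ↔ (c a ≠ c b) from ne_comm)]
  ring

theorem ident {G G' : SimpleGraph V} {c : V → Fin r} {H : Finset V} {x y : V → ℝ}
    {lam lam' : ℝ} (hG : ∀ u ∈ H, ∀ v ∈ H, c u = c v → ¬ G.Adj u v)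
    (hG' : ∀ u ∈ H, ∀ v ∈ H, c u = c v → ¬ G'.Adj u v) (hx : PV G x lam) (hy : PV G' y lam') :
    (lam' - lam) * ∑ v ∈ H, x v * y v = mH G H c x y - mH G' H c x y
      + ∑ v ∈ out H, y v * ∑ u ∈ nb G' H v, x u - ∑ v ∈ out H, x v * ∑ u ∈ nb G H v, y u := by
  have h1 := half (x := x) hG' hy
  have h2 := half (x := y) hG hx
  rw [K_comm H c y x, mH_comm G H c y x] at h2
  have h3 : ∑ v ∈ H, y v * x v = ∑ v ∈ H, x v * y v :=
    Finset.sum_congr rfl fun v _ => mul_comm _ _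
  rw [h3] at h2
  rw [sub_mul, h1, h2]
  ring

omit [Fintype V] in
/-- sums over subsets of `H` -/
theorem sum_near {H S : Finset V} {x : V → ℝ} {e xb : ℝ} (h : ∀ v ∈ H, |x v - xb| ≤ e * xb)
    (hS : S ⊆ H) : |∑ u ∈ S, x u - S.card * xb| ≤ e * xb * S.card := by
  have h1 : ∑ u ∈ S, x u - S.card * xb = ∑ u ∈ S, (x u - xb) := by
    rw [Finset.sum_sub_distrib, Finset.sum_const, nsmul_eq_mul]
  rw [h1]
  refine (Finset.abs_sum_le_sum_abs _ _).trans ?_
  refine (Finset.sum_le_sum fun u hu => h u (hS hu)).trans (le_of_eq ?_)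
  rw [Finset.sum_const, nsmul_eq_mul]
  ring

omit [Fintype V] in
theorem nb_sub (G : SimpleGraph V) (H : Finset V) (v : V) : nb G H v ⊆ H := fun _ hu =>
  (mem_nb.mp hu).1

/-- products of two almost constant sums -/
theorem prod_err {X Y a p xb yb e : ℝ} (hxb : 0 < xb) (hyb : 0 < yb) (he0 : 0 ≤ e)
    (he1 : e ≤ 1 / 10) (ha : 0 ≤ a) {q : ℝ} (hq : 0 ≤ q) (hX : |X - p * xb| ≤ e * xb * q)
    (hpq : |p| ≤ q) (hY : |Y - a * yb| ≤ e * yb * a) :
    |X * Y - p * a * (xb * yb)| ≤ 21 / 10 * e * (q * a) * (xb * yb) := by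
  have e1 : X * Y - p * a * (xb * yb) = (X - p * xb) * (Y - a * yb) + (p * xb) * (Y - a * yb)
      + (X - p * xb) * (a * yb) := by ring
  rw [e1]
  have h1 : |(X - p * xb) * (Y - a * yb)| ≤ (e * xb * q) * (e * yb * a) := by
    rw [abs_mul]
    exact mul_le_mul hX hY (abs_nonneg _) (by positivity)
  have h2 : |(p * xb) * (Y - a * yb)| ≤ (q * xb) * (e * yb * a) := by
    rw [abs_mul]
    refine mul_le_mul ?_ hY (abs_nonneg _) (by positivity)
    rw [abs_mul, abs_of_pos hxb]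
    exact mul_le_mul_of_nonneg_right hpq hxb.le
  have h3 : |(X - p * xb) * (a * yb)| ≤ (e * xb * q) * (a * yb) := by
    rw [abs_mul]
    refine mul_le_mul hX ?_ (abs_nonneg _) (by positivity)
    rw [abs_of_nonneg (by positivity)]
  have h4 := abs_add_three ((X - p * xb) * (Y - a * yb)) ((p * xb) * (Y - a * yb))
    ((X - p * xb) * (a * yb))
  have h5 : (e * xb * q) * (e * yb * a) ≤ 1 / 10 * (e * (q * a) * (xb * yb)) := by
    have : e * (e * (q * a) * (xb * yb)) ≤ 1 / 10 * (e * (q * a) * (xb * yb)) :=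
      mul_le_mul_of_nonneg_right he1 (by positivity)
    calc (e * xb * q) * (e * yb * a) = e * (e * (q * a) * (xb * yb)) := by ring
      _ ≤ _ := this
  have h6 : (q * xb) * (e * yb * a) = e * (q * a) * (xb * yb) := by ring
  have h7 : (e * xb * q) * (a * yb) = e * (q * a) * (xb * yb) := by ring
  linarith

end CORE

open CORE in
theorem blk_CORE : Stmt_CORE := by
  intro r hr V _ G G' c H w x y lam lam' xb yb e N he0 he1 hN hC hG' hw hx hy fx fy hlam
  classical
  have hxb := fx.xb0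
  have hyb := fy.xb0
  have hNr : (1 : ℝ) ≤ N := by exact_mod_cast hN
  have hal := al_ge hr
  have hlamN : (N : ℝ) / 2 ≤ lam := by
    have h1 := (abs_le.mp fx.lamN).1
    have h2 : 2 / 3 * (N : ℝ) ≤ al r * N := mul_le_mul_of_nonneg_right hal (by linarith)
    have h3 : e * (N : ℝ) ≤ 1 / 10 * N := mul_le_mul_of_nonneg_right he1 (by linarith)
    linarith
  have hlam0 : 0 < lam := by linarith
  have hwo : w ∈ out H := mem_out.mpr hw
  -- notation
  obtain ⟨sx, hsx⟩ : ∃ f : V → ℝ, f = fun v => ∑ u ∈ nb G H v, x u := ⟨_, rfl⟩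
  obtain ⟨sy, hsy⟩ : ∃ f : V → ℝ, f = fun v => ∑ u ∈ nb G H v, y u := ⟨_, rfl⟩
  obtain ⟨sx', hsx'⟩ : ∃ f : V → ℝ, f = fun v => ∑ u ∈ nb G' H v, x u := ⟨_, rfl⟩
  obtain ⟨sy', hsy'⟩ : ∃ f : V → ℝ, f = fun v => ∑ u ∈ nb G' H v, y u := ⟨_, rfl⟩
  obtain ⟨t, ht⟩ : ∃ f : V → ℝ, f = fun v => ∑ b ∈ out H, ad G v b * x b := ⟨_, rfl⟩
  obtain ⟨d, hd⟩ : ∃ f : V → ℝ, f = fun v => (dg G H v : ℝ) := ⟨_, rfl⟩
  obtain ⟨d', hd'⟩ : ∃ f : V → ℝ, f = fun v => (dg G' H v : ℝ) := ⟨_, rfl⟩
  have hd0 : ∀ v, 0 ≤ d v := fun v => by rw [hd]; exact Nat.cast_nonneg _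
  have hd0' : ∀ v, 0 ≤ d' v := fun v => by rw [hd']; exact Nat.cast_nonneg _
  have nx : ∀ v, |sx v - d v * xb| ≤ e * xb * d v := fun v => by
    rw [hsx, hd]; exact sum_near fx.xH (nb_sub G H v)
  have ny : ∀ v, |sy v - d v * yb| ≤ e * yb * d v := fun v => by
    rw [hsy, hd]; exact sum_near fy.xH (nb_sub G H v)
  have nx' : ∀ v, |sx' v - d' v * xb| ≤ e * xb * d' v := fun v => by
    rw [hsx', hd']; exact sum_near fx.xH (nb_sub G' H v)
  have ny' : ∀ v, |sy' v - d' v * yb| ≤ e * yb * d' v := fun v => by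
    rw [hsy', hd']; exact sum_near fy.xH (nb_sub G' H v)
  have sy0 : ∀ v, 0 ≤ sy v := fun v => by
    rw [hsy]; exact Finset.sum_nonneg fun u _ => hy.nn u
  have sx0' : ∀ v, 0 ≤ sx' v := fun v => by
    rw [hsx']; exact Finset.sum_nonneg fun u _ => hx.nn u
  have t0 : ∀ v, 0 ≤ t v := fun v => by
    rw [ht]; exact Finset.sum_nonneg fun u _ => mul_nonneg (chi_nonneg _) (hx.nn u)
  -- the basic inequality
  have hid := ident hC.ind hG' hx hy
  have hS : 0 ≤ ∑ v ∈ H, x v * y v :=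
    Finset.sum_nonneg fun v _ => mul_nonneg (hx.nn v) (hy.nn v)
  have hL : (lam' - lam) * ∑ v ∈ H, x v * y v ≤ 0 :=
    mul_nonpos_of_nonpos_of_nonneg (by linarith) hS
  have hb1 : mH G H c x y - mH G' H c x y + ∑ v ∈ out H, y v * sx' v -
      ∑ v ∈ out H, x v * sy v ≤ 0 := by
    rw [hsx', hsy]
    rw [hid] at hL
    exact hL
  have ey : ∀ v, sy' v ≤ lam * y v := by
    intro v
    have h1 : lam' * y v ≤ lam * y v := mul_le_mul_of_nonneg_right hlam (hy.nn v)
    refine le_trans ?_ h1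
    rw [← hy.eig v, sum_split H, hsy']
    simp only
    rw [sum_nb]
    have : 0 ≤ ∑ b ∈ out H, ad G' v b * y b :=
      Finset.sum_nonneg fun u _ => mul_nonneg (chi_nonneg _) (hy.nn u)
    linarith
  have ex : ∀ v, lam * x v = sx v + t v := by
    intro v
    rw [← hx.eig v, sum_split H, hsx, ht]
    simp only
    rw [sum_nb]
  have hb2 : lam * (mH G H c x y - mH G' H c x y) + ∑ v ∈ out H, sy' v * sx' v -
      ∑ v ∈ out H, (sx v + t v) * sy v ≤ 0 := by
    have h1 := mul_le_mul_of_nonneg_left hb1 hlam0.le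
    have h2 : lam * (mH G H c x y - mH G' H c x y + ∑ v ∈ out H, y v * sx' v -
        ∑ v ∈ out H, x v * sy v) = lam * (mH G H c x y - mH G' H c x y) +
        ∑ v ∈ out H, (lam * y v) * sx' v - ∑ v ∈ out H, (lam * x v) * sy v := by
      rw [mul_sub, mul_add, Finset.mul_sum, Finset.mul_sum]
      refine congrArg₂ (· - ·) (congrArg₂ (· + ·) rfl ?_) ?_
      · exact Finset.sum_congr rfl fun v _ => by ring
      · exact Finset.sum_congr rfl fun v _ => by ring
    rw [h2, mul_zero] at h1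
    have h3 : ∑ v ∈ out H, sy' v * sx' v ≤ ∑ v ∈ out H, (lam * y v) * sx' v :=
      Finset.sum_le_sum fun v _ => mul_le_mul_of_nonneg_right (ey v) (sx0' v)
    have h4 : ∑ v ∈ out H, (lam * x v) * sy v = ∑ v ∈ out H, (sx v + t v) * sy v :=
      Finset.sum_congr rfl fun v _ => by rw [ex]
    linarith
  -- sizes
  obtain ⟨D, hD⟩ : ∃ D : ℝ, D = ∑ v ∈ out H, d v := ⟨_, rfl⟩
  have hDw : D = d w + ∑ v ∈ (out H).erase w, d v := by
    rw [hD, Finset.add_sum_erase _ _ hwo]
  have hDe0 : 0 ≤ ∑ v ∈ (out H).erase w, d v := Finset.sum_nonneg fun v _ => hd0 v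
  have hD0 : 0 ≤ D := by rw [hD]; exact Finset.sum_nonneg fun v _ => hd0 v
  have hdsum : ∀ v, d v = ∑ u ∈ H, ad G v u := by
    intro v
    have := sum_nb G H v (fun _ => 1)
    simp only [Finset.sum_const, nsmul_eq_mul, mul_one] at this
    rw [hd]
    exact this
  obtain ⟨E, hE⟩ : ∃ E : ℝ, E = (eu G H : ℝ) := ⟨_, rfl⟩
  have hEsum : E = ∑ u ∈ out H, ∑ v ∈ out H, ad G u v := by
    rw [hE]
    unfold eu
    rw [Finset.card_filter, Nat.cast_sum, ← Finset.univ_product_univ, Finset.sum_product]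
    unfold out
    rw [Finset.sum_filter]
    refine Finset.sum_congr rfl fun u _ => ?_
    by_cases hu : u ∉ H
    · rw [if_pos hu, Finset.sum_filter]
      refine Finset.sum_congr rfl fun v _ => ?_
      by_cases hv : v ∉ H
      · rw [if_pos hv]
        by_cases h : G.Adj u v
        · rw [if_pos ⟨h, hu, hv⟩]; unfold ad; rw [chi_pos h, Nat.cast_one]
        · rw [if_neg (fun h' => h h'.1)]; unfold ad; rw [chi_neg h, Nat.cast_zero]
      · rw [if_neg hv, if_neg (fun h' => hv h'.2.2), Nat.cast_zero]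
    · rw [if_neg hu]
      refine Finset.sum_eq_zero fun v _ => ?_
      rw [if_neg (fun h' => hu h'.2.1), Nat.cast_zero]
  have hE0 : 0 ≤ E := by rw [hE]; exact Nat.cast_nonneg _
  have hDeo : D ≤ e * N := by
    have h1 := hC.eo
    rw [EDG.eo_eq] at h1
    have h2 : ∑ u ∈ out H, ∑ v, ad G u v = D + E := by
      rw [hD, hEsum, ← Finset.sum_add_distrib]
      refine Finset.sum_congr rfl fun u _ => ?_
      rw [sum_split H, hdsum]
    rw [h2] at h1
    linarith
  obtain ⟨Q, hQ⟩ : ∃ Q : ℝ, Q = ∑ v ∈ (out H).erase w, d v + E / 2 := ⟨_, rfl⟩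
  have hQ0 : 0 ≤ Q := by rw [hQ]; positivity
  -- the last sum
  have ht1 : ∑ v ∈ out H, t v * d v ≤ 27 / 5 * e * xb * Q := by
    have h1 : ∑ v ∈ out H, t v * d v = ∑ b ∈ out H, x b * ∑ v ∈ out H, ad G v b * d v := by
      rw [ht]
      simp only [Finset.sum_mul, Finset.mul_sum]
      rw [Finset.sum_comm]
      exact Finset.sum_congr rfl fun b _ => Finset.sum_congr rfl fun v _ => by ring
    have h2 : ∑ v ∈ out H, ad G v w * d v ≤ ∑ v ∈ (out H).erase w, d v := by
      rw [← Finset.add_sum_erase _ _ hwo]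
      have h3 : ad G w w = 0 := by
        unfold ad
        rw [chi_neg (G.loopless.irrefl w)]
      rw [h3, zero_mul, zero_add]
      refine Finset.sum_le_sum fun v _ => ?_
      exact mul_le_of_le_one_left (hd0 v) (chi_le_one _)
    have h4 : ∀ b, ∑ v ∈ out H, ad G v b * d v ≤ D := by
      intro b
      rw [hD]
      exact Finset.sum_le_sum fun v _ => mul_le_of_le_one_left (hd0 v) (chi_le_one _)
    have h5 : ∑ v ∈ out H, t v * d v ≤ x w * ∑ v ∈ (out H).erase w, d v +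
        D * ∑ b ∈ (out H).erase w, x b := by
      rw [h1, ← Finset.add_sum_erase _ _ hwo]
      refine add_le_add (mul_le_mul_of_nonneg_left h2 (hx.nn w)) ?_
      rw [Finset.mul_sum]
      refine Finset.sum_le_sum fun b _ => ?_
      rw [mul_comm D]
      exact mul_le_mul_of_nonneg_left (h4 b) (hx.nn b)
    have h6 : lam * ∑ b ∈ (out H).erase w, x b ≤ 2 * (1 + e) * xb * Q := by
      rw [Finset.mul_sum]
      have h7 : ∀ b ∈ (out H).erase w, lam * x b ≤
          (1 + e) * xb * d b + (1 + e) * xb * ∑ z ∈ out H, ad G b z := by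
        intro b _
        rw [ex b]
        have h8 := (abs_le.mp (nx b)).2
        have h9 : t b ≤ (1 + e) * xb * ∑ z ∈ out H, ad G b z := by
          rw [ht, Finset.mul_sum]
          refine Finset.sum_le_sum fun z hz => ?_
          rw [mul_comm]
          refine mul_le_mul_of_nonneg_right ?_ (chi_nonneg _)
          have h10 := fx.xo z (mem_out.mp hz)
          linarith
        linarith
      refine (Finset.sum_le_sum h7).trans ?_
      rw [Finset.sum_add_distrib, ← Finset.mul_sum, ← Finset.mul_sum]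
      have h11 : ∑ b ∈ (out H).erase w, ∑ z ∈ out H, ad G b z ≤ E := by
        rw [hEsum]
        refine Finset.sum_le_sum_of_subset_of_nonneg (Finset.erase_subset _ _) ?_
        intro b _ _
        exact Finset.sum_nonneg fun z _ => chi_nonneg _
      have h12 : (1 + e) * xb * ∑ b ∈ (out H).erase w, ∑ z ∈ out H, ad G b z ≤
          (1 + e) * xb * E := mul_le_mul_of_nonneg_left h11 (by positivity)
      have h13 : 2 * (1 + e) * xb * Q = (1 + e) * xb * (2 * ∑ v ∈ (out H).erase w, d v) +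
          (1 + e) * xb * E := by rw [hQ]; ring
      have h14 : (1 + e) * xb * ∑ b ∈ (out H).erase w, d b ≤
          (1 + e) * xb * (2 * ∑ v ∈ (out H).erase w, d v) :=
        mul_le_mul_of_nonneg_left (by linarith) (by positivity)
      linarith
    have hX0 : 0 ≤ ∑ b ∈ (out H).erase w, x b := Finset.sum_nonneg fun b _ => hx.nn b
    have h15 : D * ∑ b ∈ (out H).erase w, x b ≤ 22 / 5 * e * xb * Q := by
      have h16 : D ≤ 2 * e * lam := by
        have : e * (N : ℝ) ≤ e * (2 * lam) := mul_le_mul_of_nonneg_left (by linarith) he0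
        linarith
      calc D * ∑ b ∈ (out H).erase w, x b ≤ (2 * e * lam) * ∑ b ∈ (out H).erase w, x b :=
            mul_le_mul_of_nonneg_right h16 hX0
        _ = (2 * e) * (lam * ∑ b ∈ (out H).erase w, x b) := by ring
        _ ≤ (2 * e) * (2 * (1 + e) * xb * Q) := mul_le_mul_of_nonneg_left h6 (by positivity)
        _ = (4 * (1 + e)) * (e * xb * Q) := by ring
        _ ≤ (22 / 5) * (e * xb * Q) :=
            mul_le_mul_of_nonneg_right (by linarith) (by positivity)
        _ = _ := by ring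
    have h17 : x w * ∑ v ∈ (out H).erase w, d v ≤ e * xb * Q := by
      have h18 := fx.xo w hw
      have h19 : ∑ v ∈ (out H).erase w, d v ≤ Q := by rw [hQ]; linarith
      exact mul_le_mul h18 h19 hDe0 (by positivity)
    linarith
  have ht2 : ∑ v ∈ out H, t v * sy v ≤ 8 * e * (xb * yb) * Q := by
    have h1 : ∀ v ∈ out H, t v * sy v ≤ (11 / 10 * yb) * (t v * d v) := by
      intro v _
      have h2 := (abs_le.mp (ny v)).2
      have h3 : e * yb * d v ≤ 1 / 10 * yb * d v := by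
        have : 0 ≤ yb * d v := mul_nonneg hyb.le (hd0 v)
        have := mul_le_mul_of_nonneg_right he1 this
        linarith
      have h4 : sy v ≤ 11 / 10 * yb * d v := by linarith
      have h5 := mul_le_mul_of_nonneg_left h4 (t0 v)
      linarith
    refine (Finset.sum_le_sum h1).trans ?_
    rw [← Finset.mul_sum]
    have h6 := mul_le_mul_of_nonneg_left ht1 (show 0 ≤ 11 / 10 * yb by positivity)
    refine h6.trans ?_
    have h7 : 0 ≤ e * (xb * yb) * Q := by positivity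
    have h8 : 11 / 10 * yb * (27 / 5 * e * xb * Q) = 297 / 50 * (e * (xb * yb) * Q) := by ring
    rw [h8]
    linarith
  -- the vertices different from `w`
  have hv1 : ∀ v, (1 - 2 * e) * (xb * yb) * d' v ^ 2 ≤ sy' v * sx' v := by
    intro v
    have h1 := (abs_le.mp (nx' v)).1
    have h2 := (abs_le.mp (ny' v)).1
    have h3 : (1 - e) * xb * d' v ≤ sx' v := by linarith
    have h4 : (1 - e) * yb * d' v ≤ sy' v := by linarith
    have h6 : 0 ≤ (1 - e) * xb * d' v :=
      mul_nonneg (mul_nonneg (by linarith) hxb.le) (hd0' v)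
    have h7 : 0 ≤ (1 - e) * yb * d' v :=
      mul_nonneg (mul_nonneg (by linarith) hyb.le) (hd0' v)
    have h5 := mul_le_mul h4 h3 h6 (h7.trans h4)
    have h8 : (1 - e) * yb * d' v * ((1 - e) * xb * d' v) =
        (1 - 2 * e) * (xb * yb) * d' v ^ 2 + e ^ 2 * (xb * yb) * d' v ^ 2 := by ring
    have h9 : 0 ≤ e ^ 2 * (xb * yb) * d' v ^ 2 := by positivity
    linarith
  have hv2 : ∀ v, sx v * sy v ≤ (1 + 3 * e) * (xb * yb) * d v ^ 2 := by
    intro v
    have h1 := (abs_le.mp (nx v)).2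
    have h2 := (abs_le.mp (ny v)).2
    have h3 : sx v ≤ (1 + e) * xb * d v := by linarith
    have h4 : sy v ≤ (1 + e) * yb * d v := by linarith
    have h6 : 0 ≤ (1 + e) * xb * d v := mul_nonneg (by positivity) (hd0 v)
    have h5 := mul_le_mul h3 h4 (sy0 v) h6
    have h8 : (1 + e) * xb * d v * ((1 + e) * yb * d v) =
        (1 + 2 * e) * (xb * yb) * d v ^ 2 + e * e * (xb * yb * d v ^ 2) := by ring
    have h9 : e * e * (xb * yb * d v ^ 2) ≤ e * 1 * (xb * yb * d v ^ 2) := by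
      refine mul_le_mul_of_nonneg_right ?_ (by positivity)
      exact mul_le_mul_of_nonneg_left (by linarith) he0
    linarith
  -- the vertex `w`
  obtain ⟨p, hp⟩ : ∃ p : ℝ, p = ((df (nb G' H w) (nb G H w)).card : ℝ) := ⟨_, rfl⟩
  obtain ⟨q, hq⟩ : ∃ q : ℝ, q = ((df (nb G H w) (nb G' H w)).card : ℝ) := ⟨_, rfl⟩
  have hp0 : 0 ≤ p := by rw [hp]; exact Nat.cast_nonneg _
  have hq0 : 0 ≤ q := by rw [hq]; exact Nat.cast_nonneg _
  have hdf : ∀ (S T : Finset V) (f : V → ℝ), ∑ u ∈ S, f u - ∑ u ∈ T, f u =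
      ∑ u ∈ df S T, f u - ∑ u ∈ df T S, f u := by
    intro S T f
    have h1 : ∑ u ∈ S, f u = ∑ u ∈ S ∩ T, f u + ∑ u ∈ df S T, f u := by
      unfold df
      rw [← Finset.sum_filter_add_sum_filter_not S (fun v => v ∈ T) f, Finset.filter_mem_eq_inter]
    have h2 : ∑ u ∈ T, f u = ∑ u ∈ S ∩ T, f u + ∑ u ∈ df T S, f u := by
      unfold df
      rw [← Finset.sum_filter_add_sum_filter_not T (fun v => v ∈ S) f, Finset.filter_mem_eq_inter,
        Finset.inter_comm]
    rw [h1, h2]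
    ring
  have hpq : d' w - d w = p - q := by
    have := hdf (nb G' H w) (nb G H w) (fun _ => 1)
    simp only [Finset.sum_const, nsmul_eq_mul, mul_one] at this
    rw [hd, hd', hp, hq]
    exact this
  have hPsub : df (nb G' H w) (nb G H w) ⊆ H := fun u hu =>
    nb_sub G' H w (mem_df.mp hu).1
  have hRsub : df (nb G H w) (nb G' H w) ⊆ H := fun u hu =>
    nb_sub G H w (mem_df.mp hu).1
  have hXd : |(sx' w - sx w) - (p - q) * xb| ≤ e * xb * (p + q) := by
    have h1 := sum_near fx.xH hPsub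
    have h2 := sum_near fx.xH hRsub
    rw [← hp] at h1
    rw [← hq] at h2
    have h3 : sx' w - sx w = ∑ u ∈ df (nb G' H w) (nb G H w), x u -
        ∑ u ∈ df (nb G H w) (nb G' H w), x u := by
      rw [hsx, hsx']
      exact hdf _ _ _
    rw [h3]
    rw [abs_le] at h1 h2 ⊢
    constructor <;> linarith
  have hYd : |(sy' w - sy w) - (p - q) * yb| ≤ e * yb * (p + q) := by
    have h1 := sum_near fy.xH hPsub
    have h2 := sum_near fy.xH hRsub
    rw [← hp] at h1
    rw [← hq] at h2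
    have h3 : sy' w - sy w = ∑ u ∈ df (nb G' H w) (nb G H w), y u -
        ∑ u ∈ df (nb G H w) (nb G' H w), y u := by
      rw [hsy, hsy']
      exact hdf _ _ _
    rw [h3]
    rw [abs_le] at h1 h2 ⊢
    constructor <;> linarith
  have habs : |p - q| ≤ p + q := by
    rw [abs_le]
    constructor <;> linarith
  have hw1 := prod_err hxb hyb he0 he1 (hd0' w) (by linarith : 0 ≤ p + q) hXd habs (ny' w)
  have hw2 := prod_err hyb hxb he0 he1 (hd0 w) (by linarith : 0 ≤ p + q) hYd habs (nx w)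
  have hw3 : (xb * yb) * (d' w ^ 2 - d w ^ 2) -
      21 / 10 * e * ((p + q) * (d' w + d w)) * (xb * yb) ≤ sy' w * sx' w - sx w * sy w := by
    have h1 := (abs_le.mp hw1).1
    have h2 := (abs_le.mp hw2).1
    have h3 : sy' w * sx' w - sx w * sy w = (sx' w - sx w) * sy' w + (sy' w - sy w) * sx w := by
      ring
    have h4 : (xb * yb) * (d' w ^ 2 - d w ^ 2) = (p - q) * d' w * (xb * yb) +
        (p - q) * d w * (yb * xb) := by
      rw [← hpq]; ring
    rw [h3, h4]
    linarith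
  -- everything together
  have hs1 : ∑ v ∈ out H, sy' v * sx' v = sy' w * sx' w + ∑ v ∈ (out H).erase w, sy' v * sx' v :=
    (Finset.add_sum_erase _ _ hwo).symm
  have hs2 : ∑ v ∈ out H, (sx v + t v) * sy v = sx w * sy w +
      ∑ v ∈ (out H).erase w, sx v * sy v + ∑ v ∈ out H, t v * sy v := by
    have h1 : ∑ v ∈ out H, (sx v + t v) * sy v = ∑ v ∈ out H, sx v * sy v +
        ∑ v ∈ out H, t v * sy v := by
      rw [← Finset.sum_add_distrib]
      exact Finset.sum_congr rfl fun v _ => by ring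
    rw [h1, ← Finset.add_sum_erase (out H) (fun v => sx v * sy v) hwo]
  have hs3 : ∑ v ∈ out H, d' v ^ 2 = d' w ^ 2 + ∑ v ∈ (out H).erase w, d' v ^ 2 :=
    (Finset.add_sum_erase _ _ hwo).symm
  have hs4 : ∑ v ∈ out H, d v ^ 2 = d w ^ 2 + ∑ v ∈ (out H).erase w, d v ^ 2 :=
    (Finset.add_sum_erase _ _ hwo).symm
  have hs5 : (1 - 2 * e) * (xb * yb) * ∑ v ∈ (out H).erase w, d' v ^ 2 ≤
      ∑ v ∈ (out H).erase w, sy' v * sx' v := by
    rw [Finset.mul_sum]
    exact Finset.sum_le_sum fun v _ => hv1 v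
  have hs6 : ∑ v ∈ (out H).erase w, sx v * sy v ≤
      (1 + 3 * e) * (xb * yb) * ∑ v ∈ (out H).erase w, d v ^ 2 := by
    rw [Finset.mul_sum]
    exact Finset.sum_le_sum fun v _ => hv2 v
  obtain ⟨S2', hS2'⟩ : ∃ S : ℝ, S = ∑ v ∈ (out H).erase w, d' v ^ 2 := ⟨_, rfl⟩
  obtain ⟨S2, hS2⟩ : ∃ S : ℝ, S = ∑ v ∈ (out H).erase w, d v ^ 2 := ⟨_, rfl⟩
  have hS20' : 0 ≤ S2' := by rw [hS2']; exact Finset.sum_nonneg fun v _ => sq_nonneg _
  have hS20 : 0 ≤ S2 := by rw [hS2]; exact Finset.sum_nonneg fun v _ => sq_nonneg _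
  rw [← hS2'] at hs3 hs5
  rw [← hS2] at hs4 hs6
  have hgoal : lam * (mH G H c x y - mH G' H c x y) + xb * yb *
      (∑ v ∈ out H, d' v ^ 2 - ∑ v ∈ out H, d v ^ 2
        - 30 * e * ((p + q) * (d' w + d w) + (∑ v ∈ out H, d' v ^ 2 - d' w ^ 2)
          + (∑ v ∈ out H, d v ^ 2 - d w ^ 2) + (∑ v ∈ out H, d v - d w + E / 2))) ≤ 0 := by
    rw [hs3, hs4, ← hD, hDw]
    have hxy : 0 < xb * yb := mul_pos hxb hyb
    have k1 : 0 ≤ e * ((p + q) * (d' w + d w)) * (xb * yb) := by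
      have := hd0 w
      have := hd0' w
      positivity
    have k2 : 0 ≤ e * S2' * (xb * yb) := by positivity
    have k3 : 0 ≤ e * S2 * (xb * yb) := by positivity
    have k4 : 0 ≤ e * (xb * yb) * Q := by positivity
    rw [hs1, hs2] at hb2
    have e1 : xb * yb * (d' w ^ 2 + S2' - (d w ^ 2 + S2)
        - 30 * e * ((p + q) * (d' w + d w) + (d' w ^ 2 + S2' - d' w ^ 2)
          + (d w ^ 2 + S2 - d w ^ 2) + (d w + ∑ v ∈ (out H).erase w, d v - d w + E / 2))) =
        (xb * yb) * (d' w ^ 2 - d w ^ 2) - 30 * (e * ((p + q) * (d' w + d w)) * (xb * yb))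
        + (xb * yb) * S2' - 30 * (e * S2' * (xb * yb)) - (xb * yb) * S2
        - 30 * (e * S2 * (xb * yb)) - 30 * (e * (xb * yb) * Q) := by
      rw [hQ]; ring
    rw [e1]
    have e2 : (1 - 2 * e) * (xb * yb) * S2' = (xb * yb) * S2' - 2 * (e * S2' * (xb * yb)) := by
      ring
    have e3 : (1 + 3 * e) * (xb * yb) * S2 = (xb * yb) * S2 + 3 * (e * S2 * (xb * yb)) := by
      ring
    have e4 : 21 / 10 * e * ((p + q) * (d' w + d w)) * (xb * yb) =
        21 / 10 * (e * ((p + q) * (d' w + d w)) * (xb * yb)) := by ring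
    have e5 : 8 * e * (xb * yb) * Q = 8 * (e * (xb * yb) * Q) := by ring
    rw [e2] at hs5
    rw [e3] at hs6
    rw [e4] at hw3
    rw [e5] at ht2
    linarith
  rw [hd, hd', hp, hq, hE] at hgoal
  exact hgoal

end Pool.Agent.Work.MP_5532fa_up
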