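import Pool.Agent.Work.MP_5532fa_up.Interface2
import Pool.Agent.Work.MP_5532fa_up.EB

/-! # Block EBU (helper63; after EB of helper68): pairing instead of the Rayleigh quotient -/

open Finset

namespace Pool.Agent.Work.MP_5532fa_up

open MP5532fa (specRad qf pE)

theorem blk_EBU (hGE : Stmt_GE) (hFAM : Stmt_FAM) (hCSE : Stmt_CSE) (hEST : Stmt_ESTU) :
    Stmt_EBU := by
  classical
  intro r ε hr hε
  have hr3 : (3 : ℝ) ≤ r := by exact_mod_cast hr
  have ha1 := al_ge hr
  have ha2 := al_lt hr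
  obtain ⟨δ, N0, hδ, hE⟩ := hEST r (1 / 4) hr (by norm_num)
  have hδ' : 0 < min δ (1 / (2 * r)) := lt_min hδ (by positivity)
  refine ⟨min δ (1 / (2 * r)), N0 + 4 * r, hδ', ?_⟩
  intro N hN j hj V _ G H c w u A B i0 hWE hnear hMX
  have hN1 : (4 : ℝ) * r ≤ N := by
    have : ((4 * r : ℕ) : ℝ) ≤ N := by
      exact_mod_cast (by omega : 4 * r ≤ N)
    push_cast at this
    exact this
  have hN12 : (12 : ℝ) ≤ N := by linarith
  have hN0 : (0 : ℝ) < N := by linarith
  have hnear' : Near r δ N j H A c := by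
    have h1 : min δ (1 / (2 * r)) * (N : ℝ) ≤ δ * N :=
      mul_le_mul_of_nonneg_right (min_le_left _ _) hN0.le
    exact ⟨fun i => (hnear.1 i).trans h1, hnear.2.trans h1⟩
  -- two vertices of `B` outside `A`
  obtain ⟨b1, hb1, hb1A⟩ := Finset.not_subset.1 hWE.hBA
  by_contra hno
  obtain ⟨b, hb, hbA, hbb⟩ : ∃ b, b ∈ B ∧ b ∉ A ∧ b ≠ b1 := by
    by_contra h
    push Not at h
    exact hno ⟨b1, hb1, hb1A, fun a ha haA => h a ha haA⟩
  have hl : c b ≠ i0 := by
    intro h
    have : b ∈ cl B c i0 := mem_cl.2 ⟨hb, h⟩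
    rw [hWE.hB0] at this
    simp at this
  obtain ⟨a, ha⟩ := hWE.hAne (c b) hl
  rw [mem_cl] at ha
  obtain ⟨haA, hac⟩ := ha
  have hab : a ≠ b := fun h => hbA (h ▸ haA)
  have haB : a ∉ B := by
    intro haB
    have h1 := hWE.hB1 (c b) hl
    rw [Finset.card_eq_one] at h1
    obtain ⟨z, hz⟩ := h1
    have h2 : a ∈ cl B c (c b) := mem_cl.2 ⟨haB, hac⟩
    have h3 : b ∈ cl B c (c b) := mem_cl.2 ⟨hb, rfl⟩
    rw [hz, Finset.mem_singleton] at h2 h3
    exact hab (h2.trans h3.symm)
  obtain ⟨B', hB'⟩ : ∃ B', B' = insert a (B.erase b) := ⟨_, rfl⟩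
  have hmB' : ∀ z, z ∈ B' ↔ z = a ∨ (z ≠ b ∧ z ∈ B) := fun z => by
    rw [hB', Finset.mem_insert, Finset.mem_erase]
  have hWE' : WE (gE H c w u A B') N H c w u A B' i0 := by
    refine gE_WE hWE.card hWE.hw hWE.hu hWE.hwu hWE.hA ?_ hWE.hA0 ?_ hWE.hAne ?_ ?_
    · intro z hz
      rcases (hmB' z).1 hz with rfl | h
      · exact hWE.hA haA
      · exact hWE.hB h.2
    · ext z
      simp only [mem_cl, Finset.notMem_empty, iff_false]
      rintro ⟨h1, h2⟩
      rcases (hmB' z).1 h1 with rfl | h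
      · exact hl (hac.symm.trans h2)
      · have : z ∈ cl B c i0 := mem_cl.2 ⟨h.2, h2⟩
        rw [hWE.hB0] at this
        simp at this
    · intro i hi
      by_cases hib : i = c b
      · rw [Finset.card_eq_one]
        refine ⟨a, ?_⟩
        have h1 := hWE.hB1 (c b) hl
        rw [Finset.card_eq_one] at h1
        obtain ⟨z, hz⟩ := h1
        have h3 : b ∈ cl B c (c b) := mem_cl.2 ⟨hb, rfl⟩
        rw [hz, Finset.mem_singleton] at h3
        ext y
        simp only [mem_cl, Finset.mem_singleton, hmB']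
        constructor
        · rintro ⟨h4 | h4, h5⟩
          · exact h4
          · have h6 : y ∈ cl B c (c b) := mem_cl.2 ⟨h4.2, h5.trans hib⟩
            rw [hz, Finset.mem_singleton] at h6
            exact absurd (h6.trans h3.symm) h4.1
        · rintro rfl
          exact ⟨Or.inl rfl, hac.trans hib.symm⟩
      · have : cl B' c i = cl B c i := by
          ext y
          simp only [mem_cl, hmB']
          constructor
          · rintro ⟨h4 | h4, h5⟩
            · exact absurd (h5.symm.trans (h4 ▸ hac)) hib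
            · exact ⟨h4.2, h5⟩
          · rintro ⟨h4, h5⟩
            exact ⟨Or.inr ⟨fun h => hib (h5.symm.trans (h ▸ rfl)), h4⟩, h5⟩
        rw [this]
        exact hWE.hB1 i hi
    · intro h
      exact hb1A (h ((hmB' b1).2 (Or.inr ⟨hbb.symm, hb1⟩)))
  have hG := hGE r hr V G N H c w u A B i0 hWE
  have hG' := hGE r hr V (gE H c w u A B') N H c w u A B' i0 hWE'
  have hcl : ∀ i, 1 ≤ (cl H c i).card := by
    intro i
    have h1 := (abs_le.1 (hnear.1 i)).1
    have h2 : min δ (1 / (2 * r)) * (N : ℝ) ≤ 1 / (2 * r) * N :=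
      mul_le_mul_of_nonneg_right (min_le_right _ _) hN0.le
    have h3 : 1 / (2 * (r : ℝ)) * N = N / r / 2 := by field_simp
    have h4 : 4 ≤ (N : ℝ) / r := by
      rw [le_div_iff₀ (by linarith)]
      exact hN1
    have h5 : (0 : ℝ) < sz H c i := by linarith
    unfold sz at h5
    exact_mod_cast h5
  have hsp := hMX (gE H c w u A B') hG'.1 (hG'.2.1 hcl) (hG'.2.2.trans hG.2.2.symm)
  have hV : Nonempty V := ⟨w⟩
  obtain ⟨x, hx⟩ := exists_PV G
  have hF := (hFAM r hr V G N H c w A).2 u B i0 hWE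
  have hF' := (hFAM r hr V (gE H c w u A B') N H c w A).2 u B' i0 hWE'
  have hjN : (j : ℝ) ≤ al r * N := by
    have h1 : (j : ℝ) ≤ ((1 - 2 / r) * al r - ε) * N := hj
    have h2 : ((1 - 2 / r) * al r - ε) * (N : ℝ) ≤ al r * N := by
      apply mul_le_mul_of_nonneg_right _ hN0.le
      have h3 : (0 : ℝ) < 2 / r := by positivity
      nlinarith
    linarith
  obtain ⟨y, hy⟩ := exists_PV (gE H c w u A B')
  obtain ⟨xb, hest⟩ := hE N (by omega) j hjN V G H c w A (JE w u B) x (specRad G) hF hx hWE.card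
    hnear'
  obtain ⟨yb, hest'⟩ := hE N (by omega) j hjN V (gE H c w u A B') H c w A (JE w u B') y
    (specRad (gE H c w u A B')) hF' hy hWE.card hnear'
  -- pairing
  have hpair := pairing hx hy
  have hform : ∑ p, ∑ q, (ad (gE H c w u A B') p q - ad G p q) * (x p * y q) =
      x u * (y a - y b) + y u * (x a - x b) := by
    have h1 : ∀ p q, (ad (gE H c w u A B') p q - ad G p q) * (x p * y q) =
        JE w u B' p q * (x p * y q) - JE w u B p q * (x p * y q) := by
      intro p q
      rw [hF.adj, hF'.adj]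
      ring
    simp only [h1, Finset.sum_sub_distrib, EB.JE_form]
    have h2 : ∀ z : V → ℝ, ∑ v ∈ B', z v = ∑ v ∈ B, z v + z a - z b := by
      intro z
      rw [hB', Finset.sum_insert (by simp [haB]), ← Finset.add_sum_erase B z hb]
      ring
    rw [h2, h2]
    ring
  rw [hform] at hpair
  -- eigenvalue equations
  obtain ⟨hc1, -, -, hc4⟩ := hCSE r V G H c w A (JE w u B) x (specRad G) hF hx
  obtain ⟨hd1, -, hd3, -⟩ := hCSE r V (gE H c w u A B') H c w A (JE w u B') y
    (specRad (gE H c w u A B')) hF' hy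
  have hau : a ≠ u := fun h => hWE.hu (h ▸ hWE.hA haA)
  have haw : a ≠ w := fun h => hWE.hw (h ▸ hWE.hA haA)
  have hbu : b ≠ u := fun h => hWE.hu (h ▸ hWE.hB hb)
  have hbw : b ≠ w := fun h => hWE.hw (h ▸ hWE.hB hb)
  have haB' : a ∈ B' := (hmB' a).2 (Or.inl rfl)
  have hbB' : b ∉ B' := by
    intro h
    rcases (hmB' b).1 h with h | h
    · exact hab h.symm
    · exact h.1 rfl
  have e1 := hc1 a (hWE.hA haA)
  have e2 := hc1 b (hWE.hB hb)
  have e3 := hc4 u hWE.hu hWE.hwu.symm
  rw [EB.JE_row, chi_pos haA, chi_neg hau, chi_neg haB, chi_neg haw, hac] at e1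
  rw [EB.JE_row, chi_neg hbA, chi_neg hbu, chi_pos hb, chi_neg hbw] at e2
  rw [EB.JE_row, chi_pos rfl, chi_neg (fun h => hWE.hu (hWE.hB h)), chi_neg hWE.hwu.symm] at e3
  have f1 := hd1 a (hWE.hA haA)
  have f2 := hd1 b (hWE.hB hb)
  have f3 := hd3
  rw [EB.JE_row, chi_pos haA, chi_neg hau, chi_pos haB', chi_neg haw, hac] at f1
  rw [EB.JE_row, chi_neg hbA, chi_neg hbu, chi_neg hbB', chi_neg hbw] at f2
  rw [EB.JE_row, chi_neg hWE.hwu, chi_neg (fun h => hWE.hw (hWE'.hB h)), chi_pos rfl] at f3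
  have hlamx : 0 < specRad G := by
    have h1 := (abs_le.1 hest.lamN).1
    have h3 : 2 / 3 * (N : ℝ) ≤ al r * N := mul_le_mul_of_nonneg_right ha1 hN0.le
    linarith
  have hlamy : 0 < specRad (gE H c w u A B') := by
    have h1 := (abs_le.1 hest'.lamN).1
    have h3 : 2 / 3 * (N : ℝ) ≤ al r * N := mul_le_mul_of_nonneg_right ha1 hN0.le
    linarith
  -- positivity
  have hxb1 : 0 < x b := by
    have h1 := (abs_le.1 (hest.xH b (hWE.hB hb))).1
    have h2 := hest.xb0
    linarith
  have hya : 0 < y a := by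
    have h1 := (abs_le.1 (hest'.xH a (hWE.hA haA))).1
    have h2 := hest'.xb0
    linarith
  have hu0 : 0 < x u := by
    have h1 : x b ≤ ∑ z ∈ B, x z :=
      Finset.single_le_sum (f := fun z => x z) (fun z _ => hx.nn z) hb
    have h2 := hx.nn w
    have : 0 < specRad G * x u := by rw [e3]; linarith
    exact (pos_iff_pos_of_mul_pos this).1 hlamx
  have hw0 : 0 < y w := by
    have h1 : y a ≤ ∑ z ∈ A, y z :=
      Finset.single_le_sum (f := fun z => y z) (fun z _ => hy.nn z) haA
    have h2 := hy.nn u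
    have : 0 < specRad (gE H c w u A B') * y w := by rw [f3]; linarith
    exact (pos_iff_pos_of_mul_pos this).1 hlamy
  have hyu := hy.nn u
  have hxw := hx.nn w
  have g1 : specRad G * (x a - x b) = x w - x u := by
    rw [mul_sub, e1, e2]
    ring
  have g2 : specRad (gE H c w u A B') * (y a - y b) = y w + y u := by
    rw [mul_sub, f1, f2]
    ring
  have g3 : 0 ≤ y a - y b := by
    have : 0 ≤ specRad (gE H c w u A B') * (y a - y b) := by rw [g2]; linarith
    exact nonneg_of_mul_nonneg_right this hlamy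
  have g4 : y w + y u ≤ specRad G * (y a - y b) := by
    rw [← g2]
    exact mul_le_mul_of_nonneg_right hsp g3
  have g5 : 0 ≤ ∑ v, x v * y v := Finset.sum_nonneg fun v _ => mul_nonneg (hx.nn v) (hy.nn v)
  have g6 : (specRad (gE H c w u A B') - specRad G) * ∑ v, x v * y v ≤ 0 :=
    mul_nonpos_of_nonpos_of_nonneg (by linarith) g5
  have g7 : x u * (y w + y u) ≤ x u * (specRad G * (y a - y b)) :=
    mul_le_mul_of_nonneg_left g4 hu0.le
  have g8 : specRad G * (x u * (y a - y b) + y u * (x a - x b)) =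
      x u * (specRad G * (y a - y b)) + y u * (specRad G * (x a - x b)) := by ring
  have g9 : specRad G * (x u * (y a - y b) + y u * (x a - x b)) ≤ 0 := by
    rw [hpair]
    exact mul_nonpos_of_nonneg_of_nonpos hlamx.le g6
  rw [g8, g1] at g9
  have g10 : 0 < x u * y w := mul_pos hu0 hw0
  have g11 : 0 ≤ y u * x w := mul_nonneg hyu hxw
  nlinarith

end Pool.Agent.Work.MP_5532fa_up
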