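import Pool.Agent.Work.MP_5532fa_up.Interface2
import Pool.Agent.Work.MP_5532fa_up.ACC0
import Pool.Agent.Work.MP_5532fa_up.EDG
import Pool.Agent.Work.MP_5532fa_up.EST

/-!
# MP_5532fa_co, upgrade, second round: block EST1, estimates for the eigenvector
-/

set_option autoImplicit false

open Finset

namespace Pool.Agent.Work.MP_5532fa_up

open MP5532fa (specRad qf pE)

namespace EST1

section
variable {V : Type} [Fintype V] {r : ℕ} {G : SimpleGraph V} {H : Finset V} {c : V → Fin r}

/-- weighted missing neighbours -/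
noncomputable def ms (G : SimpleGraph V) (H : Finset V) (c : V → Fin r) (y : V → ℝ) (v : V) : ℝ :=
  ∑ u ∈ H, chi (c v ≠ c u ∧ ¬ G.Adj v u) * y u

/-- weighted outside neighbours -/
noncomputable def ot (G : SimpleGraph V) (H : Finset V) (y : V → ℝ) (v : V) : ℝ :=
  ∑ u ∈ out H, ad G v u * y u

omit [Fintype V] in
theorem rowH (h : ∀ u ∈ H, ∀ v ∈ H, c u = c v → ¬ G.Adj u v) (y : V → ℝ) {v : V} (hv : v ∈ H) :
    ∑ u ∈ H, ad G v u * y u = ∑ u ∈ H, y u - cs y H c (c v) - ms G H c y v := by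
  classical
  have h2 : cs y H c (c v) = ∑ u ∈ H, (if c u = c v then y u else 0) := by
    unfold cs cl
    rw [Finset.sum_filter]
  rw [h2, ms, ← Finset.sum_sub_distrib, ← Finset.sum_sub_distrib]
  refine Finset.sum_congr rfl fun u hu => ?_
  unfold ad
  by_cases hc : c u = c v
  · rw [if_pos hc, chi_neg (h v hv u hu hc.symm), chi_neg (fun h => h.1 hc.symm)]
    ring
  · rw [if_neg hc]
    by_cases ha : G.Adj v u
    · rw [chi_pos ha, chi_neg (fun h => h.2 ha)]; ring
    · rw [chi_neg ha, chi_pos ⟨fun h => hc h.symm, ha⟩]; ring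

theorem row (h : ∀ u ∈ H, ∀ v ∈ H, c u = c v → ¬ G.Adj u v) {x : V → ℝ} {lam : ℝ}
    (hpv : PV G x lam) {v : V} (hv : v ∈ H) :
    lam * x v = ∑ u ∈ H, x u - cs x H c (c v) - ms G H c x v + ot G H x v := by
  rw [← hpv.eig v, ACC0.split H, rowH h x hv]
  rfl

omit [Fintype V] in
theorem ms_nonneg {y : V → ℝ} (hy : ∀ v, 0 ≤ y v) (v : V) : 0 ≤ ms G H c y v :=
  Finset.sum_nonneg fun u _ => mul_nonneg (chi_nonneg _) (hy u)

theorem ot_nonneg {y : V → ℝ} (hy : ∀ v, 0 ≤ y v) (v : V) : 0 ≤ ot G H y v :=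
  Finset.sum_nonneg fun u _ => mul_nonneg (chi_nonneg _) (hy u)

omit [Fintype V] in
theorem ms_sum {y : V → ℝ} {mx : ℝ} (hm : ∀ v, y v ≤ mx) :
    ∑ v ∈ H, ms G H c y v ≤ mis G H c * mx := by
  rw [EDG.mis_eq, Finset.sum_mul]
  refine Finset.sum_le_sum fun v _ => ?_
  rw [ms, Finset.sum_mul]
  exact Finset.sum_le_sum fun u _ => mul_le_mul_of_nonneg_left (hm u) (chi_nonneg _)

theorem ot_sum {y : V → ℝ} {mx : ℝ} (hm : ∀ v, y v ≤ mx) (hmx : 0 ≤ mx) :
    ∑ v ∈ H, ot G H y v ≤ eo G H * mx := by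
  rw [EDG.eo_eq, Finset.sum_mul]
  have h1 : ∑ v ∈ H, ot G H y v = ∑ u ∈ out H, ∑ v ∈ H, ad G v u * y u := by
    unfold ot
    rw [Finset.sum_comm]
  rw [h1]
  refine Finset.sum_le_sum fun u _ => ?_
  rw [Finset.sum_mul]
  calc ∑ v ∈ H, ad G v u * y u ≤ ∑ v ∈ H, ad G u v * mx := by
        refine Finset.sum_le_sum fun v _ => ?_
        rw [ad_comm G v u]
        exact mul_le_mul_of_nonneg_left (hm u) (chi_nonneg _)
    _ ≤ ∑ v, ad G u v * mx :=
        Finset.sum_le_sum_of_subset_of_nonneg (Finset.subset_univ _)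
          (fun v _ _ => mul_nonneg (chi_nonneg _) hmx)

theorem out_sum {x : V → ℝ} {lam mx : ℝ} (hpv : PV G x lam) (hm : ∀ v, x v ≤ mx) :
    lam * ∑ v ∈ out H, x v ≤ eo G H * mx := by
  rw [EDG.eo_eq, Finset.sum_mul, Finset.mul_sum]
  refine Finset.sum_le_sum fun v _ => ?_
  rw [← hpv.eig v, Finset.sum_mul]
  exact Finset.sum_le_sum fun u _ => mul_le_mul_of_nonneg_left (hm u) (chi_nonneg _)

theorem ot_le {x : V → ℝ} (hx : ∀ v, 0 ≤ x v) (v : V) : ot G H x v ≤ ∑ u ∈ out H, x u := by
  refine Finset.sum_le_sum fun u _ => ?_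
  calc ad G v u * x u ≤ 1 * x u := mul_le_mul_of_nonneg_right (chi_le_one _) (hx u)
    _ = x u := one_mul _

/-- lower bound for the spectral radius -/
theorem lam_lower (h : ∀ u ∈ H, ∀ v ∈ H, c u = c v → ¬ G.Adj u v) {x : V → ℝ} {lam m : ℝ}
    (hpv : PV G x lam) (hm : ∀ i, sz H c i ≤ m) :
    (H.card : ℝ) * ((H.card : ℝ) - m) - mis G H c ≤ lam * H.card := by
  classical
  have _hne := hpv.nonempty
  have h1 := rayleigh G (fun v => chi (v ∈ H))
  rw [← hpv.rad] at h1
  have h2 : ∑ v, chi (v ∈ H) ^ 2 = (H.card : ℝ) := by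
    have h3 : ∀ v : V, chi (v ∈ H) ^ 2 = if v ∈ H then (1 : ℝ) else 0 := by
      intro v
      by_cases h : v ∈ H
      · rw [chi_pos h, if_pos h]; norm_num
      · rw [chi_neg h, if_neg h]; norm_num
    rw [Finset.sum_congr rfl fun v _ => h3 v, ← Finset.sum_filter]
    have h4 : (univ.filter fun a => a ∈ H) = H := by ext a; simp
    rw [h4]; simp
  rw [h2] at h1
  refine le_trans ?_ h1
  have h3 : ∑ a, ∑ b, ad G a b * (chi (a ∈ H) * chi (b ∈ H)) = ∑ a ∈ H, ∑ b ∈ H, ad G a b * 1 := by
    rw [ACC0.restr H]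
    · refine Finset.sum_congr rfl fun a ha => ?_
      rw [ACC0.restr H]
      · refine Finset.sum_congr rfl fun b hb => ?_
        rw [chi_pos ha, chi_pos hb, one_mul]
      · intro b hb
        rw [chi_neg hb]; ring
    · intro a ha
      exact Finset.sum_eq_zero fun b _ => by rw [chi_neg ha]; ring
  rw [h3]
  have h4 : ∀ a ∈ H, ((H.card : ℝ) - m) - ∑ b ∈ H, chi (c a ≠ c b ∧ ¬ G.Adj a b) ≤
      ∑ b ∈ H, ad G a b * 1 := by
    intro a ha
    rw [rowH h (fun _ => 1) ha]
    have e1 : cs (fun _ => (1 : ℝ)) H c (c a) = sz H c (c a) := by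
      unfold cs sz
      simp
    have e2 : ms G H c (fun _ => (1 : ℝ)) a = ∑ b ∈ H, chi (c a ≠ c b ∧ ¬ G.Adj a b) := by
      unfold ms
      simp
    have e3 : ∑ u ∈ H, (1 : ℝ) = H.card := by simp
    rw [e1, e2, e3]
    have := hm (c a)
    linarith
  have h5 := Finset.sum_le_sum h4
  rw [Finset.sum_sub_distrib, Finset.sum_const, nsmul_eq_mul, ← EDG.mis_eq] at h5
  exact h5

end

end EST1

set_option maxHeartbeats 4000000 in
/-- **Block EST1.** -/
theorem blk_EST1 : Stmt_EST1 := by
  classical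
  intro r e hr he
  have hR : (3 : ℝ) ≤ r := by exact_mod_cast hr
  obtain ⟨th, hth0, hth1, hthe⟩ : ∃ th : ℝ, 0 < th ∧ th ≤ 1 / 200 ∧ 200 * th ≤ e :=
    ⟨min (e / 200) (1 / 200), lt_min (by positivity) (by norm_num), min_le_right _ _, by
      have := min_le_left (e / 200) (1 / 200)
      linarith⟩
  obtain ⟨d, hd⟩ : ∃ d : ℝ, d = th / r := ⟨_, rfl⟩
  have hd0 : 0 < d := by rw [hd]; positivity
  have hrd : (r : ℝ) * d = th := by rw [hd]; field_simp
  have h3d : 3 * d ≤ th := by
    rw [← hrd]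
    exact mul_le_mul_of_nonneg_right hR hd0.le
  refine ⟨d, 1, hd0, by linarith, ?_⟩
  intro N hN V _ G x lam c H hC hpv
  have hal := al_ge hr
  have hal1 := al_lt hr
  obtain ⟨M, hM⟩ : ∃ M : ℝ, M = (N : ℝ) := ⟨_, rfl⟩
  have hM1 : 1 ≤ M := by rw [hM]; exact_mod_cast hN
  have hM0 : 0 < M := by linarith
  have hHM : (H.card : ℝ) = M := by rw [hC.card, hM]
  have hmis : (mis G H c : ℝ) ≤ d * M := by have := hC.mis; rwa [← hM] at this
  have heo : (eo G H : ℝ) ≤ d * M := by have := hC.eo; rwa [← hM] at this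
  have hbal : ∀ i, |sz H c i - M / r| ≤ d * M := by
    intro i
    have := hC.bal i
    rwa [← hM] at this
  have hdM : d * 1 ≤ d * M := mul_le_mul_of_nonneg_left hM1 hd0.le
  have halM : 2 / 3 * M ≤ al r * M := mul_le_mul_of_nonneg_right hal hM0.le
  have h3dM : 3 * d * M ≤ 1 / 200 * M := mul_le_mul_of_nonneg_right (by linarith) hM0.le
  have halr : al r * M = M - M / r := by unfold al; ring
  -- lower bound for `lam`
  have hlow : al r * M - 2 * d * M ≤ lam := by
    have h1 := EST1.lam_lower hC.ind hpv (m := M / r + d * M)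
      (fun i => by have := (abs_le.1 (hbal i)).2; linarith)
    rw [hHM] at h1
    have h2 : (al r * M - 2 * d * M) * M ≤ lam * M := by
      have h3 : M * (M - (M / r + d * M)) - d * M ≤ lam * M := by linarith
      have h4 : M * (M - (M / r + d * M)) = (al r * M - d * M) * M := by rw [halr]; ring
      rw [h4] at h3
      have h5 : d * M * 1 ≤ d * M * M := mul_le_mul_of_nonneg_left hM1 (by positivity)
      linarith
    exact le_of_mul_le_mul_right h2 hM0
  have hlamhalf : M / 2 ≤ lam := by linarith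
  have hlam0 : 0 < lam := by linarith
  -- the maximum
  have _hne := hpv.nonempty
  obtain ⟨vm, -, hvm⟩ := Finset.exists_max_image (univ : Finset V) x
    ⟨Classical.arbitrary V, Finset.mem_univ _⟩
  obtain ⟨mx, hmx⟩ : ∃ mx, mx = x vm := ⟨_, rfl⟩
  have hxle : ∀ v, x v ≤ mx := fun v => by rw [hmx]; exact hvm v (Finset.mem_univ v)
  have hmx0 : 0 < mx := by
    by_contra hcon
    push Not at hcon
    have h1 : ∀ v, x v = 0 := fun v => le_antisymm ((hxle v).trans hcon) (hpv.nn v)
    have h2 := hpv.unit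
    simp [h1] at h2
  have hx0 := hpv.nn
  obtain ⟨S, hS⟩ : ∃ S, S = ∑ u ∈ H, x u := ⟨_, rfl⟩
  obtain ⟨xb, hxb⟩ : ∃ xb, xb = S / M := ⟨_, rfl⟩
  have hSM : S = M * xb := by rw [hxb]; field_simp
  -- outside
  have hout : ∑ v ∈ out H, x v ≤ 2 * d * mx := by
    have h1 := EST1.out_sum (H := H) hpv hxle
    have h2 : (eo G H : ℝ) * mx ≤ d * M * mx := mul_le_mul_of_nonneg_right heo hmx0.le
    have h3 : 0 ≤ ∑ v ∈ out H, x v := Finset.sum_nonneg fun v _ => hx0 v
    have h4 : M / 2 * ∑ v ∈ out H, x v ≤ lam * ∑ v ∈ out H, x v :=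
      mul_le_mul_of_nonneg_right hlamhalf h3
    have h5 : M / 2 * ∑ v ∈ out H, x v ≤ M / 2 * (2 * d * mx) := by
      have : M / 2 * (2 * d * mx) = d * M * mx := by ring
      linarith
    exact le_of_mul_le_mul_left h5 (by positivity)
  have hxo : ∀ v, v ∉ H → x v ≤ 2 * d * mx := by
    intro v hv
    refine le_trans ?_ hout
    exact Finset.single_le_sum (f := x) (fun u _ => hx0 u) (mem_out.2 hv)
  have hvmH : vm ∈ H := by
    by_contra h
    have h1 := hxo vm h
    rw [← hmx] at h1
    have h2 : 2 * d * mx ≤ 1 / 2 * mx := mul_le_mul_of_nonneg_right (by linarith) hmx0.le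
    linarith
  have hcs0 : ∀ i, 0 ≤ cs x H c i := fun i => Finset.sum_nonneg fun v _ => hx0 v
  have hmx4 : mx ≤ 4 * xb := by
    have h1 := EST1.row hC.ind hpv hvmH
    rw [← hmx, ← hS] at h1
    have h2 := hcs0 (c vm)
    have h3 := EST1.ms_nonneg (G := G) (H := H) (c := c) hx0 vm
    have h4 := EST1.ot_le (G := G) (H := H) hx0 vm
    have h5 : M / 2 * mx ≤ lam * mx := mul_le_mul_of_nonneg_right hlamhalf hmx0.le
    have h6 : 2 * d * mx ≤ M / 4 * mx := mul_le_mul_of_nonneg_right (by linarith) hmx0.le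
    have h7 : M / 4 * mx ≤ M / 4 * (4 * xb) := by
      have : M / 4 * (4 * xb) = S := by rw [hSM]; ring
      linarith
    exact le_of_mul_le_mul_left h7 (by positivity)
  have hxb0 : 0 < xb := by linarith
  have hS0 : 0 < S := by rw [hSM]; positivity
  have hdmx : d * M * mx ≤ 4 * d * M * xb := by
    calc d * M * mx ≤ d * M * (4 * xb) := mul_le_mul_of_nonneg_left hmx4 (by positivity)
      _ = 4 * d * M * xb := by ring
  -- missing and outside terms
  have hmsum : ∑ v ∈ H, EST1.ms G H c x v ≤ 4 * d * M * xb := by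
    refine (EST1.ms_sum hxle).trans (le_trans ?_ hdmx)
    exact mul_le_mul_of_nonneg_right hmis hmx0.le
  have hosum : ∑ v ∈ H, EST1.ot G H x v ≤ 4 * d * M * xb := by
    refine (EST1.ot_sum hxle hmx0.le).trans (le_trans ?_ hdmx)
    exact mul_le_mul_of_nonneg_right heo hmx0.le
  have hms0 := EST1.ms_nonneg (G := G) (H := H) (c := c) hx0
  have hot0 := EST1.ot_nonneg (G := G) (H := H) hx0
  have hmv : ∀ v ∈ H, EST1.ms G H c x v ≤ 4 * d * M * xb := fun v hv =>
    (Finset.single_le_sum (f := fun v => EST1.ms G H c x v) (fun u _ => hms0 u) hv).trans hmsum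
  have hov : ∀ v ∈ H, EST1.ot G H x v ≤ 4 * d * M * xb := fun v hv =>
    (Finset.single_le_sum (f := fun v => EST1.ot G H x v) (fun u _ => hot0 u) hv).trans hosum
  obtain ⟨te, hte⟩ : ∃ te : Fin r → ℝ, ∀ i, te i = ∑ v ∈ cl H c i,
      (EST1.ot G H x v - EST1.ms G H c x v) := ⟨_, fun _ => rfl⟩
  have hclH : ∀ i, cl H c i ⊆ H := fun i v hv => (mem_cl.1 hv).1
  have hteb : ∀ i, |te i| ≤ 4 * d * M * xb := by
    intro i
    rw [hte i, Finset.sum_sub_distrib]
    have h1 : ∑ v ∈ cl H c i, EST1.ot G H x v ≤ 4 * d * M * xb :=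
      (Finset.sum_le_sum_of_subset_of_nonneg (hclH i) fun v _ _ => hot0 v).trans hosum
    have h2 : ∑ v ∈ cl H c i, EST1.ms G H c x v ≤ 4 * d * M * xb :=
      (Finset.sum_le_sum_of_subset_of_nonneg (hclH i) fun v _ _ => hms0 v).trans hmsum
    have h3 : 0 ≤ ∑ v ∈ cl H c i, EST1.ot G H x v := Finset.sum_nonneg fun v _ => hot0 v
    have h4 : 0 ≤ ∑ v ∈ cl H c i, EST1.ms G H c x v := Finset.sum_nonneg fun v _ => hms0 v
    rw [abs_le]
    constructor <;> linarith
  -- class equations
  have hcls : ∀ i, lam * cs x H c i = sz H c i * S - sz H c i * cs x H c i + te i := by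
    intro i
    have h1 : lam * cs x H c i = ∑ v ∈ cl H c i,
        (S - cs x H c i + (EST1.ot G H x v - EST1.ms G H c x v)) := by
      rw [cs, Finset.mul_sum]
      refine Finset.sum_congr rfl fun v hv => ?_
      have h2 := EST1.row hC.ind hpv (hclH i hv)
      rw [← hS, (mem_cl.1 hv).2] at h2
      rw [h2]
      unfold cs
      ring
    rw [h1, Finset.sum_add_distrib, Finset.sum_const, nsmul_eq_mul, ← hte i]
    unfold sz
    ring
  have hcssum : ∑ i, cs x H c i = S := by rw [hS]; exact sum_cl H c x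
  have hszsum : ∑ i, sz H c i = M := by rw [← hHM]; exact EST.sum_sz' H c
  have hxbM : xb ≤ M * xb := by
    have : 1 * xb ≤ M * xb := mul_le_mul_of_nonneg_right hM1 hxb0.le
    linarith
  have hdMx : d * xb ≤ d * M * xb := mul_le_mul_of_nonneg_right (by linarith) hxb0.le
  -- `lam`
  have hlamN : |lam - al r * M| ≤ 5 * th * M := by
    have h1 : (lam - al r * M) * S = - ∑ i, (sz H c i - M / r) * cs x H c i + ∑ i, te i := by
      have h2 : ∑ i, lam * cs x H c i = ∑ i, (sz H c i * S - sz H c i * cs x H c i + te i) :=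
        Finset.sum_congr rfl fun i _ => hcls i
      rw [← Finset.mul_sum, hcssum, Finset.sum_add_distrib, Finset.sum_sub_distrib,
        ← Finset.sum_mul, hszsum] at h2
      have h3 : ∑ i, (sz H c i - M / r) * cs x H c i =
          ∑ i, sz H c i * cs x H c i - M / r * S := by
        rw [← hcssum, Finset.mul_sum, ← Finset.sum_sub_distrib]
        exact Finset.sum_congr rfl fun i _ => by ring
      rw [h3, sub_mul, halr]
      linarith
    have h2 : |∑ i, (sz H c i - M / r) * cs x H c i| ≤ d * M * S := by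
      refine (Finset.abs_sum_le_sum_abs _ _).trans ?_
      rw [← hcssum, Finset.mul_sum]
      refine Finset.sum_le_sum fun i _ => ?_
      rw [abs_mul, abs_of_nonneg (hcs0 i)]
      exact mul_le_mul_of_nonneg_right (hbal i) (hcs0 i)
    have h3 : |∑ i, te i| ≤ 4 * th * M * xb := by
      refine (Finset.abs_sum_le_sum_abs _ _).trans ?_
      refine (Finset.sum_le_card_nsmul _ _ _ fun i _ => hteb i).trans (le_of_eq ?_)
      rw [Finset.card_univ, Fintype.card_fin, nsmul_eq_mul, ← hrd]
      ring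
    have h4 : |lam - al r * M| * S ≤ 5 * th * M * S := by
      have h5 : |lam - al r * M| * S = |(lam - al r * M) * S| := by
        rw [abs_mul, abs_of_pos hS0]
      rw [h5, h1]
      have h6 : 4 * th * M * xb ≤ 4 * th * M * S := by
        rw [hSM]
        exact mul_le_mul_of_nonneg_left hxbM (by positivity)
      have h7 : d * M * S ≤ th * M * S := by
        refine mul_le_mul_of_nonneg_right ?_ hS0.le
        refine mul_le_mul_of_nonneg_right ?_ hM0.le
        linarith
      rw [abs_le] at h2 h3 ⊢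
      constructor <;> linarith [h2.1, h2.2, h3.1, h3.2]
    exact le_of_mul_le_mul_right h4 hS0
  -- class sums
  have hcsr : ∀ i, |cs x H c i - S / r| ≤ 20 * th * M * xb := by
    intro i
    have hsz0 := EST.sz_nonneg' H c i
    have hpos : M / 2 ≤ lam + sz H c i := by linarith
    have h1 : (lam + sz H c i) * (cs x H c i - S / r) =
        S * (al r * (sz H c i - M / r) - (lam - al r * M) / r) + te i := by
      have h2 : (lam + sz H c i) * cs x H c i = sz H c i * S + te i := by
        have := hcls i; linarith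
      rw [mul_sub, h2]
      unfold al
      ring
    have h2 : |al r * (sz H c i - M / r)| ≤ d * M := by
      rw [abs_mul, abs_of_pos (by linarith : 0 < al r)]
      calc al r * |sz H c i - M / r| ≤ 1 * |sz H c i - M / r| :=
            mul_le_mul_of_nonneg_right hal1.le (abs_nonneg _)
        _ ≤ d * M := by rw [one_mul]; exact hbal i
    have h3 : |(lam - al r * M) / r| ≤ 5 * d * M := by
      rw [abs_div, abs_of_pos (by linarith : (0 : ℝ) < r), div_le_iff₀ (by linarith : (0 : ℝ) < r)]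
      refine hlamN.trans (le_of_eq ?_)
      rw [← hrd]; ring
    have h4 : |S * (al r * (sz H c i - M / r) - (lam - al r * M) / r)| ≤ S * (6 * d * M) := by
      rw [abs_mul, abs_of_pos hS0]
      refine mul_le_mul_of_nonneg_left ?_ hS0.le
      rw [abs_le] at h2 h3 ⊢
      constructor <;> linarith [h2.1, h2.2, h3.1, h3.2]
    have h5 : |(lam + sz H c i) * (cs x H c i - S / r)| ≤ S * (10 * d * M) := by
      rw [h1]
      have h6 : 4 * d * M * xb ≤ S * (4 * d * M) := by
        rw [hSM]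
        have : 4 * d * M * xb ≤ 4 * d * M * (M * xb) :=
          mul_le_mul_of_nonneg_left hxbM (by positivity)
        linarith
      have h7 := hteb i
      rw [abs_le] at h4 h7 ⊢
      constructor <;> linarith [h4.1, h4.2, h7.1, h7.2]
    rw [abs_mul, abs_of_pos (by linarith : 0 < lam + sz H c i)] at h5
    have h6 : M / 2 * |cs x H c i - S / r| ≤ (lam + sz H c i) * |cs x H c i - S / r| :=
      mul_le_mul_of_nonneg_right hpos (abs_nonneg _)
    have h7 : M / 2 * |cs x H c i - S / r| ≤ M / 2 * (20 * th * M * xb) := by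
      refine h6.trans (h5.trans ?_)
      rw [hSM]
      have h8 : d * (M * xb * (10 * M)) ≤ th * (M * xb * (10 * M)) :=
        mul_le_mul_of_nonneg_right (by linarith) (by positivity)
      linarith
    exact le_of_mul_le_mul_left h7 (by positivity)
  have hthx : 0 ≤ th * xb := by positivity
  have hex : 200 * th * xb ≤ e * xb := mul_le_mul_of_nonneg_right hthe hxb0.le
  refine ⟨xb, ⟨hxb0, ?_, ?_, ?_⟩⟩
  · intro v hv
    have h1 := EST1.row hC.ind hpv hv
    rw [← hS] at h1
    have h2 := hcsr (c v)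
    have h3 : lam * (x v - xb) = -(cs x H c (c v) - S / r) - (lam - al r * M) * xb +
        (EST1.ot G H x v - EST1.ms G H c x v) := by
      have e6 : al r * M * xb = S - S / r := by rw [hSM]; unfold al; ring
      rw [mul_sub, h1, sub_mul, e6]
      ring
    have h4 : |(lam - al r * M) * xb| ≤ 5 * th * M * xb := by
      rw [abs_mul, abs_of_pos hxb0]
      exact mul_le_mul_of_nonneg_right hlamN hxb0.le
    have h5 : 4 * d * M * xb ≤ 2 * th * M * xb := by
      have h6 : 2 * d * (M * xb) ≤ th * (M * xb) :=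
        mul_le_mul_of_nonneg_right (by linarith) (by positivity)
      linarith
    have h6 : |lam * (x v - xb)| ≤ 27 * th * M * xb := by
      rw [h3]
      have a1 := hmv v hv
      have a2 := hov v hv
      have a3 := hms0 v
      have a4 := hot0 v
      rw [abs_le] at h2 h4 ⊢
      constructor <;> linarith [h2.1, h2.2, h4.1, h4.2]
    rw [abs_mul, abs_of_pos hlam0] at h6
    have h7 : M / 2 * |x v - xb| ≤ M / 2 * (54 * th * xb) := by
      have h8 : M / 2 * |x v - xb| ≤ lam * |x v - xb| :=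
        mul_le_mul_of_nonneg_right hlamhalf (abs_nonneg _)
      have h9 : M / 2 * (54 * th * xb) = 27 * th * M * xb := by ring
      linarith
    have h8 : |x v - xb| ≤ 54 * th * xb := le_of_mul_le_mul_left h7 (by positivity)
    linarith
  · intro v hv
    have h1 := hxo v hv
    have h2 : 2 * d * mx ≤ 2 * d * (4 * xb) := mul_le_mul_of_nonneg_left hmx4 (by positivity)
    have h3 : 8 * d * xb ≤ 8 * th * xb := by
      refine mul_le_mul_of_nonneg_right ?_ hxb0.le
      linarith
    linarith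
  · rw [← hM]
    refine hlamN.trans ?_
    refine mul_le_mul_of_nonneg_right ?_ hM0.le
    linarith

end Pool.Agent.Work.MP_5532fa_up
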