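import Pool.Agent.Work.MP_5532fa_up.Interface

/-!
# MP_5532fa_co, upgrade: block FINA (fine data of a graph with large spectral radius)
-/

set_option linter.unusedSectionVars false

open Finset

namespace Pool.Agent.Work.MP_5532fa_up

open MP5532fa (specRad qf pE)

namespace FINA

/-- a graph with heavy vertices `H`: the neighbours of `v ∈ H` in `H` -/
lemma dg_near {V : Type} [Fintype V] {r : ℕ} {G : SimpleGraph V} {c : V → Fin r} {H : Finset V}
    (ind : ∀ u ∈ H, ∀ v ∈ H, c u = c v → ¬ G.Adj u v) {v : V} (hv : v ∈ H) :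
    (dg G H v : ℝ) + sz H c (c v) ≤ H.card ∧
      (H.card : ℝ) ≤ dg G H v + sz H c (c v) + mis G H c := by
  classical
  unfold dg sz mis
  have hsub1 : nb G H v ∪ cl H c (c v) ⊆ H := by
    intro u hu
    rcases Finset.mem_union.mp hu with h | h
    · exact (mem_nb.mp h).1
    · exact (mem_cl.mp h).1
  have hdis : Disjoint (nb G H v) (cl H c (c v)) := by
    rw [Finset.disjoint_left]
    intro u h1 h2
    exact ind v hv u (mem_cl.mp h2).1 (mem_cl.mp h2).2.symm (mem_nb.mp h1).2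
  have hcard : (nb G H v ∪ cl H c (c v)).card = (nb G H v).card + (cl H c (c v)).card :=
    Finset.card_union_of_disjoint hdis
  constructor
  · have := Finset.card_le_card hsub1
    rw [hcard] at this
    exact_mod_cast this
  · have hsub2 : H ⊆ (nb G H v ∪ cl H c (c v)) ∪
        (((H ×ˢ H).filter (fun e => c e.1 ≠ c e.2 ∧ ¬ G.Adj e.1 e.2)).filter
          (fun e => e.1 = v)).image (fun e => e.2) := by
      intro u hu
      by_cases h1 : G.Adj v u
      · exact Finset.mem_union_left _ (Finset.mem_union_left _ (mem_nb.mpr ⟨hu, h1⟩))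
      · by_cases h2 : c u = c v
        · exact Finset.mem_union_left _ (Finset.mem_union_right _ (mem_cl.mpr ⟨hu, h2⟩))
        · apply Finset.mem_union_right
          rw [Finset.mem_image]
          refine ⟨(v, u), ?_, rfl⟩
          rw [Finset.mem_filter, Finset.mem_filter, Finset.mem_product]
          exact ⟨⟨⟨hv, hu⟩, fun h => h2 h.symm, h1⟩, rfl⟩
    have h3 := Finset.card_le_card hsub2
    have h4 := Finset.card_union_le (nb G H v ∪ cl H c (c v))
      ((((H ×ˢ H).filter (fun e => c e.1 ≠ c e.2 ∧ ¬ G.Adj e.1 e.2)).filter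
          (fun e => e.1 = v)).image (fun e => e.2))
    have h5 : ((((H ×ˢ H).filter (fun e => c e.1 ≠ c e.2 ∧ ¬ G.Adj e.1 e.2)).filter
          (fun e => e.1 = v)).image (fun e => e.2)).card ≤
        ((H ×ˢ H).filter (fun e => c e.1 ≠ c e.2 ∧ ¬ G.Adj e.1 e.2)).card :=
      Finset.card_image_le.trans (Finset.card_filter_le _ _)
    have h6 : H.card ≤ (nb G H v).card + (cl H c (c v)).card +
        ((H ×ˢ H).filter (fun e => c e.1 ≠ c e.2 ∧ ¬ G.Adj e.1 e.2)).card := by omega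
    exact_mod_cast h6

/-- from a small sum of squares to the single terms -/
lemma bal_of_imb {V : Type} [Fintype V] {r : ℕ} {c : V → Fin r} {H : Finset V} {N : ℕ}
    (hN : H.card = N) {B : ℝ} (h0 : 0 ≤ B) (h : imb H c ≤ B ^ 2) (i : Fin r) :
    |sz H c i - (N : ℝ) / r| ≤ B := by
  have h1 : (sz H c i - (N : ℝ) / r) ^ 2 ≤ imb H c := by
    unfold imb
    rw [hN]
    exact Finset.single_le_sum (f := fun i => (sz H c i - (N : ℝ) / r) ^ 2)
      (fun _ _ => sq_nonneg _) (Finset.mem_univ i)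
  exact abs_le_of_sq_le_sq (h1.trans h) h0

lemma sqrt_near {a : ℝ} (ha : 0 ≤ a) : |√a - 1| ≤ |a - 1| := by
  have h1 : a - 1 = (√a - 1) * (√a + 1) := by
    have := Real.mul_self_sqrt ha
    nlinarith
  rw [h1, abs_mul, abs_of_nonneg (by positivity : (0 : ℝ) ≤ √a + 1)]
  have h2 : 0 ≤ |√a - 1| := abs_nonneg _
  have h3 : 0 ≤ √a := Real.sqrt_nonneg a
  nlinarith

lemma kap_le {r : ℝ} (hr : 3 ≤ r) : 1 - 2 / r ≤ 2 * (1 - 1 / (8 * r)) ^ 2 - 1 := by
  have h1 : 1 / (8 * r) = (1 / r) / 8 := by field_simp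
  have h2 : 2 / r = 2 * (1 / r) := by ring
  have h3 : 0 ≤ 1 / r := by positivity
  rw [h1, h2]
  nlinarith [sq_nonneg (1 / r)]

end FINA

open FINA in
set_option maxHeartbeats 4000000 in
theorem blk_FINA (hREL : Stmt_REL) (hMKC : Stmt_MKC) (hHSET : Stmt_HSET) (hACC : Stmt_ACC)
    (hOPT2 : Stmt_OPT2) : Stmt_FINA := by
  intro r ε δ hr hε hδ
  have hr' : (3 : ℝ) ≤ r := by exact_mod_cast hr
  have hal1 := al_ge hr
  have hal2 := al_lt hr
  have halpos : 0 < al r := by linarith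
  set η : ℝ := 1 / (8 * r) with hη
  have hη0 : 0 < η := by rw [hη]; positivity
  have hη1 : η ≤ 1 / 24 := by
    rw [hη]; apply one_div_le_one_div_of_le (by norm_num); linarith
  obtain ⟨D, Na, hD, hmk⟩ := hMKC r 1 hr le_rfl
  obtain ⟨K1, Nb, hK1, hrel⟩ := hREL r D hr hD
  obtain ⟨K2, hK2, hhs⟩ := hHSET r D η hr hD hη0 le_rfl
  obtain ⟨K3, Nc, hK3, hacc⟩ := hACC r D η K2 hr hD hη0 le_rfl hK2
  set ε2 : ℝ := min (δ / 32) (δ ^ 2 / 512) with hε2
  have hε2pos : 0 < ε2 := lt_min (by positivity) (by positivity)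
  have hε2a : ε2 ≤ δ / 32 := min_le_left _ _
  have hε2b : ε2 ≤ δ ^ 2 / 512 := min_le_right _ _
  have hκ1 : 1 - 2 / (r : ℝ) ≤ 1 := by
    have : 0 ≤ 2 / (r : ℝ) := by positivity
    linarith
  obtain ⟨δ2, hδ2, hopt⟩ := hOPT2 (1 - 2 / (r : ℝ)) ε (η / 2) ε2 hκ1 hε (by positivity)
    (by linarith) hε2pos
  set L : ℝ := 1 + 2 * K2 + 6 * K1 + 8 * K1 / δ + (2 * K3 / δ2) ^ 2 + (8 * K2 / δ) ^ 2 with hL
  obtain ⟨Nd, hNd⟩ := exists_nat_ge L
  refine ⟨min 1 (δ2 / 4), max (max Na Nb) (max Nc Nd), lt_min one_pos (by positivity), ?_⟩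
  intro N hN j hj V _ G x lam hfree hpv hpE hlam
  have hNa : Na ≤ N := (le_max_left _ _).trans ((le_max_left _ _).trans hN)
  have hNb : Nb ≤ N := (le_max_right _ _).trans ((le_max_left _ _).trans hN)
  have hNc : Nc ≤ N := (le_max_left _ _).trans ((le_max_right _ _).trans hN)
  have hNd' : Nd ≤ N := (le_max_right _ _).trans ((le_max_right _ _).trans hN)
  have hNL : L ≤ (N : ℝ) := hNd.trans (by exact_mod_cast hNd')
  have p1 : 0 ≤ 8 * K1 / δ := by positivity
  have p2 : 0 ≤ (2 * K3 / δ2) ^ 2 := by positivity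
  have p3 : 0 ≤ (8 * K2 / δ) ^ 2 := by positivity
  have hN1 : (1 : ℝ) ≤ N := by linarith
  have hNpos : (0 : ℝ) < N := by linarith
  have hN2 : 2 * K2 ≤ (N : ℝ) := by linarith
  have hN3 : 6 * K1 ≤ (N : ℝ) := by linarith
  have hN4 : 8 * K1 / δ ≤ (N : ℝ) := by linarith
  have hN4' : 8 * K1 ≤ (N : ℝ) * δ := (div_le_iff₀ hδ).mp hN4
  have hSpos : 0 < √(N : ℝ) := Real.sqrt_pos.mpr hNpos
  have hSS : √(N : ℝ) * √(N : ℝ) = N := Real.mul_self_sqrt hNpos.le
  have hSN : √(N : ℝ) ≤ N := by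
    rw [Real.sqrt_le_left hNpos.le]
    calc (N : ℝ) = N * 1 := (mul_one _).symm
      _ ≤ N * N := mul_le_mul_of_nonneg_left hN1 hNpos.le
      _ = (N : ℝ) ^ 2 := by ring
  have hNε : (N : ℝ) * ε2 ≤ N * (δ / 32) := mul_le_mul_of_nonneg_left hε2a hNpos.le
  have hS1 : 2 * K3 / δ2 ≤ √(N : ℝ) := Real.le_sqrt_of_sq_le (by linarith)
  have hS2 : 8 * K2 / δ ≤ √(N : ℝ) := Real.le_sqrt_of_sq_le (by linarith)
  have hS3 : (1 : ℝ) ≤ √(N : ℝ) := Real.one_le_sqrt.mpr hN1
  have hq1 : K3 / √(N : ℝ) ≤ δ2 / 2 := by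
    rw [div_le_iff₀ hSpos]
    have := (div_le_iff₀ hδ2).mp hS1
    linarith
  have hq2 : K2 / √(N : ℝ) ≤ δ / 8 := by
    rw [div_le_iff₀ hSpos]
    have := (div_le_iff₀ hδ).mp hS2
    linarith
  have hq3 : K1 / (N : ℝ) ≤ δ / 8 := by
    rw [div_le_iff₀ hNpos]; linarith
  -- the range of `j`
  obtain ⟨hj1, hj2⟩ := hj
  have hjN : (j : ℝ) ≤ al r * N := by
    refine hj2.trans ?_
    apply mul_le_mul_of_nonneg_right _ hNpos.le
    have h1 : 0 ≤ 2 / (r : ℝ) * al r := by positivity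
    have h2 : (1 - 2 / (r : ℝ)) * al r = al r - 2 / (r : ℝ) * al r := by ring
    linarith
  have hxlo : ε ≤ (j : ℝ) / (al r * N) := by
    rw [le_div_iff₀ (by positivity)]
    calc ε * (al r * N) = al r * (ε * N) := by ring
      _ ≤ 1 * (ε * N) := mul_le_mul_of_nonneg_right hal2.le (by positivity)
      _ ≤ j := by rw [one_mul]; exact hj1
  have hxhi : (j : ℝ) / (al r * N) ≤ 1 - 2 / (r : ℝ) - ε := by
    rw [div_le_iff₀ (by positivity)]
    calc (j : ℝ) ≤ ((1 - 2 / (r : ℝ)) * al r - ε) * N := hj2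
      _ ≤ ((1 - 2 / (r : ℝ)) * al r - ε * al r) * N := by
          apply mul_le_mul_of_nonneg_right _ hNpos.le
          have := mul_le_of_le_one_right hε.le hal2.le
          linarith
      _ = _ := by ring
  set x0 : ℝ := (j : ℝ) / (al r * N) with hx0
  have hx0pos : 0 ≤ x0 := by rw [hx0]; positivity
  -- context
  have hlam1 : al r * N - 1 ≤ lam := by
    have h1 : (0 : ℝ) ≤ (j : ℝ) ^ 2 / (al r * (N : ℝ) ^ 2) := by positivity
    have h2 : min 1 (δ2 / 4) ≤ 1 := min_le_left _ _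
    linarith
  have hctx := hmk N hNa j hjN V G x lam hfree hpv hpE hlam1
  set t : ℝ := lam / pE G with ht
  obtain ⟨hr1, hr2⟩ := hrel N hNb j hjN V G x lam t hctx hpE
  have hr1' := abs_le.mp hr1
  have hr2' := abs_le.mp hr2
  have hK1N : K1 / (N : ℝ) ≤ 1 := by rw [div_le_one hNpos]; linarith
  have htN : t * N ≤ 2 := by linarith [hr2'.2]
  have ht2 : t ≤ 2 / N := by rw [le_div_iff₀ hNpos]; exact htN
  have hKt : K2 * t ≤ 1 := by
    calc K2 * t ≤ K2 * (2 / N) := mul_le_mul_of_nonneg_left ht2 (by linarith)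
      _ = 2 * K2 / N := by ring
      _ ≤ 1 := by rw [div_le_one hNpos]; exact hN2
  obtain ⟨c, H, hHD⟩ := hhs V G x lam t hctx hKt
  obtain ⟨hA, hB, hC⟩ := hacc N hNc j hjN V G x lam t c H hctx hHD hpE
  have hlamlo : (N : ℝ) / 2 ≤ lam := by
    have h1 : al r * N ≥ 2 / 3 * N := mul_le_mul_of_nonneg_right hal1 hNpos.le
    linarith [hr1'.1]
  have hlampos : 0 < lam := by linarith
  have hlamhi : lam ≤ 2 * N := by
    have h1 : al r * N ≤ 1 * N := mul_le_mul_of_nonneg_right hal2.le hNpos.le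
    linarith [hr1'.2]
  have hden : 0 < 2 * al r * N := by positivity
  have heu0 : 0 ≤ (eu G H : ℝ) / (2 * al r * N) := by positivity
  have himb0 : 0 ≤ imb H c := Finset.sum_nonneg fun _ _ => sq_nonneg _
  have hsg0 : 0 ≤ imb H c / (2 * al r * N) := div_nonneg himb0 hden.le
  have hmu0 : 0 ≤ (mis G H c : ℝ) / (2 * al r * N) := by positivity
  have hX0 : ∀ v, 0 ≤ (dg G H v : ℝ) / lam := fun v => by positivity
  -- the optimisation
  have hcost : (al r * N + j / N - lam) / al r ≤ x0 * (1 - x0) + δ2 / 2 := by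
    rw [div_le_iff₀ halpos]
    have h2 : min 1 (δ2 / 4) ≤ δ2 / 4 := min_le_right _ _
    have h3 : (j : ℝ) = x0 * (al r * N) := by rw [hx0]; field_simp
    have h4 : (j : ℝ) / N = x0 * al r := by rw [h3]; field_simp
    have h5 : (j : ℝ) ^ 2 / (al r * (N : ℝ) ^ 2) = x0 ^ 2 * al r := by rw [h3]; field_simp
    rw [h5] at hlam
    rw [h4]
    have h6 : δ2 / 2 * (2 / 3) ≤ δ2 / 2 * al r := mul_le_mul_of_nonneg_left hal1 (by positivity)
    have h7 : (x0 * (1 - x0) + δ2 / 2) * al r = x0 * al r - x0 ^ 2 * al r + δ2 / 2 * al r := by ring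
    rw [h7]
    linarith
  have hopt' := hopt V (out H) (fun v => (dg G H v : ℝ) / lam) ((eu G H : ℝ) / (2 * al r * N))
    (imb H c / (2 * al r * N)) ((mis G H c : ℝ) / (2 * al r * N)) x0 (2 * (1 - η) ^ 2 - 1)
    ((N : ℤ) - H.card)
    (fun v hv => ⟨hX0 v, hC v (mem_out.mp hv)⟩) heu0 hsg0 hmu0 hxlo hxhi
    (kap_le hr')
    (by
      push_cast
      refine hA.trans (hq1.trans (by linarith)))
    (by
      refine hB.trans ?_
      linarith)
  obtain ⟨hk, w, hw, hXw, hrest⟩ := hopt'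
  have hcard : H.card = N := by
    have : (N : ℤ) = H.card := by linarith
    exact_mod_cast this.symm
  have hwH : w ∉ H := mem_out.mp hw
  have hsum0 : 0 ≤ ∑ v ∈ out H, (dg G H v : ℝ) / lam - (dg G H w : ℝ) / lam := by
    have := Finset.single_le_sum (f := fun v => (dg G H v : ℝ) / lam) (fun v _ => hX0 v) hw
    linarith
  have hmis1 : (mis G H c : ℝ) ≤ 2 * ε2 * N := by
    have h1 : (mis G H c : ℝ) / (2 * al r * N) ≤ ε2 := by linarith
    have h2 := (div_le_iff₀ hden).mp h1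
    calc (mis G H c : ℝ) ≤ ε2 * (2 * al r * N) := h2
      _ = (2 * ε2 * N) * al r := by ring
      _ ≤ (2 * ε2 * N) * 1 := mul_le_mul_of_nonneg_left hal2.le (by positivity)
      _ = _ := mul_one _
  have himb1 : imb H c ≤ 2 * ε2 * N := by
    have h1 : imb H c / (2 * al r * N) ≤ ε2 := by linarith
    have h2 := (div_le_iff₀ hden).mp h1
    calc imb H c ≤ ε2 * (2 * al r * N) := h2
      _ = (2 * ε2 * N) * al r := by ring
      _ ≤ (2 * ε2 * N) * 1 := mul_le_mul_of_nonneg_left hal2.le (by positivity)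
      _ = _ := mul_one _
  have heu1 : (eu G H : ℝ) ≤ 2 * ε2 * N := by
    have h1 : (eu G H : ℝ) / (2 * al r * N) ≤ ε2 := by linarith
    have h2 := (div_le_iff₀ hden).mp h1
    calc (eu G H : ℝ) ≤ ε2 * (2 * al r * N) := h2
      _ = (2 * ε2 * N) * al r := by ring
      _ ≤ (2 * ε2 * N) * 1 := mul_le_mul_of_nonneg_left hal2.le (by positivity)
      _ = _ := mul_one _
  have hbal : ∀ i, |sz H c i - (N : ℝ) / r| ≤ δ / 16 * √(N : ℝ) := by
    intro i
    apply bal_of_imb hcard (by positivity)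
    refine himb1.trans ?_
    rw [mul_pow, Real.sq_sqrt hNpos.le]
    have : 2 * ε2 ≤ (δ / 16) ^ 2 := by
      have h1 : (δ / 16) ^ 2 = δ ^ 2 / 256 := by ring
      rw [h1]; linarith
    exact mul_le_mul_of_nonneg_right this hNpos.le
  have hbal' : ∀ i, |sz H c i - (N : ℝ) / r| ≤ δ / 16 * N := by
    intro i
    refine (hbal i).trans (mul_le_mul_of_nonneg_left ?_ (by positivity))
    exact hSN
  -- the eigenvector
  have hdgN : ∀ v, (dg G H v : ℝ) ≤ N := by
    intro v
    have h1 : (nb G H v).card ≤ H.card := Finset.card_le_card (fun u hu => (mem_nb.mp hu).1)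
    rw [hcard] at h1
    unfold dg
    exact_mod_cast h1
  have hX2 : ∀ v, (dg G H v : ℝ) / lam ≤ 2 := by
    intro v
    rw [div_le_iff₀ hlampos]
    linarith [hdgN v]
  have hvec : ∀ v, |x v * √(N : ℝ) - (dg G H v : ℝ) / lam| ≤ δ / 2 := by
    intro v
    have h1 := hHD.all v
    have hst : √t * √(N : ℝ) = √(t * N) := (Real.sqrt_mul hHD.tpos.le _).symm
    have hSK : √(N : ℝ) * K2 = 2 * (K2 / √(N : ℝ)) * ((N : ℝ) / 2) := by
      have : 2 * (K2 / √(N : ℝ)) * ((N : ℝ) / 2) = K2 * N / √(N : ℝ) := by ring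
      rw [this, eq_div_iff hSpos.ne']
      calc √(N : ℝ) * K2 * √(N : ℝ) = K2 * (√(N : ℝ) * √(N : ℝ)) := by ring
        _ = K2 * N := by rw [hSS]
    have e1 : x v * √(N : ℝ) - (dg G H v : ℝ) / lam =
        √(N : ℝ) * (lam * x v - √t * dg G H v) / lam +
          (√(t * N) - 1) * ((dg G H v : ℝ) / lam) := by
      rw [← hst]; field_simp; ring
    have h2 : |√(N : ℝ) * (lam * x v - √t * dg G H v) / lam| ≤ 2 * (K2 / √(N : ℝ)) := by
      rw [abs_div, abs_mul, abs_of_pos hSpos, abs_of_pos hlampos, div_le_iff₀ hlampos]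
      calc √(N : ℝ) * |lam * x v - √t * dg G H v| ≤ √(N : ℝ) * K2 :=
            mul_le_mul_of_nonneg_left h1 hSpos.le
        _ = 2 * (K2 / √(N : ℝ)) * ((N : ℝ) / 2) := hSK
        _ ≤ 2 * (K2 / √(N : ℝ)) * lam := mul_le_mul_of_nonneg_left hlamlo (by positivity)
    have h3 : |(√(t * N) - 1) * ((dg G H v : ℝ) / lam)| ≤ 2 * (K1 / N) := by
      rw [abs_mul, abs_of_nonneg (hX0 v), mul_comm]
      apply mul_le_mul (hX2 v) _ (abs_nonneg _) (by norm_num)
      exact (sqrt_near (mul_nonneg hHD.tpos.le hNpos.le)).trans hr2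
    rw [e1]
    refine (abs_add_le _ _).trans ?_
    linarith
  refine ⟨c, H, w, hpv, hcard, hwH, hHD.ind, ?_, ?_, ?_, ?_, ?_, ?_, ?_⟩
  · refine hmis1.trans ?_
    apply mul_le_mul_of_nonneg_right _ hNpos.le
    linarith
  · intro i
    refine (hbal' i).trans ?_
    apply mul_le_mul_of_nonneg_right _ hNpos.le
    linarith
  · -- degree of w
    have h1 := abs_le.mp hXw
    have h2 : (dg G H w : ℝ) = lam * ((dg G H w : ℝ) / lam) := by field_simp
    have h3 : (j : ℝ) = x0 * (al r * N) := by rw [hx0]; field_simp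
    have h4 := hC w hwH
    have h5 := hX0 w
    have h6 : (dg G H w : ℝ) - j = (lam - al r * N) * ((dg G H w : ℝ) / lam) +
        al r * N * ((dg G H w : ℝ) / lam - x0) := by
      rw [h3]; field_simp; ring
    rw [h6]
    refine (abs_add_le _ _).trans ?_
    rw [abs_mul, abs_mul]
    have h7 : |lam - al r * N| * |(dg G H w : ℝ) / lam| ≤ K1 * 1 := by
      apply mul_le_mul hr1 _ (abs_nonneg _) (by linarith)
      rw [abs_of_nonneg h5]; linarith
    have h8 : |al r * (N : ℝ)| * |(dg G H w : ℝ) / lam - x0| ≤ (1 * N) * ε2 := by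
      apply mul_le_mul _ hXw (abs_nonneg _) (by positivity)
      rw [abs_of_nonneg (by positivity)]
      exact mul_le_mul_of_nonneg_right hal2.le hNpos.le
    linarith
  · -- the rest
    have h1 : ∑ v ∈ out H, (dg G H v : ℝ) - dg G H w =
        lam * (∑ v ∈ out H, (dg G H v : ℝ) / lam - (dg G H w : ℝ) / lam) := by
      rw [mul_sub, Finset.mul_sum]
      congr 1
      · apply Finset.sum_congr rfl; intro v _; field_simp
      · field_simp
    rw [h1]
    have h2 : lam * (∑ v ∈ out H, (dg G H v : ℝ) / lam - (dg G H w : ℝ) / lam) ≤ (2 * N) * ε2 := by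
      apply mul_le_mul hlamhi (by linarith) hsum0 (by positivity)
    linarith
  · -- vertices of H
    intro v hv
    have h1 := hvec v
    have h2 := dg_near hHD.ind hv
    rw [hcard] at h2
    have h3 := abs_le.mp (hbal' (c v))
    have h4 : al r * (N : ℝ) = N - N / r := by unfold al; ring
    have h5 : |(dg G H v : ℝ) / lam - 1| ≤ δ / 2 := by
      have e2 : (dg G H v : ℝ) / lam - 1 = ((dg G H v : ℝ) - lam) / lam := by field_simp
      rw [e2, abs_div, abs_of_pos hlampos, div_le_iff₀ hlampos, abs_le]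
      have hδl : δ / 2 * ((N : ℝ) / 2) ≤ δ / 2 * lam :=
        mul_le_mul_of_nonneg_left hlamlo (by positivity)
      constructor
      · linarith [hr1'.1, hr1'.2, h2.1, h2.2, h3.1, h3.2]
      · linarith [hr1'.1, hr1'.2, h2.1, h2.2, h3.1, h3.2]
    have h6 : x v * √(N : ℝ) - 1 = (x v * √(N : ℝ) - (dg G H v : ℝ) / lam) +
        ((dg G H v : ℝ) / lam - 1) := by ring
    rw [h6]
    refine (abs_add_le _ _).trans ?_
    linarith
  · have h1 := hvec w
    have h6 : x w * √(N : ℝ) - x0 = (x w * √(N : ℝ) - (dg G H w : ℝ) / lam) +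
        ((dg G H w : ℝ) / lam - x0) := by ring
    rw [h6]
    refine (abs_add_le _ _).trans ?_
    linarith
  · intro v hv hvw
    have h1 := abs_le.mp (hvec v)
    have h2 : (dg G H v : ℝ) / lam ≤
        ∑ v ∈ out H, (dg G H v : ℝ) / lam - (dg G H w : ℝ) / lam := by
      classical
      have h3 : ({v, w} : Finset V) ⊆ out H := by
        intro u hu
        rw [Finset.mem_insert, Finset.mem_singleton] at hu
        rcases hu with rfl | rfl
        · exact mem_out.mpr hv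
        · exact hw
      have h4 := Finset.sum_le_sum_of_subset_of_nonneg h3
        (fun u _ _ => hX0 u) (f := fun v => (dg G H v : ℝ) / lam)
      rw [Finset.sum_pair hvw] at h4
      linarith
    linarith [h1.2]

end Pool.Agent.Work.MP_5532fa_up
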