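import Pool.Agent.Work.MP_5532fa_up.Interface2
import Pool.Agent.Work.MP_5532fa_up.FINA
import Pool.Agent.Work.MP_5532fa_up.TRF
import Pool.Agent.Work.MP_5532fa_up.UPX

/-!
# MP_5532fa_co, upgrade, block FIN3 (helper63; after FINA and UPX): the fine data for all numbers
of edges
-/

set_option linter.unusedSectionVars false

open Finset

namespace Pool.Agent.Work.MP_5532fa_up

open MP5532fa (specRad qf pE)

namespace FIN3

open FINA

lemma sqrt_le_mul {δ y : ℝ} (hδ : 0 < δ) (hy0 : 0 < y) (hy : (2 / δ) ^ 2 ≤ y) :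
    2 * √y ≤ δ * y := by
  have h1 : 2 / δ ≤ √y := Real.le_sqrt_of_sq_le hy
  have h2 : 2 ≤ √y * δ := (div_le_iff₀ hδ).mp h1
  have h3 : √y * √y = y := Real.mul_self_sqrt hy0.le
  have h4 : 0 < √y := Real.sqrt_pos.mpr hy0
  calc 2 * √y ≤ (√y * δ) * √y := mul_le_mul_of_nonneg_right h2 h4.le
    _ = δ * y := by rw [mul_comm (√y) δ, mul_assoc, h3]

/-- the fine data of FINA, from the estimates -/
lemma fd_of {r : ℕ} (hr : 3 ≤ r) {V : Type} [Fintype V] {G : SimpleGraph V} {x : V → ℝ}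
    {lam t η K1 K2 δ ε2 x0 : ℝ} {c : V → Fin r} {H : Finset V} {N j : ℕ} (hpv : PV G x lam)
    (hHD : HD r η K2 G x lam t c H) (hcard : H.card = N) (hδ : 0 < δ) (hε2pos : 0 < ε2)
    (hε2a : ε2 ≤ δ / 32) (hε2b : ε2 ≤ δ ^ 2 / 512) (hN1 : (1 : ℝ) ≤ N)
    (hN4' : 8 * K1 ≤ (N : ℝ) * δ) (hK1 : 1 ≤ K1) (hK2 : 1 ≤ K2)
    (hq2 : K2 / √(N : ℝ) ≤ δ / 8) (hq3 : K1 / (N : ℝ) ≤ δ / 8)
    (hx0 : x0 = (j : ℝ) / (al r * N)) (hr1 : |lam - al r * N| ≤ K1) (hr2 : |t * N - 1| ≤ K1 / N)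
    (hlamlo : (N : ℝ) / 2 ≤ lam) (hlamhi : lam ≤ 2 * N)
    (hC : ∀ v, v ∉ H → (dg G H v : ℝ) / lam ≤ 1) {w : V} (hw : w ∈ out H)
    (hXw : |(dg G H w : ℝ) / lam - x0| ≤ ε2)
    (hrest : ∑ v ∈ out H, (dg G H v : ℝ) / lam - (dg G H w : ℝ) / lam
      + (eu G H : ℝ) / (2 * al r * N) + imb H c / (2 * al r * N)
      + (mis G H c : ℝ) / (2 * al r * N) ≤ ε2) : FD r δ N j G x lam c H w := by
  have hal1 := al_ge hr
  have hal2 := al_lt hr
  have halpos : 0 < al r := by linarith only [hal1]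
  have hNpos : (0 : ℝ) < N := by linarith only [hN1]
  have hlampos : 0 < lam := by linarith only [hlamlo, hNpos]
  have hSpos : 0 < √(N : ℝ) := Real.sqrt_pos.mpr hNpos
  have hSS : √(N : ℝ) * √(N : ℝ) = N := Real.mul_self_sqrt hNpos.le
  have hSN : √(N : ℝ) ≤ N := by
    rw [Real.sqrt_le_left hNpos.le]
    calc (N : ℝ) = N * 1 := (mul_one _).symm
      _ ≤ N * N := mul_le_mul_of_nonneg_left hN1 hNpos.le
      _ = (N : ℝ) ^ 2 := by ring
  have hNε : (N : ℝ) * ε2 ≤ N * (δ / 32) := mul_le_mul_of_nonneg_left hε2a hNpos.le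
  have hr1' := abs_le.mp hr1
  have hden : 0 < 2 * al r * N := by positivity
  have heu0 : 0 ≤ (eu G H : ℝ) / (2 * al r * N) := by positivity
  have himb0 : 0 ≤ imb H c := Finset.sum_nonneg fun _ _ => sq_nonneg _
  have hsg0 : 0 ≤ imb H c / (2 * al r * N) := div_nonneg himb0 hden.le
  have hmu0 : 0 ≤ (mis G H c : ℝ) / (2 * al r * N) := by positivity
  have hX0 : ∀ v, 0 ≤ (dg G H v : ℝ) / lam := fun v => by positivity
  have hwH : w ∉ H := mem_out.mp hw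
  have hsum0 : 0 ≤ ∑ v ∈ out H, (dg G H v : ℝ) / lam - (dg G H w : ℝ) / lam := by
    have := Finset.single_le_sum (f := fun v => (dg G H v : ℝ) / lam) (fun v _ => hX0 v) hw
    linarith only [this]
  have hmis1 : (mis G H c : ℝ) ≤ 2 * ε2 * N := by
    have h1 : (mis G H c : ℝ) / (2 * al r * N) ≤ ε2 := by linarith only [hrest, heu0, hsg0, hsum0]
    have h2 := (div_le_iff₀ hden).mp h1
    calc (mis G H c : ℝ) ≤ ε2 * (2 * al r * N) := h2
      _ = (2 * ε2 * N) * al r := by ring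
      _ ≤ (2 * ε2 * N) * 1 := mul_le_mul_of_nonneg_left hal2.le (by positivity)
      _ = _ := mul_one _
  have himb1 : imb H c ≤ 2 * ε2 * N := by
    have h1 : imb H c / (2 * al r * N) ≤ ε2 := by linarith only [hrest, heu0, hmu0, hsum0]
    have h2 := (div_le_iff₀ hden).mp h1
    calc imb H c ≤ ε2 * (2 * al r * N) := h2
      _ = (2 * ε2 * N) * al r := by ring
      _ ≤ (2 * ε2 * N) * 1 := mul_le_mul_of_nonneg_left hal2.le (by positivity)
      _ = _ := mul_one _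
  have heu1 : (eu G H : ℝ) ≤ 2 * ε2 * N := by
    have h1 : (eu G H : ℝ) / (2 * al r * N) ≤ ε2 := by linarith only [hrest, hsg0, hmu0, hsum0]
    have h2 := (div_le_iff₀ hden).mp h1
    calc (eu G H : ℝ) ≤ ε2 * (2 * al r * N) := h2
      _ = (2 * ε2 * N) * al r := by ring
      _ ≤ (2 * ε2 * N) * 1 := mul_le_mul_of_nonneg_left hal2.le (by positivity)
      _ = _ := mul_one _
  have hbal : ∀ i, |sz H c i - (N : ℝ) / r| ≤ δ / 16 * √(N : ℝ) := by
    intro i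
    apply bal_of_imb hcard (by positivity)
    refine himb1.trans ?_
    rw [mul_pow, Real.sq_sqrt hNpos.le]
    have : 2 * ε2 ≤ (δ / 16) ^ 2 := by
      have h1 : (δ / 16) ^ 2 = δ ^ 2 / 256 := by ring
      rw [h1]; linarith only [hε2b]
    exact mul_le_mul_of_nonneg_right this hNpos.le
  have hbal' : ∀ i, |sz H c i - (N : ℝ) / r| ≤ δ / 16 * N := by
    intro i
    refine (hbal i).trans (mul_le_mul_of_nonneg_left ?_ (by positivity))
    exact hSN
  -- the eigenvector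
  have hdgN : ∀ v, (dg G H v : ℝ) ≤ N := by
    intro v
    have h1 : (nb G H v).card ≤ H.card := Finset.card_le_card (fun u hu => (mem_nb.mp hu).1)
    rw [hcard] at h1
    unfold dg
    exact_mod_cast h1
  have hX2 : ∀ v, (dg G H v : ℝ) / lam ≤ 2 := by
    intro v
    rw [div_le_iff₀ hlampos]
    linarith only [hlamlo, hdgN v]
  have hvec : ∀ v, |x v * √(N : ℝ) - (dg G H v : ℝ) / lam| ≤ δ / 2 := by
    intro v
    have h1 := hHD.all v
    have hst : √t * √(N : ℝ) = √(t * N) := (Real.sqrt_mul hHD.tpos.le _).symm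
    have hSK : √(N : ℝ) * K2 = 2 * (K2 / √(N : ℝ)) * ((N : ℝ) / 2) := by
      have : 2 * (K2 / √(N : ℝ)) * ((N : ℝ) / 2) = K2 * N / √(N : ℝ) := by ring
      rw [this, eq_div_iff hSpos.ne']
      calc √(N : ℝ) * K2 * √(N : ℝ) = K2 * (√(N : ℝ) * √(N : ℝ)) := by ring
        _ = K2 * N := by rw [hSS]
    have e1 : x v * √(N : ℝ) - (dg G H v : ℝ) / lam =
        √(N : ℝ) * (lam * x v - √t * dg G H v) / lam +
          (√(t * N) - 1) * ((dg G H v : ℝ) / lam) := by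
      rw [← hst]; field_simp; ring
    have h2 : |√(N : ℝ) * (lam * x v - √t * dg G H v) / lam| ≤ 2 * (K2 / √(N : ℝ)) := by
      rw [abs_div, abs_mul, abs_of_pos hSpos, abs_of_pos hlampos, div_le_iff₀ hlampos]
      calc √(N : ℝ) * |lam * x v - √t * dg G H v| ≤ √(N : ℝ) * K2 :=
            mul_le_mul_of_nonneg_left h1 hSpos.le
        _ = 2 * (K2 / √(N : ℝ)) * ((N : ℝ) / 2) := hSK
        _ ≤ 2 * (K2 / √(N : ℝ)) * lam := mul_le_mul_of_nonneg_left hlamlo (by positivity)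
    have h3 : |(√(t * N) - 1) * ((dg G H v : ℝ) / lam)| ≤ 2 * (K1 / N) := by
      rw [abs_mul, abs_of_nonneg (hX0 v), mul_comm]
      apply mul_le_mul (hX2 v) _ (abs_nonneg _) (by norm_num)
      exact (sqrt_near (mul_nonneg hHD.tpos.le hNpos.le)).trans hr2
    rw [e1]
    refine (abs_add_le _ _).trans ?_
    linarith only [hq2, hq3, h2, h3]
  refine ⟨hpv, hcard, hwH, hHD.ind, ?_, ?_, ?_, ?_, ?_, ?_, ?_⟩
  · refine hmis1.trans ?_
    apply mul_le_mul_of_nonneg_right _ hNpos.le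
    linarith only [hε2pos, hε2a]
  · intro i
    refine (hbal' i).trans ?_
    apply mul_le_mul_of_nonneg_right _ hNpos.le
    linarith only [hδ]
  · -- degree of w
    have h1 := abs_le.mp hXw
    have h2 : (dg G H w : ℝ) = lam * ((dg G H w : ℝ) / lam) := by field_simp
    have h3 : (j : ℝ) = x0 * (al r * N) := by rw [hx0]; field_simp
    have h4 := hC w hwH
    have h5 := hX0 w
    have h6 : (dg G H w : ℝ) - j = (lam - al r * N) * ((dg G H w : ℝ) / lam) +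
        al r * N * ((dg G H w : ℝ) / lam - x0) := by
      rw [h3]; field_simp; ring
    rw [h6]
    refine (abs_add_le _ _).trans ?_
    rw [abs_mul, abs_mul]
    have h7 : |lam - al r * N| * |(dg G H w : ℝ) / lam| ≤ K1 * 1 := by
      apply mul_le_mul hr1 _ (abs_nonneg _) (by linarith only [hr1'])
      rw [abs_of_nonneg h5]; linarith only [h4]
    have h8 : |al r * (N : ℝ)| * |(dg G H w : ℝ) / lam - x0| ≤ (1 * N) * ε2 := by
      apply mul_le_mul _ hXw (abs_nonneg _) (by positivity)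
      rw [abs_of_nonneg (by positivity)]
      exact mul_le_mul_of_nonneg_right hal2.le hNpos.le
    linarith only [hN4', hNε, hr1', h7, h8]
  · -- the rest
    have h1 : ∑ v ∈ out H, (dg G H v : ℝ) - dg G H w =
        lam * (∑ v ∈ out H, (dg G H v : ℝ) / lam - (dg G H w : ℝ) / lam) := by
      rw [mul_sub, Finset.mul_sum]
      congr 1
      · apply Finset.sum_congr rfl; intro v _; field_simp
      · field_simp
    rw [h1]
    have h2 : lam * (∑ v ∈ out H, (dg G H v : ℝ) / lam - (dg G H w : ℝ) / lam) ≤ (2 * N) * ε2 := by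
      apply mul_le_mul hlamhi (by linarith only [hrest, heu0, hsg0, hmu0]) hsum0 (by positivity)
    linarith only [hNε, heu1, h2]
  · -- vertices of H
    intro v hv
    have h1 := hvec v
    have h2 := dg_near hHD.ind hv
    rw [hcard] at h2
    have h3 := abs_le.mp (hbal' (c v))
    have h4 : al r * (N : ℝ) = N - N / r := by unfold al; ring
    have h5 : |(dg G H v : ℝ) / lam - 1| ≤ δ / 2 := by
      have e2 : (dg G H v : ℝ) / lam - 1 = ((dg G H v : ℝ) - lam) / lam := by field_simp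
      rw [e2, abs_div, abs_of_pos hlampos, div_le_iff₀ hlampos, abs_le]
      have hδl : δ / 2 * ((N : ℝ) / 2) ≤ δ / 2 * lam :=
        mul_le_mul_of_nonneg_left hlamlo (by positivity)
      constructor
      · linarith only [hN4', hNε, hmis1, h4, hδl, hr1'.1, hr1'.2, h2.1, h2.2, h3.1, h3.2]
      · linarith only [hN4', h4, hδl, hr1'.1, hr1'.2, h2.1, h2.2, h3.1, h3.2]
    have h6 : x v * √(N : ℝ) - 1 = (x v * √(N : ℝ) - (dg G H v : ℝ) / lam) +
        ((dg G H v : ℝ) / lam - 1) := by ring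
    rw [h6]
    refine (abs_add_le _ _).trans ?_
    linarith only [h1, h5]
  · rw [← hx0]
    have h1 := hvec w
    have h6 : x w * √(N : ℝ) - x0 = (x w * √(N : ℝ) - (dg G H w : ℝ) / lam) +
        ((dg G H w : ℝ) / lam - x0) := by ring
    rw [h6]
    refine (abs_add_le _ _).trans ?_
    linarith only [hε2pos, hε2a, hXw, h1]
  · intro v hv hvw
    have h1 := abs_le.mp (hvec v)
    have h2 : (dg G H v : ℝ) / lam ≤
        ∑ v ∈ out H, (dg G H v : ℝ) / lam - (dg G H w : ℝ) / lam := by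
      classical
      have h3 : ({v, w} : Finset V) ⊆ out H := by
        intro u hu
        rw [Finset.mem_insert, Finset.mem_singleton] at hu
        rcases hu with rfl | rfl
        · exact mem_out.mpr hv
        · exact hw
      have h4 := Finset.sum_le_sum_of_subset_of_nonneg h3
        (fun u _ _ => hX0 u) (f := fun v => (dg G H v : ℝ) / lam)
      rw [Finset.sum_pair hvw] at h4
      linarith only [h4]
    linarith only [hε2pos, hε2a, hrest, heu0, hsg0, hmu0, h2, h1.2]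


/-- balanced classes from the imbalance -/
lemma bal2 {r : ℕ} (hr : 3 ≤ r) {V : Type} [Fintype V] {c : V → Fin r} {H : Finset V} {N M' : ℕ}
    (hcard : H.card = M') (hNM : N ≤ M') (hNpos : (0 : ℝ) < N)
    (himb : imb H c / (2 * al r * N) ≤ 2) :
    ∀ i, |sz H c i - (M' : ℝ) / r| ≤ 2 * √(M' : ℝ) := by
  have hal1 := al_ge hr
  have hal2 := al_lt hr
  have halpos : 0 < al r := by linarith only [hal1]
  have hden : 0 < 2 * al r * N := by positivity
  have hNM' : (N : ℝ) ≤ M' := by exact_mod_cast hNM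
  have hMpos : (0 : ℝ) < M' := by linarith only [hNpos, hNM']
  have himb1 : imb H c ≤ 2 * 2 * N := by
    refine ((div_le_iff₀ hden).mp himb).trans ?_
    calc 2 * (2 * al r * (N : ℝ)) = (2 * 2 * N) * al r := by ring
      _ ≤ (2 * 2 * N) * 1 := mul_le_mul_of_nonneg_left hal2.le (by positivity)
      _ = _ := mul_one _
  intro i
  apply bal_of_imb hcard (by positivity)
  refine himb1.trans ?_
  rw [mul_pow, Real.sq_sqrt hMpos.le]
  linarith only [hNM']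

/-- the first alternative (small `j`) and the second one -/
lemma c0_of {r : ℕ} (hr : 3 ≤ r) {V : Type} [Fintype V] {G : SimpleGraph V} {x : V → ℝ}
    {lam t η K2 δ M : ℝ} {c : V → Fin r} {H : Finset V} {N M' : ℕ}
    (hHD : HD r η K2 G x lam t c H) (hcard : H.card = M') (hNM : N ≤ M') (hδ : 0 < δ)
    (hM0 : 0 ≤ M) (hM : 4 * M ≤ δ) (hN1 : (1 : ℝ) ≤ N)
    (hN : (2 / δ) ^ 2 ≤ (N : ℝ)) (hlam0 : 0 < lam) (hlamhi : lam ≤ 2 * N)
    (hsum : ∑ v ∈ out H, (dg G H v : ℝ) / lam ≤ M)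
    (heu : (eu G H : ℝ) / (2 * al r * N) ≤ M)
    (himb : imb H c / (2 * al r * N) ≤ 2)
    (hmis : (mis G H c : ℝ) / (2 * al r * N) ≤ M) :
    C0 r δ M' G c H ∧ ∀ i, |sz H c i - (M' : ℝ) / r| ≤ 2 * √(M' : ℝ) := by
  have hal1 := al_ge hr
  have hal2 := al_lt hr
  have halpos : 0 < al r := by linarith only [hal1]
  have hNpos : (0 : ℝ) < N := by linarith only [hlam0, hlamhi]
  have hden : 0 < 2 * al r * N := by positivity
  have hNM' : (N : ℝ) ≤ M' := by exact_mod_cast hNM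
  have hMpos : (0 : ℝ) < M' := by linarith only [hNpos, hNM']
  have hδN : δ * (N : ℝ) ≤ δ * M' := mul_le_mul_of_nonneg_left hNM' hδ.le
  have hMN : 4 * M * (N : ℝ) ≤ δ * N := mul_le_mul_of_nonneg_right hM hNpos.le
  have h2 : ∀ y : ℝ, 0 ≤ y → y * (2 * al r * N) ≤ 2 * y * N := by
    intro y hy
    calc y * (2 * al r * N) = (2 * y * N) * al r := by ring
      _ ≤ (2 * y * N) * 1 := mul_le_mul_of_nonneg_left hal2.le (by positivity)
      _ = _ := mul_one _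
  have hmis1 : (mis G H c : ℝ) ≤ 2 * M * N := ((div_le_iff₀ hden).mp hmis).trans (h2 M hM0)
  have heu1 : (eu G H : ℝ) ≤ 2 * M * N := ((div_le_iff₀ hden).mp heu).trans (h2 M hM0)
  have hbal := bal2 hr hcard hNM hNpos himb
  refine ⟨⟨hcard, hHD.ind, ?_, ?_, ?_⟩, hbal⟩
  · have : 0 ≤ M * (N : ℝ) := by positivity
    linarith only [hδN, hMN, hmis1]
  · intro i
    exact (hbal i).trans (sqrt_le_mul hδ hMpos (hN.trans hNM'))
  · rw [TRF.eo_dg]
    have h1 : ∑ v ∈ out H, (dg G H v : ℝ) = lam * ∑ v ∈ out H, (dg G H v : ℝ) / lam := by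
      rw [Finset.mul_sum]
      apply Finset.sum_congr rfl; intro v _; field_simp
    have h3 : lam * ∑ v ∈ out H, (dg G H v : ℝ) / lam ≤ (2 * N) * M := by
      apply mul_le_mul hlamhi hsum (Finset.sum_nonneg fun v _ => by positivity) (by positivity)
    rw [h1]
    linarith only [hδN, hMN, heu1, h3]

/-- real inequalities for small `j` -/
lemma small_case {S F e sg mu κ κ' η x0 ε' m0 μ q cost h N : ℝ} (hη0 : 0 < η) (hη1 : η ≤ 1 / 24)
    (hκ3 : 1 / 3 ≤ κ) (hκκ' : κ < κ') (hm0 : 0 < m0) (hm01 : m0 ≤ 1) (hε' : ε' = η * m0 / 64)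
    (hS0 : 0 ≤ S) (he0 : 0 ≤ e) (hsg0 : 0 ≤ sg) (hmu0 : 0 ≤ mu)
    (hFS : η / 2 * S ≤ F) (hx : 0 ≤ x0) (hx1 : x0 ≤ 1) (hxs : x0 < ε') (hμ : μ ≤ ε')
    (hq : q ≤ μ / 2)
    (hcost : cost ≤ (1 - x0) * min x0 κ + μ / 2)
    (hB : F + e + κ * sg + κ' * mu ≤ cost + q)
    (hA : |S + e - sg - mu - (N - h) - x0| ≤ q) :
    S ≤ m0 / 16 ∧ e ≤ m0 / 16 ∧ sg ≤ m0 / 16 ∧ mu ≤ m0 / 16 ∧ h < N + 1 ∧ N < h + 1 := by
  have h1 : (1 - x0) * min x0 κ ≤ ε' := by
    calc (1 - x0) * min x0 κ ≤ (1 - x0) * x0 :=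
          mul_le_mul_of_nonneg_left (min_le_left _ _) (by linarith only [hx1])
      _ ≤ x0 := by nlinarith
      _ ≤ ε' := hxs.le
  have h2 : F + e + κ * sg + κ' * mu ≤ 2 * ε' := by linarith only [hμ, hq, hcost, hB, h1]
  have g1 : 0 ≤ κ * sg := mul_nonneg (by linarith only [hκ3]) hsg0
  have g2 : 0 ≤ κ' * mu := mul_nonneg (by linarith only [hκ3, hκκ']) hmu0
  have g3 : 0 ≤ η / 2 * S := by positivity
  have g4 : 1 / 3 * sg ≤ κ * sg := mul_le_mul_of_nonneg_right hκ3 hsg0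
  have g5 : 1 / 3 * mu ≤ κ' * mu := mul_le_mul_of_nonneg_right (by linarith only [hκ3, hκκ']) hmu0
  have b1 : S ≤ m0 / 16 := by
    have h3 : η / 2 * S ≤ η / 2 * (m0 / 16) := by
      have : η / 2 * (m0 / 16) = 2 * ε' := by rw [hε']; ring
      rw [this]; linarith only [he0, hmu0, hFS, h2, g1, g5]
    exact le_of_mul_le_mul_left h3 (by positivity)
  have hε'' : ε' ≤ m0 / 1536 := by
    rw [hε']
    have := mul_le_mul_of_nonneg_right hη1 hm0.le
    linarith only [this]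
  have b2 : e ≤ m0 / 16 := by linarith only [he0, hFS, h2, g1, g2, g3, hε'']
  have b3 : sg ≤ m0 / 16 := by linarith only [he0, hFS, h2, g1, g2, g3, g4, hε'']
  have b4 : mu ≤ m0 / 16 := by linarith only [he0, hFS, h2, g1, g2, g3, g5, hε'']
  have hA' := abs_le.mp hA
  exact ⟨b1, b2, b3, b4, by linarith only [hm01, hS0, he0, hxs, hμ, hq, hε'', b3, b4, hA', hA'.1],
      by linarith only [hm01, hsg0, hmu0, hx, hμ, hq, b1, hε'', b2, hA', hA'.2]⟩

/-- the lower end of the range -/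
lemma range_lo {ε' a N x0 b : ℝ} (hε : 0 < ε') (ha : 2 / 3 ≤ a) (hN : 0 < N)
    (hxs : ε' ≤ x0) : min (ε' * (2 / 3)) b * N ≤ x0 * (a * N) := by
  calc min (ε' * (2 / 3)) b * N ≤ (ε' * (2 / 3)) * N :=
        mul_le_mul_of_nonneg_right (min_le_left _ _) hN.le
    _ = ε' * (2 / 3 * N) := by ring
    _ ≤ ε' * (a * N) := mul_le_mul_of_nonneg_left (mul_le_mul_of_nonneg_right ha hN.le) hε.le
    _ ≤ x0 * (a * N) := mul_le_mul_of_nonneg_right hxs (by positivity)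

/-- the upper end of the range -/
lemma range_hi {r a N x0 b κ ε2 : ℝ} (hr : 3 ≤ r) (ha : a = 1 - 1 / r) (hκ : κ = 1 - 2 / r)
    (hN : 0 < N) (hε2 : 0 < ε2) (hε2d : ε2 ≤ 1 / (6 * r)) (hx : x0 ≤ κ + ε2) :
    x0 * (a * N) ≤ (1 - 2 / r - min b (1 / (6 * r))) * N := by
  have h1r : 1 / r ≤ 1 / 3 := one_div_le_one_div_of_le (by norm_num) hr
  have h1r0 : 0 < 1 / r := by positivity
  have h2r : 2 / r = 2 * (1 / r) := by ring
  have ha0 : 0 < a := by rw [ha]; linarith only [h1r]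
  have ha1 : a ≤ 1 := by rw [ha]; linarith only [h1r0]
  have hκ3 : 1 / 3 ≤ κ := by rw [hκ, h2r]; linarith only [h1r]
  have h1 : min b (1 / (6 * r)) ≤ 1 / (6 * r) := min_le_right _ _
  have h2 : x0 * (a * N) ≤ (κ + ε2) * (a * N) := mul_le_mul_of_nonneg_right hx (by positivity)
  have h3 : (κ + ε2) * (a * N) ≤ (1 - 2 / r - 1 / (6 * r)) * N := by
    have h4 : (κ + ε2) * (a * N) = ((κ + ε2) * a) * N := by ring
    rw [h4]
    apply mul_le_mul_of_nonneg_right _ hN.le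
    have h5 : ε2 * a ≤ ε2 := mul_le_of_le_one_right hε2.le ha1
    have h6 : κ * a = κ - κ * (1 / r) := by rw [ha]; ring
    have h7 : 1 / 3 * (1 / r) ≤ κ * (1 / r) := mul_le_mul_of_nonneg_right hκ3 h1r0.le
    have h9 : 1 / (6 * r) = 1 / 6 * (1 / r) := by field_simp
    rw [h9] at hε2d ⊢
    rw [add_mul, h6, ← hκ]
    linarith only [hε2d, h5, h7]
  have h4 : (1 - 2 / r - 1 / (6 * r)) * N ≤ (1 - 2 / r - min b (1 / (6 * r))) * N :=
    mul_le_mul_of_nonneg_right (by linarith only [h1]) hN.le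
  exact h2.trans (h3.trans h4)

/-- consequences of a large `N` -/
lemma big_of {L K1 K2 a b c d N : ℝ} (p1 : 0 ≤ a) (p2 : 0 ≤ b) (p3 : 0 ≤ c) (p4 : 0 ≤ d)
    (hK1 : 1 ≤ K1) (hK2 : 1 ≤ K2) (hL : L = 1 + 2 * K2 + 6 * K1 + a + b + c + d) (hN : L ≤ N) :
    1 ≤ N ∧ 2 * K2 ≤ N ∧ 6 * K1 ≤ N ∧ a ≤ N ∧ d ≤ N ∧ b ≤ N ∧ c ≤ N := by
  refine ⟨?_, ?_, ?_, ?_, ?_, ?_, ?_⟩ <;> linarith only [p1, p2, p3, p4, hK1, hK2, hL, hN]

lemma swap_div {K S m : ℝ} (k : ℝ) (hk : 0 < k) (hS : 0 < S) (hm : 0 < m)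
    (h : k * K / m ≤ S) : K / S ≤ m / k := by
  have h1 := (div_le_iff₀ hm).mp h
  rw [div_le_div_iff₀ hS hk]
  linarith only [h1]

lemma kt_le {K t N : ℝ} (hK : 1 ≤ K) (hN : 0 < N) (ht : t ≤ 2 / N) (h : 2 * K ≤ N) :
    K * t ≤ 1 := by
  calc K * t ≤ K * (2 / N) := mul_le_mul_of_nonneg_left ht (by linarith only [hK])
    _ = 2 * K / N := by ring
    _ ≤ 1 := (div_le_one hN).mpr h

lemma rest_case {S e sg mu ε2 m0 x0 q μ N : ℝ} (h : S + e + mu ≤ ε2) (hε : ε2 ≤ m0 / 8)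
    (hS : 0 ≤ S) (he : 0 ≤ e) (hmu : 0 ≤ mu) (hm : m0 ≤ 1) (hx : 0 ≤ x0) (hq : q ≤ μ / 2)
    (hμ : μ ≤ 1 / 2) (h1 : -q ≤ S + e - sg - mu - (N - (N + 1)) - x0) :
    S ≤ m0 / 8 ∧ e ≤ m0 / 8 ∧ sg ≤ 2 ∧ mu ≤ m0 / 8 := by
  refine ⟨?_, ?_, ?_, ?_⟩ <;> linarith only [h, hε, he, hmu, hS, hm, hx, hq, hμ, h1]

lemma small_j {x0 δ a N : ℝ} (hδ : 0 < δ) (haN : 0 < a * N) (ha : a < 1) (hN : 0 < N)
    (h : x0 ≤ δ) : x0 * (a * N) ≤ δ * N := by
  calc x0 * (a * N) ≤ δ * (a * N) := mul_le_mul_of_nonneg_right h haN.le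
    _ ≤ δ * (1 * N) := mul_le_mul_of_nonneg_left (mul_le_mul_of_nonneg_right ha.le hN.le) hδ.le
    _ = δ * N := by ring

end FIN3


open FINA FIN3 in
set_option maxHeartbeats 4000000 in
theorem blk_FIN3 (hREL : Stmt_REL) (hMKC : Stmt_MKC) (hHSET : Stmt_HSET) (hACC : Stmt_ACC)
    (hOPT3 : Stmt_OPT3) : Stmt_FIN3 := by
  intro r δ hr hδ
  have hr' : (3 : ℝ) ≤ r := by exact_mod_cast hr
  have hrpos : (0 : ℝ) < r := by linarith only [hr']
  have hal1 := al_ge hr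
  have hal2 := al_lt hr
  have halpos : 0 < al r := by linarith only [hal1]
  obtain ⟨η, hη⟩ : ∃ η : ℝ, η = 1 / (8 * r) := ⟨_, rfl⟩
  have hη0 : 0 < η := by rw [hη]; positivity
  have hη1 : η ≤ 1 / 24 := by
    rw [hη]; apply one_div_le_one_div_of_le (by norm_num); linarith only [hr']
  obtain ⟨κ, hκ⟩ : ∃ κ : ℝ, κ = 1 - 2 / (r : ℝ) := ⟨_, rfl⟩
  obtain ⟨κ', hκ'⟩ : ∃ κ' : ℝ, κ' = 2 * (1 - η) ^ 2 - 1 := ⟨_, rfl⟩
  have h1r : 1 / (r : ℝ) ≤ 1 / 3 := one_div_le_one_div_of_le (by norm_num) hr'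
  have h1r0 : 0 < 1 / (r : ℝ) := by positivity
  have h2r : 2 / (r : ℝ) = 2 * (1 / r) := by ring
  have hκ3 : 1 / 3 ≤ κ := by rw [hκ, h2r]; linarith only [h1r]
  have hκ1 : κ ≤ 1 := by rw [hκ, h2r]; linarith only [h1r0]
  have hηr : η = 1 / (r : ℝ) / 8 := by rw [hη]; field_simp
  have hκκ' : κ < κ' := by
    rw [hκ, hκ', h2r, hηr]
    linarith only [sq_nonneg (1 / (r : ℝ)), h1r0]
  have hκ'1 : κ' ≤ 1 := by
    have hη2 : η * η ≤ 1 * η := mul_le_mul_of_nonneg_right (by linarith only [hη1]) hη0.le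
    rw [hκ']
    linarith only [hη2, hη0]
  obtain ⟨m0, hm0⟩ : ∃ m0 : ℝ, m0 = min δ 1 := ⟨_, rfl⟩
  have hm0pos : 0 < m0 := by rw [hm0]; exact lt_min hδ one_pos
  have hm0δ : m0 ≤ δ := by rw [hm0]; exact min_le_left _ _
  have hm01 : m0 ≤ 1 := by rw [hm0]; exact min_le_right _ _
  obtain ⟨ε', hε'⟩ : ∃ ε' : ℝ, ε' = η * m0 / 64 := ⟨_, rfl⟩
  have hε'pos : 0 < ε' := by rw [hε']; positivity
  have hε'm : ε' ≤ m0 / 64 := by
    rw [hε']
    have := mul_le_mul_of_nonneg_right hη1 hm0pos.le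
    linarith only [this, hm0pos]
  refine ⟨min (ε' * (2 / 3)) (1 / (6 * r)), lt_min (by positivity) (by positivity), ?_⟩
  intro δ' hδ'
  obtain ⟨D, Na, hD, hmk⟩ := hMKC r 2 hr (by norm_num)
  obtain ⟨K1, Nb, hK1, hrel⟩ := hREL r D hr hD
  obtain ⟨K2, hK2, hhs⟩ := hHSET r D η hr hD hη0 hη.le
  obtain ⟨K3, Nc, hK3, hacc⟩ := hACC r D η K2 hr hD hη0 hη.le hK2
  obtain ⟨ε2, hε2⟩ : ∃ ε2 : ℝ, ε2 = min (min (δ' / 32) (δ' ^ 2 / 512)) (min (m0 / 8) (1 / (6 * r)))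
    := ⟨_, rfl⟩
  have hε2pos : 0 < ε2 := by
    rw [hε2]
    exact lt_min (lt_min (by positivity) (by positivity)) (lt_min (by positivity) (by positivity))
  have hε2a : ε2 ≤ δ' / 32 := by
    rw [hε2]; exact (min_le_left _ _).trans (min_le_left _ _)
  have hε2b : ε2 ≤ δ' ^ 2 / 512 := by
    rw [hε2]; exact (min_le_left _ _).trans (min_le_right _ _)
  have hε2c : ε2 ≤ m0 / 8 := by
    rw [hε2]; exact (min_le_right _ _).trans (min_le_left _ _)
  have hε2d : ε2 ≤ 1 / (6 * r) := by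
    rw [hε2]; exact (min_le_right _ _).trans (min_le_right _ _)
  obtain ⟨δ2, hδ2, hopt⟩ := hOPT3 κ κ' (η / 2) ε' ε2 (by linarith only [hκ3]) hκκ' hκ'1
    (half_pos hη0) (by linarith only [hη1]) hε'pos hε2pos
  obtain ⟨μ, hμ⟩ : ∃ μ : ℝ, μ = min (min δ2 ε') (1 / 2) := ⟨_, rfl⟩
  have hμpos : 0 < μ := by rw [hμ]; exact lt_min (lt_min hδ2 hε'pos) (by norm_num)
  have hμ1 : μ ≤ δ2 := by rw [hμ]; exact (min_le_left _ _).trans (min_le_left _ _)
  have hμ2 : μ ≤ ε' := by rw [hμ]; exact (min_le_left _ _).trans (min_le_right _ _)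
  have hμ3 : μ ≤ 1 / 2 := by rw [hμ]; exact min_le_right _ _
  obtain ⟨L, hL⟩ : ∃ L : ℝ, L = 1 + 2 * K2 + 6 * K1 + 8 * K1 / δ' + (2 * K3 / μ) ^ 2 +
    (8 * K2 / δ') ^ 2 + (2 / δ) ^ 2 := ⟨_, rfl⟩
  obtain ⟨Nd, hNd⟩ := exists_nat_ge L
  refine ⟨μ / 4, max (max Na Nb) (max Nc Nd), by positivity, ?_⟩
  intro N hN j hjN V _ G x lam hfree hpv hpE hlam
  have hNa : Na ≤ N := (le_max_left _ _).trans ((le_max_left _ _).trans hN)
  have hNb : Nb ≤ N := (le_max_right _ _).trans ((le_max_left _ _).trans hN)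
  have hNc : Nc ≤ N := (le_max_left _ _).trans ((le_max_right _ _).trans hN)
  have hNd' : Nd ≤ N := (le_max_right _ _).trans ((le_max_right _ _).trans hN)
  have hNL : L ≤ (N : ℝ) := hNd.trans (by exact_mod_cast hNd')
  have p1 : 0 ≤ 8 * K1 / δ' := by positivity
  have p2 : 0 ≤ (2 * K3 / μ) ^ 2 := by positivity
  have p3 : 0 ≤ (8 * K2 / δ') ^ 2 := by positivity
  have p4 : 0 ≤ (2 / δ) ^ 2 := by positivity
  obtain ⟨hN1, hN2, hN3, hN4, hN5, hN6, hN7⟩ := big_of p1 p2 p3 p4 hK1 hK2 hL hNL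
  have hNpos : (0 : ℝ) < N := one_pos.trans_le hN1
  have hN4' : 8 * K1 ≤ (N : ℝ) * δ' := (div_le_iff₀ hδ').mp hN4
  have hSpos : 0 < √(N : ℝ) := Real.sqrt_pos.mpr hNpos
  have hS1 : 2 * K3 / μ ≤ √(N : ℝ) := Real.le_sqrt_of_sq_le hN6
  have hS2 : 8 * K2 / δ' ≤ √(N : ℝ) := Real.le_sqrt_of_sq_le hN7
  have hq1 : K3 / √(N : ℝ) ≤ μ / 2 := swap_div 2 (by norm_num) hSpos hμpos hS1
  have hq2 : K2 / √(N : ℝ) ≤ δ' / 8 := swap_div 8 (by norm_num) hSpos hδ' hS2
  have hq3 : K1 / (N : ℝ) ≤ δ' / 8 := by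
    refine (div_le_iff₀ hNpos).mpr ?_
    linarith only [hN4']
  obtain ⟨x0, hx0⟩ : ∃ x0 : ℝ, x0 = (j : ℝ) / (al r * N) := ⟨_, rfl⟩
  have haN : 0 < al r * N := by positivity
  have hx0pos : 0 ≤ x0 := by rw [hx0]; positivity
  have hx01 : x0 ≤ 1 := by rw [hx0, div_le_one haN]; exact hjN
  have hj : (j : ℝ) = x0 * (al r * N) := by rw [hx0]; field_simp
  rw [← hx0, ← hκ] at hlam
  have hmin1 := UPX.min_bound (κ := κ) hx0pos hx01
  -- context
  have hlam1 : al r * N - 2 ≤ lam := by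
    have h1 : (0 : ℝ) ≤ (j : ℝ) / N := by positivity
    have h2 : al r * ((1 - x0) * min x0 κ) ≤ al r * 1 := mul_le_mul_of_nonneg_left hmin1 halpos.le
    linarith only [h1, h2, hlam, hμ3, hal2]
  have hctx := hmk N hNa j hjN V G x lam hfree hpv hpE hlam1
  obtain ⟨t, ht⟩ : ∃ t : ℝ, t = lam / pE G := ⟨_, rfl⟩
  rw [← ht] at hctx
  obtain ⟨hr1, hr2⟩ := hrel N hNb j hjN V G x lam t hctx hpE
  have hr1' := abs_le.mp hr1
  have hr2' := abs_le.mp hr2
  have hK1N : K1 / (N : ℝ) ≤ 1 := (div_le_one hNpos).mpr (by linarith only [hN3, hK1])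
  have htN : t * N ≤ 2 := by linarith only [hr2'.2, hK1N]
  have ht2 : t ≤ 2 / N := (le_div_iff₀ hNpos).mpr htN
  have hKt : K2 * t ≤ 1 := kt_le hK2 hNpos ht2 hN2
  obtain ⟨c, H, hHD⟩ := hhs V G x lam t hctx hKt
  obtain ⟨hA, hB, hC⟩ := hacc N hNc j hjN V G x lam t c H hctx hHD hpE
  rw [← hx0] at hA
  rw [← hκ, ← hκ'] at hB
  have hlamlo : (N : ℝ) / 2 ≤ lam := by
    have h1 : al r * N ≥ 2 / 3 * N := mul_le_mul_of_nonneg_right hal1 hNpos.le
    linarith only [h1, hr1'.1, hN3]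
  have hlampos : 0 < lam := by linarith only [hlamlo, hNpos]
  have hlamhi : lam ≤ 2 * N := by
    have h1 : al r * N ≤ 1 * N := mul_le_mul_of_nonneg_right hal2.le hNpos.le
    linarith only [h1, hr1'.2, hN3, hK1]
  have hden : 0 < 2 * al r * N := by positivity
  have himb0 : 0 ≤ imb H c := Finset.sum_nonneg fun _ _ => sq_nonneg _
  have hX0 : ∀ v, 0 ≤ (dg G H v : ℝ) / lam := fun v => by positivity
  have hcost : (al r * N + j / N - lam) / al r ≤ (1 - x0) * min x0 κ + μ / 2 := by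
    refine (div_le_iff₀ halpos).mpr ?_
    have h6 : μ / 2 * (2 / 3) ≤ μ / 2 * al r := mul_le_mul_of_nonneg_left hal1 (half_pos hμpos).le
    have h7 : ((1 - x0) * min x0 κ + μ / 2) * al r =
      al r * ((1 - x0) * min x0 κ) + μ / 2 * al r := by rw [add_mul, mul_comm (al r)]
    rw [h7]
    linarith only [h6, hlam, hμpos]
  obtain ⟨e, he⟩ : ∃ e : ℝ, e = (eu G H : ℝ) / (2 * al r * N) := ⟨_, rfl⟩
  obtain ⟨sg, hsg⟩ : ∃ sg : ℝ, sg = imb H c / (2 * al r * N) := ⟨_, rfl⟩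
  obtain ⟨mu, hmu⟩ : ∃ mu : ℝ, mu = (mis G H c : ℝ) / (2 * al r * N) := ⟨_, rfl⟩
  have he0 : 0 ≤ e := by rw [he]; positivity
  have hsg0 : 0 ≤ sg := by rw [hsg]; exact div_nonneg himb0 hden.le
  have hmu0 : 0 ≤ mu := by rw [hmu]; positivity
  rw [← he, ← hsg, ← hmu] at hA hB
  obtain ⟨S, hS⟩ : ∃ S : ℝ, S = ∑ v ∈ out H, (dg G H v : ℝ) / lam := ⟨_, rfl⟩
  obtain ⟨F, hF⟩ : ∃ F : ℝ, F = ∑ v ∈ out H, (dg G H v : ℝ) / lam * (1 - dg G H v / lam) :=
    ⟨_, rfl⟩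
  have hS0 : 0 ≤ S := by rw [hS]; exact Finset.sum_nonneg fun v _ => hX0 v
  have hFS : η / 2 * S ≤ F := by
    rw [hS, hF, Finset.mul_sum]
    refine Finset.sum_le_sum fun v hv => ?_
    have h1 := hC v (mem_out.mp hv)
    have h2 := hX0 v
    rw [mul_comm]
    exact mul_le_mul_of_nonneg_left (by linarith only [h1]) h2
  rcases lt_or_ge x0 ε' with hxs | hxs
  · -- small `j`
    left
    rw [← hF] at hB
    rw [← hS] at hA
    obtain ⟨b1, b2, b3, b4, k2, k1⟩ := small_case hη0 hη1 hκ3 hκκ' hm0pos hm01 hε' hS0 he0 hsg0 hmu0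
      hFS hx0pos hx01 hxs hμ2 hq1 hcost hB hA
    have hk : H.card = N := by
      have k3 : N < H.card + 1 := by exact_mod_cast k1
      have k4 : H.card < N + 1 := by exact_mod_cast k2
      omega
    have m1 : 0 ≤ m0 / 16 := by linarith only [hm0pos]
    have m2 : 4 * (m0 / 16) ≤ δ := by linarith only [hm0δ, hm0pos]
    have m3 : sg ≤ 2 := by linarith only [b3, hm01]
    have m4 : x0 ≤ δ := by linarith only [hxs, hε'm, hm0δ, hm0pos]
    rw [hS] at b1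
    rw [he] at b2
    rw [hsg] at m3
    rw [hmu] at b4
    obtain ⟨q1, q2⟩ := c0_of hr hHD hk le_rfl hδ m1 m2 hN1 hN5 hlampos hlamhi b1 b2 m3 b4
    exact ⟨c, H, q1, q2, hj.trans_le (small_j hδ haN hal2 hNpos m4)⟩
  · right
    have hμδ : μ / 2 ≤ δ2 := by linarith only [hμ1, hμpos]
    have hcost' : (al r * N + j / N - lam) / al r + K3 / √(N : ℝ) ≤
        (1 - x0) * min x0 κ + δ2 := by
      linarith only [hcost, hq1, hμ1]
    have hopt' := hopt V (out H) (fun v => (dg G H v : ℝ) / lam) e sg mu x0 ((N : ℤ) - H.card)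
      (fun v hv => ⟨hX0 v, hC v (mem_out.mp hv)⟩) he0 hsg0 hmu0 hxs hx01
      (by push_cast; exact hA.trans (hq1.trans hμδ)) (hB.trans hcost')
    rcases hopt' with ⟨hk, hxκ, w, hw, hXw, hrest⟩ | ⟨hk, hxκ, hrest⟩
    · right
      have hcard : H.card = N := by
        have : (N : ℤ) = H.card := sub_eq_zero.mp hk
        exact_mod_cast this.symm
      have hw0 : 0 ≤ S - (dg G H w : ℝ) / lam := by
        rw [hS]
        have := Finset.single_le_sum (f := fun v => (dg G H v : ℝ) / lam) (fun v _ => hX0 v) hw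
        exact sub_nonneg.mpr this
      refine ⟨⟨?_, ?_⟩, c, H, w, ?_, ?_⟩
      · rw [hj]
        exact range_lo hε'pos hal1 hNpos hxs
      · rw [hj]
        exact range_hi hr' rfl hκ hNpos hε2pos hε2d hxκ
      · refine fd_of (ε2 := ε2) (x0 := x0) hr hpv hHD hcard hδ' hε2pos hε2a hε2b hN1 hN4' hK1 hK2
          hq2 hq3 hx0 hr1 hr2 hlamlo hlamhi
          (fun v hv => (hC v hv).trans (by linarith only [hη0])) hw hXw ?_
        rw [← he, ← hsg, ← hmu]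
        exact hrest
      · apply bal2 hr hcard le_rfl hNpos
        rw [← hsg]
        rw [← hS] at hrest
        linarith only [hrest, hw0, he0, hmu0, hε2c, hm01]
    · left
      have hcard : H.card = N + 1 := by
        have : (N : ℤ) + 1 = H.card := by linarith only [hk]
        exact_mod_cast this.symm
      rw [← hS] at hrest hA
      have hA' := abs_le.mp hA
      have hc' : (H.card : ℝ) = N + 1 := by rw [hcard]; push_cast; ring
      rw [hc'] at hA'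
      obtain ⟨n1, n2, n3, n4⟩ := rest_case hrest hε2c hS0 he0 hmu0 hm01 hx0pos hq1 hμ3 hA'.1
      have m1 : 0 ≤ m0 / 8 := by linarith only [hm0pos]
      have m2 : 4 * (m0 / 8) ≤ δ := by linarith only [hm0δ, hm0pos]
      rw [hS] at n1
      rw [he] at n2
      rw [hsg] at n3
      rw [hmu] at n4
      obtain ⟨q1, q2⟩ := c0_of hr hHD hcard (Nat.le_succ N) hδ m1 m2 hN1 hN5 hlampos hlamhi n1 n2
        n3 n4
      refine ⟨c, H, q1, ?_, ?_⟩
      · intro i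
        have := q2 i
        push_cast at this
        exact this
      · rw [hj, ← hκ]
        exact mul_le_mul_of_nonneg_right (by linarith only [hxκ, hε2c, hm0δ, hm0pos]) haN.le

end Pool.Agent.Work.MP_5532fa_up
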