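import Pool.Agent.Work.MP_5532fa_up.Interface2
import Pool.Agent.Work.MP_5532fa_up.EID
import Pool.Agent.Work.MP_5532fa_up.EDG

/-!
# MP_5532fa_up, second round, block FLAT (helper23)
-/

set_option autoImplicit false

open Finset

namespace Pool.Agent.Work.MP_5532fa_up

open MP5532fa (specRad qf pE)

namespace FLAT

variable {V : Type} [Fintype V] {r : ℕ}

/-- sum of `x` over the missing neighbours of `v` -/
noncomputable def ms (G : SimpleGraph V) (H : Finset V) (c : V → Fin r) (x : V → ℝ) (v : V) : ℝ :=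
  ∑ u ∈ H, chi (c v ≠ c u ∧ ¬ G.Adj v u) * x u

/-- sum of `x` over the neighbours of `v` outside `H` -/
noncomputable def ot (G : SimpleGraph V) (H : Finset V) (x : V → ℝ) (v : V) : ℝ :=
  ∑ u ∈ out H, ad G v u * x u

theorem row {G : SimpleGraph V} {x : V → ℝ} {lam : ℝ} {H : Finset V} {c : V → Fin r}
    (hpv : PV G x lam) (hind : ∀ u ∈ H, ∀ v ∈ H, c u = c v → ¬ G.Adj u v) {v : V} (hv : v ∈ H) :
    lam * x v = ∑ u ∈ H, x u - cs x H c (c v) - ms G H c x v + ot G H x v := by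
  rw [← hpv.eig v, EID.sum_split H]
  unfold ot ms cs cl
  rw [Finset.sum_filter, ← Finset.sum_sub_distrib, ← Finset.sum_sub_distrib]
  congr 1
  refine Finset.sum_congr rfl fun u hu => ?_
  by_cases h1 : c u = c v
  · have h2 : ¬ G.Adj v u := fun h => hind v hv u hu h1.symm h
    rw [if_pos h1, chi_neg (fun h => h.1 h1.symm)]
    unfold ad
    rw [chi_neg h2]
    ring
  · rw [if_neg h1]
    by_cases h2 : G.Adj v u
    · rw [chi_neg (fun h => h.2 h2)]
      unfold ad
      rw [chi_pos h2]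
      ring
    · rw [chi_pos ⟨fun h => h1 h.symm, h2⟩]
      unfold ad
      rw [chi_neg h2]
      ring

omit [Fintype V] in
theorem ms_nonneg {G : SimpleGraph V} {x : V → ℝ} {H : Finset V} {c : V → Fin r}
    (hx : ∀ v, 0 ≤ x v) (v : V) : 0 ≤ ms G H c x v :=
  Finset.sum_nonneg fun u _ => mul_nonneg (chi_nonneg _) (hx u)

theorem ot_nonneg {G : SimpleGraph V} {x : V → ℝ} {H : Finset V}
    (hx : ∀ v, 0 ≤ x v) (v : V) : 0 ≤ ot G H x v :=
  Finset.sum_nonneg fun u _ => mul_nonneg (chi_nonneg _) (hx u)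

omit [Fintype V] in
theorem sum_ms {G : SimpleGraph V} {x : V → ℝ} {H : Finset V} {c : V → Fin r} {m : ℝ}
    (hm : ∀ v ∈ H, x v ≤ m) : ∑ v ∈ H, ms G H c x v ≤ m * mis G H c := by
  rw [EDG.mis_eq, Finset.mul_sum]
  refine Finset.sum_le_sum fun v _ => ?_
  unfold ms
  rw [Finset.mul_sum]
  refine Finset.sum_le_sum fun u hu => ?_
  have := mul_le_mul_of_nonneg_left (hm u hu) (chi_nonneg (c v ≠ c u ∧ ¬ G.Adj v u))
  linarith

theorem sum_ot {G : SimpleGraph V} {x : V → ℝ} {H : Finset V} {m : ℝ} (hm0 : 0 ≤ m)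
    (hm : ∀ v, v ∉ H → x v ≤ m) : ∑ v ∈ H, ot G H x v ≤ m * eo G H := by
  rw [EDG.eo_eq, Finset.mul_sum]
  unfold ot
  rw [Finset.sum_comm]
  refine Finset.sum_le_sum fun u hu => ?_
  have hu' := mem_out.1 hu
  calc ∑ v ∈ H, ad G v u * x u ≤ ∑ v ∈ H, ad G u v * m := by
        refine Finset.sum_le_sum fun v _ => ?_
        rw [ad_comm G v u]
        exact mul_le_mul_of_nonneg_left (hm u hu') (chi_nonneg _)
    _ ≤ ∑ v, ad G u v * m :=
        Finset.sum_le_univ_sum_of_nonneg fun v => mul_nonneg (chi_nonneg _) hm0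
    _ = m * ∑ v, ad G u v := by rw [← Finset.sum_mul, mul_comm]

theorem sum_out {G : SimpleGraph V} {x : V → ℝ} {lam : ℝ} {H : Finset V} {m : ℝ}
    (hpv : PV G x lam) (hm : ∀ v, x v ≤ m) : lam * ∑ v ∈ out H, x v ≤ m * eo G H := by
  rw [EDG.eo_eq, Finset.mul_sum, Finset.mul_sum]
  refine Finset.sum_le_sum fun u _ => ?_
  rw [← hpv.eig u, Finset.mul_sum]
  refine Finset.sum_le_sum fun v _ => ?_
  have := mul_le_mul_of_nonneg_left (hm v) (chi_nonneg (G.Adj u v))
  unfold ad
  linarith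

theorem ot_le {G : SimpleGraph V} {x : V → ℝ} {H : Finset V} (hx : ∀ v, 0 ≤ x v) (v : V) :
    ot G H x v ≤ ∑ u ∈ out H, x u := by
  refine Finset.sum_le_sum fun u _ => ?_
  have := mul_le_mul_of_nonneg_right (chi_le_one (G.Adj v u)) (hx u)
  unfold ad
  linarith

/-- the equation for the class sums -/
theorem class_eq {G : SimpleGraph V} {x : V → ℝ} {lam : ℝ} {H : Finset V} {c : V → Fin r}
    (hpv : PV G x lam) (hind : ∀ u ∈ H, ∀ v ∈ H, c u = c v → ¬ G.Adj u v) (i : Fin r) :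
    (lam + sz H c i) * cs x H c i = sz H c i * ∑ u ∈ H, x u +
      ∑ v ∈ cl H c i, (ot G H x v - ms G H c x v) := by
  have h1 : lam * cs x H c i = ∑ v ∈ cl H c i,
      ((∑ u ∈ H, x u - cs x H c i) + (ot G H x v - ms G H c x v)) := by
    unfold cs
    rw [Finset.mul_sum]
    refine Finset.sum_congr rfl fun v hv => ?_
    obtain ⟨h2, h3⟩ := mem_cl.1 hv
    rw [row hpv hind h2, h3]
    unfold cs
    ring
  rw [add_mul, h1, Finset.sum_add_distrib, Finset.sum_const, nsmul_eq_mul]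
  unfold sz
  ring

/-- the error terms -/
theorem th_bound {G : SimpleGraph V} {x : V → ℝ} {H : Finset V} {c : V → Fin r}
    (hx : ∀ v, 0 ≤ x v) (i : Fin r) :
    |∑ v ∈ cl H c i, (ot G H x v - ms G H c x v)| ≤
      ∑ v ∈ H, ot G H x v + ∑ v ∈ H, ms G H c x v := by
  refine (Finset.abs_sum_le_sum_abs _ _).trans ?_
  rw [← Finset.sum_add_distrib]
  have h1 : ∑ v ∈ cl H c i, |ot G H x v - ms G H c x v| ≤
      ∑ v ∈ cl H c i, (ot G H x v + ms G H c x v) := by
    refine Finset.sum_le_sum fun v _ => ?_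
    have h2 := ot_nonneg (G := G) (H := H) hx v
    have h3 := ms_nonneg (G := G) (H := H) (c := c) hx v
    rw [abs_le]
    constructor <;> linarith
  refine h1.trans (Finset.sum_le_sum_of_subset_of_nonneg (Finset.filter_subset _ _) ?_)
  intro v _ _
  exact add_nonneg (ot_nonneg hx v) (ms_nonneg hx v)

theorem num1 {N xb S lam Ai Ak a e : ℝ} (hN : 0 < N) (hxb : 0 < xb) (he : 0 ≤ e)
    (he1 : e ≤ 1 / 20) (ha : 0 ≤ a) (ha1 : a ≤ 1) (hS : |S - N * xb| ≤ e * (N * xb))
    (hl : |lam - a * N| ≤ e * N) (hAi : |Ai - N| ≤ 2 * e * N) (hAk : |Ak - N| ≤ 2 * e * N) :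
    |S * lam - a * xb * (Ai * Ak)| ≤ 7 * e * (N ^ 2 * xb) ∧ 4 / 5 * N ^ 2 ≤ Ai * Ak := by
  obtain ⟨p, hp⟩ : ∃ p, S = N * xb + p := ⟨S - N * xb, by ring⟩
  obtain ⟨q, hq⟩ : ∃ q, lam = a * N + q := ⟨lam - a * N, by ring⟩
  obtain ⟨s, hs⟩ : ∃ s, Ai = N + s := ⟨Ai - N, by ring⟩
  obtain ⟨t, ht⟩ : ∃ t, Ak = N + t := ⟨Ak - N, by ring⟩
  subst hp hq hs ht
  rw [add_sub_cancel_left] at hS hl hAi hAk
  have hNx : 0 < N * xb := mul_pos hN hxb
  constructor
  · have e1 : (N * xb + p) * (a * N + q) - a * xb * ((N + s) * (N + t)) =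
        N * xb * q + p * (a * N) + p * q - a * xb * (N * s + N * t + s * t) := by ring
    rw [e1]
    have b1 : |N * xb * q| ≤ N * xb * (e * N) := by
      rw [abs_mul, abs_of_pos hNx]
      exact mul_le_mul_of_nonneg_left hl hNx.le
    have b2 : |p * (a * N)| ≤ e * (N * xb) * (1 * N) := by
      rw [abs_mul, abs_of_nonneg (show 0 ≤ a * N by positivity)]
      exact mul_le_mul hS (mul_le_mul_of_nonneg_right ha1 hN.le) (by positivity) (by positivity)
    have b3 : |p * q| ≤ e * (N * xb) * (e * N) := by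
      rw [abs_mul]
      exact mul_le_mul hS hl (abs_nonneg _) (by positivity)
    have b4 : |N * s + N * t + s * t| ≤ N * (2 * e * N) + N * (2 * e * N) +
        (2 * e * N) * (2 * e * N) := by
      refine (abs_add_le _ _).trans (add_le_add ((abs_add_le _ _).trans (add_le_add ?_ ?_)) ?_)
      · rw [abs_mul, abs_of_pos hN]; exact mul_le_mul_of_nonneg_left hAi hN.le
      · rw [abs_mul, abs_of_pos hN]; exact mul_le_mul_of_nonneg_left hAk hN.le
      · rw [abs_mul]; exact mul_le_mul hAi hAk (abs_nonneg _) (by positivity)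
    have b5 : |a * xb * (N * s + N * t + s * t)| ≤ 1 * xb * (N * (2 * e * N) + N * (2 * e * N) +
        (2 * e * N) * (2 * e * N)) := by
      rw [abs_mul, abs_of_nonneg (show 0 ≤ a * xb by positivity)]
      exact mul_le_mul (mul_le_mul_of_nonneg_right ha1 hxb.le) b4 (abs_nonneg _) (by positivity)
    have b6 : |N * xb * q + p * (a * N) + p * q - a * xb * (N * s + N * t + s * t)| ≤
        |N * xb * q| + |p * (a * N)| + |p * q| + |a * xb * (N * s + N * t + s * t)| := by
      refine (abs_sub _ _).trans (add_le_add_left ((abs_add_le _ _).trans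
        (add_le_add_left (abs_add_le _ _) _)) _)
    refine b6.trans ((add_le_add (add_le_add (add_le_add b1 b2) b3) b5).trans ?_)
    have h1 : e * e ≤ 1 / 20 * e := mul_le_mul_of_nonneg_right he1 he
    have h2 : 0 ≤ N ^ 2 * xb := by positivity
    have h3 : N * xb * (e * N) + e * (N * xb) * (1 * N) + e * (N * xb) * (e * N) +
        1 * xb * (N * (2 * e * N) + N * (2 * e * N) + (2 * e * N) * (2 * e * N)) =
        6 * e * (N ^ 2 * xb) + 5 * (e * e) * (N ^ 2 * xb) := by ring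
    rw [h3]
    nlinarith [mul_le_mul_of_nonneg_right h1 h2, mul_nonneg he h2]
  · have h1 := (abs_le.1 hAi).1
    have h2 := (abs_le.1 hAk).1
    have h3 : 9 / 10 * N ≤ N + s := by nlinarith
    have h4 : 9 / 10 * N ≤ N + t := by nlinarith
    have h5 := mul_le_mul h3 h4 (by positivity) (by linarith)
    nlinarith [sq_nonneg N]

theorem num2 {N xb S lam ni nk ci ck ti tk a e d : ℝ} (hN : 0 < N) (hxb : 0 < xb) (he : 0 ≤ e)
    (he1 : e ≤ 1 / 20) (ha : 0 ≤ a) (ha1 : a ≤ 1) (hS : |S - N * xb| ≤ e * (N * xb))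
    (hl : |lam - a * N| ≤ e * N) (hAi : |lam + ni - N| ≤ 2 * e * N)
    (hAk : |lam + nk - N| ≤ 2 * e * N) (hd : 0 ≤ d) (hde : d ≤ e)
    (hti : |ti| ≤ 3 * d * (N * xb)) (htk : |tk| ≤ 3 * d * (N * xb))
    (hci : (lam + ni) * ci = ni * S + ti) (hck : (lam + nk) * ck = nk * S + tk) :
    |ci - ck - a * (ni - nk) * xb| ≤ 9 * e * xb * (|ni - nk| + 1) := by
  obtain ⟨h1, h2⟩ := num1 hN hxb he he1 ha ha1 hS hl hAi hAk
  have hAi0 := (abs_le.1 hAi).1
  have hAi2 := (abs_le.1 hAi).2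
  have hAk0 := (abs_le.1 hAk).1
  have hAk2 := (abs_le.1 hAk).2
  have hAip : 0 < lam + ni := by nlinarith
  have hAkp : 0 < lam + nk := by nlinarith
  set P := (lam + ni) * (lam + nk) with hP
  have hPp : 0 < P := mul_pos hAip hAkp
  have e1 : (ci - ck - a * (ni - nk) * xb) * P =
      (S * lam - a * xb * P) * (ni - nk) + (ti * (lam + nk) - tk * (lam + ni)) := by
    have e2 : (ci - ck - a * (ni - nk) * xb) * P =
        ((lam + ni) * ci) * (lam + nk) - ((lam + nk) * ck) * (lam + ni) -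
          a * (ni - nk) * xb * P := by rw [hP]; ring
    rw [e2, hci, hck]
    ring
  have b1 : |(S * lam - a * xb * P) * (ni - nk)| ≤ 7 * e * (N ^ 2 * xb) * |ni - nk| := by
    rw [abs_mul]
    exact mul_le_mul_of_nonneg_right h1 (abs_nonneg _)
  have b2 : |ti * (lam + nk) - tk * (lam + ni)| ≤ 3 * d * (N * xb) * (11 / 10 * N) +
      3 * d * (N * xb) * (11 / 10 * N) := by
    refine (abs_sub _ _).trans (add_le_add ?_ ?_)
    · rw [abs_mul, abs_of_pos hAkp]
      exact mul_le_mul hti (by nlinarith) hAkp.le (by positivity)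
    · rw [abs_mul, abs_of_pos hAip]
      exact mul_le_mul htk (by nlinarith) hAip.le (by positivity)
  have b3 : |ci - ck - a * (ni - nk) * xb| * P ≤
      7 * e * (N ^ 2 * xb) * |ni - nk| + (3 * d * (N * xb) * (11 / 10 * N) +
      3 * d * (N * xb) * (11 / 10 * N)) := by
    have e3 : |ci - ck - a * (ni - nk) * xb| * P = |(ci - ck - a * (ni - nk) * xb) * P| := by
      rw [abs_mul, abs_of_pos hPp]
    rw [e3, e1]
    exact (abs_add_le _ _).trans (add_le_add b1 b2)
  have b4 : 7 * e * (N ^ 2 * xb) * |ni - nk| + (3 * d * (N * xb) * (11 / 10 * N) +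
      3 * d * (N * xb) * (11 / 10 * N)) ≤ 9 * e * xb * (|ni - nk| + 1) * (4 / 5 * N ^ 2) := by
    have h5 : 0 ≤ N ^ 2 * xb := by positivity
    have h6 := mul_le_mul_of_nonneg_right hde h5
    have h7 : 0 ≤ e * (N ^ 2 * xb) * |ni - nk| := by positivity
    have h8 : 0 ≤ e * (N ^ 2 * xb) := by positivity
    nlinarith
  have b5 : 9 * e * xb * (|ni - nk| + 1) * (4 / 5 * N ^ 2) ≤
      9 * e * xb * (|ni - nk| + 1) * P :=
    mul_le_mul_of_nonneg_left h2 (by positivity)
  exact le_of_mul_le_mul_right (b3.trans (b4.trans b5)) hPp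

end FLAT

set_option maxHeartbeats 4000000 in
theorem blk_FLAT (hE : Stmt_EST1) : Stmt_FLAT := by
  intro r hr
  refine ⟨20, by norm_num, fun e he => ?_⟩
  obtain ⟨e', he'0, he'1, he'2⟩ : ∃ e' : ℝ, 0 < e' ∧ e' ≤ 1 / 20 ∧ 9 * e' ≤ e :=
    ⟨min (1 / 20) (e / 9), by positivity, min_le_left _ _, by
      have := min_le_right (1 / 20 : ℝ) (e / 9); linarith⟩
  obtain ⟨δ, N0, hδ, hδe, hmain⟩ := hE r e' hr he'0
  have hδe2 : δ ≤ e := by linarith
  refine ⟨δ, max N0 1, hδ, hδe2, fun N hN V _ G x lam c H hC hpv => ?_⟩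
  have hN1 : 1 ≤ N := (le_max_right _ _).trans hN
  have hN0 : (0 : ℝ) < N := by exact_mod_cast hN1
  obtain ⟨xb, hF⟩ := hmain N ((le_max_left _ _).trans hN) V G x lam c H hC hpv
  have hxb := hF.xb0
  have hNx : 0 < (N : ℝ) * xb := mul_pos hN0 hxb
  have hal := al_ge hr
  have hal1 := al_lt hr
  -- pointwise bounds
  have hxH : ∀ v ∈ H, x v ≤ (1 + e') * xb := by
    intro v hv
    have := (abs_le.1 (hF.xH v hv)).2
    linarith
  have hxV : ∀ v, x v ≤ (1 + e') * xb := by
    intro v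
    by_cases hv : v ∈ H
    · exact hxH v hv
    · have := hF.xo v hv
      linarith
  -- the eigenvalue
  have hl := abs_le.1 hF.lamN
  have hlN : (N : ℝ) / 2 ≤ lam := by nlinarith [hl.1]
  have hl0 : 0 < lam := by linarith
  -- sums
  have hms : ∑ v ∈ H, FLAT.ms G H c x v ≤ (1 + e') * xb * mis G H c := FLAT.sum_ms hxH
  have hms2 : ∑ v ∈ H, FLAT.ms G H c x v ≤ 2 * δ * (N * xb) := by
    have h1 := hC.mis
    have h2 : (1 + e') * xb * mis G H c ≤ 2 * xb * (δ * N) :=
      mul_le_mul (by nlinarith) h1 (Nat.cast_nonneg _) (by positivity)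
    refine hms.trans (h2.trans (le_of_eq (by ring)))
  have hot : ∑ v ∈ H, FLAT.ot G H x v ≤ δ * (N * xb) := by
    have h0 : ∑ v ∈ H, FLAT.ot G H x v ≤ e' * xb * eo G H :=
      FLAT.sum_ot (by positivity) hF.xo
    have h2 : e' * xb * eo G H ≤ 1 * xb * (δ * N) :=
      mul_le_mul (by nlinarith) hC.eo (Nat.cast_nonneg _) (by positivity)
    refine h0.trans (h2.trans (le_of_eq (by ring)))
  have hsout : ∑ v ∈ out H, x v ≤ 4 * δ * xb := by
    have h1 : lam * ∑ v ∈ out H, x v ≤ (1 + e') * xb * eo G H := FLAT.sum_out hpv hxV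
    have h2 : (1 + e') * xb * eo G H ≤ 2 * xb * (δ * N) :=
      mul_le_mul (by nlinarith) hC.eo (Nat.cast_nonneg _) (by positivity)
    have h3 : 0 ≤ ∑ v ∈ out H, x v := Finset.sum_nonneg fun v _ => hpv.nn v
    have h4 : (N : ℝ) / 2 * ∑ v ∈ out H, x v ≤ N / 2 * (4 * δ * xb) := by
      have h5 := mul_le_mul_of_nonneg_right hlN h3
      calc (N : ℝ) / 2 * ∑ v ∈ out H, x v ≤ lam * ∑ v ∈ out H, x v := h5
        _ ≤ 2 * xb * (δ * N) := h1.trans h2
        _ = N / 2 * (4 * δ * xb) := by ring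
    exact le_of_mul_le_mul_left h4 (by positivity)
  -- the sum over H
  have hS : |∑ u ∈ H, x u - N * xb| ≤ e' * (N * xb) := by
    have h1 : ∑ u ∈ H, x u - N * xb = ∑ u ∈ H, (x u - xb) := by
      rw [Finset.sum_sub_distrib, Finset.sum_const, nsmul_eq_mul, hC.card]
    rw [h1]
    refine (Finset.abs_sum_le_sum_abs _ _).trans ?_
    refine (Finset.sum_le_sum fun u hu => hF.xH u hu).trans ?_
    rw [Finset.sum_const, nsmul_eq_mul, hC.card]
    exact le_of_eq (by ring)
  have hA : ∀ i, |lam + sz H c i - N| ≤ 2 * e' * N := by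
    intro i
    have h1 := abs_le.1 (hC.bal i)
    have h2 : al r * N + N / r = N := by unfold al; ring
    have h3 : δ * N ≤ e' * N := mul_le_mul_of_nonneg_right hδe hN0.le
    rw [abs_le]
    constructor
    · linarith [h1.1, hl.1]
    · linarith [h1.2, hl.2]
  have hth : ∀ i, |∑ v ∈ cl H c i, (FLAT.ot G H x v - FLAT.ms G H c x v)| ≤
      3 * δ * (N * xb) := by
    intro i
    refine (FLAT.th_bound hpv.nn i).trans ?_
    linarith
  have hcs : ∀ i k, |cs x H c i - cs x H c k - al r * (sz H c i - sz H c k) * xb|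
      ≤ 9 * e' * xb * (|sz H c i - sz H c k| + 1) := fun i k =>
    FLAT.num2 hN0 hxb he'0.le he'1 (by linarith) hal1.le hS hF.lamN (hA i) (hA k) hδ.le hδe
      (hth i) (hth k) (FLAT.class_eq hpv hC.ind i) (FLAT.class_eq hpv hC.ind k)
  refine ⟨xb, ?_, ?_, ?_⟩
  · refine ⟨hxb, fun v hv => (hF.xH v hv).trans ?_, fun v hv => (hF.xo v hv).trans ?_,
      hF.lamN.trans ?_⟩
    · exact mul_le_mul_of_nonneg_right (by linarith) hxb.le
    · exact mul_le_mul_of_nonneg_right (by linarith) hxb.le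
    · exact mul_le_mul_of_nonneg_right (by linarith) hN0.le
  · intro i k
    refine (hcs i k).trans ?_
    exact mul_le_mul_of_nonneg_right (mul_le_mul_of_nonneg_right he'2 hxb.le) (by positivity)
  · intro u hu v hv
    have h1 := FLAT.row hpv hC.ind hu
    have h2 := FLAT.row hpv hC.ind hv
    have h3 := hcs (c u) (c v)
    set D := |sz H c (c u) - sz H c (c v)| with hD
    have hD0 : 0 ≤ D := abs_nonneg _
    have h4 : |cs x H c (c u) - cs x H c (c v)| ≤ xb * (2 * D + 1) := by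
      have h6 : |al r * (sz H c (c u) - sz H c (c v)) * xb| ≤ 1 * D * xb := by
        rw [abs_mul, abs_mul, abs_of_pos hxb, abs_of_nonneg (by linarith : (0 : ℝ) ≤ al r)]
        exact mul_le_mul_of_nonneg_right (mul_le_mul_of_nonneg_right hal1.le hD0) hxb.le
      have h7 : 9 * e' * xb * (D + 1) ≤ 1 * xb * (D + 1) :=
        mul_le_mul_of_nonneg_right (mul_le_mul_of_nonneg_right (by linarith) hxb.le)
          (by linarith)
      have h8 := abs_le.1 (h3.trans h7)
      have h9 := abs_le.1 h6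
      rw [abs_le]
      constructor
      · linarith [h8.1, h9.1]
      · linarith [h8.2, h9.2]
    have hmu : ∀ z ∈ H, FLAT.ms G H c x z ≤ 2 * xb * mis G H c := by
      intro z hz
      have h5 : FLAT.ms G H c x z ≤ ∑ v ∈ H, FLAT.ms G H c x v :=
        Finset.single_le_sum (fun v _ => FLAT.ms_nonneg hpv.nn v) hz
      refine h5.trans (hms.trans (mul_le_mul_of_nonneg_right (by nlinarith) (Nat.cast_nonneg _)))
    have hou : ∀ z, FLAT.ot G H x z ≤ xb := by
      intro z
      refine (FLAT.ot_le hpv.nn z).trans (hsout.trans ?_)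
      nlinarith
    have n1 := FLAT.ms_nonneg (G := G) (H := H) (c := c) hpv.nn u
    have n2 := FLAT.ms_nonneg (G := G) (H := H) (c := c) hpv.nn v
    have n3 := FLAT.ot_nonneg (G := G) (H := H) hpv.nn u
    have n4 := FLAT.ot_nonneg (G := G) (H := H) hpv.nn v
    have m1 := hmu u hu
    have m2 := hmu v hv
    have m3 := hou u
    have m4 := hou v
    have h5 := abs_le.1 h4
    have h6 : |lam * (x u - x v)| ≤ xb * (2 * D + 1) + 2 * xb * mis G H c + xb := by
      have e4 : lam * (x u - x v) = (cs x H c (c v) - cs x H c (c u)) -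
          FLAT.ms G H c x u + FLAT.ms G H c x v + FLAT.ot G H x u - FLAT.ot G H x v := by
        rw [mul_sub, h1, h2]; ring
      rw [e4, abs_le]
      constructor
      · linarith [h5.1, h5.2]
      · linarith [h5.1, h5.2]
    rw [abs_mul, abs_of_pos hl0] at h6
    have h7 : (N : ℝ) / 2 * |x u - x v| ≤ lam * |x u - x v| :=
      mul_le_mul_of_nonneg_right hlN (abs_nonneg _)
    have h8 : (N : ℝ) / 2 * |x u - x v| ≤ N / 2 * (20 / N * xb * (D + mis G H c + 1)) := by
      have e5 : (N : ℝ) / 2 * (20 / N * xb * (D + mis G H c + 1)) =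
          10 * xb * (D + mis G H c + 1) := by field_simp; ring
      rw [e5]
      have n5 : 0 ≤ xb * D := by positivity
      have n6 : 0 ≤ xb * (mis G H c : ℝ) := by positivity
      nlinarith
    exact le_of_mul_le_mul_left h8 (by positivity)

end Pool.Agent.Work.MP_5532fa_up
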