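import Pool.Agent.Work.MP_5532fa_up.Interface2

/-!
# MP_5532fa_co, upgrade: block GF (facts on the graphs `WF`)
-/

open Finset

namespace Pool.Agent.Work.MP_5532fa_up

open MP5532fa (specRad qf pE)

namespace GF

section
variable {V : Type} [Fintype V] {r : ℕ}

omit [Fintype V] in
theorem adj_w {G : SimpleGraph V} {N : ℕ} {H : Finset V} {c : V → Fin r} {w : V} {T : Finset V}
    (h : WF G N H c w T) {b : V} : G.Adj w b ↔ b ∈ T := by
  constructor
  · intro hb
    rcases h.sub w b hb with h1 | h1 | h1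
    · exact absurd h1.1 h.hw
    · exact h1.2
    · exact absurd (h.hT h1.2) h.hw
  · intro hb
    exact h.hwT b hb

omit [Fintype V] in
theorem adj_H {G : SimpleGraph V} {N : ℕ} {H : Finset V} {c : V → Fin r} {w : V} {T : Finset V}
    (h : WF G N H c w T) {a b : V} (ha : a ≠ w) (hb : b ≠ w)
    (hab : G.Adj a b) : a ∈ H ∧ b ∈ H ∧ c a ≠ c b := by
  rcases h.sub a b hab with h1 | h1 | h1
  · exact h1
  · exact absurd h1.1 ha
  · exact absurd h1.1 hb

omit [Fintype V] in
theorem eqT {c : V → Fin r} {T : Finset V} (hT1 : ∀ i, (cl T c i).card = 1)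
    {a b : V} (ha : a ∈ T) (hb : b ∈ T) (hab : c a = c b) : a = b := by
  obtain ⟨z, hz⟩ := Finset.card_eq_one.mp (hT1 (c a))
  have e1 : a ∈ cl T c (c a) := mem_cl.2 ⟨ha, rfl⟩
  have e2 : b ∈ cl T c (c a) := mem_cl.2 ⟨hb, hab.symm⟩
  rw [hz, Finset.mem_singleton] at e1 e2
  rw [e1, e2]

omit [Fintype V] in
theorem cardT {c : V → Fin r} {T : Finset V} (hT1 : ∀ i, (cl T c i).card = 1) : T.card = r := by
  rw [← sum_card_cl T c, Finset.sum_congr rfl fun i _ => hT1 i]
  simp

omit [Fintype V] in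
theorem free {G : SimpleGraph V} {N : ℕ} {H : Finset V} {c : V → Fin r} {w : V} {T : Finset V}
    (h : WF G N H c w T) : G.CliqueFree (r + 1) := by
  classical
  intro s hs
  rw [SimpleGraph.isNClique_iff] at hs
  obtain ⟨hs, hc⟩ := hs
  have hinj : Set.InjOn c ((s.erase w : Finset V) : Set V) := by
    intro a ha b hb hcab
    by_contra hne
    rw [Finset.mem_coe, Finset.mem_erase] at ha hb
    have h1 := hs (Finset.mem_coe.mpr ha.2) (Finset.mem_coe.mpr hb.2) hne
    exact (adj_H h ha.1 hb.1 h1).2.2 hcab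
  have hle : (s.erase w).card ≤ r := by
    have h1 := Finset.card_le_card_of_injOn (t := (univ : Finset (Fin r))) c
      (fun _ _ => Finset.mem_coe.mpr (Finset.mem_univ _)) hinj
    rw [Finset.card_univ, Fintype.card_fin] at h1
    exact h1
  have hw : w ∈ s := by
    by_contra hw
    rw [Finset.erase_eq_of_notMem hw] at hle
    omega
  have hcard : (s.erase w).card = r := by
    rw [Finset.card_erase_of_mem hw]; omega
  have hA : s.erase w ⊆ T := by
    intro a ha
    rw [Finset.mem_erase] at ha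
    exact (adj_w h).mp (hs (Finset.mem_coe.mpr hw) (Finset.mem_coe.mpr ha.2) (Ne.symm ha.1))
  have heq : s.erase w = T := Finset.eq_of_subset_of_card_le hA (by rw [hcard, cardT h.hT1])
  obtain ⟨a, ha, b, hb, hab, hnad⟩ := h.hF
  rw [← heq, Finset.mem_erase] at ha hb
  exact hnad (hs (Finset.mem_coe.mpr ha.2) (Finset.mem_coe.mpr hb.2) hab)

omit [Fintype V] in
theorem ncol {G : SimpleGraph V} {N : ℕ} {H : Finset V} {c : V → Fin r} {w : V} {T : Finset V}
    (h : WF G N H c w T) (h2 : ∀ i, mis G H c < (cl H c i).card) :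
    ¬ G.Colorable r := by
  classical
  rintro ⟨f⟩
  have hrep : ∀ i, ∃ p ∈ H, c p = i ∧ ∀ a ∈ H, c a ≠ i → G.Adj a p := by
    intro i
    by_contra hcon
    push Not at hcon
    choose! g hg using hcon
    have hmap : ∀ p ∈ cl H c i, (p, g p) ∈
        (H ×ˢ H).filter (fun e => c e.1 ≠ c e.2 ∧ ¬ G.Adj e.1 e.2) := by
      intro p hp
      rw [mem_cl] at hp
      obtain ⟨g1, g2, g3⟩ := hg p hp.1 hp.2
      rw [Finset.mem_filter, Finset.mem_product]
      exact ⟨⟨hp.1, g1⟩, fun h0 => g2 (h0 ▸ hp.2), fun h0 => g3 h0.symm⟩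
    have hle : (cl H c i).card ≤ mis G H c := by
      have e : mis G H c = ((H ×ˢ H).filter (fun e => c e.1 ≠ c e.2 ∧ ¬ G.Adj e.1 e.2)).card := by
        unfold mis
        congr 1
      rw [e]
      refine Finset.card_le_card_of_injOn (fun p => (p, g p)) (fun p hp => ?_) ?_
      · exact Finset.mem_coe.mpr (hmap p (Finset.mem_coe.mp hp))
      · intro a _ b _ hab
        exact (Prod.mk.inj hab).1
    exact absurd (h2 i) (by omega)
  choose ρ hρH hρc hadj' using hrep
  have hadj : ∀ a ∈ H, ∀ k, k ≠ c a → G.Adj a (ρ k) := by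
    intro a ha k hk
    exact hadj' k a ha (Ne.symm hk)
  have hinj : Function.Injective (fun i => f (ρ i)) := by
    intro i k hik
    by_contra hne
    have h1 := hadj (ρ i) (hρH i) k (by rw [hρc i]; exact Ne.symm hne)
    exact f.valid h1 hik
  have hsurj : Function.Surjective (fun i => f (ρ i)) := Finite.surjective_of_injective hinj
  obtain ⟨i, hi⟩ := hsurj (f w)
  obtain ⟨a, ha⟩ : (cl T c i).Nonempty := by
    rw [← Finset.card_pos, h.hT1 i]; exact one_pos
  rw [mem_cl] at ha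
  obtain ⟨k, hk⟩ := hsurj (f a)
  have hk' : k = c a := by
    by_contra hne
    exact f.valid (hadj a (h.hT ha.1) k hne) hk.symm
  have h3 : f w = f a := by
    rw [← hi, ← hk, hk', ha.2]
  exact f.valid ((adj_w h).mpr ha.1) h3

omit [Fintype V] in
theorem nb_w {G : SimpleGraph V} {N : ℕ} {H : Finset V} {c : V → Fin r} {w : V} {T : Finset V}
    (h : WF G N H c w T) : nb G H w = T := by
  ext b
  rw [mem_nb, adj_w h]
  exact ⟨fun h1 => h1.2, fun h1 => ⟨h.hT h1, h1⟩⟩

omit [Fintype V] in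
theorem dg_w {G : SimpleGraph V} {N : ℕ} {H : Finset V} {c : V → Fin r} {w : V} {T : Finset V}
    (h : WF G N H c w T) : dg G H w = r := by
  unfold dg
  rw [nb_w h, cardT h.hT1]

omit [Fintype V] in
theorem dg_v {G : SimpleGraph V} {N : ℕ} {H : Finset V} {c : V → Fin r} {w : V} {T : Finset V}
    (h : WF G N H c w T) {v : V} (hv : v ∉ H) (hvw : v ≠ w) : dg G H v = 0 := by
  unfold dg
  rw [Finset.card_eq_zero, Finset.eq_empty_iff_forall_notMem]
  intro b hb
  rw [mem_nb] at hb
  rcases h.sub v b hb.2 with h1 | h1 | h1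
  · exact hv h1.1
  · exact hvw h1.1
  · exact hv (h.hT h1.2)

theorem eu0 {G : SimpleGraph V} {N : ℕ} {H : Finset V} {c : V → Fin r} {w : V} {T : Finset V}
    (h : WF G N H c w T) : eu G H = 0 := by
  classical
  unfold eu
  rw [Finset.card_eq_zero, Finset.eq_empty_iff_forall_notMem]
  rintro ⟨a, b⟩ he
  rw [Finset.mem_filter] at he
  obtain ⟨_, h1, h2, h3⟩ := he
  rcases h.sub a b h1 with h4 | h4 | h4
  · exact h2 h4.1
  · exact h3 (h.hT h4.2)
  · exact h2 (h.hT h4.2)

theorem sum_dg {G : SimpleGraph V} {N : ℕ} {H : Finset V} {c : V → Fin r} {w : V} {T : Finset V}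
    (h : WF G N H c w T) : ∑ v ∈ out H, dg G H v = r := by
  classical
  rw [Finset.sum_eq_single_of_mem w (mem_out.mpr h.hw)]
  · exact dg_w h
  · intro v hv hvw
    exact dg_v h (mem_out.mp hv) hvw

omit [Fintype V] in
theorem ind {G : SimpleGraph V} {N : ℕ} {H : Finset V} {c : V → Fin r} {w : V} {T : Finset V}
    (h : WF G N H c w T) : ∀ u ∈ H, ∀ v ∈ H, c u = c v → ¬ G.Adj u v := by
  intro u hu v hv huv hadj
  rcases h.sub u v hadj with h4 | h4 | h4
  · exact h4.2.2 huv
  · exact h.hw (h4.1 ▸ hu)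
  · exact h.hw (h4.1 ▸ hv)

end

end GF

theorem blk_GF (h1 : Stmt_EID) : Stmt_GF := by
  intro r hr V _ G N H c w T h
  refine ⟨GF.free h, GF.ncol h, ?_⟩
  rw [h1 r V G c H (GF.ind h), GF.eu0 h, h.card]
  have e : ∑ v ∈ out H, (dg G H v : ℝ) = r := by
    rw [← GF.sum_dg h]
    push_cast
    rfl
  rw [e]
  simp

end Pool.Agent.Work.MP_5532fa_up
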