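import Pool.Agent.Work.MP_5532fa_up.Interface2
import Pool.Agent.Work.MP_5532fa_up.ISOE

open Finset

namespace Pool.Agent.Work.MP_5532fa_up

open MP5532fa (specRad qf pE)

theorem blk_ISOEU (hLAB : Stmt_LAB) (hCANP : Stmt_CANP) (hTIE : Stmt_TIEU) : Stmt_ISOEU := by
  classical
  intro r ε hr hε
  obtain ⟨δ, n0, hδ, HT⟩ := hTIE r ε hr hε
  obtain ⟨n1, hn1⟩ := exists_nat_gt ((r : ℝ) / δ)
  refine ⟨n0 + n1 + 1, ?_⟩
  intro N hN j hRg V V' _ _ G G' hG hG'
  obtain ⟨H, c, w, u, A, B, i0, hW, hO, hA, hB, hP, hT⟩ := hG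
  obtain ⟨H', c', w', u', A', B', i0', hW', hO', hA', hB', hP', hT'⟩ := hG'
  have hrr : (3 : ℝ) ≤ r := by exact_mod_cast hr
  have hNr : (r : ℝ) / δ < N := lt_of_lt_of_le hn1 (by exact_mod_cast (by omega : n1 ≤ N))
  rw [div_lt_iff₀ hδ] at hNr
  -- the permutation
  obtain ⟨σ, hσ⟩ := ISOD.perm_of hCANP (P := {i0}) (P' := {i0'}) (p0 := 0)
    (by rw [Finset.card_singleton, Finset.card_singleton]) (hW.card.trans hW'.card.symm)
    (by omega) hW.hA hW'.hA hB hB' hP hP' hT hT'
    (fun i hi => by rw [Finset.mem_singleton.mp hi, hW.hA0, Finset.card_empty])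
    (fun i hi => by rw [Finset.mem_singleton.mp hi, hW'.hA0, Finset.card_empty])
    (fun i hi => hW.hAne i (fun e => hi (Finset.mem_singleton.mpr e)))
    (fun i hi => hW'.hAne i (fun e => hi (Finset.mem_singleton.mpr e)))
  have hσ0 : σ i0 = i0' := Finset.mem_singleton.mp ((hσ i0).1.mp (Finset.mem_singleton_self _))
  have hσne : ∀ i, i ≠ i0 → σ i ≠ i0' := fun i hi e => hi (by
    rw [← hσ0] at e; exact σ.injective e)
  -- the exceptional vertex
  obtain ⟨b, hbB, hbA, hone⟩ := hO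
  have hcb : c b ≠ i0 := by
    intro e
    have : b ∈ cl B c i0 := mem_cl.mpr ⟨hbB, e⟩
    rw [hW.hB0] at this
    exact absurd this (Finset.notMem_empty _)
  have hlt : (cl A c (c b)).card < (cl H c (c b)).card := by
    apply Finset.card_lt_card
    rw [Finset.ssubset_iff_of_subset (fun v hv => by
      rw [mem_cl] at hv ⊢; exact ⟨hW.hA hv.1, hv.2⟩)]
    exact ⟨b, mem_cl.mpr ⟨hW.hB hbB, rfl⟩, fun h => hbA (mem_cl.mp h).1⟩
  obtain ⟨B'', hW'', b'', hcb'', hb''B, hb''A, hone''⟩ :=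
    ISOE.exists_B hW' (σ (c b)) (hσne _ hcb) (by rw [(hσ (c b)).2.1, (hσ (c b)).2.2]; exact hlt)
  -- Near
  have hNear : Near r δ N j H' A' c' := by
    constructor
    · intro i
      have hsum : ∑ k, sz H' c' k = (N : ℝ) := by
        have := sum_card_cl H' c'
        rw [hW'.card] at this
        unfold sz
        exact_mod_cast this
      have e : (r : ℝ) * (sz H' c' i - N / r) = ∑ k, (sz H' c' i - sz H' c' k) := by
        rw [Finset.sum_sub_distrib, hsum]
        simp only [Finset.sum_const, Finset.card_univ, Fintype.card_fin, nsmul_eq_mul]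
        field_simp
      have h1 : |∑ k, (sz H' c' i - sz H' c' k)| ≤ r * 1 := by
        refine (Finset.abs_sum_le_sum_abs _ _).trans ?_
        have : ∑ k : Fin r, |sz H' c' i - sz H' c' k| ≤ ∑ _k : Fin r, (1:ℝ) := by
          refine Finset.sum_le_sum fun k _ => ?_
          have a1 : sz H' c' i ≤ sz H' c' k + 1 := by unfold sz; exact_mod_cast hB' i k
          have a2 : sz H' c' k ≤ sz H' c' i + 1 := by unfold sz; exact_mod_cast hB' k i
          rw [abs_le]; constructor <;> linarith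
        simpa using this
      rw [← e, abs_mul, abs_of_pos (by linarith : (0:ℝ) < r)] at h1
      have h2 := le_of_mul_le_mul_left h1 (by linarith)
      linarith
    · have h1 : (A'.card : ℝ) + r = j := by exact_mod_cast hA'
      have h2 : (A'.card : ℝ) - j = -r := by linarith
      rw [h2, abs_neg, abs_of_nonneg (by linarith)]
      linarith
  have htie := HT N (by omega) j hRg V' G' (gE H' c' w' u' A' B'') H' c' w' u' A' B' B'' i0'
    hW' hW'' hO' ⟨b'', hb''B, hb''A, hone''⟩ hNear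
  rw [htie]
  -- labels
  have hK : ∀ v, v ∈ insert w (insert u H) ↔ v = w ∨ v = u ∨ v ∈ H := fun v => by
    simp only [Finset.mem_insert]
  have hK' : ∀ v, v ∈ insert w' (insert u' H') ↔ v = w' ∨ v = u' ∨ v ∈ H' := fun v => by
    simp only [Finset.mem_insert]
  refine hLAB _ V V' (ISOE.R) G _ (insert w (insert u H)) (insert w' (insert u' H'))
    (ISOE.lab c w u A B (1 : Equiv.Perm (Fin r)))
    (ISOE.lab c' w' u' A' B'' (σ⁻¹ : Equiv.Perm (Fin r)))
    (fun a b => ISOE.adj_iff hW 1 _ hK a b)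
    (fun a b => ISOE.adj_iff hW'' σ⁻¹ _ hK' a b) ?_ ⟨w, by simp⟩
  intro s
  rcases s with _ | _ | ⟨i, p, q⟩
  · rw [ISOE.fib_none hW.hw hW.hwu.symm 1 _ hK, ISOE.fib_none hW'.hw hW'.hwu.symm σ⁻¹ _ hK']
  · rw [ISOE.fib_some_none hW.hwu.symm 1 _ hK, ISOE.fib_some_none hW'.hwu.symm σ⁻¹ _ hK']
  · have e1 : i = (1 : Equiv.Perm (Fin r)) i := rfl
    have e2 : i = (σ⁻¹ : Equiv.Perm (Fin r)) (σ i) := by simp
    have h1 := ISOE.fib_card (c := c) hW.hw hW.hu hW.hA hW.hB 1 _ hK i p q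
    have h2 := ISOE.fib_card (c := c') hW''.hw hW''.hu hW''.hA hW''.hB σ⁻¹ _ hK' (σ i) p q
    rw [← e1] at h1
    rw [← e2] at h2
    have h3 := ISOE.inter_card hW hbB hbA hone i
    have h4 := ISOE.inter_card hW'' hb''B hb''A hone'' (σ i)
    have h5 : (σ i = i0' ∨ σ i = c' b'') ↔ (i = i0 ∨ i = c b) := by
      rw [← hσ0, hcb'']
      simp only [EmbeddingLike.apply_eq_iff_eq]
    have h6 : (cl (A' ∩ B'') c' (σ i)).card = (cl (A ∩ B) c i).card := by
      rw [h3, h4]
      by_cases hi : i = i0 ∨ i = c b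
      · rw [if_pos hi, if_pos (h5.mpr hi)]
      · rw [if_neg hi, if_neg (fun h => hi (h5.mp h))]
    have h7 : (cl B'' c' (σ i)).card = (cl B c i).card := by
      by_cases hi : i = i0
      · rw [hi, hσ0, hW.hB0, hW''.hB0]
        rfl
      · rw [hW.hB1 i hi, hW''.hB1 _ (hσne i hi)]
    have h8 := (hσ i).2.1
    have h9 := (hσ i).2.2
    have goal : ((fib (insert w (insert u H)) (ISOE.lab c w u A B (1 : Equiv.Perm (Fin r)))
        (some (some (i, p, q)))).card : ℤ) = ((fib (insert w' (insert u' H'))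
          (ISOE.lab c' w' u' A' B'' (σ⁻¹ : Equiv.Perm (Fin r)))
        (some (some (i, p, q)))).card : ℤ) := by
      rw [h1, h2, h6, h7, h8, h9]
    exact_mod_cast goal

end Pool.Agent.Work.MP_5532fa_up
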