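import Pool.Agent.Work.MP_5532fa_up.Interface2
import Pool.Agent.Work.MP_5532fa_up.OPT2

open Finset

namespace Pool.Agent.Work.MP_5532fa_up

namespace OPT3

open OPT2

theorem mul_le_left' {a b : ℝ} (ha : 0 ≤ a) (hb : b ≤ 1) : a * b ≤ a := by
  have := mul_le_mul_of_nonneg_left hb ha
  linarith

/-- linear interpolation -/
theorem interp {x κ Y : ℝ} (h1 : x ≤ Y) (h2 : Y ≤ 1) :
    (1 - x) * min x κ + (Y - x) * (1 - Y) ≤ Y * (1 - Y) + κ * (Y - x) := by
  have a1 : min x κ * (1 - Y) ≤ x * (1 - Y) :=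
    mul_le_mul_of_nonneg_right (min_le_left _ _) (by linarith)
  have a2 : min x κ * (Y - x) ≤ κ * (Y - x) :=
    mul_le_mul_of_nonneg_right (min_le_right _ _) (by linarith)
  linarith

/-- the largest summand -/
theorem Fa {ι : Type} (s : Finset ι) (X : ι → ℝ) (e a : ℝ) (he : 0 ≤ e) (ha0 : 0 ≤ a)
    (h : ∀ v ∈ s, 0 ≤ X v ∧ X v ≤ a) :
    (1 - a) * (∑ v ∈ s, X v + e) ≤ ∑ v ∈ s, X v * (1 - X v) + e := by
  have h1 : (1 - a) * ∑ v ∈ s, X v ≤ ∑ v ∈ s, X v * (1 - X v) := by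
    rw [Finset.mul_sum]
    apply Finset.sum_le_sum
    intro v hv
    have h2 := (h v hv).2
    have h3 := (h v hv).1
    rw [mul_comm]
    exact mul_le_mul_of_nonneg_left (by linarith) h3
  have h2 : (1 - a) * e ≤ e := by linarith [mul_nonneg ha0 he]
  rw [mul_add]
  linarith

/-- the case `k = 0` -/
theorem k0 {κ κ' η' ε ε2 δ D m : ℝ} (hκ : 0 < κ) (hκκ : κ < κ') (hκ1 : κ' ≤ 1) (hη : 0 < η')
    (hη1 : η' ≤ 1 / 2) (hε : 0 < ε) (hm0 : 0 < m) (hm2 : m ≤ ε2) (hD0 : 0 < D) (hδ0 : 0 < δ)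
    (hDδ : D * η' = 8 * δ) (hδD : δ ≤ D) (hD1 : D ≤ η' * m / 125) (hD2 : D ≤ ε * ε * m / 125)
    (hD3 : D ≤ ε * m / 125) (hD4 : D ≤ m / 125) (hm1 : m ≤ 1)
    {ι : Type} (s : Finset ι) (X : ι → ℝ) (e sg mu x : ℝ)
    (hX : ∀ v ∈ s, 0 ≤ X v ∧ X v ≤ 1 - η') (he : 0 ≤ e) (hsg : 0 ≤ sg) (hmu : 0 ≤ mu)
    (hx1 : ε ≤ x) (hx2 : x ≤ 1) (hbal : |∑ v ∈ s, X v + e - sg - mu - x| ≤ δ)
    (hcost : ∑ v ∈ s, X v * (1 - X v) + e + κ * sg + κ' * mu ≤ (1 - x) * min x κ + δ) :
    x ≤ κ + ε2 ∧ ∃ w ∈ s, |X w - x| ≤ ε2 ∧ ∑ v ∈ s, X v - X w + e + sg + mu ≤ ε2 := by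
  classical
  have hD5 : D ≤ η' / 125 := by
    have := mul_le_left' hη.le hm1
    linarith
  have hX1 : ∀ v ∈ s, 0 ≤ X v ∧ X v < 1 := fun v hv => ⟨(hX v hv).1, by
    have := (hX v hv).2; linarith⟩
  have hsum0 : 0 ≤ ∑ v ∈ s, X v := Finset.sum_nonneg fun v hv => (hX v hv).1
  have hx0 : 0 < x := by linarith
  obtain ⟨Y, hY⟩ : ∃ Y, Y = ∑ v ∈ s, X v + e := ⟨_, rfl⟩
  obtain ⟨q, hq⟩ : ∃ q, q = sg + mu := ⟨_, rfl⟩
  obtain ⟨F, hF⟩ : ∃ F, F = ∑ v ∈ s, X v * (1 - X v) + e := ⟨_, rfl⟩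
  have hY0 : 0 ≤ Y := by linarith
  have hq0 : 0 ≤ q := by linarith
  have hmm : (1 - x) * min x κ ≤ κ * (1 - x) := by
    rw [mul_comm]
    exact mul_le_mul_of_nonneg_right (min_le_right _ _) (by linarith)
  have hmx : (1 - x) * min x κ ≤ x * (1 - x) := by
    rw [mul_comm]
    exact mul_le_mul_of_nonneg_right (min_le_left _ _) (by linarith)
  have hC : F + κ * q ≤ (1 - x) * min x κ + δ := by
    have h1 : κ * mu ≤ κ' * mu := mul_le_mul_of_nonneg_right hκκ.le hmu
    have e1 : κ * q = κ * sg + κ * mu := by rw [hq]; ring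
    rw [e1, hF]
    linarith
  have hB : |Y - q - x| ≤ δ := by
    have : Y - q - x = ∑ v ∈ s, X v + e - sg - mu - x := by rw [hY, hq]; ring
    rw [this]; exact hbal
  obtain ⟨hb1, hb2⟩ := abs_le.mp hB
  have hFη : η' * Y ≤ F := by
    have := Fa s X e (1 - η') he (by linarith) hX
    rw [hF, hY]
    linarith
  have hFg : gg Y ≤ F := by rw [hY, hF]; exact F_ge s X e he hX1
  -- lower bound of `κ q`
  have hκq : κ * (Y - x) - δ ≤ κ * q := by
    have h1 : κ * (Y - x - δ) ≤ κ * q := mul_le_mul_of_nonneg_left (by linarith) hκ.le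
    have h2 : κ * δ ≤ δ := by
      have := mul_le_left' hδ0.le (show κ ≤ 1 by linarith)
      linarith
    linarith
  have hY1 : Y ≤ 1 - η' / 4 := by
    by_contra hc
    push Not at hc
    have h1 : η' * (1 - η' / 4) ≤ η' * Y := mul_le_mul_of_nonneg_left hc.le hη.le
    have h2 : κ * (1 - η' / 4 - x) ≤ κ * (Y - x) := mul_le_mul_of_nonneg_left (by linarith) hκ.le
    have h3 : κ * (η' / 4) ≤ η' / 4 := by
      have := mul_le_left' (show 0 ≤ η' / 4 by linarith) (show κ ≤ 1 by linarith)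
      linarith
    have h4 : η' * (η' / 4) ≤ 1 / 2 * (η' / 4) := mul_le_mul_of_nonneg_right hη1 (by linarith)
    linarith
  have hFY : Y * (1 - Y) ≤ F := by rw [gg_of hY0 (by linarith)] at hFg; exact hFg
  have hYx : Y - x ≤ D := by
    rcases le_or_gt Y x with h | h
    · linarith
    · have h1 := interp (κ := κ) h.le (by linarith : Y ≤ 1)
      have h2 : (Y - x) * (1 - Y) ≤ 2 * δ := by linarith
      have h3 : (Y - x) * (η' / 4) ≤ (Y - x) * (1 - Y) :=
        mul_le_mul_of_nonneg_left (by linarith) (by linarith)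
      have h4 : (Y - x) * η' ≤ D * η' := by linarith
      exact le_of_mul_le_mul_right h4 hη
  have hYx2 : x - δ ≤ Y := by linarith
  have hqD : q ≤ 2 * D := by linarith
  -- the upper bound of `x`
  have hFx : x * (1 - x) - D ≤ F := by
    have e1 : Y * (1 - Y) - x * (1 - x) = (Y - x) * (1 - Y - x) := by ring
    have h1 : |(Y - x) * (1 - Y - x)| ≤ D * 1 := by
      rw [abs_mul]
      apply mul_le_mul _ _ (abs_nonneg _) hD0.le
      · rw [abs_le]; constructor <;> linarith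
      · rw [abs_le]; constructor <;> linarith
    have := (abs_le.mp h1).1
    linarith
  have hκq0 : 0 ≤ κ * q := by positivity
  have hxκ : x ≤ κ + ε2 := by
    by_contra hc
    push Not at hc
    have h1 : (x - κ) * (1 - x) ≤ 2 * D := by linarith
    have h2 : m * (η' / 8) ≤ (x - κ) * (1 - x) :=
      mul_le_mul (by linarith) (by linarith) (by linarith) (by linarith)
    have h3 : 0 < m * η' := by positivity
    linarith
  refine ⟨hxκ, ?_⟩
  have hεm : ε * ε * m ≤ ε * ε := mul_le_left' (by positivity) hm1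
  have hεε : 0 < ε * ε := by positivity
  have hxx : ε * ε ≤ x * x := mul_le_mul hx1 hx1 hε.le hx0.le
  have hne : s.Nonempty := by
    rw [Finset.nonempty_iff_ne_empty]
    intro hs
    have e1 : F = Y := by rw [hF, hY, hs]; simp
    have h1 : x - δ ≤ x * (1 - x) + δ := by linarith
    linarith
  obtain ⟨w, hw, hwmax⟩ := Finset.exists_max_image s X hne
  obtain ⟨a, ha⟩ : ∃ a, a = X w := ⟨_, rfl⟩
  have ha0 : 0 ≤ a := by rw [ha]; exact (hX w hw).1
  have haX : a ≤ ∑ v ∈ s, X v := by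
    rw [ha]; exact Finset.single_le_sum (fun v hv => (hX v hv).1) hw
  have ha1 : a ≤ 1 := by rw [ha]; exact (hX1 w hw).2.le
  have hFa : (1 - a) * Y ≤ F := by
    rw [hY, hF]
    exact Fa s X e a he ha0 fun v hv => ⟨(hX v hv).1, by rw [ha]; exact hwmax v hv⟩
  have h1 : (1 - a) * (x - δ) ≤ x * (1 - x) + δ := by
    have h2 : (1 - a) * (x - δ) ≤ (1 - a) * Y :=
      mul_le_mul_of_nonneg_left (by linarith) (by linarith)
    linarith
  have h2 : x * (x - a) ≤ 2 * δ := by linarith [mul_nonneg ha0 hδ0.le]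
  have h3 : x - a ≤ m / 10 := by
    by_contra hc
    push Not at hc
    have h4 : ε * (x - a) ≤ x * (x - a) := mul_le_mul_of_nonneg_right hx1 (by linarith)
    have h5 : ε * (m / 10) < ε * (x - a) := mul_lt_mul_of_pos_left hc hε
    have h6 : 0 < ε * m := by positivity
    linarith
  refine ⟨w, hw, ?_, ?_⟩
  · rw [← ha, abs_le]
    constructor <;> linarith
  · rw [← ha]
    have h6 : ∑ v ∈ s, X v - a + e + sg + mu = Y - a + q := by rw [hY, hq]; ring
    rw [h6]
    linarith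

/-- the case `k ≥ 1` -/
theorem k1 {κ κ' η' ε δ : ℝ} {k : ℤ} (hκ : 0 < κ) (hκκ : κ < κ') (hκ1 : κ' ≤ 1)
    (hη : 0 < η') (hη1 : η' ≤ 1 / 2) (hε : 0 < ε) (hδ0 : 0 < δ)
    (hδ : δ ≤ η' * η' * ε / 100) (hk : 1 ≤ k)
    {ι : Type} (s : Finset ι) (X : ι → ℝ) (e sg mu x : ℝ)
    (hX : ∀ v ∈ s, 0 ≤ X v ∧ X v ≤ 1 - η') (he : 0 ≤ e) (hsg : 0 ≤ sg) (hmu : 0 ≤ mu)
    (hx1 : ε ≤ x) (hx2 : x ≤ 1) (hbal : |∑ v ∈ s, X v + e - sg - mu - k - x| ≤ δ)
    (hcost : ∑ v ∈ s, X v * (1 - X v) + e + κ * sg + κ' * mu ≤ (1 - x) * min x κ + δ) :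
    False := by
  classical
  have hε1 : ε ≤ 1 := by linarith
  have hηε : η' * η' * ε ≤ η' * η' := mul_le_left' (by positivity) hε1
  have hηη : η' * η' ≤ η' * (1 / 2) := mul_le_mul_of_nonneg_left hη1 hη.le
  have hδη : δ ≤ η' / 200 := by linarith
  have hX1 : ∀ v ∈ s, 0 ≤ X v ∧ X v < 1 := fun v hv => ⟨(hX v hv).1, by
    have := (hX v hv).2; linarith⟩
  have hsum0 : 0 ≤ ∑ v ∈ s, X v := Finset.sum_nonneg fun v hv => (hX v hv).1
  have hx0 : 0 < x := by linarith
  have hkR : (1 : ℝ) ≤ k := by exact_mod_cast hk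
  obtain ⟨Y, hY⟩ : ∃ Y, Y = ∑ v ∈ s, X v + e := ⟨_, rfl⟩
  obtain ⟨q, hq⟩ : ∃ q, q = sg + mu := ⟨_, rfl⟩
  obtain ⟨F, hF⟩ : ∃ F, F = ∑ v ∈ s, X v * (1 - X v) + e := ⟨_, rfl⟩
  have hY0 : 0 ≤ Y := by linarith
  have hq0 : 0 ≤ q := by linarith
  have hmm : (1 - x) * min x κ ≤ κ * (1 - x) := by
    rw [mul_comm]
    exact mul_le_mul_of_nonneg_right (min_le_right _ _) (by linarith)
  have hC : F + κ * q ≤ (1 - x) * min x κ + δ := by
    have h1 : κ * mu ≤ κ' * mu := mul_le_mul_of_nonneg_right hκκ.le hmu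
    have e1 : κ * q = κ * sg + κ * mu := by rw [hq]; ring
    rw [e1, hF]
    linarith
  have hB : |Y - k - (x + q)| ≤ δ := by
    have : Y - k - (x + q) = ∑ v ∈ s, X v + e - sg - mu - k - x := by rw [hY, hq]; ring
    rw [this]; exact hbal
  obtain ⟨hb1, hb2⟩ := abs_le.mp hB
  have hFη : η' * Y ≤ F := by
    have := Fa s X e (1 - η') he (by linarith) hX
    rw [hF, hY]
    linarith
  have hηδ : η' * δ ≤ 1 / 2 * δ := mul_le_mul_of_nonneg_right hη1 hδ0.le
  obtain ⟨t, ht⟩ : ∃ t, t = x + q := ⟨_, rfl⟩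
  have htx : x ≤ t := by linarith
  have hYt : 1 + t - δ ≤ Y := by linarith
  have hηY : η' * (1 + t - δ) ≤ η' * Y := mul_le_mul_of_nonneg_left hYt hη.le
  have hηt : 0 ≤ η' * t := by
    have : 0 ≤ t := by linarith
    positivity
  have hκq : κ * q = κ * (t - x) := by rw [ht]; ring
  have ht1 : t < 1 := by
    by_contra h
    push Not at h
    have h1 : κ * (1 - x) ≤ κ * (t - x) := mul_le_mul_of_nonneg_left (by linarith) hκ.le
    linarith
  have hne : s.Nonempty := by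
    rw [Finset.nonempty_iff_ne_empty]
    intro hs
    have e1 : F = Y := by rw [hF, hY, hs]; simp
    have h1 : κ * (1 - x) ≤ 1 - x := by
      have := mul_le_left' (show 0 ≤ 1 - x by linarith) (show κ ≤ 1 by linarith)
      linarith
    have h2 : 0 ≤ κ * q := by positivity
    have h3 : η' * η' * ε ≤ 1 * ε := mul_le_mul_of_nonneg_right (by linarith) hε.le
    linarith
  obtain ⟨w, hw, hwmax⟩ := Finset.exists_max_image s X hne
  obtain ⟨a, ha⟩ : ∃ a, a = X w := ⟨_, rfl⟩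
  have ha0 : 0 ≤ a := by rw [ha]; exact (hX w hw).1
  have ha1 : a ≤ 1 - η' := by rw [ha]; exact (hX w hw).2
  have hFa : (1 - a) * Y ≤ F := by
    rw [hY, hF]
    exact Fa s X e a he ha0 fun v hv => ⟨(hX v hv).1, by rw [ha]; exact hwmax v hv⟩
  -- `a` is at most `t` up to a small error
  have hat : η' * (a - t) ≤ 3 * δ := by
    obtain ⟨u, hu⟩ : ∃ u, u = Y - k := ⟨_, rfl⟩
    have hu1 : u - t ≤ δ := by linarith
    have hu2 : -δ ≤ u - t := by linarith
    have hδε : δ ≤ ε / 2 := by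
      have h1 : η' * η' * ε ≤ 1 * ε := by
        apply mul_le_mul_of_nonneg_right _ hε.le
        linarith
      linarith
    rcases le_or_gt a u with h | h
    · have h1 : η' * (a - t) ≤ η' * δ := mul_le_mul_of_nonneg_left (by linarith) hη.le
      linarith
    · have hFe : F = ∑ v ∈ s.erase w, X v * (1 - X v) + e + a * (1 - a) := by
        rw [hF, ← Finset.sum_erase_add s _ hw, ha]; ring
      have hye : ∑ v ∈ s.erase w, X v + e = Y - a := by
        rw [hY, ← Finset.sum_erase_add s _ hw, ha]; ring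
      have h2 := F_ge (s.erase w) X e he (fun v hv => hX1 v (Finset.mem_of_mem_erase hv))
      rw [hye] at h2
      have h3 : gg (Y - a) = (1 - (a - u)) * (a - u) := by
        have e1 : Y - a = (1 - (a - u)) - ((-k + 1 : ℤ) : ℝ) := by
          push_cast; rw [hu]; ring
        rw [e1, gg_sub_int, gg_of (by linarith) (by linarith)]
        ring
      rw [h3] at h2
      have h4 : u * (1 - u) + 2 * (a - u) * (1 - a) ≤ F := by
        rw [hFe]
        linarith
      have h5 : t * (1 - t) - 2 * δ ≤ u * (1 - u) := by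
        have e2 : u * (1 - u) - t * (1 - t) = (u - t) * (1 - u - t) := by ring
        have h6 : |(u - t) * (1 - u - t)| ≤ δ * 2 := by
          rw [abs_mul]
          apply mul_le_mul _ _ (abs_nonneg _) hδ0.le
          · rw [abs_le]; constructor <;> linarith
          · rw [abs_le]; constructor <;> linarith
        have := (abs_le.mp h6).1
        linarith
      have h6 : (a - u) * η' ≤ (a - u) * (1 - a) :=
        mul_le_mul_of_nonneg_left (by linarith) (by linarith)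
      have h7 := interp (κ := κ) htx ht1.le
      have h8 : 0 ≤ (t - x) * (1 - t) := mul_nonneg (by linarith) (by linarith)
      have h9 : 2 * ((a - u) * η') ≤ 3 * δ := by linarith
      have h10 : η' * (a - t) ≤ η' * (a - u) + η' * δ := by
        rw [← mul_add]
        exact mul_le_mul_of_nonneg_left (by linarith) hη.le
      linarith
  -- `1 - t` is small
  have h1 : (1 - a) * (1 + t - δ) ≤ (1 - a) * Y := mul_le_mul_of_nonneg_left hYt (by linarith)
  have h2 : (1 - a) * (1 + t) ≤ κ * (1 - x) - κ * (t - x) + 2 * δ := by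
    have : (1 - a) * δ ≤ δ := by linarith [mul_nonneg ha0 hδ0.le]
    linarith
  have h3 : (1 - t) * (1 + t - κ) ≤ (a - t) * (1 + t) + 2 * δ := by linarith
  have h4 : η' * ((1 - t) * (1 + t - κ)) ≤ 8 * δ := by
    have h5 : η' * ((1 - t) * (1 + t - κ)) ≤ η' * ((a - t) * (1 + t) + 2 * δ) :=
      mul_le_mul_of_nonneg_left h3 hη.le
    have h6 : η' * (a - t) * (1 + t) ≤ 3 * δ * (1 + t) :=
      mul_le_mul_of_nonneg_right hat (by linarith)
    have h7 : 3 * δ * (1 + t) ≤ 3 * δ * 2 := mul_le_mul_of_nonneg_left (by linarith) (by linarith)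
    linarith
  have h5 : (1 - t) * ε ≤ (1 - t) * (1 + t - κ) :=
    mul_le_mul_of_nonneg_left (by linarith) (by linarith)
  have h6 : η' * ((1 - t) * ε) ≤ 8 * δ := by
    have : η' * ((1 - t) * ε) ≤ η' * ((1 - t) * (1 + t - κ)) :=
      mul_le_mul_of_nonneg_left h5 hη.le
    linarith
  have h7 : (η' * ε) * (1 - t) ≤ (η' * ε) * (η' / 10) := by
    have e1 : (η' * ε) * (1 - t) = η' * ((1 - t) * ε) := by ring
    have e2 : (η' * ε) * (η' / 10) = η' * η' * ε / 10 := by ring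
    rw [e1, e2]
    have : 0 < η' * η' * ε := by positivity
    linarith
  have h8 : 1 - t ≤ η' / 10 := le_of_mul_le_mul_left h7 (by positivity)
  have h9 : κ * (1 - η' / 10 - x) ≤ κ * (t - x) := mul_le_mul_of_nonneg_left (by linarith) hκ.le
  have h10 : κ * (η' / 10) ≤ η' / 10 := by
    have := mul_le_left' (show 0 ≤ η' / 10 by linarith) (show κ ≤ 1 by linarith)
    linarith
  linarith

end OPT3

open OPT2 OPT3 in
theorem blk_OPT3 : Stmt_OPT3 := by
  intro κ κ' η' ε ε2 hκ hκκ hκ1 hη hη1 hε hε2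
  obtain ⟨m, hm⟩ : ∃ m, m = min 1 ε2 := ⟨_, rfl⟩
  have hm0 : 0 < m := by rw [hm]; exact lt_min one_pos hε2
  have hm1 : m ≤ 1 := by rw [hm]; exact min_le_left _ _
  have hm2 : m ≤ ε2 := by rw [hm]; exact min_le_right _ _
  obtain ⟨ρ, hρ⟩ : ∃ ρ, ρ = κ' - κ := ⟨_, rfl⟩
  have hρ0 : 0 < ρ := by linarith
  have hρ1 : ρ ≤ 1 := by linarith
  have hκ2 : κ ≤ 1 := by linarith
  refine ⟨η' * η' * (ε * ε) * m * (κ * ρ) / 1000, by positivity, ?_⟩
  intro ι s X e sg mu x k hX he hsg hmu hx1 hx2 hbal hcost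
  obtain ⟨δ, hδ⟩ : ∃ δ, δ = η' * η' * (ε * ε) * m * (κ * ρ) / 1000 := ⟨_, rfl⟩
  rw [← hδ] at hbal hcost
  have hε1 : ε ≤ 1 := by linarith
  have hδ0 : 0 < δ := by rw [hδ]; positivity
  have hεε : ε * ε ≤ ε := mul_le_left' hε.le hε1
  have hηη : η' * η' ≤ η' := mul_le_left' hη.le (by linarith)
  have hκρ : κ * ρ ≤ κ := mul_le_left' hκ.le hρ1
  have hκρ2 : κ * ρ ≤ ρ := by rw [mul_comm]; exact mul_le_left' hρ0.le hκ2
  have hκρ1 : κ * ρ ≤ 1 := by linarith
  -- the bounds of `δ`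
  have b1 : δ ≤ η' * η' * ε / 100 := by
    have h1 : η' * η' * (ε * ε) * m * (κ * ρ) ≤ η' * η' * (ε * ε) * m :=
      mul_le_left' (by positivity) hκρ1
    have h2 : η' * η' * (ε * ε) * m ≤ η' * η' * (ε * ε) := mul_le_left' (by positivity) hm1
    have h3 : η' * η' * (ε * ε) ≤ η' * η' * ε := mul_le_mul_of_nonneg_left hεε (by positivity)
    have h4 : 0 < η' * η' * ε := by positivity
    linarith
  have hP : η' * η' * (ε * ε) ≤ 1 := by
    calc η' * η' * (ε * ε) ≤ η' * η' := mul_le_left' (by positivity) (by linarith)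
      _ ≤ 1 := by linarith
  have hP2 : η' * η' * (ε * ε) ≤ η' := by
    calc η' * η' * (ε * ε) ≤ η' * η' := mul_le_left' (by positivity) (by linarith)
      _ ≤ η' := by linarith
  have hP3 : η' * η' * (ε * ε) * m ≤ m := by
    calc η' * η' * (ε * ε) * m ≤ 1 * m := mul_le_mul_of_nonneg_right hP hm0.le
      _ = m := one_mul m
  have hP4 : η' * η' * (ε * ε) * m ≤ 1 := by linarith
  have b2 : δ ≤ κ / 1000 := by
    have : η' * η' * (ε * ε) * m * (κ * ρ) ≤ 1 * (κ * ρ) :=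
      mul_le_mul_of_nonneg_right hP4 (by positivity)
    linarith
  have b3 : δ ≤ ρ * m / 1000 := by
    have h1 : η' * η' * (ε * ε) * m * (κ * ρ) ≤ m * ρ :=
      mul_le_mul hP3 hκρ2 (by positivity) hm0.le
    linarith
  have b4 : δ ≤ η' * m / 1000 := by
    have h1 : η' * η' * (ε * ε) * m ≤ η' * m := mul_le_mul_of_nonneg_right hP2 hm0.le
    have h2 : η' * η' * (ε * ε) * m * (κ * ρ) ≤ η' * η' * (ε * ε) * m :=
      mul_le_left' (by positivity) hκρ1
    linarith
  have hsum0 : 0 ≤ ∑ v ∈ s, X v := Finset.sum_nonneg fun v hv => (hX v hv).1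
  rcases lt_trichotomy k 0 with hk | hk | hk
  · -- `k < 0`
    obtain ⟨Y, hY⟩ : ∃ Y, Y = ∑ v ∈ s, X v + e := ⟨_, rfl⟩
    obtain ⟨q, hq⟩ : ∃ q, q = sg + mu := ⟨_, rfl⟩
    obtain ⟨F, hF⟩ : ∃ F, F = ∑ v ∈ s, X v * (1 - X v) + e := ⟨_, rfl⟩
    have hY0 : 0 ≤ Y := by linarith
    have hFη : η' * Y ≤ F := by
      have := Fa s X e (1 - η') he (by linarith) hX
      rw [hF, hY]
      linarith
    have hmm : (1 - x) * min x κ ≤ κ * (1 - x) := by
      rw [mul_comm]
      exact mul_le_mul_of_nonneg_right (min_le_right _ _) (by linarith)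
    have hmx : (1 - x) * min x κ ≤ x * (1 - x) := by
      rw [mul_comm]
      exact mul_le_mul_of_nonneg_right (min_le_left _ _) (by linarith)
    have hC : F + κ * q + ρ * mu ≤ (1 - x) * min x κ + δ := by
      have e1 : κ * q + ρ * mu = κ * sg + κ' * mu := by rw [hq, hρ]; ring
      rw [hF]
      linarith
    have hB : |Y - q - k - x| ≤ δ := by
      have : Y - q - k - x = ∑ v ∈ s, X v + e - sg - mu - k - x := by rw [hY, hq]; ring
      rw [this]; exact hbal
    obtain ⟨hb1, hb2⟩ := abs_le.mp hB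
    have hρmu : 0 ≤ ρ * mu := by positivity
    have hηY : 0 ≤ η' * Y := by positivity
    have hκδ : κ * δ ≤ δ := by
      have := mul_le_left' hδ0.le hκ2
      linarith
    by_cases hk2 : k = -1
    · refine Or.inr ⟨hk2, ?_, ?_⟩
      all_goals
        have hkR : (k : ℝ) = -1 := by rw [hk2]; simp
        have h1 : κ * (Y + 1 - x - δ) ≤ κ * q := mul_le_mul_of_nonneg_left (by linarith) hκ.le
        have hκY : 0 ≤ κ * Y := by positivity
      · by_contra hc
        push Not at hc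
        have h2 : (κ - x) * (1 - x) ≤ 2 * δ := by linarith
        have h3 : m * ρ ≤ (κ - x) * (1 - x) :=
          mul_le_mul (by linarith) (by linarith) hρ0.le (by linarith)
        have h4 : 0 < ρ * m := by positivity
        linarith
      · have h2 : η' * Y + ρ * mu ≤ 2 * δ := by linarith
        have h3 : Y ≤ m / 4 := by
          have : η' * Y ≤ η' * (m / 4) := by
            have : 0 < η' * m := by positivity
            linarith
          exact le_of_mul_le_mul_left this hη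
        have h4 : mu ≤ m / 4 := by
          have : ρ * mu ≤ ρ * (m / 4) := by
            have : 0 < ρ * m := by positivity
            linarith
          exact le_of_mul_le_mul_left this hρ0
        linarith
    · exfalso
      have hk3 : k ≤ -2 := by omega
      have hkR : (k : ℝ) ≤ -2 := by exact_mod_cast hk3
      have h1 : κ * (2 - x - δ) ≤ κ * q := mul_le_mul_of_nonneg_left (by linarith) hκ.le
      linarith
  · -- `k = 0`
    left
    have hkR : (k : ℝ) = 0 := by rw [hk]; simp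
    refine ⟨hk, ?_⟩
    obtain ⟨D, hD⟩ : ∃ D, D = 8 * (η' * (ε * ε) * m * (κ * ρ) / 1000) := ⟨_, rfl⟩
    have hDδ : D * η' = 8 * δ := by rw [hD, hδ]; ring
    have hD0 : 0 < D := by rw [hD]; positivity
    have hδD : δ ≤ D := by
      have : D * η' ≤ D * (1 / 2) := mul_le_mul_of_nonneg_left hη1 hD0.le
      linarith
    have hQ : η' * (ε * ε) * m * (κ * ρ) ≤ η' * (ε * ε) * m := mul_le_left' (by positivity) hκρ1
    have hQ1 : η' * (ε * ε) ≤ η' := mul_le_left' hη.le (by linarith)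
    have hQ2 : η' * (ε * ε) ≤ ε * ε := by
      rw [mul_comm]; exact mul_le_left' (by positivity) (by linarith)
    have hD1 : D ≤ η' * m / 125 := by
      have : η' * (ε * ε) * m ≤ η' * m := mul_le_mul_of_nonneg_right hQ1 hm0.le
      linarith
    have hD2 : D ≤ ε * ε * m / 125 := by
      have : η' * (ε * ε) * m ≤ ε * ε * m := mul_le_mul_of_nonneg_right hQ2 hm0.le
      linarith
    have hD3 : D ≤ ε * m / 125 := by
      have : ε * ε * m ≤ ε * m := mul_le_mul_of_nonneg_right hεε hm0.le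
      linarith
    have hD4 : D ≤ m / 125 := by
      have : ε * m ≤ 1 * m := mul_le_mul_of_nonneg_right hε1 hm0.le
      linarith
    have hbal' : |∑ v ∈ s, X v + e - sg - mu - x| ≤ δ := by
      rw [hkR] at hbal
      have : ∑ v ∈ s, X v + e - sg - mu - x = ∑ v ∈ s, X v + e - sg - mu - 0 - x := by ring
      rw [this]; exact hbal
    exact k0 hκ hκκ hκ1 hη hη1 hε hm0 hm2 hD0 hδ0 hDδ hδD hD1 hD2 hD3 hD4 hm1 s X e sg mu x hX
      he hsg hmu hx1 hx2 hbal' hcost
  · exact (k1 hκ hκκ hκ1 hη hη1 hε hδ0 b1 (by omega) s X e sg mu x hX he hsg hmu hx1 hx2 hbal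
      hcost).elim

end Pool.Agent.Work.MP_5532fa_up
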