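import Pool.Agent.Work.MP_5532fa_up.SM1a
import Pool.Agent.Work.MP_5532fa_up.B1C
import Pool.Agent.Work.MP_5532fa_up.MV2

/-!
# MP_5532fa_co upgrade, second round, block S1: small `j`, no missing pairs and balanced classes
-/

set_option autoImplicit false

open Finset

namespace Pool.Agent.Work.MP_5532fa_up

open MP5532fa (specRad qf pE)

namespace S1

section
variable {V : Type} [Fintype V] {r : ℕ}

omit [Fintype V] in
/-- moving one vertex changes the sum of the squares of the class sums -/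
theorem move_cs {H : Finset V} {c c' : V → Fin r} {v : V} (hv : v ∈ H) (h1 : c' v ≠ c v)
    (h2 : ∀ u, u ≠ v → c' u = c u) (x : V → ℝ) :
    ∑ i, cs x H c' i * cs x H c' i = ∑ i, cs x H c i * cs x H c i
      - 2 * (x v * (cs x H c (c v) - cs x H c (c' v) - x v)) := by
  classical
  have e1 : cs x H c' (c v) = cs x H c (c v) - x v := by
    unfold cs
    rw [MV2.cl_old hv h1 h2]
    have hvc : v ∈ cl H c (c v) := mem_cl.2 ⟨hv, rfl⟩
    rw [← add_sum_erase _ _ hvc]
    ring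
  have e2 : cs x H c' (c' v) = x v + cs x H c (c' v) := by
    unfold cs
    rw [MV2.cl_new hv h1 h2, sum_insert]
    intro h
    exact h1 (mem_cl.1 h).2.symm
  have hm : c' v ∈ (univ : Finset (Fin r)).erase (c v) := mem_erase.2 ⟨h1, mem_univ _⟩
  have e3 : ∑ i ∈ ((univ : Finset (Fin r)).erase (c v)).erase (c' v), cs x H c' i * cs x H c' i =
      ∑ i ∈ ((univ : Finset (Fin r)).erase (c v)).erase (c' v), cs x H c i * cs x H c i := by
    refine sum_congr rfl fun i hi => ?_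
    rw [mem_erase, mem_erase] at hi
    unfold cs
    rw [MV2.cl_other h2 hi.2.1 hi.1]
  rw [← add_sum_erase univ (fun i => cs x H c' i * cs x H c' i) (mem_univ (c v)),
    ← add_sum_erase univ (fun i => cs x H c i * cs x H c i) (mem_univ (c v)),
    ← add_sum_erase _ (fun i => cs x H c' i * cs x H c' i) hm,
    ← add_sum_erase _ (fun i => cs x H c i * cs x H c i) hm, e3, e1, e2]
  ring

omit [Fintype V] in
theorem sz_cs (H : Finset V) (c : V → Fin r) (i : Fin r) : sz H c i = cs (fun _ => 1) H c i := by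
  unfold sz cs
  simp

theorem move_form {H : Finset V} {c c' : V → Fin r} {v : V} (hv : v ∈ H) (h1 : c' v ≠ c v)
    (h2 : ∀ u, u ≠ v → c' u = c u) (x : V → ℝ) :
    ∑ a, ∑ b, chi (a ∈ H ∧ b ∈ H ∧ c' a ≠ c' b) * (x a * x b) =
      ∑ a, ∑ b, chi (a ∈ H ∧ b ∈ H ∧ c a ≠ c b) * (x a * x b)
      + 2 * (x v * (cs x H c (c v) - cs x H c (c' v) - x v)) := by
  rw [MV2.multi, MV2.multi, move_cs hv h1 h2 x]
  ring

omit [Fintype V] in
theorem move_sz {H : Finset V} {c c' : V → Fin r} {v : V} (hv : v ∈ H) (h1 : c' v ≠ c v)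
    (h2 : ∀ u, u ≠ v → c' u = c u) :
    ∑ i, sz H c' i ^ 2 = ∑ i, sz H c i ^ 2 - 2 * (sz H c (c v) - sz H c (c' v) - 1) := by
  have := move_cs hv h1 h2 (fun _ => 1)
  simp only [← sz_cs] at this
  simp only [sq]
  rw [this]
  ring

omit [Fintype V] in
theorem move_bd {H : Finset V} {c c' : V → Fin r} {v : V} (hv : v ∈ H) (h1 : c' v ≠ c v)
    (h2 : ∀ u, u ≠ v → c' u = c u) (i : Fin r) : |sz H c' i - sz H c i| ≤ 1 := by
  classical
  by_cases hi : i = c v
  · subst hi
    have hvc : v ∈ cl H c (c v) := mem_cl.2 ⟨hv, rfl⟩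
    unfold sz
    rw [MV2.cl_old hv h1 h2]
    have h3 := card_erase_add_one hvc
    have h4 : (((cl H c (c v)).erase v).card : ℝ) + 1 = (cl H c (c v)).card := by
      exact_mod_cast h3
    rw [← h4, abs_le]
    constructor <;> linarith
  · by_cases hi2 : i = c' v
    · subst hi2
      have hvc : v ∉ cl H c (c' v) := fun h => h1 (mem_cl.1 h).2.symm
      unfold sz
      rw [MV2.cl_new hv h1 h2, card_insert_of_notMem hvc, abs_le]
      push_cast
      constructor <;> linarith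
    · unfold sz
      rw [MV2.cl_other h2 hi hi2, sub_self, abs_zero]
      norm_num

theorem card_out (H : Finset V) : H.card + (out H).card = Fintype.card V := by
  classical
  have h1 : out H = univ \ H := by
    ext v
    rw [mem_out, mem_sdiff]
    simp
  rw [h1, card_sdiff_of_subset (subset_univ H), card_univ]
  have := card_le_univ H
  omega

omit [Fintype V] in
/-- the numerical estimate -/
theorem fin {G5 M g0 R e K d W r : ℝ} (hr : 3 ≤ r) (hK : 1 ≤ K) (he0 : 0 < e)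
    (he : e * (100 * (K + r)) ≤ 1) (hW : 0 < W) (hW1 : W / 5 ≤ G5 + 2 * M * (1 - e) ^ 2)
    (hW2 : d + 2 * M + 1 ≤ 4 * W) (hW3 : M + g0 + r ≤ 2 * r * W)
    (hR : R = e * K * (d + 2 * M + 1) + 2 * (M + g0 + r)) :
    0 < G5 + 2 * M * (1 - e) ^ 2 - 2 * e * R := by
  have h1 : e * K * (d + 2 * M + 1) ≤ e * K * (4 * W) :=
    mul_le_mul_of_nonneg_left hW2 (by positivity)
  have h2 : R ≤ 4 * (e * K) * W + 4 * r * W := by rw [hR]; linarith
  have h3 : 2 * e * R ≤ 2 * e * (4 * (e * K) * W + 4 * r * W) :=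
    mul_le_mul_of_nonneg_left h2 (by positivity)
  have h40 : 0 ≤ e * K := by positivity
  have h50 : 0 ≤ e * r := by positivity
  have h4 : e * K ≤ 1 / 100 := by linarith
  have h5 : e * r ≤ 1 / 100 := by linarith
  have h6 : e ≤ 1 / 100 := by
    have : e * 1 ≤ e * K := mul_le_mul_of_nonneg_left hK he0.le
    linarith
  have h7 : e * (e * K) ≤ 1 / 100 * (1 / 100) := mul_le_mul h6 h4 (by positivity) (by norm_num)
  have h8 : 2 * e * (4 * (e * K) * W + 4 * r * W) = (8 * (e * (e * K)) + 8 * (e * r)) * W := by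
    ring
  have h9 : (8 * (e * (e * K)) + 8 * (e * r)) * W ≤ 1 / 10 * W :=
    mul_le_mul_of_nonneg_right (by linarith) hW.le
  linarith

theorem key (h1 : Stmt_GE) (h2 : Stmt_EID) (h3 : Stmt_EVN) (h4 : Stmt_TNB) (h6 : Stmt_SETS)
    (hr : 3 ≤ r) {K e : ℝ} (hK : 1 ≤ K) (he0 : 0 < e) (he : e * (100 * (K + r)) ≤ 1) {N j : ℕ}
    (hN : 1000 * (r : ℝ) ≤ N) (hj : 2 * r ≤ j + 1) {G : SimpleGraph V} {c c' : V → Fin r}
    {H : Finset V} (hcV : N + 2 ≤ Fintype.card V) (hC : C0 r e N G c H) (hMX : MX r G)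
    (hpE : pE G = 2 * ((tn r N : ℝ) + j)) {x : V → ℝ} {lam xb : ℝ} (hx : PV G x lam)
    (hFl : Fl r e N H x lam xb)
    (hflat : ∀ u ∈ H, ∀ v ∈ H, |x u - x v|
        ≤ K / N * xb * (|sz H c (c u) - sz H c (c v)| + mis G H c + 1))
    {d : ℝ} (hd : ∀ i k, |sz H c i - sz H c k| ≤ d) {g0 : ℕ}
    (hszc : ∀ i, |sz H c' i - N / r| ≤ e * N + 1)
    (hsq : ∑ i, sz H c' i ^ 2 = ∑ i, sz H c i ^ 2 - 2 * g0) {G5 W : ℝ}
    (hgain : ∑ a, ∑ b, chi (a ∈ H ∧ b ∈ H ∧ c a ≠ c b) * (x a * x b) + G5 * (xb * xb) ≤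
      ∑ a, ∑ b, chi (a ∈ H ∧ b ∈ H ∧ c' a ≠ c' b) * (x a * x b))
    (hW : 0 < W) (hW1 : W / 5 ≤ G5 + mis G H c * (1 - e) ^ 2)
    (hW2 : d + mis G H c + 1 ≤ 4 * W) (hW3 : mis G H c / 2 + g0 + r ≤ 2 * r * W) : False := by
  classical
  have hr3 : (3 : ℝ) ≤ r := by exact_mod_cast hr
  have hr0 : (0 : ℝ) < r := by linarith
  have hN0 : (0 : ℝ) < N := by linarith
  have he6 : e ≤ 1 / 400 := by
    have : e * 400 ≤ e * (100 * (K + r)) := mul_le_mul_of_nonneg_left (by linarith) he0.le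
    linarith
  have her : e * (100 * r) ≤ 1 := by
    have : 0 ≤ e * (100 * K) := by positivity
    linarith
  obtain ⟨⟨M, hM⟩, ⟨E, hE⟩⟩ := h3 r V G c H
  obtain ⟨D, hD⟩ : ∃ D : ℕ, D = ∑ a ∈ out H, dg G H a := ⟨_, rfl⟩
  obtain ⟨g, hg⟩ : ∃ g : ℕ, g = D + E := ⟨_, rfl⟩
  have hDR : ∑ v ∈ out H, (dg G H v : ℝ) = D := by rw [hD, Nat.cast_sum]
  have hER : (eu G H : ℝ) = 2 * E := by rw [hE]; push_cast; ring
  have hMR : (mis G H c : ℝ) = 2 * M := by rw [hM]; push_cast; ring
  have hgR : (g : ℝ) = D + E := by exact_mod_cast hg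
  have hE0 : (0 : ℝ) ≤ E := Nat.cast_nonneg _
  have hM0 : (0 : ℝ) ≤ M := Nat.cast_nonneg _
  have hg00 : (0 : ℝ) ≤ g0 := Nat.cast_nonneg _
  have hcard := hC.card
  have heid := h2 r V G c H hC.ind
  rw [hpE, hDR, hER, hMR, hcard] at heid
  have hge : (g : ℝ) ≤ e * N := by
    have h9 := hC.eo
    rw [SM1a.eo_split, hDR, hER] at h9
    linarith
  -- the number of edges
  have htn := h4 r N (fun i => (cl H c' i).card) hr (by rw [sum_card_cl, hcard])
  have htnR : (N : ℝ) ^ 2 ≤ 2 * tn r N + ∑ i, sz H c' i ^ 2 := by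
    unfold sz
    exact_mod_cast htn
  have hjg : j + M + g0 ≤ g := by
    have : (j : ℝ) + M + g0 ≤ g := by linarith
    exact_mod_cast this
  obtain ⟨T, hT⟩ : ∃ T : ℕ, T + r + M + g0 = g := ⟨g - r - M - g0, by omega⟩
  have hrT : r ≤ T + 1 := by omega
  have hTR : (T : ℝ) + r + M + g0 = g := by exact_mod_cast hT
  have hTg : (T : ℝ) ≤ g := by linarith
  -- sizes
  have hszr : ∀ i, ((cl H c' i).card : ℝ) ≤ N / r + e * N + 1 ∧
      N / r - e * N - 1 ≤ (cl H c' i).card := by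
    intro i
    have h9 := abs_le.1 (hszc i)
    unfold sz at h9
    constructor <;> linarith
  have hNr3 : (N : ℝ) / r ≤ N / 3 := div_le_div_of_nonneg_left hN0.le (by norm_num) hr3
  have hNr1000 : 1000 ≤ (N : ℝ) / r := by rw [le_div_iff₀ hr0]; linarith
  have heN : e * N ≤ 1 / 400 * N := mul_le_mul_of_nonneg_right he6 hN0.le
  have heNr : e * N ≤ 1 / 100 * (N / r) := by
    have h9 : e * N = (e * (100 * r)) * (1 / 100 * (N / r)) := by field_simp
    rw [h9]
    exact mul_le_of_le_one_left (by positivity) her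
  have hcl2 : ∀ i, 2 ≤ (cl H c' i).card := by
    intro i
    have h9 := (hszr i).2
    have h10 : (2 : ℝ) ≤ (cl H c' i).card := by linarith
    exact_mod_cast h10
  have hrpos : 0 < r := by omega
  obtain ⟨i0, -⟩ : ∃ i0 : Fin r, i0 = ⟨0, hrpos⟩ := ⟨_, rfl⟩
  have hTle : T + (cl H c' i0).card + 1 ≤ H.card := by
    rw [hcard]
    have h9 : (T : ℝ) + (cl H c' i0).card + 1 ≤ N := by
      have h10 := (hszr i0).1
      linarith
    exact_mod_cast h9
  have hATle : (∅ : Finset V).card + (cl H c' i0).card < H.card := by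
    rw [hcard, card_empty, zero_add]
    omega
  obtain ⟨A', B, hA'H, hBH, hA'0, hB0, hA'ne, hB1, hBA, hA'c, -⟩ :=
    h6 r hr V H ∅ c' i0 T (empty_subset _) (by unfold cl; exact filter_empty _) hcl2 hrT hTle
      hATle
  -- the vertices `w` and `u`
  have hco := card_out H
  have hout2 : 1 < (out H).card := by omega
  obtain ⟨w, hwo, hwmax⟩ := exists_max_image (out H) x (card_pos.1 (by omega))
  obtain ⟨u, huo, huw⟩ := exists_mem_ne hout2 w
  have hw : w ∉ H := mem_out.1 hwo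
  have hu : u ∉ H := mem_out.1 huo
  have hV : Nonempty V := ⟨w⟩
  -- maximum and minimum on `H`
  have hHne : H.Nonempty := card_pos.1 (by
    rw [hcard]
    have : (0 : ℝ) < (N : ℝ) := hN0
    exact_mod_cast this)
  obtain ⟨p, hpH, hpmax⟩ := exists_max_image H x hHne
  obtain ⟨q, hqH, hqmin⟩ := exists_min_image H x hHne
  have hxb := hFl.xb0
  have hxn := hx.nn
  have hxw : x w ≤ e * xb := hFl.xo w hw
  have hp1 := abs_le.1 (hFl.xH p hpH)
  have hq1 := abs_le.1 (hFl.xH q hqH)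
  have hexb : e * xb ≤ 1 / 400 * xb := mul_le_mul_of_nonneg_right he6 hxb.le
  have hpw : x w ≤ x p := by linarith
  obtain ⟨G', hG'⟩ : ∃ G', G' = gE H c' w u A' B := ⟨_, rfl⟩
  have hWE : WE G' N H c' w u A' B i0 := by
    rw [hG']
    exact gE_WE hcard hw hu huw.symm hA'H hBH hA'0 hB0 hA'ne hB1 hBA
  obtain ⟨g1, g2, g3⟩ := h1 r hr V _ N H c' w u A' B i0 hWE
  have hpE' : pE G' = pE G := by
    rw [g3, hpE, hA'c, hsq]
    linarith
  have hle : specRad G' ≤ lam := by
    rw [hx.rad]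
    exact hMX _ g1 (g2 fun i => le_trans (by norm_num) (hcl2 i)) hpE'
  have hray := rayleigh G' x
  rw [hx.unit, mul_one] at hray
  have hform := hx.form
  have hlow := B1C.lower G' H A' c' w x hxn hw hA'H
    (fun a b ha hb hab => (hWE.adj a b).2 (Or.inl ⟨ha, hb, hab⟩))
    (fun b hb => (hWE.adj w b).2 (Or.inr (Or.inl ⟨rfl, hb⟩)))
  have hup := B1C.upper G H c w x ((1 - e) ^ 2 * (xb * xb)) (x w * x p) hw hC.ind
    (by
      intro a ha b hb
      have e1 := (abs_le.1 (hFl.xH a ha)).1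
      have e2 := (abs_le.1 (hFl.xH b hb)).1
      have e3 : 0 ≤ (1 - e) * xb := mul_nonneg (by linarith) hxb.le
      calc (1 - e) ^ 2 * (xb * xb) = ((1 - e) * xb) * ((1 - e) * xb) := by ring
        _ ≤ x a * x b := mul_le_mul (by linarith) (by linarith) e3 (by linarith))
    (by
      intro a ha haw b hb
      exact mul_le_mul (hwmax a (mem_out.2 ha)) (hpmax b hb) (hxn b) (hxn w))
    (by
      intro a ha b hb hab
      exact mul_le_mul (hwmax a (mem_out.2 ha)) ((hwmax b (mem_out.2 hb)).trans hpw) (hxn b)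
        (hxn w))
  -- sums
  have hsA : (T : ℝ) * x q ≤ ∑ b ∈ A', x b := by
    have := card_nsmul_le_sum A' x (x q) (fun b hb => hqmin b (hA'H hb))
    rw [nsmul_eq_mul, hA'c] at this
    exact this
  have hsB : ∑ b ∈ nb G H w, x b ≤ (dg G H w : ℝ) * x p := by
    have := sum_le_card_nsmul (nb G H w) x (x p) (fun b hb => hpmax b (mem_nb.1 hb).1)
    rw [nsmul_eq_mul] at this
    exact this
  have hsplit : (dg G H w : ℝ) + ∑ a ∈ (out H).erase w, (dg G H a : ℝ) = D := by
    rw [add_sum_erase _ (fun a => (dg G H a : ℝ)) hwo, hDR]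
  have hxw0 := hxn w
  have hm1 : x w * ((T : ℝ) * x q) ≤ x w * ∑ b ∈ A', x b := mul_le_mul_of_nonneg_left hsA hxw0
  have hm2 : x w * ∑ b ∈ nb G H w, x b ≤ x w * ((dg G H w : ℝ) * x p) :=
    mul_le_mul_of_nonneg_left hsB hxw0
  rw [hMR, hER] at hup
  have hup2 : 2 * (x w * ((dg G H w : ℝ) * x p))
      + (2 * ∑ a ∈ (out H).erase w, (dg G H a : ℝ) + 2 * E) * (x w * x p) =
      2 * (x w * ((g : ℝ) * x p)) := by
    rw [hgR, ← hsplit]
    ring
  -- the difference
  have hdiff : G5 * (xb * xb) + 2 * M * ((1 - e) ^ 2 * (xb * xb))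
      + 2 * (x w * ((T : ℝ) * x q - (g : ℝ) * x p)) ≤ 0 := by
    have h9 : x w * ((T : ℝ) * x q - (g : ℝ) * x p) =
        x w * ((T : ℝ) * x q) - x w * ((g : ℝ) * x p) := by ring
    rw [h9]
    linarith
  have hpq : x p - x q ≤ K / N * xb * (d + 2 * M + 1) := by
    have h9 := hflat p hpH q hqH
    have h10 := hd (c p) (c q)
    rw [hMR] at h9
    have h11 : K / N * xb * (|sz H c (c p) - sz H c (c q)| + 2 * M + 1) ≤
        K / N * xb * (d + 2 * M + 1) := mul_le_mul_of_nonneg_left (by linarith) (by positivity)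
    exact (le_abs_self _).trans (h9.trans h11)
  have hd0 : 0 ≤ d := (abs_nonneg _).trans (hd i0 i0)
  obtain ⟨R, hR⟩ : ∃ R : ℝ, R = e * K * (d + 2 * M + 1) + 2 * (M + g0 + r) := ⟨_, rfl⟩
  have hR0 : 0 ≤ R := by rw [hR]; positivity
  have hTq : -(xb * R) ≤ (T : ℝ) * x q - (g : ℝ) * x p := by
    have h9 : (T : ℝ) * x q - (g : ℝ) * x p = -((T : ℝ) * (x p - x q)) - (r + M + g0) * x p := by
      rw [← hTR]; ring
    have h10 : (T : ℝ) * (x p - x q) ≤ e * N * (K / N * xb * (d + 2 * M + 1)) :=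
      mul_le_mul (hTg.trans hge) hpq (by have := hpmax q hqH; linarith) (by positivity)
    have h11 : e * N * (K / N * xb * (d + 2 * M + 1)) = xb * (e * K * (d + 2 * M + 1)) := by
      field_simp
    have h12 : ((r : ℝ) + M + g0) * x p ≤ (r + M + g0) * (2 * xb) :=
      mul_le_mul_of_nonneg_left (by linarith) (by positivity)
    rw [h9, hR]
    linarith
  have hwR : x w * -(xb * R) ≤ x w * ((T : ℝ) * x q - (g : ℝ) * x p) :=
    mul_le_mul_of_nonneg_left hTq hxw0
  have hwR2 : x w * (xb * R) ≤ e * xb * (xb * R) :=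
    mul_le_mul_of_nonneg_right hxw (by positivity)
  rw [hMR] at hW1 hW2 hW3
  have hfin := fin (G5 := G5) (M := M) (g0 := g0) (R := R) (e := e) (K := K) (d := d) (W := W)
    (r := r) hr3 hK he0 he hW hW1 hW2 (by linarith) hR
  have hxx : 0 < xb * xb := mul_pos hxb hxb
  have hfin2 := mul_pos hxx hfin
  linarith

end

end S1

open S1 in
theorem blk_S1 (h1 : Stmt_GE) (h2 : Stmt_EID) (h3 : Stmt_EVN) (h4 : Stmt_TNB) (h5 : Stmt_FLAT)
    (h6 : Stmt_SETS) : Stmt_S1 := by
  classical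
  intro r hr
  have hr3 : (3 : ℝ) ≤ r := by exact_mod_cast hr
  have hr0 : (0 : ℝ) < r := by linarith
  obtain ⟨K, hK, hflat⟩ := h5 r hr
  obtain ⟨e, he⟩ : ∃ e : ℝ, e = 1 / (100 * (K + r)) := ⟨_, rfl⟩
  have hKr : 0 < K + r := by linarith
  have he0 : 0 < e := by rw [he]; positivity
  have heK : e * (100 * (K + r)) ≤ 1 := by rw [he]; field_simp; exact le_refl _
  have he6 : e ≤ 1 / 400 := by
    have : e * 400 ≤ e * (100 * (K + r)) := mul_le_mul_of_nonneg_left (by linarith) he0.le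
    linarith
  obtain ⟨δ, N1, hδ0, hδe, hF⟩ := hflat e he0
  obtain ⟨N2, hN2⟩ := exists_nat_ge (1000 * (r : ℝ))
  refine ⟨δ, max N1 N2, hδ0, ?_⟩
  intro N hN j hj V _ G c H hcV hC hfree hMX hpE
  have hN1 : N1 ≤ N := (le_max_left _ _).trans hN
  have hNr : 1000 * (r : ℝ) ≤ N := hN2.trans (by exact_mod_cast (le_max_right _ _).trans hN)
  have hN0 : (0 : ℝ) < N := by linarith
  have hCe : C0 r e N G c H := SM1a.c0_mono hC hδe
  have hV : Nonempty V := Fintype.card_pos_iff.1 (by omega)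
  obtain ⟨x, hx⟩ := exists_PV G
  obtain ⟨xb, hFl, hcs, hfl⟩ := hF N hN1 V G x _ c H hC hx
  have hxb := hFl.xb0
  have hrpos : 0 < r := by omega
  have : Nonempty (Fin r) := ⟨⟨0, hrpos⟩⟩
  obtain ⟨l, -, hl⟩ := exists_max_image (univ : Finset (Fin r)) (fun i => (cl H c i).card)
    univ_nonempty
  obtain ⟨k, -, hk⟩ := exists_min_image (univ : Finset (Fin r)) (fun i => (cl H c i).card)
    univ_nonempty
  have hkl : (cl H c k).card ≤ (cl H c l).card := hk l (mem_univ _)
  obtain ⟨d, hd⟩ : ∃ d : ℕ, (cl H c k).card + d = (cl H c l).card :=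
    ⟨(cl H c l).card - (cl H c k).card, by omega⟩
  have hdR : sz H c l - sz H c k = d := by
    unfold sz
    have : ((cl H c k).card : ℝ) + d = (cl H c l).card := by exact_mod_cast hd
    linarith
  have hd2 : ∀ i i', |sz H c i - sz H c i'| ≤ d := by
    intro i i'
    rw [← hdR]
    have a1 : sz H c i ≤ sz H c l := by unfold sz; exact_mod_cast hl i (mem_univ _)
    have a2 : sz H c i' ≤ sz H c l := by unfold sz; exact_mod_cast hl i' (mem_univ _)
    have a3 : sz H c k ≤ sz H c i := by unfold sz; exact_mod_cast hk i (mem_univ _)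
    have a4 : sz H c k ≤ sz H c i' := by unfold sz; exact_mod_cast hk i' (mem_univ _)
    rw [abs_le]
    constructor <;> linarith
  have he1 : (4 : ℝ) / 5 ≤ (1 - e) ^ 2 := by
    have := sq_nonneg e
    linarith
  obtain ⟨⟨M, hM⟩, -⟩ := h3 r V G c H
  have hMR : (mis G H c : ℝ) = 2 * M := by rw [hM]; push_cast; ring
  have hM0 : (0 : ℝ) ≤ M := Nat.cast_nonneg _
  rcases le_or_gt d 1 with hd1 | hd1
  · -- balanced classes
    have hmis : mis G H c = 0 := by
      by_contra hmis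
      have hM1 : 1 ≤ M := by omega
      have hM1R : (1 : ℝ) ≤ M := by exact_mod_cast hM1
      have hd1R : (d : ℝ) ≤ 1 := by exact_mod_cast hd1
      refine key h1 h2 h3 h4 h6 hr hK he0 heK hNr hj (c := c) (c' := c) (g0 := 0) (G5 := 0)
        (W := M) hcV hCe hMX hpE hx hFl hfl hd2 ?_ ?_ ?_ (by linarith) ?_ ?_ ?_
      · intro i
        have := hCe.bal i
        linarith
      · simp
      · rw [zero_mul, add_zero]
      · rw [hMR]
        have : 2 * (M : ℝ) * (4 / 5) ≤ 2 * M * (1 - e) ^ 2 :=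
          mul_le_mul_of_nonneg_left he1 (by linarith)
        linarith
      · rw [hMR]; linarith
      · rw [hMR]
        have h9 : (r : ℝ) * 1 ≤ r * M := mul_le_mul_of_nonneg_left hM1R hr0.le
        have h10 : 3 * (M : ℝ) ≤ r * M := mul_le_mul_of_nonneg_right hr3 hM0
        push_cast
        linarith
    refine ⟨hmis, fun i i' => ?_⟩
    have a1 := hl i (mem_univ _)
    have a2 := hk i' (mem_univ _)
    omega
  · -- move a vertex
    exfalso
    have hdR2 : (2 : ℝ) ≤ d := by exact_mod_cast hd1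
    obtain ⟨v, hv⟩ : (cl H c l).Nonempty := card_pos.1 (by omega)
    have hvH := (mem_cl.1 hv).1
    have hvc := (mem_cl.1 hv).2
    have hlk : k ≠ l := by
      rintro rfl
      omega
    obtain ⟨c', hc'⟩ : ∃ c' : V → Fin r, c' = Function.update c v k := ⟨_, rfl⟩
    have hc'v : c' v = k := by rw [hc']; exact Function.update_self _ _ _
    have hc'u : ∀ u, u ≠ v → c' u = c u := fun u hu => by
      rw [hc']; exact Function.update_of_ne hu _ _
    have hne : c' v ≠ c v := by rw [hc'v, hvc]; exact hlk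
    obtain ⟨g0, hg0⟩ : ∃ g0 : ℕ, g0 + 1 = d := ⟨d - 1, by omega⟩
    have hg0R : (g0 : ℝ) + 1 = d := by exact_mod_cast hg0
    have hx1 := abs_le.1 (hFl.xH v hvH)
    have hgain : (d : ℝ) / 5 * (xb * xb) ≤
        2 * (x v * (cs x H c (c v) - cs x H c (c' v) - x v)) := by
      rw [hvc, hc'v]
      have a1 := abs_le.1 (hcs l k)
      rw [hdR, abs_of_nonneg (by linarith : (0 : ℝ) ≤ d)] at a1
      have a2 : 2 / 3 * ((d : ℝ) * xb) ≤ al r * (d * xb) :=
        mul_le_mul_of_nonneg_right (al_ge hr) (by positivity)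
      have a3 : e * (xb * (d + 1)) ≤ 1 / 400 * (xb * (d + 1)) :=
        mul_le_mul_of_nonneg_right he6 (by positivity)
      have a4 : e * xb ≤ 1 / 400 * xb := mul_le_mul_of_nonneg_right he6 hxb.le
      have a5 : 2 * xb ≤ d * xb := mul_le_mul_of_nonneg_right hdR2 hxb.le
      have a6 : (d : ℝ) * xb / 8 ≤ cs x H c l - cs x H c k - x v := by
        linarith
      have a7 : (399 / 400 * xb) * ((d : ℝ) * xb / 8) ≤ x v * (cs x H c l - cs x H c k - x v) :=
        mul_le_mul (by linarith) a6 (by positivity) (by linarith)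
      have a8 : 0 < (d : ℝ) * (xb * xb) := by positivity
      linarith
    refine key h1 h2 h3 h4 h6 hr hK he0 heK hNr hj (c := c) (c' := c') (g0 := g0)
      (G5 := d / 5) (W := d + M) hcV hCe hMX hpE hx hFl hfl hd2 ?_ ?_ ?_ (by linarith) ?_ ?_ ?_
    · intro i
      have b1 := abs_le.1 (hCe.bal i)
      have b2 := abs_le.1 (move_bd hvH hne hc'u i)
      rw [abs_le]
      constructor <;> linarith
    · rw [move_sz hvH hne hc'u, hvc, hc'v, hdR, ← hg0R]
      ring
    · rw [move_form hvH hne hc'u]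
      linarith
    · rw [hMR]
      have : 2 * (M : ℝ) * (4 / 5) ≤ 2 * M * (1 - e) ^ 2 :=
        mul_le_mul_of_nonneg_left he1 (by linarith)
      linarith
    · rw [hMR]; linarith
    · rw [hMR]
      have h9 : (r : ℝ) * 2 ≤ r * d := mul_le_mul_of_nonneg_left hdR2 hr0.le
      have h10 : 3 * (M : ℝ) ≤ r * M := mul_le_mul_of_nonneg_right hr3 hM0
      have h11 : 3 * (d : ℝ) ≤ r * d := mul_le_mul_of_nonneg_right hr3 (by linarith)
      linarith

end Pool.Agent.Work.MP_5532fa_up
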