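import Pool.Agent.Work.MP_5532fa_up.Interface2

/-!
# MP_5532fa_co upgrade, block SETS: choice of two neighbourhoods (helper63; copy of `B1C.sets`
with a weaker hypothesis on `T`)
-/

open Finset

namespace Pool.Agent.Work.MP_5532fa_up

open MP5532fa (specRad qf pE)

namespace SETS

section
variable {V : Type} [Fintype V] {r : ℕ}

omit [Fintype V] in
open Classical in
/-- choice of the neighbourhoods of the new graph -/
theorem sets (H A : Finset V) (c : V → Fin r) (i0 : Fin r) (T : ℕ) (hA : A ⊆ H)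
    (hA0 : cl A c i0 = ∅) (h2 : ∀ i, 2 ≤ (cl H c i).card) (hrT : r ≤ T + 1)
    (hT : T + (cl H c i0).card + 1 ≤ H.card) (hAT : A.card + (cl H c i0).card < H.card) :
    ∃ A' B : Finset V, A' ⊆ H ∧ B ⊆ H ∧ cl A' c i0 = ∅ ∧ cl B c i0 = ∅ ∧
      (∀ i, i ≠ i0 → (cl A' c i).Nonempty) ∧ (∀ i, i ≠ i0 → (cl B c i).card = 1) ∧ ¬ B ⊆ A' ∧
      A'.card = T ∧ (A' \ A).card + (A \ A').card ≤ (T - A.card) + (A.card - T) + 2 * r := by
  set U := H \ cl H c i0 with hU
  have hUm : ∀ v, v ∈ U ↔ v ∈ H ∧ c v ≠ i0 := by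
    intro v
    rw [hU, Finset.mem_sdiff, mem_cl]
    tauto
  have hUc : U.card = H.card - (cl H c i0).card :=
    Finset.card_sdiff_of_subset (fun v hv => (mem_cl.1 hv).1)
  have hAc : ∀ v ∈ A, c v ≠ i0 := by
    intro v hv h
    have : v ∈ cl A c i0 := mem_cl.2 ⟨hv, h⟩
    rw [hA0] at this
    simp at this
  have hAU : A ⊆ U := fun v hv => (hUm v).2 ⟨hA hv, hAc v hv⟩
  obtain ⟨b, hbU, hbA⟩ : ∃ b ∈ U, b ∉ A := by
    by_contra hcon
    push Not at hcon
    have := Finset.card_le_card (s := U) (t := A) hcon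
    omega
  have hb := (hUm b).1 hbU
  have hrr : ∀ i, ∃ v ∈ cl H c i, v ≠ b := fun i =>
    Finset.exists_mem_ne (by have := h2 i; omega) b
  choose rr hrr1 hrr2 using hrr
  have hrrH : ∀ i, rr i ∈ H := fun i => (mem_cl.1 (hrr1 i)).1
  have hrrc : ∀ i, c (rr i) = i := fun i => (mem_cl.1 (hrr1 i)).2
  set R := (univ.erase i0).image rr with hR
  have hRm : ∀ v, v ∈ R ↔ ∃ i, i ≠ i0 ∧ rr i = v := by
    intro v
    rw [hR, Finset.mem_image]
    simp
  have hRcard : R.card + 1 ≤ r := by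
    have h3 : R.card ≤ ((univ : Finset (Fin r)).erase i0).card := Finset.card_image_le
    rw [Finset.card_erase_of_mem (Finset.mem_univ i0), Finset.card_univ, Fintype.card_fin] at h3
    have h4 : 0 < r := i0.pos
    omega
  have hRU : R ⊆ U := by
    intro v hv
    obtain ⟨i, hi, rfl⟩ := (hRm v).1 hv
    exact (hUm _).2 ⟨hrrH i, by rw [hrrc]; exact hi⟩
  have hbR : b ∉ R := by
    intro h
    obtain ⟨i, hi, h'⟩ := (hRm b).1 h
    exact hrr2 i h'
  -- the set `A'`
  obtain ⟨A', hRA', hA'U, hA'c, hdiff⟩ : ∃ A' : Finset V, R ⊆ A' ∧ A' ⊆ U.erase b ∧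
      A'.card = T ∧ (A' \ A).card + (A \ A').card ≤ (T - A.card) + (A.card - T) + 2 * r := by
    have hSU : R ∪ A ⊆ U.erase b := by
      intro v hv
      rw [Finset.mem_erase]
      rcases Finset.mem_union.1 hv with h | h
      · exact ⟨fun e => hbR (e ▸ h), hRU h⟩
      · exact ⟨fun e => hbA (e ▸ h), hAU h⟩
    have hScard : (R ∪ A).card ≤ R.card + A.card := Finset.card_union_le _ _
    rcases le_or_gt T (R ∪ A).card with hTS | hTS
    · obtain ⟨A', h3, h4, h5⟩ := Finset.exists_subsuperset_card_eq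
        (Finset.subset_union_left (s₁ := R) (s₂ := A)) (by omega : R.card ≤ T) hTS
      refine ⟨A', h3, h4.trans hSU, h5, ?_⟩
      have e1 : (A' \ A).card ≤ R.card := by
        apply Finset.card_le_card
        intro v hv
        rw [Finset.mem_sdiff] at hv
        rcases Finset.mem_union.1 (h4 hv.1) with h | h
        · exact h
        · exact absurd h hv.2
      have e2 : (A \ A').card ≤ (R ∪ A).card - T := by
        rw [← h5, ← Finset.card_sdiff_of_subset h4]
        exact Finset.card_le_card (Finset.sdiff_subset_sdiff Finset.subset_union_right le_rfl)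
      omega
    · obtain ⟨A', h3, h4, h5⟩ := Finset.exists_subsuperset_card_eq hSU hTS.le (by
        rw [Finset.card_erase_of_mem hbU, hUc]; omega)
      refine ⟨A', Finset.subset_union_left.trans h3, h4, h5, ?_⟩
      have hAA' : A ⊆ A' := Finset.subset_union_right.trans h3
      rw [Finset.card_sdiff_of_subset hAA', Finset.sdiff_eq_empty_iff_subset.2 hAA',
        Finset.card_empty, h5]
      omega
  have hA'm : ∀ v ∈ A', v ≠ b ∧ v ∈ H ∧ c v ≠ i0 := by
    intro v hv
    have := Finset.mem_erase.1 (hA'U hv)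
    exact ⟨this.1, (hUm v).1 this.2⟩
  -- the set `B`
  set B := insert b (((univ.erase i0).erase (c b)).image rr) with hB
  have hBm : ∀ v, v ∈ B ↔ v = b ∨ ∃ i, i ≠ c b ∧ i ≠ i0 ∧ rr i = v := by
    intro v
    rw [hB, Finset.mem_insert, Finset.mem_image]
    simp [and_assoc]
  refine ⟨A', B, fun v hv => (hA'm v hv).2.1, ?_, ?_, ?_, ?_, ?_, ?_, hA'c, hdiff⟩
  · intro v hv
    rcases (hBm v).1 hv with rfl | ⟨i, _, _, rfl⟩
    · exact hb.1
    · exact hrrH i
  · rw [Finset.eq_empty_iff_forall_notMem]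
    intro v hv
    exact (hA'm v (mem_cl.1 hv).1).2.2 (mem_cl.1 hv).2
  · rw [Finset.eq_empty_iff_forall_notMem]
    intro v hv
    have h3 := mem_cl.1 hv
    rcases (hBm v).1 h3.1 with rfl | ⟨i, _, hi, rfl⟩
    · exact hb.2 h3.2
    · exact hi (by rw [← hrrc i]; exact h3.2)
  · intro i hi
    exact ⟨rr i, mem_cl.2 ⟨hRA' ((hRm _).2 ⟨i, hi, rfl⟩), hrrc i⟩⟩
  · intro i hi
    rw [Finset.card_eq_one]
    by_cases hib : i = c b
    · refine ⟨b, ?_⟩
      ext v
      rw [mem_cl, Finset.mem_singleton]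
      constructor
      · rintro ⟨hv, hvc⟩
        rcases (hBm v).1 hv with h | ⟨k, hk, _, rfl⟩
        · exact h
        · exfalso; apply hk; rw [← hrrc k, hvc, hib]
      · rintro rfl
        exact ⟨(hBm _).2 (Or.inl rfl), hib.symm⟩
    · refine ⟨rr i, ?_⟩
      ext v
      rw [mem_cl, Finset.mem_singleton]
      constructor
      · rintro ⟨hv, hvc⟩
        rcases (hBm v).1 hv with rfl | ⟨k, hk, _, rfl⟩
        · exact absurd hvc.symm hib
        · rw [hrrc] at hvc; rw [hvc]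
      · rintro rfl
        exact ⟨(hBm _).2 (Or.inr ⟨i, hib, hi, rfl⟩), hrrc i⟩
  · intro h
    exact (hA'm b (h ((hBm b).2 (Or.inl rfl)))).1 rfl

end

end SETS

theorem blk_SETS : Stmt_SETS := by
  classical
  intro r hr V _ H A c i0 T hA hA0 h2 hrT hT hAT
  have hdf : ∀ S T : Finset V, df S T = S \ T := by
    intro S T
    ext v
    rw [mem_df, Finset.mem_sdiff]
  obtain ⟨A', B, h3, h4, h5, h6, h7, h8, h9, h10, h11⟩ := SETS.sets H A c i0 T hA hA0 h2 hrT hT hAT
  exact ⟨A', B, h3, h4, h5, h6, h7, h8, h9, h10, by rw [hdf, hdf]; exact h11⟩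

end Pool.Agent.Work.MP_5532fa_up
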