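import Pool.Agent.Work.MP_5532fa_up.Interface2
import Pool.Agent.Work.MP_5532fa_up.EID
import Pool.Agent.Work.MP_5532fa_up.GE

/-!
# MP_5532fa_co upgrade, second round, block SM1a: missing pairs, many outside edges, the vertex
`w` has no neighbours in one class
-/

set_option autoImplicit false

open Finset

namespace Pool.Agent.Work.MP_5532fa_up

open MP5532fa (specRad qf pE)

namespace SM1a

section
variable {V : Type} [Fintype V] {r : ℕ}

theorem c0_mono {δ δ' : ℝ} {N : ℕ} {G : SimpleGraph V} {c : V → Fin r} {H : Finset V}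
    (h : C0 r δ N G c H) (hd : δ ≤ δ') : C0 r δ' N G c H := by
  have hN : δ * N ≤ δ' * N := mul_le_mul_of_nonneg_right hd (Nat.cast_nonneg _)
  exact ⟨h.card, h.ind, h.mis.trans hN, fun i => (h.bal i).trans hN, h.eo.trans hN⟩

/-- edges meeting the outside -/
theorem eo_split (G : SimpleGraph V) (H : Finset V) :
    (eo G H : ℝ) = ∑ v ∈ out H, (dg G H v : ℝ) + eu G H := by
  have h1 : (eo G H : ℝ) = ∑ u ∈ out H, ∑ v, ad G u v := by
    classical
    unfold eo
    rw [EID.card_chi, ← univ_product_univ, sum_product, EID.sum_split H]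
    have h0 : ∑ a ∈ H, ∑ b, chi (G.Adj a b ∧ a ∉ H) = 0 := by
      apply sum_eq_zero
      intro a ha
      apply sum_eq_zero
      intro b _
      exact chi_neg fun h => h.2 ha
    rw [h0, zero_add]
    apply sum_congr rfl
    intro a ha
    rw [mem_out] at ha
    apply sum_congr rfl
    intro b _
    exact chi_congr ⟨fun h => h.1, fun h => ⟨h, ha⟩⟩
  rw [h1, EID.eu_eq, ← sum_add_distrib]
  apply sum_congr rfl
  intro a _
  rw [EID.dg_eq, EID.sum_split H]

variable {G : SimpleGraph V} {N : ℕ} {H : Finset V} {c : V → Fin r} {w u : V} {A B : Finset V}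
  {i0 : Fin r}

omit [Fintype V] in
theorem we_nb (h : WE G N H c w u A B i0) : nb G H w = A := by
  ext v
  rw [mem_nb, h.adj w v]
  constructor
  · rintro ⟨hv, h1 | h1 | h1 | h1 | h1 | h1 | h1⟩
    · exact absurd h1.1 h.hw
    · exact h1.2
    · exact absurd (h.hA h1.2) h.hw
    · exact absurd h1.1 h.hwu
    · exact absurd (h1.1 ▸ hv) h.hu
    · exact absurd (h1.2 ▸ hv) h.hu
    · exact absurd h1.1 h.hwu
  · intro hv
    exact ⟨h.hA hv, Or.inr (Or.inl ⟨rfl, hv⟩)⟩

omit [Fintype V] in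
theorem we_nbu (h : WE G N H c w u A B i0) : nb G H u = B := by
  ext v
  rw [mem_nb, h.adj u v]
  constructor
  · rintro ⟨hv, h1 | h1 | h1 | h1 | h1 | h1 | h1⟩
    · exact absurd h1.1 h.hu
    · exact absurd h1.1.symm h.hwu
    · exact absurd (h1.1 ▸ hv) h.hw
    · exact h1.2
    · exact absurd (h1.1 ▸ hv) h.hu
    · exact absurd h1.1.symm h.hwu
    · exact absurd (h1.2 ▸ hv) h.hw
  · intro hv
    exact ⟨h.hB hv, Or.inr (Or.inr (Or.inr (Or.inl ⟨rfl, hv⟩)))⟩

omit [Fintype V] in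
theorem we_nbo (h : WE G N H c w u A B i0) {z : V} (hz : z ∉ H) (hzw : z ≠ w) (hzu : z ≠ u) :
    nb G H z = ∅ := by
  rw [Finset.eq_empty_iff_forall_notMem]
  intro v hv
  rw [mem_nb, h.adj z v] at hv
  rcases hv with ⟨hv, h1 | h1 | h1 | h1 | h1 | h1 | h1⟩
  · exact hz h1.1
  · exact hzw h1.1
  · exact hz (h.hA h1.2)
  · exact hzu h1.1
  · exact hz (h.hB h1.2)
  · exact hzw h1.1
  · exact hzu h1.1

omit [Fintype V] in
theorem we_ind (h : WE G N H c w u A B i0) :
    ∀ a ∈ H, ∀ b ∈ H, c a = c b → ¬ G.Adj a b := by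
  intro a ha b hb hab hadj
  rw [h.adj a b] at hadj
  rcases hadj with h1 | h1 | h1 | h1 | h1 | h1 | h1
  · exact h1.2.2 hab
  · exact h.hw (h1.1 ▸ ha)
  · exact h.hw (h1.1 ▸ hb)
  · exact h.hu (h1.1 ▸ ha)
  · exact h.hu (h1.1 ▸ hb)
  · exact h.hw (h1.1 ▸ ha)
  · exact h.hu (h1.1 ▸ ha)

omit [Fintype V] in
theorem we_mH (h : WE G N H c w u A B i0) (x y : V → ℝ) : mH G H c x y = 0 := by
  unfold mH
  apply sum_eq_zero
  intro a ha
  apply sum_eq_zero
  intro b hb
  rw [chi_neg, zero_mul]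
  rintro ⟨h1, h2⟩
  exact h2 ((h.adj a b).2 (Or.inl ⟨ha, hb, h1⟩))

omit [Fintype V] in
theorem we_mis (h : WE G N H c w u A B i0) : mis G H c = 0 := by
  have h1 : (mis G H c : ℝ) = 0 := by
    rw [EID.mis_eq]
    apply sum_eq_zero
    intro a ha
    apply sum_eq_zero
    intro b hb
    apply chi_neg
    rintro ⟨h1, h2⟩
    exact h2 ((h.adj a b).2 (Or.inl ⟨ha, hb, h1⟩))
  exact_mod_cast h1

theorem we_sum2 (h : WE G N H c w u A B i0) :
    ∑ v ∈ out H, (dg G H v : ℝ) ^ 2 = (A.card : ℝ) ^ 2 + (B.card : ℝ) ^ 2 := by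
  classical
  have hsub : ({w, u} : Finset V) ⊆ out H := by
    intro v hv
    rw [mem_insert, mem_singleton] at hv
    rw [mem_out]
    rcases hv with rfl | rfl
    · exact h.hw
    · exact h.hu
  rw [← sum_subset hsub, sum_pair h.hwu]
  · unfold dg
    rw [we_nb h, we_nbu h]
  · intro v hv hv2
    rw [mem_insert, mem_singleton, not_or] at hv2
    rw [mem_out] at hv
    unfold dg
    rw [we_nbo h hv hv2.1 hv2.2]
    simp

omit [Fintype V] in
theorem we_cardB (h : WE G N H c w u A B i0) : B.card + 1 = r := by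
  have h1 := sum_card_cl B c
  rw [← add_sum_erase _ _ (mem_univ i0), h.hB0, card_empty, zero_add] at h1
  have h2 : ∑ i ∈ univ.erase i0, (cl B c i).card = ∑ i ∈ (univ : Finset (Fin r)).erase i0, 1 :=
    sum_congr rfl fun i hi => h.hB1 i (ne_of_mem_erase hi)
  rw [h2, sum_const, card_erase_of_mem (mem_univ _), card_univ, Fintype.card_fin, smul_eq_mul,
    mul_one] at h1
  have h3 := i0.pos
  omega

omit [Fintype V] in
theorem mH_ge {x y : V → ℝ} {e xb yb : ℝ} (he : e ≤ 1) (hxb : 0 < xb) (hyb : 0 < yb)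
    (hx : ∀ v ∈ H, |x v - xb| ≤ e * xb) (hy : ∀ v ∈ H, |y v - yb| ≤ e * yb) :
    (mis G H c : ℝ) * ((1 - e) ^ 2 * (xb * yb)) ≤ mH G H c x y := by
  unfold mH
  rw [EID.mis_eq, sum_mul]
  refine sum_le_sum fun a ha => ?_
  rw [sum_mul]
  refine sum_le_sum fun b hb => ?_
  refine mul_le_mul_of_nonneg_left ?_ (chi_nonneg _)
  have h1 := (abs_le.1 (hx a ha)).1
  have h2 := (abs_le.1 (hy b hb)).1
  have h3 : 0 ≤ (1 - e) * xb := mul_nonneg (by linarith) hxb.le
  have h4 : 0 ≤ (1 - e) * yb := mul_nonneg (by linarith) hyb.le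
  calc (1 - e) ^ 2 * (xb * yb) = ((1 - e) * xb) * ((1 - e) * yb) := by ring
    _ ≤ x a * y b := mul_le_mul (by linarith) (by linarith) h4 (by linarith)

end

/-- the final estimate -/
theorem fin {a Q M T P S2 r e N : ℝ} (hr : 3 ≤ r) (he0 : 0 < e) (he : e * (2000 * r) ≤ 1)
    (hQ : r ≤ Q) (ha : 0 ≤ a) (hM : 1 ≤ M) (hT : T = a + Q - r - M) (hT0 : 0 ≤ T)
    (hP : P ≤ Q + M + r) (hS0 : 0 ≤ S2) (hSQ : S2 ≤ Q * Q) (hSa : S2 ≤ a * Q)
    (hg : a + Q ≤ e * N) (hN : 6 * r ^ 2 ≤ N) :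
    0 < 4 / 5 * (N * M) + T ^ 2 - a ^ 2 + (r - 1) ^ 2 - S2
      - 30 * e * (P * (T + a) + (r - 1) ^ 2 + S2 + Q) := by
  have hQ0 : 0 < Q := by linarith
  have hr20 : 0 < r ^ 2 := by positivity
  have hN0 : 0 < N := by linarith
  have he1 : e ≤ 1 / 6000 := by
    have : e * 6000 ≤ e * (2000 * r) := mul_le_mul_of_nonneg_left (by linarith) he0.le
    linarith
  obtain ⟨Z, hZ⟩ : ∃ Z, Z = Q * (a + Q) := ⟨_, rfl⟩
  have hZ0 : 0 ≤ Z := by rw [hZ]; positivity
  have hNM : N ≤ N * M := le_mul_of_one_le_right hN0.le hM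
  have t1 : T ^ 2 - a ^ 2 = (Q - r) * (2 * a + Q - r) - 2 * M * (a + Q - r) + M ^ 2 := by
    rw [hT]; ring
  have t2 : 2 * M * (a + Q - r) ≤ 2 * e * (N * M) := by
    have h1 : M * (a + Q - r) ≤ M * (e * N) :=
      mul_le_mul_of_nonneg_left (by linarith) (by linarith)
    linarith
  have t3 : P * (T + a) ≤ 2 * e * (N * M) + 4 * Z := by
    have h1 : P * (T + a) ≤ (Q + M + r) * (T + a) := mul_le_mul_of_nonneg_right hP (by linarith)
    have h2 : (Q + M + r) * (T + a) ≤ (Q + M + r) * (2 * a + Q) :=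
      mul_le_mul_of_nonneg_left (by linarith) (by linarith)
    have h3 : M * (2 * a + Q) ≤ M * (2 * (e * N)) :=
      mul_le_mul_of_nonneg_left (by linarith) (by linarith)
    have h4 : (Q + r) * (2 * a + Q) ≤ (2 * Q) * (2 * (a + Q)) :=
      mul_le_mul (by linarith) (by linarith) (by linarith) (by linarith)
    have h5 : (Q + M + r) * (2 * a + Q) = M * (2 * a + Q) + (Q + r) * (2 * a + Q) := by ring
    rw [hZ]
    linarith
  have hQQ : Q * Q ≤ Z := by rw [hZ]; exact mul_le_mul_of_nonneg_left (by linarith) hQ0.le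
  have t4 : (r - 1) ^ 2 + S2 + Q ≤ 3 * Z := by
    have h1 : (r - 1) ^ 2 ≤ Q * Q := by
      rw [sq]
      exact mul_le_mul (by linarith) (by linarith) (by linarith) hQ0.le
    have h2 : Q ≤ Q * Q := le_mul_of_one_le_right hQ0.le (by linarith)
    linarith
  have t5 : 30 * e * (P * (T + a) + (r - 1) ^ 2 + S2 + Q) ≤
      60 * e ^ 2 * (N * M) + 210 * e * Z := by
    have h1 : 30 * e * (P * (T + a) + (r - 1) ^ 2 + S2 + Q) ≤
        30 * e * (2 * e * (N * M) + 7 * Z) :=
      mul_le_mul_of_nonneg_left (by linarith) (by positivity)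
    linarith
  have hee : e ^ 2 ≤ 1 / 6000 * e := by rw [sq]; exact mul_le_mul_of_nonneg_right he1 he0.le
  have hNM0 : 0 < N * M := by linarith
  have t6 : 60 * e ^ 2 * (N * M) ≤ 1 / 100 * (N * M) := by
    apply mul_le_mul_of_nonneg_right _ hNM0.le
    linarith
  have t7 : 2 * e * (N * M) ≤ 1 / 1000 * (N * M) := by
    apply mul_le_mul_of_nonneg_right _ hNM0.le
    linarith
  have t8 : 0 ≤ (r - 1) ^ 2 := sq_nonneg _
  have t9 : 0 ≤ M ^ 2 := sq_nonneg _
  rcases le_or_gt (2 * r) Q with hc | hc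
  · -- large `Q`
    have hL : Z / 8 - r ^ 2 ≤ (Q - r) * (2 * a + Q - r) - S2 := by
      rcases le_or_gt Q a with hd | hd
      · have h1 : (Q / 2) * (a / 2) ≤ (Q - r) * (a - r) :=
          mul_le_mul (by linarith) (by linarith) (by linarith) (by linarith)
        have h2 : (Q - r) * (2 * a + Q - r) - Q * Q = 2 * ((Q - r) * (a - r)) - r ^ 2 := by ring
        have h3 : Z ≤ 2 * (Q * a) := by
          rw [hZ]
          have := mul_le_mul_of_nonneg_left hd hQ0.le
          linarith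
        have h4 : 0 ≤ Q * a := by positivity
        linarith
      · have h1 : (Q / 2) * (Q / 2) ≤ (Q - r) * (Q - r) :=
          mul_le_mul (by linarith) (by linarith) (by linarith) (by linarith)
        have h2 : (Q - r) * (2 * a + Q - r) - a * Q = a * (Q - 2 * r) + (Q - r) * (Q - r) := by
          ring
        have h3 : Z ≤ 2 * (Q * Q) := by
          rw [hZ]
          have := mul_le_mul_of_nonneg_left hd.le hQ0.le
          linarith
        have h4 : 0 ≤ a * (Q - 2 * r) := mul_nonneg ha (by linarith)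
        linarith
    have h6 : 210 * e * Z ≤ Z / 8 := by
      have : 210 * e * Z ≤ 1 / 8 * Z := mul_le_mul_of_nonneg_right (by linarith) hZ0
      linarith
    linarith
  · have hL : -(4 * r ^ 2) ≤ (Q - r) * (2 * a + Q - r) - S2 := by
      have h1 : 0 ≤ (Q - r) * (2 * a + Q - r) := mul_nonneg (by linarith) (by linarith)
      have h2 : Q * Q ≤ (2 * r) * (2 * r) := mul_le_mul hc.le hc.le hQ0.le (by linarith)
      linarith
    have h3 : Z ≤ 2 * r * (e * N) := by
      rw [hZ]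
      exact mul_le_mul hc.le hg (by linarith) (by linarith)
    have h4 : 210 * e * Z ≤ 1 / 10 * (N * M) := by
      have h5 : 210 * e * Z ≤ 210 * e * (2 * r * (e * N)) :=
        mul_le_mul_of_nonneg_left h3 (by positivity)
      have h6 : 210 * e * (2 * r * (e * N)) = 420 * (e * N) * (e * r) := by ring
      have h7 : 420 * (e * N) * (e * r) ≤ 420 * (e * N) * 1 := by
        apply mul_le_mul_of_nonneg_left _ (by positivity)
        have h10 : 0 ≤ e * r := by positivity
        linarith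
      have h8 : 420 * (e * N) ≤ 420 * (1 / 6000 * N) := by
        have := mul_le_mul_of_nonneg_right he1 hN0.le
        linarith
      linarith
    linarith

end SM1a

open SM1a in
theorem blk_SM1a (h1 : Stmt_GE) (h2 : Stmt_LC) (h3 : Stmt_EID) (h4 : Stmt_EVN) (h5 : Stmt_EST1)
    (h6 : Stmt_TRF) (h7 : Stmt_CORE) (h8 : Stmt_SETS) : Stmt_SM1a := by
  classical
  intro r hr
  have hr3 : (3 : ℝ) ≤ r := by exact_mod_cast hr
  have hr0 : (0 : ℝ) < r := by linarith
  obtain ⟨e, he⟩ : ∃ e : ℝ, e = 1 / (2000 * r) := ⟨_, rfl⟩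
  have he0 : 0 < e := by rw [he]; positivity
  have her : e * (2000 * r) ≤ 1 := by rw [he]; field_simp; exact le_refl _
  have he6 : e ≤ 1 / 6000 := by
    have : e * 6000 ≤ e * (2000 * r) := mul_le_mul_of_nonneg_left (by linarith) he0.le
    linarith
  obtain ⟨δ1, N1, hδ10, hδ1e, hEST⟩ := h5 r e hr he0
  obtain ⟨N2, hN2⟩ := exists_nat_ge (8 * (r : ℝ) ^ 2 + 100 * r)
  refine ⟨δ1 / 2, max N1 N2, by positivity, ?_⟩
  intro N hN V _ G c H w i0 hC hfree hncol hMX hmis hbig hw hmax hcl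
  have hN1 : N1 ≤ N := (le_max_left _ _).trans hN
  have hNr : 8 * (r : ℝ) ^ 2 + 100 * r ≤ N := hN2.trans (by exact_mod_cast (le_max_right _ _).trans hN)
  have hr2 : 0 < (r : ℝ) ^ 2 := by positivity
  have hN0 : (0 : ℝ) < N := by linarith
  have hV : Nonempty V := ⟨w⟩
  obtain ⟨A, hA⟩ : ∃ A, A = nb G H w := ⟨_, rfl⟩
  have hAH : A ⊆ H := fun v hv => by rw [hA] at hv; exact (mem_nb.1 hv).1
  have hwout : w ∈ out H := mem_out.2 hw
  have hdgw : dg G H w = A.card := by rw [hA]; rfl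
  obtain ⟨D1, hD1⟩ : ∃ D1 : ℕ, D1 = ∑ a ∈ (out H).erase w, dg G H a := ⟨_, rfl⟩
  have hsum : ∑ v ∈ out H, dg G H v = A.card + D1 := by
    rw [← Finset.add_sum_erase _ _ hwout, hdgw, hD1]
  obtain ⟨⟨M, hM⟩, ⟨E, hE⟩⟩ := h4 r V G c H
  rw [← hA] at hcl
  obtain ⟨hQ, _⟩ := h2 r hr V G c H A w i0 (2 * D1 + eu G H) hfree hncol hC.ind hw hA hcl
    (by rw [hsum]; ring)
  obtain ⟨Q, hQd⟩ : ∃ Q : ℕ, Q = D1 + E := ⟨_, rfl⟩
  have hrQ : r ≤ Q := by omega
  rw [hsum, hM, hE] at hbig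
  obtain ⟨T, hT⟩ : ∃ T : ℕ, T + r + M = A.card + Q := ⟨A.card + Q - r - M, by omega⟩
  have hrT : r ≤ T + 1 := by omega
  have hM1 : 1 ≤ M := by omega
  -- sizes
  have hCe : C0 r e N G c H := c0_mono hC (by linarith)
  have hCδ : C0 r δ1 N G c H := c0_mono hC (by linarith)
  have hsumR : ∑ v ∈ out H, (dg G H v : ℝ) = A.card + D1 := by
    exact_mod_cast congrArg (fun n : ℕ => (n : ℝ)) hsum
  have hER : (eu G H : ℝ) = 2 * E := by rw [hE]; push_cast; ring
  have hMR : (mis G H c : ℝ) = 2 * M := by rw [hM]; push_cast; ring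
  have hQR : (Q : ℝ) = D1 + E := by exact_mod_cast hQd
  have hTR : (T : ℝ) + r + M = A.card + Q := by exact_mod_cast hT
  have hE0 : (0 : ℝ) ≤ E := Nat.cast_nonneg _
  have hg : (A.card : ℝ) + Q ≤ e * N := by
    have h9 := hCe.eo
    rw [eo_split, hsumR, hER] at h9
    linarith
  have hNr3 : (N : ℝ) / r ≤ N / 3 := div_le_div_of_nonneg_left hN0.le (by norm_num) hr3
  have hszr : ∀ i, ((cl H c i).card : ℝ) ≤ N / r + e * N ∧ N / r - e * N ≤ (cl H c i).card := by
    intro i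
    have h9 := abs_le.1 (hCe.bal i)
    unfold sz at h9
    constructor <;> linarith
  have heN : e * N ≤ 1 / 6000 * N := mul_le_mul_of_nonneg_right he6 hN0.le
  have heNr : e * N ≤ 1 / 2 * (N / r) := by
    have : e * N = 1 / 2000 * (N / r) := by rw [he]; field_simp
    have h9 : 0 ≤ (N : ℝ) / r := by positivity
    linarith
  have hNr100 : 100 ≤ (N : ℝ) / r := by
    rw [le_div_iff₀ hr0]; linarith
  have hcl2 : ∀ i, 2 ≤ (cl H c i).card := by
    intro i
    have h9 := (hszr i).2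
    have h10 : (2 : ℝ) ≤ (cl H c i).card := by linarith
    exact_mod_cast h10
  have hcard := hC.card
  have hTle : T + (cl H c i0).card + 1 ≤ H.card := by
    rw [hcard]
    have h9 : (T : ℝ) + (cl H c i0).card + 1 ≤ N := by
      have h10 := (hszr i0).1
      have h11 : (0 : ℝ) ≤ M := Nat.cast_nonneg _
      have h12 : (100 : ℝ) * r ≤ N := by linarith
      linarith
    exact_mod_cast h9
  have hATle : A.card + (cl H c i0).card < H.card := by
    rw [hcard]
    have h9 : (A.card : ℝ) + (cl H c i0).card < N := by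
      have h10 := (hszr i0).1
      have h11 : (0 : ℝ) ≤ Q := Nat.cast_nonneg _
      linarith
    exact_mod_cast h9
  obtain ⟨A', B, hA'H, hBH, hA'0, hB0, hA'ne, hB1, hBA, hA'c, hdiff⟩ :=
    h8 r hr V H A c i0 T hAH hcl hcl2 hrT hTle hATle
  -- the vertex u
  obtain ⟨u, huH, huw⟩ : ∃ u, u ∉ H ∧ u ≠ w := by
    by_contra hno
    push Not at hno
    apply hncol
    refine ⟨SimpleGraph.Coloring.mk (fun v => if v ∈ H then c v else i0) ?_⟩
    intro a b hab
    have hA0 : ∀ v ∈ H, G.Adj w v → c v ≠ i0 := by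
      intro v hv hwv hcv
      have : v ∈ cl A c i0 := mem_cl.2 ⟨by rw [hA]; exact mem_nb.2 ⟨hv, hwv⟩, hcv⟩
      rw [hcl] at this
      simp at this
    by_cases haH : a ∈ H
    · by_cases hbH : b ∈ H
      · simp only [haH, hbH, if_true]
        exact fun hc => hC.ind a haH b hbH hc hab
      · simp only [haH, hbH, if_true, if_false]
        have := hno b hbH
        subst this
        exact hA0 a haH hab.symm
    · by_cases hbH : b ∈ H
      · simp only [haH, hbH, if_true, if_false]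
        have := hno a haH
        subst this
        exact fun h => hA0 b hbH hab h.symm
      · exfalso
        have e1 := hno a haH
        have e2 := hno b hbH
        rw [e1, e2] at hab
        exact G.irrefl hab
  obtain ⟨G', hG'⟩ : ∃ G', G' = gE H c w u A' B := ⟨_, rfl⟩
  have hWE : WE G' N H c w u A' B i0 := by
    rw [hG']
    exact gE_WE hcard hw huH huw.symm hA'H hBH hA'0 hB0 hA'ne hB1 hBA
  obtain ⟨g1, g2, g3⟩ := h1 r hr V _ N H c w u A' B i0 hWE
  have hpE : pE G' = pE G := by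
    rw [g3, h3 r V G c H hC.ind, hsumR, hcard, hA'c, hMR, hER]
    linarith
  have hle : specRad G' ≤ specRad G :=
    hMX _ g1 (g2 fun i => le_trans (by norm_num) (hcl2 i)) hpE
  obtain ⟨x, hx⟩ := exists_PV G
  obtain ⟨y, hy⟩ := exists_PV G'
  obtain ⟨lam, hlam⟩ : ∃ lam, lam = specRad G := ⟨_, rfl⟩
  obtain ⟨lam', hlam'⟩ : ∃ lam', lam' = specRad G' := ⟨_, rfl⟩
  rw [← hlam] at hx hle
  rw [← hlam'] at hy hle
  have hind' := we_ind hWE
  have hC' : C0 r δ1 N G' c H := by
    have := h6 r (δ1 / 2) N V G G' c H hC hind' hpE (by rw [we_mis hWE]; exact Nat.zero_le _)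
    exact c0_mono this (by linarith)
  obtain ⟨xb, hFx⟩ := hEST N hN1 V G x lam c H hCδ hx
  obtain ⟨yb, hFy⟩ := hEST N hN1 V G' y lam' c H hC' hy
  have hcore := h7 r hr V G G' c H w x y lam lam' xb yb e N he0.le (by linarith)
    (by have : (1 : ℝ) ≤ N := by linarith
        exact_mod_cast this) hCe hind' hw hx hy hFx hFy hle
  have hxb := hFx.xb0
  have hyb := hFy.xb0
  have hm := mH_ge (G := G) (c := c) (H := H) (by linarith : e ≤ 1) hxb hyb hFx.xH hFy.xH
  rw [we_mH hWE, sub_zero, we_sum2 hWE, we_nb hWE, ← hA] at hcore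
  have hdgw' : dg G' H w = A'.card := by unfold dg; rw [we_nb hWE]
  rw [hdgw', hdgw, hA'c, hsumR, hER] at hcore
  have hBc := we_cardB hWE
  have hBR : (B.card : ℝ) = r - 1 := by
    have : (B.card : ℝ) + 1 = r := by exact_mod_cast hBc
    linarith
  rw [hBR] at hcore
  -- squares
  obtain ⟨S2, hS2⟩ : ∃ S2 : ℝ, S2 = ∑ a ∈ (out H).erase w, (dg G H a : ℝ) ^ 2 := ⟨_, rfl⟩
  have hsq : ∑ v ∈ out H, (dg G H v : ℝ) ^ 2 = (A.card : ℝ) ^ 2 + S2 := by
    rw [← Finset.add_sum_erase _ _ hwout, hdgw, hS2]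
  have hD1R : ∑ a ∈ (out H).erase w, (dg G H a : ℝ) = D1 := by
    rw [hD1, Nat.cast_sum]
  have hD1Q : (D1 : ℝ) ≤ Q := by linarith
  have hS20 : 0 ≤ S2 := by rw [hS2]; exact sum_nonneg fun _ _ => sq_nonneg _
  have hS2Q : S2 ≤ Q * Q := by
    have h9 : S2 ≤ D1 * D1 := by
      rw [hS2]
      nth_rewrite 2 [← hD1R]
      rw [mul_sum]
      refine sum_le_sum fun v hv => ?_
      rw [sq]
      apply mul_le_mul_of_nonneg_right _ (Nat.cast_nonneg _)
      have : dg G H v ≤ D1 := by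
        rw [hD1]
        exact single_le_sum (f := fun a => dg G H a) (fun _ _ => Nat.zero_le _) hv
      exact_mod_cast this
    refine h9.trans (mul_le_mul hD1Q hD1Q (Nat.cast_nonneg _) (Nat.cast_nonneg _))
  have hS2a : S2 ≤ A.card * Q := by
    have h9 : S2 ≤ A.card * D1 := by
      rw [hS2, ← hD1R, mul_sum]
      refine sum_le_sum fun v hv => ?_
      rw [sq]
      apply mul_le_mul_of_nonneg_right _ (Nat.cast_nonneg _)
      have : dg G H v ≤ A.card := by
        rw [← hdgw]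
        exact hmax v (mem_out.1 (mem_of_mem_erase hv))
      exact_mod_cast this
    exact h9.trans (mul_le_mul_of_nonneg_left hD1Q (Nat.cast_nonneg _))
  rw [hsq] at hcore
  have hP : (((df A' A).card : ℝ) + (df A A').card) ≤ Q + M + r := by
    have : (df A' A).card + (df A A').card ≤ Q + M + r := by omega
    exact_mod_cast this
  have hfin := fin (a := A.card) (Q := Q) (M := M) (T := T)
    (P := ((df A' A).card : ℝ) + (df A A').card) (S2 := S2) (r := r) (e := e) (N := N)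
    hr3 he0 her (by exact_mod_cast hrQ) (Nat.cast_nonneg _) (by exact_mod_cast hM1) (by linarith)
    (Nat.cast_nonneg _) hP hS20 hS2Q hS2a hg (by linarith)
  -- the main term
  have hxy : 0 < xb * yb := mul_pos hxb hyb
  have hlamN : N / 2 ≤ lam := by
    have h9 := (abs_le.1 hFx.lamN).1
    have h10 := mul_le_mul_of_nonneg_right (al_ge hr) hN0.le
    linarith
  have hlam0 : 0 ≤ lam := by linarith
  have hmain : xb * yb * (4 / 5 * (N * M)) ≤ lam * mH G H c x y := by
    have h9 : lam * ((mis G H c : ℝ) * ((1 - e) ^ 2 * (xb * yb))) ≤ lam * mH G H c x y :=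
      mul_le_mul_of_nonneg_left hm hlam0
    rw [hMR] at h9
    have h10 : (4 / 5 : ℝ) ≤ (1 - e) ^ 2 := by
      have := sq_nonneg e
      linarith
    have h11 : N / 2 * (4 / 5) ≤ lam * (1 - e) ^ 2 :=
      mul_le_mul hlamN h10 (by norm_num) hlam0
    have h12 : (0 : ℝ) ≤ M := Nat.cast_nonneg _
    have h13 : N / 2 * (4 / 5) * (2 * M * (xb * yb)) ≤ lam * (1 - e) ^ 2 * (2 * M * (xb * yb)) :=
      mul_le_mul_of_nonneg_right h11 (by positivity)
    linarith
  have hfin2 := mul_pos hxy hfin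
  have e9 : (A.card : ℝ) + D1 - A.card + 2 * E / 2 = Q := by rw [hQR]; ring
  rw [e9] at hcore
  linarith

end Pool.Agent.Work.MP_5532fa_up
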