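import Pool.Agent.Work.MP_5532fa_up.Interface

/-!
# Block TIE: the position of the vertex of `B` outside `A` does not matter
-/

open Finset

namespace Pool.Agent.Work.MP_5532fa_up

open MP5532fa (specRad qf pE)

namespace TIE

theorem chi_and (p q : Prop) : chi (p ∧ q) = chi p * chi q := by
  by_cases hp : p
  · by_cases hq : q
    · rw [chi_pos hp, chi_pos hq, chi_pos ⟨hp, hq⟩, one_mul]
    · rw [chi_pos hp, chi_neg hq, chi_neg (fun h => hq h.2), mul_zero]
  · rw [chi_neg hp, chi_neg (fun h => hp h.1), zero_mul]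

section
variable {V : Type} [Fintype V] {r : ℕ}

theorem sum_mem_mul (S : Finset V) (f : V → ℝ) : ∑ a, chi (a ∈ S) * f a = ∑ a ∈ S, f a := by
  have h1 : ∑ a ∈ S, chi (a ∈ S) * f a = ∑ a, chi (a ∈ S) * f a :=
    Finset.sum_subset (Finset.subset_univ S) (fun x _ hx => by rw [chi_neg hx, zero_mul])
  rw [← h1]
  exact Finset.sum_congr rfl fun a ha => by rw [chi_pos ha, one_mul]

theorem sum_eq_mul (w : V) (f : V → ℝ) : ∑ a, chi (a = w) * f a = f w := by
  have := sum_mem_mul ({w} : Finset V) f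
  simpa using this

theorem sum_prod (f g : V → ℝ) : ∑ a, ∑ b, f a * g b = (∑ a, f a) * ∑ b, g b := by
  rw [Finset.sum_mul]
  exact Finset.sum_congr rfl fun a _ => (Finset.mul_sum _ _ _).symm

theorem sum_pair (w : V) (A : Finset V) (f g : V → ℝ) :
    ∑ a, ∑ b, chi (a = w ∧ b ∈ A) * (f a * g b) = f w * ∑ b ∈ A, g b := by
  have h : ∀ a b : V, chi (a = w ∧ b ∈ A) * (f a * g b)
      = (chi (a = w) * f a) * (chi (b ∈ A) * g b) := fun a b => by rw [chi_and]; ring
  simp_rw [h]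
  rw [sum_prod, sum_eq_mul, sum_mem_mul]

theorem sum_pair' (w : V) (A : Finset V) (f g : V → ℝ) :
    ∑ a, ∑ b, chi (b = w ∧ a ∈ A) * (f a * g b) = g w * ∑ a ∈ A, f a := by
  rw [Finset.sum_comm, ← sum_pair w A g f]
  exact Finset.sum_congr rfl fun a _ => Finset.sum_congr rfl fun b _ => by ring

theorem JE_row (w u : V) (B : Finset V) (x : V → ℝ) {v : V} (hv : v ≠ w) (hv' : v ≠ u) :
    ∑ z, JE w u B v z * x z = chi (v ∈ B) * x u := by
  have h : ∀ z, JE w u B v z * x z = chi (v ∈ B) * (chi (z = u) * x z) := by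
    intro z
    unfold JE
    rw [chi_neg (p := v = u ∧ z ∈ B) (fun h => hv' h.1),
      chi_neg (p := v = w ∧ z = u) (fun h => hv h.1),
      chi_neg (p := v = u ∧ z = w) (fun h => hv' h.1), chi_and]
    ring
  simp_rw [h]
  rw [← Finset.mul_sum, sum_eq_mul]

omit [Fintype V] in
theorem sum_class {B B' : Finset V} {c : V → Fin r}
    (h : ∀ i, (cl B c i).card = (cl B' c i).card) (f : Fin r → ℝ) :
    ∑ v ∈ B, f (c v) = ∑ v ∈ B', f (c v) := by
  rw [← sum_cl B c, ← sum_cl B' c]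
  refine Finset.sum_congr rfl fun i _ => ?_
  rw [Finset.sum_congr rfl (g := fun _ => f i) fun v hv => by rw [(mem_cl.1 hv).2],
    Finset.sum_congr (s₁ := cl B' c i) rfl (g := fun _ => f i)
      fun v hv => by rw [(mem_cl.1 hv).2],
    Finset.sum_const, Finset.sum_const, h]

omit [Fintype V] in
theorem sum_chi_A {A B : Finset V} (h : OneOut A B) : ∑ v ∈ B, chi (v ∈ A) = B.card - 1 := by
  classical
  obtain ⟨b, hb, hbA, hu⟩ := h
  have h1 : ∀ v ∈ B, chi (v ∈ A) = 1 - (if v = b then (1 : ℝ) else 0) := by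
    intro v hv
    by_cases hvb : v = b
    · rw [if_pos hvb, hvb, chi_neg hbA]; ring
    · rw [if_neg hvb, chi_pos (by_contra fun h => hvb (hu v hv h))]; ring
  rw [Finset.sum_congr rfl h1, Finset.sum_sub_distrib, Finset.sum_ite_eq' B b, if_pos hb,
    Finset.sum_const, nsmul_eq_mul, mul_one]

theorem sum_chi_comm (B B' : Finset V) : ∑ v ∈ B', chi (v ∈ B) = ∑ v ∈ B, chi (v ∈ B') := by
  rw [← sum_mem_mul B' (fun v => chi (v ∈ B)), ← sum_mem_mul B (fun v => chi (v ∈ B'))]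
  exact Finset.sum_congr rfl fun a _ => mul_comm _ _

/-- difference of the sums of the eigenvector over two sets -/
theorem diff {H A B B' C : Finset V} {c : V → Fin r} {w u : V} {x : V → ℝ} {lam : ℝ}
    (hw : w ∉ H) (hu : u ∉ H) (hB : B ⊆ H) (hB' : B' ⊆ H)
    (hcl : ∀ i, (cl B c i).card = (cl B' c i).card) (h1 : OneOut A B) (h1' : OneOut A B')
    (heig : ∀ v ∈ H, lam * x v = (∑ u ∈ H, x u - cs x H c (c v)) + chi (v ∈ A) * x w
      + ∑ z, JE w u C v z * x z) :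
    lam * (∑ v ∈ B', x v - ∑ v ∈ B, x v)
      = (∑ v ∈ B', chi (v ∈ C) - ∑ v ∈ B, chi (v ∈ C)) * x u := by
  have hval : ∀ v ∈ H, lam * x v = (∑ u ∈ H, x u - cs x H c (c v)) + chi (v ∈ A) * x w
      + chi (v ∈ C) * x u := by
    intro v hv
    rw [heig v hv, JE_row w u C x (fun h => hw (h ▸ hv)) (fun h => hu (h ▸ hv))]
  have hs : ∀ D : Finset V, D ⊆ H → lam * ∑ v ∈ D, x v
      = ∑ v ∈ D, (∑ u ∈ H, x u - cs x H c (c v)) + (∑ v ∈ D, chi (v ∈ A)) * x w
        + (∑ v ∈ D, chi (v ∈ C)) * x u := by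
    intro D hD
    rw [Finset.mul_sum, Finset.sum_congr rfl fun v hv => hval v (hD hv),
      Finset.sum_add_distrib, Finset.sum_add_distrib, ← Finset.sum_mul, ← Finset.sum_mul]
  have hc : ∑ v ∈ B, (∑ u ∈ H, x u - cs x H c (c v))
      = ∑ v ∈ B', (∑ u ∈ H, x u - cs x H c (c v)) :=
    sum_class hcl (fun i => ∑ u ∈ H, x u - cs x H c i)
  have hcard : (B.card : ℝ) = B'.card := by
    rw [← sum_card_cl B c, ← sum_card_cl B' c, Finset.sum_congr rfl fun i _ => hcl i]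
  rw [mul_sub, hs B hB, hs B' hB', hc, sum_chi_A h1, sum_chi_A h1', hcard]
  ring

theorem main {G G' : SimpleGraph V} {H A B B' : Finset V} {c : V → Fin r} {w u : V}
    {x y : V → ℝ} {lam lam' : ℝ} (hCSE : Stmt_CSE)
    (hF : Fam G H c w A (JE w u B)) (hF' : Fam G' H c w A (JE w u B'))
    (hx : PV G x lam) (hy : PV G' y lam') (hu : u ∉ H) (hB : B ⊆ H) (hB' : B' ⊆ H)
    (hcl : ∀ i, (cl B c i).card = (cl B' c i).card) (h1 : OneOut A B) (h1' : OneOut A B')
    (hl : 0 < lam) (hl' : 0 < lam') (hxy : 0 < ∑ v, x v * y v) : lam = lam' := by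
  have e1 := (hCSE r V G H c w A _ x lam hF hx).1
  have e2 := (hCSE r V G' H c w A _ y lam' hF' hy).1
  have d1 := diff hF.hw hu hB hB' hcl h1 h1' e1
  have d2 := diff hF.hw hu hB hB' hcl h1 h1' e2
  have hp := pairing hx hy
  have hsum : ∑ a, ∑ b, (ad G' a b - ad G a b) * (x a * y b)
      = x u * (∑ v ∈ B', y v - ∑ v ∈ B, y v) + y u * (∑ v ∈ B', x v - ∑ v ∈ B, x v) := by
    have h : ∀ a b, (ad G' a b - ad G a b) * (x a * y b)
        = chi (a = u ∧ b ∈ B') * (x a * y b) + chi (b = u ∧ a ∈ B') * (x a * y b)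
          - (chi (a = u ∧ b ∈ B) * (x a * y b) + chi (b = u ∧ a ∈ B) * (x a * y b)) := by
      intro a b
      rw [hF.adj, hF'.adj]
      unfold JE
      ring
    simp_rw [h, Finset.sum_sub_distrib, Finset.sum_add_distrib]
    rw [sum_pair, sum_pair', sum_pair, sum_pair']
    ring
  rw [hsum] at hp
  have hcard : (B.card : ℝ) = B'.card := by
    rw [← sum_card_cl B c, ← sum_card_cl B' c, Finset.sum_congr rfl fun i _ => hcl i]
  have hBB : ∑ v ∈ B, chi (v ∈ B) = (B.card : ℝ) := by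
    rw [Finset.sum_congr rfl fun v hv => chi_pos hv, Finset.sum_const, nsmul_eq_mul, mul_one]
  have hBB' : ∑ v ∈ B', chi (v ∈ B') = (B'.card : ℝ) := by
    rw [Finset.sum_congr rfl fun v hv => chi_pos hv, Finset.sum_const, nsmul_eq_mul, mul_one]
  rw [hBB] at d1
  rw [hBB', ← sum_chi_comm B B'] at d2
  set D : ℝ := (B.card : ℝ) - ∑ v ∈ B', chi (v ∈ B) with hD
  have hD0 : 0 ≤ D := by
    have : ∑ v ∈ B', chi (v ∈ B) ≤ ∑ _v ∈ B', (1 : ℝ) :=
      Finset.sum_le_sum fun v _ => chi_le_one _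
    rw [Finset.sum_const, nsmul_eq_mul, mul_one] at this
    rw [hD, hcard]; linarith
  have d1' : lam * (∑ v ∈ B', x v - ∑ v ∈ B, x v) = - D * x u := by rw [d1, hD]; ring
  have d2' : lam' * (∑ v ∈ B', y v - ∑ v ∈ B, y v) = D * y u := by
    rw [d2, hD, hcard]
  have f1 : ∑ v ∈ B', x v - ∑ v ∈ B, x v = - D * x u / lam := by
    rw [eq_div_iff hl.ne', ← d1']; ring
  have f2 : ∑ v ∈ B', y v - ∑ v ∈ B, y v = D * y u / lam' := by
    rw [eq_div_iff hl'.ne', ← d2']; ring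
  rw [f1, f2] at hp
  have hp' : D * (x u * y u) * (lam - lam') = lam * lam' * ((lam' - lam) * ∑ v, x v * y v) := by
    rw [← hp]
    field_simp
    ring
  have hq : 0 ≤ D * (x u * y u) := mul_nonneg hD0 (mul_nonneg (hx.nn u) (hy.nn u))
  have hq' : 0 < lam * lam' * ∑ v, x v * y v := mul_pos (mul_pos hl hl') hxy
  have hz : (D * (x u * y u) + lam * lam' * ∑ v, x v * y v) * (lam - lam') = 0 := by
    linear_combination hp'
  rcases mul_eq_zero.1 hz with h | h
  · exfalso; linarith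
  · linarith

end

end TIE

theorem blk_TIE (hFAM : Stmt_FAM) (hCSE : Stmt_CSE) (hEST : Stmt_EST) : Stmt_TIE := by
  intro r ε hr hε
  obtain ⟨δ, N0, hδ, hE⟩ := hEST r ε (1 / 2) hr hε (by norm_num)
  refine ⟨δ, max N0 1, hδ, ?_⟩
  intro N hN j hj V _ G G' H c w u A B B' i0 hG hG' h1 h1' hnear
  have hN0 : N0 ≤ N := le_trans (le_max_left _ _) hN
  have hN1 : 1 ≤ N := le_trans (le_max_right _ _) hN
  have hF := (hFAM r hr V G N H c w A).2 u B i0 hG
  have hF' := (hFAM r hr V G' N H c w A).2 u B' i0 hG'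
  have hV : Nonempty V := ⟨w⟩
  obtain ⟨x, hx⟩ := exists_PV G
  obtain ⟨y, hy⟩ := exists_PV G'
  obtain ⟨xb, hxb⟩ := hE N hN0 j hj V G H c w A _ x _ hF hx hG.card hnear
  obtain ⟨yb, hyb⟩ := hE N hN0 j hj V G' H c w A _ y _ hF' hy hG'.card hnear
  have hNr : (1 : ℝ) ≤ N := by exact_mod_cast hN1
  have hal := al_ge hr
  have hpos : ∀ l : ℝ, |l - al r * N| ≤ 1 / 2 * N → 0 < l := by
    intro l hl
    have := (abs_le.1 hl).1
    nlinarith
  have hcard : 0 < H.card := by rw [hG.card]; omega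
  obtain ⟨v, hv⟩ := Finset.card_pos.1 hcard
  have hxv : 0 < x v := by
    have := (abs_le.1 (hxb.xH v hv)).1
    have := hxb.xb0
    linarith
  have hyv : 0 < y v := by
    have := (abs_le.1 (hyb.xH v hv)).1
    have := hyb.xb0
    linarith
  refine TIE.main hCSE hF hF' hx hy hG.hu hG.hB hG'.hB ?_ h1 h1' (hpos _ hxb.lamN)
    (hpos _ hyb.lamN) ?_
  · intro i
    by_cases hi : i = i0
    · rw [hi, hG.hB0, hG'.hB0]
    · rw [hG.hB1 i hi, hG'.hB1 i hi]
  · have h2 : x v * y v ≤ ∑ v, x v * y v :=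
      Finset.single_le_sum (f := fun v => x v * y v)
        (fun i _ => mul_nonneg (hx.nn i) (hy.nn i)) (Finset.mem_univ v)
    have h3 : 0 < x v * y v := mul_pos hxv hyv
    linarith

end Pool.Agent.Work.MP_5532fa_up
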