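import Pool.Agent.Work.MP_5532fa_up.ESTU
import Pool.Agent.Work.MP_5532fa_up.TIE

open Finset

namespace Pool.Agent.Work.MP_5532fa_up

open MP5532fa (specRad qf pE)

theorem blk_TIEU (hFAM : Stmt_FAM) (hCSE : Stmt_CSE) (hEST : Stmt_ESTU) : Stmt_TIEU := by
  intro r ε hr hε
  obtain ⟨δ, N0, hδ, hE⟩ := hEST r (1 / 2) hr (by norm_num)
  refine ⟨δ, max N0 1, hδ, ?_⟩
  intro N hN j hj V _ G G' H c w u A B B' i0 hG hG' h1 h1' hnear
  have hN0 : N0 ≤ N := le_trans (le_max_left _ _) hN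
  have hN1 : 1 ≤ N := le_trans (le_max_right _ _) hN
  have hF := (hFAM r hr V G N H c w A).2 u B i0 hG
  have hF' := (hFAM r hr V G' N H c w A).2 u B' i0 hG'
  have hV : Nonempty V := ⟨w⟩
  obtain ⟨x, hx⟩ := exists_PV G
  obtain ⟨y, hy⟩ := exists_PV G'
  obtain ⟨xb, hxb⟩ := hE N hN0 j (RgU.le hr hε hj) V G H c w A _ x _ hF hx hG.card hnear
  obtain ⟨yb, hyb⟩ := hE N hN0 j (RgU.le hr hε hj) V G' H c w A _ y _ hF' hy hG'.card hnear
  have hNr : (1 : ℝ) ≤ N := by exact_mod_cast hN1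
  have hal := al_ge hr
  have hpos : ∀ l : ℝ, |l - al r * N| ≤ 1 / 2 * N → 0 < l := by
    intro l hl
    have := (abs_le.1 hl).1
    nlinarith
  have hcard : 0 < H.card := by rw [hG.card]; omega
  obtain ⟨v, hv⟩ := Finset.card_pos.1 hcard
  have hxv : 0 < x v := by
    have := (abs_le.1 (hxb.xH v hv)).1
    have := hxb.xb0
    linarith
  have hyv : 0 < y v := by
    have := (abs_le.1 (hyb.xH v hv)).1
    have := hyb.xb0
    linarith
  refine TIE.main hCSE hF hF' hx hy hG.hu hG.hB hG'.hB ?_ h1 h1' (hpos _ hxb.lamN)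
    (hpos _ hyb.lamN) ?_
  · intro i
    by_cases hi : i = i0
    · rw [hi, hG.hB0, hG'.hB0]
    · rw [hG.hB1 i hi, hG'.hB1 i hi]
  · have h2 : x v * y v ≤ ∑ v, x v * y v :=
      Finset.single_le_sum (f := fun v => x v * y v)
        (fun i _ => mul_nonneg (hx.nn i) (hy.nn i)) (Finset.mem_univ v)
    have h3 : 0 < x v * y v := mul_pos hxv hyv
    linarith

end Pool.Agent.Work.MP_5532fa_up
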