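import Pool.Agent.Work.MP_5532fa_up.Interface2
import Pool.Agent.Work.MP_5532fa_up.TN

/-!
# MP_5532fa_up, second round, block TNB (helper23)
-/

set_option autoImplicit false

open Finset

namespace Pool.Agent.Work.MP_5532fa_up

theorem blk_TNB (_hTN : Stmt_TN) : Stmt_TNB := by
  intro r N n hr hn
  have h1 := TN.tn_eq (r := r) (by omega) N
  set k : ℤ := ((N / r : ℕ) : ℤ) with hk
  have h2 : ∀ i, (2 * k + 1) * (n i : ℤ) - k * (k + 1) ≤ (n i : ℤ) ^ 2 := by
    intro i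
    have h3 : 0 ≤ ((n i : ℤ) - k) * ((n i : ℤ) - k - 1) := by
      rcases le_or_gt (n i : ℤ) k with h | h
      · exact mul_nonneg_of_nonpos_of_nonpos (by linarith) (by linarith)
      · exact mul_nonneg (by linarith) (by linarith)
    nlinarith
  have h4 : ∑ i, ((2 * k + 1) * (n i : ℤ) - k * (k + 1)) ≤ ∑ i, (n i : ℤ) ^ 2 :=
    Finset.sum_le_sum fun i _ => h2 i
  rw [Finset.sum_sub_distrib, ← Finset.mul_sum] at h4
  have h5 : ∑ i, (n i : ℤ) = N := by exact_mod_cast hn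
  rw [h5, Finset.sum_const, Finset.card_univ, Fintype.card_fin, nsmul_eq_mul] at h4
  have h6 : (N : ℤ) ^ 2 ≤ 2 * (tn r N : ℤ) + ∑ i, (n i : ℤ) ^ 2 := by
    rw [← h1]
    linarith
  exact_mod_cast h6

end Pool.Agent.Work.MP_5532fa_up
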