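import Pool.Agent.Work.MP_5532fa_up.Blocks
import Pool.Agent.Work.MP_5532fa_up.B1C2
import Pool.Agent.Work.MP_5532fa_up.B1U2
import Pool.Agent.Work.MP_5532fa_up.CMB0
import Pool.Agent.Work.MP_5532fa_up.CORE
import Pool.Agent.Work.MP_5532fa_up.E2U
import Pool.Agent.Work.MP_5532fa_up.E3U
import Pool.Agent.Work.MP_5532fa_up.EBU
import Pool.Agent.Work.MP_5532fa_up.EST1
import Pool.Agent.Work.MP_5532fa_up.ESTU
import Pool.Agent.Work.MP_5532fa_up.EXU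
import Pool.Agent.Work.MP_5532fa_up.FIN3
import Pool.Agent.Work.MP_5532fa_up.FLAT
import Pool.Agent.Work.MP_5532fa_up.GF
import Pool.Agent.Work.MP_5532fa_up.ISOEU
import Pool.Agent.Work.MP_5532fa_up.OPT3
import Pool.Agent.Work.MP_5532fa_up.S1
import Pool.Agent.Work.MP_5532fa_up.SETS
import Pool.Agent.Work.MP_5532fa_up.SM0
import Pool.Agent.Work.MP_5532fa_up.SM1a
import Pool.Agent.Work.MP_5532fa_up.SM1b
import Pool.Agent.Work.MP_5532fa_up.SM1c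
import Pool.Agent.Work.MP_5532fa_up.SM2
import Pool.Agent.Work.MP_5532fa_up.TIEU
import Pool.Agent.Work.MP_5532fa_up.TNB
import Pool.Agent.Work.MP_5532fa_up.TRANS2
import Pool.Agent.Work.MP_5532fa_up.TRF

/-!
# MP_5532fa_co, upgrade: the blocks put together
-/

namespace Pool.Agent.Work.MP_5532fa_up

theorem pOPT3 : Stmt_OPT3 := blk_OPT3
theorem pFIN3 : Stmt_FIN3 := blk_FIN3 pREL pMKC pHSET pACC pOPT3
theorem pB1U2 : Stmt_B1U2 := blk_B1U2 pGD pTRV pEID pEVN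
theorem pB1C2 : Stmt_B1C2 := blk_B1C2 pGE pLC pEID pEVN
theorem pEST1 : Stmt_EST1 := blk_EST1
theorem pFLAT : Stmt_FLAT := blk_FLAT pEST1
theorem pTRF : Stmt_TRF := blk_TRF pEID
theorem pCORE : Stmt_CORE := blk_CORE
theorem pGF : Stmt_GF := blk_GF pEID
theorem pCMB0 : Stmt_CMB0 := blk_CMB0 pTRV pLC pEVN
theorem pSETS : Stmt_SETS := blk_SETS
theorem pSM0 : Stmt_SM0 := blk_SM0 pGE pEID pEVN pEST1 pTRF pCORE pCMB0 pSETS
theorem pSM1a : Stmt_SM1a := blk_SM1a pGE pLC pEID pEVN pEST1 pTRF pCORE pSETS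
theorem pSM1b : Stmt_SM1b := blk_SM1b pGD pTRV pEID pEVN pEST1 pTRF pCORE
theorem pSM1c : Stmt_SM1c := blk_SM1c pGD pTRV pEID pEVN pEST1 pTRF pCORE
theorem pSM2 : Stmt_SM2 := blk_SM2 pGF pEID pEVN pEST1 pTRF pCORE
theorem pTNB : Stmt_TNB := blk_TNB pTN
theorem pS1 : Stmt_S1 := blk_S1 pGE pEID pEVN pTNB pFLAT pSETS
theorem pEXU : Stmt_EXU := blk_EXU pPARX pEMB
theorem pTRANS2 : Stmt_TRANS2 := blk_TRANS2
theorem pESTU : Stmt_ESTU := blk_ESTU pCSE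
theorem pE2U : Stmt_E2U := blk_E2U pGE pFAM pCSE pESTU pMV1
theorem pE3U : Stmt_E3U := blk_E3U pGE pFAM pCSE pESTU
theorem pTIEU : Stmt_TIEU := blk_TIEU pFAM pCSE pESTU
theorem pISOEU : Stmt_ISOEU := blk_ISOEU pLAB pCANP pTIEU
theorem pEBU : Stmt_EBU := blk_EBU pGE pFAM pCSE pESTU

end Pool.Agent.Work.MP_5532fa_up
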