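import Pool.Agent.Work.MP_5532fa_up.Interface4

/-! Block CU1: third and fourth moments of a vector with sum zero. -/

open Finset

namespace Pool.Agent.Work.MP_5532fa_up

namespace CU1

theorem abs_sum_cube {ι : Type*} (s : Finset ι) (z : ι → ℝ) (σ : ℝ) (hσ : 0 ≤ σ)
    (h : ∑ k ∈ s, z k ^ 2 = σ ^ 2) : |∑ k ∈ s, z k ^ 3| ≤ σ ^ 3 := by
  have h1 : ∀ k ∈ s, |z k| ≤ σ := by
    intro k hk
    refine abs_le_of_sq_le_sq ?_ hσ
    rw [← h]
    exact single_le_sum (f := fun k => z k ^ 2) (fun i _ => sq_nonneg _) hk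
  calc |∑ k ∈ s, z k ^ 3| ≤ ∑ k ∈ s, |z k ^ 3| := abs_sum_le_sum_abs _ _
    _ ≤ ∑ k ∈ s, σ * z k ^ 2 := by
        refine sum_le_sum fun k hk => ?_
        rw [abs_pow, pow_succ, mul_comm (|z k| ^ 2), sq_abs]
        exact mul_le_mul_of_nonneg_right (h1 k hk) (sq_nonneg _)
    _ = σ ^ 3 := by rw [← mul_sum, h]; ring

theorem sum_four {ι : Type*} (s : Finset ι) (z : ι → ℝ) (T : ℝ)
    (h : ∑ k ∈ s, z k ^ 2 = T) : ∑ k ∈ s, z k ^ 4 ≤ T ^ 2 := by
  have h1 : ∀ k ∈ s, z k ^ 2 ≤ T := by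
    intro k hk
    rw [← h]
    exact single_le_sum (f := fun k => z k ^ 2) (fun i _ => sq_nonneg _) hk
  calc ∑ k ∈ s, z k ^ 4 ≤ ∑ k ∈ s, T * z k ^ 2 := by
        refine sum_le_sum fun k hk => ?_
        have h2 : z k ^ 4 = z k ^ 2 * z k ^ 2 := by ring
        rw [h2]
        exact mul_le_mul_of_nonneg_right (h1 k hk) (sq_nonneg _)
    _ = T ^ 2 := by rw [← mul_sum, h]; ring

end CU1

theorem blk_CU1 : Stmt_CU1 := by
  intro r hr d R hs hR
  have hr1 : (0 : ℝ) < (r : ℝ) - 1 := by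
    have : (3 : ℝ) ≤ r := by exact_mod_cast hr
    linarith
  have hr0 : (0 : ℝ) < (r : ℝ) := by linarith
  have hcard : ∀ i : Fin r, ((univ.erase i).card : ℝ) = (r : ℝ) - 1 := by
    intro i
    rw [card_erase_of_mem (mem_univ i), card_univ, Fintype.card_fin, Nat.cast_sub (by omega)]
    norm_num
  have hsi : ∀ i, ∑ k ∈ univ.erase i, d k = - d i := by
    intro i
    have h := add_sum_erase univ d (mem_univ i)
    rw [hs] at h
    linarith
  have hsi2 : ∀ i, ∑ k ∈ univ.erase i, d k ^ 2 = R - d i ^ 2 := by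
    intro i
    have h := add_sum_erase univ (fun k => d k ^ 2) (mem_univ i)
    simp only [hR] at h
    linarith
  -- the vector zeta
  have hz1 : ∀ i, ∑ k ∈ univ.erase i, (d k + d i / ((r : ℝ) - 1)) = 0 := by
    intro i
    rw [sum_add_distrib, hsi, sum_const, nsmul_eq_mul, hcard]
    field_simp
    ring
  have hz2 : ∀ i, ∑ k ∈ univ.erase i, (d k + d i / ((r : ℝ) - 1)) ^ 2 =
      R - d i ^ 2 * (r / (r - 1)) := by
    intro i
    have e : ∀ k, (d k + d i / ((r : ℝ) - 1)) ^ 2 = d k ^ 2 + 2 * (d i / ((r : ℝ) - 1)) * d k +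
        (d i / ((r : ℝ) - 1)) ^ 2 := fun k => by ring
    simp only [e]
    rw [sum_add_distrib, sum_add_distrib, ← mul_sum, hsi, hsi2, sum_const, nsmul_eq_mul, hcard]
    field_simp
    ring
  have hz3 : ∀ i, ∑ k, d k ^ 3 = d i ^ 3 * (r * (r + 1) / (r - 1) ^ 2) - 3 * d i * R / (r - 1) +
      ∑ k ∈ univ.erase i, (d k + d i / ((r : ℝ) - 1)) ^ 3 := by
    intro i
    have e : ∀ k, d k ^ 3 = (d k + d i / ((r : ℝ) - 1)) ^ 3
        - 3 * (d i / ((r : ℝ) - 1)) * (d k + d i / ((r : ℝ) - 1)) ^ 2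
        + 3 * (d i / ((r : ℝ) - 1)) ^ 2 * (d k + d i / ((r : ℝ) - 1))
        - (d i / ((r : ℝ) - 1)) ^ 3 := fun k => by ring
    rw [← add_sum_erase univ (fun k => d k ^ 3) (mem_univ i)]
    have h := sum_congr (rfl : univ.erase i = univ.erase i) fun k _ => e k
    rw [h, sum_sub_distrib, sum_add_distrib, sum_sub_distrib, ← mul_sum, ← mul_sum, hz1, hz2,
      sum_const, nsmul_eq_mul, hcard]
    generalize ∑ k ∈ univ.erase i, (d k + d i / ((r : ℝ) - 1)) ^ 3 = Z3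
    field_simp
    ring
  have hz4 : ∀ i, ∑ k, d k ^ 4 = d i ^ 4 * (1 + 1 / (r - 1) ^ 3)
      + 6 * d i ^ 2 * (R - d i ^ 2 * (r / (r - 1))) / (r - 1) ^ 2
      - 4 * (d i / ((r : ℝ) - 1)) * ∑ k ∈ univ.erase i, (d k + d i / ((r : ℝ) - 1)) ^ 3
      + ∑ k ∈ univ.erase i, (d k + d i / ((r : ℝ) - 1)) ^ 4 := by
    intro i
    have e : ∀ k, d k ^ 4 = (d k + d i / ((r : ℝ) - 1)) ^ 4
        - 4 * (d i / ((r : ℝ) - 1)) * (d k + d i / ((r : ℝ) - 1)) ^ 3
        + 6 * (d i / ((r : ℝ) - 1)) ^ 2 * (d k + d i / ((r : ℝ) - 1)) ^ 2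
        - 4 * (d i / ((r : ℝ) - 1)) ^ 3 * (d k + d i / ((r : ℝ) - 1))
        + (d i / ((r : ℝ) - 1)) ^ 4 := fun k => by ring
    rw [← add_sum_erase univ (fun k => d k ^ 4) (mem_univ i)]
    have h := sum_congr (rfl : univ.erase i = univ.erase i) fun k _ => e k
    rw [h, sum_add_distrib, sum_sub_distrib, sum_add_distrib, sum_sub_distrib, ← mul_sum,
      ← mul_sum, ← mul_sum, hz1, hz2, sum_const, nsmul_eq_mul, hcard]
    generalize ∑ k ∈ univ.erase i, (d k + d i / ((r : ℝ) - 1)) ^ 3 = Z3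
    generalize ∑ k ∈ univ.erase i, (d k + d i / ((r : ℝ) - 1)) ^ 4 = Z4
    field_simp
    ring
  have hRn : 0 ≤ R := by
    rw [← hR]
    exact sum_nonneg fun i _ => sq_nonneg _
  refine ⟨fun i => ?_, fun i σ hσ hσ2 => ⟨?_, ?_⟩, fun i => ?_, fun D hD hdD => ?_, ?_, ?_⟩
  · have h := hz2 i
    have h1 : 0 ≤ ∑ k ∈ univ.erase i, (d k + d i / ((r : ℝ) - 1)) ^ 2 :=
      sum_nonneg fun k _ => sq_nonneg _
    linarith
  · rw [hz3 i]
    have h1 := CU1.abs_sum_cube (univ.erase i) (fun k => d k + d i / ((r : ℝ) - 1)) σ hσ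
      ((hz2 i).trans hσ2.symm)
    rwa [add_sub_cancel_left]
  · rw [hz4 i]
    have h1 := CU1.abs_sum_cube (univ.erase i) (fun k => d k + d i / ((r : ℝ) - 1)) σ hσ
      ((hz2 i).trans hσ2.symm)
    have h2 := CU1.sum_four (univ.erase i) (fun k => d k + d i / ((r : ℝ) - 1)) (σ ^ 2)
      ((hz2 i).trans hσ2.symm)
    rw [← hσ2]
    have h3 : - (4 * (d i / ((r : ℝ) - 1)) *
        ∑ k ∈ univ.erase i, (d k + d i / ((r : ℝ) - 1)) ^ 3) ≤ 4 * |d i| * σ ^ 3 / (r - 1) := by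
      refine (neg_le_abs _).trans ?_
      rw [abs_mul, abs_mul, abs_div, abs_of_pos hr1, abs_of_pos (by norm_num : (0 : ℝ) < 4)]
      have h4 : 4 * |d i| * σ ^ 3 / ((r : ℝ) - 1) = 4 * (|d i| / (r - 1)) * σ ^ 3 := by ring
      rw [h4]
      exact mul_le_mul_of_nonneg_left h1 (by positivity)
    have h5 : (σ ^ 2) ^ 2 = σ ^ 4 := by ring
    rw [h5] at h2
    linarith
  · have h1 := sq_sum_le_card_mul_sum_sq (s := univ.erase i) (f := d)
    have h2 := sq_sum_le_card_mul_sum_sq (s := univ.erase i) (f := fun k => d k ^ 2)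
    rw [hsi, hcard] at h1
    rw [hcard] at h2
    have h3 := add_sum_erase univ (fun k => d k ^ 4) (mem_univ i)
    have h4 : ∀ k, (d k ^ 2) ^ 2 = d k ^ 4 := fun k => by ring
    simp only [h4] at h2
    set A := ∑ k ∈ univ.erase i, d k ^ 2 with hA
    set B := ∑ k ∈ univ.erase i, d k ^ 4 with hB
    have hA0 : 0 ≤ A := sum_nonneg fun k _ => sq_nonneg _
    have h5 : d i ^ 4 ≤ ((r : ℝ) - 1) ^ 2 * A ^ 2 := by
      have h6 : (-d i) ^ 2 * (-d i) ^ 2 ≤ (((r : ℝ) - 1) * A) * (((r : ℝ) - 1) * A) :=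
        mul_le_mul h1 h1 (sq_nonneg _) (mul_nonneg hr1.le hA0)
      calc d i ^ 4 = (-d i) ^ 2 * (-d i) ^ 2 := by ring
        _ ≤ _ := h6
        _ = _ := by ring
    have h7 : d i ^ 4 ≤ ((r : ℝ) - 1) ^ 3 * B := by
      calc d i ^ 4 ≤ ((r : ℝ) - 1) ^ 2 * A ^ 2 := h5
        _ ≤ ((r : ℝ) - 1) ^ 2 * (((r : ℝ) - 1) * B) := mul_le_mul_of_nonneg_left h2 (sq_nonneg _)
        _ = _ := by ring
    have h8 : d i ^ 4 * (1 / ((r : ℝ) - 1) ^ 3) ≤ B := by
      rw [mul_one_div, div_le_iff₀ (by positivity)]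
      linarith
    rw [← h3]
    linarith
  · have h1 : 0 ≤ ∑ k, (D - d k) * (d k + R / (r * D)) ^ 2 :=
      sum_nonneg fun k _ => mul_nonneg (sub_nonneg.2 (hdD k)) (sq_nonneg _)
    have e : ∀ k, (D - d k) * (d k + R / (r * D)) ^ 2 = D * d k ^ 2
        + (2 * (R / (r * D)) * D - (R / (r * D)) ^ 2) * d k + D * (R / (r * D)) ^ 2
        - d k ^ 3 - 2 * (R / (r * D)) * d k ^ 2 := fun k => by ring
    simp only [e] at h1
    have h2 : ∑ k, (D * d k ^ 2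
        + (2 * (R / (r * D)) * D - (R / (r * D)) ^ 2) * d k + D * (R / (r * D)) ^ 2
        - d k ^ 3 - 2 * (R / (r * D)) * d k ^ 2) = D * ∑ k, d k ^ 2
        + (2 * (R / (r * D)) * D - (R / (r * D)) ^ 2) * ∑ k, d k
        + (r : ℝ) * (D * (R / (r * D)) ^ 2) - ∑ k, d k ^ 3
        - 2 * (R / (r * D)) * ∑ k, d k ^ 2 := by
      rw [sum_sub_distrib, sum_sub_distrib, sum_add_distrib, sum_add_distrib, mul_sum,
        mul_sum, mul_sum, sum_const, nsmul_eq_mul, card_univ, Fintype.card_fin]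
    rw [h2, hs, hR] at h1
    have e2 : (r : ℝ) * (D * (R / (r * D)) ^ 2) = R ^ 2 / (r * D) := by
      field_simp
    have e3 : 2 * (R / (r * D)) * R = 2 * (R ^ 2 / (r * D)) := by ring
    rw [e2, e3] at h1
    linarith
  · have h1 := CU1.abs_sum_cube univ d (√R) (Real.sqrt_nonneg _) (by
      rw [Real.sq_sqrt hRn, hR])
    have e : √R ^ 3 = R * √R := by
      rw [pow_succ, Real.sq_sqrt hRn]
    rwa [e] at h1
  · exact CU1.sum_four univ d R hR

end Pool.Agent.Work.MP_5532fa_up
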