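import Pool.Agent.Work.MP_5532fa_up.Interface4

/-!
# Block CUB (needs CU1)
-/

set_option autoImplicit false

open Finset

namespace Pool.Agent.Work.MP_5532fa_up

namespace CUB

theorem kap {r : ℝ} (hr : 3 ≤ r) : 1 ≤ r / (r - 1) ∧ r / (r - 1) ≤ 3 / 2 := by
  have h : 0 < r - 1 := by linarith
  constructor
  · rw [le_div_iff₀ h]; linarith
  · rw [div_le_iff₀ h]; linarith

theorem aa {r : ℝ} (hr : 3 ≤ r) :
    0 ≤ r * (r + 1) / (r - 1) ^ 2 ∧ r * (r + 1) / (r - 1) ^ 2 ≤ 3 := by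
  have h0 : 0 < r - 1 := by linarith
  have h : 0 < (r - 1) ^ 2 := by positivity
  constructor
  · apply div_nonneg _ h.le
    nlinarith
  · rw [div_le_iff₀ h]; nlinarith

theorem cc {r : ℝ} (hr : 3 ≤ r) :
    0 ≤ r * (r - 2) / (r - 1) ^ 2 ∧ r * (r - 2) / (r - 1) ^ 2 ≤ 1 := by
  have h0 : 0 < r - 1 := by linarith
  have h : 0 < (r - 1) ^ 2 := by positivity
  constructor
  · apply div_nonneg _ h.le
    nlinarith
  · rw [div_le_iff₀ h]; nlinarith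

/-- the function `g_R` in the variables `x`, `p` -/
theorem gid {r : ℝ} (hr : 3 ≤ r) (x p : ℝ) :
    (x - p) ^ 3 * (r * (r + 1) / (r - 1) ^ 2) - 3 * (x - p) * (r / (r - 1) * x ^ 2) / (r - 1)
      = r * (r - 2) / (r - 1) ^ 2 * x ^ 3 - 3 * (r / (r - 1)) ^ 2 * (x ^ 2 * p)
        + 3 * (r * (r + 1) / (r - 1) ^ 2) * (x * p ^ 2)
        - r * (r + 1) / (r - 1) ^ 2 * p ^ 3 := by
  have h0 : r - 1 ≠ 0 := by
    have : 0 < r - 1 := by linarith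
    exact this.ne'
  field_simp
  ring

theorem exq {r x x' p ps k : ℝ} (hr : 3 ≤ r) (hx' : 1 ≤ x') (hp : 0 ≤ p) (hk0 : -1 ≤ k)
    (hk1 : k ≤ 1) (hk : k < 1 → x - p ≤ x' - ps + k)
    (h1 : x' ^ 2 ≤ (x' - ps + 1) ^ 2 + (r - 1)) (h2 : -1 ≤ x' - ps) :
    ps ≤ r ∧ ∃ q, 0 ≤ q ∧ p ≤ q + (r + 1) + |x - x'| ∧
      x' ^ 2 * q - |x ^ 2 - x' ^ 2| * p - x' ^ 2 * |x - x'| - (r - 1) * x'
        ≤ x ^ 2 * p + x' ^ 2 * (k - ps) := by
  have h4 : (ps - 1) * x' ≤ r - 1 := by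
    rcases le_total ps 1 with h | h
    · have : (ps - 1) * x' ≤ 0 := mul_nonpos_of_nonpos_of_nonneg (by linarith) (by linarith)
      linarith
    · have h5 : (ps - 1) * x' ≤ (ps - 1) * (2 * x' - ps + 1) :=
        mul_le_mul_of_nonneg_left (by linarith) (by linarith)
      nlinarith
  have h5 : ps ≤ r := by
    rcases le_total ps 1 with h | h
    · linarith
    · have : (ps - 1) * 1 ≤ (ps - 1) * x' := mul_le_mul_of_nonneg_left hx' (by linarith)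
      linarith
  have ha := le_abs_self (x ^ 2 - x' ^ 2)
  have ha' := neg_abs_le (x ^ 2 - x' ^ 2)
  have hb := le_abs_self (x - x')
  have hb' := neg_abs_le (x - x')
  have hx2 : 0 ≤ x' ^ 2 := sq_nonneg x'
  have e1 : -(|x ^ 2 - x' ^ 2| * p) ≤ (x ^ 2 - x' ^ 2) * p := by
    have := mul_le_mul_of_nonneg_right ha' hp
    linarith
  have e2 : -(x' ^ 2 * |x - x'|) ≤ x' ^ 2 * (x - x') := by
    have := mul_le_mul_of_nonneg_left hb' hx2
    linarith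
  have e3 : 0 ≤ x' ^ 2 * |x - x'| := mul_nonneg hx2 (abs_nonneg _)
  have e4 : 0 ≤ (r - 1) * x' := mul_nonneg (by linarith) (by linarith)
  refine ⟨h5, ?_⟩
  rcases lt_or_eq_of_le hk1 with hk' | hk'
  · refine ⟨x' - ps + k - (x - p), by linarith [hk hk'], by linarith, ?_⟩
    have e : x' ^ 2 * (x' - ps + k - (x - p)) = x ^ 2 * p + x' ^ 2 * (k - ps)
      - (x ^ 2 - x' ^ 2) * p - x' ^ 2 * (x - x') := by ring
    rw [e]
    linarith
  · refine ⟨p, hp, by linarith [abs_nonneg (x - x')], ?_⟩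
    have e : x ^ 2 * p + x' ^ 2 * (k - ps) = x' ^ 2 * p + (x ^ 2 - x' ^ 2) * p
      - x' * ((ps - 1) * x') := by rw [hk']; ring
    rw [e]
    have e5 : x' * ((ps - 1) * x') ≤ x' * (r - 1) :=
      mul_le_mul_of_nonneg_left h4 (by linarith)
    linarith

/-- comparison of `x` and `x'` -/
theorem cmp {x x' B S T : ℝ} (hx : 0 ≤ x) (hx' : 0 ≤ x') (hT : |x ^ 2 - x' ^ 2| ≤ T)
    (h1 : x ≤ B * S) (h2 : x' ≤ B * S) :
    x ^ 3 - x' ^ 3 ≤ 2 * B * S * T ∧ (x ^ 2 + x' ^ 2) * |x - x'| ≤ 2 * B * S * T ∧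
      x' ^ 2 * |x - x'| ≤ 2 * B * S * T := by
  have h3 : (x + x') ^ 2 * |x - x'| ≤ 2 * B * S * T := by
    have e : (x + x') ^ 2 * |x - x'| = (x + x') * |x ^ 2 - x' ^ 2| := by
      have e1 : x ^ 2 - x' ^ 2 = (x + x') * (x - x') := by ring
      rw [e1, abs_mul, abs_of_nonneg (add_nonneg hx hx')]
      ring
    rw [e]
    have h4 : (x + x') * |x ^ 2 - x' ^ 2| ≤ (2 * B * S) * T :=
      mul_le_mul (by linarith) hT (abs_nonneg _) (by linarith)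
    linarith
  have h4 : (x ^ 2 + x' ^ 2) * |x - x'| ≤ (x + x') ^ 2 * |x - x'| := by
    apply mul_le_mul_of_nonneg_right _ (abs_nonneg _)
    nlinarith [mul_nonneg hx hx']
  refine ⟨?_, h4.trans h3, ?_⟩
  · have e : x ^ 3 - x' ^ 3 = (x ^ 2 + x * x' + x' ^ 2) * (x - x') := by ring
    rw [e]
    have h5 : (x ^ 2 + x * x' + x' ^ 2) * (x - x') ≤ (x ^ 2 + x * x' + x' ^ 2) * |x - x'| := by
      apply mul_le_mul_of_nonneg_left (le_abs_self _)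
      have := mul_nonneg hx hx'
      positivity
    have h6 : (x ^ 2 + x * x' + x' ^ 2) * |x - x'| ≤ (x + x') ^ 2 * |x - x'| := by
      apply mul_le_mul_of_nonneg_right _ (abs_nonneg _)
      nlinarith [mul_nonneg hx hx']
    linarith
  · have h5 : 0 ≤ x ^ 2 * |x - x'| := mul_nonneg (sq_nonneg _) (abs_nonneg _)
    linarith [h4.trans h3]

/-- third powers of small numbers are small -/
theorem small {K ε S s : ℝ} (hK : 0 < K) (hε : 0 < ε) (hS : 0 < S) (h1 : K ^ 3 / ε ^ 2 ≤ S)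
    (hs : 0 ≤ s) (h2 : s ^ 2 ≤ K * S) : s ^ 3 ≤ ε * S ^ 2 := by
  by_contra hcon
  push Not at hcon
  have hs0 : 0 < s := by
    rcases lt_or_eq_of_le hs with h | h
    · exact h
    · rw [← h] at hcon
      have : 0 < ε * S ^ 2 := by positivity
      norm_num at hcon
      linarith
  have h3 : (s ^ 2) ^ 2 ≤ (K * S) ^ 2 := pow_le_pow_left₀ (sq_nonneg s) h2 2
  have h4 : ε * S ^ 2 * s < s ^ 3 * s := mul_lt_mul_of_pos_right hcon hs0
  have h5 : S ^ 2 * (ε * s) < S ^ 2 * K ^ 2 := by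
    have e1 : S ^ 2 * (ε * s) = ε * S ^ 2 * s := by ring
    have e2 : S ^ 2 * K ^ 2 = (K * S) ^ 2 := by ring
    have e3 : s ^ 3 * s = (s ^ 2) ^ 2 := by ring
    rw [e1, e2]
    rw [e3] at h4
    linarith
  have h6 : ε * s < K ^ 2 := lt_of_mul_lt_mul_left h5 (by positivity)
  have h7 : s < K ^ 2 / ε := by
    rw [lt_div_iff₀ hε]
    linarith
  have h8 : s ^ 3 ≤ (K * S) * (K ^ 2 / ε) := by
    have e : s ^ 3 = s ^ 2 * s := by ring
    rw [e]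
    exact mul_le_mul h2 h7.le hs (by positivity)
  have h9 : (K * S) * (K ^ 2 / ε) ≤ ε * S ^ 2 := by
    have e : (K * S) * (K ^ 2 / ε) = (K ^ 3 / ε ^ 2) * (ε * S) := by
      field_simp
    rw [e]
    have h10 := mul_le_mul_of_nonneg_right h1 (show (0 : ℝ) ≤ ε * S by positivity)
    have e2 : S * (ε * S) = ε * S ^ 2 := by ring
    rw [e2] at h10
    exact h10
  linarith

/-- the far case and the case of bounded second moments -/
theorem crude {S R R' N ρ M3 M3' M4 M4' k κ : ℝ} (hS : 1 ≤ S)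
    (hN : S ^ 2 = N) (hR0' : 0 ≤ R')
    (hR' : R' ≤ ρ * N) (h3 : M3 ≤ R * √R)
    (h3' : -(R' * √R') ≤ M3') (h4 : 0 ≤ M4) (h4' : M4' ≤ R' ^ 2) (hκ0 : 0 ≤ κ)
    (hκ : κ ≤ 3 / 2) (hk : -1 ≤ k) :
    M3 + (M4' - M4) / N ≤ M3' + 3 * k * κ * R' + (R * √R + R' * √R' + (ρ + 5) * R') := by
  have hN1 : 0 < N := by
    rw [← hN]; positivity
  have e1 : (M4' - M4) / N ≤ ρ * R' := by
    rw [div_le_iff₀ hN1]
    have : R' ^ 2 ≤ (ρ * N) * R' := by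
      rw [sq]
      exact mul_le_mul_of_nonneg_right hR' hR0'
    linarith
  have e2 : -(3 * k * κ * R') ≤ 5 * R' := by
    have h1 : -k * κ ≤ 3 / 2 := by
      have : -k * κ ≤ 1 * κ := mul_le_mul_of_nonneg_right (by linarith) hκ0
      linarith
    have h2 : (-k * κ) * R' ≤ 3 / 2 * R' := mul_le_mul_of_nonneg_right h1 hR0'
    linarith
  linarith

theorem far {B S R R' N ρ M3 M3' M4 M4' k κ T : ℝ} (hB : 0 ≤ B) (hS : 1 ≤ S)
    (hN : S ^ 2 = N) (hρ : B ^ 2 = ρ) (hR0 : 0 ≤ R) (hR0' : 0 ≤ R') (hR : R ≤ ρ * N)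
    (hR' : R' ≤ ρ * N) (h3 : M3 ≤ R * √R)
    (h3' : -(R' * √R') ≤ M3') (h4 : 0 ≤ M4) (h4' : M4' ≤ R' ^ 2) (hκ0 : 0 ≤ κ)
    (hκ : κ ≤ 3 / 2) (hk : -1 ≤ k) (hT : R + R' ≤ 4 * T) :
    M3 + (M4' - M4) / N ≤ M3' + 3 * k * κ * R' + 4 * (B + ρ + 5) * S * T := by
  have h := crude hS hN hR0' hR' h3 h3' h4 h4' hκ0 hκ hk
  have e1 : √R ≤ B * S := by
    rw [Real.sqrt_le_left (by positivity)]
    calc R ≤ ρ * N := hR
      _ = (B * S) ^ 2 := by rw [← hρ, ← hN]; ring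
  have e1' : √R' ≤ B * S := by
    rw [Real.sqrt_le_left (by positivity)]
    calc R' ≤ ρ * N := hR'
      _ = (B * S) ^ 2 := by rw [← hρ, ← hN]; ring
  have e2 : R * √R ≤ R * (B * S) := mul_le_mul_of_nonneg_left e1 hR0
  have e2' : R' * √R' ≤ R' * (B * S) := mul_le_mul_of_nonneg_left e1' hR0'
  have hρ0 : 0 ≤ ρ := by rw [← hρ]; positivity
  have e3 : (ρ + 5) * R' ≤ (ρ + 5) * S * (R + R') := by
    have : (ρ + 5) * R' * 1 ≤ (ρ + 5) * R' * S := mul_le_mul_of_nonneg_left hS (by positivity)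
    have h5 : 0 ≤ (ρ + 5) * S * R := by positivity
    linarith
  have e4 : (B + ρ + 5) * S * (R + R') ≤ (B + ρ + 5) * S * (4 * T) :=
    mul_le_mul_of_nonneg_left hT (by positivity)
  linarith

/-- fourth moments -/
theorem m4 {r x x' p ps s' M4 M4' : ℝ} (hr : 3 ≤ r) (hx' : 1 ≤ x') (hp : 0 ≤ p) (hps : 0 ≤ ps)
    (hD : -1 ≤ x' - ps) (hs' : 0 ≤ s')
    (h4 : (x - p) ^ 4 * (1 + 1 / (r - 1) ^ 3) ≤ M4)
    (h4' : M4' ≤ (x' - ps) ^ 4 * (1 + 1 / (r - 1) ^ 3) + 6 * (x' - ps) ^ 2 * s' ^ 2 / (r - 1) ^ 2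
      + 4 * |x' - ps| * s' ^ 3 / (r - 1) + s' ^ 4) :
    M4' - M4 ≤ 5 * (x' ^ 3 * (|x - x'| + p + ps)) + 2 * (x' ^ 2 * s' ^ 2) + 2 * (x' * s' ^ 3)
      + s' ^ 4 := by
  set Ds := x' - ps with hDs
  set D := x - p with hD'
  have hr1 : 0 < r - 1 := by linarith
  have hab : |Ds| ≤ x' := by
    rw [abs_le]
    constructor <;> linarith
  have hW : |Ds - D| ≤ |x - x'| + p + ps := by
    have e : Ds - D = (x' - x) + (p - ps) := by rw [hDs, hD']; ring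
    rw [e]
    have h1 := abs_add_le (x' - x) (p - ps)
    have h2 : |p - ps| ≤ p + ps := by
      rw [abs_le]; constructor <;> linarith
    rw [abs_sub_comm x' x] at h1
    linarith
  have hW0 : 0 ≤ |x - x'| + p + ps := by positivity
  have h1 : Ds ^ 4 - D ^ 4 ≤ 4 * (x' ^ 3 * (|x - x'| + p + ps)) := by
    have e1 : Ds ^ 4 - D ^ 4 ≤ 4 * (Ds ^ 3 * (Ds - D)) := by
      have : 0 ≤ (Ds - D) ^ 2 * ((Ds + D) ^ 2 + 2 * Ds ^ 2) := by positivity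
      nlinarith [this]
    have e2 : Ds ^ 3 * (Ds - D) ≤ x' ^ 3 * (|x - x'| + p + ps) := by
      calc Ds ^ 3 * (Ds - D) ≤ |Ds ^ 3 * (Ds - D)| := le_abs_self _
        _ = |Ds| ^ 3 * |Ds - D| := by rw [abs_mul, abs_pow]
        _ ≤ x' ^ 3 * (|x - x'| + p + ps) :=
          mul_le_mul (pow_le_pow_left₀ (abs_nonneg _) hab 3) hW (abs_nonneg _) (by positivity)
    linarith
  have hc0 : 0 ≤ 1 + 1 / (r - 1) ^ 3 := by positivity
  have hc1 : 1 + 1 / (r - 1) ^ 3 ≤ 5 / 4 := by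
    have h2 : (2 : ℝ) ≤ r - 1 := by linarith
    have h3 : (2 : ℝ) ^ 3 ≤ (r - 1) ^ 3 := pow_le_pow_left₀ (by norm_num) h2 3
    have h5 : 1 / (r - 1) ^ 3 ≤ 1 / 8 := by
      apply one_div_le_one_div_of_le (by norm_num)
      linarith
    linarith
  have h2 : (Ds ^ 4 - D ^ 4) * (1 + 1 / (r - 1) ^ 3) ≤ 5 * (x' ^ 3 * (|x - x'| + p + ps)) := by
    have e1 := mul_le_mul_of_nonneg_right h1 hc0
    have e2 : 4 * (x' ^ 3 * (|x - x'| + p + ps)) * (1 + 1 / (r - 1) ^ 3)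
        ≤ 4 * (x' ^ 3 * (|x - x'| + p + ps)) * (5 / 4) :=
      mul_le_mul_of_nonneg_left hc1 (by positivity)
    linarith
  have h3 : 6 * Ds ^ 2 * s' ^ 2 / (r - 1) ^ 2 ≤ 2 * (x' ^ 2 * s' ^ 2) := by
    rw [div_le_iff₀ (by positivity)]
    have e1 : Ds ^ 2 ≤ x' ^ 2 := by
      rw [← sq_abs Ds]
      exact pow_le_pow_left₀ (abs_nonneg _) hab 2
    have e2 : Ds ^ 2 * s' ^ 2 ≤ x' ^ 2 * s' ^ 2 := mul_le_mul_of_nonneg_right e1 (sq_nonneg _)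
    have e3 : (4 : ℝ) ≤ (r - 1) ^ 2 := by nlinarith
    have e4 : 2 * (x' ^ 2 * s' ^ 2) * 4 ≤ 2 * (x' ^ 2 * s' ^ 2) * (r - 1) ^ 2 :=
      mul_le_mul_of_nonneg_left e3 (by positivity)
    have e5 : 0 ≤ x' ^ 2 * s' ^ 2 := by positivity
    linarith
  have h5 : 4 * |Ds| * s' ^ 3 / (r - 1) ≤ 2 * (x' * s' ^ 3) := by
    rw [div_le_iff₀ hr1]
    have e2 : |Ds| * s' ^ 3 ≤ x' * s' ^ 3 := mul_le_mul_of_nonneg_right hab (by positivity)
    have e4 : 2 * (x' * s' ^ 3) * 2 ≤ 2 * (x' * s' ^ 3) * (r - 1) :=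
      mul_le_mul_of_nonneg_left (by linarith) (by positivity)
    linarith
  have h6 : (Ds ^ 4 - D ^ 4) * (1 + 1 / (r - 1) ^ 3)
      = Ds ^ 4 * (1 + 1 / (r - 1) ^ 3) - D ^ 4 * (1 + 1 / (r - 1) ^ 3) := by ring
  linarith

/-- the main case: the largest entry is almost as large as possible -/
theorem near {r x x' p ps k q B S f T ε ρ N K M3 M3' M4 M4' s s' : ℝ} (hr : 3 ≤ r)
    (hx : 0 ≤ x) (hx' : 1 ≤ x') (hp : 0 ≤ p) (hps : 0 ≤ ps) (hpx : p ≤ f ^ 2 / 3 * x)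
    (hf0 : 0 < f) (hf1 : f ≤ 1 / 8) (hxB : x ≤ B * S) (hxB' : x' ≤ B * S)
    (hxx : x ^ 2 ≤ 3 * x' ^ 2) (hN : S ^ 2 = N) (hρ : B ^ 2 = ρ) (hBf : B ≤ f * S)
    (hS : 1 ≤ S) (hB : 0 ≤ B) (hT : |x ^ 2 - x' ^ 2| ≤ T) (hq0 : 0 ≤ q)
    (hq1 : p ≤ q + (r + 1) + |x - x'|)
    (hq2 : x' ^ 2 * q - |x ^ 2 - x' ^ 2| * p - x' ^ 2 * |x - x'| - (r - 1) * x'
      ≤ x ^ 2 * p + x' ^ 2 * (k - ps))
    (hpsr : ps ≤ r) (hD : -1 ≤ x' - ps) (hs : 0 ≤ s)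
    (hs2 : s ^ 2 = r / (r - 1) * x ^ 2 - (x - p) ^ 2 * (r / (r - 1)))
    (hs' : 0 ≤ s') (hs2' : s' ^ 2 ≤ K * S) (hs3' : s' ^ 3 ≤ ε * N)
    (h3 : M3 ≤ (x - p) ^ 3 * (r * (r + 1) / (r - 1) ^ 2)
      - 3 * (x - p) * (r / (r - 1) * x ^ 2) / (r - 1) + s ^ 3)
    (h3' : (x' - ps) ^ 3 * (r * (r + 1) / (r - 1) ^ 2)
      - 3 * (x' - ps) * (r / (r - 1) * x' ^ 2) / (r - 1) - s' ^ 3 ≤ M3')
    (h4 : (x - p) ^ 4 * (1 + 1 / (r - 1) ^ 3) ≤ M4)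
    (h4' : M4' ≤ (x' - ps) ^ 4 * (1 + 1 / (r - 1) ^ 3) + 6 * (x' - ps) ^ 2 * s' ^ 2 / (r - 1) ^ 2
      + 4 * |x' - ps| * s' ^ 3 / (r - 1) + s' ^ 4) :
    M3 + (M4' - M4) / N ≤ M3' + 3 * k * (r / (r - 1)) * (r / (r - 1) * x' ^ 2)
      + (25 * B + 10 * B ^ 2) * S * T
      + (7 * (r - 1) * B + 5 * B ^ 3 * r + 2 * B ^ 2 * K + 2 * B * ε) * S
      + (3 * r ^ 3 + K ^ 2) + ε * N + 12 * f * ρ * (r + 1) * N := by
  have hN1 : 0 < N := by rw [← hN]; positivity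
  have hT0 : 0 ≤ T := (abs_nonneg _).trans hT
  have hBS : 0 ≤ B * S := by positivity
  have hBST : 0 ≤ B * S * T := by positivity
  have hx0' : 0 ≤ x' := by linarith
  have hf2 : f ^ 2 / 3 ≤ 1 := by
    have h := pow_le_pow_left₀ hf0.le hf1 2
    norm_num at h
    linarith only [h]
  have hpx' : p ≤ x := by
    have := mul_le_mul_of_nonneg_right hf2 hx
    linarith
  obtain ⟨c1, c2, c3⟩ := cmp hx hx0' hT hxB hxB'
  obtain ⟨k1, k2⟩ := kap hr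
  obtain ⟨a1, a2⟩ := aa hr
  obtain ⟨g1, g2⟩ := cc hr
  rw [gid hr] at h3 h3'
  set κ := r / (r - 1) with hκ
  set a := r * (r + 1) / (r - 1) ^ 2 with ha
  set c := r * (r - 2) / (r - 1) ^ 2 with hc
  -- the term `t1`
  have t1 : c * x ^ 3 - c * x' ^ 3 ≤ 2 * (B * S * T) := by
    have e1 : c * (x ^ 3 - x' ^ 3) ≤ c * (2 * B * S * T) := mul_le_mul_of_nonneg_left c1 g1
    have e2 : c * (2 * B * S * T) ≤ 1 * (2 * B * S * T) :=
      mul_le_mul_of_nonneg_right g2 (by linarith)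
    linarith
  -- the term `t2`
  have kk1 : 1 ≤ κ ^ 2 := one_le_pow₀ k1
  have kk2 : κ ^ 2 ≤ 7 / 3 :=
    (pow_le_pow_left₀ (by linarith only [k1]) k2 2).trans (by norm_num)
  have y1 : |x ^ 2 - x' ^ 2| * p ≤ B * S * T := by
    have : |x ^ 2 - x' ^ 2| * p ≤ T * (B * S) := mul_le_mul hT (hpx'.trans hxB) hp hT0
    linarith
  have y2 : (r - 1) * x' ≤ (r - 1) * B * S := by
    have : (r - 1) * x' ≤ (r - 1) * (B * S) := mul_le_mul_of_nonneg_left hxB' (by linarith)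
    linarith
  have t2 : -(3 * κ ^ 2 * (x ^ 2 * p + x' ^ 2 * (k - ps)))
      ≤ -(3 * (x' ^ 2 * q)) + 21 * (B * S * T) + 7 * ((r - 1) * B * S) := by
    have z0 : 0 ≤ |x ^ 2 - x' ^ 2| * p + x' ^ 2 * |x - x'| + (r - 1) * x' := by
      have e1 : 0 ≤ |x ^ 2 - x' ^ 2| * p := mul_nonneg (abs_nonneg _) hp
      have e2 : 0 ≤ x' ^ 2 * |x - x'| := mul_nonneg (sq_nonneg _) (abs_nonneg _)
      have e3 : 0 ≤ (r - 1) * x' := mul_nonneg (by linarith) hx0'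
      linarith
    have z1 : 3 * κ ^ 2 * (x' ^ 2 * q - (|x ^ 2 - x' ^ 2| * p + x' ^ 2 * |x - x'| + (r - 1) * x'))
        ≤ 3 * κ ^ 2 * (x ^ 2 * p + x' ^ 2 * (k - ps)) :=
      mul_le_mul_of_nonneg_left (by linarith) (by positivity)
    have z2 : κ ^ 2 * (|x ^ 2 - x' ^ 2| * p + x' ^ 2 * |x - x'| + (r - 1) * x')
        ≤ 7 / 3 * (|x ^ 2 - x' ^ 2| * p + x' ^ 2 * |x - x'| + (r - 1) * x') :=
      mul_le_mul_of_nonneg_right kk2 z0
    have z3 : 1 * (x' ^ 2 * q) ≤ κ ^ 2 * (x' ^ 2 * q) :=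
      mul_le_mul_of_nonneg_right kk1 (by positivity)
    linarith
  -- the term `t3`
  have hxp : x * p ^ 2 ≤ f / 3 * (x ^ 2 * p) := by
    have e1 : x * p * p ≤ x * p * (f ^ 2 / 3 * x) := mul_le_mul_of_nonneg_left hpx (by positivity)
    have e2 : f * (f / 3 * (x ^ 2 * p)) ≤ 1 * (f / 3 * (x ^ 2 * p)) :=
      mul_le_mul_of_nonneg_right (by linarith) (by positivity)
    linarith
  have t3 : 3 * a * (x * p ^ 2) ≤ 3 * f * (x ^ 2 * p) := by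
    have e1 : a * (x * p ^ 2) ≤ 3 * (x * p ^ 2) := mul_le_mul_of_nonneg_right a2 (by positivity)
    linarith
  have t4 : 0 ≤ a * p ^ 3 := by positivity
  have t4' : 0 ≤ 3 * a * (x' * ps ^ 2) := by positivity
  have t5 : a * ps ^ 3 ≤ 3 * r ^ 3 :=
    mul_le_mul a2 (pow_le_pow_left₀ hps hpsr 3) (by positivity) (by norm_num)
  -- the term `t6`
  have s1 : s ^ 2 ≤ 3 * (x * p) := by
    rw [hs2]
    have e : κ * x ^ 2 - (x - p) ^ 2 * κ = κ * (2 * (x * p)) - κ * p ^ 2 := by ring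
    rw [e]
    have e1 : κ * (2 * (x * p)) ≤ 3 / 2 * (2 * (x * p)) :=
      mul_le_mul_of_nonneg_right k2 (by positivity)
    have e2 : 0 ≤ κ * p ^ 2 := by positivity
    linarith
  have s2 : s ≤ f * x := by
    have e1 : s ^ 2 ≤ (f * x) ^ 2 := by
      have e2 : x * p ≤ x * (f ^ 2 / 3 * x) := mul_le_mul_of_nonneg_left hpx hx
      have e3 : (f * x) ^ 2 = 3 * (x * (f ^ 2 / 3 * x)) := by ring
      rw [e3]
      linarith
    exact le_of_sq_le_sq e1 (by positivity)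
  have t6 : s ^ 3 ≤ 3 * f * (x ^ 2 * p) := by
    have e1 : s ^ 2 * s ≤ 3 * (x * p) * (f * x) := mul_le_mul s1 s2 hs (by positivity)
    linarith
  -- the term `t8`
  have z := m4 hr hx' hp hps hD hs' h4 h4'
  have hBS' : x' ^ 2 ≤ (B * S) ^ 2 := pow_le_pow_left₀ hx0' hxB' 2
  have u1 : x' ^ 3 * |x - x'| ≤ (2 * B ^ 2 * S * T) * N := by
    have e1 : x' * (x' ^ 2 * |x - x'|) ≤ (B * S) * (2 * B * S * T) :=
      mul_le_mul hxB' c3 (by positivity) hBS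
    have e2 : (B * S) * (2 * B * S * T) = (2 * B ^ 2 * T * N) * 1 := by rw [← hN]; ring
    have e3 : (2 * B ^ 2 * T * N) * 1 ≤ (2 * B ^ 2 * T * N) * S :=
      mul_le_mul_of_nonneg_left hS (by positivity)
    linarith
  have u2 : x' ^ 3 * p ≤ (f * (x' ^ 2 * p)) * N := by
    have e1 : x' * (x' ^ 2 * p) ≤ (B * S) * (x' ^ 2 * p) :=
      mul_le_mul_of_nonneg_right hxB' (by positivity)
    have e2 : B * (S * (x' ^ 2 * p)) ≤ (f * S) * (S * (x' ^ 2 * p)) :=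
      mul_le_mul_of_nonneg_right hBf (by positivity)
    have e3 : (f * S) * (S * (x' ^ 2 * p)) = (f * (x' ^ 2 * p)) * N := by rw [← hN]; ring
    linarith
  have u3 : x' ^ 3 * ps ≤ (B ^ 3 * r * S) * N := by
    have e1 : x' ^ 3 * ps ≤ (B * S) ^ 3 * r :=
      mul_le_mul (pow_le_pow_left₀ hx0' hxB' 3) hpsr hps (by positivity)
    have e2 : (B * S) ^ 3 * r = (B ^ 3 * r * S) * N := by rw [← hN]; ring
    linarith
  have u4 : x' ^ 2 * s' ^ 2 ≤ (B ^ 2 * K * S) * N := by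
    have e1 : x' ^ 2 * s' ^ 2 ≤ (B * S) ^ 2 * (K * S) :=
      mul_le_mul hBS' hs2' (by positivity) (by positivity)
    have e2 : (B * S) ^ 2 * (K * S) = (B ^ 2 * K * S) * N := by rw [← hN]; ring
    linarith
  have u5 : x' * s' ^ 3 ≤ (B * ε * S) * N := by
    have e1 : x' * s' ^ 3 ≤ (B * S) * (ε * N) := mul_le_mul hxB' hs3' (by positivity) hBS
    linarith
  have u6 : s' ^ 4 ≤ K ^ 2 * N := by
    have e1 : (s' ^ 2) ^ 2 ≤ (K * S) ^ 2 := pow_le_pow_left₀ (sq_nonneg _) hs2' 2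
    have e2 : (K * S) ^ 2 = K ^ 2 * N := by rw [← hN]; ring
    have e3 : (s' ^ 2) ^ 2 = s' ^ 4 := by ring
    linarith
  have t8 : (M4' - M4) / N ≤ 10 * B ^ 2 * S * T + 5 * f * (x' ^ 2 * p)
      + (5 * B ^ 3 * r + 2 * B ^ 2 * K + 2 * B * ε) * S + K ^ 2 := by
    rw [div_le_iff₀ hN1]
    have e : 5 * (x' ^ 3 * (|x - x'| + p + ps)) = 5 * (x' ^ 3 * |x - x'|) + 5 * (x' ^ 3 * p)
      + 5 * (x' ^ 3 * ps) := by ring
    rw [e] at z
    linarith only [z, u1, u2, u3, u4, u5, u6]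
  -- the terms with `p`
  have v1 : (x ^ 2 + x' ^ 2) * p ≤ 4 * (x' ^ 2 * q) + 2 * ρ * N * (r + 1) + 2 * (B * S * T) := by
    have e1 : (x ^ 2 + x' ^ 2) * p ≤ (x ^ 2 + x' ^ 2) * (q + (r + 1) + |x - x'|) :=
      mul_le_mul_of_nonneg_left hq1 (by positivity)
    have e2 : (x ^ 2 + x' ^ 2) * q ≤ (4 * x' ^ 2) * q :=
      mul_le_mul_of_nonneg_right (by linarith) hq0
    have e3 : x ^ 2 + x' ^ 2 ≤ 2 * ρ * N := by
      have : x ^ 2 ≤ (B * S) ^ 2 := pow_le_pow_left₀ hx hxB 2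
      have e4 : (B * S) ^ 2 = ρ * N := by rw [← hρ, ← hN]; ring
      linarith
    have e5 : (x ^ 2 + x' ^ 2) * (r + 1) ≤ (2 * ρ * N) * (r + 1) :=
      mul_le_mul_of_nonneg_right e3 (by linarith)
    have e6 : (x ^ 2 + x' ^ 2) * (q + (r + 1) + |x - x'|) = (x ^ 2 + x' ^ 2) * q
      + (x ^ 2 + x' ^ 2) * (r + 1) + (x ^ 2 + x' ^ 2) * |x - x'| := by ring
    rw [e6] at e1
    linarith only [e1, e2, e3, e5, c2]
  have v2 : 6 * f * (x ^ 2 * p) + 5 * f * (x' ^ 2 * p) ≤ 3 * (x' ^ 2 * q)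
      + 12 * f * ρ * (r + 1) * N + 2 * (B * S * T) := by
    have e1 : 6 * f * ((x ^ 2 + x' ^ 2) * p)
        ≤ 6 * f * (4 * (x' ^ 2 * q) + 2 * ρ * N * (r + 1) + 2 * (B * S * T)) :=
      mul_le_mul_of_nonneg_left v1 (by positivity)
    have e2 : f * (x' ^ 2 * q) ≤ 1 / 8 * (x' ^ 2 * q) :=
      mul_le_mul_of_nonneg_right hf1 (by positivity)
    have e3 : f * (B * S * T) ≤ 1 / 8 * (B * S * T) := mul_le_mul_of_nonneg_right hf1 hBST
    have e4 : 0 ≤ f * (x' ^ 2 * p) := by positivity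
    linarith only [e1, e2, e3, e4, hBST]
  linarith only [h3, h3', t1, t2, t3, t4, t4', t5, t6, t8, v2, hs3']

/-- the case in which the largest entry is not near the maximum -/
theorem mid {r x x' ps k B S e T ε ρ N M3 M3' M4 M4' s' : ℝ} (hr : 3 ≤ r)
    (hx : 0 < x) (hx' : 1 ≤ x') (hps : 0 ≤ ps)
    (he0 : 0 < e) (he1 : e < 1) (hxB : x ≤ B * S) (hxB' : x' ≤ B * S)
    (hxx : x' ^ 2 ≤ 2 * x ^ 2) (hN : S ^ 2 = N)
    (hS : 1 ≤ S) (hB : 0 ≤ B) (hρ0 : 0 ≤ ρ) (hT : |x ^ 2 - x' ^ 2| ≤ T)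
    (hpsr : ps ≤ r) (hk : -1 ≤ k) (hR' : r / (r - 1) * x' ^ 2 ≤ ρ * N)
    (hs3' : s' ^ 3 ≤ ε * N)
    (h3 : M3 ≤ ((1 - e) * x) * (r / (r - 1) * x ^ 2)
      - (r / (r - 1) * x ^ 2) ^ 2 / (r * ((1 - e) * x)))
    (h3' : (x' - ps) ^ 3 * (r * (r + 1) / (r - 1) ^ 2)
      - 3 * (x' - ps) * (r / (r - 1) * x' ^ 2) / (r - 1) - s' ^ 3 ≤ M3')
    (h4 : 0 ≤ M4) (h4' : M4' ≤ (r / (r - 1) * x' ^ 2) ^ 2) :
    M3 + (M4' - M4) / N ≤ M3' + 3 * k * (r / (r - 1)) * (r / (r - 1) * x' ^ 2)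
      + 2 * B * S * T + (3 * r ^ 3 + (2 * (7 * r + 7 + 2 * ρ)) ^ 3 / e ^ 2) + ε * N := by
  have hN1 : 0 < N := by rw [← hN]; positivity
  have hT0 : 0 ≤ T := (abs_nonneg _).trans hT
  have hx0' : 0 ≤ x' := by linarith
  have hr1 : 0 < r - 1 := by linarith
  obtain ⟨c1, c2, c3⟩ := cmp hx.le hx0' hT hxB hxB'
  obtain ⟨k1, k2⟩ := kap hr
  obtain ⟨a1, a2⟩ := aa hr
  obtain ⟨g1, g2⟩ := cc hr
  have hM3 : M3 ≤ r * (r - 2) / (r - 1) ^ 2 * x ^ 3 - e * x ^ 3 := by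
    have e1 : r / (r - 1) * x ^ 3 / (r - 1)
        ≤ (r / (r - 1) * x ^ 2) ^ 2 / (r * ((1 - e) * x)) := by
      rw [div_le_div_iff₀ hr1 (by have : 0 < 1 - e := by linarith
                                  positivity)]
      have e2 : (r / (r - 1) * x ^ 2) ^ 2 * (r - 1) = (r / (r - 1) * x ^ 3) * (r * x) := by
        field_simp
      rw [e2]
      apply mul_le_mul_of_nonneg_left _ (by positivity)
      apply mul_le_mul_of_nonneg_left _ (by positivity)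
      have e5 : 0 ≤ e * x := by positivity
      linarith only [e5]
    have e3 : (1 - e) * x * (r / (r - 1) * x ^ 2) - r / (r - 1) * x ^ 3 / (r - 1)
        = r * (r - 2) / (r - 1) ^ 2 * x ^ 3 - r / (r - 1) * (e * x ^ 3) := by
      field_simp
      ring
    have e4 : 1 * (e * x ^ 3) ≤ r / (r - 1) * (e * x ^ 3) :=
      mul_le_mul_of_nonneg_right k1 (by positivity)
    linarith
  rw [gid hr] at h3'
  set κ := r / (r - 1) with hκ
  set a := r * (r + 1) / (r - 1) ^ 2 with ha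
  set c := r * (r - 2) / (r - 1) ^ 2 with hc
  have hBST : 0 ≤ B * S * T := by positivity
  have t1 : c * x ^ 3 - c * x' ^ 3 ≤ 2 * (B * S * T) := by
    have e1 : c * (x ^ 3 - x' ^ 3) ≤ c * (2 * B * S * T) := mul_le_mul_of_nonneg_left c1 g1
    have e2 : c * (2 * B * S * T) ≤ 1 * (2 * B * S * T) :=
      mul_le_mul_of_nonneg_right g2 (by linarith)
    linarith
  have kk1 : 1 ≤ κ ^ 2 := one_le_pow₀ k1
  have kk2 : κ ^ 2 ≤ 7 / 3 :=
    (pow_le_pow_left₀ (by linarith only [k1]) k2 2).trans (by norm_num)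
  have t2 : 3 * κ ^ 2 * (x' ^ 2 * ps) ≤ 7 * (x' ^ 2 * r) := by
    have e1 : κ ^ 2 * (x' ^ 2 * ps) ≤ 7 / 3 * (x' ^ 2 * r) :=
      mul_le_mul kk2 (mul_le_mul_of_nonneg_left hpsr (sq_nonneg _)) (by positivity) (by norm_num)
    linarith
  have t4' : 0 ≤ 3 * a * (x' * ps ^ 2) := by positivity
  have t5 : a * ps ^ 3 ≤ 3 * r ^ 3 :=
    mul_le_mul a2 (pow_le_pow_left₀ hps hpsr 3) (by positivity) (by norm_num)
  have t8 : (M4' - M4) / N ≤ 2 * ρ * x' ^ 2 := by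
    rw [div_le_iff₀ hN1]
    have e1 : (κ * x' ^ 2) ^ 2 ≤ (ρ * N) * (κ * x' ^ 2) := by
      rw [sq (κ * x' ^ 2)]
      exact mul_le_mul_of_nonneg_right hR' (by positivity)
    have e2 : κ * ((ρ * N) * x' ^ 2) ≤ 3 / 2 * ((ρ * N) * x' ^ 2) :=
      mul_le_mul_of_nonneg_right k2 (by positivity)
    have e3 : 0 ≤ ρ * N * x' ^ 2 := by positivity
    linarith
  have t9 : -(3 * k * κ * (κ * x' ^ 2)) ≤ 7 * x' ^ 2 := by
    have e1 : -k * (κ ^ 2 * x' ^ 2) ≤ 1 * (κ ^ 2 * x' ^ 2) :=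
      mul_le_mul_of_nonneg_right (by linarith) (by positivity)
    have e2 : κ ^ 2 * x' ^ 2 ≤ 7 / 3 * x' ^ 2 := mul_le_mul_of_nonneg_right kk2 (sq_nonneg _)
    linarith
  set K1 := 2 * (7 * r + 7 + 2 * ρ) with hK1
  have hK0 : 0 < K1 := by rw [hK1]; positivity
  have w1 : K1 * x ^ 2 - e * x ^ 3 ≤ K1 ^ 3 / e ^ 2 := by
    rcases le_total (K1 / e) x with h | h
    · rw [div_le_iff₀ he0] at h
      have e1 : K1 * x ^ 2 ≤ (x * e) * x ^ 2 := mul_le_mul_of_nonneg_right h (sq_nonneg _)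
      have e2 : 0 ≤ K1 ^ 3 / e ^ 2 := by positivity
      linarith
    · have e1 : x ^ 2 ≤ (K1 / e) ^ 2 := pow_le_pow_left₀ hx.le h 2
      have e2 : K1 * x ^ 2 ≤ K1 * (K1 / e) ^ 2 := mul_le_mul_of_nonneg_left e1 hK0.le
      have e3 : K1 * (K1 / e) ^ 2 = K1 ^ 3 / e ^ 2 := by
        field_simp
      have e4 : 0 ≤ e * x ^ 3 := by positivity
      linarith
  have w2 : (7 * r + 7 + 2 * ρ) * x' ^ 2 ≤ K1 * x ^ 2 := by
    have e1 : (7 * r + 7 + 2 * ρ) * x' ^ 2 ≤ (7 * r + 7 + 2 * ρ) * (2 * x ^ 2) :=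
      mul_le_mul_of_nonneg_left hxx (by positivity)
    rw [hK1]
    linarith only [e1]
  linarith only [hM3, h3', t1, t2, t4', t5, t8, t9, w1, w2, hs3']

end CUB

open CUB in
theorem blk_CUB (hCU1 : Stmt_CU1) : Stmt_CUB := by
  intro r ρ η hr hρ hη
  have hr3 : (3 : ℝ) ≤ r := by exact_mod_cast hr
  obtain ⟨B, hB0, hBρ⟩ : ∃ B : ℝ, 0 < B ∧ B ^ 2 = ρ := ⟨√ρ, Real.sqrt_pos.2 hρ, Real.sq_sqrt hρ.le⟩
  obtain ⟨f, hf0, hf1, hf2⟩ : ∃ f : ℝ, 0 < f ∧ f ≤ 1 / 8 ∧ 12 * f * ρ * (r + 1) ≤ η / 4 := by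
    refine ⟨min (1 / 8) (η / (48 * ρ * (r + 1))), by positivity, min_le_left _ _, ?_⟩
    have h := min_le_right (1 / 8) (η / (48 * ρ * ((r : ℝ) + 1)))
    rw [le_div_iff₀ (by positivity)] at h
    linarith
  obtain ⟨e, he0, he1, hef⟩ : ∃ e : ℝ, 0 < e ∧ e < 1 ∧ e = f ^ 2 / 3 := by
    refine ⟨f ^ 2 / 3, by positivity, ?_, rfl⟩
    have h := pow_le_pow_left₀ hf0.le hf1 2
    norm_num at h
    linarith only [h]
  obtain ⟨ε, hε0, hεη⟩ : ∃ ε : ℝ, 0 < ε ∧ ε = η / 8 := ⟨η / 8, by positivity, rfl⟩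
  obtain ⟨K, hK0, hK⟩ : ∃ K : ℝ, 0 < K ∧ K = (r + 5) * B := ⟨(r + 5) * B, by positivity, rfl⟩
  obtain ⟨CS, hCS0, hCS⟩ : ∃ CS : ℝ, 0 ≤ CS ∧
      CS = 7 * (r - 1) * B + 5 * B ^ 3 * r + 2 * B ^ 2 * K + 2 * B * ε := by
    refine ⟨_, ?_, rfl⟩
    have : (0 : ℝ) ≤ r - 1 := by linarith
    positivity
  obtain ⟨C0, hC00, hC0⟩ : ∃ C0 : ℝ, 0 ≤ C0 ∧ C0 = 3 * (r : ℝ) ^ 3 + K ^ 2 :=
    ⟨_, by positivity, rfl⟩
  obtain ⟨CM, hCM0, hCM⟩ : ∃ CM : ℝ, 0 ≤ CM ∧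
      CM = 3 * (r : ℝ) ^ 3 + (2 * (7 * r + 7 + 2 * ρ)) ^ 3 / e ^ 2 :=
    ⟨_, by positivity, rfl⟩
  obtain ⟨L, hL0, hL⟩ : ∃ L : ℝ, 0 ≤ L ∧ L = 1 + B / f + K ^ 3 / ε ^ 2 + 4 * (CS + C0) / η
      + 4 * CM / η + (20 + 2 * ρ) / η := ⟨_, by positivity, rfl⟩
  refine ⟨4 * (B + ρ + 5) + (25 * B + 10 * B ^ 2), ⌈L ^ 2⌉₊, by positivity, ?_⟩
  intro n hn d d' R R' k i1 hd hd' hR hR' hRn hRn' hk0 hk1 hk hD1 hRD
  have hLS : L ≤ √(n : ℝ) := by
    rw [Real.le_sqrt hL0 (Nat.cast_nonneg n)]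
    exact Nat.ceil_le.1 hn
  have hN : √(n : ℝ) ^ 2 = n := Real.sq_sqrt (Nat.cast_nonneg n)
  set S := √(n : ℝ) with hSdef
  generalize (n : ℝ) = N at hN hRn hRn' ⊢
  have p1 : 0 ≤ B / f := by positivity
  have p2 : 0 ≤ K ^ 3 / ε ^ 2 := by positivity
  have p3 : 0 ≤ 4 * (CS + C0) / η := by positivity
  have p4 : 0 ≤ 4 * CM / η := by positivity
  have p5 : 0 ≤ (20 + 2 * ρ) / η := by positivity
  have hS1 : 1 ≤ S := by linarith only [hLS, hL, p1, p2, p3, p4, p5]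
  have hS2 : B ≤ f * S := by
    have : B / f ≤ S := by linarith only [hLS, hL, p1, p2, p3, p4, p5]
    rw [div_le_iff₀ hf0] at this
    linarith
  have hS3 : K ^ 3 / ε ^ 2 ≤ S := by linarith only [hLS, hL, p1, p2, p3, p4, p5]
  have hS4 : 4 * (CS + C0) ≤ S * η := by
    have : 4 * (CS + C0) / η ≤ S := by linarith only [hLS, hL, p1, p2, p3, p4, p5]
    rwa [div_le_iff₀ hη] at this
  have hS5 : 4 * CM ≤ S * η := by
    have : 4 * CM / η ≤ S := by linarith only [hLS, hL, p1, p2, p3, p4, p5]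
    rwa [div_le_iff₀ hη] at this
  have hS6 : 20 + 2 * ρ ≤ S * η := by
    have : (20 + 2 * ρ) / η ≤ S := by linarith only [hLS, hL, p1, p2, p3, p4, p5]
    rwa [div_le_iff₀ hη] at this
  have hS0 : 0 < S := by linarith
  have hSN : S * η ≤ η * N := by
    have h := mul_le_mul_of_nonneg_left hS1 (show (0 : ℝ) ≤ S * η by positivity)
    have e1 : S * η * S = η * N := by rw [← hN]; ring
    linarith
  have hN0 : 0 < N := by rw [← hN]; positivity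
  -- the moments
  obtain ⟨a1, a2, a3, a4, a5, a6⟩ := hCU1 r hr d R hd hR
  obtain ⟨b1, b2, b3, b4, b5, b6⟩ := hCU1 r hr d' R' hd' hR'
  have hR0 : 0 ≤ R := by
    rw [← hR]
    exact Finset.sum_nonneg fun i _ => sq_nonneg _
  have hR0' : 0 ≤ R' := by
    rw [← hR']
    exact Finset.sum_nonneg fun i _ => sq_nonneg _
  have hM4 : 0 ≤ ∑ i, d i ^ 4 := Finset.sum_nonneg fun i _ => by positivity
  obtain ⟨k1, k2⟩ := kap hr3
  have hκ0 : 0 ≤ (r : ℝ) / (r - 1) := by linarith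
  obtain ⟨T, hTdef⟩ : ∃ T, T = |R - R'| := ⟨_, rfl⟩
  rw [← hTdef]
  have hT0 : 0 ≤ T := by rw [hTdef]; exact abs_nonneg _
  have hST : 0 ≤ S * T := by positivity
  have hηN : 0 ≤ η * N := by positivity
  have h3m : -(R' * √R') ≤ ∑ i, d' i ^ 3 := by
    linarith [neg_abs_le (∑ i, d' i ^ 3)]
  by_cases h0 : R + R' ≤ 4 * T
  · have h := far hB0.le hS1 hN hBρ hR0 hR0' hRn hRn' ((le_abs_self _).trans a5)
      h3m hM4 b6 hκ0 k2 hk0 h0
    have e1 : 0 ≤ (25 * B + 10 * B ^ 2) * S * T := by positivity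
    linarith only [h, e1, hηN]
  push Not at h0
  have hRR : R - R' ≤ T ∧ R' - R ≤ T := by
    rw [hTdef]
    exact ⟨le_abs_self _, by rw [abs_sub_comm]; exact le_abs_self _⟩
  by_cases h1 : R' < r / (r - 1)
  · have h := crude hS1 hN hR0' hRn' ((le_abs_self _).trans a5)
      h3m hM4 b6 hκ0 k2 hk0
    have e1 : R' ≤ 2 := by linarith
    have e2 : R ≤ 4 := by linarith [hRR.1]
    have e3 : √R ≤ 2 := by
      rw [Real.sqrt_le_left (by norm_num)]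
      linarith
    have e3' : √R' ≤ 2 := by
      rw [Real.sqrt_le_left (by norm_num)]
      linarith
    have e4 : R * √R ≤ 3 * 2 := mul_le_mul (by linarith [hRR.1]) e3 (Real.sqrt_nonneg _)
      (by norm_num)
    have e4' : R' * √R' ≤ 2 * 2 := mul_le_mul e1 e3' (Real.sqrt_nonneg _) (by norm_num)
    have e5 : (ρ + 5) * R' ≤ (ρ + 5) * 2 := mul_le_mul_of_nonneg_left e1 (by positivity)
    have e6 : 0 ≤ (4 * (B + ρ + 5) + (25 * B + 10 * B ^ 2)) * S * T := by positivity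
    linarith only [h, e4, e4', e5, e6, hS6, hSN]
  push Not at h1
  have hκ1 : (0 : ℝ) < r / (r - 1) := by linarith
  obtain ⟨x, hx0, hx⟩ : ∃ x : ℝ, 0 ≤ x ∧ r / (r - 1) * x ^ 2 = R :=
    ⟨√(R / (r / (r - 1))), Real.sqrt_nonneg _, by
      rw [Real.sq_sqrt (by positivity)]
      exact mul_div_cancel₀ _ hκ1.ne'⟩
  obtain ⟨x', hx0', hx'⟩ : ∃ x : ℝ, 0 ≤ x ∧ r / (r - 1) * x ^ 2 = R' :=
    ⟨√(R' / (r / (r - 1))), Real.sqrt_nonneg _, by
      rw [Real.sq_sqrt (by positivity)]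
      exact mul_div_cancel₀ _ hκ1.ne'⟩
  have hx1' : 1 ≤ x' := by
    have e1 : (r : ℝ) / (r - 1) * 1 ≤ r / (r - 1) * x' ^ 2 := by rw [hx']; linarith
    have e2 : (1 : ℝ) ≤ x' ^ 2 := le_of_mul_le_mul_left e1 hκ1
    nlinarith only [e2, hx0']
  have hxR : x ^ 2 ≤ R := by
    rw [← hx]
    have := mul_le_mul_of_nonneg_right k1 (sq_nonneg x)
    linarith
  have hxR' : x' ^ 2 ≤ R' := by
    rw [← hx']
    have := mul_le_mul_of_nonneg_right k1 (sq_nonneg x')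
    linarith
  have hBSN : (B * S) ^ 2 = ρ * N := by rw [← hBρ, ← hN]; ring
  have hxB : x ≤ B * S := le_of_sq_le_sq (by linarith) (by positivity)
  have hxB' : x' ≤ B * S := le_of_sq_le_sq (by linarith) (by positivity)
  have hTx : |x ^ 2 - x' ^ 2| ≤ T := by
    have e1 : R - R' = r / (r - 1) * (x ^ 2 - x' ^ 2) := by rw [← hx, ← hx']; ring
    rw [hTdef, e1, abs_mul, abs_of_nonneg hκ0]
    have := mul_le_mul_of_nonneg_right k1 (abs_nonneg (x ^ 2 - x' ^ 2))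
    linarith
  have hxx : x ^ 2 ≤ 2 * x' ^ 2 := by
    have e1 : r / (r - 1) * x ^ 2 ≤ r / (r - 1) * (2 * x' ^ 2) := by
      have e2 : (r : ℝ) / (r - 1) * (2 * x' ^ 2) = 2 * R' := by rw [← hx']; ring
      rw [e2, hx]
      linarith [hRR.1]
    exact le_of_mul_le_mul_left e1 hκ1
  have hxx' : x' ^ 2 ≤ 2 * x ^ 2 := by
    have e1 : r / (r - 1) * x' ^ 2 ≤ r / (r - 1) * (2 * x ^ 2) := by
      have e2 : (r : ℝ) / (r - 1) * (2 * x ^ 2) = 2 * R := by rw [← hx]; ring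
      rw [e2, hx']
      linarith [hRR.2]
    exact le_of_mul_le_mul_left e1 hκ1
  have hx1 : 0 < x := by
    rcases lt_or_eq_of_le hx0 with h | h
    · exact h
    · rw [← h] at hxx'
      nlinarith only [hxx', hx1']
  -- the entry `d' i1`
  obtain ⟨ps, hps⟩ : ∃ ps, d' i1 = x' - ps := ⟨x' - d' i1, by ring⟩
  have hps0 : 0 ≤ ps := by
    have e1 : r / (r - 1) * (d' i1) ^ 2 ≤ r / (r - 1) * x' ^ 2 := by
      rw [hx']
      linarith [b1 i1]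
    have e2 : (d' i1) ^ 2 ≤ x' ^ 2 := le_of_mul_le_mul_left e1 hκ1
    have e3 := (le_abs_self (d' i1)).trans (abs_le_of_sq_le_sq e2 hx0')
    linarith
  have hκr : (r : ℝ) / (r - 1) * (r - 1) = r := by
    have : (r : ℝ) - 1 ≠ 0 := by
      have : (0 : ℝ) < r - 1 := by linarith
      exact this.ne'
    field_simp
  have hxps : x' ^ 2 ≤ (x' - ps + 1) ^ 2 + (r - 1) := by
    have e1 : r / (r - 1) * x' ^ 2 ≤ r / (r - 1) * ((x' - ps + 1) ^ 2 + (r - 1)) := by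
      rw [hx', mul_add, hκr, ← hps]
      linarith
    exact le_of_mul_le_mul_left e1 hκ1
  have hDs : -1 ≤ x' - ps := by rw [← hps]; exact hD1
  -- the fourth root
  obtain ⟨s', hs0', hs2'⟩ : ∃ s' : ℝ, 0 ≤ s' ∧ s' ^ 2 = R' - d' i1 ^ 2 * (r / (r - 1)) :=
    ⟨√(R' - d' i1 ^ 2 * (r / (r - 1))), Real.sqrt_nonneg _,
      Real.sq_sqrt (by linarith [b1 i1])⟩
  have hsK : s' ^ 2 ≤ K * S := by
    have e1 : s' ^ 2 ≤ r / (r - 1) * (2 * d' i1 + 1) + r := by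
      rw [hs2']
      have e2 : (d' i1 + 1) ^ 2 * ((r : ℝ) / (r - 1)) = d' i1 ^ 2 * (r / (r - 1))
        + r / (r - 1) * (2 * d' i1 + 1) := by ring
      linarith
    have e3 : (r : ℝ) / (r - 1) * (2 * d' i1 + 1) ≤ 3 / 2 * (2 * x' + 1) := by
      have e4 : (r : ℝ) / (r - 1) * (2 * d' i1 + 1) ≤ r / (r - 1) * (2 * x' + 1) :=
        mul_le_mul_of_nonneg_left (by linarith) hκ0
      have e5 : (r : ℝ) / (r - 1) * (2 * x' + 1) ≤ 3 / 2 * (2 * x' + 1) :=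
        mul_le_mul_of_nonneg_right k2 (by linarith)
      linarith
    have e6 : (r + 2) * 1 ≤ ((r : ℝ) + 2) * x' := mul_le_mul_of_nonneg_left hx1' (by linarith)
    have e7 : ((r : ℝ) + 5) * x' ≤ (r + 5) * (B * S) :=
      mul_le_mul_of_nonneg_left hxB' (by linarith)
    rw [hK]
    linarith only [e1, e3, e6, e7]
  have hsε : s' ^ 3 ≤ ε * N := by
    have := small hK0 hε0 hS0 hS3 hs0' hsK
    rwa [hN] at this
  obtain ⟨b2a, b2b⟩ := b2 i1 s' hs0' hs2'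
  have h3' : (x' - ps) ^ 3 * (r * (r + 1) / (r - 1) ^ 2)
      - 3 * (x' - ps) * (r / (r - 1) * x' ^ 2) / (r - 1) - s' ^ 3 ≤ ∑ i, d' i ^ 3 := by
    rw [hx', ← hps]
    have := (abs_le.1 b2a).1
    linarith
  -- the maximum of `d`
  have : Nonempty (Fin r) := ⟨i1⟩
  obtain ⟨i0, hi0⟩ := Finite.exists_max d
  obtain ⟨p, hp⟩ : ∃ p, d i0 = x - p := ⟨x - d i0, by ring⟩
  have hp0 : 0 ≤ p := by
    have e1 : r / (r - 1) * (d i0) ^ 2 ≤ r / (r - 1) * x ^ 2 := by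
      rw [hx]
      linarith [a1 i0]
    have e2 : (d i0) ^ 2 ≤ x ^ 2 := le_of_mul_le_mul_left e1 hκ1
    have e3 := (le_abs_self (d i0)).trans (abs_le_of_sq_le_sq e2 hx0)
    linarith
  obtain ⟨hpsr, q, hq0, hq1, hq2⟩ := exq hr3 hx1' hp0 hk0 hk1
    (fun hk' => by rw [← hp, ← hps]; exact hk hk' i0) hxps hDs
  by_cases h2 : d i0 ≤ (1 - e) * x
  · have h3 := a4 ((1 - e) * x) (by have : 0 < 1 - e := by linarith
                                    positivity) fun i => (hi0 i).trans h2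
    rw [← hx] at h3
    have b6' : ∑ i, d' i ^ 4 ≤ (r / (r - 1) * x' ^ 2) ^ 2 := by rw [hx']; exact b6
    have h := mid hr3 hx1 hx1' hps0 he0 he1 hxB hxB' hxx' hN hS1 hB0.le hρ.le hTx hpsr hk0
      (by rw [hx']; exact hRn') hsε h3 h3' hM4 b6'
    rw [← hCM, hx', hεη] at h
    have e1 : 0 ≤ (4 * (B + ρ + 5) + (23 * B + 10 * B ^ 2)) * S * T := by positivity
    linarith only [h, e1, hS5, hSN, hηN]
  · push Not at h2
    have hpx : p ≤ f ^ 2 / 3 * x := by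
      rw [← hef]
      rw [hp] at h2
      linarith
    obtain ⟨s, hs0, hs2⟩ : ∃ s : ℝ, 0 ≤ s ∧ s ^ 2 = R - d i0 ^ 2 * (r / (r - 1)) :=
      ⟨√(R - d i0 ^ 2 * (r / (r - 1))), Real.sqrt_nonneg _,
        Real.sq_sqrt (by linarith [a1 i0])⟩
    obtain ⟨a2a, -⟩ := a2 i0 s hs0 hs2
    have h3 : ∑ i, d i ^ 3 ≤ (x - p) ^ 3 * (r * (r + 1) / (r - 1) ^ 2)
        - 3 * (x - p) * (r / (r - 1) * x ^ 2) / (r - 1) + s ^ 3 := by
      rw [hx, ← hp]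
      have := (abs_le.1 a2a).2
      linarith
    rw [hp, ← hx] at hs2
    have a3' := a3 i0
    rw [hp] at a3'
    rw [hps] at b2b
    have h := near hr3 hx0 hx1' hp0 hps0 hpx hf0 hf1 hxB hxB' (by linarith) hN hBρ hS2 hS1
      hB0.le hTx hq0 hq1 hq2 hpsr hDs hs0 hs2 hs0' hsK hsε h3 h3' a3' b2b
    rw [← hCS, ← hC0, hx', hεη] at h
    have e1 : 12 * f * ρ * (r + 1) * N ≤ η / 4 * N := mul_le_mul_of_nonneg_right hf2 hN0.le
    have e2 : C0 ≤ C0 * S := by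
      have := mul_le_mul_of_nonneg_left hS1 hC00
      linarith
    have e3 : 4 * (CS + C0) * S ≤ η * N := by
      have e4 := mul_le_mul_of_nonneg_right hS4 hS0.le
      have e5 : S * η * S = η * N := by rw [← hN]; ring
      linarith
    have e6 : 0 ≤ 4 * (B + ρ + 5) * S * T := by positivity
    linarith only [h, e1, e2, e3, e6, hηN]

end Pool.Agent.Work.MP_5532fa_up
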