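import Pool.Agent.Work.MP_5532fa_up.Interface5
import Pool.Agent.Work.MP_5532fa_up.D1

/-! # Block D1B (helper69; copy of D1 of helper68 for the range `RgB`) -/

open Finset

namespace Pool.Agent.Work.MP_5532fa_up

open MP5532fa (specRad qf pE)

/-- the range `RgV` is below `al r * N` -/
theorem RgV.le {r : ℕ} (hr : 3 ≤ r) {N j : ℕ} (h : RgV r N j) : (j : ℝ) ≤ al r * N := by
  have h1 := al_ge hr
  have hr3 : (3 : ℝ) ≤ r := by exact_mod_cast hr
  have hN : (0 : ℝ) ≤ N := Nat.cast_nonneg N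
  have h2 : 1 / (4 * (r : ℝ) ^ 2) ≤ 2 / r := by
    rw [div_le_div_iff₀ (by positivity) (by positivity)]
    nlinarith
  have h3 : (0 : ℝ) ≤ al r * N := mul_nonneg (by linarith) hN
  unfold RgV at h
  nlinarith

theorem blk_D1B (hGD : Stmt_GD) (hFAM : Stmt_FAM) (hEST : Stmt_ESTU) (hMV2 : Stmt_MV2B) :
    Stmt_D1B := by
  classical
  intro r ε hr hε
  have hr3 : (3 : ℝ) ≤ r := by exact_mod_cast hr
  have hr0 : (0 : ℝ) < r := by linarith
  obtain ⟨e, N1, he, hM⟩ := hMV2 r ε hr hε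
  obtain ⟨δ, N2, hδ, hE⟩ := hEST r e hr he
  obtain ⟨δ0, hδ0, hd1, hd2, hd3, hd4⟩ : ∃ δ0 : ℝ, 0 < δ0 ∧ δ0 ≤ δ / 4 ∧ δ0 ≤ e ∧ δ0 ≤ ε / 8 ∧
      δ0 ≤ 1 / (4 * r) := by
    refine ⟨min (min (δ / 4) e) (min (ε / 8) (1 / (4 * r))), ?_, ?_, ?_, ?_, ?_⟩
    · exact lt_min (lt_min (by positivity) he) (lt_min (by positivity) (by positivity))
    · exact (min_le_left _ _).trans (min_le_left _ _)
    · exact (min_le_left _ _).trans (min_le_right _ _)
    · exact (min_le_right _ _).trans (min_le_left _ _)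
    · exact (min_le_right _ _).trans (min_le_right _ _)
  refine ⟨δ0, N1 + N2 + ⌈1 / δ0⌉₊ + ⌈2 * (r + 2) / ε⌉₊ + 4 * r, hδ0, ?_⟩
  intro N hN j hj V _ G H c w A v1 v2 hWD hnear hMX
  have hjN := RgV.le hr hj.2
  have hNa : 1 ≤ δ0 * N := by
    have h1 := Nat.le_ceil (1 / δ0)
    have h2 : ((⌈1 / δ0⌉₊ : ℕ) : ℝ) ≤ N := by exact_mod_cast (by omega : ⌈1 / δ0⌉₊ ≤ N)
    have h3 : 1 / δ0 ≤ N := h1.trans h2
    rw [div_le_iff₀ hδ0] at h3
    linarith
  have hNb : 2 * ((r : ℝ) + 2) ≤ ε * N := by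
    have h1 := Nat.le_ceil (2 * ((r : ℝ) + 2) / ε)
    have h2 : ((⌈2 * ((r : ℝ) + 2) / ε⌉₊ : ℕ) : ℝ) ≤ N := by
      exact_mod_cast (by omega : ⌈2 * ((r : ℝ) + 2) / ε⌉₊ ≤ N)
    have h3 := h1.trans h2
    rw [div_le_iff₀ hε] at h3
    linarith
  have hNc : 4 * (r : ℝ) ≤ N := by exact_mod_cast (by omega : 4 * r ≤ N)
  have hN0 : (0 : ℝ) < N := by linarith
  have hd1' : δ0 * N ≤ δ / 4 * N := mul_le_mul_of_nonneg_right hd1 hN0.le
  have hd3' : δ0 * N ≤ ε / 8 * N := mul_le_mul_of_nonneg_right hd3 hN0.le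
  have hd4' : δ0 * N ≤ N / r / 4 := by
    have : 1 / (4 * (r : ℝ)) * N = N / r / 4 := by field_simp
    rw [← this]
    exact mul_le_mul_of_nonneg_right hd4 hN0.le
  have hNr : 4 ≤ (N : ℝ) / r := by rw [le_div_iff₀ hr0]; linarith
  have hcl3 : ∀ i, 3 ≤ (cl H c i).card := by
    intro i
    have h1 := (abs_le.1 (hnear.1 i)).1
    have h2 : (3 : ℝ) ≤ sz H c i := by linarith
    unfold sz at h2
    exact_mod_cast h2
  by_contra hB
  unfold Bal at hB
  push Not at hB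
  obtain ⟨l, k, hlk⟩ := hB
  have hkl : k ≠ l := by
    rintro rfl
    omega
  have hv1A : v1 ∈ A := by
    have : v1 ∈ cl A c (c v1) := by rw [hWD.h1]; exact Finset.mem_singleton_self _
    exact (mem_cl.1 this).1
  have hv2A : v2 ∈ A := by
    have : v2 ∈ cl A c (c v2) := by rw [hWD.h2]; exact Finset.mem_singleton_self _
    exact (mem_cl.1 this).1
  -- the vertex `v`
  obtain ⟨v, hvH, hvl, hvv1, hvv2, hvA⟩ : ∃ v ∈ H, c v = l ∧ v ≠ v1 ∧ v ≠ v2 ∧
      (v ∈ A → 2 ≤ (cl A c l).card) := by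
    by_cases h : cl H c l ⊆ A
    · have h1 : cl A c l = cl H c l := by
        ext z
        simp only [mem_cl]
        constructor
        · rintro ⟨h2, h3⟩; exact ⟨hWD.hA h2, h3⟩
        · rintro ⟨h2, h3⟩; exact ⟨h (mem_cl.2 ⟨h2, h3⟩), h3⟩
      have h2 : 2 ≤ (cl A c l).card := by rw [h1]; omega
      obtain ⟨v, hv⟩ : (cl H c l).Nonempty := Finset.card_pos.1 (by have := hcl3 l; omega)
      rw [mem_cl] at hv
      refine ⟨v, hv.1, hv.2, ?_, ?_, fun _ => h2⟩
      · rintro rfl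
        rw [← hv.2, hWD.h1, Finset.card_singleton] at h2
        omega
      · rintro rfl
        rw [← hv.2, hWD.h2, Finset.card_singleton] at h2
        omega
    · obtain ⟨v, hv, hvA⟩ := Finset.not_subset.1 h
      rw [mem_cl] at hv
      refine ⟨v, hv.1, hv.2, ?_, ?_, fun h => absurd h hvA⟩
      · rintro rfl; exact hvA hv1A
      · rintro rfl; exact hvA hv2A
  -- representatives
  have hrep : ∀ i, ∃ a, a ∈ A ∧ c a = i ∧ a ≠ v := by
    intro i
    by_cases hi : i = l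
    · subst hi
      by_cases hv : v ∈ A
      · obtain ⟨a, ha, hav⟩ := Finset.exists_mem_ne (hvA hv) v
        rw [mem_cl] at ha
        exact ⟨a, ha.1, ha.2, hav⟩
      · obtain ⟨a, ha⟩ := hWD.hne i
        rw [mem_cl] at ha
        exact ⟨a, ha.1, ha.2, fun h => hv (h ▸ ha.1)⟩
    · obtain ⟨a, ha⟩ := hWD.hne i
      rw [mem_cl] at ha
      exact ⟨a, ha.1, ha.2, fun h => hi (by rw [← ha.2, h, hvl])⟩
  choose s hs1 hs2 hs3 using hrep
  have hR1 : univ.image s ⊆ A.erase v := by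
    intro z hz
    rw [Finset.mem_image] at hz
    obtain ⟨i, _, rfl⟩ := hz
    exact Finset.mem_erase.2 ⟨hs3 i, hs1 i⟩
  have hR2 : (univ.image s).card ≤ r := by
    refine Finset.card_image_le.trans ?_
    simp
  have hsv1 : s (c v1) = v1 := by
    have : s (c v1) ∈ cl A c (c v1) := mem_cl.2 ⟨hs1 _, hs2 _⟩
    rw [hWD.h1, Finset.mem_singleton] at this
    exact this
  have hsv2 : s (c v2) = v2 := by
    have : s (c v2) ∈ cl A c (c v2) := mem_cl.2 ⟨hs1 _, hs2 _⟩
    rw [hWD.h2, Finset.mem_singleton] at this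
    exact this
  obtain ⟨g, hg⟩ : ∃ g, (cl H c l).card = (cl H c k).card + 1 + g := ⟨_, (by omega :
    (cl H c l).card = (cl H c k).card + 1 + ((cl H c l).card - (cl H c k).card - 1))⟩
  have hg1 : 1 ≤ g := by omega
  have hgN : (g : ℝ) ≤ 2 * (δ0 * N) := by
    have h1 := (abs_le.1 (hnear.1 l)).2
    have h2 := (abs_le.1 (hnear.1 k)).1
    have h3 : sz H c l = sz H c k + 1 + g := by unfold sz; exact_mod_cast hg
    linarith
  have hAc : (r : ℝ) + g ≤ A.card := by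
    have h1 := (abs_le.1 hnear.2).1
    have h2 := hj.1
    linarith
  have hAc' : r + g ≤ A.card := by exact_mod_cast hAc
  have hAe : A.card - 1 ≤ (A.erase v).card := Finset.pred_card_le_card_erase
  obtain ⟨A', hRA', hA'A, hA'c⟩ := Finset.exists_subsuperset_card_eq hR1
    (n := A.card - g) (by omega) (by omega)
  have hA'A2 : A' ⊆ A := hA'A.trans (Finset.erase_subset _ _)
  have hvA' : v ∉ A' := fun h => (Finset.mem_erase.1 (hA'A h)).1 rfl
  obtain ⟨c', hc'⟩ : ∃ c', c' = Function.update c v k := ⟨_, rfl⟩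
  have hc'v : c' v = k := by rw [hc', Function.update_self]
  have hc'n : ∀ z, z ≠ v → c' z = c z := fun z hz => by rw [hc', Function.update_of_ne hz]
  have hsA' : ∀ i, s i ∈ A' := fun i => hRA' (Finset.mem_image_of_mem _ (Finset.mem_univ _))
  have hclA' : ∀ i, cl A' c' i = cl A' c i := by
    intro i
    ext z
    simp only [mem_cl]
    constructor
    · rintro ⟨h1, h2⟩
      exact ⟨h1, by rw [← hc'n z (fun h => hvA' (h ▸ h1))]; exact h2⟩
    · rintro ⟨h1, h2⟩
      exact ⟨h1, by rw [hc'n z (fun h => hvA' (h ▸ h1))]; exact h2⟩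
  have hcl1 : ∀ u, u ∈ A' → cl A c (c u) = {u} → cl A' c' (c' u) = {u} := by
    intro u hu h1
    rw [hclA', hc'n u (fun h => hvA' (h ▸ hu))]
    apply Finset.Subset.antisymm
    · intro z hz
      rw [mem_cl] at hz
      rw [← h1]
      exact mem_cl.2 ⟨hA'A2 hz.1, hz.2⟩
    · intro z hz
      rw [Finset.mem_singleton] at hz
      subst hz
      exact mem_cl.2 ⟨hu, rfl⟩
  have hv1A' : v1 ∈ A' := hsv1 ▸ hsA' (c v1)
  have hv2A' : v2 ∈ A' := hsv2 ▸ hsA' (c v2)
  have hWD' : WD (gD H c' w A' v1 v2) N H c' w A' v1 v2 := by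
    refine gD_WD hWD.card hWD.hw (hA'A2.trans hWD.hA) ?_ (hcl1 v1 hv1A' hWD.h1)
      (hcl1 v2 hv2A' hWD.h2) ?_
    · rw [hc'n v1 hvv1.symm, hc'n v2 hvv2.symm]
      exact hWD.h12
    · intro i
      rw [hclA']
      exact ⟨s i, mem_cl.2 ⟨hsA' i, hs2 i⟩⟩
  have hG := hGD r hr V G N H c w A v1 v2 hWD
  have hG' := hGD r hr V (gD H c' w A' v1 v2) N H c' w A' v1 v2 hWD'
  have hkv : k ≠ c v := by rw [hvl]; exact hkl
  have hcm : ∀ i, ((cl H c' i).card : ℤ) =
      (cl H c i).card + (if i = k then 1 else 0) - (if i = c v then 1 else 0) := by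
    intro i
    rw [hc']
    exact D1.cl_move hvH hkv i
  have hcl2 : ∀ i, 2 ≤ (cl H c' i).card := by
    intro i
    have h1 := hcm i
    have h2 := hcl3 i
    split_ifs at h1 <;> omega
  have hA'r : (A'.card : ℝ) = A.card - g := by
    rw [hA'c]
    push_cast [Nat.cast_sub (by omega : g ≤ A.card)]
    ring
  have hlkr : sz H c l = sz H c k + 1 + g := by unfold sz; exact_mod_cast hg
  have hpE : pE (gD H c' w A' v1 v2) = pE G := by
    rw [hG.2.2, hG'.2.2, hc', D1.sq_move hvH hkv, hvl, hlkr, hA'r]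
    ring
  have hsp := hMX (gD H c' w A' v1 v2) hG'.1 (hG'.2.1 hcl2) hpE
  have hV : Nonempty V := ⟨w⟩
  obtain ⟨x, hx⟩ := exists_PV G
  obtain ⟨y, hy⟩ := exists_PV (gD H c' w A' v1 v2)
  have hF := (hFAM r hr V G N H c w A).1 v1 v2 hWD
  have hF' := (hFAM r hr V (gD H c' w A' v1 v2) N H c' w A').1 v1 v2 hWD'
  have hn1 : Near r δ N j H A c := D1.Near.mono hnear (by linarith)
  have hn2 : Near r δ N j H A' c' := by
    constructor
    · intro i
      have h1 : |sz H c' i - sz H c i| ≤ 1 := by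
        have h2 := hcm i
        have h3 : sz H c' i = sz H c i + (if i = k then 1 else 0) - (if i = c v then 1 else 0) := by
          unfold sz
          exact_mod_cast h2
        rw [h3, abs_le]
        split_ifs <;> constructor <;> linarith
      have h2 := hnear.1 i
      rw [abs_le] at h1 h2 ⊢
      constructor <;> linarith
    · have h2 := hnear.2
      rw [hA'r]
      have h3 : (0 : ℝ) ≤ g := Nat.cast_nonneg g
      rw [abs_le] at h2 ⊢
      constructor <;> linarith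
  obtain ⟨xb, hxb⟩ := hE N (by omega) j hjN V G H c w A (JD v1 v2) x (specRad G) hF hx hWD.card hn1
  obtain ⟨yb, hyb⟩ := hE N (by omega) j hjN V (gD H c' w A' v1 v2) H c' w A' (JD v1 v2) y _ hF' hy
    hWD.card hn2
  have hJ : ∀ z, JD v1 v2 v z = 0 := by
    intro z
    unfold JD
    rw [chi_neg (fun h => hvv1 h.1), chi_neg (fun h => hvv2 h.1)]
    ring
  have := hM N (by omega) j hj V G (gD H c' w A' v1 v2) H c c' w A A' (JD v1 v2) x y (specRad G)
    (specRad (gD H c' w A' v1 v2)) xb yb v hF hF' hx hy hWD.card (D1.Near.mono hnear hd2) hxb hyb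
    hvH (by rw [hc'v]; exact hkv) hc'n hJ (by rw [hc'v, hvl]; omega) hA'A2 hvA'
    (by rw [hc'v, hvl]; omega)
  linarith

end Pool.Agent.Work.MP_5532fa_up
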