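import Pool.Agent.Work.MP_5532fa_up.Interface5
import Pool.Agent.Work.MP_5532fa_up.D3

/-!
# MP_5532fa_co, upgrade, block D3V (range `RgV`): the classes of the missing edge are the largest ones
-/

open Finset

namespace Pool.Agent.Work.MP_5532fa_up

open MP5532fa (specRad qf pE)

namespace D3V

open D3

theorem core {V : Type} [Fintype V] {r N j : ℕ} {δ : ℝ} {G : SimpleGraph V} {H : Finset V}
    {c : V → Fin r} {w : V} {A : Finset V} {v1 v2 : V} (hr : 3 ≤ r) (hGD : Stmt_GD)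
    (hFAM : Stmt_FAM) (hCSE : Stmt_CSE) (hE : EstC r δ N j) (hW : WD G N H c w A v1 v2)
    (hN : Near r δ N j H A c) (hδ : δ ≤ 1 / 12) (hmx : MX r G) (l : Fin r)
    (hl1 : l ≠ c v1) (hl2 : l ≠ c v2)
    (hnl : (cl H c l).card = (cl H c (c v1)).card + 1)
    (hal : (cl A c l).card ≤ (cl H c (c v1)).card) (hsize : ∀ i, 2 ≤ (cl H c i).card)
    (hX0 : 0 ≤ (j : ℝ) / (al r * N)) (hX1 : (j : ℝ) / (al r * N) ≤ 1) (hN0 : 0 < N) :
    False := by
  classical
  have hNR : (0 : ℝ) < N := by exact_mod_cast hN0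
  have hv1A : v1 ∈ A := by
    have : v1 ∈ cl A c (c v1) := by rw [hW.h1]; exact Finset.mem_singleton_self _
    exact (mem_cl.mp this).1
  have hv2A : v2 ∈ A := by
    have : v2 ∈ cl A c (c v2) := by rw [hW.h2]; exact Finset.mem_singleton_self _
    exact (mem_cl.mp this).1
  have hV : Nonempty V := ⟨v1⟩
  have hA1 : ∀ v ∈ A, c v = c v1 → v = v1 := by
    intro v hv h
    have : v ∈ cl A c (c v1) := mem_cl.mpr ⟨hv, h⟩
    rw [hW.h1] at this
    exact Finset.mem_singleton.mp this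
  have hA2 : ∀ v ∈ A, c v = c v2 → v = v2 := by
    intro v hv h
    have : v ∈ cl A c (c v2) := mem_cl.mpr ⟨hv, h⟩
    rw [hW.h2] at this
    exact Finset.mem_singleton.mp this
  obtain ⟨u1, hu1⟩ := hW.hne l
  obtain ⟨hu1A, hu1l⟩ := mem_cl.mp hu1
  -- the set `B`
  have hv1k : v1 ∈ cl H c (c v1) := mem_cl.mpr ⟨hW.hA hv1A, rfl⟩
  obtain ⟨B, hBsub, hBcard⟩ : ∃ B ⊆ (cl H c (c v1)).erase v1, B.card = (cl A c l).card - 1 := by
    apply Finset.exists_subset_card_eq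
    rw [Finset.card_erase_of_mem hv1k]
    omega
  have hB : ∀ b ∈ B, b ∈ H ∧ c b = c v1 ∧ b ≠ v1 := by
    intro b hb
    have h1 := hBsub hb
    rw [Finset.mem_erase, mem_cl] at h1
    exact ⟨h1.2.1, h1.2.2, h1.1⟩
  have hBA : ∀ b ∈ B, b ∉ A := by
    intro b hb hbA
    exact (hB b hb).2.2 (hA1 b hbA (hB b hb).2.1)
  obtain ⟨E, hEdef⟩ : ∃ E : Finset V, E = (cl A c l).erase u1 := ⟨_, rfl⟩
  have hEm : ∀ a, a ∈ E ↔ a ≠ u1 ∧ a ∈ A ∧ c a = l := by
    intro a
    rw [hEdef, Finset.mem_erase, mem_cl]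
  have hEcard : E.card = (cl A c l).card - 1 := by
    rw [hEdef, Finset.card_erase_of_mem hu1]
  have hEA : E ⊆ A := fun a ha => ((hEm a).mp ha).2.1
  obtain ⟨A', hA'def⟩ : ∃ A' : Finset V, A' = (A \ E) ∪ B := ⟨_, rfl⟩
  have hdis : Disjoint (A \ E) B := by
    rw [Finset.disjoint_left]
    intro a ha hb
    exact hBA a hb (Finset.mem_sdiff.mp ha).1
  have hA'm : ∀ a, a ∈ A' ↔ (a ∈ A ∧ a ∉ E) ∨ a ∈ B := by
    intro a
    rw [hA'def, Finset.mem_union, Finset.mem_sdiff]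
  have hcardA' : A'.card = A.card := by
    rw [hA'def, Finset.card_union_of_disjoint hdis, Finset.card_sdiff_of_subset hEA, hEcard, hBcard]
    have h1 : (cl A c l).card ≤ A.card := Finset.card_le_card (Finset.filter_subset _ _)
    omega
  have hA'H : A' ⊆ H := by
    intro a ha
    rcases (hA'm a).mp ha with h | h
    · exact hW.hA h.1
    · exact (hB a h).1
  have hu1c : c u1 = l := hu1l
  have hclu1 : cl A' c (c u1) = {u1} := by
    ext a
    rw [mem_cl, hA'm, Finset.mem_singleton]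
    constructor
    · rintro ⟨h1 | h1, h2⟩
      · by_contra h3
        exact h1.2 ((hEm a).mpr ⟨h3, h1.1, h2.trans hu1c⟩)
      · exfalso
        exact hl1 (hu1c.symm.trans (h2.symm.trans (hB a h1).2.1))
    · rintro rfl
      exact ⟨Or.inl ⟨hu1A, fun h => ((hEm _).mp h).1 rfl⟩, rfl⟩
  have hclv2 : cl A' c (c v2) = {v2} := by
    ext a
    rw [mem_cl, hA'm, Finset.mem_singleton]
    constructor
    · rintro ⟨h1 | h1, h2⟩
      · exact hA2 a h1.1 h2
      · exfalso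
        exact hW.h12 ((hB a h1).2.1.symm.trans h2)
    · rintro rfl
      refine ⟨Or.inl ⟨hv2A, fun h => hl2 ((hEm _).mp h).2.2.symm⟩, rfl⟩
  have hne' : ∀ i, (cl A' c i).Nonempty := by
    intro i
    by_cases hi : i = l
    · refine ⟨u1, mem_cl.mpr ⟨(hA'm u1).mpr (Or.inl ⟨hu1A, fun h => ((hEm _).mp h).1 rfl⟩), ?_⟩⟩
      rw [hu1c, hi]
    · obtain ⟨a, ha⟩ := hW.hne i
      obtain ⟨ha1, ha2⟩ := mem_cl.mp ha
      refine ⟨a, mem_cl.mpr ⟨(hA'm a).mpr (Or.inl ⟨ha1, fun h => ?_⟩), ha2⟩⟩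
      exact hi (ha2.symm.trans ((hEm a).mp h).2.2)
  have h12' : c u1 ≠ c v2 := by rw [hu1c]; exact hl2
  obtain ⟨G', hG'def⟩ : ∃ G' : SimpleGraph V, G' = gD H c w A' u1 v2 := ⟨_, rfl⟩
  have hW' : WD G' N H c w A' u1 v2 := by
    rw [hG'def]
    exact gD_WD hW.card hW.hw hA'H h12' hclu1 hclv2 hne'
  -- facts on the two graphs
  have hg := hGD r hr V G N H c w A v1 v2 hW
  have hg' := hGD r hr V G' N H c w A' u1 v2 hW'
  have hle : specRad G' ≤ specRad G := by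
    apply hmx G' hg'.1 (hg'.2.1 hsize)
    rw [hg'.2.2, hg.2.2, hcardA']
  obtain ⟨x, hx⟩ := exists_PV G
  obtain ⟨y, hy⟩ := exists_PV G'
  have hF := (hFAM r hr V G N H c w A).1 v1 v2 hW
  have hF' := (hFAM r hr V G' N H c w A').1 u1 v2 hW'
  have hNear' : Near r δ N j H A' c := ⟨hN.1, by rw [hcardA']; exact hN.2⟩
  obtain ⟨xb, hxb⟩ := hE V G H c w A _ x _ hF hx hW.card hN
  obtain ⟨yb, hyb⟩ := hE V G' H c w A' _ y _ hF' hy hW.card hNear'
  obtain ⟨cx, -, -, -⟩ := hCSE r V G H c w A _ x _ hF hx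
  obtain ⟨cy, -, -, -⟩ := hCSE r V G' H c w A' _ y _ hF' hy
  generalize hlamdef : specRad G = lam at *
  generalize hlamdef' : specRad G' = lam' at *
  have hal3 := al_ge hr
  have hl'pos : 0 < lam' := by
    have h1 := (abs_le.mp hyb.lamN).1
    have h2 : 2 / 3 * (N : ℝ) ≤ al r * N := mul_le_mul_of_nonneg_right hal3 hNR.le
    linarith
  -- class sums
  have hr3 : (3 : ℝ) ≤ r := by exact_mod_cast hr
  have hr1 : (1 : ℝ) / r ≤ 1 / 3 := one_div_le_one_div_of_le (by norm_num) hr3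
  have hXle : (j : ℝ) / (al r * N) ≤ 1 := hX1
  have hszk : ∀ i, sz H c i / N ≤ 1 / 3 + 1 / 12 := by
    intro i
    rw [div_le_iff₀ hNR]
    have h1 := (abs_le.mp (hN.1 i)).2
    have h2 : δ * N ≤ 1 / 12 * N := mul_le_mul_of_nonneg_right hδ hNR.le
    have h3 : (N : ℝ) / r ≤ 1 / 3 * N := by
      rw [div_eq_mul_one_div, mul_comm]
      exact mul_le_mul_of_nonneg_right hr1 hNR.le
    linarith
  have hdsz : sz H c l - sz H c (c v1) = 1 := by
    unfold sz
    rw [hnl]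
    push_cast
    ring
  have hD : 0 < cs x H c l - cs x H c (c v1) := by
    have h1 := (abs_le.mp (hxb.dif l (c v1))).1
    rw [hdsz] at h1
    have h2 : sz A c (c v1) = 1 := by
      unfold sz; rw [hW.h1]; simp
    have h3 : 1 ≤ sz A c l := by
      unfold sz
      exact_mod_cast Finset.card_pos.mpr (hW.hne l)
    have h4 : 0 ≤ (j : ℝ) / (al r * N) * ((sz A c l - sz A c (c v1)) / N) := by
      apply mul_nonneg hX0
      apply div_nonneg _ hNR.le
      rw [h2]; linarith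
    have h5 : 0 ≤ xb * ((j : ℝ) / (al r * N) * ((sz A c l - sz A c (c v1)) / N)) :=
      mul_nonneg hxb.xb0.le h4
    have h6 : 2 / 3 * xb ≤ al r * xb := mul_le_mul_of_nonneg_right hal3 hxb.xb0.le
    have h7 := hxb.xb0
    norm_num at h1
    nlinarith
  have hD' : 0 < cs y H c l - cs y H c (c v1) := by
    have h1 := (abs_le.mp (hyb.dif l (c v1))).1
    rw [hdsz] at h1
    have h2 : sz A' c l = 1 := by
      unfold sz
      rw [← hu1c, hclu1]; simp
    have h3 : sz A' c (c v1) ≤ sz H c (c v1) := by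
      unfold sz
      have : (cl A' c (c v1)).card ≤ (cl H c (c v1)).card := by
        apply Finset.card_le_card
        intro a ha
        obtain ⟨ha1, ha2⟩ := mem_cl.mp ha
        exact mem_cl.mpr ⟨hA'H ha1, ha2⟩
      exact_mod_cast this
    have h4 : -(1 / 3 + 1 / 12) ≤ (sz A' c l - sz A' c (c v1)) / N := by
      rw [le_div_iff₀ hNR]
      have h5 := hszk (c v1)
      rw [div_le_iff₀ hNR] at h5
      rw [h2]
      linarith
    have h5 : -(1 / 3 + 1 / 12) ≤ (j : ℝ) / (al r * N) * ((sz A' c l - sz A' c (c v1)) / N) := by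
      by_cases h6 : 0 ≤ (sz A' c l - sz A' c (c v1)) / N
      · have := mul_nonneg hX0 h6
        linarith
      · push Not at h6
        have : (sz A' c l - sz A' c (c v1)) / N ≤
            (j : ℝ) / (al r * N) * ((sz A' c l - sz A' c (c v1)) / N) := by
          have h7 := mul_le_mul_of_nonpos_right hXle h6.le
          linarith
        linarith
    have h6 : -(1 / 3 + 1 / 12) * yb ≤
        yb * ((j : ℝ) / (al r * N) * ((sz A' c l - sz A' c (c v1)) / N)) := by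
      rw [mul_comm yb]
      exact mul_le_mul_of_nonneg_right h5 hyb.xb0.le
    have h7 : 2 / 3 * yb ≤ al r * yb := mul_le_mul_of_nonneg_right hal3 hyb.xb0.le
    have h8 := hyb.xb0
    norm_num at h1
    nlinarith
  -- eigenvalue equations
  have hv1H := hW.hA hv1A
  have hv2H := hW.hA hv2A
  have hu1H := hW.hA hu1A
  have n12 : v1 ≠ v2 := fun h => hW.h12 (by rw [h])
  have nu1 : u1 ≠ v1 := fun h => hl1 (by rw [← hu1c, h])
  have nu2 : u1 ≠ v2 := fun h => hl2 (by rw [← hu1c, h])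
  have ex1 : lam * x v1 = ∑ u ∈ H, x u - cs x H c (c v1) + x w - x v2 := by
    rw [cx v1 hv1H, JD_sum, chi_pos hv1A, chi_pos rfl, chi_neg n12]; ring
  have exu : lam * x u1 = ∑ u ∈ H, x u - cs x H c l + x w := by
    rw [cx u1 hu1H, JD_sum, chi_pos hu1A, chi_neg nu1, chi_neg nu2, hu1c]; ring
  have hv1A' : v1 ∈ A' := (hA'm v1).mpr (Or.inl ⟨hv1A, fun h => hl1 ((hEm _).mp h).2.2.symm⟩)
  have hu1A' : u1 ∈ A' := (hA'm u1).mpr (Or.inl ⟨hu1A, fun h => ((hEm _).mp h).1 rfl⟩)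
  have ey1 : lam' * y v1 = ∑ u ∈ H, y u - cs y H c (c v1) + y w := by
    rw [cy v1 hv1H, JD_sum, chi_pos hv1A', chi_neg nu1.symm, chi_neg n12]; ring
  have eyu : lam' * y u1 = ∑ u ∈ H, y u - cs y H c l + y w - y v2 := by
    rw [cy u1 hu1H, JD_sum, chi_pos hu1A', chi_pos rfl, chi_neg nu2, hu1c]; ring
  -- sums over `B` and `E`
  obtain ⟨m, hm⟩ : ∃ m : ℕ, m = (cl A c l).card - 1 := ⟨_, rfl⟩
  have sxB : lam * ∑ b ∈ B, x b = m * (∑ u ∈ H, x u - cs x H c (c v1)) := by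
    rw [Finset.mul_sum, Finset.sum_congr rfl (g := fun _ => ∑ u ∈ H, x u - cs x H c (c v1))
      (fun b hb => ?_), Finset.sum_const, hBcard, nsmul_eq_mul, hm]
    obtain ⟨b1, b2, b3⟩ := hB b hb
    have b4 : b ≠ v2 := fun h => hW.h12 (by rw [← b2, h])
    rw [cx b b1, JD_sum, chi_neg (hBA b hb), chi_neg b3, chi_neg b4, b2]; ring
  have syB : lam' * ∑ b ∈ B, y b = m * (∑ u ∈ H, y u - cs y H c (c v1) + y w) := by
    rw [Finset.mul_sum, Finset.sum_congr rfl (g := fun _ => ∑ u ∈ H, y u - cs y H c (c v1) + y w)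
      (fun b hb => ?_), Finset.sum_const, hBcard, nsmul_eq_mul, hm]
    obtain ⟨b1, b2, b3⟩ := hB b hb
    have b4 : b ≠ v2 := fun h => hW.h12 (by rw [← b2, h])
    have b5 : b ≠ u1 := fun h => hl1 (by rw [← hu1c, ← h, b2])
    rw [cy b b1, JD_sum, chi_pos ((hA'm b).mpr (Or.inr hb)), chi_neg b5, chi_neg b4, b2]; ring
  have sxE : lam * ∑ b ∈ E, x b = m * (∑ u ∈ H, x u - cs x H c l + x w) := by
    rw [Finset.mul_sum, Finset.sum_congr rfl (g := fun _ => ∑ u ∈ H, x u - cs x H c l + x w)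
      (fun b hb => ?_), Finset.sum_const, hEcard, nsmul_eq_mul, hm]
    obtain ⟨b1, b2, b3⟩ := (hEm b).mp hb
    have b4 : b ≠ v2 := fun h => hl2 (by rw [← b3, h])
    have b5 : b ≠ v1 := fun h => hl1 (by rw [← b3, h])
    rw [cx b (hW.hA b2), JD_sum, chi_pos b2, chi_neg b5, chi_neg b4, b3]; ring
  have syE : lam' * ∑ b ∈ E, y b = m * (∑ u ∈ H, y u - cs y H c l) := by
    rw [Finset.mul_sum, Finset.sum_congr rfl (g := fun _ => ∑ u ∈ H, y u - cs y H c l)
      (fun b hb => ?_), Finset.sum_const, hEcard, nsmul_eq_mul, hm]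
    obtain ⟨b1, b2, b3⟩ := (hEm b).mp hb
    have b4 : b ≠ v2 := fun h => hl2 (by rw [← b3, h])
    have b6 : b ∉ A' := by
      intro h
      rcases (hA'm b).mp h with h | h
      · exact h.2 hb
      · exact hBA b h b2
    rw [cy b (hW.hA b2), JD_sum, chi_neg b6, chi_neg b1, chi_neg b4, b3]; ring
  have hsumA : ∀ z : V → ℝ, ∑ b ∈ A', z b - ∑ b ∈ A, z b = ∑ b ∈ B, z b - ∑ b ∈ E, z b := by
    intro z
    rw [hA'def, Finset.sum_union hdis]
    have := Finset.sum_sdiff hEA (f := z)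
    linarith
  -- the pairing
  have hpair := pairing hx hy
  rw [pair_diff hF hF', hsumA, hsumA] at hpair
  refine final_ineq (lam := lam) (lam' := lam') (P := ∑ v, x v * y v)
    (T := x w * (∑ b ∈ B, y b - ∑ b ∈ E, y b) + y w * (∑ b ∈ B, x b - ∑ b ∈ E, x b)
      + (x v1 * y v2 + x v2 * y v1) - (x u1 * y v2 + x v2 * y u1))
    (x2 := x v2) (y2 := y v2) (xw := x w) (yw := y w) (D := cs x H c l - cs x H c (c v1))
    (D' := cs y H c l - cs y H c (c v1)) (b := m) (p1 := x v1 - x u1) (q1 := y v1 - y u1)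
    (p2 := ∑ b ∈ B, x b - ∑ b ∈ E, x b) (q2 := ∑ b ∈ B, y b - ∑ b ∈ E, y b)
    hle hl'pos (Finset.sum_nonneg fun v _ => mul_nonneg (hx.nn v) (hy.nn v)) hpair ?_ ?_
    (hx.nn w) (hy.nn w) hD hD' (Nat.cast_nonneg _) ?_ ?_ ?_ ?_ ?_
  · have h1 := (abs_le.mp (hxb.xH v2 hv2H)).1
    have h2 := hxb.xb0
    linarith
  · have h1 := (abs_le.mp (hyb.xH v2 hv2H)).1
    have h2 := hyb.xb0
    linarith
  · rw [mul_sub, ex1, exu]; ring
  · rw [mul_sub, ey1, eyu]; ring
  · rw [mul_sub, sxB, sxE]; ring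
  · rw [mul_sub, syB, syE]; ring
  · ring

/-- the sizes of the classes of `A` -/
theorem small_class {V : Type} [Fintype V] {r N j : ℕ} {δ : ℝ} {G : SimpleGraph V}
    {H : Finset V} {c : V → Fin r} {w : V} {A : Finset V} {v1 v2 : V} (hr : 3 ≤ r)
    (hW : WD G N H c w A v1 v2) (hR : RgV r N j) (hN : Near r δ N j H A c)
    (hδ0 : 0 < δ) (hδ : δ ≤ 1 / (16 * r ^ 2)) (hNb : 16 * (r : ℝ) ^ 2 ≤ N) (hBal : Bal H c)
    (hPl : Place H A c {c v1, c v2}) (l : Fin r) (hl1 : l ≠ c v1) (hl2 : l ≠ c v2)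
    (hnl : (cl H c l).card = (cl H c (c v1)).card + 1) (hsize : ∀ i, 2 ≤ (cl H c i).card) :
    (cl A c l).card ≤ (cl H c (c v1)).card := by
  classical
  by_contra hcon
  push Not at hcon
  have hr3 : (3 : ℝ) ≤ r := by exact_mod_cast hr
  have hr0 : (0 : ℝ) < r := by linarith
  have hAH : ∀ i, (cl A c i).card ≤ (cl H c i).card := by
    intro i
    apply Finset.card_le_card
    intro a ha
    obtain ⟨h1, h2⟩ := mem_cl.mp ha
    exact mem_cl.mpr ⟨hW.hA h1, h2⟩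
  have hal : (cl A c l).card = (cl H c l).card := by
    have := hAH l
    omega
  have hlP : l ∉ ({c v1, c v2} : Finset (Fin r)) := by
    simp only [Finset.mem_insert, Finset.mem_singleton, not_or]
    exact ⟨hl1, hl2⟩
  have h1 : ∀ i, i ∉ ({c v1, c v2} : Finset (Fin r)) → (cl H c i).card ≤ (cl A c i).card + 1 := by
    intro i hi
    rcases lt_trichotomy (cl H c i).card (cl H c l).card with h | h | h
    · rcases (hPl i l hi hlP).2 h with h2 | h2
      · omega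
      · have := hsize (c v1)
        omega
    · have := (hPl l i hlP hi).1 h.symm
      omega
    · have := hBal i (c v1)
      omega
  have hNR : (0 : ℝ) < N := lt_of_lt_of_le (by positivity) hNb
  have h2 : ((univ \ {c v1, c v2} : Finset (Fin r)).card : ℝ) = r - 2 := by
    rw [Finset.card_sdiff_of_subset (Finset.subset_univ _), Finset.card_pair hW.h12,
      Finset.card_univ, Fintype.card_fin, Nat.cast_sub (by omega)]
    norm_num
  have h3 : ∀ i ∈ (univ \ {c v1, c v2} : Finset (Fin r)), (N : ℝ) / r - δ * N - 1 ≤ sz A c i := by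
    intro i hi
    have h4 := h1 i (Finset.mem_sdiff.mp hi).2
    have h5 : sz H c i ≤ sz A c i + 1 := by
      unfold sz; exact_mod_cast h4
    have h6 := (abs_le.mp (hN.1 i)).1
    linarith
  have h4 := Finset.card_nsmul_le_sum _ _ _ h3
  rw [nsmul_eq_mul, h2] at h4
  have h5 : ∑ i ∈ (univ \ {c v1, c v2} : Finset (Fin r)), sz A c i ≤ A.card := by
    rw [← sum_card_cl A c]
    push_cast
    exact Finset.sum_le_sum_of_subset_of_nonneg (Finset.subset_univ _)
      (fun i _ _ => Nat.cast_nonneg _)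
  have h6 := (abs_le.mp hN.2).2
  have h7 : (j : ℝ) ≤ (1 - 2 / r + 1 / (4 * r ^ 2)) * (al r * N) := hR
  have h11 : ((r : ℝ) - 2) * (N / r - δ * N - 1) = (1 - 2 / r) * N - (r - 2) * (δ * N) - (r - 2) := by
    field_simp
  -- the gap
  have h8 : (1 - 2 / (r : ℝ) + 1 / (4 * r ^ 2)) * (al r * N) ≤ (1 - 2 / r) * N - N / (4 * r) := by
    have h9 : (1 - 2 / (r : ℝ) + 1 / (4 * r ^ 2)) * al r ≤ (1 - 2 / r) - 1 / (4 * r) := by
      unfold al
      have : (1 - 2 / (r : ℝ)) - 1 / (4 * r) - (1 - 2 / r + 1 / (4 * r ^ 2)) * (1 - 1 / r)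
          = (3 * (r : ℝ) ^ 2 - 9 * r + 1) / (4 * r ^ 3) := by
        field_simp
        ring
      have h10 : 0 ≤ (3 * (r : ℝ) ^ 2 - 9 * r + 1) / (4 * r ^ 3) := by
        apply div_nonneg
        · nlinarith
        · positivity
      linarith
    have h12 := mul_le_mul_of_nonneg_right h9 hNR.le
    calc (1 - 2 / (r : ℝ) + 1 / (4 * r ^ 2)) * (al r * N)
        = (1 - 2 / (r : ℝ) + 1 / (4 * r ^ 2)) * al r * N := by ring
      _ ≤ ((1 - 2 / (r : ℝ)) - 1 / (4 * r)) * N := h12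
      _ = (1 - 2 / (r : ℝ)) * N - N / (4 * r) := by ring
  have h12 : (r : ℝ) * (δ * N) ≤ N / (16 * r) := by
    have : (r : ℝ) * δ ≤ 1 / (16 * r) := by
      calc (r : ℝ) * δ ≤ r * (1 / (16 * r ^ 2)) := mul_le_mul_of_nonneg_left hδ hr0.le
        _ = 1 / (16 * r) := by field_simp
    calc (r : ℝ) * (δ * N) = (r * δ) * N := by ring
      _ ≤ 1 / (16 * r) * N := mul_le_mul_of_nonneg_right this hNR.le
      _ = N / (16 * r) := by ring
  have h13 : (r : ℝ) ≤ N / (16 * r) := by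
    rw [le_div_iff₀ (by positivity)]
    nlinarith
  have h14 : 0 < δ * N := mul_pos hδ0 hNR
  have h15 : (N : ℝ) / (4 * r) = 4 * (N / (16 * r)) := by
    field_simp
    ring
  nlinarith

theorem aux {r : ℕ} {δ δ1 : ℝ} (hr : 3 ≤ r) (hGD : Stmt_GD) (hFAM : Stmt_FAM)
    (hCSE : Stmt_CSE) {N j : ℕ} (hE : EstC r δ1 N j) (hδ0 : 0 < δ) (hδ1 : δ ≤ δ1)
    (hδ2 : δ ≤ 1 / 12) (hδ3 : δ ≤ 1 / (2 * r)) (hδ4 : δ ≤ 1 / (16 * r ^ 2))
    (hNb : 16 * (r : ℝ) ^ 2 ≤ N) (hNc : 4 * (r : ℝ) ≤ N) (hR : RgV r N j)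
    {V : Type} [Fintype V] {G : SimpleGraph V} {H : Finset V} {c : V → Fin r} {w : V}
    {A : Finset V} {v1 v2 : V} (hW : WD G N H c w A v1 v2) (hN : Near r δ N j H A c)
    (hBal : Bal H c) (hPl : Place H A c {c v1, c v2}) (hmx : MX r G) (l : Fin r)
    (hl1 : l ≠ c v1) (hl2 : l ≠ c v2) (hlt : (cl H c (c v1)).card < (cl H c l).card) : False := by
  have hr3 : (3 : ℝ) ≤ r := by exact_mod_cast hr
  have hr0 : (0 : ℝ) < r := by linarith
  have hNR : (0 : ℝ) < N := by linarith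
  have hnl : (cl H c l).card = (cl H c (c v1)).card + 1 := by
    have := hBal l (c v1)
    omega
  have hsize : ∀ i, 2 ≤ (cl H c i).card := by
    intro i
    have h1 := (abs_le.mp (hN.1 i)).1
    have h2 : δ * N ≤ 1 / (2 * r) * N := mul_le_mul_of_nonneg_right hδ3 hNR.le
    have h3 : (N : ℝ) / r = 2 * (1 / (2 * r) * N) := by field_simp
    have h4 : 2 ≤ 1 / (2 * (r : ℝ)) * N := by
      rw [one_div, inv_mul_eq_div, le_div_iff₀ (by positivity)]
      linarith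
    have h5 : (2 : ℝ) ≤ sz H c i := by linarith
    unfold sz at h5
    exact_mod_cast h5
  have hal := small_class hr hW hR hN hδ0 hδ4 hNb hBal hPl l hl1 hl2 hnl hsize
  have halp : 0 < al r := by have := al_ge hr; linarith
  have hN1 : Near r δ1 N j H A c := by
    have : δ * (N : ℝ) ≤ δ1 * N := mul_le_mul_of_nonneg_right hδ1 hNR.le
    exact ⟨fun i => (hN.1 i).trans this, hN.2.trans this⟩
  -- `core` is applied with the parameter of `Near` equal to `δ`
  have hE' : EstC r δ N j := by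
    intro V' _ G' H' c' w' A' J x lam hF hP hH hN'
    apply hE V' G' H' c' w' A' J x lam hF hP hH
    have : δ * (N : ℝ) ≤ δ1 * N := mul_le_mul_of_nonneg_right hδ1 hNR.le
    exact ⟨fun i => (hN'.1 i).trans this, hN'.2.trans this⟩
  refine core hr hGD hFAM hCSE hE' hW hN hδ2 hmx l hl1 hl2 hnl hal hsize ?_ ?_ ?_
  · positivity
  · rw [div_le_one (by positivity)]
    have h1 : (1 : ℝ) / (4 * r ^ 2) ≤ 2 / r := by
      rw [div_le_div_iff₀ (by positivity) (by positivity)]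
      nlinarith
    have h2 : (j : ℝ) ≤ (1 - 2 / r + 1 / (4 * r ^ 2)) * (al r * N) := hR
    have h3 : (1 - 2 / (r : ℝ) + 1 / (4 * r ^ 2)) * (al r * N) ≤ 1 * (al r * N) :=
      mul_le_mul_of_nonneg_right (by linarith) (by positivity)
    linarith
  · exact_mod_cast hNR

end D3V

/-- **D3V** -/
theorem blk_D3V (h1 : Stmt_GD) (h2 : Stmt_FAM) (h3 : Stmt_CSE) (h4 : Stmt_ESTU) : Stmt_D3V := by
  intro r hr
  obtain ⟨δ1, N1, hδ1, hE⟩ := h4 r (1 / 12) hr (by norm_num)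
  have hr3 : (3 : ℝ) ≤ r := by exact_mod_cast hr
  have hr0 : (0 : ℝ) < r := by linarith
  obtain ⟨δ, hδ0, hd1, hd2, hd3, hd4⟩ : ∃ δ : ℝ, 0 < δ ∧ δ ≤ δ1 ∧ δ ≤ 1 / 12 ∧
      δ ≤ 1 / (2 * (r : ℝ)) ∧ δ ≤ 1 / (16 * (r : ℝ) ^ 2) := by
    refine ⟨min δ1 (min (1 / 12) (min (1 / (2 * r)) (1 / (16 * (r : ℝ) ^ 2)))), ?_,
      min_le_left _ _, (min_le_right _ _).trans (min_le_left _ _),
      (min_le_right _ _).trans ((min_le_right _ _).trans (min_le_left _ _)),
      (min_le_right _ _).trans ((min_le_right _ _).trans (min_le_right _ _))⟩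
    have ha : (0 : ℝ) < 1 / (2 * r) := by positivity
    have hb : (0 : ℝ) < 1 / (16 * (r : ℝ) ^ 2) := by positivity
    exact lt_min hδ1 (lt_min (by norm_num) (lt_min ha hb))
  refine ⟨δ, max N1 (16 * r ^ 2), hδ0, ?_⟩
  intro N hN j hR V _ G H c w A v1 v2 hW hNear hBal hPl hmx
  have hNN1 : N1 ≤ N := (le_max_left _ _).trans hN
  have hNN3 : 16 * r ^ 2 ≤ N := (le_max_right _ _).trans hN
  have hNb : 16 * (r : ℝ) ^ 2 ≤ N := by exact_mod_cast hNN3
  have hNc : 4 * (r : ℝ) ≤ N := by nlinarith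
  have hjle : (j : ℝ) ≤ al r * N := by
    have h1 : (1 : ℝ) / (4 * r ^ 2) ≤ 2 / r := by
      rw [div_le_div_iff₀ (by positivity) (by positivity)]
      nlinarith
    have h2 : (j : ℝ) ≤ (1 - 2 / r + 1 / (4 * r ^ 2)) * (al r * N) := hR
    have halp := al_ge hr
    have h3 : (1 - 2 / (r : ℝ) + 1 / (4 * r ^ 2)) * (al r * N) ≤ 1 * (al r * N) :=
      mul_le_mul_of_nonneg_right (by linarith) (mul_nonneg (by linarith) (Nat.cast_nonneg _))
    linarith
  have hEC : D3.EstC r δ1 N j := by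
    intro V' _ G' H' c' w' A' J x lam hF hP hH hN'
    exact hE N hNN1 j hjle V' G' H' c' w' A' J x lam hF hP hH hN'
  intro i k hi hk
  by_contra hcon
  push Not at hcon
  simp only [Finset.mem_insert, Finset.mem_singleton, not_or] at hi hk
  rcases hi with rfl | rfl
  · exact D3V.aux hr h1 h2 h3 hEC hδ0 hd1 hd2 hd3 hd4 hNb hNc hR hW hNear hBal
      hPl hmx k hk.1 hk.2 hcon
  · refine D3V.aux hr h1 h2 h3 hEC hδ0 hd1 hd2 hd3 hd4 hNb hNc hR
      (D3.wd_symm hW) hNear hBal ?_ hmx k hk.2 hk.1 hcon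
    rw [Finset.pair_comm]
    exact hPl

end Pool.Agent.Work.MP_5532fa_up
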