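import Pool.Agent.Work.MP_5532fa_co.Final

/-!
# MP_5532fa_co, upgrade: definitions and basic lemmas

All graphs live on a finite type `V : Type`. No decidability instances occur in the statements:
use `chi`, `ad`, `nb`, `nn`, `out`, `fib` and their membership lemmas.
-/

open Finset

namespace Pool.Agent.Work.MP_5532fa_up

open MP5532fa (specRad qf pE)

/-! ## indicator, adjacency, neighbourhoods -/

open Classical in
/-- indicator of a proposition -/
noncomputable def chi (p : Prop) : ℝ := if p then 1 else 0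

theorem chi_pos {p : Prop} (h : p) : chi p = 1 := by unfold chi; rw [if_pos h]
theorem chi_neg {p : Prop} (h : ¬ p) : chi p = 0 := by unfold chi; rw [if_neg h]
theorem chi_nonneg (p : Prop) : 0 ≤ chi p := by unfold chi; split_ifs <;> norm_num
theorem chi_le_one (p : Prop) : chi p ≤ 1 := by unfold chi; split_ifs <;> norm_num
theorem chi_congr {p q : Prop} (h : p ↔ q) : chi p = chi q := by rw [propext h]

/-- `1 - 1/r` -/
noncomputable def al (r : ℕ) : ℝ := 1 - 1 / (r : ℝ)

theorem al_ge {r : ℕ} (hr : 3 ≤ r) : 2 / 3 ≤ al r := by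
  unfold al
  have h : (3 : ℝ) ≤ r := by exact_mod_cast hr
  have : 1 / (r : ℝ) ≤ 1 / 3 := one_div_le_one_div_of_le (by norm_num) h
  linarith

theorem al_lt {r : ℕ} (hr : 3 ≤ r) : al r < 1 := by
  unfold al
  have h : (3 : ℝ) ≤ r := by exact_mod_cast hr
  have : 0 < 1 / (r : ℝ) := by positivity
  linarith

section
variable {V : Type} [Fintype V] {r : ℕ}

/-- adjacency as a real number -/
noncomputable def ad (G : SimpleGraph V) (a b : V) : ℝ := chi (G.Adj a b)

omit [Fintype V] in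
theorem ad_comm (G : SimpleGraph V) (a b : V) : ad G a b = ad G b a := chi_congr (G.adj_comm a b)

/-- the part of `S` in the class `i` -/
def cl (S : Finset V) (c : V → Fin r) (i : Fin r) : Finset V := S.filter (fun v => c v = i)

omit [Fintype V] in
theorem mem_cl {S : Finset V} {c : V → Fin r} {i : Fin r} {v : V} :
    v ∈ cl S c i ↔ v ∈ S ∧ c v = i := by simp [cl]

open Classical in
/-- neighbours of `v` in `S` -/
noncomputable def nb (G : SimpleGraph V) (S : Finset V) (v : V) : Finset V :=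
  S.filter (fun u => G.Adj v u)

omit [Fintype V] in
theorem mem_nb {G : SimpleGraph V} {S : Finset V} {u v : V} :
    u ∈ nb G S v ↔ u ∈ S ∧ G.Adj v u := by simp [nb]

open Classical in
/-- non-neighbours of `v` in `S` -/
noncomputable def nn (G : SimpleGraph V) (S : Finset V) (v : V) : Finset V :=
  S.filter (fun u => ¬ G.Adj v u)

omit [Fintype V] in
theorem mem_nn {G : SimpleGraph V} {S : Finset V} {u v : V} :
    u ∈ nn G S v ↔ u ∈ S ∧ ¬ G.Adj v u := by simp [nn]

/-- number of neighbours of `v` in `S` -/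
noncomputable def dg (G : SimpleGraph V) (S : Finset V) (v : V) : ℕ := (nb G S v).card

open Classical in
/-- complement of a finite set -/
noncomputable def out (S : Finset V) : Finset V := univ.filter (fun v => v ∉ S)

theorem mem_out {S : Finset V} {v : V} : v ∈ out S ↔ v ∉ S := by simp [out]

open Classical in
/-- fibre of a label function -/
noncomputable def fib {L : Type} (S : Finset V) (l : V → L) (a : L) : Finset V :=
  S.filter (fun v => l v = a)

omit [Fintype V] in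
theorem mem_fib {L : Type} {S : Finset V} {l : V → L} {a : L} {v : V} :
    v ∈ fib S l a ↔ v ∈ S ∧ l v = a := by simp [fib]

open Classical in
/-- number of ordered pairs in `S` from different classes which are not adjacent -/
noncomputable def mis (G : SimpleGraph V) (S : Finset V) (c : V → Fin r) : ℕ :=
  ((S ×ˢ S).filter (fun e => c e.1 ≠ c e.2 ∧ ¬ G.Adj e.1 e.2)).card

open Classical in
/-- number of ordered adjacent pairs whose first vertex is outside `S` -/
noncomputable def eo (G : SimpleGraph V) (S : Finset V) : ℕ :=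
  ((univ : Finset (V × V)).filter (fun e => G.Adj e.1 e.2 ∧ e.1 ∉ S)).card

open Classical in
/-- number of ordered adjacent pairs outside `S` -/
noncomputable def eu (G : SimpleGraph V) (S : Finset V) : ℕ :=
  ((univ : Finset (V × V)).filter (fun e => G.Adj e.1 e.2 ∧ e.1 ∉ S ∧ e.2 ∉ S)).card

/-- size of the class `i` as a real number -/
noncomputable def sz (S : Finset V) (c : V → Fin r) (i : Fin r) : ℝ := ((cl S c i).card : ℝ)

/-- imbalance of the class sizes -/
noncomputable def imb (S : Finset V) (c : V → Fin r) : ℝ :=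
  ∑ i, (sz S c i - (S.card : ℝ) / r) ^ 2

/-- sum of `x` over the class `i` of `S` -/
noncomputable def cs (x : V → ℝ) (S : Finset V) (c : V → Fin r) (i : Fin r) : ℝ :=
  ∑ v ∈ cl S c i, x v

omit [Fintype V] in
theorem sum_cl (S : Finset V) (c : V → Fin r) (f : V → ℝ) :
    ∑ i, ∑ v ∈ cl S c i, f v = ∑ v ∈ S, f v :=
  Finset.sum_fiberwise S c f

omit [Fintype V] in
theorem sum_card_cl (S : Finset V) (c : V → Fin r) : ∑ i, (cl S c i).card = S.card := by
  have h := Finset.card_eq_sum_card_fiberwise (s := S) (t := (univ : Finset (Fin r))) (f := c)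
    (fun _ _ => Finset.mem_coe.mpr (Finset.mem_univ _))
  exact h.symm

/-! ## eigenvectors -/

/-- `x` is a nonnegative unit eigenvector for the spectral radius `lam` of `G` -/
structure PV (G : SimpleGraph V) (x : V → ℝ) (lam : ℝ) : Prop where
  nn : ∀ v, 0 ≤ x v
  unit : ∑ v, x v ^ 2 = 1
  eig : ∀ u, ∑ v, ad G u v * x v = lam * x u
  rad : lam = specRad G

theorem ad_qf (G : SimpleGraph V) (z : V → ℝ) :
    ∑ u, ∑ v, ad G u v * (z u * z v) = qf G z := by
  classical
  unfold qf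
  refine Finset.sum_congr rfl fun u _ => Finset.sum_congr rfl fun v _ => ?_
  by_cases h : G.Adj u v
  · rw [if_pos h]; unfold ad; rw [chi_pos h, one_mul]
  · rw [if_neg h]; unfold ad; rw [chi_neg h, zero_mul]

theorem exists_PV [Nonempty V] (G : SimpleGraph V) : ∃ x, PV G x (specRad G) := by
  classical
  obtain ⟨x, h0, h1, h2, _⟩ := MP5532fa.perron G
  refine ⟨x, h0, h1, fun u => ?_, rfl⟩
  rw [← h2 u]
  refine Finset.sum_congr rfl fun v _ => ?_
  by_cases h : G.Adj u v
  · rw [if_pos h]; unfold ad; rw [chi_pos h, one_mul]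
  · rw [if_neg h]; unfold ad; rw [chi_neg h, zero_mul]

/-- Rayleigh quotient bound -/
theorem rayleigh [Nonempty V] (G : SimpleGraph V) (z : V → ℝ) :
    ∑ u, ∑ v, ad G u v * (z u * z v) ≤ specRad G * ∑ v, z v ^ 2 := by
  rw [ad_qf]; exact MP5532fa.qf_le G z

theorem pE_ad (G : SimpleGraph V) : pE G = ∑ u, ∑ v, ad G u v := by
  rw [MP5532fa.pE_qf, ← ad_qf]
  simp

theorem PV.nonempty {G : SimpleGraph V} {x : V → ℝ} {lam : ℝ} (h : PV G x lam) : Nonempty V := by
  by_contra hV
  rw [not_nonempty_iff] at hV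
  have := h.unit
  simp at this

theorem PV.form {G : SimpleGraph V} {x : V → ℝ} {lam : ℝ} (h : PV G x lam) :
    ∑ u, ∑ v, ad G u v * (x u * x v) = lam := by
  have h1 : ∀ u, ∑ v, ad G u v * (x u * x v) = lam * x u ^ 2 := by
    intro u
    have : ∑ v, ad G u v * (x u * x v) = x u * ∑ v, ad G u v * x v := by
      rw [Finset.mul_sum]; exact Finset.sum_congr rfl fun v _ => by ring
    rw [this, h.eig]; ring
  simp only [h1]
  rw [← Finset.mul_sum, h.unit, mul_one]

theorem PV.le_one {G : SimpleGraph V} {x : V → ℝ} {lam : ℝ} (h : PV G x lam) (v : V) : x v ≤ 1 := by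
  have h1 : x v ^ 2 ≤ 1 := by
    rw [← h.unit]
    exact Finset.single_le_sum (f := fun v => x v ^ 2) (fun i _ => sq_nonneg _) (Finset.mem_univ v)
  have := h.nn v
  nlinarith

/-- the pairing identity for two graphs -/
theorem pairing {G G' : SimpleGraph V} {x y : V → ℝ} {lam lam' : ℝ} (h : PV G x lam)
    (h' : PV G' y lam') :
    ∑ a, ∑ b, (ad G' a b - ad G a b) * (x a * y b) = (lam' - lam) * ∑ v, x v * y v := by
  have e1 : ∑ a, ∑ b, ad G' a b * (x a * y b) = lam' * ∑ v, x v * y v := by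
    rw [Finset.mul_sum]
    refine Finset.sum_congr rfl fun a _ => ?_
    have : ∑ b, ad G' a b * (x a * y b) = x a * ∑ b, ad G' a b * y b := by
      rw [Finset.mul_sum]; exact Finset.sum_congr rfl fun b _ => by ring
    rw [this, h'.eig]; ring
  have e2 : ∑ a, ∑ b, ad G a b * (x a * y b) = lam * ∑ v, x v * y v := by
    rw [Finset.sum_comm, Finset.mul_sum]
    refine Finset.sum_congr rfl fun b _ => ?_
    have : ∑ a, ad G a b * (x a * y b) = y b * ∑ a, ad G b a * x a := by
      rw [Finset.mul_sum]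
      exact Finset.sum_congr rfl fun a _ => by rw [ad_comm G a b]; ring
    rw [this, h.eig]; ring
  rw [sub_mul, ← e1, ← e2, ← Finset.sum_sub_distrib]
  refine Finset.sum_congr rfl fun a _ => ?_
  rw [← Finset.sum_sub_distrib]
  exact Finset.sum_congr rfl fun b _ => by ring

/-- `G` maximises the spectral radius among the graphs on `V` with the same number of edges,
without a clique on `r + 1` vertices and not `r`-colourable -/
def MX (r : ℕ) (G : SimpleGraph V) : Prop :=
  ∀ G' : SimpleGraph V, G'.CliqueFree (r + 1) → ¬ G'.Colorable r → pE G' = pE G →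
    specRad G' ≤ specRad G

/-! ## the two types of graphs -/

/-- `G` is the complete multipartite graph on `H` (classes given by `c`) without the edge `v1 v2`,
together with the vertex `w` joined exactly to `A`; all other vertices are isolated.
`v1`, `v2` are the only vertices of `A` in their classes and all classes meet `A`. -/
structure WD (G : SimpleGraph V) (N : ℕ) (H : Finset V) (c : V → Fin r) (w : V) (A : Finset V)
    (v1 v2 : V) : Prop where
  card : H.card = N
  hw : w ∉ H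
  hA : A ⊆ H
  h12 : c v1 ≠ c v2
  h1 : cl A c (c v1) = {v1}
  h2 : cl A c (c v2) = {v2}
  hne : ∀ i, (cl A c i).Nonempty
  adj : ∀ a b, G.Adj a b ↔
    (a ∈ H ∧ b ∈ H ∧ c a ≠ c b ∧ ¬ (a = v1 ∧ b = v2) ∧ ¬ (a = v2 ∧ b = v1)) ∨
      (a = w ∧ b ∈ A) ∨ (b = w ∧ a ∈ A)

/-- `G` is the complete multipartite graph on `H` (classes given by `c`), together with the vertex
`w` joined to `A` and the vertex `u` joined to `B`, and with the edge `u w`; all other vertices are
isolated. The class `i0` meets neither `A` nor `B`, every other class meets `A` and contains exactly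
one vertex of `B`, and `B` is not contained in `A`. -/
structure WE (G : SimpleGraph V) (N : ℕ) (H : Finset V) (c : V → Fin r) (w u : V) (A B : Finset V)
    (i0 : Fin r) : Prop where
  card : H.card = N
  hw : w ∉ H
  hu : u ∉ H
  hwu : w ≠ u
  hA : A ⊆ H
  hB : B ⊆ H
  hA0 : cl A c i0 = ∅
  hB0 : cl B c i0 = ∅
  hAne : ∀ i, i ≠ i0 → (cl A c i).Nonempty
  hB1 : ∀ i, i ≠ i0 → (cl B c i).card = 1
  hBA : ¬ B ⊆ A
  adj : ∀ a b, G.Adj a b ↔
    (a ∈ H ∧ b ∈ H ∧ c a ≠ c b) ∨ (a = w ∧ b ∈ A) ∨ (b = w ∧ a ∈ A) ∨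
      (a = u ∧ b ∈ B) ∨ (b = u ∧ a ∈ B) ∨ (a = w ∧ b = u) ∨ (a = u ∧ b = w)

/-- the graph of `WD` -/
def gD (H : Finset V) (c : V → Fin r) (w : V) (A : Finset V) (v1 v2 : V) : SimpleGraph V where
  Adj a b := a ≠ b ∧ ((a ∈ H ∧ b ∈ H ∧ c a ≠ c b ∧ ¬ (a = v1 ∧ b = v2) ∧ ¬ (a = v2 ∧ b = v1)) ∨
      (a = w ∧ b ∈ A) ∨ (b = w ∧ a ∈ A))
  symm := ⟨by
    rintro a b ⟨hab, h⟩
    refine ⟨hab.symm, ?_⟩
    rcases h with ⟨h1, h2, h3, h4, h5⟩ | h | h
    · exact Or.inl ⟨h2, h1, h3.symm, fun h => h5 ⟨h.2, h.1⟩, fun h => h4 ⟨h.2, h.1⟩⟩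
    · exact Or.inr (Or.inr h)
    · exact Or.inr (Or.inl h)⟩
  loopless := ⟨fun _ h => h.1 rfl⟩

/-- the graph of `WE` -/
def gE (H : Finset V) (c : V → Fin r) (w u : V) (A B : Finset V) : SimpleGraph V where
  Adj a b := a ≠ b ∧ ((a ∈ H ∧ b ∈ H ∧ c a ≠ c b) ∨ (a = w ∧ b ∈ A) ∨ (b = w ∧ a ∈ A) ∨
      (a = u ∧ b ∈ B) ∨ (b = u ∧ a ∈ B) ∨ (a = w ∧ b = u) ∨ (a = u ∧ b = w))
  symm := ⟨by
    rintro a b ⟨hab, h⟩
    refine ⟨hab.symm, ?_⟩
    rcases h with ⟨h1, h2, h3⟩ | h | h | h | h | h | h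
    · exact Or.inl ⟨h2, h1, h3.symm⟩
    · exact Or.inr (Or.inr (Or.inl h))
    · exact Or.inr (Or.inl h)
    · exact Or.inr (Or.inr (Or.inr (Or.inr (Or.inl h))))
    · exact Or.inr (Or.inr (Or.inr (Or.inl h)))
    · exact Or.inr (Or.inr (Or.inr (Or.inr (Or.inr (Or.inr ⟨h.2, h.1⟩)))))
    · exact Or.inr (Or.inr (Or.inr (Or.inr (Or.inr (Or.inl ⟨h.2, h.1⟩)))))⟩
  loopless := ⟨fun _ h => h.1 rfl⟩

omit [Fintype V] in
theorem gD_WD {N : ℕ} {H : Finset V} {c : V → Fin r} {w : V} {A : Finset V} {v1 v2 : V}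
    (card : H.card = N) (hw : w ∉ H) (hA : A ⊆ H) (h12 : c v1 ≠ c v2)
    (h1 : cl A c (c v1) = {v1}) (h2 : cl A c (c v2) = {v2}) (hne : ∀ i, (cl A c i).Nonempty) :
    WD (gD H c w A v1 v2) N H c w A v1 v2 := by
  refine ⟨card, hw, hA, h12, h1, h2, hne, fun a b => ?_⟩
  constructor
  · rintro ⟨_, h⟩; exact h
  · intro h
    refine ⟨?_, h⟩
    rcases h with h | h | h
    · rintro rfl; exact h.2.2.1 rfl
    · rintro rfl; exact hw (h.1 ▸ hA h.2)
    · rintro rfl; exact hw (h.1 ▸ hA h.2)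

omit [Fintype V] in
theorem gE_WE {N : ℕ} {H : Finset V} {c : V → Fin r} {w u : V} {A B : Finset V} {i0 : Fin r}
    (card : H.card = N) (hw : w ∉ H) (hu : u ∉ H) (hwu : w ≠ u) (hA : A ⊆ H) (hB : B ⊆ H)
    (hA0 : cl A c i0 = ∅) (hB0 : cl B c i0 = ∅) (hAne : ∀ i, i ≠ i0 → (cl A c i).Nonempty)
    (hB1 : ∀ i, i ≠ i0 → (cl B c i).card = 1) (hBA : ¬ B ⊆ A) :
    WE (gE H c w u A B) N H c w u A B i0 := by
  refine ⟨card, hw, hu, hwu, hA, hB, hA0, hB0, hAne, hB1, hBA, fun a b => ?_⟩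
  constructor
  · rintro ⟨_, h⟩; exact h
  · intro h
    refine ⟨?_, h⟩
    rcases h with h | h | h | h | h | h | h
    · rintro rfl; exact h.2.2 rfl
    · rintro rfl; exact hw (h.1 ▸ hA h.2)
    · rintro rfl; exact hw (h.1 ▸ hA h.2)
    · rintro rfl; exact hu (h.1 ▸ hB h.2)
    · rintro rfl; exact hu (h.1 ▸ hB h.2)
    · rintro rfl; exact hwu (h.1.symm.trans h.2)
    · rintro rfl; exact hwu (h.2.symm.trans h.1)

/-- perturbation of the type D graphs -/
noncomputable def JD (v1 v2 : V) (a b : V) : ℝ := -chi (a = v1 ∧ b = v2) - chi (a = v2 ∧ b = v1)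

/-- perturbation of the type E graphs -/
noncomputable def JE (w u : V) (B : Finset V) (a b : V) : ℝ :=
  chi (a = u ∧ b ∈ B) + chi (b = u ∧ a ∈ B) + chi (a = w ∧ b = u) + chi (a = u ∧ b = w)

/-- common description of both types: complete multipartite graph on `H`, vertex `w` joined to
`A`, and a perturbation `J` -/
structure Fam (G : SimpleGraph V) (H : Finset V) (c : V → Fin r) (w : V) (A : Finset V)
    (J : V → V → ℝ) : Prop where
  hw : w ∉ H
  hA : A ⊆ H
  Js : ∀ a b, J a b = J b a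
  Jt : ∑ a, ∑ b, |J a b| ≤ 2 * r
  adj : ∀ a b, ad G a b = chi (a ∈ H ∧ b ∈ H ∧ c a ≠ c b) + chi (a = w ∧ b ∈ A)
    + chi (b = w ∧ a ∈ A) + J a b

/-- class sizes differ by at most one -/
def Bal (H : Finset V) (c : V → Fin r) : Prop :=
  ∀ i k, (cl H c i).card ≤ (cl H c k).card + 1

/-- outside the classes in `P`: balanced in classes of equal size, the smaller classes first -/
def Place (H A : Finset V) (c : V → Fin r) (P : Finset (Fin r)) : Prop :=
  ∀ i k, i ∉ P → k ∉ P →
    ((cl H c i).card = (cl H c k).card → (cl A c i).card ≤ (cl A c k).card + 1) ∧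
    ((cl H c i).card < (cl H c k).card →
      (cl A c i).card = (cl H c i).card ∨ (cl A c k).card = 1)

/-- no class is larger than a class in `P` -/
def Top (H : Finset V) (c : V → Fin r) (P : Finset (Fin r)) : Prop :=
  ∀ i k, i ∈ P → k ∉ P → (cl H c k).card ≤ (cl H c i).card

end

/-! ## contexts of the stability analysis -/

section
variable {V : Type} [Fintype V]

/-- a graph without a clique on `r+1` vertices, its eigenvector, and `t = lam / (number of ordered
edges)`; the spectral radius is within a constant of the maximum -/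
structure Ctx (r : ℕ) (D : ℝ) (G : SimpleGraph V) (x : V → ℝ) (lam t : ℝ) : Prop where
  free : G.CliqueFree (r + 1)
  pv : PV G x lam
  pos : 0 < lam
  pe : 0 < pE G
  ht : t = lam / pE G
  defi : al r * pE G - lam ^ 2 ≤ D * lam

/-- typical vertices -/
structure TD (r : ℕ) (η K : ℝ) (G : SimpleGraph V) (x : V → ℝ) (lam t : ℝ) (c : V → Fin r)
    (T : Finset V) : Prop where
  tpos : 0 < t
  lamt1 : lam * t ≤ 1
  lamt2 : 1 / 2 ≤ lam * t
  near : ∀ v ∈ T, (1 - η) * √t ≤ x v ∧ x v ≤ (1 + η) * √t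
  rest : ∑ v ∈ out T, x v ^ 2 ≤ K * t
  ind : ∀ u ∈ T, ∀ v ∈ T, c u = c v → ¬ G.Adj u v
  few : ∀ v ∈ T, ∀ i, i ≠ c v → ((nn G (cl T c i) v).card : ℝ) ≤ η / t
  size : ∀ i, 1 / (4 * r * t) ≤ sz T c i
  cardT : (T.card : ℝ) ≤ 2 / t
  cross : ∑ u ∈ T, ∑ v ∈ T, chi (c u ≠ c v ∧ ¬ G.Adj u v) * (x u ^ 2 * x v ^ 2) ≤ K * t
  esum : ∑ u, ∑ v, ad G u v * (x u * x v - t) ^ 2 ≤ K * t

/-- consequences for the numbers of edges -/
structure TE (r : ℕ) (K : ℝ) (G : SimpleGraph V) (x : V → ℝ) (t : ℝ) (c : V → Fin r)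
    (T : Finset V) : Prop where
  mis : (mis G T c : ℝ) ≤ K / t
  eout : (eo G T : ℝ) ≤ K / t
  sout : ∑ v ∈ out T, x v ≤ K * √t
  xmax : ∀ v, x v ≤ K * √t
  dev : ∑ u ∈ T, ∑ v ∈ T, chi (c u ≠ c v) * (x u * x v - t) ^ 2 ≤ K * t

theorem TD.mono {r : ℕ} {η K K' : ℝ} {G : SimpleGraph V} {x : V → ℝ} {lam t : ℝ} {c : V → Fin r}
    {T : Finset V} (h : TD r η K G x lam t c T) (hK : K ≤ K') : TD r η K' G x lam t c T :=
  { h with
    rest := h.rest.trans (mul_le_mul_of_nonneg_right hK h.tpos.le)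
    cross := h.cross.trans (mul_le_mul_of_nonneg_right hK h.tpos.le)
    esum := h.esum.trans (mul_le_mul_of_nonneg_right hK h.tpos.le) }

theorem TE.mono {r : ℕ} {K K' : ℝ} {G : SimpleGraph V} {x : V → ℝ} {t : ℝ} {c : V → Fin r}
    {T : Finset V} (h : TE r K G x t c T) (ht : 0 < t) (hK : K ≤ K') : TE r K' G x t c T where
  mis := h.mis.trans (div_le_div_of_nonneg_right hK ht.le)
  eout := h.eout.trans (div_le_div_of_nonneg_right hK ht.le)
  sout := h.sout.trans (mul_le_mul_of_nonneg_right hK (Real.sqrt_nonneg t))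
  xmax := fun v => (h.xmax v).trans (mul_le_mul_of_nonneg_right hK (Real.sqrt_nonneg t))
  dev := h.dev.trans (mul_le_mul_of_nonneg_right hK ht.le)

/-- the heavy vertices -/
structure HD (r : ℕ) (η K : ℝ) (G : SimpleGraph V) (x : V → ℝ) (lam t : ℝ) (c : V → Fin r)
    (H : Finset V) : Prop where
  tpos : 0 < t
  lamt1 : lam * t ≤ al r
  lamt2 : 1 / 2 ≤ lam * t
  big : ∀ v ∈ H, (1 - η) * √t ≤ x v
  small : ∀ v, v ∉ H → x v < (1 - η) * √t
  ind : ∀ u ∈ H, ∀ v ∈ H, c u = c v → ¬ G.Adj u v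
  xmax : ∀ v, x v ≤ √t * (1 + K * √t)
  mis : (mis G H c : ℝ) ≤ K / t
  eout : (eo G H : ℝ) ≤ K / t
  rest : ∑ v ∈ out H, x v ^ 2 ≤ K * t
  all : ∀ v, |lam * x v - √t * dg G H v| ≤ K
  size : ∀ i, |((r : ℝ) - 1) * sz H c i - lam| ≤ K / √t

/-- the fine data: all but a small part of the graph is the complete multipartite graph on `H`
(balanced up to `δ N`), and a vertex `w` with about `j` neighbours in `H` -/
structure FD (r : ℕ) (δ : ℝ) (N j : ℕ) (G : SimpleGraph V) (x : V → ℝ) (lam : ℝ) (c : V → Fin r)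
    (H : Finset V) (w : V) : Prop where
  pv : PV G x lam
  card : H.card = N
  hw : w ∉ H
  ind : ∀ u ∈ H, ∀ v ∈ H, c u = c v → ¬ G.Adj u v
  mis : (mis G H c : ℝ) ≤ δ * N
  bal : ∀ i, |sz H c i - N / r| ≤ δ * N
  deg : |(dg G H w : ℝ) - j| ≤ δ * N
  rest : ∑ v ∈ out H, (dg G H v : ℝ) - dg G H w + eu G H ≤ δ * N
  xH : ∀ v ∈ H, |x v * √N - 1| ≤ δ
  xw : |x w * √N - j / (al r * N)| ≤ δ
  xo : ∀ v, v ∉ H → v ≠ w → x v * √N ≤ δ

/-- estimates for the eigenvector of a graph of the common description; `xb` is the typical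
value of `x` on `H` -/
structure Est (r : ℕ) (e : ℝ) (N j : ℕ) (x : V → ℝ) (lam : ℝ) (c : V → Fin r) (H : Finset V)
    (w : V) (A : Finset V) (xb : ℝ) : Prop where
  xb0 : 0 < xb
  xH : ∀ v ∈ H, |x v - xb| ≤ e * xb
  xw : |x w - j / (al r * N) * xb| ≤ e * xb
  xo : ∀ v, v ∉ H → v ≠ w → x v ≤ e * xb
  lamN : |lam - al r * N| ≤ e * N
  dif : ∀ i k, |cs x H c i - cs x H c k - xb * (al r * (sz H c i - sz H c k)
    + j / (al r * N) * ((sz A c i - sz A c k) / N))| ≤ e * xb * (|sz H c i - sz H c k| + 1)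

end

/-- exactly one vertex of `B` is not in `A` -/
def OneOut {V : Type} (A B : Finset V) : Prop := ∃ b, b ∈ B ∧ b ∉ A ∧ ∀ a, a ∈ B → a ∉ A → a = b

/-- the sizes are close to those of the reference graphs -/
def Near {V : Type} (r : ℕ) (δ : ℝ) (N j : ℕ) (H A : Finset V) (c : V → Fin r) : Prop :=
  (∀ i, |sz H c i - N / r| ≤ δ * N) ∧ |(A.card : ℝ) - j| ≤ δ * N

/-- the range of `N`, `j` in which the extremal graphs are determined -/
def Rg (r : ℕ) (ε : ℝ) (N j : ℕ) : Prop :=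
  ε * N ≤ j ∧ (j : ℝ) ≤ ((1 - 2 / r) * al r - ε) * N

/-- number of edges of the Turan graph -/
noncomputable def tn (r N : ℕ) : ℕ := (SimpleGraph.turanGraph N r).edgeSet.ncard

/-- type D: the candidates with one missing edge and one new vertex -/
def TypeD {V : Type} (r N j : ℕ) (G : SimpleGraph V) : Prop :=
  ∃ (H : Finset V) (c : V → Fin r) (w : V) (A : Finset V) (v1 v2 : V),
    WD G N H c w A v1 v2 ∧ A.card = j + 1 ∧ Bal H c ∧ Place H A c {c v1, c v2} ∧
      Top H c {c v1, c v2}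

/-- type E: the candidates with two new vertices -/
def TypeE {V : Type} (r N j : ℕ) (G : SimpleGraph V) : Prop :=
  ∃ (H : Finset V) (c : V → Fin r) (w u : V) (A B : Finset V) (i0 : Fin r),
    WE G N H c w u A B i0 ∧ OneOut A B ∧ A.card + r = j ∧
      Bal H c ∧ Place H A c {i0} ∧ Top H c {i0}

end Pool.Agent.Work.MP_5532fa_up
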