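import Pool.Agent.Work.MP_5532fa_up.Interface

/-!
# MP_5532fa_co, upgrade, second round: definitions
-/

open Finset

namespace Pool.Agent.Work.MP_5532fa_up

open MP5532fa (specRad qf pE)

section
variable {V : Type} [Fintype V] {r : ℕ}

open Classical in
/-- the elements of `S` outside `T` -/
noncomputable def df (S T : Finset V) : Finset V := S.filter (fun v => v ∉ T)

omit [Fintype V] in
theorem mem_df {S T : Finset V} {v : V} : v ∈ df S T ↔ v ∈ S ∧ v ∉ T := by simp [df]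

/-- `G` is close to the complete multipartite graph on `H` (classes given by `c`) -/
structure C0 (r : ℕ) (δ : ℝ) (N : ℕ) (G : SimpleGraph V) (c : V → Fin r) (H : Finset V) :
    Prop where
  card : H.card = N
  ind : ∀ u ∈ H, ∀ v ∈ H, c u = c v → ¬ G.Adj u v
  mis : (mis G H c : ℝ) ≤ δ * N
  bal : ∀ i, |sz H c i - N / r| ≤ δ * N
  eo : (eo G H : ℝ) ≤ δ * N

/-- the vector `x` is almost constant on `H` and small outside; `lam` is about `al r * N` -/
structure Fl (r : ℕ) (e : ℝ) (N : ℕ) (H : Finset V) (x : V → ℝ) (lam xb : ℝ) : Prop where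
  xb0 : 0 < xb
  xH : ∀ v ∈ H, |x v - xb| ≤ e * xb
  xo : ∀ v, v ∉ H → x v ≤ e * xb
  lamN : |lam - al r * N| ≤ e * N

/-- sum of `x a * y b` over the ordered pairs in `H` from different classes which are not
adjacent -/
noncomputable def mH (G : SimpleGraph V) (H : Finset V) (c : V → Fin r) (x y : V → ℝ) : ℝ :=
  ∑ a ∈ H, ∑ b ∈ H, chi (c a ≠ c b ∧ ¬ G.Adj a b) * (x a * y b)

/-- complete multipartite graph on `H` with missing edges, and a vertex `w` joined exactly to a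
transversal `T` which is not a clique; all other vertices are isolated -/
structure WF (G : SimpleGraph V) (N : ℕ) (H : Finset V) (c : V → Fin r) (w : V) (T : Finset V) :
    Prop where
  card : H.card = N
  hw : w ∉ H
  hT : T ⊆ H
  hT1 : ∀ i, (cl T c i).card = 1
  hF : ∃ a ∈ T, ∃ b ∈ T, a ≠ b ∧ ¬ G.Adj a b
  sub : ∀ a b, G.Adj a b →
    (a ∈ H ∧ b ∈ H ∧ c a ≠ c b) ∨ (a = w ∧ b ∈ T) ∨ (b = w ∧ a ∈ T)
  hwT : ∀ b ∈ T, G.Adj w b

/-- the graph of `WF` with missing pairs `F` -/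
def gF (H : Finset V) (c : V → Fin r) (w : V) (T : Finset V) (F : V → V → Prop) :
    SimpleGraph V where
  Adj a b := a ≠ b ∧ ((a ∈ H ∧ b ∈ H ∧ c a ≠ c b ∧ ¬ F a b ∧ ¬ F b a) ∨
      (a = w ∧ b ∈ T) ∨ (b = w ∧ a ∈ T))
  symm := ⟨by
    rintro a b ⟨hab, h⟩
    refine ⟨hab.symm, ?_⟩
    rcases h with ⟨h1, h2, h3, h4, h5⟩ | h | h
    · exact Or.inl ⟨h2, h1, h3.symm, h5, h4⟩
    · exact Or.inr (Or.inr h)
    · exact Or.inr (Or.inl h)⟩
  loopless := ⟨fun _ h => h.1 rfl⟩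

end

/-- the range without a lower bound -/
def RgU (r : ℕ) (ε : ℝ) (N j : ℕ) : Prop := (j : ℝ) ≤ ((1 - 2 / r) * al r - ε) * N

/-- the range in which a vertex with about `j` neighbours may be optimal -/
def RgA (r : ℕ) (ε : ℝ) (N j : ℕ) : Prop := ε * N ≤ j ∧ (j : ℝ) ≤ (1 - 2 / r - ε) * N

end Pool.Agent.Work.MP_5532fa_up
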