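import Pool.Agent.Work.MP_5532fa_up.Interface5
import Pool.Agent.Work.MP_5532fa_up.ESTU
import Pool.Agent.Work.MP_5532fa_up.E2

open Finset

namespace Pool.Agent.Work.MP_5532fa_up

open MP5532fa (specRad qf pE)

/-- the range `RgV` is below `al r * N` -/
theorem RgV.le {r : ℕ} (hr : 3 ≤ r) {N j : ℕ} (h : RgV r N j) : (j : ℝ) ≤ al r * N := by
  have h1 := al_ge hr
  have hr3 : (3 : ℝ) ≤ r := by exact_mod_cast hr
  have hN : (0 : ℝ) ≤ N := Nat.cast_nonneg N
  have h2 : 1 - 2 / (r : ℝ) + 1 / (4 * (r : ℝ) ^ 2) ≤ 1 := by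
    have h3 : 1 / (4 * (r : ℝ) ^ 2) ≤ 2 / r := by
      rw [div_le_div_iff₀ (by positivity) (by linarith)]
      nlinarith
    linarith
  have h4 : 0 ≤ al r * N := by positivity
  unfold RgV at h
  refine h.trans ?_
  calc (1 - 2 / (r : ℝ) + 1 / (4 * (r : ℝ) ^ 2)) * (al r * N) ≤ 1 * (al r * N) :=
        mul_le_mul_of_nonneg_right h2 h4
    _ = al r * N := one_mul _

section
variable {V : Type} [Fintype V] {r : ℕ}

open E2

omit [Fintype V] in
/-- sizes `n + 1` and `n`: the sums over the classes differ -/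
lemma dif_posV (hr : 3 ≤ r) {e δ : ℝ} {N j : ℕ} {x : V → ℝ} {lam : ℝ} {c : V → Fin r}
    {H : Finset V} {w : V} {A : Finset V} {xb : ℝ} (hE : Est r e N j x lam c H w A xb)
    (hA : A ⊆ H) (hN : (0 : ℝ) < N) (he : 0 ≤ e) (he' : e ≤ 1 / 24)
    (hδ : 0 ≤ δ) (hδ' : δ ≤ 1 / 24) (hj : (j : ℝ) ≤ al r * N)
    (hb : ∀ i, |sz H c i - N / r| ≤ δ * N) {l k : Fin r} (hlk : sz H c l = sz H c k + 1) :
    cs x H c k < cs x H c l := by
  have h1 := (abs_le.mp (hE.dif l k)).1
  have hr3 : (3 : ℝ) ≤ r := by exact_mod_cast hr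
  have hal := al_ge hr
  have hX0 : 0 ≤ (j : ℝ) / (al r * N) := by positivity
  have hX1 : (j : ℝ) / (al r * N) ≤ 1 := by
    rw [div_le_one (by positivity)]
    exact hj
  have h2 : sz H c l - sz H c k = 1 := by linarith
  rw [h2] at h1
  have h3 : -(1 / 3 + δ) ≤ (sz A c l - sz A c k) / N := by
    rw [le_div_iff₀ hN]
    have h4 := sz_le hA c k
    have h5 := (abs_le.mp (hb k)).2
    have h6 : 0 ≤ sz A c l := by unfold sz; positivity
    have h7 : (N : ℝ) / r ≤ 1 / 3 * N := by
      rw [div_le_iff₀ (by linarith)]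
      nlinarith
    nlinarith
  have h4 : -(1 / 3 + δ) ≤ (j : ℝ) / (al r * N) * ((sz A c l - sz A c k) / N) := by
    by_cases hs : 0 ≤ (sz A c l - sz A c k) / N
    · have := mul_nonneg hX0 hs
      linarith
    · push Not at hs
      nlinarith
  have h5 : 0 < xb := hE.xb0
  rw [abs_one] at h1
  have h6 : xb * (2 / 3 - (1 / 3 + δ)) ≤ xb * (al r * 1 + (j : ℝ) / (al r * N) *
      ((sz A c l - sz A c k) / N)) := by
    apply mul_le_mul_of_nonneg_left _ h5.le
    linarith
  nlinarith


end

open E2 in
theorem blk_E2V (hGE : Stmt_GE) (hFAM : Stmt_FAM) (hCSE : Stmt_CSE) (hEST : Stmt_ESTU)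
    (hMV1 : Stmt_MV1) : Stmt_E2V := by
  classical
  intro r hr
  have hr3 : (3 : ℝ) ≤ r := by exact_mod_cast hr
  have hr0 : (0 : ℝ) < r := by linarith
  have hal := al_ge hr
  have hal1 := al_lt hr
  obtain ⟨e, he, he24⟩ : ∃ e : ℝ, 0 < e ∧ e ≤ 1 / 24 := ⟨1 / 24, by norm_num, le_refl _⟩
  obtain ⟨δ0, N2, hδ0, hE⟩ := hEST r e hr he
  obtain ⟨δ, hδ, hδd, hδ24, hδr⟩ : ∃ δ : ℝ, 0 < δ ∧ δ ≤ δ0 ∧ δ ≤ 1 / 24 ∧ 2 * r * δ ≤ 1 := by
    refine ⟨min (min δ0 (1 / 24)) (1 / (2 * r)), ?_, ?_, ?_, ?_⟩
    · have : 0 < 1 / (2 * (r : ℝ)) := by positivity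
      exact lt_min (lt_min hδ0 (by norm_num)) this
    · exact (min_le_left _ _).trans (min_le_left _ _)
    · exact (min_le_left _ _).trans (min_le_right _ _)
    · have := min_le_right (min δ0 (1 / 24)) (1 / (2 * (r : ℝ)))
      have h2 := mul_le_mul_of_nonneg_left this (show (0 : ℝ) ≤ 2 * r by positivity)
      have h3 : 2 * (r : ℝ) * (1 / (2 * r)) = 1 := by field_simp
      linarith
  obtain ⟨N4, hN4⟩ := exists_nat_ge (2 * r : ℝ)
  refine ⟨δ, max N2 N4, hδ, ?_⟩
  intro N hN j hj V _ G H c w u A B i0 hW hNear hOO hBal hMX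
  have hNN2 : N2 ≤ N := (le_max_left _ _).trans hN
  have hNN4 : N4 ≤ N := (le_max_right _ _).trans hN
  have r4 : (2 * r : ℝ) ≤ N := hN4.trans (by exact_mod_cast hNN4)
  have hN0 : (0 : ℝ) < N := by linarith
  -- sizes of the classes
  have hsz : ∀ i, (1 : ℝ) ≤ sz H c i := by
    intro i
    have h1 := (abs_le.mp (hNear.1 i)).1
    have h2 : δ * N ≤ N / (2 * r) := by
      rw [le_div_iff₀ (by positivity)]
      nlinarith
    have h3 : (1 : ℝ) ≤ N / (2 * r) := by
      rw [le_div_iff₀ (by positivity)]
      linarith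
    have h4 : (N : ℝ) / r = N / (2 * r) + N / (2 * r) := by
      field_simp
      ring
    linarith
  have hszn : ∀ i, 1 ≤ (cl H c i).card := by
    intro i
    have := hsz i
    unfold sz at this
    exact_mod_cast this
  have hNear1 : Near r δ0 N j H A c := by
    refine ⟨fun i => (hNear.1 i).trans ?_, hNear.2.trans ?_⟩ <;>
    exact mul_le_mul_of_nonneg_right (by linarith) hN0.le
  obtain ⟨_, _, hpE⟩ := hGE r hr V G N H c w u A B i0 hW
  have hF := (hFAM r hr V G N H c w A).2 u B i0 hW
  -- the exchange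
  have key : ∀ l k : Fin r, l ≠ k → l ≠ i0 → k ≠ i0 → 2 ≤ (cl A c l).card →
      (cl A c k).card < (cl H c k).card →
      ((cl H c l).card = (cl H c k).card ∧ (cl A c k).card + 2 ≤ (cl A c l).card ∨
        (cl H c l).card = (cl H c k).card + 1) → False := by
    intro l k hlk hl hk hal2 hakn hcase
    obtain ⟨b0, hb0B, hb0A, hb0⟩ := hOO
    -- choice of the vertices
    have hchoice : ∃ a b : V, a ∈ A ∧ c a = l ∧ b ∈ H ∧ c b = k ∧ b ∉ A ∧ (a ∈ B ↔ b ∈ B) ∧
        ¬ B ⊆ insert b (A.erase a) := by
      by_cases hek : c b0 = k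
      · obtain ⟨a, ha⟩ := card_eq_one.mp (hW.hB1 l hl)
        have ha' : a ∈ cl B c l := by rw [ha]; exact mem_singleton_self a
        rw [mem_cl] at ha'
        have hab : a ≠ b0 := by
          rintro rfl
          exact hlk (ha'.2.symm.trans hek)
        have haA : a ∈ A := by
          by_contra h
          exact hab (hb0 a ha'.1 h)
        refine ⟨a, b0, haA, ha'.2, hW.hB hb0B, hek, hb0A, ⟨fun _ => hb0B, fun _ => ha'.1⟩, ?_⟩
        intro h
        have := h ha'.1
        rw [mem_insert, mem_erase] at this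
        rcases this with h1 | h1
        · exact hab h1
        · exact h1.1 rfl
      · have h1 : ∃ a ∈ cl A c l, a ∉ cl B c l := by
          by_contra hcon
          push Not at hcon
          have h2 : cl A c l ⊆ cl B c l := hcon
          have := card_le_card h2
          rw [hW.hB1 l hl] at this
          omega
        obtain ⟨a, ha, haB⟩ := h1
        rw [mem_cl] at ha
        have haB' : a ∉ B := fun h => haB (mem_cl.mpr ⟨h, ha.2⟩)
        have h2 : ∃ b ∈ cl H c k, b ∉ cl A c k := by
          by_contra hcon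
          push Not at hcon
          have h2 : cl H c k ⊆ cl A c k := hcon
          have := card_le_card h2
          omega
        obtain ⟨b, hb, hbA⟩ := h2
        rw [mem_cl] at hb
        have hbA' : b ∉ A := fun h => hbA (mem_cl.mpr ⟨h, hb.2⟩)
        have hbB' : b ∉ B := by
          intro h
          have := hb0 b h hbA'
          rw [this] at hb
          exact hek hb.2
        refine ⟨a, b, ha.1, ha.2, hb.1, hb.2, hbA', ⟨fun h => absurd h haB',
          fun h => absurd h hbB'⟩, ?_⟩
        intro h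
        have := h hb0B
        rw [mem_insert, mem_erase] at this
        rcases this with h1 | h1
        · exact hbB' (h1 ▸ hb0B)
        · exact hb0A h1.2
    obtain ⟨a, b, haA, hca, hbH, hcb, hbA, habB, hBA'⟩ := hchoice
    set A' : Finset V := insert b (A.erase a) with hA'
    have hcab : c a ≠ c b := by rw [hca, hcb]; exact hlk
    obtain ⟨k1, k2, k3⟩ := cl_insert_erase haA hbA hcab
    rw [← hA'] at k1 k2 k3
    rw [hca] at k1 k3
    rw [hcb] at k2 k3
    have haH : a ∈ H := hW.hA haA
    have hA'H : A' ⊆ H := by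
      intro z hz
      rw [hA', mem_insert, mem_erase] at hz
      rcases hz with rfl | hz
      · exact hbH
      · exact hW.hA hz.2
    have hA'card : A'.card = A.card := by
      rw [hA', card_insert_of_notMem, card_erase_add_one haA]
      rw [mem_erase]
      rintro ⟨_, h⟩
      exact hbA h
    set G' : SimpleGraph V := gE H c w u A' B with hG'
    have hW' : WE G' N H c w u A' B i0 := by
      refine gE_WE hW.card hW.hw hW.hu hW.hwu hA'H hW.hB ?_ hW.hB0 ?_ hW.hB1 hBA'
      · rw [k3 i0 hl.symm hk.symm]; exact hW.hA0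
      · intro i hi
        rw [← card_pos]
        by_cases h1 : i = l
        · rw [h1]; omega
        · by_cases h2 : i = k
          · rw [h2]; omega
          · rw [k3 i h1 h2, card_pos]; exact hW.hAne i hi
    obtain ⟨hcf', hcol', hpE'⟩ := hGE r hr V G' N H c w u A' B i0 hW'
    have hpEE : pE G' = pE G := by rw [hpE, hpE', hA'card]
    have hle := hMX G' hcf' (hcol' hszn) hpEE
    have : Nonempty V := ⟨a⟩
    obtain ⟨x, hx⟩ := exists_PV G
    obtain ⟨y, hy⟩ := exists_PV G'
    have hF' := (hFAM r hr V G' N H c w A').2 u B i0 hW'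
    have hNear' : Near r δ0 N j H A' c := ⟨hNear1.1, by rw [hA'card]; exact hNear1.2⟩
    obtain ⟨xb, hxb⟩ := hE N hNN2 j (RgV.le hr hj) V G H c w A _ x _ hF hx hW.card hNear1
    obtain ⟨yb, hyb⟩ := hE N hNN2 j (RgV.le hr hj) V G' H c w A' _ y _ hF' hy hW.card hNear'
    have hlam : ∀ {x : V → ℝ} {lam : ℝ} {A : Finset V} {xb : ℝ}, Est r e N j x lam c H w A xb →
        0 < lam := by
      intro x lam A xb h
      have h1 := (abs_le.mp h.lamN).1
      nlinarith
    have hl1 := hlam hxb
    have hl2 := hlam hyb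
    have hxw := xw_pos hr hW hx hl1 (by linarith) hxb.xb0 hxb.xH
    have hyw := xw_pos hr hW' hy hl2 (by linarith) hyb.xb0 hyb.xH
    have hcs : cs x H c k < cs x H c l ∧ cs y H c k ≤ cs y H c l := by
      rcases hcase with ⟨hc1, hc2⟩ | hc1
      · have hs : sz H c l = sz H c k := by unfold sz; rw [hc1]
        obtain ⟨_, q2, _, _⟩ := hCSE r V G H c w A _ x _ hF hx
        obtain ⟨_, q2', _, _⟩ := hCSE r V G' H c w A' _ y _ hF' hy
        have e1 := q2 l
        have e2 := q2 k
        have e1' := q2' l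
        have e2' := q2' k
        rw [JE_cls hW.hw hW.hu hW.hB c _ (hW.hB1 l hl)] at e1 e1'
        rw [JE_cls hW.hw hW.hu hW.hB c _ (hW.hB1 k hk)] at e2 e2'
        rw [hs] at e1 e1'
        have hn := hsz k
        constructor
        · have hd : (sz A c k : ℝ) + 2 ≤ sz A c l := by
            unfold sz
            exact_mod_cast hc2
          have h5 : (specRad G + sz H c k) * (cs x H c l - cs x H c k)
              = (sz A c l - sz A c k) * x w := by
            linear_combination e1 - e2
          have h6 : 0 < (sz A c l - sz A c k) * x w := mul_pos (by linarith) hxw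
          rw [← h5] at h6
          have h7 := (pos_iff_pos_of_mul_pos h6).mp (by linarith)
          linarith
        · have hd : (sz A' c k : ℝ) ≤ sz A' c l := by
            unfold sz
            have : (cl A' c k).card ≤ (cl A' c l).card := by omega
            exact_mod_cast this
          have h5 : (specRad G' + sz H c k) * (cs y H c l - cs y H c k)
              = (sz A' c l - sz A' c k) * y w := by
            linear_combination e1' - e2'
          have h6 : 0 ≤ (sz A' c l - sz A' c k) * y w := mul_nonneg (by linarith) hyw.le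
          rw [← h5] at h6
          by_contra hcon
          push Not at hcon
          nlinarith
      · have hs : sz H c l = sz H c k + 1 := by
          unfold sz
          rw [hc1]
          push_cast
          ring
        exact ⟨dif_posV hr hxb hW.hA hN0 he.le he24 hδ.le hδ24 (RgV.le hr hj) hNear.1 hs,
          (dif_posV hr hyb hA'H hN0 he.le he24 hδ.le hδ24 (RgV.le hr hj) hNear.1 hs).le⟩
    have hlt := hMV1 r V G G' H c w A A' (JE w u B) a b x y _ _ hF hF' hx hy hl1 hl2 hxw hyw haA
      hbH hbA (by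
        intro v
        rw [hA', mem_insert, mem_erase]
        constructor
        · rintro (h | h)
          · exact Or.inr h
          · exact Or.inl ⟨h.2, h.1⟩
        · rintro (h | h)
          · exact Or.inr ⟨h.2, h.1⟩
          · exact Or.inl h)
      (JE_eq hW.hw hW.hu haH hbH habB) (by rw [hca, hcb]; exact hcs.1)
      (by rw [hca, hcb]; exact hcs.2)
    linarith
  intro i k hi hk
  rw [mem_singleton] at hi hk
  have hAH : ∀ i, (cl A c i).card ≤ (cl H c i).card := by
    intro i
    have := sz_le hW.hA c i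
    unfold sz at this
    exact_mod_cast this
  constructor
  · intro h1
    by_contra h2
    push Not at h2
    have hne : i ≠ k := by rintro rfl; omega
    have := hAH i
    exact key i k hne hi hk (by omega) (by omega) (Or.inl ⟨h1, by omega⟩)
  · intro h1
    by_contra h2
    push Not at h2
    have hne : k ≠ i := by rintro rfl; omega
    have h3 := hBal k i
    have h4 : 1 ≤ (cl A c k).card := card_pos.mpr (hW.hAne k hk)
    have h5 := hAH i
    exact key k i hne hk hi (by omega) (by omega) (Or.inr (by omega))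

end Pool.Agent.Work.MP_5532fa_up
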