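import Pool.Agent.Work.MP_5532fa_up.E2V
import Pool.Agent.Work.MP_5532fa_up.E3

open Finset

namespace Pool.Agent.Work.MP_5532fa_up

open MP5532fa (specRad qf pE)

section
variable {V : Type} [Fintype V] {r : ℕ}

open E3

/-- the class `l` is not full -/
theorem small_classV {δ : ℝ} {N j : ℕ} {H A : Finset V} {c : V → Fin r} {k l : Fin r}
    (hr : 3 ≤ r) (hδ : δ ≤ 1 / (4 * (r : ℝ) ^ 2)) (hN : 4 * (r : ℝ) ^ 2 ≤ N) (hRg : RgV r N j)
    (hNear : Near r δ N j H A c) (hBal : Bal H c) (hPl : Place H A c {k}) (hA : A ⊆ H)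
    (hAk : cl A c k = ∅) (hlk : l ≠ k) (hlt : (cl H c k).card < (cl H c l).card)
    (hbig : 2 ≤ (cl H c k).card) : (cl A c l).card < (cl H c k).card := by
  classical
  by_contra hge
  push Not at hge
  have hr3 : (3 : ℝ) ≤ r := by exact_mod_cast hr
  have hl : (cl H c l).card = (cl H c k).card + 1 := le_antisymm (hBal l k) hlt
  have h1 : ∀ i, i ≠ k → (cl H c k).card - 1 ≤ (cl A c i).card := by
    intro i hi
    have hi' : i ∉ ({k} : Finset (Fin r)) := by simpa using hi
    have hl' : l ∉ ({k} : Finset (Fin r)) := by simpa using hlk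
    have hb := hBal l i
    have hb' := hBal i k
    rcases Nat.lt_or_ge (cl H c i).card (cl H c l).card with h | h
    · rcases (hPl i l hi' hl').2 h with h2 | h2 <;> omega
    · have := (hPl l i hl' hi').1 (by omega)
      omega
  have h2 := card_bound hAk h1
  have h3 : ((r : ℝ) - 1) * (sz H c k - 1) ≤ A.card := by
    have h4 : (((r - 1) * ((cl H c k).card - 1) : ℕ) : ℝ) ≤ A.card := by exact_mod_cast h2
    rw [Nat.cast_mul, Nat.cast_sub (by omega), Nat.cast_sub (by omega)] at h4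
    unfold sz
    exact_mod_cast h4
  have h5 := (abs_le.1 (hNear.1 k)).1
  have h6 := (abs_le.1 hNear.2).2
  have h7 := hRg
  unfold RgV at h7
  have hr0 : (0 : ℝ) < r := by linarith
  have hN0 : (0 : ℝ) ≤ N := Nat.cast_nonneg N
  set t : ℝ := N / (4 * (r : ℝ) ^ 2) with ht
  have hN4 : (N : ℝ) = 4 * r ^ 2 * t := by
    rw [ht]; field_simp
  have ht1 : 1 ≤ t := by
    rw [ht, le_div_iff₀ (by positivity)]
    linarith
  have h8 : δ * N ≤ t := by
    have := mul_le_mul_of_nonneg_right hδ hN0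
    have h9 : 1 / (4 * (r : ℝ) ^ 2) * N = t := by rw [ht]; ring
    linarith
  have h9 : (N : ℝ) / r = 4 * r * t := by
    rw [hN4]; field_simp
  have h10 : al r * N = 4 * r * (r - 1) * t := by
    rw [hN4]; unfold al; field_simp
  have h11 : (1 - 2 / (r : ℝ) + 1 / (4 * (r : ℝ) ^ 2)) * (al r * N)
      = (4 * r * (r - 1) - 8 * (r - 1) + (r - 1) / r) * t := by
    rw [h10]; field_simp; ring
  have h12 : ((r : ℝ) - 1) / r ≤ 1 := by
    rw [div_le_one hr0]; linarith
  have h13 : ((r : ℝ) - 1) / r * t ≤ t := by nlinarith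
  rw [h11] at h7
  rw [h9] at h5
  have h14 : ((r : ℝ) - 1) * (4 * r * t - t - 1) ≤ ((r : ℝ) - 1) * (sz H c k - 1) :=
    mul_le_mul_of_nonneg_left (by linarith) (by linarith)
  have h15 : ((r : ℝ) - 1) * t ≥ 2 * t := by nlinarith
  nlinarith

end

open E3 in
theorem blk_E3V (hGE : Stmt_GE) (hFAM : Stmt_FAM) (hCSE : Stmt_CSE) (hEST : Stmt_ESTU) :
    Stmt_E3V := by
  classical
  intro r hr
  have hr3 : (3 : ℝ) ≤ r := by exact_mod_cast hr
  have hrp : (0 : ℝ) < r := by linarith
  obtain ⟨e, he0, he1⟩ : ∃ e : ℝ, 0 < e ∧ e ≤ 1 / (4 * r) :=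
    ⟨1 / (4 * r), by positivity, le_refl _⟩
  obtain ⟨δ0, N0, hδ0, hest⟩ := hEST r e hr he0
  obtain ⟨δ, hδp, hδ1, hδ2, hδ3⟩ : ∃ δ : ℝ, 0 < δ ∧ δ ≤ δ0 ∧ δ ≤ 1 / (4 * (r : ℝ) ^ 2) ∧
      δ ≤ 1 / (4 * r) :=
    ⟨min δ0 (min (1 / (4 * (r : ℝ) ^ 2)) (1 / (4 * r))),
      lt_min hδ0 (lt_min (by positivity) (by positivity)), min_le_left _ _,
      (min_le_right _ _).trans (min_le_left _ _), (min_le_right _ _).trans (min_le_right _ _)⟩
  refine ⟨δ, max N0 (max (4 * r ^ 2) (4 * r)), hδp, ?_⟩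
  intro N hN j hRg V _ G H c w u A B k hW hNear hOne hBal hPl hMX i l hi hl
  rw [Finset.mem_singleton] at hi
  subst hi
  have hlk : l ≠ i := by simpa using hl
  by_contra hlt
  push Not at hlt
  have hNN0 : N0 ≤ N := (le_max_left _ _).trans hN
  have hN1 : 4 * (r : ℝ) ^ 2 ≤ (N : ℝ) := by
    have h1 : 4 * r ^ 2 ≤ N := ((le_max_left _ _).trans (le_max_right _ _)).trans hN
    exact_mod_cast h1
  have hN2 : 4 * (r : ℝ) ≤ N := by
    have h1 : 4 * r ≤ N := ((le_max_right _ _).trans (le_max_right _ _)).trans hN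
    exact_mod_cast h1
  have hNp : (0 : ℝ) < N := by linarith
  -- sizes of the classes
  have hsz : ∀ m, (2 : ℝ) ≤ sz H c m := by
    intro m
    have h1 := (abs_le.1 (hNear.1 m)).1
    have h2 : δ * N ≤ 1 / (4 * r) * N := mul_le_mul_of_nonneg_right hδ3 hNp.le
    have h3 : (4 : ℝ) ≤ N / r := by rw [le_div_iff₀ hrp]; exact hN2
    have h4 : 1 / (4 * r) * (N : ℝ) = N / r / 4 := by field_simp
    linarith
  have hsz' : ∀ m, 2 ≤ (cl H c m).card := by
    intro m
    have := hsz m
    unfold sz at this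
    exact_mod_cast this
  have hsmall : (cl A c l).card < (cl H c i).card :=
    small_classV hr hδ2 hN1 hRg hNear hBal hPl hW.hA hW.hA0 hlk hlt (hsz' i)
  have hal1 : 1 ≤ (cl A c l).card := Finset.card_pos.2 (hW.hAne l hlk)
  obtain ⟨ul, hul⟩ := Finset.card_eq_one.1 (hW.hB1 l hlk)
  have hulB : ul ∈ B ∧ c ul = l := by
    have : ul ∈ cl B c l := by rw [hul]; exact Finset.mem_singleton_self ul
    exact mem_cl.1 this
  have hulH : ul ∈ H := hW.hB hulB.1
  obtain ⟨Bk, uk, hBk, hBkc, huk, hiff⟩ := choose_sets (S := cl H c i) (ul ∈ A) hal1 hsmall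
  obtain ⟨hukH, hukc⟩ := mem_cl.1 huk
  have hBk' : ∀ v ∈ Bk, v ∈ H ∧ c v = i := fun v hv => mem_cl.1 (hBk hv)
  have hAk' : ∀ v, c v = i → v ∉ A := by
    intro v hc hv
    have : v ∈ cl A c i := mem_cl.2 ⟨hv, hc⟩
    rw [hW.hA0] at this
    exact absurd this (Finset.notMem_empty v)
  have hBk0 : ∀ v, c v = i → v ∉ B := by
    intro v hc hv
    have : v ∈ cl B c i := mem_cl.2 ⟨hv, hc⟩
    rw [hW.hB0] at this
    exact absurd this (Finset.notMem_empty v)
  obtain ⟨A', hA'H, hA'm, hA'l, hA'k, hA'o, hA's, hA'c⟩ := swapA hlk hW.hA hW.hA0 hBk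
  obtain ⟨B', hB'H, hB'm, hB'l, hB'k, hB'o, hB's⟩ := swapB hlk hW.hB hW.hB0 hul huk
  have hA'card : A'.card = A.card := by omega
  have hW' : WE (gE H c w u A' B') N H c w u A' B' l := by
    refine gE_WE hW.card hW.hw hW.hu hW.hwu hA'H hB'H hA'l hB'l ?_ ?_ ?_
    · intro m hm
      by_cases hmi : m = i
      · rw [hmi, hA'k, ← Finset.card_pos, hBkc]; exact hal1
      · rw [hA'o m hmi hm]; exact hW.hAne m hmi
    · intro m hm
      by_cases hmi : m = i
      · rw [hmi, hB'k, Finset.card_singleton]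
      · rw [hB'o m hmi hm]; exact hW.hB1 m hmi
    · intro hsub
      obtain ⟨b, hbB, hbA⟩ := Finset.not_subset.1 hW.hBA
      by_cases hb : b = ul
      · subst hb
        have h1 : uk ∈ A' := hsub ((hB'm uk).2 (Or.inr rfl))
        rcases (hA'm uk).1 h1 with h2 | h2
        · exact hAk' uk hukc h2.1
        · exact hbA (hiff.1 h2)
      · have h1 : b ∈ A' := hsub ((hB'm b).2 (Or.inl ⟨hbB, hb⟩))
        rcases (hA'm b).1 h1 with h2 | h2
        · exact hbA h2.1
        · exact hBk0 b (hBk' b h2).2 hbB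
  set G' := gE H c w u A' B' with hG'
  obtain ⟨_, _, hpE⟩ := hGE r hr V G N H c w u A B i hW
  obtain ⟨hfree, hcol, hpE'⟩ := hGE r hr V G' N H c w u A' B' l hW'
  have hle : specRad G' ≤ specRad G := by
    refine hMX G' hfree (hcol fun m => by have := hsz' m; omega) ?_
    rw [hpE, hpE', hA'card]
  haveI : Nonempty V := ⟨w⟩
  obtain ⟨x, hx⟩ := exists_PV G
  obtain ⟨y, hy⟩ := exists_PV G'
  have hF := (hFAM r hr V G N H c w A).2 u B i hW
  have hF' := (hFAM r hr V G' N H c w A').2 u B' l hW'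
  have hNear0 := near_mono hNear hδ1
  have hNear' : Near r δ0 N j H A' c := ⟨hNear0.1, by rw [hA'card]; exact hNear0.2⟩
  obtain ⟨xb, hEx⟩ := hest N hNN0 j (RgV.le hr hRg) V G H c w A (JE w u B) x _ hF hx hW.card hNear0
  obtain ⟨yb, hEy⟩ := hest N hNN0 j (RgV.le hr hRg) V G' H c w A' (JE w u B') y _ hF' hy hW.card hNear'
  -- elementary estimates
  have halg := al_ge hr
  have hall := al_lt hr
  have he3 : e ≤ 1 / 12 := he1.trans (by
    rw [div_le_div_iff_of_pos_left one_pos (by positivity) (by norm_num)]; linarith)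
  have halN : 0 < al r * N := by positivity
  have hX0 : 0 ≤ j / (al r * N) := by positivity
  have hX1 : (j : ℝ) / (al r * N) ≤ 1 - 2 / r + 1 / (4 * (r : ℝ) ^ 2) := by
    rw [div_le_iff₀ halN]
    exact hRg
  have hjX0 : 0 ≤ (j : ℝ) / (al r * N) := hX0
  have hlam : 0 < specRad G := by
    have h1 := (abs_le.1 hEx.lamN).1
    nlinarith
  have hlam' : 0 < specRad G' := by
    have h1 := (abs_le.1 hEy.lamN).1
    nlinarith
  have hxw : 0 < x w := xw_pos hr hW hx hlam (by linarith) hEx.xb0 hEx.xH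
  have hszd : sz H c l - sz H c i = 1 := by
    have h1 : (cl H c l).card = (cl H c i).card + 1 := le_antisymm (hBal l i) hlt
    unfold sz
    rw [h1]; push_cast; ring
  -- differences of the class sums
  have hD : 0 < cs x H c l - cs x H c i := by
    have h1 := (abs_le.1 (hEx.dif l i)).1
    have h2 : sz A c i = 0 := by unfold sz; rw [hW.hA0]; simp
    rw [hszd, h2, sub_zero, abs_one] at h1
    have h3 : 0 ≤ sz A c l := by unfold sz; exact Nat.cast_nonneg _
    have h4 : 0 ≤ (j : ℝ) / (al r * N) * (sz A c l / N) := by positivity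
    have h5 := hEx.xb0
    have h6 : 0 ≤ xb * ((j : ℝ) / (al r * N) * (sz A c l / N)) := mul_nonneg h5.le h4
    have h7 : e * xb ≤ 1 / 12 * xb := mul_le_mul_of_nonneg_right he3 h5.le
    have h8 : 2 / 3 * xb ≤ al r * xb := mul_le_mul_of_nonneg_right halg h5.le
    nlinarith
  have hD' : 0 < cs y H c l - cs y H c i := by
    have h1 := (abs_le.1 (hEy.dif l i)).1
    have h2 : sz A' c l = 0 := by unfold sz; rw [hA'l]; simp
    rw [hszd, h2, zero_sub, abs_one] at h1
    have h3 : sz A' c i / N ≤ 1 := by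
      rw [div_le_one hNp]
      unfold sz
      rw [← hW.card]
      have : (cl A' c i).card ≤ H.card :=
        Finset.card_le_card fun v hv => hA'H (mem_cl.1 hv).1
      exact_mod_cast this
    have h3' : 0 ≤ sz A' c i / N := by unfold sz; positivity
    have h4 : (j : ℝ) / (al r * N) * (sz A' c i / N) ≤ 1 - 2 / r + 1 / (4 * (r : ℝ) ^ 2) := by
      have : (j : ℝ) / (al r * N) * (sz A' c i / N) ≤ (j : ℝ) / (al r * N) * 1 :=
        mul_le_mul_of_nonneg_left h3 hjX0
      linarith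
    have h5 := hEy.xb0
    have h6 : (j : ℝ) / (al r * N) * (-sz A' c i / N)
        = -((j : ℝ) / (al r * N) * (sz A' c i / N)) := by ring
    rw [h6] at h1
    have h7 : yb * (3 / 4 * (1 / r)) ≤
        yb * (al r * 1 + -((j : ℝ) / (al r * N) * (sz A' c i / N))) := by
      refine mul_le_mul_of_nonneg_left ?_ h5.le
      have : al r = 1 - 1 / r := rfl
      have h8 : 2 / (r : ℝ) = 1 / r + 1 / r := by ring
      have h9 : 1 / (4 * (r : ℝ) ^ 2) ≤ 1 / 4 * (1 / r) := by
        rw [show 1 / 4 * (1 / (r : ℝ)) = 1 / (4 * r) by field_simp]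
        refine one_div_le_one_div_of_le (by positivity) ?_
        nlinarith
      linarith
    have h8 : e * yb * (1 + 1) ≤ yb * (1 / r) / 2 := by
      have h9 : e * yb ≤ 1 / (4 * r) * yb := mul_le_mul_of_nonneg_right he1 h5.le
      have h10 : 1 / (4 * r) * yb = yb * (1 / r) / 4 := by field_simp
      linarith
    have h9 : 0 < yb * (1 / r) := by positivity
    linarith
  -- the eigenvalue equations
  have hex := eigE hFAM hCSE hr hW hx
  have hey := eigE hFAM hCSE hr hW' hy
  set S := ∑ z ∈ H, x z with hS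
  set S' := ∑ z ∈ H, y z with hS'
  set sg := chi (ul ∈ A) with hsg
  have hxBk : ∀ v ∈ cl H c i, specRad G * x v = S - cs x H c i := by
    intro v hv
    obtain ⟨h1, h2⟩ := mem_cl.1 hv
    rw [hex v h1, chi_neg (hAk' v h2), chi_neg (hBk0 v h2), h2]; ring
  have hyl : ∀ v ∈ cl H c l, specRad G' * y v = S' - cs y H c l := by
    intro v hv
    obtain ⟨h1, h2⟩ := mem_cl.1 hv
    have h3 : v ∉ A' := by
      intro h
      have : v ∈ cl A' c l := mem_cl.2 ⟨h, h2⟩
      rw [hA'l] at this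
      exact absurd this (Finset.notMem_empty v)
    have h4 : v ∉ B' := by
      intro h
      have : v ∈ cl B' c l := mem_cl.2 ⟨h, h2⟩
      rw [hB'l] at this
      exact absurd this (Finset.notMem_empty v)
    rw [hey v h1, chi_neg h3, chi_neg h4, h2]; ring
  have hclsub : cl A c l ⊆ cl H c l := fun v hv =>
    mem_cl.2 ⟨hW.hA (mem_cl.1 hv).1, (mem_cl.1 hv).2⟩
  have hxul : specRad G * x ul = S - cs x H c l + sg * x w + x u := by
    rw [hex ul hulH, chi_pos hulB.1, hulB.2]; ring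
  have hyul : specRad G' * y ul = S' - cs y H c l := hyl ul (mem_cl.2 ⟨hulH, hulB.2⟩)
  have hxuk : specRad G * x uk = S - cs x H c i := hxBk uk huk
  have hukA' : uk ∈ A' ↔ ul ∈ A := by
    rw [hA'm, ← hiff]
    constructor
    · rintro (h | h)
      · exact absurd h.1 (hAk' uk hukc)
      · exact h
    · exact Or.inr
  have hyuk : specRad G' * y uk = S' - cs y H c i + sg * y w + y u := by
    rw [hey uk hukH, chi_pos ((hB'm uk).2 (Or.inr rfl)), hukc, chi_congr hukA']; ring
  -- sums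
  have hsum1 : specRad G * (∑ v ∈ Bk, x v - ∑ v ∈ cl A c l, x v)
      = (cl A c l).card * ((cs x H c l - cs x H c i) - x w) - sg * x u := by
    rw [mul_sub, Finset.mul_sum, Finset.mul_sum]
    rw [Finset.sum_congr rfl fun v hv => hxBk v (hBk hv)]
    have h1 : ∀ v ∈ cl A c l, specRad G * x v
        = (S - cs x H c l + x w) + chi (v = ul) * x u := by
      intro v hv
      obtain ⟨h2, h3⟩ := mem_cl.1 hv
      have h4 : v ∈ B ↔ v = ul := by
        constructor
        · intro h5
          have : v ∈ cl B c l := mem_cl.2 ⟨h5, h3⟩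
          rw [hul] at this
          exact Finset.mem_singleton.1 this
        · intro h5; rw [h5]; exact hulB.1
      rw [hex v (hW.hA h2), chi_pos h2, h3, chi_congr h4]; ring
    rw [Finset.sum_congr rfl h1, Finset.sum_add_distrib, ← Finset.sum_mul, Finset.sum_const,
      Finset.sum_const, hBkc, nsmul_eq_mul, nsmul_eq_mul]
    have h5 : ∑ v ∈ cl A c l, chi (v = ul) = sg := by
      rw [hsg]
      by_cases h6 : ul ∈ A
      · rw [chi_pos h6, Finset.sum_eq_single ul]
        · exact chi_pos rfl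
        · intro b _ hb; exact chi_neg hb
        · intro h; exact absurd (mem_cl.2 ⟨h6, hulB.2⟩) h
      · rw [chi_neg h6]
        refine Finset.sum_eq_zero fun v hv => chi_neg ?_
        intro h; exact h6 (h ▸ (mem_cl.1 hv).1)
    rw [h5]; ring
  have hsum2 : specRad G' * (∑ v ∈ Bk, y v - ∑ v ∈ cl A c l, y v)
      = (cl A c l).card * ((cs y H c l - cs y H c i) + y w) + sg * y u := by
    rw [mul_sub, Finset.mul_sum, Finset.mul_sum]
    rw [Finset.sum_congr rfl fun v hv => hyl v (hclsub hv)]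
    have h1 : ∀ v ∈ Bk, specRad G' * y v
        = (S' - cs y H c i + y w) + chi (v = uk) * y u := by
      intro v hv
      obtain ⟨h2, h3⟩ := hBk' v hv
      have h4 : v ∈ B' ↔ v = uk := by
        constructor
        · intro h5
          have : v ∈ cl B' c i := mem_cl.2 ⟨h5, h3⟩
          rw [hB'k] at this
          exact Finset.mem_singleton.1 this
        · intro h5; rw [h5]; exact (hB'm uk).2 (Or.inr rfl)
      rw [hey v h2, chi_pos ((hA'm v).2 (Or.inr hv)), h3, chi_congr h4]; ring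
    rw [Finset.sum_congr rfl h1, Finset.sum_add_distrib, ← Finset.sum_mul, Finset.sum_const,
      Finset.sum_const, hBkc, nsmul_eq_mul, nsmul_eq_mul]
    have h5 : ∑ v ∈ Bk, chi (v = uk) = sg := by
      rw [hsg, ← chi_congr hiff]
      by_cases h6 : uk ∈ Bk
      · rw [chi_pos h6, Finset.sum_eq_single uk]
        · exact chi_pos rfl
        · intro b _ hb; exact chi_neg hb
        · intro h; exact absurd h6 h
      · rw [chi_neg h6]
        refine Finset.sum_eq_zero fun v hv => chi_neg ?_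
        intro h; exact h6 (h ▸ hv)
    rw [h5]; ring
  have hpair := pairing hx hy
  rw [pair_fam hF hF' x y, JE_double, JE_double, hA's y, hA's x, hB's y, hB's x] at hpair
  have hip : 0 ≤ ∑ v, x v * y v := Finset.sum_nonneg fun v _ => mul_nonneg (hx.nn v) (hy.nn v)
  refine E3.final (lam := specRad G) (lam' := specRad G') (a := ((cl A c l).card : ℝ)) (sg := sg)
    (D := cs x H c l - cs x H c i) (D' := cs y H c l - cs y H c i) (xw := x w) (yw := y w)
    (xu := x u) (yu := y u) (P := ∑ v ∈ Bk, x v - ∑ v ∈ cl A c l, x v)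
    (P' := ∑ v ∈ Bk, y v - ∑ v ∈ cl A c l, y v) (Q := x uk - x ul) (Q' := y uk - y ul)
    (ip := ∑ v, x v * y v) hlam hle (by exact_mod_cast hal1) (chi_nonneg _) hD hD' hxw (hy.nn w)
    (hx.nn u) (hy.nn u) hlam' hip hsum1 hsum2 ?_ ?_ ?_
  · rw [mul_sub, hxuk, hxul]; ring
  · rw [mul_sub, hyuk, hyul]; ring
  · rw [← hpair]; ring

end Pool.Agent.Work.MP_5532fa_up
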