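import Pool.Agent.Work.MP_5532fa_up.Interface3
import Pool.Agent.Work.MP_5532fa_up.GF
import Pool.Agent.Work.MP_5532fa_up.TRF
import Pool.Agent.Work.MP_5532fa_up.SM2

/-!
# MP_5532fa_co, upgrade: block EQS (two classes of the same size)
-/

open Finset

namespace Pool.Agent.Work.MP_5532fa_up

open MP5532fa (specRad qf pE)

namespace EQS

section
variable {V : Type} [Fintype V] {r : ℕ}

theorem sum_chi_eq (p : V) (f : V → ℝ) : ∑ a, chi (a = p) * f a = f p := by
  classical
  rw [Finset.sum_eq_single p]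
  · rw [chi_pos rfl, one_mul]
  · intro a _ ha
    rw [chi_neg ha, zero_mul]
  · intro h
    exact absurd (Finset.mem_univ p) h

theorem sum_chi_mem (S : Finset V) (f : V → ℝ) : ∑ a, chi (a ∈ S) * f a = ∑ a ∈ S, f a := by
  classical
  rw [← Finset.sum_subset (Finset.subset_univ S)]
  · exact Finset.sum_congr rfl fun a ha => by rw [chi_pos ha, one_mul]
  · intro a _ ha
    rw [chi_neg ha, zero_mul]

theorem chi_and (p q : Prop) : chi (p ∧ q) = chi p * chi q := by
  by_cases hp : p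
  · by_cases hq : q
    · rw [chi_pos hp, chi_pos hq, chi_pos ⟨hp, hq⟩]; norm_num
    · rw [chi_neg hq, chi_neg fun h => hq h.2]; norm_num
  · rw [chi_neg hp, chi_neg fun h => hp h.1]; norm_num

theorem sum2 (f g x y : V → ℝ) :
    ∑ a, ∑ b, f a * g b * (x a * y b) = (∑ a, f a * x a) * ∑ b, g b * y b := by
  rw [Finset.sum_mul_sum]
  exact Finset.sum_congr rfl fun a _ => Finset.sum_congr rfl fun b _ => by ring

omit [Fintype V] in
/-- the adjacency of `WF` -/
theorem adj_iff {G : SimpleGraph V} {N : ℕ} {H : Finset V} {c : V → Fin r} {w : V} {T : Finset V}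
    (h : WF G N H c w T) (a b : V) : G.Adj a b ↔
      (a ∈ H ∧ b ∈ H ∧ c a ≠ c b ∧ ¬ FM G H c a b) ∨ (a = w ∧ b ∈ T) ∨ (b = w ∧ a ∈ T) := by
  constructor
  · intro hab
    rcases h.sub a b hab with h1 | h1 | h1
    · exact Or.inl ⟨h1.1, h1.2.1, h1.2.2, fun h2 => h2.2.2.2 hab⟩
    · exact Or.inr (Or.inl h1)
    · exact Or.inr (Or.inr h1)
  · rintro (h1 | h1 | h1)
    · by_contra h2
      exact h1.2.2.2 ⟨h1.1, h1.2.1, h1.2.2.1, h2⟩
    · rw [h1.1]; exact h.hwT b h1.2
    · rw [h1.1]; exact (h.hwT a h1.2).symm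

omit [Fintype V] in
theorem FM_symm {G : SimpleGraph V} {H : Finset V} {c : V → Fin r} {a b : V}
    (h : FM G H c a b) : FM G H c b a :=
  ⟨h.2.1, h.1, h.2.2.1.symm, fun h' => h.2.2.2 h'.symm⟩

/-- the comparison graph for moving `v` from the class `k` to the class `l` and filling the
missing pair `p q` -/
theorem comp (h1 : Stmt_GF) {G : SimpleGraph V} {N : ℕ} {H : Finset V} {c : V → Fin r} {w : V}
    {T : Finset V} (hr : 3 ≤ r) (h : WF G N H c w T)
    (hsz : ∀ i, mis G H c < (cl H c i).card) {v p q a0 b0 : V} {k l : Fin r} (hkl : k ≠ l)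
    (heq : (cl H c k).card = (cl H c l).card)
    (hv : v ∈ H) (hvk : c v = k) (hvT : v ∉ T) (hvF : ∀ b, ¬ FM G H c v b)
    (hpq : FM G H c p q) (ha0 : a0 ∈ T) (hb0 : b0 ∈ T) (hab : FM G H c a0 b0)
    (hne1 : ¬ (a0 = p ∧ b0 = q)) (hne2 : ¬ (a0 = q ∧ b0 = p)) :
    ∃ (G' : SimpleGraph V) (c' : V → Fin r), WF G' N H c' w T ∧ ¬ G'.Colorable r ∧
      G'.CliqueFree (r + 1) ∧ pE G' = pE G ∧ mis G' H c' + 2 = mis G H c ∧
      (∀ i, (cl H c' i).card ≤ (cl H c i).card + 1 ∧ (cl H c i).card ≤ (cl H c' i).card + 1) ∧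
      (cl H c' k).card + 1 = (cl H c k).card ∧ (cl H c' l).card = (cl H c l).card + 1 ∧
      ∀ x y : V → ℝ, ∑ a, ∑ b, (ad G' a b - ad G a b) * (x a * y b) =
        x p * y q + x q * y p + x v * (cs y H c' k - cs y H c' l + y v) +
          y v * (cs x H c k - x v - cs x H c l) := by
  classical
  obtain ⟨c', hc'⟩ : ∃ c', c' = Function.update c v l := ⟨_, rfl⟩
  have hcv : c' v = l := by rw [hc', Function.update_self]
  have hca : ∀ a, a ≠ v → c' a = c a := fun a ha => by rw [hc', Function.update_of_ne ha]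
  have hvF2 : ∀ b, ¬ FM G H c b v := fun b hb => hvF b (FM_symm hb)
  have hpv : p ≠ v := by rintro rfl; exact hvF _ hpq
  have hqv : q ≠ v := by rintro rfl; exact hvF2 _ hpq
  have hpH := hpq.1
  have hqH := hpq.2.1
  have hpq' : p ≠ q := by rintro rfl; exact hpq.2.2.1 rfl
  obtain ⟨F', hF'⟩ : ∃ F' : V → V → Prop, F' = fun a b =>
    FM G H c a b ∧ ¬ (a = p ∧ b = q) ∧ ¬ (a = q ∧ b = p) := ⟨_, rfl⟩
  have hFs : ∀ a b, F' a b → F' b a := by
    intro a b hab
    rw [hF'] at hab ⊢
    exact ⟨FM_symm hab.1, fun h => hab.2.2 ⟨h.2, h.1⟩, fun h => hab.2.1 ⟨h.2, h.1⟩⟩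
  have hFv : ∀ a b, F' a b → a ≠ v ∧ b ≠ v := by
    intro a b hab
    rw [hF'] at hab
    constructor
    · rintro rfl; exact hvF _ hab.1
    · rintro rfl; exact hvF2 _ hab.1
  obtain ⟨G', hG'⟩ : ∃ G', G' = gF H c' w T F' := ⟨_, rfl⟩
  -- adjacency in `H`
  have adjH : ∀ a ∈ H, ∀ b ∈ H, (G'.Adj a b ↔ c' a ≠ c' b ∧ ¬ F' a b) := by
    intro a ha b hb
    rw [hG', SM2.gF_adj h.hw ha hb]
    constructor
    · rintro ⟨h2, h3, _⟩
      exact ⟨h2, h3⟩
    · rintro ⟨h2, h3⟩
      exact ⟨h2, h3, fun h4 => h3 (hFs _ _ h4)⟩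
  have hWF : WF G' N H c' w T := by
    refine ⟨h.card, h.hw, h.hT, ?_, ⟨a0, ha0, b0, hb0, ?_, ?_⟩, ?_, ?_⟩
    · intro i
      have : cl T c' i = cl T c i := by
        ext a
        rw [mem_cl, mem_cl]
        constructor
        · rintro ⟨h2, h3⟩
          rw [hca a (fun h0 => hvT (h0 ▸ h2))] at h3
          exact ⟨h2, h3⟩
        · rintro ⟨h2, h3⟩
          rw [← hca a (fun h0 => hvT (h0 ▸ h2))] at h3
          exact ⟨h2, h3⟩
      rw [this]
      exact h.hT1 i
    · rintro rfl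
      exact hab.2.2.1 rfl
    · intro hadj
      rw [adjH a0 (h.hT ha0) b0 (h.hT hb0)] at hadj
      apply hadj.2
      rw [hF']
      exact ⟨hab, hne1, hne2⟩
    · intro a b hab
      rw [hG'] at hab
      rcases hab.2 with h2 | h2 | h2
      · exact Or.inl ⟨h2.1, h2.2.1, h2.2.2.1⟩
      · exact Or.inr (Or.inl h2)
      · exact Or.inr (Or.inr h2)
    · intro b hb
      rw [hG']
      refine ⟨?_, Or.inr (Or.inl ⟨rfl, hb⟩)⟩
      rintro rfl
      exact h.hw (h.hT hb)
  -- the missing pairs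
  have hmis : mis G' H c' + 2 = mis G H c := by
    have e1 : mis G H c = ((H ×ˢ H).filter (fun e => c e.1 ≠ c e.2 ∧ ¬ G.Adj e.1 e.2)).card := by
      unfold mis
      congr 1
    have e2 : mis G' H c' =
        ((H ×ˢ H).filter (fun e => c' e.1 ≠ c' e.2 ∧ ¬ G'.Adj e.1 e.2)).card := by
      unfold mis
      congr 1
    have e3 : (H ×ˢ H).filter (fun e => c' e.1 ≠ c' e.2 ∧ ¬ G'.Adj e.1 e.2) =
        (((H ×ˢ H).filter (fun e => c e.1 ≠ c e.2 ∧ ¬ G.Adj e.1 e.2)).erase (p, q)).erase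
          (q, p) := by
      ext ⟨a, b⟩
      rw [Finset.mem_erase, Finset.mem_erase, Finset.mem_filter, Finset.mem_filter,
        Finset.mem_product]
      simp only
      constructor
      · rintro ⟨⟨ha, hb⟩, h3, h4⟩
        rw [adjH a ha b hb, not_and, not_not] at h4
        have h5 := h4 h3
        rw [hF'] at h5
        refine ⟨fun h6 => h5.2.2 ⟨(Prod.mk.inj h6).1, (Prod.mk.inj h6).2⟩,
          fun h6 => h5.2.1 ⟨(Prod.mk.inj h6).1, (Prod.mk.inj h6).2⟩, ⟨ha, hb⟩, h5.1.2.2.1,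
          h5.1.2.2.2⟩
      · rintro ⟨h3, h4, ⟨ha, hb⟩, h5, h6⟩
        have h7 : F' a b := by
          rw [hF']
          exact ⟨⟨ha, hb, h5, h6⟩, fun h8 => h4 (Prod.ext h8.1 h8.2),
            fun h8 => h3 (Prod.ext h8.1 h8.2)⟩
        have h8 := hFv a b h7
        refine ⟨⟨ha, hb⟩, ?_, ?_⟩
        · rw [hca a h8.1, hca b h8.2]
          exact h5
        · rw [adjH a ha b hb]
          exact fun h9 => h9.2 h7
    have m1 : (p, q) ∈ (H ×ˢ H).filter (fun e => c e.1 ≠ c e.2 ∧ ¬ G.Adj e.1 e.2) := by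
      rw [Finset.mem_filter, Finset.mem_product]
      exact ⟨⟨hpH, hqH⟩, hpq.2.2.1, hpq.2.2.2⟩
    have m2 : (q, p) ∈ ((H ×ˢ H).filter (fun e => c e.1 ≠ c e.2 ∧ ¬ G.Adj e.1 e.2)).erase
        (p, q) := by
      rw [Finset.mem_erase, Finset.mem_filter, Finset.mem_product]
      exact ⟨fun h0 => hpq' (Prod.mk.inj h0).2, ⟨hqH, hpH⟩, hpq.2.2.1.symm,
        fun h0 => hpq.2.2.2 h0.symm⟩
    have c1 := Finset.card_erase_add_one m1
    have c2 := Finset.card_erase_add_one m2
    rw [e2, e3, e1]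
    omega
  -- the classes
  have hclk : cl H c' k = (cl H c k).erase v := by
    ext a
    rw [mem_cl, Finset.mem_erase, mem_cl]
    by_cases hav : a = v
    · subst hav
      rw [hcv]
      exact ⟨fun h2 => absurd h2.2 hkl.symm, fun h2 => absurd rfl h2.1⟩
    · rw [hca a hav]
      exact ⟨fun h2 => ⟨hav, h2⟩, fun h2 => h2.2⟩
  have hvl : v ∉ cl H c l := fun h2 => hkl (hvk ▸ (mem_cl.mp h2).2)
  have hcll : cl H c' l = insert v (cl H c l) := by
    ext a
    rw [mem_cl, Finset.mem_insert, mem_cl]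
    by_cases hav : a = v
    · subst hav
      rw [hcv]
      exact ⟨fun _ => Or.inl rfl, fun _ => ⟨hv, rfl⟩⟩
    · rw [hca a hav]
      exact ⟨fun h2 => Or.inr h2, fun h2 => h2.resolve_left hav⟩
  have hcli : ∀ i, i ≠ k → i ≠ l → cl H c' i = cl H c i := by
    intro i hik hil
    ext a
    rw [mem_cl, mem_cl]
    by_cases hav : a = v
    · subst hav
      rw [hcv]
      exact ⟨fun h2 => absurd h2.2.symm hil, fun h2 => absurd (h2.2.symm.trans hvk) hik⟩
    · rw [hca a hav]
  have hvk2 : v ∈ cl H c k := mem_cl.mpr ⟨hv, hvk⟩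
  have ck : (cl H c' k).card + 1 = (cl H c k).card := by
    rw [hclk]; exact Finset.card_erase_add_one hvk2
  have cl' : (cl H c' l).card = (cl H c l).card + 1 := by
    rw [hcll, Finset.card_insert_of_notMem hvl]
  have hcard : ∀ i, (cl H c' i).card ≤ (cl H c i).card + 1 ∧
      (cl H c i).card ≤ (cl H c' i).card + 1 := by
    intro i
    by_cases hik : i = k
    · subst hik; omega
    · by_cases hil : i = l
      · subst hil; omega
      · rw [hcli i hik hil]; omega
  obtain ⟨g1, g2, g3⟩ := h1 r hr V G' N H c' w T hWF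
  obtain ⟨_, _, g6⟩ := h1 r hr V G N H c w T h
  refine ⟨G', c', hWF, g2 fun i => ?_, g1, ?_, hmis, hcard, ck, cl', ?_⟩
  · have := hsz i
    have := (hcard i).2
    omega
  · rw [g3, g6]
    have hs : ∑ i, sz H c' i ^ 2 = ∑ i, sz H c i ^ 2 + 2 := by
      have e1 : ∀ f : Fin r → ℝ, ∑ i, f i = f k + f l + ∑ i ∈ (univ.erase k).erase l, f i := by
        intro f
        rw [← Finset.add_sum_erase univ f (Finset.mem_univ k),
          ← Finset.add_sum_erase (univ.erase k) f (Finset.mem_erase.mpr ⟨hkl.symm, Finset.mem_univ l⟩)]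
        ring
      rw [e1 (fun i => sz H c' i ^ 2), e1 (fun i => sz H c i ^ 2)]
      have e2 : ∑ i ∈ (univ.erase k).erase l, sz H c' i ^ 2 =
          ∑ i ∈ (univ.erase k).erase l, sz H c i ^ 2 := by
        refine Finset.sum_congr rfl fun i hi => ?_
        rw [Finset.mem_erase, Finset.mem_erase] at hi
        unfold sz
        rw [hcli i hi.2.1 hi.1]
      rw [e2]
      have s1 : sz H c' k + 1 = sz H c k := by unfold sz; exact_mod_cast ck
      have s2 : sz H c' l = sz H c l + 1 := by unfold sz; exact_mod_cast cl'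
      have s3 : sz H c k = sz H c l := by unfold sz; exact_mod_cast heq
      have s4 : sz H c' k = sz H c l - 1 := by linarith
      rw [s4, s2, s3]
      ring
    have hm : (mis G' H c' : ℝ) + 2 = mis G H c := by exact_mod_cast hmis
    rw [hs]
    linarith
  · -- the pairing
    have hdiff : ∀ a b, ad G' a b - ad G a b = chi (a = p) * chi (b = q) + chi (a = q) * chi (b = p)
        + (chi (a = v) * chi (b ∈ cl H c' k) - chi (a = v) * chi (b ∈ cl H c l))
        + (chi (a ∈ cl H c' k) * chi (b = v) - chi (a ∈ cl H c l) * chi (b = v)) := by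
      intro a b
      unfold ad
      rw [chi_congr (adj_iff h a b), chi_congr (adj_iff hWF a b)]
      simp only [← chi_and]
      by_cases hH : a ∈ H ∧ b ∈ H
      · obtain ⟨ha, hb⟩ := hH
        have haw : a ≠ w := by rintro rfl; exact h.hw ha
        have hbw : b ≠ w := by rintro rfl; exact h.hw hb
        have f1 : ((a ∈ H ∧ b ∈ H ∧ c a ≠ c b ∧ ¬ FM G H c a b) ∨ (a = w ∧ b ∈ T) ∨
            (b = w ∧ a ∈ T)) ↔ (c a ≠ c b ∧ ¬ FM G H c a b) := by
          simp [ha, hb, haw, hbw]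
        have f2 : ((a ∈ H ∧ b ∈ H ∧ c' a ≠ c' b ∧ ¬ FM G' H c' a b) ∨ (a = w ∧ b ∈ T) ∨
            (b = w ∧ a ∈ T)) ↔ (c' a ≠ c' b ∧ ¬ F' a b) := by
          have e4 : FM G' H c' a b ↔ c' a ≠ c' b ∧ F' a b := by
            unfold FM
            rw [adjH a ha b hb]
            constructor
            · rintro ⟨_, _, h3, h4⟩
              refine ⟨h3, ?_⟩
              by_contra h5
              exact h4 ⟨h3, h5⟩
            · rintro ⟨h3, h4⟩
              exact ⟨ha, hb, h3, fun h5 => h5.2 h4⟩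
          rw [e4]
          simp only [ha, hb, haw, hbw, true_and, false_and, or_false]
          constructor
          · rintro ⟨h3, h4⟩
            exact ⟨h3, fun h5 => h4 ⟨h3, h5⟩⟩
          · rintro ⟨h3, h4⟩
            exact ⟨h3, fun h5 => h4 h5.2⟩
        rw [chi_congr f1, chi_congr f2]
        by_cases hav : a = v
        · by_cases hbv : b = v
          · subst hav
            subst hbv
            have n1 : ¬ (c' b ≠ c' b ∧ ¬ F' b b) := fun h3 => h3.1 rfl
            have n2 : ¬ (c b ≠ c b ∧ ¬ FM G H c b b) := fun h3 => h3.1 rfl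
            have n3 : ¬ (b = p ∧ b = q) := fun h3 => hpv h3.1.symm
            have n4 : ¬ (b = q ∧ b = p) := fun h3 => hpv h3.2.symm
            have n5 : ¬ (b = b ∧ b ∈ cl H c' k) := fun h3 => by
              rw [hclk, Finset.mem_erase] at h3
              exact h3.2.1 rfl
            have n6 : ¬ (b = b ∧ b ∈ cl H c l) := fun h3 => hvl h3.2
            have n7 : ¬ (b ∈ cl H c' k ∧ b = b) := fun h3 => n5 ⟨rfl, h3.1⟩
            have n8 : ¬ (b ∈ cl H c l ∧ b = b) := fun h3 => hvl h3.1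
            rw [chi_neg n1, chi_neg n2, chi_neg n3, chi_neg n4, chi_neg n5, chi_neg n6,
              chi_neg n7, chi_neg n8]
            norm_num
          · subst hav
            have n3 : ¬ (a = p ∧ b = q) := fun h3 => hpv h3.1.symm
            have n4 : ¬ (a = q ∧ b = p) := fun h3 => hqv h3.1.symm
            have n7 : ¬ (a ∈ cl H c' k ∧ b = a) := fun h3 => hbv h3.2
            have n8 : ¬ (a ∈ cl H c l ∧ b = a) := fun h3 => hbv h3.2
            have n1 : (c' a ≠ c' b ∧ ¬ F' a b) ↔ c b ≠ l := by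
              rw [hcv, hca b hbv]
              exact ⟨fun h3 => h3.1.symm, fun h3 => ⟨h3.symm, fun h4 => (hFv _ _ h4).1 rfl⟩⟩
            have n2 : (c a ≠ c b ∧ ¬ FM G H c a b) ↔ c b ≠ k := by
              rw [hvk]
              exact ⟨fun h3 => h3.1.symm, fun h3 => ⟨h3.symm, hvF b⟩⟩
            have n5 : (a = a ∧ b ∈ cl H c' k) ↔ c b = k := by
              rw [mem_cl, hca b hbv]
              exact ⟨fun h3 => h3.2.2, fun h3 => ⟨rfl, hb, h3⟩⟩
            have n6 : (a = a ∧ b ∈ cl H c l) ↔ c b = l := by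
              rw [mem_cl]
              exact ⟨fun h3 => h3.2.2, fun h3 => ⟨rfl, hb, h3⟩⟩
            rw [chi_congr n1, chi_congr n2, chi_neg n3, chi_neg n4, chi_congr n5, chi_congr n6,
              chi_neg n7, chi_neg n8]
            by_cases hbk : c b = k
            · have hbl : c b ≠ l := fun h3 => hkl (hbk.symm.trans h3)
              rw [chi_pos hbl, chi_neg (not_not.mpr hbk), chi_pos hbk, chi_neg hbl]
              norm_num
            · by_cases hbl : c b = l
              · rw [chi_neg (not_not.mpr hbl), chi_pos hbk, chi_neg hbk, chi_pos hbl]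
                norm_num
              · rw [chi_pos hbl, chi_pos hbk, chi_neg hbk, chi_neg hbl]
                norm_num
        · by_cases hbv : b = v
          · subst hbv
            have n3 : ¬ (a = p ∧ b = q) := fun h3 => hqv h3.2.symm
            have n4 : ¬ (a = q ∧ b = p) := fun h3 => hpv h3.2.symm
            have n7 : ¬ (a = b ∧ b ∈ cl H c' k) := fun h3 => hav h3.1
            have n8 : ¬ (a = b ∧ b ∈ cl H c l) := fun h3 => hav h3.1
            have n1 : (c' a ≠ c' b ∧ ¬ F' a b) ↔ c a ≠ l := by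
              rw [hcv, hca a hav]
              exact ⟨fun h3 => h3.1, fun h3 => ⟨h3, fun h4 => (hFv _ _ h4).2 rfl⟩⟩
            have n2 : (c a ≠ c b ∧ ¬ FM G H c a b) ↔ c a ≠ k := by
              rw [hvk]
              exact ⟨fun h3 => h3.1, fun h3 => ⟨h3, hvF2 a⟩⟩
            have n5 : (a ∈ cl H c' k ∧ b = b) ↔ c a = k := by
              rw [mem_cl, hca a hav]
              exact ⟨fun h3 => h3.1.2, fun h3 => ⟨⟨ha, h3⟩, rfl⟩⟩
            have n6 : (a ∈ cl H c l ∧ b = b) ↔ c a = l := by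
              rw [mem_cl]
              exact ⟨fun h3 => h3.1.2, fun h3 => ⟨⟨ha, h3⟩, rfl⟩⟩
            rw [chi_congr n1, chi_congr n2, chi_neg n3, chi_neg n4, chi_congr n5, chi_congr n6,
              chi_neg n7, chi_neg n8]
            by_cases hbk : c a = k
            · have hbl : c a ≠ l := fun h3 => hkl (hbk.symm.trans h3)
              rw [chi_pos hbl, chi_neg (not_not.mpr hbk), chi_pos hbk, chi_neg hbl]
              norm_num
            · by_cases hbl : c a = l
              · rw [chi_neg (not_not.mpr hbl), chi_pos hbk, chi_neg hbk, chi_pos hbl]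
                norm_num
              · rw [chi_pos hbl, chi_pos hbk, chi_neg hbk, chi_neg hbl]
                norm_num
          · have n5 : ¬ (a = v ∧ b ∈ cl H c' k) := fun h3 => hav h3.1
            have n6 : ¬ (a = v ∧ b ∈ cl H c l) := fun h3 => hav h3.1
            have n7 : ¬ (a ∈ cl H c' k ∧ b = v) := fun h3 => hbv h3.2
            have n8 : ¬ (a ∈ cl H c l ∧ b = v) := fun h3 => hbv h3.2
            rw [chi_neg n5, chi_neg n6, chi_neg n7, chi_neg n8, hca a hav, hca b hbv]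
            by_cases h3 : a = p ∧ b = q
            · have n4 : ¬ (a = q ∧ b = p) := fun h4 => hpq' (h3.1.symm.trans h4.1)
              have n1 : c a ≠ c b ∧ ¬ F' a b := by
                rw [h3.1, h3.2]
                refine ⟨hpq.2.2.1, ?_⟩
                rw [hF']
                exact fun h4 => h4.2.1 ⟨rfl, rfl⟩
              have n2 : ¬ (c a ≠ c b ∧ ¬ FM G H c a b) := by
                rw [h3.1, h3.2]
                exact fun h4 => h4.2 hpq
              rw [chi_pos h3, chi_neg n4, chi_pos n1, chi_neg n2]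
              norm_num
            · by_cases h4 : a = q ∧ b = p
              · have n1 : c a ≠ c b ∧ ¬ F' a b := by
                  rw [h4.1, h4.2]
                  refine ⟨hpq.2.2.1.symm, ?_⟩
                  rw [hF']
                  exact fun h5 => h5.2.2 ⟨rfl, rfl⟩
                have n2 : ¬ (c a ≠ c b ∧ ¬ FM G H c a b) := by
                  rw [h4.1, h4.2]
                  exact fun h5 => h5.2 (FM_symm hpq)
                rw [chi_neg h3, chi_pos h4, chi_pos n1, chi_neg n2]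
                norm_num
              · have n1 : (c a ≠ c b ∧ ¬ F' a b) ↔ (c a ≠ c b ∧ ¬ FM G H c a b) := by
                  rw [hF']
                  constructor
                  · rintro ⟨h5, h6⟩
                    exact ⟨h5, fun h7 => h6 ⟨h7, h3, h4⟩⟩
                  · rintro ⟨h5, h6⟩
                    exact ⟨h5, fun h7 => h6 h7.1⟩
                rw [chi_neg h3, chi_neg h4, chi_congr n1]
                norm_num
      · have f1 : ((a ∈ H ∧ b ∈ H ∧ c' a ≠ c' b ∧ ¬ FM G' H c' a b) ∨ (a = w ∧ b ∈ T) ∨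
            (b = w ∧ a ∈ T)) ↔ ((a ∈ H ∧ b ∈ H ∧ c a ≠ c b ∧ ¬ FM G H c a b) ∨
            (a = w ∧ b ∈ T) ∨ (b = w ∧ a ∈ T)) := by
          constructor
          · rintro (h3 | h3)
            · exact absurd ⟨h3.1, h3.2.1⟩ hH
            · exact Or.inr h3
          · rintro (h3 | h3)
            · exact absurd ⟨h3.1, h3.2.1⟩ hH
            · exact Or.inr h3
        have n3 : ¬ (a = p ∧ b = q) := fun h3 => hH ⟨h3.1 ▸ hpH, h3.2 ▸ hqH⟩
        have n4 : ¬ (a = q ∧ b = p) := fun h3 => hH ⟨h3.1 ▸ hqH, h3.2 ▸ hpH⟩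
        have n5 : ¬ (a = v ∧ b ∈ cl H c' k) := fun h3 => hH ⟨h3.1 ▸ hv, (mem_cl.mp h3.2).1⟩
        have n6 : ¬ (a = v ∧ b ∈ cl H c l) := fun h3 => hH ⟨h3.1 ▸ hv, (mem_cl.mp h3.2).1⟩
        have n7 : ¬ (a ∈ cl H c' k ∧ b = v) := fun h3 => hH ⟨(mem_cl.mp h3.1).1, h3.2 ▸ hv⟩
        have n8 : ¬ (a ∈ cl H c l ∧ b = v) := fun h3 => hH ⟨(mem_cl.mp h3.1).1, h3.2 ▸ hv⟩
        rw [chi_congr f1, chi_neg n3, chi_neg n4, chi_neg n5, chi_neg n6, chi_neg n7, chi_neg n8]
        norm_num
    intro x y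
    simp only [hdiff, add_mul, sub_mul, Finset.sum_add_distrib, Finset.sum_sub_distrib]
    rw [sum2 (fun a => chi (a = p)) (fun b => chi (b = q)) x y,
      sum2 (fun a => chi (a = q)) (fun b => chi (b = p)) x y,
      sum2 (fun a => chi (a = v)) (fun b => chi (b ∈ cl H c' k)) x y,
      sum2 (fun a => chi (a = v)) (fun b => chi (b ∈ cl H c l)) x y,
      sum2 (fun a => chi (a ∈ cl H c' k)) (fun b => chi (b = v)) x y,
      sum2 (fun a => chi (a ∈ cl H c l)) (fun b => chi (b = v)) x y]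
    simp only [sum_chi_eq, sum_chi_mem]
    have k1 : ∑ a ∈ cl H c' k, x a = cs x H c k - x v := by
      unfold cs
      rw [hclk, ← Finset.sum_erase_add (cl H c k) x hvk2]
      ring
    have k2 : ∑ a ∈ cl H c l, y a = cs y H c' l - y v := by
      unfold cs
      rw [hcll, Finset.sum_insert hvl]
      ring
    have k3 : ∑ a ∈ cl H c' k, y a = cs y H c' k := rfl
    have k4 : ∑ a ∈ cl H c l, x a = cs x H c l := rfl
    rw [k1, k2, k3, k4]
    ring

end

end EQS

open EQS in
theorem blk_EQS (h1 : Stmt_GF) (_h2 : Stmt_EID) (h3 : Stmt_FLAT) : Stmt_EQS := by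
  classical
  intro r hr
  have hrR : (3 : ℝ) ≤ r := by exact_mod_cast hr
  obtain ⟨_, _, hK⟩ := h3 r hr
  obtain ⟨e, he⟩ : ∃ e : ℝ, e = 1 / (20 * r) := ⟨_, rfl⟩
  have he0 : 0 < e := by rw [he]; positivity
  have her : e * r = 1 / 20 := by rw [he]; field_simp
  have he1 : e ≤ 1 / 60 := by
    have : e * 3 ≤ e * r := mul_le_mul_of_nonneg_left hrR he0.le
    linarith
  obtain ⟨δF, N1, hδF0, hδFe, hF⟩ := hK e he0
  obtain ⟨δ, hδ⟩ : ∃ δ, δ = min (δF / 2) (1 / (4 * (r : ℝ))) := ⟨_, rfl⟩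
  have hδ1 : δ ≤ δF / 2 := by rw [hδ]; exact min_le_left _ _
  have hδ2 : δ ≤ 1 / (4 * r) := by rw [hδ]; exact min_le_right _ _
  have hδ0 : 0 < δ := by rw [hδ]; exact lt_min (by linarith) (by positivity)
  obtain ⟨N2, hN2⟩ := exists_nat_ge ((r : ℝ) / δ + 4 * r)
  refine ⟨δ, max N1 N2, hδ0, ?_⟩
  intro N hNN V _ G c H w T k l hC0 hWF hMX hmis4 hkl heq
  have hN1 : N1 ≤ N := (le_max_left _ _).trans hNN
  have hNR : (r : ℝ) / δ + 4 * r ≤ N := by
    have : (N2 : ℝ) ≤ N := by exact_mod_cast (le_max_right N1 N2).trans hNN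
    linarith
  have hrδ0 : 0 < (r : ℝ) / δ := by positivity
  have hN4 : 4 * (r : ℝ) ≤ N := by linarith
  have hNpos : (0 : ℝ) < N := by linarith
  have hrδ : (r : ℝ) ≤ δ * N := by
    have h4 : (r : ℝ) / δ ≤ N := by linarith
    rw [div_le_iff₀ hδ0] at h4
    linarith
  -- sizes of the classes
  have hszR : ∀ i, (mis G H c : ℝ) + 1 < sz H c i := by
    intro i
    have h7 := (abs_le.mp (hC0.bal i)).1
    have h8 := hC0.mis
    have h9 : δ * N ≤ 1 / (4 * r) * N := mul_le_mul_of_nonneg_right hδ2 hNpos.le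
    have e4 : 1 / (4 * (r : ℝ)) * N = N / r / 4 := by field_simp
    have h10 : (4 : ℝ) ≤ N / r := by
      rw [le_div_iff₀ (by linarith)]
      linarith
    linarith
  have hsz : ∀ i, mis G H c + 1 < (cl H c i).card := by
    intro i
    have := hszR i
    unfold sz at this
    exact_mod_cast this
  -- the set of the missing pairs
  obtain ⟨D, hD⟩ : ∃ D, D = (H ×ˢ H).filter (fun e => c e.1 ≠ c e.2 ∧ ¬ G.Adj e.1 e.2) :=
    ⟨_, rfl⟩
  have hDc : D.card = mis G H c := by
    rw [hD]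
    unfold mis
    congr 1
  have hDm : ∀ a b, (a, b) ∈ D ↔ FM G H c a b := by
    intro a b
    rw [hD, Finset.mem_filter, Finset.mem_product]
    exact ⟨fun h => ⟨h.1.1, h.1.2, h.2.1, h.2.2⟩, fun h => ⟨⟨h.1, h.2.1⟩, h.2.2.1, h.2.2.2⟩⟩
  -- the vertex `v`
  obtain ⟨v, hvk, hvT, hvF⟩ : ∃ v, v ∈ cl H c k ∧ v ∉ T ∧ ∀ b, ¬ FM G H c v b := by
    by_contra hcon
    push Not at hcon
    have hsub : cl H c k ⊆ cl T c k ∪ D.image Prod.fst := by
      intro a ha
      rw [Finset.mem_union, Finset.mem_image]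
      by_cases haT : a ∈ T
      · exact Or.inl (mem_cl.mpr ⟨haT, (mem_cl.mp ha).2⟩)
      · obtain ⟨b, hb⟩ := hcon a ha haT
        exact Or.inr ⟨(a, b), (hDm a b).mpr hb, rfl⟩
    have h4 := Finset.card_le_card hsub
    have h5 := Finset.card_union_le (cl T c k) (D.image Prod.fst)
    have h6 : (D.image Prod.fst).card ≤ D.card := Finset.card_image_le
    have h7 := hWF.hT1 k
    have h8 := hsz k
    omega
  have hv := mem_cl.mp hvk
  -- a missing pair inside `T`
  obtain ⟨a0, ha0, b0, hb0, hab0, hnab⟩ := hWF.hF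
  have hFM0 : FM G H c a0 b0 :=
    ⟨hWF.hT ha0, hWF.hT hb0, fun h => hab0 (GF.eqT hWF.hT1 ha0 hb0 h), hnab⟩
  -- another missing pair
  obtain ⟨p, q, hpq, hne1, hne2⟩ : ∃ p q, FM G H c p q ∧ ¬ (a0 = p ∧ b0 = q) ∧
      ¬ (a0 = q ∧ b0 = p) := by
    by_contra hcon
    push Not at hcon
    have hsub : D ⊆ {(a0, b0), (b0, a0)} := by
      rintro ⟨p, q⟩ hpq
      rw [Finset.mem_insert, Finset.mem_singleton]
      by_cases h4 : a0 = p ∧ b0 = q
      · left
        rw [h4.1, h4.2]
      · right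
        have h5 := hcon p q ((hDm p q).mp hpq) (fun h6 h7 => h4 ⟨h6, h7⟩)
        rw [h5.1, h5.2]
    have h4 := Finset.card_le_card hsub
    have h5 : ({(a0, b0), (b0, a0)} : Finset (V × V)).card ≤ 2 := Finset.card_le_two
    omega
  obtain ⟨G', c', hWF', hcol', hfree', hpE, hmis', hcard, ck, cl', hpair⟩ := comp h1 hr hWF
    (fun i => by have := hsz i; omega) hkl heq hv.1 hv.2 hvT hvF hpq ha0 hb0 hFM0 hne1 hne2
  have hrad := hMX G' hfree' hcol' hpE
  have : Nonempty V := ⟨w⟩
  obtain ⟨x, hx⟩ := exists_PV G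
  obtain ⟨y, hy⟩ := exists_PV G'
  -- the data of the two graphs
  have hCx : C0 r δF N G c H := by
    have h7 : δ * N ≤ δF * N := mul_le_mul_of_nonneg_right (by linarith) hNpos.le
    exact ⟨hC0.card, hC0.ind, hC0.mis.trans h7, fun i => (hC0.bal i).trans h7, hC0.eo.trans h7⟩
  have h2δ : 2 * (δ * N) ≤ δF * N := by
    have : δ * N ≤ δF / 2 * N := mul_le_mul_of_nonneg_right hδ1 hNpos.le
    linarith
  have hCy : C0 r δF N G' c' H := by
    refine ⟨hC0.card, GF.ind hWF', ?_, ?_, ?_⟩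
    · have h7 : (mis G' H c' : ℝ) ≤ mis G H c := by
        have : mis G' H c' ≤ mis G H c := by omega
        exact_mod_cast this
      have := hC0.mis
      have := mul_pos hδ0 hNpos
      linarith
    · intro i
      have h7 := hcard i
      have h8 : sz H c' i ≤ sz H c i + 1 := by unfold sz; exact_mod_cast h7.1
      have h9 : sz H c i ≤ sz H c' i + 1 := by unfold sz; exact_mod_cast h7.2
      obtain ⟨h10, h11⟩ := abs_le.mp (hC0.bal i)
      rw [abs_le]
      constructor <;> linarith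
    · rw [TRF.eo_dg, GF.eu0 hWF']
      have e1 : ∑ v ∈ out H, (dg G' H v : ℝ) = r := by
        rw [← GF.sum_dg hWF']
        push_cast
        rfl
      rw [e1]
      have := mul_pos hδ0 hNpos
      push_cast
      linarith
  obtain ⟨xb, hFx, hfx, _⟩ := hF N hN1 V G x _ c H hCx hx
  obtain ⟨yb, hFy, hfy, _⟩ := hF N hN1 V G' y _ c' H hCy hy
  -- pairing
  have hP := pairing hx hy
  rw [hpair x y] at hP
  have hP2 : (specRad G' - specRad G) * ∑ v, x v * y v ≤ 0 := by
    apply mul_nonpos_of_nonpos_of_nonneg (by linarith)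
    exact Finset.sum_nonneg fun v _ => mul_nonneg (hx.nn v) (hy.nn v)
  -- estimates
  have hxb := hFx.xb0
  have hyb := hFy.xb0
  have hal : al r = 1 - 1 / (r : ℝ) := rfl
  have s3 : sz H c k = sz H c l := by unfold sz; exact_mod_cast heq
  have x1 : -(e * xb) ≤ cs x H c k - cs x H c l := by
    have h7 := (abs_le.mp (hfx k l)).1
    rw [s3, sub_self, mul_zero, zero_mul, abs_zero] at h7
    linarith
  have y1 : -(2 * al r * yb) - 3 * (e * yb) ≤ cs y H c' k - cs y H c' l := by
    have h7 := (abs_le.mp (hfy k l)).1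
    have s1 : sz H c' k + 1 = sz H c k := by unfold sz; exact_mod_cast ck
    have s2 : sz H c' l = sz H c l + 1 := by unfold sz; exact_mod_cast cl'
    have s4 : sz H c' k - sz H c' l = -2 := by linarith
    rw [s4, abs_neg, abs_two] at h7
    linarith
  have xv := abs_le.mp (hFx.xH v hv.1)
  have yv := abs_le.mp (hFy.xH v hv.1)
  have xp := abs_le.mp (hFx.xH p hpq.1)
  have yp := abs_le.mp (hFy.xH p hpq.1)
  have xq := abs_le.mp (hFx.xH q hpq.2.1)
  have yq := abs_le.mp (hFy.xH q hpq.2.1)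
  have hexb : 0 < e * xb := mul_pos he0 hxb
  have heyb : 0 < e * yb := mul_pos he0 hyb
  obtain ⟨P, hPdef⟩ : ∃ P, P = xb * yb := ⟨_, rfl⟩
  have hP0 : 0 < P := by rw [hPdef]; exact mul_pos hxb hyb
  have exb1 : e * xb ≤ 1 / 60 * xb := mul_le_mul_of_nonneg_right he1 hxb.le
  have eyb1 : e * yb ≤ 1 / 60 * yb := mul_le_mul_of_nonneg_right he1 hyb.le
  -- lower bounds of the four terms
  have t1 : (1 - 2 * e) * P ≤ x p * y q := by
    have h7 : (xb - e * xb) * (yb - e * yb) ≤ x p * y q :=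
      mul_le_mul (by linarith) (by linarith) (by linarith) (by linarith)
    have h8 : (xb - e * xb) * (yb - e * yb) = (1 - 2 * e) * P + e * e * P := by rw [hPdef]; ring
    have h9 : 0 ≤ e * e * P := by positivity
    linarith
  have t2 : (1 - 2 * e) * P ≤ x q * y p := by
    have h7 : (xb - e * xb) * (yb - e * yb) ≤ x q * y p :=
      mul_le_mul (by linarith) (by linarith) (by linarith) (by linarith)
    have h8 : (xb - e * xb) * (yb - e * yb) = (1 - 2 * e) * P + e * e * P := by rw [hPdef]; ring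
    have h9 : 0 ≤ e * e * P := by positivity
    linarith
  have hr1 : 0 < 1 / (r : ℝ) := by positivity
  have hr2 : 1 / (r : ℝ) ≤ 1 / 3 := one_div_le_one_div_of_le (by norm_num) hrR
  have hxv0 : 0 ≤ x v := hx.nn v
  have hyv0 : 0 ≤ y v := hy.nn v
  have t3 : -((1 - 2 / r + 6 * e) * P) ≤ x v * (cs y H c' k - cs y H c' l + y v) := by
    have h7 : -((1 - 2 / r + 4 * e) * yb) ≤ cs y H c' k - cs y H c' l + y v := by
      rw [hal] at y1
      have e5 : (2 : ℝ) / r = 2 * (1 / r) := by ring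
      rw [e5]
      linarith
    have h8 : x v * -((1 - 2 / r + 4 * e) * yb) ≤ x v * (cs y H c' k - cs y H c' l + y v) :=
      mul_le_mul_of_nonneg_left h7 hxv0
    have e5 : (2 : ℝ) / r = 2 * (1 / r) := by ring
    have h10 : 0 ≤ (1 - 2 / r + 4 * e) * yb := by
      rw [e5]
      exact mul_nonneg (by linarith) hyb.le
    have h9 : x v * ((1 - 2 / r + 4 * e) * yb) ≤ (xb + e * xb) * ((1 - 2 / r + 4 * e) * yb) :=
      mul_le_mul_of_nonneg_right (by linarith) h10
    have h11 : (xb + e * xb) * ((1 - 2 / r + 4 * e) * yb) =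
        (1 - 2 / r + 4 * e) * P + e * ((1 - 2 / r + 4 * e) * P) := by rw [hPdef]; ring
    have h12 : (1 - 2 / r + 4 * e) * P ≤ 2 * P := by
      rw [e5]
      exact mul_le_mul_of_nonneg_right (by linarith) hP0.le
    have h13 : e * ((1 - 2 / r + 4 * e) * P) ≤ e * (2 * P) :=
      mul_le_mul_of_nonneg_left h12 he0.le
    linarith
  have t4 : -((1 + 4 * e) * P) ≤ y v * (cs x H c k - x v - cs x H c l) := by
    have h7 : -((1 + 2 * e) * xb) ≤ cs x H c k - x v - cs x H c l := by linarith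
    have h8 : y v * -((1 + 2 * e) * xb) ≤ y v * (cs x H c k - x v - cs x H c l) :=
      mul_le_mul_of_nonneg_left h7 hyv0
    have h10 : 0 ≤ (1 + 2 * e) * xb := mul_nonneg (by linarith) hxb.le
    have h9 : y v * ((1 + 2 * e) * xb) ≤ (yb + e * yb) * ((1 + 2 * e) * xb) :=
      mul_le_mul_of_nonneg_right (by linarith) h10
    have h11 : (yb + e * yb) * ((1 + 2 * e) * xb) = (1 + 3 * e) * P + e * (2 * e * P) := by
      rw [hPdef]; ring
    have h12 : 2 * e * P ≤ 1 * P := mul_le_mul_of_nonneg_right (by linarith) hP0.le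
    have h13 : e * (2 * e * P) ≤ e * (1 * P) := mul_le_mul_of_nonneg_left h12 he0.le
    linarith
  have h14 : (2 / (r : ℝ) - 14 * e) * P ≤ 0 := by linarith
  have h15 : 0 < (2 / (r : ℝ) - 14 * e) * P := by
    apply mul_pos _ hP0
    have e5 : (2 : ℝ) / r = 2 * (1 / r) := by ring
    have e6 : e = 1 / 20 * (1 / r) := by rw [he]; field_simp
    rw [e5, e6]
    linarith
  linarith

end Pool.Agent.Work.MP_5532fa_up
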