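import Pool.Agent.Work.MP_5532fa_up.Interface2

/-! Block EXU: existence of graphs of type D and of type E for all small j. -/

open Finset

namespace Pool.Agent.Work.MP_5532fa_up

namespace EXU

/-- arithmetic: the parameters are admissible -/
theorem arith (r : ℕ) (ε : ℝ) (hr : 3 ≤ r) (hε : 0 < ε) : ∃ N0 : ℕ, ∀ N ≥ N0, ∀ j : ℕ,
    RgU r ε N j → 2 * r ≤ N ∧ (j : ℝ) + 2 * (N / r) + r + 1 ≤ N ∧
      ((N / r : ℕ) : ℝ) ≤ (N : ℝ) / r := by
  obtain ⟨N0, hN0⟩ := exists_nat_ge ((2 * (r : ℝ) + 2) / ε + 2 * r)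
  refine ⟨N0, fun N hN j hj => ?_⟩
  have h2 : (j : ℝ) ≤ ((1 - 2 / r) * al r - ε) * N := hj
  have hr' : (3 : ℝ) ≤ r := by exact_mod_cast hr
  have hNr : (N0 : ℝ) ≤ N := by exact_mod_cast hN
  have h3 : (2 * (r : ℝ) + 2) / ε ≤ N := by
    have : (0 : ℝ) ≤ 2 * r := by linarith
    linarith
  have h4 : 2 * (r : ℝ) + 2 ≤ ε * N := by
    rw [div_le_iff₀ hε] at h3
    linarith
  have h5 : 2 * (r : ℝ) ≤ N := by
    have : (0 : ℝ) ≤ (2 * (r : ℝ) + 2) / ε := by positivity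
    linarith
  refine ⟨by exact_mod_cast h5, ?_, Nat.cast_div_le⟩
  have hN : (0 : ℝ) ≤ N := Nat.cast_nonneg _
  have h7 : 0 ≤ 1 - 2 / (r : ℝ) := by
    have : 2 / (r : ℝ) ≤ 1 := by
      rw [div_le_one (by linarith)]
      linarith
    linarith
  have h8 : (1 - 2 / (r : ℝ)) * al r ≤ (1 - 2 / (r : ℝ)) :=
    mul_le_of_le_one_right h7 (al_lt hr).le
  have h9 : ((1 - 2 / (r : ℝ)) * al r - ε) * N ≤ ((1 - 2 / (r : ℝ)) - ε) * N :=
    mul_le_mul_of_nonneg_right (by linarith) hN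
  have h10 : ((1 - 2 / (r : ℝ)) - ε) * N = N - 2 * (N / r) - ε * N := by ring
  linarith

theorem a_le {r : ℕ} {n a : Fin r → ℕ} {P : Finset (Fin r)} {p0 : ℕ}
    (hn : ∀ i, 2 ≤ n i) (hp0 : p0 ≤ 2) (haP : ∀ i, i ∈ P → a i = p0)
    (haQ : ∀ i, i ∉ P → 1 ≤ a i ∧ a i ≤ n i) (i : Fin r) : a i ≤ n i := by
  by_cases hi : i ∈ P
  · rw [haP i hi]
    exact hp0.trans (hn i)
  · exact (haQ i hi).2

theorem exD (h1 : Stmt_PARX) (h2 : Stmt_EMB) {r N j : ℕ} (hr : 3 ≤ r) (b1 : 2 * r ≤ N)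
    (b2 : 2 * r ≤ j + 1) (b3 : (j : ℝ) + 2 * (N / r) + r + 1 ≤ N)
    (b4 : ((N / r : ℕ) : ℝ) ≤ (N : ℝ) / r) (V : Type) [Fintype V] (hV : N + 2 ≤ Fintype.card V) :
    ∃ G : SimpleGraph V, TypeD r N j G := by
  have c1 : 1 ≤ j := by omega
  have c2 : j - 1 + 2 * (N / r + 1) ≤ N := by
    have e : ((j - 1 + 2 * (N / r + 1) : ℕ) : ℝ) ≤ (N : ℝ) := by
      push_cast [Nat.cast_sub c1]
      have : (0 : ℝ) ≤ r := Nat.cast_nonneg _
      linarith
    exact_mod_cast e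
  obtain ⟨n, a, P, hP, hsn, hsa, hn2, hbal, htop, haP, haQ, hpl⟩ :=
    h1 r 2 1 N (j - 1) hr (by omega) b1 (by omega) c2
  have hle := a_le hn2 (by norm_num) haP (fun i hi => haQ i hi)
  obtain ⟨H, c, w, u, A, hwu, hw, hu, hA, hH, hcH, hcA⟩ :=
    h2 r N n a V (by omega) hsn hle hV
  obtain ⟨i1, i2, hi12, rfl⟩ := Finset.card_eq_two.1 hP
  have hi1 : (cl A c i1).card = 1 := by
    rw [hcA, haP i1 (by simp)]
  have hi2 : (cl A c i2).card = 1 := by
    rw [hcA, haP i2 (by simp)]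
  obtain ⟨v1, hv1⟩ := Finset.card_eq_one.1 hi1
  obtain ⟨v2, hv2⟩ := Finset.card_eq_one.1 hi2
  have hc1 : c v1 = i1 := by
    have : v1 ∈ cl A c i1 := by rw [hv1]; exact Finset.mem_singleton_self _
    exact (mem_cl.1 this).2
  have hc2 : c v2 = i2 := by
    have : v2 ∈ cl A c i2 := by rw [hv2]; exact Finset.mem_singleton_self _
    exact (mem_cl.1 this).2
  refine ⟨gD H c w A v1 v2, H, c, w, A, v1, v2, ?_, ?_, ?_, ?_, ?_⟩
  · apply gD_WD hH hw hA
    · rw [hc1, hc2]; exact hi12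
    · rw [hc1]; exact hv1
    · rw [hc2]; exact hv2
    · intro i
      rw [← Finset.card_pos, hcA]
      by_cases hi : i ∈ ({i1, i2} : Finset (Fin r))
      · rw [haP i hi]; norm_num
      · exact (haQ i hi).1
  · have := sum_card_cl A c
    rw [← this]
    simp only [hcA]
    rw [hsa]
    omega
  · intro i k
    rw [hcH, hcH]
    exact hbal i k
  · intro i k hi hk
    rw [hc1, hc2] at hi hk
    rw [hcH, hcH, hcA, hcA]
    exact hpl i k hi hk
  · intro i k hi hk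
    rw [hc1, hc2] at hi hk
    rw [hcH, hcH]
    exact htop i k hi hk

theorem exE (h1 : Stmt_PARX) (h2 : Stmt_EMB) {r N j : ℕ} (hr : 3 ≤ r) (b1 : 2 * r ≤ N)
    (b2 : 2 * r ≤ j + 1) (b3 : (j : ℝ) + 2 * (N / r) + r + 1 ≤ N)
    (b4 : ((N / r : ℕ) : ℝ) ≤ (N : ℝ) / r) (V : Type) [Fintype V] (hV : N + 2 ≤ Fintype.card V) :
    ∃ G : SimpleGraph V, TypeE r N j G := by
  classical
  have c1 : r ≤ j := by omega
  have hr0 : (0 : ℝ) < r := by
    have : (3 : ℝ) ≤ r := by exact_mod_cast hr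
    linarith
  have hNr0 : (0 : ℝ) ≤ (N : ℝ) / r := by positivity
  have c2 : j - r + 1 * (N / r + 1) ≤ N := by
    have e : ((j - r + 1 * (N / r + 1) : ℕ) : ℝ) ≤ (N : ℝ) := by
      push_cast [Nat.cast_sub c1]
      linarith
    exact_mod_cast e
  obtain ⟨n, a, P, hP, hsn, hsa, hn2, hbal, htop, haP, haQ, hpl⟩ :=
    h1 r 1 0 N (j - r) hr (by omega) b1 (by omega) c2
  have hle := a_le hn2 (by norm_num) haP (fun i hi => haQ i hi)
  obtain ⟨H, c, w, u, A, hwu, hw, hu, hA, hH, hcH, hcA⟩ :=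
    h2 r N n a V (by omega) hsn hle hV
  obtain ⟨i0, rfl⟩ := Finset.card_eq_one.1 hP
  have hA0 : cl A c i0 = ∅ := by
    rw [← Finset.card_eq_zero, hcA, haP i0 (by simp)]
  -- a class which is not full
  have hk : ∃ k, k ≠ i0 ∧ a k < n k := by
    by_contra hcon
    push Not at hcon
    have e1 : ∀ i, i ≠ i0 → a i = n i := fun i hi => le_antisymm (hle i) (hcon i hi)
    have e2 : ∑ i, a i + n i0 = N := by
      rw [← hsn, ← Finset.add_sum_erase _ a (Finset.mem_univ i0),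
        ← Finset.add_sum_erase _ n (Finset.mem_univ i0), haP i0 (by simp),
        Finset.sum_congr rfl (fun i hi => e1 i (Finset.ne_of_mem_erase hi))]
      ring
    have e3 : r * n i0 ≤ N + r := by
      have : ∑ _i : Fin r, n i0 ≤ ∑ i, (n i + 1) := Finset.sum_le_sum fun i _ => hbal i0 i
      rw [Finset.sum_const, Finset.card_univ, Fintype.card_fin, Finset.sum_add_distrib, hsn,
        smul_eq_mul] at this
      simpa using this
    have e4 : (n i0 : ℝ) ≤ (N : ℝ) / r + 1 := by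
      have : (r : ℝ) * n i0 ≤ N + r := by exact_mod_cast e3
      rw [← sub_le_iff_le_add, le_div_iff₀ hr0]
      linarith
    have e5 : (j : ℝ) - r + n i0 = N := by
      have : j - r + 1 * 0 + n i0 = N := by rw [← hsa]; exact e2
      have : ((j - r + 1 * 0 + n i0 : ℕ) : ℝ) = N := by exact_mod_cast this
      push_cast [Nat.cast_sub c1] at this
      linarith
    linarith
  obtain ⟨k, hk0, hkn⟩ := hk
  have hbk : ∃ b, b ∈ cl H c k ∧ b ∉ A := by
    by_contra hcon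
    push Not at hcon
    have : cl H c k ⊆ cl A c k := fun v hv => mem_cl.2 ⟨hcon v hv, (mem_cl.1 hv).2⟩
    have := Finset.card_le_card this
    rw [hcH, hcA] at this
    omega
  obtain ⟨bk, hbk1, hbk2⟩ := hbk
  have hne : ∀ i, i ≠ i0 → (cl A c i).Nonempty := by
    intro i hi
    rw [← Finset.card_pos, hcA]
    exact (haQ i (by simpa using hi)).1
  have hb : ∀ i, ∃ b, i ≠ i0 → (b ∈ H ∧ c b = i ∧ (i ≠ k → b ∈ A) ∧ (i = k → b = bk)) := by
    intro i
    by_cases hi : i = i0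
    · exact ⟨bk, fun h => absurd hi h⟩
    by_cases hik : i = k
    · exact ⟨bk, fun _ => ⟨(mem_cl.1 hbk1).1, (mem_cl.1 hbk1).2.trans hik.symm,
        fun h => absurd hik h, fun _ => rfl⟩⟩
    · obtain ⟨b, hb⟩ := hne i hi
      exact ⟨b, fun _ => ⟨hA (mem_cl.1 hb).1, (mem_cl.1 hb).2, fun _ => (mem_cl.1 hb).1,
        fun h => absurd h hik⟩⟩
  choose b hb using hb
  set B : Finset V := (Finset.univ.erase i0).image b with hB
  have hmB : ∀ v, v ∈ B ↔ ∃ i, i ≠ i0 ∧ b i = v := by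
    intro v
    rw [hB]
    simp
  have hclB : ∀ i, i ≠ i0 → cl B c i = {b i} := by
    intro i hi
    ext v
    rw [mem_cl, hmB, Finset.mem_singleton]
    constructor
    · rintro ⟨⟨i', hi', rfl⟩, hc⟩
      rw [(hb i' hi').2.1] at hc
      rw [hc]
    · rintro rfl
      exact ⟨⟨i, hi, rfl⟩, (hb i hi).2.1⟩
  have hbkk : b k = bk := (hb k hk0).2.2.2 rfl
  have hbkB : bk ∈ B := (hmB bk).2 ⟨k, hk0, hbkk⟩
  refine ⟨gE H c w u A B, H, c, w, u, A, B, i0, ?_, ?_, ?_, ?_, ?_, ?_⟩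
  · apply gE_WE hH hw hu hwu hA
    · intro v hv
      obtain ⟨i, hi, rfl⟩ := (hmB v).1 hv
      exact (hb i hi).1
    · exact hA0
    · rw [Finset.eq_empty_iff_forall_notMem]
      intro v hv
      obtain ⟨hv1, hv2⟩ := mem_cl.1 hv
      obtain ⟨i, hi, rfl⟩ := (hmB v).1 hv1
      exact hi ((hb i hi).2.1.symm.trans hv2)
    · exact hne
    · intro i hi
      rw [hclB i hi, Finset.card_singleton]
    · intro hBA
      exact hbk2 (hBA hbkB)
  · refine ⟨bk, hbkB, hbk2, ?_⟩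
    intro v hv hvA
    obtain ⟨i, hi, rfl⟩ := (hmB v).1 hv
    by_cases hik : i = k
    · rw [hik, hbkk]
    · exact absurd ((hb i hi).2.2.1 hik) hvA
  · have := sum_card_cl A c
    rw [← this]
    simp only [hcA]
    rw [hsa]
    omega
  · intro i k
    rw [hcH, hcH]
    exact hbal i k
  · intro i k hi hk
    rw [hcH, hcH, hcA, hcA]
    exact hpl i k hi hk
  · intro i k hi hk
    rw [hcH, hcH]
    exact htop i k hi hk

end EXU

theorem blk_EXU (h1 : Stmt_PARX) (h2 : Stmt_EMB) : Stmt_EXU := by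
  intro r ε hr hε
  obtain ⟨N0, hN0⟩ := EXU.arith r ε hr hε
  refine ⟨N0, fun N hN j hj hj2 V _ hV => ?_⟩
  obtain ⟨b1, b3, b4⟩ := hN0 N hN j hj
  exact ⟨EXU.exD h1 h2 hr b1 hj2 b3 b4 V hV, EXU.exE h1 h2 hr b1 hj2 b3 b4 V hV⟩

end Pool.Agent.Work.MP_5532fa_up
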