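import Pool.Agent.Work.MP_5532fa_up.Interface4
import Pool.Agent.Work.MP_5532fa_up.FIN3

/-!
# MP_5532fa_co, upgrade, fourth round, block FIN4: `FIN3` with an upper bound for `j`
-/

open Finset

namespace Pool.Agent.Work.MP_5532fa_up

open MP5532fa (specRad qf pE)

open FINA FIN3 in
set_option maxHeartbeats 4000000 in
theorem blk_FIN4 (hREL : Stmt_REL) (hMKC : Stmt_MKC) (hHSET : Stmt_HSET) (hACC : Stmt_ACC)
    (hOPT3 : Stmt_OPT3) : Stmt_FIN4 := by
  intro r δ hr hδ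
  have hr' : (3 : ℝ) ≤ r := by exact_mod_cast hr
  have hrpos : (0 : ℝ) < r := by linarith
  have hal1 := al_ge hr
  have hal2 := al_lt hr
  have halpos : 0 < al r := by linarith
  set η : ℝ := 1 / (8 * r) with hη
  have hη0 : 0 < η := by rw [hη]; positivity
  have hη1 : η ≤ 1 / 24 := by
    rw [hη]; apply one_div_le_one_div_of_le (by norm_num); linarith
  obtain ⟨κ, hκ⟩ : ∃ κ : ℝ, κ = 1 - 2 / (r : ℝ) := ⟨_, rfl⟩
  obtain ⟨κ', hκ'⟩ : ∃ κ' : ℝ, κ' = 2 * (1 - η) ^ 2 - 1 := ⟨_, rfl⟩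
  have h1r : 1 / (r : ℝ) ≤ 1 / 3 := one_div_le_one_div_of_le (by norm_num) hr'
  have h1r0 : 0 < 1 / (r : ℝ) := by positivity
  have h2r : 2 / (r : ℝ) = 2 * (1 / r) := by ring
  have hκ3 : 1 / 3 ≤ κ := by rw [hκ, h2r]; linarith
  have hκ1 : κ ≤ 1 := by rw [hκ, h2r]; linarith
  have hηr : η = 1 / (r : ℝ) / 8 := by rw [hη]; field_simp
  have hκκ' : κ < κ' := by
    rw [hκ, hκ', h2r, hηr]
    nlinarith [sq_nonneg (1 / (r : ℝ))]
  have hκ'1 : κ' ≤ 1 := by
    rw [hκ']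
    nlinarith
  obtain ⟨m0, hm0⟩ : ∃ m0 : ℝ, m0 = min δ 1 := ⟨_, rfl⟩
  have hm0pos : 0 < m0 := by rw [hm0]; exact lt_min hδ one_pos
  have hm0δ : m0 ≤ δ := by rw [hm0]; exact min_le_left _ _
  have hm01 : m0 ≤ 1 := by rw [hm0]; exact min_le_right _ _
  obtain ⟨ε', hε'⟩ : ∃ ε' : ℝ, ε' = η * m0 / 64 := ⟨_, rfl⟩
  have hε'pos : 0 < ε' := by rw [hε']; positivity
  have hε'm : ε' ≤ m0 / 64 := by
    rw [hε']
    have := mul_le_mul_of_nonneg_right hη1 hm0pos.le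
    linarith
  refine ⟨min (ε' * (2 / 3)) (1 / (6 * r)), lt_min (by positivity) (by positivity), ?_⟩
  intro δ' hδ'
  obtain ⟨D, Na, hD, hmk⟩ := hMKC r 2 hr (by norm_num)
  obtain ⟨K1, Nb, hK1, hrel⟩ := hREL r D hr hD
  obtain ⟨K2, hK2, hhs⟩ := hHSET r D η hr hD hη0 le_rfl
  obtain ⟨K3, Nc, hK3, hacc⟩ := hACC r D η K2 hr hD hη0 le_rfl hK2
  obtain ⟨ε2, hε2⟩ : ∃ ε2 : ℝ, ε2 = min (min (δ' / 32) (δ' ^ 2 / 512)) (min (m0 / 8) (1 / (6 * r)))
    := ⟨_, rfl⟩
  have hε2pos : 0 < ε2 := by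
    rw [hε2]
    exact lt_min (lt_min (by positivity) (by positivity)) (lt_min (by positivity) (by positivity))
  have hε2a : ε2 ≤ δ' / 32 := by
    rw [hε2]; exact (min_le_left _ _).trans (min_le_left _ _)
  have hε2b : ε2 ≤ δ' ^ 2 / 512 := by
    rw [hε2]; exact (min_le_left _ _).trans (min_le_right _ _)
  have hε2c : ε2 ≤ m0 / 8 := by
    rw [hε2]; exact (min_le_right _ _).trans (min_le_left _ _)
  have hε2d : ε2 ≤ 1 / (6 * r) := by
    rw [hε2]; exact (min_le_right _ _).trans (min_le_right _ _)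
  obtain ⟨δ2, hδ2, hopt⟩ := hOPT3 κ κ' (η / 2) ε' ε2 (by linarith) hκκ' hκ'1 (by positivity)
    (by linarith) hε'pos hε2pos
  obtain ⟨μ, hμ⟩ : ∃ μ : ℝ, μ = min (min δ2 ε') (1 / 2) := ⟨_, rfl⟩
  have hμpos : 0 < μ := by rw [hμ]; exact lt_min (lt_min hδ2 hε'pos) (by norm_num)
  have hμ1 : μ ≤ δ2 := by rw [hμ]; exact (min_le_left _ _).trans (min_le_left _ _)
  have hμ2 : μ ≤ ε' := by rw [hμ]; exact (min_le_left _ _).trans (min_le_right _ _)
  have hμ3 : μ ≤ 1 / 2 := by rw [hμ]; exact min_le_right _ _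
  obtain ⟨L, hL⟩ : ∃ L : ℝ, L = 1 + 2 * K2 + 6 * K1 + 8 * K1 / δ' + (2 * K3 / μ) ^ 2 +
    (8 * K2 / δ') ^ 2 + (2 / δ) ^ 2 := ⟨_, rfl⟩
  obtain ⟨Nd, hNd⟩ := exists_nat_ge L
  refine ⟨μ / 4, max (max Na Nb) (max Nc Nd), by positivity, ?_⟩
  intro N hN j hjN V _ G x lam hfree hpv hpE hlam
  have hNa : Na ≤ N := (le_max_left _ _).trans ((le_max_left _ _).trans hN)
  have hNb : Nb ≤ N := (le_max_right _ _).trans ((le_max_left _ _).trans hN)
  have hNc : Nc ≤ N := (le_max_left _ _).trans ((le_max_right _ _).trans hN)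
  have hNd' : Nd ≤ N := (le_max_right _ _).trans ((le_max_right _ _).trans hN)
  have hNL : L ≤ (N : ℝ) := hNd.trans (by exact_mod_cast hNd')
  have p1 : 0 ≤ 8 * K1 / δ' := by positivity
  have p2 : 0 ≤ (2 * K3 / μ) ^ 2 := by positivity
  have p3 : 0 ≤ (8 * K2 / δ') ^ 2 := by positivity
  have p4 : 0 ≤ (2 / δ) ^ 2 := by positivity
  have hN1 : (1 : ℝ) ≤ N := by linarith
  have hNpos : (0 : ℝ) < N := by linarith
  have hN2 : 2 * K2 ≤ (N : ℝ) := by linarith
  have hN3 : 6 * K1 ≤ (N : ℝ) := by linarith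
  have hN4 : 8 * K1 / δ' ≤ (N : ℝ) := by linarith
  have hN4' : 8 * K1 ≤ (N : ℝ) * δ' := (div_le_iff₀ hδ').mp hN4
  have hN5 : (2 / δ) ^ 2 ≤ (N : ℝ) := by linarith
  have hSpos : 0 < √(N : ℝ) := Real.sqrt_pos.mpr hNpos
  have hS1 : 2 * K3 / μ ≤ √(N : ℝ) := Real.le_sqrt_of_sq_le (by linarith)
  have hS2 : 8 * K2 / δ' ≤ √(N : ℝ) := Real.le_sqrt_of_sq_le (by linarith)
  have hq1 : K3 / √(N : ℝ) ≤ μ / 2 := by
    rw [div_le_iff₀ hSpos]
    have := (div_le_iff₀ hμpos).mp hS1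
    linarith
  have hq2 : K2 / √(N : ℝ) ≤ δ' / 8 := by
    rw [div_le_iff₀ hSpos]
    have := (div_le_iff₀ hδ').mp hS2
    linarith
  have hq3 : K1 / (N : ℝ) ≤ δ' / 8 := by
    rw [div_le_iff₀ hNpos]; linarith
  obtain ⟨x0, hx0⟩ : ∃ x0 : ℝ, x0 = (j : ℝ) / (al r * N) := ⟨_, rfl⟩
  have haN : 0 < al r * N := by positivity
  have hx0pos : 0 ≤ x0 := by rw [hx0]; positivity
  have hx01 : x0 ≤ 1 := by rw [hx0, div_le_one haN]; exact hjN
  have hj : (j : ℝ) = x0 * (al r * N) := by rw [hx0]; field_simp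
  rw [← hx0, ← hκ] at hlam
  have hmin1 := UPX.min_bound (κ := κ) hx0pos hx01
  -- context
  have hlam1 : al r * N - 2 ≤ lam := by
    have h1 : (0 : ℝ) ≤ (j : ℝ) / N := by positivity
    have h2 : al r * ((1 - x0) * min x0 κ) ≤ al r * 1 := mul_le_mul_of_nonneg_left hmin1 halpos.le
    linarith
  have hctx := hmk N hNa j hjN V G x lam hfree hpv hpE hlam1
  obtain ⟨t, ht⟩ : ∃ t : ℝ, t = lam / pE G := ⟨_, rfl⟩
  rw [← ht] at hctx
  obtain ⟨hr1, hr2⟩ := hrel N hNb j hjN V G x lam t hctx hpE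
  have hr1' := abs_le.mp hr1
  have hr2' := abs_le.mp hr2
  have hK1N : K1 / (N : ℝ) ≤ 1 := by rw [div_le_one hNpos]; linarith
  have htN : t * N ≤ 2 := by linarith [hr2'.2]
  have ht2 : t ≤ 2 / N := by rw [le_div_iff₀ hNpos]; exact htN
  have hKt : K2 * t ≤ 1 := by
    calc K2 * t ≤ K2 * (2 / N) := mul_le_mul_of_nonneg_left ht2 (by linarith)
      _ = 2 * K2 / N := by ring
      _ ≤ 1 := by rw [div_le_one hNpos]; exact hN2
  obtain ⟨c, H, hHD⟩ := hhs V G x lam t hctx hKt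
  obtain ⟨hA, hB, hC⟩ := hacc N hNc j hjN V G x lam t c H hctx hHD hpE
  rw [← hx0] at hA
  rw [← hκ, ← hκ'] at hB
  have hlamlo : (N : ℝ) / 2 ≤ lam := by
    have h1 : al r * N ≥ 2 / 3 * N := mul_le_mul_of_nonneg_right hal1 hNpos.le
    linarith [hr1'.1]
  have hlampos : 0 < lam := by linarith
  have hlamhi : lam ≤ 2 * N := by
    have h1 : al r * N ≤ 1 * N := mul_le_mul_of_nonneg_right hal2.le hNpos.le
    linarith [hr1'.2]
  have hden : 0 < 2 * al r * N := by positivity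
  have himb0 : 0 ≤ imb H c := Finset.sum_nonneg fun _ _ => sq_nonneg _
  have hX0 : ∀ v, 0 ≤ (dg G H v : ℝ) / lam := fun v => by positivity
  have hcost : (al r * N + j / N - lam) / al r ≤ (1 - x0) * min x0 κ + μ / 2 := by
    rw [div_le_iff₀ halpos]
    have h6 : μ / 2 * (2 / 3) ≤ μ / 2 * al r := mul_le_mul_of_nonneg_left hal1 (by positivity)
    have h7 : ((1 - x0) * min x0 κ + μ / 2) * al r =
      al r * ((1 - x0) * min x0 κ) + μ / 2 * al r := by ring
    rw [h7]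
    linarith
  obtain ⟨e, he⟩ : ∃ e : ℝ, e = (eu G H : ℝ) / (2 * al r * N) := ⟨_, rfl⟩
  obtain ⟨sg, hsg⟩ : ∃ sg : ℝ, sg = imb H c / (2 * al r * N) := ⟨_, rfl⟩
  obtain ⟨mu, hmu⟩ : ∃ mu : ℝ, mu = (mis G H c : ℝ) / (2 * al r * N) := ⟨_, rfl⟩
  have he0 : 0 ≤ e := by rw [he]; positivity
  have hsg0 : 0 ≤ sg := by rw [hsg]; exact div_nonneg himb0 hden.le
  have hmu0 : 0 ≤ mu := by rw [hmu]; positivity
  rw [← he, ← hsg, ← hmu] at hA hB
  obtain ⟨S, hS⟩ : ∃ S : ℝ, S = ∑ v ∈ out H, (dg G H v : ℝ) / lam := ⟨_, rfl⟩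
  obtain ⟨F, hF⟩ : ∃ F : ℝ, F = ∑ v ∈ out H, (dg G H v : ℝ) / lam * (1 - dg G H v / lam) :=
    ⟨_, rfl⟩
  have hS0 : 0 ≤ S := by rw [hS]; exact Finset.sum_nonneg fun v _ => hX0 v
  have hFS : η / 2 * S ≤ F := by
    rw [hS, hF, Finset.mul_sum]
    refine Finset.sum_le_sum fun v hv => ?_
    have h1 := hC v (mem_out.mp hv)
    have h2 := hX0 v
    rw [mul_comm]
    exact mul_le_mul_of_nonneg_left (by linarith) h2
  rcases lt_or_ge x0 ε' with hxs | hxs
  · -- small `j`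
    left
    rw [← hF] at hB
    rw [← hS] at hA
    obtain ⟨b1, b2, b3, b4, k2, k1⟩ := small_case hη0 hη1 hκ3 hκκ' hm0pos hm01 hε' hS0 he0 hsg0 hmu0
      hFS hx0pos hx01 hxs hμ2 hq1 hcost hB hA
    have hk : H.card = N := by
      have k3 : N < H.card + 1 := by exact_mod_cast k1
      have k4 : H.card < N + 1 := by exact_mod_cast k2
      omega
    clear hopt hB hA hcost hlam hFS hC
    obtain ⟨q1, q2⟩ := c0_of (M := m0 / 16) hr hHD hk le_rfl hδ (by positivity) (by linarith) hN1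
      hN5 hlampos hlamhi (by rw [← hS]; exact b1) (by rw [← he]; exact b2)
      (by rw [← hsg]; linarith) (by rw [← hmu]; exact b4)
    refine ⟨c, H, q1, q2, ?_⟩
    rw [hj]
    calc x0 * (al r * N) ≤ δ * (al r * N) :=
          mul_le_mul_of_nonneg_right (by linarith) haN.le
      _ ≤ δ * (1 * N) := mul_le_mul_of_nonneg_left
          (mul_le_mul_of_nonneg_right hal2.le hNpos.le) hδ.le
      _ = δ * N := by ring
  · right
    have hopt' := hopt V (out H) (fun v => (dg G H v : ℝ) / lam) e sg mu x0 ((N : ℤ) - H.card)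
      (fun v hv => ⟨hX0 v, hC v (mem_out.mp hv)⟩) he0 hsg0 hmu0 hxs hx01
      (by push_cast; exact hA.trans (hq1.trans (by linarith)))
      (by
        refine hB.trans ?_
        linarith)
    rcases hopt' with ⟨hk, hxκ, w, hw, hXw, hrest⟩ | ⟨hk, hxκ, hrest⟩
    · right
      have hcard : H.card = N := by
        have : (N : ℤ) = H.card := by linarith
        exact_mod_cast this.symm
      have hw0 : 0 ≤ S - (dg G H w : ℝ) / lam := by
        rw [hS]
        have := Finset.single_le_sum (f := fun v => (dg G H v : ℝ) / lam) (fun v _ => hX0 v) hw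
        linarith
      refine ⟨⟨?_, ?_⟩, ?_, c, H, w, ?_, ?_⟩
      · rw [hj]
        exact range_lo hε'pos hal1 hNpos hxs
      · rw [hj]
        exact range_hi hr' rfl hκ hNpos hε2pos hε2d hxκ
      · rw [hj, ← hκ]
        exact mul_le_mul_of_nonneg_right (by linarith) haN.le
      · refine fd_of (ε2 := ε2) (x0 := x0) hr hpv hHD hcard hδ' hε2pos hε2a hε2b hN1 hN4' hK1 hK2
          hq2 hq3 hx0 hr1 hr2 hlamlo hlamhi
          (fun v hv => (hC v hv).trans (by linarith)) hw hXw ?_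
        rw [← he, ← hsg, ← hmu]
        exact hrest
      · apply bal2 hr hcard le_rfl hNpos
        rw [← hsg]
        rw [← hS] at hrest
        have h1 : ε2 ≤ 1 / 8 := by linarith
        clear hopt hB hA hcost hlam hFS hC
        linarith
    · left
      have hcard : H.card = N + 1 := by
        have : (N : ℤ) + 1 = H.card := by linarith
        exact_mod_cast this.symm
      rw [← hS] at hrest hA
      have hA' := abs_le.mp hA
      have hc' : (H.card : ℝ) = N + 1 := by rw [hcard]; push_cast; ring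
      rw [hc'] at hA'
      obtain ⟨q1, q2⟩ := c0_of (M := m0 / 8) (N := N) hr hHD hcard (Nat.le_succ N) hδ
        (by positivity) (by linarith) hN1 hN5 hlampos hlamhi (by rw [← hS]; linarith)
        (by rw [← he]; linarith) (by rw [← hsg]; linarith [hA'.1, hA'.2])
        (by rw [← hmu]; linarith)
      refine ⟨c, H, q1, ?_, ?_⟩
      · intro i
        have := q2 i
        push_cast at this
        exact this
      · rw [hj, ← hκ]
        exact mul_le_mul_of_nonneg_right (by linarith) haN.le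

end Pool.Agent.Work.MP_5532fa_up
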