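import Pool.Agent.Work.MP_5532fa_up.Interface3

/-!
# MP_5532fa_co, block FWE: a star of missing pairs gives a graph of the type `WE`
-/

open Finset

namespace Pool.Agent.Work.MP_5532fa_up

open MP5532fa (specRad qf pE)

namespace FWE

variable {V : Type} [Fintype V] {r : ℕ}

theorem card_one {T : Finset V} {c : V → Fin r} {p : V} (hp : p ∈ T)
    (h : (cl T c (c p)).card = 1) : ∀ v ∈ T, c v = c p → v = p := by
  intro v hv hc
  obtain ⟨a, ha⟩ := Finset.card_eq_one.mp h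
  have h1 : v ∈ cl T c (c p) := mem_cl.mpr ⟨hv, hc⟩
  have h2 : p ∈ cl T c (c p) := mem_cl.mpr ⟨hp, rfl⟩
  rw [ha, Finset.mem_singleton] at h1 h2
  rw [h1, h2]

/-- a vertex in at least `k` missing pairs -/
theorem mis_ge (G : SimpleGraph V) (H S : Finset V) (c : V → Fin r) (p : V) (hp : p ∈ H)
    (hS : S ⊆ H) (h : ∀ v ∈ S, c p ≠ c v ∧ ¬ G.Adj p v) : S.card ≤ mis G H c := by
  classical
  unfold mis
  refine Finset.card_le_card_of_injOn (fun v => (p, v)) ?_ ?_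
  · intro v hv
    have hv' : v ∈ S := hv
    simp only [Finset.coe_filter, Set.mem_setOf_eq, Finset.mem_product]
    exact ⟨⟨hp, hS hv'⟩, h v hv'⟩
  · intro a _ b _ hab
    exact (Prod.mk.inj hab).2

end FWE

theorem blk_FWE : Stmt_FWE := by
  intro r hr V _ _ G N c H w p T hW hm hp hF
  have hpH : p ∈ H := hW.hT hp
  have hun := FWE.card_one hp (hW.hT1 (c p))
  have hwp : w ≠ p := by rintro rfl; exact hW.hw hpH
  have hindp : ∀ v ∈ H, c v = c p → ¬ G.Adj p v := by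
    intro v hv hc hadj
    rcases hW.sub p v hadj with h | h | h
    · exact h.2.2 hc.symm
    · exact hwp h.1.symm
    · exact hW.hw (h.1 ▸ hv)
  refine ⟨nb G (H.erase p) p, T.erase p, ?_, ?_, ?_, ?_, ?_, ?_, ?_, ?_, ?_, ?_, ?_, ?_⟩
  · rw [Finset.card_erase_of_mem hpH, hW.card]; rfl
  · exact Finset.notMem_erase p H
  · exact fun h => hW.hw (Finset.mem_of_mem_erase h)
  · exact hwp.symm
  · intro v hv
    exact (mem_nb.mp hv).1
  · intro v hv
    rw [Finset.mem_erase] at hv ⊢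
    exact ⟨hv.1, hW.hT hv.2⟩
  · rw [Finset.eq_empty_iff_forall_notMem]
    intro v hv
    obtain ⟨h1, h2⟩ := mem_cl.mp hv
    obtain ⟨h3, h4⟩ := mem_nb.mp h1
    exact hindp v (Finset.mem_of_mem_erase h3) h2 h4
  · rw [Finset.eq_empty_iff_forall_notMem]
    intro v hv
    obtain ⟨h1, h2⟩ := mem_cl.mp hv
    rw [Finset.mem_erase] at h1
    exact h1.1 (hun v h1.2 h2)
  · intro i hi
    by_contra hne
    rw [Finset.not_nonempty_iff_eq_empty] at hne
    have h1 := FWE.mis_ge G H (cl H c i) c p hpH (fun v hv => (mem_cl.mp hv).1) (by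
      intro v hv
      obtain ⟨hv1, hv2⟩ := mem_cl.mp hv
      have hpv : c p ≠ c v := by rw [hv2]; exact fun h => hi h.symm
      refine ⟨hpv, fun hadj => ?_⟩
      have hvp : v ≠ p := by rintro rfl; exact hpv rfl
      have : v ∈ cl (nb G (H.erase p) p) c i :=
        mem_cl.mpr ⟨mem_nb.mpr ⟨Finset.mem_erase.mpr ⟨hvp, hv1⟩, hadj⟩, hv2⟩
      rw [hne] at this
      exact absurd this (Finset.notMem_empty v))
    exact absurd h1 (not_le.mpr (hm i))
  · intro i hi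
    rw [← hW.hT1 i]
    congr 1
    ext v
    rw [mem_cl, mem_cl, Finset.mem_erase]
    constructor
    · rintro ⟨h1, h2⟩; exact ⟨h1.2, h2⟩
    · rintro ⟨h1, h2⟩
      refine ⟨⟨?_, h1⟩, h2⟩
      rintro rfl
      exact hi h2.symm
  · intro hsub
    obtain ⟨a, ha, b, hb, hab, hadj⟩ := hW.hF
    have hca : c a ≠ c b := by
      intro h
      exact hab (FWE.card_one hb (hW.hT1 (c b)) a ha h)
    rcases hF a b ⟨hW.hT ha, hW.hT hb, hca, hadj⟩ with h | h
    · subst h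
      have : b ∈ nb G (H.erase a) a := hsub (Finset.mem_erase.mpr ⟨hab.symm, hb⟩)
      exact hadj (mem_nb.mp this).2
    · subst h
      have : a ∈ nb G (H.erase b) b := hsub (Finset.mem_erase.mpr ⟨hab, ha⟩)
      exact hadj (mem_nb.mp this).2.symm
  · intro a b
    have key : ∀ a b : V, a ∈ H → b ∈ H → c a ≠ c b → ¬ G.Adj a b → a = p ∨ b = p :=
      fun a b h1 h2 h3 h4 => hF a b ⟨h1, h2, h3, h4⟩
    constructor
    · intro h
      rcases hW.sub a b h with ⟨h1, h2, h3⟩ | ⟨h1, h2⟩ | ⟨h1, h2⟩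
      · by_cases hap : a = p
        · subst hap
          have hba : b ≠ a := h.ne.symm
          exact Or.inr (Or.inl ⟨rfl, mem_nb.mpr ⟨Finset.mem_erase.mpr ⟨hba, h2⟩, h⟩⟩)
        · by_cases hbp : b = p
          · subst hbp
            exact Or.inr (Or.inr (Or.inl ⟨rfl, mem_nb.mpr
              ⟨Finset.mem_erase.mpr ⟨hap, h1⟩, h.symm⟩⟩))
          · exact Or.inl ⟨Finset.mem_erase.mpr ⟨hap, h1⟩, Finset.mem_erase.mpr ⟨hbp, h2⟩, h3⟩
      · by_cases hbp : b = p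
        · exact Or.inr (Or.inr (Or.inr (Or.inr (Or.inr (Or.inr ⟨h1, hbp⟩)))))
        · exact Or.inr (Or.inr (Or.inr (Or.inl ⟨h1, Finset.mem_erase.mpr ⟨hbp, h2⟩⟩)))
      · by_cases hap : a = p
        · exact Or.inr (Or.inr (Or.inr (Or.inr (Or.inr (Or.inl ⟨hap, h1⟩)))))
        · exact Or.inr (Or.inr (Or.inr (Or.inr (Or.inl ⟨h1, Finset.mem_erase.mpr ⟨hap, h2⟩⟩))))
    · rintro (⟨h1, h2, h3⟩ | ⟨h1, h2⟩ | ⟨h1, h2⟩ | ⟨h1, h2⟩ | ⟨h1, h2⟩ | ⟨h1, h2⟩ | ⟨h1, h2⟩)
      · rw [Finset.mem_erase] at h1 h2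
        by_contra hadj
        rcases key a b h1.2 h2.2 h3 hadj with h | h
        · exact h1.1 h
        · exact h2.1 h
      · rw [h1]; exact (mem_nb.mp h2).2
      · rw [h1]; exact (mem_nb.mp h2).2.symm
      · rw [h1]; exact hW.hwT b (Finset.mem_of_mem_erase h2)
      · rw [h1]; exact (hW.hwT a (Finset.mem_of_mem_erase h2)).symm
      · rw [h1, h2]; exact (hW.hwT p hp).symm
      · rw [h1, h2]; exact hW.hwT p hp

end Pool.Agent.Work.MP_5532fa_up
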