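import Pool.Agent.Work.MP_5532fa_up.Interface

/-!
# MP_5532fa_co, upgrade: the structure theorem from the blocks
-/

open Finset

namespace Pool.Agent.Work.MP_5532fa_up

open MP5532fa (specRad qf pE)

/-- the structure of the extremal graphs -/
def Stmt_STR : Prop := ∀ (r : ℕ) (ε : ℝ), 3 ≤ r → 0 < ε → ∃ (δ1 : ℝ) (N0 : ℕ), 0 < δ1 ∧
  ∀ N ≥ N0, ∀ j : ℕ, Rg r ε N j → ∀ (V : Type) [Fintype V] (G : SimpleGraph V),
    G.CliqueFree (r + 1) → ¬ G.Colorable r → MX r G → pE G = 2 * ((tn r N : ℝ) + j) →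
    al r * N + j ^ 2 / (al r * N ^ 2) - δ1 ≤ specRad G → TypeD r N j G ∨ TypeE r N j G

theorem pE_near {r N j : ℕ} (hTN : Stmt_TN) (hr : 3 ≤ r) {p : ℝ}
    (hp : p = 2 * ((tn r N : ℝ) + j)) : |p - al r * N ^ 2 - 2 * j| ≤ (r : ℝ) := by
  have h := (hTN r hr N).2.1
  have e : p - al r * N ^ 2 - 2 * j = 2 * (tn r N : ℝ) - al r * N ^ 2 := by rw [hp]; ring
  rw [e]; exact h

/-- balanced sizes and the number of edges -/
theorem sum_sq_bal {V : Type} [Fintype V] {r N : ℕ} (hTN : Stmt_TN) (hr : 3 ≤ r) {H : Finset V}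
    {c : V → Fin r} (hH : H.card = N) (hB : Bal H c) :
    2 * (tn r N : ℝ) + ∑ i, sz H c i ^ 2 = (N : ℝ) ^ 2 := by
  have h := (hTN r hr N).1 (fun i => (cl H c i).card) (by rw [sum_card_cl, hH]) hB
  have h2 : ((2 * tn r N + ∑ i, (cl H c i).card ^ 2 : ℕ) : ℝ) = ((N ^ 2 : ℕ) : ℝ) := by
    exact_mod_cast h
  push_cast at h2
  exact h2

theorem str (hFINA : Stmt_FINA) (hB1U : Stmt_B1U) (hB1C : Stmt_B1C) (hD1 : Stmt_D1)
    (hD2 : Stmt_D2) (hD3 : Stmt_D3) (hEB : Stmt_EB) (hE1 : Stmt_E1) (hE2 : Stmt_E2)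
    (hE3 : Stmt_E3) (hTN : Stmt_TN) (hGD : Stmt_GD) (hGE : Stmt_GE) : Stmt_STR := by
  classical
  intro r ε hr hε
  obtain ⟨dU, nU, dU0, HU⟩ := hB1U r ε hr hε
  obtain ⟨dC, nC, dC0, HC⟩ := hB1C r ε hr hε
  obtain ⟨d1, n1, d10, HD1⟩ := hD1 r ε hr hε
  obtain ⟨d2, n2, d20, HD2⟩ := hD2 r ε hr hε
  obtain ⟨d3, n3, d30, HD3⟩ := hD3 r ε hr hε
  obtain ⟨dB, nB, dB0, HEB⟩ := hEB r ε hr hε
  obtain ⟨e1, m1, e10, HE1⟩ := hE1 r ε hr hε
  obtain ⟨e2, m2, e20, HE2⟩ := hE2 r ε hr hε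
  obtain ⟨e3, m3, e30, HE3⟩ := hE3 r ε hr hε
  set δ : ℝ := min (min (min (min dU dC) (min d1 d2)) (min (min d3 dB) (min e1 e2))) e3 with hδ
  have hδ0 : 0 < δ := by
    rw [hδ]
    repeat' apply lt_min
    all_goals assumption
  have hle : δ ≤ dU ∧ δ ≤ dC ∧ δ ≤ d1 ∧ δ ≤ d2 ∧ δ ≤ d3 ∧ δ ≤ dB ∧ δ ≤ e1 ∧ δ ≤ e2 ∧ δ ≤ e3 := by
    rw [hδ]
    refine ⟨?_, ?_, ?_, ?_, ?_, ?_, ?_, ?_, ?_⟩ <;> simp [min_le_iff]
  obtain ⟨lU, lC, l1, l2, l3, lB, k1, k2, k3⟩ := hle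
  obtain ⟨δ1, nF, hδ1, HF⟩ := hFINA r ε δ hr hε hδ0
  refine ⟨δ1, nF + nU + nC + n1 + n2 + n3 + nB + m1 + m2 + m3, hδ1, ?_⟩
  intro N hN j hRg V _ G hfree hcol hMX hpE hlam
  have hV : Nonempty V := by
    by_contra h
    rw [not_nonempty_iff] at h
    exact hcol (SimpleGraph.Colorable.of_isEmpty _)
  obtain ⟨x, hx⟩ := exists_PV G
  obtain ⟨c, H, w, hFD⟩ := HF N (by omega) j hRg V G x (specRad G) hfree hx
    (pE_near hTN hr hpE) hlam
  have hFDm : ∀ d, δ ≤ d → FD r d N j G x (specRad G) c H w := by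
    intro d hd
    have hN0 : (0:ℝ) ≤ N := Nat.cast_nonneg N
    have hm : δ * N ≤ d * N := mul_le_mul_of_nonneg_right hd hN0
    exact
      { pv := hFD.pv, card := hFD.card, hw := hFD.hw, ind := hFD.ind
        mis := hFD.mis.trans hm
        bal := fun i => (hFD.bal i).trans hm
        deg := hFD.deg.trans hm
        rest := hFD.rest.trans hm
        xH := fun v hv => (hFD.xH v hv).trans hd
        xw := hFD.xw.trans hd
        xo := fun v hv hvw => (hFD.xo v hv hvw).trans hd }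
  have hNear : ∀ d, δ ≤ d → Near r d N j H (nb G H w) c := fun d hd =>
    ⟨(hFDm d hd).bal, (hFDm d hd).deg⟩
  by_cases hU : ∀ i, (cl (nb G H w) c i).Nonempty
  · left
    obtain ⟨v1, v2, hWD⟩ := HU N (by omega) j hRg V G x _ c H w (hFDm dU lU) hfree hMX hU
    have hBal := HD1 N (by omega) j hRg V G H c w _ v1 v2 hWD (hNear d1 l1) hMX
    have hPl := HD2 N (by omega) j hRg V G H c w _ v1 v2 hWD (hNear d2 l2) hBal hMX
    have hTop := HD3 N (by omega) j hRg V G H c w _ v1 v2 hWD (hNear d3 l3) hBal hPl hMX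
    refine ⟨H, c, w, nb G H w, v1, v2, hWD, ?_, hBal, hPl, hTop⟩
    have h1 := (hGD r hr V G N H c w _ v1 v2 hWD).2.2
    have h2 := sum_sq_bal hTN hr hWD.card hBal
    have h3 : ((nb G H w).card : ℝ) = ((j + 1 : ℕ) : ℝ) := by
      push_cast
      rw [hpE] at h1
      linarith
    exact_mod_cast h3
  · right
    push Not at hU
    obtain ⟨i0, hi0⟩ := hU
    obtain ⟨u, B, i1, hWE⟩ := HC N (by omega) j hRg V G x _ c H w i0 (hFDm dC lC) hfree hcol hMX hi0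
    have hOne := HEB N (by omega) j hRg V G H c w u _ B i1 hWE (hNear dB lB) hMX
    have hBal := HE1 N (by omega) j hRg V G H c w u _ B i1 hWE (hNear e1 k1) hMX
    have hPl := HE2 N (by omega) j hRg V G H c w u _ B i1 hWE (hNear e2 k2) hOne hBal hMX
    have hTop := HE3 N (by omega) j hRg V G H c w u _ B i1 hWE (hNear e3 k3) hOne hBal hPl hMX
    refine ⟨H, c, w, u, nb G H w, B, i1, hWE, hOne, ?_, hBal, hPl, hTop⟩
    have h1 := (hGE r hr V G N H c w u _ B i1 hWE).2.2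
    have h2 := sum_sq_bal hTN hr hWE.card hBal
    have h3 : (((nb G H w).card + r : ℕ) : ℝ) = (j : ℝ) := by
      push_cast
      rw [hpE] at h1
      linarith
    exact_mod_cast h3

end Pool.Agent.Work.MP_5532fa_up
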