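import Pool.Agent.Work.MP_5532fa_up.Blocks2
import Pool.Agent.Work.MP_5532fa_up.Str
import Pool.Agent.Work.MP_5532fa_up.Str2
import Pool.Agent.Work.MP_5532fa_up.Lin2
import Pool.Agent.Work.MP_5532fa_up.All
import Pool.Agent.Work.MP_5532fa_up.ISOD

/-!
# MP_5532fa_co, upgrade: the theorems without hypotheses
-/

open Finset

namespace Pool.Agent.Work.MP_5532fa_up

open MP5532fa (specRad qf pE)

theorem pLAB2 : Stmt_LAB2 := by
  intro L V V' _ _ R G G' K K' l l' h1 h2 h3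
  exact ⟨_, _, LAB.iso R G G' K K' l l' h1 h2 h3⟩

theorem pISOD2 : Stmt_ISOD2 := isod2 pLAB2 pCANP

theorem pSTR : Stmt_STR := str pFINA pB1U pB1C pD1 pD2 pD3 pEB pE1 pE2 pE3 pTN pGD pGE

theorem pSM : Stmt_SM := sm pSM0 pSM1a pSM1b pSM1c pSM2

/-- the exact theorem -/
theorem pLIN2 (r : ℕ) (ε : ℝ) (hr : 3 ≤ r) (hε : 0 < ε) : ∃ N0 : ℕ, ∀ N ≥ N0, ∀ j : ℕ,
    2 * r ≤ j + 1 → RgU r ε N j → Concl r ε N j :=
  lin2 pS1 pSM0 pFIN3 pEBU pE2U pE3U pTN pGD pGE pLOWG pEXU pLAB pCANP pISOEU pTRANS pTRANS2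
    pSTR pEXD pEXE pISOD pISOE pTHRE pTHRD r ε hr hε

/-- the maximum for all numbers of edges -/
theorem pALL (r : ℕ) (ε : ℝ) (hr : 3 ≤ r) (hε : 0 < ε) :
    ∃ m0 : ℕ, ∀ m ≥ m0, ∀ N j : ℕ, m = tn r N + j →
      m < tn r (N + 1) →
      (∀ (V : Type) [Fintype V] (G : SimpleGraph V), G.CliqueFree (r + 1) →
        pE G = 2 * (m : ℝ) → specRad G ≤ √(2 * al r * m) - sec r N j + ε) ∧
      ∃ G : SimpleGraph (Fin (N + 3)), G.CliqueFree (r + 1) ∧ ¬ G.Colorable r ∧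
        pE G = 2 * (m : ℝ) ∧ √(2 * al r * m) - sec r N j - ε ≤ specRad G :=
  main_all pUPX pLOWX pTN r ε hr hε

/-- the structure of the extremal graphs for all large numbers of edges -/
theorem pUNIV (r : ℕ) (δ : ℝ) (hr : 3 ≤ r) (hδ : 0 < δ) :
    ∃ m0 : ℕ, ∀ m ≥ m0, ∀ (V : Type) [Fintype V] (G : SimpleGraph V), G.CliqueFree (r + 1) →
      ¬ G.Colorable r → pE G = 2 * (m : ℝ) →
      (∀ (V' : Type) [Fintype V'] (G' : SimpleGraph V'), G'.CliqueFree (r + 1) →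
        ¬ G'.Colorable r → pE G' = 2 * (m : ℝ) → specRad G' ≤ specRad G) →
      ∃ (N' : ℕ) (c : V → Fin r) (H : Finset V),
        (∀ i, |sz H c i - N' / r| ≤ 2 * √(N' : ℝ)) ∧
        ((∃ (w : V) (A : Finset V) (v1 v2 : V), WD G N' H c w A v1 v2) ∨
         (∃ (w u : V) (A B : Finset V) (i0 : Fin r), WE G N' H c w u A B i0) ∨
         (∃ (w : V) (T : Finset V), WF G N' H c w T ∧ (mis G H c : ℝ) ≤ δ * N')) :=
  univ_str pSM pFIN3 pB1U2 pB1C2 pLOWX pTN r δ hr hδ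

end Pool.Agent.Work.MP_5532fa_up
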