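import Pool.Agent.Work.MP_5532fa_up.Interface3

/-!
# MP_5532fa_co, upgrade, third round: block GAPF
-/

set_option autoImplicit false

open Finset

namespace Pool.Agent.Work.MP_5532fa_up

namespace GAPF

variable {V : Type} [Fintype V]

theorem sum_pt (f : V → V → ℝ) (a b : V) :
    ∑ c, ∑ d, chi (c = a ∧ d = b) * f c d = f a b := by
  classical
  rw [Finset.sum_eq_single a]
  · rw [Finset.sum_eq_single b]
    · rw [chi_pos ⟨rfl, rfl⟩, one_mul]
    · intro d _ hd
      rw [chi_neg (fun h => hd h.2), zero_mul]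
    · intro h
      exact absurd (Finset.mem_univ _) h
  · intro c _ hc
    refine Finset.sum_eq_zero fun d _ => ?_
    rw [chi_neg (fun h => hc h.1), zero_mul]
  · intro h
    exact absurd (Finset.mem_univ _) h

theorem sum_pt1 (a b : V) : ∑ c, ∑ d, chi (c = a ∧ d = b) = 1 := by
  have h := sum_pt (fun _ _ => (1 : ℝ)) a b
  simp only [mul_one] at h
  exact h

/-- degree -/
noncomputable def dd (F : V → V → Prop) (v : V) : ℝ := ∑ b, chi (F v b)

/-- ordered pairs in `F` disjoint from `(a, b)` -/
noncomputable def NN (F : V → V → Prop) (a b : V) : ℝ :=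
  ∑ c, ∑ d, chi (F c d ∧ c ≠ a ∧ c ≠ b ∧ d ≠ a ∧ d ≠ b)

theorem NN_nonneg (F : V → V → Prop) (a b : V) : 0 ≤ NN F a b :=
  Finset.sum_nonneg fun _ _ => Finset.sum_nonneg fun _ _ => chi_nonneg _

theorem NN_ge {F : V → V → Prop} (hs : ∀ a b, F a b → F b a) {a b c d : V} (h : F c d)
    (hcd : c ≠ d) (h1 : c ≠ a) (h2 : c ≠ b) (h3 : d ≠ a) (h4 : d ≠ b) : 2 ≤ NN F a b := by
  have e : (2 : ℝ) = ∑ c', ∑ d', (chi (c' = c ∧ d' = d) + chi (c' = d ∧ d' = c)) := by
    simp only [Finset.sum_add_distrib]
    rw [sum_pt1, sum_pt1]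
    norm_num
  rw [e]
  unfold NN
  refine Finset.sum_le_sum fun c' _ => Finset.sum_le_sum fun d' _ => ?_
  by_cases e1 : c' = c ∧ d' = d
  · obtain ⟨rfl, rfl⟩ := e1
    rw [chi_pos ⟨rfl, rfl⟩, chi_neg (fun h => hcd h.1), chi_pos ⟨h, h1, h2, h3, h4⟩, add_zero]
  · by_cases e2 : c' = d ∧ d' = c
    · obtain ⟨rfl, rfl⟩ := e2
      rw [chi_neg (fun h => hcd h.2), chi_pos ⟨rfl, rfl⟩, chi_pos ⟨hs _ _ h, h3, h4, h1, h2⟩,
        zero_add]
    · rw [chi_neg e1, chi_neg e2, add_zero]
      exact chi_nonneg _

theorem sum_fst (F : V → V → Prop) (a : V) : ∑ c, ∑ d, chi (F c d) * chi (c = a) = dd F a := by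
  rw [Finset.sum_eq_single a]
  · unfold dd
    refine Finset.sum_congr rfl fun d _ => ?_
    rw [chi_pos rfl, mul_one]
  · intro c _ hc
    refine Finset.sum_eq_zero fun d _ => ?_
    rw [chi_neg hc, mul_zero]
  · intro h
    exact absurd (Finset.mem_univ _) h

theorem sum_snd {F : V → V → Prop} (hs : ∀ a b, F a b → F b a) (a : V) :
    ∑ c, ∑ d, chi (F c d) * chi (d = a) = dd F a := by
  rw [Finset.sum_comm, ← sum_fst F a]
  refine Finset.sum_congr rfl fun c _ => Finset.sum_congr rfl fun d _ => ?_
  rw [chi_congr (show F d c ↔ F c d from ⟨hs _ _, hs _ _⟩)]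

theorem NN_eq {F : V → V → Prop} (hs : ∀ a b, F a b → F b a) (hi : ∀ a, ¬ F a a) {a b : V}
    (h : F a b) : NN F a b = (∑ c, ∑ d, chi (F c d)) + 2 - 2 * dd F a - 2 * dd F b := by
  have hab : a ≠ b := by
    rintro rfl
    exact hi a h
  have key : ∀ c d, chi (F c d) + chi (c = a ∧ d = b) + chi (c = b ∧ d = a) =
      chi (F c d ∧ c ≠ a ∧ c ≠ b ∧ d ≠ a ∧ d ≠ b) + chi (F c d) * chi (c = a) +
        chi (F c d) * chi (c = b) + chi (F c d) * chi (d = a) + chi (F c d) * chi (d = b) := by
    intro c d
    by_cases hF : F c d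
    · have hcd : c ≠ d := by
        rintro rfl
        exact hi c hF
      by_cases e1 : c = a
      · subst e1
        by_cases e2 : d = b
        · subst e2
          simp [chi, hF, hab, hab.symm]
        · simp [chi, hF, hab, e2, hcd.symm]
      · by_cases e2 : c = b
        · subst e2
          by_cases e3 : d = a
          · subst e3
            simp [chi, hF, hcd, hcd.symm]
          · simp [chi, hF, e1, e3, hcd.symm]
        · by_cases e3 : d = a
          · subst e3
            simp [chi, hF, e1, e2, hab]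
          · by_cases e4 : d = b
            · subst e4
              simp [chi, hF, e1, e2, e3]
            · simp [chi, hF, e1, e2, e3, e4]
    · have h1 : ¬ (c = a ∧ d = b) := by
        rintro ⟨rfl, rfl⟩
        exact hF h
      have h2 : ¬ (c = b ∧ d = a) := by
        rintro ⟨rfl, rfl⟩
        exact hF (hs _ _ h)
      rw [chi_neg hF, chi_neg h1, chi_neg h2, chi_neg (fun h => hF h.1)]
      ring
  have hsum : ∑ c, ∑ d, (chi (F c d) + chi (c = a ∧ d = b) + chi (c = b ∧ d = a)) =
      ∑ c, ∑ d, (chi (F c d ∧ c ≠ a ∧ c ≠ b ∧ d ≠ a ∧ d ≠ b) + chi (F c d) * chi (c = a) +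
        chi (F c d) * chi (c = b) + chi (F c d) * chi (d = a) + chi (F c d) * chi (d = b)) :=
    Finset.sum_congr rfl fun c _ => Finset.sum_congr rfl fun d _ => key c d
  simp only [Finset.sum_add_distrib] at hsum
  rw [sum_pt1, sum_pt1, sum_fst, sum_fst, sum_snd hs, sum_snd hs] at hsum
  unfold NN
  linarith

theorem sum_NN {F : V → V → Prop} (hs : ∀ a b, F a b → F b a) (hi : ∀ a, ¬ F a a) :
    ∑ a, ∑ b, chi (F a b) * NN F a b = (∑ c, ∑ d, chi (F c d)) ^ 2 +
      2 * (∑ c, ∑ d, chi (F c d)) - 4 * ∑ v, dd F v ^ 2 := by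
  obtain ⟨s, hS⟩ : ∃ s : ℝ, s = ∑ c, ∑ d, chi (F c d) := ⟨_, rfl⟩
  have h1 : ∀ a b, chi (F a b) * NN F a b =
      chi (F a b) * (s + 2) - 2 * (chi (F a b) * dd F a) - 2 * (chi (F a b) * dd F b) := by
    intro a b
    by_cases h : F a b
    · rw [NN_eq hs hi h, ← hS]
      ring
    · rw [chi_neg h]
      ring
  have h2 : ∑ a, ∑ b, chi (F a b) * dd F a = ∑ v, dd F v ^ 2 := by
    refine Finset.sum_congr rfl fun a _ => ?_
    rw [← Finset.sum_mul]
    unfold dd
    ring
  have h2' : ∑ a, (∑ b, chi (F a b)) * dd F a = ∑ v, dd F v ^ 2 := by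
    refine Finset.sum_congr rfl fun a _ => ?_
    unfold dd
    ring
  have h3 : ∑ a, ∑ b, chi (F a b) * dd F b = ∑ v, dd F v ^ 2 := by
    rw [Finset.sum_comm, ← h2]
    refine Finset.sum_congr rfl fun c _ => Finset.sum_congr rfl fun d _ => ?_
    rw [chi_congr (show F d c ↔ F c d from ⟨hs _ _, hs _ _⟩)]
  simp only [h1, Finset.sum_sub_distrib, ← Finset.mul_sum, ← Finset.sum_mul]
  rw [h2', h3, ← hS]
  ring

/-- the number of ordered pairs of different elements of a set with four elements -/
theorem sum_Q (p q s t : V) (hpq : p ≠ q) (hps : p ≠ s) (hpt : p ≠ t) (hqs : q ≠ s)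
    (hqt : q ≠ t) (hst : s ≠ t) : ∑ a, ∑ b, chi ((a = p ∨ a = q ∨ a = s ∨ a = t) ∧
      (b = p ∨ b = q ∨ b = s ∨ b = t) ∧ a ≠ b) = 12 := by
  classical
  have h1 : ∑ a, ∑ b, chi ((a = p ∨ a = q ∨ a = s ∨ a = t) ∧
      (b = p ∨ b = q ∨ b = s ∨ b = t) ∧ a ≠ b) =
      ((({p, q, s, t} : Finset V).offDiag).card : ℝ) := by
    rw [← Finset.sum_product', Finset.univ_product_univ, Finset.card_eq_sum_ones,
      Nat.cast_sum]
    simp only [Nat.cast_one]
    rw [← Finset.sum_filter_add_sum_filter_not univ (fun e : V × V => e ∈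
      ({p, q, s, t} : Finset V).offDiag)]
    have h2 : ∑ e ∈ univ.filter (fun e : V × V => ¬ e ∈ ({p, q, s, t} : Finset V).offDiag),
        chi ((e.1 = p ∨ e.1 = q ∨ e.1 = s ∨ e.1 = t) ∧
      (e.2 = p ∨ e.2 = q ∨ e.2 = s ∨ e.2 = t) ∧ e.1 ≠ e.2) = 0 := by
      refine Finset.sum_eq_zero fun e he => ?_
      rw [Finset.mem_filter] at he
      refine chi_neg fun h => he.2 ?_
      rw [Finset.mem_offDiag]
      simp only [Finset.mem_insert, Finset.mem_singleton]
      exact h
    rw [h2, add_zero]
    have h3 : univ.filter (fun e : V × V => e ∈ ({p, q, s, t} : Finset V).offDiag) =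
        ({p, q, s, t} : Finset V).offDiag := by
      ext e
      simp
    rw [h3]
    refine Finset.sum_congr rfl fun e he => ?_
    rw [Finset.mem_offDiag] at he
    simp only [Finset.mem_insert, Finset.mem_singleton] at he
    exact chi_pos he
  have h4 : ({p, q, s, t} : Finset V).card = 4 := by
    rw [Finset.card_insert_of_notMem, Finset.card_insert_of_notMem,
      Finset.card_insert_of_notMem, Finset.card_singleton]
    · simp [hst]
    · simp [hqs, hqt]
    · simp [hpq, hps, hpt]
  rw [h1, Finset.offDiag_card, h4]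
  norm_num

omit [Fintype V] in
theorem four (p q s t a b : V) (hpq : p ≠ q) (hps : p ≠ s) (hpt : p ≠ t) (hqs : q ≠ s)
    (hqt : q ≠ t) (hst : s ≠ t) : chi (a = p ∧ b = q) + chi (a = q ∧ b = p) +
      chi (a = s ∧ b = t) + chi (a = t ∧ b = s) ≤ 1 := by
  by_cases e2 : a = p
  · subst e2
    rw [chi_neg (fun h : a = q ∧ b = a => hpq h.1), chi_neg (fun h : a = s ∧ b = t => hps h.1),
      chi_neg (fun h : a = t ∧ b = s => hpt h.1)]
    have := chi_le_one (a = a ∧ b = q)
    linarith
  · by_cases e3 : a = q
    · subst e3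
      rw [chi_neg (fun h : a = p ∧ b = a => e2 h.1), chi_neg (fun h : a = s ∧ b = t => hqs h.1),
        chi_neg (fun h : a = t ∧ b = s => hqt h.1)]
      have := chi_le_one (a = a ∧ b = p)
      linarith
    · by_cases e4 : a = s
      · subst e4
        rw [chi_neg (fun h : a = p ∧ b = q => e2 h.1), chi_neg (fun h : a = q ∧ b = p => e3 h.1),
          chi_neg (fun h : a = t ∧ b = a => hst h.1)]
        have := chi_le_one (a = a ∧ b = t)
        linarith
      · rw [chi_neg (fun h : a = p ∧ b = q => e2 h.1), chi_neg (fun h : a = q ∧ b = p => e3 h.1),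
          chi_neg (fun h : a = s ∧ b = t => e4 h.1)]
        have := chi_le_one (a = t ∧ b = s)
        linarith

/-- two disjoint edges -/
theorem two {F : V → V → Prop} (hs : ∀ a b, F a b → F b a) (hi : ∀ a, ¬ F a a) {p q s t : V}
    (h1 : F p q) (h2 : F s t) (hps : p ≠ s) (hpt : p ≠ t) (hqs : q ≠ s) (hqt : q ≠ t) :
    12 * ∑ v, dd F v ^ 2 ≤ 3 * (∑ c, ∑ d, chi (F c d)) ^ 2 + 4 * ∑ c, ∑ d, chi (F c d) := by
  have hpq : p ≠ q := by
    rintro rfl
    exact hi _ h1
  have hst : s ≠ t := by
    rintro rfl
    exact hi _ h2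
  obtain ⟨S, hS⟩ : ∃ s : ℝ, s = ∑ c, ∑ d, chi (F c d) := ⟨_, rfl⟩
  have hQ := sum_Q p q s t hpq hps hpt hqs hqt hst
  have hsum := sum_NN hs hi
  rw [← hS] at hsum ⊢
  have hN1 : 2 ≤ NN F p q := NN_ge hs h2 hst hps.symm hqs.symm hpt.symm hqt.symm
  have hN2 : 2 ≤ NN F s t := NN_ge hs h1 hpq hps hpt hqs hqt
  have hN1' : NN F q p = NN F p q := by
    rw [NN_eq hs hi h1, NN_eq hs hi (hs _ _ h1)]
    ring
  have hN2' : NN F t s = NN F s t := by
    rw [NN_eq hs hi h2, NN_eq hs hi (hs _ _ h2)]
    ring
  -- degrees of the four vertices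
  have hdeg : 2 * (dd F p + dd F q + dd F s + dd F t) ≤ S + 12 := by
    have e : 2 * (dd F p + dd F q + dd F s + dd F t) = ∑ a, ∑ b,
        (chi (F a b) * chi (a = p) + chi (F a b) * chi (a = q) + chi (F a b) * chi (a = s) +
          chi (F a b) * chi (a = t) + chi (F a b) * chi (b = p) + chi (F a b) * chi (b = q) +
          chi (F a b) * chi (b = s) + chi (F a b) * chi (b = t)) := by
      simp only [Finset.sum_add_distrib]
      rw [sum_fst, sum_fst, sum_fst, sum_fst, sum_snd hs, sum_snd hs, sum_snd hs, sum_snd hs]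
      ring
    have e' : S + 12 = ∑ a, ∑ b, (chi (F a b) + chi ((a = p ∨ a = q ∨ a = s ∨ a = t) ∧
      (b = p ∨ b = q ∨ b = s ∨ b = t) ∧ a ≠ b)) := by
      simp only [Finset.sum_add_distrib]
      rw [hQ, hS]
    rw [e, e']
    refine Finset.sum_le_sum fun a _ => Finset.sum_le_sum fun b _ => ?_
    have one : ∀ a : V, chi (a = p) + chi (a = q) + chi (a = s) + chi (a = t) =
        chi (a = p ∨ a = q ∨ a = s ∨ a = t) := by
      intro a
      by_cases e1 : a = p
      · subst e1; simp [chi, hpq, hps, hpt]
      · by_cases e2 : a = q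
        · subst e2; simp [chi, hpq.symm, hqs, hqt]
        · by_cases e3 : a = s
          · subst e3; simp [chi, hps.symm, hqs.symm, hst]
          · by_cases e4 : a = t
            · subst e4; simp [chi, hpt.symm, hqt.symm, hst.symm]
            · simp [chi, e1, e2, e3, e4]
    have h3 : chi (F a b) * chi (a = p) + chi (F a b) * chi (a = q) + chi (F a b) * chi (a = s) +
          chi (F a b) * chi (a = t) + chi (F a b) * chi (b = p) + chi (F a b) * chi (b = q) +
          chi (F a b) * chi (b = s) + chi (F a b) * chi (b = t) = chi (F a b) *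
        (chi (a = p ∨ a = q ∨ a = s ∨ a = t) + chi (b = p ∨ b = q ∨ b = s ∨ b = t)) := by
      rw [← one a, ← one b]
      ring
    rw [h3]
    by_cases hF : F a b
    · have hab : a ≠ b := by
        rintro rfl
        exact hi _ hF
      by_cases e1 : (a = p ∨ a = q ∨ a = s ∨ a = t)
      · by_cases e2 : (b = p ∨ b = q ∨ b = s ∨ b = t)
        · rw [chi_pos hF, chi_pos e1, chi_pos e2, chi_pos ⟨e1, e2, hab⟩]
          norm_num
        · rw [chi_pos hF, chi_pos e1, chi_neg e2, chi_neg (fun h => e2 h.2.1)]
          norm_num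
      · rw [chi_pos hF, chi_neg e1, chi_neg (fun h : (a = p ∨ a = q ∨ a = s ∨ a = t) ∧
          (b = p ∨ b = q ∨ b = s ∨ b = t) ∧ a ≠ b => e1 h.1)]
        have := chi_le_one (b = p ∨ b = q ∨ b = s ∨ b = t)
        linarith
    · rw [chi_neg hF]
      have := chi_nonneg ((a = p ∨ a = q ∨ a = s ∨ a = t) ∧
        (b = p ∨ b = q ∨ b = s ∨ b = t) ∧ a ≠ b)
      linarith
  -- lower bound
  have hlow : 2 * S - 24 + (2 * NN F p q + 2 * NN F s t) ≤ ∑ a, ∑ b, chi (F a b) * NN F a b := by
    have e : 2 * S - 24 + (2 * NN F p q + 2 * NN F s t) = ∑ a, ∑ b,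
        (2 * chi (F a b) - 2 * chi ((a = p ∨ a = q ∨ a = s ∨ a = t) ∧
          (b = p ∨ b = q ∨ b = s ∨ b = t) ∧ a ≠ b) +
          (chi (a = p ∧ b = q) * NN F a b + chi (a = q ∧ b = p) * NN F a b +
            chi (a = s ∧ b = t) * NN F a b + chi (a = t ∧ b = s) * NN F a b)) := by
      simp only [Finset.sum_add_distrib, Finset.sum_sub_distrib, ← Finset.mul_sum]
      rw [sum_pt, sum_pt, sum_pt, sum_pt, hQ, hN1', hN2', ← hS]
      ring
    rw [e]
    refine Finset.sum_le_sum fun a _ => Finset.sum_le_sum fun b _ => ?_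
    have hnn := NN_nonneg F a b
    by_cases hF : F a b
    · have hab : a ≠ b := by
        rintro rfl
        exact hi _ hF
      by_cases e1 : (a = p ∨ a = q ∨ a = s ∨ a = t) ∧ (b = p ∨ b = q ∨ b = s ∨ b = t)
      · rw [chi_pos hF, chi_pos ⟨e1.1, e1.2, hab⟩]
        have h5 : chi (a = p ∧ b = q) + chi (a = q ∧ b = p) + chi (a = s ∧ b = t) +
            chi (a = t ∧ b = s) ≤ 1 := by
          exact four p q s t a b hpq hps hpt hqs hqt hst
        nlinarith
      · have e2 : ¬ ((a = p ∨ a = q ∨ a = s ∨ a = t) ∧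
          (b = p ∨ b = q ∨ b = s ∨ b = t) ∧ a ≠ b) := fun h => e1 ⟨h.1, h.2.1⟩
        rw [chi_pos hF, chi_neg e2, chi_neg (fun h : a = p ∧ b = q => e1 ⟨Or.inl h.1,
          Or.inr (Or.inl h.2)⟩), chi_neg (fun h : a = q ∧ b = p => e1 ⟨Or.inr (Or.inl h.1),
          Or.inl h.2⟩), chi_neg (fun h : a = s ∧ b = t => e1 ⟨Or.inr (Or.inr (Or.inl h.1)),
          Or.inr (Or.inr (Or.inr h.2))⟩), chi_neg (fun h : a = t ∧ b = s =>
          e1 ⟨Or.inr (Or.inr (Or.inr h.1)), Or.inr (Or.inr (Or.inl h.2))⟩)]
        have h6 : 2 ≤ NN F a b := by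
          by_cases e3 : p = a ∨ p = b ∨ q = a ∨ q = b
          · apply NN_ge hs h2 hst
            · rintro rfl
              exact e1 ⟨by tauto, by
                rcases e3 with e | e | e | e
                · exact absurd e hps
                · exact Or.inl e.symm
                · exact absurd e hqs
                · exact Or.inr (Or.inl e.symm)⟩
            · rintro rfl
              exact e1 ⟨by
                rcases e3 with e | e | e | e
                · exact Or.inl e.symm
                · exact absurd e hps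
                · exact Or.inr (Or.inl e.symm)
                · exact absurd e hqs, by tauto⟩
            · rintro rfl
              exact e1 ⟨by tauto, by
                rcases e3 with e | e | e | e
                · exact absurd e hpt
                · exact Or.inl e.symm
                · exact absurd e hqt
                · exact Or.inr (Or.inl e.symm)⟩
            · rintro rfl
              exact e1 ⟨by
                rcases e3 with e | e | e | e
                · exact Or.inl e.symm
                · exact absurd e hpt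
                · exact Or.inr (Or.inl e.symm)
                · exact absurd e hqt, by tauto⟩
          · exact NN_ge hs h1 hpq (fun h => e3 (Or.inl h)) (fun h => e3 (Or.inr (Or.inl h)))
              (fun h => e3 (Or.inr (Or.inr (Or.inl h))))
              (fun h => e3 (Or.inr (Or.inr (Or.inr h))))
        linarith
    · have h3 : ¬ (a = p ∧ b = q) := by
        rintro ⟨rfl, rfl⟩
        exact hF h1
      have h4 : ¬ (a = q ∧ b = p) := by
        rintro ⟨rfl, rfl⟩
        exact hF (hs _ _ h1)
      have h5 : ¬ (a = s ∧ b = t) := by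
        rintro ⟨rfl, rfl⟩
        exact hF h2
      have h6 : ¬ (a = t ∧ b = s) := by
        rintro ⟨rfl, rfl⟩
        exact hF (hs _ _ h2)
      rw [chi_neg hF, chi_neg h3, chi_neg h4, chi_neg h5, chi_neg h6]
      have := chi_nonneg ((a = p ∨ a = q ∨ a = s ∨ a = t) ∧
        (b = p ∨ b = q ∨ b = s ∨ b = t) ∧ a ≠ b)
      linarith
  have hNN : NN F p q + NN F s t = 2 * S + 4 - 2 * (dd F p + dd F q + dd F s + dd F t) := by
    rw [NN_eq hs hi h1, NN_eq hs hi h2, ← hS]
    ring
  have hlow2 : 2 * NN F p q + 2 * NN F s t ≤ ∑ a, ∑ b, chi (F a b) * NN F a b := by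
    have e : 2 * NN F p q + 2 * NN F s t = ∑ a, ∑ b,
          (chi (a = p ∧ b = q) * NN F a b + chi (a = q ∧ b = p) * NN F a b +
            chi (a = s ∧ b = t) * NN F a b + chi (a = t ∧ b = s) * NN F a b) := by
      simp only [Finset.sum_add_distrib]
      rw [sum_pt, sum_pt, sum_pt, sum_pt, hN1', hN2']
      ring
    rw [e]
    refine Finset.sum_le_sum fun a _ => Finset.sum_le_sum fun b _ => ?_
    have hnn := NN_nonneg F a b
    have h5 : chi (a = p ∧ b = q) + chi (a = q ∧ b = p) + chi (a = s ∧ b = t) +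
        chi (a = t ∧ b = s) ≤ chi (F a b) := by
      by_cases hF : F a b
      · rw [chi_pos hF]
        exact four p q s t a b hpq hps hpt hqs hqt hst
      · have h3 : ¬ (a = p ∧ b = q) := by
          rintro ⟨rfl, rfl⟩
          exact hF h1
        have h4 : ¬ (a = q ∧ b = p) := by
          rintro ⟨rfl, rfl⟩
          exact hF (hs _ _ h1)
        have h5 : ¬ (a = s ∧ b = t) := by
          rintro ⟨rfl, rfl⟩
          exact hF h2
        have h6 : ¬ (a = t ∧ b = s) := by
          rintro ⟨rfl, rfl⟩
          exact hF (hs _ _ h2)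
        rw [chi_neg hF, chi_neg h3, chi_neg h4, chi_neg h5, chi_neg h6]
        norm_num
    have := mul_le_mul_of_nonneg_right h5 hnn
    linarith
  rcases le_total S 12 with h12 | h12
  · linarith
  · linarith

end GAPF

open GAPF in
theorem blk_GAPF : Stmt_GAPF := by
  intro V _ _ F hs hi
  by_cases hd : ∃ p q s t, F p q ∧ F s t ∧ p ≠ s ∧ p ≠ t ∧ q ≠ s ∧ q ≠ t
  · obtain ⟨p, q, s, t, h1, h2, h3, h4, h5, h6⟩ := hd
    exact Or.inr (Or.inl (two hs hi h1 h2 h3 h4 h5 h6))
  · have hmeet : ∀ p q s t, F p q → F s t → p = s ∨ p = t ∨ q = s ∨ q = t := by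
      intro p q s t h1 h2
      by_contra h3
      push Not at h3
      exact hd ⟨p, q, s, t, h1, h2, h3.1, h3.2.1, h3.2.2.1, h3.2.2.2⟩
    by_cases hstar : ∃ p, ∀ a b, F a b → a = p ∨ b = p
    · exact Or.inl hstar
    · right; right
      push Not at hstar
      -- an edge
      obtain ⟨p, q, hpq, -⟩ := hstar (Classical.arbitrary V)
      have hne : p ≠ q := by
        rintro rfl
        exact hi _ hpq
      -- an edge without `p`
      obtain ⟨a, b, hab, ha, hb⟩ := hstar p
      obtain ⟨t, hqt, htp⟩ : ∃ t, F q t ∧ t ≠ p := by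
        rcases hmeet p q a b hpq hab with h | h | h | h
        · exact absurd h.symm ha
        · exact absurd h.symm hb
        · subst h
          exact ⟨b, hab, hb⟩
        · subst h
          exact ⟨a, hs _ _ hab, ha⟩
      have hqt' : q ≠ t := by
        rintro rfl
        exact hi _ hqt
      -- an edge without `q`
      obtain ⟨a', b', hab', ha', hb'⟩ := hstar q
      have hpt : F p t := by
        rcases hmeet p q a' b' hpq hab' with h | h | h | h
        · subst h
          rcases hmeet q t p b' hqt hab' with h | h | h | h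
          · exact absurd h.symm hne
          · exact absurd h.symm hb'
          · exact absurd h htp
          · subst h
            exact hab'
        · subst h
          rcases hmeet q t a' p hqt hab' with h | h | h | h
          · exact absurd h.symm ha'
          · exact absurd h.symm hne
          · subst h
            exact hs _ _ hab'
          · exact absurd h htp
        · exact absurd h.symm ha'
        · exact absurd h.symm hb'
      refine ⟨p, q, t, hne, htp.symm, hqt', fun x y => ?_⟩
      constructor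
      · intro hxy
        refine ⟨by rintro rfl; exact hi _ hxy, ?_, ?_⟩
        · rcases hmeet p q x y hpq hxy with h | h | h | h
          · exact Or.inl h.symm
          · subst h
            rcases hmeet q t x p hqt hxy with h | h | h | h
            · exact Or.inr (Or.inl h.symm)
            · exact absurd h.symm hne
            · exact Or.inr (Or.inr h.symm)
            · exact absurd h htp
          · exact Or.inr (Or.inl h.symm)
          · subst h
            rcases hmeet p t x q hpt hxy with h | h | h | h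
            · exact Or.inl h.symm
            · exact absurd h hne
            · exact Or.inr (Or.inr h.symm)
            · exact absurd h.symm hqt'
        · rcases hmeet p q x y hpq hxy with h | h | h | h
          · subst h
            rcases hmeet q t p y hqt hxy with h | h | h | h
            · exact absurd h.symm hne
            · exact Or.inr (Or.inl h.symm)
            · exact absurd h htp
            · exact Or.inr (Or.inr h.symm)
          · exact Or.inl h.symm
          · subst h
            rcases hmeet p t q y hpt hxy with h | h | h | h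
            · exact absurd h hne
            · exact Or.inl h.symm
            · exact absurd h.symm hqt'
            · exact Or.inr (Or.inr h.symm)
          · exact Or.inr (Or.inl h.symm)
      · rintro ⟨hxy, h1, h2⟩
        rcases h1 with rfl | rfl | rfl <;> rcases h2 with rfl | rfl | rfl
        · exact absurd rfl hxy
        · exact hpq
        · exact hpt
        · exact hs _ _ hpq
        · exact absurd rfl hxy
        · exact hqt
        · exact hs _ _ hpt
        · exact hs _ _ hqt
        · exact absurd rfl hxy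

end Pool.Agent.Work.MP_5532fa_up
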