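import Pool.Agent.Work.MP_5532fa_up.Interface3
import Pool.Agent.Work.MP_5532fa_up.EDG

/-!
# MP_5532fa_co, upgrade, third round: block STA (second order comparison)
-/

set_option autoImplicit false

open Finset

namespace Pool.Agent.Work.MP_5532fa_up

open MP5532fa (specRad qf pE)

namespace STA

variable {V : Type} [Fintype V]

/-- the Rayleigh quotient at `x + ξ / lam` -/
theorem ray [Nonempty V] (G' : SimpleGraph V) (x ξ : V → ℝ) (lam : ℝ) (hl : 0 < lam)
    (hs : specRad G' ≤ lam) (hx : ∀ v, ∑ b, ad G' v b * x b = lam * x v + ξ v) :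
    ∑ v, x v * ξ v + (∑ v, ξ v ^ 2) / lam - (∑ v, |ξ v|) ^ 2 / lam ^ 2 ≤ 0 := by
  have h := rayleigh G' (fun v => x v + ξ v / lam)
  have h2 : specRad G' * ∑ v, (x v + ξ v / lam) ^ 2 ≤ lam * ∑ v, (x v + ξ v / lam) ^ 2 :=
    mul_le_mul_of_nonneg_right hs (Finset.sum_nonneg fun v _ => sq_nonneg _)
  have e1 : ∑ u, ∑ v, ad G' u v * ((x u + ξ u / lam) * (x v + ξ v / lam)) =
      ∑ u, x u * (lam * x u + ξ u) + ∑ u, ξ u / lam * (lam * x u + ξ u) +
      ∑ u, ξ u / lam * (lam * x u + ξ u) + (∑ u, ∑ v, ad G' u v * (ξ u * ξ v)) / lam ^ 2 := by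
    have a1 : ∑ u, x u * (lam * x u + ξ u) = ∑ u, ∑ v, x u * (ad G' u v * x v) :=
      Finset.sum_congr rfl fun u _ => by rw [← hx u, Finset.mul_sum]
    have a2 : ∑ u, ξ u / lam * (lam * x u + ξ u) = ∑ u, ∑ v, ξ u / lam * (ad G' u v * x v) :=
      Finset.sum_congr rfl fun u _ => by rw [← hx u, Finset.mul_sum]
    have a3 : ∑ u, ξ u / lam * (lam * x u + ξ u) = ∑ u, ∑ v, ξ v / lam * (ad G' v u * x u) := by
      rw [a2, Finset.sum_comm]
    have a4 : (∑ u, ∑ v, ad G' u v * (ξ u * ξ v)) / lam ^ 2 =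
        ∑ u, ∑ v, ad G' u v * (ξ u * ξ v) / lam ^ 2 := by
      rw [Finset.sum_div]
      exact Finset.sum_congr rfl fun u _ => by rw [Finset.sum_div]
    have a5 : ∑ u, ξ u / lam * (lam * x u + ξ u) + ∑ u, ξ u / lam * (lam * x u + ξ u) =
        ∑ u, ∑ v, ξ u / lam * (ad G' u v * x v) + ∑ u, ∑ v, ξ v / lam * (ad G' v u * x u) := by
      rw [← a3, ← a2]
    rw [add_assoc (∑ u, x u * (lam * x u + ξ u)), a5, a1, a4, ← Finset.sum_add_distrib,
      ← Finset.sum_add_distrib, ← Finset.sum_add_distrib]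
    refine Finset.sum_congr rfl fun u _ => ?_
    rw [← Finset.sum_add_distrib, ← Finset.sum_add_distrib, ← Finset.sum_add_distrib]
    refine Finset.sum_congr rfl fun v _ => ?_
    rw [ad_comm G' v u]
    field_simp
    ring
  have hQ : -(∑ v, |ξ v|) ^ 2 ≤ ∑ u, ∑ v, ad G' u v * (ξ u * ξ v) := by
    have e2 : (∑ v, |ξ v|) ^ 2 = ∑ u, ∑ v, |ξ u| * |ξ v| := by
      rw [sq, Finset.sum_mul_sum]
    rw [e2, ← Finset.sum_neg_distrib]
    refine Finset.sum_le_sum fun u _ => ?_
    rw [← Finset.sum_neg_distrib]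
    refine Finset.sum_le_sum fun v _ => ?_
    have h3 : |ad G' u v * (ξ u * ξ v)| ≤ |ξ u| * |ξ v| := by
      rw [abs_mul, abs_mul]
      have h4 : |ad G' u v| ≤ 1 := by
        unfold ad
        rw [abs_of_nonneg (chi_nonneg _)]
        exact chi_le_one _
      exact mul_le_of_le_one_left (by positivity) h4
    exact (abs_le.mp h3).1
  have hQ' : -((∑ v, |ξ v|) ^ 2 / lam ^ 2) ≤
      (∑ u, ∑ v, ad G' u v * (ξ u * ξ v)) / lam ^ 2 := by
    rw [← neg_div]
    exact div_le_div_of_nonneg_right hQ (by positivity)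
  have e3 : lam * ∑ v, (x v + ξ v / lam) ^ 2 + (∑ v, x v * ξ v + (∑ v, ξ v ^ 2) / lam) =
      ∑ u, x u * (lam * x u + ξ u) + ∑ u, ξ u / lam * (lam * x u + ξ u) +
      ∑ u, ξ u / lam * (lam * x u + ξ u) := by
    rw [Finset.mul_sum, Finset.sum_div, ← Finset.sum_add_distrib, ← Finset.sum_add_distrib,
      ← Finset.sum_add_distrib, ← Finset.sum_add_distrib]
    refine Finset.sum_congr rfl fun v _ => ?_
    field_simp
  rw [e1] at h
  linarith

theorem sum_le_bound {f : V → V → ℝ} {g : V → ℝ} {m S : ℝ} (f0 : ∀ a b, 0 ≤ f a b)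
    (hS : ∑ a, ∑ b, f a b = S) (hg : ∀ v, g v ≤ m) : ∑ v, ∑ b, f v b * g b ≤ m * S := by
  rw [← hS, Finset.mul_sum]
  refine Finset.sum_le_sum fun v _ => ?_
  rw [Finset.mul_sum]
  refine Finset.sum_le_sum fun b _ => ?_
  rw [mul_comm]
  exact mul_le_mul_of_nonneg_right (hg b) (f0 v b)

theorem row_le {f : V → V → ℝ} {S : ℝ} (f0 : ∀ a b, 0 ≤ f a b)
    (hS : ∑ a, ∑ b, f a b = S) (v : V) : ∑ b, f v b ≤ S := by
  rw [← hS]
  exact Finset.single_le_sum (f := fun v => ∑ b, f v b)
    (fun v _ => Finset.sum_nonneg fun b _ => f0 v b) (Finset.mem_univ v)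

/-- symmetrisation -/
theorem sym_sum {f : V → V → ℝ} (fs : ∀ a b, f a b = f b a) (g h : V → ℝ) :
    ∑ a, ∑ b, f a b * (g a * h b + g b * h a) = 2 * ∑ v, h v * ∑ b, f v b * g b := by
  have h1 : ∑ a, ∑ b, f a b * (g b * h a) = ∑ v, h v * ∑ b, f v b * g b := by
    refine Finset.sum_congr rfl fun v _ => ?_
    rw [Finset.mul_sum]
    exact Finset.sum_congr rfl fun b _ => by ring
  have h2 : ∑ a, ∑ b, f a b * (g a * h b) = ∑ v, h v * ∑ b, f v b * g b := by
    rw [Finset.sum_comm, ← h1]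
    refine Finset.sum_congr rfl fun a _ => Finset.sum_congr rfl fun b _ => ?_
    rw [fs b a]
  have h3 : ∑ a, ∑ b, f a b * (g a * h b + g b * h a) =
      ∑ a, ∑ b, f a b * (g a * h b) + ∑ a, ∑ b, f a b * (g b * h a) := by
    rw [← Finset.sum_add_distrib]
    refine Finset.sum_congr rfl fun a _ => ?_
    rw [← Finset.sum_add_distrib]
    exact Finset.sum_congr rfl fun b _ => by ring
  rw [h3, h1, h2]
  ring

theorem alg {f f' : V → V → ℝ} {H : Finset V} {x β τ : V → ℝ} {lam S xb N R : ℝ}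
    (hlam : N / 2 ≤ lam) (hN : 1 ≤ N) (hS : 1 ≤ S) (hxb : 0 < xb) (hR : 0 ≤ R)
    (f0 : ∀ a b, 0 ≤ f a b) (fs : ∀ a b, f a b = f b a)
    (fH : ∀ a b, a ∉ H → f a b = 0) (fS : ∑ a, ∑ b, f a b = S)
    (f0' : ∀ a b, 0 ≤ f' a b) (f1' : ∀ a b, f' a b ≤ 1) (fs' : ∀ a b, f' a b = f' b a)
    (fH' : ∀ a b, a ∉ H → f' a b = 0) (fS' : ∑ a, ∑ b, f' a b = S)
    (x0 : ∀ v, 0 ≤ x v) (x1 : ∀ v, x v ≤ 11 / 10 * xb)
    (β0 : ∀ v, 0 ≤ β v) (β1 : ∀ v, β v ≤ 11 / 5 * xb)
    (τ0 : ∀ v, 0 ≤ τ v) (τ1 : ∀ v, τ v ≤ R * xb / N) (τ2 : ∀ v, τ v ≤ xb / 10)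
    (hx : ∀ v ∈ H, lam * x v = lam * β v - ∑ b, f v b * x b + τ v)
    (key : ∑ v, x v * (∑ b, (f v b - f' v b) * x b) +
      (∑ v, (∑ b, (f v b - f' v b) * x b) ^ 2) / lam -
      (∑ v, |∑ b, (f v b - f' v b) * x b|) ^ 2 / lam ^ 2 ≤ 0) :
    ∑ a, ∑ b, f a b * (β a * β b) - ∑ a, ∑ b, f' a b * (β a * β b)
      + (∑ v, (∑ b, f' v b * β b) ^ 2 - ∑ v, (∑ b, f v b * β b) ^ 2) / lam
      ≤ (5 * R + 70) * S ^ 2 * xb ^ 2 / N ^ 2 := by
  have hlam0 : 0 < lam := by linarith
  have hN0 : 0 < N := by linarith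
  obtain ⟨φ, hφ⟩ : ∃ φ : V → ℝ, ∀ v, φ v = ∑ b, f v b * x b := ⟨_, fun _ => rfl⟩
  obtain ⟨φ', hφ'⟩ : ∃ φ : V → ℝ, ∀ v, φ v = ∑ b, f' v b * x b := ⟨_, fun _ => rfl⟩
  obtain ⟨B, hB⟩ : ∃ φ : V → ℝ, ∀ v, φ v = ∑ b, f v b * β b := ⟨_, fun _ => rfl⟩
  obtain ⟨B', hB'⟩ : ∃ φ : V → ℝ, ∀ v, φ v = ∑ b, f' v b * β b := ⟨_, fun _ => rfl⟩
  have eξ : ∀ v, ∑ b, (f v b - f' v b) * x b = φ v - φ' v := by
    intro v
    rw [hφ, hφ', ← Finset.sum_sub_distrib]
    exact Finset.sum_congr rfl fun b _ => by ring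
  simp only [eξ] at key
  simp only [← hB, ← hB']
  simp only [← hφ] at hx
  have φ0 : ∀ v, 0 ≤ φ v := fun v => by
    rw [hφ]; exact Finset.sum_nonneg fun b _ => mul_nonneg (f0 _ _) (x0 _)
  have φ0' : ∀ v, 0 ≤ φ' v := fun v => by
    rw [hφ']; exact Finset.sum_nonneg fun b _ => mul_nonneg (f0' _ _) (x0 _)
  have B0 : ∀ v, 0 ≤ B v := fun v => by
    rw [hB]; exact Finset.sum_nonneg fun b _ => mul_nonneg (f0 _ _) (β0 _)
  have B0' : ∀ v, 0 ≤ B' v := fun v => by
    rw [hB']; exact Finset.sum_nonneg fun b _ => mul_nonneg (f0' _ _) (β0 _)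
  have sφ : ∑ v, φ v ≤ 11 / 10 * xb * S := by
    simp only [hφ]; exact sum_le_bound f0 fS x1
  have sφ' : ∑ v, φ' v ≤ 11 / 10 * xb * S := by
    simp only [hφ']; exact sum_le_bound f0' fS' x1
  have sB : ∑ v, B v ≤ 11 / 5 * xb * S := by
    simp only [hB]; exact sum_le_bound f0 fS β1
  have sB' : ∑ v, B' v ≤ 11 / 5 * xb * S := by
    simp only [hB']; exact sum_le_bound f0' fS' β1
  have sφ0 : 0 ≤ ∑ v, φ v := Finset.sum_nonneg fun v _ => φ0 v
  have sφ0' : 0 ≤ ∑ v, φ' v := Finset.sum_nonneg fun v _ => φ0' v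
  -- the deviation
  have dev : ∀ v, |B' v - φ' v| ≤ 6 / 5 * S * xb / lam := by
    intro v
    have e1 : B' v - φ' v = ∑ b, f' v b * (β b - x b) := by
      rw [hB', hφ', ← Finset.sum_sub_distrib]
      exact Finset.sum_congr rfl fun b _ => by ring
    rw [e1]
    refine (Finset.abs_sum_le_sum_abs _ _).trans ?_
    have h1 : ∀ b, |f' v b * (β b - x b)| ≤ (φ b + f' v b * (xb / 10)) / lam := by
      intro b
      by_cases hb : b ∈ H
      · have h2 : β b - x b = (φ b - τ b) / lam := by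
          rw [eq_div_iff hlam0.ne']
          have := hx b hb
          linarith
        rw [h2, abs_mul, abs_div, abs_of_pos hlam0, abs_of_nonneg (f0' v b), ← mul_div_assoc]
        refine div_le_div_of_nonneg_right ?_ hlam0.le
        have h3 : |φ b - τ b| ≤ φ b + xb / 10 := by
          rw [abs_le]
          have := φ0 b
          have := τ0 b
          have := τ2 b
          constructor <;> linarith
        have h4 := mul_le_mul_of_nonneg_left h3 (f0' v b)
        have h5 : f' v b * φ b ≤ φ b := mul_le_of_le_one_left (φ0 b) (f1' v b)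
        linarith
      · rw [fs' v b, fH' b v hb]
        simp only [zero_mul, abs_zero, add_zero]
        exact div_nonneg (φ0 b) hlam0.le
    refine (Finset.sum_le_sum fun b _ => h1 b).trans ?_
    rw [← Finset.sum_div]
    refine div_le_div_of_nonneg_right ?_ hlam0.le
    rw [Finset.sum_add_distrib, ← Finset.sum_mul]
    have h6 := mul_le_mul_of_nonneg_right (row_le f0' fS' v) (show 0 ≤ xb / 10 by positivity)
    linarith
  -- first order terms
  have c1 : ∀ a b, a ∈ H → b ∈ H → x a * x b = β a * β b - (β a * φ b + β b * φ a) / lam +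
      φ a * φ b / lam ^ 2 + (τ a * x b + τ b * x a) / lam - τ a * τ b / lam ^ 2 := by
    intro a b ha hb
    have h1 : β a = x a + φ a / lam - τ a / lam := by
      have := hx a ha
      field_simp
      linarith
    have h2 : β b = x b + φ b / lam - τ b / lam := by
      have := hx b hb
      field_simp
      linarith
    rw [h1, h2]
    field_simp
    ring
  have lowF : ∑ a, ∑ b, f a b * (β a * β b) - 2 * (∑ v, φ v * B v) / lam -
      xb ^ 2 / 100 / lam ^ 2 * S ≤ ∑ a, ∑ b, f a b * (x a * x b) := by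
    have e1 := sym_sum fs β φ
    simp only [← hB] at e1
    rw [← e1, ← fS, Finset.mul_sum, Finset.sum_div, ← Finset.sum_sub_distrib,
      ← Finset.sum_sub_distrib]
    refine Finset.sum_le_sum fun a _ => ?_
    rw [Finset.mul_sum, Finset.sum_div, ← Finset.sum_sub_distrib, ← Finset.sum_sub_distrib]
    refine Finset.sum_le_sum fun b _ => ?_
    by_cases ha : a ∈ H
    · by_cases hb : b ∈ H
      · rw [c1 a b ha hb]
        have h1 : 0 ≤ φ a * φ b / lam ^ 2 :=
          div_nonneg (mul_nonneg (φ0 a) (φ0 b)) (by positivity)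
        have h2 : 0 ≤ (τ a * x b + τ b * x a) / lam :=
          div_nonneg (add_nonneg (mul_nonneg (τ0 a) (x0 b)) (mul_nonneg (τ0 b) (x0 a))) hlam0.le
        have h3 : τ a * τ b / lam ^ 2 ≤ xb ^ 2 / 100 / lam ^ 2 := by
          refine div_le_div_of_nonneg_right ?_ (by positivity)
          have := mul_le_mul (τ2 a) (τ2 b) (τ0 b) (by positivity)
          calc τ a * τ b ≤ xb / 10 * (xb / 10) := this
            _ = xb ^ 2 / 100 := by ring
        have h4 : f a b * (β a * β b) - f a b * (β a * φ b + β b * φ a) / lam -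
            xb ^ 2 / 100 / lam ^ 2 * f a b = f a b * (β a * β b - (β a * φ b + β b * φ a) / lam -
              xb ^ 2 / 100 / lam ^ 2) := by ring
        rw [h4]
        exact mul_le_mul_of_nonneg_left (by linarith) (f0 a b)
      · rw [fs a b, fH b a hb]
        simp
    · rw [fH a b ha]
      simp
  have upF : ∑ a, ∑ b, f' a b * (x a * x b) ≤ ∑ a, ∑ b, f' a b * (β a * β b) -
      2 * (∑ v, φ v * B' v) / lam + 11 / 5 * R * xb ^ 2 / N / lam * S +
        (∑ v, φ v) ^ 2 / lam ^ 2 := by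
    have e1 := sym_sum fs' β φ
    simp only [← hB'] at e1
    have e2 : (∑ v, φ v) ^ 2 = ∑ a, ∑ b, φ a * φ b := by rw [sq, Finset.sum_mul_sum]
    rw [← e1, ← fS', e2, Finset.mul_sum, Finset.sum_div, Finset.sum_div,
      ← Finset.sum_sub_distrib, ← Finset.sum_add_distrib, ← Finset.sum_add_distrib]
    refine Finset.sum_le_sum fun a _ => ?_
    rw [Finset.mul_sum, Finset.sum_div, Finset.sum_div, ← Finset.sum_sub_distrib,
      ← Finset.sum_add_distrib, ← Finset.sum_add_distrib]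
    refine Finset.sum_le_sum fun b _ => ?_
    have h0 : 0 ≤ φ a * φ b / lam ^ 2 :=
      div_nonneg (mul_nonneg (φ0 a) (φ0 b)) (by positivity)
    by_cases ha : a ∈ H
    · by_cases hb : b ∈ H
      · rw [c1 a b ha hb]
        have h1 : f' a b * (φ a * φ b / lam ^ 2) ≤ φ a * φ b / lam ^ 2 :=
          mul_le_of_le_one_left h0 (f1' a b)
        have h2 : 0 ≤ τ a * τ b / lam ^ 2 :=
          div_nonneg (mul_nonneg (τ0 a) (τ0 b)) (by positivity)
        have h3 : (τ a * x b + τ b * x a) / lam ≤ 11 / 5 * R * xb ^ 2 / N / lam := by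
          refine div_le_div_of_nonneg_right ?_ hlam0.le
          have h5 := mul_le_mul (τ1 a) (x1 b) (x0 b) (by positivity)
          have h6 := mul_le_mul (τ1 b) (x1 a) (x0 a) (by positivity)
          calc τ a * x b + τ b * x a ≤ R * xb / N * (11 / 10 * xb) + R * xb / N * (11 / 10 * xb) :=
                add_le_add h5 h6
            _ = 11 / 5 * R * xb ^ 2 / N := by ring
        have h4 := mul_le_mul_of_nonneg_left (show (τ a * x b + τ b * x a) / lam -
          τ a * τ b / lam ^ 2 ≤ 11 / 5 * R * xb ^ 2 / N / lam by linarith) (f0' a b)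
        have h7 : f' a b * (β a * β b - (β a * φ b + β b * φ a) / lam + φ a * φ b / lam ^ 2 +
            (τ a * x b + τ b * x a) / lam - τ a * τ b / lam ^ 2) = f' a b * (β a * β b) -
            f' a b * (β a * φ b + β b * φ a) / lam + f' a b * (φ a * φ b / lam ^ 2) +
            f' a b * ((τ a * x b + τ b * x a) / lam - τ a * τ b / lam ^ 2) := by ring
        rw [h7]
        have h8 : f' a b * (11 / 5 * R * xb ^ 2 / N / lam) =
            11 / 5 * R * xb ^ 2 / N / lam * f' a b := mul_comm _ _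
        rw [h8] at h4
        linarith
      · rw [fs' a b, fH' b a hb]
        simp only [zero_mul, zero_div, sub_zero, mul_zero, zero_add]
        exact h0
    · rw [fH' a b ha]
      simp only [zero_mul, zero_div, sub_zero, mul_zero, zero_add]
      exact h0
  -- second order terms
  have sec : ∑ v, B' v ^ 2 - ∑ v, B v ^ 2 - 264 / 25 * S ^ 2 * xb ^ 2 / lam ≤
      ∑ v, (φ v - φ' v) ^ 2 - 2 * (∑ v, φ v * B v - ∑ v, φ v * B' v) := by
    have h1 : ∀ v, B' v ^ 2 - B v ^ 2 - 12 / 5 * S * xb / lam * (B v + B' v) ≤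
        (φ v - φ' v) ^ 2 - 2 * (φ v * B v - φ v * B' v) := by
      intro v
      have h2 : -(12 / 5 * S * xb / lam * (B v + B' v)) ≤ 2 * ((B' v - φ' v) * (B v - B' v)) := by
        have h3 : |(B' v - φ' v) * (B v - B' v)| ≤ 6 / 5 * S * xb / lam * (B v + B' v) := by
          rw [abs_mul]
          refine mul_le_mul (dev v) ?_ (abs_nonneg _) (by positivity)
          rw [abs_le]
          have := B0 v
          have := B0' v
          constructor <;> linarith
        have h4 := (abs_le.mp h3).1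
        have h5 : 12 / 5 * S * xb / lam * (B v + B' v) =
            2 * (6 / 5 * S * xb / lam * (B v + B' v)) := by ring
        rw [h5]
        linarith
      have h6 := sq_nonneg ((B v - φ v) - (B' v - φ' v))
      nlinarith [h2, h6]
    have h2 := Finset.sum_le_sum fun v (_ : v ∈ (univ : Finset V)) => h1 v
    simp only [Finset.sum_sub_distrib, ← Finset.mul_sum, Finset.sum_add_distrib] at h2
    have h3 : 12 / 5 * S * xb / lam * (∑ v, B v + ∑ v, B' v) ≤ 264 / 25 * S ^ 2 * xb ^ 2 / lam := by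
      calc 12 / 5 * S * xb / lam * (∑ v, B v + ∑ v, B' v) ≤
            12 / 5 * S * xb / lam * (11 / 5 * xb * S + 11 / 5 * xb * S) :=
            mul_le_mul_of_nonneg_left (add_le_add sB sB') (by positivity)
        _ = _ := by ring
    linarith
  have hsq1 : (∑ v, |φ v - φ' v|) ^ 2 ≤ (11 / 5 * xb * S) ^ 2 := by
    have h1 : ∑ v, |φ v - φ' v| ≤ 11 / 5 * xb * S := by
      calc ∑ v, |φ v - φ' v| ≤ ∑ v, (φ v + φ' v) := by
            refine Finset.sum_le_sum fun v _ => ?_
            rw [abs_le]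
            have := φ0 v
            have := φ0' v
            constructor <;> linarith
        _ = ∑ v, φ v + ∑ v, φ' v := Finset.sum_add_distrib
        _ ≤ _ := by linarith
    exact pow_le_pow_left₀ (Finset.sum_nonneg fun v _ => abs_nonneg _) h1 2
  have hsq2 : (∑ v, φ v) ^ 2 ≤ (11 / 10 * xb * S) ^ 2 := pow_le_pow_left₀ sφ0 sφ 2
  -- split the key inequality
  have ek : ∑ v, x v * (φ v - φ' v) = ∑ a, ∑ b, f a b * (x a * x b) -
      ∑ a, ∑ b, f' a b * (x a * x b) := by
    rw [← Finset.sum_sub_distrib]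
    refine Finset.sum_congr rfl fun v _ => ?_
    rw [← Finset.sum_sub_distrib, hφ, hφ', ← Finset.sum_sub_distrib, Finset.mul_sum]
    exact Finset.sum_congr rfl fun b _ => by ring
  rw [ek] at key
  have sec' := div_le_div_of_nonneg_right sec hlam0.le
  have hl2 : 1 / lam ≤ 2 / N := by
    rw [div_le_div_iff₀ hlam0 hN0]
    linarith
  have hl3 : 1 / lam ^ 2 ≤ 4 / N ^ 2 := by
    have := pow_le_pow_left₀ (by positivity) hl2 2
    calc 1 / lam ^ 2 = (1 / lam) ^ 2 := by ring
      _ ≤ (2 / N) ^ 2 := this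
      _ = 4 / N ^ 2 := by ring
  have hSS : S ≤ S ^ 2 := by nlinarith
  have E1 : xb ^ 2 / 100 / lam ^ 2 * S ≤ S ^ 2 * xb ^ 2 / N ^ 2 * (1 / 25) := by
    calc xb ^ 2 / 100 / lam ^ 2 * S = 1 / lam ^ 2 * (xb ^ 2 / 100 * S) := by ring
      _ ≤ 4 / N ^ 2 * (xb ^ 2 / 100 * S ^ 2) := by
          refine mul_le_mul hl3 ?_ (by positivity) (by positivity)
          exact mul_le_mul_of_nonneg_left hSS (by positivity)
      _ = _ := by ring
  have E2 : 11 / 5 * R * xb ^ 2 / N / lam * S ≤ S ^ 2 * xb ^ 2 / N ^ 2 * (22 / 5 * R) := by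
    calc 11 / 5 * R * xb ^ 2 / N / lam * S = 1 / lam * (11 / 5 * R * xb ^ 2 / N * S) := by ring
      _ ≤ 2 / N * (11 / 5 * R * xb ^ 2 / N * S ^ 2) := by
          refine mul_le_mul hl2 ?_ (by positivity) (by positivity)
          exact mul_le_mul_of_nonneg_left hSS (by positivity)
      _ = _ := by ring
  have E3 : (∑ v, φ v) ^ 2 / lam ^ 2 ≤ S ^ 2 * xb ^ 2 / N ^ 2 * (121 / 25) := by
    calc (∑ v, φ v) ^ 2 / lam ^ 2 = 1 / lam ^ 2 * (∑ v, φ v) ^ 2 := by ring
      _ ≤ 4 / N ^ 2 * (11 / 10 * xb * S) ^ 2 :=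
          mul_le_mul hl3 hsq2 (by positivity) (by positivity)
      _ = _ := by ring
  have E4 : (∑ v, |φ v - φ' v|) ^ 2 / lam ^ 2 ≤ S ^ 2 * xb ^ 2 / N ^ 2 * (484 / 25) := by
    calc (∑ v, |φ v - φ' v|) ^ 2 / lam ^ 2 = 1 / lam ^ 2 * (∑ v, |φ v - φ' v|) ^ 2 := by ring
      _ ≤ 4 / N ^ 2 * (11 / 5 * xb * S) ^ 2 :=
          mul_le_mul hl3 hsq1 (by positivity) (by positivity)
      _ = _ := by ring
  have E5 : 264 / 25 * S ^ 2 * xb ^ 2 / lam / lam ≤ S ^ 2 * xb ^ 2 / N ^ 2 * (1056 / 25) := by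
    calc 264 / 25 * S ^ 2 * xb ^ 2 / lam / lam = 1 / lam ^ 2 * (264 / 25 * S ^ 2 * xb ^ 2) := by
          field_simp
      _ ≤ 4 / N ^ 2 * (264 / 25 * S ^ 2 * xb ^ 2) :=
          mul_le_mul_of_nonneg_right hl3 (by positivity)
      _ = _ := by ring
  have e5 : (∑ v, B' v ^ 2 - ∑ v, B v ^ 2 - 264 / 25 * S ^ 2 * xb ^ 2 / lam) / lam =
      (∑ v, B' v ^ 2 - ∑ v, B v ^ 2) / lam - 264 / 25 * S ^ 2 * xb ^ 2 / lam / lam := by ring
  have e6 : (∑ v, (φ v - φ' v) ^ 2 - 2 * (∑ v, φ v * B v - ∑ v, φ v * B' v)) / lam =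
      (∑ v, (φ v - φ' v) ^ 2) / lam - 2 * (∑ v, φ v * B v) / lam +
        2 * (∑ v, φ v * B' v) / lam := by ring
  rw [e5, e6] at sec'
  have e7 : (5 * R + 70) * S ^ 2 * xb ^ 2 / N ^ 2 = S ^ 2 * xb ^ 2 / N ^ 2 * (1 / 25) +
      S ^ 2 * xb ^ 2 / N ^ 2 * (22 / 5 * R) + S ^ 2 * xb ^ 2 / N ^ 2 * (121 / 25) +
      S ^ 2 * xb ^ 2 / N ^ 2 * (484 / 25) + S ^ 2 * xb ^ 2 / N ^ 2 * (1056 / 25) +
      S ^ 2 * xb ^ 2 / N ^ 2 * (3 / 5 * R + 88 / 25) := by ring
  have h9 : 0 ≤ S ^ 2 * xb ^ 2 / N ^ 2 * (3 / 5 * R + 88 / 25) := by positivity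
  rw [e7]
  linarith

theorem fS_eq (G : SimpleGraph V) (H : Finset V) {r : ℕ} (c : V → Fin r) :
    ∑ a, ∑ b, chi (FM G H c a b) = (mis G H c : ℝ) := by
  rw [EDG.mis_eq]
  have h1 : ∀ a b, (a ∉ H ∨ b ∉ H) → chi (FM G H c a b) = 0 := by
    intro a b h
    refine chi_neg fun h2 => ?_
    rcases h with h | h
    · exact h h2.1
    · exact h h2.2.1
  rw [← Finset.sum_subset (Finset.subset_univ H)]
  · refine Finset.sum_congr rfl fun a ha => ?_
    rw [← Finset.sum_subset (Finset.subset_univ H)]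
    · refine Finset.sum_congr rfl fun b hb => ?_
      exact chi_congr ⟨fun h => ⟨h.2.2.1, h.2.2.2⟩, fun h => ⟨ha, hb, h.1, h.2⟩⟩
    · intro b _ hb
      exact h1 a b (Or.inr hb)
  · intro a _ ha
    exact Finset.sum_eq_zero fun b _ => h1 a b (Or.inl ha)

omit [Fintype V] in
theorem FM_comm {G : SimpleGraph V} {H : Finset V} {r : ℕ} {c : V → Fin r} {a b : V} :
    FM G H c a b ↔ FM G H c b a :=
  ⟨fun h => ⟨h.2.1, h.1, h.2.2.1.symm, fun h2 => h.2.2.2 h2.symm⟩,
    fun h => ⟨h.2.1, h.1, h.2.2.1.symm, fun h2 => h.2.2.2 h2.symm⟩⟩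

theorem sum_at (w : V) (K : ℝ) : ∑ b, chi (b = w) * K = K := by
  rw [Finset.sum_eq_single w]
  · rw [chi_pos rfl, one_mul]
  · intro b _ hb
    rw [chi_neg hb, zero_mul]
  · intro h
    exact absurd (Finset.mem_univ _) h

end STA

open STA in
theorem blk_STA : Stmt_STA := by
  intro r hr
  have hr3 : (3 : ℝ) ≤ r := by exact_mod_cast hr
  refine ⟨11 * r + 70, by linarith, ?_⟩
  intro V _ G G' c H w T x lam xb e N β he0 he1 hN hW hmis hout hG' hmis' hx hFl hspec hβ
  have := hx.nonempty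
  have hxb := hFl.xb0
  have hNr : (1 : ℝ) ≤ N := by exact_mod_cast hN
  have hN0 : (0 : ℝ) < N := by linarith
  have hal := al_ge hr
  have hlamN : (N : ℝ) / 2 ≤ lam := by
    have h1 := (abs_le.mp hFl.lamN).1
    have h2 : 2 / 3 * (N : ℝ) ≤ al r * N := mul_le_mul_of_nonneg_right hal (by linarith)
    have h3 : e * (N : ℝ) ≤ 1 / 10 * N := mul_le_mul_of_nonneg_right he1 (by linarith)
    linarith
  have hlam0 : 0 < lam := by linarith
  have hexb : e * xb ≤ xb / 10 := by
    have := mul_le_mul_of_nonneg_right he1 hxb.le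
    linarith
  have x1 : ∀ v, x v ≤ 11 / 10 * xb := by
    intro v
    by_cases hv : v ∈ H
    · have := (abs_le.mp (hFl.xH v hv)).2
      linarith
    · have := hFl.xo v hv
      linarith
  have hwT : w ∉ T := fun h => hW.hw (hW.hT h)
  have hind : ∀ u ∈ H, ∀ v ∈ H, c u = c v → ¬ G.Adj u v := by
    intro u hu v hv huv h
    rcases hW.sub u v h with h1 | h1 | h1
    · exact h1.2.2 huv
    · exact hW.hw (h1.1 ▸ hu)
    · exact hW.hw (h1.1 ▸ hv)
  have hxw10 : x w ≤ xb / 10 := (hFl.xo w hW.hw).trans hexb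
  -- the vertex `w`
  have hTc : T.card = r := by
    rw [← sum_card_cl T c]
    simp [hW.hT1]
  have hxw : x w ≤ 11 / 5 * r * xb / N := by
    have h1 : lam * x w ≤ 11 / 10 * r * xb := by
      rw [← hx.eig w]
      have h2 : ∀ b, ad G w b * x b ≤ chi (b ∈ T) * (11 / 10 * xb) := by
        intro b
        by_cases hb : b ∈ T
        · rw [chi_pos hb, one_mul]
          unfold ad
          rw [chi_pos (hW.hwT b hb), one_mul]
          exact x1 b
        · have h3 : ¬ G.Adj w b := by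
            intro h
            rcases hW.sub w b h with h1 | h1 | h1
            · exact hW.hw h1.1
            · exact hb h1.2
            · exact hwT h1.2
          unfold ad
          rw [chi_neg h3, chi_neg hb, zero_mul, zero_mul]
      refine (Finset.sum_le_sum fun b _ => h2 b).trans ?_
      rw [← Finset.sum_mul]
      have h4 : ∑ b, chi (b ∈ T) = (T.card : ℝ) := by
        classical
        rw [← Finset.sum_subset (Finset.subset_univ T)]
        · rw [Finset.card_eq_sum_ones, Nat.cast_sum]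
          exact Finset.sum_congr rfl fun b hb => by rw [chi_pos hb, Nat.cast_one]
        · intro b _ hb
          exact chi_neg hb
      rw [h4, hTc]
      linarith
    rw [le_div_iff₀ hN0]
    have h5 : x w * (N / 2) ≤ x w * lam := mul_le_mul_of_nonneg_left hlamN (hx.nn w)
    linarith
  -- the sums over the classes
  have hβ' : ∀ i, ∑ b, chi (b ∈ H ∧ c b ≠ i) * x b = lam * β i := by
    intro i
    rw [hβ, mul_div_cancel₀ _ hlam0.ne']
    classical
    rw [← Finset.sum_subset (Finset.subset_univ H)]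
    · unfold cs cl
      rw [Finset.sum_filter, ← Finset.sum_sub_distrib]
      refine Finset.sum_congr rfl fun b hb => ?_
      by_cases h : c b = i
      · rw [if_pos h, chi_neg (fun h2 => h2.2 h)]
        ring
      · rw [if_neg h, chi_pos ⟨hb, h⟩]
        ring
    · intro b _ hb
      rw [chi_neg (fun h => hb h.1), zero_mul]
  have β0 : ∀ i, 0 ≤ β i := by
    intro i
    have h1 : 0 ≤ lam * β i := by
      rw [← hβ']
      exact Finset.sum_nonneg fun b _ => mul_nonneg (chi_nonneg _) (hx.nn b)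
    exact nonneg_of_mul_nonneg_right h1 hlam0
  have β1 : ∀ i, β i ≤ 11 / 5 * xb := by
    intro i
    have h1 : lam * β i ≤ 11 / 10 * xb * N := by
      rw [← hβ']
      have h2 : ∑ b, chi (b ∈ H ∧ c b ≠ i) * x b ≤ ∑ b, chi (b ∈ H) * (11 / 10 * xb) := by
        refine Finset.sum_le_sum fun b _ => ?_
        by_cases hb : b ∈ H
        · rw [chi_pos hb, one_mul]
          exact (mul_le_of_le_one_left (hx.nn b) (chi_le_one _)).trans (x1 b)
        · rw [chi_neg hb, chi_neg (fun h => hb h.1), zero_mul, zero_mul]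
      refine h2.trans ?_
      rw [← Finset.sum_mul]
      have h4 : ∑ b, chi (b ∈ H) = (H.card : ℝ) := by
        classical
        rw [← Finset.sum_subset (Finset.subset_univ H)]
        · rw [Finset.card_eq_sum_ones, Nat.cast_sum]
          exact Finset.sum_congr rfl fun b hb => by rw [chi_pos hb, Nat.cast_one]
        · intro b _ hb
          exact chi_neg hb
      rw [h4, hW.card]
      linarith
    have h3 : N / 2 * β i ≤ lam * β i := mul_le_mul_of_nonneg_right hlamN (β0 i)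
    have h4 : N * β i ≤ N * (11 / 5 * xb) := by linarith
    exact le_of_mul_le_mul_left h4 hN0
  -- the eigenvalue equation on `H`
  have hxH : ∀ v ∈ H, lam * x v = lam * β (c v) - ∑ b, chi (FM G H c v b) * x b +
      chi (v ∈ T) * x w := by
    intro v hv
    rw [← hx.eig v, ← hβ', ← sum_at w (chi (v ∈ T) * x w), ← Finset.sum_sub_distrib,
      ← Finset.sum_add_distrib]
    refine Finset.sum_congr rfl fun b _ => ?_
    unfold ad
    by_cases hb : b ∈ H
    · have hbw : b ≠ w := fun h => hW.hw (h ▸ hb)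
      rw [chi_neg hbw]
      by_cases h1 : c v = c b
      · rw [chi_neg (hind v hv b hb h1), chi_neg (fun h : b ∈ H ∧ c b ≠ c v => h.2 h1.symm),
          chi_neg (fun h : FM G H c v b => h.2.2.1 h1)]
        ring
      · by_cases h2 : G.Adj v b
        · rw [chi_pos h2, chi_pos (⟨hb, Ne.symm h1⟩ : b ∈ H ∧ c b ≠ c v),
            chi_neg (fun h : FM G H c v b => h.2.2.2 h2)]
          ring
        · rw [chi_neg h2, chi_pos (⟨hb, Ne.symm h1⟩ : b ∈ H ∧ c b ≠ c v),
            chi_pos (show FM G H c v b from ⟨hv, hb, h1, h2⟩)]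
          ring
    · rw [chi_neg (fun h : b ∈ H ∧ c b ≠ c v => hb h.1),
        chi_neg (fun h : FM G H c v b => hb h.2.1)]
      by_cases hbw : b = w
      · subst hbw
        rw [chi_pos rfl]
        have : G.Adj v b ↔ v ∈ T := by
          constructor
          · intro h
            rcases hW.sub v b h with h1 | h1 | h1
            · exact absurd h1.2.1 hb
            · exact absurd (h1.1 ▸ hv) hW.hw
            · exact h1.2
          · intro h
            exact (hW.hwT v h).symm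
        rw [chi_congr this]
        ring
      · rw [chi_neg hbw]
        have : ¬ G.Adj v b := by
          intro h
          rcases hW.sub v b h with h1 | h1 | h1
          · exact hb h1.2.1
          · exact hW.hw (h1.1 ▸ hv)
          · exact hbw h1.1
        rw [chi_neg this]
        ring
  -- the difference of the graphs
  have hdif : ∀ v b, ad G' v b = ad G v b + (chi (FM G H c v b) - chi (FM G' H c v b)) := by
    intro v b
    unfold ad
    by_cases hv : v ∈ H
    · by_cases hb : b ∈ H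
      · by_cases h1 : c v = c b
        · rw [chi_neg (hind v hv b hb h1), chi_neg (hG' v hv b hb h1),
            chi_neg (fun h : FM G H c v b => h.2.2.1 h1),
            chi_neg (fun h : FM G' H c v b => h.2.2.1 h1)]
          ring
        · have e1 : chi (FM G H c v b) = 1 - chi (G.Adj v b) := by
            by_cases h2 : G.Adj v b
            · rw [chi_pos h2, chi_neg (fun h : FM G H c v b => h.2.2.2 h2)]
              ring
            · rw [chi_neg h2, chi_pos (show FM G H c v b from ⟨hv, hb, h1, h2⟩)]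
              ring
          have e2 : chi (FM G' H c v b) = 1 - chi (G'.Adj v b) := by
            by_cases h2 : G'.Adj v b
            · rw [chi_pos h2, chi_neg (fun h : FM G' H c v b => h.2.2.2 h2)]
              ring
            · rw [chi_neg h2, chi_pos (show FM G' H c v b from ⟨hv, hb, h1, h2⟩)]
              ring
          rw [e1, e2]
          ring
      · rw [chi_congr (hout v b (Or.inr hb)), chi_neg (fun h : FM G H c v b => hb h.2.1),
          chi_neg (fun h : FM G' H c v b => hb h.2.1)]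
        ring
    · rw [chi_congr (hout v b (Or.inl hv)), chi_neg (fun h : FM G H c v b => hv h.1),
        chi_neg (fun h : FM G' H c v b => hv h.1)]
      ring
  have hray := ray G' x (fun v => ∑ b, (chi (FM G H c v b) - chi (FM G' H c v b)) * x b) lam
    hlam0 hspec (by
      intro v
      rw [← hx.eig v, ← Finset.sum_add_distrib]
      refine Finset.sum_congr rfl fun b _ => ?_
      rw [hdif]
      ring)
  have h := alg (f := fun a b => chi (FM G H c a b)) (f' := fun a b => chi (FM G' H c a b))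
    (H := H) (x := x) (β := fun v => β (c v)) (τ := fun v => chi (v ∈ T) * x w) (lam := lam)
    (S := (mis G H c : ℝ)) (xb := xb) (N := (N : ℝ)) (R := 11 / 5 * r) hlamN hNr
    (by exact_mod_cast hmis) hxb (by positivity) (fun _ _ => chi_nonneg _)
    (fun _ _ => chi_congr FM_comm) (fun a b ha => chi_neg fun h => ha h.1) (fS_eq G H c)
    (fun _ _ => chi_nonneg _) (fun _ _ => chi_le_one _) (fun _ _ => chi_congr FM_comm)
    (fun a b ha => chi_neg fun h => ha h.1) (by rw [fS_eq G' H c, hmis'])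
    hx.nn x1 (fun v => β0 _) (fun v => β1 _) (fun v => mul_nonneg (chi_nonneg _) (hx.nn w))
    (fun v => (mul_le_of_le_one_left (hx.nn w) (chi_le_one _)).trans hxw)
    (fun v => (mul_le_of_le_one_left (hx.nn w) (chi_le_one _)).trans hxw10) hxH hray
  have e9 : (5 * (11 / 5 * (r : ℝ)) + 70) * (mis G H c : ℝ) ^ 2 * xb ^ 2 / (N : ℝ) ^ 2 =
      (11 * r + 70) * (mis G H c : ℝ) ^ 2 * xb ^ 2 / (N : ℝ) ^ 2 := by ring
  rw [e9] at h
  exact h

end Pool.Agent.Work.MP_5532fa_up
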