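import Pool.Agent.Work.MP_5532fa_up.Interface3

/-!
# MP_5532fa_co, upgrade: block STC (weighted sums of squares of degrees)
-/

open Finset

namespace Pool.Agent.Work.MP_5532fa_up

namespace STC

/-- the excess of a pair is nonnegative, and its first two consequences -/
theorem pair {β1 β2 x y e : ℝ} (_he0 : 0 ≤ e) (h12 : β1 ≤ β2) (h1 : 1 - e ≤ β1)
    (hx : x ≤ 1 + e) (hy : y ≤ 1 + e) (_he : e ≤ 1 / 10)
    (h : (x = β1 ∧ β2 ≤ y) ∨ (y = β1 ∧ β2 ≤ x) ∨ (β2 ≤ x ∧ β2 ≤ y)) :
    0 ≤ x + y - β1 - β2 ∧ (1 - e) * (x + y - β1 - β2) ≤ x * y - β1 * β2 ∧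
      x ^ 2 + y ^ 2 ≤ β1 ^ 2 + β2 ^ 2 + 2 * (1 + e) * (x + y - β1 - β2) ∧
      β1 ≤ x ∧ β1 ≤ y := by
  rcases h with ⟨rfl, h⟩ | ⟨rfl, h⟩ | ⟨h3, h4⟩
  · have a1 : 0 ≤ (y - β2) * (x - (1 - e)) := mul_nonneg (by linarith) (by linarith)
    have a2 : 0 ≤ (y - β2) * (2 * (1 + e) - (y + β2)) := mul_nonneg (by linarith) (by linarith)
    refine ⟨by linarith, by linarith, by linarith, le_rfl, by linarith⟩
  · have a1 : 0 ≤ (x - β2) * (y - (1 - e)) := mul_nonneg (by linarith) (by linarith)
    have a2 : 0 ≤ (x - β2) * (2 * (1 + e) - (x + β2)) := mul_nonneg (by linarith) (by linarith)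
    refine ⟨by linarith, by linarith, by linarith, by linarith, le_rfl⟩
  · have a1 : 0 ≤ (y - β2) * (x - (1 - e)) := mul_nonneg (by linarith) (by linarith)
    have a3 : 0 ≤ (x - β1) * (β2 - (1 - e)) := mul_nonneg (by linarith) (by linarith)
    have a2 : 0 ≤ (y - β2) * (2 * (1 + e) - (y + β2)) := mul_nonneg (by linarith) (by linarith)
    have a4 : 0 ≤ (x - β1) * (2 * (1 + e) - (x + β1)) := mul_nonneg (by linarith) (by linarith)
    refine ⟨by linarith, by linarith, by linarith, by linarith, by linarith⟩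

/-- product of two weights -/
theorem prod {β2 x y ex ey : ℝ} (h2 : β2 ≤ 11 / 10) (_h20 : 0 ≤ β2) (hx0 : 0 ≤ x) (hy0 : 0 ≤ y)
    (hx : x ≤ β2 + ex) (hy : y ≤ β2 + ey) (hex : ex ≤ 2 / 5) (hey : ey ≤ 2 / 5) (hex0 : 0 ≤ ex)
    (hey0 : 0 ≤ ey) : x * y ≤ β2 ^ 2 + 3 / 2 * (ex + ey) := by
  have a1 : x * y ≤ (β2 + ex) * (β2 + ey) := mul_le_mul hx hy hy0 (by linarith)
  have a2 : ex * ey ≤ 2 / 5 * ey := mul_le_mul_of_nonneg_right hex hey0
  have a3 : ex * ey ≤ ex * (2 / 5) := mul_le_mul_of_nonneg_left hey hex0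
  have a4 : β2 * (ex + ey) ≤ 11 / 10 * (ex + ey) := mul_le_mul_of_nonneg_right h2 (by linarith)
  have e1 : (β2 + ex) * (β2 + ey) = β2 ^ 2 + β2 * (ex + ey) + ex * ey := by ring
  rw [e1] at a1
  linarith

/-- one vertex -/
theorem vert {V : Type} [Fintype V] (f y x : V → ℝ) (β2 : ℝ) (hf : ∀ b, f b = 0 ∨ f b = 1)
    (h : ∀ b b', f b = 1 → f b' = 1 → y b * y b' ≤ β2 ^ 2 + 3 / 2 * (x b + x b')) :
    (∑ b, f b * y b) ^ 2 ≤ (∑ b, f b) ^ 2 * β2 ^ 2 + 3 * ((∑ b, f b) - 1) * ∑ b, f b * x b
      + ∑ b, f b * y b ^ 2 - (∑ b, f b) * β2 ^ 2 := by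
  have hg : ∀ b b', 0 ≤ f b * f b' * (β2 ^ 2 + 3 / 2 * (x b + x b') - y b * y b') := by
    intro b b'
    rcases hf b with h1 | h1
    · rw [h1]; simp
    · rcases hf b' with h2 | h2
      · rw [h2]; simp
      · rw [h1, h2]
        have := h b b' h1 h2
        linarith
  have hsq : ∀ b, f b * f b = f b := by
    intro b
    rcases hf b with h1 | h1 <;> rw [h1] <;> norm_num
  have h1 : ∑ b, f b * f b * (β2 ^ 2 + 3 / 2 * (x b + x b) - y b * y b) ≤
      ∑ b, ∑ b', f b * f b' * (β2 ^ 2 + 3 / 2 * (x b + x b') - y b * y b') :=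
    Finset.sum_le_sum fun b _ => Finset.single_le_sum
      (f := fun b' => f b * f b' * (β2 ^ 2 + 3 / 2 * (x b + x b') - y b * y b'))
      (fun b' _ => hg b b') (Finset.mem_univ b)
  have e1 : ∑ b, f b * f b * (β2 ^ 2 + 3 / 2 * (x b + x b) - y b * y b) =
      (∑ b, f b) * β2 ^ 2 + 3 * (∑ b, f b * x b) - ∑ b, f b * y b ^ 2 := by
    rw [Finset.sum_mul, Finset.mul_sum, ← Finset.sum_add_distrib, ← Finset.sum_sub_distrib]
    refine Finset.sum_congr rfl fun b _ => ?_
    rw [hsq]
    ring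
  have e2 : ∑ b, ∑ b', f b * f b' * (β2 ^ 2 + 3 / 2 * (x b + x b') - y b * y b') =
      (∑ b, f b) ^ 2 * β2 ^ 2 + 3 * (∑ b, f b) * (∑ b, f b * x b) - (∑ b, f b * y b) ^ 2 := by
    have e3 : ∀ b, ∑ b', f b * f b' * (β2 ^ 2 + 3 / 2 * (x b + x b') - y b * y b') =
        f b * (∑ b', f b') * β2 ^ 2 + 3 / 2 * (f b * x b) * (∑ b', f b') +
          3 / 2 * f b * (∑ b', f b' * x b') - f b * y b * (∑ b', f b' * y b') := by
      intro b
      simp only [Finset.mul_sum, Finset.sum_mul]
      rw [← Finset.sum_add_distrib, ← Finset.sum_add_distrib, ← Finset.sum_sub_distrib]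
      exact Finset.sum_congr rfl fun b' _ => by ring
    simp only [e3]
    rw [Finset.sum_sub_distrib, Finset.sum_add_distrib, Finset.sum_add_distrib]
    simp only [← Finset.sum_mul, ← Finset.mul_sum]
    ring
  rw [e1, e2] at h1
  linarith

end STC

open STC in
theorem blk_STC : Stmt_STC := by
  classical
  intro r V _ F c β i1 i2 e s E he0 he hsym hcF hβ h12 hβ12 hβi hs hE
  have hb1 := abs_le.mp (hβ i1)
  have hb2 := abs_le.mp (hβ i2)
  -- a pair
  have hp : ∀ a b, F a b → (β (c a) = β i1 ∧ β i2 ≤ β (c b)) ∨ (β (c b) = β i1 ∧ β i2 ≤ β (c a)) ∨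
      (β i2 ≤ β (c a) ∧ β i2 ≤ β (c b)) := by
    intro a b hab
    have hne := hcF a b hab
    by_cases ha : c a = i1
    · exact Or.inl ⟨by rw [ha], hβi _ fun h => hne (ha.trans h.symm)⟩
    · by_cases hb : c b = i1
      · exact Or.inr (Or.inl ⟨by rw [hb], hβi _ ha⟩)
      · exact Or.inr (Or.inr ⟨hβi _ ha, hβi _ hb⟩)
  have key : ∀ a b, F a b → 0 ≤ β (c a) + β (c b) - β i1 - β i2 ∧
      (1 - e) * (β (c a) + β (c b) - β i1 - β i2) ≤ β (c a) * β (c b) - β i1 * β i2 ∧
      β (c a) ^ 2 + β (c b) ^ 2 ≤ β i1 ^ 2 + β i2 ^ 2 +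
        2 * (1 + e) * (β (c a) + β (c b) - β i1 - β i2) ∧ β i1 ≤ β (c a) ∧ β i1 ≤ β (c b) := by
    intro a b hab
    have ha := abs_le.mp (hβ (c a))
    have hb := abs_le.mp (hβ (c b))
    exact pair he0 hβ12 (by linarith) (by linarith) (by linarith) he (hp a b hab)
  have chi01 : ∀ p : Prop, chi p = 0 ∨ chi p = 1 := by
    intro p
    by_cases h : p
    · right; exact chi_pos h
    · left; exact chi_neg h
  have hE0 : 0 ≤ E := by
    rw [hE]
    refine Finset.sum_nonneg fun a _ => Finset.sum_nonneg fun b _ => ?_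
    by_cases hab : F a b
    · rw [chi_pos hab, one_mul]; exact (key a b hab).1
    · rw [chi_neg hab, zero_mul]
  have hs0 : 0 ≤ s := by
    rw [hs]
    exact Finset.sum_nonneg fun a _ => Finset.sum_nonneg fun b _ => chi_nonneg _
  refine ⟨hE0, ?_, ?_⟩
  · -- products
    rw [hE, hs, Finset.sum_mul, Finset.mul_sum, ← Finset.sum_add_distrib]
    refine Finset.sum_le_sum fun a _ => ?_
    rw [Finset.sum_mul, Finset.mul_sum, ← Finset.sum_add_distrib]
    refine Finset.sum_le_sum fun b _ => ?_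
    by_cases hab : F a b
    · rw [chi_pos hab, one_mul, one_mul, one_mul]
      have := (key a b hab).2.1
      linarith
    · rw [chi_neg hab]; simp
  · -- squares
    have hdeg : ∀ v, ∑ b, chi (F v b) ≤ s / 2 := by
      intro v
      have h1 : ∑ a, ∑ b, (chi (a = v) * chi (F v b) + chi (b = v) * chi (F a v)) ≤
          ∑ a, ∑ b, chi (F a b) := by
        refine Finset.sum_le_sum fun a _ => Finset.sum_le_sum fun b _ => ?_
        by_cases hav : a = v
        · subst hav
          by_cases hba : b = a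
          · subst hba
            have : ¬ F b b := fun h => hcF b b h rfl
            rw [chi_neg this]
            simp
          · rw [chi_neg hba, chi_pos rfl]
            simp
        · rw [chi_neg hav]
          by_cases hbv : b = v
          · subst hbv
            rw [chi_pos rfl]
            simp
          · rw [chi_neg hbv]
            simp only [zero_mul, add_zero]
            exact chi_nonneg _
      have h2 : ∑ a, ∑ b, (chi (a = v) * chi (F v b) + chi (b = v) * chi (F a v)) =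
          2 * ∑ b, chi (F v b) := by
        simp only [Finset.sum_add_distrib]
        have e1 : ∑ a, ∑ b, chi (a = v) * chi (F v b) = ∑ b, chi (F v b) := by
          rw [Finset.sum_eq_single v]
          · refine Finset.sum_congr rfl fun b _ => ?_
            rw [chi_pos rfl, one_mul]
          · intro a _ hav
            refine Finset.sum_eq_zero fun b _ => ?_
            rw [chi_neg hav, zero_mul]
          · intro h; exact absurd (Finset.mem_univ v) h
        have e2 : ∑ a, ∑ b, chi (b = v) * chi (F a v) = ∑ b, chi (F v b) := by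
          refine Finset.sum_congr rfl fun a _ => ?_
          rw [Finset.sum_eq_single v]
          · rw [chi_pos rfl, one_mul]
            exact chi_congr ⟨fun h => hsym _ _ h, fun h => hsym _ _ h⟩
          · intro b _ hbv
            rw [chi_neg hbv, zero_mul]
          · intro h; exact absurd (Finset.mem_univ v) h
        rw [e1, e2]
        ring
      rw [h2, ← hs] at h1
      linarith
    have hv : ∀ v, (∑ b, chi (F v b) * β (c b)) ^ 2 ≤
        (∑ b, chi (F v b)) ^ 2 * β i2 ^ 2 +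
          3 * ((∑ b, chi (F v b)) - 1) * (∑ b, chi (F v b) * (β (c v) + β (c b) - β i1 - β i2))
          + ∑ b, chi (F v b) * β (c b) ^ 2 - (∑ b, chi (F v b)) * β i2 ^ 2 := by
      intro v
      apply vert (fun b => chi (F v b)) (fun b => β (c b))
        (fun b => β (c v) + β (c b) - β i1 - β i2) (β i2) (fun b => chi01 _)
      intro b b' h1 h2
      have hb : F v b := by
        by_contra h
        rw [chi_neg h] at h1
        exact zero_ne_one h1
      have hb' : F v b' := by
        by_contra h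
        rw [chi_neg h] at h2
        exact zero_ne_one h2
      have k1 := key v b hb
      have k2 := key v b' hb'
      have m1 := abs_le.mp (hβ (c b))
      have m2 := abs_le.mp (hβ (c b'))
      have m3 := abs_le.mp (hβ (c v))
      exact prod (by linarith) (by linarith) (by linarith) (by linarith) (by linarith)
        (by linarith) (by linarith) (by linarith) k1.1 k2.1
    have hX : ∀ v, 0 ≤ ∑ b, chi (F v b) * (β (c v) + β (c b) - β i1 - β i2) := by
      intro v
      refine Finset.sum_nonneg fun b _ => ?_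
      by_cases hab : F v b
      · rw [chi_pos hab, one_mul]; exact (key v b hab).1
      · rw [chi_neg hab, zero_mul]
    have hv2 : ∀ v, (∑ b, chi (F v b) * β (c b)) ^ 2 ≤
        (∑ b, chi (F v b)) ^ 2 * β i2 ^ 2 +
          3 * (s / 2) * (∑ b, chi (F v b) * (β (c v) + β (c b) - β i1 - β i2))
          + ∑ b, chi (F v b) * β (c b) ^ 2 - (∑ b, chi (F v b)) * β i2 ^ 2 := by
      intro v
      have h1 := hv v
      have h2 : 3 * ((∑ b, chi (F v b)) - 1) *
          (∑ b, chi (F v b) * (β (c v) + β (c b) - β i1 - β i2)) ≤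
          3 * (s / 2) * (∑ b, chi (F v b) * (β (c v) + β (c b) - β i1 - β i2)) :=
        mul_le_mul_of_nonneg_right (by linarith [hdeg v]) (hX v)
      linarith
    have htot := Finset.sum_le_sum fun v (_ : v ∈ (Finset.univ : Finset V)) => hv2 v
    have hrhs : ∑ v, ((∑ b, chi (F v b)) ^ 2 * β i2 ^ 2 +
          3 * (s / 2) * (∑ b, chi (F v b) * (β (c v) + β (c b) - β i1 - β i2))
          + ∑ b, chi (F v b) * β (c b) ^ 2 - (∑ b, chi (F v b)) * β i2 ^ 2) =
        (∑ v, (∑ b, chi (F v b)) ^ 2) * β i2 ^ 2 + 3 * (s / 2) * E +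
          ∑ v, ∑ b, chi (F v b) * β (c b) ^ 2 - s * β i2 ^ 2 := by
      rw [Finset.sum_sub_distrib, Finset.sum_add_distrib, Finset.sum_add_distrib,
        ← Finset.sum_mul, ← Finset.mul_sum, ← Finset.sum_mul, ← hE, ← hs]
    rw [hrhs] at htot
    have hdiag : ∑ v, ∑ b, chi (F v b) * β (c b) ^ 2 ≤
        s / 2 * (β i1 ^ 2 + β i2 ^ 2) + (1 + e) * E := by
      have e1 : ∑ v, ∑ b, chi (F v b) * β (c b) ^ 2 = ∑ v, ∑ b, chi (F v b) * β (c v) ^ 2 := by
        rw [Finset.sum_comm]
        refine Finset.sum_congr rfl fun v _ => Finset.sum_congr rfl fun b _ => ?_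
        rw [chi_congr (⟨fun h => hsym _ _ h, fun h => hsym _ _ h⟩ : F b v ↔ F v b)]
      have e2 : ∑ v, ∑ b, chi (F v b) * β (c v) ^ 2 + ∑ v, ∑ b, chi (F v b) * β (c b) ^ 2 ≤
          s * (β i1 ^ 2 + β i2 ^ 2) + 2 * (1 + e) * E := by
        rw [hE, hs, Finset.sum_mul, Finset.mul_sum, ← Finset.sum_add_distrib,
          ← Finset.sum_add_distrib]
        refine Finset.sum_le_sum fun a _ => ?_
        rw [Finset.sum_mul, Finset.mul_sum, ← Finset.sum_add_distrib, ← Finset.sum_add_distrib]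
        refine Finset.sum_le_sum fun b _ => ?_
        by_cases hab : F a b
        · rw [chi_pos hab, one_mul, one_mul, one_mul, one_mul]
          have := (key a b hab).2.2.1
          linarith
        · rw [chi_neg hab]; simp
      linarith
    have hsE : 0 ≤ s * E := mul_nonneg hs0 hE0
    have heE : (1 + e) * E ≤ 2 * E := mul_le_mul_of_nonneg_right (by linarith) hE0
    linarith

end Pool.Agent.Work.MP_5532fa_up
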