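import Pool.Agent.Work.MP_5532fa_up.Final2
import Pool.Agent.Work.MP_5532fa_up.Str3
import Pool.Agent.Work.MP_5532fa_up.GAPF
import Pool.Agent.Work.MP_5532fa_up.STC
import Pool.Agent.Work.MP_5532fa_up.STA
import Pool.Agent.Work.MP_5532fa_up.EQS
import Pool.Agent.Work.MP_5532fa_up.STAR
import Pool.Agent.Work.MP_5532fa_up.FWE

/-!
# MP_5532fa_co, upgrade: the structure theorem without hypotheses
-/

open Finset

namespace Pool.Agent.Work.MP_5532fa_up

open MP5532fa (specRad qf pE)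

theorem pSTAR : Stmt_STAR :=
  blk_STAR pGF pEID pFLAT blk_STA blk_STC blk_GAPF (blk_EQS pGF pEID pFLAT)

theorem pSM3 : Stmt_SM3 := sm3 pSM pSTAR blk_FWE pEVN

/-- the structure of the extremal graphs for all large numbers of edges -/
theorem pUNIV3 (r : ℕ) (hr : 3 ≤ r) :
    ∃ m0 : ℕ, ∀ m ≥ m0, ∀ N j : ℕ, m = tn r N + j → m < tn r (N + 1) →
      ∀ (V : Type) [Fintype V] (G : SimpleGraph V), G.CliqueFree (r + 1) →
      ¬ G.Colorable r → pE G = 2 * (m : ℝ) →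
      (∀ (V' : Type) [Fintype V'] (G' : SimpleGraph V'), G'.CliqueFree (r + 1) →
        ¬ G'.Colorable r → pE G' = 2 * (m : ℝ) → specRad G' ≤ specRad G) →
      ∃ (c : V → Fin r) (H : Finset V), N ≤ H.card + 1 ∧ H.card ≤ N + 1 ∧
        (∀ i, |sz H c i - (H.card : ℝ) / r| ≤ 3 * √(H.card : ℝ)) ∧
        ((∃ (w : V) (A : Finset V) (v1 v2 : V), WD G H.card H c w A v1 v2) ∨
         (∃ (w u : V) (A B : Finset V) (i0 : Fin r), WE G H.card H c w u A B i0)) :=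
  univ3 pSM3 pFIN3 pB1U2 pB1C2 pLOWX pTN r hr

/-- extremal graphs exist -/
theorem pEXT (r : ℕ) (hr : 3 ≤ r) : ∃ m0 : ℕ, ∀ m ≥ m0, ∃ G : SimpleGraph (Fin (2 * m)),
      G.CliqueFree (r + 1) ∧ ¬ G.Colorable r ∧ pE G = 2 * (m : ℝ) ∧
      ∀ (V' : Type) [Fintype V'] (G' : SimpleGraph V'), G'.CliqueFree (r + 1) →
        ¬ G'.Colorable r → pE G' = 2 * (m : ℝ) → specRad G' ≤ specRad G :=
  exists_ext pLOWX pTN pLAB pTRANS r hr

end Pool.Agent.Work.MP_5532fa_up
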