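import Pool.Agent.Work.MP_5532fa_up.Interface4

/-!
# Block GDS: almost balanced vectors are good
-/

open Finset

namespace Pool.Agent.Work.MP_5532fa_up

namespace GDSp

theorem sumdev {r : ℕ} (hr : 3 ≤ r) (n : ℕ) (y : Fin r → ℕ) (h : ∑ i, y i = n) :
    ∑ i, (re y i - (n:ℝ) / r) = 0 := by
  have hr0 : (r:ℝ) ≠ 0 := by
    have : 0 < r := by omega
    positivity
  have h' : ∑ i, re y i = n := by
    rw [← h]; push_cast; rfl
  rw [Finset.sum_sub_distrib, h', Finset.sum_const, Finset.card_univ, Fintype.card_fin, nsmul_eq_mul]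
  field_simp
  ring

/-- elementary bounds from the last items of CU1 -/
theorem mobd (hCU1 : Stmt_CU1) {r : ℕ} (hr : 3 ≤ r) (n : ℕ) (y : Fin r → ℕ)
    (h : ∑ i, y i = n) : 0 ≤ mo 2 n (re y) ∧ |mo 3 n (re y)| ≤ mo 2 n (re y) * √(mo 2 n (re y)) ∧
      mo 4 n (re y) ≤ mo 2 n (re y) ^ 2 ∧ 0 ≤ mo 4 n (re y) := by
  have h5 := (hCU1 r hr (fun i => re y i - (n:ℝ) / r) (mo 2 n (re y)) (sumdev hr n y h) rfl).2.2.2.2
  refine ⟨?_, h5.1, h5.2, ?_⟩
  · exact Finset.sum_nonneg fun i _ => by positivity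
  · exact Finset.sum_nonneg fun i _ => by positivity

/-- the real inequality -/
theorem core (r η n Ry Rz m3y m3z m4y m4z X : ℝ) (hr : 0 < r) (hη : 0 < η) (hη4 : η ≤ 1 / 4)
    (hn : 16 / η ≤ n) (hRy : 0 ≤ Ry) (hRz : 0 ≤ Rz) (h3y : |m3y| ≤ Ry * √Ry)
    (h3z : |m3z| ≤ Rz * √Rz) (h4y : m4y ≤ Ry ^ 2) (h4z : 0 ≤ m4z)
    (hc : Ry ^ 3 ≤ (η / 16) ^ 2 * n ^ 2) (hRzn : Rz ≤ 4 * r * n) (hX : 0 ≤ X) :
    m3z + (m4y - m4z) / n ≤ m3y + η * n + (4 * √r) * √n * |Rz - Ry| + X := by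
  have hn0 : 0 < n := lt_of_lt_of_le (by positivity) hn
  have hηn : 16 ≤ η * n := by
    rw [div_le_iff₀ hη] at hn; linarith
  -- Ry √Ry ≤ η/16 n
  have hA : Ry * √Ry ≤ η / 16 * n := by
    apply abs_le_of_sq_le_sq' _ (by positivity) |>.2
    have : (Ry * √Ry) ^ 2 = Ry ^ 3 := by
      rw [mul_pow, Real.sq_sqrt hRy]; ring
    rw [this]
    calc Ry ^ 3 ≤ (η / 16) ^ 2 * n ^ 2 := hc
      _ = (η / 16 * n) ^ 2 := by ring
  -- m4y / n ≤ η/16 n
  have hB : m4y / n ≤ η / 16 * n := by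
    rw [div_le_iff₀ hn0]
    refine h4y.trans ?_
    rcases le_or_gt Ry 1 with h1 | h1
    · have : Ry ^ 2 ≤ 1 := by
        have := mul_le_mul h1 h1 hRy zero_le_one
        linarith [sq Ry]
      have h2 : 1 ≤ η / 16 * n * n := by
        have h3 : 1 ≤ η / 16 * n := by linarith
        have h4 : 1 ≤ n := by
          have : η * n ≤ 1 / 4 * n := mul_le_mul_of_nonneg_right hη4 hn0.le
          linarith
        have := mul_le_mul h3 h4 zero_le_one (by positivity : 0 ≤ η / 16 * n)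
        linarith
      linarith
    · have h2 : Ry ^ 2 ≤ Ry ^ 3 := pow_le_pow_right₀ h1.le (by norm_num)
      have h3 : (η / 16) ^ 2 * n ^ 2 ≤ η / 16 * n * n := by
        have : (η / 16) ^ 2 ≤ η / 16 := by
          have h4 : η / 16 ≤ 1 := by linarith
          have := mul_le_mul_of_nonneg_left h4 (by positivity : 0 ≤ η / 16)
          rw [sq]; linarith
        calc (η / 16) ^ 2 * n ^ 2 ≤ η / 16 * n ^ 2 := mul_le_mul_of_nonneg_right this (by positivity)
          _ = η / 16 * n * n := by ring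
      linarith
  have hD : (m4y - m4z) / n ≤ η / 16 * n := by
    have : (m4y - m4z) / n ≤ m4y / n := div_le_div_of_nonneg_right (by linarith) hn0.le
    linarith
  have hE : - m3y ≤ η / 16 * n := by
    have := neg_abs_le m3y
    linarith
  -- Rz √Rz
  have hF : Rz * √Rz ≤ 3 * (η / 16) * n + (4 * √r) * √n * |Rz - Ry| := by
    have hΔ : 0 ≤ |Rz - Ry| := abs_nonneg _
    have hΔ2 : Rz - Ry ≤ |Rz - Ry| := le_abs_self _
    have hnn : 0 ≤ (4 * √r) * √n * |Rz - Ry| := by positivity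
    rcases le_or_gt Ry |Rz - Ry| with h1 | h1
    · have h2 : Rz ≤ 2 * |Rz - Ry| := by linarith
      have h3 : √Rz ≤ 2 * √r * √n := by
        rw [show 2 * √r * √n = √(4 * r * n) by
          rw [Real.sqrt_mul (by positivity), Real.sqrt_mul (by norm_num),
            show (4:ℝ) = 2 ^ 2 by norm_num, Real.sqrt_sq (by norm_num)]]
        exact Real.sqrt_le_sqrt hRzn
      have h4 : Rz * √Rz ≤ (2 * |Rz - Ry|) * (2 * √r * √n) :=
        mul_le_mul h2 h3 (Real.sqrt_nonneg _) (by positivity)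
      have h5 : 0 ≤ 3 * (η / 16) * n := by positivity
      have h6 : (2 * |Rz - Ry|) * (2 * √r * √n) = (4 * √r) * √n * |Rz - Ry| := by ring
      linarith
    · have h2 : Rz ≤ 2 * Ry := by linarith
      have h3 : √Rz ≤ √2 * √Ry := by
        rw [← Real.sqrt_mul (by norm_num)]
        exact Real.sqrt_le_sqrt h2
      have h4 : Rz * √Rz ≤ (2 * Ry) * (√2 * √Ry) :=
        mul_le_mul h2 h3 (Real.sqrt_nonneg _) (by positivity)
      have h5 : √2 ≤ 3 / 2 := by
        rw [Real.sqrt_le_left (by norm_num)]; norm_num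
      have h6 : (2 * Ry) * (√2 * √Ry) = 2 * √2 * (Ry * √Ry) := by ring
      have h7 : 2 * √2 * (Ry * √Ry) ≤ 3 * (Ry * √Ry) :=
        mul_le_mul_of_nonneg_right (by linarith) (by positivity)
      linarith
  have hG : m3z ≤ Rz * √Rz := (le_abs_self _).trans h3z
  have hH : 0 < η * n := by positivity
  linarith

end GDSp

open GDSp in
theorem blk_GDS (hCU1 : Stmt_CU1) : Stmt_GDS := by
  intro r η hr hη hη4
  have hr0 : (0:ℝ) < r := by
    have : 0 < r := by omega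
    exact_mod_cast this
  refine ⟨(η / 16) ^ 2, 4 * √r, ⌈16 / η⌉₊, by positivity, by positivity, ?_⟩
  intro n hn y hy hc z hz hzn
  obtain ⟨a1, a2, a3, a4⟩ := mobd hCU1 hr n y hy
  obtain ⟨b1, b2, b3, b4⟩ := mobd hCU1 hr n z hz
  have hX : 0 ≤ (2 - 4 * η) * n * chi (mo 2 n (re y) < mo 2 n (re z)) := by
    have : 0 ≤ chi (mo 2 n (re y) < mo 2 n (re z)) := by
      unfold chi; split_ifs <;> norm_num
    have h2 : 0 ≤ 2 - 4 * η := by linarith
    positivity
  exact core r η n _ _ _ _ _ _ _ hr0 hη hη4 (Nat.ceil_le.mp hn) a1 b1 a2 b2 a3 b4 hc hzn hX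

end Pool.Agent.Work.MP_5532fa_up
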