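import Pool.Agent.Work.MP_5532fa_up.Interface4

/-!
# Block GDT: vectors with the largest possible entry are good
-/

open Finset

namespace Pool.Agent.Work.MP_5532fa_up

namespace GDTp

theorem sumre {r : ℕ} (n : ℕ) (y : Fin r → ℕ) (h : ∑ i, y i = n) : ∑ i, re y i = n := by
  rw [← h]; push_cast; rfl

theorem sumdev {r : ℕ} (hr : 3 ≤ r) (n : ℕ) (y : Fin r → ℕ) (h : ∑ i, y i = n) :
    ∑ i, (re y i - (n:ℝ) / r) = 0 := by
  have hr0 : (r:ℝ) ≠ 0 := by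
    have : 0 < r := by omega
    positivity
  rw [Finset.sum_sub_distrib, sumre n y h, Finset.sum_const, Finset.card_univ, Fintype.card_fin,
    nsmul_eq_mul]
  field_simp
  ring

theorem mo2eq {r : ℕ} (hr : 3 ≤ r) (n : ℕ) (y : Fin r → ℕ) (h : ∑ i, y i = n) :
    mo 2 n (re y) = ∑ i, re y i ^ 2 - (n:ℝ) ^ 2 / r := by
  have hr0 : (r:ℝ) ≠ 0 := by
    have : 0 < r := by omega
    positivity
  unfold mo
  have h1 : ∀ i, (re y i - (n:ℝ) / r) ^ 2 = re y i ^ 2 - 2 * ((n:ℝ) / r) * re y i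
      + ((n:ℝ) / r) ^ 2 := fun i => by ring
  rw [Finset.sum_congr rfl fun i _ => h1 i, Finset.sum_add_distrib, Finset.sum_sub_distrib,
    ← Finset.mul_sum, sumre n y h, Finset.sum_const, Finset.card_univ, Fintype.card_fin,
    nsmul_eq_mul]
  field_simp
  ring

/-- from the order of the second moments to the entries -/
theorem topz {r : ℕ} (hr : 3 ≤ r) (n : ℕ) (y z : Fin r → ℕ) (i1 : Fin r) (hy : ∑ i, y i = n)
    (hz : ∑ i, z i = n) (hT : Top1 y i1) (hle : mo 2 n (re z) ≤ mo 2 n (re y)) :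
    ∀ i, z i ≤ y i1 := by
  rw [mo2eq hr n y hy, mo2eq hr n z hz] at hle
  have h1 : ∑ i, re z i ^ 2 ≤ ∑ i, re y i ^ 2 := by linarith
  have h2 : ∑ i, ((z i : ℤ)) ^ 2 ≤ ∑ i, (y i : ℤ) ^ 2 := by
    have e1 : ((∑ i, ((z i : ℤ)) ^ 2 : ℤ) : ℝ) = ∑ i, re z i ^ 2 := by
      push_cast; rfl
    have e2 : ((∑ i, ((y i : ℤ)) ^ 2 : ℤ) : ℝ) = ∑ i, re y i ^ 2 := by
      push_cast; rfl
    rw [← e1, ← e2] at h1
    exact_mod_cast h1
  have h3 : ∑ i, ((z i : ℤ)) = ∑ i, (y i : ℤ) := by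
    rw [← Nat.cast_sum, ← Nat.cast_sum, hy, hz]
  intro i
  have := hT (fun i => (z i : ℤ)) h3 h2 i
  exact_mod_cast this

/-- the coefficient in the second case -/
theorem coef {r : ℕ} (hr : 3 ≤ r) (ε η n Ry : ℝ) (hε : 0 < ε) (hη : η ≤ ε / 2) (hn : 0 ≤ n)
    (hR : Ry ≤ (2 / 3 * al r - ε) * n) :
    3 * 1 * ((r:ℝ) / (r - 1)) * Ry ≤ (2 - 4 * η) * n := by
  have hr3 : (3:ℝ) ≤ r := by exact_mod_cast hr
  have h1 : (0:ℝ) < r - 1 := by linarith
  have h2 : (r:ℝ) / (r - 1) * al r = 1 := by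
    unfold al
    field_simp
  have h3 : 1 ≤ (r:ℝ) / (r - 1) := by
    rw [le_div_iff₀ h1]; linarith
  have h4 : 3 * 1 * ((r:ℝ) / (r - 1)) * Ry ≤ 3 * 1 * ((r:ℝ) / (r - 1)) * ((2 / 3 * al r - ε) * n) :=
    mul_le_mul_of_nonneg_left hR (by positivity)
  have h5 : 3 * 1 * ((r:ℝ) / (r - 1)) * ((2 / 3 * al r - ε) * n)
      = 2 * ((r:ℝ) / (r - 1) * al r) * n - 3 * ((r:ℝ) / (r - 1)) * ε * n := by ring
  rw [h5, h2] at h4
  have h6 : ε * n ≤ ((r:ℝ) / (r - 1)) * (ε * n) := by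
    have := mul_le_mul_of_nonneg_right h3 (by positivity : 0 ≤ ε * n)
    linarith
  have h7 : η * n ≤ ε / 2 * n := mul_le_mul_of_nonneg_right hη hn
  have h8 : 0 ≤ ε * n := by positivity
  have h9 : 3 * ((r:ℝ) / (r - 1)) * ε * n = 3 * (((r:ℝ) / (r - 1)) * (ε * n)) := by ring
  linarith

end GDTp

open GDTp in
theorem blk_GDT (hCUB : Stmt_CUB) (hTNR : Stmt_TNR) : Stmt_GDT := by
  intro r ε η hr hε hη hηε
  have hr3 : (3:ℝ) ≤ r := by exact_mod_cast hr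
  obtain ⟨C, n0, hC, hmain⟩ := hCUB r (4 * r) η hr (by positivity) hη
  refine ⟨C, n0, hC, ?_⟩
  intro n hn y i1 hy hRy hT z hz hRz
  obtain ⟨hd0, hdR⟩ := hTNR r hr n y i1 hy hT
  have hn0 : (0:ℝ) ≤ n := Nat.cast_nonneg n
  have hRy4 : mo 2 n (re y) ≤ 4 * r * n := by
    refine hRy.trans ?_
    apply mul_le_mul_of_nonneg_right _ hn0
    have : al r ≤ 1 := by
      unfold al
      have : 0 ≤ 1 / (r:ℝ) := by positivity
      linarith
    linarith
  have hz0 := sumdev hr n z hz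
  have hy0 := sumdev hr n y hy
  have hd1 : -1 ≤ (fun i => re y i - (n:ℝ) / r) i1 := by
    have : re y i1 - (n:ℝ) / r = (y i1 : ℝ) - n / r := rfl
    show -1 ≤ re y i1 - (n:ℝ) / r
    rw [this]; linarith
  rcases le_or_gt (mo 2 n (re z)) (mo 2 n (re y)) with hc | hc
  · have hle := topz hr n y z i1 hy hz hT hc
    have := hmain n hn (fun i => re z i - (n:ℝ) / r) (fun i => re y i - (n:ℝ) / r)
      (mo 2 n (re z)) (mo 2 n (re y)) 0 i1 hz0 hy0 rfl rfl hRz hRy4 (by norm_num) (by norm_num)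
      (fun _ i => by
        have h1 : (z i : ℝ) ≤ y i1 := by exact_mod_cast hle i
        show re z i - (n:ℝ) / r ≤ re y i1 - (n:ℝ) / r + 0
        unfold re
        linarith) hd1 hdR
    rw [chi_neg (not_lt.mpr hc)]
    unfold mo at this ⊢
    linarith
  · have := hmain n hn (fun i => re z i - (n:ℝ) / r) (fun i => re y i - (n:ℝ) / r)
      (mo 2 n (re z)) (mo 2 n (re y)) 1 i1 hz0 hy0 rfl rfl hRz hRy4 (by norm_num) (by norm_num)
      (fun h _ => absurd h (lt_irrefl _)) hd1 hdR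
    rw [chi_pos hc]
    have h2 := coef hr ε η n (mo 2 n (re y)) hε hηε hn0 hRy
    unfold mo at this h2 ⊢
    linarith

end Pool.Agent.Work.MP_5532fa_up
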