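import Pool.Agent.Work.MP_5532fa_up.Interface4
import Pool.Agent.Work.MP_5532fa_up.ACC0
import Pool.Agent.Work.MP_5532fa_up.EDG

/-! Block LAM: the spectral radius is `al r * n + O(1)`. -/

open Finset

namespace Pool.Agent.Work.MP_5532fa_up

open MP5532fa (specRad qf pE)

namespace LAM

variable {V : Type} [Fintype V] {r : ℕ}

omit [Fintype V] in
/-- the quadratic form on `H` -/
theorem formH (G : SimpleGraph V) (H : Finset V) (c : V → Fin r)
    (ind : ∀ u ∈ H, ∀ v ∈ H, c u = c v → ¬ G.Adj u v) (z : V → ℝ) :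
    ∑ u ∈ H, ∑ v ∈ H, ad G u v * (z u * z v) =
      (∑ u ∈ H, z u) ^ 2 - ∑ i, cs z H c i ^ 2 -
        ∑ u ∈ H, ∑ v ∈ H, chi (c u ≠ c v ∧ ¬ G.Adj u v) * (z u * z v) := by
  classical
  have e1 : (∑ u ∈ H, z u) ^ 2 = ∑ u ∈ H, ∑ v ∈ H, z u * z v := by
    rw [sq, sum_mul_sum]
  have e2 : ∑ i, cs z H c i ^ 2 = ∑ u ∈ H, ∑ v ∈ H, chi (c u = c v) * (z u * z v) := by
    rw [← sum_cl H c (fun u => ∑ v ∈ H, chi (c u = c v) * (z u * z v))]
    refine sum_congr rfl fun i _ => ?_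
    have : ∀ u ∈ cl H c i, ∑ v ∈ H, chi (c u = c v) * (z u * z v) = z u * cs z H c i := by
      intro u hu
      have hui := (mem_cl.mp hu).2
      unfold cs cl
      rw [sum_filter, mul_sum]
      refine sum_congr rfl fun v _ => ?_
      by_cases h : c v = i
      · rw [if_pos h, chi_pos (hui.trans h.symm), one_mul]
      · rw [if_neg h, chi_neg (fun h' => h (h'.symm.trans hui)), zero_mul, mul_zero]
    rw [sum_congr rfl this, ← sum_mul, sq]
    rfl
  rw [e1, e2, ← sum_sub_distrib, ← sum_sub_distrib]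
  refine sum_congr rfl fun u hu => ?_
  rw [← sum_sub_distrib, ← sum_sub_distrib]
  refine sum_congr rfl fun v hv => ?_
  by_cases hadj : G.Adj u v
  · have hc : c u ≠ c v := fun h => ind u hu v hv h hadj
    unfold ad
    rw [chi_pos hadj, chi_neg hc, chi_neg (fun h => h.2 hadj)]
    ring
  · by_cases hc : c u = c v
    · unfold ad
      rw [chi_neg hadj, chi_pos hc, chi_neg (fun h => h.1 hc)]
      ring
    · unfold ad
      rw [chi_neg hadj, chi_neg hc, chi_pos ⟨hc, hadj⟩]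
      ring

theorem lower (hr : 3 ≤ r) {δ : ℝ} {n : ℕ} (hn : 1 ≤ n) {G : SimpleGraph V} {x : V → ℝ} {lam : ℝ}
    {c : V → Fin r} {H : Finset V} (h0 : C0 r δ n G c H)
    (hb : ∀ i, |sz H c i - n / r| ≤ 2 * √(n : ℝ)) (hp : PV G x lam) :
    al r * n - 4 * r - δ ≤ lam := by
  classical
  have hn0 : (0 : ℝ) < n := by exact_mod_cast hn
  have hr0 : (0 : ℝ) < r := by
    have : (3 : ℝ) ≤ r := by exact_mod_cast hr
    linarith
  have := hp.nonempty
  have h1 := rayleigh G (fun v => chi (v ∈ H))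
  rw [← hp.rad] at h1
  have e1 : ∑ v, chi (v ∈ H) ^ 2 = n := by
    rw [ACC0.restr H]
    · rw [sum_congr rfl (fun v hv => show chi (v ∈ H) ^ 2 = (1 : ℝ) by rw [chi_pos hv, one_pow]),
        sum_const, nsmul_eq_mul, mul_one, h0.card]
    · intro v hv
      rw [chi_neg hv]; ring
  have e2 : ∑ u, ∑ v, ad G u v * (chi (u ∈ H) * chi (v ∈ H)) =
      ∑ u ∈ H, ∑ v ∈ H, ad G u v * ((1 : ℝ) * 1) := by
    rw [ACC0.restr H]
    · refine sum_congr rfl fun u hu => ?_
      rw [ACC0.restr H]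
      · exact sum_congr rfl fun v hv => by rw [chi_pos hu, chi_pos hv]
      · intro v hv
        rw [chi_neg hv]; ring
    · intro u hu
      refine sum_eq_zero fun v _ => ?_
      rw [chi_neg hu]; ring
  have e3 := formH G H c h0.ind (fun _ => (1 : ℝ))
  have e4 : ∑ u ∈ H, ∑ v ∈ H, chi (c u ≠ c v ∧ ¬ G.Adj u v) * ((1 : ℝ) * 1) = mis G H c := by
    rw [EDG.mis_eq]
    exact sum_congr rfl fun u _ => sum_congr rfl fun v _ => by ring
  have e5 : ∑ _u ∈ H, (1 : ℝ) = n := by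
    rw [sum_const, nsmul_eq_mul, mul_one, h0.card]
  have e6 : ∀ i, cs (fun _ => (1 : ℝ)) H c i = sz H c i := by
    intro i
    unfold cs sz
    rw [sum_const, nsmul_eq_mul, mul_one]
  simp only [e6] at e3
  rw [e1, e2, e3, e4, e5] at h1
  -- the sum of squares
  have hs : ∑ i, sz H c i = n := by
    have := sum_card_cl H c
    unfold sz
    rw [← h0.card]
    exact_mod_cast this
  have hq : ∑ i, sz H c i ^ 2 ≤ n ^ 2 / r + 4 * r * n := by
    have e : ∀ i, sz H c i ^ 2 = (sz H c i - n / r) ^ 2 + 2 * (n / r) * sz H c i - (n / r) ^ 2 :=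
      fun i => by ring
    have h2 : ∑ i, (sz H c i - n / r) ^ 2 ≤ ∑ _i : Fin r, (4 * n : ℝ) := by
      refine sum_le_sum fun i _ => ?_
      have h3 := hb i
      have h4 : (sz H c i - n / r) ^ 2 ≤ (2 * √(n : ℝ)) ^ 2 := by
        rw [← sq_abs]
        exact pow_le_pow_left₀ (abs_nonneg _) h3 2
      rw [mul_pow, Real.sq_sqrt hn0.le] at h4
      linarith
    rw [sum_const, card_univ, Fintype.card_fin, nsmul_eq_mul] at h2
    simp only [e]
    rw [sum_sub_distrib, sum_add_distrib, ← mul_sum, hs, sum_const, card_univ, Fintype.card_fin,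
      nsmul_eq_mul]
    have e7 : (r : ℝ) * ((n : ℝ) / r) ^ 2 = n ^ 2 / r := by field_simp
    have e8 : 2 * ((n : ℝ) / r) * n = 2 * (n ^ 2 / r) := by ring
    rw [e7, e8]
    linarith
  have hm := h0.mis
  have h5 : (n : ℝ) ^ 2 - (n ^ 2 / r + 4 * r * n) - δ * n ≤ lam * n := by linarith
  have h6 : (al r * n - 4 * r - δ) * n = (n : ℝ) ^ 2 - (n ^ 2 / r + 4 * r * n) - δ * n := by
    unfold al
    ring
  rw [← h6] at h5
  exact le_of_mul_le_mul_right h5 hn0

theorem upper (hr : 3 ≤ r) {δ : ℝ} {n : ℕ} (hn : 1 ≤ n) (hδ0 : 0 < δ) (hδ : δ ≤ 1 / 18)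
    {G : SimpleGraph V} {x : V → ℝ} {lam xb : ℝ}
    {c : V → Fin r} {H : Finset V} (h0 : C0 r δ n G c H) (hp : PV G x lam)
    (hf : Fl r (1 / 2) n H x lam xb) : lam ≤ al r * n + 1 := by
  classical
  have hn0 : (0 : ℝ) < n := by exact_mod_cast hn
  have hr0 : (0 : ℝ) < r := by
    have : (3 : ℝ) ≤ r := by exact_mod_cast hr
    linarith
  have hal : 0 < al r := lt_of_lt_of_le (by norm_num) (al_ge hr)
  have hxb := hf.xb0
  have hup : ∀ v, x v ≤ 3 / 2 * xb := by
    intro v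
    by_cases hv : v ∈ H
    · have := (abs_le.mp (hf.xH v hv)).2
      linarith
    · have := hf.xo v hv
      linarith
  have hlo : ∀ v ∈ H, xb / 2 ≤ x v := by
    intro v hv
    have := (abs_le.mp (hf.xH v hv)).1
    linarith
  have hH1 : ∑ v ∈ H, x v ^ 2 ≤ 1 := by
    rw [← hp.unit]
    exact sum_le_sum_of_subset_of_nonneg (subset_univ _) fun v _ _ => sq_nonneg _
  have hxn : (n : ℝ) * (xb / 2) ^ 2 ≤ 1 := by
    have h1 := card_nsmul_le_sum H (fun v => x v ^ 2) ((xb / 2) ^ 2)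
      (fun v hv => pow_le_pow_left₀ (by linarith) (hlo v hv) 2)
    rw [nsmul_eq_mul, h0.card] at h1
    exact h1.trans hH1
  -- the parts
  set A : ℝ := ∑ u ∈ H, ∑ v ∈ H, ad G u v * (x u * x v) with hA
  set D : ℝ := ∑ u ∈ out H, ∑ v, ad G u v * (x u * x v) with hD
  have hnn : ∀ u v, 0 ≤ ad G u v * (x u * x v) := fun u v =>
    mul_nonneg (EDG.ad_nonneg G u v) (mul_nonneg (hp.nn u) (hp.nn v))
  have hHU : ∑ u ∈ H, ∑ v ∈ out H, ad G u v * (x u * x v) ≤ D := by
    rw [hD, sum_comm]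
    refine sum_le_sum fun v _ => ?_
    refine (le_of_eq (sum_congr rfl fun u _ => ?_)).trans
      (sum_le_sum_of_subset_of_nonneg (f := fun u => ad G v u * (x v * x u)) (subset_univ H)
        fun u _ _ => hnn v u)
    rw [ad_comm G u v]; ring
  have h1 : lam ≤ A + D + D := by
    rw [← hp.form, ACC0.split H]
    have e1 : ∑ u ∈ H, ∑ v, ad G u v * (x u * x v) =
        A + ∑ u ∈ H, ∑ v ∈ out H, ad G u v * (x u * x v) := by
      rw [hA, ← sum_add_distrib]
      exact sum_congr rfl fun u _ => ACC0.split H _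
    rw [e1]
    linarith
  have hDle : D ≤ (3 / 2 * xb) ^ 2 * eo G H := by
    rw [EDG.eo_eq, mul_sum, hD]
    refine sum_le_sum fun u _ => ?_
    rw [mul_sum]
    refine sum_le_sum fun v _ => ?_
    have h2 : x u * x v ≤ (3 / 2 * xb) ^ 2 := by
      rw [sq]
      exact mul_le_mul (hup u) (hup v) (hp.nn v) (by linarith)
    rw [mul_comm]
    exact mul_le_mul_of_nonneg_right h2 (EDG.ad_nonneg G u v)
  have hD1 : D ≤ 9 * δ := by
    have h2 : (3 / 2 * xb) ^ 2 * (eo G H : ℝ) ≤ (3 / 2 * xb) ^ 2 * (δ * n) :=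
      mul_le_mul_of_nonneg_left h0.eo (sq_nonneg _)
    have h3 : (3 / 2 * xb) ^ 2 * (δ * n) = 9 * δ * ((n : ℝ) * (xb / 2) ^ 2) := by ring
    have h4 : 9 * δ * ((n : ℝ) * (xb / 2) ^ 2) ≤ 9 * δ * 1 :=
      mul_le_mul_of_nonneg_left hxn (by linarith)
    linarith
  have hA1 : A ≤ al r * n := by
    have e3 := formH G H c h0.ind x
    have h2 : 0 ≤ ∑ u ∈ H, ∑ v ∈ H, chi (c u ≠ c v ∧ ¬ G.Adj u v) * (x u * x v) :=
      sum_nonneg fun u _ => sum_nonneg fun v _ =>
        mul_nonneg (chi_nonneg _) (mul_nonneg (hp.nn u) (hp.nn v))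
    have e4 : ∑ i, cs x H c i = ∑ v ∈ H, x v := sum_cl H c x
    have h3 : (∑ v ∈ H, x v) ^ 2 ≤ r * ∑ i, cs x H c i ^ 2 := by
      rw [← e4]
      have := sq_sum_le_card_mul_sum_sq (s := (univ : Finset (Fin r))) (f := fun i => cs x H c i)
      rw [card_univ, Fintype.card_fin] at this
      exact this
    have h4 : (∑ v ∈ H, x v) ^ 2 ≤ n * ∑ v ∈ H, x v ^ 2 := by
      have := sq_sum_le_card_mul_sum_sq (s := H) (f := x)
      rw [h0.card] at this
      exact this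
    have h5 : (∑ v ∈ H, x v) ^ 2 ≤ n := by
      have : (n : ℝ) * ∑ v ∈ H, x v ^ 2 ≤ n * 1 := mul_le_mul_of_nonneg_left hH1 hn0.le
      linarith
    have h6 : (∑ v ∈ H, x v) ^ 2 / r ≤ ∑ i, cs x H c i ^ 2 := by
      rw [div_le_iff₀ hr0, mul_comm]
      exact h3
    have h7 : A ≤ al r * (∑ v ∈ H, x v) ^ 2 := by
      have e5 : al r * (∑ v ∈ H, x v) ^ 2 = (∑ v ∈ H, x v) ^ 2 - (∑ v ∈ H, x v) ^ 2 / r := by
        unfold al; ring
      rw [e5, hA, e3]
      linarith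
    exact h7.trans (mul_le_mul_of_nonneg_left h5 hal.le)
  linarith

end LAM

theorem blk_LAM (hEST1 : Stmt_EST1) : Stmt_LAM := by
  intro r hr
  obtain ⟨δ1, N0, hδ1, _, h1⟩ := hEST1 r (1 / 2) hr (by norm_num)
  refine ⟨min δ1 (1 / 18), N0 + 1, lt_min hδ1 (by norm_num), ?_⟩
  intro n hn V _ G x lam c H h0 hb hp
  have hn1 : 1 ≤ n := by omega
  have hr3 : (3 : ℝ) ≤ r := by exact_mod_cast hr
  have hδ0 : 0 < min δ1 (1 / 18) := lt_min hδ1 (by norm_num)
  have h01 : C0 r δ1 n G c H :=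
    { card := h0.card
      ind := h0.ind
      mis := h0.mis.trans (mul_le_mul_of_nonneg_right (min_le_left _ _) (Nat.cast_nonneg _))
      bal := fun i => (h0.bal i).trans
        (mul_le_mul_of_nonneg_right (min_le_left _ _) (Nat.cast_nonneg _))
      eo := h0.eo.trans (mul_le_mul_of_nonneg_right (min_le_left _ _) (Nat.cast_nonneg _)) }
  obtain ⟨xb, hf⟩ := h1 n (by omega) V G x lam c H h01 hp
  have hlow := LAM.lower hr hn1 h0 hb hp
  have hupp := LAM.upper hr hn1 hδ0 (min_le_right _ _) h0 hp hf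
  have hδ := min_le_right δ1 (1 / 18)
  rw [abs_le]
  constructor <;> linarith

end Pool.Agent.Work.MP_5532fa_up
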