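import Pool.Agent.Work.MP_5532fa_up.Interface
import Pool.Agent.Work.MP_5532fa_up.PARX

/-!
# MP_5532fa_up, block LOWX (helper63): constructions for all numbers of edges
-/

set_option autoImplicit false

namespace Pool.Agent.Work.MP_5532fa_up

open Finset
open MP5532fa (specRad pE)

namespace LOWX

lemma mL {a b c : ℝ} (h : b ≤ c) (ha : 0 ≤ a) : a * b ≤ a * c := mul_le_mul_of_nonneg_left h ha

lemma mR {a b c : ℝ} (h : b ≤ c) (ha : 0 ≤ a) : b * a ≤ c * a := mul_le_mul_of_nonneg_right h ha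

lemma dL {a b c : ℝ} (hc : 0 < c) (h : a ≤ b * c) : a / c ≤ b := (div_le_iff₀ hc).mpr h

lemma dR {a b c : ℝ} (hc : 0 < c) (h : a / c ≤ b) : a ≤ b * c := (div_le_iff₀ hc).mp h

lemma dN {q r N : ℕ} (hr : 0 < r) (h : q * r ≤ N) : q ≤ N / r := (Nat.le_div_iff_mul_le hr).mpr h

lemma cN {a b : ℕ} (h : (a : ℝ) ≤ b) : a ≤ b := Nat.cast_le.mp h

lemma base {R y : ℝ} (hR : 3 ≤ R) (hy : 20 * R ^ 3 ≤ y) : 9 ≤ R ^ 2 ∧ 3 * R ^ 2 ≤ R ^ 3 ∧
    180 * R ≤ y ∧ y ≤ y ^ 2 ∧ (R + 2) * R ≤ y ^ 2 ∧ (R ^ 2 + R + 1) * (3 * R) ≤ y ^ 2 := by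
  have h0 : 3 * R ≤ R * R := mR hR (by linarith only [hR])
  have h1 : 9 ≤ R ^ 2 := by rw [sq]; linarith only [hR, h0]
  have h2 : 3 * R ^ 2 ≤ R ^ 3 := by
    have : 3 * (R * R) ≤ R * (R * R) := mR hR (by linarith only [h1])
    have e1 : R ^ 3 = R * (R * R) := by ring
    have e2 : R ^ 2 = R * R := by ring
    rw [e1, e2]; exact this
  have h3 : 9 * R ≤ R ^ 3 := by
    have : 3 * R ≤ R ^ 2 := by rw [sq]; exact h0
    linarith only [h2, this]
  have h4 : 180 * R ≤ y := by linarith only [hy, h3]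
  have h5 : 1 * y ≤ y * y := mR (by linarith only [hR, h4]) (by linarith only [hR, h4])
  have h6 : y ≤ y ^ 2 := by rw [sq]; linarith only [h5]
  refine ⟨h1, h2, h4, h6, ?_, ?_⟩
  · have : (R + 2) * R = R ^ 2 + 2 * R := by ring
    linarith only [hR, hy, h2, h3, h6]
  · have : (R ^ 2 + R + 1) * (3 * R) = 3 * R ^ 3 + 3 * R ^ 2 + 3 * R := by ring
    linarith only [hR, hy, h2, h3, h6]

lemma split2 {r : ℕ} {M : Type} [AddCommMonoid M] {i0 i1 : Fin r} (h : i0 ≠ i1)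
    (f : Fin r → M) :
    ∑ i, f i = f i0 + (f i1 + ∑ i ∈ ({i0, i1} : Finset (Fin r))ᶜ, f i) := by
  rw [← Finset.sum_add_sum_compl {i0, i1} f, Finset.sum_pair h, add_assoc]

lemma bal_bounds {r N : ℕ} (hr : 0 < r) (n : Fin r → ℕ) (hs : ∑ i, n i = N)
    (hb : ∀ i k, n i ≤ n k + 1) (i : Fin r) : N / r ≤ n i ∧ n i ≤ N / r + 1 := by
  constructor
  · by_contra h
    push Not at h
    have h1 : ∀ k, n k ≤ N / r := fun k => by have := hb k i; omega
    have h2 : ∑ k, n k < ∑ _k : Fin r, N / r :=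
      Finset.sum_lt_sum (fun k _ => h1 k) ⟨i, Finset.mem_univ _, h⟩
    rw [hs, Finset.sum_const, Finset.card_univ, Fintype.card_fin, smul_eq_mul] at h2
    have h3 := Nat.mul_div_le N r
    omega
  · by_contra h
    push Not at h
    have h1 : ∀ k, N / r + 1 ≤ n k := fun k => by have := hb i k; omega
    have h2 : ∑ _k : Fin r, (N / r + 1) ≤ ∑ k, n k := Finset.sum_le_sum fun k _ => h1 k
    rw [hs, Finset.sum_const, Finset.card_univ, Fintype.card_fin, smul_eq_mul] at h2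
    have h3 := Nat.lt_mul_div_succ N hr
    omega

/-- the construction -/
lemma con (h1 : Stmt_GD) (h2 : Stmt_EMB) (h3 : Stmt_TN) {r : ℕ} (hr : 3 ≤ r) (N : ℕ)
    (hN : 3 ≤ N / r) : ∃ d : ℕ, d ≤ 1 ∧ ∀ s t : ℕ, s + 2 ≤ N / r → r ≤ t →
      t + 2 * (N / r) ≤ N → ∀ (V : Type) [Fintype V], N + 2 ≤ Fintype.card V →
      ∃ (G : SimpleGraph V) (H : Finset V) (c : V → Fin r) (w : V) (A : Finset V) (v1 v2 : V),
        WD G N H c w A v1 v2 ∧ G.CliqueFree (r + 1) ∧ ¬ G.Colorable r ∧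
        pE G = 2 * (tn r N : ℝ) - 2 * ((s * (s + d) : ℕ) : ℝ) - 2 + 2 * (t : ℝ) ∧ A.card = t ∧
        imb H c ≤ r + 2 * ((s * (s + d) : ℕ) : ℝ) ∧
        ∀ i, |sz H c i - N / r| ≤ (s : ℝ) + 1 := by
  classical
  have hr0 : 0 < r := by omega
  have hrR : (0 : ℝ) < r := by exact_mod_cast hr0
  have hdm := Nat.div_add_mod N r
  have hml := Nat.mod_lt N hr0
  -- balanced sizes
  have hNq : r + 2 * (N / r) ≤ N := by
    obtain ⟨r', rfl⟩ : ∃ r', r = r' + 3 := ⟨r - 3, by omega⟩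
    obtain ⟨q', hq'⟩ : ∃ q', N / (r' + 3) = q' + 3 := ⟨N / (r' + 3) - 3, by omega⟩
    rw [hq'] at hdm ⊢
    have e1 : (r' + 3) * (q' + 3) = r' * q' + 3 * r' + 3 * q' + 9 := by ring
    omega
  have hN2 : 2 * r ≤ N := by
    have e1 : r * 3 ≤ r * (N / r) := Nat.mul_le_mul_left r hN
    omega
  obtain ⟨n, -, -, -, hsum, -, -, hbal, -⟩ := blk_PARX r 2 1 N (r - 2) hr (by omega)
    (by omega) (by omega) (by omega)
  obtain ⟨i0, i1, hne, hge⟩ : ∃ i0 i1 : Fin r, i0 ≠ i1 ∧ n i1 ≤ n i0 := by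
    have hne' : (⟨0, by omega⟩ : Fin r) ≠ ⟨1, by omega⟩ := by
      intro h
      have := congrArg Fin.val h
      simp at this
    rcases le_total (n ⟨1, by omega⟩) (n ⟨0, by omega⟩) with h | h
    · exact ⟨_, _, hne', h⟩
    · exact ⟨_, _, hne'.symm, h⟩
  have hbb := bal_bounds hr0 n hsum hbal
  refine ⟨n i0 - n i1, by have := hbal i0 i1; omega, ?_⟩
  intro s t hs ht ht2 V _ hV
  have hb0 := hbb i0
  have hb1 := hbb i1
  obtain ⟨n', hn'⟩ : ∃ n' : Fin r → ℕ, n' = fun i =>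
    if i = i0 then n i0 + s else if i = i1 then n i1 - s else n i := ⟨_, rfl⟩
  have hn0 : n' i0 = n i0 + s := by rw [hn']; simp
  have hn1 : n' i1 = n i1 - s := by rw [hn']; simp [hne.symm]
  have hn2 : ∀ i, i ∈ ({i0, i1} : Finset (Fin r))ᶜ → n' i = n i := by
    intro i hi
    rw [Finset.mem_compl, Finset.mem_insert, Finset.mem_singleton, not_or] at hi
    rw [hn']
    simp [hi.1, hi.2]
  have hall : ∀ i, i = i0 ∨ i = i1 ∨ i ∈ ({i0, i1} : Finset (Fin r))ᶜ := by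
    intro i
    rw [Finset.mem_compl, Finset.mem_insert, Finset.mem_singleton]
    tauto
  have hsl : s ≤ n i1 := by omega
  have hn'2 : ∀ i, 2 ≤ n' i := by
    intro i
    rcases hall i with h | h | h
    · rw [h, hn0]; omega
    · rw [h, hn1]; omega
    · rw [hn2 i h]; have := (hbb i).1; omega
  have hrest : ∀ {M : Type} [AddCommMonoid M] (f : ℕ → M),
      ∑ i ∈ ({i0, i1} : Finset (Fin r))ᶜ, f (n' i)
        = ∑ i ∈ ({i0, i1} : Finset (Fin r))ᶜ, f (n i) := fun f =>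
    Finset.sum_congr rfl fun i hi => by rw [hn2 i hi]
  have hsum0 := split2 hne n
  have hsum' : ∑ i, n' i = N := by
    rw [split2 hne n', hn0, hn1, hrest (fun k => k)]
    omega
  -- the neighbours of `w`
  have hcc : (({i0, i1} : Finset (Fin r))ᶜ).card = r - 2 := by
    rw [Finset.card_compl, Fintype.card_fin, Finset.card_pair hne]
  obtain ⟨a, hasum, hab, -⟩ := PARX.fillup n' ({i0, i1} : Finset (Fin r))
    (fun i => by have := hn'2 i; omega) (t - 2) (by rw [hcc]; omega)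
    (by rw [hrest (fun k => k)]; omega)
  obtain ⟨a', ha'⟩ : ∃ a' : Fin r → ℕ, a' = fun i =>
    if i = i0 then 1 else if i = i1 then 1 else a i := ⟨_, rfl⟩
  have ha0 : a' i0 = 1 := by rw [ha']; simp
  have ha1 : a' i1 = 1 := by rw [ha']; simp
  have ha2 : ∀ i, i ∈ ({i0, i1} : Finset (Fin r))ᶜ → a' i = a i := by
    intro i hi
    rw [Finset.mem_compl, Finset.mem_insert, Finset.mem_singleton, not_or] at hi
    rw [ha']
    simp [hi.1, hi.2]
  have hasum' : ∑ i, a' i = t := by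
    rw [split2 hne a', ha0, ha1, Finset.sum_congr rfl ha2, hasum]
    omega
  have hale : ∀ i, 1 ≤ a' i ∧ a' i ≤ n' i := by
    intro i
    rcases hall i with h | h | h
    · rw [h, ha0]; have := hn'2 i0; omega
    · rw [h, ha1]; have := hn'2 i1; omega
    · rw [ha2 i h]; exact hab i (Finset.mem_compl.mp h)
  obtain ⟨H, c, w, u, A, hwu, hw, hu, hA, hHc, hcH, hcA⟩ :=
    h2 r N n' a' V (by omega) hsum' (fun i => (hale i).2) hV
  obtain ⟨v1, hv1⟩ := Finset.card_eq_one.mp ((hcA i0).trans ha0)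
  obtain ⟨v2, hv2⟩ := Finset.card_eq_one.mp ((hcA i1).trans ha1)
  have hc1 : c v1 = i0 := by
    have : v1 ∈ cl A c i0 := by rw [hv1]; exact Finset.mem_singleton_self _
    exact (mem_cl.mp this).2
  have hc2 : c v2 = i1 := by
    have : v2 ∈ cl A c i1 := by rw [hv2]; exact Finset.mem_singleton_self _
    exact (mem_cl.mp this).2
  have hWD : WD (gD H c w A v1 v2) N H c w A v1 v2 := by
    refine gD_WD hHc hw hA (by rw [hc1, hc2]; exact hne) (by rw [hc1]; exact hv1)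
      (by rw [hc2]; exact hv2) (fun i => ?_)
    rw [← Finset.card_pos, hcA]
    exact (hale i).1
  obtain ⟨hcf, hcol, hpE⟩ := h1 r hr V _ N H c w A v1 v2 hWD
  have hAc : A.card = t := by
    rw [← sum_card_cl A c, Finset.sum_congr rfl fun i _ => hcA i, hasum']
  have hszn : ∀ i, sz H c i = (n' i : ℝ) := fun i => by unfold sz; rw [hcH]
  have hDR : ((s * (s + (n i0 - n i1)) : ℕ) : ℝ) = (s : ℝ) * (s + ((n i0 : ℝ) - n i1)) := by
    push_cast [Nat.cast_sub hge]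
    ring
  have hcast0 : (n' i0 : ℝ) = n i0 + s := by rw [hn0]; push_cast; ring
  have hcast1 : (n' i1 : ℝ) = n i1 - s := by rw [hn1, Nat.cast_sub hsl]
  -- sums of squares
  have hsq : ∀ μ : ℝ, ∑ i, ((n' i : ℝ) - μ) ^ 2 = ∑ i, ((n i : ℝ) - μ) ^ 2
      + 2 * ((s * (s + (n i0 - n i1)) : ℕ) : ℝ) := by
    intro μ
    rw [split2 hne (fun i => ((n' i : ℝ) - μ) ^ 2), split2 hne (fun i => ((n i : ℝ) - μ) ^ 2),
      hrest (fun k => ((k : ℝ) - μ) ^ 2), hcast0, hcast1, hDR]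
    ring
  have hreal : ∀ i, |(n i : ℝ) - N / r| ≤ 1 := by
    intro i
    obtain ⟨e1, e2⟩ := hbb i
    have f1 : ((N / r : ℕ) : ℝ) ≤ n i := by exact_mod_cast e1
    have f2 : (n i : ℝ) ≤ (N / r : ℕ) + 1 := by exact_mod_cast e2
    have f3 : ((N / r : ℕ) : ℝ) ≤ N / r := Nat.cast_div_le
    have f4 : (N : ℝ) / r < (N / r : ℕ) + 1 := by
      rw [div_lt_iff₀ hrR]
      have := Nat.lt_mul_div_succ N hr0
      have h5 : (N : ℝ) < r * ((N / r : ℕ) + 1) := by exact_mod_cast this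
      linarith only [h5]
    rw [abs_le]
    constructor <;> linarith only [f1, f4, f2, f3]
  refine ⟨gD H c w A v1 v2, H, c, w, A, v1, v2, hWD, hcf, hcol fun i => ?_, ?_, hAc, ?_, ?_⟩
  · rw [hcH]; exact hn'2 i
  · rw [hpE, hAc]
    have e1 : ∑ i, sz H c i ^ 2 = ∑ i, ((n i : ℝ)) ^ 2
        + 2 * ((s * (s + (n i0 - n i1)) : ℕ) : ℝ) := by
      have := hsq 0
      simp only [sub_zero] at this
      rw [← this]
      exact Finset.sum_congr rfl fun i _ => by rw [hszn]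
    have e2 : 2 * (tn r N : ℝ) + ∑ i, ((n i : ℝ)) ^ 2 = (N : ℝ) ^ 2 := by
      exact_mod_cast (h3 r hr N).1 n hsum hbal
    rw [e1]
    linarith only [e2]
  · unfold imb
    rw [hHc]
    have e1 : ∑ i, (sz H c i - (N : ℝ) / r) ^ 2 = ∑ i, ((n i : ℝ) - N / r) ^ 2
        + 2 * ((s * (s + (n i0 - n i1)) : ℕ) : ℝ) := by
      rw [← hsq]
      exact Finset.sum_congr rfl fun i _ => by rw [hszn]
    rw [e1]
    have e2 : ∑ i, ((n i : ℝ) - N / r) ^ 2 ≤ ∑ _i : Fin r, (1 : ℝ) := by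
      refine Finset.sum_le_sum fun i _ => ?_
      rw [← sq_abs]
      exact pow_le_one₀ (abs_nonneg _) (hreal i)
    rw [Finset.sum_const, Finset.card_univ, Fintype.card_fin, nsmul_eq_mul, mul_one] at e2
    linarith only [e2]
  · intro i
    rw [hszn]
    have hs0 : (0 : ℝ) ≤ s := Nat.cast_nonneg s
    rcases hall i with h | h | h
    · rw [h, hcast0]
      have := abs_le.mp (hreal i0)
      rw [abs_le]
      constructor <;> linarith only [this]
    · rw [h, hcast1]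
      have := abs_le.mp (hreal i1)
      rw [abs_le]
      constructor <;> linarith only [this]
    · rw [hn2 i h]
      have := hreal i
      linarith only [this]

/-- the assertion for given parameters -/
def Con (r N j : ℕ) (δ : ℝ) : Prop := ∃ G : SimpleGraph (Fin (N + 3)), G.CliqueFree (r + 1) ∧
    ¬ G.Colorable r ∧ pE G = 2 * ((tn r N : ℝ) + j) ∧
    al r * N + j / N - al r * ((1 - j / (al r * N)) * min (j / (al r * N)) (1 - 2 / r)) - δ
      ≤ specRad G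

/-- the lower bound for `B = 4` -/
def Low (r : ℕ) (K : ℝ) : Prop :=
  ∀ (V : Type) [Fintype V] (G : SimpleGraph V) (N : ℕ) (H : Finset V) (c : V → Fin r) (w : V)
    (A : Finset V) (v1 v2 : V), WD G N H c w A v1 v2 → K ≤ N →
    (∀ i, |sz H c i - N / r| ≤ 4 * √N) →
    al r * N - al r * imb H c / N + al r * ((A.card : ℝ) / (al r * N)) ^ 2 - K / √N
      ≤ specRad G

lemma case1 (h1 : Stmt_GD) (h2 : Stmt_EMB) (h3 : Stmt_TN) {r : ℕ} (hr : 3 ≤ r) {K δ : ℝ}
    (hK : 1 ≤ K) (hδ : 0 < δ) (hL : Low r K) (N : ℕ) {y : ℝ} (hy1 : 1 ≤ y)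
    (hyN : y ^ 2 = (N : ℝ)) (hyK : K ≤ y) (hyr : 20 * (r : ℝ) ^ 3 ≤ y)
    (hyd : 2 * K + 4 * (r : ℝ) ^ 2 + 12 * r + 24 ≤ δ * y)
    (j : ℕ) (hj : (j : ℝ) / (al r * N) ≤ 1 - 2 / r) : Con r N j δ := by
  have hr0 : 0 < r := by omega
  have hR : (3 : ℝ) ≤ r := by exact_mod_cast hr
  obtain ⟨R, hRe⟩ : ∃ R : ℝ, R = (r : ℝ) := ⟨_, rfl⟩
  rw [← hRe] at hR hyr hyd hj
  have hα1 := al_ge hr
  have hα2 := al_lt hr
  have hαe : al r = 1 - 1 / R := by rw [hRe]; rfl
  obtain ⟨α, hα⟩ : ∃ α : ℝ, α = al r := ⟨_, rfl⟩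
  have hRpos : 0 < R := by linarith only [hR]
  obtain ⟨hR2, hR3, hRy, hNy, hb5, hb6⟩ := base hR hyr
  rw [hyN] at hNy hb5 hb6
  have hNpos : (0 : ℝ) < N := by linarith only [hRpos, hRy, hNy]
  have hq : r + 2 ≤ N / r := by
    refine dN hr0 (cN ?_)
    push_cast
    rw [← hRe]
    exact hb5
  obtain ⟨d, hd, hcon⟩ := con h1 h2 h3 hr N (by omega)
  obtain ⟨D, hD⟩ : ∃ D : ℕ, D = r * (r + d) := ⟨_, rfl⟩
  have hD1 : r ≤ D := by
    rw [hD]
    exact Nat.le_mul_of_pos_right r (by omega)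
  have hD2 : (D : ℝ) ≤ R ^ 2 + R := by
    have e1 : D ≤ r * (r + 1) := by rw [hD]; exact Nat.mul_le_mul_left r (by omega)
    have e2 : (D : ℝ) ≤ ((r * (r + 1) : ℕ) : ℝ) := by exact_mod_cast e1
    push_cast at e2
    rw [← hRe] at e2
    linarith only [e2]
  have hαN : 0 < al r * N := mul_pos (by linarith only [hα1]) hNpos
  have hj2 : (j : ℝ) ≤ (1 - 2 / R) * (al r * N) := (div_le_iff₀ hαN).mp hj
  have hfl : ((N / r : ℕ) : ℝ) ≤ N / R := by rw [hRe]; exact Nat.cast_div_le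
  obtain ⟨z, hz⟩ : ∃ z : ℝ, z = 1 / R := ⟨_, rfl⟩
  have hzR : z * R = 1 := by rw [hz]; field_simp
  have hz0 : 0 < z := by rw [hz]; positivity
  have hz1 : z ≤ 1 / 3 := by
    rw [hz]; exact one_div_le_one_div_of_le (by norm_num) hR
  have hdivz : ∀ a : ℝ, a / R = a * z := fun a => by rw [hz]; ring
  have ht2 : (j + D + 1) + 2 * (N / r) ≤ N := by
    have : (((j + D + 1) + 2 * (N / r) : ℕ) : ℝ) ≤ N := by
      push_cast
      rw [hdivz] at hfl hj2
      rw [hαe, ← hz] at hj2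
      have e1 : R ^ 2 + R + 1 ≤ z * N / 3 := by
        have e2 : (R ^ 2 + R + 1) * (3 * R) ≤ N := hb6
        have e3 : (R ^ 2 + R + 1) * (3 * R) * z ≤ N * z := mR e2 hz0.le
        have e4 : (R ^ 2 + R + 1) * (3 * R) * z = 3 * (R ^ 2 + R + 1) * (z * R) := by ring
        rw [e4, hzR] at e3
        linarith only [e3]
      have e5 : z * N / 3 ≤ z * N * (1 - 2 * z) := by
        have : z * N * (1 / 3) ≤ z * N * (1 - 2 * z) :=
          mL (by linarith only [hz1]) (mul_pos hz0 hNpos).le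
        linarith only [this]
      linarith only [hD2, hj2, hfl, e1, e5]
    exact_mod_cast this
  obtain ⟨G, H, c, w, A, v1, v2, hWD, hcf, hcol, hpE, hA, himb, hsz⟩ :=
    hcon r (j + D + 1) hq (by omega) ht2 (Fin (N + 3)) (by rw [Fintype.card_fin]; omega)
  rw [← hD] at hpE himb
  have hsq : √(N : ℝ) = y := by rw [← hyN]; exact Real.sqrt_sq (by linarith only [hRpos, hRy])
  have hlow := hL _ G N H c w A v1 v2 hWD (by linarith only [hyK, hNy]) (fun i => by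
    refine (hsz i).trans ?_
    rw [hsq, ← hRe]
    linarith only [hR, hRy])
  rw [hsq] at hlow
  refine ⟨G, hcf, hcol, ?_, le_trans ?_ hlow⟩
  · rw [hpE]; push_cast; ring
  · rw [← hRe, min_eq_left hj]
    have hx0 : 0 ≤ (j : ℝ) / (al r * N) := by positivity
    have hjN : (j : ℝ) / N = al r * (j / (al r * N)) := by field_simp
    obtain ⟨x, hx⟩ : ∃ x : ℝ, x = (j : ℝ) / (al r * N) := ⟨_, rfl⟩
    rw [hjN, ← hx]
    rw [← hx] at hx0
    have hxA : x ≤ (A.card : ℝ) / (al r * N) := by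
      rw [hx]
      refine div_le_div_of_nonneg_right ?_ hαN.le
      rw [hA]
      push_cast
      have : (0 : ℝ) ≤ D := Nat.cast_nonneg D
      linarith only []
    have hxA2 : x ^ 2 ≤ ((A.card : ℝ) / (al r * N)) ^ 2 := pow_le_pow_left₀ hx0 hxA 2
    have e1 : K / y ≤ δ / 2 := by
      rw [div_le_iff₀ (by linarith only [hRpos, hRy])]
      linarith only [hyd, hRpos, hR2]
    have e2 : al r * imb H c / N ≤ δ / 2 := by
      rw [div_le_iff₀ hNpos]
      have f1 : imb H c ≤ 2 * R ^ 2 + 3 * R := by rw [← hRe] at himb; linarith only [hD2, himb]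
      have f2 : al r * imb H c ≤ 2 * R ^ 2 + 3 * R := by
        have g0 : 0 ≤ imb H c := Finset.sum_nonneg fun i _ => sq_nonneg _
        have g1 : al r * imb H c ≤ 1 * imb H c := mR hα2.le g0
        linarith only [f1, g1]
      have f3 : δ * y ≤ δ * N := mL hNy hδ.le
      linarith only [hK, hyd, hR, f2, f3]
    have e3 : al r * x ^ 2 ≤ al r * ((A.card : ℝ) / (al r * N)) ^ 2 :=
      mL hxA2 (by linarith only [hα1])
    linarith only [e1, e2, e3]

lemma exists_s (g r d : ℕ) (hr : 3 ≤ r) : ∃ s : ℕ, s * (s + d) + 1 < g + r ∧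
    g + r ≤ (s + 1) * (s + 1 + d) + 1 := by
  classical
  have hex : ∃ m : ℕ, g + r ≤ m * (m + d) + 1 := by
    refine ⟨g + r, ?_⟩
    have : (g + r) * 1 ≤ (g + r) * (g + r + d) := Nat.mul_le_mul_left _ (by omega)
    omega
  have h1 := Nat.find_spec hex
  have h0 : Nat.find hex ≠ 0 := by
    intro h
    rw [h] at h1
    omega
  obtain ⟨s, hs⟩ := Nat.exists_eq_succ_of_ne_zero h0
  have h2 : ¬ (g + r ≤ s * (s + d) + 1) := Nat.find_min hex (by omega)
  rw [hs] at h1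
  exact ⟨s, by omega, h1⟩

lemma case2 (h1 : Stmt_GD) (h2 : Stmt_EMB) (h3 : Stmt_TN) {r : ℕ} (hr : 3 ≤ r) {K δ : ℝ}
    (hK : 1 ≤ K) (hδ : 0 < δ) (hL : Low r K) (N : ℕ) {y : ℝ} (hy1 : 1 ≤ y)
    (hyN : y ^ 2 = (N : ℝ)) (hyK : K ≤ y) (hyr : 20 * (r : ℝ) ^ 3 ≤ y)
    (hyd : 2 * K + 4 * (r : ℝ) ^ 2 + 12 * r + 24 ≤ δ * y)
    (j : ℕ) (hjN : (j : ℝ) ≤ al r * N) (hj : 1 - 2 / (r : ℝ) ≤ (j : ℝ) / (al r * N)) :
    Con r N j δ := by
  have hr0 : 0 < r := by omega
  have hR : (3 : ℝ) ≤ r := by exact_mod_cast hr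
  obtain ⟨R, hRe⟩ : ∃ R : ℝ, R = (r : ℝ) := ⟨_, rfl⟩
  rw [← hRe] at hR hyr hyd hj
  have hα1 := al_ge hr
  have hα2 := al_lt hr
  have hαe : al r = 1 - 1 / R := by rw [hRe]; rfl
  have hRpos : 0 < R := by linarith only [hR]
  obtain ⟨hR2, hR3, hRy, hNy, -, -⟩ := base hR hyr
  rw [hyN] at hNy
  have hNpos : (0 : ℝ) < N := by linarith only [hRpos, hRy, hNy]
  have hfl : ((N / r : ℕ) : ℝ) ≤ N / R := by rw [hRe]; exact Nat.cast_div_le
  have hfl2 : (N : ℝ) / R < (N / r : ℕ) + 1 := by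
    rw [div_lt_iff₀ hRpos, hRe]
    have h5 : (N : ℝ) < r * ((N / r : ℕ) + 1) := by exact_mod_cast Nat.lt_mul_div_succ N hr0
    linarith only [h5]
  have hflM : (((N + 1) / r : ℕ) : ℝ) ≤ ((N : ℝ) + 1) / R := by
    rw [hRe]
    have := @Nat.cast_div_le ℝ _ _ _ (N + 1) r
    push_cast at this
    exact this
  obtain ⟨z, hz⟩ : ∃ z : ℝ, z = 1 / R := ⟨_, rfl⟩
  have hzR : z * R = 1 := by rw [hz]; field_simp
  have hz0 : 0 < z := by rw [hz]; positivity
  have hz1 : z ≤ 1 / 3 := by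
    rw [hz]; exact one_div_le_one_div_of_le (by norm_num) hR
  have hdivz : ∀ a : ℝ, a / R = a * z := fun a => by rw [hz]; ring
  rw [hdivz] at hfl hfl2 hflM hj
  rw [← hz] at hαe
  -- the gap
  have hg0 : j + N / r ≤ N := by
    have : ((j + N / r : ℕ) : ℝ) ≤ N := by
      push_cast
      rw [hαe] at hjN
      linarith only [hjN, hfl]
    exact_mod_cast this
  obtain ⟨g, hg⟩ : ∃ g : ℕ, j + N / r + g = N := ⟨N - (j + N / r), by omega⟩
  have hgR : (j : ℝ) + (N / r : ℕ) + g = N := by exact_mod_cast hg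
  have hg1 : (g : ℝ) ≤ al r * N + 1 - j := by rw [hαe]; linarith only [hfl2, hgR]
  have hg2 : (g : ℝ) ≤ y ^ 2 := by
    rw [hyN]
    have : (0 : ℝ) ≤ j := Nat.cast_nonneg j
    have : (0 : ℝ) ≤ (N / r : ℕ) := Nat.cast_nonneg _
    linarith only [hgR]
  have hM3 : 3 ≤ (N + 1) / r := by
    rw [Nat.le_div_iff_mul_le hr0]
    have : ((3 * r : ℕ) : ℝ) ≤ (N + 1 : ℕ) := by
      push_cast
      rw [← hRe]
      linarith only [hRy, hNy]
    exact_mod_cast this
  obtain ⟨d, hd, hcon⟩ := con h1 h2 h3 hr (N + 1) hM3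
  obtain ⟨s, hs1, hs2⟩ := exists_s g r d hr
  have hs0 : (0 : ℝ) ≤ s := Nat.cast_nonneg s
  have hsy : (s : ℝ) ≤ 2 * y := by
    have e0 : s * s ≤ s * (s + d) := Nat.mul_le_mul_left s (by omega)
    have e1 : s * s + 1 < g + r := by omega
    have e2 : (s : ℝ) * s + 1 < g + r := by exact_mod_cast e1
    rw [← hRe] at e2
    by_contra hcon'
    push Not at hcon'
    have e3 : (2 * y) * (2 * y) ≤ (s : ℝ) * s :=
      mul_self_le_mul_self (by linarith only [hRpos, hRy]) hcon'.le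
    have e4 : 1 * y ≤ y * y := mR hy1 (by linarith only [hRpos, hRy])
    linarith only [hyN, hRy, hNy, hg2, e2, e3]
  obtain ⟨D, hD⟩ : ∃ D : ℕ, D = (s + 1) * (s + 1 + d) := ⟨_, rfl⟩
  have hD0 : (s + 1) * (s + 1 + d) = s * (s + d) + 2 * s + 1 + d := by ring
  have hD1 : D ≤ g + r + 2 * s := by rw [hD, hD0]; omega
  rw [← hD] at hs2
  obtain ⟨t, ht⟩ : ∃ t : ℕ, t + g = D + 1 := ⟨D + 1 - g, by omega⟩
  have ht1 : r ≤ t := by omega
  have ht3 : t ≤ r + 2 * s + 1 := by omega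
  have ht3R : (t : ℝ) ≤ R + 2 * s + 1 := by rw [hRe]; exact_mod_cast ht3
  have hq : (s + 1) + 2 ≤ (N + 1) / r := by
    rw [Nat.le_div_iff_mul_le hr0]
    have : (((s + 1 + 2) * r : ℕ) : ℝ) ≤ (N + 1 : ℕ) := by
      push_cast
      rw [← hRe, ← hyN]
      have e1 : ((s : ℝ) + 1 + 2) * R ≤ (2 * y + 3) * R :=
        mR (by linarith only [hsy]) hRpos.le
      have e2 : 1 * R ≤ y * R := mR hy1 hRpos.le
      have e3 : 180 * R * y ≤ y * y := mR hRy (by linarith only [hsy])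
      linarith only [hg2, e1, e2, e3]
    exact_mod_cast this
  have ht2 : t + 2 * ((N + 1) / r) ≤ N + 1 := by
    have : ((t + 2 * ((N + 1) / r) : ℕ) : ℝ) ≤ (N + 1 : ℕ) := by
      push_cast
      have e1 : ((N : ℝ) + 1) * (1 / 3) ≤ ((N : ℝ) + 1) * (1 - 2 * z) :=
        mL (by linarith only [hz1]) (by linarith only [])
      have e2 : 3 * (R + 4 * y + 1) ≤ (N : ℝ) := by
        have f1 : 180 * R * y ≤ y * y := mR hRy (by linarith only [hsy])
        have f2 : 180 * 3 * y ≤ 180 * R * y :=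
          mR (by linarith only [hR]) (by linarith only [hsy])
        rw [← hyN]
        linarith only [hR, hRy, f1, f2]
      linarith only [hflM, hsy, ht3R, e1, e2]
    exact_mod_cast this
  obtain ⟨G, H, c, w, A, v1, v2, hWD, hcf, hcol, hpE, hA, himb, hsz⟩ :=
    hcon (s + 1) t hq ht1 ht2 (Fin (N + 3)) (by rw [Fintype.card_fin])
  rw [← hD] at hpE himb
  have hMR : (((N + 1 : ℕ)) : ℝ) = (N : ℝ) + 1 := by push_cast; ring
  have hsq : y ≤ √((N + 1 : ℕ) : ℝ) := by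
    rw [hMR, ← hyN]
    exact Real.le_sqrt_of_sq_le (by linarith only [])
  have hlow := hL _ G (N + 1) H c w A v1 v2 hWD (by rw [hMR]; linarith only [hyK, hNy]) (fun i => by
    refine (hsz i).trans ?_
    push_cast at hsq ⊢
    linarith only [hy1, hsy, hsq])
  refine ⟨G, hcf, hcol, ?_, le_trans ?_ hlow⟩
  · rw [hpE]
    have e1 : (tn r (N + 1) : ℝ) + (N / r : ℕ) = tn r N + N := by
      exact_mod_cast (h3 r hr N).2.2
    have e2 : (t : ℝ) + g = D + 1 := by exact_mod_cast ht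
    linarith only [hgR, e1, e2]
  · rw [← hRe]
    have hj' : 1 - 2 / R ≤ (j : ℝ) / (al r * N) := by rw [hdivz]; exact hj
    rw [min_eq_right hj']
    have hαN : 0 < al r * N := mul_pos (by linarith only [hα1]) hNpos
    obtain ⟨x, hx⟩ : ∃ x : ℝ, x = (j : ℝ) / (al r * N) := ⟨_, rfl⟩
    have hjx : (j : ℝ) / N = al r * x := by rw [hx]; field_simp
    have hjx2 : (j : ℝ) = al r * x * N := by rw [← hjx]; field_simp
    rw [hjx, ← hx, hdivz, hMR]
    have e1 : K / √((N + 1 : ℕ) : ℝ) ≤ δ / 2 := by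
      rw [div_le_iff₀ (by linarith only [hRpos, hRy, hsq])]
      have f1 : δ / 2 * y ≤ δ / 2 * √((N + 1 : ℕ) : ℝ) :=
        mL hsq (by linarith only [hδ])
      linarith only [hyd, hRpos, hR2, f1]
    rw [hMR] at e1
    have e0 : 0 ≤ al r * ((A.card : ℝ) / (al r * ((N : ℝ) + 1))) ^ 2 :=
      mul_nonneg (by linarith only [hαe, hz1]) (sq_nonneg _)
    have hDR : (D : ℝ) ≤ g + R + 2 * s := by rw [hRe]; exact_mod_cast hD1
    have himb2 : imb H c ≤ 3 * R + 2 + 8 * y + 2 * (al r * N - j) := by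
      rw [← hRe] at himb
      linarith only [hg1, hsy, himb, hDR]
    have himb0 : 0 ≤ imb H c := Finset.sum_nonneg fun i _ => sq_nonneg _
    have e2 : al r * imb H c / ((N : ℝ) + 1) ≤ δ / 2 + 2 * al r * (al r - al r * x) := by
      rw [div_le_iff₀ (by linarith only [])]
      have f1 : al r * imb H c ≤ (3 * R + 2 + 8 * y) + 2 * al r * (al r * N - j) := by
        have : al r * imb H c ≤ al r * (3 * R + 2 + 8 * y + 2 * (al r * N - j)) :=
          mL himb2 (by linarith only [hαe, hz1])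
        have g1 : al r * (3 * R + 2 + 8 * y) ≤ 1 * (3 * R + 2 + 8 * y) :=
          mR hα2.le (by linarith only [hy1, hRpos])
        linarith only [this, g1]
      have f2 : 3 * R + 2 + 8 * y ≤ δ / 2 * (N + 1) := by
        have g0 : 1 * (3 * R + 2) ≤ y * (3 * R + 2) :=
          mR hy1 (by linarith only [hRpos])
        have g1 : 3 * R + 2 + 8 * y ≤ (3 * R + 10) * y := by linarith only [g0]
        have g2 : (3 * R + 10) * y ≤ δ / 2 * y * y :=
          mR (by linarith only [hK, hyd, hRpos, hR2]) (by linarith only [hsy])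
        have g3 : δ / 2 * y * y = δ / 2 * N := by rw [← hyN]; ring
        linarith only [hδ, g1, g2, g3]
      have f3 : 0 ≤ al r - al r * x := by
        have g1 : 0 ≤ (al r - al r * x) * N := by
          have : (al r - al r * x) * N = al r * N - j := by rw [hjx2]; ring
          rw [this]; linarith only [hjN]
        exact nonneg_of_mul_nonneg_left g1 hNpos
      have f4 : al r * N - j = (al r - al r * x) * N := by rw [hjx2]; ring
      rw [f4] at f1
      have f5 : 0 ≤ 2 * al r * (al r - al r * x) := mul_nonneg (by linarith only [hαe, hz1]) f3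
      have f6 : (δ / 2 + 2 * al r * (al r - al r * x)) * ((N : ℝ) + 1)
          = δ / 2 * (N + 1) + 2 * al r * ((al r - al r * x) * N)
            + 2 * al r * (al r - al r * x) := by ring
      rw [f6]
      linarith only [f1, f2, f5]
    have hz2 : 1 - 2 * z = 2 * al r - 1 := by rw [hαe]; ring
    rw [hz2]
    have e3 : al r * ((1 - x) * (2 * al r - 1)) = 2 * al r * (al r - al r * x)
        - (al r - al r * x) := by ring
    rw [e3]
    linarith only [e1, e0, e2]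

end LOWX

/-- LOWX -/
theorem blk_LOWX (h1 : Stmt_GD) (h2 : Stmt_EMB) (h3 : Stmt_TN) (h4 : Stmt_LOWG) :
    Stmt_LOWX := by
  intro r δ hr hδ
  obtain ⟨K, hK, hL⟩ := h4 r 4 hr (by norm_num)
  have hL' : LOWX.Low r K := fun V _ G N H c w A v1 v2 hWD hKN hsz =>
    hL V G N H c w A v1 v2 hWD hKN hsz
  obtain ⟨Y, hY⟩ : ∃ Y : ℝ, Y = K + 20 * (r : ℝ) ^ 3
    + (2 * K + 4 * (r : ℝ) ^ 2 + 12 * r + 24) / δ := ⟨_, rfl⟩
  have hr3 : (0 : ℝ) ≤ (r : ℝ) := Nat.cast_nonneg r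
  have hq0 : 0 ≤ (2 * K + 4 * (r : ℝ) ^ 2 + 12 * r + 24) / δ := by positivity
  have hr4 : 0 ≤ 20 * (r : ℝ) ^ 3 := by positivity
  refine ⟨⌈Y ^ 2⌉₊, fun N hN j hj => ?_⟩
  have hNY : Y ^ 2 ≤ N := (Nat.le_ceil _).trans (by exact_mod_cast hN)
  have hyY : Y ≤ √(N : ℝ) := Real.le_sqrt_of_sq_le hNY
  have hyN : √(N : ℝ) ^ 2 = (N : ℝ) := Real.sq_sqrt (Nat.cast_nonneg N)
  have hy1 : 1 ≤ √(N : ℝ) := by linarith only [hK, hY, hq0, hr4, hyY]
  have hyK : K ≤ √(N : ℝ) := by linarith only [hY, hq0, hr4, hyY]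
  have hyr : 20 * (r : ℝ) ^ 3 ≤ √(N : ℝ) := by linarith only [hK, hY, hq0, hyY]
  have hyd : 2 * K + 4 * (r : ℝ) ^ 2 + 12 * r + 24 ≤ δ * √(N : ℝ) := by
    have : (2 * K + 4 * (r : ℝ) ^ 2 + 12 * r + 24) / δ ≤ √(N : ℝ) := by linarith only [hK, hY,
        hr4, hyY]
    rw [div_le_iff₀ hδ] at this
    linarith only [this]
  rcases le_total ((j : ℝ) / (al r * N)) (1 - 2 / r) with h | h
  · exact LOWX.case1 h1 h2 h3 hr hK hδ hL' N hy1 hyN hyK hyr hyd j h
  · exact LOWX.case2 h1 h2 h3 hr hK hδ hL' N hy1 hyN hyK hyr hyd j hj h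

end Pool.Agent.Work.MP_5532fa_up
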