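import Pool.Agent.Work.MP_5532fa_up.Interface4

/-!
# MP_5532fa_co, upgrade, fifth round: the window around `1 - 2/r` and small `j`
-/

open Finset

namespace Pool.Agent.Work.MP_5532fa_up

open MP5532fa (specRad qf pE)

/-- the range up to a little more than `1 - 2/r`, no lower bound -/
def RgV (r N j : ℕ) : Prop := (j : ℝ) ≤ (1 - 2 / r + 1 / (4 * r ^ 2)) * (al r * N)

/-- the same with a lower bound -/
def RgB (r : ℕ) (ε : ℝ) (N j : ℕ) : Prop := ε * N ≤ j ∧ RgV r N j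

/-- `MV2` for the range `RgB` -/
def Stmt_MV2B : Prop := ∀ (r : ℕ) (ε : ℝ), 3 ≤ r → 0 < ε → ∃ (e : ℝ) (N0 : ℕ), 0 < e ∧
  ∀ N ≥ N0, ∀ j : ℕ, RgB r ε N j → ∀ (V : Type) [Fintype V] (G G' : SimpleGraph V)
    (H : Finset V) (c c' : V → Fin r) (w : V) (A A' : Finset V) (J : V → V → ℝ)
    (x y : V → ℝ) (lam lam' xb yb : ℝ) (v : V),
    Fam G H c w A J → Fam G' H c' w A' J → PV G x lam → PV G' y lam' → H.card = N →
    Near r e N j H A c → Est r e N j x lam c H w A xb → Est r e N j y lam' c' H w A' yb →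
    v ∈ H → c' v ≠ c v → (∀ u, u ≠ v → c' u = c u) → (∀ z, J v z = 0) →
    (cl H c (c' v)).card + 2 ≤ (cl H c (c v)).card → A' ⊆ A → v ∉ A' →
    A.card + (cl H c (c' v)).card + 1 = A'.card + (cl H c (c v)).card → lam < lam'

/-- `D1` for the range `RgB` -/
def Stmt_D1B : Prop := ∀ (r : ℕ) (ε : ℝ), 3 ≤ r → 0 < ε → ∃ (δ : ℝ) (N0 : ℕ), 0 < δ ∧
  ∀ N ≥ N0, ∀ j : ℕ, RgB r ε N j → ∀ (V : Type) [Fintype V] (G : SimpleGraph V)
    (H : Finset V) (c : V → Fin r) (w : V) (A : Finset V) (v1 v2 : V),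
    WD G N H c w A v1 v2 → Near r δ N j H A c → MX r G → Bal H c

/-- `E1` for the range `RgB` -/
def Stmt_E1B : Prop := ∀ (r : ℕ) (ε : ℝ), 3 ≤ r → 0 < ε → ∃ (δ : ℝ) (N0 : ℕ), 0 < δ ∧
  ∀ N ≥ N0, ∀ j : ℕ, RgB r ε N j → ∀ (V : Type) [Fintype V] (G : SimpleGraph V)
    (H : Finset V) (c : V → Fin r) (w u : V) (A B : Finset V) (i0 : Fin r),
    WE G N H c w u A B i0 → Near r δ N j H A c → MX r G → Bal H c

/-- `D2` for the range `RgV` -/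
def Stmt_D2V : Prop := ∀ (r : ℕ), 3 ≤ r → ∃ (δ : ℝ) (N0 : ℕ), 0 < δ ∧
  ∀ N ≥ N0, ∀ j : ℕ, RgV r N j → ∀ (V : Type) [Fintype V] (G : SimpleGraph V)
    (H : Finset V) (c : V → Fin r) (w : V) (A : Finset V) (v1 v2 : V),
    WD G N H c w A v1 v2 → Near r δ N j H A c → Bal H c → MX r G →
    Place H A c {c v1, c v2}

/-- `D3` for the range `RgV` -/
def Stmt_D3V : Prop := ∀ (r : ℕ), 3 ≤ r → ∃ (δ : ℝ) (N0 : ℕ), 0 < δ ∧
  ∀ N ≥ N0, ∀ j : ℕ, RgV r N j → ∀ (V : Type) [Fintype V] (G : SimpleGraph V)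
    (H : Finset V) (c : V → Fin r) (w : V) (A : Finset V) (v1 v2 : V),
    WD G N H c w A v1 v2 → Near r δ N j H A c → Bal H c → Place H A c {c v1, c v2} → MX r G →
    Top H c {c v1, c v2}

/-- `EB` for the range `RgV` -/
def Stmt_EBV : Prop := ∀ (r : ℕ), 3 ≤ r → ∃ (δ : ℝ) (N0 : ℕ), 0 < δ ∧
  ∀ N ≥ N0, ∀ j : ℕ, RgV r N j → ∀ (V : Type) [Fintype V] (G : SimpleGraph V)
    (H : Finset V) (c : V → Fin r) (w u : V) (A B : Finset V) (i0 : Fin r),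
    WE G N H c w u A B i0 → Near r δ N j H A c → MX r G → OneOut A B

/-- `E2` for the range `RgV` -/
def Stmt_E2V : Prop := ∀ (r : ℕ), 3 ≤ r → ∃ (δ : ℝ) (N0 : ℕ), 0 < δ ∧
  ∀ N ≥ N0, ∀ j : ℕ, RgV r N j → ∀ (V : Type) [Fintype V] (G : SimpleGraph V)
    (H : Finset V) (c : V → Fin r) (w u : V) (A B : Finset V) (i0 : Fin r),
    WE G N H c w u A B i0 → Near r δ N j H A c → OneOut A B → Bal H c → MX r G →
    Place H A c {i0}

/-- `E3` for the range `RgV` -/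
def Stmt_E3V : Prop := ∀ (r : ℕ), 3 ≤ r → ∃ (δ : ℝ) (N0 : ℕ), 0 < δ ∧
  ∀ N ≥ N0, ∀ j : ℕ, RgV r N j → ∀ (V : Type) [Fintype V] (G : SimpleGraph V)
    (H : Finset V) (c : V → Fin r) (w u : V) (A B : Finset V) (i0 : Fin r),
    WE G N H c w u A B i0 → Near r δ N j H A c → OneOut A B → Bal H c →
    Place H A c {i0} → MX r G → Top H c {i0}

/-- `THRD` for the range `RgB` -/
def Stmt_THRDB : Prop := ∀ (r : ℕ) (ε : ℝ), 3 ≤ r → 0 < ε → ∃ N0 : ℕ, ∀ N ≥ N0, ∀ j : ℕ,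
  RgB r ε N j →
  1 + (j / (al r * N)) ^ 4 / (r * ((r : ℝ) - 1)) + ε ≤ ((r : ℝ) + 1) * (j / (al r * N)) →
  ∀ (V : Type) [Fintype V] (G : SimpleGraph V), TypeE r N j G → ¬ MX r G

/-- the secular function at the spectral radius, type `WE`, upper bound -/
def Stmt_SECE2 : Prop := ∀ (r : ℕ), 3 ≤ r → ∀ (V : Type) [Fintype V] (G : SimpleGraph V)
  (x : V → ℝ) (lam : ℝ) (N : ℕ) (c : V → Fin r) (H : Finset V) (w u : V) (A B : Finset V)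
  (i0 : Fin r), PV G x lam → 0 < lam → WE G N H c w u A B i0 → Ph (sz H c) lam ≤ 0

/-- small `j`: type D with balanced classes -/
def Stmt_W2 : Prop := ∀ (r : ℕ), 3 ≤ r → ∃ (δ : ℝ) (n0 : ℕ), 0 < δ ∧ ∀ n ≥ n0, ∀ j : ℕ,
  r ≤ j + 1 → j + 3 ≤ 2 * r → ∀ (V : Type) [Fintype V] (G : SimpleGraph V) (c : V → Fin r)
    (H : Finset V), C0 r δ n G c H → (∀ i, |sz H c i - n / r| ≤ 2 * √(n : ℝ)) →
    G.CliqueFree (r + 1) → ¬ G.Colorable r → MX r G → pE G = 2 * ((tn r n : ℝ) + j) →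
    ∃ (w : V) (A : Finset V) (v1 v2 : V), WD G n H c w A v1 v2 ∧ Bal H c ∧ A.card = j + 1

/-- `j = 2 r - 2`: type E on an almost balanced graph -/
def Stmt_W3 : Prop := ∀ (r : ℕ), 3 ≤ r → ∃ (δ : ℝ) (n0 : ℕ), 0 < δ ∧ ∀ n ≥ n0, ∀ j : ℕ,
  j + 2 = 2 * r → ∀ (V : Type) [Fintype V] (G : SimpleGraph V) (c : V → Fin r)
    (H : Finset V), n + 2 ≤ Fintype.card V → C0 r δ n G c H →
    (∀ i, |sz H c i - n / r| ≤ 2 * √(n : ℝ)) →
    G.CliqueFree (r + 1) → ¬ G.Colorable r → MX r G → pE G = 2 * ((tn r n : ℝ) + j) →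
    ∃ (w u : V) (A B : Finset V) (i0 : Fin r), WE G n H c w u A B i0 ∧ A.card + 1 = r ∧
      ∑ i, (cl H c i).card ^ 2 + 2 * tn r n = n ^ 2 + 2

end Pool.Agent.Work.MP_5532fa_up
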