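import Pool.Agent.Work.MP_5532fa_up.MV2
import Pool.Agent.Work.MP_5532fa_up.Interface5

/-!
# Block MV2B: moving one vertex from a larger class to a smaller class, wider range
-/

set_option autoImplicit false

open Finset

namespace Pool.Agent.Work.MP_5532fa_up

open MP5532fa (specRad qf pE)

namespace MV2B

open MV2 (prod_bd)

theorem coreB {R xv yv xb yb D D' xw yw Sx Sy a X b b' g e : ℝ} (hR : 3 ≤ R)
    (he0 : 0 < e) (he1 : e ≤ 1 / 90) (hxb : 0 < xb) (hyb : 0 < yb) (hg : 1 ≤ g)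
    (hxv : |xv - xb| ≤ e * xb) (hyv : |yv - yb| ≤ e * yb)
    (hD : |D - xb * (a * (g + 1) + X * b)| ≤ e * xb * (g + 2))
    (hD' : |D' - yb * (a * (g - 1) + X * b')| ≤ e * yb * g)
    (hxw : xw ≤ (X + e) * xb) (hyw : yw ≤ (X + e) * yb) (hxw0 : 0 ≤ xw) (hyw0 : 0 ≤ yw)
    (hSx : Sx ≤ g * ((1 + e) * xb)) (hSy : Sy ≤ g * ((1 + e) * yb))
    (hb1 : -(1 / R + e) ≤ b) (hb2 : b ≤ 1) (hb1' : -(1 / R + e) ≤ b') (hb2' : b' ≤ 1)
    (hX0 : 0 ≤ X) (hX1 : X ≤ 1) (ha0 : 0 ≤ a) (ha1 : a ≤ 1)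
    (hkey : 20 * e ≤ a - X * (1 + 1 / R)) :
    0 < xv * D' + yv * D - (xw * Sy + yw * Sx) := by
  have hRi : 1 / R ≤ 1 / 3 := one_div_le_one_div_of_le (by norm_num) hR
  have hRi0 : 0 < 1 / R := by positivity
  have hb3 : |b| ≤ 1 := abs_le.2 ⟨by linarith, hb2⟩
  have hb3' : |b'| ≤ 1 := abs_le.2 ⟨by linarith, hb2'⟩
  have hXb : |X * b| ≤ 1 := by
    rw [abs_mul, abs_of_nonneg hX0]
    exact mul_le_one₀ hX1 (abs_nonneg _) hb3
  have hXb' : |X * b'| ≤ 1 := by
    rw [abs_mul, abs_of_nonneg hX0]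
    exact mul_le_one₀ hX1 (abs_nonneg _) hb3'
  have hd' : |a * (g - 1) + X * b'| ≤ g := by
    have h1 : |a * (g - 1)| ≤ g - 1 := by
      rw [abs_mul, abs_of_nonneg ha0, abs_of_nonneg (by linarith : (0 : ℝ) ≤ g - 1)]
      exact mul_le_of_le_one_left (by linarith) ha1
    calc |a * (g - 1) + X * b'| ≤ |a * (g - 1)| + |X * b'| := abs_add_le _ _
      _ ≤ g := by linarith
  have hd : |a * (g + 1) + X * b| ≤ 3 * g := by
    have h1 : |a * (g + 1)| ≤ g + 1 := by
      rw [abs_mul, abs_of_nonneg ha0, abs_of_nonneg (by linarith : (0 : ℝ) ≤ g + 1)]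
      exact mul_le_of_le_one_left (by linarith) ha1
    calc |a * (g + 1) + X * b| ≤ |a * (g + 1)| + |X * b| := abs_add_le _ _
      _ ≤ 3 * g := by linarith
  have t1 := prod_bd (f := e * g) hxb hyb he0.le (by positivity) hxv
    (hD'.trans_eq (by ring)) hd'
  have t2 := prod_bd (f := 3 * e * g) hyb hxb he0.le (by positivity) hyv
    (hD.trans (by
      have : e * xb * (g + 2) ≤ e * xb * (3 * g) :=
        mul_le_mul_of_nonneg_left (by linarith) (by positivity)
      calc e * xb * (g + 2) ≤ e * xb * (3 * g) := this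
        _ = 3 * e * g * xb := by ring)) hd
  have t3 : xw * Sy ≤ (X + e) * xb * (g * ((1 + e) * yb)) := by
    rcases le_or_gt 0 Sy with h | h
    · exact mul_le_mul hxw hSy h (by positivity)
    · exact (mul_nonpos_of_nonneg_of_nonpos hxw0 h.le).trans (by positivity)
  have t4 : yw * Sx ≤ (X + e) * yb * (g * ((1 + e) * xb)) := by
    rcases le_or_gt 0 Sx with h | h
    · exact mul_le_mul hyw hSx h (by positivity)
    · exact (mul_nonpos_of_nonneg_of_nonpos hyw0 h.le).trans (by positivity)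
  have hP : 0 < xb * yb := mul_pos hxb hyb
  -- the numeric inequality
  have hnum : 0 < (a * (g - 1) + X * b' - e * g - e * (g + e * g)) +
      (a * (g + 1) + X * b - 3 * e * g - e * (3 * g + 3 * e * g)) -
      2 * ((X + e) * (g * (1 + e))) := by
    have n1 : X * b ≥ -(X * (1 / R)) - e := by
      have : X * (-(1 / R + e)) ≤ X * b := mul_le_mul_of_nonneg_left hb1 hX0
      have h2 : X * e ≤ e := mul_le_of_le_one_left he0.le hX1
      linarith
    have n2 : X * b' ≥ -(X * (1 / R)) - e := by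
      have : X * (-(1 / R + e)) ≤ X * b' := mul_le_mul_of_nonneg_left hb1' hX0
      have h2 : X * e ≤ e := mul_le_of_le_one_left he0.le hX1
      linarith
    have n3 : X * (1 / R) ≤ X * (1 / R) * g := le_mul_of_one_le_right (by positivity) hg
    have n4 : e ≤ e * g := le_mul_of_one_le_right he0.le hg
    have n5 : (X + e) * (g * (1 + e)) ≤ X * g + 3 * (e * g) := by
      have h1 : (X + e) * (1 + e) ≤ X + 3 * e := by nlinarith
      calc (X + e) * (g * (1 + e)) = ((X + e) * (1 + e)) * g := by ring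
        _ ≤ (X + 3 * e) * g := mul_le_mul_of_nonneg_right h1 (by linarith)
        _ = X * g + 3 * (e * g) := by ring
    have n6 : e * (e * g) ≤ e * g := by
      have h0 : 0 ≤ e * g := by positivity
      exact mul_le_of_le_one_left h0 (by linarith)
    have n7 : (20 * e) * g ≤ (a - X * (1 + 1 / R)) * g :=
      mul_le_mul_of_nonneg_right hkey (by linarith)
    have n9 : 0 < e * g := by positivity
    nlinarith
  have hfin : 0 < xb * yb * ((a * (g - 1) + X * b' - e * g - e * (g + e * g)) +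
      (a * (g + 1) + X * b - 3 * e * g - e * (3 * g + 3 * e * g)) -
      2 * ((X + e) * (g * (1 + e)))) := mul_pos hP hnum
  have hexp : xb * yb * ((a * (g - 1) + X * b' - e * g - e * (g + e * g)) +
      (a * (g + 1) + X * b - 3 * e * g - e * (3 * g + 3 * e * g)) -
      2 * ((X + e) * (g * (1 + e)))) =
      xb * yb * (a * (g - 1) + X * b' - e * g - e * (g + e * g)) +
      yb * xb * (a * (g + 1) + X * b - 3 * e * g - e * (3 * g + 3 * e * g)) -
      ((X + e) * xb * (g * ((1 + e) * yb)) + (X + e) * yb * (g * ((1 + e) * xb))) := by ring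
  rw [hexp] at hfin
  linarith

end MV2B

theorem blk_MV2B : Stmt_MV2B := by
  classical
  intro r ε hr hε
  have hR : (3 : ℝ) ≤ (r : ℝ) := by exact_mod_cast hr
  refine ⟨1 / (20 * (r : ℝ) ^ 2), 1, by positivity, ?_⟩
  intro N hN j hRg V _ G G' H c c' w A A' J x y lam lam' xb yb v hF hF' hP hP' hcard hNear hE hE'
    hvH hc1 hc2 hJ hsz hAA hvA hA
  set e : ℝ := 1 / (20 * (r : ℝ) ^ 2) with he
  have hR2 : (9 : ℝ) ≤ (r : ℝ) ^ 2 := by nlinarith
  have he0 : 0 < e := by rw [he]; positivity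
  have he1 : e ≤ 1 / 90 := by
    rw [he]
    exact one_div_le_one_div_of_le (by norm_num) (by linarith)
  have he2 : 20 * e = 1 / (r : ℝ) ^ 2 := by
    rw [he]
    field_simp
  have hN1 : (1 : ℝ) ≤ N := by exact_mod_cast hN
  have hN0 : (0 : ℝ) < N := by linarith
  by_contra hcon
  push Not at hcon
  -- class sizes
  have hclo := MV2.cl_old hvH hc1 hc2
  have hcln := MV2.cl_new hvH hc1 hc2
  have hv1 : v ∈ cl H c (c v) := mem_cl.2 ⟨hvH, rfl⟩
  have hv2 : v ∉ cl H c (c' v) := fun h => hc1 (mem_cl.1 h).2.symm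
  have hszo : sz H c' (c v) = sz H c (c v) - 1 := by
    unfold sz
    rw [hclo, Finset.card_erase_of_mem hv1, Nat.cast_sub (Finset.card_pos.2 ⟨v, hv1⟩)]
    simp
  have hszn : sz H c' (c' v) = sz H c (c' v) + 1 := by
    unfold sz
    rw [hcln, Finset.card_insert_of_notMem hv2]
    push_cast
    ring
  have hcso : ∀ z : V → ℝ, cs z H c' (c v) = cs z H c (c v) - z v := fun z => by
    unfold cs
    rw [hclo, ← Finset.add_sum_erase _ z hv1]
    ring
  have hcsn : ∀ z : V → ℝ, cs z H c' (c' v) = cs z H c (c' v) + z v := fun z => by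
    unfold cs
    rw [hcln, Finset.sum_insert hv2]
    ring
  have hcsoth : ∀ (z : V → ℝ) (i : Fin r), i ≠ c v → i ≠ c' v → cs z H c' i = cs z H c i :=
    fun z i h1 h2 => by
      unfold cs
      rw [MV2.cl_other hc2 h1 h2]
  set g : ℝ := sz H c (c v) - sz H c (c' v) - 1 with hg
  have hg1 : 1 ≤ g := by
    have : ((cl H c (c' v)).card : ℝ) + 2 ≤ ((cl H c (c v)).card : ℝ) := by exact_mod_cast hsz
    rw [hg]
    unfold sz
    linarith
  have hAcard : ((A \ A').card : ℝ) = g := by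
    rw [Finset.card_sdiff_of_subset hAA, Nat.cast_sub (Finset.card_le_card hAA)]
    have : (A.card : ℝ) + ((cl H c (c' v)).card : ℝ) + 1 =
        (A'.card : ℝ) + ((cl H c (c v)).card : ℝ) := by exact_mod_cast hA
    rw [hg]
    unfold sz
    linarith
  -- the pairing identity
  have hpair := pairing hP hP'
  have hdiff : ∑ p, ∑ q, (ad G' p q - ad G p q) * (x p * y q) =
      x v * (cs y H c' (c v) - cs y H c' (c' v)) + y v * (cs x H c (c v) - cs x H c (c' v)) -
        (x w * ∑ u ∈ A \ A', y u + y w * ∑ u ∈ A \ A', x u) := by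
    have h1 : ∀ p q, (ad G' p q - ad G p q) * (x p * y q) =
        (chi (p ∈ H ∧ q ∈ H ∧ c' p ≠ c' q) * (x p * y q) -
          chi (p ∈ H ∧ q ∈ H ∧ c p ≠ c q) * (x p * y q)) +
        (chi (p = w ∧ q ∈ A') * (x p * y q) - chi (p = w ∧ q ∈ A) * (x p * y q)) +
          (chi (q = w ∧ p ∈ A') * (x p * y q) - chi (q = w ∧ p ∈ A) * (x p * y q)) := by
      intro p q
      rw [hF.adj p q, hF'.adj p q]
      ring
    rw [Finset.sum_congr rfl fun p _ => Finset.sum_congr rfl fun q _ => h1 p q]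
    simp only [Finset.sum_add_distrib, Finset.sum_sub_distrib]
    rw [MV2.dbl1, MV2.dbl1, MV2.dbl2, MV2.dbl2, MV2.multi, MV2.multi]
    have h2 : ∑ i, cs x H c i * cs y H c i - ∑ i, cs x H c' i * cs y H c' i =
        y v * (cs x H c (c v) - cs x H c (c' v)) +
          x v * (cs y H c (c v) - cs y H c (c' v) - 2 * y v) := by
      rw [← Finset.sum_sub_distrib, Fintype.sum_eq_add (c v) (c' v) hc1.symm]
      · rw [hcso x, hcso y, hcsn x, hcsn y]
        ring
      · rintro i ⟨h1, h2⟩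
        rw [hcsoth x i h1 h2, hcsoth y i h1 h2, sub_self]
    have h3 : ∀ f : V → ℝ, ∑ u ∈ A \ A', f u = ∑ u ∈ A, f u - ∑ u ∈ A', f u := fun f => by
      rw [← Finset.sum_sdiff hAA]
      ring
    rw [h3 x, h3 y, hcso y, hcsn y]
    linear_combination h2
  rw [hdiff] at hpair
  have hxy : 0 ≤ ∑ v, x v * y v :=
    Finset.sum_nonneg fun v _ => mul_nonneg (hP.nn v) (hP'.nn v)
  have hle : x v * (cs y H c' (c v) - cs y H c' (c' v)) +
      y v * (cs x H c (c v) - cs x H c (c' v)) -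
        (x w * ∑ u ∈ A \ A', y u + y w * ∑ u ∈ A \ A', x u) ≤ 0 := by
    rw [hpair]
    exact mul_nonpos_of_nonpos_of_nonneg (by linarith) hxy
  -- the quantities
  have hal0 : 0 < al r := by have := al_ge hr; linarith
  have hal1 : al r ≤ 1 := (al_lt hr).le
  set X : ℝ := (j : ℝ) / (al r * N) with hX
  have hX0 : 0 ≤ X := by positivity
  have hXle : X ≤ 1 - 2 / (r : ℝ) + 1 / (4 * (r : ℝ) ^ 2) := by
    rw [hX, div_le_iff₀ (by positivity)]
    exact hRg.2
  have hr0 : 0 < (r : ℝ) := by linarith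
  have hq : 1 / (4 * (r : ℝ) ^ 2) ≤ 2 / (r : ℝ) := by
    rw [div_le_div_iff₀ (by positivity) hr0]
    nlinarith
  have hX1 : X ≤ 1 := by linarith
  have hkey : 20 * e ≤ al r - X * (1 + 1 / (r : ℝ)) := by
    have h1 : X * (1 + 1 / (r : ℝ)) ≤
        (1 - 2 / (r : ℝ) + 1 / (4 * (r : ℝ) ^ 2)) * (1 + 1 / (r : ℝ)) :=
      mul_le_mul_of_nonneg_right hXle (by positivity)
    have h2 : al r - (1 - 2 / (r : ℝ) + 1 / (4 * (r : ℝ) ^ 2)) * (1 + 1 / (r : ℝ)) =
        2 / (r : ℝ) ^ 2 - 1 / (4 * (r : ℝ) ^ 2) * (1 + 1 / (r : ℝ)) := by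
      unfold al
      field_simp
      ring
    have h3 : 1 / (4 * (r : ℝ) ^ 2) * (1 + 1 / (r : ℝ)) ≤ 1 / (4 * (r : ℝ) ^ 2) * 4 := by
      refine mul_le_mul_of_nonneg_left ?_ (by positivity)
      have : 1 / (r : ℝ) ≤ 1 / 3 := one_div_le_one_div_of_le (by norm_num) hR
      linarith
    have h4 : 1 / (4 * (r : ℝ) ^ 2) * 4 = 1 / (r : ℝ) ^ 2 := by
      field_simp
    have h5 : 2 / (r : ℝ) ^ 2 = 1 / (r : ℝ) ^ 2 + 1 / (r : ℝ) ^ 2 := by ring
    linarith
  have hAH : ∀ i, sz A c i ≤ sz H c i := fun i => by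
    unfold sz
    exact_mod_cast Finset.card_le_card (fun u hu => mem_cl.2 ⟨hF.hA (mem_cl.1 hu).1,
      (mem_cl.1 hu).2⟩)
  have hHN : ∀ i, sz H c i ≤ N := fun i => by
    unfold sz
    rw [← hcard]
    exact_mod_cast Finset.card_le_card (fun u hu => (mem_cl.1 hu).1)
  have hA'A : ∀ i, sz A' c' i ≤ sz A c i := fun i => by
    unfold sz
    refine Nat.cast_le.2 (Finset.card_le_card fun u hu => ?_)
    have h1 := mem_cl.1 hu
    have h2 : u ≠ v := fun h => hvA (h ▸ h1.1)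
    exact mem_cl.2 ⟨hAA h1.1, (hc2 u h2) ▸ h1.2⟩
  have hsz0 : ∀ (S : Finset V) (d : V → Fin r) (i : Fin r), 0 ≤ sz S d i := fun S d i => by
    unfold sz
    positivity
  have hnk : sz H c (c' v) ≤ (1 / (r : ℝ) + e) * N := by
    have h1 := (abs_le.1 (hNear.1 (c' v))).2
    have h2 : (1 / (r : ℝ) + e) * N = N / r + e * N := by ring
    rw [h2]
    linarith
  have hb1 : -(1 / (r : ℝ) + e) ≤ (sz A c (c v) - sz A c (c' v)) / N := by
    rw [le_div_iff₀ hN0]
    have := hsz0 A c (c v)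
    have := hAH (c' v)
    linarith
  have hb2 : (sz A c (c v) - sz A c (c' v)) / N ≤ 1 := by
    rw [div_le_one hN0]
    have := hsz0 A c (c' v)
    have := hAH (c v)
    have := hHN (c v)
    linarith
  have hb1' : -(1 / (r : ℝ) + e) ≤ (sz A' c' (c v) - sz A' c' (c' v)) / N := by
    rw [le_div_iff₀ hN0]
    have := hsz0 A' c' (c v)
    have := hAH (c' v)
    have := hA'A (c' v)
    linarith
  have hb2' : (sz A' c' (c v) - sz A' c' (c' v)) / N ≤ 1 := by
    rw [div_le_one hN0]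
    have := hsz0 A' c' (c' v)
    have := hAH (c v)
    have := hA'A (c v)
    have := hHN (c v)
    linarith
  have hD := hE.dif (c v) (c' v)
  have hD' := hE'.dif (c v) (c' v)
  rw [hszo, hszn] at hD'
  have hg2 : sz H c (c v) - sz H c (c' v) = g + 1 := by rw [hg]; ring
  have hg3 : sz H c (c v) - 1 - (sz H c (c' v) + 1) = g - 1 := by rw [hg]; ring
  rw [hg2, abs_of_nonneg (by linarith : (0 : ℝ) ≤ g + 1)] at hD
  rw [hg3, abs_of_nonneg (by linarith : (0 : ℝ) ≤ g - 1)] at hD'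
  have hsumb : ∀ (z : V → ℝ) (zb : ℝ), (∀ u ∈ H, |z u - zb| ≤ e * zb) →
      ∑ u ∈ A \ A', z u ≤ g * ((1 + e) * zb) := by
    intro z zb h
    have h1 : ∑ u ∈ A \ A', z u ≤ ∑ u ∈ A \ A', (1 + e) * zb := by
      refine Finset.sum_le_sum fun u hu => ?_
      have h2 := (abs_le.1 (h u (hF.hA (Finset.mem_sdiff.1 hu).1))).2
      linarith
    rw [Finset.sum_const, nsmul_eq_mul, hAcard] at h1
    exact h1
  have hfin := MV2B.coreB (xv := x v) (yv := y v) (xw := x w) (yw := y w) hR he0 he1 hE.xb0 hE'.xb0 hg1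
    (hE.xH v hvH) (hE'.xH v hvH) (hD.trans_eq (by ring)) (hD'.trans_eq (by ring))
    (by have := (abs_le.1 hE.xw).2; linarith) (by have := (abs_le.1 hE'.xw).2; linarith)
    (hP.nn w) (hP'.nn w) (hsumb x xb hE.xH) (hsumb y yb hE'.xH) hb1 hb2 hb1' hb2' hX0 hX1
    hal0.le hal1 hkey
  linarith

end Pool.Agent.Work.MP_5532fa_up
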