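import Pool.Agent.Work.MP_5532fa_up.Interface4

/-!
# MP_5532fa_co, upgrade: block REP
-/

open Finset

namespace Pool.Agent.Work.MP_5532fa_up

theorem blk_REP (hREPL : Stmt_REPL) : Stmt_REP := by
  classical
  intro r hr M S hex hpar
  obtain ⟨l, rfl⟩ : ∃ l, r = l + 1 := ⟨r - 1, by omega⟩
  have hl : 5 ≤ l := by omega
  -- the possible entries
  set P : ℤ → Prop := fun T => ∃ (z : Fin (l + 1) → ℤ) (i : Fin (l + 1)),
    ∑ k, z k = M ∧ ∑ k, z k ^ 2 ≤ S ∧ z i = T with hP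
  have hbd : ∃ b : ℤ, ∀ T, P T → T ≤ b := by
    refine ⟨S, ?_⟩
    rintro T ⟨z, i, h1, h2, rfl⟩
    have h3 : z i ^ 2 ≤ ∑ k, z k ^ 2 :=
      Finset.single_le_sum (f := fun k => z k ^ 2) (fun _ _ => sq_nonneg _) (Finset.mem_univ i)
    have h4 : z i ≤ z i ^ 2 := by
      rcases le_or_gt (z i) 0 with h | h
      · exact h.trans (sq_nonneg _)
      · nlinarith
    linarith
  have hinh : ∃ T, P T := by
    obtain ⟨y, hy1, hy2⟩ := hex
    exact ⟨y 0, y, 0, hy1, hy2, rfl⟩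
  obtain ⟨T, ⟨z, i, hz1, hz2, hz3⟩, hmax⟩ := Int.exists_greatest_of_bdd hbd hinh
  rw [Fin.sum_univ_succAbove _ i, hz3] at hz1
  rw [Fin.sum_univ_succAbove _ i, hz3] at hz2
  have hpar' : Even ((S - T ^ 2) - (M - T)) := by
    obtain ⟨a, ha⟩ := hpar
    obtain ⟨b, hb⟩ := Int.even_mul_pred_self T
    refine ⟨a - b, ?_⟩
    linarith
  obtain ⟨y, hy1, hy2⟩ := hREPL l hl (M - T) (S - T ^ 2)
    ⟨fun k => z (i.succAbove k), by linarith, by linarith⟩ hpar'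
  refine ⟨Fin.cons T y, 0, ?_, ?_, ?_⟩
  · rw [Fin.sum_univ_succ]
    simp only [Fin.cons_zero, Fin.cons_succ]
    linarith
  · rw [Fin.sum_univ_succ]
    simp only [Fin.cons_zero, Fin.cons_succ]
    linarith
  · intro z' h1 h2 k
    rw [Fin.cons_zero]
    exact hmax (z' k) ⟨z', k, h1, h2, rfl⟩

end Pool.Agent.Work.MP_5532fa_up
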