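import Pool.Agent.Work.MP_5532fa_up.Interface4

/-!
# Block REPL: vectors with given sum and sum of squares
-/

open Finset

namespace Pool.Agent.Work.MP_5532fa_up

namespace REPL

/-- four integers with odd sum `b` and odd sum of squares `a` -/
theorem four (h : Stmt_TSQ) (a b : ℤ) (ha : a % 2 = 1) (hb : b % 2 = 1)
    (hpos : 0 < 4 * a - b ^ 2) :
    ∃ u1 u2 u3 u4 : ℤ, u1 + u2 + u3 + u4 = b ∧ u1 ^ 2 + u2 ^ 2 + u3 ^ 2 + u4 ^ 2 = a := by
  obtain ⟨a', rfl⟩ : ∃ a', a = 2 * a' + 1 := ⟨a / 2, by omega⟩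
  obtain ⟨b', rfl⟩ : ∃ b', b = 2 * b' + 1 := ⟨b / 2, by omega⟩
  have hm : (4 * (2 * a' + 1) - (2 * b' + 1) ^ 2) % 8 = 3 := by
    obtain ⟨c, hc⟩ : ∃ c, b' * (b' + 1) = 2 * c := by
      obtain ⟨c, hc⟩ := Int.even_mul_succ_self b'
      exact ⟨c, by omega⟩
    have e : 4 * (2 * a' + 1) - (2 * b' + 1) ^ 2 = 8 * (a' - c) + 3 := by
      linear_combination (-4) * hc
    rw [e]
    omega
  obtain ⟨n, hn⟩ : ∃ n : ℕ, (n : ℤ) = 4 * (2 * a' + 1) - (2 * b' + 1) ^ 2 :=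
    ⟨(4 * (2 * a' + 1) - (2 * b' + 1) ^ 2).toNat, Int.toNat_of_nonneg hpos.le⟩
  have hn8 : n % 8 = 3 := by omega
  obtain ⟨x, y, z, hxyz⟩ := h n hn8
  have hodd : x % 2 = 1 ∧ y % 2 = 1 ∧ z % 2 = 1 := by
    have key : ∀ t : ℕ, t ^ 2 % 8 = if t % 2 = 1 then 1 else (if t % 4 = 0 then 0 else 4) := by
      intro t
      have h1 : t % 8 < 8 := Nat.mod_lt _ (by norm_num)
      rw [Nat.pow_mod]
      have h2 : t % 2 = (t % 8) % 2 := by omega
      have h4 : t % 4 = (t % 8) % 4 := by omega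
      rw [h2, h4]
      interval_cases (t % 8) <;> simp
    have hx := key x
    have hy := key y
    have hz := key z
    rw [hxyz] at hn8
    refine ⟨?_, ?_, ?_⟩
    · by_contra hc
      rw [if_neg hc] at hx
      split_ifs at hx hy hz <;> omega
    · by_contra hc
      rw [if_neg hc] at hy
      split_ifs at hx hy hz <;> omega
    · by_contra hc
      rw [if_neg hc] at hz
      split_ifs at hx hy hz <;> omega
  obtain ⟨hx, hy, hz⟩ := hodd
  have hsum : (x : ℤ) ^ 2 + (y : ℤ) ^ 2 + (z : ℤ) ^ 2 = 4 * (2 * a' + 1) - (2 * b' + 1) ^ 2 := by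
    rw [← hn, hxyz]
    push_cast
    ring
  -- choose the sign of z
  obtain ⟨w, hw1, hw2⟩ : ∃ w : ℤ, w ^ 2 = (z : ℤ) ^ 2 ∧ (2 * b' + 1 + x + y + w) % 4 = 0 := by
    by_cases h4 : (2 * b' + 1 + x + y + z) % 4 = 0
    · exact ⟨z, rfl, h4⟩
    · refine ⟨-z, by ring, ?_⟩
      omega
  have hwodd : w % 2 = 1 := by
    omega
  obtain ⟨u, hu⟩ : ∃ u, 2 * b' + 1 + x + y + w = 4 * u :=
    ⟨(2 * b' + 1 + x + y + w) / 4, by omega⟩
  obtain ⟨p1, hp1⟩ : ∃ p, (y : ℤ) + w = 2 * p := ⟨((y : ℤ) + w) / 2, by omega⟩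
  obtain ⟨p2, hp2⟩ : ∃ p, (x : ℤ) + w = 2 * p := ⟨((x : ℤ) + w) / 2, by omega⟩
  obtain ⟨p3, hp3⟩ : ∃ p, (x : ℤ) + y = 2 * p := ⟨((x : ℤ) + y) / 2, by omega⟩
  refine ⟨u, u - p1, u - p2, u - p3, ?_, ?_⟩
  · linarith
  · have e1 : (x : ℤ) = p2 + p3 - p1 := by linarith
    have e2 : (y : ℤ) = p1 + p3 - p2 := by linarith
    have e3 : w = p1 + p2 - p3 := by linarith
    have e4 : (2 * b' + 1) = 4 * u - p1 - p2 - p3 := by linarith
    rw [← hw1, e1, e2, e3, e4] at hsum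
    linarith

/-- five coordinates -/
theorem five (h : Stmt_TSQ) (s k : ℤ) (hs0 : 0 ≤ s) (hs : s < 5) (hk : 0 ≤ k) :
    ∃ u : Fin 5 → ℤ, ∑ i, u i = s ∧ ∑ i, u i ^ 2 = s + 2 * k := by
  have main : ∀ t b a : ℤ, t ^ 2 = t → a % 2 = 1 → b % 2 = 1 → 0 < 4 * a - b ^ 2 → b + t = s →
      a + t = s + 2 * k → ∃ u : Fin 5 → ℤ, ∑ i, u i = s ∧ ∑ i, u i ^ 2 = s + 2 * k := by
    intro t b a ht ha hb hpos h1 h2
    obtain ⟨u1, u2, u3, u4, e1, e2⟩ := four h a b ha hb hpos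
    refine ⟨![u1, u2, u3, u4, t], ?_, ?_⟩
    · simp [Fin.sum_univ_succ]
      linarith
    · simp [Fin.sum_univ_succ]
      rw [ht]
      linarith
  interval_cases s
  · rcases eq_or_lt_of_le hk with h0 | h0
    · exact ⟨fun _ => 0, by simp, by simp [← h0]⟩
    · exact main 1 (-1) (2 * k - 1) (by norm_num) (by omega) (by norm_num) (by nlinarith)
        (by norm_num) (by ring)
  · exact main 0 1 (1 + 2 * k) (by norm_num) (by omega) (by norm_num) (by nlinarith)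
      (by norm_num) (by ring)
  · exact main 1 1 (1 + 2 * k) (by norm_num) (by omega) (by norm_num) (by nlinarith)
      (by norm_num) (by ring)
  · exact main 0 3 (3 + 2 * k) (by norm_num) (by omega) (by norm_num) (by nlinarith)
      (by norm_num) (by ring)
  · exact main 1 3 (3 + 2 * k) (by norm_num) (by omega) (by norm_num) (by nlinarith)
      (by norm_num) (by ring)

theorem many (h : Stmt_TSQ) (l : ℕ) (hl : 5 ≤ l) : ∀ (s k : ℤ), 0 ≤ s → s < l → 0 ≤ k →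
    ∃ u : Fin l → ℤ, ∑ i, u i = s ∧ ∑ i, u i ^ 2 = s + 2 * k := by
  induction l, hl using Nat.le_induction with
  | base =>
    intro s k h0 h1 hk
    exact five h s k h0 (by exact_mod_cast h1) hk
  | succ l hl ih =>
    intro s k h0 h1 hk
    rcases eq_or_lt_of_le h0 with h2 | h2
    · obtain ⟨u, e1, e2⟩ := ih 0 k le_rfl (by omega) hk
      refine ⟨Fin.cons 0 u, ?_, ?_⟩
      · simp [Fin.sum_univ_succ, e1, h2]
      · simp [Fin.sum_univ_succ, e2, ← h2]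
    · obtain ⟨u, e1, e2⟩ := ih (s - 1) k (by omega) (by push_cast at h1; omega) hk
      refine ⟨Fin.cons 1 u, ?_, ?_⟩
      · simp [Fin.sum_univ_succ, e1]
      · simp [Fin.sum_univ_succ, e2]
        ring

end REPL

open REPL in
theorem blk_REPL (h : Stmt_TSQ) : Stmt_REPL := by
  intro l hl M S hy hpar
  obtain ⟨y, hy1, hy2⟩ := hy
  have hl0 : (0 : ℤ) < l := by omega
  set q := M / l with hq
  set s := M % l with hs
  have hM : M = l * q + s := (Int.mul_ediv_add_emod M l).symm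
  have hs0 : 0 ≤ s := Int.emod_nonneg _ hl0.ne'
  have hs1 : s < l := Int.emod_lt_of_pos _ hl0
  -- the sum of squares of `y - q`
  have hsq : ∀ v : Fin l → ℤ, ∑ i, (v i - q) ^ 2 = ∑ i, v i ^ 2 - 2 * q * ∑ i, v i + l * q ^ 2 := by
    intro v
    have e : ∀ i, (v i - q) ^ 2 = v i ^ 2 - 2 * q * v i + q ^ 2 := fun i => by ring
    simp only [e]
    rw [Finset.sum_add_distrib, Finset.sum_sub_distrib, ← Finset.mul_sum]
    simp
  have hge : s ≤ ∑ i, (y i - q) ^ 2 := by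
    have h1 : ∀ i, y i - q ≤ (y i - q) ^ 2 := fun i => Int.le_self_sq _
    have h2 := Finset.sum_le_sum (fun i (_ : i ∈ Finset.univ) => h1 i)
    rw [Finset.sum_sub_distrib, hy1] at h2
    simp at h2
    linarith
  obtain ⟨k, hk⟩ : ∃ k, S - 2 * q * M + l * q ^ 2 = s + 2 * k := by
    obtain ⟨c, hc⟩ := hpar
    obtain ⟨d, hd⟩ := Int.even_mul_succ_self q
    refine ⟨c - q * M + l * d, ?_⟩
    have e1 : q ^ 2 = d + d - q := by linarith [hd, (by ring : q * (q + 1) = q ^ 2 + q)]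
    rw [e1]
    linarith [hM, hc, (by ring : (l : ℤ) * (d + d - q) = 2 * (l * d) - l * q)]
  have hk0 : 0 ≤ k := by
    rw [hsq, hy1] at hge
    linarith
  obtain ⟨u, e1, e2⟩ := many h l hl s k hs0 hs1 hk0
  refine ⟨fun i => u i + q, ?_, ?_⟩
  · rw [Finset.sum_add_distrib, e1]
    simp
    linarith
  · have e3 := hsq (fun i => u i + q)
    simp only [add_sub_cancel_right] at e3
    rw [e2] at e3
    have e4 : ∑ i, (u i + q) = M := by
      rw [Finset.sum_add_distrib, e1]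
      simp
      linarith
    rw [e4] at e3
    linarith

end Pool.Agent.Work.MP_5532fa_up
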