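import Pool.Agent.Work.MP_5532fa_up.Interface2

/-!
# MP_5532fa_co, upgrade: statements of the first round from those of the second round
-/

open Finset

namespace Pool.Agent.Work.MP_5532fa_up

open MP5532fa (specRad qf pE)

theorem Rg.toU {r : ℕ} {ε : ℝ} {N j : ℕ} (h : Rg r ε N j) : RgU r ε N j := h.2

theorem Rg.toA {r : ℕ} (hr : 3 ≤ r) {ε : ℝ} {N j : ℕ} (h : Rg r ε N j) : RgA r ε N j := by
  refine ⟨h.1, h.2.trans ?_⟩
  have h1 := al_lt hr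
  have h2 := al_ge hr
  have hrr : (3 : ℝ) ≤ r := by exact_mod_cast hr
  have h3 : 0 ≤ 1 - 2 / (r : ℝ) := by
    rw [sub_nonneg, div_le_one (by linarith)]
    linarith
  have h4 : (1 - 2 / (r : ℝ)) * al r ≤ 1 - 2 / r := mul_le_of_le_one_right h3 h1.le
  have hN : (0 : ℝ) ≤ N := Nat.cast_nonneg N
  exact mul_le_mul_of_nonneg_right (by linarith) hN

theorem Rg.toL {r : ℕ} (hr : 3 ≤ r) {ε : ℝ} (hε : 0 < ε) {N j : ℕ} (h : Rg r ε N j) :
    (j : ℝ) ≤ al r * N := by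
  refine h.2.trans ?_
  have h2 := al_ge hr
  have hrr : (3 : ℝ) ≤ r := by exact_mod_cast hr
  have h3 : 0 ≤ 2 / (r : ℝ) := by positivity
  have hN : (0 : ℝ) ≤ N := Nat.cast_nonneg N
  refine mul_le_mul_of_nonneg_right ?_ hN
  nlinarith

theorem rB1U (h : Stmt_B1U2) : Stmt_B1U := by
  intro r ε hr hε
  obtain ⟨δ, N0, hδ, H⟩ := h r ε hr hε
  exact ⟨δ, N0, hδ, fun N hN j hj => H N hN j (hj.toA hr)⟩

theorem rB1C (h : Stmt_B1C2) : Stmt_B1C := by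
  intro r ε hr hε
  obtain ⟨δ, N0, hδ, H⟩ := h r ε hr hε
  exact ⟨δ, N0, hδ, fun N hN j hj => H N hN j (hj.toA hr)⟩

theorem rE2 (h : Stmt_E2U) : Stmt_E2 := by
  intro r ε hr hε
  obtain ⟨δ, N0, hδ, H⟩ := h r ε hr hε
  exact ⟨δ, N0, hδ, fun N hN j hj => H N hN j hj.toU⟩

theorem rE3 (h : Stmt_E3U) : Stmt_E3 := by
  intro r ε hr hε
  obtain ⟨δ, N0, hδ, H⟩ := h r ε hr hε
  exact ⟨δ, N0, hδ, fun N hN j hj => H N hN j hj.toU⟩

theorem rEB (h : Stmt_EBU) : Stmt_EB := by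
  intro r ε hr hε
  obtain ⟨δ, N0, hδ, H⟩ := h r ε hr hε
  exact ⟨δ, N0, hδ, fun N hN j hj => H N hN j hj.toU⟩

theorem rTIE (h : Stmt_TIEU) : Stmt_TIE := by
  intro r ε hr hε
  obtain ⟨δ, N0, hδ, H⟩ := h r ε hr hε
  exact ⟨δ, N0, hδ, fun N hN j hj => H N hN j hj.toU⟩

theorem rISOE (h : Stmt_ISOEU) : Stmt_ISOE := by
  intro r ε hr hε
  obtain ⟨N0, H⟩ := h r ε hr hε
  exact ⟨N0, fun N hN j hj => H N hN j hj.toU⟩

theorem rEST (h : Stmt_ESTU) : Stmt_EST := by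
  intro r ε e hr hε he
  obtain ⟨δ, N0, hδ, H⟩ := h r e hr he
  exact ⟨δ, N0, hδ, fun N hN j hj => H N hN j (hj.toL hr hε)⟩

theorem rFINA (h : Stmt_FIN3) : Stmt_FINA := by
  intro r ε δ hr hε hδ
  obtain ⟨ε', hε', H1⟩ := h r (ε / 2) hr (by linarith)
  obtain ⟨δ1, N0, hδ1, H2⟩ := H1 δ hδ
  refine ⟨δ1, N0 + 1, hδ1, ?_⟩
  intro N hN j hj V _ G x lam hfree hpv hp hlam
  have hal := al_ge hr
  have hal1 := al_lt hr
  have hN1 : (1 : ℝ) ≤ N := by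
    have : 1 ≤ N := by omega
    exact_mod_cast this
  have hjL := hj.toL hr hε
  obtain ⟨ha, hb⟩ := hj
  have hN0 : (0 : ℝ) < al r * N := by positivity
  have hX : (j : ℝ) / (al r * N) ≤ 1 - 2 / r := by
    rw [div_le_iff₀ hN0]
    refine hb.trans ?_
    nlinarith
  have hm : min ((j : ℝ) / (al r * N)) (1 - 2 / r) = j / (al r * N) := min_eq_left hX
  have hlow : al r * N + j / N - al r * ((1 - j / (al r * N)) * min (j / (al r * N)) (1 - 2 / r))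
      - δ1 ≤ lam := by
    rw [hm]
    refine le_trans (le_of_eq ?_) hlam
    have h1 : (N : ℝ) ≠ 0 := by positivity
    have h2 : al r ≠ 0 := by positivity
    field_simp
    ring
  rcases H2 N (by omega) j hjL V G x lam hfree hpv hp hlow with ⟨c, H, -, -, h3⟩ |
    ⟨c, H, -, -, h3⟩ | ⟨-, c, H, w, hFD, -⟩
  · exfalso
    nlinarith
  · exfalso
    have h4 : (1 - 2 / (r : ℝ) - ε / 2) * (al r * N) ≤ ((1 - 2 / r) * al r - ε) * N :=
      h3.trans hb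
    have h5 : (1 - 2 / (r : ℝ) - ε / 2) * (al r * N)
        = ((1 - 2 / r) * al r - ε) * N + (ε - ε / 2 * al r) * N := by ring
    have h6 : 0 < (ε - ε / 2 * al r) * N := by
      apply mul_pos
      · nlinarith
      · linarith
    linarith
  · exact ⟨c, H, w, hFD⟩

end Pool.Agent.Work.MP_5532fa_up
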