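import Pool.Agent.Work.MP_5532fa_up.Interface5

/-!
# MP_5532fa_co, upgrade: statements of the first rounds from those of the fifth round
-/

open Finset

namespace Pool.Agent.Work.MP_5532fa_up

open MP5532fa (specRad qf pE)

theorem RgU.toV {r : ℕ} (hr : 3 ≤ r) {ε : ℝ} (hε : 0 < ε) {N j : ℕ} (h : RgU r ε N j) :
    RgV r N j := by
  refine le_trans h ?_
  have h2 := al_ge hr
  have hN : (0 : ℝ) ≤ N := Nat.cast_nonneg N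
  have h3 : (0 : ℝ) ≤ 1 / (4 * r ^ 2) := by positivity
  have e : (1 - 2 / (r : ℝ) + 1 / (4 * r ^ 2)) * (al r * N)
      = ((1 - 2 / r) * al r) * N + 1 / (4 * r ^ 2) * (al r * N) := by ring
  have e2 : ((1 - 2 / (r : ℝ)) * al r - ε) * N = ((1 - 2 / r) * al r) * N - ε * N := by ring
  have h4 : 0 ≤ 1 / (4 * (r : ℝ) ^ 2) * (al r * N) :=
    mul_nonneg h3 (mul_nonneg (by linarith) hN)
  have h5 : 0 ≤ ε * N := mul_nonneg hε.le hN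
  rw [e, e2]
  linarith

theorem Rg.toV {r : ℕ} (hr : 3 ≤ r) {ε : ℝ} (hε : 0 < ε) {N j : ℕ} (h : Rg r ε N j) :
    RgV r N j := RgU.toV hr hε (show RgU r ε N j from h.2)

theorem Rg.toB {r : ℕ} (hr : 3 ≤ r) {ε : ℝ} (hε : 0 < ε) {N j : ℕ} (h : Rg r ε N j) :
    RgB r ε N j := ⟨h.1, h.toV hr hε⟩

theorem rD1 (h : Stmt_D1B) : Stmt_D1 := by
  intro r ε hr hε
  obtain ⟨δ, N0, hδ, H⟩ := h r ε hr hε
  exact ⟨δ, N0, hδ, fun N hN j hj => H N hN j (hj.toB hr hε)⟩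

theorem rE1 (h : Stmt_E1B) : Stmt_E1 := by
  intro r ε hr hε
  obtain ⟨δ, N0, hδ, H⟩ := h r ε hr hε
  exact ⟨δ, N0, hδ, fun N hN j hj => H N hN j (hj.toB hr hε)⟩

theorem rD2 (h : Stmt_D2V) : Stmt_D2 := by
  intro r ε hr hε
  obtain ⟨δ, N0, hδ, H⟩ := h r hr
  exact ⟨δ, N0, hδ, fun N hN j hj => H N hN j (hj.toV hr hε)⟩

theorem rD3 (h : Stmt_D3V) : Stmt_D3 := by
  intro r ε hr hε
  obtain ⟨δ, N0, hδ, H⟩ := h r hr
  exact ⟨δ, N0, hδ, fun N hN j hj => H N hN j (hj.toV hr hε)⟩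

theorem rEBU (h : Stmt_EBV) : Stmt_EBU := by
  intro r ε hr hε
  obtain ⟨δ, N0, hδ, H⟩ := h r hr
  exact ⟨δ, N0, hδ, fun N hN j hj => H N hN j (RgU.toV hr hε hj)⟩

theorem rE2U (h : Stmt_E2V) : Stmt_E2U := by
  intro r ε hr hε
  obtain ⟨δ, N0, hδ, H⟩ := h r hr
  exact ⟨δ, N0, hδ, fun N hN j hj => H N hN j (RgU.toV hr hε hj)⟩

theorem rE3U (h : Stmt_E3V) : Stmt_E3U := by
  intro r ε hr hε
  obtain ⟨δ, N0, hδ, H⟩ := h r hr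
  exact ⟨δ, N0, hδ, fun N hN j hj => H N hN j (RgU.toV hr hε hj)⟩

theorem rTHRD (h : Stmt_THRDB) : Stmt_THRD := by
  intro r ε hr hε
  obtain ⟨N0, H⟩ := h r ε hr hε
  exact ⟨N0, fun N hN j hj => H N hN j (hj.toB hr hε)⟩

theorem rFIN3 (h : Stmt_FIN4) : Stmt_FIN3 := by
  intro r δ hr hδ
  obtain ⟨ε, hε, H⟩ := h r δ hr hδ
  refine ⟨ε, hε, fun δ' hδ' => ?_⟩
  obtain ⟨δ1, N0, hδ1, H1⟩ := H δ' hδ'
  refine ⟨δ1, N0, hδ1, ?_⟩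
  intro N hN j hj V _ G x lam a b c d
  rcases H1 N hN j hj V G x lam a b c d with h | h | ⟨h1, -, h2⟩
  · exact Or.inl h
  · exact Or.inr (Or.inl h)
  · exact Or.inr (Or.inr ⟨h1, h2⟩)

end Pool.Agent.Work.MP_5532fa_up
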