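import Pool.Agent.Work.MP_5532fa_up.SEC0

/-!
# MP_5532fa_co, upgrade, fourth round: block SECD
-/

set_option autoImplicit false

open Finset

namespace Pool.Agent.Work.MP_5532fa_up

open MP5532fa (specRad qf pE)

namespace SECD

section
variable {V : Type} [Fintype V] {r : ℕ} {G : SimpleGraph V} {H : Finset V} {c : V → Fin r}
  {w : V} {A : Finset V} {v1 v2 : V} {n : ℕ}

/-- the outside neighbours -/
theorem ot_eq (hW : WD G n H c w A v1 v2) (x : V → ℝ) (v : V) :
    EST1.ot G H x v = chi (v ∈ A) * x w := by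
  classical
  unfold EST1.ot
  rw [Finset.sum_eq_single w]
  · have : ad G v w = chi (v ∈ A) := by
      refine chi_congr ?_
      rw [hW.adj]
      constructor
      · rintro (h | h | h)
        · exact absurd h.2.1 hW.hw
        · exact absurd (hW.hA h.2) hW.hw
        · exact h.2
      · intro h
        exact Or.inr (Or.inr ⟨rfl, h⟩)
    rw [this]
  · intro u hu huw
    rw [mem_out] at hu
    have : ad G v u = 0 := by
      refine chi_neg ?_
      rw [hW.adj]
      rintro (h | h | h)
      · exact hu h.2.1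
      · exact hu (hW.hA h.2)
      · exact huw h.1
    rw [this, zero_mul]
  · intro h
    exact absurd (mem_out.mpr hW.hw) h

omit [Fintype V] in
theorem mem12 (hW : WD G n H c w A v1 v2) : v1 ∈ H ∧ v2 ∈ H := by
  have h1 : v1 ∈ cl A c (c v1) := by rw [hW.h1]; exact Finset.mem_singleton_self _
  have h2 : v2 ∈ cl A c (c v2) := by rw [hW.h2]; exact Finset.mem_singleton_self _
  rw [mem_cl] at h1 h2
  exact ⟨hW.hA h1.1, hW.hA h2.1⟩

omit [Fintype V] in
/-- the missing neighbours -/
theorem ms_eq (hW : WD G n H c w A v1 v2) (x : V → ℝ) :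
    ∑ v ∈ H, EST1.ms G H c x v = x v1 + x v2 := by
  classical
  obtain ⟨m1, m2⟩ := mem12 hW
  have hne : v1 ≠ v2 := fun h => hW.h12 (by rw [h])
  have h1 : ∀ v ∈ H, EST1.ms G H c x v
      = (if v = v1 then x v2 else 0) + (if v = v2 then x v1 else 0) := by
    intro v hv
    unfold EST1.ms
    have h2 : ∀ u ∈ H, chi (c v ≠ c u ∧ ¬ G.Adj v u) * x u
        = (if u = v2 then (if v = v1 then x v2 else 0) else 0)
          + (if u = v1 then (if v = v2 then x v1 else 0) else 0) := by
      intro u hu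
      by_cases ha : v = v1 ∧ u = v2
      · obtain ⟨rfl, rfl⟩ := ha
        have : c v ≠ c u ∧ ¬ G.Adj v u := by
          refine ⟨hW.h12, ?_⟩
          rw [hW.adj]
          rintro (h | h | h)
          · exact h.2.2.2.1 ⟨rfl, rfl⟩
          · exact hW.hw (h.1 ▸ hv)
          · exact hW.hw (h.1 ▸ hu)
        rw [chi_pos this, if_pos rfl, if_pos rfl, if_neg hne.symm]
        ring
      · by_cases hb : v = v2 ∧ u = v1
        · obtain ⟨rfl, rfl⟩ := hb
          have : c v ≠ c u ∧ ¬ G.Adj v u := by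
            refine ⟨hW.h12.symm, ?_⟩
            rw [hW.adj]
            rintro (h | h | h)
            · exact h.2.2.2.2 ⟨rfl, rfl⟩
            · exact hW.hw (h.1 ▸ hv)
            · exact hW.hw (h.1 ▸ hu)
          rw [chi_pos this, if_neg hne, if_pos rfl, if_pos rfl]
          ring
        · have : ¬ (c v ≠ c u ∧ ¬ G.Adj v u) := by
            rintro ⟨h3, h4⟩
            exact h4 ((hW.adj v u).mpr (Or.inl ⟨hv, hu, h3, ha, hb⟩))
          rw [chi_neg this]
          by_cases h5 : u = v2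
          · have h6 : v ≠ v1 := fun h => ha ⟨h, h5⟩
            rw [if_pos h5, if_neg h6]
            by_cases h7 : u = v1
            · exact absurd (h7.symm.trans h5) hne
            · rw [if_neg h7]; ring
          · rw [if_neg h5]
            by_cases h7 : u = v1
            · have h6 : v ≠ v2 := fun h => hb ⟨h, h7⟩
              rw [if_pos h7, if_neg h6]; ring
            · rw [if_neg h7]; ring
    rw [Finset.sum_congr rfl h2, Finset.sum_add_distrib, Finset.sum_ite_eq' H v2,
      Finset.sum_ite_eq' H v1, if_pos m1, if_pos m2]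
  rw [Finset.sum_congr rfl h1, Finset.sum_add_distrib, Finset.sum_ite_eq' H v1,
    Finset.sum_ite_eq' H v2, if_pos m1, if_pos m2]
  ring

end

end SECD

/-- **Block SECD.** -/
theorem blk_SECD (hE : Stmt_EST1) : Stmt_SECD := by
  classical
  intro r e hr he
  obtain ⟨th, hth0, hth1, hthe⟩ : ∃ th : ℝ, 0 < th ∧ th ≤ 1 / 20 ∧ 20 * th ≤ e :=
    ⟨min (e / 20) (1 / 20), lt_min (by positivity) (by norm_num), min_le_right _ _, by
      have := min_le_left (e / 20) (1 / 20)
      linarith⟩
  obtain ⟨δ, N0, hδ, hδe, hE'⟩ := hE r th hr hth0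
  refine ⟨δ, N0 + 1, hδ, ?_⟩
  intro n hn V _ G x lam c H w A v1 v2 hC hpv hW
  obtain ⟨xb, hF⟩ := hE' n (by omega) V G x lam c H hC hpv
  obtain ⟨k1, k2⟩ := SEC0.key hC hpv hF hth0.le hth1 hδe (by omega)
  obtain ⟨m1, m2⟩ := SECD.mem12 hW
  have hxb := hF.xb0
  have hM : ∑ v ∈ H, EST1.ms G H c x v = x v1 + x v2 := SECD.ms_eq hW x
  have hO : ∑ v ∈ H, EST1.ot G H x v = (A.card : ℝ) * x w := by
    rw [Finset.sum_congr rfl fun v _ => SECD.ot_eq hW x v, ← Finset.sum_mul]
    congr 1
    have : ∀ v ∈ H, chi (v ∈ A) = if v ∈ A then (1 : ℝ) else 0 := by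
      intro v _
      by_cases h : v ∈ A
      · rw [chi_pos h, if_pos h]
      · rw [chi_neg h, if_neg h]
    rw [Finset.sum_congr rfl this, Finset.sum_ite_mem, Finset.inter_eq_right.mpr hW.hA]
    simp
  have h1 := abs_le.mp (hF.xH v1 m1)
  have h2 := abs_le.mp (hF.xH v2 m2)
  have h3 := hF.xo w hW.hw
  have hMl : 2 * (1 - th) ≤ (∑ v ∈ H, EST1.ms G H c x v) / xb := by
    rw [hM, le_div_iff₀ hxb]; linarith [h1.1, h2.1]
  have hMu : (∑ v ∈ H, EST1.ms G H c x v) / xb ≤ 2 * (1 + th) := by
    rw [hM, div_le_iff₀ hxb]; linarith [h1.2, h2.2]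
  have hA0 : (0 : ℝ) ≤ A.card := Nat.cast_nonneg _
  have hOu : (∑ v ∈ H, EST1.ot G H x v) / xb ≤ A.card * th := by
    rw [hO, div_le_iff₀ hxb]
    calc (A.card : ℝ) * x w ≤ A.card * (th * xb) := mul_le_mul_of_nonneg_left h3 hA0
      _ = A.card * th * xb := by ring
  clear hM hO
  generalize (∑ v ∈ H, EST1.ms G H c x v) / xb = M at *
  generalize (∑ v ∈ H, EST1.ot G H x v) / xb = O at *
  generalize (n : ℝ) ^ 2 * Ph (sz H c) lam = Q at *
  generalize (A.card : ℝ) = a at *
  constructor
  · have h4 : 2 * (1 - th) * (1 - 4 * th) ≤ M * (1 - 4 * th) :=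
      mul_le_mul_of_nonneg_right hMl (by linarith)
    have h5 : 2 - 10 * th ≤ 2 * (1 - th) * (1 - 4 * th) := by
      have : 2 * (1 - th) * (1 - 4 * th) = 2 - 10 * th + 8 * (th * th) := by ring
      rw [this]
      have := mul_nonneg hth0.le hth0.le
      linarith
    have h6 : 20 * th * a ≤ e * a := mul_le_mul_of_nonneg_right hthe hA0
    have h7 : 0 ≤ th * a := mul_nonneg hth0.le hA0
    linarith
  · have h4 : M * (1 + 5 * th) ≤ 2 * (1 + th) * (1 + 5 * th) :=
      mul_le_mul_of_nonneg_right hMu (by linarith)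
    have h5 : 2 * (1 + th) * (1 + 5 * th) ≤ 2 + 20 * th := by
      have h6 : 2 * (1 + th) * (1 + 5 * th) = 2 + 12 * th + 10 * (th * th) := by ring
      have h7 : th * th ≤ 1 / 20 * th := mul_le_mul_of_nonneg_right hth1 hth0.le
      linarith
    linarith

end Pool.Agent.Work.MP_5532fa_up
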