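import Pool.Agent.Work.MP_5532fa_up.SEC0

/-!
# MP_5532fa_co, upgrade, fourth round: block SECE
-/

set_option autoImplicit false

open Finset

namespace Pool.Agent.Work.MP_5532fa_up

open MP5532fa (specRad qf pE)

namespace SECE

section
variable {V : Type} [Fintype V] {r : ℕ} {G : SimpleGraph V} {H : Finset V} {c : V → Fin r}
  {w u : V} {A B : Finset V} {i0 : Fin r} {n : ℕ}

/-- the outside neighbours -/
theorem ot_eq (hW : WE G n H c w u A B i0) (x : V → ℝ) {v : V} (hv : v ∈ H) :
    EST1.ot G H x v = chi (v ∈ A) * x w + chi (v ∈ B) * x u := by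
  classical
  unfold EST1.ot
  have hvw : v ≠ w := fun h => hW.hw (h ▸ hv)
  have hvu : v ≠ u := fun h => hW.hu (h ▸ hv)
  have h1 : ∀ z ∈ out H, ad G v z * x z
      = (if z = w then chi (v ∈ A) * x w else 0) + (if z = u then chi (v ∈ B) * x u else 0) := by
    intro z hz
    rw [mem_out] at hz
    by_cases hzw : z = w
    · subst hzw
      rw [if_pos rfl, if_neg hW.hwu, add_zero]
      have : ad G v z = chi (v ∈ A) := by
        refine chi_congr ?_
        rw [hW.adj]
        constructor
        · rintro (h | h | h | h | h | h | h)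
          · exact absurd h.2.1 hz
          · exact absurd h.1 hvw
          · exact h.2
          · exact absurd h.1 hvu
          · exact absurd h.1 hW.hwu
          · exact absurd h.1 hvw
          · exact absurd h.1 hvu
        · intro h
          exact Or.inr (Or.inr (Or.inl ⟨rfl, h⟩))
      rw [this]
    · by_cases hzu : z = u
      · subst hzu
        rw [if_pos rfl, if_neg hzw, zero_add]
        have : ad G v z = chi (v ∈ B) := by
          refine chi_congr ?_
          rw [hW.adj]
          constructor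
          · rintro (h | h | h | h | h | h | h)
            · exact absurd h.2.1 hz
            · exact absurd h.1 hvw
            · exact absurd h.1 hzw
            · exact absurd h.1 hvu
            · exact h.2
            · exact absurd h.1 hvw
            · exact absurd h.1 hvu
          · intro h
            exact Or.inr (Or.inr (Or.inr (Or.inr (Or.inl ⟨rfl, h⟩))))
        rw [this]
      · rw [if_neg hzw, if_neg hzu, add_zero]
        have : ad G v z = 0 := by
          refine chi_neg ?_
          rw [hW.adj]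
          rintro (h | h | h | h | h | h | h)
          · exact hz h.2.1
          · exact hvw h.1
          · exact hzw h.1
          · exact hvu h.1
          · exact hzu h.1
          · exact hvw h.1
          · exact hvu h.1
        rw [this, zero_mul]
  rw [Finset.sum_congr rfl h1, Finset.sum_add_distrib, Finset.sum_ite_eq' (out H) w,
    Finset.sum_ite_eq' (out H) u, if_pos (mem_out.mpr hW.hw), if_pos (mem_out.mpr hW.hu)]

omit [Fintype V] in
theorem cardB (hW : WE G n H c w u A B i0) : B.card ≤ r := by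
  rw [← sum_card_cl B c]
  have h : ∀ i ∈ (univ : Finset (Fin r)), (cl B c i).card ≤ 1 := by
    intro i _
    by_cases hi : i = i0
    · rw [hi, hW.hB0]; simp
    · rw [hW.hB1 i hi]
  have := Finset.sum_le_sum h
  simpa using this

omit [Fintype V] in
theorem sum_chi {S : Finset V} (hS : S ⊆ H) : ∑ v ∈ H, chi (v ∈ S) = (S.card : ℝ) := by
  classical
  have : ∀ v ∈ H, chi (v ∈ S) = if v ∈ S then (1 : ℝ) else 0 := by
    intro v _
    by_cases h : v ∈ S
    · rw [chi_pos h, if_pos h]
    · rw [chi_neg h, if_neg h]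
  rw [Finset.sum_congr rfl this, Finset.sum_ite_mem, Finset.inter_eq_right.mpr hS,
    Finset.sum_const, nsmul_eq_mul, mul_one]

end

end SECE

/-- **Block SECE.** -/
theorem blk_SECE (hE : Stmt_EST1) : Stmt_SECE := by
  classical
  intro r e hr he
  have hR : (3 : ℝ) ≤ r := by exact_mod_cast hr
  have hR0 : (0 : ℝ) < 20 * r := by linarith
  obtain ⟨th, hth0, hth1, hthe⟩ : ∃ th : ℝ, 0 < th ∧ th ≤ 1 / 20 ∧ th * (20 * r) ≤ e :=
    ⟨min (e / (20 * r)) (1 / 20), lt_min (div_pos he hR0) (by norm_num), min_le_right _ _, by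
      rw [← le_div_iff₀ hR0]
      exact min_le_left _ _⟩
  obtain ⟨δ, N0, hδ, hδe, hE'⟩ := hE r th hr hth0
  refine ⟨δ, N0 + 1, hδ, ?_⟩
  intro n hn V _ G x lam c H w u A B i0 hC hpv hW
  obtain ⟨xb, hF⟩ := hE' n (by omega) V G x lam c H hC hpv
  obtain ⟨k1, _⟩ := SEC0.key hC hpv hF hth0.le hth1 hδe (by omega)
  have hxb := hF.xb0
  have hM : 0 ≤ (∑ v ∈ H, EST1.ms G H c x v) / xb :=
    div_nonneg (Finset.sum_nonneg fun v _ => EST1.ms_nonneg hpv.nn v) hxb.le
  have hO : ∑ v ∈ H, EST1.ot G H x v = (A.card : ℝ) * x w + (B.card : ℝ) * x u := by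
    rw [Finset.sum_congr rfl fun v hv => SECE.ot_eq hW x hv, Finset.sum_add_distrib,
      ← Finset.sum_mul, ← Finset.sum_mul, SECE.sum_chi hW.hA, SECE.sum_chi hW.hB]
  have h3 := hF.xo w hW.hw
  have h4 := hF.xo u hW.hu
  have hA0 : (0 : ℝ) ≤ A.card := Nat.cast_nonneg _
  have hB0 : (0 : ℝ) ≤ B.card := Nat.cast_nonneg _
  have hB1 : (B.card : ℝ) ≤ r := by exact_mod_cast SECE.cardB hW
  have hOu : (∑ v ∈ H, EST1.ot G H x v) / xb ≤ A.card * th + r * th := by
    rw [hO, div_le_iff₀ hxb]
    have h5 : (A.card : ℝ) * x w ≤ A.card * (th * xb) := mul_le_mul_of_nonneg_left h3 hA0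
    have h6 : (B.card : ℝ) * x u ≤ B.card * (th * xb) := mul_le_mul_of_nonneg_left h4 hB0
    have h7 : (B.card : ℝ) * (th * xb) ≤ r * (th * xb) :=
      mul_le_mul_of_nonneg_right hB1 (mul_nonneg hth0.le hxb.le)
    linarith
  clear hO
  generalize (∑ v ∈ H, EST1.ms G H c x v) / xb = M at *
  generalize (∑ v ∈ H, EST1.ot G H x v) / xb = O at *
  generalize (n : ℝ) ^ 2 * Ph (sz H c) lam = Q at *
  generalize (A.card : ℝ) = a at *
  have h5 : 0 ≤ M * (1 - 4 * th) := mul_nonneg hM (by linarith)
  have h6 : th * (20 * 3) ≤ th * (20 * r) := mul_le_mul_of_nonneg_left (by linarith) hth0.le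
  have h7 : a * (2 * th) ≤ a * e := mul_le_mul_of_nonneg_left (by linarith) hA0
  have h8 : 0 ≤ r * th := mul_nonneg (by linarith) hth0.le
  linarith

end Pool.Agent.Work.MP_5532fa_up
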