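import Pool.Agent.Work.MP_5532fa_up.Interface5

/-! # Block SECE2 (helper26) -/

open Finset

namespace Pool.Agent.Work.MP_5532fa_up

open MP5532fa (specRad qf pE)

namespace SECE2

variable {V : Type} [Fintype V] {r : ℕ}

omit [Fintype V] in
theorem ad_nonneg (G : SimpleGraph V) (a b : V) : 0 ≤ ad G a b := chi_nonneg _

/-- the eigenvalue equation inside `H` as an inequality -/
theorem low {G : SimpleGraph V} {x : V → ℝ} {lam : ℝ} {H : Finset V} {c : V → Fin r}
    (hP : PV G x lam) (hadj : ∀ a ∈ H, ∀ b ∈ H, c a ≠ c b → G.Adj a b) {v : V} (hv : v ∈ H) :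
    ∑ u ∈ H, x u - cs x H c (c v) ≤ lam * x v := by
  classical
  have h1 : ∑ u ∈ H, x u = cs x H c (c v) + ∑ u ∈ H.filter (fun u => ¬ c u = c v), x u := by
    unfold cs cl
    exact (Finset.sum_filter_add_sum_filter_not H (fun u => c u = c v) x).symm
  rw [h1, add_sub_cancel_left, ← hP.eig v]
  calc ∑ u ∈ H.filter (fun u => ¬ c u = c v), x u
      = ∑ u ∈ H.filter (fun u => ¬ c u = c v), ad G v u * x u := by
        refine Finset.sum_congr rfl fun u hu => ?_
        rw [Finset.mem_filter] at hu
        have : G.Adj v u := hadj v hv u hu.1 (fun h => hu.2 h.symm)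
        unfold ad
        rw [chi_pos this, one_mul]
    _ ≤ ∑ u, ad G v u * x u :=
        Finset.sum_le_sum_of_subset_of_nonneg (Finset.subset_univ _)
          fun u _ _ => mul_nonneg (ad_nonneg G v u) (hP.nn u)

end SECE2

open SECE2 in
theorem blk_SECE2 : Stmt_SECE2 := by
  classical
  intro r hr V _ G x lam N c H w u A B i0 hP hlam hW
  have hadj : ∀ a ∈ H, ∀ b ∈ H, c a ≠ c b → G.Adj a b := fun a ha b hb h =>
    (hW.adj a b).mpr (Or.inl ⟨ha, hb, h⟩)
  set S : ℝ := ∑ v ∈ H, x v with hS
  have hS0 : 0 ≤ S := Finset.sum_nonneg fun v _ => hP.nn v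
  have hsz : ∀ i, 0 ≤ sz H c i := fun i => Nat.cast_nonneg _
  have hden : ∀ i, 0 < lam + sz H c i := fun i => by have := hsz i; linarith
  -- class sums
  have h1 : ∀ i, sz H c i * (S - cs x H c i) ≤ lam * cs x H c i := by
    intro i
    have h2 : ∑ v ∈ cl H c i, (S - cs x H c i) ≤ ∑ v ∈ cl H c i, lam * x v := by
      refine Finset.sum_le_sum fun v hv => ?_
      rw [mem_cl] at hv
      have := low hP hadj hv.1
      rw [hv.2] at this
      exact this
    rw [Finset.sum_const, nsmul_eq_mul, ← Finset.mul_sum] at h2
    exact h2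
  have h2 : ∀ i, sz H c i / (lam + sz H c i) * S ≤ cs x H c i := by
    intro i
    have h3 := h1 i
    have h4 := hden i
    rw [div_mul_eq_mul_div, div_le_iff₀ h4]
    nlinarith
  have h3 : (∑ i, sz H c i / (lam + sz H c i)) * S ≤ S := by
    rw [Finset.sum_mul]
    calc ∑ i, sz H c i / (lam + sz H c i) * S ≤ ∑ i, cs x H c i :=
          Finset.sum_le_sum fun i _ => h2 i
      _ = S := sum_cl H c x
  -- the sum is positive
  have hSpos : 0 < S := by
    rcases hS0.lt_or_eq with h | h
    · exact h
    · exfalso
      have hz : ∀ v ∈ H, x v = 0 := by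
        intro v hv
        exact (Finset.sum_eq_zero_iff_of_nonneg (fun v _ => hP.nn v)).mp h.symm v hv
      -- a neighbour in H forces zero
      have hnb : ∀ a ∈ H, ∀ b, G.Adj a b → x b = 0 := by
        intro a ha b hab
        have h4 : ad G a b * x b ≤ ∑ z, ad G a z * x z :=
          Finset.single_le_sum (f := fun z => ad G a z * x z)
            (fun z _ => mul_nonneg (ad_nonneg G a z) (hP.nn z)) (Finset.mem_univ b)
        rw [hP.eig a, hz a ha, mul_zero] at h4
        unfold ad at h4
        rw [chi_pos hab, one_mul] at h4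
        exact le_antisymm h4 (hP.nn b)
      obtain ⟨i1, hi1⟩ : ∃ i : Fin r, i ≠ i0 := by
        by_contra hcon
        push Not at hcon
        have h5 : (⟨0, by omega⟩ : Fin r) = ⟨1, by omega⟩ := by rw [hcon ⟨0, by omega⟩, hcon ⟨1, by omega⟩]
        have h6 := congrArg Fin.val h5
        simp at h6
      have hxw : x w = 0 := by
        obtain ⟨a, ha⟩ := hW.hAne i1 hi1
        rw [mem_cl] at ha
        exact hnb a (hW.hA ha.1) w ((hW.adj a w).mpr (Or.inr (Or.inr (Or.inl ⟨rfl, ha.1⟩))))
      have hxu : x u = 0 := by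
        have h7 : (cl B c i1).Nonempty := by
          rw [← Finset.card_pos, hW.hB1 i1 hi1]; exact Nat.one_pos
        obtain ⟨a, ha⟩ := h7
        rw [mem_cl] at ha
        exact hnb a (hW.hB ha.1) u
          ((hW.adj a u).mpr (Or.inr (Or.inr (Or.inr (Or.inr (Or.inl ⟨rfl, ha.1⟩))))))
      have hall : ∀ v, x v = 0 := by
        intro v
        by_cases hvH : v ∈ H
        · exact hz v hvH
        · have h8 : ∑ z, ad G v z * x z = 0 := by
            refine Finset.sum_eq_zero fun z _ => ?_
            by_cases hvz : G.Adj v z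
            · have h9 : x z = 0 := by
                rcases (hW.adj v z).mp hvz with h | h | h | h | h | h | h
                · exact absurd h.1 hvH
                · exact hz z (hW.hA h.2)
                · rw [h.1]; exact hxw
                · exact hz z (hW.hB h.2)
                · rw [h.1]; exact hxu
                · rw [h.2]; exact hxu
                · rw [h.2]; exact hxw
              rw [h9, mul_zero]
            · unfold ad; rw [chi_neg hvz, zero_mul]
          rw [hP.eig v] at h8
          rcases mul_eq_zero.mp h8 with h9 | h9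
          · exact absurd h9 hlam.ne'
          · exact h9
      have h10 := hP.unit
      rw [Finset.sum_eq_zero (fun v _ => by rw [hall v]; norm_num)] at h10
      norm_num at h10
  unfold Ph
  have h4 : ∑ i, sz H c i / (lam + sz H c i) ≤ 1 := by
    by_contra hcon
    push Not at hcon
    have := mul_lt_mul_of_pos_right hcon hSpos
    linarith
  linarith

end Pool.Agent.Work.MP_5532fa_up
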