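import Pool.Agent.Work.MP_5532fa_up.SEC0

/-!
# MP_5532fa_co, upgrade, fourth round: block SECF
-/

set_option autoImplicit false

open Finset

namespace Pool.Agent.Work.MP_5532fa_up

open MP5532fa (specRad qf pE)

namespace SECF

section
variable {V : Type} [Fintype V] {r : ℕ} {G : SimpleGraph V} {H : Finset V} {c : V → Fin r}
  {w : V} {T : Finset V} {n : ℕ}

/-- the outside neighbours -/
theorem ot_eq (hW : WF G n H c w T) (x : V → ℝ) {v : V} (hv : v ∈ H) :
    EST1.ot G H x v = chi (v ∈ T) * x w := by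
  classical
  unfold EST1.ot
  rw [Finset.sum_eq_single w]
  · have : ad G v w = chi (v ∈ T) := by
      refine chi_congr ?_
      constructor
      · intro h0
        rcases hW.sub v w h0 with h | h | h
        · exact absurd h.2.1 hW.hw
        · exact absurd (h.1 ▸ hv) hW.hw
        · exact h.2
      · intro h
        exact (hW.hwT v h).symm
    rw [this]
  · intro u hu huw
    rw [mem_out] at hu
    have : ad G v u = 0 := by
      refine chi_neg ?_
      intro h0
      rcases hW.sub v u h0 with h | h | h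
      · exact hu h.2.1
      · exact hu (hW.hT h.2)
      · exact huw h.1
    rw [this, zero_mul]
  · intro h
    exact absurd (mem_out.mpr hW.hw) h

omit [Fintype V] in
/-- the missing neighbours -/
theorem ms_ge {x : V → ℝ} {b : ℝ} (hx : ∀ v ∈ H, b ≤ x v) :
    (mis G H c : ℝ) * b ≤ ∑ v ∈ H, EST1.ms G H c x v := by
  rw [EDG.mis_eq, Finset.sum_mul]
  refine Finset.sum_le_sum fun v _ => ?_
  rw [EST1.ms, Finset.sum_mul]
  exact Finset.sum_le_sum fun u hu => mul_le_mul_of_nonneg_left (hx u hu) (chi_nonneg _)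

omit [Fintype V] in
theorem cardT (hW : WF G n H c w T) : T.card = r := by
  rw [← sum_card_cl T c]
  rw [Finset.sum_congr rfl fun i _ => hW.hT1 i]
  simp

end

end SECF

/-- **Block SECF.** -/
theorem blk_SECF (hE : Stmt_EST1) : Stmt_SECF := by
  classical
  intro r e hr he
  have hR : (3 : ℝ) ≤ r := by exact_mod_cast hr
  have hR0 : (0 : ℝ) < 20 * r := by linarith
  obtain ⟨th, hth0, hth1, hthe⟩ : ∃ th : ℝ, 0 < th ∧ th ≤ 1 / 20 ∧ th * (20 * r) ≤ e :=
    ⟨min (e / (20 * r)) (1 / 20), lt_min (div_pos he hR0) (by norm_num), min_le_right _ _, by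
      rw [← le_div_iff₀ hR0]
      exact min_le_left _ _⟩
  obtain ⟨δ, N0, hδ, hδe, hE'⟩ := hE r th hr hth0
  refine ⟨δ, N0 + 1, hδ, ?_⟩
  intro n hn V _ G x lam c H w T hC hpv hW
  obtain ⟨xb, hF⟩ := hE' n (by omega) V G x lam c H hC hpv
  obtain ⟨k1, _⟩ := SEC0.key hC hpv hF hth0.le hth1 hδe (by omega)
  have hxb := hF.xb0
  have hM : (mis G H c : ℝ) * ((1 - th) * xb) ≤ ∑ v ∈ H, EST1.ms G H c x v :=
    SECF.ms_ge fun v hv => by
      have := abs_le.mp (hF.xH v hv)
      linarith [this.1]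
  have hO : ∑ v ∈ H, EST1.ot G H x v = (r : ℝ) * x w := by
    rw [Finset.sum_congr rfl fun v hv => SECF.ot_eq hW x hv, ← Finset.sum_mul]
    congr 1
    have : ∀ v ∈ H, chi (v ∈ T) = if v ∈ T then (1 : ℝ) else 0 := by
      intro v _
      by_cases h : v ∈ T
      · rw [chi_pos h, if_pos h]
      · rw [chi_neg h, if_neg h]
    rw [Finset.sum_congr rfl this, Finset.sum_ite_mem, Finset.inter_eq_right.mpr hW.hT,
      Finset.sum_const, nsmul_eq_mul, mul_one, SECF.cardT hW]
  have h3 := hF.xo w hW.hw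
  have hm0 : (0 : ℝ) ≤ mis G H c := Nat.cast_nonneg _
  have hMl : (mis G H c : ℝ) * (1 - th) ≤ (∑ v ∈ H, EST1.ms G H c x v) / xb := by
    rw [le_div_iff₀ hxb]
    linarith
  have hOu : (∑ v ∈ H, EST1.ot G H x v) / xb ≤ r * th := by
    rw [hO, div_le_iff₀ hxb]
    calc (r : ℝ) * x w ≤ r * (th * xb) := mul_le_mul_of_nonneg_left h3 (by linarith)
      _ = r * th * xb := by ring
  clear hM hO
  generalize (∑ v ∈ H, EST1.ms G H c x v) / xb = M at *
  generalize (∑ v ∈ H, EST1.ot G H x v) / xb = O at *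
  generalize (n : ℝ) ^ 2 * Ph (sz H c) lam = Q at *
  generalize (mis G H c : ℝ) = m at *
  have h4 : m * (1 - th) * (1 - 4 * th) ≤ M * (1 - 4 * th) :=
    mul_le_mul_of_nonneg_right hMl (by linarith)
  have h5 : m * (1 - 5 * th) ≤ m * (1 - th) * (1 - 4 * th) := by
    have : m * (1 - th) * (1 - 4 * th) = m * (1 - 5 * th) + 4 * (m * (th * th)) := by ring
    rw [this]
    have := mul_nonneg hm0 (mul_nonneg hth0.le hth0.le)
    linarith
  have h6 : th * (20 * 3) ≤ th * (20 * r) := mul_le_mul_of_nonneg_left (by linarith) hth0.le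
  have h7 : m * (5 * th) ≤ m * e := mul_le_mul_of_nonneg_left (by linarith) hm0
  have h8 : 0 ≤ r * th := mul_nonneg (by linarith) hth0.le
  linarith

end Pool.Agent.Work.MP_5532fa_up
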