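import Pool.Agent.Work.MP_5532fa_up.SM1b

/-!
# MP_5532fa_co, upgrade, second round: block SM1c
-/

open Finset

namespace Pool.Agent.Work.MP_5532fa_up

open MP5532fa (specRad qf pE)

namespace SM1c

section
variable {V : Type} [Fintype V] {r : ℕ}

omit [Fintype V] in
theorem pair_sum {H : Finset V} {v1 v2 : V} (h1 : v1 ∈ H)
    (h2 : v2 ∈ H) (h12 : v1 ≠ v2) (f : V → V → ℝ) :
    ∑ a ∈ H, ∑ b ∈ H, chi ((a = v1 ∧ b = v2) ∨ (a = v2 ∧ b = v1)) * f a b
      = f v1 v2 + f v2 v1 := by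
  classical
  have e1 : ∀ a ∈ H, ∑ b ∈ H, chi ((a = v1 ∧ b = v2) ∨ (a = v2 ∧ b = v1)) * f a b
      = (if a = v1 then f v1 v2 else 0) + (if a = v2 then f v2 v1 else 0) := by
    intro a ha
    by_cases ha1 : a = v1
    · rw [if_pos ha1, if_neg (fun h3 => h12 (ha1.symm.trans h3)), add_zero]
      rw [Finset.sum_eq_single v2]
      · rw [chi_pos (Or.inl ⟨ha1, rfl⟩), ha1, one_mul]
      · intro b hb hb2
        rw [chi_neg, zero_mul]
        rintro (h4 | h4)
        · exact hb2 h4.2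
        · exact h12 (ha1.symm.trans h4.1)
      · intro h3; exact absurd h2 h3
    · rw [if_neg ha1, zero_add]
      by_cases ha2 : a = v2
      · rw [if_pos ha2, Finset.sum_eq_single v1]
        · rw [chi_pos (Or.inr ⟨ha2, rfl⟩), ha2, one_mul]
        · intro b hb hb1
          rw [chi_neg, zero_mul]
          rintro (h4 | h4)
          · exact ha1 h4.1
          · exact hb1 h4.2
        · intro h3; exact absurd h1 h3
      · rw [if_neg ha2]
        refine Finset.sum_eq_zero fun b hb => ?_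
        rw [chi_neg, zero_mul]
        rintro (h4 | h4)
        · exact ha1 h4.1
        · exact ha2 h4.1
  rw [Finset.sum_congr rfl e1, Finset.sum_add_distrib, Finset.sum_ite_eq', Finset.sum_ite_eq',
    if_pos h1, if_pos h2]

omit [Fintype V] in
/-- lower bound for `mH` which keeps one missing pair -/
theorem mH_lower2 {G : SimpleGraph V} {H : Finset V} {c : V → Fin r} {x y : V → ℝ} {s t : ℝ}
    {v1 v2 : V} (h1 : v1 ∈ H) (h2 : v2 ∈ H) (hc : c v1 ≠ c v2) (hadj : ¬ G.Adj v1 v2)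
    (hs : 0 ≤ s) (ht : 0 ≤ t) (hx : ∀ v ∈ H, s ≤ x v) (hy : ∀ v ∈ H, t ≤ y v) :
    x v1 * y v2 + x v2 * y v1 + ((mis G H c : ℝ) - 2) * (s * t) ≤ mH G H c x y := by
  have h12 : v1 ≠ v2 := fun h => hc (by rw [h])
  have e1 := pair_sum h1 h2 h12 (fun a b => x a * y b)
  have e2 := pair_sum h1 h2 h12 (fun _ _ => s * t)
  beta_reduce at e1 e2
  have e3 : x v1 * y v2 + x v2 * y v1 + ((mis G H c : ℝ) - 2) * (s * t)
      = ∑ a ∈ H, ∑ b ∈ H, (chi ((a = v1 ∧ b = v2) ∨ (a = v2 ∧ b = v1)) * (x a * y b)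
        + chi (c a ≠ c b ∧ ¬ G.Adj a b) * (s * t)
        - chi ((a = v1 ∧ b = v2) ∨ (a = v2 ∧ b = v1)) * (s * t)) := by
    simp only [Finset.sum_add_distrib, Finset.sum_sub_distrib]
    rw [e1, e2, EDG.mis_eq, sub_mul, Finset.sum_mul]
    simp only [Finset.sum_mul]
    ring
  rw [e3]
  unfold mH
  refine Finset.sum_le_sum fun a ha => Finset.sum_le_sum fun b hb => ?_
  by_cases hp : (a = v1 ∧ b = v2) ∨ (a = v2 ∧ b = v1)
  · have hm : c a ≠ c b ∧ ¬ G.Adj a b := by
      rcases hp with ⟨rfl, rfl⟩ | ⟨rfl, rfl⟩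
      · exact ⟨hc, hadj⟩
      · exact ⟨hc.symm, fun h => hadj h.symm⟩
    rw [chi_pos hp, chi_pos hm]
    linarith only []
  · rw [chi_neg hp, zero_mul, zero_mul, zero_add, sub_zero]
    refine mul_le_mul_of_nonneg_left ?_ (chi_nonneg _)
    exact mul_le_mul (hx a ha) (hy b hb) ht (hs.trans (hx a ha))

/-- a colouring if all edges outside `H` are at `w` -/
theorem col {G : SimpleGraph V} {H : Finset V} {c : V → Fin r} {w : V} {i0 : Fin r}
    (ind : ∀ u ∈ H, ∀ v ∈ H, c u = c v → ¬ G.Adj u v) (h0 : cl (nb G H w) c i0 = ∅)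
    (hd : ∀ v, v ∉ H → v ≠ w → dg G H v = 0) (he : eu G H = 0) : G.Colorable r := by
  classical
  have hout : ∀ a b, a ∈ H → b ∉ H → G.Adj a b → c a ≠ i0 := by
    intro a b ha hb hab hi
    have h1 : a ∈ nb G H b := mem_nb.mpr ⟨ha, hab.symm⟩
    have hbw : b = w := by
      by_contra hbw
      have h2 := hd b hb hbw
      unfold dg at h2
      rw [Finset.card_eq_zero] at h2
      rw [h2] at h1
      exact absurd h1 (Finset.notMem_empty _)
    rw [hbw] at h1
    have h3 : a ∈ cl (nb G H w) c i0 := mem_cl.mpr ⟨h1, hi⟩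
    rw [h0] at h3
    exact absurd h3 (Finset.notMem_empty _)
  refine ⟨SimpleGraph.Coloring.mk (fun v => if v ∈ H then c v else i0) ?_⟩
  intro a b hab
  by_cases ha : a ∈ H
  · by_cases hb : b ∈ H
    · rw [if_pos ha, if_pos hb]
      exact fun h => ind a ha b hb h hab
    · rw [if_pos ha, if_neg hb]
      exact hout a b ha hb hab
  · by_cases hb : b ∈ H
    · rw [if_neg ha, if_pos hb]
      exact (hout b a hb ha hab.symm).symm
    · exfalso
      unfold eu at he
      rw [Finset.card_eq_zero, Finset.filter_eq_empty_iff] at he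
      exact he (x := (a, b)) (Finset.mem_univ _) ⟨hab, ha, hb⟩

open Classical in
omit [Fintype V] in
/-- a transversal through two given vertices -/
theorem trans {H : Finset V} {c : V → Fin r} {p q : V} (hp : p ∈ H) (hq : q ∈ H)
    (hpq : c p ≠ c q) (hne : ∀ i, (cl H c i).Nonempty) :
    ∃ T : Finset V, T ⊆ H ∧ p ∈ T ∧ q ∈ T ∧ T.card = r ∧ ∀ i, (cl T c i).card = 1 := by
  classical
  choose t0 ht0 using hne
  set t : Fin r → V := fun i => if i = c p then p else if i = c q then q else t0 i with ht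
  have htc : ∀ i, c (t i) = i := by
    intro i
    rw [ht]
    by_cases h1 : i = c p
    · simp only [if_pos h1]; exact h1.symm
    · by_cases h2 : i = c q
      · simp only [if_neg h1, if_pos h2]; exact h2.symm
      · simp only [if_neg h1, if_neg h2]; exact (mem_cl.mp (ht0 i)).2
  have htH : ∀ i, t i ∈ H := by
    intro i
    rw [ht]
    by_cases h1 : i = c p
    · simp only [if_pos h1]; exact hp
    · by_cases h2 : i = c q
      · simp only [if_neg h1, if_pos h2]; exact hq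
      · simp only [if_neg h1, if_neg h2]; exact (mem_cl.mp (ht0 i)).1
  have hinj : Function.Injective t := by
    intro i j hij
    rw [← htc i, ← htc j, hij]
  refine ⟨univ.image t, ?_, ?_, ?_, ?_, ?_⟩
  · intro v hv
    obtain ⟨i, _, rfl⟩ := Finset.mem_image.mp hv
    exact htH i
  · refine Finset.mem_image.mpr ⟨c p, Finset.mem_univ _, ?_⟩
    rw [ht]; simp only [if_true]
  · refine Finset.mem_image.mpr ⟨c q, Finset.mem_univ _, ?_⟩
    rw [ht]; simp only [if_neg hpq.symm, if_true]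
  · rw [Finset.card_image_of_injective _ hinj, Finset.card_univ, Fintype.card_fin]
  · intro i
    have : cl (univ.image t) c i = {t i} := by
      ext v
      rw [mem_cl, Finset.mem_image, Finset.mem_singleton]
      constructor
      · rintro ⟨⟨j, _, rfl⟩, h2⟩
        rw [htc] at h2
        rw [h2]
      · rintro rfl
        exact ⟨⟨i, Finset.mem_univ _, rfl⟩, htc i⟩
    rw [this, Finset.card_singleton]

end

/-- final arithmetic, one missing pair -/
theorem arithA (e r g a T pq R : ℝ) (he : 0 < e) (her : 1000 * e * r ^ 2 ≤ 1)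
    (hg0 : 1 ≤ g) (hg : g ≤ 2 * r) (ha : 0 ≤ a) (hag : a ≤ g) (hT : T ≤ g ^ 2 - 1)
    (hpq : pq ≤ g + a) (hR : R ≤ g) :
    0 < g ^ 2 - T - 30 * e * (pq * (g + a) + (T - a ^ 2) + R) := by
  have h1 : pq * (g + a) ≤ (2 * g) * (2 * g) :=
    mul_le_mul (by linarith only [hag, hpq]) (by linarith only [hag]) (by linarith only [hg0, ha]) (by linarith only [hg0])
  have h2 : g ≤ g ^ 2 := by nlinarith only [hg0]
  have h3 : pq * (g + a) + (T - a ^ 2) + R ≤ 6 * g ^ 2 := by nlinarith only [hT, hR, h1]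
  have h4 : g ^ 2 ≤ 4 * r ^ 2 := by nlinarith only [hg, ha, hag]
  have h5 : 30 * e * (pq * (g + a) + (T - a ^ 2) + R) ≤ 30 * e * (6 * (4 * r ^ 2)) :=
    mul_le_mul_of_nonneg_left (by linarith only [h3, h4]) (by positivity)
  nlinarith only [her, hT, h5]

/-- final arithmetic, several missing pairs; `m = M - 1` -/
theorem arithB (e r N a a' D E m T pq X : ℝ) (he : 0 < e) (hr : 3 ≤ r)
    (her : 1000 * e * r ^ 2 ≤ 1) (hN : 16 * r ^ 2 ≤ N) (ha : 0 ≤ a) (ha'0 : 0 ≤ a')
    (ha' : a' ≤ 2 * r) (hD : 0 ≤ D) (hE : 0 ≤ E) (haD : a ≤ D) (hg : D + E = m + a') (hm : 1 ≤ m)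
    (hT : T ≤ a * D) (haN : a ≤ e * N) (hpq : pq ≤ a' + a)
    (hX : 9 / 10 * (N * m) ≤ X) :
    0 < X + (a' ^ 2 - T - 30 * e * (pq * (a' + a) + (T - a ^ 2) + (D - a + E))) := by
  have hN0 : 0 < N := by nlinarith only [hr, hN]
  have her1 : e * r ≤ 1 / 3000 := by nlinarith only [hr, her]
  have he1 : e ≤ 1 / 9000 := by nlinarith only [hr, her1]
  have hgr : m + a' ≤ m * (3 * r) := by nlinarith only [hr, ha', hm]
  have hDg : D ≤ m * (3 * r) := by linarith only [hE, hg, hgr]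
  -- a * D
  have h1 : a * D ≤ (e * N) * (m * (3 * r)) := mul_le_mul haN hDg hD (by positivity)
  have h2 : (e * N) * (m * (3 * r)) = 3 * (e * r) * (N * m) := by ring
  have hNm : 0 ≤ N * m := by positivity
  have h3 : a * D ≤ 1 / 1000 * (N * m) := by
    rw [h2] at h1
    have : 3 * (e * r) * (N * m) ≤ 1 / 1000 * (N * m) :=
      mul_le_mul_of_nonneg_right (by linarith only [her1]) hNm
    linarith only [h1, this]
  have h4 : pq * (a' + a) ≤ (a' + a) * (a' + a) := mul_le_mul_of_nonneg_right hpq (by linarith only [ha, ha'0])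
  have h5 : (a' + a) * (a' + a) ≤ 2 * a' ^ 2 + 2 * a ^ 2 := by nlinarith only [sq_nonneg (a' - a)]
  have h6 : a ^ 2 ≤ a * D := by rw [sq]; exact mul_le_mul_of_nonneg_left haD ha
  have h7 : a' ^ 2 ≤ 4 * r ^ 2 := by nlinarith only [ha'0, ha']
  have h8 : pq * (a' + a) + (T - a ^ 2) + (D - a + E)
      ≤ 8 * r ^ 2 + 3 * (1 / 1000 * (N * m)) + m * (3 * r) := by
    nlinarith only [hr, ha, ha'0, ha', hg, hm, hT, h3, h4, h5, h6]
  have h9 : 30 * e * (pq * (a' + a) + (T - a ^ 2) + (D - a + E))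
      ≤ 30 * e * (8 * r ^ 2 + 3 * (1 / 1000 * (N * m)) + m * (3 * r)) :=
    mul_le_mul_of_nonneg_left h8 (by positivity)
  have h10 : 30 * e * (8 * r ^ 2) ≤ 1 / 4 := by nlinarith only [her]
  have h11 : 30 * e * (3 * (1 / 1000 * (N * m))) ≤ 1 / 1000 * (N * m) := by
    have : 30 * e * 3 ≤ 1 := by linarith only [he1]
    calc 30 * e * (3 * (1 / 1000 * (N * m))) = (30 * e * 3) * (1 / 1000 * (N * m)) := by ring
      _ ≤ 1 * (1 / 1000 * (N * m)) := mul_le_mul_of_nonneg_right this (by positivity)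
      _ = _ := by ring
  have h12 : 30 * e * (m * (3 * r)) ≤ m := by
    have : 30 * e * (m * (3 * r)) = 90 * (e * r) * m := by ring
    rw [this]
    nlinarith only [hm, her1]
  have h13 : 100 ≤ N := by nlinarith only [hr, hN]
  have h14 : 100 * m ≤ N * m := mul_le_mul_of_nonneg_right h13 (by linarith only [hm])
  have h15 : 0 ≤ a' ^ 2 := sq_nonneg _
  nlinarith only [hm, hT, hX, h3, h9, h10, h11, h12, h13]

end SM1c

theorem blk_SM1c (hGD : Stmt_GD) (_hTRV : Stmt_TRV) (hEID : Stmt_EID) (hEVN : Stmt_EVN)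
    (hEST : Stmt_EST1) (hTRF : Stmt_TRF) (hCORE : Stmt_CORE) : Stmt_SM1c := by
  classical
  intro r hr
  have hr3 : (3 : ℝ) ≤ r := by exact_mod_cast hr
  have hr0 : (0 : ℝ) < r := by linarith only [hr3]
  obtain ⟨e, he⟩ : ∃ e : ℝ, e = 1 / (1000 * (r : ℝ) ^ 2) := ⟨_, rfl⟩
  have he0 : 0 < e := by rw [he]; positivity
  have her : 1000 * e * (r : ℝ) ^ 2 ≤ 1 := by
    rw [he]; apply le_of_eq; field_simp
  have he1 : e ≤ 1 / 9000 := by
    have h9 : (9 : ℝ) ≤ (r : ℝ) ^ 2 := by nlinarith only [hr3]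
    have h8 : 1000 * e * 9 ≤ 1000 * e * (r : ℝ) ^ 2 :=
      mul_le_mul_of_nonneg_left h9 (by positivity)
    linarith only [her, h8]
  obtain ⟨δ1, N1, hδ1, hδ1e, hE1⟩ := hEST r e hr he0
  refine ⟨min (δ1 / 2) (1 / (2 * (r : ℝ))), max N1 (16 * r ^ 2),
    lt_min (by positivity) (by positivity), ?_⟩
  have hδa : 2 * min (δ1 / 2) (1 / (2 * (r : ℝ))) ≤ δ1 := by
    have := min_le_left (δ1 / 2) (1 / (2 * (r : ℝ)))
    linarith only [this]
  have hδb : min (δ1 / 2) (1 / (2 * (r : ℝ))) * (2 * r) ≤ 1 := by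
    have h1 := min_le_right (δ1 / 2) (1 / (2 * (r : ℝ)))
    rwa [le_div_iff₀ (by positivity)] at h1
  have hδ0 : 0 < min (δ1 / 2) (1 / (2 * (r : ℝ))) := lt_min (by positivity) (by positivity)
  generalize min (δ1 / 2) (1 / (2 * (r : ℝ))) = δ at hδa hδb hδ0
  intro N hN V _ G c H w i0 hC hfree hcolG hMX hmis0 hcnt hcnt2 hw hmax hcl0
  have hN1 : N1 ≤ N := (le_max_left _ _).trans hN
  have hN16 : 16 * (r : ℝ) ^ 2 ≤ N := by
    have : 16 * r ^ 2 ≤ N := (le_max_right _ _).trans hN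
    exact_mod_cast this
  have hN4 : 4 * (r : ℝ) ≤ N := by nlinarith only [hr3, hN16]
  have hNpos : 0 < (N : ℝ) := by linarith only [hr0, hN4]
  have : Nonempty V := ⟨w⟩
  obtain ⟨x, hx⟩ := exists_PV G
  have hC1 : C0 r δ1 N G c H := SM1b.c0_mono hC (by linarith only [hδa, hδ0])
  obtain ⟨xb, hFl⟩ := hE1 N hN1 V G x _ c H hC1 hx
  obtain ⟨⟨M, hM⟩, ⟨E, hE⟩⟩ := hEVN r V G c H
  have hM1 : 1 ≤ M := by omega
  -- a missing pair
  obtain ⟨p, q, hp, hq, hpqc, hpqa⟩ : ∃ p q : V, p ∈ H ∧ q ∈ H ∧ c p ≠ c q ∧ ¬ G.Adj p q := by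
    unfold mis at hmis0
    obtain ⟨⟨p, q⟩, h1⟩ := Finset.card_pos.mp hmis0
    rw [Finset.mem_filter, Finset.mem_product] at h1
    exact ⟨p, q, h1.1.1, h1.1.2, h1.2.1, h1.2.2⟩
  have hcls : ∀ i, 2 ≤ (cl H c i).card := by
    intro i
    have h3 := abs_le.mp (hC.bal i)
    have h4 : sz H c i = ((cl H c i).card : ℝ) := rfl
    rw [h4] at h3
    have h5 : 2 ≤ (N : ℝ) / r - δ * N := by
      have h6 : (N : ℝ) / r - δ * N = (1 / r - δ) * N := by ring
      have h7 : 1 / (2 * (r : ℝ)) ≤ 1 / r - δ := by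
        have h8 : δ ≤ 1 / (2 * (r : ℝ)) := by
          rw [le_div_iff₀ (by positivity)]; exact hδb
        have h9 : 1 / (r : ℝ) = 1 / (2 * r) + 1 / (2 * r) := by field_simp; ring
        linarith only [h8, h9]
      have h8 : 1 / (2 * (r : ℝ)) * (4 * r) ≤ (1 / r - δ) * N :=
        mul_le_mul h7 hN4 (by positivity) (le_trans (by positivity) h7)
      have h9 : 1 / (2 * (r : ℝ)) * (4 * r) = 2 := by field_simp; ring
      linarith only [h6, h8, h9]
    have h6 : ((2 : ℕ) : ℝ) ≤ ((cl H c i).card : ℝ) := by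
      push_cast
      linarith only [h5, h3.1]
    exact_mod_cast h6
  obtain ⟨T0, hT0H, hpT, hqT, hT0c, hT01⟩ := SM1c.trans hp hq hpqc
    (fun i => Finset.card_pos.mp (by have := hcls i; omega))
  -- degree sums
  have hwout : w ∈ out H := mem_out.mpr hw
  generalize hDdef : ∑ v ∈ out H, dg G H v = D at hcnt hcnt2
  have hDr : ∑ v ∈ out H, (dg G H v : ℝ) = D := by rw [← hDdef]; push_cast; rfl
  have hMr : (mis G H c : ℝ) = 2 * M := by rw [hM]; push_cast; ring
  have hEr : (eu G H : ℝ) = 2 * E := by rw [hE]; push_cast; ring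
  have heo := SM1b.eo_split G H
  rw [hDr, hEr] at heo
  have heoN : (D : ℝ) + 2 * E ≤ δ * N := by rw [← heo]; exact hC.eo
  have haD : dg G H w ≤ D := by
    rw [← hDdef]
    exact Finset.single_le_sum (f := fun v => dg G H v) (fun v _ => Nat.zero_le _) hwout
  have hcnt' : M + r ≤ D + E + 1 := by rw [hM, hE] at hcnt; omega
  have hcnt2' : D + E + 1 < M + 2 * r := by rw [hM, hE] at hcnt2; omega
  obtain ⟨Q, hQ⟩ := Nat.exists_eq_add_of_le hcnt'
  have hQr : Q < r := by omega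
  obtain ⟨b, hb⟩ : ∃ b, b + 1 + 1 = T0.card + Q := ⟨T0.card + Q - 2, by omega⟩
  have hδ100 : δ ≤ 1 / 100 := by linarith only [he1, hδ1e, hδa]
  have hroom : b + (cl H c (c p)).card + (cl H c (c q)).card ≤ H.card := by
    have h3 : ((b + (cl H c (c p)).card + (cl H c (c q)).card : ℕ) : ℝ) ≤ ((H.card : ℕ) : ℝ) := by
      push_cast
      rw [hC.card]
      have h4 := abs_le.mp (hC.bal (c p))
      have h5 := abs_le.mp (hC.bal (c q))
      have h6 : sz H c (c p) = ((cl H c (c p)).card : ℝ) := rfl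
      have h7 : sz H c (c q) = ((cl H c (c q)).card : ℝ) := rfl
      rw [h6] at h4
      rw [h7] at h5
      have h8 : (N : ℝ) / r ≤ N / 3 := div_le_div_of_nonneg_left hNpos.le (by norm_num) hr3
      have h9 : δ * N ≤ 1 / 100 * N := mul_le_mul_of_nonneg_right hδ100 hNpos.le
      have h10 : (b : ℝ) ≤ 2 * r := by
        have : b ≤ 2 * r := by omega
        exact_mod_cast this
      have h11 : 2 * (r : ℝ) ≤ N / 8 := by nlinarith only [hr3, hN16]
      linarith only [h8, h9, h10, h11, h4.2, h5.2]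
    exact_mod_cast h3
  obtain ⟨A', hA'H, hA'0, hA'1, hA'ne, hA'card, _, _⟩ :=
    B1U.mkA H T0 c (c p) (c q) p q hT0H hpqc (mem_cl.mpr ⟨hpT, rfl⟩) (mem_cl.mpr ⟨hqT, rfl⟩)
      (fun i => Finset.card_pos.mp (by rw [hT01]; exact one_pos)) 1 Q b (hT01 _).le (hT01 _).le
      hb (by omega) hroom
  have hA'c : A'.card = r + Q := by omega
  have hWD : WD (gD H c w A' p q) N H c w A' p q :=
    gD_WD hC.card hw hA'H hpqc hA'0 hA'1 hA'ne
  generalize hG' : gD H c w A' p q = G' at hWD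
  obtain ⟨hfree', hcol', hpE'⟩ := hGD r hr V _ N H c w A' p q hWD
  have hQr2 : (D : ℝ) + E + 1 = M + r + Q := by exact_mod_cast hQ
  have hA'r : (A'.card : ℝ) = D + E + 1 - M := by
    rw [hA'c]; push_cast; linarith only [hQr2]
  have hpE : pE G' = pE G := by
    rw [hpE', hEID r V G c H hC.ind, hDr, hMr, hEr, hC.card, hA'r]
    ring
  have hspec := hMX _ hfree' (hcol' hcls) hpE
  obtain ⟨y, hy⟩ := exists_PV G'
  obtain ⟨hp1, hp2, hp12, hpair⟩ := SM1b.wd_pair hWD
  have hmis' : (mis G' H c : ℝ) = 2 := by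
    rw [SM1b.mis_mH, SM1b.mH_pair hp1 hp2 hp12 hpair]; norm_num
  have hmisle : mis G' H c ≤ mis G H c := by
    have h3 : mis G' H c = 2 := by exact_mod_cast hmis'
    rw [h3, hM]; omega
  have hind' : ∀ u ∈ H, ∀ v ∈ H, c u = c v → ¬ G'.Adj u v := by
    intro u hu v hv huv hadj
    rw [hWD.adj] at hadj
    rcases hadj with h3 | h3 | h3
    · exact h3.2.2.1 huv
    · exact hw (h3.1 ▸ hu)
    · exact hw (h3.1 ▸ hv)
  have hC' : C0 r δ1 N G' c H :=
    SM1b.c0_mono (hTRF r δ N V G G' c H hC hind' hpE hmisle) hδa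
  obtain ⟨yb, hFl'⟩ := hE1 N hN1 V G' y _ c H hC' hy
  have hcore := hCORE r hr V G G' c H w x y _ _ xb yb e N he0.le (by linarith only [he1])
    (by have : (1 : ℝ) ≤ N := by linarith only [hr3, hN4]
        exact_mod_cast this) (SM1b.c0_mono hC1 hδ1e) hind' hw hx hy hFl hFl' hspec
  obtain ⟨hnbw, hdgw, _, hsq⟩ := SM1b.wd_deg hWD
  rw [hsq, hnbw, hdgw, SM1b.mH_pair hp1 hp2 hp12 hpair, hDr, hEr] at hcore
  have hs2 := SM1b.s2_le hmax
  rw [hDr] at hs2
  have hxb := hFl.xb0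
  have hyb := hFl'.xb0
  have hxy : 0 < xb * yb := mul_pos hxb hyb
  have hexb : e * xb ≤ 1 / 200 * xb := mul_le_mul_of_nonneg_right (by linarith only [he1]) hxb.le
  have heyb : e * yb ≤ 1 / 200 * yb := mul_le_mul_of_nonneg_right (by linarith only [he1]) hyb.le
  have hxH : ∀ v ∈ H, 199 / 200 * xb ≤ x v := by
    intro v hv
    have := abs_le.mp (hFl.xH v hv)
    linarith only [hexb, this.1]
  have hyH : ∀ v ∈ H, 199 / 200 * yb ≤ y v := by
    intro v hv
    have := abs_le.mp (hFl'.xH v hv)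
    linarith only [heyb, this.1]
  have hlow := SM1c.mH_lower2 (G := G) (c := c) (x := x) (y := y)
    (s := 199 / 200 * xb) (t := 199 / 200 * yb) hp hq hpqc hpqa (by positivity) (by positivity)
    hxH hyH
  rw [hMr] at hlow
  have hpqn : (df A' (nb G H w)).card + (df (nb G H w) A').card ≤ A'.card + dg G H w := by
    unfold df
    exact Nat.add_le_add (Finset.card_filter_le _ _) (Finset.card_filter_le _ _)
  have hpq : ((df A' (nb G H w)).card : ℝ) + (df (nb G H w) A').card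
      ≤ A'.card + dg G H w := by
    exact_mod_cast hpqn
  have hpq0 : (0 : ℝ) ≤ (df A' (nb G H w)).card + (df (nb G H w) A').card := by positivity
  generalize ((df A' (nb G H w)).card : ℝ) + (df (nb G H w) A').card = pq at hpq hpq0 hcore
  have ha0 : (0 : ℝ) ≤ dg G H w := Nat.cast_nonneg _
  have haDr : (dg G H w : ℝ) ≤ D := by exact_mod_cast haD
  have hD0 : (0 : ℝ) ≤ D := Nat.cast_nonneg _
  have hE0 : (0 : ℝ) ≤ E := Nat.cast_nonneg _
  have hQ0 : (0 : ℝ) ≤ Q := Nat.cast_nonneg _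
  have hA'2r : (A'.card : ℝ) ≤ 2 * r := by
    rw [hA'c]; push_cast
    have : (Q : ℝ) ≤ r := by exact_mod_cast hQr.le
    linarith only [this]
  have hA'0r : (0 : ℝ) ≤ A'.card := Nat.cast_nonneg _
  have hlamN := abs_le.mp hFl.lamN
  have halr := al_ge hr
  have hlam : N / 2 ≤ specRad G := by
    have h3 : 2 / 3 * (N : ℝ) ≤ al r * N := mul_le_mul_of_nonneg_right halr hNpos.le
    have h4 : e * N ≤ 1 / 9000 * N := mul_le_mul_of_nonneg_right he1 hNpos.le
    linarith only [h3, h4, hlamN.1]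
  have hlam0 : 0 ≤ specRad G := by linarith only [heoN, hlam]
  have hTn : ∑ v ∈ out H, (dg G H v : ℝ) ^ 2 = ((∑ v ∈ out H, dg G H v ^ 2 : ℕ) : ℝ) := by
    push_cast; rfl
  have hTD : ∑ v ∈ out H, dg G H v ^ 2 ≤ dg G H w * D := by
    rw [← hDdef, Finset.mul_sum]
    refine Finset.sum_le_sum fun v hv => ?_
    rw [sq]
    exact Nat.mul_le_mul_right _ (hmax v (mem_out.mp hv))
  rw [hTn] at hcore
  generalize hTdef : ∑ v ∈ out H, dg G H v ^ 2 = T at hTD hcore
  have hTDr : (T : ℝ) ≤ dg G H w * D := by exact_mod_cast hTD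
  by_cases hM' : M = 1
  · -- one missing pair
    have hMr1 : (M : ℝ) = 1 := by exact_mod_cast hM'
    have hA'g : (A'.card : ℝ) = D + E := by rw [hA'r, hMr1]; ring
    have hg3 : 3 ≤ D + E := by omega
    have hTg : T + 1 ≤ (D + E) ^ 2 := by
      by_contra hcon
      have h1 : (D + E) ^ 2 ≤ T := by omega
      have h2 : (D + E) ^ 2 ≤ dg G H w * D := h1.trans hTD
      have h3 : dg G H w * D ≤ D * D := Nat.mul_le_mul_right _ haD
      have hE00 : E = 0 := by
        by_contra hE1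
        have : 1 ≤ E := Nat.one_le_iff_ne_zero.mpr hE1
        nlinarith only [h2, h3, this]
      have hDa : D = dg G H w := by
        rw [hE00, add_zero, sq] at h2
        have : D ≤ dg G H w := Nat.le_of_mul_le_mul_right h2 (by omega)
        omega
      apply hcolG
      refine SM1c.col hC.ind hcl0 ?_ (by rw [hE, hE00])
      intro v hv hvw
      have h5 := Finset.add_sum_erase (out H) (fun v => dg G H v) hwout
      rw [hDdef, ← hDa] at h5
      have h6 : ∑ v ∈ (out H).erase w, dg G H v = 0 := by omega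
      exact Finset.sum_eq_zero_iff.mp h6 v (Finset.mem_erase.mpr ⟨hvw, mem_out.mpr hv⟩)
    have hTgr : (T : ℝ) ≤ ((D : ℝ) + E) ^ 2 - 1 := by
      have : ((T + 1 : ℕ) : ℝ) ≤ (((D + E) ^ 2 : ℕ) : ℝ) := by exact_mod_cast hTg
      push_cast at this
      linarith only [this]
    rw [hA'g] at hcore hpq hA'2r
    have har := SM1c.arithA e r ((D : ℝ) + E) (dg G H w) T pq ((D : ℝ) - dg G H w + E) he0 her
      (by have : ((3 : ℕ) : ℝ) ≤ ((D + E : ℕ) : ℝ) := by exact_mod_cast hg3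
          push_cast at this
          linarith only [this]) hA'2r ha0 (by linarith only [haDr]) hTgr hpq (by linarith only [])
    have har2 := mul_pos hxy har
    rw [hMr1] at hlow
    have h3 : 0 ≤ specRad G * (mH G H c x y - (x p * y q + x q * y p)) :=
      mul_nonneg hlam0 (by linarith only [hlow])
    have e1 : xb * yb * (((D : ℝ) + E) ^ 2 - T - 30 * e * (pq * ((D : ℝ) + E + dg G H w)
          + (T - (dg G H w : ℝ) ^ 2) + ((D : ℝ) - dg G H w + E)))
        = xb * yb * (((D : ℝ) + E) ^ 2 - T - 30 * e * (pq * ((D : ℝ) + E + dg G H w)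
          + (((D : ℝ) + E) ^ 2 - ((D : ℝ) + E) ^ 2)
          + (T - (dg G H w : ℝ) ^ 2) + ((D : ℝ) - dg G H w + 2 * E / 2))) := by
      ring
    rw [e1] at har2
    linarith only [hcore, har2, h3]
  · have hM2 : 2 ≤ M := by omega
    have hM2r : (2 : ℝ) ≤ M := by exact_mod_cast hM2
    have hdiff : 19 / 10 * (M - 1) * (xb * yb)
        ≤ mH G H c x y - (x p * y q + x q * y p) := by
      have h3 : (2 * (M : ℝ) - 2) * (199 / 200 * xb * (199 / 200 * yb))
          - 19 / 10 * (M - 1) * (xb * yb)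
          = ((2 * M - 2) * (39601 / 40000) - 19 / 10 * (M - 1)) * (xb * yb) := by
        ring
      have h4 : 0 ≤ ((2 * (M : ℝ) - 2) * (39601 / 40000) - 19 / 10 * (M - 1))
          * (xb * yb) := mul_nonneg (by linarith only [hM2r]) hxy.le
      linarith only [hlow, h4]
    have hX : 9 / 10 * (N * ((M : ℝ) - 1)) ≤ specRad G * (19 / 10 * (M - 1)) := by
      have h3 : N / 2 * (19 / 10 * ((M : ℝ) - 1)) ≤ specRad G * (19 / 10 * (M - 1)) :=
        mul_le_mul_of_nonneg_right hlam (by linarith only [hM2r])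
      have h4 : 0 ≤ (N : ℝ) * (M - 1) := mul_nonneg hNpos.le (by linarith only [hM2r])
      linarith only [h3, h4]
    have haN : (dg G H w : ℝ) ≤ e * N := by
      have h3 : δ * N ≤ e * N := mul_le_mul_of_nonneg_right (by linarith only [hδ1, hδ1e, hδa]) hNpos.le
      linarith only [heoN, haDr, h3]
    have har := SM1c.arithB e r N (dg G H w) A'.card D E (M - 1) T pq
      (specRad G * (19 / 10 * (M - 1))) he0 hr3 her hN16 ha0 hA'0r hA'2r hD0 hE0 haDr
      (by rw [hA'r]; ring) (by linarith only [hM2r]) hTDr haN hpq hX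
    have har2 := mul_pos hxy har
    have h3 := mul_le_mul_of_nonneg_left hdiff hlam0
    have e1 : xb * yb * (specRad G * (19 / 10 * (M - 1)) + ((A'.card : ℝ) ^ 2 - T
          - 30 * e * (pq * ((A'.card : ℝ) + dg G H w)
          + (T - (dg G H w : ℝ) ^ 2) + ((D : ℝ) - dg G H w + E))))
        = specRad G * (19 / 10 * (M - 1) * (xb * yb)) + xb * yb * ((A'.card : ℝ) ^ 2 - T
          - 30 * e * (pq * ((A'.card : ℝ) + dg G H w)
          + ((A'.card : ℝ) ^ 2 - (A'.card : ℝ) ^ 2)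
          + (T - (dg G H w : ℝ) ^ 2) + ((D : ℝ) - dg G H w + 2 * E / 2))) := by
      ring
    rw [e1] at har2
    linarith only [hcore, har2, h3]

end Pool.Agent.Work.MP_5532fa_up
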