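import Pool.Agent.Work.MP_5532fa_up.Interface4

/-!
# Block TAY: expansion of the secular function
-/

open Finset

namespace Pool.Agent.Work.MP_5532fa_up

namespace TAYp

theorem inv5 (s d : ℝ) (hs : s ≠ 0) (h : s + d ≠ 0) :
    1 / (s + d) = 1 / s - d / s ^ 2 + d ^ 2 / s ^ 3 - d ^ 3 / s ^ 4 + d ^ 4 / s ^ 5
      - d ^ 5 / (s ^ 5 * (s + d)) := by
  field_simp
  ring

/-- the remainder -/
noncomputable def Er {r : ℕ} (n : ℕ) (y : Fin r → ℝ) (s : ℝ) : ℝ :=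
  ∑ i, (y i - n / r) ^ 5 / (s ^ 5 * (s + (y i - n / r)))

theorem Pheq {r : ℕ} (hr : 3 ≤ r) (n : ℕ) (y : Fin r → ℝ) (lam s : ℝ) (hsum : ∑ i, y i = n)
    (hs : s = lam + n / r) (hs0 : s ≠ 0) (hne : ∀ i, s + (y i - n / r) ≠ 0) :
    Ph y lam = r - 1 - lam * (r / s + mo 2 n y / s ^ 3 - mo 3 n y / s ^ 4 + mo 4 n y / s ^ 5
      - Er n y s) := by
  have hr0 : (r:ℝ) ≠ 0 := by
    have : 0 < r := by omega
    positivity
  have h0 : ∑ i, (y i - (n:ℝ) / r) = 0 := by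
    rw [Finset.sum_sub_distrib, hsum, Finset.sum_const, Finset.card_univ, Fintype.card_fin,
      nsmul_eq_mul]
    field_simp
    ring
  have h1 : ∀ i, y i / (lam + y i) = 1 - lam * (1 / s - (y i - n / r) / s ^ 2
      + (y i - n / r) ^ 2 / s ^ 3 - (y i - n / r) ^ 3 / s ^ 4 + (y i - n / r) ^ 4 / s ^ 5
      - (y i - n / r) ^ 5 / (s ^ 5 * (s + (y i - n / r)))) := by
    intro i
    rw [← inv5 s (y i - n / r) hs0 (hne i)]
    have h2 : s + (y i - n / r) = lam + y i := by rw [hs]; ring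
    have h3 : lam + y i ≠ 0 := by rw [← h2]; exact hne i
    rw [h2]
    field_simp
    ring
  unfold Ph mo Er
  rw [Finset.sum_congr rfl fun i _ => h1 i, Finset.sum_sub_distrib, ← Finset.mul_sum,
    Finset.sum_sub_distrib, Finset.sum_add_distrib, Finset.sum_sub_distrib, Finset.sum_add_distrib,
    Finset.sum_sub_distrib, Finset.sum_const, Finset.sum_const, Finset.card_univ, Fintype.card_fin,
    ← Finset.sum_div, ← Finset.sum_div, ← Finset.sum_div, ← Finset.sum_div, h0]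
  simp only [nsmul_eq_mul]
  ring

/-- third moment -/
theorem mo3b {r : ℕ} (n : ℕ) (y : Fin r → ℝ) (B t : ℝ) (ht : 0 ≤ t)
    (hd : ∀ i, |y i - n / r| ≤ t) (h2 : mo 2 n y ≤ B * n) : |mo 3 n y| ≤ t * (B * n) := by
  unfold mo at *
  calc |∑ i, (y i - (n:ℝ) / r) ^ 3| ≤ ∑ i, |(y i - (n:ℝ) / r) ^ 3| := Finset.abs_sum_le_sum_abs _ _
    _ ≤ ∑ i, t * (y i - (n:ℝ) / r) ^ 2 := by
        apply Finset.sum_le_sum; intro i _
        rw [abs_pow, show |y i - (n:ℝ) / r| ^ 3 = |y i - (n:ℝ) / r| * |y i - (n:ℝ) / r| ^ 2 by ring,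
          sq_abs]
        exact mul_le_mul_of_nonneg_right (hd i) (sq_nonneg _)
    _ = t * ∑ i, (y i - (n:ℝ) / r) ^ 2 := by rw [Finset.mul_sum]
    _ ≤ t * (B * n) := mul_le_mul_of_nonneg_left h2 ht

/-- fourth moment -/
theorem mo4b {r : ℕ} (n : ℕ) (y : Fin r → ℝ) (B t : ℝ)
    (hd : ∀ i, |y i - n / r| ≤ t) (h2 : mo 2 n y ≤ B * n) : |mo 4 n y| ≤ t ^ 2 * (B * n) := by
  unfold mo at *
  calc |∑ i, (y i - (n:ℝ) / r) ^ 4| ≤ ∑ i, |(y i - (n:ℝ) / r) ^ 4| := Finset.abs_sum_le_sum_abs _ _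
    _ ≤ ∑ i, t ^ 2 * (y i - (n:ℝ) / r) ^ 2 := by
        apply Finset.sum_le_sum; intro i _
        rw [abs_pow, show |y i - (n:ℝ) / r| ^ 4 = |y i - (n:ℝ) / r| ^ 2 * |y i - (n:ℝ) / r| ^ 2 by
          ring]
        rw [← sq_abs (y i - (n:ℝ) / r)]
        exact mul_le_mul_of_nonneg_right (pow_le_pow_left₀ (abs_nonneg _) (hd i) 2) (by positivity)
    _ = t ^ 2 * ∑ i, (y i - (n:ℝ) / r) ^ 2 := by rw [Finset.mul_sum]
    _ ≤ t ^ 2 * (B * n) := mul_le_mul_of_nonneg_left h2 (sq_nonneg _)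

/-- remainder -/
theorem Erb {r : ℕ} (n : ℕ) (y : Fin r → ℝ) (B t s : ℝ) (hn : (0:ℝ) < n)
    (hd : ∀ i, |y i - n / r| ≤ t) (h2 : mo 2 n y ≤ B * n) (hs : (n:ℝ) / 2 ≤ s) (ht : 0 ≤ t)
    (hsd : ∀ i, (n:ℝ) / 2 ≤ s + (y i - n / r)) :
    |Er n y s| ≤ 64 / (n:ℝ) ^ 6 * (t ^ 3 * (B * n)) := by
  have hs5 : 0 ≤ s ^ 5 := by
    have : 0 ≤ s := le_trans (by positivity) hs
    positivity
  unfold mo Er at *
  calc |∑ i, (y i - (n:ℝ) / r) ^ 5 / (s ^ 5 * (s + (y i - n / r)))|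
      ≤ ∑ i, |(y i - (n:ℝ) / r) ^ 5 / (s ^ 5 * (s + (y i - n / r)))| :=
        Finset.abs_sum_le_sum_abs _ _
    _ ≤ ∑ i, 64 / (n:ℝ) ^ 6 * (t ^ 3 * (y i - (n:ℝ) / r) ^ 2) := by
        apply Finset.sum_le_sum; intro i _
        have h3 : ((n:ℝ) / 2) ^ 5 * (n / 2) ≤ s ^ 5 * (s + (y i - n / r)) :=
          mul_le_mul (pow_le_pow_left₀ (by positivity) hs 5) (hsd i) (by positivity) hs5
        have h4 : (0:ℝ) < (n / 2) ^ 5 * (n / 2) := by positivity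
        have h5 : |(y i - (n:ℝ) / r) ^ 5| ≤ t ^ 3 * (y i - (n:ℝ) / r) ^ 2 := by
          rw [abs_pow, show |y i - (n:ℝ) / r| ^ 5 = |y i - (n:ℝ) / r| ^ 3 * |y i - (n:ℝ) / r| ^ 2 by
            ring]
          rw [← sq_abs (y i - (n:ℝ) / r)]
          exact mul_le_mul_of_nonneg_right (pow_le_pow_left₀ (abs_nonneg _) (hd i) 3) (by positivity)
        rw [abs_div, abs_of_pos (lt_of_lt_of_le h4 h3)]
        calc |(y i - (n:ℝ) / r) ^ 5| / (s ^ 5 * (s + (y i - n / r)))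
            ≤ t ^ 3 * (y i - (n:ℝ) / r) ^ 2 / ((n / 2) ^ 5 * (n / 2)) :=
              div_le_div₀ (by positivity) h5 h4 h3
          _ = 64 / (n:ℝ) ^ 6 * (t ^ 3 * (y i - (n:ℝ) / r) ^ 2) := by
              field_simp; norm_num
    _ = 64 / (n:ℝ) ^ 6 * (t ^ 3 * ∑ i, (y i - (n:ℝ) / r) ^ 2) := by
        rw [← Finset.mul_sum, ← Finset.mul_sum]
    _ ≤ 64 / (n:ℝ) ^ 6 * (t ^ 3 * (B * n)) := by
        apply mul_le_mul_of_nonneg_left _ (by positivity)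
        exact mul_le_mul_of_nonneg_left h2 (by positivity)

/-- the coefficients -/
theorem coef (n a th B s ka : ℝ) (hn : 0 < n) (ha1 : 2 / 3 ≤ a) (hth : |th| ≤ B)
    (hBn : 4 * B ≤ n) (hs : s = n + th) (hka : ka = n ^ 2 / a * (a * n + th)) :
    |ka / s ^ 3 - 1| ≤ 72 * B / n ∧ |ka / s ^ 4 - 1 / n| ≤ 272 * B / n ^ 2 ∧
      |ka / s ^ 5 - 1 / n ^ 2| ≤ 1056 * B / n ^ 3 ∧ |ka| ≤ 3 * n ^ 3 := by
  have hB : 0 ≤ B := (abs_nonneg _).trans hth
  have ha : 0 < a := by linarith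
  have h1 := abs_le.mp hth
  have hs1 : n / 2 ≤ s := by rw [hs]; linarith [h1.1]
  have hs2 : s ≤ 2 * n := by rw [hs]; linarith [h1.2]
  have hs0 : 0 < s := by linarith
  have hka' : ka = n ^ 3 + n ^ 2 * th / a := by
    rw [hka]; field_simp
  have hai : |1 / a| ≤ 3 / 2 := by
    rw [abs_of_pos (by positivity), div_le_iff₀ ha]; linarith
  have hq : |n ^ 2 * th / a| ≤ 2 * B * n ^ 2 := by
    rw [show n ^ 2 * th / a = n ^ 2 * (th * (1 / a)) by ring, abs_mul, abs_mul,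
      abs_of_nonneg (by positivity : 0 ≤ n ^ 2)]
    have : |th| * |1 / a| ≤ B * (3 / 2) := mul_le_mul hth hai (abs_nonneg _) hB
    have h3 := mul_le_mul_of_nonneg_left this (by positivity : 0 ≤ n ^ 2)
    have h4 : 0 ≤ B * n ^ 2 := by positivity
    linarith
  have hsp : ∀ k : ℕ, 0 ≤ s ^ k := fun k => by positivity
  have hp1 : ∀ k : ℕ, (n / 2) ^ k ≤ s ^ k := fun k => pow_le_pow_left₀ (by positivity) hs1 k
  have hp2 : ∀ k : ℕ, s ^ k ≤ (2 * n) ^ k := fun k => pow_le_pow_left₀ (by positivity) hs2 k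
  refine ⟨?_, ?_, ?_, ?_⟩
  · have e : ka / s ^ 3 - 1 = (n ^ 2 * th / a - th * (s ^ 2 + s * n + n ^ 2)) / s ^ 3 := by
      rw [hka', eq_div_iff (by positivity), sub_mul, div_mul_cancel₀ _ (by positivity)]
      rw [hs]; ring
    rw [e, abs_div, abs_of_pos (by positivity : 0 < s ^ 3), div_le_div_iff₀ (by positivity) hn]
    have h2 : |n ^ 2 * th / a - th * (s ^ 2 + s * n + n ^ 2)| ≤ 9 * B * n ^ 2 := by
      have h3 : |th * (s ^ 2 + s * n + n ^ 2)| ≤ B * (7 * n ^ 2) := by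
        rw [abs_mul, abs_of_nonneg (by positivity : 0 ≤ s ^ 2 + s * n + n ^ 2)]
        apply mul_le_mul hth _ (by positivity) hB
        have := hp2 2
        have h5 : s * n ≤ 2 * n * n := mul_le_mul_of_nonneg_right hs2 hn.le
        linarith
      have h4 := abs_sub (n ^ 2 * th / a) (th * (s ^ 2 + s * n + n ^ 2))
      linarith
    have h3 := hp1 3
    calc |n ^ 2 * th / a - th * (s ^ 2 + s * n + n ^ 2)| * n ≤ 9 * B * n ^ 2 * n :=
          mul_le_mul_of_nonneg_right h2 hn.le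
      _ = 72 * B * (n / 2) ^ 3 := by ring
      _ ≤ 72 * B * s ^ 3 := mul_le_mul_of_nonneg_left h3 (by positivity)
  · have e : ka / s ^ 4 - 1 / n = (n * (n ^ 2 * th / a) - th * ((s + n) * (s ^ 2 + n ^ 2)))
        / (s ^ 4 * n) := by
      rw [eq_div_iff (by positivity), sub_mul]
      have h5 : ka / s ^ 4 * (s ^ 4 * n) = ka * n := by field_simp
      have h6 : 1 / n * (s ^ 4 * n) = s ^ 4 := by field_simp
      rw [h5, h6, hka', hs]; ring
    rw [e, abs_div, abs_of_pos (by positivity : 0 < s ^ 4 * n),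
      div_le_div_iff₀ (by positivity) (by positivity)]
    have h2 : |n * (n ^ 2 * th / a) - th * ((s + n) * (s ^ 2 + n ^ 2))| ≤ 17 * B * n ^ 3 := by
      have h3 : |th * ((s + n) * (s ^ 2 + n ^ 2))| ≤ B * (15 * n ^ 3) := by
        rw [abs_mul, abs_of_nonneg (by positivity : 0 ≤ (s + n) * (s ^ 2 + n ^ 2))]
        apply mul_le_mul hth _ (by positivity) hB
        have h6 := hp2 2
        have h5 : (s + n) * (s ^ 2 + n ^ 2) ≤ (3 * n) * (5 * n ^ 2) :=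
          mul_le_mul (by linarith) (by linarith) (by positivity) (by positivity)
        linarith
      have h4 := abs_sub (n * (n ^ 2 * th / a)) (th * ((s + n) * (s ^ 2 + n ^ 2)))
      have h5 : |n * (n ^ 2 * th / a)| ≤ n * (2 * B * n ^ 2) := by
        rw [abs_mul, abs_of_pos hn]
        exact mul_le_mul_of_nonneg_left hq hn.le
      linarith
    have h3 := hp1 4
    calc |n * (n ^ 2 * th / a) - th * ((s + n) * (s ^ 2 + n ^ 2))| * n ^ 2
        ≤ 17 * B * n ^ 3 * n ^ 2 := mul_le_mul_of_nonneg_right h2 (by positivity)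
      _ = 272 * B * ((n / 2) ^ 4 * n) := by ring
      _ ≤ 272 * B * (s ^ 4 * n) :=
          mul_le_mul_of_nonneg_left (mul_le_mul_of_nonneg_right h3 hn.le) (by positivity)
  · have e : ka / s ^ 5 - 1 / n ^ 2 = (n ^ 2 * (n ^ 2 * th / a)
        - th * (s ^ 4 + s ^ 3 * n + s ^ 2 * n ^ 2 + s * n ^ 3 + n ^ 4)) / (s ^ 5 * n ^ 2) := by
      rw [eq_div_iff (by positivity), sub_mul]
      have h5 : ka / s ^ 5 * (s ^ 5 * n ^ 2) = ka * n ^ 2 := by field_simp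
      have h6 : 1 / n ^ 2 * (s ^ 5 * n ^ 2) = s ^ 5 := by field_simp
      rw [h5, h6, hka', hs]; ring
    rw [e, abs_div, abs_of_pos (by positivity : 0 < s ^ 5 * n ^ 2),
      div_le_div_iff₀ (by positivity) (by positivity)]
    have h2 : |n ^ 2 * (n ^ 2 * th / a)
        - th * (s ^ 4 + s ^ 3 * n + s ^ 2 * n ^ 2 + s * n ^ 3 + n ^ 4)| ≤ 33 * B * n ^ 4 := by
      have h3 : |th * (s ^ 4 + s ^ 3 * n + s ^ 2 * n ^ 2 + s * n ^ 3 + n ^ 4)|
          ≤ B * (31 * n ^ 4) := by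
        rw [abs_mul, abs_of_nonneg (by positivity :
          0 ≤ s ^ 4 + s ^ 3 * n + s ^ 2 * n ^ 2 + s * n ^ 3 + n ^ 4)]
        apply mul_le_mul hth _ (by positivity) hB
        have h6 := hp2 4
        have h7 := mul_le_mul_of_nonneg_right (hp2 3) hn.le
        have h8 := mul_le_mul_of_nonneg_right (hp2 2) (by positivity : 0 ≤ n ^ 2)
        have h9 := mul_le_mul_of_nonneg_right hs2 (by positivity : 0 ≤ n ^ 3)
        have e1 : (2 * n) ^ 4 = 16 * n ^ 4 := by ring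
        have e2 : (2 * n) ^ 3 * n = 8 * n ^ 4 := by ring
        have e3 : (2 * n) ^ 2 * n ^ 2 = 4 * n ^ 4 := by ring
        have e4 : 2 * n * n ^ 3 = 2 * n ^ 4 := by ring
        rw [e1] at h6; rw [e2] at h7; rw [e3] at h8; rw [e4] at h9
        linarith
      have h4 := abs_sub (n ^ 2 * (n ^ 2 * th / a))
        (th * (s ^ 4 + s ^ 3 * n + s ^ 2 * n ^ 2 + s * n ^ 3 + n ^ 4))
      have h5 : |n ^ 2 * (n ^ 2 * th / a)| ≤ n ^ 2 * (2 * B * n ^ 2) := by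
        rw [abs_mul, abs_of_pos (by positivity : 0 < n ^ 2)]
        exact mul_le_mul_of_nonneg_left hq (by positivity)
      have e5 : n ^ 2 * (2 * B * n ^ 2) = 2 * B * n ^ 4 := by ring
      rw [e5] at h5
      linarith
    have h3 := hp1 5
    calc |n ^ 2 * (n ^ 2 * th / a)
        - th * (s ^ 4 + s ^ 3 * n + s ^ 2 * n ^ 2 + s * n ^ 3 + n ^ 4)| * n ^ 3
        ≤ 33 * B * n ^ 4 * n ^ 3 := mul_le_mul_of_nonneg_right h2 (by positivity)
      _ = 1056 * B * ((n / 2) ^ 5 * n ^ 2) := by ring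
      _ ≤ 1056 * B * (s ^ 5 * n ^ 2) :=
          mul_le_mul_of_nonneg_left (mul_le_mul_of_nonneg_right h3 (by positivity)) (by positivity)
  · rw [hka']
    have h3 := abs_add_le (n ^ 3) (n ^ 2 * th / a)
    rw [abs_of_pos (by positivity : 0 < n ^ 3)] at h3
    have h4 : 4 * B * n ^ 2 ≤ n * n ^ 2 := mul_le_mul_of_nonneg_right hBn (by positivity)
    have h5 : n * n ^ 2 = n ^ 3 := by ring
    have h6 : 0 < n ^ 3 := by positivity
    linarith

/-- the final estimate: `t` is the square root of `n`, `b` that of `B` -/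
theorem fin (n t B b D2 M3y M3z M4y M4z Ey Ez a3 a4 a5 ka : ℝ) (ht : 1 ≤ t) (hn : n = t ^ 2)
    (hB : 1 ≤ B) (hb : 0 ≤ b) (hbB : b ≤ B)
    (h3y : |M3y| ≤ b * t * (B * n)) (h3z : |M3z| ≤ b * t * (B * n))
    (h4y : |M4y| ≤ (b * t) ^ 2 * (B * n)) (h4z : |M4z| ≤ (b * t) ^ 2 * (B * n))
    (hEy : |Ey| ≤ 64 / n ^ 6 * ((b * t) ^ 3 * (B * n)))
    (hEz : |Ez| ≤ 64 / n ^ 6 * ((b * t) ^ 3 * (B * n)))
    (ha3 : |a3| ≤ 72 * B / n) (ha4 : |a4| ≤ 272 * B / n ^ 2) (ha5 : |a5| ≤ 1056 * B / n ^ 3)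
    (hka : |ka| ≤ 3 * n ^ 3) :
    |D2 * a3 - (M3z - M3y) * a4 + (M4z - M4y) * a5 - ka * (Ez - Ey)|
      ≤ 3040 * B ^ 4 / t + 3040 * B ^ 4 * |D2| / n := by
  have ht0 : 0 < t := by linarith
  have hn0 : 0 < n := by rw [hn]; positivity
  have hB0 : 0 ≤ B := by linarith
  have k1 : |D2 * a3| ≤ 72 * B * |D2| / n := by
    rw [abs_mul]
    calc |D2| * |a3| ≤ |D2| * (72 * B / n) := mul_le_mul_of_nonneg_left ha3 (abs_nonneg _)
      _ = 72 * B * |D2| / n := by ring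
  have k2 : |(M3z - M3y) * a4| ≤ 544 * B ^ 2 * b / t := by
    rw [abs_mul]
    have h := abs_sub M3z M3y
    calc |M3z - M3y| * |a4| ≤ (2 * (b * t * (B * n))) * (272 * B / n ^ 2) :=
          mul_le_mul (by linarith) ha4 (abs_nonneg _) (by positivity)
      _ = 544 * B ^ 2 * b / t := by rw [hn]; field_simp; ring
  have k3 : |(M4z - M4y) * a5| ≤ 2112 * B ^ 2 * b ^ 2 / t ^ 2 := by
    rw [abs_mul]
    have h := abs_sub M4z M4y
    calc |M4z - M4y| * |a5| ≤ (2 * ((b * t) ^ 2 * (B * n))) * (1056 * B / n ^ 3) :=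
          mul_le_mul (by linarith) ha5 (abs_nonneg _) (by positivity)
      _ = 2112 * B ^ 2 * b ^ 2 / t ^ 2 := by rw [hn]; field_simp; ring
  have k4 : |ka * (Ez - Ey)| ≤ 384 * B * b ^ 3 / t := by
    rw [abs_mul]
    have h := abs_sub Ez Ey
    calc |ka| * |Ez - Ey| ≤ (3 * n ^ 3) * (2 * (64 / n ^ 6 * ((b * t) ^ 3 * (B * n)))) :=
          mul_le_mul hka (by linarith) (abs_nonneg _) (by positivity)
      _ = 384 * B * b ^ 3 / t := by rw [hn]; field_simp; ring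
  have hBp : ∀ k : ℕ, 1 ≤ B ^ k := fun k => one_le_pow₀ hB
  have b2 : b ^ 2 ≤ B ^ 2 := pow_le_pow_left₀ hb hbB 2
  have b3 : b ^ 3 ≤ B ^ 3 := pow_le_pow_left₀ hb hbB 3
  have k1' : 72 * B * |D2| / n ≤ 3040 * B ^ 4 * |D2| / n := by
    apply div_le_div_of_nonneg_right _ hn0.le
    apply mul_le_mul_of_nonneg_right _ (abs_nonneg _)
    have := mul_le_mul_of_nonneg_left (hBp 3) hB0
    have e : B * B ^ 3 = B ^ 4 := by ring
    have := hBp 4
    linarith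
  have k2' : 544 * B ^ 2 * b / t ≤ 544 * B ^ 4 / t := by
    apply div_le_div_of_nonneg_right _ ht0.le
    have h1 : B ^ 2 * b ≤ B ^ 2 * B := mul_le_mul_of_nonneg_left hbB (by positivity)
    have h2 : B ^ 3 * 1 ≤ B ^ 3 * B := mul_le_mul_of_nonneg_left hB (by positivity)
    have e1 : B ^ 2 * B = B ^ 3 := by ring
    have e2 : B ^ 3 * B = B ^ 4 := by ring
    rw [e1] at h1; rw [e2] at h2
    linarith
  have k3' : 2112 * B ^ 2 * b ^ 2 / t ^ 2 ≤ 2112 * B ^ 4 / t := by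
    rw [div_le_div_iff₀ (by positivity) ht0]
    have h1 : B ^ 2 * b ^ 2 ≤ B ^ 2 * B ^ 2 := mul_le_mul_of_nonneg_left b2 (by positivity)
    have h2 : B ^ 2 * b ^ 2 * t ≤ B ^ 2 * B ^ 2 * t := mul_le_mul_of_nonneg_right h1 ht0.le
    have h3 : B ^ 4 * (t * 1) ≤ B ^ 4 * (t * t) :=
      mul_le_mul_of_nonneg_left (mul_le_mul_of_nonneg_left ht ht0.le) (by positivity)
    have e1 : B ^ 2 * B ^ 2 * t = B ^ 4 * (t * 1) := by ring
    have e2 : B ^ 4 * (t * t) = B ^ 4 * t ^ 2 := by ring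
    rw [e1] at h2; rw [e2] at h3
    have e3 : 2112 * B ^ 2 * b ^ 2 * t = 2112 * (B ^ 2 * b ^ 2 * t) := by ring
    have e4 : 2112 * B ^ 4 * t ^ 2 = 2112 * (B ^ 4 * t ^ 2) := by ring
    rw [e3, e4]
    linarith
  have k4' : 384 * B * b ^ 3 / t ≤ 384 * B ^ 4 / t := by
    apply div_le_div_of_nonneg_right _ ht0.le
    have h1 : B * b ^ 3 ≤ B * B ^ 3 := mul_le_mul_of_nonneg_left b3 hB0
    have e1 : B * B ^ 3 = B ^ 4 := by ring
    rw [e1] at h1
    linarith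
  have tot : 544 * B ^ 4 / t + 2112 * B ^ 4 / t + 384 * B ^ 4 / t = 3040 * B ^ 4 / t := by ring
  have q1 := abs_sub (D2 * a3 - (M3z - M3y) * a4 + (M4z - M4y) * a5) (ka * (Ez - Ey))
  have q2 := abs_add_le (D2 * a3 - (M3z - M3y) * a4) ((M4z - M4y) * a5)
  have q3 := abs_sub (D2 * a3) ((M3z - M3y) * a4)
  linarith

end TAYp

open TAYp in
theorem blk_TAY : Stmt_TAY := by
  intro r B hr hB
  have hB4 : 1 ≤ B ^ 4 := one_le_pow₀ hB
  have hBB : B ≤ B ^ 4 := by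
    calc B = B ^ 1 := (pow_one _).symm
      _ ≤ B ^ 4 := pow_le_pow_right₀ hB (by norm_num)
  refine ⟨3040 * B ^ 4, by linarith, ?_⟩
  intro n y z lam hn hlam hy hz hy2 hz2
  have hr3 : (3:ℝ) ≤ r := by exact_mod_cast hr
  have hr0 : (0:ℝ) < r := by linarith
  have ha1 : 2 / 3 ≤ al r := al_ge hr
  have haeq : al r = 1 - 1 / (r:ℝ) := rfl
  have hn16 : 16 * B ≤ n := by linarith
  have hn1 : (1:ℝ) ≤ n := by linarith
  have hn0 : (0:ℝ) < n := by linarith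
  have ht1 : 1 ≤ √(n:ℝ) := by
    rw [show (1:ℝ) = √1 by simp]; exact Real.sqrt_le_sqrt hn1
  have hb1 : √B ≤ B := by
    rw [Real.sqrt_le_left (by linarith)]
    have := mul_le_mul_of_nonneg_left hB (by linarith : 0 ≤ B)
    rw [sq]; linarith
  have hdev : ∀ w : Fin r → ℝ, mo 2 n w ≤ B * n → ∀ i, |w i - n / r| ≤ √B * √(n:ℝ) := by
    intro w hw i
    rw [← Real.sqrt_mul (by linarith)]
    apply Real.abs_le_sqrt
    refine le_trans ?_ hw
    exact Finset.single_le_sum (f := fun i => (w i - (n:ℝ) / r) ^ 2)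
      (fun i _ => sq_nonneg _) (Finset.mem_univ i)
  have hbt : √B * √(n:ℝ) ≤ n / 4 := by
    rw [← Real.sqrt_mul (by linarith), Real.sqrt_le_left (by positivity)]
    have := mul_le_mul_of_nonneg_right hn16 hn0.le
    rw [div_pow, sq]; linarith
  set th : ℝ := lam - al r * n with hth
  set s : ℝ := lam + n / r with hsdef
  have hs : s = n + th := by
    rw [hsdef, hth, haeq]; ring
  have hthB := abs_le.mp hlam
  have hs34 : 3 / 4 * (n:ℝ) ≤ s := by rw [hs]; linarith [hthB.1]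
  have hsne : s ≠ 0 := by
    have : 0 < s := by linarith
    exact this.ne'
  have hsd : ∀ w : Fin r → ℝ, mo 2 n w ≤ B * n → ∀ i, (n:ℝ) / 2 ≤ s + (w i - n / r) := by
    intro w hw i
    have := (abs_le.mp (hdev w hw i)).1
    linarith
  have hsdne : ∀ w : Fin r → ℝ, mo 2 n w ≤ B * n → ∀ i, s + (w i - n / r) ≠ 0 := by
    intro w hw i
    have h1 := hsd w hw i
    have h2 : (0:ℝ) < n / 2 := by positivity
    exact (lt_of_lt_of_le h2 h1).ne'
  have ePy := Pheq hr n y lam s hy hsdef hsne (hsdne y hy2)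
  have ePz := Pheq hr n z lam s hz hsdef hsne (hsdne z hz2)
  obtain ⟨c3, c4, c5, c6⟩ := coef n (al r) th B s ((n:ℝ) ^ 2 / al r * (al r * n + th)) hn0 ha1 hlam
    (by linarith) hs rfl
  have hlameq : al r * n + th = lam := by rw [hth]; ring
  rw [hlameq] at c3 c4 c5 c6
  have hbt0 : 0 ≤ √B * √(n:ℝ) := by positivity
  have key := fin n (√(n:ℝ)) B (√B) (mo 2 n z - mo 2 n y) (mo 3 n y) (mo 3 n z) (mo 4 n y)
    (mo 4 n z) (Er n y s) (Er n z s) _ _ _ _ ht1 (Real.sq_sqrt hn0.le).symm hB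
    (Real.sqrt_nonneg _) hb1
    (mo3b n y B _ hbt0 (hdev y hy2) hy2) (mo3b n z B _ hbt0 (hdev z hz2) hz2)
    (mo4b n y B _ (hdev y hy2) hy2) (mo4b n z B _ (hdev z hz2) hz2)
    (Erb n y B _ s hn0 (hdev y hy2) hy2 (by linarith) hbt0 (hsd y hy2))
    (Erb n z B _ s hn0 (hdev z hz2) hz2 (by linarith) hbt0 (hsd z hz2)) c3 c4 c5 c6
  rw [abs_sub_comm (mo 2 n y) (mo 2 n z), ePy, ePz]
  refine le_trans (le_of_eq ?_) key
  congr 1
  ring

end Pool.Agent.Work.MP_5532fa_up
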