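import Pool.Agent.Work.MP_5532fa_up.Interface4
import Pool.Agent.Work.MP_5532fa_up.D3
import Pool.Agent.Work.MP_5532fa_up.FAM
import Pool.Agent.Work.MP_5532fa_up.CSE
import Pool.Agent.Work.MP_5532fa_up.SM1b
import Pool.Agent.Work.MP_5532fa_up.TRF

/-!
# MP_5532fa_co, upgrade, fourth round, block TOPG: the missing edge joins two largest classes
-/

open Finset

namespace Pool.Agent.Work.MP_5532fa_up

open MP5532fa (specRad qf pE)

namespace TOPG

/-- all the classes of `A` have one element if `A` has `r` elements -/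
theorem card_one {V : Type} {r N : ℕ} {G : SimpleGraph V} {H : Finset V}
    {c : V → Fin r} {w : V} {A : Finset V} {v1 v2 : V} (hW : WD G N H c w A v1 v2)
    (hA : A.card = r) (i : Fin r) : (cl A c i).card = 1 := by
  have h1 : ∑ i, (cl A c i).card = ∑ _i : Fin r, 1 := by
    rw [sum_card_cl, hA]; simp
  have h2 := (Finset.sum_eq_sum_iff_of_le (s := univ) (f := fun _ : Fin r => 1)
    (g := fun i => (cl A c i).card) (fun i _ => Finset.card_pos.mpr (hW.hne i))).mp h1.symm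
  exact (h2 i (Finset.mem_univ i)).symm

/-- the difference of the class sums -/
theorem cs_pos {r : ℕ} (hr : 3 ≤ r) {a b s t xb : ℝ} (hxb : 0 < xb)
    (h : |a - b - al r * (s - t) * xb| ≤ 1 / 12 * xb * (|s - t| + 1)) (hst : 1 ≤ s - t) :
    0 < a - b := by
  have h1 := (abs_le.mp h).1
  rw [abs_of_pos (by linarith : 0 < s - t)] at h1
  have h2 : 2 / 3 * ((s - t) * xb) ≤ al r * ((s - t) * xb) :=
    mul_le_mul_of_nonneg_right (al_ge hr) (mul_nonneg (by linarith) hxb.le)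
  have h3 : xb ≤ (s - t) * xb := by
    have := mul_le_mul_of_nonneg_right hst hxb.le
    linarith
  have e1 : al r * (s - t) * xb = al r * ((s - t) * xb) := by ring
  have e2 : 1 / 12 * xb * (s - t + 1) = 1 / 12 * ((s - t) * xb) + 1 / 12 * xb := by ring
  rw [e1, e2] at h1
  linarith

/-- the conclusion of `FLAT` for `e = 1/12` -/
def FlatC (r : ℕ) (δ : ℝ) (N : ℕ) : Prop := ∀ (V : Type) [Fintype V] (G : SimpleGraph V)
    (x : V → ℝ) (lam : ℝ) (c : V → Fin r) (H : Finset V), C0 r δ N G c H → PV G x lam →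
    ∃ xb : ℝ, Fl r (1 / 12) N H x lam xb ∧
      (∀ i k, |cs x H c i - cs x H c k - al r * (sz H c i - sz H c k) * xb|
        ≤ 1 / 12 * xb * (|sz H c i - sz H c k| + 1))

theorem core {V : Type} [Fintype V] {r N : ℕ} {δ : ℝ} {G : SimpleGraph V} {H : Finset V}
    {c : V → Fin r} {w : V} {A : Finset V} {v1 v2 : V} (hr : 3 ≤ r) (hGD : Stmt_GD)
    (hδ0 : 0 < δ) (hE : FlatC r (2 * δ) N) (hW : WD G N H c w A v1 v2) (hC : C0 r δ N G c H)
    (hmx : MX r G) (hAr : A.card = r) (l : Fin r) (hl1 : l ≠ c v1) (hl2 : l ≠ c v2)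
    (hnl : (cl H c (c v1)).card < (cl H c l).card) (hsize : ∀ i, 2 ≤ (cl H c i).card)
    (hN0 : 0 < N) : False := by
  classical
  have hNR : (0 : ℝ) < N := by exact_mod_cast hN0
  obtain ⟨hv1H, hv2H, hv12, hprs⟩ := SM1b.wd_pair hW
  have hv1A : v1 ∈ A := by
    have : v1 ∈ cl A c (c v1) := by rw [hW.h1]; exact Finset.mem_singleton_self _
    exact (mem_cl.mp this).1
  have hV : Nonempty V := ⟨v1⟩
  obtain ⟨u1, hu1⟩ := Finset.card_eq_one.mp (card_one hW hAr l)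
  have hu1m : u1 ∈ cl A c l := by rw [hu1]; exact Finset.mem_singleton_self _
  obtain ⟨hu1A, hu1l⟩ := mem_cl.mp hu1m
  have h12' : c u1 ≠ c v2 := by rw [hu1l]; exact hl2
  have hclu1 : cl A c (c u1) = {u1} := by rw [hu1l]; exact hu1
  obtain ⟨G', hG'def⟩ : ∃ G' : SimpleGraph V, G' = gD H c w A u1 v2 := ⟨_, rfl⟩
  have hW' : WD G' N H c w A u1 v2 := by
    rw [hG'def]
    exact gD_WD hW.card hW.hw hW.hA h12' hclu1 hW.h2 hW.hne
  -- facts on the two graphs
  have hg := hGD r hr V G N H c w A v1 v2 hW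
  have hg' := hGD r hr V G' N H c w A u1 v2 hW'
  have hpE : pE G' = pE G := by rw [hg'.2.2, hg.2.2]
  have hle : specRad G' ≤ specRad G := hmx G' hg'.1 (hg'.2.1 hsize) hpE
  obtain ⟨hu1H, -, hu12, hprs'⟩ := SM1b.wd_pair hW'
  have hmis : mis G H c = 2 := by
    have : (mis G H c : ℝ) = 2 := by
      rw [SM1b.mis_mH, SM1b.mH_pair hv1H hv2H hv12 hprs]; norm_num
    exact_mod_cast this
  have hmis' : mis G' H c = 2 := by
    have : (mis G' H c : ℝ) = 2 := by
      rw [SM1b.mis_mH, SM1b.mH_pair hu1H hv2H hu12 hprs']; norm_num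
    exact_mod_cast this
  have hind' : ∀ u ∈ H, ∀ v ∈ H, c u = c v → ¬ G'.Adj u v := by
    intro u hu v hv huv hadj
    rcases (hW'.adj u v).mp hadj with h | h | h
    · exact h.2.2.1 huv
    · exact hW.hw (h.1 ▸ hu)
    · exact hW.hw (h.1 ▸ hv)
  have hC' : C0 r (2 * δ) N G' c H :=
    blk_TRF blk_EID r δ N V G G' c H hC hind' hpE (by rw [hmis, hmis'])
  have hC2 : C0 r (2 * δ) N G c H := hC.mono (by linarith)
  obtain ⟨x, hx⟩ := exists_PV G
  obtain ⟨y, hy⟩ := exists_PV G'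
  have hF := (blk_FAM r hr V G N H c w A).1 v1 v2 hW
  have hF' := (blk_FAM r hr V G' N H c w A).1 u1 v2 hW'
  obtain ⟨xb, hxb, hdx⟩ := hE V G x _ c H hC2 hx
  obtain ⟨yb, hyb, hdy⟩ := hE V G' y _ c H hC' hy
  obtain ⟨cx, -, -, -⟩ := blk_CSE r V G H c w A _ x _ hF hx
  obtain ⟨cy, -, -, -⟩ := blk_CSE r V G' H c w A _ y _ hF' hy
  generalize hlamdef : specRad G = lam at *
  generalize hlamdef' : specRad G' = lam' at *
  have hal3 := al_ge hr
  have hl'pos : 0 < lam' := by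
    have h1 := (abs_le.mp hyb.lamN).1
    have h2 : 2 / 3 * (N : ℝ) ≤ al r * N := mul_le_mul_of_nonneg_right hal3 hNR.le
    linarith
  have hdsz : 1 ≤ sz H c l - sz H c (c v1) := by
    unfold sz
    have : ((cl H c (c v1)).card : ℝ) + 1 ≤ (cl H c l).card := by exact_mod_cast hnl
    linarith
  have hD : 0 < cs x H c l - cs x H c (c v1) := cs_pos hr hxb.xb0 (hdx l (c v1)) hdsz
  have hD' : 0 < cs y H c l - cs y H c (c v1) := cs_pos hr hyb.xb0 (hdy l (c v1)) hdsz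
  have nu1 : u1 ≠ v1 := fun h => hl1 (by rw [← hu1l, h])
  have nu2 : u1 ≠ v2 := fun h => hl2 (by rw [← hu1l, h])
  have ex1 : lam * x v1 = ∑ u ∈ H, x u - cs x H c (c v1) + x w - x v2 := by
    rw [cx v1 hv1H, D3.JD_sum, chi_pos hv1A, chi_pos rfl, chi_neg hv12]; ring
  have exu : lam * x u1 = ∑ u ∈ H, x u - cs x H c l + x w := by
    rw [cx u1 hu1H, D3.JD_sum, chi_pos hu1A, chi_neg nu1, chi_neg nu2, hu1l]; ring
  have ey1 : lam' * y v1 = ∑ u ∈ H, y u - cs y H c (c v1) + y w := by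
    rw [cy v1 hv1H, D3.JD_sum, chi_pos hv1A, chi_neg nu1.symm, chi_neg hv12]; ring
  have eyu : lam' * y u1 = ∑ u ∈ H, y u - cs y H c l + y w - y v2 := by
    rw [cy u1 hu1H, D3.JD_sum, chi_pos hu1A, chi_pos rfl, chi_neg nu2, hu1l]; ring
  -- the pairing
  have hpair := pairing hx hy
  rw [D3.pair_diff hF hF'] at hpair
  refine D3.final_ineq (lam := lam) (lam' := lam') (P := ∑ v, x v * y v)
    (T := x w * (∑ b ∈ A, y b - ∑ b ∈ A, y b) + y w * (∑ b ∈ A, x b - ∑ b ∈ A, x b)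
      + (x v1 * y v2 + x v2 * y v1) - (x u1 * y v2 + x v2 * y u1))
    (x2 := x v2) (y2 := y v2) (xw := x w) (yw := y w) (D := cs x H c l - cs x H c (c v1))
    (D' := cs y H c l - cs y H c (c v1)) (b := 0) (p1 := x v1 - x u1) (q1 := y v1 - y u1)
    (p2 := 0) (q2 := 0)
    hle hl'pos (Finset.sum_nonneg fun v _ => mul_nonneg (hx.nn v) (hy.nn v)) hpair ?_ ?_
    (hx.nn w) (hy.nn w) hD hD' le_rfl ?_ ?_ ?_ ?_ ?_
  · have h1 := (abs_le.mp (hxb.xH v2 hv2H)).1
    have h2 := hxb.xb0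
    linarith
  · have h1 := (abs_le.mp (hyb.xH v2 hv2H)).1
    have h2 := hyb.xb0
    linarith
  · rw [mul_sub, ex1, exu]; ring
  · rw [mul_sub, ey1, eyu]; ring
  · ring
  · ring
  · ring

end TOPG

/-- **TOPG** -/
theorem blk_TOPG (h1 : Stmt_GD) (h2 : Stmt_FLAT) : Stmt_TOPG := by
  intro r hr
  obtain ⟨K, -, hK⟩ := h2 r hr
  obtain ⟨δ1, N1, hδ1, -, hE⟩ := hK (1 / 12) (by norm_num)
  have hr3 : (3 : ℝ) ≤ r := by exact_mod_cast hr
  have hr0 : (0 : ℝ) < r := by linarith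
  have hb : (0 : ℝ) < 1 / (2 * r) := by positivity
  refine ⟨min (δ1 / 2) (1 / (2 * r)), max N1 (4 * r), lt_min (by linarith) hb, ?_⟩
  intro N hN V _ G c H w A v1 v2 hC hmx hW hAr
  have hNN1 : N1 ≤ N := (le_max_left _ _).trans hN
  have hNN3 : 4 * r ≤ N := (le_max_right _ _).trans hN
  have hNc : 4 * (r : ℝ) ≤ N := by exact_mod_cast hNN3
  have hNR : (0 : ℝ) < N := by linarith
  have hC1 : C0 r (δ1 / 2) N G c H := hC.mono (min_le_left _ _)
  have hE' : TOPG.FlatC r (2 * (δ1 / 2)) N := by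
    intro V' _ G' x lam c' H' hC' hx
    obtain ⟨xb, e1, e2, -⟩ := hE N hNN1 V' G' x lam c' H' (hC'.mono (by linarith)) hx
    exact ⟨xb, e1, e2⟩
  have hsize : ∀ i, 2 ≤ (cl H c i).card := by
    intro i
    have h1 := (abs_le.mp (hC.bal i)).1
    have h2 : min (δ1 / 2) (1 / (2 * (r : ℝ))) * N ≤ 1 / (2 * r) * N :=
      mul_le_mul_of_nonneg_right (min_le_right _ _) hNR.le
    have h3 : (N : ℝ) / r = 2 * (1 / (2 * r) * N) := by field_simp
    have h4 : 2 ≤ 1 / (2 * (r : ℝ)) * N := by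
      rw [one_div, inv_mul_eq_div, le_div_iff₀ (by positivity)]
      linarith
    have h5 : (2 : ℝ) ≤ sz H c i := by linarith
    unfold sz at h5
    exact_mod_cast h5
  have hN0 : 0 < N := by exact_mod_cast hNR
  intro i k hi hk
  by_contra hcon
  push Not at hcon
  simp only [Finset.mem_insert, Finset.mem_singleton, not_or] at hi hk
  rcases hi with rfl | rfl
  · exact TOPG.core hr h1 (by linarith) hE' hW hC1 hmx hAr k hk.1 hk.2 hcon hsize hN0
  · exact TOPG.core hr h1 (by linarith) hE' (D3.wd_symm hW) hC1 hmx hAr k hk.2 hk.1 hcon hsize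
      hN0

end Pool.Agent.Work.MP_5532fa_up
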