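import Pool.Agent.Work.MP_5532fa_up.Interface4

/-!
# MP_5532fa_co, upgrade, fourth round, block TSA: the auxiliary prime
-/

open NumberTheorySymbols

namespace Pool.Agent.Work.MP_5532fa_up

theorem blk_TSA : Stmt_TSA := by
  intro n _ hn8
  have hn0 : 0 < n := by omega
  have hnodd : n % 2 = 1 := by omega
  have hodd : Odd n := Nat.odd_iff.2 hnodd
  -- the residue
  have hco4 : Nat.Coprime 4 n := by
    have h2 : Nat.Coprime 2 n := (Nat.coprime_two_left).2 hodd
    have := Nat.Coprime.pow_left 2 h2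
    simpa using this
  obtain ⟨u, hu4, hun⟩ := Nat.chineseRemainder hco4 1 ((n - 1) / 2)
  haveI : NeZero (4 * n) := ⟨by omega⟩
  have hu2 : (2 * u) % n = (n - 1) % n := by
    have h1 : 2 * u ≡ 2 * ((n - 1) / 2) [MOD n] := Nat.ModEq.mul_left 2 hun
    have h2 : 2 * ((n - 1) / 2) = n - 1 := by omega
    rw [h2] at h1
    exact h1
  have hcou : Nat.Coprime u (4 * n) := by
    apply Nat.Coprime.mul_right
    · have : Nat.gcd u 4 = Nat.gcd 1 4 := Nat.ModEq.gcd_eq hu4
      unfold Nat.Coprime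
      rw [this]; decide
    · have h3 : Nat.Coprime (2 * u) n := by
        have : Nat.gcd (2 * u) n = Nat.gcd (n - 1) n := Nat.ModEq.gcd_eq hu2
        unfold Nat.Coprime
        rw [this]
        have h5 : Nat.Coprime n (n - 1) := by
          have := (Nat.coprime_self_sub_right (m := 1) (n := n) (by omega)).2
            (Nat.coprime_one_right n)
          exact this
        exact h5.symm
      exact Nat.Coprime.coprime_mul_left h3
  have hunit : IsUnit ((u : ℕ) : ZMod (4 * n)) := (ZMod.isUnit_iff_coprime u (4 * n)).2 hcou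
  obtain ⟨q, hqn, hqp, hqu⟩ := Nat.forall_exists_prime_gt_and_eq_mod hunit n
  have hqmod : q ≡ u [MOD 4 * n] := (ZMod.natCast_eq_natCast_iff q u (4 * n)).1 hqu
  have hq4 : q % 4 = 1 := by
    have h1 : q ≡ u [MOD 4] := Nat.ModEq.of_mul_right n hqmod
    have h2 : q ≡ 1 [MOD 4] := h1.trans hu4
    exact h2
  have hqn2 : q ≡ u [MOD n] := Nat.ModEq.of_mul_left 4 hqmod
  have hqcop : Nat.Coprime q n := by
    have : Nat.gcd q n = Nat.gcd u n := Nat.ModEq.gcd_eq hqn2
    unfold Nat.Coprime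
    rw [this]
    exact Nat.Coprime.coprime_mul_left_right hcou
  have hdvd : (n : ℤ) ∣ 2 * q + 1 := by
    have h1 : 2 * q ≡ n - 1 [MOD n] := (Nat.ModEq.mul_left 2 hqn2).trans hu2
    have h2 : 2 * q + 1 ≡ n - 1 + 1 [MOD n] := Nat.ModEq.add_right 1 h1
    have h3 : n - 1 + 1 = n := by omega
    rw [h3] at h2
    have h4 : n ∣ 2 * q + 1 := by
      have : 2 * q + 1 ≡ 0 [MOD n] := h2.trans (by simp [Nat.ModEq])
      exact (Nat.modEq_zero_iff_dvd).1 this
    exact_mod_cast h4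
  haveI : Fact q.Prime := ⟨hqp⟩
  -- the Jacobi symbol
  have hJ1 : J((q : ℤ) | n) = 1 := by
    have h1 : J((2 * q : ℤ) | n) = J((-1 : ℤ) | n) := by
      apply jacobiSym.mod_left'
      obtain ⟨k, hk⟩ := hdvd
      have : (2 * q : ℤ) = -1 + n * k := by linarith
      rw [this, Int.add_mul_emod_self_left]
    have h2 : J((2 * q : ℤ) | n) = J((2 : ℤ) | n) * J((q : ℤ) | n) := jacobiSym.mul_left 2 q n
    have h3 : J((2 : ℤ) | n) = -1 := by
      rw [jacobiSym.at_two hodd, ZMod.χ₈_nat_eq_if_mod_eight]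
      simp [hnodd, hn8]
    have h4 : J((-1 : ℤ) | n) = -1 := by
      rw [jacobiSym.at_neg_one hodd, ZMod.χ₄_nat_eq_if_mod_four]
      have : n % 4 = 3 := by omega
      simp [hnodd, this]
    rw [h2, h3, h4] at h1
    linarith
  have hqodd : Odd q := by
    rw [Nat.odd_iff]; omega
  have hJ2 : J((n : ℤ) | q) = 1 := by
    rw [← jacobiSym.quadratic_reciprocity_one_mod_four hq4 hodd]
    exact hJ1
  have hJ3 : J((-n : ℤ) | q) = 1 := by
    have h1 : J((-n : ℤ) | q) = J((-1 : ℤ) | q) * J((n : ℤ) | q) := by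
      rw [← jacobiSym.mul_left]; simp
    rw [h1, hJ2, jacobiSym.at_neg_one hqodd, ZMod.χ₄_nat_eq_if_mod_four]
    have : q % 2 = 1 := by omega
    simp [hq4, this]
  have hL : legendreSym q (-n : ℤ) = 1 := by
    rw [jacobiSym.legendreSym.to_jacobiSym]; exact hJ3
  have hne : ((-n : ℤ) : ZMod q) ≠ 0 := by
    intro h0
    rw [ZMod.intCast_zmod_eq_zero_iff_dvd] at h0
    have h1 : (q : ℤ) ∣ n := by
      have := (dvd_neg).1 h0
      exact this
    have h2 : q ∣ n := by exact_mod_cast h1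
    have := Nat.Coprime.eq_one_of_dvd hqcop h2
    exact hqp.one_lt.ne' this
  have hsq := (legendreSym.eq_one_iff q hne).1 hL
  obtain ⟨b0, hb0⟩ := hsq
  -- a representative
  have key : ∀ c : ℤ, (q : ℤ) ∣ c ^ 2 + n → c % 2 = 1 → ∃ h : ℤ, c ^ 2 - 4 * q * h = -n := by
    intro c hc hc2
    have h4 : (4 : ℤ) ∣ c ^ 2 + n := by
      obtain ⟨k, hk⟩ : ∃ k, c = 2 * k + 1 := ⟨c / 2, by omega⟩
      obtain ⟨l, hl⟩ : ∃ l : ℤ, (n : ℤ) = 8 * l + 3 := ⟨(n : ℤ) / 8, by omega⟩
      exact ⟨k ^ 2 + k + 2 * l + 1, by rw [hk, hl]; ring⟩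
    have hcop : IsCoprime (4 : ℤ) q := by
      have : Nat.Coprime 4 q := by
        have h2 : Nat.Coprime 2 q := (Nat.coprime_two_left).2 hqodd
        have := Nat.Coprime.pow_left 2 h2
        simpa using this
      exact_mod_cast Nat.isCoprime_iff_coprime.2 this
    obtain ⟨h, hh⟩ := hcop.mul_dvd h4 hc
    exact ⟨h, by linarith⟩
  have hb1 : (q : ℤ) ∣ ((b0.val : ℤ)) ^ 2 + n := by
    rw [← ZMod.intCast_zmod_eq_zero_iff_dvd]
    push_cast
    rw [ZMod.natCast_zmod_val]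
    push_cast at hb0
    rw [sq, ← hb0]; ring
  rcases Int.emod_two_eq_zero_or_one (b0.val : ℤ) with he | ho
  · have h1 : ((b0.val : ℤ) + q) % 2 = 1 := by
      have : (q : ℤ) % 2 = 1 := by
        have := Nat.odd_iff.1 hqodd
        omega
      omega
    have h2 : (q : ℤ) ∣ ((b0.val : ℤ) + q) ^ 2 + n := by
      have : ((b0.val : ℤ) + q) ^ 2 + n = ((b0.val : ℤ) ^ 2 + n) + q * (2 * b0.val + q) := by ring
      rw [this]
      exact dvd_add hb1 (dvd_mul_right _ _)
    obtain ⟨h, hh⟩ := key _ h2 h1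
    exact ⟨q, _, h, 1, hqp, hq4, hqcop, hh, by simpa using hdvd⟩
  · obtain ⟨h, hh⟩ := key _ hb1 ho
    exact ⟨q, _, h, 1, hqp, hq4, hqcop, hh, by simpa using hdvd⟩

end Pool.Agent.Work.MP_5532fa_up
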