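import Pool.Agent.Work.MP_5532fa_up.Interface4

/-! # Block TSB: geometry of numbers for a ternary form (Minkowski) -/

set_option autoImplicit false

namespace Pool.Agent.Work.MP_5532fa_up

open MeasureTheory Module

namespace TSBw

/-- the linear map of the ternary form -/
noncomputable def mat (n q : ℕ) (b t : ℤ) : Matrix (Fin 3) (Fin 3) ℝ :=
  !![2 * (t : ℝ) * q, (t : ℝ) * b, (n : ℝ);
     √(2 * (q : ℝ)), (b : ℝ) / √(2 * (q : ℝ)), 0;
     0, √(n : ℝ) / √(2 * (q : ℝ)), 0]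

theorem mat_det (n q : ℕ) (b t : ℤ) (hq : 0 < q) :
    (mat n q b t).det = n * √(n : ℝ) := by
  have h0 : √(2 * (q : ℝ)) ≠ 0 := by positivity
  rw [Matrix.det_fin_three]
  simp [mat]
  field_simp

/-- the open ball in coordinates -/
def ball3 (c : ℝ) : Set (Fin 3 → ℝ) := {v | v 0 ^ 2 + v 1 ^ 2 + v 2 ^ 2 < c ^ 2}

theorem ball3_eq (c : ℝ) (hc : 0 < c) :
    (@WithLp.toLp 2 (Fin 3 → ℝ)) ⁻¹' (Metric.ball (0 : EuclideanSpace ℝ (Fin 3)) c) = ball3 c := by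
  ext v
  rw [Set.mem_preimage, mem_ball_zero_iff, EuclideanSpace.norm_eq, ball3, Set.mem_ofPred_eq,
    Real.sqrt_lt' hc, Fin.sum_univ_three]
  simp

theorem vol_ball3 (c : ℝ) (hc : 0 < c) :
    volume (ball3 c) = ENNReal.ofReal c ^ 3 * ENNReal.ofReal (Real.pi * 4 / 3) := by
  rw [← EuclideanSpace.volume_ball_fin_three (0 : EuclideanSpace ℝ (Fin 3)) c, ← ball3_eq c hc]
  exact (PiLp.volume_preserving_toLp (Fin 3)).measure_preimage
    (measurableSet_ball.nullMeasurableSet)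

theorem ball3_symm (c : ℝ) : ∀ v ∈ ball3 c, -v ∈ ball3 c := by
  intro v hv
  simp only [ball3, Set.mem_ofPred_eq, Pi.neg_apply, neg_sq] at hv ⊢
  exact hv

theorem ball3_conv (c : ℝ) (hc : 0 < c) : Convex ℝ (ball3 c) := by
  rw [← ball3_eq c hc]
  exact (convex_ball (0 : EuclideanSpace ℝ (Fin 3)) c).linear_preimage
    (WithLp.linearEquiv 2 ℝ (Fin 3 → ℝ)).symm.toLinearMap

/-- eight times the covolume is less than the volume of the ellipsoid -/
theorem vol_ineq (n : ℕ) (hn : 0 < n) :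
    (8 : ENNReal) < ENNReal.ofReal |((n : ℝ) * √(n : ℝ))⁻¹| *
      (ENNReal.ofReal (√(2 * (n : ℝ))) ^ 3 * ENNReal.ofReal (Real.pi * 4 / 3)) := by
  have hn0 : (0 : ℝ) < n := by exact_mod_cast hn
  have hsn : 0 < √(n : ℝ) := Real.sqrt_pos.mpr hn0
  have hsn2 : √(n : ℝ) ^ 2 = n := Real.sq_sqrt hn0.le
  have h2 : √(2 * (n : ℝ)) = √2 * √(n : ℝ) := Real.sqrt_mul (by norm_num) _
  have hs2 : √(2 : ℝ) ^ 2 = 2 := Real.sq_sqrt (by norm_num)
  have h14 : (1.41 : ℝ) ≤ √2 := by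
    rw [show (1.41 : ℝ) = √(1.41 ^ 2) by rw [Real.sqrt_sq (by norm_num)]]
    exact Real.sqrt_le_sqrt (by norm_num)
  rw [← ENNReal.ofReal_pow (Real.sqrt_nonneg _), ← ENNReal.ofReal_mul (by positivity),
    ← ENNReal.ofReal_mul (abs_nonneg _), abs_of_pos (by positivity), h2]
  have h3 : ((n : ℝ) * √(n : ℝ))⁻¹ * ((√2 * √(n : ℝ)) ^ 3 * (Real.pi * 4 / 3)) =
      2 * √2 * (Real.pi * 4 / 3) := by
    have h4 : (√2 * √(n : ℝ)) ^ 3 = 2 * √2 * (n * √(n : ℝ)) := by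
      calc (√2 * √(n : ℝ)) ^ 3 = (√2 ^ 2 * √2) * (√(n : ℝ) ^ 2 * √(n : ℝ)) := by ring
        _ = 2 * √2 * (n * √(n : ℝ)) := by rw [hs2, hsn2]
    rw [h4]
    have h5 : (n : ℝ) * √(n : ℝ) ≠ 0 := by positivity
    field_simp
  rw [h3]
  have h6 : (8 : ENNReal) = ENNReal.ofReal 8 := by norm_num
  rw [h6]
  refine (ENNReal.ofReal_lt_ofReal_iff (by positivity)).mpr ?_
  have hpi := Real.pi_gt_three
  nlinarith

end TSBw

theorem blk_TSB : Stmt_TSB := by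
  intro n q b h t hn hq hb
  have hn0 : (0 : ℝ) < n := by exact_mod_cast hn
  have hq0 : (0 : ℝ) < q := by exact_mod_cast hq
  have hc : 0 < √(2 * (n : ℝ)) := by positivity
  have hdet : LinearMap.det (Matrix.toLin' (TSBw.mat n q b t)) = n * √(n : ℝ) := by
    rw [LinearMap.det_toLin', TSBw.mat_det n q b t hq]
  have hdet0 : LinearMap.det (Matrix.toLin' (TSBw.mat n q b t)) ≠ 0 := by
    rw [hdet]
    positivity
  set f := Matrix.toLin' (TSBw.mat n q b t) with hf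
  have fund := ZSpan.isAddFundamentalDomain' (Pi.basisFun ℝ (Fin 3))
    (volume : Measure (Fin 3 → ℝ))
  have hvol : volume (ZSpan.fundamentalDomain (Pi.basisFun ℝ (Fin 3))) *
      2 ^ finrank ℝ (Fin 3 → ℝ) < volume (f ⁻¹' (TSBw.ball3 (√(2 * (n : ℝ))))) := by
    rw [Measure.addHaar_preimage_linearMap volume hdet0, TSBw.vol_ball3 _ hc, hdet,
      ZSpan.fundamentalDomain_pi_basisFun, volume_pi, Measure.pi_pi]
    have h1 := TSBw.vol_ineq n hn
    simp only [Real.volume_Ico, sub_zero, ENNReal.ofReal_one, Finset.prod_const_one, one_mul,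
      finrank_fin_fun]
    norm_num at h1 ⊢
    exact h1
  have hcount : Countable
      (Submodule.span ℤ (Set.range (Pi.basisFun ℝ (Fin 3)))).toAddSubgroup := by
    change Countable (Submodule.span ℤ (Set.range (Pi.basisFun ℝ (Fin 3))))
    infer_instance
  obtain ⟨x, hx0, hxs⟩ := exists_ne_zero_mem_lattice_of_measure_mul_two_pow_lt_measure fund
    (fun v hv => by
      rw [Set.mem_preimage] at hv ⊢
      rw [map_neg]
      exact TSBw.ball3_symm _ _ hv)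
    ((TSBw.ball3_conv _ hc).linear_preimage f) hvol
  have hint : ∀ i, ∃ m : ℤ, (m : ℝ) = (x : Fin 3 → ℝ) i := by
    intro i
    have h1 : (x : Fin 3 → ℝ) ∈ Submodule.span ℤ (Set.range (Pi.basisFun ℝ (Fin 3))) := x.2
    rw [(Pi.basisFun ℝ (Fin 3)).mem_span_iff_repr_mem ℤ] at h1
    obtain ⟨m, hm⟩ := h1 i
    exact ⟨m, by simpa using hm⟩
  obtain ⟨x0, h0⟩ := hint 0
  obtain ⟨y0, h1⟩ := hint 1
  obtain ⟨z0, h2⟩ := hint 2
  refine ⟨x0, y0, z0, ?_, ?_⟩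
  · rintro ⟨rfl, rfl, rfl⟩
    apply hx0
    apply Subtype.ext
    funext i
    fin_cases i
    · simpa using h0.symm
    · simpa using h1.symm
    · simpa using h2.symm
  · have h3 : ∀ i, f (x : Fin 3 → ℝ) i = ∑ j, TSBw.mat n q b t i j * (x : Fin 3 → ℝ) j := by
      intro i
      rw [hf, Matrix.toLin'_apply]
      rfl
    have h4 : f (x : Fin 3 → ℝ) 0 ^ 2 + f (x : Fin 3 → ℝ) 1 ^ 2 + f (x : Fin 3 → ℝ) 2 ^ 2 <
        √(2 * (n : ℝ)) ^ 2 := hxs
    rw [Real.sq_sqrt (by positivity), h3, h3, h3] at h4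
    simp only [Fin.sum_univ_three, TSBw.mat, Matrix.of_apply, Matrix.cons_val', Matrix.cons_val,
      ← h0, ← h1, ← h2] at h4
    have hs : √(2 * (q : ℝ)) ^ 2 = 2 * q := Real.sq_sqrt (by positivity)
    have hs0 : √(2 * (q : ℝ)) ≠ 0 := by positivity
    have hm : √(n : ℝ) ^ 2 = n := Real.sq_sqrt hn0.le
    have hb' : (b : ℝ) ^ 2 - 4 * q * h = -n := by exact_mod_cast hb
    have h5 : (√(2 * (q : ℝ)) * (x0 : ℝ) + b / √(2 * (q : ℝ)) * y0 + 0 * z0) ^ 2 +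
        (0 * x0 + √(n : ℝ) / √(2 * (q : ℝ)) * y0 + 0 * z0) ^ 2 =
        2 * (q * x0 ^ 2 + b * x0 * y0 + h * y0 ^ 2) := by
      have e1 : (√(2 * (q : ℝ)) * (x0 : ℝ) + b / √(2 * (q : ℝ)) * y0 + 0 * z0) ^ 2 =
          √(2 * (q : ℝ)) ^ 2 * x0 ^ 2 + 2 * b * x0 * y0 + b ^ 2 / √(2 * (q : ℝ)) ^ 2 * y0 ^ 2 := by
        field_simp
        ring
      have e2 : (0 * (x0 : ℝ) + √(n : ℝ) / √(2 * (q : ℝ)) * y0 + 0 * z0) ^ 2 =
          √(n : ℝ) ^ 2 / √(2 * (q : ℝ)) ^ 2 * y0 ^ 2 := by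
        field_simp
        ring
      rw [e1, e2, hs, hm]
      have e3 : (n : ℝ) = 4 * q * h - b ^ 2 := by linarith
      rw [e3]
      field_simp
      ring
    have h6 : ((2 * t * q * x0 + t * b * y0 + n * z0 : ℤ) : ℝ) ^ 2 +
        2 * (q * x0 ^ 2 + b * x0 * y0 + h * y0 ^ 2) < 2 * n := by
      push_cast
      linarith [h4, h5]
    exact_mod_cast h6

end Pool.Agent.Work.MP_5532fa_up
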