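import Pool.Agent.Work.MP_5532fa_up.Interface4

/-!
# MP_5532fa_co: third part of the three squares theorem (Ankeny)
-/

namespace Pool.Agent.Work.MP_5532fa_up

namespace TSC

/-- values of `A^2 + n y^2` have even valuation at `p` if `-n` is not a square modulo `p` -/
lemma even_val (n p : ℕ) [hp : Fact p.Prime] (hns : ¬ IsSquare (-(n : ZMod p))) :
    ∀ (N : ℕ) (A y : ℤ), A.natAbs + y.natAbs ≤ N → ¬ (A = 0 ∧ y = 0) →
      A ^ 2 + n * y ^ 2 ≠ 0 → Even (padicValInt p (A ^ 2 + n * y ^ 2)) := by
  intro N
  induction N with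
  | zero =>
      intro A y h h0
      exact absurd ⟨by omega, by omega⟩ h0
  | succ N ih =>
      intro A y h h0 hne
      by_cases hd : (p : ℤ) ∣ A ^ 2 + n * y ^ 2
      · have hz : ((A : ZMod p)) ^ 2 + (n : ZMod p) * (y : ZMod p) ^ 2 = 0 := by
          have := (ZMod.intCast_zmod_eq_zero_iff_dvd (A ^ 2 + n * y ^ 2) p).2 hd
          push_cast at this
          exact this
        have hy : (y : ZMod p) = 0 := by
          by_contra hy
          apply hns
          refine ⟨(A : ZMod p) / y, ?_⟩
          field_simp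
          linear_combination -hz
        have hA : (A : ZMod p) = 0 := by
          rw [hy] at hz
          have : (A : ZMod p) ^ 2 = 0 := by linear_combination hz
          exact pow_eq_zero_iff (two_ne_zero) |>.1 this
        obtain ⟨A', hA'⟩ := (ZMod.intCast_zmod_eq_zero_iff_dvd A p).1 hA
        obtain ⟨y', hy'⟩ := (ZMod.intCast_zmod_eq_zero_iff_dvd y p).1 hy
        have hp2 : 2 ≤ p := hp.out.two_le
        have e : A ^ 2 + n * y ^ 2 = (p : ℤ) ^ 2 * (A' ^ 2 + n * y' ^ 2) := by
          rw [hA', hy']; ring
        have hne' : A' ^ 2 + n * y' ^ 2 ≠ 0 := by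
          intro h1
          rw [h1, mul_zero] at e
          exact hne e
        have h0' : ¬ (A' = 0 ∧ y' = 0) := by
          rintro ⟨h1, h2⟩
          apply h0
          rw [hA', hy', h1, h2]
          simp
        have hlt : A'.natAbs + y'.natAbs ≤ N := by
          have h1 : A.natAbs = p * A'.natAbs := by rw [hA', Int.natAbs_mul]; simp
          have h2 : y.natAbs = p * y'.natAbs := by rw [hy', Int.natAbs_mul]; simp
          have h3 : 0 < A'.natAbs + y'.natAbs := by
            by_contra h4
            exact h0' ⟨by omega, by omega⟩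
          have h4 : p * (A'.natAbs + y'.natAbs) ≤ N + 1 := by
            rw [mul_add, ← h1, ← h2]; exact h
          have h5 : 2 * (A'.natAbs + y'.natAbs) ≤ p * (A'.natAbs + y'.natAbs) :=
            Nat.mul_le_mul_right _ hp2
          omega
        have hev := ih A' y' hlt h0' hne'
        rw [e, padicValInt.mul (by have := hp.out.pos; positivity) hne']
        have h6 : padicValInt p ((p : ℤ) ^ 2) = 2 := by
          rw [show ((p : ℤ) ^ 2) = ((p ^ 2 : ℕ) : ℤ) by push_cast; ring]
          rw [padicValInt.of_nat, padicValNat.prime_pow]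
        rw [h6]
        exact even_two.add hev
      · rw [padicValInt.eq_zero_of_not_dvd hd]
        exact Even.zero

end TSC

theorem blk_TSC : Stmt_TSC := by
  intro n q b h t x y R v hsq hn8 hq hq4 hqn hb hnt hv hnR
  rcases Nat.eq_zero_or_pos v with hv0 | hv0
  · exact ⟨0, 0, by simp [hv0]⟩
  have key : (4 * q * v : ℤ) = (2 * q * x + b * y) ^ 2 + n * y ^ 2 := by
    rw [hv]
    linear_combination (-(y ^ 2)) * hb
  have hsum : ∃ a c : ℕ, 2 * v = a ^ 2 + c ^ 2 := by
    rw [Nat.eq_sq_add_sq_iff]
    intro p hp hp4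
    have hpp : p.Prime := Nat.prime_of_mem_primeFactors hp
    have hpd : p ∣ 2 * v := Nat.dvd_of_mem_primeFactors hp
    have : Fact p.Prime := ⟨hpp⟩
    have hp2 : p ≠ 2 := by rintro rfl; omega
    have hpq : p ≠ q := by rintro rfl; omega
    have hpv : p ∣ v := by
      rcases (Nat.Prime.dvd_mul hpp).1 hpd with h1 | h1
      · exact absurd ((Nat.prime_dvd_prime_iff_eq hpp Nat.prime_two).1 h1) hp2
      · exact h1
    have hneg1 : ¬ IsSquare (-1 : ZMod p) := by
      rw [ZMod.exists_sq_eq_neg_one_iff]
      simp [hp4]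
    have hvz : ((v : ℕ) : ZMod p) = 0 := (ZMod.natCast_eq_zero_iff v p).2 hpv
    have hRz : ((n : ℕ) : ZMod p) = (R : ZMod p) ^ 2 := by
      have := congrArg (Int.cast : ℤ → ZMod p) hnR
      push_cast at this
      rw [this, hvz]; ring
    have h2v : padicValNat p (2 * v) = padicValNat p v := by
      rw [padicValNat.mul two_ne_zero hv0.ne']
      rw [padicValNat.eq_zero_of_not_dvd (fun h1 => hp2
        ((Nat.prime_dvd_prime_iff_eq hpp Nat.prime_two).1 h1)), zero_add]
    rw [h2v]
    by_cases hpn : p ∣ n
    · exfalso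
      obtain ⟨n', hn'⟩ := hpn
      obtain ⟨v', hv'⟩ := hpv
      have hn'p : ¬ p ∣ n' := by
        rintro ⟨m, hm⟩
        have : p * p ∣ n := ⟨m, by rw [hn', hm]; ring⟩
        have := hsq p this
        exact hpp.one_lt.ne' (Nat.isUnit_iff.1 this)
      have hnz : ((n : ℕ) : ZMod p) = 0 := (ZMod.natCast_eq_zero_iff n p).2 ⟨n', hn'⟩
      have hR0 : (R : ZMod p) = 0 := by
        rw [hnz] at hRz
        exact pow_eq_zero_iff (two_ne_zero) |>.1 hRz.symm
      obtain ⟨R', hR'⟩ := (ZMod.intCast_zmod_eq_zero_iff_dvd R p).1 hR0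
      have hp0 : (p : ℤ) ≠ 0 := by exact_mod_cast hpp.ne_zero
      have e1 : (n' : ℤ) = p * R' ^ 2 + 2 * v' := by
        have h1 : (p : ℤ) * n' = p * (p * R' ^ 2 + 2 * v') := by
          have : ((n : ℕ) : ℤ) = p * n' := by rw [hn']; push_cast; ring
          have h2 : ((v : ℕ) : ℤ) = p * v' := by rw [hv']; push_cast; ring
          rw [← this, hnR, h2, hR']; ring
        exact mul_left_cancel₀ hp0 h1
      have e1z : ((n' : ℕ) : ZMod p) = 2 * v' := by
        have := congrArg (Int.cast : ℤ → ZMod p) e1
        push_cast at this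
        simpa using this
      have hv'z : ((v' : ℕ) : ZMod p) ≠ 0 := by
        intro h1
        rw [h1, mul_zero] at e1z
        exact hn'p ((ZMod.natCast_eq_zero_iff n' p).1 e1z)
      have hAz : ((2 * q * x + b * y : ℤ) : ZMod p) = 0 := by
        have := congrArg (Int.cast : ℤ → ZMod p) key
        push_cast at this
        rw [hvz, hnz] at this
        have h1 : (2 * (q : ZMod p) * x + b * y) ^ 2 = 0 := by linear_combination -this
        have h2 := pow_eq_zero_iff (two_ne_zero) |>.1 h1
        push_cast
        exact h2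
      obtain ⟨A', hA'⟩ := (ZMod.intCast_zmod_eq_zero_iff_dvd _ p).1 hAz
      have e2 : (4 * q * v' : ℤ) = p * A' ^ 2 + n' * y ^ 2 := by
        have h1 : (p : ℤ) * (4 * q * v') = p * (p * A' ^ 2 + n' * y ^ 2) := by
          have : ((n : ℕ) : ℤ) = p * n' := by rw [hn']; push_cast; ring
          have h2 : ((v : ℕ) : ℤ) = p * v' := by rw [hv']; push_cast; ring
          rw [h2, this, hA'] at key
          linear_combination key
        exact mul_left_cancel₀ hp0 h1
      have e2z : (4 * q * v' : ZMod p) = 2 * v' * y ^ 2 := by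
        have := congrArg (Int.cast : ℤ → ZMod p) e2
        push_cast at this
        rw [this, e1z]
        simp
      have h2z : (2 : ZMod p) ≠ 0 := by
        intro h1
        have : ((2 : ℕ) : ZMod p) = 0 := by exact_mod_cast h1
        have := (ZMod.natCast_eq_zero_iff 2 p).1 this
        exact hp2 ((Nat.prime_dvd_prime_iff_eq hpp Nat.prime_two).1 this)
      have e3 : (2 * q : ZMod p) = y ^ 2 := by
        have h1 : (2 * (v' : ZMod p)) * (2 * q) = (2 * v') * y ^ 2 := by
          linear_combination e2z
        exact mul_left_cancel₀ (mul_ne_zero h2z hv'z) h1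
      have e4 : (2 * q * (t : ZMod p) ^ 2 + 1) = 0 := by
        have h1 : (p : ℤ) ∣ 2 * q * t ^ 2 + 1 :=
          dvd_trans (by rw [hn']; push_cast; exact Dvd.intro _ rfl) hnt
        have := (ZMod.intCast_zmod_eq_zero_iff_dvd _ p).2 h1
        push_cast at this
        exact this
      apply hneg1
      refine ⟨(y : ZMod p) * t, ?_⟩
      rw [e3] at e4
      linear_combination -e4
    · have hnz : ((n : ℕ) : ZMod p) ≠ 0 := fun h1 => hpn ((ZMod.natCast_eq_zero_iff n p).1 h1)
      have hRne : (R : ZMod p) ≠ 0 := by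
        intro h1
        rw [h1] at hRz
        exact hnz (by rw [hRz]; ring)
      have hns : ¬ IsSquare (-(n : ZMod p)) := by
        rintro ⟨s, hs⟩
        apply hneg1
        refine ⟨s / R, ?_⟩
        rw [hRz] at hs
        field_simp
        linear_combination hs
      have hne : (2 * q * x + b * y) ^ 2 + (n : ℤ) * y ^ 2 ≠ 0 := by
        rw [← key]
        have := hq.pos
        positivity
      have h0 : ¬ ((2 * q * x + b * y : ℤ) = 0 ∧ y = 0) := by
        rintro ⟨h1, h2⟩
        apply hne
        rw [h1, h2]; simp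
      have hev := TSC.even_val n p hns _ _ _ le_rfl h0 hne
      rw [← key] at hev
      have e : (4 * q * v : ℤ) = ((4 * q * v : ℕ) : ℤ) := by push_cast; ring
      rw [e, padicValInt.of_nat] at hev
      have hval : padicValNat p (4 * q * v) = padicValNat p v := by
        rw [padicValNat.mul (by have := hq.pos; positivity) hv0.ne']
        rw [padicValNat.eq_zero_of_not_dvd, zero_add]
        intro h1
        rcases (Nat.Prime.dvd_mul hpp).1 h1 with h2 | h2
        · have : p ∣ 2 := by
            have h3 : p ∣ 2 ^ 2 := by simpa using h2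
            exact hpp.dvd_of_dvd_pow h3
          exact hp2 ((Nat.prime_dvd_prime_iff_eq hpp Nat.prime_two).1 this)
        · exact hpq ((Nat.prime_dvd_prime_iff_eq hpp hq).1 h2)
      rw [hval] at hev
      exact hev
  exact hsum

end Pool.Agent.Work.MP_5532fa_up
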