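import Pool.Agent.Work.MP_5532fa_up.Interface4

/-!
# MP_5532fa_co: numbers `3 mod 8` are sums of three squares (Ankeny's proof)
-/

namespace Pool.Agent.Work.MP_5532fa_up

namespace TSQ

lemma sqf (hA : Stmt_TSA) (hB : Stmt_TSB) (hC : Stmt_TSC) (n : ℕ) (hsq : Squarefree n)
    (hn8 : n % 8 = 3) : ∃ a b c : ℕ, n = a ^ 2 + b ^ 2 + c ^ 2 := by
  obtain ⟨q, b, h, t, hq, hq4, hqn, hb, hnt⟩ := hA n hsq hn8
  have hn : 0 < n := by omega
  obtain ⟨x, y, z, h0, hlt⟩ := hB n q b h t hn hq.pos hb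
  set R : ℤ := 2 * t * q * x + t * b * y + n * z with hR
  set v : ℤ := q * x ^ 2 + b * x * y + h * y ^ 2 with hv
  have hq0 : (0 : ℤ) < q := by exact_mod_cast hq.pos
  have hn0 : (0 : ℤ) < n := by exact_mod_cast hn
  have key : (4 * q * v : ℤ) = (2 * q * x + b * y) ^ 2 + n * y ^ 2 := by
    rw [hv]
    linear_combination (-(y ^ 2)) * hb
  have hv0 : 0 ≤ v := by
    have h1 : 0 ≤ (4 * q) * v := by
      rw [key]; positivity
    exact nonneg_of_mul_nonneg_right h1 (by positivity)
  have hdvd : (n : ℤ) ∣ R ^ 2 + 2 * v := by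
    have h1 : (n : ℤ) ∣ (2 * q) * (R ^ 2 + 2 * v) := by
      obtain ⟨m, hm⟩ := hnt
      refine ⟨m * (2 * q * x + b * y) ^ 2
        + 2 * q * z * (2 * t * (2 * q * x + b * y) + n * z) + y ^ 2, ?_⟩
      have h2 : (2 * (q : ℤ)) * (R ^ 2 + 2 * v) = 2 * q * R ^ 2 + 4 * q * v := by ring
      rw [h2, key, hR]
      linear_combination ((2 * q * x + b * y) ^ 2) * hm
    have hcop : IsCoprime (n : ℤ) (2 * q) := by
      have : Nat.Coprime n (2 * q) := by
        apply Nat.Coprime.mul_right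
        · rw [Nat.coprime_comm, Nat.coprime_two_left]
          exact Nat.odd_iff.2 (by omega)
        · exact hqn.symm
      have := Nat.isCoprime_iff_coprime.2 this
      exact_mod_cast this
    exact hcop.dvd_of_dvd_mul_left h1
  have hpos : 0 < R ^ 2 + 2 * v := by
    rcases (by positivity : 0 ≤ R ^ 2 + 2 * v).lt_or_eq with h1 | h1
    · exact h1
    · exfalso
      have hR2 : 0 ≤ R ^ 2 := sq_nonneg R
      have hv1 : v = 0 := by linarith
      have hR1 : R = 0 := by
        have : R ^ 2 = 0 := by linarith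
        exact pow_eq_zero_iff two_ne_zero |>.1 this
      rw [hv1, mul_zero] at key
      have hy : y = 0 := by
        by_contra hy
        have : 0 < (n : ℤ) * y ^ 2 := by positivity
        have h2 : 0 ≤ (2 * q * x + b * y) ^ 2 := sq_nonneg _
        linarith
      have hx : x = 0 := by
        rw [hy] at key
        have : (2 * (q : ℤ) * x) ^ 2 = 0 := by linear_combination -key
        have := pow_eq_zero_iff two_ne_zero |>.1 this
        rcases mul_eq_zero.1 this with h3 | h3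
        · exfalso; linarith
        · exact h3
      have hz : z = 0 := by
        rw [hR, hx, hy] at hR1
        have : (n : ℤ) * z = 0 := by linear_combination hR1
        rcases mul_eq_zero.1 this with h3 | h3
        · exfalso; linarith
        · exact h3
      exact h0 ⟨hx, hy, hz⟩
  have hlt' : R ^ 2 + 2 * v < 2 * n := hlt
  have heq : (n : ℤ) = R ^ 2 + 2 * v := by
    obtain ⟨m, hm⟩ := hdvd
    have h1 : 0 < m := by
      rw [hm] at hpos
      exact (mul_pos_iff_of_pos_left hn0).1 hpos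
    have h2 : m < 2 := by
      rw [hm] at hlt'
      have : (n : ℤ) * m < n * 2 := by linarith
      exact lt_of_mul_lt_mul_left this hn0.le
    have : m = 1 := by omega
    rw [hm, this, mul_one]
  have hvn : ((v.toNat : ℕ) : ℤ) = v := Int.toNat_of_nonneg hv0
  obtain ⟨a, c, hac⟩ := hC n q b h t x y R v.toNat hsq hn8 hq hq4 hqn hb hnt
    (by rw [hvn]) (by rw [hvn]; exact heq)
  refine ⟨R.natAbs, a, c, ?_⟩
  have h1 : (n : ℤ) = (R.natAbs : ℤ) ^ 2 + ((2 * v.toNat : ℕ) : ℤ) := by
    push_cast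
    rw [sq_abs, hvn]
    exact heq
  have h2 : n = R.natAbs ^ 2 + 2 * v.toNat := by exact_mod_cast h1
  rw [h2, hac]; ring

end TSQ

theorem blk_TSQ (hA : Stmt_TSA) (hB : Stmt_TSB) (hC : Stmt_TSC) : Stmt_TSQ := by
  intro n hn8
  obtain ⟨m, k, hmk, hsq⟩ := Nat.sq_mul_squarefree n
  have hk : k % 2 = 1 := by
    rcases Nat.mod_two_eq_zero_or_one k with h | h
    · exfalso
      obtain ⟨j, hj⟩ := Nat.dvd_of_mod_eq_zero h
      have : n = 4 * (j ^ 2 * m) := by rw [← hmk, hj]; ring
      omega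
    · exact h
  have hk8 : k ^ 2 % 8 = 1 := by
    have : k % 8 = 1 ∨ k % 8 = 3 ∨ k % 8 = 5 ∨ k % 8 = 7 := by omega
    rcases this with h | h | h | h <;> simp [Nat.pow_mod, h]
  have hm8 : m % 8 = 3 := by
    have h1 : k ^ 2 * m % 8 = 3 := by rw [hmk]; exact hn8
    rw [Nat.mul_mod, hk8, one_mul, Nat.mod_mod] at h1
    exact h1
  obtain ⟨a, b, c, h⟩ := TSQ.sqf hA hB hC m hsq hm8
  exact ⟨k * a, k * b, k * c, by rw [← hmk, h]; ring⟩

end Pool.Agent.Work.MP_5532fa_up
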