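import Pool.Agent.Work.MP_5532fa_up.Interface5

/-!
# MP_5532fa_co, upgrade: block W2 (small `j`: type D with balanced classes)
-/

open Finset

namespace Pool.Agent.Work.MP_5532fa_up

open MP5532fa (specRad qf pE)

namespace W2

section
variable {V : Type} [Fintype V] {r : ℕ}

/-- second moment and sum of squares -/
theorem mo2_eq {n : ℕ} (hr : 3 ≤ r) {y : Fin r → ℝ} (hy : ∑ i, y i = n) :
    mo 2 n y = ∑ i, y i ^ 2 - (n : ℝ) ^ 2 / r := by
  have hr3 : (3 : ℝ) ≤ r := by exact_mod_cast hr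
  have hrp : (0 : ℝ) < r := by linarith
  unfold mo
  have h1 : ∀ i, (y i - n / r) ^ 2 = y i ^ 2 - 2 * (n / r) * y i + (n / r) ^ 2 := fun i => by ring
  rw [Finset.sum_congr rfl fun i _ => h1 i, Finset.sum_add_distrib, Finset.sum_sub_distrib,
    ← Finset.mul_sum, hy, Finset.sum_const, Finset.card_univ, Fintype.card_fin, nsmul_eq_mul]
  field_simp
  ring

theorem mis_WD {N : ℕ} {G : SimpleGraph V} {H A : Finset V} {c : V → Fin r} {w v1 v2 : V}
    (h : WD G N H c w A v1 v2) : mis G H c ≤ 2 := by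
  classical
  unfold mis
  refine (Finset.card_le_card (t := {(v1, v2), (v2, v1)}) ?_).trans Finset.card_le_two
  intro e he
  rw [Finset.mem_filter, Finset.mem_product] at he
  obtain ⟨⟨h1, h2⟩, h3, h4⟩ := he
  rw [Finset.mem_insert, Finset.mem_singleton]
  by_contra hno
  push Not at hno
  exact h4 ((h.adj _ _).2 (Or.inl ⟨h1, h2, h3, fun q => hno.1 (Prod.ext q.1 q.2),
    fun q => hno.2 (Prod.ext q.1 q.2)⟩))

theorem eo_WD {N : ℕ} {G : SimpleGraph V} {H A : Finset V} {c : V → Fin r} {w v1 v2 : V}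
    (h : WD G N H c w A v1 v2) : eo G H ≤ A.card := by
  classical
  unfold eo
  refine (Finset.card_le_card (t := A.image (fun b => (w, b))) ?_).trans Finset.card_image_le
  intro e he
  rw [Finset.mem_filter] at he
  obtain ⟨_, h1, h2⟩ := he
  rcases (h.adj _ _).1 h1 with h3 | h3 | h3
  · exact absurd h3.1 h2
  · exact Finset.mem_image.2 ⟨e.2, h3.2, Prod.ext h3.1.symm rfl⟩
  · exact absurd (h.hA h3.2) h2

theorem C0_WD {n : ℕ} {δ : ℝ} {G : SimpleGraph V} {H A : Finset V} {c : V → Fin r} {w v1 v2 : V}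
    (h : WD G n H c w A v1 v2) (h2 : 2 ≤ δ * n) (hA : (A.card : ℝ) ≤ δ * n)
    (hb : ∀ i, |sz H c i - n / r| ≤ δ * n) : C0 r δ n G c H where
  card := h.card
  ind := by
    intro u hu v hv hc hadj
    rcases (h.adj _ _).1 hadj with h3 | h3 | h3
    · exact h3.2.2.1 hc
    · exact h.hw (h3.1 ▸ hu)
    · exact h.hw (h3.1 ▸ hv)
  mis := by
    have h1 : (mis G H c : ℝ) ≤ 2 := by exact_mod_cast mis_WD h
    linarith
  bal := hb
  eo := by
    have h1 : (eo G H : ℝ) ≤ A.card := by exact_mod_cast eo_WD h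
    linarith

end

/-- balanced vectors -/
theorem exists_bal {r : ℕ} (hr : 3 ≤ r) (N : ℕ) :
    ∃ y : Fin r → ℕ, ∑ i, y i = N ∧ ∀ i k, y i ≤ y k + 1 := by
  refine ⟨fun i => (N + i.val) / r, ?_, ?_⟩
  · have : ∀ n : ℕ, ∑ i : Fin r, (n + i.val) / r = n := by
      intro n
      induction n with
      | zero =>
        refine Finset.sum_eq_zero fun i _ => ?_
        rw [Nat.zero_add]
        exact Nat.div_eq_of_lt i.2
      | succ n ih =>
        rw [Fin.sum_univ_eq_sum_range (fun i => (n + 1 + i) / r) r]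
        rw [Fin.sum_univ_eq_sum_range (fun i => (n + i) / r) r] at ih
        obtain ⟨q, hq⟩ : ∃ q, r = q + 1 := ⟨r - 1, by omega⟩
        rw [hq] at ih ⊢
        rw [Finset.sum_range_succ]
        rw [Finset.sum_range_succ'] at ih
        have e1 : ∀ i, (n + 1 + i) / (q + 1) = (n + (i + 1)) / (q + 1) := by
          intro i; congr 1; omega
        simp only [e1]
        have e2 : (n + (q + 1)) / (q + 1) = n / (q + 1) + 1 := by
          rw [Nat.add_div_right _ (by omega)]
        rw [e2]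
        simp only [Nat.add_zero] at ih ⊢
        omega
    exact this N
  · intro i k
    have h6 : (N + i.val) / r ≤ (N + k.val + r) / r := by
      apply Nat.div_le_div_right
      have := i.2
      omega
    rw [Nat.add_div_right _ (by omega)] at h6
    exact h6

theorem bal_near {r N : ℕ} (hr : 3 ≤ r) {y : Fin r → ℕ} (hs : ∑ i, y i = N)
    (hB : ∀ i k, y i ≤ y k + 1) (i : Fin r) : |(y i : ℝ) - N / r| ≤ 1 := by
  have hr3 : (3 : ℝ) ≤ r := by exact_mod_cast hr
  have hrp : (0 : ℝ) < r := by linarith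
  have h1 : r * y i ≤ N + r := by
    have h : ∑ _k : Fin r, y i ≤ ∑ k : Fin r, (y k + 1) :=
      Finset.sum_le_sum fun k _ => hB i k
    rw [Finset.sum_add_distrib, hs] at h
    simpa using h
  have h2 : N ≤ r * y i + r := by
    have h : ∑ k : Fin r, y k ≤ ∑ _k : Fin r, (y i + 1) :=
      Finset.sum_le_sum fun k _ => hB k i
    rw [hs] at h
    have h3 : ∑ _k : Fin r, (y i + 1) = r * y i + r := by
      simp [mul_add]
    rw [h3] at h; exact h
  have h1' : (r : ℝ) * y i ≤ N + r := by exact_mod_cast h1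
  have h2' : (N : ℝ) ≤ r * y i + r := by exact_mod_cast h2
  rw [abs_le]
  constructor
  · have : (N : ℝ) / r ≤ y i + 1 := by rw [div_le_iff₀ hrp]; linarith
    linarith
  · have : (y i : ℝ) - 1 ≤ (N : ℝ) / r := by rw [le_div_iff₀ hrp]; linarith
    linarith

/-- vectors with the smallest sum of squares are balanced -/
theorem min_bal {r N : ℕ} (hTNB : Stmt_TNB) (hr : 3 ≤ r) {n : Fin r → ℕ} (hs : ∑ i, n i = N)
    (hq : 2 * tn r N + ∑ i, n i ^ 2 = N ^ 2) (i k : Fin r) : n i ≤ n k + 1 := by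
  by_contra hlt
  push Not at hlt
  have hik : i ≠ k := by
    rintro rfl
    omega
  set z : Fin r → ℕ := fun l => if l = i then n i - 1 else if l = k then n k + 1 else n l with hz
  have hzi : z i = n i - 1 := by simp [hz]
  have hzk : z k = n k + 1 := by simp [hz, hik.symm]
  have hzo : ∀ l ∈ ((univ : Finset (Fin r)).erase i).erase k, z l = n l := by
    intro l hl
    have h1 := Finset.ne_of_mem_erase hl
    have h2 := Finset.ne_of_mem_erase (Finset.mem_of_mem_erase hl)
    simp [hz, h1, h2]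
  have hki : k ∈ (univ : Finset (Fin r)).erase i := Finset.mem_erase.2 ⟨hik.symm, Finset.mem_univ _⟩
  have split : ∀ f : Fin r → ℕ, ∑ l, f l = f i + (f k
      + ∑ l ∈ ((univ : Finset (Fin r)).erase i).erase k, f l) := by
    intro f
    rw [Finset.add_sum_erase _ f hki, Finset.add_sum_erase _ f (Finset.mem_univ i)]
  have hzs : ∑ l, z l = N := by
    have e1 := split z
    have e2 := split n
    have e3 : ∑ l ∈ ((univ : Finset (Fin r)).erase i).erase k, z l
        = ∑ l ∈ ((univ : Finset (Fin r)).erase i).erase k, n l := Finset.sum_congr rfl hzo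
    rw [hzi, hzk, e3] at e1
    rw [hs] at e2
    rw [e1]
    omega
  have h1 := hTNB r N z hr hzs
  have h2 : ∑ l, z l ^ 2 < ∑ l, n l ^ 2 := by
    rw [split (fun l => z l ^ 2), split (fun l => n l ^ 2), hzi, hzk,
      Finset.sum_congr rfl (fun l hl => by rw [hzo l hl])]
    obtain ⟨m, hm⟩ : ∃ m, n i = n k + 2 + m := ⟨n i - (n k + 2), by omega⟩
    rw [hm]
    have e1 : n k + 2 + m - 1 = n k + 1 + m := by omega
    rw [e1]
    have e2 : (n k + 1 + m) ^ 2 + (n k + 1) ^ 2 + 2 * (m + 1) = (n k + 2 + m) ^ 2 + n k ^ 2 := by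
      ring
    omega
  omega

/-- comparison of the secular functions -/
theorem cmp {r : ℕ} {C : ℝ} {n : ℕ} {z y : Fin r → ℝ} {L : ℝ} (hr : 3 ≤ r) (hC1 : 1 ≤ C)
    (hn : 16 * (4 * r + 2 + C) ≤ √(n : ℝ)) (hyb : ∀ i, |y i - n / r| ≤ 1)
    (hzb : ∀ i, |z i - n / r| ≤ 2 * √(n : ℝ)) (hle : mo 2 n y ≤ mo 2 n z)
    (hT : |L - ((mo 2 n y - mo 2 n z) + (mo 3 n z - mo 3 n y) / n
      + (mo 4 n y - mo 4 n z) / n ^ 2)| ≤ C / √(n : ℝ) + C * |mo 2 n z - mo 2 n y| / n) :
    L ≤ -(mo 2 n z - mo 2 n y) + 1 / 16 * (1 + (mo 2 n z - mo 2 n y)) := by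
  have hr3 : (3 : ℝ) ≤ r := by exact_mod_cast hr
  set s := √(n : ℝ) with hs
  have hs1 : 1 ≤ s := by linarith
  have hsp : 0 < s := by linarith
  have hss : (n : ℝ) = s * s := (Real.mul_self_sqrt (Nat.cast_nonneg n)).symm
  have hsn : s ≤ n := by rw [hss]; exact le_mul_of_one_le_left hsp.le hs1
  have hnp : (0 : ℝ) < n := by linarith
  have hyk : ∀ k : ℕ, |mo k n y| ≤ r := by
    intro k
    unfold mo
    calc |∑ i, (y i - n / r) ^ k| ≤ ∑ i, |(y i - n / r) ^ k| := Finset.abs_sum_le_sum_abs _ _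
      _ ≤ ∑ _i : Fin r, (1 : ℝ) := Finset.sum_le_sum fun i _ => by
          rw [abs_pow]; exact pow_le_one₀ (abs_nonneg _) (hyb i)
      _ = r := by simp
  have hz3 : mo 3 n z ≤ 2 * s * mo 2 n z := by
    unfold mo
    rw [Finset.mul_sum]
    refine Finset.sum_le_sum fun i _ => ?_
    have h1 : (z i - n / r) ^ 3 = (z i - n / r) * (z i - n / r) ^ 2 := by ring
    rw [h1]
    exact mul_le_mul_of_nonneg_right ((le_abs_self _).trans (hzb i)) (sq_nonneg _)
  have hz4 : 0 ≤ mo 4 n z := by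
    unfold mo
    exact Finset.sum_nonneg fun i _ => by positivity
  set D := mo 2 n z - mo 2 n y with hD
  have hD0 : 0 ≤ D := by linarith
  have hRz : mo 2 n z ≤ r + D := by
    have := (abs_le.1 (hyk 2)).2
    linarith
  have t3 : (mo 3 n z - mo 3 n y) / n ≤ (2 * (r + D) + r) / s := by
    rw [div_le_div_iff₀ hnp hsp]
    have h1 := (abs_le.1 (hyk 3)).1
    have h2 : mo 3 n z - mo 3 n y ≤ 2 * s * (r + D) + r := by
      have := mul_le_mul_of_nonneg_left hRz (show 0 ≤ 2 * s by linarith)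
      linarith
    have h3 : 2 * s * (r + D) + r ≤ s * (2 * (r + D) + r) := by
      have : (r : ℝ) ≤ s * r := le_mul_of_one_le_left (by linarith) hs1
      linarith
    calc (mo 3 n z - mo 3 n y) * s ≤ (s * (2 * (r + D) + r)) * s :=
          mul_le_mul_of_nonneg_right (h2.trans h3) hsp.le
      _ = (2 * (r + D) + r) * n := by rw [hss]; ring
  have t4 : (mo 4 n y - mo 4 n z) / n ^ 2 ≤ r / s := by
    have h1 := (abs_le.1 (hyk 4)).2
    have h2 : s ≤ (n : ℝ) ^ 2 := by
      have : (n : ℝ) ≤ (n : ℝ) ^ 2 := by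
        have h : (1 : ℝ) ≤ n := by linarith
        rw [pow_two]; exact le_mul_of_one_le_left hnp.le h
      linarith
    calc (mo 4 n y - mo 4 n z) / (n : ℝ) ^ 2 ≤ r / (n : ℝ) ^ 2 :=
          div_le_div_of_nonneg_right (by linarith) (by positivity)
      _ ≤ r / s := div_le_div_of_nonneg_left (by linarith) hsp h2
  have t5 : C * |D| / n ≤ C * D / s := by
    rw [abs_of_nonneg hD0]
    exact div_le_div_of_nonneg_left (mul_nonneg (by linarith) hD0) hsp hsn
  have h1 := (abs_le.1 hT).2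
  have h2 : (2 * (r + D) + r) / s + r / s + (C / s + C * D / s) ≤ 1 / 16 * (1 + D) := by
    have e1 : (2 * (r + D) + r) / s + r / s + (C / s + C * D / s)
        = (4 * r + C + (2 + C) * D) / s := by field_simp; ring
    rw [e1, div_le_iff₀ hsp]
    have h3 : 4 * (r : ℝ) + C + (2 + C) * D ≤ (4 * r + 2 + C) * (1 + D) := by
      have : 0 ≤ 4 * (r : ℝ) * D := by positivity
      linarith
    have h4 := mul_le_mul_of_nonneg_right hn (show 0 ≤ 1 + D by linarith)
    linarith
  linarith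

/-- the secular function is decreasing -/
theorem Ph_anti {r : ℕ} {y : Fin r → ℝ} (hy : ∀ i, 0 ≤ y i) {l l' : ℝ} (h0 : 0 < l)
    (h : l ≤ l') : Ph y l' ≤ Ph y l := by
  unfold Ph
  have : ∑ i, y i / (l' + y i) ≤ ∑ i, y i / (l + y i) := by
    refine Finset.sum_le_sum fun i _ => ?_
    have := hy i
    exact div_le_div_of_nonneg_left (hy i) (by linarith) (by linarith)
  linarith

theorem card_WE {V : Type} [Fintype V] {r N : ℕ} {G : SimpleGraph V} {H A B : Finset V}
    {c : V → Fin r} {w u : V} {i0 : Fin r} (hW : WE G N H c w u A B i0) : r ≤ A.card + 1 := by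
  classical
  rw [← sum_card_cl A c, ← Finset.add_sum_erase _ _ (Finset.mem_univ i0)]
  have h1 : ∑ i ∈ (univ : Finset (Fin r)).erase i0, 1
      ≤ ∑ i ∈ (univ : Finset (Fin r)).erase i0, (cl A c i).card :=
    Finset.sum_le_sum fun i hi => Finset.card_pos.2 (hW.hAne i (Finset.ne_of_mem_erase hi))
  rw [Finset.sum_const, smul_eq_mul, Finset.card_erase_of_mem (Finset.mem_univ i0),
    Finset.card_univ, Fintype.card_fin] at h1
  omega

/-- a graph `WF` has a missing pair, and with exactly one missing pair it is of the type `WD` -/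
theorem WF_mis {V : Type} [Fintype V] {r N : ℕ} {G : SimpleGraph V} {H T : Finset V}
    {c : V → Fin r} {w : V} (h : WF G N H c w T) :
    2 ≤ mis G H c ∧ (mis G H c ≤ 2 → ∃ v1 v2 : V, WD G N H c w T v1 v2) := by
  classical
  obtain ⟨a, ha, b, hb, hab, hadj⟩ := h.hF
  have huniq : ∀ x ∈ T, ∀ y ∈ T, c x = c y → x = y := by
    intro x hx y hy hxy
    obtain ⟨z, hz⟩ := Finset.card_eq_one.mp (h.hT1 (c y))
    have h1 : x ∈ cl T c (c y) := mem_cl.mpr ⟨hx, hxy⟩
    have h2 : y ∈ cl T c (c y) := mem_cl.mpr ⟨hy, rfl⟩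
    rw [hz, Finset.mem_singleton] at h1 h2
    exact h1.trans h2.symm
  have hca : c a ≠ c b := fun hcc => hab (huniq a ha b hb hcc)
  have hne : (a, b) ≠ (b, a) := fun q => hab (congrArg Prod.fst q)
  have hm2 : ∀ e ∈ ({(a, b), (b, a)} : Finset (V × V)), (e.1 ∈ H ∧ e.2 ∈ H) ∧
      c e.1 ≠ c e.2 ∧ ¬ G.Adj e.1 e.2 := by
    intro e he
    rw [Finset.mem_insert, Finset.mem_singleton] at he
    rcases he with rfl | rfl
    · exact ⟨⟨h.hT ha, h.hT hb⟩, hca, hadj⟩
    · exact ⟨⟨h.hT hb, h.hT ha⟩, hca.symm, fun q => hadj q.symm⟩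
  constructor
  · unfold mis
    rw [← Finset.card_pair hne]
    refine Finset.card_le_card fun e he => ?_
    rw [Finset.mem_filter, Finset.mem_product]
    exact hm2 e he
  · intro hmis
    refine ⟨a, b, ?_⟩
    refine
      { card := h.card, hw := h.hw, hA := h.hT, h12 := hca
        h1 := ?_, h2 := ?_, hne := ?_, adj := ?_ }
    · ext v
      rw [mem_cl, Finset.mem_singleton]
      exact ⟨fun q => huniq v q.1 a ha q.2, fun q => by rw [q]; exact ⟨ha, rfl⟩⟩
    · ext v
      rw [mem_cl, Finset.mem_singleton]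
      exact ⟨fun q => huniq v q.1 b hb q.2, fun q => by rw [q]; exact ⟨hb, rfl⟩⟩
    · intro i
      rw [← Finset.card_pos, h.hT1 i]; exact Nat.one_pos
    · intro p q
      constructor
      · intro hpq
        rcases h.sub p q hpq with h1 | h1 | h1
        · refine Or.inl ⟨h1.1, h1.2.1, h1.2.2, ?_, ?_⟩
          · rintro ⟨rfl, rfl⟩; exact hadj hpq
          · rintro ⟨rfl, rfl⟩; exact hadj hpq.symm
        · exact Or.inr (Or.inl h1)
        · exact Or.inr (Or.inr h1)
      · rintro (h1 | h1 | h1)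
        · by_contra hno
          have hsub : ({(p, q), (a, b), (b, a)} : Finset (V × V)) ⊆
              (H ×ˢ H).filter (fun e => c e.1 ≠ c e.2 ∧ ¬ G.Adj e.1 e.2) := by
            intro e he
            rw [Finset.mem_filter, Finset.mem_product]
            rcases Finset.mem_insert.1 he with rfl | he
            · exact ⟨⟨h1.1, h1.2.1⟩, h1.2.2.1, hno⟩
            · exact hm2 e he
          have h3 : (p, q) ∉ ({(a, b), (b, a)} : Finset (V × V)) := by
            rw [Finset.mem_insert, Finset.mem_singleton]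
            rintro (h4 | h4)
            · exact h1.2.2.2.1 ⟨congrArg Prod.fst h4, congrArg Prod.snd h4⟩
            · exact h1.2.2.2.2 ⟨congrArg Prod.fst h4, congrArg Prod.snd h4⟩
          have h4 : 3 ≤ mis G H c := by
            unfold mis
            have h5 := Finset.card_le_card hsub
            rw [Finset.card_insert_of_notMem h3, Finset.card_pair hne] at h5
            exact h5
          omega
        · rw [h1.1]; exact h.hwT q h1.2
        · rw [h1.1]; exact (h.hwT p h1.2).symm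

/-- the competitor -/
theorem build {V : Type} [Fintype V] {r n j : ℕ} (hMKD : Stmt_MKD) (hr : 3 ≤ r)
    (hn : 9 * r ≤ n) (hj1 : r ≤ j + 1) (hj2 : j + 3 ≤ 2 * r) {H : Finset V} {w : V}
    (hH : H.card = n) (hw : w ∉ H) {y : Fin r → ℕ} (hs : ∑ i, y i = n)
    (hB : ∀ i k, y i ≤ y k + 1) :
    ∃ (c : V → Fin r) (A : Finset V) (v1 v2 : V), WD (gD H c w A v1 v2) n H c w A v1 v2 ∧
      A.card = j + 1 ∧ ∀ i, (cl H c i).card = y i := by
  classical
  have hub : ∀ i, r * y i ≤ n + r := by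
    intro i
    have h : ∑ _k : Fin r, y i ≤ ∑ k : Fin r, (y k + 1) :=
      Finset.sum_le_sum fun k _ => hB i k
    rw [Finset.sum_add_distrib, hs] at h
    simpa using h
  have hlb : ∀ i, n ≤ r * y i + r := by
    intro i
    have h : ∑ k : Fin r, y k ≤ ∑ _k : Fin r, (y i + 1) :=
      Finset.sum_le_sum fun k _ => hB k i
    rw [hs] at h
    have h3 : ∑ _k : Fin r, (y i + 1) = r * y i + r := by
      simp [mul_add]
    rw [h3] at h; exact h
  have hy1 : ∀ i, 1 ≤ y i := by
    intro i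
    by_contra h
    have h0 : y i = 0 := by omega
    have := hlb i
    rw [h0] at this
    omega
  obtain ⟨c, A, v1, v2, hWD, hAc, hcl⟩ := hMKD r hr V H w y hw (by rw [hs, hH]) hy1
  rw [hH] at hWD
  set R := H.filter (fun v => v ∉ A ∧ c v ≠ c v1 ∧ c v ≠ c v2) with hR
  have hRc : n ≤ R.card + r + y (c v1) + y (c v2) := by
    have h1 : H ⊆ ((R ∪ A) ∪ cl H c (c v1)) ∪ cl H c (c v2) := by
      intro v hv
      simp only [Finset.mem_union, mem_cl, hR, Finset.mem_filter]
      by_cases h1 : c v = c v1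
      · exact Or.inl (Or.inr ⟨hv, h1⟩)
      by_cases h2 : c v = c v2
      · exact Or.inr ⟨hv, h2⟩
      by_cases h3 : v ∈ A
      · exact Or.inl (Or.inl (Or.inr h3))
      · exact Or.inl (Or.inl (Or.inl ⟨hv, h3, h1, h2⟩))
    have h2 := Finset.card_le_card h1
    have h3 := Finset.card_union_le ((R ∪ A) ∪ cl H c (c v1)) (cl H c (c v2))
    have h4 := Finset.card_union_le (R ∪ A) (cl H c (c v1))
    have h5 := Finset.card_union_le R A
    rw [hcl] at h3 h4
    omega
  have hRbig : j + 1 - r ≤ R.card := by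
    have h1 := hub (c v1)
    have h2 := hub (c v2)
    have h3 : r * n ≤ r * R.card + r * r + (n + r) + (n + r) := by
      have h := Nat.mul_le_mul_left r hRc
      have e : r * (R.card + r + y (c v1) + y (c v2))
          = r * R.card + r * r + r * y (c v1) + r * y (c v2) := by ring
      rw [e] at h
      omega
    by_contra hlt
    push Not at hlt
    have h4 : R.card ≤ r := by omega
    have h5 : r * R.card ≤ r * r := Nat.mul_le_mul_left r h4
    have h6 : 3 * n ≤ r * n := Nat.mul_le_mul_right n hr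
    have h7 : r * (9 * r) ≤ r * n := Nat.mul_le_mul_left r hn
    have h8 : r * (9 * r) = 9 * (r * r) := by ring
    have h9 : 3 * r ≤ r * r := Nat.mul_le_mul_right r hr
    omega
  obtain ⟨F, hFR, hFc⟩ := Finset.exists_subset_card_eq hRbig
  have hFm : ∀ v ∈ F, v ∈ H ∧ v ∉ A ∧ c v ≠ c v1 ∧ c v ≠ c v2 := fun v hv =>
    Finset.mem_filter.1 (hFR hv)
  have hdis : Disjoint A F := by
    rw [Finset.disjoint_left]
    intro v hv hv'
    exact (hFm v hv').2.1 hv
  have hcla : ∀ l, l = c v1 ∨ l = c v2 → cl (A ∪ F) c l = cl A c l := by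
    intro l hl
    ext v
    rw [mem_cl, mem_cl, Finset.mem_union]
    constructor
    · rintro ⟨h | h, hc⟩
      · exact ⟨h, hc⟩
      · rcases hl with hl | hl
        · exact absurd (hc.trans hl) (hFm v h).2.2.1
        · exact absurd (hc.trans hl) (hFm v h).2.2.2
    · rintro ⟨h, hc⟩; exact ⟨Or.inl h, hc⟩
  refine ⟨c, A ∪ F, v1, v2, gD_WD hH hw ?_ hWD.h12 ?_ ?_ ?_, ?_, hcl⟩
  · exact Finset.union_subset hWD.hA fun v hv => (hFm v hv).1
  · rw [hcla _ (Or.inl rfl)]; exact hWD.h1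
  · rw [hcla _ (Or.inr rfl)]; exact hWD.h2
  · intro i
    obtain ⟨v, hv⟩ := hWD.hne i
    exact ⟨v, mem_cl.2 ⟨Finset.mem_union_left _ (mem_cl.1 hv).1, (mem_cl.1 hv).2⟩⟩
  · rw [Finset.card_union_of_disjoint hdis, hAc, hFc]; omega

end W2

open W2 in
theorem blk_W2 (hSM : Stmt_SM) (_hEVN : Stmt_EVN) (hGD : Stmt_GD) (hGF : Stmt_GF)
    (hGE : Stmt_GE) (hSECD : Stmt_SECD) (_hSECF : Stmt_SECF) (hSECE : Stmt_SECE)
    (hLAM : Stmt_LAM) (hTAY : Stmt_TAY) (hMKD : Stmt_MKD) (hTN : Stmt_TN) (hTNB : Stmt_TNB) :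
    Stmt_W2 := by
  classical
  intro r hr
  have hr3 : (3 : ℝ) ≤ r := by exact_mod_cast hr
  have hrp : (0 : ℝ) < r := by linarith
  obtain ⟨e, he0, her, he72⟩ : ∃ e : ℝ, 0 < e ∧ e * r = 1 / 24 ∧ e ≤ 1 / 72 := by
    refine ⟨1 / (24 * r), by positivity, by field_simp, ?_⟩
    rw [div_le_div_iff₀ (by positivity) (by norm_num)]
    linarith
  obtain ⟨dS, nS, hdS, HS⟩ := hSM r hr
  obtain ⟨dD, nD, hdD, HD⟩ := hSECD r e hr he0
  obtain ⟨dE, nE, hdE, HE⟩ := hSECE r e hr he0
  obtain ⟨dL, nL, hdL, HL⟩ := hLAM r hr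
  obtain ⟨C, hC1, HT⟩ := hTAY r (4 * r + 1) hr (by linarith)
  obtain ⟨δ, hδ0, lS, lD, lE, lL⟩ : ∃ δ : ℝ, 0 < δ ∧ δ ≤ dS ∧ δ ≤ dD ∧ δ ≤ dE ∧ δ ≤ dL :=
    ⟨min (min dS dD) (min dE dL), lt_min (lt_min hdS hdD) (lt_min hdE hdL),
      (min_le_left _ _).trans (min_le_left _ _), (min_le_left _ _).trans (min_le_right _ _),
      (min_le_right _ _).trans (min_le_left _ _), (min_le_right _ _).trans (min_le_right _ _)⟩
  obtain ⟨K, hK⟩ : ∃ K : ℝ, K = 16 * (4 * r + 2 + C) := ⟨_, rfl⟩
  refine ⟨δ, nS + nD + nE + nL + 9 * r + ⌈C⌉₊ + ⌈K ^ 2⌉₊ + ⌈2 * r / δ⌉₊, hδ0, ?_⟩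
  intro n hn j hj1 hj2 V _ G c H hC hsz hfree hcol hMX hpE
  have hn9 : 9 * r ≤ n := by omega
  have hnC : C ≤ n := by
    have h1 : ⌈C⌉₊ ≤ n := by omega
    exact (Nat.le_ceil _).trans (by exact_mod_cast h1)
  have hnK2 : K ^ 2 ≤ n := by
    have h1 : ⌈K ^ 2⌉₊ ≤ n := by omega
    exact (Nat.le_ceil _).trans (by exact_mod_cast h1)
  have hK0 : 1 ≤ K := by rw [hK]; linarith
  have hnK : K ≤ √(n : ℝ) := Real.le_sqrt_of_sq_le hnK2
  have hKn : K ≤ n := by
    have : K ≤ K ^ 2 := by rw [pow_two]; exact le_mul_of_one_le_left (by linarith) hK0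
    linarith
  have hδn : 2 * (r : ℝ) ≤ δ * n := by
    have h1 : ⌈2 * r / δ⌉₊ ≤ n := by omega
    have h2 : 2 * r / δ ≤ n := (Nat.le_ceil _).trans (by exact_mod_cast h1)
    rw [div_le_iff₀ hδ0] at h2
    linarith
  have hnp : (0 : ℝ) < n := by linarith
  have hj2r : (j : ℝ) + 3 ≤ 2 * r := by exact_mod_cast hj2
  have hj1r : (r : ℝ) ≤ j + 1 := by exact_mod_cast hj1
  have halg := al_ge hr
  have halp : 0 < al r := by linarith
  have hV : Nonempty V := by
    by_contra h
    rw [not_nonempty_iff] at h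
    exact hcol (SimpleGraph.Colorable.of_isEmpty _)
  obtain ⟨x, hx⟩ := exists_PV G
  obtain ⟨y, hys, hyB⟩ := exists_bal hr n
  have hnear := bal_near hr hys hyB
  have hy2 : ∑ i, re y i ^ 2 = (n : ℝ) ^ 2 - 2 * tn r n := by
    have h1 := (hTN r hr n).1 y hys hyB
    have h2 : ((2 * tn r n + ∑ i, y i ^ 2 : ℕ) : ℝ) = ((n ^ 2 : ℕ) : ℝ) := by exact_mod_cast h1
    push_cast at h2
    unfold re
    linarith
  have hysr : ∑ i, re y i = n := by
    unfold re
    exact_mod_cast hys
  have hy2le : ∀ i, 2 ≤ y i := by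
    intro i
    have h : ∑ k : Fin r, y k ≤ ∑ _k : Fin r, (y i + 1) :=
      Finset.sum_le_sum fun k _ => hyB k i
    rw [hys] at h
    have h3 : ∑ _k : Fin r, (y i + 1) = r * (y i + 1) := by simp
    rw [h3] at h
    by_contra hlt
    have h4 : y i + 1 ≤ 2 := by omega
    have h5 := Nat.mul_le_mul_left r h4
    omega
  -- the competitor
  have key : ∀ w, w ∉ H → (n : ℝ) ^ 2 * Ph (re y) (specRad G) ≤ 2 + e := by
    intro w hw
    obtain ⟨c', A', v1, v2, hWD', hA'c, hcl'⟩ := W2.build hMKD hr hn9 hj1 hj2 hC.card hw hys hyB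
    have hsz' : sz H c' = re y := by
      funext i
      unfold sz re
      rw [hcl' i]
    obtain ⟨hfree', hcol', hpE'⟩ := hGD r hr V _ n H c' w A' v1 v2 hWD'
    have hle : specRad (gD H c' w A' v1 v2) ≤ specRad G := by
      refine hMX _ hfree' (hcol' ?_) ?_
      · intro i; rw [hcl' i]; exact hy2le i
      · rw [hpE', hpE, hA'c, hsz', hy2]; push_cast; ring
    have hA'r : (A'.card : ℝ) = j + 1 := by rw [hA'c]; push_cast; ring
    have hC0' : C0 r δ n (gD H c' w A' v1 v2) c' H := by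
      refine C0_WD hWD' (by linarith) (by linarith) fun i => ?_
      rw [hsz']
      exact (hnear i).trans (by linarith)
    obtain ⟨x', hx'⟩ := exists_PV (gD H c' w A' v1 v2)
    have h1 := (HD n (by omega) V _ x' _ c' H w A' v1 v2 (hC0'.mono lD) hx' hWD').2
    have h2 := HL n (by omega) V _ x' _ c' H (hC0'.mono lL) (fun i => by
      rw [hsz']
      exact (hnear i).trans (by linarith)) hx'
    have h3 : 0 < specRad (gD H c' w A' v1 v2) := by
      have h4 := (abs_le.1 h2).1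
      have h5 := mul_le_mul_of_nonneg_right halg hnp.le
      linarith
    have h4 := Ph_anti (y := re y) (fun i => Nat.cast_nonneg _) h3 hle
    rw [hsz'] at h1
    have h5 := mul_le_mul_of_nonneg_left h4 (sq_nonneg (n : ℝ))
    linarith
  -- moments
  have hzs : ∑ i, sz H c i = n := by
    have h := sum_card_cl H c
    rw [hC.card] at h
    unfold sz
    exact_mod_cast h
  have hRy := mo2_eq hr hysr
  have hRz := mo2_eq hr hzs
  have hz2 : (n : ℝ) ^ 2 ≤ 2 * tn r n + ∑ i, sz H c i ^ 2 := by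
    have h := sum_card_cl H c
    rw [hC.card] at h
    have h1 := hTNB r n (fun i => (cl H c i).card) hr h
    unfold sz
    exact_mod_cast h1
  obtain ⟨D, hD⟩ : ∃ D : ℝ, D = mo 2 n (sz H c) - mo 2 n (re y) := ⟨_, rfl⟩
  have hDz : D = ∑ i, sz H c i ^ 2 - ((n : ℝ) ^ 2 - 2 * tn r n) := by
    rw [hD, hRy, hRz, hy2]; ring
  have hD0 : 0 ≤ D := by linarith
  have hlam := HL n (by omega) V G x _ c H (hC.mono lL) hsz hx
  have hmoy : mo 2 n (re y) ≤ (4 * r + 1) * n := by
    have h1 : mo 2 n (re y) ≤ r := by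
      unfold mo
      calc ∑ i, (re y i - n / r) ^ 2 ≤ ∑ _i : Fin r, (1 : ℝ) := Finset.sum_le_sum fun i _ => by
            rw [← sq_abs]; exact pow_le_one₀ (abs_nonneg _) (hnear i)
        _ = r := by simp
    have h2 : (r : ℝ) ≤ (4 * r + 1) * 1 := by linarith
    have h3 : (4 * (r : ℝ) + 1) * 1 ≤ (4 * r + 1) * n :=
      mul_le_mul_of_nonneg_left (by linarith) (by linarith)
    linarith
  have hmoz : mo 2 n (sz H c) ≤ (4 * r + 1) * n := by
    unfold mo
    have hss : √(n : ℝ) ^ 2 = n := Real.sq_sqrt hnp.le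
    calc ∑ i, (sz H c i - n / r) ^ 2 ≤ ∑ _i : Fin r, (4 * n : ℝ) := Finset.sum_le_sum fun i _ => by
          rw [← sq_abs]
          have h1 := pow_le_pow_left₀ (abs_nonneg _) (hsz i) 2
          rw [mul_pow, hss] at h1
          linarith
      _ = r * (4 * n) := by simp
      _ ≤ (4 * r + 1) * n := by linarith
  have hT := HT n (sz H c) (re y) (specRad G) hnC hlam hzs hysr hmoz hmoy
  have hle2 : mo 2 n (re y) ≤ mo 2 n (sz H c) := by linarith
  have hcmp := W2.cmp (y := re y) (z := sz H c) hr hC1 (hK ▸ hnK) (fun i => hnear i) hsz hle2 hT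
  rw [← hD] at hcmp
  have hlow : ∀ q : ℝ, q ≤ 2 + e → q ≤ (n : ℝ) ^ 2 * Ph (sz H c) (specRad G) →
      (n : ℝ) ^ 2 * Ph (re y) (specRad G) ≤ 2 + e →
      3 / 2 * (q - 2 - e) ≤ -D + 1 / 16 * (1 + D) := by
    intro q hq1 hq2 hq3
    refine le_trans ?_ hcmp
    rw [div_mul_eq_mul_div ((n : ℝ) ^ 2) (al r), le_div_iff₀ halp]
    have h1 : 3 / 2 * (q - 2 - e) * al r ≤ q - 2 - e := by
      have h2 : (2 + e - q) * (2 / 3) ≤ (2 + e - q) * al r :=
        mul_le_mul_of_nonneg_left halg (by linarith)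
      linarith
    linarith
  have hbal : D = 0 → Bal H c := by
    intro hD00
    have h := sum_card_cl H c
    rw [hC.card] at h
    refine min_bal hTNB hr h ?_
    have h1 : 2 * (tn r n : ℝ) + ∑ i, sz H c i ^ 2 = (n : ℝ) ^ 2 := by linarith
    unfold sz at h1
    exact_mod_cast h1
  have heD : e * D ≤ 1 / 72 * D := mul_le_mul_of_nonneg_right he72 hD0
  rcases HS n (by omega) V G c H (hC.mono lS) hfree hcol hMX with
    ⟨w, A, v1, v2, hW⟩ | ⟨w, u, A, B, i0, hW⟩ | ⟨w, T, hW⟩
  · -- type `WD`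
    have hpW := (hGD r hr V G n H c w A v1 v2 hW).2.2
    have hDA : D = 2 * ((A.card : ℝ) - 1 - j) := by
      rw [hpE] at hpW
      linarith
    have hA1 : j + 1 ≤ A.card := by
      have : (j : ℝ) + 1 ≤ A.card := by linarith
      exact_mod_cast this
    have h1 := (HD n (by omega) V G x _ c H w A v1 v2 (hC.mono lD) hx hW).1
    have hA0 : (0 : ℝ) ≤ A.card := Nat.cast_nonneg _
    have heA : 0 ≤ e * (1 + A.card) := by positivity
    have h2 := hlow _ (by linarith) h1 (key w hW.hw)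
    have hAeq : A.card = j + 1 := by
      by_contra hne
      have h3 : j + 2 ≤ A.card := by omega
      have h4 : (j : ℝ) + 2 ≤ A.card := by exact_mod_cast h3
      have h5 : e * (2 + A.card) ≤ e * (2 * r + D / 2) :=
        mul_le_mul_of_nonneg_left (by linarith) he0.le
      linarith
    exact ⟨w, A, v1, v2, hW, hbal (by rw [hDA, hAeq]; push_cast; ring), hAeq⟩
  · -- type `WE`
    exfalso
    have hpW := (hGE r hr V G n H c w u A B i0 hW).2.2
    have hDA : D = 2 * ((A.card : ℝ) + r - j) := by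
      rw [hpE] at hpW
      linarith
    have hA1 : (r : ℝ) ≤ A.card + 1 := by exact_mod_cast card_WE hW
    have h1 := HE n (by omega) V G x _ c H w u A B i0 (hC.mono lE) hx hW
    have hA0 : (0 : ℝ) ≤ A.card := Nat.cast_nonneg _
    have heA : 0 ≤ e * (1 + A.card) := by positivity
    have h2 := hlow _ (by linarith) h1 (key w hW.hw)
    have h5 : e * (2 + A.card) ≤ e * (r + D / 2) :=
      mul_le_mul_of_nonneg_left (by linarith) he0.le
    linarith
  · -- type `WF`
    have hpW := (hGF r hr V G n H c w T hW).2.2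
    obtain ⟨hm2, hWD⟩ := WF_mis hW
    have hm2r : (2 : ℝ) ≤ mis G H c := by exact_mod_cast hm2
    have hDA : D = 2 * ((r : ℝ) - j) - mis G H c := by
      rw [hpE] at hpW
      linarith
    have hjr : j + 1 ≤ r := by
      have : (j : ℝ) + 1 ≤ r := by linarith
      exact_mod_cast this
    have hj : r = j + 1 := by omega
    have hrj : (r : ℝ) = j + 1 := by exact_mod_cast hj
    have hmle : mis G H c ≤ 2 := by
      have : (mis G H c : ℝ) ≤ 2 := by linarith
      exact_mod_cast this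
    obtain ⟨v1, v2, h⟩ := hWD hmle
    refine ⟨w, T, v1, v2, h, hbal (by linarith), ?_⟩
    rw [← sum_card_cl T c, Finset.sum_congr rfl fun i _ => hW.hT1 i]
    simp [hj]

end Pool.Agent.Work.MP_5532fa_up
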