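import Pool.Agent.Work.MP_5532fa_up.Interface5
import Pool.Agent.Work.MP_5532fa_up.EMB
import Pool.Agent.Work.MP_5532fa_up.BIG

/-!
# MP_5532fa_co, upgrade, fifth round, block W3: `j = 2 r - 2`
-/

open Finset

namespace Pool.Agent.Work.MP_5532fa_up

open MP5532fa (specRad qf pE)

namespace W3

/-! ## the class sizes of the competitor -/

theorem bal_sum {r : ℕ} (hr : 0 < r) (n : ℕ) : ∑ i : Fin r, (n + i.val) / r = n := by
  induction n with
  | zero =>
    refine Finset.sum_eq_zero fun i _ => ?_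
    rw [Nat.zero_add]
    exact Nat.div_eq_of_lt i.2
  | succ n ih =>
    rw [Fin.sum_univ_eq_sum_range (fun i => (n + 1 + i) / r) r]
    rw [Fin.sum_univ_eq_sum_range (fun i => (n + i) / r) r] at ih
    obtain ⟨q, hq⟩ : ∃ q, r = q + 1 := ⟨r - 1, by omega⟩
    rw [hq] at ih ⊢
    rw [Finset.sum_range_succ]
    rw [Finset.sum_range_succ'] at ih
    have e1 : ∀ i, (n + 1 + i) / (q + 1) = (n + (i + 1)) / (q + 1) := by
      intro i; congr 1; omega
    simp only [e1]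
    have e2 : (n + (q + 1)) / (q + 1) = n / (q + 1) + 1 := by
      rw [Nat.add_div_right _ (by omega)]
    rw [e2]
    simp only [Nat.add_zero, Nat.zero_add] at ih ⊢
    omega

theorem bal_le {r : ℕ} (hr : 0 < r) (n a b : ℕ) (ha : a < r) : (n + a) / r ≤ (n + b) / r + 1 := by
  have h1 : (n + a) / r ≤ (n + b + r) / r := Nat.div_le_div_right (by omega)
  rw [Nat.add_div_right _ hr] at h1
  exact h1

theorem bal_real {r : ℕ} (hr : 0 < r) (n a : ℕ) (ha : a < r) :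
    |(((n + a) / r : ℕ) : ℝ) - n / r| ≤ 1 := by
  have hr0 : (0 : ℝ) < r := by exact_mod_cast hr
  have h1 : (((n + a) / r : ℕ) : ℝ) ≤ ((n + a : ℕ) : ℝ) / r := Nat.cast_div_le
  have h2 : n + a < r * ((n + a) / r + 1) := Nat.lt_mul_div_succ _ hr
  have h3 : ((n + a : ℕ) : ℝ) < r * ((((n + a) / r : ℕ) : ℝ) + 1) := by exact_mod_cast h2
  have h4 : (n : ℝ) / r < (((n + a) / r : ℕ) : ℝ) + 1 := by
    rw [div_lt_iff₀ hr0]
    push_cast at h3
    have : (0 : ℝ) ≤ a := Nat.cast_nonneg a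
    linarith
  have h5 : ((n + a : ℕ) : ℝ) / r ≤ n / r + 1 := by
    rw [div_add_one hr0.ne', div_le_div_iff_of_pos_right hr0]
    push_cast
    have : (a : ℝ) ≤ r := by exact_mod_cast ha.le
    linarith
  rw [abs_le]
  constructor <;> linarith

theorem sum_change {r : ℕ} (b y : Fin r → ℕ) {k l : Fin r} (hkl : k ≠ l)
    (hk : y k = b k + 1) (hl : y l + 1 = b l) (ho : ∀ i, i ≠ k → i ≠ l → y i = b i)
    (F : ℕ → ℝ) : ∑ i, F (y i) = ∑ i, F (b i) + (F (b k + 1) - F (b k))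
      + (F (y l) - F (b l)) := by
  classical
  have h1 : ∀ i, F (y i) = F (b i) + (if i = k then F (b k + 1) - F (b k) else 0)
      + (if i = l then F (y l) - F (b l) else 0) := by
    intro i
    by_cases h2 : i = k
    · rw [if_pos h2, if_neg (fun h => hkl (h2.symm.trans h)), h2, hk]; ring
    · by_cases h3 : i = l
      · rw [if_neg h2, if_pos h3, h3]; ring
      · rw [if_neg h2, if_neg h3, ho i h2 h3]; ring
  rw [Finset.sum_congr rfl fun i _ => h1 i, Finset.sum_add_distrib, Finset.sum_add_distrib,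
    Finset.sum_ite_eq' univ k, Finset.sum_ite_eq' univ l, if_pos (Finset.mem_univ _),
    if_pos (Finset.mem_univ _)]

theorem exists_y (hTN : Stmt_TN) {r n : ℕ} (hr : 3 ≤ r) (hn : 4 * r ≤ n) :
    ∃ y : Fin r → ℕ, ∑ i, y i = n ∧ ∑ i, y i ^ 2 + 2 * tn r n = n ^ 2 + 2 ∧
      (∀ i, |(y i : ℝ) - n / r| ≤ 2) ∧ ∀ i, 2 ≤ y i := by
  classical
  have hr0 : 0 < r := by omega
  obtain ⟨b, hb⟩ : ∃ b : Fin r → ℕ, b = fun i => (n + i.val) / r := ⟨_, rfl⟩
  have hbs : ∑ i, b i = n := by rw [hb]; exact bal_sum hr0 n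
  have hbb : ∀ i k, b i ≤ b k + 1 := by
    intro i k; rw [hb]; exact bal_le hr0 n i.val k.val i.2
  have hbr : ∀ i, |(b i : ℝ) - n / r| ≤ 1 := by
    intro i; rw [hb]; exact bal_real hr0 n i.val i.2
  have hb1 : ∀ i, 3 ≤ b i := by
    intro i
    rw [hb]
    show 3 ≤ (n + i.val) / r
    rw [Nat.le_div_iff_mul_le hr0]
    omega
  obtain ⟨k, l, hkl, hbkl⟩ : ∃ k l : Fin r, k ≠ l ∧ b k = b l := by
    obtain ⟨i0, h0⟩ : ∃ i : Fin r, i = ⟨0, by omega⟩ := ⟨_, rfl⟩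
    obtain ⟨i1, h1⟩ : ∃ i : Fin r, i = ⟨1, by omega⟩ := ⟨_, rfl⟩
    obtain ⟨i2, h2⟩ : ∃ i : Fin r, i = ⟨2, by omega⟩ := ⟨_, rfl⟩
    have v0 : i0.val = 0 := by rw [h0]
    have v1 : i1.val = 1 := by rw [h1]
    have v2 : i2.val = 2 := by rw [h2]
    have hm : ∀ i j : Fin r, i.val ≤ j.val → b i ≤ b j := by
      intro i j hij
      rw [hb]
      exact Nat.div_le_div_right (by omega)
    have a1 := hm i0 i1 (by omega)
    have a2 := hm i1 i2 (by omega)
    have a3 := hbb i2 i0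
    by_cases h : b i0 = b i1
    · exact ⟨i0, i1, fun h' => by rw [h'] at v0; omega, h⟩
    · exact ⟨i1, i2, fun h' => by rw [h'] at v1; omega, by omega⟩
  obtain ⟨y, hy⟩ : ∃ y : Fin r → ℕ, y = fun i => if i = k then b k + 1 else
    if i = l then b l - 1 else b i := ⟨_, rfl⟩
  have yk : y k = b k + 1 := by rw [hy]; exact if_pos rfl
  have yl : y l + 1 = b l := by
    have h1 : y l = b l - 1 := by
      rw [hy]
      show (if l = k then b k + 1 else if l = l then b l - 1 else b l) = _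
      rw [if_neg hkl.symm, if_pos rfl]
    have := hb1 l
    omega
  have yo : ∀ i, i ≠ k → i ≠ l → y i = b i := by
    intro i h1 h2
    rw [hy]
    show (if i = k then b k + 1 else if i = l then b l - 1 else b i) = _
    rw [if_neg h1, if_neg h2]
  have hylr : (y l : ℝ) + 1 = b l := by exact_mod_cast yl
  have hbklr : (b k : ℝ) = b l := by exact_mod_cast hbkl
  refine ⟨y, ?_, ?_, ?_, ?_⟩
  · have h1 := sum_change b y hkl yk yl yo (fun m => (m : ℝ))
    have h2 : ((∑ i, y i : ℕ) : ℝ) = ((∑ i, b i : ℕ) : ℝ) := by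
      push_cast
      rw [h1]
      push_cast
      linarith
    have h3 : ∑ i, y i = ∑ i, b i := by exact_mod_cast h2
    rw [h3, hbs]
  · have h1 := sum_change b y hkl yk yl yo (fun m => (m : ℝ) ^ 2)
    have h0 := (hTN r hr n).1 b hbs hbb
    have h0' : 2 * (tn r n : ℝ) + ∑ i, (b i : ℝ) ^ 2 = (n : ℝ) ^ 2 := by exact_mod_cast h0
    have h2 : ((∑ i, y i ^ 2 + 2 * tn r n : ℕ) : ℝ) = ((n ^ 2 + 2 : ℕ) : ℝ) := by
      push_cast
      rw [h1]
      push_cast
      have e : (y l : ℝ) = b k - 1 := by linarith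
      rw [e, ← hbklr]
      linarith
    exact_mod_cast h2
  · intro i
    have h1 := abs_le.mp (hbr i)
    by_cases h2 : i = k
    · rw [h2] at h1 ⊢
      rw [yk, abs_le]
      push_cast
      constructor <;> linarith
    · by_cases h3 : i = l
      · rw [h3] at h1 ⊢
        rw [abs_le]
        constructor <;> linarith
      · rw [yo i h2 h3, abs_le]
        constructor <;> linarith
  · intro i
    have h1 := hb1 i
    by_cases h2 : i = k
    · rw [h2] at h1 ⊢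
      omega
    · by_cases h3 : i = l
      · rw [h3] at h1 ⊢
        omega
      · rw [yo i h2 h3]
        omega

/-! ## moments -/

theorem mo2_nonneg {r n : ℕ} (y : Fin r → ℝ) : 0 ≤ mo 2 n y := by
  unfold mo
  exact Finset.sum_nonneg fun i _ => sq_nonneg _

theorem mo2_le {r n : ℕ} {y : Fin r → ℝ} {M : ℝ} (h : ∀ i, |y i - n / r| ≤ M) :
    mo 2 n y ≤ r * M ^ 2 := by
  unfold mo
  have h1 : ∑ i, (y i - (n : ℝ) / r) ^ 2 ≤ ∑ _i : Fin r, M ^ 2 :=
    Finset.sum_le_sum fun i _ => sq_le_sq' (abs_le.mp (h i)).1 (abs_le.mp (h i)).2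
  rw [Finset.sum_const, Finset.card_univ, Fintype.card_fin, nsmul_eq_mul] at h1
  exact h1

theorem mo3_le {r n : ℕ} {y : Fin r → ℝ} {M : ℝ} (h : ∀ i, |y i - n / r| ≤ M) :
    |mo 3 n y| ≤ M * mo 2 n y := by
  unfold mo
  refine (Finset.abs_sum_le_sum_abs _ _).trans ?_
  rw [Finset.mul_sum]
  refine Finset.sum_le_sum fun i _ => ?_
  have e : |(y i - (n : ℝ) / r) ^ 3| = |y i - n / r| * (y i - n / r) ^ 2 := by
    rw [pow_succ, abs_mul, abs_of_nonneg (sq_nonneg _)]; ring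
  rw [e]
  exact mul_le_mul_of_nonneg_right (h i) (sq_nonneg _)

theorem mo4_nonneg {r n : ℕ} (y : Fin r → ℝ) : 0 ≤ mo 4 n y := by
  unfold mo
  refine Finset.sum_nonneg fun i _ => ?_
  have e : (y i - (n : ℝ) / r) ^ 4 = ((y i - (n : ℝ) / r) ^ 2) ^ 2 := by ring
  rw [e]; exact sq_nonneg _

theorem mo4_le {r n : ℕ} {y : Fin r → ℝ} {M : ℝ} (h : ∀ i, |y i - n / r| ≤ M) :
    mo 4 n y ≤ M ^ 2 * mo 2 n y := by
  unfold mo
  rw [Finset.mul_sum]
  refine Finset.sum_le_sum fun i _ => ?_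
  have e : (y i - (n : ℝ) / r) ^ 4 = (y i - n / r) ^ 2 * (y i - n / r) ^ 2 := by ring
  rw [e]
  exact mul_le_mul_of_nonneg_right (sq_le_sq' (abs_le.mp (h i)).1 (abs_le.mp (h i)).2)
    (sq_nonneg _)

/-- the error terms of the expansion -/
theorem err {s C r D a3 b3 a4 b4 : ℝ} (hs : 1 ≤ s) (hC : 0 ≤ C) (hr : 1 ≤ r) (hD : 0 ≤ D)
    (h3a : |a3| ≤ 8 * r) (h3b : |b3| ≤ 2 * s * (4 * r + D)) (h4a0 : 0 ≤ a4) (h4a : a4 ≤ 16 * r)
    (h4b0 : 0 ≤ b4) (h4b : b4 ≤ 4 * s ^ 2 * (4 * r + D)) :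
    C / s + C * D / s ^ 2 + |a3 - b3| / s ^ 2 + |b4 - a4| / (s ^ 2) ^ 2
      ≤ (2 * C + 48 * r) * (1 + D) / s := by
  have hs0 : 0 < s := by linarith
  have hs2 : s ≤ s ^ 2 := by
    have := mul_le_mul_of_nonneg_left hs hs0.le
    rw [mul_one] at this
    linarith [sq s]
  have hrD : 0 ≤ r * D := mul_nonneg (by linarith) hD
  have hDr : D ≤ r * D := by
    have := mul_le_mul_of_nonneg_right hr hD
    linarith
  have t1 : C / s ≤ C * (1 + D) / s := by
    rw [div_le_div_iff_of_pos_right hs0]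
    have := mul_nonneg hC hD
    linarith
  have t2 : C * D / s ^ 2 ≤ C * (1 + D) / s := by
    have h1 : C * D / s ^ 2 ≤ C * D / s := by
      apply div_le_div_of_nonneg_left (mul_nonneg hC hD) hs0 hs2
    have h2 : C * D / s ≤ C * (1 + D) / s := by
      rw [div_le_div_iff_of_pos_right hs0]
      linarith
    exact h1.trans h2
  have t3 : |a3 - b3| / s ^ 2 ≤ 16 * r * (1 + D) / s := by
    rw [div_le_div_iff₀ (by positivity) hs0]
    have h1 : |a3 - b3| ≤ 8 * r + 2 * s * (4 * r + D) := (abs_sub _ _).trans (add_le_add h3a h3b)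
    have h2 : 8 * r + 2 * s * (4 * r + D) ≤ 16 * r * (1 + D) * s := by
      have h3 : 0 ≤ (s - 1) * (8 * r) := mul_nonneg (by linarith) (by linarith)
      have h4 : 0 ≤ s * (16 * (r * D) - 2 * D) := mul_nonneg hs0.le (by linarith)
      nlinarith only [h3, h4]
    calc |a3 - b3| * s ≤ (16 * r * (1 + D) * s) * s :=
          mul_le_mul_of_nonneg_right (h1.trans h2) hs0.le
      _ = 16 * r * (1 + D) * s ^ 2 := by ring
  have t4 : |b4 - a4| / (s ^ 2) ^ 2 ≤ 32 * r * (1 + D) / s := by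
    rw [div_le_div_iff₀ (by positivity) hs0]
    have h1 : |b4 - a4| ≤ 4 * s ^ 2 * (4 * r + D) + 16 * r := by
      rw [abs_le]; constructor <;> linarith
    have hs21 : 1 ≤ s ^ 2 := by linarith
    have h2 : 4 * s ^ 2 * (4 * r + D) + 16 * r ≤ 32 * r * (1 + D) * s ^ 2 := by
      have h3 : 0 ≤ (s ^ 2 - 1) * (16 * r) := mul_nonneg (by linarith) (by linarith)
      have h4 : 0 ≤ s ^ 2 * (32 * (r * D) - 4 * D) := mul_nonneg (by positivity) (by linarith)
      nlinarith only [h3, h4]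
    have h5 : 0 ≤ 32 * r * (1 + D) * s ^ 2 := by positivity
    calc |b4 - a4| * s ≤ (32 * r * (1 + D) * s ^ 2) * s ^ 2 := by
          exact (mul_le_mul_of_nonneg_right (h1.trans h2) hs0.le).trans
            (mul_le_mul_of_nonneg_left hs2 h5)
      _ = 32 * r * (1 + D) * (s ^ 2) ^ 2 := by ring
  have e : (2 * C + 48 * r) * (1 + D) / s = C * (1 + D) / s + C * (1 + D) / s
      + 16 * r * (1 + D) / s + 32 * r * (1 + D) / s := by ring
  rw [e]
  linarith

/-- final arithmetic, type `WD` -/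
theorem arithD {r t e κ P D : ℝ} (hr : 3 ≤ r) (ht : 0 ≤ t) (he : e = 1 / (4 * r ^ 2))
    (hκ : κ ≤ 1 / (12 * r)) (hκ0 : 0 ≤ κ) (hD : D = 2 * t - 2)
    (h1 : 2 - e * (1 + (2 * r - 1 + t)) ≤ P) (h2 : P ≤ -((1 - 1 / r) * D) + κ * (1 + |D|)) :
    False := by
  have hr0 : 0 < r := by linarith
  have hi : 1 / r ≤ 1 / 3 := one_div_le_one_div_of_le (by norm_num) hr
  have hi0 : 0 < 1 / r := by positivity
  have e1 : e * (1 + (2 * r - 1 + t)) = 1 / 2 * (1 / r) + 1 / 4 * ((1 / r) * (1 / r) * t) := by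
    rw [he]; field_simp; ring
  have e2 : 1 / (12 * r) = 1 / 12 * (1 / r) := by field_simp
  rw [e1] at h1
  rw [e2] at hκ
  have a1 : |D| ≤ 2 * t + 2 := by
    rw [hD, abs_le]; constructor <;> linarith
  have a2 : κ * (1 + |D|) ≤ 1 / 12 * (1 / r) * (2 * t + 3) :=
    mul_le_mul hκ (by linarith) (by positivity) (by positivity)
  have a3 : (1 / r) * t ≤ 1 / 3 * t := mul_le_mul_of_nonneg_right hi ht
  have a4 : (1 / r) * (1 / r) * t ≤ 1 / 3 * ((1 / r) * t) := by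
    rw [mul_assoc]
    exact mul_le_mul_of_nonneg_right hi (mul_nonneg hi0.le ht)
  rw [hD] at h2
  rw [hD] at a2
  have e3 : (1 - 1 / r) * (2 * t - 2) = 2 * t - 2 - 2 * ((1 / r) * t) + 2 * (1 / r) := by ring
  have e4 : 1 / 12 * (1 / r) * (2 * t + 3) = 1 / 6 * ((1 / r) * t) + 1 / 4 * (1 / r) := by ring
  rw [e3] at h2
  rw [e4] at a2
  linarith

/-- final arithmetic, type `WE` -/
theorem arithE {r k e κ P D : ℝ} (hr : 3 ≤ r) (hk : 2 ≤ k) (he : e = 1 / (4 * r ^ 2))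
    (hκ : κ ≤ 1 / (12 * r)) (hκ0 : 0 ≤ κ) (hD : D = 2 * k - 2)
    (h1 : -(e * (1 + (k + r - 2))) ≤ P) (h2 : P ≤ -((1 - 1 / r) * D) + κ * (1 + |D|)) :
    False := by
  have hr0 : 0 < r := by linarith
  have hi : 1 / r ≤ 1 / 3 := one_div_le_one_div_of_le (by norm_num) hr
  have hi0 : 0 < 1 / r := by positivity
  have e1 : e * (1 + (k + r - 2)) = 1 / 4 * (1 / r) * ((1 / r) * (k - 1)) + 1 / 4 * (1 / r) := by
    rw [he]; field_simp; ring
  have e2 : 1 / (12 * r) = 1 / 12 * (1 / r) := by field_simp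
  rw [e1] at h1
  rw [e2] at hκ
  have a1 : |D| = 2 * k - 2 := by rw [hD]; exact abs_of_nonneg (by linarith)
  have hκ3 : κ ≤ 1 / 36 := by linarith
  have a2 : κ * (1 + |D|) ≤ 1 / 36 * (2 * k - 1) := by
    rw [a1]
    have := mul_le_mul_of_nonneg_right hκ3 (by linarith : (0 : ℝ) ≤ 1 + (2 * k - 2))
    linarith
  have a3 : (1 / r) * (k - 1) ≤ 1 / 3 * (k - 1) := mul_le_mul_of_nonneg_right hi (by linarith)
  have a4 : 1 / 4 * (1 / r) * ((1 / r) * (k - 1)) ≤ 1 / 4 * (1 / 3) * (1 / 3 * (k - 1)) :=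
    mul_le_mul (by linarith) a3 (mul_nonneg hi0.le (by linarith)) (by norm_num)
  rw [hD] at h2
  rw [hD] at a2
  have e3 : (1 - 1 / r) * (2 * k - 2) = 2 * (k - 1) - 2 * ((1 / r) * (k - 1)) := by ring
  rw [e3] at h2
  linarith

/-- the competitor: a graph `WE` on an almost balanced graph -/
theorem competitor (hEMB : Stmt_EMB) (hSETS : Stmt_SETS) {V : Type} [Fintype V] {r n : ℕ}
    (hr : 3 ≤ r) (hn : 4 * r ≤ n) (hV : n + 2 ≤ Fintype.card V) (y : Fin r → ℕ)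
    (hy : ∑ i, y i = n) (hy2 : ∀ i, 2 ≤ y i) :
    ∃ (G' : SimpleGraph V) (H : Finset V) (c : V → Fin r) (w u : V) (A B : Finset V)
      (i0 : Fin r), WE G' n H c w u A B i0 ∧ A.card + 1 = r ∧ ∀ i, (cl H c i).card = y i := by
  classical
  obtain ⟨H, c, w, u, -, hwu, hw, hu, -, hH, hsz, -⟩ := hEMB r n y (fun _ => 0) V (by omega) hy
    (fun i => Nat.zero_le _) hV
  obtain ⟨i0, hi0⟩ : ∃ i : Fin r, i = ⟨0, by omega⟩ := ⟨_, rfl⟩
  have hcard2 : 2 * (r - 1) ≤ ∑ k ∈ univ.erase i0, (cl H c k).card := by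
    have h1 := Finset.card_nsmul_le_sum (univ.erase i0) (fun k => (cl H c k).card) 2
      (fun k _ => by rw [hsz k]; exact hy2 k)
    rw [Finset.card_erase_of_mem (Finset.mem_univ _), Finset.card_univ, Fintype.card_fin] at h1
    simpa [mul_comm] using h1
  have hsum : (cl H c i0).card + ∑ k ∈ univ.erase i0, (cl H c k).card = H.card := by
    rw [← sum_card_cl H c]
    exact Finset.add_sum_erase univ (fun k => (cl H c k).card) (Finset.mem_univ i0)
  obtain ⟨A, B, hA, hB, hA0, hB0, hAne, hB1, hBA, hAc, -⟩ := hSETS r hr V H ∅ c i0 (r - 1)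
    (Finset.empty_subset _) (by ext v; rw [mem_cl]; simp) (fun i => by rw [hsz i]; exact hy2 i)
    (by omega) (by omega) (by rw [Finset.card_empty]; omega)
  exact ⟨gE H c w u A B, H, c, w, u, A, B, i0,
    gE_WE hH hw hu hwu hA hB hA0 hB0 hAne hB1 hBA, by omega, hsz⟩

/-- all but the choice of the constants -/
theorem core {V : Type} [Fintype V] {r n j : ℕ} {δ e C : ℝ} {G : SimpleGraph V}
    {c : V → Fin r} {H : Finset V} (hr : 3 ≤ r)
    (hSM : (∃ (w : V) (A : Finset V) (v1 v2 : V), WD G n H c w A v1 v2) ∨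
      (∃ (w u : V) (A B : Finset V) (i0 : Fin r), WE G n H c w u A B i0) ∨
      (∃ (w : V) (T : Finset V), WF G n H c w T))
    (hGD : Stmt_GD) (hGF : Stmt_GF) (hGE : Stmt_GE) (hSE2 : Stmt_SECE2) (hSETS : Stmt_SETS)
    (hTN : Stmt_TN) (hTNB : Stmt_TNB)
    (hD : ∀ (x : V → ℝ) (lam : ℝ) (w : V) (A : Finset V) (v1 v2 : V),
      PV G x lam → WD G n H c w A v1 v2 →
      2 - e * (1 + A.card) ≤ (n : ℝ) ^ 2 * Ph (sz H c) lam)
    (hE : ∀ (x : V → ℝ) (lam : ℝ) (w u : V) (A B : Finset V) (i0 : Fin r),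
      PV G x lam → WE G n H c w u A B i0 →
      - (e * (1 + A.card)) ≤ (n : ℝ) ^ 2 * Ph (sz H c) lam)
    (hT : ∀ (y z : Fin r → ℝ) (lam : ℝ), |lam - al r * n| ≤ 4 * r + 1 → ∑ i, y i = n →
      ∑ i, z i = n → mo 2 n y ≤ (4 * r + 1) * n → mo 2 n z ≤ (4 * r + 1) * n →
      |(n : ℝ) ^ 2 / al r * (Ph y lam - Ph z lam)
      - ((mo 2 n z - mo 2 n y) + (mo 3 n y - mo 3 n z) / n + (mo 4 n z - mo 4 n y) / n ^ 2)|
      ≤ C / √(n : ℝ) + C * |mo 2 n y - mo 2 n z| / n)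
    (hlam : ∀ (x : V → ℝ) (lam : ℝ), PV G x lam → |lam - al r * n| ≤ 4 * r + 1)
    (hC : C0 r δ n G c H) (hj : j + 2 = 2 * r) (hV : n + 2 ≤ Fintype.card V)
    (hsz : ∀ i, |sz H c i - n / r| ≤ 2 * √(n : ℝ)) (hmx : MX r G)
    (hpE : pE G = 2 * ((tn r n : ℝ) + j)) (hn : 4 * r ≤ n) (he : e = 1 / (4 * (r : ℝ) ^ 2))
    (hC1 : 1 ≤ C) (hκ : (2 * C + 48 * r) / √(n : ℝ) ≤ 1 / (12 * r)) :
    ∃ (w u : V) (A B : Finset V) (i0 : Fin r), WE G n H c w u A B i0 ∧ A.card + 1 = r ∧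
      ∑ i, (cl H c i).card ^ 2 + 2 * tn r n = n ^ 2 + 2 := by
  classical
  have hr3 : (3 : ℝ) ≤ r := by exact_mod_cast hr
  have hr0 : (0 : ℝ) < r := by linarith
  have hnr : 4 * (r : ℝ) ≤ n := by exact_mod_cast hn
  have hnR : (0 : ℝ) < n := by linarith
  have hjr : (j : ℝ) = 2 * r - 2 := by
    have : (j : ℝ) + 2 = 2 * r := by exact_mod_cast hj
    linarith
  have hVn : Nonempty V := Fintype.card_pos_iff.mp (by omega)
  -- the class sizes
  have hs1 : ∑ i, sz H c i = n := by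
    have h1 : ((∑ i, (cl H c i).card : ℕ) : ℝ) = ((n : ℕ) : ℝ) := by
      rw [sum_card_cl, hC.card]
    push_cast at h1
    exact h1
  have hS : (n : ℝ) ^ 2 ≤ 2 * tn r n + ∑ i, sz H c i ^ 2 := by
    have h1 := hTNB r n (fun i => (cl H c i).card) hr (by rw [sum_card_cl, hC.card])
    unfold sz
    exact_mod_cast h1
  -- the competitor
  obtain ⟨y, hy, hy2, hyd, hy3⟩ := exists_y hTN hr hn
  obtain ⟨G', H', c', w', u', A', B', k0, hW', hA', hsz'⟩ := competitor blk_EMB hSETS hr hn hV y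
    hy hy3
  have hszy : sz H' c' = re y := by
    funext i
    unfold sz re
    rw [hsz' i]
  have hys : ∑ i, re y i = n := by
    unfold re
    exact_mod_cast hy
  have hyq : ∑ i, re y i ^ 2 + 2 * tn r n = (n : ℝ) ^ 2 + 2 := by
    unfold re
    exact_mod_cast hy2
  have hg' := hGE r hr V G' n H' c' w' u' A' B' k0 hW'
  have hpE' : pE G' = pE G := by
    have h1 : (A'.card : ℝ) + 1 = r := by exact_mod_cast hA'
    rw [hg'.2.2, hpE, hszy, hjr]
    linarith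
  have hle : specRad G' ≤ specRad G :=
    hmx G' hg'.1 (hg'.2.1 (fun i => by rw [hsz' i]; exact le_trans (by norm_num) (hy3 i))) hpE'
  obtain ⟨x, hx⟩ := exists_PV G
  obtain ⟨z, hz⟩ := exists_PV G'
  have hlam0 : 0 < specRad G' := by
    have h1 := rayleigh G' (fun _ => 1)
    simp only [mul_one, one_pow, Finset.sum_const, Finset.card_univ, nsmul_eq_mul] at h1
    rw [← pE_ad, hpE', hpE, hjr] at h1
    by_contra h
    push Not at h
    have h2 : specRad G' * (Fintype.card V : ℝ) ≤ 0 :=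
      mul_nonpos_of_nonpos_of_nonneg h (Nat.cast_nonneg _)
    have h3 : (0 : ℝ) ≤ tn r n := Nat.cast_nonneg _
    linarith
  have q1 := hSE2 r hr V G' z _ n c' H' w' u' A' B' k0 hz hlam0 hW'
  rw [hszy] at q1
  have q2 : Ph (re y) (specRad G) ≤ Ph (re y) (specRad G') := by
    refine BIG.Ph_anti (fun i => ?_) hlam0.le hle
    unfold re
    have : 0 < y i := lt_of_lt_of_le (by norm_num) (hy3 i)
    exact_mod_cast this
  have q3 : Ph (re y) (specRad G) ≤ 0 := q2.trans q1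
  -- moments
  have hsn : 1 ≤ √(n : ℝ) := by
    rw [Real.one_le_sqrt]; linarith
  have hsn2 : √(n : ℝ) ^ 2 = n := Real.sq_sqrt hnR.le
  obtain ⟨Ry, hRy⟩ : ∃ Ry, Ry = mo 2 n (re y) := ⟨_, rfl⟩
  obtain ⟨Rz, hRz⟩ : ∃ Rz, Rz = mo 2 n (sz H c) := ⟨_, rfl⟩
  have hRy0 : 0 ≤ Ry := by rw [hRy]; exact mo2_nonneg _
  have hRz0 : 0 ≤ Rz := by rw [hRz]; exact mo2_nonneg _
  have hyd' : ∀ i, |re y i - n / r| ≤ 2 := hyd
  have hRy1 : Ry ≤ 4 * r := by
    rw [hRy]
    have := mo2_le (n := n) hyd'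
    linarith
  have hRz1 : Rz ≤ 4 * r * n := by
    rw [hRz]
    have := mo2_le (n := n) hsz
    rw [mul_pow, hsn2] at this
    linarith
  have hD' : Rz - Ry = ∑ i, sz H c i ^ 2 + 2 * tn r n - (n : ℝ) ^ 2 - 2 := by
    rw [hRz, hRy, BIG.mo2_eq hr hs1, BIG.mo2_eq hr hys]
    linarith
  obtain ⟨D, hDD⟩ : ∃ D, D = Rz - Ry := ⟨_, rfl⟩
  have hRz2 : Rz ≤ 4 * r + |D| := by
    have := le_abs_self D
    linarith
  have m3y : |mo 3 n (re y)| ≤ 8 * r := by
    have := mo3_le (n := n) hyd'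
    rw [← hRy] at this
    linarith
  have m4y : mo 4 n (re y) ≤ 16 * r := by
    have := mo4_le (n := n) hyd'
    rw [← hRy] at this
    linarith
  have m3z : |mo 3 n (sz H c)| ≤ 2 * √(n : ℝ) * (4 * r + |D|) := by
    have := mo3_le (n := n) hsz
    rw [← hRz] at this
    exact this.trans (mul_le_mul_of_nonneg_left hRz2 (by positivity))
  have m4z : mo 4 n (sz H c) ≤ 4 * √(n : ℝ) ^ 2 * (4 * r + |D|) := by
    have := mo4_le (n := n) hsz
    rw [← hRz] at this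
    have h2 := this.trans (mul_le_mul_of_nonneg_left hRz2 (by positivity))
    have e : (2 * √(n : ℝ)) ^ 2 = 4 * √(n : ℝ) ^ 2 := by ring
    rw [e] at h2
    exact h2
  have herr := err (s := √(n : ℝ)) (C := C) (r := (r : ℝ)) (D := |D|) hsn (by linarith)
    (by linarith) (abs_nonneg _) m3y m3z (mo4_nonneg _) m4y (mo4_nonneg _) m4z
  rw [hsn2] at herr
  -- expansion
  have hexp := hT (re y) (sz H c) (specRad G) (hlam x _ hx) hys hs1
    (by rw [← hRy]; linarith [mul_nonneg hr0.le hnR.le])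
    (by rw [← hRz]; linarith)
  rw [← hRy, ← hRz, ← hDD] at hexp
  obtain ⟨κ, hκd⟩ : ∃ κ, κ = (2 * C + 48 * r) / √(n : ℝ) := ⟨_, rfl⟩
  rw [← hκd] at hκ
  have hκ0 : 0 ≤ κ := by rw [hκd]; positivity
  have herr2 : (2 * C + 48 * (r : ℝ)) * (1 + |D|) / √(n : ℝ) = κ * (1 + |D|) := by
    rw [hκd]; ring
  rw [herr2] at herr
  have hDab : |Ry - Rz| = |D| := by rw [hDD, abs_sub_comm]
  rw [hDab] at hexp
  have k1 := (abs_le.mp hexp).1
  have k2 : -(|mo 3 n (re y) - mo 3 n (sz H c)| / n)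
      ≤ (mo 3 n (re y) - mo 3 n (sz H c)) / n := by
    rw [← neg_div, div_le_div_iff_of_pos_right hnR]
    exact neg_abs_le _
  have k3 : -(|mo 4 n (sz H c) - mo 4 n (re y)| / (n : ℝ) ^ 2)
      ≤ (mo 4 n (sz H c) - mo 4 n (re y)) / (n : ℝ) ^ 2 := by
    rw [← neg_div, div_le_div_iff_of_pos_right (by positivity)]
    exact neg_abs_le _
  have hal := al_ge hr
  have hal1 := al_lt hr
  have hal0 : 0 < al r := by linarith
  have k4 : D - κ * (1 + |D|) ≤
      (n : ℝ) ^ 2 / al r * (Ph (re y) (specRad G) - Ph (sz H c) (specRad G)) := by linarith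
  have k5 : (n : ℝ) ^ 2 / al r * (Ph (re y) (specRad G) - Ph (sz H c) (specRad G))
      = (n ^ 2 * Ph (re y) (specRad G) - n ^ 2 * Ph (sz H c) (specRad G)) / al r := by ring
  rw [k5, le_div_iff₀ hal0] at k4
  have k6 : (n : ℝ) ^ 2 * Ph (re y) (specRad G) ≤ 0 :=
    mul_nonpos_of_nonneg_of_nonpos (by positivity) q3
  have k7 : κ * (1 + |D|) * al r ≤ κ * (1 + |D|) := by
    have h1 : 0 ≤ κ * (1 + |D|) := mul_nonneg hκ0 (by positivity)
    have := mul_le_mul_of_nonneg_left hal1.le h1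
    linarith
  have key : (n : ℝ) ^ 2 * Ph (sz H c) (specRad G)
      ≤ -((1 - 1 / (r : ℝ)) * D) + κ * (1 + |D|) := by
    have e : (1 - 1 / (r : ℝ)) = al r := rfl
    rw [e]
    linarith
  rcases hSM with ⟨w, A, v1, v2, hW⟩ | ⟨w, u, A, B, i0, hW⟩ | ⟨w, T, hW⟩
  · exfalso
    have h1 := (hGD r hr V G n H c w A v1 v2 hW).2.2
    rw [hpE, hjr] at h1
    have h2 : D = 2 * (A.card : ℝ) - 4 * r := by rw [hDD, hD']; linarith
    have h3 : -2 ≤ D := by rw [hDD, hD']; linarith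
    refine arithD (t := (A.card : ℝ) - (2 * r - 1)) hr3 (by linarith) he hκ hκ0
      (by rw [h2]; ring) ?_ key
    have h4 := hD x _ w A v1 v2 hx hW
    have e2 : (1 : ℝ) + (2 * r - 1 + ((A.card : ℝ) - (2 * r - 1))) = 1 + A.card := by ring
    rw [e2]
    exact h4
  · have h1 := (hGE r hr V G n H c w u A B i0 hW).2.2
    rw [hpE, hjr] at h1
    have h2 : D = 2 * (A.card : ℝ) - 2 * r + 2 := by rw [hDD, hD']; linarith
    have hAge : r ≤ A.card + 1 := by
      have h3 := Finset.card_nsmul_le_sum (univ.erase i0) (fun k => (cl A c k).card) 1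
        (fun k hk => Finset.card_pos.mpr (hW.hAne k (Finset.ne_of_mem_erase hk)))
      rw [Finset.card_erase_of_mem (Finset.mem_univ _), Finset.card_univ, Fintype.card_fin] at h3
      have h4 := Finset.add_sum_erase univ (fun k => (cl A c k).card) (Finset.mem_univ i0)
      rw [sum_card_cl A c] at h4
      simp only [smul_eq_mul, mul_one] at h3
      omega
    have hAle : A.card + 1 ≤ r := by
      by_contra hcon
      push Not at hcon
      have h5 : (r : ℝ) ≤ A.card := by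
        have : r ≤ A.card := by omega
        exact_mod_cast this
      refine arithE (k := (A.card : ℝ) - r + 2) hr3 (by linarith) he hκ hκ0
        (by rw [h2]; ring) ?_ key
      have h4 := hE x _ w u A B i0 hx hW
      have e2 : (1 : ℝ) + ((A.card : ℝ) - r + 2 + r - 2) = 1 + A.card := by ring
      rw [e2]
      exact h4
    refine ⟨w, u, A, B, i0, hW, by omega, ?_⟩
    have h6 : (A.card : ℝ) + 1 = r := by
      have : A.card + 1 = r := by omega
      exact_mod_cast this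
    have h7 : ((∑ i, (cl H c i).card ^ 2 + 2 * tn r n : ℕ) : ℝ) = ((n ^ 2 + 2 : ℕ) : ℝ) := by
      push_cast
      have h8 : ∑ i, sz H c i ^ 2 = ∑ i, ((cl H c i).card : ℝ) ^ 2 := rfl
      rw [← h8]
      linarith
    exact_mod_cast h7
  · exfalso
    have h1 := (hGF r hr V G n H c w T hW).2.2
    rw [hpE, hjr] at h1
    have h3 : (0 : ℝ) ≤ mis G H c := Nat.cast_nonneg _
    linarith

end W3

/-- **W3** -/
theorem blk_W3 (hSM : Stmt_SM) (_hEVN : Stmt_EVN) (hGD : Stmt_GD) (hGF : Stmt_GF)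
    (hGE : Stmt_GE) (hSD : Stmt_SECD) (_hSF : Stmt_SECF) (hSE : Stmt_SECE)
    (hSE2 : Stmt_SECE2) (hLAM : Stmt_LAM) (hTAY : Stmt_TAY) (hSETS : Stmt_SETS)
    (hTN : Stmt_TN) (hTNB : Stmt_TNB) : Stmt_W3 := by
  intro r hr
  have hr3 : (3 : ℝ) ≤ r := by exact_mod_cast hr
  have hr0 : (0 : ℝ) < r := by linarith
  obtain ⟨e, he⟩ : ∃ e : ℝ, e = 1 / (4 * (r : ℝ) ^ 2) := ⟨_, rfl⟩
  have he0 : 0 < e := by rw [he]; positivity
  obtain ⟨dM, nM, hdM, HM⟩ := hSM r hr
  obtain ⟨dD, nD, hdD, HD⟩ := hSD r e hr he0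
  obtain ⟨dE, nE, hdE, HE⟩ := hSE r e hr he0
  obtain ⟨dL, nL, hdL, HL⟩ := hLAM r hr
  obtain ⟨C, hC1, HT⟩ := hTAY r (4 * r + 1) hr (by linarith)
  obtain ⟨δ, hδ⟩ : ∃ δ : ℝ, δ = min (min dM dD) (min dE dL) := ⟨_, rfl⟩
  have hδ0 : 0 < δ := by
    rw [hδ]
    exact lt_min (lt_min hdM hdD) (lt_min hdE hdL)
  have hδM : δ ≤ dM := by rw [hδ]; exact (min_le_left _ _).trans (min_le_left _ _)
  have hδD : δ ≤ dD := by rw [hδ]; exact (min_le_left _ _).trans (min_le_right _ _)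
  have hδE : δ ≤ dE := by rw [hδ]; exact (min_le_right _ _).trans (min_le_left _ _)
  have hδL : δ ≤ dL := by rw [hδ]; exact (min_le_right _ _).trans (min_le_right _ _)
  obtain ⟨n1, hn1⟩ := exists_nat_ge C
  obtain ⟨n2, hn2⟩ := exists_nat_ge ((12 * r * (2 * C + 48 * r)) ^ 2)
  refine ⟨δ, nM + nD + nE + nL + n1 + n2 + 4 * r, hδ0, ?_⟩
  intro n hn j hj V _ G c H hV hC hsz hfree hcol hmx hpE
  have hnr : 4 * r ≤ n := by omega
  have hnR : (0 : ℝ) < n := by
    have : 4 * (r : ℝ) ≤ n := by exact_mod_cast hnr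
    linarith
  have b1 : C ≤ n := hn1.trans (by exact_mod_cast (by omega : n1 ≤ n))
  have b2 : (12 * r * (2 * C + 48 * r)) ^ 2 ≤ n :=
    hn2.trans (by exact_mod_cast (by omega : n2 ≤ n))
  have hsq : 12 * r * (2 * C + 48 * r) ≤ √(n : ℝ) := Real.le_sqrt_of_sq_le b2
  have hs0 : 0 < √(n : ℝ) := Real.sqrt_pos.mpr hnR
  refine W3.core (C := C) hr (HM n (by omega) V G c H (hC.mono hδM) hfree hcol hmx) hGD hGF hGE
    hSE2 hSETS hTN hTNB ?_ ?_ ?_ ?_ hC hj hV hsz hmx hpE hnr he hC1 ?_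
  · intro x lam w A v1 v2 hx hW
    exact (HD n (by omega) V G x lam c H w A v1 v2 (hC.mono hδD) hx hW).1
  · intro x lam w u A B i0 hx hW
    exact HE n (by omega) V G x lam c H w u A B i0 (hC.mono hδE) hx hW
  · intro y' z' lam a1 a2 a3 a4 a5
    exact HT n y' z' lam b1 a1 a2 a3 a4 a5
  · intro x lam hx
    exact HL n (by omega) V G x lam c H (hC.mono hδL) hsz hx
  · rw [div_le_div_iff₀ hs0 (by positivity)]
    linarith

end Pool.Agent.Work.MP_5532fa_up
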