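import Pool.Agent.Work.MP_5532fa_up.ACC
import Pool.Agent.Work.MP_5532fa_up.ACC0
import Pool.Agent.Work.MP_5532fa_up.ALLV
import Pool.Agent.Work.MP_5532fa_up.AVG
import Pool.Agent.Work.MP_5532fa_up.B1C2
import Pool.Agent.Work.MP_5532fa_up.B1U2
import Pool.Agent.Work.MP_5532fa_up.CANP
import Pool.Agent.Work.MP_5532fa_up.CMB0
import Pool.Agent.Work.MP_5532fa_up.CORE
import Pool.Agent.Work.MP_5532fa_up.CSE
import Pool.Agent.Work.MP_5532fa_up.D1B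
import Pool.Agent.Work.MP_5532fa_up.D2V
import Pool.Agent.Work.MP_5532fa_up.D3V
import Pool.Agent.Work.MP_5532fa_up.E1B
import Pool.Agent.Work.MP_5532fa_up.E2V
import Pool.Agent.Work.MP_5532fa_up.E3V
import Pool.Agent.Work.MP_5532fa_up.EBV
import Pool.Agent.Work.MP_5532fa_up.EDG
import Pool.Agent.Work.MP_5532fa_up.EID
import Pool.Agent.Work.MP_5532fa_up.EMB
import Pool.Agent.Work.MP_5532fa_up.EQS
import Pool.Agent.Work.MP_5532fa_up.EST1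
import Pool.Agent.Work.MP_5532fa_up.ESTU
import Pool.Agent.Work.MP_5532fa_up.EVN
import Pool.Agent.Work.MP_5532fa_up.EXD
import Pool.Agent.Work.MP_5532fa_up.EXE
import Pool.Agent.Work.MP_5532fa_up.EXU
import Pool.Agent.Work.MP_5532fa_up.FAM
import Pool.Agent.Work.MP_5532fa_up.FIN4
import Pool.Agent.Work.MP_5532fa_up.FLAT
import Pool.Agent.Work.MP_5532fa_up.FWE
import Pool.Agent.Work.MP_5532fa_up.GAPF
import Pool.Agent.Work.MP_5532fa_up.GD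
import Pool.Agent.Work.MP_5532fa_up.GE
import Pool.Agent.Work.MP_5532fa_up.GF
import Pool.Agent.Work.MP_5532fa_up.GRD
import Pool.Agent.Work.MP_5532fa_up.HSET
import Pool.Agent.Work.MP_5532fa_up.ISOD
import Pool.Agent.Work.MP_5532fa_up.ISOEU
import Pool.Agent.Work.MP_5532fa_up.KM
import Pool.Agent.Work.MP_5532fa_up.KS
import Pool.Agent.Work.MP_5532fa_up.LAB
import Pool.Agent.Work.MP_5532fa_up.LC
import Pool.Agent.Work.MP_5532fa_up.LOWG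
import Pool.Agent.Work.MP_5532fa_up.LOWX
import Pool.Agent.Work.MP_5532fa_up.MEAS
import Pool.Agent.Work.MP_5532fa_up.MIND
import Pool.Agent.Work.MP_5532fa_up.MKC
import Pool.Agent.Work.MP_5532fa_up.MV1
import Pool.Agent.Work.MP_5532fa_up.MV2B
import Pool.Agent.Work.MP_5532fa_up.OPT1
import Pool.Agent.Work.MP_5532fa_up.OPT3
import Pool.Agent.Work.MP_5532fa_up.PARX
import Pool.Agent.Work.MP_5532fa_up.REL
import Pool.Agent.Work.MP_5532fa_up.S1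
import Pool.Agent.Work.MP_5532fa_up.SETS
import Pool.Agent.Work.MP_5532fa_up.SM0
import Pool.Agent.Work.MP_5532fa_up.SM1a
import Pool.Agent.Work.MP_5532fa_up.SM1b
import Pool.Agent.Work.MP_5532fa_up.SM1c
import Pool.Agent.Work.MP_5532fa_up.SM2
import Pool.Agent.Work.MP_5532fa_up.STA
import Pool.Agent.Work.MP_5532fa_up.STAR
import Pool.Agent.Work.MP_5532fa_up.STC
import Pool.Agent.Work.MP_5532fa_up.THRDB
import Pool.Agent.Work.MP_5532fa_up.THRE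
import Pool.Agent.Work.MP_5532fa_up.TIEU
import Pool.Agent.Work.MP_5532fa_up.TN
import Pool.Agent.Work.MP_5532fa_up.TNB
import Pool.Agent.Work.MP_5532fa_up.TRANS
import Pool.Agent.Work.MP_5532fa_up.TRANS2
import Pool.Agent.Work.MP_5532fa_up.TRF
import Pool.Agent.Work.MP_5532fa_up.TRV
import Pool.Agent.Work.MP_5532fa_up.TYP
import Pool.Agent.Work.MP_5532fa_up.UPX
import Pool.Agent.Work.MP_5532fa_up.Red
import Pool.Agent.Work.MP_5532fa_up.Str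
import Pool.Agent.Work.MP_5532fa_up.Str2
import Pool.Agent.Work.MP_5532fa_up.Str3
import Pool.Agent.Work.MP_5532fa_up.Lin2
import Pool.Agent.Work.MP_5532fa_up.All
import Pool.Agent.Work.MP_5532fa_up.TSA
import Pool.Agent.Work.MP_5532fa_up.TSB
import Pool.Agent.Work.MP_5532fa_up.TSC
import Pool.Agent.Work.MP_5532fa_up.TSQ
import Pool.Agent.Work.MP_5532fa_up.REPL
import Pool.Agent.Work.MP_5532fa_up.REP
import Pool.Agent.Work.MP_5532fa_up.CU1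
import Pool.Agent.Work.MP_5532fa_up.CUB
import Pool.Agent.Work.MP_5532fa_up.TNR
import Pool.Agent.Work.MP_5532fa_up.GDT
import Pool.Agent.Work.MP_5532fa_up.GDS
import Pool.Agent.Work.MP_5532fa_up.LAM
import Pool.Agent.Work.MP_5532fa_up.TAY
import Pool.Agent.Work.MP_5532fa_up.SECD
import Pool.Agent.Work.MP_5532fa_up.SECF
import Pool.Agent.Work.MP_5532fa_up.SECE
import Pool.Agent.Work.MP_5532fa_up.SECE2
import Pool.Agent.Work.MP_5532fa_up.MKD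
import Pool.Agent.Work.MP_5532fa_up.W1
import Pool.Agent.Work.MP_5532fa_up.BIG
import Pool.Agent.Work.MP_5532fa_up.TOPG
import Pool.Agent.Work.MP_5532fa_up.W2
import Pool.Agent.Work.MP_5532fa_up.W3
import Pool.Agent.Work.MP_5532fa_up.Red5
import Pool.Agent.Work.MP_5532fa_up.Asm5

/-!
# MP_5532fa_co, upgrade: the theorems without hypotheses
-/

open Finset

namespace Pool.Agent.Work.MP_5532fa_up

open MP5532fa (specRad qf pE)

theorem pACC0 : Stmt_ACC0 := blk_ACC0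
theorem pALLV : Stmt_ALLV := blk_ALLV
theorem pAVG : Stmt_AVG := blk_AVG
theorem pCANP : Stmt_CANP := blk_CANP
theorem pCSE : Stmt_CSE := blk_CSE
theorem pEDG : Stmt_EDG := blk_EDG
theorem pEID : Stmt_EID := blk_EID
theorem pEMB : Stmt_EMB := blk_EMB
theorem pESTU : Stmt_ESTU := blk_ESTU pCSE
theorem pEST : Stmt_EST := rEST pESTU
theorem pEVN : Stmt_EVN := blk_EVN
theorem pFAM : Stmt_FAM := blk_FAM
theorem pGD : Stmt_GD := blk_GD
theorem pGE : Stmt_GE := blk_GE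
theorem pGRD : Stmt_GRD := blk_GRD
theorem pKM : Stmt_KM := blk_KM
theorem pKS : Stmt_KS := blk_KS
theorem pLAB : Stmt_LAB := blk_LAB
theorem pLC : Stmt_LC := blk_LC
theorem pLOWG : Stmt_LOWG := blk_LOWG
theorem pMEAS : Stmt_MEAS := blk_MEAS
theorem pMIND : Stmt_MIND := blk_MIND pGRD
theorem pMKC : Stmt_MKC := blk_MKC
theorem pMV1 : Stmt_MV1 := blk_MV1 pCSE
theorem pMV2B : Stmt_MV2B := blk_MV2B
theorem pOPT1 : Stmt_OPT1 := blk_OPT1
theorem pPARX : Stmt_PARX := blk_PARX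
theorem pREL : Stmt_REL := blk_REL
theorem pTHRDB : Stmt_THRDB := blk_THRDB pGD pGE pFAM pCSE pESTU
theorem pTHRD : Stmt_THRD := rTHRD pTHRDB
theorem pTHRE : Stmt_THRE := blk_THRE pGD pGE pFAM pEST
theorem pTIEU : Stmt_TIEU := blk_TIEU pFAM pCSE pESTU
theorem pTN : Stmt_TN := blk_TN
theorem pTRANS : Stmt_TRANS := blk_TRANS
theorem pTRV : Stmt_TRV := blk_TRV
theorem pTYP : Stmt_TYP := blk_TYP pGRD pMEAS
theorem pACC : Stmt_ACC := blk_ACC pEID pACC0 pKM pKS pREL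
theorem pB1C2 : Stmt_B1C2 := blk_B1C2 pGE pLC pEID pEVN
theorem pB1C : Stmt_B1C := rB1C pB1C2
theorem pB1U2 : Stmt_B1U2 := blk_B1U2 pGD pTRV pEID pEVN
theorem pB1U : Stmt_B1U := rB1U pB1U2
theorem pD1B : Stmt_D1B := blk_D1B pGD pFAM pESTU pMV2B
theorem pD1 : Stmt_D1 := rD1 pD1B
theorem pD2V : Stmt_D2V := blk_D2V pGD pFAM pCSE pESTU pMV1
theorem pD2 : Stmt_D2 := rD2 pD2V
theorem pD3V : Stmt_D3V := blk_D3V pGD pFAM pCSE pESTU
theorem pD3 : Stmt_D3 := rD3 pD3V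
theorem pE1B : Stmt_E1B := blk_E1B pGE pFAM pESTU pMV2B
theorem pE1 : Stmt_E1 := rE1 pE1B
theorem pE2V : Stmt_E2V := blk_E2V pGE pFAM pCSE pESTU pMV1
theorem pE2U : Stmt_E2U := rE2U pE2V
theorem pE2 : Stmt_E2 := rE2 pE2U
theorem pE3V : Stmt_E3V := blk_E3V pGE pFAM pCSE pESTU
theorem pE3U : Stmt_E3U := rE3U pE3V
theorem pE3 : Stmt_E3 := rE3 pE3U
theorem pEBV : Stmt_EBV := blk_EBV pGE pFAM pCSE pESTU
theorem pEBU : Stmt_EBU := rEBU pEBV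
theorem pEB : Stmt_EB := rEB pEBU
theorem pEXD : Stmt_EXD := blk_EXD pPARX pEMB
theorem pEXE : Stmt_EXE := blk_EXE pPARX pEMB
theorem pHSET : Stmt_HSET := blk_HSET pGRD pMEAS pTYP pEDG pAVG pALLV pMIND
theorem pISOD : Stmt_ISOD := blk_ISOD pLAB pCANP
theorem pISOEU : Stmt_ISOEU := blk_ISOEU pLAB pCANP pTIEU
theorem pISOE : Stmt_ISOE := rISOE pISOEU
theorem pLOWX : Stmt_LOWX := blk_LOWX pGD pEMB pTN pLOWG
theorem pUPX : Stmt_UPX := blk_UPX pMKC pHSET pACC pOPT1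
theorem pOPT3 : Stmt_OPT3 := blk_OPT3
theorem pFIN4 : Stmt_FIN4 := blk_FIN4 pREL pMKC pHSET pACC pOPT3
theorem pFIN3 : Stmt_FIN3 := rFIN3 pFIN4
theorem pFINA : Stmt_FINA := rFINA pFIN3
theorem pEST1 : Stmt_EST1 := blk_EST1
theorem pFLAT : Stmt_FLAT := blk_FLAT pEST1
theorem pTRF : Stmt_TRF := blk_TRF pEID
theorem pCORE : Stmt_CORE := blk_CORE
theorem pGF : Stmt_GF := blk_GF pEID
theorem pCMB0 : Stmt_CMB0 := blk_CMB0 pTRV pLC pEVN
theorem pSETS : Stmt_SETS := blk_SETS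
theorem pSM0 : Stmt_SM0 := blk_SM0 pGE pEID pEVN pEST1 pTRF pCORE pCMB0 pSETS
theorem pSM1a : Stmt_SM1a := blk_SM1a pGE pLC pEID pEVN pEST1 pTRF pCORE pSETS
theorem pSM1b : Stmt_SM1b := blk_SM1b pGD pTRV pEID pEVN pEST1 pTRF pCORE
theorem pSM1c : Stmt_SM1c := blk_SM1c pGD pTRV pEID pEVN pEST1 pTRF pCORE
theorem pSM2 : Stmt_SM2 := blk_SM2 pGF pEID pEVN pEST1 pTRF pCORE
theorem pTNB : Stmt_TNB := blk_TNB pTN
theorem pS1 : Stmt_S1 := blk_S1 pGE pEID pEVN pTNB pFLAT pSETS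
theorem pEXU : Stmt_EXU := blk_EXU pPARX pEMB
theorem pTRANS2 : Stmt_TRANS2 := blk_TRANS2

theorem pLAB2 : Stmt_LAB2 := by
  intro L V V' _ _ R G G' K K' l l' h1 h2 h3
  exact ⟨_, _, LAB.iso R G G' K K' l l' h1 h2 h3⟩

theorem pISOD2 : Stmt_ISOD2 := isod2 pLAB2 pCANP

theorem pSTR : Stmt_STR := str pFINA pB1U pB1C pD1 pD2 pD3 pEB pE1 pE2 pE3 pTN pGD pGE

theorem pSM : Stmt_SM := sm pSM0 pSM1a pSM1b pSM1c pSM2

/-- the exact theorem -/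
theorem pLIN2 (r : ℕ) (ε : ℝ) (hr : 3 ≤ r) (hε : 0 < ε) : ∃ N0 : ℕ, ∀ N ≥ N0, ∀ j : ℕ,
    2 * r ≤ j + 1 → RgU r ε N j → Concl r ε N j :=
  lin2 pS1 pSM0 pFIN3 pEBU pE2U pE3U pTN pGD pGE pLOWG pEXU pLAB pCANP pISOEU pTRANS pTRANS2
    pSTR pEXD pEXE pISOD pISOE pTHRE pTHRD r ε hr hε

/-- the maximum for all numbers of edges -/
theorem pALL (r : ℕ) (ε : ℝ) (hr : 3 ≤ r) (hε : 0 < ε) :
    ∃ m0 : ℕ, ∀ m ≥ m0, ∀ N j : ℕ, m = tn r N + j →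
      m < tn r (N + 1) →
      (∀ (V : Type) [Fintype V] (G : SimpleGraph V), G.CliqueFree (r + 1) →
        pE G = 2 * (m : ℝ) → specRad G ≤ √(2 * al r * m) - sec r N j + ε) ∧
      ∃ G : SimpleGraph (Fin (N + 3)), G.CliqueFree (r + 1) ∧ ¬ G.Colorable r ∧
        pE G = 2 * (m : ℝ) ∧ √(2 * al r * m) - sec r N j - ε ≤ specRad G :=
  main_all pUPX pLOWX pTN r ε hr hε

theorem pSTAR : Stmt_STAR :=
  blk_STAR pGF pEID pFLAT blk_STA blk_STC blk_GAPF (blk_EQS pGF pEID pFLAT)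

theorem pSM3 : Stmt_SM3 := sm3 pSM pSTAR blk_FWE pEVN

/-- the structure of the extremal graphs for all large numbers of edges -/
theorem pUNIV3 (r : ℕ) (hr : 3 ≤ r) :
    ∃ m0 : ℕ, ∀ m ≥ m0, ∀ N j : ℕ, m = tn r N + j → m < tn r (N + 1) →
      ∀ (V : Type) [Fintype V] (G : SimpleGraph V), G.CliqueFree (r + 1) →
      ¬ G.Colorable r → pE G = 2 * (m : ℝ) →
      (∀ (V' : Type) [Fintype V'] (G' : SimpleGraph V'), G'.CliqueFree (r + 1) →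
        ¬ G'.Colorable r → pE G' = 2 * (m : ℝ) → specRad G' ≤ specRad G) →
      ∃ (c : V → Fin r) (H : Finset V), N ≤ H.card + 1 ∧ H.card ≤ N + 1 ∧
        (∀ i, |sz H c i - (H.card : ℝ) / r| ≤ 3 * √(H.card : ℝ)) ∧
        ((∃ (w : V) (A : Finset V) (v1 v2 : V), WD G H.card H c w A v1 v2) ∨
         (∃ (w u : V) (A B : Finset V) (i0 : Fin r), WE G H.card H c w u A B i0)) :=
  univ3 pSM3 pFIN3 pB1U2 pB1C2 pLOWX pTN r hr

/-- extremal graphs exist -/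
theorem pEXT (r : ℕ) (hr : 3 ≤ r) : ∃ m0 : ℕ, ∀ m ≥ m0, ∃ G : SimpleGraph (Fin (2 * m)),
      G.CliqueFree (r + 1) ∧ ¬ G.Colorable r ∧ pE G = 2 * (m : ℝ) ∧
      ∀ (V' : Type) [Fintype V'] (G' : SimpleGraph V'), G'.CliqueFree (r + 1) →
        ¬ G'.Colorable r → pE G' = 2 * (m : ℝ) → specRad G' ≤ specRad G :=
  exists_ext pLOWX pTN pLAB pTRANS r hr

theorem pTSQ : Stmt_TSQ := blk_TSQ blk_TSA blk_TSB blk_TSC
theorem pREPL : Stmt_REPL := blk_REPL pTSQ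
theorem pREP : Stmt_REP := blk_REP pREPL
theorem pCUB : Stmt_CUB := blk_CUB blk_CU1
theorem pTNR : Stmt_TNR := blk_TNR
theorem pGDT : Stmt_GDT := blk_GDT pCUB pTNR
theorem pGDS : Stmt_GDS := blk_GDS blk_CU1
theorem pLAM : Stmt_LAM := blk_LAM pEST1
theorem pTAY : Stmt_TAY := blk_TAY
theorem pSECD : Stmt_SECD := blk_SECD pEST1
theorem pSECF : Stmt_SECF := blk_SECF pEST1
theorem pSECE : Stmt_SECE := blk_SECE pEST1
theorem pSECE2 : Stmt_SECE2 := blk_SECE2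
theorem pMKD : Stmt_MKD := blk_MKD
theorem pW1 : Stmt_W1 := blk_W1 pSM pEVN pGD pGF pGE pSECD pSECF pSECE pLAM pTAY pMKD
theorem pBIG : Stmt_BIG := blk_BIG pGD pSECD pLAM pTAY pMKD pCUB pTNR
theorem pTOPG : Stmt_TOPG := blk_TOPG pGD pFLAT
theorem pW2 : Stmt_W2 :=
  blk_W2 pSM pEVN pGD pGF pGE pSECD pSECF pSECE pLAM pTAY pMKD pTN pTNB
theorem pW3 : Stmt_W3 :=
  blk_W3 pSM pEVN pGD pGF pGE pSECD pSECF pSECE pSECE2 pLAM pTAY pSETS pTN pTNB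

/-- the main theorem of the fifth round -/
theorem pMAIN5 (r : ℕ) (hr : 3 ≤ r) : ∃ κ : ℝ, 0 < κ ∧ ∀ ε : ℝ, 0 < ε →
    ∃ m0 : ℕ, ∀ m ≥ m0, ∀ N j : ℕ, m = tn r N + j → m < tn r (N + 1) →
      Cov r ε N j ∨ CovS r κ N m →
      ∀ (V : Type) [Fintype V] (G : SimpleGraph V), Ext r m G → Form5 r ε N j G :=
  main5 pREP pTN pTNB pGD pGE pGDT pGDS pW1 pTOPG pBIG pB1U2 pB1C2 pD1B pD2V pD3V pEBV pE1B
    pE2V pE3V pW2 pW3 pFIN4 pLOWX pTHRDB pLIN2 pTRANS2 r hr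

end Pool.Agent.Work.MP_5532fa_up
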