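import Pool.Agent.Work.MP_5532fa_up.Defs

/-!
# MP_5532fa_co, upgrade: statements of the blocks
-/

open Finset

namespace Pool.Agent.Work.MP_5532fa_up

open MP5532fa (specRad qf pE)

/-! ## Part A: stability -/

/-- greedy choice of a transversal clique -/
def Stmt_GRD : Prop := ∀ (ι V : Type) [Fintype ι] [Fintype V] (G : SimpleGraph V)
  (A : ι → Finset V) (wt : V → ℝ) (κ : ℝ), (∀ v, 0 ≤ wt v) → 0 ≤ κ →
  (∀ i k, i ≠ k → ∀ v ∈ A i, ∑ u ∈ A k, chi (¬ G.Adj v u) * wt u ≤ κ) →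
  (∀ i, (Fintype.card ι : ℝ) * κ < ∑ u ∈ A i, wt u) →
  ∃ f : ι → V, (∀ i, f i ∈ A i) ∧ ∀ i k, i ≠ k → G.Adj (f i) (f k)

/-- measure form of stability -/
def Stmt_MEAS : Prop := ∀ (r : ℕ) (D : ℝ), 3 ≤ r → 1 ≤ D → ∀ (V : Type) [Fintype V]
  (G : SimpleGraph V) (x : V → ℝ) (lam t : ℝ), Ctx r D G x lam t →
  0 < t ∧ lam * t ≤ al r ∧ al r - D * t ≤ lam * t ∧
  ∑ u, ∑ v, ad G u v * (x u * x v - t) ^ 2 ≤ D * t ∧
  ∃ c : V → Fin r,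
    ∑ u, ∑ v, chi (c u ≠ c v ∧ ¬ G.Adj u v) * (x u ^ 2 * x v ^ 2) ≤ 2 * D * t ∧
    ∀ i, (∑ v ∈ cl univ c i, x v ^ 2 - 1 / (r : ℝ)) ^ 2 ≤ 2 * D * t

/-- typical vertices -/
def Stmt_TYP : Prop := ∀ (r : ℕ) (D η : ℝ), 3 ≤ r → 1 ≤ D → 0 < η → η ≤ 1 / 4 →
  ∃ K : ℝ, 1 ≤ K ∧ ∀ (V : Type) [Fintype V] (G : SimpleGraph V) (x : V → ℝ) (lam t : ℝ),
    Ctx r D G x lam t → K * t ≤ 1 → ∃ (c : V → Fin r) (T : Finset V), TD r η K G x lam t c T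

/-- numbers of edges -/
def Stmt_EDG : Prop := ∀ (r : ℕ) (η K : ℝ), 3 ≤ r → 0 < η → η ≤ 1 / 4 → 1 ≤ K →
  ∃ K' : ℝ, 1 ≤ K' ∧ ∀ (V : Type) [Fintype V] (G : SimpleGraph V) (x : V → ℝ) (lam t : ℝ)
    (c : V → Fin r) (T : Finset V), PV G x lam → TD r η K G x lam t c T → TE r K' G x t c T

/-- sizes of the classes and flatness of the eigenvector -/
def Stmt_AVG : Prop := ∀ (r : ℕ) (η K : ℝ), 3 ≤ r → 0 < η → η ≤ 1 / 4 → 1 ≤ K →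
  ∃ K' : ℝ, 1 ≤ K' ∧ ∀ (V : Type) [Fintype V] (G : SimpleGraph V) (x : V → ℝ) (lam t : ℝ)
    (c : V → Fin r) (T : Finset V), PV G x lam → TD r η K G x lam t c T → TE r K G x t c T →
    K' * t ≤ 1 →
    (∀ i, |((r : ℝ) - 1) * sz T c i - lam| ≤ K' / √t) ∧ ∑ v ∈ T, (x v - √t) ^ 2 ≤ K' * t

/-- the entries of the eigenvector are given by the degrees into `T` -/
def Stmt_ALLV : Prop := ∀ (r : ℕ) (η K : ℝ), 3 ≤ r → 0 < η → η ≤ 1 / 4 → 1 ≤ K →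
  ∃ K' : ℝ, 1 ≤ K' ∧ ∀ (V : Type) [Fintype V] (G : SimpleGraph V) (x : V → ℝ) (lam t : ℝ)
    (c : V → Fin r) (T : Finset V), PV G x lam → TD r η K G x lam t c T → TE r K G x t c T →
    ∑ v ∈ T, (x v - √t) ^ 2 ≤ K * t → K' * t ≤ 1 →
    ∀ v, |lam * x v - √t * dg G T v| ≤ K'

/-- every vertex has few neighbours in some class -/
def Stmt_MIND : Prop := ∀ (r : ℕ) (η K : ℝ), 3 ≤ r → 0 < η → η ≤ 1 / 4 → 1 ≤ K →
  ∃ K' : ℝ, 1 ≤ K' ∧ ∀ (V : Type) [Fintype V] (G : SimpleGraph V) (x : V → ℝ) (lam t : ℝ)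
    (c : V → Fin r) (T : Finset V), G.CliqueFree (r + 1) → TD r η K G x lam t c T →
    TE r K G x t c T → ∀ v, ∃ i, ((nb G (cl T c i) v).card : ℝ) ≤ K' / √t

/-- the heavy vertices -/
def Stmt_HSET : Prop := ∀ (r : ℕ) (D η : ℝ), 3 ≤ r → 1 ≤ D → 0 < η → η ≤ 1 / (8 * r) →
  ∃ K : ℝ, 1 ≤ K ∧ ∀ (V : Type) [Fintype V] (G : SimpleGraph V) (x : V → ℝ) (lam t : ℝ),
    Ctx r D G x lam t → K * t ≤ 1 → ∃ (c : V → Fin r) (H : Finset V), HD r η K G x lam t c H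

/-- counting the edges -/
def Stmt_EID : Prop := ∀ (r : ℕ) (V : Type) [Fintype V] (G : SimpleGraph V) (c : V → Fin r)
  (H : Finset V), (∀ u ∈ H, ∀ v ∈ H, c u = c v → ¬ G.Adj u v) →
  pE G = (H.card : ℝ) ^ 2 - ∑ i, sz H c i ^ 2 - mis G H c + 2 * ∑ v ∈ out H, (dg G H v : ℝ)
    + eu G H

/-- parity -/
def Stmt_EVN : Prop := ∀ (r : ℕ) (V : Type) [Fintype V] (G : SimpleGraph V) (c : V → Fin r)
  (H : Finset V), Even (mis G H c) ∧ Even (eu G H)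

/-- spectral inequality -/
def Stmt_ACC0 : Prop := ∀ (r : ℕ) (η K : ℝ), 3 ≤ r → 0 < η → η ≤ 1 / 4 → 1 ≤ K →
  ∃ K' : ℝ, 1 ≤ K' ∧ ∀ (V : Type) [Fintype V] (G : SimpleGraph V) (x : V → ℝ) (lam t : ℝ)
    (c : V → Fin r) (H : Finset V) (mu : ℝ), PV G x lam → HD r η K G x lam t c H → K' * t ≤ 1 →
    (∀ y : V → ℝ, ∑ u, ∑ v, chi (u ∈ H ∧ v ∈ H ∧ c u ≠ c v) * (y u * y v)
      ≤ mu * ∑ v, y v ^ 2) →
    lam ≤ mu - (1 - η) ^ 2 * t * mis G H c + t / lam * ∑ v ∈ out H, (dg G H v : ℝ) ^ 2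
      + K' * √t

/-- bound for the root of the characteristic equation of a complete multipartite graph -/
def Stmt_KM : Prop := ∀ (r : ℕ) (B : ℝ), 3 ≤ r → 1 ≤ B → ∃ K : ℝ, 1 ≤ K ∧
  ∀ (n : Fin r → ℝ) (M S : ℝ), (∀ i, 0 ≤ n i) → M = ∑ i, n i →
    S = ∑ i, (n i - M / r) ^ 2 → K ≤ M → (∀ i, |n i - M / r| ≤ B * √M) →
    ∃ mu : ℝ, 0 < mu ∧ mu ≤ al r * M - al r * S / M + K / √M ∧ ∑ i, n i / (mu + n i) ≤ 1

/-- Schur test for a complete multipartite graph -/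
def Stmt_KS : Prop := ∀ (r : ℕ) (V : Type) [Fintype V] (H : Finset V) (c : V → Fin r) (mu : ℝ),
  0 < mu → ∑ i, sz H c i / (mu + sz H c i) ≤ 1 → ∀ y : V → ℝ,
    ∑ u, ∑ v, chi (u ∈ H ∧ v ∈ H ∧ c u ≠ c v) * (y u * y v) ≤ mu * ∑ v, y v ^ 2

/-- the context gives `lam` and `t` up to constants -/
def Stmt_REL : Prop := ∀ (r : ℕ) (D : ℝ), 3 ≤ r → 1 ≤ D → ∃ (K : ℝ) (N0 : ℕ), 1 ≤ K ∧
  ∀ N ≥ N0, ∀ j : ℕ, (j : ℝ) ≤ al r * N → ∀ (V : Type) [Fintype V] (G : SimpleGraph V)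
    (x : V → ℝ) (lam t : ℝ), Ctx r D G x lam t → |pE G - al r * N ^ 2 - 2 * j| ≤ (r : ℝ) →
    |lam - al r * N| ≤ K ∧ |t * N - 1| ≤ K / N

/-- making a context -/
def Stmt_MKC : Prop := ∀ (r : ℕ) (B : ℝ), 3 ≤ r → 1 ≤ B → ∃ (D : ℝ) (N0 : ℕ), 1 ≤ D ∧
  ∀ N ≥ N0, ∀ j : ℕ, (j : ℝ) ≤ al r * N → ∀ (V : Type) [Fintype V] (G : SimpleGraph V)
    (x : V → ℝ) (lam : ℝ), G.CliqueFree (r + 1) → PV G x lam →
    |pE G - al r * N ^ 2 - 2 * j| ≤ (r : ℝ) → al r * N - B ≤ lam →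
    Ctx r D G x lam (lam / pE G)

/-- accounting -/
def Stmt_ACC : Prop := ∀ (r : ℕ) (D η K : ℝ), 3 ≤ r → 1 ≤ D → 0 < η → η ≤ 1 / (8 * r) →
  1 ≤ K → ∃ (K' : ℝ) (N0 : ℕ), 1 ≤ K' ∧ ∀ N ≥ N0, ∀ j : ℕ, (j : ℝ) ≤ al r * N →
  ∀ (V : Type) [Fintype V] (G : SimpleGraph V) (x : V → ℝ) (lam t : ℝ) (c : V → Fin r)
    (H : Finset V), Ctx r D G x lam t → HD r η K G x lam t c H →
    |pE G - al r * N ^ 2 - 2 * j| ≤ (r : ℝ) →
    |∑ v ∈ out H, (dg G H v : ℝ) / lam + eu G H / (2 * al r * N) - imb H c / (2 * al r * N)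
      - mis G H c / (2 * al r * N) - ((N : ℝ) - H.card) - j / (al r * N)| ≤ K' / √N ∧
    ∑ v ∈ out H, (dg G H v : ℝ) / lam * (1 - dg G H v / lam) + eu G H / (2 * al r * N)
      + (1 - 2 / r) * (imb H c / (2 * al r * N))
      + (2 * (1 - η) ^ 2 - 1) * (mis G H c / (2 * al r * N))
      ≤ (al r * N + j / N - lam) / al r + K' / √N ∧
    ∀ v, v ∉ H → (dg G H v : ℝ) / lam ≤ 1 - η / 2

/-- the optimisation, lower bound for the cost -/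
def Stmt_OPT1 : Prop := ∀ (ι : Type) (s : Finset ι) (X : ι → ℝ) (e sg mu x κ κ' δ : ℝ) (k : ℤ),
  (∀ v ∈ s, 0 ≤ X v ∧ X v < 1) → 0 ≤ e → 0 ≤ sg → 0 ≤ mu → 0 ≤ x → x ≤ 1 → 0 ≤ κ → κ ≤ 1 →
  κ ≤ κ' → 0 ≤ δ → |∑ v ∈ s, X v + e - sg - mu - k - x| ≤ δ →
  (1 - x) * min x κ ≤ ∑ v ∈ s, X v * (1 - X v) + e + κ * sg + κ' * mu + δ

/-- the optimisation, structure of the almost optimal configurations -/
def Stmt_OPT2 : Prop := ∀ (κ ε η' ε2 : ℝ), κ ≤ 1 → 0 < ε → 0 < η' → η' ≤ 1 → 0 < ε2 →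
  ∃ δ : ℝ, 0 < δ ∧ ∀ (ι : Type) (s : Finset ι) (X : ι → ℝ) (e sg mu x κ' : ℝ) (k : ℤ),
  (∀ v ∈ s, 0 ≤ X v ∧ X v ≤ 1 - η') → 0 ≤ e → 0 ≤ sg → 0 ≤ mu → ε ≤ x → x ≤ κ - ε →
  κ ≤ κ' → |∑ v ∈ s, X v + e - sg - mu - k - x| ≤ δ →
  ∑ v ∈ s, X v * (1 - X v) + e + κ * sg + κ' * mu ≤ x * (1 - x) + δ →
  k = 0 ∧ ∃ w ∈ s, |X w - x| ≤ ε2 ∧ ∑ v ∈ s, X v - X w + e + sg + mu ≤ ε2

/-- the fine data of a graph with large spectral radius -/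
def Stmt_FINA : Prop := ∀ (r : ℕ) (ε δ : ℝ), 3 ≤ r → 0 < ε → 0 < δ → ∃ (δ1 : ℝ) (N0 : ℕ),
  0 < δ1 ∧ ∀ N ≥ N0, ∀ j : ℕ, Rg r ε N j → ∀ (V : Type) [Fintype V] (G : SimpleGraph V)
    (x : V → ℝ) (lam : ℝ), G.CliqueFree (r + 1) → PV G x lam →
    |pE G - al r * N ^ 2 - 2 * j| ≤ (r : ℝ) → al r * N + j ^ 2 / (al r * N ^ 2) - δ1 ≤ lam →
    ∃ (c : V → Fin r) (H : Finset V) (w : V), FD r δ N j G x lam c H w

/-- upper bound for all numbers of edges -/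
def Stmt_UPX : Prop := ∀ (r : ℕ) (δ : ℝ), 3 ≤ r → 0 < δ → ∃ N0 : ℕ, ∀ N ≥ N0, ∀ j : ℕ,
  (j : ℝ) ≤ al r * N → ∀ (V : Type) [Fintype V] (G : SimpleGraph V), Nonempty V →
    G.CliqueFree (r + 1) → |pE G - al r * N ^ 2 - 2 * j| ≤ (r : ℝ) →
    specRad G ≤ al r * N + j / N
      - al r * ((1 - j / (al r * N)) * min (j / (al r * N)) (1 - 2 / r)) + δ

/-! ## Part B: from the fine data to the two types -/

/-- facts on the graphs of type D -/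
def Stmt_GD : Prop := ∀ (r : ℕ), 3 ≤ r → ∀ (V : Type) [Fintype V] (G : SimpleGraph V) (N : ℕ)
  (H : Finset V) (c : V → Fin r) (w : V) (A : Finset V) (v1 v2 : V), WD G N H c w A v1 v2 →
  G.CliqueFree (r + 1) ∧ ((∀ i, 2 ≤ (cl H c i).card) → ¬ G.Colorable r) ∧
  pE G = (N : ℝ) ^ 2 - ∑ i, sz H c i ^ 2 - 2 + 2 * A.card

/-- facts on the graphs of type E -/
def Stmt_GE : Prop := ∀ (r : ℕ), 3 ≤ r → ∀ (V : Type) [Fintype V] (G : SimpleGraph V) (N : ℕ)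
  (H : Finset V) (c : V → Fin r) (w u : V) (A B : Finset V) (i0 : Fin r),
  WE G N H c w u A B i0 →
  G.CliqueFree (r + 1) ∧ ((∀ i, 1 ≤ (cl H c i).card) → ¬ G.Colorable r) ∧
  pE G = (N : ℝ) ^ 2 - ∑ i, sz H c i ^ 2 + 2 * A.card + 2 * r

/-- transversals in the neighbourhood of `w` -/
def Stmt_TRV : Prop := ∀ (r : ℕ), 3 ≤ r → ∀ (V : Type) [Fintype V] (G : SimpleGraph V)
  (c : V → Fin r) (H A : Finset V) (w : V), G.CliqueFree (r + 1) →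
  (∀ u ∈ H, ∀ v ∈ H, c u = c v → ¬ G.Adj u v) → w ∉ H → A = nb G H w →
  (∀ i, (cl A c i).Nonempty) →
  (∃ i0 i1 : Fin r, i0 ≠ i1 ∧ (cl A c i0).card ≤ (cl A c i1).card ∧
    2 * (cl A c i1).card ≤ mis G H c) ∧
  (mis G H c = 2 → ∃ v1 v2 : V, c v1 ≠ c v2 ∧ cl A c (c v1) = {v1} ∧ cl A c (c v2) = {v2} ∧
    ∀ a ∈ H, ∀ b ∈ H, c a ≠ c b → (¬ G.Adj a b ↔ (a = v1 ∧ b = v2) ∨ (a = v2 ∧ b = v1)))

/-- colouring the rest of the graph -/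
def Stmt_LC : Prop := ∀ (r : ℕ), 3 ≤ r → ∀ (V : Type) [Fintype V] (G : SimpleGraph V)
  (c : V → Fin r) (H A : Finset V) (w : V) (i0 : Fin r) (Q : ℕ), G.CliqueFree (r + 1) →
  ¬ G.Colorable r → (∀ u ∈ H, ∀ v ∈ H, c u = c v → ¬ G.Adj u v) → w ∉ H → A = nb G H w →
  cl A c i0 = ∅ → 2 * ∑ v ∈ out H, dg G H v + eu G H = 2 * A.card + Q →
  2 * r ≤ Q ∧ (mis G H c = 0 → Q = 2 * r →
    ∃ (u : V) (B : Finset V) (i1 : Fin r), WE G H.card H c w u A B i1)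

/-- fine data, first case: `w` has neighbours in all classes -/
def Stmt_B1U : Prop := ∀ (r : ℕ) (ε : ℝ), 3 ≤ r → 0 < ε → ∃ (δ : ℝ) (N0 : ℕ), 0 < δ ∧
  ∀ N ≥ N0, ∀ j : ℕ, Rg r ε N j → ∀ (V : Type) [Fintype V] (G : SimpleGraph V) (x : V → ℝ)
    (lam : ℝ) (c : V → Fin r) (H : Finset V) (w : V), FD r δ N j G x lam c H w →
    G.CliqueFree (r + 1) → MX r G → (∀ i, (cl (nb G H w) c i).Nonempty) →
    ∃ v1 v2 : V, WD G N H c w (nb G H w) v1 v2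

/-- fine data, second case: `w` has no neighbours in one class -/
def Stmt_B1C : Prop := ∀ (r : ℕ) (ε : ℝ), 3 ≤ r → 0 < ε → ∃ (δ : ℝ) (N0 : ℕ), 0 < δ ∧
  ∀ N ≥ N0, ∀ j : ℕ, Rg r ε N j → ∀ (V : Type) [Fintype V] (G : SimpleGraph V) (x : V → ℝ)
    (lam : ℝ) (c : V → Fin r) (H : Finset V) (w : V) (i0 : Fin r),
    FD r δ N j G x lam c H w → G.CliqueFree (r + 1) → ¬ G.Colorable r → MX r G →
    cl (nb G H w) c i0 = ∅ →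
    ∃ (u : V) (B : Finset V) (i1 : Fin r), WE G N H c w u (nb G H w) B i1

/-- the common description -/
def Stmt_FAM : Prop := ∀ (r : ℕ), 3 ≤ r → ∀ (V : Type) [Fintype V] (G : SimpleGraph V) (N : ℕ)
  (H : Finset V) (c : V → Fin r) (w : V) (A : Finset V),
  (∀ v1 v2 : V, WD G N H c w A v1 v2 → Fam G H c w A (JD v1 v2)) ∧
  (∀ (u : V) (B : Finset V) (i0 : Fin r), WE G N H c w u A B i0 → Fam G H c w A (JE w u B))

/-- eigenvalue equations and their sums over the classes -/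
def Stmt_CSE : Prop := ∀ (r : ℕ) (V : Type) [Fintype V] (G : SimpleGraph V) (H : Finset V)
  (c : V → Fin r) (w : V) (A : Finset V) (J : V → V → ℝ) (x : V → ℝ) (lam : ℝ),
  Fam G H c w A J → PV G x lam →
  (∀ v ∈ H, lam * x v = (∑ u ∈ H, x u - cs x H c (c v)) + chi (v ∈ A) * x w
    + ∑ z, J v z * x z) ∧
  (∀ i, lam * cs x H c i = sz H c i * (∑ u ∈ H, x u - cs x H c i) + sz A c i * x w
    + ∑ v ∈ cl H c i, ∑ z, J v z * x z) ∧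
  lam * x w = ∑ v ∈ A, x v + ∑ z, J w z * x z ∧
  (∀ v, v ∉ H → v ≠ w → lam * x v = ∑ z, J v z * x z)

/-- estimates for the eigenvector -/
def Stmt_EST : Prop := ∀ (r : ℕ) (ε e : ℝ), 3 ≤ r → 0 < ε → 0 < e → ∃ (δ : ℝ) (N0 : ℕ),
  0 < δ ∧ ∀ N ≥ N0, ∀ j : ℕ, Rg r ε N j → ∀ (V : Type) [Fintype V] (G : SimpleGraph V)
    (H : Finset V) (c : V → Fin r) (w : V) (A : Finset V) (J : V → V → ℝ) (x : V → ℝ)
    (lam : ℝ), Fam G H c w A J → PV G x lam → H.card = N → Near r δ N j H A c →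
    ∃ xb : ℝ, Est r e N j x lam c H w A xb

/-- exchange of one neighbour of `w` -/
def Stmt_MV1 : Prop := ∀ (r : ℕ) (V : Type) [Fintype V] (G G' : SimpleGraph V) (H : Finset V)
  (c : V → Fin r) (w : V) (A A' : Finset V) (J : V → V → ℝ) (a b : V) (x y : V → ℝ)
  (lam lam' : ℝ), Fam G H c w A J → Fam G' H c w A' J → PV G x lam → PV G' y lam' →
  0 < lam → 0 < lam' → 0 < x w → 0 < y w → a ∈ A → b ∈ H → b ∉ A →
  (∀ v, v ∈ A' ↔ (v ∈ A ∧ v ≠ a) ∨ v = b) → (∀ z, J a z = J b z) →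
  cs x H c (c b) < cs x H c (c a) → cs y H c (c b) ≤ cs y H c (c a) → lam < lam'

/-- moving one vertex from a larger class to a smaller class -/
def Stmt_MV2 : Prop := ∀ (r : ℕ) (ε : ℝ), 3 ≤ r → 0 < ε → ∃ (e : ℝ) (N0 : ℕ), 0 < e ∧
  ∀ N ≥ N0, ∀ j : ℕ, Rg r ε N j → ∀ (V : Type) [Fintype V] (G G' : SimpleGraph V)
    (H : Finset V) (c c' : V → Fin r) (w : V) (A A' : Finset V) (J : V → V → ℝ)
    (x y : V → ℝ) (lam lam' xb yb : ℝ) (v : V),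
    Fam G H c w A J → Fam G' H c' w A' J → PV G x lam → PV G' y lam' → H.card = N →
    Near r e N j H A c → Est r e N j x lam c H w A xb → Est r e N j y lam' c' H w A' yb →
    v ∈ H → c' v ≠ c v → (∀ u, u ≠ v → c' u = c u) → (∀ z, J v z = 0) →
    (cl H c (c' v)).card + 2 ≤ (cl H c (c v)).card → A' ⊆ A → v ∉ A' →
    A.card + (cl H c (c' v)).card + 1 = A'.card + (cl H c (c v)).card → lam < lam'

/-- type D: the classes are balanced -/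
def Stmt_D1 : Prop := ∀ (r : ℕ) (ε : ℝ), 3 ≤ r → 0 < ε → ∃ (δ : ℝ) (N0 : ℕ), 0 < δ ∧
  ∀ N ≥ N0, ∀ j : ℕ, Rg r ε N j → ∀ (V : Type) [Fintype V] (G : SimpleGraph V)
    (H : Finset V) (c : V → Fin r) (w : V) (A : Finset V) (v1 v2 : V),
    WD G N H c w A v1 v2 → Near r δ N j H A c → MX r G → Bal H c

/-- type D: placement of the neighbours of `w` -/
def Stmt_D2 : Prop := ∀ (r : ℕ) (ε : ℝ), 3 ≤ r → 0 < ε → ∃ (δ : ℝ) (N0 : ℕ), 0 < δ ∧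
  ∀ N ≥ N0, ∀ j : ℕ, Rg r ε N j → ∀ (V : Type) [Fintype V] (G : SimpleGraph V)
    (H : Finset V) (c : V → Fin r) (w : V) (A : Finset V) (v1 v2 : V),
    WD G N H c w A v1 v2 → Near r δ N j H A c → Bal H c → MX r G →
    Place H A c {c v1, c v2}

/-- type D: the classes of the missing edge are the largest ones -/
def Stmt_D3 : Prop := ∀ (r : ℕ) (ε : ℝ), 3 ≤ r → 0 < ε → ∃ (δ : ℝ) (N0 : ℕ), 0 < δ ∧
  ∀ N ≥ N0, ∀ j : ℕ, Rg r ε N j → ∀ (V : Type) [Fintype V] (G : SimpleGraph V)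
    (H : Finset V) (c : V → Fin r) (w : V) (A : Finset V) (v1 v2 : V),
    WD G N H c w A v1 v2 → Near r δ N j H A c → Bal H c → Place H A c {c v1, c v2} → MX r G →
    Top H c {c v1, c v2}

/-- type E: only one vertex of `B` is not adjacent to `w` -/
def Stmt_EB : Prop := ∀ (r : ℕ) (ε : ℝ), 3 ≤ r → 0 < ε → ∃ (δ : ℝ) (N0 : ℕ), 0 < δ ∧
  ∀ N ≥ N0, ∀ j : ℕ, Rg r ε N j → ∀ (V : Type) [Fintype V] (G : SimpleGraph V)
    (H : Finset V) (c : V → Fin r) (w u : V) (A B : Finset V) (i0 : Fin r),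
    WE G N H c w u A B i0 → Near r δ N j H A c → MX r G → OneOut A B

/-- type E: the classes are balanced -/
def Stmt_E1 : Prop := ∀ (r : ℕ) (ε : ℝ), 3 ≤ r → 0 < ε → ∃ (δ : ℝ) (N0 : ℕ), 0 < δ ∧
  ∀ N ≥ N0, ∀ j : ℕ, Rg r ε N j → ∀ (V : Type) [Fintype V] (G : SimpleGraph V)
    (H : Finset V) (c : V → Fin r) (w u : V) (A B : Finset V) (i0 : Fin r),
    WE G N H c w u A B i0 → Near r δ N j H A c → MX r G → Bal H c

/-- type E: placement of the neighbours of `w` -/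
def Stmt_E2 : Prop := ∀ (r : ℕ) (ε : ℝ), 3 ≤ r → 0 < ε → ∃ (δ : ℝ) (N0 : ℕ), 0 < δ ∧
  ∀ N ≥ N0, ∀ j : ℕ, Rg r ε N j → ∀ (V : Type) [Fintype V] (G : SimpleGraph V)
    (H : Finset V) (c : V → Fin r) (w u : V) (A B : Finset V) (i0 : Fin r),
    WE G N H c w u A B i0 → Near r δ N j H A c → OneOut A B → Bal H c → MX r G →
    Place H A c {i0}

/-- type E: the class without neighbours of `w` is a largest one -/
def Stmt_E3 : Prop := ∀ (r : ℕ) (ε : ℝ), 3 ≤ r → 0 < ε → ∃ (δ : ℝ) (N0 : ℕ), 0 < δ ∧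
  ∀ N ≥ N0, ∀ j : ℕ, Rg r ε N j → ∀ (V : Type) [Fintype V] (G : SimpleGraph V)
    (H : Finset V) (c : V → Fin r) (w u : V) (A B : Finset V) (i0 : Fin r),
    WE G N H c w u A B i0 → Near r δ N j H A c → OneOut A B → Bal H c →
    Place H A c {i0} → MX r G → Top H c {i0}

/-- type E: the position of the vertex of `B` outside `A` does not matter -/
def Stmt_TIE : Prop := ∀ (r : ℕ) (ε : ℝ), 3 ≤ r → 0 < ε → ∃ (δ : ℝ) (N0 : ℕ), 0 < δ ∧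
  ∀ N ≥ N0, ∀ j : ℕ, Rg r ε N j → ∀ (V : Type) [Fintype V] (G G' : SimpleGraph V)
    (H : Finset V) (c : V → Fin r) (w u : V) (A B B' : Finset V) (i0 : Fin r),
    WE G N H c w u A B i0 → WE G' N H c w u A B' i0 → OneOut A B → OneOut A B' →
    Near r δ N j H A c → specRad G = specRad G'

/-! ## Part C: uniqueness, existence, lower bounds, thresholds -/

/-- graphs given by labels -/
def Stmt_LAB : Prop := ∀ (L V V' : Type) [Fintype V] [Fintype V'] (R : L → L → Prop)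
  (G : SimpleGraph V) (G' : SimpleGraph V') (K : Finset V) (K' : Finset V') (l : V → L)
  (l' : V' → L), (∀ a b, G.Adj a b ↔ a ∈ K ∧ b ∈ K ∧ a ≠ b ∧ R (l a) (l b)) →
  (∀ a b, G'.Adj a b ↔ a ∈ K' ∧ b ∈ K' ∧ a ≠ b ∧ R (l' a) (l' b)) →
  (∀ s : L, (fib K l s).card = (fib K' l' s).card) → K.Nonempty → specRad G = specRad G'

/-- the canonical parameters are unique up to a permutation of the classes -/
def Stmt_CANP : Prop := ∀ (r : ℕ) (n a n' a' : Fin r → ℕ) (P P' : Finset (Fin r)) (p0 : ℕ),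
  P.card = P'.card → ∑ i, n i = ∑ i, n' i → ∑ i, a i = ∑ i, a' i →
  (∀ i k, n i ≤ n k + 1) → (∀ i k, n' i ≤ n' k + 1) →
  (∀ i k, i ∈ P → k ∉ P → n k ≤ n i) → (∀ i k, i ∈ P' → k ∉ P' → n' k ≤ n' i) →
  (∀ i, i ∈ P → a i = p0) → (∀ i, i ∈ P' → a' i = p0) →
  (∀ i, i ∉ P → 1 ≤ a i ∧ a i ≤ n i) → (∀ i, i ∉ P' → 1 ≤ a' i ∧ a' i ≤ n' i) →
  (∀ i k, i ∉ P → k ∉ P → (n i = n k → a i ≤ a k + 1) ∧ (n i < n k → a i = n i ∨ a k = 1)) →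
  (∀ i k, i ∉ P' → k ∉ P' →
    (n' i = n' k → a' i ≤ a' k + 1) ∧ (n' i < n' k → a' i = n' i ∨ a' k = 1)) →
  ∃ σ : Equiv.Perm (Fin r), ∀ i, (i ∈ P ↔ σ i ∈ P') ∧ n' (σ i) = n i ∧ a' (σ i) = a i

/-- existence of canonical parameters -/
def Stmt_PARX : Prop := ∀ (r p p0 N s : ℕ), 3 ≤ r → p < r → 2 * r ≤ N → r ≤ s + p →
  s + p * (N / r + 1) ≤ N → ∃ (n a : Fin r → ℕ) (P : Finset (Fin r)), P.card = p ∧
  ∑ i, n i = N ∧ ∑ i, a i = s + p * p0 ∧ (∀ i, 2 ≤ n i) ∧ (∀ i k, n i ≤ n k + 1) ∧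
  (∀ i k, i ∈ P → k ∉ P → n k ≤ n i) ∧ (∀ i, i ∈ P → a i = p0) ∧
  (∀ i, i ∉ P → 1 ≤ a i ∧ a i ≤ n i) ∧
  (∀ i k, i ∉ P → k ∉ P → (n i = n k → a i ≤ a k + 1) ∧ (n i < n k → a i = n i ∨ a k = 1))

/-- realising parameters by sets -/
def Stmt_EMB : Prop := ∀ (r N : ℕ) (n a : Fin r → ℕ) (V : Type) [Fintype V], 1 ≤ r →
  ∑ i, n i = N → (∀ i, a i ≤ n i) → N + 2 ≤ Fintype.card V →
  ∃ (H : Finset V) (c : V → Fin r) (w u : V) (A : Finset V), w ≠ u ∧ w ∉ H ∧ u ∉ H ∧ A ⊆ H ∧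
    H.card = N ∧ (∀ i, (cl H c i).card = n i) ∧ ∀ i, (cl A c i).card = a i

/-- existence of type D graphs -/
def Stmt_EXD : Prop := ∀ (r : ℕ) (ε : ℝ), 3 ≤ r → 0 < ε → ∃ N0 : ℕ, ∀ N ≥ N0, ∀ j : ℕ,
  Rg r ε N j → ∀ (V : Type) [Fintype V], N + 2 ≤ Fintype.card V →
  ∃ G : SimpleGraph V, TypeD r N j G

/-- existence of type E graphs -/
def Stmt_EXE : Prop := ∀ (r : ℕ) (ε : ℝ), 3 ≤ r → 0 < ε → ∃ N0 : ℕ, ∀ N ≥ N0, ∀ j : ℕ,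
  Rg r ε N j → ∀ (V : Type) [Fintype V], N + 2 ≤ Fintype.card V →
  ∃ G : SimpleGraph V, TypeE r N j G

/-- all type D graphs have the same spectral radius -/
def Stmt_ISOD : Prop := ∀ (r : ℕ) (ε : ℝ), 3 ≤ r → 0 < ε → ∃ N0 : ℕ, ∀ N ≥ N0, ∀ j : ℕ,
  Rg r ε N j → ∀ (V V' : Type) [Fintype V] [Fintype V'] (G : SimpleGraph V)
    (G' : SimpleGraph V'), TypeD r N j G → TypeD r N j G' → specRad G = specRad G'

/-- all type E graphs have the same spectral radius -/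
def Stmt_ISOE : Prop := ∀ (r : ℕ) (ε : ℝ), 3 ≤ r → 0 < ε → ∃ N0 : ℕ, ∀ N ≥ N0, ∀ j : ℕ,
  Rg r ε N j → ∀ (V V' : Type) [Fintype V] [Fintype V'] (G : SimpleGraph V)
    (G' : SimpleGraph V'), TypeE r N j G → TypeE r N j G' → specRad G = specRad G'

/-- the Turan numbers -/
def Stmt_TN : Prop := ∀ (r : ℕ), 3 ≤ r → ∀ N : ℕ,
  (∀ n : Fin r → ℕ, ∑ i, n i = N → (∀ i k, n i ≤ n k + 1) →
    2 * tn r N + ∑ i, n i ^ 2 = N ^ 2) ∧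
  |2 * (tn r N : ℝ) - al r * N ^ 2| ≤ (r : ℝ) ∧ tn r (N + 1) + N / r = tn r N + N

/-- moving a graph to another vertex set -/
def Stmt_TRANS : Prop := ∀ (V V' : Type) [Fintype V] [Fintype V'] (G : SimpleGraph V),
  Nonempty V → Fintype.card V ≤ Fintype.card V' → ∃ G' : SimpleGraph V',
    specRad G' = specRad G ∧ pE G' = pE G ∧
    ∀ r : ℕ, 1 ≤ r → (G.CliqueFree (r + 1) → G'.CliqueFree (r + 1)) ∧
      (G'.Colorable r → G.Colorable r)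

/-- lower bound for the spectral radius of the type D graphs, unbalanced classes allowed -/
def Stmt_LOWG : Prop := ∀ (r : ℕ) (B : ℝ), 3 ≤ r → 1 ≤ B → ∃ K : ℝ, 1 ≤ K ∧
  ∀ (V : Type) [Fintype V] (G : SimpleGraph V) (N : ℕ) (H : Finset V) (c : V → Fin r) (w : V)
    (A : Finset V) (v1 v2 : V), WD G N H c w A v1 v2 → K ≤ N →
    (∀ i, |sz H c i - N / r| ≤ B * √N) →
    al r * N - al r * imb H c / N + al r * ((A.card : ℝ) / (al r * N)) ^ 2 - K / √N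
      ≤ specRad G

/-- constructions for all numbers of edges -/
def Stmt_LOWX : Prop := ∀ (r : ℕ) (δ : ℝ), 3 ≤ r → 0 < δ → ∃ N0 : ℕ, ∀ N ≥ N0, ∀ j : ℕ,
  (j : ℝ) ≤ al r * N → ∃ G : SimpleGraph (Fin (N + 3)), G.CliqueFree (r + 1) ∧
    ¬ G.Colorable r ∧ pE G = 2 * ((tn r N : ℝ) + j) ∧
    al r * N + j / N - al r * ((1 - j / (al r * N)) * min (j / (al r * N)) (1 - 2 / r)) - δ
      ≤ specRad G

/-- for small `j` type D is not optimal -/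
def Stmt_THRE : Prop := ∀ (r : ℕ) (ε : ℝ), 3 ≤ r → 0 < ε → ∃ N0 : ℕ, ∀ N ≥ N0, ∀ j : ℕ,
  Rg r ε N j → ((r : ℝ) + 1) * (j / (al r * N)) ≤ 1 - ε → ∀ (V : Type) [Fintype V]
    (G : SimpleGraph V), N + 2 ≤ Fintype.card V → TypeD r N j G → ¬ MX r G

/-- for large `j` type E is not optimal -/
def Stmt_THRD : Prop := ∀ (r : ℕ) (ε : ℝ), 3 ≤ r → 0 < ε → ∃ N0 : ℕ, ∀ N ≥ N0, ∀ j : ℕ,
  Rg r ε N j →
  1 + (j / (al r * N)) ^ 4 / (r * ((r : ℝ) - 1)) + ε ≤ ((r : ℝ) + 1) * (j / (al r * N)) →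
  ∀ (V : Type) [Fintype V] (G : SimpleGraph V), TypeE r N j G → ¬ MX r G

end Pool.Agent.Work.MP_5532fa_up
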