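import Pool.Agent.Work.MP_5532fa_up.Defs2

/-!
# MP_5532fa_co, upgrade, second round: statements of the blocks
-/

open Finset

namespace Pool.Agent.Work.MP_5532fa_up

open MP5532fa (specRad qf pE)

/-- the optimisation for all `x`: only two kinds of almost optimal configurations -/
def Stmt_OPT3 : Prop := ∀ (κ κ' η' ε ε2 : ℝ), 0 < κ → κ < κ' → κ' ≤ 1 → 0 < η' → η' ≤ 1 / 2 →
  0 < ε → 0 < ε2 →
  ∃ δ : ℝ, 0 < δ ∧ ∀ (ι : Type) (s : Finset ι) (X : ι → ℝ) (e sg mu x : ℝ) (k : ℤ),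
  (∀ v ∈ s, 0 ≤ X v ∧ X v ≤ 1 - η') → 0 ≤ e → 0 ≤ sg → 0 ≤ mu → ε ≤ x → x ≤ 1 →
  |∑ v ∈ s, X v + e - sg - mu - k - x| ≤ δ →
  ∑ v ∈ s, X v * (1 - X v) + e + κ * sg + κ' * mu ≤ (1 - x) * min x κ + δ →
  (k = 0 ∧ x ≤ κ + ε2 ∧ ∃ w ∈ s, |X w - x| ≤ ε2 ∧ ∑ v ∈ s, X v - X w + e + sg + mu ≤ ε2) ∨
  (k = -1 ∧ κ - ε2 ≤ x ∧ ∑ v ∈ s, X v + e + mu ≤ ε2)

/-- the fine data of the graphs with large spectral radius, for all numbers of edges -/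
def Stmt_FIN3 : Prop := ∀ (r : ℕ) (δ : ℝ), 3 ≤ r → 0 < δ → ∃ ε : ℝ, 0 < ε ∧ ∀ δ' : ℝ, 0 < δ' →
  ∃ (δ1 : ℝ) (N0 : ℕ), 0 < δ1 ∧ ∀ N ≥ N0, ∀ j : ℕ, (j : ℝ) ≤ al r * N →
  ∀ (V : Type) [Fintype V] (G : SimpleGraph V) (x : V → ℝ) (lam : ℝ),
    G.CliqueFree (r + 1) → PV G x lam → |pE G - al r * N ^ 2 - 2 * j| ≤ (r : ℝ) →
    al r * N + j / N - al r * ((1 - j / (al r * N)) * min (j / (al r * N)) (1 - 2 / r)) - δ1
      ≤ lam →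
    (∃ (c : V → Fin r) (H : Finset V), C0 r δ N G c H ∧ (∀ i, |sz H c i - N / r| ≤ 2 * √N) ∧
      (j : ℝ) ≤ δ * N) ∨
    (∃ (c : V → Fin r) (H : Finset V), C0 r δ (N + 1) G c H ∧
      (∀ i, |sz H c i - (N + 1) / r| ≤ 2 * √(N + 1)) ∧
      (1 - 2 / r - δ) * (al r * N) ≤ j) ∨
    (RgA r ε N j ∧ ∃ (c : V → Fin r) (H : Finset V) (w : V), FD r δ' N j G x lam c H w ∧
      ∀ i, |sz H c i - N / r| ≤ 2 * √N)

/-- B1U for the larger range -/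
def Stmt_B1U2 : Prop := ∀ (r : ℕ) (ε : ℝ), 3 ≤ r → 0 < ε → ∃ (δ : ℝ) (N0 : ℕ), 0 < δ ∧
  ∀ N ≥ N0, ∀ j : ℕ, RgA r ε N j → ∀ (V : Type) [Fintype V] (G : SimpleGraph V) (x : V → ℝ)
    (lam : ℝ) (c : V → Fin r) (H : Finset V) (w : V), FD r δ N j G x lam c H w →
    G.CliqueFree (r + 1) → MX r G → (∀ i, (cl (nb G H w) c i).Nonempty) →
    ∃ v1 v2 : V, WD G N H c w (nb G H w) v1 v2

/-- B1C for the larger range -/
def Stmt_B1C2 : Prop := ∀ (r : ℕ) (ε : ℝ), 3 ≤ r → 0 < ε → ∃ (δ : ℝ) (N0 : ℕ), 0 < δ ∧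
  ∀ N ≥ N0, ∀ j : ℕ, RgA r ε N j → ∀ (V : Type) [Fintype V] (G : SimpleGraph V) (x : V → ℝ)
    (lam : ℝ) (c : V → Fin r) (H : Finset V) (w : V) (i0 : Fin r),
    FD r δ N j G x lam c H w → G.CliqueFree (r + 1) → ¬ G.Colorable r → MX r G →
    cl (nb G H w) c i0 = ∅ →
    ∃ (u : V) (B : Finset V) (i1 : Fin r), WE G N H c w u (nb G H w) B i1

/-- the eigenvector of a graph close to a complete multipartite graph is almost constant -/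
def Stmt_EST1 : Prop := ∀ (r : ℕ) (e : ℝ), 3 ≤ r → 0 < e → ∃ (δ : ℝ) (N0 : ℕ), 0 < δ ∧
  δ ≤ e ∧ ∀ N ≥ N0, ∀ (V : Type) [Fintype V] (G : SimpleGraph V) (x : V → ℝ) (lam : ℝ)
    (c : V → Fin r) (H : Finset V), C0 r δ N G c H → PV G x lam →
    ∃ xb : ℝ, Fl r e N H x lam xb

/-- finer estimates for the eigenvector -/
def Stmt_FLAT : Prop := ∀ (r : ℕ), 3 ≤ r → ∃ K : ℝ, 1 ≤ K ∧ ∀ e : ℝ, 0 < e →
  ∃ (δ : ℝ) (N0 : ℕ), 0 < δ ∧ δ ≤ e ∧ ∀ N ≥ N0, ∀ (V : Type) [Fintype V] (G : SimpleGraph V)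
    (x : V → ℝ) (lam : ℝ) (c : V → Fin r) (H : Finset V), C0 r δ N G c H → PV G x lam →
    ∃ xb : ℝ, Fl r e N H x lam xb ∧
      (∀ i k, |cs x H c i - cs x H c k - al r * (sz H c i - sz H c k) * xb|
        ≤ e * xb * (|sz H c i - sz H c k| + 1)) ∧
      (∀ u ∈ H, ∀ v ∈ H, |x u - x v|
        ≤ K / N * xb * (|sz H c (c u) - sz H c (c v)| + mis G H c + 1))

/-- a comparison graph on the same set `H` has the same kind of data -/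
def Stmt_TRF : Prop := ∀ (r : ℕ) (δ : ℝ) (N : ℕ) (V : Type) [Fintype V]
  (G G' : SimpleGraph V) (c : V → Fin r) (H : Finset V), C0 r δ N G c H →
  (∀ u ∈ H, ∀ v ∈ H, c u = c v → ¬ G'.Adj u v) → pE G' = pE G →
  mis G' H c ≤ mis G H c → C0 r (2 * δ) N G' c H

/-- comparison of two graphs on the same set `H` -/
def Stmt_CORE : Prop := ∀ (r : ℕ), 3 ≤ r → ∀ (V : Type) [Fintype V] (G G' : SimpleGraph V)
  (c : V → Fin r) (H : Finset V) (w : V) (x y : V → ℝ) (lam lam' xb yb e : ℝ) (N : ℕ),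
  0 ≤ e → e ≤ 1 / 10 → 1 ≤ N → C0 r e N G c H →
  (∀ u ∈ H, ∀ v ∈ H, c u = c v → ¬ G'.Adj u v) → w ∉ H →
  PV G x lam → PV G' y lam' → Fl r e N H x lam xb → Fl r e N H y lam' yb → lam' ≤ lam →
  lam * (mH G H c x y - mH G' H c x y) + xb * yb *
    (∑ v ∈ out H, (dg G' H v : ℝ) ^ 2 - ∑ v ∈ out H, (dg G H v : ℝ) ^ 2
      - 30 * e * ((((df (nb G' H w) (nb G H w)).card : ℝ) + (df (nb G H w) (nb G' H w)).card)
          * ((dg G' H w : ℝ) + dg G H w)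
        + (∑ v ∈ out H, (dg G' H v : ℝ) ^ 2 - (dg G' H w : ℝ) ^ 2)
        + (∑ v ∈ out H, (dg G H v : ℝ) ^ 2 - (dg G H w : ℝ) ^ 2)
        + (∑ v ∈ out H, (dg G H v : ℝ) - dg G H w + eu G H / 2))) ≤ 0

/-- facts on the graphs `WF` -/
def Stmt_GF : Prop := ∀ (r : ℕ), 3 ≤ r → ∀ (V : Type) [Fintype V] (G : SimpleGraph V) (N : ℕ)
  (H : Finset V) (c : V → Fin r) (w : V) (T : Finset V), WF G N H c w T →
  G.CliqueFree (r + 1) ∧ ((∀ i, mis G H c < (cl H c i).card) → ¬ G.Colorable r) ∧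
  pE G = (N : ℝ) ^ 2 - ∑ i, sz H c i ^ 2 - mis G H c + 2 * r

/-- combinatorics without missing pairs -/
def Stmt_CMB0 : Prop := ∀ (r : ℕ), 3 ≤ r → ∀ (V : Type) [Fintype V] (G : SimpleGraph V)
  (c : V → Fin r) (H : Finset V), G.CliqueFree (r + 1) → ¬ G.Colorable r →
  (∀ u ∈ H, ∀ v ∈ H, c u = c v → ¬ G.Adj u v) → mis G H c = 0 →
  ∃ (w : V) (i0 : Fin r) (Q : ℕ), w ∉ H ∧ (∀ v, v ∉ H → dg G H v ≤ dg G H w) ∧
    cl (nb G H w) c i0 = ∅ ∧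
    2 * ∑ v ∈ out H, dg G H v + eu G H = 2 * dg G H w + 2 * Q ∧
    ((∃ (u : V) (B : Finset V) (i1 : Fin r), WE G H.card H c w u (nb G H w) B i1) ∨
      (r + 1 ≤ Q ∧ 2 * r ≤ dg G H w + Q + 1 ∧
        ∑ v ∈ out H, dg G H v + 1 ≤ dg G H w + Q ∧ ∃ u : V, u ∉ H ∧ u ≠ w))

/-- choice of the neighbourhoods of the vertices `w`, `u` of a graph `WE` -/
def Stmt_SETS : Prop := ∀ (r : ℕ), 3 ≤ r → ∀ (V : Type) [Fintype V] (H A : Finset V)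
  (c : V → Fin r) (i0 : Fin r) (T : ℕ), A ⊆ H → cl A c i0 = ∅ →
  (∀ i, 2 ≤ (cl H c i).card) → r ≤ T + 1 → T + (cl H c i0).card + 1 ≤ H.card →
  A.card + (cl H c i0).card < H.card →
  ∃ A' B : Finset V, A' ⊆ H ∧ B ⊆ H ∧ cl A' c i0 = ∅ ∧ cl B c i0 = ∅ ∧
    (∀ i, i ≠ i0 → (cl A' c i).Nonempty) ∧ (∀ i, i ≠ i0 → (cl B c i).card = 1) ∧ ¬ B ⊆ A' ∧
    A'.card = T ∧ (df A' A).card + (df A A').card ≤ (T - A.card) + (A.card - T) + 2 * r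

/-- no missing pairs: the graph is of the type `WE` -/
def Stmt_SM0 : Prop := ∀ (r : ℕ), 3 ≤ r → ∃ (δ : ℝ) (N0 : ℕ), 0 < δ ∧ ∀ N ≥ N0,
  ∀ (V : Type) [Fintype V] (G : SimpleGraph V) (c : V → Fin r) (H : Finset V),
    C0 r δ N G c H → G.CliqueFree (r + 1) → ¬ G.Colorable r → MX r G → mis G H c = 0 →
    ∃ (w u : V) (A B : Finset V) (i0 : Fin r), WE G N H c w u A B i0

/-- missing pairs, many outside edges, `w` has no neighbour in one class -/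
def Stmt_SM1a : Prop := ∀ (r : ℕ), 3 ≤ r → ∃ (δ : ℝ) (N0 : ℕ), 0 < δ ∧ ∀ N ≥ N0,
  ∀ (V : Type) [Fintype V] (G : SimpleGraph V) (c : V → Fin r) (H : Finset V) (w : V)
    (i0 : Fin r), C0 r δ N G c H → G.CliqueFree (r + 1) → ¬ G.Colorable r → MX r G →
    0 < mis G H c → 4 * r + mis G H c ≤ 2 * ∑ v ∈ out H, dg G H v + eu G H + 2 →
    w ∉ H → (∀ v, v ∉ H → dg G H v ≤ dg G H w) → cl (nb G H w) c i0 = ∅ → False

/-- `w` has neighbours in all classes -/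
def Stmt_SM1b : Prop := ∀ (r : ℕ), 3 ≤ r → ∃ (δ : ℝ) (N0 : ℕ), 0 < δ ∧ ∀ N ≥ N0,
  ∀ (V : Type) [Fintype V] (G : SimpleGraph V) (c : V → Fin r) (H : Finset V) (w : V),
    C0 r δ N G c H → G.CliqueFree (r + 1) → MX r G →
    2 * r + mis G H c ≤ 2 * ∑ v ∈ out H, dg G H v + eu G H + 2 →
    w ∉ H → (∀ v, v ∉ H → dg G H v ≤ dg G H w) → (∀ i, (cl (nb G H w) c i).Nonempty) →
    ∃ v1 v2 : V, WD G N H c w (nb G H w) v1 v2

/-- missing pairs, an intermediate number of outside edges, `w` has no neighbour in one class -/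
def Stmt_SM1c : Prop := ∀ (r : ℕ), 3 ≤ r → ∃ (δ : ℝ) (N0 : ℕ), 0 < δ ∧ ∀ N ≥ N0,
  ∀ (V : Type) [Fintype V] (G : SimpleGraph V) (c : V → Fin r) (H : Finset V) (w : V)
    (i0 : Fin r), C0 r δ N G c H → G.CliqueFree (r + 1) → ¬ G.Colorable r → MX r G →
    0 < mis G H c → 2 * r + mis G H c ≤ 2 * ∑ v ∈ out H, dg G H v + eu G H + 2 →
    2 * ∑ v ∈ out H, dg G H v + eu G H + 2 < 4 * r + mis G H c →
    w ∉ H → (∀ v, v ∉ H → dg G H v ≤ dg G H w) → cl (nb G H w) c i0 = ∅ → False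

/-- few outside edges -/
def Stmt_SM2 : Prop := ∀ (r : ℕ), 3 ≤ r → ∃ (δ : ℝ) (N0 : ℕ), 0 < δ ∧ ∀ N ≥ N0,
  ∀ (V : Type) [Fintype V] (G : SimpleGraph V) (c : V → Fin r) (H : Finset V),
    C0 r δ N G c H → G.CliqueFree (r + 1) → ¬ G.Colorable r → MX r G →
    2 * ∑ v ∈ out H, dg G H v + eu G H + 2 < 2 * r + mis G H c →
    ∃ (w : V) (T : Finset V), WF G N H c w T

/-- the Turan number is the maximum -/
def Stmt_TNB : Prop := ∀ (r N : ℕ) (n : Fin r → ℕ), 3 ≤ r → ∑ i, n i = N →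
  N ^ 2 ≤ 2 * tn r N + ∑ i, n i ^ 2

/-- small `j`: no missing pairs and balanced classes -/
def Stmt_S1 : Prop := ∀ (r : ℕ), 3 ≤ r → ∃ (δ : ℝ) (N0 : ℕ), 0 < δ ∧ ∀ N ≥ N0, ∀ j : ℕ,
  2 * r ≤ j + 1 → ∀ (V : Type) [Fintype V] (G : SimpleGraph V) (c : V → Fin r)
    (H : Finset V), N + 2 ≤ Fintype.card V → C0 r δ N G c H → G.CliqueFree (r + 1) →
    MX r G → pE G = 2 * ((tn r N : ℝ) + j) → mis G H c = 0 ∧ Bal H c

/-! ## versions of the first round without a lower bound for `j` -/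

def Stmt_ESTU : Prop := ∀ (r : ℕ) (e : ℝ), 3 ≤ r → 0 < e → ∃ (δ : ℝ) (N0 : ℕ),
  0 < δ ∧ ∀ N ≥ N0, ∀ j : ℕ, (j : ℝ) ≤ al r * N → ∀ (V : Type) [Fintype V] (G : SimpleGraph V)
    (H : Finset V) (c : V → Fin r) (w : V) (A : Finset V) (J : V → V → ℝ) (x : V → ℝ)
    (lam : ℝ), Fam G H c w A J → PV G x lam → H.card = N → Near r δ N j H A c →
    ∃ xb : ℝ, Est r e N j x lam c H w A xb

def Stmt_EBU : Prop := ∀ (r : ℕ) (ε : ℝ), 3 ≤ r → 0 < ε → ∃ (δ : ℝ) (N0 : ℕ), 0 < δ ∧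
  ∀ N ≥ N0, ∀ j : ℕ, RgU r ε N j → ∀ (V : Type) [Fintype V] (G : SimpleGraph V)
    (H : Finset V) (c : V → Fin r) (w u : V) (A B : Finset V) (i0 : Fin r),
    WE G N H c w u A B i0 → Near r δ N j H A c → MX r G → OneOut A B

def Stmt_E2U : Prop := ∀ (r : ℕ) (ε : ℝ), 3 ≤ r → 0 < ε → ∃ (δ : ℝ) (N0 : ℕ), 0 < δ ∧
  ∀ N ≥ N0, ∀ j : ℕ, RgU r ε N j → ∀ (V : Type) [Fintype V] (G : SimpleGraph V)
    (H : Finset V) (c : V → Fin r) (w u : V) (A B : Finset V) (i0 : Fin r),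
    WE G N H c w u A B i0 → Near r δ N j H A c → OneOut A B → Bal H c → MX r G →
    Place H A c {i0}

def Stmt_E3U : Prop := ∀ (r : ℕ) (ε : ℝ), 3 ≤ r → 0 < ε → ∃ (δ : ℝ) (N0 : ℕ), 0 < δ ∧
  ∀ N ≥ N0, ∀ j : ℕ, RgU r ε N j → ∀ (V : Type) [Fintype V] (G : SimpleGraph V)
    (H : Finset V) (c : V → Fin r) (w u : V) (A B : Finset V) (i0 : Fin r),
    WE G N H c w u A B i0 → Near r δ N j H A c → OneOut A B → Bal H c →
    Place H A c {i0} → MX r G → Top H c {i0}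

def Stmt_TIEU : Prop := ∀ (r : ℕ) (ε : ℝ), 3 ≤ r → 0 < ε → ∃ (δ : ℝ) (N0 : ℕ), 0 < δ ∧
  ∀ N ≥ N0, ∀ j : ℕ, RgU r ε N j → ∀ (V : Type) [Fintype V] (G G' : SimpleGraph V)
    (H : Finset V) (c : V → Fin r) (w u : V) (A B B' : Finset V) (i0 : Fin r),
    WE G N H c w u A B i0 → WE G' N H c w u A B' i0 → OneOut A B → OneOut A B' →
    Near r δ N j H A c → specRad G = specRad G'

def Stmt_EXU : Prop := ∀ (r : ℕ) (ε : ℝ), 3 ≤ r → 0 < ε → ∃ N0 : ℕ, ∀ N ≥ N0, ∀ j : ℕ,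
  RgU r ε N j → 2 * r ≤ j + 1 → ∀ (V : Type) [Fintype V], N + 2 ≤ Fintype.card V →
  (∃ G : SimpleGraph V, TypeD r N j G) ∧ ∃ G : SimpleGraph V, TypeE r N j G

def Stmt_ISOEU : Prop := ∀ (r : ℕ) (ε : ℝ), 3 ≤ r → 0 < ε → ∃ N0 : ℕ, ∀ N ≥ N0, ∀ j : ℕ,
  RgU r ε N j → ∀ (V V' : Type) [Fintype V] [Fintype V'] (G : SimpleGraph V)
    (G' : SimpleGraph V'), TypeE r N j G → TypeE r N j G' → specRad G = specRad G'

/-- moving a graph to another vertex set, with a bound for the non-isolated vertices -/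
def Stmt_TRANS2 : Prop := ∀ (V V' : Type) [Fintype V] [Fintype V'] (G : SimpleGraph V),
  Nonempty V → Fintype.card V ≤ Fintype.card V' → ∃ G' : SimpleGraph V',
    specRad G' = specRad G ∧ pE G' = pE G ∧
    (∀ S : Finset V', (∀ v ∈ S, ∃ u, G'.Adj v u) → S.card ≤ Fintype.card V) ∧
    ∀ r : ℕ, 1 ≤ r → (G.CliqueFree (r + 1) → G'.CliqueFree (r + 1)) ∧
      (G'.Colorable r → G.Colorable r)

end Pool.Agent.Work.MP_5532fa_up
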