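import Pool.Agent.Work.MP_5532fa_up.Interface2

/-!
# MP_5532fa_co, upgrade, third round: the missing pairs form a star
-/

open Finset

namespace Pool.Agent.Work.MP_5532fa_up

open MP5532fa (specRad qf pE)

/-- missing pair -/
def FM {V : Type} {r : ℕ} (G : SimpleGraph V) (H : Finset V) (c : V → Fin r) (a b : V) : Prop :=
  a ∈ H ∧ b ∈ H ∧ c a ≠ c b ∧ ¬ G.Adj a b

/-- graphs (given by a symmetric relation) with two disjoint edges have a small sum of squares of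
the degrees; without two disjoint edges they are stars or triangles -/
def Stmt_GAPF : Prop := ∀ (V : Type) [Fintype V] [Nonempty V] (F : V → V → Prop),
  (∀ a b, F a b → F b a) → (∀ a, ¬ F a a) →
  (∃ p, ∀ a b, F a b → a = p ∨ b = p) ∨
  (12 * ∑ v, (∑ b, chi (F v b)) ^ 2 ≤ 3 * (∑ v, ∑ b, chi (F v b)) ^ 2
    + 4 * ∑ v, ∑ b, chi (F v b)) ∨
  (∃ p q s, p ≠ q ∧ p ≠ s ∧ q ≠ s ∧
    ∀ a b, F a b ↔ a ≠ b ∧ (a = p ∨ a = q ∨ a = s) ∧ (b = p ∨ b = q ∨ b = s))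

/-- weighted version of the bound for the sum of squares of the degrees -/
def Stmt_STC : Prop := ∀ (r : ℕ) (V : Type) [Fintype V] (F : V → V → Prop) (c : V → Fin r)
  (β : Fin r → ℝ) (i1 i2 : Fin r) (e s E : ℝ), 0 ≤ e → e ≤ 1 / 10 →
  (∀ a b, F a b → F b a) → (∀ a b, F a b → c a ≠ c b) → (∀ i, |β i - 1| ≤ e) →
  i1 ≠ i2 → β i1 ≤ β i2 → (∀ i, i ≠ i1 → β i2 ≤ β i) →
  s = ∑ a, ∑ b, chi (F a b) →
  E = ∑ a, ∑ b, chi (F a b) * (β (c a) + β (c b) - β i1 - β i2) →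
  0 ≤ E ∧ s * (β i1 * β i2) + (1 - e) * E ≤ ∑ a, ∑ b, chi (F a b) * (β (c a) * β (c b)) ∧
  ∑ v, (∑ b, chi (F v b) * β (c b)) ^ 2
    ≤ (∑ v, (∑ b, chi (F v b)) ^ 2 - s) * β i2 ^ 2 + s / 2 * (β i1 ^ 2 + β i2 ^ 2)
      + (3 * s + 2) * E

/-- second order comparison of two systems of missing pairs -/
def Stmt_STA : Prop := ∀ (r : ℕ), 3 ≤ r → ∃ C : ℝ, 1 ≤ C ∧ ∀ (V : Type) [Fintype V]
  (G G' : SimpleGraph V) (c : V → Fin r) (H : Finset V) (w : V) (T : Finset V) (x : V → ℝ)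
  (lam xb e : ℝ) (N : ℕ) (β : Fin r → ℝ), 0 ≤ e → e ≤ 1 / 10 → 1 ≤ N → WF G N H c w T →
  1 ≤ mis G H c → (∀ a b, (a ∉ H ∨ b ∉ H) → (G'.Adj a b ↔ G.Adj a b)) →
  (∀ u ∈ H, ∀ v ∈ H, c u = c v → ¬ G'.Adj u v) → mis G' H c = mis G H c →
  PV G x lam → Fl r e N H x lam xb → specRad G' ≤ lam →
  (∀ i, β i = (∑ v ∈ H, x v - cs x H c i) / lam) →
  ∑ a, ∑ b, chi (FM G H c a b) * (β (c a) * β (c b))
    - ∑ a, ∑ b, chi (FM G' H c a b) * (β (c a) * β (c b))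
    + (∑ v, (∑ b, chi (FM G' H c v b) * β (c b)) ^ 2
        - ∑ v, (∑ b, chi (FM G H c v b) * β (c b)) ^ 2) / lam
    ≤ C * (mis G H c) ^ 2 * xb ^ 2 / N ^ 2

/-- two classes of the same size -/
def Stmt_EQS : Prop := ∀ (r : ℕ), 3 ≤ r → ∃ (δ : ℝ) (N0 : ℕ), 0 < δ ∧ ∀ N ≥ N0,
  ∀ (V : Type) [Fintype V] (G : SimpleGraph V) (c : V → Fin r) (H : Finset V) (w : V)
    (T : Finset V) (k l : Fin r), C0 r δ N G c H → WF G N H c w T → MX r G →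
    4 ≤ mis G H c → k ≠ l → (cl H c k).card = (cl H c l).card → False

/-- the missing pairs form a star -/
def Stmt_STAR : Prop := ∀ (r : ℕ), 3 ≤ r → ∃ (δ : ℝ) (N0 : ℕ), 0 < δ ∧ ∀ N ≥ N0,
  ∀ (V : Type) [Fintype V] (G : SimpleGraph V) (c : V → Fin r) (H : Finset V) (w : V)
    (T : Finset V), C0 r δ N G c H → WF G N H c w T → MX r G → 4 ≤ mis G H c →
    ∃ p ∈ T, ∀ a b, FM G H c a b → a = p ∨ b = p

/-- a star of missing pairs gives a graph of the type `WE` -/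
def Stmt_FWE : Prop := ∀ (r : ℕ), 3 ≤ r → ∀ (V : Type) [Fintype V] [DecidableEq V]
  (G : SimpleGraph V) (N : ℕ) (c : V → Fin r) (H : Finset V) (w p : V) (T : Finset V),
  WF G (N + 1) H c w T → (∀ i, mis G H c < (cl H c i).card) → p ∈ T →
  (∀ a b, FM G H c a b → a = p ∨ b = p) →
  ∃ A B : Finset V, WE G N (H.erase p) c p w A B (c p)

end Pool.Agent.Work.MP_5532fa_up
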