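import Pool.Agent.Work.MP_5532fa_up.Str2

/-!
# MP_5532fa_co, upgrade, fourth round: gadgets over complete multipartite graphs
-/

open Finset

namespace Pool.Agent.Work.MP_5532fa_up

open MP5532fa (specRad qf pE)

/-! ## definitions -/

/-- moments of the deviations from the mean `n / r` -/
noncomputable def mo {r : ℕ} (k n : ℕ) (y : Fin r → ℝ) : ℝ := ∑ i, (y i - n / r) ^ k

/-- a vector of natural numbers as a real vector -/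
def re {r : ℕ} (y : Fin r → ℕ) : Fin r → ℝ := fun i => (y i : ℝ)

/-- the secular function of a complete multipartite graph -/
noncomputable def Ph {r : ℕ} (y : Fin r → ℝ) (lam : ℝ) : ℝ := ∑ i, y i / (lam + y i) - 1

/-- the entry `y i1` is at least as large as every entry of every integer vector with the same sum
and at most the same sum of squares -/
def Top1 {r : ℕ} (y : Fin r → ℕ) (i1 : Fin r) : Prop :=
  ∀ z : Fin r → ℤ, ∑ i, z i = ∑ i, (y i : ℤ) → ∑ i, z i ^ 2 ≤ ∑ i, (y i : ℤ) ^ 2 →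
    ∀ i, z i ≤ y i1

/-- no vector of class sizes beats `y` too much in the higher moments -/
def Good (r : ℕ) (η C : ℝ) (n : ℕ) (y : Fin r → ℕ) : Prop :=
  ∀ z : Fin r → ℕ, ∑ i, z i = n → mo 2 n (re z) ≤ 4 * r * n →
    mo 3 n (re z) + (mo 4 n (re y) - mo 4 n (re z)) / n
      ≤ mo 3 n (re y) + η * n + C * √(n : ℝ) * |mo 2 n (re z) - mo 2 n (re y)|
        + (2 - 4 * η) * n * chi (mo 2 n (re y) < mo 2 n (re z))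

/-! ## number theory -/

/-- numbers `3 mod 8` are sums of three squares -/
def Stmt_TSQ : Prop := ∀ n : ℕ, n % 8 = 3 → ∃ a b c : ℕ, n = a ^ 2 + b ^ 2 + c ^ 2

/-- first part: the auxiliary prime -/
def Stmt_TSA : Prop := ∀ n : ℕ, Squarefree n → n % 8 = 3 → ∃ (q : ℕ) (b h t : ℤ), q.Prime ∧
  q % 4 = 1 ∧ Nat.Coprime q n ∧ b ^ 2 - 4 * q * h = -n ∧ (n : ℤ) ∣ 2 * q * t ^ 2 + 1

/-- second part: geometry of numbers -/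
def Stmt_TSB : Prop := ∀ (n q : ℕ) (b h t : ℤ), 0 < n → 0 < q → b ^ 2 - 4 * q * h = -n →
  ∃ x y z : ℤ, ¬ (x = 0 ∧ y = 0 ∧ z = 0) ∧
    (2 * t * q * x + t * b * y + n * z) ^ 2 + 2 * (q * x ^ 2 + b * x * y + h * y ^ 2) < 2 * n

/-- third part: the number `2 v` is a sum of two squares -/
def Stmt_TSC : Prop := ∀ (n q : ℕ) (b h t x y R : ℤ) (v : ℕ), Squarefree n → n % 8 = 3 →
  q.Prime → q % 4 = 1 → Nat.Coprime q n → b ^ 2 - 4 * q * h = -n →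
  (n : ℤ) ∣ 2 * q * t ^ 2 + 1 → (v : ℤ) = q * x ^ 2 + b * x * y + h * y ^ 2 →
  (n : ℤ) = R ^ 2 + 2 * v → ∃ a c : ℕ, 2 * v = a ^ 2 + c ^ 2

/-- vectors of length at least five with given sum and sum of squares -/
def Stmt_REPL : Prop := ∀ (l : ℕ), 5 ≤ l → ∀ (M S : ℤ),
  (∃ y : Fin l → ℤ, ∑ i, y i = M ∧ ∑ i, y i ^ 2 ≤ S) → Even (S - M) →
  ∃ y : Fin l → ℤ, ∑ i, y i = M ∧ ∑ i, y i ^ 2 = S

/-- in addition the largest entry is as large as possible -/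
def Stmt_REP : Prop := ∀ (r : ℕ), 6 ≤ r → ∀ (M S : ℤ),
  (∃ y : Fin r → ℤ, ∑ i, y i = M ∧ ∑ i, y i ^ 2 ≤ S) → Even (S - M) →
  ∃ (y : Fin r → ℤ) (i1 : Fin r), ∑ i, y i = M ∧ ∑ i, y i ^ 2 = S ∧
    ∀ z : Fin r → ℤ, ∑ i, z i = M → ∑ i, z i ^ 2 ≤ S → ∀ i, z i ≤ y i1

/-! ## inequalities for moments -/

/-- third and fourth moments of a vector with sum zero -/
def Stmt_CU1 : Prop := ∀ (r : ℕ), 3 ≤ r → ∀ (d : Fin r → ℝ) (R : ℝ), ∑ i, d i = 0 →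
  ∑ i, d i ^ 2 = R →
  (∀ i, d i ^ 2 * (r / (r - 1)) ≤ R) ∧
  (∀ i (σ : ℝ), 0 ≤ σ → σ ^ 2 = R - d i ^ 2 * (r / (r - 1)) →
    |∑ k, d k ^ 3 - (d i ^ 3 * (r * (r + 1) / (r - 1) ^ 2) - 3 * d i * R / (r - 1))| ≤ σ ^ 3 ∧
    ∑ k, d k ^ 4 ≤ d i ^ 4 * (1 + 1 / (r - 1) ^ 3) + 6 * d i ^ 2 * σ ^ 2 / (r - 1) ^ 2
      + 4 * |d i| * σ ^ 3 / (r - 1) + σ ^ 4) ∧
  (∀ i, d i ^ 4 * (1 + 1 / ((r : ℝ) - 1) ^ 3) ≤ ∑ k, d k ^ 4) ∧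
  (∀ D : ℝ, 0 < D → (∀ i, d i ≤ D) → ∑ k, d k ^ 3 ≤ D * R - R ^ 2 / (r * D)) ∧
  |∑ k, d k ^ 3| ≤ R * √R ∧ ∑ k, d k ^ 4 ≤ R ^ 2

/-- comparison of the higher moments with those of an almost extremal vector -/
def Stmt_CUB : Prop := ∀ (r : ℕ) (ρ η : ℝ), 3 ≤ r → 0 < ρ → 0 < η → ∃ (C : ℝ) (n0 : ℕ), 0 < C ∧
  ∀ n : ℕ, n0 ≤ n → ∀ (d d' : Fin r → ℝ) (R R' k : ℝ) (i1 : Fin r),
  ∑ i, d i = 0 → ∑ i, d' i = 0 → ∑ i, d i ^ 2 = R → ∑ i, d' i ^ 2 = R' → R ≤ ρ * n →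
  R' ≤ ρ * n → -1 ≤ k → k ≤ 1 → (k < 1 → ∀ i, d i ≤ d' i1 + k) →
  -1 ≤ d' i1 → R' ≤ (d' i1 + 1) ^ 2 * (r / (r - 1)) + r →
  ∑ i, d i ^ 3 + (∑ i, d' i ^ 4 - ∑ i, d i ^ 4) / n
    ≤ ∑ i, d' i ^ 3 + 3 * k * (r / (r - 1)) * R' + η * n + C * √(n : ℝ) * |R - R'|

/-- an entry which is as large as possible is almost the largest possible real number -/
def Stmt_TNR : Prop := ∀ (r : ℕ), 3 ≤ r → ∀ (n : ℕ) (y : Fin r → ℕ) (i1 : Fin r),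
  ∑ i, y i = n → Top1 y i1 → 0 ≤ (y i1 : ℝ) - n / r ∧
    mo 2 n (re y) ≤ ((y i1 : ℝ) - n / r + 1) ^ 2 * (r / (r - 1)) + r

/-- vectors with the largest possible entry are good -/
def Stmt_GDT : Prop := ∀ (r : ℕ) (ε η : ℝ), 3 ≤ r → 0 < ε → 0 < η → η ≤ ε / 2 →
  ∃ (C : ℝ) (n0 : ℕ), 0 < C ∧ ∀ n ≥ n0, ∀ (y : Fin r → ℕ) (i1 : Fin r), ∑ i, y i = n →
    mo 2 n (re y) ≤ (2 / 3 * al r - ε) * n → Top1 y i1 → Good r η C n y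

/-- almost balanced vectors are good -/
def Stmt_GDS : Prop := ∀ (r : ℕ) (η : ℝ), 3 ≤ r → 0 < η → η ≤ 1 / 4 →
  ∃ (c C : ℝ) (n0 : ℕ), 0 < c ∧ 0 < C ∧ ∀ n ≥ n0, ∀ (y : Fin r → ℕ), ∑ i, y i = n →
    mo 2 n (re y) ^ 3 ≤ c * n ^ 2 → Good r η C n y

/-! ## spectral estimates -/

/-- the spectral radius is `al r * n + O(1)` -/
def Stmt_LAM : Prop := ∀ (r : ℕ), 3 ≤ r → ∃ (δ : ℝ) (n0 : ℕ), 0 < δ ∧ ∀ n ≥ n0,
  ∀ (V : Type) [Fintype V] (G : SimpleGraph V) (x : V → ℝ) (lam : ℝ) (c : V → Fin r)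
    (H : Finset V), C0 r δ n G c H → (∀ i, |sz H c i - n / r| ≤ 2 * √(n : ℝ)) → PV G x lam →
    |lam - al r * n| ≤ 4 * r + 1

/-- expansion of the secular function -/
def Stmt_TAY : Prop := ∀ (r : ℕ) (B : ℝ), 3 ≤ r → 1 ≤ B → ∃ C : ℝ, 1 ≤ C ∧
  ∀ (n : ℕ) (y z : Fin r → ℝ) (lam : ℝ), C ≤ n → |lam - al r * n| ≤ B → ∑ i, y i = n →
    ∑ i, z i = n → mo 2 n y ≤ B * n → mo 2 n z ≤ B * n →
    |(n : ℝ) ^ 2 / al r * (Ph y lam - Ph z lam)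
      - ((mo 2 n z - mo 2 n y) + (mo 3 n y - mo 3 n z) / n + (mo 4 n z - mo 4 n y) / n ^ 2)|
      ≤ C / √(n : ℝ) + C * |mo 2 n y - mo 2 n z| / n

/-- the secular function at the spectral radius, type `WD` -/
def Stmt_SECD : Prop := ∀ (r : ℕ) (e : ℝ), 3 ≤ r → 0 < e → ∃ (δ : ℝ) (n0 : ℕ), 0 < δ ∧
  ∀ n ≥ n0, ∀ (V : Type) [Fintype V] (G : SimpleGraph V) (x : V → ℝ) (lam : ℝ)
    (c : V → Fin r) (H : Finset V) (w : V) (A : Finset V) (v1 v2 : V), C0 r δ n G c H →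
    PV G x lam → WD G n H c w A v1 v2 →
    2 - e * (1 + A.card) ≤ (n : ℝ) ^ 2 * Ph (sz H c) lam ∧
      (n : ℝ) ^ 2 * Ph (sz H c) lam ≤ 2 + e

/-- type `WF` -/
def Stmt_SECF : Prop := ∀ (r : ℕ) (e : ℝ), 3 ≤ r → 0 < e → ∃ (δ : ℝ) (n0 : ℕ), 0 < δ ∧
  ∀ n ≥ n0, ∀ (V : Type) [Fintype V] (G : SimpleGraph V) (x : V → ℝ) (lam : ℝ)
    (c : V → Fin r) (H : Finset V) (w : V) (T : Finset V), C0 r δ n G c H →
    PV G x lam → WF G n H c w T →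
    mis G H c - e * (1 + mis G H c) ≤ (n : ℝ) ^ 2 * Ph (sz H c) lam

/-- type `WE` -/
def Stmt_SECE : Prop := ∀ (r : ℕ) (e : ℝ), 3 ≤ r → 0 < e → ∃ (δ : ℝ) (n0 : ℕ), 0 < δ ∧
  ∀ n ≥ n0, ∀ (V : Type) [Fintype V] (G : SimpleGraph V) (x : V → ℝ) (lam : ℝ)
    (c : V → Fin r) (H : Finset V) (w u : V) (A B : Finset V) (i0 : Fin r), C0 r δ n G c H →
    PV G x lam → WE G n H c w u A B i0 →
    - (e * (1 + A.card)) ≤ (n : ℝ) ^ 2 * Ph (sz H c) lam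

/-- gadgets with given class sizes on a given set -/
def Stmt_MKD : Prop := ∀ (r : ℕ), 3 ≤ r → ∀ (V : Type) [Fintype V] (H : Finset V) (w : V)
  (y : Fin r → ℕ), w ∉ H → ∑ i, y i = H.card → (∀ i, 1 ≤ y i) →
  ∃ (c : V → Fin r) (A : Finset V) (v1 v2 : V),
    WD (gD H c w A v1 v2) H.card H c w A v1 v2 ∧ A.card = r ∧ ∀ i, (cl H c i).card = y i

/-! ## the theorems on gadgets -/

/-- an extremal graph is a gadget if there is a gadget with the right number of edges -/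
def Stmt_W1 : Prop := ∀ (r : ℕ) (η C : ℝ), 3 ≤ r → 0 < η → η ≤ 1 / (4 * r) → 0 < C →
  ∃ (δ : ℝ) (n0 : ℕ), 0 < δ ∧ ∀ n ≥ n0, ∀ (V : Type) [Fintype V] (G : SimpleGraph V)
    (c : V → Fin r) (H : Finset V) (y : Fin r → ℕ), C0 r δ n G c H →
    (∀ i, |sz H c i - n / r| ≤ 2 * √(n : ℝ)) → G.CliqueFree (r + 1) → ¬ G.Colorable r →
    MX r G → ∑ i, y i = n → mo 2 n (re y) ≤ 4 * r * n → Good r η C n y →
    pE G = (n : ℝ) ^ 2 - ∑ i, (y i : ℝ) ^ 2 + 2 * (r - 1) →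
    ∃ (w : V) (A : Finset V) (v1 v2 : V), WD G n H c w A v1 v2 ∧ A.card = r

/-- the largest class is as large as possible -/
def Stmt_BIG : Prop := ∀ (r : ℕ) (ε : ℝ), 3 ≤ r → 0 < ε → ∃ (δ : ℝ) (n0 : ℕ), 0 < δ ∧
  ∀ n ≥ n0, ∀ (V : Type) [Fintype V] (G : SimpleGraph V) (c : V → Fin r) (H : Finset V)
    (w : V) (A : Finset V) (v1 v2 : V) (y : Fin r → ℕ) (i1 : Fin r), C0 r δ n G c H →
    (∀ i, |sz H c i - n / r| ≤ 2 * √(n : ℝ)) → MX r G → WD G n H c w A v1 v2 → A.card = r →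
    ∑ i, y i = n → ε * n ≤ mo 2 n (re y) → mo 2 n (re y) ≤ 4 * r * n → Top1 y i1 →
    pE G = (n : ℝ) ^ 2 - ∑ i, (y i : ℝ) ^ 2 + 2 * (r - 1) → ∃ i, (cl H c i).card = y i1

/-- the missing edge joins two largest classes -/
def Stmt_TOPG : Prop := ∀ (r : ℕ), 3 ≤ r → ∃ (δ : ℝ) (n0 : ℕ), 0 < δ ∧ ∀ n ≥ n0,
  ∀ (V : Type) [Fintype V] (G : SimpleGraph V) (c : V → Fin r) (H : Finset V) (w : V)
    (A : Finset V) (v1 v2 : V), C0 r δ n G c H → MX r G → WD G n H c w A v1 v2 →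
    A.card = r → Top H c {c v1, c v2}

/-- `FIN3` with an upper bound for `j` in the third case -/
def Stmt_FIN4 : Prop := ∀ (r : ℕ) (δ : ℝ), 3 ≤ r → 0 < δ → ∃ ε : ℝ, 0 < ε ∧ ∀ δ' : ℝ, 0 < δ' →
  ∃ (δ1 : ℝ) (N0 : ℕ), 0 < δ1 ∧ ∀ N ≥ N0, ∀ j : ℕ, (j : ℝ) ≤ al r * N →
  ∀ (V : Type) [Fintype V] (G : SimpleGraph V) (x : V → ℝ) (lam : ℝ),
    G.CliqueFree (r + 1) → PV G x lam → |pE G - al r * N ^ 2 - 2 * j| ≤ (r : ℝ) →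
    al r * N + j / N - al r * ((1 - j / (al r * N)) * min (j / (al r * N)) (1 - 2 / r)) - δ1
      ≤ lam →
    (∃ (c : V → Fin r) (H : Finset V), C0 r δ N G c H ∧ (∀ i, |sz H c i - N / r| ≤ 2 * √N) ∧
      (j : ℝ) ≤ δ * N) ∨
    (∃ (c : V → Fin r) (H : Finset V), C0 r δ (N + 1) G c H ∧
      (∀ i, |sz H c i - (N + 1) / r| ≤ 2 * √(N + 1)) ∧
      (1 - 2 / r - δ) * (al r * N) ≤ j) ∨
    (RgA r ε N j ∧ (j : ℝ) ≤ (1 - 2 / r + δ) * (al r * N) ∧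
      ∃ (c : V → Fin r) (H : Finset V) (w : V), FD r δ' N j G x lam c H w ∧
      ∀ i, |sz H c i - N / r| ≤ 2 * √N)

end Pool.Agent.Work.MP_5532fa_up
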