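import Pool.Agent.Work.MP_5532fa_up.Interface4

/-! Block MKD: gadgets with given class sizes on a given set. -/

open Finset

namespace Pool.Agent.Work.MP_5532fa_up

theorem blk_MKD : Stmt_MKD := by
  classical
  intro r hr V _ H w y hw hsum hy
  have hcard : Fintype.card (Σ i : Fin r, Fin (y i)) = Fintype.card {v // v ∈ H} := by
    rw [Fintype.card_sigma, Fintype.card_coe, ← hsum]
    exact sum_congr rfl fun i _ => Fintype.card_fin _
  let e : (Σ i : Fin r, Fin (y i)) ≃ {v // v ∈ H} := Fintype.equivOfCardEq hcard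
  let c : V → Fin r := fun v => if hv : v ∈ H then (e.symm ⟨v, hv⟩).1 else ⟨0, by omega⟩
  have hce : ∀ p : Σ i : Fin r, Fin (y i), c (e p : V) = p.1 := by
    intro p
    change (if hv : (e p : V) ∈ H then (e.symm ⟨(e p : V), hv⟩).1 else ⟨0, by omega⟩) = p.1
    rw [dif_pos (e p).2]
    have h1 : (⟨(e p : V), (e p).2⟩ : {v // v ∈ H}) = e p := Subtype.ext rfl
    rw [h1, Equiv.symm_apply_apply]
  let s : Fin r → V := fun i => (e ⟨i, ⟨0, hy i⟩⟩ : V)
  have hsH : ∀ i, s i ∈ H := fun i => (e ⟨i, ⟨0, hy i⟩⟩).2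
  have hcs : ∀ i, c (s i) = i := fun i => hce ⟨i, ⟨0, hy i⟩⟩
  let A : Finset V := univ.image s
  have hA : A ⊆ H := by
    intro v hv
    obtain ⟨i, _, rfl⟩ := mem_image.1 hv
    exact hsH i
  have hclA : ∀ i, cl A c i = {s i} := by
    intro i
    ext v
    rw [mem_cl, mem_singleton, mem_image]
    constructor
    · rintro ⟨⟨k, _, rfl⟩, hk⟩
      rw [hcs] at hk
      rw [hk]
    · rintro rfl
      exact ⟨⟨i, mem_univ i, rfl⟩, hcs i⟩
  have hv1 : c (s ⟨0, by omega⟩) = ⟨0, by omega⟩ := hcs _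
  have hv2 : c (s ⟨1, by omega⟩) = ⟨1, by omega⟩ := hcs _
  refine ⟨c, A, s ⟨0, by omega⟩, s ⟨1, by omega⟩, gD_WD rfl hw hA ?_ ?_ ?_ ?_, ?_, ?_⟩
  · rw [hv1, hv2]
    intro h
    have h2 := congrArg Fin.val h
    simp at h2
  · rw [hv1]; exact hclA _
  · rw [hv2]; exact hclA _
  · intro i
    rw [hclA]
    exact singleton_nonempty _
  · have hinj : Function.Injective s := fun i k h => by
      have h1 := congrArg c h
      rwa [hcs, hcs] at h1
    rw [card_image_of_injective _ hinj, card_univ, Fintype.card_fin]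
  · intro i
    have h1 : cl H c i = (univ : Finset (Fin (y i))).image (fun k => (e ⟨i, k⟩ : V)) := by
      ext v
      rw [mem_cl, mem_image]
      constructor
      · rintro ⟨hv, hci⟩
        have h2 : c v = (e.symm ⟨v, hv⟩).1 := dif_pos hv
        obtain ⟨p, hp⟩ : ∃ p, e p = ⟨v, hv⟩ := ⟨e.symm ⟨v, hv⟩, e.apply_symm_apply _⟩
        have h3 : p.1 = i := by
          rw [← hci, h2, ← hp, Equiv.symm_apply_apply]
        obtain ⟨i', k⟩ := p
        simp only at h3
        subst h3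
        exact ⟨k, mem_univ k, by rw [hp]⟩
      · rintro ⟨k, _, rfl⟩
        exact ⟨(e ⟨i, k⟩).2, hce _⟩
    rw [h1, card_image_of_injective, card_univ, Fintype.card_fin]
    intro k k' h
    have h2 : e ⟨i, k⟩ = e ⟨i, k'⟩ := Subtype.ext h
    have h3 := e.injective h2
    exact eq_of_heq (Sigma.mk.inj h3).2

end Pool.Agent.Work.MP_5532fa_up
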