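import Pool.Agent.Work.MP_5532fa_up.Interface4
import Pool.Agent.Work.MP_5532fa_up.EST1

/-!
# MP_5532fa_co, upgrade, fourth round: the secular function, common part of SECD, SECF, SECE
-/

set_option autoImplicit false

open Finset

namespace Pool.Agent.Work.MP_5532fa_up

open MP5532fa (specRad qf pE)

namespace SEC0

section
variable {V : Type} [Fintype V] {r : ℕ} {G : SimpleGraph V} {H : Finset V} {c : V → Fin r}

/-- the class sums of the eigenvector -/
theorem cs_eq (h : ∀ u ∈ H, ∀ v ∈ H, c u = c v → ¬ G.Adj u v) {x : V → ℝ} {lam : ℝ}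
    (hpv : PV G x lam) (i : Fin r) :
    (lam + sz H c i) * cs x H c i = sz H c i * ∑ u ∈ H, x u
      + (∑ v ∈ cl H c i, EST1.ot G H x v - ∑ v ∈ cl H c i, EST1.ms G H c x v) := by
  have h1 : ∀ v ∈ cl H c i, lam * x v = (∑ u ∈ H, x u - cs x H c i)
      + (EST1.ot G H x v - EST1.ms G H c x v) := by
    intro v hv
    rw [mem_cl] at hv
    have := EST1.row h hpv hv.1
    rw [hv.2] at this
    linarith
  have h2 := Finset.sum_congr (rfl : cl H c i = cl H c i) h1
  rw [← Finset.mul_sum, Finset.sum_add_distrib, Finset.sum_const, nsmul_eq_mul,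
    Finset.sum_sub_distrib] at h2
  have h3 : ∑ v ∈ cl H c i, x v = cs x H c i := rfl
  have h4 : ((cl H c i).card : ℝ) = sz H c i := rfl
  rw [h3, h4] at h2
  linarith

/-- the secular identity -/
theorem sec_eq (h : ∀ u ∈ H, ∀ v ∈ H, c u = c v → ¬ G.Adj u v) {x : V → ℝ} {lam : ℝ}
    (hpv : PV G x lam) (hpos : ∀ i, 0 < lam + sz H c i) :
    (∑ u ∈ H, x u) * Ph (sz H c) lam
      = ∑ i, (∑ v ∈ cl H c i, EST1.ms G H c x v) / (lam + sz H c i)
        - ∑ i, (∑ v ∈ cl H c i, EST1.ot G H x v) / (lam + sz H c i) := by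
  have h1 : ∀ i, cs x H c i = (∑ u ∈ H, x u) * (sz H c i / (lam + sz H c i))
      + ((∑ v ∈ cl H c i, EST1.ot G H x v) / (lam + sz H c i)
        - (∑ v ∈ cl H c i, EST1.ms G H c x v) / (lam + sz H c i)) := by
    intro i
    have h2 := cs_eq h hpv i
    have h3 := (hpos i).ne'
    field_simp
    linarith
  have h2 : ∑ i, cs x H c i = ∑ u ∈ H, x u := sum_cl H c x
  have h3 : ∑ i, cs x H c i = (∑ u ∈ H, x u) * ∑ i, (sz H c i / (lam + sz H c i))
      + (∑ i, (∑ v ∈ cl H c i, EST1.ot G H x v) / (lam + sz H c i)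
        - ∑ i, (∑ v ∈ cl H c i, EST1.ms G H c x v) / (lam + sz H c i)) := by
    rw [Finset.sum_congr rfl fun i _ => h1 i, Finset.sum_add_distrib, Finset.mul_sum,
      Finset.sum_sub_distrib]
  unfold Ph
  rw [h2] at h3
  linarith

/-- bounds for a sum divided by almost constant numbers -/
theorem div_bounds {ι : Type} [Fintype ι] {a p : ι → ℝ} {e n : ℝ} (he1 : e < 1)
    (hn : 0 < n) (ha : ∀ i, 0 ≤ a i) (hp : ∀ i, |p i - n| ≤ e * n) :
    (∑ i, a i) / ((1 + e) * n) ≤ ∑ i, a i / p i ∧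
      ∑ i, a i / p i ≤ (∑ i, a i) / ((1 - e) * n) := by
  have h1 : ∀ i, (1 - e) * n ≤ p i ∧ p i ≤ (1 + e) * n := by
    intro i
    have := abs_le.mp (hp i)
    constructor <;> linarith [this.1, this.2]
  have h2 : 0 < (1 - e) * n := mul_pos (by linarith) hn
  constructor
  · rw [Finset.sum_div]
    exact Finset.sum_le_sum fun i _ =>
      div_le_div_of_nonneg_left (ha i) (lt_of_lt_of_le h2 (h1 i).1) (h1 i).2
  · rw [Finset.sum_div]
    exact Finset.sum_le_sum fun i _ => div_le_div_of_nonneg_left (ha i) h2 (h1 i).1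

/-- real inequalities, lower bound -/
theorem realL {M O s Q e : ℝ} (hM : 0 ≤ M) (hO : 0 ≤ O) (he : 0 ≤ e) (he1 : e ≤ 1 / 20)
    (s1 : 1 - e ≤ s) (s2 : s ≤ 1 + e) (h : M / (1 + 2 * e) - O / (1 - 2 * e) ≤ s * Q) :
    M * (1 - 4 * e) - O * 2 ≤ Q := by
  have hs0 : 0 < s := by linarith
  have d1 : M * (1 - 2 * e) ≤ M / (1 + 2 * e) := by
    rw [le_div_iff₀ (by linarith)]
    nlinarith [mul_nonneg hM (mul_nonneg he he)]
  have d2 : O / (1 - 2 * e) ≤ O * (10 / 9) := by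
    rw [div_le_iff₀ (by linarith)]
    nlinarith
  by_contra hcon
  push Not at hcon
  have d4 : s * Q < s * (M * (1 - 4 * e) - O * 2) := mul_lt_mul_of_pos_left hcon hs0
  have d5 : s * (M * (1 - 4 * e)) ≤ (1 + e) * (M * (1 - 4 * e)) :=
    mul_le_mul_of_nonneg_right s2 (mul_nonneg hM (by linarith))
  have d6 : (1 - e) * (O * 2) ≤ s * (O * 2) := mul_le_mul_of_nonneg_right s1 (by linarith)
  have d7 : (1 + e) * (M * (1 - 4 * e)) ≤ M * (1 - 2 * e) := by
    have : (1 + e) * (1 - 4 * e) ≤ 1 - 2 * e := by nlinarith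
    calc (1 + e) * (M * (1 - 4 * e)) = M * ((1 + e) * (1 - 4 * e)) := by ring
      _ ≤ M * (1 - 2 * e) := mul_le_mul_of_nonneg_left this hM
  have d8 : O * (10 / 9) ≤ (1 - e) * (O * 2) := by nlinarith
  have d9 : s * (M * (1 - 4 * e) - O * 2) = s * (M * (1 - 4 * e)) - s * (O * 2) := by ring
  linarith

/-- real inequalities, upper bound -/
theorem realU {M s Q e : ℝ} (hM : 0 ≤ M) (he : 0 ≤ e) (he1 : e ≤ 1 / 20)
    (s1 : 1 - e ≤ s) (h : s * Q ≤ M / (1 - 2 * e)) : Q ≤ M * (1 + 5 * e) := by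
  have hs0 : 0 < s := by linarith
  have d1 : M / (1 - 2 * e) ≤ M * (1 + 3 * e) := by
    rw [div_le_iff₀ (by linarith)]
    have : 1 ≤ (1 + 3 * e) * (1 - 2 * e) := by nlinarith
    calc M = M * 1 := (mul_one _).symm
      _ ≤ M * ((1 + 3 * e) * (1 - 2 * e)) := mul_le_mul_of_nonneg_left this hM
      _ = M * (1 + 3 * e) * (1 - 2 * e) := by ring
  by_contra hcon
  push Not at hcon
  have d2 : s * (M * (1 + 5 * e)) < s * Q := mul_lt_mul_of_pos_left hcon hs0
  have d3 : (1 - e) * (M * (1 + 5 * e)) ≤ s * (M * (1 + 5 * e)) :=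
    mul_le_mul_of_nonneg_right s1 (mul_nonneg hM (by linarith))
  have d4 : M * (1 + 3 * e) ≤ (1 - e) * (M * (1 + 5 * e)) := by
    have : 1 + 3 * e ≤ (1 - e) * (1 + 5 * e) := by nlinarith
    calc M * (1 + 3 * e) ≤ M * ((1 - e) * (1 + 5 * e)) := mul_le_mul_of_nonneg_left this hM
      _ = (1 - e) * (M * (1 + 5 * e)) := by ring
  linarith

/-- rescaling, lower bound -/
theorem resL {M O xb n s P Q S e : ℝ} (hxb : 0 < xb) (hn : 0 < n) (he : 0 ≤ e)
    (he1 : e ≤ 1 / 20) (hs : S = s * (n * xb)) (hQ : Q = n ^ 2 * P)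
    (h : M / ((1 + 2 * e) * n) - O / ((1 - 2 * e) * n) ≤ S * P) :
    M / xb / (1 + 2 * e) - O / xb / (1 - 2 * e) ≤ s * Q := by
  have h1 : M / ((1 + 2 * e) * n) - O / ((1 - 2 * e) * n)
      = (M / xb / (1 + 2 * e) - O / xb / (1 - 2 * e)) * (xb / n) := by
    have : (1 + 2 * e) ≠ 0 := by linarith
    have : (1 - 2 * e) ≠ 0 := by linarith
    field_simp
  have h2 : S * P = (s * Q) * (xb / n) := by
    rw [hs, hQ]
    field_simp
  rw [h1, h2] at h
  exact le_of_mul_le_mul_right h (div_pos hxb hn)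

/-- rescaling, upper bound -/
theorem resU {M xb n s P Q S e : ℝ} (hxb : 0 < xb) (hn : 0 < n)
    (he1 : e ≤ 1 / 20) (hs : S = s * (n * xb)) (hQ : Q = n ^ 2 * P)
    (h : S * P ≤ M / ((1 - 2 * e) * n)) : s * Q ≤ M / xb / (1 - 2 * e) := by
  have h1 : M / ((1 - 2 * e) * n) = (M / xb / (1 - 2 * e)) * (xb / n) := by
    have : (1 - 2 * e) ≠ 0 := by linarith
    field_simp
  have h2 : S * P = (s * Q) * (xb / n) := by
    rw [hs, hQ]
    field_simp
  rw [h1, h2] at h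
  exact le_of_mul_le_mul_right h (div_pos hxb hn)

/-- the value of the secular function -/
theorem key {δ e : ℝ} {n : ℕ} {x : V → ℝ} {lam xb : ℝ} (hC : C0 r δ n G c H)
    (hpv : PV G x lam) (hF : Fl r e n H x lam xb) (he : 0 ≤ e) (he1 : e ≤ 1 / 20) (hδ : δ ≤ e)
    (hn : 1 ≤ n) :
    (∑ v ∈ H, EST1.ms G H c x v) / xb * (1 - 4 * e)
        - (∑ v ∈ H, EST1.ot G H x v) / xb * 2 ≤ (n : ℝ) ^ 2 * Ph (sz H c) lam ∧
      (n : ℝ) ^ 2 * Ph (sz H c) lam ≤ (∑ v ∈ H, EST1.ms G H c x v) / xb * (1 + 5 * e) := by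
  have hn0 : (0 : ℝ) < n := by
    have : (1 : ℝ) ≤ n := by exact_mod_cast hn
    linarith
  have hxb := hF.xb0
  set S := ∑ u ∈ H, x u with hS
  set M := ∑ v ∈ H, EST1.ms G H c x v with hM
  set O := ∑ v ∈ H, EST1.ot G H x v with hO
  have hms : ∀ i, 0 ≤ ∑ v ∈ cl H c i, EST1.ms G H c x v := fun i =>
    Finset.sum_nonneg fun v _ => EST1.ms_nonneg hpv.nn v
  have hot : ∀ i, 0 ≤ ∑ v ∈ cl H c i, EST1.ot G H x v := fun i =>
    Finset.sum_nonneg fun v _ => EST1.ot_nonneg hpv.nn v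
  have hM0 : 0 ≤ M := Finset.sum_nonneg fun v _ => EST1.ms_nonneg hpv.nn v
  have hO0 : 0 ≤ O := Finset.sum_nonneg fun v _ => EST1.ot_nonneg hpv.nn v
  have hMs : ∑ i, ∑ v ∈ cl H c i, EST1.ms G H c x v = M := sum_cl H c _
  have hOs : ∑ i, ∑ v ∈ cl H c i, EST1.ot G H x v = O := sum_cl H c _
  -- the denominators
  have hp : ∀ i, |(lam + sz H c i) - n| ≤ (2 * e) * n := by
    intro i
    have h1 := abs_le.mp hF.lamN
    have h2 := abs_le.mp (hC.bal i)
    have h3 : δ * n ≤ e * n := mul_le_mul_of_nonneg_right hδ hn0.le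
    have h4 : al r * n = n - n / r := by unfold al; ring
    rw [h4] at h1
    rw [abs_le]
    constructor <;> linarith [h1.1, h1.2, h2.1, h2.2]
  have hpos : ∀ i, 0 < lam + sz H c i := by
    intro i
    have h1 := abs_le.mp (hp i)
    have h2 : (2 * e) * n ≤ (1 / 10) * n := mul_le_mul_of_nonneg_right (by linarith) hn0.le
    linarith [h1.1]
  -- the sum of the entries
  have hS1 : (1 - e) * (n * xb) ≤ S ∧ S ≤ (1 + e) * (n * xb) := by
    have h1 : ∀ v ∈ H, (1 - e) * xb ≤ x v ∧ x v ≤ (1 + e) * xb := by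
      intro v hv
      have := abs_le.mp (hF.xH v hv)
      constructor <;> linarith [this.1, this.2]
    have h2 : (H.card : ℝ) = n := by rw [hC.card]
    constructor
    · have := Finset.sum_le_sum fun v hv => (h1 v hv).1
      rw [Finset.sum_const, nsmul_eq_mul, h2] at this
      linarith
    · have := Finset.sum_le_sum fun v hv => (h1 v hv).2
      rw [Finset.sum_const, nsmul_eq_mul, h2] at this
      linarith
  have hnx : 0 < n * xb := mul_pos hn0 hxb
  have hSpos : 0 < S := lt_of_lt_of_le (mul_pos (by linarith) hnx) hS1.1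
  have hid := sec_eq hC.ind hpv hpos
  rw [← hS] at hid
  obtain ⟨m1, m2⟩ := div_bounds (e := 2 * e) (n := (n : ℝ)) (by linarith) hn0 hms hp
  obtain ⟨o1, o2⟩ := div_bounds (e := 2 * e) (n := (n : ℝ)) (by linarith) hn0 hot hp
  rw [hMs] at m1 m2
  rw [hOs] at o1 o2
  have ho0 : 0 ≤ O / ((1 + 2 * e) * n) := div_nonneg hO0 (mul_nonneg (by linarith) hn0.le)
  set P := Ph (sz H c) lam with hP
  -- `S * P` is between the bounds
  have b1 : M / ((1 + 2 * e) * n) - O / ((1 - 2 * e) * n) ≤ S * P := by rw [hid]; linarith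
  have b2 : S * P ≤ M / ((1 - 2 * e) * n) := by rw [hid]; linarith
  have eS : S = (S / (n * xb)) * (n * xb) := by field_simp
  have s1 : 1 - e ≤ S / (n * xb) := by rw [le_div_iff₀ hnx]; exact hS1.1
  have s2 : S / (n * xb) ≤ 1 + e := by rw [div_le_iff₀ hnx]; exact hS1.2
  exact ⟨realL (div_nonneg hM0 hxb.le) (div_nonneg hO0 hxb.le) he he1 s1 s2
      (resL hxb hn0 he he1 eS rfl b1),
    realU (div_nonneg hM0 hxb.le) he he1 s1 (resU hxb hn0 he1 eS rfl b2)⟩

end

end SEC0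

end Pool.Agent.Work.MP_5532fa_up
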